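import Mathlib
import Pool.Agent.TD.Defs
import Pool.Agent.TD.T.Basic

/-! Parts: TD.BG.Defs, TD.T.Stmts, TD.T.T2, TD.T.Tree, TD.T.Ext, TD.T.Res, TD.T.Lift, TD.T.Gauss, TD.T.Prod, TD.T.Core, TD.U.Tk1, TD.U.Tk2 -/

section

/-!
# Blocks BG (local structure of tropicalizations) and M (Berkovich spectra): definitions
-/

open scoped ContDiff Topology NNReal

namespace Pool.Agent.TD.BG

/-! ### Weighted sup norms on finitely supported functions -/

/-- The weighted sup norm of a finitely supported function. -/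
noncomputable def nrm {K E : Type} [NormedField K] (wt : E → ℝ≥0) (F : E →₀ K) : ℝ≥0 :=
  F.support.sup fun u => ‖F u‖₊ * wt u

/-- `F` is single at `wt`, with leading monomial `u`. -/
def Single {K E : Type} [NormedField K] (wt : E → ℝ≥0) (F : E →₀ K) (u : E) : Prop :=
  F u ≠ 0 ∧ ∀ u', u' ≠ u → ‖F u'‖₊ * wt u' < ‖F u‖₊ * wt u

/-- `u` is the leading monomial of `F` for the strict total order `r`: among the monomials of
maximal weighted absolute value it is the largest one. -/
def IsLM {K E : Type} [NormedField K] (wt : E → ℝ≥0) (r : E → E → Prop) (F : E →₀ K) (u : E) :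
    Prop :=
  F u ≠ 0 ∧ ∀ u', u' ≠ u → ‖F u'‖₊ * wt u' ≤ ‖F u‖₊ * wt u ∧
    (r u u' → ‖F u'‖₊ * wt u' < ‖F u‖₊ * wt u)

/-- `W` is (the set of representatives of the non-zero homogeneous elements of) a graded subspace
of the graded reduction of the space of functions supported on `M`. -/
structure GSub {K E : Type} [NormedField K] (wt : E → ℝ≥0) (M : Set E) (W : Set (E →₀ K)) :
    Prop where
  ne : ∀ F ∈ W, F ≠ 0
  mon : ∀ F ∈ W, ∀ u, F u ≠ 0 → u ∈ M
  approx : ∀ F ∈ W, ∀ G : E →₀ K, (∀ u, G u ≠ 0 → u ∈ M) → nrm wt (F - G) < nrm wt F → G ∈ W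
  add : ∀ F ∈ W, ∀ G ∈ W, nrm wt F = nrm wt G → nrm wt (F + G) = nrm wt F → F + G ∈ W
  smul : ∀ c : K, c ≠ 0 → ∀ F ∈ W, c • F ∈ W

/-- Total degree of an exponent. -/
def deg {n : ℕ} (u : Fin n → ℕ) : ℕ := ∑ i, u i

/-- The weight `exp <u, w>` of the monomial `u`. -/
noncomputable def wtN {n : ℕ} (w : Fin n → ℝ) (u : Fin n → ℕ) : ℝ≥0 :=
  ⟨Real.exp (∑ i, (u i : ℝ) * w i), (Real.exp_pos _).le⟩

/-- Multiplication by the monomial `a`. -/
noncomputable def sh {K : Type} [NormedField K] {n : ℕ} (a : Fin n → ℕ)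
    (F : (Fin n → ℕ) →₀ K) : (Fin n → ℕ) →₀ K :=
  F.mapDomain fun u => u + a

/-- The monomial `x_i^k`. -/
def xp {n : ℕ} (i : Fin n) (k : ℕ) : Fin n → ℕ := Pi.single i k

/-- `F` is homogeneous of degree `d`. -/
def Hom {K : Type} [NormedField K] {n : ℕ} (d : ℕ) (F : (Fin n → ℕ) →₀ K) : Prop :=
  ∀ u, F u ≠ 0 → deg u = d

/-- A graded system: for every degree `d` a graded subspace `W d` of polynomials homogeneous of
degree `d`, stable under multiplication by monomials. -/
structure GSys {K : Type} [NormedField K] {n : ℕ} (w : Fin n → ℝ)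
    (W : ℕ → Set ((Fin n → ℕ) →₀ K)) : Prop where
  gsub : ∀ d, GSub (wtN w) {u | deg u = d} (W d)
  shift : ∀ d, ∀ F ∈ W d, ∀ a, sh a F ∈ W (d + deg a)

/-- The order on monomials used for the variable `x_i`: a smaller exponent of `x_i` is larger, ties
are decided lexicographically. -/
def ord {n : ℕ} (i : Fin n) (u u' : Fin n → ℕ) : Prop :=
  u' i < u i ∨ (u i = u' i ∧ toLex u < toLex u')

/-- The leading monomials of degree `d` of the system `W`, for the order `ord i`. -/
def LMs {K : Type} [NormedField K] {n : ℕ} (w : Fin n → ℝ) (W : ℕ → Set ((Fin n → ℕ) →₀ K))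
    (i : Fin n) (d : ℕ) : Set (Fin n → ℕ) :=
  {u | ∃ F ∈ W d, IsLM (wtN w) (ord i) F u}

/-- The system of initial forms of the elements of `J`. -/
def InJ {K : Type} [NormedField K] {n : ℕ} (w : Fin n → ℝ)
    (J : Submodule K ((Fin n → ℕ) →₀ K)) (d : ℕ) : Set ((Fin n → ℕ) →₀ K) :=
  {F | F ≠ 0 ∧ Hom d F ∧ ∃ G ∈ J, Hom d G ∧ nrm (wtN w) (F - G) < nrm (wtN w) F}

/-! ### Polyhedra -/

/-- A closed polyhedron in `ℝ^ι`. -/
def IsPolyh {ι : Type} [Fintype ι] (S : Set (ι → ℝ)) : Prop :=
  ∃ (n : ℕ) (l : Fin n → ι → ℝ) (c : Fin n → ℝ), S = {x | ∀ j, ∑ i, l j i * x i ≤ c j}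

/-- A finite union of closed polyhedra. -/
def IsPolyU {ι : Type} [Fintype ι] (S : Set (ι → ℝ)) : Prop :=
  ∃ (n : ℕ) (σ : Fin n → Set (ι → ℝ)), (∀ i, IsPolyh (σ i)) ∧ S = ⋃ i, σ i

/-! ### Laurent polynomials -/

/-- Laurent polynomials over `K` in the variables `ι`. -/
abbrev Laur (K ι : Type) [NormedField K] : Type := AddMonoidAlgebra K (ι → ℤ)

/-- The weight `exp <u, w>` of the Laurent monomial `u`. -/
noncomputable def wtZ {ι : Type} [Fintype ι] (w : ι → ℝ) (u : ι → ℤ) : ℝ≥0 :=
  ⟨Real.exp (∑ i, (u i : ℝ) * w i), (Real.exp_pos _).le⟩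

/-- A Laurent polynomial as a finitely supported function. -/
def co {K ι : Type} [NormedField K] (F : Laur K ι) : (ι → ℤ) →₀ K := F.coeff

/-- The tropicalization of an ideal: no element is single. -/
def Trop {K ι : Type} [NormedField K] [Fintype ι] (I : Ideal (Laur K ι)) : Set (ι → ℝ) :=
  {w | ∀ F ∈ I, ∀ u, ¬ Single (wtZ w) (co F) u}

/-- The variable `T_i`. -/
noncomputable def var {K ι : Type} [NormedField K] [DecidableEq ι] (i : ι) : Laur K ι :=
  AddMonoidAlgebra.single (Pi.single i 1) 1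

/-! ### Berkovich spectra -/

/-- Contravariant functoriality. -/
def comap {K A B : Type} [NormedField K] [CommRing A] [CommRing B] [Algebra K A] [Algebra K B]
    (f : A →ₐ[K] B) (z : Ber K B) : Ber K A where
  v a := z.v (f a)
  nonneg a := z.nonneg _
  one := by rw [map_one, z.one]
  mul a b := by rw [map_mul, z.mul]
  add a b := by rw [map_add]; exact z.add _ _
  ext c := by rw [AlgHom.commutes, z.ext]

/-- The closed box with centre `z`: `| log|a| - log|a|_z | ≤ ε` for `a ∈ t` with `|a|_z ≠ 0`,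
`|a| ≤ δ` for `a ∈ t` with `|a|_z = 0`. -/
def box {K A : Type} [NormedField K] [CommRing A] [Algebra K A] (z : Ber K A) (t : Finset A)
    (ε δ : ℝ) : Set (Ber K A) :=
  {z' | ∀ a ∈ t, (z.v a ≠ 0 → z'.v a ≠ 0 ∧ |Real.log (z'.v a) - Real.log (z.v a)| ≤ ε) ∧
    (z.v a = 0 → z'.v a ≤ δ)}

/-- The stratum of `M(A)` where exactly the functions `a ∈ J` among `a ∈ t` do not vanish. -/
def stra {K A : Type} [NormedField K] [CommRing A] [Algebra K A] (t J : Finset A) :
    Set (Ber K A) :=
  {z | ∀ a ∈ t, z.v a ≠ 0 ↔ a ∈ J}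

/-- The ideal `I_J` of the stratum: Laurent polynomials `F` in the variables `J` such that some
monomial multiple of `F` is a polynomial whose value in `A` is in the ideal generated by
`t - J`. -/
def IJ {K A : Type} [NormedField K] [CommRing A] [Algebra K A] [DecidableEq A]
    (t J : Finset A) (F : Laur K J) : Prop :=
  ∃ (u : J → ℕ) (P : MvPolynomial J K),
    F * AddMonoidAlgebra.single (fun j => (u j : ℤ)) 1 =
      MvPolynomial.aeval (fun j : J => var j) P ∧
    MvPolynomial.aeval (fun j : J => (j : A)) P ∈ Ideal.span (↑(t \ J) : Set A)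

end Pool.Agent.TD.BG


end

section

/-!
# Block T: the tree `M(H[X])` over a complete non-archimedean field `H` (MP_90358a_ag)

`H` is complete and ultrametric; the trivial absolute value is allowed.  `Set.Iic e = {z ≤ e}` is
the disc `Δ_e`.  Proofs in `Pool/Agent/TD/T/PAPER.md`.
-/

open scoped Topology
open Polynomial

namespace Pool.Agent.TD

/-- `H` (with `ι`) is the completed residue field of the point `y`. -/
structure IsRes {K A H : Type} [NormedField K] [CommRing A] [Algebra K A] [NormedField H]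
    (y : Ber K A) (ι : A →+* H) : Prop where
  norm : ∀ a, ‖ι a‖ = y.v a
  dense : ∀ (h : H) (ε : ℝ), 0 < ε → ∃ a b : A, ι b ≠ 0 ∧ ‖h - ι a / ι b‖ < ε

/-- `g` is the Gauss point of `M(L[X])` with centre `a` and radius `ρ`, where `N` is an absolute
value of the field `L`. -/
structure IsGauss {H L : Type} [NormedField H] [Field L] [Algebra H L] (N : Ber H L) (a : L)
    (ρ : ℝ) (g : Ber H L[X]) : Prop where
  lin : ∀ b, g.v (X - C b) = max ρ (N.v (a - b))
  const : ∀ b, g.v (C b) = N.v b
  top : ∀ w : Ber H L[X], (∀ b, w.v (C b) = N.v b) → w.v (X - C a) ≤ ρ → w ≤ g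

/-- `w` in `M(L[X])` lies over `z` in `M(H[X])`. -/
def Over {H L : Type} [NormedField H] [Field L] [Algebra H L] (w : Ber H L[X]) (z : Ber H H[X]) :
    Prop := ∀ f : H[X], w.v (f.map (algebraMap H L)) = z.v f

/-- `{|P| ≤ t} = {z ≤ e}` and `|P|_e = t`. -/
structure IsDisc {H : Type} [NormedField H] (P : H[X]) (t : ℝ) (e : Ber H H[X]) : Prop where
  val : e.v P = t
  le : ∀ z : Ber H H[X], z.v P ≤ t → z ≤ e

/-- (EXT) the absolute value of a complete field extends uniquely to an algebraic extension. -/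
def StmtExt : Prop := ∀ (H L : Type) [NormedField H] [IsUltrametricDist H] [CompleteSpace H]
  [Field L] [Algebra H L] [Algebra.IsAlgebraic H L], ∃ N : Ber H L, ∀ N' : Ber H L, N' = N

/-- (RES) completed residue fields exist. -/
def StmtRes : Prop := ∀ (K A : Type) [NormedField K] [CommRing A] [Algebra K A] (y : Ber K A),
  ∃ (H : Type) (_ : NormedField H) (_ : IsUltrametricDist H) (_ : CompleteSpace H)
    (ι : A →+* H), IsRes y ι

/-- (LIFT) = (M4) `M(B) → M(A)` is surjective for an injective integral homomorphism `A → B`. -/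
def StmtLift : Prop := ∀ (K A B : Type) [NormedField K] [CommRing A] [Algebra K A] [CommRing B]
  [Algebra K B] [Algebra A B] [IsScalarTower K A B] [Algebra.IsIntegral A B],
  Function.Injective (algebraMap A B) → ∀ z : Ber K A, ∃ w : Ber K B,
    ∀ a, w.v (algebraMap A B a) = z.v a

/-- (GAUSS) Gauss points. -/
def StmtGauss : Prop := ∀ (H L : Type) [NormedField H] [Field L] [Algebra H L] (N : Ber H L)
  (a : L) (ρ : ℝ), 0 ≤ ρ → ∃ g : Ber H L[X], IsGauss N a ρ g

/-- (OVER) every point of `M(H[X])` has a point of `M(L[X])` over it. -/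
def StmtOver : Prop := ∀ (H L : Type) [NormedField H] [IsUltrametricDist H] [CompleteSpace H]
  [Field L] [Algebra H L] [Algebra.IsAlgebraic H L], ∀ z : Ber H H[X], ∃ w : Ber H L[X], Over w z

/-- (CONJ) Galois action: conjugates of points of `M(L[X])`. -/
def StmtConj : Prop := ∀ (H L : Type) [NormedField H] [IsUltrametricDist H] [CompleteSpace H]
  [Field L] [Algebra H L] [IsAlgClosure H L], ∀ P : H[X], Irreducible P → ∀ a b : L,
  aeval a P = 0 → aeval b P = 0 → ∃ σ : L ≃ₐ[H] L, σ a = b ∧ (∀ (N : Ber H L) x, N.v (σ x) = N.v x) ∧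
    ∀ (z : Ber H H[X]) (w : Ber H L[X]), Over w z → ∃ w' : Ber H L[X], Over w' z ∧
      ∀ c : L, w'.v (X - C (σ c)) = w.v (X - C c)

/-- (PROD) values of polynomials in terms of their roots. -/
def StmtProd : Prop := ∀ (H L : Type) [NormedField H] [Field L] [Algebra H L] [IsAlgClosed L]
  (w : Ber H L[X]) (f : L[X]), w.v f = w.v (C f.leadingCoeff) *
    (f.roots.map fun b => w.v (X - C b)).prod

/-- (CLP) closed points: an irreducible polynomial vanishes at exactly one point. -/
def StmtClp : Prop := ∀ (H : Type) [NormedField H] [IsUltrametricDist H] [CompleteSpace H]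
  (P : H[X]), Irreducible P → ∃ c : Ber H H[X], c.v P = 0 ∧ (∀ z : Ber H H[X], z.v P = 0 → z = c) ∧
    (∀ z : Ber H H[X], z ≤ c → z = c) ∧ ∀ f : H[X], c.v f = 0 ↔ P ∣ f

/-- (CORE) -/
def StmtCore : Prop := ∀ (H L : Type) [NormedField H] [IsUltrametricDist H] [CompleteSpace H]
  [Field L] [Algebra H L] [IsAlgClosure H L], ∀ P : H[X], Irreducible P → ∀ a : L,
  aeval a P = 0 → ∀ (N : Ber H L) (ρ : ℝ) (g : Ber H L[X]), 0 ≤ ρ → IsGauss N a ρ g →
  ∀ z : Ber H H[X], z.v P ≤ g.v (P.map (algebraMap H L)) →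
    ∃ w : Ber H L[X], Over w z ∧ w.v (X - C a) ≤ ρ

/-- (T2) -/
def StmtT2 : Prop := ∀ (H : Type) [NormedField H] [IsUltrametricDist H] [CompleteSpace H]
  (P : H[X]), Irreducible P → ∀ t : ℝ, 0 ≤ t → ∃ e, IsDisc P t e

/-- (T3) -/
def StmtT3 : Prop := ∀ (H : Type) [NormedField H] [IsUltrametricDist H] [CompleteSpace H]
  (P : H[X]), Irreducible P → ∀ z e : Ber H H[X], z ≤ e → z.v P < e.v P → IsDisc P (e.v P) e

/-- (T4)-(T7) -/
structure StmtTree : Prop where
  /-- (T3a) two comparable points are separated by an irreducible polynomial. -/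
  sep : ∀ (H : Type) [NormedField H] [IsUltrametricDist H] [CompleteSpace H]
    (z e : Ber H H[X]), z < e → ∃ P : H[X], P.Monic ∧ Irreducible P ∧ z.v P < e.v P ∧
      IsDisc P (e.v P) e
  /-- (T3b) there is a point between two comparable points. -/
  between : ∀ (H : Type) [NormedField H] [IsUltrametricDist H] [CompleteSpace H]
    (z e : Ber H H[X]), z < e → ∃ m, z < m ∧ m < e
  /-- (T4) discs are nested or disjoint. -/
  comp : ∀ (H : Type) [NormedField H] [IsUltrametricDist H] [CompleteSpace H]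
    (z e₁ e₂ : Ber H H[X]), z ≤ e₁ → z ≤ e₂ → e₁ ≤ e₂ ∨ e₂ ≤ e₁
  /-- (T5) -/
  isOpen : ∀ (H : Type) [NormedField H] [IsUltrametricDist H] [CompleteSpace H]
    (e : Ber H H[X]), IsOpen (Set.Iio e)
  /-- (T6) -/
  star : ∀ (H : Type) [NormedField H] [IsUltrametricDist H] [CompleteSpace H]
    (e : Ber H H[X]) (D : Set (Ber H H[X])), IsClosed D → D ⊆ Set.Iic e → e ∈ D →
    (∀ z ∈ D, z ≠ e → Set.Iic z ⊆ D) → (∀ z ∈ D, ∀ w, z ≤ w → w ≤ e → w ∈ D) →
    ∀ W ∈ 𝓝 e, ∃ S : Finset (Ber H H[X]), (∀ s ∈ S, s < e ∧ s ∈ D) ∧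
      (∀ s ∈ S, ∀ t ∈ S, s ≠ t → Disjoint (Set.Iic s) (Set.Iic t)) ∧
      D \ (⋃ s ∈ S, Set.Iio s) ⊆ W
  /-- (T7) -/
  circle : ∀ (H : Type) [NormedField H] [IsUltrametricDist H] [CompleteSpace H] (r : ℝ)
    (η e z : Ber H H[X]), IsDisc X r η → e.v X = r → e ≠ η → z ≤ e → z.v X = r
  /-- (T8) every point lies in a disc `{|X| ≤ r}`; a point which is minimal for the order is the
  infimum of the points above it. -/
  inf : ∀ (H : Type) [NormedField H] [IsUltrametricDist H] [CompleteSpace H]
    (z : Ber H H[X]) (r : ℝ), z.v X ≤ r → ∃ η, IsDisc X r η ∧ z ≤ η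

end Pool.Agent.TD


end

section

/-!
# Block T (MP_90358a_ag): existence of the disc points `IsDisc P t e` (module TD_T_T2)
-/

open scoped Topology
open Polynomial

namespace Pool.Agent.TD

namespace T_T2

theorem one_le_prod (s : Multiset ℝ) (h : ∀ x ∈ s, 1 ≤ x) : 1 ≤ s.prod := by
  induction s using Multiset.induction_on with
  | empty => simp
  | cons a s ih =>
    rw [Multiset.prod_cons]
    have h1 := h a (Multiset.mem_cons_self a s)
    have h2 := ih fun x hx => h x (Multiset.mem_cons_of_mem hx)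
    nlinarith

theorem le_prod (s : Multiset ℝ) (r : ℝ) (h1 : 1 ≤ r) (h : ∀ x ∈ s, r ≤ x) (hs : s ≠ 0) :
    r ≤ s.prod := by
  obtain ⟨a, ha⟩ := Multiset.exists_mem_of_ne_zero hs
  obtain ⟨s', rfl⟩ := Multiset.exists_cons_of_mem ha
  rw [Multiset.prod_cons]
  have h2 := h a (Multiset.mem_cons_self a s')
  have h3 := one_le_prod s' fun x hx => h1.trans (h x (Multiset.mem_cons_of_mem hx))
  nlinarith

/-- The value of the Gauss point with centre `a` and radius `ρ` at a polynomial with leading
coefficient of absolute value `l` and roots `s`. -/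
noncomputable def phi {L : Type} (nv : L → ℝ) (l : ℝ) (s : Multiset L) (ρ : ℝ) : ℝ :=
  l * (s.map fun b => max ρ (nv b)).prod

theorem continuous_phi {L : Type} (nv : L → ℝ) (l : ℝ) (s : Multiset L) :
    Continuous (phi nv l s) := by
  unfold phi
  refine continuous_const.mul ?_
  exact continuous_multiset_prod (f := fun (b : L) (ρ : ℝ) => max ρ (nv b)) s
    fun b _ => continuous_id.max continuous_const

theorem phi_zero {L : Type} (nv : L → ℝ) (l : ℝ) (s : Multiset L) (a : L) (ha : a ∈ s)
    (h : nv a = 0) : phi nv l s 0 = 0 := by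
  unfold phi
  have : (s.map fun b => max (0 : ℝ) (nv b)).prod = 0 := by
    apply Multiset.prod_eq_zero
    rw [Multiset.mem_map]
    exact ⟨a, ha, by rw [h, max_self]⟩
  rw [this, mul_zero]

theorem exists_phi_eq {L : Type} (nv : L → ℝ) (l : ℝ) (s : Multiset L) (a : L) (ha : a ∈ s)
    (h : nv a = 0) (hl : 0 < l) (t : ℝ) (ht : 0 ≤ t) : ∃ ρ, 0 ≤ ρ ∧ phi nv l s ρ = t := by
  set R : ℝ := max 1 (t / l) with hR
  have hR1 : 1 ≤ R := le_max_left _ _
  have hR2 : t / l ≤ R := le_max_right _ _
  have h0 := phi_zero nv l s a ha h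
  have h1 : t ≤ phi nv l s R := by
    have h2 : R ≤ (s.map fun b => max R (nv b)).prod := by
      apply le_prod _ _ hR1
      · intro x hx
        rw [Multiset.mem_map] at hx
        obtain ⟨b, -, rfl⟩ := hx
        exact le_max_left _ _
      · intro h3
        rw [Multiset.map_eq_zero] at h3
        rw [h3] at ha
        exact Multiset.notMem_zero _ ha
    unfold phi
    calc t = l * (t / l) := by field_simp
      _ ≤ l * R := by exact mul_le_mul_of_nonneg_left hR2 hl.le
      _ ≤ _ := mul_le_mul_of_nonneg_left h2 hl.le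
  have h3 := intermediate_value_Icc (show (0 : ℝ) ≤ R by linarith)
    (continuous_phi nv l s).continuousOn
  obtain ⟨ρ, hρ, hρ'⟩ := h3 ⟨by rw [h0]; exact ht, h1⟩
  exact ⟨ρ, hρ.1, hρ'⟩

theorem v_pos {H L : Type} [NormedField H] [Field L] [Algebra H L] (N : Ber H L) (x : L)
    (hx : x ≠ 0) : 0 < N.v x := by
  have h1 : N.v x * N.v x⁻¹ = 1 := by
    rw [← N.mul, mul_inv_cancel₀ hx, N.one]
  have h2 : N.v x ≠ 0 := by
    intro h
    rw [h, zero_mul] at h1
    exact zero_ne_one h1
  exact lt_of_le_of_ne (N.nonneg x) (Ne.symm h2)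

end T_T2

open T_T2 in
/-- (T2) -/
theorem td_t2 (hExt : StmtExt) (hGauss : StmtGauss) (hProd : StmtProd) (hCore : StmtCore) :
    StmtT2 := by
  intro H _ _ _ P hP t ht
  let L := AlgebraicClosure H
  obtain ⟨N, hN⟩ := hExt H L
  have hdeg : P.degree ≠ 0 := hP.degree_pos.ne'
  obtain ⟨a, ha⟩ := IsAlgClosed.exists_aeval_eq_zero L P hdeg
  have hP0 : P ≠ 0 := hP.ne_zero
  set PL : L[X] := P.map (algebraMap H L) with hPL
  have hPL0 : PL ≠ 0 := by
    rw [hPL]
    exact (Polynomial.map_ne_zero_iff (algebraMap H L).injective).2 hP0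
  have hlc : 0 < N.v PL.leadingCoeff := v_pos N _ (leadingCoeff_ne_zero.2 hPL0)
  have haR : a ∈ PL.roots := by
    rw [mem_roots hPL0, IsRoot.def, hPL, eval_map_algebraMap]
    exact ha
  obtain ⟨ρ, hρ, hρt⟩ := exists_phi_eq (fun b => N.v (a - b)) (N.v PL.leadingCoeff) PL.roots a haR
    (by show N.v (a - a) = 0; rw [sub_self, N.zero]) hlc t ht
  obtain ⟨g, hg⟩ := hGauss H L N a ρ hρ
  have hval : g.v PL = t := by
    rw [hProd H L g PL, hg.const, ← hρt]
    unfold phi
    congr 2
    apply Multiset.map_congr rfl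
    intro b _
    exact hg.lin b
  let e : Ber H H[X] := Ber.res (Polynomial.mapAlgHom (Algebra.ofId H L)) g
  have he : ∀ f : H[X], e.v f = g.v (f.map (algebraMap H L)) := fun f => rfl
  refine ⟨e, ?_, ?_⟩
  · rw [he]
    exact hval
  · intro z hz
    obtain ⟨w, hw, hwa⟩ := hCore H L P hP a ha N ρ g hρ hg z (by rw [← hPL, hval]; exact hz)
    have hwg : w ≤ g := by
      apply hg.top w _ hwa
      intro b
      have h1 := hN (Ber.res (Polynomial.CAlgHom (R := H) (A := L)) w)
      rw [← h1]
      rfl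
    intro f
    rw [he, ← hw f]
    exact hwg _

end Pool.Agent.TD


end

section

/-!
# Block T, TREE: the tree structure of `M(H[X])`
-/

open scoped Topology
open Polynomial

namespace Pool.Agent.TD

namespace T_TREE

variable {H : Type} [NormedField H]

/-- constants -/
theorem v_C (z : Ber H H[X]) (c : H) : z.v (C c) = ‖c‖ := z.ext c

/-- points which agree on the monic irreducible polynomials agree everywhere -/
theorem agree {z e : Ber H H[X]} (h : ∀ P : H[X], P.Monic → Irreducible P → z.v P = e.v P)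
    (f : H[X]) : z.v f = e.v f := by
  induction f using WfDvdMonoid.induction_on_irreducible with
  | zero => rw [z.zero, e.zero]
  | unit u hu =>
    obtain ⟨c, -, rfl⟩ := Polynomial.isUnit_iff.1 hu
    rw [v_C, v_C]
  | mul a i _ hi ih =>
    rw [z.mul, e.mul, ih]
    congr 1
    have h1 := h (i * C (leadingCoeff i)⁻¹) (monic_mul_leadingCoeff_inv hi.ne_zero)
      (irreducible_mul_leadingCoeff_inv.2 hi)
    rw [z.mul, e.mul, v_C, v_C] at h1
    have h2 : ‖(leadingCoeff i)⁻¹‖ ≠ 0 :=
      norm_ne_zero_iff.2 (inv_ne_zero (leadingCoeff_ne_zero.2 hi.ne_zero))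
    exact mul_right_cancel₀ h2 h1

theorem exists_irr {z e : Ber H H[X]} (h : z < e) :
    ∃ P : H[X], P.Monic ∧ Irreducible P ∧ z.v P < e.v P := by
  by_contra hc
  push Not at hc
  have h1 : z = e := by
    refine Ber.ext_v (agree fun P hm hi => le_antisymm (h.le P) (hc P hm hi))
  exact h.ne h1

end T_TREE

open T_TREE in
/-- the tree structure of `M(H[X])` -/
theorem td_tree (hT2 : StmtT2) (hT3 : StmtT3) : StmtTree := by
  classical
  have sep : ∀ (H : Type) [NormedField H] [IsUltrametricDist H] [CompleteSpace H]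
      (z e : Ber H H[X]), z < e → ∃ P : H[X], P.Monic ∧ Irreducible P ∧ z.v P < e.v P ∧
        IsDisc P (e.v P) e := by
    intro H _ _ _ z e h
    obtain ⟨P, hm, hi, hlt⟩ := exists_irr h
    exact ⟨P, hm, hi, hlt, hT3 H P hi z e h.le hlt⟩
  have between : ∀ (H : Type) [NormedField H] [IsUltrametricDist H] [CompleteSpace H]
      (z e : Ber H H[X]), z < e → ∃ m, z < m ∧ m < e := by
    intro H _ _ _ z e h
    obtain ⟨P, -, hi, hlt, hd⟩ := sep H z e h
    obtain ⟨m, hm⟩ := hT2 H P hi ((z.v P + e.v P) / 2) (by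
      have h1 := z.nonneg P
      have h2 := e.nonneg P
      linarith)
    refine ⟨m, lt_of_le_of_ne (hm.le z (by linarith)) ?_, lt_of_le_of_ne (hd.le m ?_) ?_⟩
    · rintro rfl
      have := hm.val
      linarith
    · rw [hm.val]
      linarith
    · rintro rfl
      have := hm.val
      linarith
  have comp : ∀ (H : Type) [NormedField H] [IsUltrametricDist H] [CompleteSpace H]
      (z e₁ e₂ : Ber H H[X]), z ≤ e₁ → z ≤ e₂ → e₁ ≤ e₂ ∨ e₂ ≤ e₁ := by
    intro H _ _ _ z e₁ e₂ h1 h2
    rcases eq_or_lt_of_le h1 with h | h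
    · left
      rw [← h]
      exact h2
    · obtain ⟨P, -, hi, hlt, hd⟩ := sep H z e₁ h
      rcases le_or_gt (e₂.v P) (e₁.v P) with h3 | h3
      · right
        exact hd.le e₂ h3
      · left
        exact (hT3 H P hi z e₂ h2 (hlt.trans h3)).le e₁ h3.le
  have isOpen : ∀ (H : Type) [NormedField H] [IsUltrametricDist H] [CompleteSpace H]
      (e : Ber H H[X]), IsOpen (Set.Iio e) := by
    intro H _ _ _ e
    rw [isOpen_iff_mem_nhds]
    intro z hz
    obtain ⟨P, -, -, hlt, hd⟩ := sep H z e hz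
    have h1 : IsOpen {w : Ber H H[X] | w.v P < e.v P} :=
      isOpen_lt (Ber.continuous_v P) continuous_const
    refine Filter.mem_of_superset (h1.mem_nhds hlt) ?_
    intro w (hw : w.v P < e.v P)
    refine lt_of_le_of_ne (hd.le w hw.le) ?_
    rintro rfl
    exact lt_irrefl _ hw
  refine ⟨sep, between, comp, isOpen, ?_, ?_, ?_⟩
  · intro H _ _ _ e D hDc hDe _ _ hup W hW
    obtain ⟨W', hW'W, hW'o, heW'⟩ := mem_nhds_iff.1 hW
    have hC : IsCompact (D \ W') :=
      (Ber.isCompact_Iic e).of_isClosed_subset (hDc.sdiff hW'o) (Set.diff_subset.trans hDe)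
    have hlt : ∀ z ∈ D \ W', z < e := by
      intro z hz
      refine lt_of_le_of_ne (hDe hz.1) ?_
      rintro rfl
      exact hz.2 heW'
    have hm : ∀ z : Ber H H[X], ∃ m, z ∈ D \ W' → z < m ∧ m < e := by
      intro z
      by_cases hz : z ∈ D \ W'
      · obtain ⟨m, h1, h2⟩ := between H z e (hlt z hz)
        exact ⟨m, fun _ => ⟨h1, h2⟩⟩
      · exact ⟨z, fun h => absurd h hz⟩
    choose m hm using hm
    obtain ⟨t, ht1, ht2⟩ := hC.elim_nhds_subcover (fun z => Set.Iio (m z))
      (fun z hz => (isOpen H (m z)).mem_nhds (hm z hz).1)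
    set F : Finset (Ber H H[X]) := t.image m with hF
    have hFp : ∀ s ∈ F, s < e ∧ s ∈ D := by
      intro s hs
      obtain ⟨z, hz, rfl⟩ := Finset.mem_image.1 hs
      have hzD := ht1 z hz
      exact ⟨(hm z hzD).2, hup z hzD.1 _ (hm z hzD).1.le (hm z hzD).2.le⟩
    refine ⟨F.filter fun s => Maximal (· ∈ F) s, ?_, ?_, ?_⟩
    · intro s hs
      exact hFp s (Finset.mem_filter.1 hs).1
    · intro s hs u hu hsu
      rw [Set.disjoint_left]
      intro w hws hwu
      have hs' := (Finset.mem_filter.1 hs).2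
      have hu' := (Finset.mem_filter.1 hu).2
      rcases comp H w s u hws hwu with h | h
      · exact hsu (le_antisymm h (hs'.2 hu'.1 h))
      · exact hsu (le_antisymm (hu'.2 hs'.1 h) h)
    · rintro x ⟨hxD, hx⟩
      by_contra hxW
      have hxC : x ∈ D \ W' := ⟨hxD, fun h => hxW (hW'W h)⟩
      obtain ⟨z, hz, hxz⟩ := Set.mem_iUnion₂.1 (ht2 hxC)
      obtain ⟨s, hs1, hs2⟩ := F.exists_le_maximal (Finset.mem_image_of_mem m hz)
      refine hx (Set.mem_iUnion₂.2 ⟨s, Finset.mem_filter.2 ⟨hs2.1, hs2⟩, ?_⟩)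
      exact lt_of_lt_of_le hxz hs1
  · intro H _ _ _ r η e z hη he hne hze
    have h1 : z.v X ≤ r := he ▸ hze X
    rcases eq_or_lt_of_le h1 with h | h
    · exact h
    · exfalso
      have h2 := hT3 H X irreducible_X z e hze (by rw [he]; exact h)
      apply hne
      refine le_antisymm (hη.le e he.le) (h2.le η ?_)
      rw [hη.val, he]
  · intro H _ _ _ z r hr
    obtain ⟨η, hη⟩ := hT2 H X irreducible_X r ((z.nonneg X).trans hr)
    exact ⟨η, hη, hη.le z hr⟩

end Pool.Agent.TD


end

section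

/-!
# T_EXT: the absolute value of a complete field extends uniquely to an algebraic extension
-/

open scoped Topology
open Polynomial

namespace Pool.Agent.TD

namespace T_EXT

/-- A point of `M(L)`, `L` a field, vanishes only at zero. -/
theorem eq_zero {H L : Type} [NormedField H] [Field L] [Algebra H L] (N : Ber H L) {x : L}
    (h : N.v x = 0) : x = 0 := by
  by_contra hx
  have h1 := N.mul x x⁻¹
  rw [mul_inv_cancel₀ hx, N.one, h, zero_mul] at h1
  exact one_ne_zero h1

/-- The non-trivially valued case. -/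
theorem nontriv (H L : Type) [NontriviallyNormedField H] [IsUltrametricDist H] [CompleteSpace H]
    [Field L] [Algebra H L] [Algebra.IsAlgebraic H L] : ∃ N : Ber H L, ∀ N' : Ber H L, N' = N := by
  let N : Ber H L :=
    { v := spectralNorm H L
      nonneg := spectralNorm_nonneg
      one := spectralNorm_one
      mul := fun a b => spectralAlgNorm_mul a b
      add := fun a b => isNonarchimedean_spectralNorm a b
      ext := spectralNorm_extends }
  refine ⟨N, fun N' => Ber.ext_v fun a => ?_⟩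
  let f : AbsoluteValue L ℝ :=
    { toFun := N'.v
      map_mul' := N'.mul
      nonneg' := N'.nonneg
      eq_zero' := fun x => ⟨fun h => eq_zero N' h, fun h => by rw [h]; exact N'.zero⟩
      add_le' := fun x y => (N'.add x y).trans
        (max_le_add_of_nonneg (N'.nonneg x) (N'.nonneg y)) }
  exact spectralNorm_unique_field_norm_ext (f := f) (fun x => N'.ext x) a

/-- In the trivially valued case all elements have absolute value at most one. -/
theorem le_one {H L : Type} [NormedField H] [Field L] [Algebra H L] [Algebra.IsAlgebraic H L]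
    (hH : ∀ c : H, ‖c‖ ≤ 1) (N : Ber H L) (x : L) : N.v x ≤ 1 := by
  by_contra hx
  push Not at hx
  obtain ⟨p, hp, hpx⟩ := (Algebra.IsAlgebraic.isAlgebraic (R := H) x).isIntegral
  have h1 : x ^ p.natDegree
      + ∑ i ∈ Finset.range p.natDegree, algebraMap H L (p.coeff i) * x ^ i = 0 := by
    rw [hp.as_sum] at hpx
    simp only [eval₂_add, eval₂_pow, eval₂_X, eval₂_finsetSum, eval₂_mul, eval₂_C] at hpx
    exact hpx
  rcases Nat.eq_zero_or_pos p.natDegree with h0 | h0
  · rw [h0] at h1
    simp at h1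
  · have h2 : N.v (x ^ p.natDegree) ≤ N.v x ^ (p.natDegree - 1) := by
      have e : x ^ p.natDegree
          = -(∑ i ∈ Finset.range p.natDegree, algebraMap H L (p.coeff i) * x ^ i) :=
        eq_neg_of_add_eq_zero_left h1
      rw [e, N.neg]
      refine N.sum_le _ _ (pow_nonneg (N.nonneg x) _) fun i hi => ?_
      rw [N.mul, N.ext, N.pow]
      have hi' : i ≤ p.natDegree - 1 := by
        have := Finset.mem_range.1 hi
        omega
      calc ‖p.coeff i‖ * N.v x ^ i ≤ 1 * N.v x ^ i :=
            mul_le_mul_of_nonneg_right (hH _) (pow_nonneg (N.nonneg x) _)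
        _ = N.v x ^ i := one_mul _
        _ ≤ _ := pow_le_pow_right₀ hx.le hi'
    rw [N.pow] at h2
    have h3 : N.v x ^ (p.natDegree - 1) < N.v x ^ p.natDegree :=
      pow_lt_pow_right₀ hx (by omega)
    linarith

/-- The trivially valued case. -/
theorem triv (H L : Type) [NormedField H] [Field L] [Algebra H L] [Algebra.IsAlgebraic H L]
    (hH : ∀ c : H, ‖c‖ ≤ 1) : ∃ N : Ber H L, ∀ N' : Ber H L, N' = N := by
  classical
  have hH1 : ∀ c : H, c ≠ 0 → ‖c‖ = 1 := by
    intro c hc
    have h1 := hH c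
    have h2 := hH c⁻¹
    rw [norm_inv] at h2
    have h3 : 0 < ‖c‖ := norm_pos_iff.2 hc
    have h4 : 1 ≤ ‖c‖ := (inv_le_one₀ h3).1 h2
    exact le_antisymm h1 h4
  let N : Ber H L :=
    { v := fun x => if x = 0 then 0 else 1
      nonneg := by
        intro a
        split_ifs
        · exact le_rfl
        · exact zero_le_one
      one := if_neg one_ne_zero
      mul := by
        intro a b
        simp only [mul_eq_zero]
        by_cases ha : a = 0
        · simp [ha]
        · by_cases hb : b = 0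
          · simp [hb]
          · simp [ha, hb]
      add := by
        intro a b
        by_cases hab : a + b = 0
        · rw [if_pos hab]
          refine le_max_of_le_left ?_
          split_ifs
          · exact le_rfl
          · exact zero_le_one
        · rw [if_neg hab]
          by_cases ha : a = 0
          · have hb : b ≠ 0 := by
              rintro rfl
              exact hab (by rw [ha, add_zero])
            rw [if_neg hb]
            exact le_max_right _ _
          · rw [if_neg ha]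
            exact le_max_left _ _
      ext := by
        intro c
        by_cases hc : c = 0
        · rw [hc, map_zero, if_pos rfl, norm_zero]
        · rw [if_neg, hH1 c hc]
          intro h
          exact hc ((map_eq_zero (algebraMap H L)).1 h) }
  refine ⟨N, fun N' => Ber.ext_v fun x => ?_⟩
  show N'.v x = if x = 0 then 0 else 1
  by_cases hx : x = 0
  · rw [if_pos hx, hx, N'.zero]
  · rw [if_neg hx]
    have h1 := le_one hH N' x
    have h2 := le_one hH N' x⁻¹
    have h3 := N'.mul x x⁻¹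
    rw [mul_inv_cancel₀ hx, N'.one] at h3
    have h4 := N'.nonneg x
    have h5 := N'.nonneg x⁻¹
    nlinarith

end T_EXT

/-- (EXT) the absolute value of a complete field extends uniquely to an algebraic extension. -/
theorem td_ext : StmtExt := by
  intro H L _ _ _ _ _ _
  by_cases hH : ∀ c : H, ‖c‖ ≤ 1
  · exact T_EXT.triv H L hH
  · push Not at hH
    let i : NontriviallyNormedField H := { toNormedField := inferInstance, non_trivial := hH }
    exact @T_EXT.nontriv H L i _ _ _ _ _

end Pool.Agent.TD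


end

section

/-!
# Block T, RES: completed residue fields exist (MP_90358a_ag)
-/

open scoped Topology NNReal
open Polynomial

namespace Pool.Agent.TD

namespace T_RES

variable {K A : Type} [NormedField K] [CommRing A] [Algebra K A]

/-- The valuation of `A` given by a point. -/
noncomputable def val (y : Ber K A) : Valuation A ℝ≥0 where
  toFun a := ⟨y.v a, y.nonneg a⟩
  map_zero' := Subtype.ext y.zero
  map_one' := Subtype.ext y.one
  map_mul' a b := Subtype.ext (y.mul a b)
  map_add_le_max' a b := by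
    rw [← NNReal.coe_le_coe, NNReal.coe_max]
    exact y.add a b

theorem val_apply (y : Ber K A) (a : A) : ((val y a : ℝ≥0) : ℝ) = y.v a := rfl

/-- A valuation of a field with values in `ℝ≥0` as an absolute value. -/
noncomputable def absOf {L : Type} [Field L] (v : Valuation L ℝ≥0) : AbsoluteValue L ℝ where
  toFun x := (v x : ℝ)
  map_mul' x y := by rw [map_mul, NNReal.coe_mul]
  nonneg' x := NNReal.coe_nonneg _
  eq_zero' x := by rw [NNReal.coe_eq_zero, Valuation.zero_iff]
  add_le' x y := by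
    have h1 : (v (x + y) : ℝ) ≤ max (v x : ℝ) (v y : ℝ) := by
      have h := v.map_add x y
      rw [← NNReal.coe_le_coe, NNReal.coe_max] at h
      exact h
    exact h1.trans (max_le_add_of_nonneg (NNReal.coe_nonneg _) (NNReal.coe_nonneg _))

theorem absOf_apply {L : Type} [Field L] (v : Valuation L ℝ≥0) (x : L) :
    absOf v x = (v x : ℝ) := rfl

theorem absOf_add {L : Type} [Field L] (v : Valuation L ℝ≥0) (x y : L) :
    absOf v (x + y) ≤ max (absOf v x) (absOf v y) := by
  have h := v.map_add x y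
  rw [← NNReal.coe_le_coe, NNReal.coe_max] at h
  exact h

/-- The completion for an ultrametric absolute value is ultrametric. -/
theorem ultra {L : Type} [Field L] (w : AbsoluteValue L ℝ)
    (h : ∀ x y, w (x + y) ≤ max (w x) (w y)) : IsUltrametricDist w.Completion := by
  apply IsUltrametricDist.isUltrametricDist_of_forall_norm_add_le_max_norm
  intro x y
  induction x, y using UniformSpace.Completion.induction_on₂ with
  | hp =>
    exact isClosed_le (continuous_norm.comp (continuous_fst.add continuous_snd))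
      ((continuous_norm.comp continuous_fst).max (continuous_norm.comp continuous_snd))
  | ih a b =>
    rw [← UniformSpace.Completion.coe_add, UniformSpace.Completion.norm_coe,
      UniformSpace.Completion.norm_coe, UniformSpace.Completion.norm_coe]
    exact h a.ofAbs b.ofAbs

end T_RES

open T_RES in
theorem td_res : StmtRes := by
  intro K A _ _ _ y
  let p : Ideal A := (val y).supp
  have hp : p.IsPrime := inferInstance
  let vR : Valuation (A ⧸ p) ℝ≥0 := (val y).onQuot le_rfl
  have hvR : ∀ a : A, (vR (Ideal.Quotient.mk p a) : ℝ) = y.v a := fun a => rfl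
  have hsupp : vR.supp = ⊥ := (val y).supp_quot_supp
  have hS : nonZeroDivisors (A ⧸ p) ≤ vR.supp.primeCompl := by
    intro s hs
    rw [Ideal.mem_primeCompl_iff, hsupp, Ideal.mem_bot]
    exact nonZeroDivisors.ne_zero hs
  let L : Type := FractionRing (A ⧸ p)
  let vL : Valuation L ℝ≥0 := vR.extendToLocalization hS L
  have hvL : ∀ x : A ⧸ p, vL (algebraMap (A ⧸ p) L x) = vR x := fun x =>
    vR.extendToLocalization_apply_map_apply hS L x
  let w : AbsoluteValue L ℝ := absOf vL
  let ι : A →+* w.Completion :=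
    (UniformSpace.Completion.coeRingHom : WithAbs w →+* w.Completion).comp
      ((WithAbs.equiv w).symm.toRingHom.comp
        ((algebraMap (A ⧸ p) L).comp (Ideal.Quotient.mk p)))
  have hι : ∀ a : A, ι a = ((WithAbs.toAbs w
      (algebraMap (A ⧸ p) L (Ideal.Quotient.mk p a)) : WithAbs w) : w.Completion) :=
    fun a => rfl
  have hn : ∀ a : A, ‖ι a‖ = y.v a := by
    intro a
    rw [hι a, UniformSpace.Completion.norm_coe, WithAbs.norm_toAbs_eq]
    show ((vL (algebraMap (A ⧸ p) L (Ideal.Quotient.mk p a)) : ℝ≥0) : ℝ) = y.v a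
    rw [hvL]
    exact hvR a
  refine ⟨w.Completion, inferInstance, ultra w (absOf_add vL), inferInstance, ι, hn, ?_⟩
  intro h ε hε
  obtain ⟨x, hx⟩ := UniformSpace.Completion.denseRange_coe.exists_dist_lt h hε
  obtain ⟨a', b', hb', hab⟩ := IsFractionRing.div_surjective (A := A ⧸ p) x.ofAbs
  obtain ⟨a, rfl⟩ := Ideal.Quotient.mk_surjective a'
  obtain ⟨b, rfl⟩ := Ideal.Quotient.mk_surjective b'
  refine ⟨a, b, ?_, ?_⟩
  · intro h0
    have h1 : y.v b = 0 := by
      rw [← hn b, h0, norm_zero]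
    have h2 : b ∈ p := by
      show b ∈ (val y).supp
      rw [Valuation.mem_supp_iff]
      exact Subtype.ext h1
    exact nonZeroDivisors.ne_zero hb' (Ideal.Quotient.eq_zero_iff_mem.2 h2)
  · have h1 : ι a / ι b = (x : w.Completion) := by
      have h2 : x = WithAbs.toAbs w (algebraMap (A ⧸ p) L (Ideal.Quotient.mk p a))
          / WithAbs.toAbs w (algebraMap (A ⧸ p) L (Ideal.Quotient.mk p b)) := by
        rw [← WithAbs.toAbs_div, hab]
      have h3 : (UniformSpace.Completion.coeRingHom : WithAbs w →+* w.Completion) x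
          = (UniformSpace.Completion.coeRingHom : WithAbs w →+* w.Completion)
            (WithAbs.toAbs w (algebraMap (A ⧸ p) L (Ideal.Quotient.mk p a)))
          / (UniformSpace.Completion.coeRingHom : WithAbs w →+* w.Completion)
            (WithAbs.toAbs w (algebraMap (A ⧸ p) L (Ideal.Quotient.mk p b))) := by
        rw [← map_div₀, ← h2]
      exact h3.symm
    rw [h1, ← dist_eq_norm]
    exact hx

end Pool.Agent.TD


end

section

/-!
# T_LIFT: surjectivity of `M(B) → M(A)` for integral extensions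
-/

open scoped Topology
open Polynomial

namespace Pool.Agent.TD

namespace T_LIFT

/-- A homomorphism from `A` to an algebraically closed field extends, up to the kernel, to every
integral extension of `A`. -/
theorem exists_extension {A B Ω : Type} [CommRing A] [CommRing B] [Algebra A B]
    [Algebra.IsIntegral A B] (hinj : Function.Injective (algebraMap A B)) [Field Ω]
    [IsAlgClosed Ω] (φ : A →+* Ω) : ∃ τ : B →+* Ω, ∀ a, τ (algebraMap A B a) = φ a := by
  have hp : (RingHom.ker φ).IsPrime := RingHom.ker_isPrime φ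
  obtain ⟨Q, -, hQ, hQp⟩ := Ideal.exists_ideal_over_prime_of_isIntegral (S := B)
    (RingHom.ker φ) (⊥ : Ideal B) (by
      rw [← RingHom.ker_eq_comap_bot, (RingHom.injective_iff_ker_eq_bot _).mp hinj]
      exact bot_le)
  have hlo : Q.LiesOver (RingHom.ker φ) := ⟨hQp.symm⟩
  have hd : IsDomain (A ⧸ RingHom.ker φ) := Ideal.Quotient.isDomain _
  have hd' : IsDomain (B ⧸ Q) := Ideal.Quotient.isDomain _
  letI : Algebra (A ⧸ RingHom.ker φ) Ω := (RingHom.kerLift φ).toAlgebra
  have hφ : Function.Injective (algebraMap (A ⧸ RingHom.ker φ) Ω) := RingHom.kerLift_injective φ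
  have hf : FaithfulSMul (A ⧸ RingHom.ker φ) Ω := (faithfulSMul_iff_algebraMap_injective _ _).mpr hφ
  let τ : (B ⧸ Q) →ₐ[A ⧸ RingHom.ker φ] Ω := IsAlgClosed.lift
  refine ⟨τ.toRingHom.comp (Ideal.Quotient.mk Q), fun a => ?_⟩
  have h1 : (Ideal.Quotient.mk Q) (algebraMap A B a) =
      algebraMap (A ⧸ RingHom.ker φ) (B ⧸ Q) (Ideal.Quotient.mk _ a) := rfl
  show τ ((Ideal.Quotient.mk Q) (algebraMap A B a)) = φ a
  rw [h1, AlgHom.commutes]
  rfl

end T_LIFT

theorem td_lift (hExt : StmtExt) (hRes : StmtRes) : StmtLift := by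
  intro K A B _ _ _ _ _ _ _ _ hinj z
  obtain ⟨H, _, _, _, ι, hι⟩ := hRes K A z
  obtain ⟨N, -⟩ := hExt H (AlgebraicClosure H)
  obtain ⟨τ, hτ⟩ := T_LIFT.exists_extension (B := B) hinj
    ((algebraMap H (AlgebraicClosure H)).comp ι)
  have hN : ∀ a, N.v (τ (algebraMap A B a)) = z.v a := by
    intro a
    rw [hτ a, RingHom.comp_apply, N.ext, hι.norm]
  refine ⟨{ v := fun b => N.v (τ b)
            nonneg := fun b => N.nonneg _
            one := by rw [map_one, N.one]
            mul := fun a b => by rw [map_mul, N.mul]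
            add := fun a b => by rw [map_add]; exact N.add _ _
            ext := fun c => by
              rw [IsScalarTower.algebraMap_apply K A B, hN, z.ext] }, hN⟩

end Pool.Agent.TD


end

section

/-!
# Block T, module T_GAUSS: Gauss points (MP_90358a_ag)
-/

open scoped Topology
open Polynomial

namespace Pool.Agent.TD

namespace T_GAUSS

/-- The absolute value of a field given by a point of its spectrum. -/
noncomputable def av {H L : Type} [NormedField H] [Field L] [Algebra H L] (N : Ber H L) :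
    AbsoluteValue L ℝ where
  toFun := N.v
  map_mul' := N.mul
  nonneg' := N.nonneg
  eq_zero' x := by
    constructor
    · intro h
      by_contra hx
      have h1 := N.mul x x⁻¹
      rw [mul_inv_cancel₀ hx, N.one, h, zero_mul] at h1
      exact one_ne_zero h1
    · rintro rfl
      exact N.zero
  add_le' x y := (N.add x y).trans (max_le_add_of_nonneg (N.nonneg x) (N.nonneg y))

theorem av_apply {H L : Type} [NormedField H] [Field L] [Algebra H L] (N : Ber H L) (x : L) :
    av N x = N.v x := rfl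

theorem av_na {H L : Type} [NormedField H] [Field L] [Algebra H L] (N : Ber H L) :
    IsNonarchimedean (av N) := fun x y => N.add x y

/-- The Gauss point. -/
noncomputable def gp {H L : Type} [NormedField H] [Field L] [Algebra H L] (N : Ber H L)
    (a : L) (ρ : ℝ) (hρ : 0 ≤ ρ) : Ber H L[X] where
  v f := (f.comp (X + C a)).gaussNorm (av N) ρ
  nonneg f := gaussNorm_nonneg (av N) _ hρ
  one := by
    rw [one_comp, ← C_1, gaussNorm_C, av_apply, N.one]
  mul f g := by
    rw [mul_comp]
    rcases hρ.eq_or_lt with h | h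
    · rw [← h, gaussNorm_zero_right, gaussNorm_zero_right, gaussNorm_zero_right,
        mul_coeff_zero, map_mul]
    · exact gaussNorm_mul (av_na N) h _ _
  add f g := by
    rw [add_comp]
    exact isNonarchimedean_gaussNorm (av N) (av_na N) hρ _ _
  ext c := by
    rw [IsScalarTower.algebraMap_apply H L L[X], ← C_eq_algebraMap, C_comp, gaussNorm_C,
      av_apply, N.ext]

theorem gp_v {H L : Type} [NormedField H] [Field L] [Algebra H L] (N : Ber H L)
    (a : L) (ρ : ℝ) (hρ : 0 ≤ ρ) (f : L[X]) :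
    (gp N a ρ hρ).v f = (f.comp (X + C a)).gaussNorm (av N) ρ := rfl

theorem gp_lin {H L : Type} [NormedField H] [Field L] [Algebra H L] (N : Ber H L)
    (a : L) (ρ : ℝ) (hρ : 0 ≤ ρ) (b : L) :
    (gp N a ρ hρ).v (X - C b) = max ρ (N.v (a - b)) := by
  have e : (X - C b : L[X]).comp (X + C a) = X + C (a - b) := by
    rw [sub_comp, X_comp, C_comp, C_sub]
    ring
  rw [gp_v, e]
  have c0 : (X + C (a - b) : L[X]).coeff 0 = a - b := by simp
  have c1 : (X + C (a - b) : L[X]).coeff 1 = 1 := by
    rw [coeff_add, coeff_X_one, coeff_C, if_neg one_ne_zero, add_zero]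
  have c2 : ∀ i, 2 ≤ i → (X + C (a - b) : L[X]).coeff i = 0 := by
    intro i hi
    rw [coeff_add, coeff_X_of_ne_one (by omega), coeff_C, if_neg (by omega), add_zero]
  apply le_antisymm
  · obtain ⟨i, hi⟩ := exists_eq_gaussNorm (av N) ρ (X + C (a - b) : L[X])
    rw [hi]
    rcases i with _ | _ | i
    · rw [c0, pow_zero, mul_one]
      exact le_max_right _ _
    · rw [zero_add, c1, map_one, one_mul, pow_one]
      exact le_max_left _ _
    · rw [c2 _ (by omega), map_zero, zero_mul]
      exact hρ.trans (le_max_left _ _)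
  · apply max_le
    · have h := le_gaussNorm (av N) (X + C (a - b) : L[X]) hρ 1
      rwa [c1, map_one, one_mul, pow_one] at h
    · have h := le_gaussNorm (av N) (X + C (a - b) : L[X]) hρ 0
      rwa [c0, pow_zero, mul_one] at h

end T_GAUSS

open T_GAUSS in
theorem td_gauss : StmtGauss := by
  intro H L _ _ _ N a ρ hρ
  refine ⟨gp N a ρ hρ, gp_lin N a ρ hρ, ?_, ?_⟩
  · intro b
    rw [gp_v, C_comp, gaussNorm_C, av_apply]
  · intro w hw hwa f
    rw [gp_v]
    set q : L[X] := f.comp (X + C a) with hq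
    have hf : f = ∑ i ∈ Finset.range (q.natDegree + 1), C (q.coeff i) * (X - C a) ^ i := by
      have h1 : f = q.comp (X - C a) := by
        rw [hq, comp_assoc, add_comp, X_comp, C_comp, sub_add_cancel, comp_X]
      rw [h1]
      conv_lhs => rw [comp, eval₂_eq_sum_range]
    have h0 : 0 ≤ q.gaussNorm (av N) ρ := gaussNorm_nonneg (av N) _ hρ
    conv_lhs => rw [hf]
    refine w.sum_le _ _ h0 fun i _ => ?_
    rw [w.mul, w.pow, hw]
    refine le_trans ?_ (le_gaussNorm (av N) q hρ i)
    rw [av_apply]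
    exact mul_le_mul_of_nonneg_left (pow_le_pow_left₀ (w.nonneg _) hwa i) (N.nonneg _)

end Pool.Agent.TD


end

section

/-!
# Block T: values of polynomials in terms of their roots (MP_90358a_ag)
-/

open scoped Topology
open Polynomial

namespace Pool.Agent.TD

/-- (PROD) -/
theorem td_prod : StmtProd := by
  intro H L _ _ _ _ w f
  have h1 : C f.leadingCoeff * (f.roots.map fun a => X - C a).prod = f :=
    C_leadingCoeff_mul_prod_multiset_X_sub_C IsAlgClosed.card_roots_eq_natDegree
  conv_lhs => rw [← h1]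
  rw [w.mul, w.mprod, Multiset.map_map]
  rfl

end Pool.Agent.TD


end

section

/-!
# Block T, module CORE (MP_90358a_ag)
-/

open scoped Topology
open Polynomial

namespace Pool.Agent.TD

namespace T_CORE

variable {H L : Type} [NormedField H] [Field L] [Algebra H L]

/-- The absolute value of a nonzero element of a field is nonzero. -/
theorem v_ne_zero (N : Ber H L) {c : L} (hc : c ≠ 0) : N.v c ≠ 0 := by
  intro h
  have h1 := N.mul c c⁻¹
  rw [mul_inv_cancel₀ hc, N.one, h, zero_mul] at h1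
  exact one_ne_zero h1

/-- The value at `x` of a point of `M(L)` is determined by the norm of `H`. -/
theorem pow_eq (hConj : StmtConj) [IsUltrametricDist H] [CompleteSpace H] [IsAlgClosure H L]
    (x : L) : ∃ n : ℕ, n ≠ 0 ∧ ∃ c : ℝ, ∀ N : Ber H L, N.v x ^ n = c := by
  have : IsAlgClosed L := IsAlgClosure.isAlgClosed H
  have : Algebra.IsAlgebraic H L := IsAlgClosure.isAlgebraic
  have hint : IsIntegral H x := Algebra.IsIntegral.isIntegral x
  have hirr : Irreducible (minpoly H x) := minpoly.irreducible hint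
  have hmon : (minpoly H x).Monic := minpoly.monic hint
  have hx0 : aeval x (minpoly H x) = 0 := minpoly.aeval H x
  have hne : (minpoly H x).map (algebraMap H L) ≠ 0 := (hmon.map _).ne_zero
  have hsplit : ((minpoly H x).map (algebraMap H L)).Splits := IsAlgClosed.splits _
  have heq := hsplit.eq_prod_roots_of_monic (hmon.map _)
  have hxr : x ∈ ((minpoly H x).map (algebraMap H L)).roots := by
    rw [mem_roots hne, IsRoot.def, eval_map_algebraMap]
    exact hx0
  refine ⟨((minpoly H x).map (algebraMap H L)).roots.card,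
    (Multiset.card_pos_iff_exists_mem.2 ⟨x, hxr⟩).ne', ‖(minpoly H x).eval 0‖, fun N => ?_⟩
  have h1 : N.v (algebraMap H L ((minpoly H x).eval 0)) = ‖(minpoly H x).eval 0‖ := N.ext _
  have h2 : algebraMap H L ((minpoly H x).eval 0) =
      (((minpoly H x).map (algebraMap H L)).roots.map fun b => -b).prod := by
    have h3 : algebraMap H L ((minpoly H x).eval 0) =
        ((minpoly H x).map (algebraMap H L)).eval 0 := by
      rw [eval_map_algebraMap, aeval_def, ← map_zero (algebraMap H L), eval₂_at_apply]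
    rw [h3]
    conv_lhs => rw [heq]
    rw [eval_multiset_prod, Multiset.map_map]
    congr 1
    apply Multiset.map_congr rfl
    intro b _
    simp
  rw [← h1, h2, N.mprod, Multiset.map_map]
  have h4 : ∀ b ∈ ((minpoly H x).map (algebraMap H L)).roots, (N.v ∘ fun b => -b) b = N.v x := by
    intro b hb
    rw [mem_roots hne, IsRoot.def, eval_map_algebraMap] at hb
    obtain ⟨σ, hσ, hN, -⟩ := hConj H L (minpoly H x) hirr x b hx0 hb
    rw [Function.comp_apply, N.neg, ← hσ, hN]
  rw [Multiset.map_congr rfl h4, Multiset.map_const', Multiset.prod_replicate]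

/-- There is at most one point of `M(L)`. -/
theorem uniq (hConj : StmtConj) [IsUltrametricDist H] [CompleteSpace H] [IsAlgClosure H L]
    (N N' : Ber H L) : N = N' := by
  apply Ber.ext_v
  intro x
  obtain ⟨n, hn, c, hc⟩ := pow_eq hConj (H := H) x
  exact (pow_left_inj₀ (N.nonneg x) (N'.nonneg x) hn).1 ((hc N).trans (hc N').symm)

/-- Values of constants at a point of `M(L[X])`. -/
theorem v_C (hConj : StmtConj) [IsUltrametricDist H] [CompleteSpace H] [IsAlgClosure H L]
    (N : Ber H L) (w : Ber H L[X]) (c : L) : w.v (C c) = N.v c := by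
  have h := uniq hConj (Ber.res (CAlgHom : L →ₐ[H] L[X]) w) N
  rw [← h]
  rfl

end T_CORE

open T_CORE in
theorem td_core (hOver : StmtOver) (hConj : StmtConj) (hProd : StmtProd) : StmtCore := by
  intro H L _ _ _ _ _ _ P hP a ha N ρ g hρ hg z hz
  classical
  have : IsAlgClosed L := IsAlgClosure.isAlgClosed H
  have : Algebra.IsAlgebraic H L := IsAlgClosure.isAlgebraic
  obtain ⟨w, hw⟩ := hOver H L z
  have hne : P.map (algebraMap H L) ≠ 0 := (Polynomial.map_ne_zero_iff
    (algebraMap H L).injective).2 hP.ne_zero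
  have hmem : ∀ b : L, b ∈ (P.map (algebraMap H L)).roots ↔ aeval b P = 0 := by
    intro b
    rw [mem_roots hne, IsRoot.def, eval_map_algebraMap]
  have har : a ∈ (P.map (algebraMap H L)).roots := (hmem a).2 ha
  -- a root with minimal value
  obtain ⟨b₀, hb₀, hmin⟩ := (P.map (algebraMap H L)).roots.toFinset.exists_min_image
    (fun b => w.v (X - C b)) ⟨a, Multiset.mem_toFinset.2 har⟩
  rw [Multiset.mem_toFinset, hmem] at hb₀
  obtain ⟨σ, hσ, -, hcon⟩ := hConj H L P hP b₀ a hb₀ ha
  obtain ⟨w', hw', hwc⟩ := hcon z w hw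
  have hmin' : ∀ b ∈ (P.map (algebraMap H L)).roots, w'.v (X - C a) ≤ w'.v (X - C b) := by
    intro b hb
    have h1 : aeval (σ.symm b) P = 0 := by
      rw [aeval_algHom_apply σ.symm b P, (hmem b).1 hb, map_zero]
    have h2 := hmin (σ.symm b) (by rw [Multiset.mem_toFinset, hmem]; exact h1)
    have h3 := hwc (σ.symm b)
    rw [AlgEquiv.apply_symm_apply] at h3
    have h4 := hwc b₀
    rw [hσ] at h4
    rw [h3, h4]
    exact h2
  refine ⟨w', hw', ?_⟩
  by_contra hcontra
  push Not at hcontra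
  have hNb : ∀ b ∈ (P.map (algebraMap H L)).roots, max ρ (N.v (a - b)) ≤ w'.v (X - C b) := by
    intro b hb
    refine max_le (hcontra.le.trans (hmin' b hb)) ?_
    rw [← v_C hConj N w' (a - b)]
    have h1 : (C (a - b) : L[X]) = (X - C b) - (X - C a) := by
      rw [C_sub]; ring
    rw [h1]
    exact (w'.sub _ _).trans (max_le le_rfl (hmin' b hb))
  have hpos : ∀ b ∈ (P.map (algebraMap H L)).roots, 0 < w'.v (X - C b) := fun b hb =>
    (hρ.trans_lt hcontra).trans_le (hmin' b hb)
  have e1 : z.v P = N.v (P.map (algebraMap H L)).leadingCoeff *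
      ((P.map (algebraMap H L)).roots.map fun b => w'.v (X - C b)).prod := by
    rw [← hw' P, hProd H L w' (P.map (algebraMap H L)), v_C hConj N]
  have e2 : g.v (P.map (algebraMap H L)) = N.v (P.map (algebraMap H L)).leadingCoeff *
      ((P.map (algebraMap H L)).roots.map fun b => max ρ (N.v (a - b))).prod := by
    rw [hProd H L g (P.map (algebraMap H L)), v_C hConj N]
    congr 2
    apply Multiset.map_congr rfl
    intro b _
    exact hg.lin b
  have hlc : 0 < N.v (P.map (algebraMap H L)).leadingCoeff :=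
    lt_of_le_of_ne (N.nonneg _) (v_ne_zero N (leadingCoeff_ne_zero.2 hne)).symm
  rw [e1, e2] at hz
  have hz' := le_of_mul_le_mul_left hz hlc
  obtain ⟨t, ht⟩ := Multiset.exists_cons_of_mem har
  rw [ht, Multiset.map_cons, Multiset.prod_cons, Multiset.map_cons, Multiset.prod_cons, sub_self,
    N.zero, max_eq_left hρ] at hz'
  have ht' : ∀ b ∈ t, b ∈ (P.map (algebraMap H L)).roots := fun b hb => by
    rw [ht]; exact Multiset.mem_cons_of_mem hb
  have hprod : 0 < (t.map fun b => w'.v (X - C b)).prod := by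
    apply Multiset.prod_pos
    intro y hy
    obtain ⟨b, hb, rfl⟩ := Multiset.mem_map.1 hy
    exact hpos b (ht' b hb)
  have hle : (t.map fun b => max ρ (N.v (a - b))).prod ≤ (t.map fun b => w'.v (X - C b)).prod :=
    Multiset.prod_map_le_prod_map₀ _ _ (fun b _ => hρ.trans (le_max_left _ _))
      (fun b hb => hNb b (ht' b hb))
  have h1 : ρ * (t.map fun b => max ρ (N.v (a - b))).prod ≤
      ρ * (t.map fun b => w'.v (X - C b)).prod := mul_le_mul_of_nonneg_left hle hρ
  have h2 : ρ * (t.map fun b => w'.v (X - C b)).prod <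
      w'.v (X - C a) * (t.map fun b => w'.v (X - C b)).prod := mul_lt_mul_of_pos_right hcontra hprod
  linarith

end Pool.Agent.TD


end

section

/-! Block U: Gauss points of the line over a normed field. -/

open scoped Topology
open Polynomial

namespace Pool.Agent.TD

variable {k : Type} [NormedField k] [IsUltrametricDist k]

namespace U_TK1

/-- The absolute value of `k` as a point of `M(k)`. -/
noncomputable def nk (k : Type) [NormedField k] [IsUltrametricDist k] : Ber k k where
  v x := ‖x‖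
  nonneg := norm_nonneg
  one := norm_one
  mul := norm_mul
  add := IsUltrametricDist.norm_add_le_max
  ext _ := rfl

theorem gaussNorm_eq (q : k[X]) (n : ℕ) (hn : q.natDegree ≤ n) (ρ : ℝ) (hρ : 0 ≤ ρ) :
    q.gaussNorm (T_GAUSS.av (nk k)) ρ = ⨆ i : Fin (n + 1), ‖q.coeff i‖ * ρ ^ (i : ℕ) := by
  have hbdd : BddAbove (Set.range fun i : Fin (n + 1) => ‖q.coeff i‖ * ρ ^ (i : ℕ)) :=
    Set.Finite.bddAbove (Set.finite_range _)
  apply le_antisymm
  · obtain ⟨i, hi⟩ := exists_eq_gaussNorm (T_GAUSS.av (nk k)) ρ q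
    rw [hi]
    by_cases h : i ≤ n
    · exact le_ciSup hbdd (⟨i, Nat.lt_succ_of_le h⟩ : Fin (n + 1))
    · have h0 : q.coeff i = 0 := coeff_eq_zero_of_natDegree_lt (by omega)
      rw [h0, map_zero, zero_mul]
      have h1 : (0 : ℝ) ≤ ‖q.coeff (0 : Fin (n + 1))‖ * ρ ^ ((0 : Fin (n + 1)) : ℕ) := by positivity
      exact h1.trans (le_ciSup hbdd (0 : Fin (n + 1)))
  · refine ciSup_le fun i => ?_
    exact le_gaussNorm (T_GAUSS.av (nk k)) q hρ i

end U_TK1

/-- Gauss points. -/
theorem exists_eta (a : k) (ρ : ℝ) (hρ : 0 ≤ ρ) : ∃ w : Ber k k[X],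
    (∀ β, w.v (X - C β) = max ρ ‖a - β‖) ∧
    (∀ f : k[X], w.v f = (⨆ i : Fin (f.natDegree + 1),
      ‖(f.comp (X + C a)).coeff i‖ * ρ ^ (i : ℕ))) ∧
    ∀ w' : Ber k k[X], w'.v (X - C a) ≤ ρ → w' ≤ w := by
  refine ⟨T_GAUSS.gp (U_TK1.nk k) a ρ hρ, T_GAUSS.gp_lin (U_TK1.nk k) a ρ hρ, ?_, ?_⟩
  · intro f
    rw [T_GAUSS.gp_v]
    apply U_TK1.gaussNorm_eq _ _ _ _ hρ
    rw [natDegree_comp, natDegree_X_add_C, mul_one]
  · intro w' hw' f
    rw [T_GAUSS.gp_v]
    set q : k[X] := f.comp (X + C a) with hq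
    have hf : f = ∑ i ∈ Finset.range (q.natDegree + 1), C (q.coeff i) * (X - C a) ^ i := by
      have h1 : f = q.comp (X - C a) := by
        rw [hq, comp_assoc, add_comp, X_comp, C_comp, sub_add_cancel, comp_X]
      rw [h1]
      conv_lhs => rw [comp, eval₂_eq_sum_range]
    have h0 : 0 ≤ q.gaussNorm (T_GAUSS.av (U_TK1.nk k)) ρ :=
      gaussNorm_nonneg (T_GAUSS.av (U_TK1.nk k)) _ hρ
    conv_lhs => rw [hf]
    refine w'.sum_le _ _ h0 fun i _ => ?_
    rw [w'.mul, w'.pow]
    refine le_trans ?_ (le_gaussNorm (T_GAUSS.av (U_TK1.nk k)) q hρ i)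
    have h2 : w'.v (C (q.coeff i)) = ‖q.coeff i‖ := w'.ext (q.coeff i)
    rw [h2]
    exact mul_le_mul_of_nonneg_left (pow_le_pow_left₀ (w'.nonneg _) hw' i) (norm_nonneg _)

end Pool.Agent.TD


end

section

/-! Block U: the line over an algebraically closed field (not complete). -/

open scoped Topology
open Polynomial

namespace Pool.Agent.TD

variable {k : Type} [NormedField k] [IsUltrametricDist k] [IsAlgClosed k]

omit [IsUltrametricDist k] in
/-- The value of a polynomial in terms of its roots. -/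
theorem Tk2_prod (w : Ber k k[X]) (f : k[X]) :
    w.v f = ‖f.leadingCoeff‖ * (f.roots.map fun a => w.v (X - C a)).prod := by
  have h1 : C f.leadingCoeff * (f.roots.map fun a => X - C a).prod = f :=
    C_leadingCoeff_mul_prod_multiset_X_sub_C IsAlgClosed.card_roots_eq_natDegree
  have h2 : w.v (C f.leadingCoeff) = ‖f.leadingCoeff‖ := w.ext f.leadingCoeff
  conv_lhs => rw [← h1]
  rw [w.mul, w.mprod, Multiset.map_map, h2]
  rfl

/-- Points are determined by the values on linear polynomials. -/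
theorem ext_lin {w w' : Ber k k[X]} (h : ∀ β, w.v (X - C β) = w'.v (X - C β)) : w = w' := by
  apply Ber.ext_v
  intro f
  rw [Tk2_prod, Tk2_prod]
  congr 2
  exact Multiset.map_congr rfl fun a _ => h a

theorem le_lin {w w' : Ber k k[X]} (h : ∀ β, w.v (X - C β) ≤ w'.v (X - C β)) : w ≤ w' := by
  intro f
  show w.v f ≤ w'.v f
  rw [Tk2_prod, Tk2_prod]
  refine mul_le_mul_of_nonneg_left ?_ (norm_nonneg _)
  exact Multiset.prod_map_le_prod_map₀ _ _ (fun a _ => w.nonneg _) fun a _ => h a

/-- Nets of points converge if the values on linear polynomials do. -/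
theorem tendsto_lin {ι : Type} {l : Filter ι} {w : ι → Ber k k[X]} {w0 : Ber k k[X]}
    (h : ∀ β, Filter.Tendsto (fun n => (w n).v (X - C β)) l (𝓝 (w0.v (X - C β)))) :
    Filter.Tendsto w l (𝓝 w0) := by
  rw [nhds_induced, Filter.tendsto_comap_iff, tendsto_pi_nhds]
  intro f
  have h1 := tendsto_multiset_prod f.roots fun a _ => h a
  have h2 := h1.const_mul ‖f.leadingCoeff‖
  have h3 : (fun n => (w n).v f) = fun n =>
      ‖f.leadingCoeff‖ * (f.roots.map fun a => (w n).v (X - C a)).prod := by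
    funext n
    exact Tk2_prod (w n) f
  show Filter.Tendsto (fun n => (w n).v f) l (𝓝 (w0.v f))
  rw [h3, Tk2_prod w0 f]
  exact h2

/-- The value at `X - β'` from the value at `X - β`. -/
theorem Tk2_of_lt (w : Ber k k[X]) {β β' : k} (h : w.v (X - C β) < ‖β - β'‖) :
    w.v (X - C β') = ‖β - β'‖ := by
  have h1 : w.v (C (β - β')) = ‖β - β'‖ := w.ext (β - β')
  have h2 : w.v (C (β - β') + (X - C β)) = w.v (C (β - β')) := w.add_eq (by rwa [h1])
  rw [← h1, ← h2]
  congr 1
  rw [C_sub]
  ring

theorem Tk2_of_lt' (w : Ber k k[X]) {β β' : k} (h : w.v (X - C β) < w.v (X - C β')) :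
    ‖β - β'‖ = w.v (X - C β') := by
  have h1 : w.v (C (β - β')) = ‖β - β'‖ := w.ext (β - β')
  have h2 : w.v ((X - C β') + -(X - C β)) = w.v (X - C β') := w.add_eq (by rwa [w.neg])
  rw [← h1, ← h2]
  congr 1
  rw [C_sub]
  ring

theorem Tk2_le (w : Ber k k[X]) (β β' : k) :
    w.v (X - C β') ≤ max (w.v (X - C β)) ‖β - β'‖ := by
  have h1 : w.v (C (β - β')) = ‖β - β'‖ := w.ext (β - β')
  rw [← h1]
  have h2 := w.add (X - C β) (C (β - β'))
  have h3 : (X - C β) + C (β - β') = X - C β' := by
    rw [C_sub]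
    ring
  rwa [h3] at h2

/-- Classification: Gauss points of positive radius, and points which are limits of discs. -/
theorem classify (w : Ber k k[X]) :
    (∃ a ρ, 0 < ρ ∧ ∀ β, w.v (X - C β) = max ρ ‖a - β‖) ∨
    ∀ S : Finset k, (∀ β ∈ S, w.v (X - C β) ≠ 0) →
      ∃ β, ∀ β' ∈ S, w.v (X - C β) < w.v (X - C β') := by
  by_cases hmin : ∃ β0, ∀ β, w.v (X - C β0) ≤ w.v (X - C β)
  · obtain ⟨β0, h0⟩ := hmin
    rcases (w.nonneg (X - C β0)).eq_or_lt with h1 | h1
    · right
      intro S hS
      refine ⟨β0, fun β' hβ' => ?_⟩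
      rw [← h1]
      exact lt_of_le_of_ne (w.nonneg _) (hS β' hβ').symm
    · left
      refine ⟨β0, w.v (X - C β0), h1, fun β => ?_⟩
      apply le_antisymm (Tk2_le w β0 β)
      refine max_le (h0 β) ?_
      by_contra hc
      push Not at hc
      have h2 : w.v (X - C β0) < ‖β0 - β‖ := (h0 β).trans_lt hc
      rw [Tk2_of_lt w h2] at hc
      exact lt_irrefl _ hc
  · right
    push Not at hmin
    intro S hS
    rcases S.eq_empty_or_nonempty with rfl | hne
    · exact ⟨0, fun β' h => absurd h (Finset.notMem_empty β')⟩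
    · obtain ⟨β1, hβ1, h1⟩ := S.exists_min_image (fun β => w.v (X - C β)) hne
      obtain ⟨β, hβ⟩ := hmin β1
      exact ⟨β, fun β' hβ' => hβ.trans_le (h1 β' hβ')⟩

/-- At a point of the second kind every neighbourhood contains a whole disc around the point, with
centre `β`, arbitrarily small compared to the distances to `S`. -/
theorem limit_disc (w : Ber k k[X]) (h : ∀ S : Finset k, (∀ β ∈ S, w.v (X - C β) ≠ 0) →
      ∃ β, ∀ β' ∈ S, w.v (X - C β) < w.v (X - C β')) (W : Set (Ber k k[X])) (hW : W ∈ 𝓝 w)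
    (S : Finset k) (hS : ∀ β ∈ S, w.v (X - C β) ≠ 0) :
    ∃ (β : k) (ρ : ℝ) (e : Ber k k[X]), 0 < ρ ∧ (∀ β', e.v (X - C β') = max ρ ‖β - β'‖) ∧
      w.v (X - C β) ≤ ρ ∧ w ≤ e ∧ e ∈ W ∧ ∀ β' ∈ S, ρ < w.v (X - C β') := by
  classical
  -- the neighbourhood
  obtain ⟨I, hI, t, ht, hsub⟩ : ∃ I : Set k, I.Finite ∧ ∃ t : k → Set ℝ,
      (∀ β, t β ∈ 𝓝 (w.v (X - C β))) ∧ ∀ e : Ber k k[X], (∀ β ∈ I, e.v (X - C β) ∈ t β) →
        e ∈ W := by
    let Φ : Ber k k[X] → k → ℝ := fun w' β => w'.v (X - C β)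
    have h1 : Filter.Tendsto (fun w' : Ber k k[X] => w') (Filter.comap Φ (𝓝 (Φ w))) (𝓝 w) := by
      apply tendsto_lin
      intro β
      have h2 : Filter.Tendsto Φ (Filter.comap Φ (𝓝 (Φ w))) (𝓝 (Φ w)) := Filter.tendsto_comap
      exact (tendsto_pi_nhds.1 h2) β
    have h3 := h1 hW
    rw [Filter.mem_map, Filter.mem_comap] at h3
    obtain ⟨u, hu, hu'⟩ := h3
    rw [nhds_pi, Filter.mem_pi] at hu
    obtain ⟨I, hI, t, ht, hsub⟩ := hu
    exact ⟨I, hI, t, ht, fun e he => hu' (hsub he)⟩
  by_cases hz : ∃ β0, w.v (X - C β0) = 0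
  · obtain ⟨β0, h0⟩ := hz
    have hval : ∀ β', w.v (X - C β') = ‖β0 - β'‖ := by
      intro β'
      rcases (norm_nonneg (β0 - β')).eq_or_lt with h1 | h1
      · have h2 : β0 = β' := sub_eq_zero.1 (norm_eq_zero.1 h1.symm)
        rw [← h1, ← h2, h0]
      · exact Tk2_of_lt w (by rwa [h0])
    have e1 : ∀ᶠ ρ : ℝ in 𝓝[>] 0, ∀ β ∈ I, max ρ ‖β0 - β‖ ∈ t β := by
      rw [Filter.eventually_all_finite hI]
      intro β _
      have h2 : Filter.Tendsto (fun ρ : ℝ => max ρ ‖β0 - β‖) (𝓝 0) (𝓝 (max 0 ‖β0 - β‖)) :=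
        (continuous_id.max continuous_const).tendsto 0
      rw [max_eq_right (norm_nonneg _)] at h2
      have h4 : t β ∈ 𝓝 ‖β0 - β‖ := by
        rw [← hval]
        exact ht β
      have h5 : ∀ᶠ ρ : ℝ in 𝓝 0, max ρ ‖β0 - β‖ ∈ t β := h2 h4
      exact h5.filter_mono nhdsWithin_le_nhds
    have e2 : ∀ᶠ ρ : ℝ in 𝓝[>] 0, ∀ β ∈ S, ρ < w.v (X - C β) := by
      rw [Filter.eventually_all_finset]
      intro β hβ
      have h2 : (0 : ℝ) < w.v (X - C β) := lt_of_le_of_ne (w.nonneg _) (hS β hβ).symm
      exact (eventually_lt_nhds h2).filter_mono nhdsWithin_le_nhds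
    obtain ⟨ρ, ⟨h1, h2⟩, h3⟩ := ((e1.and e2).and self_mem_nhdsWithin).exists
    have h3' : (0 : ℝ) < ρ := h3
    obtain ⟨e, he1, -, he3⟩ := exists_eta (k := k) β0 ρ h3'.le
    have hle : w.v (X - C β0) ≤ ρ := by rw [h0]; exact h3'.le
    refine ⟨β0, ρ, e, h3', he1, hle, he3 w hle, hsub e fun β hβ => ?_, h2⟩
    rw [he1]
    exact h1 β hβ
  · push Not at hz
    obtain ⟨β1, h1⟩ := h (S ∪ hI.toFinset) fun β _ => hz β
    have hpos : 0 < w.v (X - C β1) := lt_of_le_of_ne (w.nonneg _) (hz β1).symm
    obtain ⟨e, he1, -, he3⟩ := exists_eta (k := k) β1 (w.v (X - C β1)) hpos.le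
    refine ⟨β1, w.v (X - C β1), e, hpos, he1, le_rfl, he3 w le_rfl, hsub e fun β hβ => ?_,
      fun β' hβ' => h1 β' (Finset.mem_union_left _ hβ')⟩
    have h2 := h1 β (Finset.mem_union_right _ (hI.mem_toFinset.2 hβ))
    rw [he1, Tk2_of_lt' w h2, max_eq_right h2.le]
    exact mem_of_mem_nhds (ht β)

end Pool.Agent.TD


end
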