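import Mathlib
import Pool.Agent.DolbM.C01
import Pool.Agent.TD.A2

/-! Parts: TD.BG.Stmts, TD.BG.Basic, TD.BG.TOP, TD.BG.BND, TD.BG.EXH, TD.BG.NHD, TD.BG.M3, TD.BG.INT -/

section

/-!
# Blocks BG and M: statements of the modules (proofs: PAPER.md, sections 2 and 3)
-/

open scoped ContDiff Topology NNReal

namespace Pool.Agent.TD.BG

/-! ### Initial forms (section 3, B2) -/

/-- MAC: there are only finitely many upper sets with a given counting function. -/
def MAC_Stmt : Prop := ∀ (n : ℕ) (H : ℕ → ℕ),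
  {E : Set (Fin n → ℕ) | (∀ u ∈ E, ∀ a, u + a ∈ E) ∧
    ∀ d, Set.ncard {u | u ∈ E ∧ deg u = d} = H d}.Finite

/-- ORT: orthogonality of elements with different leading monomials. -/
def ORT_Stmt : Prop := ∀ (K E : Type) [NormedField K] [IsUltrametricDist K] (wt : E → ℝ≥0),
  (∀ u, 0 < wt u) → ∀ (r : E → E → Prop) [IsStrictTotalOrder E r] (ι : Type) [Fintype ι]
  (G : ι → E →₀ K) (u : ι → E), Function.Injective u → (∀ j, IsLM wt r (G j) (u j)) →
  ∀ c : ι → K, nrm wt (∑ j, c j • G j) = Finset.univ.sup fun j => ‖c j‖₊ * nrm wt (G j)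

/-- CNT: the number of leading monomials of a graded subspace does not depend on the order. -/
def CNT_Stmt : Prop := ∀ (K E : Type) [NormedField K] [IsUltrametricDist K] (wt : E → ℝ≥0),
  (∀ u, 0 < wt u) → ∀ (M : Finset E) (W : Set (E →₀ K)), GSub wt (M : Set E) W →
  ∀ (r r' : E → E → Prop) [IsStrictTotalOrder E r] [IsStrictTotalOrder E r'],
    Set.ncard {u | ∃ F ∈ W, IsLM wt r F u} = Set.ncard {u | ∃ F ∈ W, IsLM wt r' F u}

/-- DIM: for the initial forms of a subspace this number is the dimension. -/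
def DIM_Stmt : Prop := ∀ (K E : Type) [NormedField K] [IsUltrametricDist K] (wt : E → ℝ≥0),
  (∀ u, 0 < wt u) → ∀ (M : Finset E) (V : Submodule K (E →₀ K)),
  (∀ F ∈ V, ∀ u, F u ≠ 0 → u ∈ M) → ∀ (r : E → E → Prop) [IsStrictTotalOrder E r],
    Set.ncard {u | ∃ F : E →₀ K, F ≠ 0 ∧ (∃ G ∈ V, nrm wt (F - G) < nrm wt F) ∧ IsLM wt r F u} =
      Module.finrank K V

/-- STP: one step of the argument: passing to `{F : x_i^k F ∈ W}`. -/
def STP_Stmt : Prop := ∀ (K : Type) [NormedField K] [IsUltrametricDist K] (n : ℕ)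
  (Λ : Type) (w : Λ → Fin n → ℝ) (W : Λ → ℕ → Set ((Fin n → ℕ) →₀ K)),
  (∀ l, GSys (w l) (W l)) → ∀ i0 : Fin n,
  (Set.range fun l => fun d => Set.ncard (LMs (w l) (W l) i0 d)).Finite → ∀ i : Fin n,
  ∃ k : ℕ, (∀ l d F, Hom d F → sh (xp i (k + 1)) F ∈ W l (d + (k + 1)) →
      sh (xp i k) F ∈ W l (d + k)) ∧
    (∀ l, GSys (w l) fun d => {F | Hom d F ∧ sh (xp i k) F ∈ W l (d + k)}) ∧
    (Set.range fun l => fun d =>
      Set.ncard (LMs (w l) (fun d => {F | Hom d F ∧ sh (xp i k) F ∈ W l (d + k)}) i0 d)).Finite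

/-- UNI: uniform exponent. -/
def UNI_Stmt : Prop := ∀ (K : Type) [NormedField K] [IsUltrametricDist K] (n : ℕ)
  (J : Submodule K ((Fin n → ℕ) →₀ K)), (∀ F ∈ J, ∀ a, sh a F ∈ J) →
  ∃ k : ℕ, ∀ (w : Fin n → ℝ) (d : ℕ) (G : (Fin n → ℕ) →₀ K) (a : Fin n → ℕ), G ∈ J → Hom d G →
    Single (wtN w) G a →
    ∃ G' ∈ J, Hom (n * k) G' ∧ Single (wtN w) G' (fun _ => k)

/-- CIR: finitely many circuits suffice. -/
def CIR_Stmt : Prop := ∀ (K E : Type) [NormedField K] [IsUltrametricDist K]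
  (M : Finset E) (V : Submodule K (E →₀ K)), (∀ F ∈ V, ∀ u, F u ≠ 0 → u ∈ M) →
  ∃ C : Finset (E →₀ K), (∀ F ∈ C, F ∈ V) ∧ ∀ (wt : E → ℝ≥0), (∀ u, 0 < wt u) →
    ∀ u, (∃ F ∈ V, Single wt F u) → ∃ F ∈ C, Single wt F u

/-- FTB: finite tropical bases of ideals of Laurent polynomials. -/
def FTB_Stmt : Prop := ∀ (K ι : Type) [NormedField K] [IsUltrametricDist K] [Fintype ι]
  (I : Ideal (Laur K ι)), ∃ C : Finset (Laur K ι), (∀ F ∈ C, F ∈ I) ∧
    ∀ w : ι → ℝ, w ∉ Trop I → ∃ F ∈ C, ∃ u, Single (wtZ w) (co F) u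

/-- TPL: tropicalizations are finite unions of polyhedra. -/
def TPL_Stmt : Prop := ∀ (K ι : Type) [NormedField K] [IsUltrametricDist K] [Fintype ι]
  (I : Ideal (Laur K ι)), IsPolyU (Trop I)

/-! ### Polyhedra -/

/-- FM1: elimination of one variable. -/
def FM1_Stmt : Prop := ∀ (n : ℕ) (S : Set (Fin (n + 1) → ℝ)), IsPolyh S →
  IsPolyh ((fun x : Fin (n + 1) → ℝ => fun i : Fin n => x i.succ) '' S)

/-- FM: linear images of polyhedra are polyhedra. -/
def FM_Stmt : Prop := ∀ (ι κ : Type) [Fintype ι] [Fintype κ] (L : (ι → ℝ) →ₗ[ℝ] (κ → ℝ))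
  (S : Set (ι → ℝ)), IsPolyh S → IsPolyh (L '' S)

/-- PLB: intersections, closedness, convexity. -/
def PLB_Stmt : Prop := ∀ (ι : Type) [Fintype ι],
  (∀ S S' : Set (ι → ℝ), IsPolyh S → IsPolyh S' → IsPolyh (S ∩ S')) ∧
  (∀ S : Set (ι → ℝ), IsPolyh S → Convex ℝ S ∧ IsClosed S) ∧
  (∀ S S' : Set (ι → ℝ), IsPolyU S → IsPolyU S' → IsPolyU (S ∩ S') ∧ IsPolyU (S ∪ S')) ∧
  (∀ (l : ι → ℝ) (c : ℝ), IsPolyh {x : ι → ℝ | ∑ i, l i * x i ≤ c}) ∧
  (∀ (l : ι → ℝ) (c : ℝ), IsPolyh {x : ι → ℝ | c ≤ ∑ i, l i * x i}) ∧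
  (∀ (l : ι → ℝ) (c : ℝ), IsPolyh {x : ι → ℝ | ∑ i, l i * x i = c}) ∧
  IsPolyh (Set.univ : Set (ι → ℝ)) ∧ IsPolyU (∅ : Set (ι → ℝ))

/-- ADH: a polyhedron which comes arbitrarily close to `(w, -∞)` is star-shaped about `w` after
projection. `p` marks the coordinates with a finite limit. -/
def ADH_Stmt : Prop := ∀ (ι : Type) [Fintype ι] (p : ι → Prop) (S : Set (ι → ℝ)), IsPolyh S →
  ∀ w : ι → ℝ, (∀ η : ℝ, 0 < η → ∃ x ∈ S, (∀ i, p i → |x i - w i| ≤ η) ∧
    ∀ i, ¬ p i → x i ≤ -(1 / η)) →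
  ∀ (ε c : ℝ), 0 ≤ ε → ∀ x ∈ S, (∀ i, p i → |x i - w i| ≤ ε) → (∀ i, ¬ p i → x i ≤ c) →
  ∀ r : ℝ, 0 ≤ r → r ≤ 1 → ∃ x' ∈ S, (∀ i, p i → x' i = w i + r * (x i - w i)) ∧
    ∀ i, ¬ p i → x' i ≤ c

/-! ### Points of spectra -/

/-- M3: non-emptiness of the spectrum. -/
def M3_Stmt : Prop := ∀ (R : Type) [CommRing R] (N : R → ℝ), (∀ a, 0 ≤ N a) → N 0 = 0 → N 1 = 1 →
  (∀ a, N (-a) = N a) → (∀ a b, N (a + b) ≤ max (N a) (N b)) → (∀ a b, N (a * b) ≤ N a * N b) →
  ∃ v : R → ℝ, (∀ a, 0 ≤ v a) ∧ v 1 = 1 ∧ (∀ a b, v (a * b) = v a * v b) ∧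
    (∀ a b, v (a + b) ≤ max (v a) (v b)) ∧ ∀ a, v a ≤ N a

/-- B1: points of the tropicalization come from multiplicative seminorms. -/
def B1_Stmt : Prop := ∀ (K ι : Type) [NormedField K] [IsUltrametricDist K] [Fintype ι]
  [DecidableEq ι] (I : Ideal (Laur K ι)) (w : ι → ℝ), w ∈ Trop I →
  ∃ z : Ber K (Laur K ι), (∀ i, z.v (var i) = Real.exp (w i)) ∧ ∀ F ∈ I, z.v F = 0

/-- IDJ: `IJ t J` is an ideal. -/
def IDJ_Stmt : Prop := ∀ (K A : Type) [NormedField K] [CommRing A] [Algebra K A] [DecidableEq A]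
  (t J : Finset A), ∃ I : Ideal (Laur K J), ∀ F, F ∈ I ↔ IJ t J F

/-- STR: the tropicalization of a stratum. -/
def STR_Stmt : Prop := ∀ (K A : Type) [NormedField K] [IsUltrametricDist K] [CommRing A]
  [Algebra K A] [DecidableEq A] (t J : Finset A), J ⊆ t → Algebra.adjoin K (t : Set A) = ⊤ →
  ∀ I : Ideal (Laur K J), (∀ F, F ∈ I ↔ IJ t J F) →
  (berLS K A).trop J '' (stra t J) = Trop I

/-! ### Topology (section 2) -/

/-- TOP: elementary topology of `M(A)`. -/
def TOP_Stmt : Prop := ∀ (K A : Type) [NormedField K] [CommRing A] [Algebra K A],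
  T2Space (Ber K A) ∧ (∀ a : A, Continuous fun z : Ber K A => z.v a) ∧
  (∀ Z : Set (Ber K A), IsClosed Z → (∀ a : A, ∃ C : ℝ, ∀ z ∈ Z, z.v a ≤ C) → IsCompact Z) ∧
  ∀ (Y : Type) [TopologicalSpace Y] (f : Y → Ber K A), (∀ a, Continuous fun y => (f y).v a) →
    Continuous f

/-- BND: over a set on which generators are bounded everything is bounded. -/
def BND_Stmt : Prop := ∀ (K A : Type) [NormedField K] [IsUltrametricDist K] [CommRing A]
  [Algebra K A] (t : Set A), Algebra.adjoin K t = ⊤ → ∀ Z : Set (Ber K A),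
  (∀ a ∈ t, ∃ C : ℝ, ∀ z ∈ Z, z.v a ≤ C) → ∀ a : A, ∃ C : ℝ, ∀ z ∈ Z, z.v a ≤ C

/-- EXH: `M(A)` is locally compact and exhausted by compact sets. -/
def EXH_Stmt : Prop := ∀ (K A : Type) [NormedField K] [IsUltrametricDist K] [CommRing A]
  [Algebra K A] [Algebra.FiniteType K A],
  LocallyCompactSpace (Ber K A) ∧ ∃ B : ℕ → Set (Ber K A), (∀ n, IsCompact (B n)) ∧
    (∀ n, B n ⊆ interior (B (n + 1))) ∧ ⋃ n, B n = Set.univ

/-- NHD: compact boxes form a basis of neighbourhoods. -/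
def NHD_Stmt : Prop := ∀ (K A : Type) [NormedField K] [IsUltrametricDist K] [CommRing A]
  [Algebra K A] [DecidableEq A] [Algebra.FiniteType K A] (z : Ber K A) (u : Finset A)
  (V : Set (Ber K A)), V ∈ 𝓝 z → ∃ t : Finset A, u ⊆ t ∧ Algebra.adjoin K (t : Set A) = ⊤ ∧
    ∃ η : ℝ, 0 < η ∧ ∀ ε δ : ℝ, 0 < ε → ε ≤ η → 0 < δ → δ ≤ η →
      box z t ε δ ⊆ V ∧ box z t ε δ ∈ 𝓝 z ∧ IsCompact (box z t ε δ)

/-- INT: integral extensions. -/
def INT_Stmt : Prop := ∀ (K A B : Type) [NormedField K] [IsUltrametricDist K] [CommRing A]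
  [CommRing B] [Algebra K A] [Algebra K B] (f : A →ₐ[K] B), Function.Injective f →
  f.toRingHom.IsIntegral →
  Continuous (comap f) ∧ Function.Surjective (comap f) ∧ IsClosedMap (comap f) ∧
    ∀ Z : Set (Ber K A), IsCompact Z → IsCompact (comap f ⁻¹' Z)

/-- CUT: cut-off functions. -/
def CUT_Stmt : Prop := ∀ (K A : Type) [NormedField K] [IsUltrametricDist K] [CommRing A]
  [Algebra K A] [Algebra.FiniteType K A], (berLS K A).CutOff

/-- SSP: the local structure. -/
def SSP_Stmt : Prop := ∀ (K A : Type) [NormedField K] [IsUltrametricDist K] [CommRing A]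
  [Algebra K A] [Algebra.FiniteType K A] (z : Ber K A) (u : Finset A), (∀ a ∈ u, z.v a ≠ 0) →
  ∀ V ∈ 𝓝 z, ∃ V' ∈ 𝓝 z, V' ⊆ V ∧ IsCompact V' ∧ (∀ a ∈ u, ∀ z' ∈ V', z'.v a ≠ 0) ∧
    IsPolyU ((berLS K A).trop u '' V') ∧
    StarConvex ℝ ((berLS K A).trop u z) ((berLS K A).trop u '' V')

/-- STA: the properties used by the other blocks. -/
def STA_Stmt : Prop := ∀ (K A : Type) [NormedField K] [IsUltrametricDist K] [CommRing A]
  [Algebra K A] [Algebra.FiniteType K A] (z : Ber K A),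
  (berLS K A).StarAt z ∧ (berLS K A).FinConv z

end Pool.Agent.TD.BG


end

section

/-!
# Basic lemmas on weighted norms, leading monomials and shifts
-/

open scoped ContDiff Topology NNReal

namespace Pool.Agent.TD.BG

section nrm

variable {K E : Type} [NormedField K] {wt : E → ℝ≥0}

theorem le_nrm (F : E →₀ K) (u : E) : ‖F u‖₊ * wt u ≤ nrm wt F := by
  by_cases h : F u = 0
  · simp [h]
  · exact Finset.le_sup (f := fun u => ‖F u‖₊ * wt u) (Finsupp.mem_support_iff.2 h)

theorem nrm_le_iff {F : E →₀ K} {c : ℝ≥0} : nrm wt F ≤ c ↔ ∀ u, ‖F u‖₊ * wt u ≤ c :=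
  ⟨fun h u => (le_nrm F u).trans h, fun h => Finset.sup_le fun u _ => h u⟩

theorem nrm_lt_iff {F : E →₀ K} {c : ℝ≥0} (hc : 0 < c) :
    nrm wt F < c ↔ ∀ u, ‖F u‖₊ * wt u < c :=
  ⟨fun h u => (le_nrm F u).trans_lt h, fun h => (Finset.sup_lt_iff hc).2 fun u _ => h u⟩

@[simp] theorem nrm_zero : nrm wt (0 : E →₀ K) = 0 := by simp [nrm]

theorem nrm_eq_zero (hwt : ∀ u, 0 < wt u) {F : E →₀ K} : nrm wt F = 0 ↔ F = 0 := by
  constructor
  · intro h
    ext u
    have h1 := le_nrm (wt := wt) F u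
    rw [h, nonpos_iff_eq_zero, mul_eq_zero] at h1
    rcases h1 with h1 | h1
    · simpa using h1
    · exact absurd h1 (hwt u).ne'
  · rintro rfl; simp

theorem nrm_pos (hwt : ∀ u, 0 < wt u) {F : E →₀ K} (hF : F ≠ 0) : 0 < nrm wt F :=
  pos_iff_ne_zero.2 fun h => hF ((nrm_eq_zero hwt).1 h)

theorem nrm_neg (F : E →₀ K) : nrm wt (-F) = nrm wt F := by
  apply le_antisymm <;> rw [nrm_le_iff] <;> intro u
  · have := le_nrm (wt := wt) F u
    simpa using this
  · have := le_nrm (wt := wt) (-F) u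
    simpa using this

theorem nrm_sub_comm (F G : E →₀ K) : nrm wt (F - G) = nrm wt (G - F) := by
  rw [← nrm_neg, neg_sub]

theorem nrm_smul (c : K) (F : E →₀ K) : nrm wt (c • F) = ‖c‖₊ * nrm wt F := by
  by_cases hc : c = 0
  · subst hc; simp
  have key : ∀ (c : K) (F : E →₀ K), nrm wt (c • F) ≤ ‖c‖₊ * nrm wt F := by
    intro c F
    rw [nrm_le_iff]
    intro u
    rw [Finsupp.smul_apply, smul_eq_mul, nnnorm_mul, mul_assoc]
    exact mul_le_mul_right (le_nrm F u) _
  apply le_antisymm (key c F)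
  have h1 := key c⁻¹ (c • F)
  rw [smul_smul, inv_mul_cancel₀ hc, one_smul, nnnorm_inv] at h1
  have hc' : ‖c‖₊ ≠ 0 := by simpa using hc
  calc ‖c‖₊ * nrm wt F ≤ ‖c‖₊ * (‖c‖₊⁻¹ * nrm wt (c • F)) := mul_le_mul_right h1 _
    _ = nrm wt (c • F) := by rw [← mul_assoc, mul_inv_cancel₀ hc', one_mul]

theorem nrm_add_le [IsUltrametricDist K] (F G : E →₀ K) :
    nrm wt (F + G) ≤ max (nrm wt F) (nrm wt G) := by
  rw [nrm_le_iff]
  intro u
  rw [Finsupp.add_apply]
  have h1 : ‖F u + G u‖₊ ≤ max ‖F u‖₊ ‖G u‖₊ := IsUltrametricDist.nnnorm_add_le_max _ _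
  calc ‖F u + G u‖₊ * wt u ≤ max ‖F u‖₊ ‖G u‖₊ * wt u := mul_le_mul_left h1 _
    _ = max (‖F u‖₊ * wt u) (‖G u‖₊ * wt u) := max_mul _ _ _
    _ ≤ _ := max_le_max (le_nrm F u) (le_nrm G u)

theorem nrm_sub_le [IsUltrametricDist K] (F G : E →₀ K) :
    nrm wt (F - G) ≤ max (nrm wt F) (nrm wt G) := by
  rw [sub_eq_add_neg, ← nrm_neg (wt := wt) G]
  exact nrm_add_le _ _

/-- elements which are close have the same norm -/
theorem nrm_eq_of_approx [IsUltrametricDist K] {F G : E →₀ K}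
    (h : nrm wt (F - G) < nrm wt F) : nrm wt G = nrm wt F := by
  apply le_antisymm
  · have h1 : G = F - (F - G) := by abel
    rw [h1]
    refine (nrm_sub_le _ _).trans (max_le le_rfl h.le)
  · by_contra hcon
    push Not at hcon
    have h1 : F = (F - G) + G := by abel
    have h2 : nrm wt F ≤ max (nrm wt (F - G)) (nrm wt G) := by
      conv_lhs => rw [h1]
      exact nrm_add_le _ _
    exact absurd h2 (not_le.2 (max_lt h hcon))

theorem exists_nrm_eq {F : E →₀ K} (hF : F ≠ 0) :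
    ∃ u, F u ≠ 0 ∧ ‖F u‖₊ * wt u = nrm wt F := by
  have hne : F.support.Nonempty := Finsupp.support_nonempty_iff.2 hF
  obtain ⟨u, hu, h⟩ := Finset.exists_mem_eq_sup F.support hne fun u => ‖F u‖₊ * wt u
  exact ⟨u, Finsupp.mem_support_iff.1 hu, h.symm⟩

theorem nrm_sum_le [IsUltrametricDist K] {ι : Type} (s : Finset ι) (G : ι → E →₀ K) :
    nrm wt (∑ j ∈ s, G j) ≤ s.sup fun j => nrm wt (G j) := by
  classical
  induction s using Finset.induction_on with
  | empty => simp
  | insert i s hi ih =>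
    rw [Finset.sum_insert hi, Finset.sup_insert]
    exact (nrm_add_le _ _).trans (max_le_max le_rfl ih)

/-! ### Leading monomials -/

theorem IsLM.nrm_eq {r : E → E → Prop} {F : E →₀ K} {u : E} (h : IsLM wt r F u) :
    nrm wt F = ‖F u‖₊ * wt u := by
  apply le_antisymm _ (le_nrm F u)
  rw [nrm_le_iff]
  intro u'
  by_cases hu : u' = u
  · rw [hu]
  · exact (h.2 u' hu).1

theorem IsLM.unique {r : E → E → Prop} [IsStrictTotalOrder E r] {F : E →₀ K} {u u' : E}
    (h : IsLM wt r F u) (h' : IsLM wt r F u') : u = u' := by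
  by_contra hne
  rcases trichotomous_of r u u' with h1 | h1 | h1
  · have h2 := (h.2 u' (Ne.symm hne)).2 h1
    rw [← h.nrm_eq, ← h'.nrm_eq] at h2
    exact lt_irrefl _ h2
  · exact hne h1
  · have h2 := (h'.2 u hne).2 h1
    rw [← h.nrm_eq, ← h'.nrm_eq] at h2
    exact lt_irrefl _ h2

theorem exists_isLM (hwt : ∀ u, 0 < wt u) (r : E → E → Prop) [IsStrictTotalOrder E r]
    {F : E →₀ K} (hF : F ≠ 0) : ∃ u, IsLM wt r F u := by
  classical
  obtain ⟨u0, hu0, hu0'⟩ := exists_nrm_eq (wt := wt) hF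
  have hpos := nrm_pos hwt hF
  let S : Finset E := F.support.filter fun u => ‖F u‖₊ * wt u = nrm wt F
  have hS0 : u0 ∈ S := by simp [S, hu0, hu0']
  obtain ⟨u, hu, hmax⟩ : ∃ u ∈ S, ∀ u' ∈ S, ¬ r u u' := by
    have hwf : (S : Set E).WellFoundedOn (Function.swap r) :=
      Set.Finite.wellFoundedOn (r := Function.swap r) (S.finite_toSet)
    obtain ⟨u, hu⟩ := WellFounded.has_min hwf Set.univ ⟨⟨u0, hS0⟩, trivial⟩
    exact ⟨u.1, u.2, fun u' hu' => hu.2 ⟨u', hu'⟩ trivial⟩
  have hu1 : F u ≠ 0 ∧ ‖F u‖₊ * wt u = nrm wt F := by simpa [S] using hu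
  refine ⟨u, hu1.1, fun u' hne => ⟨?_, fun hr => ?_⟩⟩
  · rw [hu1.2]; exact le_nrm F u'
  · rw [hu1.2]
    refine lt_of_le_of_ne (le_nrm F u') fun heq => ?_
    by_cases h0 : F u' = 0
    · rw [h0, nnnorm_zero, zero_mul] at heq
      exact hpos.ne heq
    · exact hmax u' (by simp [S, h0, heq]) hr

/-- approximation does not change the leading monomial -/
theorem IsLM.of_approx [IsUltrametricDist K] {r : E → E → Prop} {F G : E →₀ K} {u : E}
    (h : IsLM wt r F u) (hFG : nrm wt (F - G) < nrm wt F) : IsLM wt r G u := by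
  have hGF : nrm wt G = nrm wt F := nrm_eq_of_approx hFG
  have hu : ‖G u‖₊ * wt u = ‖F u‖₊ * wt u := by
    apply le_antisymm
    · rw [← h.nrm_eq, ← hGF]; exact le_nrm G u
    · by_contra hcon
      push Not at hcon
      have h1 : ‖F u‖₊ ≤ max ‖(F - G) u‖₊ ‖G u‖₊ := by
        have : F u = (F - G) u + G u := by simp
        rw [this]
        exact IsUltrametricDist.nnnorm_add_le_max _ _
      have h2 : ‖F u‖₊ * wt u ≤ max (‖(F - G) u‖₊ * wt u) (‖G u‖₊ * wt u) := by
        rw [← max_mul]; exact mul_le_mul_left h1 _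
      have h3 : ‖(F - G) u‖₊ * wt u < ‖F u‖₊ * wt u := by
        rw [← h.nrm_eq]; exact (le_nrm _ u).trans_lt hFG
      exact absurd h2 (not_le.2 (max_lt h3 hcon))
  have hpos : 0 < ‖F u‖₊ * wt u := by
    rw [← h.nrm_eq]; exact pos_of_gt hFG
  refine ⟨fun h0 => ?_, fun u' hne => ?_⟩
  · rw [h0, nnnorm_zero, zero_mul] at hu
    exact hpos.ne hu
  · rw [hu, ← h.nrm_eq]
    refine ⟨by rw [← hGF]; exact le_nrm G u', fun hr => ?_⟩
    have h1 := (h.2 u' hne).2 hr
    rw [← h.nrm_eq] at h1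
    have h2 : ‖G u'‖₊ ≤ max ‖F u'‖₊ ‖(F - G) u'‖₊ := by
      have : G u' = F u' - (F - G) u' := by simp
      rw [this, sub_eq_add_neg, ← nnnorm_neg ((F - G) u')]
      exact IsUltrametricDist.nnnorm_add_le_max _ _
    calc ‖G u'‖₊ * wt u' ≤ max (‖F u'‖₊ * wt u') (‖(F - G) u'‖₊ * wt u') := by
          rw [← max_mul]; exact mul_le_mul_left h2 _
      _ < nrm wt F := max_lt h1 ((le_nrm _ u').trans_lt hFG)

theorem Single.isLM {r : E → E → Prop} {F : E →₀ K} {u : E} (h : Single wt F u) :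
    IsLM wt r F u := ⟨h.1, fun u' hne => ⟨(h.2 u' hne).le, fun _ => h.2 u' hne⟩⟩

end nrm

/-! ### Shifts -/

section sh

variable {K : Type} [NormedField K] {n : ℕ}

theorem sh_apply_add (a : Fin n → ℕ) (F : (Fin n → ℕ) →₀ K) (u : Fin n → ℕ) :
    sh a F (u + a) = F u := Finsupp.mapDomain_apply (add_left_injective a) F u

theorem sh_apply_of_not_le {a : Fin n → ℕ} (F : (Fin n → ℕ) →₀ K) {u : Fin n → ℕ}
    (h : ¬ a ≤ u) : sh a F u = 0 := by
  apply Finsupp.mapDomain_of_notMem_range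
  rintro ⟨v, rfl⟩
  exact h (by intro i; simp)

theorem sh_ne_zero {a : Fin n → ℕ} {F : (Fin n → ℕ) →₀ K} {u : Fin n → ℕ}
    (h : sh a F u ≠ 0) : ∃ v, u = v + a ∧ F v ≠ 0 := by
  have h1 : a ≤ u := by
    by_contra h2
    exact h (sh_apply_of_not_le F h2)
  refine ⟨u - a, (tsub_add_cancel_of_le h1).symm, ?_⟩
  rwa [← sh_apply_add a F (u - a), tsub_add_cancel_of_le h1]

theorem sh_add (a : Fin n → ℕ) (F G : (Fin n → ℕ) →₀ K) : sh a (F + G) = sh a F + sh a G :=
  Finsupp.mapDomain_add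

theorem sh_smul (a : Fin n → ℕ) (c : K) (F : (Fin n → ℕ) →₀ K) : sh a (c • F) = c • sh a F :=
  Finsupp.mapDomain_smul _ _

theorem sh_sub (a : Fin n → ℕ) (F G : (Fin n → ℕ) →₀ K) : sh a (F - G) = sh a F - sh a G := by
  have h1 : sh a (F - G) + sh a G = sh a F := by rw [← sh_add, sub_add_cancel]
  rw [← h1]; abel

theorem sh_sh (a b : Fin n → ℕ) (F : (Fin n → ℕ) →₀ K) : sh a (sh b F) = sh (b + a) F := by
  unfold sh
  rw [← Finsupp.mapDomain_comp]
  congr 1
  funext u
  simp [add_assoc]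

theorem sh_zero (F : (Fin n → ℕ) →₀ K) : sh 0 F = F := by
  unfold sh
  simp only [add_zero]
  exact Finsupp.mapDomain_id

theorem sh_eq_zero {a : Fin n → ℕ} {F : (Fin n → ℕ) →₀ K} : sh a F = 0 ↔ F = 0 := by
  constructor
  · intro h
    ext u
    rw [← sh_apply_add a F u, h]; rfl
  · rintro rfl
    exact Finsupp.mapDomain_zero

theorem wtN_pos (w : Fin n → ℝ) (u : Fin n → ℕ) : 0 < wtN w u := Real.exp_pos _

theorem wtN_add (w : Fin n → ℝ) (u v : Fin n → ℕ) : wtN w (u + v) = wtN w u * wtN w v := by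
  apply NNReal.eq
  show Real.exp _ = Real.exp _ * Real.exp _
  rw [← Real.exp_add, ← Finset.sum_add_distrib]
  congr 1
  exact Finset.sum_congr rfl fun i _ => by simp [add_mul]

theorem nrm_sh (w : Fin n → ℝ) (a : Fin n → ℕ) (F : (Fin n → ℕ) →₀ K) :
    nrm (wtN w) (sh a F) = wtN w a * nrm (wtN w) F := by
  apply le_antisymm
  · rw [nrm_le_iff]
    intro u
    by_cases h : sh a F u = 0
    · simp [h]
    · obtain ⟨v, rfl, -⟩ := sh_ne_zero h
      rw [sh_apply_add, wtN_add, mul_comm (wtN w v), mul_left_comm]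
      exact mul_le_mul_right (le_nrm F v) _
  · by_cases hF : F = 0
    · subst hF; simp
    obtain ⟨v, -, hv⟩ := exists_nrm_eq (wt := wtN w) hF
    rw [← hv, mul_left_comm, mul_comm (wtN w a), ← wtN_add, ← sh_apply_add a F v]
    exact le_nrm _ _

theorem nrm_sh_lt {w : Fin n → ℝ} {a : Fin n → ℕ} {F G : (Fin n → ℕ) →₀ K} :
    nrm (wtN w) (sh a F - sh a G) < nrm (wtN w) (sh a F) ↔
      nrm (wtN w) (F - G) < nrm (wtN w) F := by
  rw [← sh_sub, nrm_sh, nrm_sh]
  exact mul_lt_mul_iff_right₀ (wtN_pos w a)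

theorem deg_add (u v : Fin n → ℕ) : deg (u + v) = deg u + deg v := by
  simp [deg, Finset.sum_add_distrib]

theorem deg_xp (i : Fin n) (k : ℕ) : deg (xp i k) = k := by
  simp [deg, xp]

theorem hom_sh {a : Fin n → ℕ} {d : ℕ} {F : (Fin n → ℕ) →₀ K} (h : Hom d F) :
    Hom (d + deg a) (sh a F) := by
  intro u hu
  obtain ⟨v, rfl, hv⟩ := sh_ne_zero hu
  rw [deg_add, h v hv]

theorem finite_deg (n d : ℕ) : {u : Fin n → ℕ | deg u = d}.Finite := by
  refine (Set.finite_Iic (fun _ : Fin n => d)).subset ?_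
  intro u hu i
  have h1 : u i ≤ ∑ j, u j := Finset.single_le_sum (f := u) (fun _ _ => Nat.zero_le _)
    (Finset.mem_univ i)
  exact h1.trans (le_of_eq hu)

instance ord_sto (i : Fin n) : IsStrictTotalOrder (Fin n → ℕ) (ord i) where
  trichotomous u u' h1 h2 := by
    by_contra hne
    unfold ord at h1 h2
    push Not at h1 h2
    have h3 : u i = u' i := le_antisymm h1.1 h2.1
    have h4 : ¬ toLex u < toLex u' := h1.2 h3
    have h5 : ¬ toLex u' < toLex u := h2.2 h3.symm
    exact hne (toLex.injective (le_antisymm (not_lt.1 h5) (not_lt.1 h4)))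
  irrefl u h := by
    rcases h with h | h
    · exact lt_irrefl _ h
    · exact lt_irrefl _ h.2
  trans u v w h1 h2 := by
    rcases h1 with h1 | h1 <;> rcases h2 with h2 | h2
    · exact Or.inl (h2.trans h1)
    · exact Or.inl (by rw [← h2.1]; exact h1)
    · exact Or.inl (by rw [h1.1]; exact h2)
    · exact Or.inr ⟨h1.1.trans h2.1, h1.2.trans h2.2⟩

theorem ord_add (i : Fin n) (u v a : Fin n → ℕ) : ord i (u + a) (v + a) ↔ ord i u v := by
  unfold ord
  have h1 : (toLex (u + a) < toLex (v + a)) ↔ toLex u < toLex v := by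
    rw [toLex_add, toLex_add]
    exact add_lt_add_iff_right _
  rw [h1]
  simp

theorem isLM_sh {w : Fin n → ℝ} {i : Fin n} {a u : Fin n → ℕ} {F : (Fin n → ℕ) →₀ K} :
    IsLM (wtN w) (ord i) (sh a F) (u + a) ↔ IsLM (wtN w) (ord i) F u := by
  unfold IsLM
  rw [sh_apply_add]
  refine and_congr_right fun hFu => ?_
  have hpos := wtN_pos w a
  constructor
  · intro h u' hne
    have h1 := h (u' + a) (fun h2 => hne (add_right_cancel h2))
    rw [sh_apply_add, ord_add, wtN_add, wtN_add, ← mul_assoc, ← mul_assoc] at h1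
    exact ⟨(mul_le_mul_iff_left₀ hpos).1 h1.1, fun hr => (mul_lt_mul_iff_left₀ hpos).1 (h1.2 hr)⟩
  · intro h u' hne
    by_cases h0 : sh a F u' = 0
    · rw [h0, nnnorm_zero, zero_mul]
      refine ⟨bot_le, fun hr => ?_⟩
      exact mul_pos (by simpa using hFu) (wtN_pos _ _)
    · obtain ⟨v, rfl, -⟩ := sh_ne_zero h0
      have hne' : v ≠ u := fun h2 => hne (by rw [h2])
      rw [sh_apply_add, ord_add, wtN_add, wtN_add, ← mul_assoc, ← mul_assoc]
      exact ⟨(mul_le_mul_iff_left₀ hpos).2 (h v hne').1,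
        fun hr => (mul_lt_mul_iff_left₀ hpos).2 ((h v hne').2 hr)⟩

/-- initial forms of a shift invariant subspace form a graded system -/
theorem gsys_InJ [IsUltrametricDist K] (w : Fin n → ℝ) (J : Submodule K ((Fin n → ℕ) →₀ K))
    (hJ : ∀ F ∈ J, ∀ a, sh a F ∈ J) : GSys w (InJ w J) where
  gsub d := {
    ne := fun F hF => hF.1
    mon := fun F hF => hF.2.1
    approx := by
      rintro F ⟨hF0, hFh, G, hG, hGh, hFG⟩ F' hF' hlt
      have h1 : nrm (wtN w) F' = nrm (wtN w) F := nrm_eq_of_approx hlt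
      refine ⟨?_, hF', G, hG, hGh, ?_⟩
      · rintro rfl
        rw [nrm_zero] at h1
        exact hF0 ((nrm_eq_zero (wtN_pos w)).1 h1.symm)
      · have h2 : F' - G = (F - G) - (F - F') := by abel
        rw [h2, h1]
        exact (nrm_sub_le _ _).trans_lt (max_lt hFG hlt)
    add := by
      rintro F ⟨hF0, hFh, G, hG, hGh, hFG⟩ F' ⟨hF0', hFh', G', hG', hGh', hFG'⟩ h1 h2
      refine ⟨?_, ?_, G + G', J.add_mem hG hG', ?_, ?_⟩
      · intro h3
        rw [h3, nrm_zero] at h2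
        exact hF0 ((nrm_eq_zero (wtN_pos w)).1 h2.symm)
      · intro u hu
        by_contra hne
        have a1 : F u = 0 := by by_contra h; exact hne (hFh u h)
        have a2 : F' u = 0 := by by_contra h; exact hne (hFh' u h)
        exact hu (by simp [a1, a2])
      · intro u hu
        by_contra hne
        have a1 : G u = 0 := by by_contra h; exact hne (hGh u h)
        have a2 : G' u = 0 := by by_contra h; exact hne (hGh' u h)
        exact hu (by simp [a1, a2])
      · have h3 : F + F' - (G + G') = (F - G) + (F' - G') := by abel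
        rw [h3, h2]
        exact (nrm_add_le _ _).trans_lt (max_lt hFG (by rw [h1]; exact hFG'))
    smul := by
      rintro c hc F ⟨hF0, hFh, G, hG, hGh, hFG⟩
      refine ⟨smul_ne_zero hc hF0, ?_, c • G, J.smul_mem c hG, ?_, ?_⟩
      · intro u hu
        exact hFh u fun h => hu (by simp [h])
      · intro u hu
        exact hGh u fun h => hu (by simp [h])
      · rw [← smul_sub, nrm_smul, nrm_smul]
        exact (mul_lt_mul_iff_right₀ (by simpa using hc)).2 hFG }
  shift := by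
    rintro d F ⟨hF0, hFh, G, hG, hGh, hFG⟩ a
    exact ⟨fun h => hF0 (sh_eq_zero.1 h), hom_sh hFh, sh a G, hJ G hG a, hom_sh hGh,
      nrm_sh_lt.2 hFG⟩

end sh

end Pool.Agent.TD.BG


end

section

/-!
# Module TOP: the topology of `M(A)`
-/

open scoped ContDiff Topology NNReal

namespace Pool.Agent.TD.BG

namespace TOP

variable {K A : Type} [NormedField K] [CommRing A] [Algebra K A]

theorem v_injective : Function.Injective (Ber.v : Ber K A → A → ℝ) := by
  rintro ⟨v, _, _, _, _, _⟩ ⟨v', _, _, _, _, _⟩ h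
  have h' : v = v' := h
  subst h'
  rfl

theorem isEmbedding_v : Topology.IsEmbedding (Ber.v : Ber K A → A → ℝ) :=
  ⟨⟨rfl⟩, v_injective⟩

theorem continuous_v : Continuous (Ber.v : Ber K A → A → ℝ) := isEmbedding_v.continuous

theorem continuous_v_apply (a : A) : Continuous fun z : Ber K A => z.v a :=
  (continuous_apply a).comp continuous_v

theorem isClosed_range_v : IsClosed (Set.range (Ber.v : Ber K A → A → ℝ)) := by
  have h : Set.range (Ber.v : Ber K A → A → ℝ) =
      {f | ∀ a, 0 ≤ f a} ∩ {f | f 1 = 1} ∩ {f | ∀ a b, f (a * b) = f a * f b} ∩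
        {f | ∀ a b, f (a + b) ≤ max (f a) (f b)} ∩
          {f | ∀ c : K, f (algebraMap K A c) = ‖c‖} := by
    ext f
    constructor
    · rintro ⟨z, rfl⟩
      exact ⟨⟨⟨⟨z.nonneg, z.one⟩, z.mul⟩, z.add⟩, z.ext⟩
    · rintro ⟨⟨⟨⟨h1, h2⟩, h3⟩, h4⟩, h5⟩
      exact ⟨⟨f, h1, h2, h3, h4, h5⟩, rfl⟩
  rw [h]
  refine IsClosed.inter (IsClosed.inter (IsClosed.inter (IsClosed.inter ?_ ?_) ?_) ?_) ?_
  · rw [Set.ofPred_forall]
    exact isClosed_iInter fun a => isClosed_le continuous_const (continuous_apply a)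
  · exact isClosed_eq (continuous_apply _) continuous_const
  · rw [Set.ofPred_forall]
    refine isClosed_iInter fun a => ?_
    rw [Set.ofPred_forall]
    exact isClosed_iInter fun b => isClosed_eq (continuous_apply _)
      ((continuous_apply a).mul (continuous_apply b))
  · rw [Set.ofPred_forall]
    refine isClosed_iInter fun a => ?_
    rw [Set.ofPred_forall]
    exact isClosed_iInter fun b => isClosed_le (continuous_apply _)
      ((continuous_apply a).max (continuous_apply b))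
  · rw [Set.ofPred_forall]
    exact isClosed_iInter fun c => isClosed_eq (continuous_apply _) continuous_const

theorem isClosedEmbedding_v : Topology.IsClosedEmbedding (Ber.v : Ber K A → A → ℝ) :=
  ⟨isEmbedding_v, isClosed_range_v⟩

theorem isCompact_of_bounded (Z : Set (Ber K A)) (hZ : IsClosed Z)
    (hb : ∀ a : A, ∃ C : ℝ, ∀ z ∈ Z, z.v a ≤ C) : IsCompact Z := by
  choose C hC using hb
  have hK : IsCompact (Set.univ.pi fun a : A => Set.Icc (0 : ℝ) (C a)) :=
    isCompact_univ_pi fun a => isCompact_Icc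
  have hpre : IsCompact ((Ber.v : Ber K A → A → ℝ) ⁻¹'
      (Set.univ.pi fun a : A => Set.Icc (0 : ℝ) (C a))) :=
    isClosedEmbedding_v.isCompact_preimage hK
  refine hpre.of_isClosed_subset hZ ?_
  intro z hz a _
  exact ⟨z.nonneg a, hC a z hz⟩

end TOP

theorem TOP_thm : TOP_Stmt := by
  intro K A _ _ _
  refine ⟨TOP.isEmbedding_v.t2Space, TOP.continuous_v_apply, TOP.isCompact_of_bounded, ?_⟩
  intro Y _ f hf
  exact TOP.isEmbedding_v.continuous_iff.2 (continuous_pi hf)

end Pool.Agent.TD.BG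


end

section

/-!
# BND: over a set on which generators are bounded everything is bounded
-/

namespace Pool.Agent.TD.BG

theorem BND_thm : BND_Stmt := by
  intro K A _ _ _ _ t ht Z hZ a
  have ha : a ∈ Algebra.adjoin K t := by rw [ht]; trivial
  induction ha using Algebra.adjoin_induction with
  | mem x hx => exact hZ x hx
  | algebraMap c => exact ⟨‖c‖, fun z _ => (z.ext c).le⟩
  | add x y _ _ hx hy =>
    obtain ⟨C, hC⟩ := hx
    obtain ⟨D, hD⟩ := hy
    exact ⟨max C D, fun z hz => (z.add x y).trans (max_le_max (hC z hz) (hD z hz))⟩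
  | mul x y _ _ hx hy =>
    obtain ⟨C, hC⟩ := hx
    obtain ⟨D, hD⟩ := hy
    refine ⟨|C| * |D|, fun z hz => ?_⟩
    rw [z.mul]
    exact mul_le_mul ((hC z hz).trans (le_abs_self C)) ((hD z hz).trans (le_abs_self D))
      (z.nonneg y) (abs_nonneg C)

end Pool.Agent.TD.BG


end

section

/-!
# EXH: `M(A)` is locally compact and exhausted by compact sets
-/

open scoped ContDiff Topology NNReal

namespace Pool.Agent.TD.BG

/-- EXH. -/
theorem EXH_thm (h1 : TOP_Stmt) (h2 : BND_Stmt) : EXH_Stmt := by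
  intro K A _ _ _ _ hft
  obtain ⟨hT2, hcont, hcomp, -⟩ := h1 K A
  obtain ⟨t, ht⟩ := hft.out
  -- the exhaustion
  let B : ℕ → Set (Ber K A) := fun n => {z | ∀ a ∈ t, z.v a ≤ n}
  have hBdef : ∀ n z, z ∈ B n ↔ ∀ a ∈ t, z.v a ≤ n := fun n z => Iff.rfl
  have hBclosed : ∀ n, IsClosed (B n) := by
    intro n
    have : B n = ⋂ a ∈ t, {z : Ber K A | z.v a ≤ (n : ℝ)} := by
      ext z
      simp [hBdef]
    rw [this]
    exact isClosed_biInter fun a _ => isClosed_le (hcont a) continuous_const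
  have hBcompact : ∀ n, IsCompact (B n) := by
    intro n
    refine hcomp (B n) (hBclosed n) (h2 K A (t : Set A) ht (B n) ?_)
    intro a ha
    exact ⟨n, fun z hz => hz a ha⟩
  have hBint : ∀ n, B n ⊆ interior (B (n + 1)) := by
    intro n
    have hopen : IsOpen (⋂ a ∈ t, {z : Ber K A | z.v a < (n : ℝ) + 1}) :=
      isOpen_biInter_finset fun a _ => isOpen_lt (hcont a) continuous_const
    refine subset_trans ?_ (interior_maximal ?_ hopen)
    · intro z hz
      simp only [Set.mem_iInter]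
      intro a ha
      have := hz a ha
      show z.v a < (n : ℝ) + 1
      linarith
    · intro z hz a ha
      simp only [Set.mem_iInter] at hz
      have : z.v a < (n : ℝ) + 1 := hz a ha
      push_cast
      exact this.le
  have hBun : ⋃ n, B n = Set.univ := by
    refine Set.eq_univ_of_forall fun z => ?_
    obtain ⟨n, hn⟩ := exists_nat_ge (∑ a ∈ t, |z.v a|)
    refine Set.mem_iUnion.2 ⟨n, fun a ha => ?_⟩
    calc z.v a ≤ |z.v a| := le_abs_self _
      _ ≤ ∑ a ∈ t, |z.v a| := Finset.single_le_sum (f := fun a => |z.v a|)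
          (fun _ _ => abs_nonneg _) ha
      _ ≤ n := hn
  refine ⟨?_, B, hBcompact, hBint, hBun⟩
  have := hT2
  have : WeaklyLocallyCompactSpace (Ber K A) := by
    constructor
    intro z
    have hz : z ∈ ⋃ n, B n := by rw [hBun]; trivial
    obtain ⟨n, hn⟩ := Set.mem_iUnion.1 hz
    exact ⟨B (n + 1), hBcompact (n + 1), mem_interior_iff_mem_nhds.1 (hBint n hn)⟩
  infer_instance

end Pool.Agent.TD.BG


end

section

/-!
# NHD: compact boxes form a basis of neighbourhoods
-/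

open scoped ContDiff Topology NNReal

namespace Pool.Agent.TD.BG

namespace NHD

/-- A neighbourhood contains a basic neighbourhood. -/
theorem basic {K A : Type} [NormedField K] [CommRing A] [Algebra K A] (z : Ber K A)
    (V : Set (Ber K A)) (hV : V ∈ 𝓝 z) :
    ∃ (s : Finset A) (r : ℝ), 0 < r ∧ ∀ z' : Ber K A, (∀ a ∈ s, |z'.v a - z.v a| < r) → z' ∈ V := by
  rw [nhds_induced, Filter.mem_comap] at hV
  obtain ⟨U, hU, hUV⟩ := hV
  rw [nhds_pi, Filter.mem_pi'] at hU
  obtain ⟨I, t, ht, hI⟩ := hU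
  have h1 : ∀ a : A, ∃ r : ℝ, 0 < r ∧ Metric.ball (z.v a) r ⊆ t a :=
    fun a => Metric.mem_nhds_iff.1 (ht a)
  choose r hr hrt using h1
  have h2 : ∃ R : ℝ, 0 < R ∧ ∀ a ∈ I, R ≤ r a := by
    rcases I.eq_empty_or_nonempty with h | h
    · exact ⟨1, one_pos, by simp [h]⟩
    · obtain ⟨b, hb, hb'⟩ := Finset.exists_min_image I r h
      exact ⟨r b, hr b, hb'⟩
  obtain ⟨R, hR, hR'⟩ := h2
  refine ⟨I, R, hR, fun z' hz' => hUV (hI ?_)⟩
  intro a ha
  refine hrt a ?_
  rw [Metric.mem_ball, Real.dist_eq]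
  exact (hz' a ha).trans_le (hR' a ha)

/-- the condition of the box in exponential form -/
theorem log_iff {x y e : ℝ} (hx : 0 ≤ x) (hy : 0 < y) :
    (x ≠ 0 ∧ |Real.log x - Real.log y| ≤ e) ↔ y * Real.exp (-e) ≤ x ∧ x ≤ y * Real.exp e := by
  constructor
  · rintro ⟨h1, h2⟩
    have hx' : 0 < x := lt_of_le_of_ne hx (Ne.symm h1)
    rw [abs_le] at h2
    constructor
    · rw [← Real.log_le_log_iff (by positivity) hx', Real.log_mul hy.ne' (Real.exp_ne_zero _),
        Real.log_exp]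
      linarith
    · rw [← Real.log_le_log_iff hx' (by positivity), Real.log_mul hy.ne' (Real.exp_ne_zero _),
        Real.log_exp]
      linarith
  · rintro ⟨h1, h2⟩
    have hx' : 0 < x := lt_of_lt_of_le (by positivity) h1
    refine ⟨hx'.ne', ?_⟩
    rw [← Real.log_le_log_iff (by positivity) hx', Real.log_mul hy.ne' (Real.exp_ne_zero _),
      Real.log_exp] at h1
    rw [← Real.log_le_log_iff hx' (by positivity), Real.log_mul hy.ne' (Real.exp_ne_zero _),
      Real.log_exp] at h2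
    rw [abs_le]
    constructor <;> linarith

/-- closeness in the box -/
theorem close {x y e E : ℝ} (hx : 0 ≤ x) (hy : 0 < y) (he : 0 ≤ e) (heE : e ≤ E)
    (h : x ≠ 0 ∧ |Real.log x - Real.log y| ≤ e) : |x - y| ≤ y * (Real.exp E - 1) := by
  obtain ⟨h1, h2⟩ := (log_iff hx hy).1 h
  have h3 : Real.exp e ≤ Real.exp E := Real.exp_le_exp.2 heE
  have h4 : 2 ≤ Real.exp e + Real.exp (-e) := by
    have := Real.add_one_le_exp e
    have := Real.add_one_le_exp (-e)
    linarith
  rw [abs_le]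
  constructor
  · nlinarith
  · nlinarith

/-- the box as an intersection of closed conditions -/
theorem box_eq {K A : Type} [NormedField K] [CommRing A] [Algebra K A] (z : Ber K A)
    (t : Finset A) (ε δ : ℝ) :
    box z t ε δ = ⋂ a ∈ t, {z' : Ber K A | (z.v a ≠ 0 → z.v a * Real.exp (-ε) ≤ z'.v a ∧
      z'.v a ≤ z.v a * Real.exp ε) ∧ (z.v a = 0 → z'.v a ≤ δ)} := by
  ext z'
  simp only [box, Set.mem_setOf_eq, Set.mem_iInter]
  refine forall₂_congr fun a _ => and_congr ?_ Iff.rfl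
  refine imp_congr_right fun h => ?_
  exact log_iff (z'.nonneg a) (lt_of_le_of_ne (z.nonneg a) (Ne.symm h))

end NHD

theorem NHD_thm (h1 : TOP_Stmt) (h2 : BND_Stmt) : NHD_Stmt := by
  intro K A _ _ _ _ _ _ z u V hV
  obtain ⟨-, hcont, hcomp, -⟩ := h1 K A
  obtain ⟨s, r, hr, hs⟩ := NHD.basic z V hV
  obtain ⟨g, hg⟩ := (Algebra.FiniteType.out : (⊤ : Subalgebra K A).FG)
  set t : Finset A := u ∪ (s ∪ g) with ht
  have hst : s ⊆ t := Finset.subset_union_left.trans Finset.subset_union_right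
  have hgt : g ⊆ t := Finset.subset_union_right.trans Finset.subset_union_right
  have hadj : Algebra.adjoin K (t : Set A) = ⊤ := by
    rw [eq_top_iff, ← hg]
    exact Algebra.adjoin_mono (by exact_mod_cast hgt)
  set C : ℝ := ∑ a ∈ s, z.v a + 1 with hC
  have hsum : 0 ≤ ∑ a ∈ s, z.v a := Finset.sum_nonneg fun a _ => z.nonneg a
  have hC0 : 0 < C := by linarith
  set η : ℝ := min (r / 2) (Real.log (1 + r / (2 * C))) with hη
  have hq : 0 < r / (2 * C) := by positivity
  have hη0 : 0 < η := lt_min (by linarith) (Real.log_pos (by linarith))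
  refine ⟨t, Finset.subset_union_left, hadj, η, hη0, ?_⟩
  intro ε δ hε hεη hδ hδη
  have hexp : Real.exp η ≤ 1 + r / (2 * C) := by
    have h := Real.exp_le_exp.2 (min_le_right (r / 2) (Real.log (1 + r / (2 * C))))
    rwa [Real.exp_log (by linarith)] at h
  refine ⟨?_, ?_, ?_⟩
  · intro z' hz'
    refine hs z' fun a ha => ?_
    obtain ⟨k1, k2⟩ := hz' a (hst ha)
    by_cases h0 : z.v a = 0
    · have h3 := k2 h0
      rw [h0, sub_zero, abs_of_nonneg (z'.nonneg a)]
      have := min_le_left (r / 2) (Real.log (1 + r / (2 * C)))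
      linarith
    · have hpos : 0 < z.v a := lt_of_le_of_ne (z.nonneg a) (Ne.symm h0)
      have h3 := NHD.close (z'.nonneg a) hpos hε.le hεη (k1 h0)
      have h4 : z.v a ≤ C := by
        have := Finset.single_le_sum (f := fun a => z.v a) (fun b _ => z.nonneg b) ha
        linarith
      have h5 : z.v a * (Real.exp η - 1) ≤ C * (r / (2 * C)) := by
        refine mul_le_mul h4 (by linarith) ?_ hC0.le
        have := Real.add_one_le_exp η
        linarith
      have h6 : C * (r / (2 * C)) = r / 2 := by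
        field_simp
      linarith
  · have hev : ∀ᶠ z' in 𝓝 z, ∀ a ∈ t, (z.v a ≠ 0 → z'.v a ≠ 0 ∧
        |Real.log (z'.v a) - Real.log (z.v a)| ≤ ε) ∧ (z.v a = 0 → z'.v a ≤ δ) := by
      rw [Filter.eventually_all_finset]
      intro a _
      have hc : Filter.Tendsto (fun z' : Ber K A => z'.v a) (𝓝 z) (𝓝 (z.v a)) :=
        (hcont a).continuousAt
      by_cases h0 : z.v a = 0
      · rw [h0] at hc
        have := hc.eventually (gt_mem_nhds hδ)
        filter_upwards [this] with z' hz'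
        exact ⟨fun h => absurd h0 h, fun _ => hz'.le⟩
      · have e1 := hc.eventually (isOpen_ne.mem_nhds h0)
        have hl : Filter.Tendsto (fun z' : Ber K A => Real.log (z'.v a)) (𝓝 z)
            (𝓝 (Real.log (z.v a))) := hc.log h0
        have e2 := hl.eventually (Metric.closedBall_mem_nhds _ hε)
        filter_upwards [e1, e2] with z' h3 h4
        refine ⟨fun _ => ⟨h3, ?_⟩, fun h => absurd h h0⟩
        rw [← Real.dist_eq]
        exact h4
    exact hev
  · refine hcomp _ ?_ ?_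
    · rw [NHD.box_eq]
      refine isClosed_biInter fun a _ => ?_
      by_cases h0 : z.v a = 0
      · have : {z' : Ber K A | (z.v a ≠ 0 → z.v a * Real.exp (-ε) ≤ z'.v a ∧
            z'.v a ≤ z.v a * Real.exp ε) ∧ (z.v a = 0 → z'.v a ≤ δ)} = {z' | z'.v a ≤ δ} := by
          ext z'
          simp [h0]
        rw [this]
        exact isClosed_le (hcont a) continuous_const
      · have : {z' : Ber K A | (z.v a ≠ 0 → z.v a * Real.exp (-ε) ≤ z'.v a ∧
            z'.v a ≤ z.v a * Real.exp ε) ∧ (z.v a = 0 → z'.v a ≤ δ)} =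
            {z' | z.v a * Real.exp (-ε) ≤ z'.v a} ∩ {z' | z'.v a ≤ z.v a * Real.exp ε} := by
          ext z'
          simp [h0]
        rw [this]
        exact (isClosed_le continuous_const (hcont a)).inter
          (isClosed_le (hcont a) continuous_const)
    · refine h2 K A (t : Set A) hadj _ ?_
      intro a ha
      refine ⟨max (z.v a * Real.exp ε) δ, fun z' hz' => ?_⟩
      rw [NHD.box_eq] at hz'
      simp only [Set.mem_iInter, Set.mem_setOf_eq] at hz'
      have h3 := hz' a (by exact_mod_cast ha)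
      by_cases h0 : z.v a = 0
      · exact (h3.2 h0).trans (le_max_right _ _)
      · exact (h3.1 h0).2.trans (le_max_left _ _)

end Pool.Agent.TD.BG


end

section

/-!
# M3: non-emptiness of the spectrum (Berkovich, Theorem 1.2.1)
-/

open scoped ContDiff Topology NNReal

namespace Pool.Agent.TD.BG.M3

variable {R : Type} [CommRing R]

/-- Power multiplicative ultrametric seminorms bounded by `N`. -/
structure Pm (N f : R → ℝ) : Prop where
  nonneg : ∀ a, 0 ≤ f a
  zero : f 0 = 0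
  one : f 1 = 1
  neg : ∀ a, f (-a) = f a
  add : ∀ a b, f (a + b) ≤ max (f a) (f b)
  mul : ∀ a b, f (a * b) ≤ f a * f b
  pow : ∀ a (n : ℕ), 1 ≤ n → f (a ^ n) = f a ^ n
  le : ∀ a, f a ≤ N a

/-- The associated ring seminorm. -/
def mk (f : R → ℝ) (nonneg : ∀ a, 0 ≤ f a) (zero : f 0 = 0) (neg : ∀ a, f (-a) = f a)
    (add : ∀ a b, f (a + b) ≤ max (f a) (f b)) (mul : ∀ a b, f (a * b) ≤ f a * f b) :
    RingSeminorm R where
  toFun := f
  map_zero' := zero
  add_le' a b := (add a b).trans (max_le (le_add_of_nonneg_right (nonneg b))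
    (le_add_of_nonneg_left (nonneg a)))
  neg' := neg
  mul_le' := mul

/-- The infimum of a chain. -/
theorem chain_inf {N : R → ℝ} (c : Set {f : R → ℝ // Pm N f})
    (hc : IsChain (fun f g : {f : R → ℝ // Pm N f} => ∀ a, g.1 a ≤ f.1 a) c)
    (hne : c.Nonempty) : ∃ ub : {f : R → ℝ // Pm N f}, ∀ f ∈ c, ∀ a, ub.1 a ≤ f.1 a := by
  have : Nonempty c := hne.to_subtype
  have hbd : ∀ a, BddBelow (Set.range fun f : c => f.1.1 a) := by
    intro a
    refine ⟨0, ?_⟩
    rintro _ ⟨f, rfl⟩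
    exact f.1.2.nonneg a
  have hinf : ∀ (f : c) a, (⨅ f : c, f.1.1 a) ≤ f.1.1 a := fun f a => ciInf_le (hbd a) f
  have hmin : ∀ f g : c, ∃ h : c, (∀ a, h.1.1 a ≤ f.1.1 a) ∧ ∀ a, h.1.1 a ≤ g.1.1 a := by
    intro f g
    by_cases hfg : f.1 = g.1
    · exact ⟨f, fun a => le_rfl, fun a => by rw [hfg]⟩
    · rcases hc f.2 g.2 hfg with h | h
      · exact ⟨g, h, fun a => le_rfl⟩
      · exact ⟨f, fun a => le_rfl, h⟩
  have hnn : ∀ a, 0 ≤ ⨅ f : c, f.1.1 a := fun a => le_ciInf fun f => f.1.2.nonneg a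
  have hmul : ∀ a b, (⨅ f : c, f.1.1 (a * b)) ≤ (⨅ f : c, f.1.1 a) * ⨅ f : c, f.1.1 b := by
    intro a b
    have h1 : ∀ f g : c, (⨅ f : c, f.1.1 (a * b)) ≤ f.1.1 a * g.1.1 b := by
      intro f g
      obtain ⟨h, hf, hg⟩ := hmin f g
      exact ((hinf h _).trans (h.1.2.mul a b)).trans
        (mul_le_mul (hf a) (hg b) (h.1.2.nonneg b) (f.1.2.nonneg a))
    rw [Real.iInf_mul_of_nonneg (hnn b)]
    refine le_ciInf fun f => ?_
    rw [Real.mul_iInf_of_nonneg (f.1.2.nonneg a)]
    exact le_ciInf fun g => h1 f g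
  refine ⟨⟨fun a => ⨅ f : c, f.1.1 a, ?_⟩, fun f hf a => hinf ⟨f, hf⟩ a⟩
  refine ⟨hnn, ?_, ?_, ?_, ?_, hmul, ?_, ?_⟩
  · have h : ∀ f : c, f.1.1 0 = 0 := fun f => f.1.2.zero
    simp only [h, ciInf_const]
  · have h : ∀ f : c, f.1.1 1 = 1 := fun f => f.1.2.one
    simp only [h, ciInf_const]
  · intro a
    have h : ∀ f : c, f.1.1 (-a) = f.1.1 a := fun f => f.1.2.neg a
    simp only [h]
  · intro a b
    by_contra hcon
    push Not at hcon
    obtain ⟨h1, h2⟩ := max_lt_iff.1 hcon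
    obtain ⟨f, hf⟩ := exists_lt_of_ciInf_lt h1
    obtain ⟨g, hg⟩ := exists_lt_of_ciInf_lt h2
    obtain ⟨h, hhf, hhg⟩ := hmin f g
    have h3 := (hinf h (a + b)).trans (h.1.2.add a b)
    exact absurd h3 (not_le.2 (max_lt ((hhf a).trans_lt hf) ((hhg b).trans_lt hg)))
  · intro a n hn
    apply le_antisymm
    · have key : ∀ m : ℕ, (⨅ f : c, f.1.1 (a ^ (m + 1))) ≤ (⨅ f : c, f.1.1 a) ^ (m + 1) := by
        intro m
        induction m with
        | zero => simp
        | succ m ih =>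
          rw [pow_succ a (m + 1), pow_succ _ (m + 1)]
          exact (hmul _ _).trans (mul_le_mul_of_nonneg_right ih (hnn a))
      obtain ⟨m, rfl⟩ : ∃ m, n = m + 1 := ⟨n - 1, by omega⟩
      exact key m
    · refine le_ciInf fun f => ?_
      rw [f.1.2.pow a n hn]
      exact pow_le_pow_left₀ (hnn a) (hinf f a) n
  · intro a
    obtain ⟨f, hf⟩ := hne
    exact (hinf ⟨f, hf⟩ a).trans (f.2.le a)

/-- The smoothing. -/
theorem exists_pm {N : R → ℝ} (h0 : ∀ a, 0 ≤ N a) (hz : N 0 = 0) (h1 : N 1 = 1)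
    (hneg : ∀ a, N (-a) = N a) (hadd : ∀ a b, N (a + b) ≤ max (N a) (N b))
    (hmul : ∀ a b, N (a * b) ≤ N a * N b) : ∃ f, Pm N f := by
  set μ : RingSeminorm R := mk N h0 hz hneg hadd hmul with hμ
  have hμN : ∀ a, μ a = N a := fun a => rfl
  have hμ1 : μ 1 ≤ 1 := by rw [hμN, h1]
  have hna : IsNonarchimedean μ := fun a b => by
    rw [hμN, hμN, hμN]; exact hadd a b
  let σ := smoothingSeminorm μ hμ1 hna
  have hσ : ∀ a, σ a = smoothingFun μ a := fun a => rfl
  refine ⟨fun a => σ a, fun a => apply_nonneg σ a, map_zero σ, ?_, fun a => map_neg_eq_map σ a,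
    ?_, fun a b => map_mul_le_mul σ a b, ?_, ?_⟩
  · show σ 1 = 1
    rw [hσ]
    have h2 : smoothingFun μ 1 = μ 1 := by
      apply smoothingFun_of_powMul μ hμ1
      intro n hn
      rw [one_pow, hμN, h1, one_pow]
    rw [h2, hμN, h1]
  · intro a b
    exact isNonarchimedean_smoothingFun μ hμ1 hna a b
  · intro a n hn
    exact isPowMul_smoothingFun μ hμ1 a hn
  · intro a
    exact smoothingFun_le_self μ a

theorem minimal_mul {N f : R → ℝ} (hf : Pm N f)
    (hmin : ∀ g, Pm N g → (∀ a, g a ≤ f a) → ∀ a, f a ≤ g a) (c x : R) :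
    f (c * x) = f c * f x := by
  by_cases hc0 : f c = 0
  · apply le_antisymm (hf.mul c x)
    rw [hc0, zero_mul]
    exact hf.nonneg _
  set μ : RingSeminorm R := mk f hf.nonneg hf.zero hf.neg hf.add hf.mul with hμ
  have hμf : ∀ a, μ a = f a := fun a => rfl
  have hμ1 : μ 1 ≤ 1 := by rw [hμf, hf.one]
  have hc : μ c ≠ 0 := by rw [hμf]; exact hc0
  have hpm : IsPowMul μ := fun a n hn => hf.pow a n hn
  have hna : IsNonarchimedean μ := fun a b => by
    rw [hμf, hμf, hμf]; exact hf.add a b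
  let g := seminormFromConst hμ1 hc hpm
  have hg : ∀ a, g a = seminormFromConst' c μ a := fun a => rfl
  have hgf : ∀ a, g a ≤ f a := fun a => seminormFromConst_le_seminorm hμ1 hc hpm a
  have hgP : Pm N (fun a => g a) := by
    refine ⟨fun a => apply_nonneg g a, map_zero g, ?_, fun a => map_neg_eq_map g a,
      ?_, fun a b => map_mul_le_mul g a b, ?_, ?_⟩
    · exact seminormFromConst_one hμ1 hc hpm
    · intro a b
      exact seminormFromConst_isNonarchimedean hμ1 hc hpm hna a b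
    · intro a n hn
      exact seminormFromConst_isPowMul hμ1 hc hpm a hn
    · intro a
      exact (hgf a).trans (hf.le a)
  have heq : ∀ a, g a = f a := fun a => le_antisymm (hgf a) (hmin _ hgP hgf a)
  rw [← heq (c * x), ← heq c, ← heq x]
  exact seminormFromConst_const_mul hμ1 hc hpm x

end Pool.Agent.TD.BG.M3

namespace Pool.Agent.TD.BG

theorem M3_thm : M3_Stmt := by
  intro R _ N h0 hz h1 hneg hadd hmul
  obtain ⟨f0, hf0⟩ := M3.exists_pm h0 hz h1 hneg hadd hmul
  have : Nonempty {f : R → ℝ // M3.Pm N f} := ⟨⟨f0, hf0⟩⟩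
  obtain ⟨m, hm⟩ := exists_maximal_of_nonempty_chains_bounded
    (r := fun f g : {f : R → ℝ // M3.Pm N f} => ∀ a, g.1 a ≤ f.1 a)
    (fun c hc hne => M3.chain_inf c hc hne) (fun h1 h2 a => (h2 a).trans (h1 a))
  refine ⟨m.1, m.2.nonneg, m.2.one, fun a b => ?_, m.2.add, m.2.le⟩
  exact M3.minimal_mul m.2 (fun g hg hgm a => hm ⟨g, hg⟩ hgm a) a b

end Pool.Agent.TD.BG


end

section

/-!
# INT: the map of Berkovich spectra of an injective integral homomorphism
-/

open scoped ContDiff Topology NNReal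

namespace Pool.Agent.TD.BG

namespace INT

/-! ### Elementary facts on points -/

section Basic

variable {K A : Type} [NormedField K] [CommRing A] [Algebra K A]

theorem v_zero (z : Ber K A) : z.v 0 = 0 := by
  have h := z.ext 0
  simpa using h

theorem v_neg (z : Ber K A) (a : A) : z.v (-a) = z.v a := by
  have h1 : z.v (-1 : A) = 1 := by
    have h := z.ext (-1)
    simpa using h
  rw [← neg_one_mul, z.mul, h1, one_mul]

theorem v_pow (z : Ber K A) (a : A) (n : ℕ) : z.v (a ^ n) = z.v a ^ n := by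
  induction n with
  | zero => simp [z.one]
  | succ n ih => rw [pow_succ, z.mul, ih, pow_succ]

theorem v_sum_le {ι : Type} (z : Ber K A) (s : Finset ι) (f : ι → A) {M : ℝ} (hM : 0 ≤ M)
    (h : ∀ i ∈ s, z.v (f i) ≤ M) : z.v (∑ i ∈ s, f i) ≤ M := by
  classical
  induction s using Finset.induction_on with
  | empty => simpa [v_zero z] using hM
  | insert i s hi ih =>
    rw [Finset.sum_insert hi]
    refine (z.add _ _).trans (max_le (h i (Finset.mem_insert_self i s)) (ih fun j hj => ?_))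
    exact h j (Finset.mem_insert_of_mem hj)

/-- The valuation of `A` given by a point. -/
noncomputable def val (y : Ber K A) : Valuation A ℝ≥0 where
  toFun a := ⟨y.v a, y.nonneg a⟩
  map_zero' := Subtype.ext (v_zero y)
  map_one' := Subtype.ext y.one
  map_mul' a b := Subtype.ext (y.mul a b)
  map_add_le_max' a b := by
    rw [← NNReal.coe_le_coe, NNReal.coe_max]
    exact y.add a b

/-- A valuation of a field with values in `ℝ≥0` as an absolute value. -/
noncomputable def absOf {L : Type} [Field L] (v : Valuation L ℝ≥0) : AbsoluteValue L ℝ where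
  toFun x := (v x : ℝ)
  map_mul' x y := by rw [map_mul, NNReal.coe_mul]
  nonneg' x := NNReal.coe_nonneg _
  eq_zero' x := by rw [NNReal.coe_eq_zero, Valuation.zero_iff]
  add_le' x y := by
    have h1 : (v (x + y) : ℝ) ≤ max (v x : ℝ) (v y : ℝ) := by
      have h := v.map_add x y
      rw [← NNReal.coe_le_coe, NNReal.coe_max] at h
      exact h
    exact h1.trans (max_le_add_of_nonneg (NNReal.coe_nonneg _) (NNReal.coe_nonneg _))

theorem absOf_add {L : Type} [Field L] (v : Valuation L ℝ≥0) (x y : L) :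
    absOf v (x + y) ≤ max (absOf v x) (absOf v y) := by
  have h := v.map_add x y
  rw [← NNReal.coe_le_coe, NNReal.coe_max] at h
  exact h

/-- The residue field of a point, as a normed field. -/
theorem exists_res (y : Ber K A) : ∃ (k : Type) (_ : NormedField k) (_ : IsUltrametricDist k)
    (ι : A →+* k), ∀ a, ‖ι a‖ = y.v a := by
  let p : Ideal A := (val y).supp
  have hp : p.IsPrime := inferInstance
  let vR : Valuation (A ⧸ p) ℝ≥0 := (val y).onQuot le_rfl
  have hvR : ∀ a : A, (vR (Ideal.Quotient.mk p a) : ℝ) = y.v a := fun a => rfl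
  have hsupp : vR.supp = ⊥ := (val y).supp_quot_supp
  have hS : nonZeroDivisors (A ⧸ p) ≤ vR.supp.primeCompl := by
    intro s hs
    rw [Ideal.mem_primeCompl_iff, hsupp, Ideal.mem_bot]
    exact nonZeroDivisors.ne_zero hs
  let L : Type := FractionRing (A ⧸ p)
  let vL : Valuation L ℝ≥0 := vR.extendToLocalization hS L
  have hvL : ∀ x : A ⧸ p, vL (algebraMap (A ⧸ p) L x) = vR x := fun x =>
    vR.extendToLocalization_apply_map_apply hS L x
  let w : AbsoluteValue L ℝ := absOf vL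
  let ι : A →+* WithAbs w := (WithAbs.equiv w).symm.toRingHom.comp
    ((algebraMap (A ⧸ p) L).comp (Ideal.Quotient.mk p))
  refine ⟨WithAbs w, inferInstance, ?_, ι, ?_⟩
  · apply IsUltrametricDist.isUltrametricDist_of_forall_norm_add_le_max_norm
    intro x y
    exact absOf_add vL x.ofAbs y.ofAbs
  · intro a
    have hι : ι a = WithAbs.toAbs w (algebraMap (A ⧸ p) L (Ideal.Quotient.mk p a)) := rfl
    rw [hι, WithAbs.norm_toAbs_eq]
    show ((vL (algebraMap (A ⧸ p) L (Ideal.Quotient.mk p a)) : ℝ≥0) : ℝ) = y.v a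
    rw [hvL]
    exact hvR a

end Basic

/-- Homomorphisms to algebraically closed fields extend along injective integral
homomorphisms. -/
theorem exists_ext {A B Ω : Type} [CommRing A] [CommRing B] [Field Ω] [IsAlgClosed Ω]
    (f : A →+* B) (hf : Function.Injective f) (hi : f.IsIntegral) (j : A →+* Ω) :
    ∃ τ : B →+* Ω, ∀ a, τ (f a) = j a := by
  obtain ⟨q, hqp, hq⟩ : ∃ q : Ideal B, q.IsPrime ∧ q.comap f = RingHom.ker j := by
    let : Algebra A B := f.toAlgebra
    have : Algebra.IsIntegral A B := ⟨hi⟩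
    have : (RingHom.ker j).IsPrime := RingHom.ker_isPrime j
    obtain ⟨q, -, hq1, hq2⟩ := Ideal.exists_ideal_over_prime_of_isIntegral (S := B)
      (RingHom.ker j) (⊥ : Ideal B) (by
        intro a ha
        have h1 : f a = 0 := ha
        have h2 : a = 0 := hf (by rw [h1, map_zero])
        rw [h2]
        exact Ideal.zero_mem _)
    exact ⟨q, hq1, hq2⟩
  have hpp : (q.comap f).IsPrime := Ideal.comap_isPrime f q
  let g : A ⧸ q.comap f →+* B ⧸ q := Ideal.quotientMap q f le_rfl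
  have hg : Function.Injective g := Ideal.quotientMap_injective
  have hgi : g.IsIntegral := hi.quotient
  let h : A ⧸ q.comap f →+* Ω := Ideal.Quotient.lift _ j (fun a ha => by
    rw [hq] at ha
    exact ha)
  have hh : ∀ a, h (Ideal.Quotient.mk _ a) = j a := fun a => rfl
  have hhi : Function.Injective h := by
    rw [injective_iff_map_eq_zero]
    intro x hx
    obtain ⟨a, rfl⟩ := Ideal.Quotient.mk_surjective x
    rw [hh] at hx
    rw [Ideal.Quotient.eq_zero_iff_mem, hq]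
    exact hx
  let a1 : Algebra (A ⧸ q.comap f) (B ⧸ q) := g.toAlgebra
  let a2 : Algebra (A ⧸ q.comap f) Ω := h.toAlgebra
  have : Algebra.IsIntegral (A ⧸ q.comap f) (B ⧸ q) := ⟨hgi⟩
  have : FaithfulSMul (A ⧸ q.comap f) (B ⧸ q) :=
    (faithfulSMul_iff_algebraMap_injective _ _).2 hg
  have : FaithfulSMul (A ⧸ q.comap f) Ω := (faithfulSMul_iff_algebraMap_injective _ _).2 hhi
  let τ : B ⧸ q →ₐ[A ⧸ q.comap f] Ω := IsAlgClosed.lift
  refine ⟨τ.toRingHom.comp (Ideal.Quotient.mk q), fun a => ?_⟩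
  have h1 : τ (algebraMap (A ⧸ q.comap f) (B ⧸ q) (Ideal.Quotient.mk _ a))
      = algebraMap (A ⧸ q.comap f) Ω (Ideal.Quotient.mk _ a) := τ.commutes _
  exact h1

/-- Norms of fields extend to algebraic closures. -/
theorem exists_norm (h1 : M3_Stmt) (k : Type) [NormedField k] [IsUltrametricDist k] :
    ∃ v : AlgebraicClosure k → ℝ, (∀ a, 0 ≤ v a) ∧ v 1 = 1 ∧ (∀ a b, v (a * b) = v a * v b) ∧
      (∀ a b, v (a + b) ≤ max (v a) (v b)) ∧ ∀ c : k, v (algebraMap k _ c) = ‖c‖ := by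
  obtain ⟨v, v0, v1, vm, va, vN⟩ := h1 (AlgebraicClosure k) (spectralNorm k (AlgebraicClosure k))
    spectralNorm_nonneg spectralNorm_zero spectralNorm_one
    (fun a => spectralNorm_neg (Algebra.IsAlgebraic.isAlgebraic a))
    (fun a b => isNonarchimedean_spectralNorm a b)
    (fun a b => spectralNorm_mul (Algebra.IsAlgebraic.isAlgebraic a)
      (Algebra.IsAlgebraic.isAlgebraic b))
  refine ⟨v, v0, v1, vm, va, fun c => ?_⟩
  have hle : ∀ c : k, v (algebraMap k _ c) ≤ ‖c‖ := by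
    intro c
    have h := vN (algebraMap k _ c)
    rwa [spectralNorm_extends] at h
  apply le_antisymm (hle c)
  by_cases hc : c = 0
  · rw [hc, norm_zero]
    exact v0 _
  · have h2 : v (algebraMap k _ c) * v (algebraMap k _ c⁻¹) = 1 := by
      rw [← vm, ← map_mul, mul_inv_cancel₀ hc, map_one, v1]
    have h3 := hle c⁻¹
    rw [norm_inv] at h3
    have h4 : 0 < ‖c‖ := norm_pos_iff.2 hc
    have h5 : 1 ≤ v (algebraMap k _ c) * ‖c‖⁻¹ := by
      rw [← h2]
      exact mul_le_mul_of_nonneg_left h3 (v0 _)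
    rw [← div_eq_mul_inv, le_div_iff₀ h4, one_mul] at h5
    exact h5

section Main

variable {K A B : Type} [NormedField K] [CommRing A] [CommRing B] [Algebra K A] [Algebra K B]

theorem surj (h1 : M3_Stmt) (f : A →ₐ[K] B) (hf : Function.Injective f)
    (hi : f.toRingHom.IsIntegral) : Function.Surjective (comap f : Ber K B → Ber K A) := by
  intro z
  obtain ⟨k, _, _, ι, hι⟩ := exists_res z
  obtain ⟨v, v0, v1, vm, va, vc⟩ := exists_norm h1 k
  obtain ⟨τ, hτ⟩ := exists_ext f.toRingHom hf hi ((algebraMap k (AlgebraicClosure k)).comp ι)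
  have hfa : ∀ a, v (τ (f a)) = z.v a := by
    intro a
    have h2 : τ (f a) = algebraMap k (AlgebraicClosure k) (ι a) := hτ a
    rw [h2, vc, hι]
  refine ⟨
    { v := fun b => v (τ b)
      nonneg := fun b => v0 _
      one := by rw [map_one, v1]
      mul := fun a b => by rw [map_mul, vm]
      add := fun a b => by rw [map_add]; exact va _ _
      ext := fun c => by
        rw [← f.commutes c, hfa, z.ext] }, ?_⟩
  have hext : ∀ {x y : Ber K A}, (∀ a, x.v a = y.v a) → x = y := by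
    intro x y h
    cases x; cases y
    simp only [Ber.mk.injEq]
    exact funext h
  exact hext hfa

/-- The bound of an integral element. -/
theorem bound (f : A →ₐ[K] B) (hi : f.toRingHom.IsIntegral) (b : B) :
    ∃ P : Polynomial A, ∀ (x : Ber K B) (C : ℝ), 1 ≤ C →
      (∀ i < P.natDegree, x.v (f (P.coeff i)) ≤ C) → x.v b ≤ C := by
  obtain ⟨P, hP, hPb⟩ := hi b
  refine ⟨P, fun x C hC hx => ?_⟩
  by_contra hlt
  push Not at hlt
  have hC0 : 0 < C := lt_of_lt_of_le one_pos hC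
  have hb0 : 0 < x.v b := hC0.trans hlt
  rw [Polynomial.eval₂_eq_sum_range, Finset.sum_range_succ, hP.coeff_natDegree] at hPb
  have h1 : b ^ P.natDegree = -∑ i ∈ Finset.range P.natDegree, f (P.coeff i) * b ^ i := by
    have h2 : (∑ i ∈ Finset.range P.natDegree, f (P.coeff i) * b ^ i) + b ^ P.natDegree = 0 := by
      have h3 : f.toRingHom 1 = 1 := map_one _
      rw [h3, one_mul] at hPb
      exact hPb
    exact eq_neg_of_add_eq_zero_right h2
  rcases Nat.eq_zero_or_pos P.natDegree with h0 | h0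
  · rw [h0] at h1
    simp only [pow_zero, Finset.range_zero, Finset.sum_empty, neg_zero] at h1
    have h2 := x.one
    rw [h1, v_zero x] at h2
    exact zero_ne_one h2
  · have h2 : x.v (b ^ P.natDegree) ≤ C * x.v b ^ (P.natDegree - 1) := by
      rw [h1, v_neg]
      refine v_sum_le x _ _ (by positivity) fun i hi => ?_
      have hi' := Finset.mem_range.1 hi
      rw [x.mul, v_pow]
      have h3 : x.v b ^ i ≤ x.v b ^ (P.natDegree - 1) :=
        pow_le_pow_right₀ (hC.trans hlt.le) (by omega)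
      exact mul_le_mul (hx i hi') h3 (by positivity) hC0.le
    rw [v_pow] at h2
    have h4 : x.v b ^ P.natDegree = x.v b * x.v b ^ (P.natDegree - 1) := by
      rw [← pow_succ']
      congr 1
      omega
    rw [h4] at h2
    have h5 : 0 < x.v b ^ (P.natDegree - 1) := by positivity
    exact absurd (le_of_mul_le_mul_right h2 h5) (not_le.2 hlt)

theorem cont (h2 : TOP_Stmt) (f : A →ₐ[K] B) : Continuous (comap f : Ber K B → Ber K A) := by
  obtain ⟨-, -, -, h3⟩ := h2 K A
  obtain ⟨-, h4, -, -⟩ := h2 K B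
  exact h3 _ _ fun a => h4 (f a)

theorem proper (h2 : TOP_Stmt) (f : A →ₐ[K] B) (hi : f.toRingHom.IsIntegral) :
    IsProperMap (comap f : Ber K B → Ber K A) := by
  rw [isProperMap_iff_ultrafilter]
  refine ⟨cont h2 f, fun U y hU => ?_⟩
  obtain ⟨-, hcA, -, -⟩ := h2 K A
  -- the limits of the values on `A`
  have hA : ∀ a : A, Filter.Tendsto (fun x : Ber K B => x.v (f a)) U (𝓝 (y.v a)) := fun a =>
    ((hcA a).tendsto y).comp hU
  -- all values are eventually bounded
  have hB : ∀ b : B, ∃ l : ℝ, Filter.Tendsto (fun x : Ber K B => x.v b) U (𝓝 l) := by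
    intro b
    obtain ⟨P, hP⟩ := bound f hi b
    obtain ⟨C, hC1, hC⟩ : ∃ C : ℝ, 1 ≤ C ∧ ∀ i ∈ Finset.range P.natDegree,
        y.v (P.coeff i) < C := by
      refine ⟨1 + ∑ i ∈ Finset.range P.natDegree, y.v (P.coeff i), ?_, fun i hi => ?_⟩
      · have : 0 ≤ ∑ i ∈ Finset.range P.natDegree, y.v (P.coeff i) :=
          Finset.sum_nonneg fun i _ => y.nonneg _
        linarith
      · have := Finset.single_le_sum (f := fun i => y.v (P.coeff i)) (fun i _ => y.nonneg _) hi
        linarith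
    have h3 : ∀ᶠ x in (U : Filter (Ber K B)), ∀ i ∈ Finset.range P.natDegree,
        x.v (f (P.coeff i)) ≤ C := by
      rw [Filter.eventually_all_finset]
      intro i hi
      exact ((hA (P.coeff i)).eventually (gt_mem_nhds (hC i hi))).mono fun x hx => hx.le
    have h4 : ∀ᶠ x in (U : Filter (Ber K B)), x.v b ∈ Set.Icc (0 : ℝ) C :=
      h3.mono fun x hx => ⟨x.nonneg b, hP x C hC1 fun i hi => hx i (Finset.mem_range.2 hi)⟩
    have h5 : Set.Icc (0 : ℝ) C ∈ (U.map (fun x : Ber K B => x.v b) : Filter ℝ) := h4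
    obtain ⟨l, -, hl⟩ := (isCompact_Icc : IsCompact (Set.Icc (0 : ℝ) C)).ultrafilter_le_nhds
      (U.map (fun x : Ber K B => x.v b)) (Filter.le_principal_iff.2 h5)
    exact ⟨l, hl⟩
  choose l hl using hB
  have hconst : ∀ (b : B) (c : ℝ), (∀ x : Ber K B, x.v b = c) → l b = c := by
    intro b c h
    have h3 : Filter.Tendsto (fun x : Ber K B => x.v b) U (𝓝 c) := by
      have e : (fun x : Ber K B => x.v b) = fun _ => c := funext h
      rw [e]
      exact tendsto_const_nhds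
    exact tendsto_nhds_unique (hl b) h3
  let w : Ber K B :=
    { v := l
      nonneg := fun b => ge_of_tendsto' (hl b) fun x => x.nonneg b
      one := hconst 1 1 fun x => x.one
      mul := fun a b => by
        have h3 := (hl a).mul (hl b)
        have e : (fun x : Ber K B => x.v a * x.v b) = fun x => x.v (a * b) :=
          funext fun x => (x.mul a b).symm
        rw [e] at h3
        exact tendsto_nhds_unique (hl (a * b)) h3
      add := fun a b => le_of_tendsto_of_tendsto' (hl (a + b)) ((hl a).max (hl b))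
        fun x => x.add a b
      ext := fun c => hconst _ _ fun x => x.ext c }
  refine ⟨w, ?_, ?_⟩
  · have hext : ∀ {x y : Ber K A}, (∀ a, x.v a = y.v a) → x = y := by
      intro x y h
      cases x; cases y
      simp only [Ber.mk.injEq]
      exact funext h
    exact hext fun a => tendsto_nhds_unique (hl (f a)) (hA a)
  · rw [nhds_induced]
    rw [← Filter.tendsto_iff_comap]
    rw [tendsto_pi_nhds]
    exact hl

end Main

end INT

theorem INT_thm (h1 : M3_Stmt) (h2 : TOP_Stmt) : INT_Stmt := by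
  intro K A B _ _ _ _ _ _ f hf hi
  have hp := INT.proper h2 f hi
  exact ⟨hp.continuous, INT.surj h1 f hf hi, hp.isClosedMap, fun Z hZ => hp.isCompact_preimage hZ⟩

end Pool.Agent.TD.BG


end
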