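import Mathlib
import Pool.Agent.DolbM.C02
import Pool.Agent.TD.S.Forms
import Pool.Agent.TD.Y.Coh

/-! Parts: TD.H.Defs, TD.H.H1, TD.H.H2, TD.H.H3, TD.H.H4, TD.H.Push, TD.BG.CUT, TD.S.Bridge, TD.BG.CNT, TD.BG.UNI, TD.BG.B1 -/

section

/-! Block H: complexes with supports (global sections of complexes of soft sheaves), abstractly. -/

open scoped Topology

namespace Pool.Agent.TD

/-- A complex `G 0 → G 1 → ...` of abelian groups whose elements have closed supports in `B`, with
gluing along compact sets (softness). -/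
structure SCx (B : Type) [TopologicalSpace B] where
  G : ℕ → Type
  [ab : ∀ q, AddCommGroup (G q)]
  d : ∀ q, G q →+ G (q + 1)
  dd : ∀ q (c : G q), d (q + 1) (d q c) = 0
  supp : ∀ {q}, G q → Set B
  closed : ∀ {q} (c : G q), IsClosed (supp c)
  supp_zero : ∀ q, supp (0 : G q) = ∅
  supp_add : ∀ {q} (c c' : G q), supp (c + c') ⊆ supp c ∪ supp c'
  supp_neg : ∀ {q} (c : G q), supp (-c) = supp c
  supp_d : ∀ {q} (c : G q), supp (d q c) ⊆ supp c
  glue : ∀ {q} (Z1 Z2 : Set B), IsCompact Z1 → IsCompact Z2 → ∀ c1 c2 : G q,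
    Disjoint (supp (c1 - c2)) (Z1 ∩ Z2) →
      ∃ c : G q, Disjoint (supp (c - c1)) Z1 ∧ Disjoint (supp (c - c2)) Z2

attribute [instance] SCx.ab

namespace SCx

variable {B : Type} [TopologicalSpace B] (C : SCx B)

/-- `c` is a boundary near `Z` (in degree `0`: `c = 0` near `Z`). -/
def Bd (Z : Set B) : (q : ℕ) → C.G q → Prop
  | 0, c => Disjoint (C.supp c) Z
  | q + 1, c => ∃ e : C.G q, Disjoint (C.supp (c - C.d q e)) Z

/-- `c` is closed near `Z`. -/
def Cl (Z : Set B) (q : ℕ) (c : C.G q) : Prop := Disjoint (C.supp (C.d q c)) Z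

/-- `c` is a boundary (in degree `0`: `c = 0`). -/
def BdG : (q : ℕ) → C.G q → Prop
  | 0, c => c = 0
  | q + 1, c => ∃ e : C.G q, c = C.d q e

/-- `c` is a boundary of an element with compact support. -/
def BdC : (q : ℕ) → C.G q → Prop
  | 0, c => c = 0
  | q + 1, c => ∃ e : C.G q, IsCompact (C.supp e) ∧ c = C.d q e

/-- Exactness near `Z`. -/
def ExNear (Z : Set B) : Prop := ∀ q (c : C.G q), C.Cl Z q c → C.Bd Z q c

/-- Sections can be glued along an exhaustion, and an element is determined by its germs. -/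
structure Complete : Prop where
  inf : ∀ (K : CompactExhaustion B) (q : ℕ) (c : ℕ → C.G q),
    (∀ n, Disjoint (C.supp (c (n + 1) - c n)) (K n)) →
      ∃ c' : C.G q, ∀ n, Disjoint (C.supp (c' - c n)) (K n)
  sep : ∀ q (c : C.G q), C.supp c = ∅ → c = 0

end SCx

/-- A morphism of complexes with supports. -/
structure SHom {B : Type} [TopologicalSpace B] (C D : SCx B) where
  f : ∀ q, C.G q →+ D.G q
  comm : ∀ q c, f (q + 1) (C.d q c) = D.d q (f q c)
  supp : ∀ q (c : C.G q), D.supp (f q c) ⊆ C.supp c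

namespace SHom

variable {B : Type} [TopologicalSpace B] {C D : SCx B} (φ : SHom C D)

/-- `φ` is a quasi-isomorphism near `Z`. -/
def QIso (Z : Set B) : Prop :=
  (∀ q (c : C.G q), C.Cl Z q c → D.Bd Z q (φ.f q c) → C.Bd Z q c) ∧
  (∀ q (e : D.G q), D.Cl Z q e → ∃ c : C.G q, C.Cl Z q c ∧ D.Bd Z q (e - φ.f q c))

/-- `φ` is a quasi-isomorphism on global sections. -/
def QIsoG : Prop :=
  (∀ q (c : C.G q), C.d q c = 0 → D.BdG q (φ.f q c) → C.BdG q c) ∧
  (∀ q (e : D.G q), D.d q e = 0 → ∃ c : C.G q, C.d q c = 0 ∧ D.BdG q (e - φ.f q c))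

/-- `φ` is a quasi-isomorphism on global sections with compact supports. -/
def QIsoC : Prop :=
  (∀ q (c : C.G q), IsCompact (C.supp c) → C.d q c = 0 → D.BdC q (φ.f q c) → C.BdC q c) ∧
  (∀ q (e : D.G q), IsCompact (D.supp e) → D.d q e = 0 →
    ∃ c : C.G q, IsCompact (C.supp c) ∧ C.d q c = 0 ∧ D.BdC q (e - φ.f q c))

end SHom

end Pool.Agent.TD


end

section

/-! Block H1: exactness at points implies exactness near compact sets. -/

open scoped Topology

namespace Pool.Agent.TD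

namespace SCx

variable {B : Type} [TopologicalSpace B] (C : SCx B)

theorem supp_sub' {q : ℕ} (c c' : C.G q) : C.supp (c - c') ⊆ C.supp c ∪ C.supp c' := by
  rw [sub_eq_add_neg]
  refine (C.supp_add c (-c')).trans ?_
  rw [C.supp_neg]

/-- If `c - d e` vanishes near `K` and `e' - (e + x)` vanishes near `K`, `d x = 0`, then
`c - d e'` vanishes near `K`. -/
theorem disj_step {q : ℕ} {K : Set B} {c : C.G (q + 1)} {e e' x : C.G q}
    (h1 : Disjoint (C.supp (c - C.d q e)) K) (h2 : Disjoint (C.supp (e' - (e + x))) K)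
    (hx : C.d q x = 0) : Disjoint (C.supp (c - C.d q e')) K := by
  have e1 : c - C.d q e' = (c - C.d q e) - C.d q (e' - (e + x)) := by
    rw [map_sub, map_add, hx]
    abel
  rw [e1]
  refine Set.disjoint_of_subset_left (C.supp_sub' _ _) ?_
  rw [Set.disjoint_union_left]
  exact ⟨h1, Set.disjoint_of_subset_left (C.supp_d _) h2⟩

/-- Gluing two primitives. -/
theorem glue_prim {Z : Set B} {q : ℕ}
    (IH : ∀ Z' : Set B, IsCompact Z' → Z' ⊆ Z → ∀ c : C.G q, C.Cl Z' q c → C.Bd Z' q c)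
    {K1 K2 : Set B} (hK1 : IsCompact K1) (hK2 : IsCompact K2) (hK : IsCompact (K1 ∩ K2))
    (h1 : K1 ⊆ Z) (c : C.G (q + 1))
    (e1 e2 : C.G q) (he1 : Disjoint (C.supp (c - C.d q e1)) K1)
    (he2 : Disjoint (C.supp (c - C.d q e2)) K2) :
    ∃ e : C.G q, Disjoint (C.supp (c - C.d q e)) (K1 ∪ K2) := by
  have hcl : C.Cl (K1 ∩ K2) q (e1 - e2) := by
    have e : C.d q (e1 - e2) = (c - C.d q e2) - (c - C.d q e1) := by
      rw [map_sub]; abel
    unfold Cl
    rw [e]
    refine Set.disjoint_of_subset_left (C.supp_sub' _ _) ?_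
    rw [Set.disjoint_union_left]
    exact ⟨Set.disjoint_of_subset_right Set.inter_subset_right he2,
      Set.disjoint_of_subset_right Set.inter_subset_left he1⟩
  have hbd := IH (K1 ∩ K2) hK (Set.inter_subset_left.trans h1) _ hcl
  have key : ∃ x : C.G q, C.d q x = 0 ∧ Disjoint (C.supp (e1 - (e2 + x))) (K1 ∩ K2) := by
    cases q with
    | zero =>
      refine ⟨0, map_zero _, ?_⟩
      rw [add_zero]
      exact hbd
    | succ q =>
      obtain ⟨g, hg⟩ := hbd
      refine ⟨C.d q g, C.dd q g, ?_⟩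
      rw [← sub_sub]
      exact hg
  obtain ⟨x, hx, hd⟩ := key
  obtain ⟨e, hea, heb⟩ := C.glue K1 K2 hK1 hK2 e1 (e2 + x) hd
  refine ⟨e, ?_⟩
  rw [Set.disjoint_union_right]
  constructor
  · refine C.disj_step he1 (x := 0) ?_ (map_zero _)
    rw [add_zero]
    exact hea
  · exact C.disj_step he2 heb hx

theorem exNear_of_points [T2Space B] {Z : Set B} (hZ : IsCompact Z)
    (h : ∀ b ∈ Z, C.ExNear {b}) : C.ExNear Z := by
  have main : ∀ q : ℕ, ∀ Z' : Set B, IsCompact Z' → Z' ⊆ Z → ∀ c : C.G q,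
      C.Cl Z' q c → C.Bd Z' q c := by
    intro q
    induction q with
    | zero =>
      intro Z' _ hsub c hc
      show Disjoint (C.supp c) Z'
      rw [Set.disjoint_right]
      intro b hb
      have h1 : C.Cl {b} 0 c := Set.disjoint_of_subset_right (Set.singleton_subset_iff.2 hb) hc
      have h2 : Disjoint (C.supp c) {b} := h b (hsub hb) 0 c h1
      exact Set.disjoint_singleton_right.1 h2
    | succ q IH =>
      intro Z' hZ' hsub c hc
      have hp : ∃ (e : C.G q) (K : Set B), IsCompact K ∧ K ⊆ Z' ∧ Z' ⊆ K ∧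
          Disjoint (C.supp (c - C.d q e)) K := by
        refine hZ'.induction_on (p := fun s => ∃ (e : C.G q) (K : Set B), IsCompact K ∧ K ⊆ Z' ∧
          s ⊆ K ∧ Disjoint (C.supp (c - C.d q e)) K) ?_ ?_ ?_ ?_
        · exact ⟨0, ∅, isCompact_empty, Set.empty_subset _, le_refl _,
            Set.disjoint_empty _⟩
        · rintro s t hst ⟨e, K, h1, h2, h3, h4⟩
          exact ⟨e, K, h1, h2, hst.trans h3, h4⟩
        · rintro s t ⟨e1, K1, a1, a2, a3, a4⟩ ⟨e2, K2, b1, b2, b3, b4⟩
          obtain ⟨e, he⟩ := C.glue_prim IH a1 b1 (a1.inter b1) (a2.trans hsub) c e1 e2 a4 b4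
          exact ⟨e, K1 ∪ K2, a1.union b1, Set.union_subset a2 b2,
            Set.union_subset_union a3 b3, he⟩
        · intro b hb
          have h1 : C.Cl {b} (q + 1) c :=
            Set.disjoint_of_subset_right (Set.singleton_subset_iff.2 hb) hc
          obtain ⟨e, he⟩ := h b (hsub hb) (q + 1) c h1
          have hbF : b ∉ C.supp (c - C.d q e) := Set.disjoint_singleton_right.1 he
          have hF : IsCompact (C.supp (c - C.d q e) ∩ Z') := by
            rw [Set.inter_comm]
            exact hZ'.inter_right (C.closed _)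
          have hdis : Disjoint (C.supp (c - C.d q e) ∩ Z') {b} :=
            Set.disjoint_singleton_right.2 fun hh => hbF hh.1
          obtain ⟨U, V, hU, hV, hFU, hbV, hUV⟩ :=
            SeparatedNhds.of_isCompact_isCompact hF isCompact_singleton hdis
          refine ⟨V ∩ Z', Filter.inter_mem (mem_nhdsWithin_of_mem_nhds
            (hV.mem_nhds (hbV rfl))) self_mem_nhdsWithin, e, Z' \ U, hZ'.diff hU,
            Set.sdiff_subset, ?_, ?_⟩
          · rintro y ⟨hyV, hyZ⟩
            exact ⟨hyZ, fun hyU => Set.disjoint_left.1 hUV hyU hyV⟩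
          · rw [Set.disjoint_left]
            rintro y hy ⟨hyZ, hyU⟩
            exact hyU (hFU ⟨hy, hyZ⟩)
      obtain ⟨e, K, _, _, h3, h4⟩ := hp
      exact ⟨e, Set.disjoint_of_subset_right h3 h4⟩
  intro q c hc
  exact main q Z hZ le_rfl c hc

end SCx

end Pool.Agent.TD


end

section

/-! Block H2: exactness near compact sets implies global exactness, also with compact supports. -/

open scoped Topology

namespace Pool.Agent.TD

namespace SCx

variable {B : Type} [TopologicalSpace B] (C : SCx B)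

/-- `a = b` near `Z`. -/
def Nr (Z : Set B) {q : ℕ} (a b : C.G q) : Prop := Disjoint (C.supp (a - b)) Z

variable {C}

theorem Nr.refl (Z : Set B) {q : ℕ} (a : C.G q) : C.Nr Z a a := by
  unfold Nr
  rw [sub_self, C.supp_zero]
  exact Set.empty_disjoint Z

theorem Nr.symm {Z : Set B} {q : ℕ} {a b : C.G q} (h : C.Nr Z a b) : C.Nr Z b a := by
  unfold Nr at h ⊢
  rwa [← neg_sub, C.supp_neg]

theorem Nr.trans {Z : Set B} {q : ℕ} {a b c : C.G q} (h1 : C.Nr Z a b) (h2 : C.Nr Z b c) :
    C.Nr Z a c := by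
  unfold Nr at h1 h2 ⊢
  rw [← sub_add_sub_cancel a b c]
  exact Set.disjoint_of_subset_left (C.supp_add _ _) (Set.disjoint_union_left.2 ⟨h1, h2⟩)

theorem Nr.mono {Z Z' : Set B} {q : ℕ} {a b : C.G q} (h : C.Nr Z a b) (hZ : Z' ⊆ Z) :
    C.Nr Z' a b := Set.disjoint_of_subset_right hZ h

theorem Nr.d {Z : Set B} {q : ℕ} {a b : C.G q} (h : C.Nr Z a b) :
    C.Nr Z (C.d q a) (C.d q b) := by
  unfold Nr at h ⊢
  rw [← map_sub]
  exact Set.disjoint_of_subset_left (C.supp_d _) h

theorem Nr.cl {Z : Set B} {q : ℕ} {a b : C.G q} (h : C.Nr Z (C.d q a) (C.d q b)) :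
    C.Cl Z q (a - b) := by
  unfold Nr at h
  unfold Cl
  rwa [map_sub]

variable (C)

/-- Gluing along an exhaustion of a closed set. -/
theorem inf_closed [T2Space B] (hC : C.Complete) (K : CompactExhaustion B) {Z : Set B}
    (hZ : IsClosed Z) (q : ℕ) (c : ℕ → C.G q)
    (h : ∀ n, Disjoint (C.supp (c (n + 1) - c n)) (Z ∩ K n)) :
    ∃ c' : C.G q, ∀ n, Disjoint (C.supp (c' - c (n + 1))) (Z ∩ K n) := by
  have step : ∀ (n : ℕ) (a : C.G q), C.Nr (Z ∩ K n) a (c n) → ∃ b : C.G q,
      C.Nr (K n) b a ∧ C.Nr (Z ∩ K (n + 1)) b (c (n + 1)) := by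
    intro n a ha
    have h1 : C.Nr (Z ∩ K n) a (c (n + 1)) := ha.trans (Nr.symm (C := C) (h n))
    have h2 : C.Nr (K n ∩ (Z ∩ K (n + 1))) a (c (n + 1)) := by
      refine h1.mono ?_
      rintro b ⟨hb1, hb2, -⟩
      exact ⟨hb2, hb1⟩
    exact C.glue (K n) (Z ∩ K (n + 1)) (K.isCompact n)
      ((K.isCompact (n + 1)).inter_left hZ) a (c (n + 1)) h2
  choose! f hf1 hf2 using step
  let c1 : ℕ → C.G q := fun n => Nat.rec (c 0) (fun n a => f n a) n
  have hc1 : ∀ n, C.Nr (Z ∩ K n) (c1 n) (c n) := by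
    intro n
    induction n with
    | zero => exact Nr.refl _ _
    | succ n ih => exact hf2 n (c1 n) ih
  have hc2 : ∀ n, C.Nr (K n) (c1 (n + 1)) (c1 n) := fun n => hf1 n (c1 n) (hc1 n)
  obtain ⟨c', hc'⟩ := hC.inf K q c1 hc2
  refine ⟨c', fun n => ?_⟩
  have h1 : C.Nr (Z ∩ K n) c' (c1 n) := Nr.mono (C := C) (hc' n) Set.inter_subset_right
  exact (h1.trans (hc1 n)).trans (Nr.symm (C := C) (h n))

theorem exists_closed {Z : Set B} (h : C.ExNear Z) (q : ℕ) (a : C.G q) (ha : C.Cl Z q a) :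
    ∃ b : C.G q, C.d q b = 0 ∧ C.Nr Z a b := by
  have h1 := h q a ha
  match q, a, h1 with
  | 0, a, h1 =>
    refine ⟨0, map_zero _, ?_⟩
    unfold Nr
    rw [sub_zero]
    exact h1
  | q + 1, a, ⟨g, hg⟩ => exact ⟨C.d q g, C.dd q g, hg⟩

/-- Exactness near closed sets. -/
theorem exNear_closed [T2Space B] (hC : C.Complete) (K : CompactExhaustion B) {Z : Set B}
    (hZ : IsClosed Z) (h : ∀ b ∈ Z, C.ExNear {b}) : C.ExNear Z := by
  have hK : ∀ n, C.ExNear (Z ∩ K n) := fun n =>
    C.exNear_of_points ((K.isCompact n).inter_left hZ) fun b hb => h b hb.1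
  intro q c hc
  match q, c, hc with
  | 0, c, hc =>
    show Disjoint (C.supp c) Z
    rw [Set.disjoint_right]
    intro b hb
    have h1 : C.Cl {b} 0 c := Set.disjoint_of_subset_right (Set.singleton_subset_iff.2 hb) hc
    exact Set.disjoint_singleton_right.1 (h b hb 0 c h1)
  | q + 1, c, hc =>
    have hcl : ∀ n, C.Cl (Z ∩ K n) (q + 1) c := fun n =>
      Set.disjoint_of_subset_right Set.inter_subset_left hc
    have ex0 : ∀ n, ∃ e : C.G q, C.Nr (Z ∩ K n) c (C.d q e) := fun n => hK n (q + 1) c (hcl n)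
    have step : ∀ (n : ℕ) (a : C.G q), C.Nr (Z ∩ K n) c (C.d q a) → ∃ b : C.G q,
        C.Nr (Z ∩ K n) b a ∧ C.Nr (Z ∩ K (n + 1)) c (C.d q b) := by
      intro n a ha
      obtain ⟨e, he⟩ := ex0 (n + 1)
      have hsub : Z ∩ K n ⊆ Z ∩ K (n + 1) :=
        Set.inter_subset_inter_right _ (K.subset_succ n)
      have h1 : C.Nr (Z ∩ K n) (C.d q a) (C.d q e) := ha.symm.trans (he.mono hsub)
      obtain ⟨g, hg1, hg2⟩ := C.exists_closed (hK n) q (a - e) h1.cl
      refine ⟨e + g, ?_, ?_⟩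
      · refine Nr.symm (C := C) ?_
        show Disjoint (C.supp (a - (e + g))) _
        rw [← sub_sub]
        exact hg2
      · have e1 : C.d q (e + g) = C.d q e := by rw [map_add, hg1, add_zero]
        rw [e1]
        exact he
    choose! f hf1 hf2 using step
    obtain ⟨e0, he0⟩ := ex0 0
    let e1 : ℕ → C.G q := fun n => Nat.rec e0 (fun n a => f n a) n
    have h1 : ∀ n, C.Nr (Z ∩ K n) c (C.d q (e1 n)) := by
      intro n
      induction n with
      | zero => exact he0
      | succ n ih => exact hf2 n (e1 n) ih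
    have h2 : ∀ n, C.Nr (Z ∩ K n) (e1 (n + 1)) (e1 n) := fun n => hf1 n (e1 n) (h1 n)
    obtain ⟨e, he⟩ := C.inf_closed hC K hZ q e1 h2
    refine ⟨e, ?_⟩
    rw [Set.disjoint_right]
    intro b hb
    obtain ⟨n, hn⟩ := K.exists_mem b
    have h3 : C.Nr (Z ∩ K n) e (e1 (n + 1)) := he n
    have h4 : C.Nr (Z ∩ K n) c (C.d q (e1 (n + 1))) :=
      (h1 (n + 1)).mono (Set.inter_subset_inter_right _ (K.subset_succ n))
    have h5 : C.Nr (Z ∩ K n) c (C.d q e) := h4.trans h3.d.symm
    exact Set.disjoint_right.1 h5 ⟨hb, hn⟩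

theorem ex_global [T2Space B] (hC : C.Complete) (K : CompactExhaustion B)
    (h : ∀ b, C.ExNear {b}) (q : ℕ) (c : C.G q) (hc : C.d q c = 0) : C.BdG q c := by
  have h1 : C.ExNear Set.univ := C.exNear_closed hC K isClosed_univ fun b _ => h b
  have h2 : C.Cl Set.univ q c := by
    unfold Cl
    rw [hc, C.supp_zero]
    exact Set.empty_disjoint _
  have h3 := h1 q c h2
  match q, c, h3 with
  | 0, c, h3 => exact hC.sep 0 c (Set.disjoint_univ.1 h3)
  | q + 1, c, ⟨e, he⟩ => exact ⟨e, sub_eq_zero.1 (hC.sep _ _ (Set.disjoint_univ.1 he))⟩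

theorem ex_compact [T2Space B] (hC : C.Complete) (K : CompactExhaustion B)
    (h : ∀ b, C.ExNear {b}) (q : ℕ) (c : C.G q) (hs : IsCompact (C.supp c))
    (hc : C.d q c = 0) : C.BdC q c := by
  match q, c, hs, hc with
  | 0, c, hs, hc => exact C.ex_global hC K h 0 c hc
  | q + 1, c, hs, hc =>
    obtain ⟨e, he⟩ := C.ex_global hC K h (q + 1) c hc
    obtain ⟨n, hn⟩ := K.exists_superset_of_isCompact hs
    have hn' : C.supp c ⊆ interior (K (n + 1)) := hn.trans (K.subset_interior_succ n)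
    have hZ : IsClosed (interior (K (n + 1)))ᶜ := isOpen_interior.isClosed_compl
    have h1 : C.ExNear (interior (K (n + 1)))ᶜ := C.exNear_closed hC K hZ fun b _ => h b
    have h2 : C.Cl (interior (K (n + 1)))ᶜ q e := by
      unfold Cl
      rw [← he]
      exact Set.disjoint_compl_right_iff_subset.2 hn'
    have h3 := h1 q e h2
    have key : ∀ a : C.G q, Disjoint (C.supp a) (interior (K (n + 1)))ᶜ →
        IsCompact (C.supp a) := fun a ha =>
      (K.isCompact (n + 1)).of_isClosed_subset (C.closed a)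
        ((Set.disjoint_compl_right_iff_subset.1 ha).trans interior_subset)
    match q, c, e, he, h3, key with
    | 0, c, e, he, h3, key => exact ⟨e, key e h3, he⟩
    | q + 1, c, e, he, ⟨g, hg⟩, key =>
      refine ⟨e - C.d q g, key _ hg, ?_⟩
      rw [map_sub, C.dd, sub_zero]
      exact he

end SCx

end Pool.Agent.TD


end

section

/-! Block H3: the mapping cone. -/

open scoped Topology

namespace Pool.Agent.TD

namespace SHom

variable {B : Type} [TopologicalSpace B] {C D : SCx B} (φ : SHom C D)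

/-- The groups of the mapping cone. -/
def ConeG (C D : SCx B) : ℕ → Type
  | 0 => C.G 0
  | q + 1 => C.G (q + 1) × D.G q

instance coneAb (C D : SCx B) : ∀ q, AddCommGroup (ConeG C D q)
  | 0 => inferInstanceAs (AddCommGroup (C.G 0))
  | q + 1 => inferInstanceAs (AddCommGroup (C.G (q + 1) × D.G q))

/-- The differential of the mapping cone: `(c, e) ↦ (dc, φ c - d e)`. -/
def coneD : ∀ q, ConeG C D q →+ ConeG C D (q + 1)
  | 0 => { toFun := fun c : C.G 0 => ((C.d 0 c, φ.f 0 c) : C.G 1 × D.G 0)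
           map_zero' := by
             show ((C.d 0 0, φ.f 0 0) : C.G 1 × D.G 0) = 0
             simp
           map_add' := fun c c' => by
             show ((C.d 0 (_ + _), φ.f 0 (_ + _)) : C.G 1 × D.G 0) = (C.d 0 _, φ.f 0 _) + (C.d 0 _, φ.f 0 _)
             simp }
  | q + 1 => { toFun := fun c : C.G (q + 1) × D.G q =>
                 ((C.d (q + 1) c.1, φ.f (q + 1) c.1 - D.d q c.2) : C.G (q + 2) × D.G (q + 1))
               map_zero' := by
                 show ((C.d (q + 1) 0, φ.f (q + 1) 0 - D.d q 0) : C.G (q + 2) × D.G (q + 1)) = 0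
                 simp
               map_add' := fun c c' => by
                 show ((C.d (q + 1) (_ + _), φ.f (q + 1) (_ + _) - D.d q (_ + _)) :
                   C.G (q + 2) × D.G (q + 1)) = (C.d (q + 1) _, φ.f (q + 1) _ - D.d q _) +
                     (C.d (q + 1) _, φ.f (q + 1) _ - D.d q _)
                 simp only [map_add, Prod.mk_add_mk]
                 congr 1
                 abel }

/-- The supports of the mapping cone. -/
def coneSupp : ∀ {q}, ConeG C D q → Set B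
  | 0, c => C.supp (q := 0) c
  | q + 1, c => C.supp (q := q + 1) c.1 ∪ D.supp (q := q) c.2

theorem h3_left {S T Z : Set B} (h : Disjoint (S ∪ T) Z) : Disjoint S Z :=
  h.mono_left Set.subset_union_left

theorem h3_right {S T Z : Set B} (h : Disjoint (S ∪ T) Z) : Disjoint T Z :=
  h.mono_left Set.subset_union_right

theorem h3_supp_sub (C : SCx B) {q : ℕ} (c c' : C.G q) :
    C.supp (c - c') ⊆ C.supp c ∪ C.supp c' := by
  rw [sub_eq_add_neg]
  refine (C.supp_add c (-c')).trans ?_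
  rw [C.supp_neg]

theorem h3_disj_add (C : SCx B) {q : ℕ} {c c' : C.G q} {Z : Set B}
    (h : Disjoint (C.supp c) Z) (h' : Disjoint (C.supp c') Z) : Disjoint (C.supp (c + c')) Z :=
  (Set.disjoint_union_left.2 ⟨h, h'⟩).mono_left (C.supp_add c c')

theorem h3_disj_sub (C : SCx B) {q : ℕ} {c c' : C.G q} {Z : Set B}
    (h : Disjoint (C.supp c) Z) (h' : Disjoint (C.supp c') Z) : Disjoint (C.supp (c - c')) Z :=
  (Set.disjoint_union_left.2 ⟨h, h'⟩).mono_left (h3_supp_sub C c c')

theorem coneD_zero (c : C.G 0) :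
    φ.coneD 0 (c : ConeG C D 0) = ((C.d 0 c, φ.f 0 c) : C.G 1 × D.G 0) := rfl

theorem coneD_succ (q : ℕ) (c : C.G (q + 1)) (e : D.G q) :
    φ.coneD (q + 1) ((c, e) : ConeG C D (q + 1)) =
      ((C.d (q + 1) c, φ.f (q + 1) c - D.d q e) : C.G (q + 2) × D.G (q + 1)) := rfl

theorem cone_dd : ∀ (q : ℕ) (c : ConeG C D q), φ.coneD (q + 1) (φ.coneD q c) = 0
  | 0, c => by
      change ((C.d 1 (C.d 0 c), φ.f 1 (C.d 0 c) - D.d 0 (φ.f 0 c)) : C.G 2 × D.G 1) = 0
      rw [C.dd, φ.comm, sub_self]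
      rfl
  | q + 1, (c, e) => by
      change ((C.d (q + 2) (C.d (q + 1) c),
        φ.f (q + 2) (C.d (q + 1) c) - D.d (q + 1) (φ.f (q + 1) c - D.d q e)) :
          C.G (q + 3) × D.G (q + 2)) = 0
      rw [C.dd, φ.comm, map_sub, D.dd, sub_zero, sub_self]
      rfl

theorem coneSupp_closed : ∀ {q : ℕ} (c : ConeG C D q), IsClosed (coneSupp c)
  | 0, c => C.closed (q := 0) c
  | q + 1, c => (C.closed (q := q + 1) c.1).union (D.closed (q := q) c.2)

theorem coneSupp_zero : ∀ q : ℕ, coneSupp (0 : ConeG C D q) = ∅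
  | 0 => C.supp_zero 0
  | q + 1 => by
      change C.supp (0 : C.G (q + 1)) ∪ D.supp (0 : D.G q) = ∅
      rw [C.supp_zero, D.supp_zero, Set.empty_union]

theorem coneSupp_add : ∀ {q : ℕ} (c c' : ConeG C D q),
    coneSupp (c + c') ⊆ coneSupp c ∪ coneSupp c'
  | 0, c, c' => C.supp_add (q := 0) c c'
  | q + 1, (c, e), (c', e') => by
      change C.supp (c + c') ∪ D.supp (e + e') ⊆
        (C.supp c ∪ D.supp e) ∪ (C.supp c' ∪ D.supp e')
      refine Set.union_subset ((C.supp_add c c').trans ?_) ((D.supp_add e e').trans ?_)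
      · exact Set.union_subset_union Set.subset_union_left Set.subset_union_left
      · exact Set.union_subset_union Set.subset_union_right Set.subset_union_right

theorem coneSupp_neg : ∀ {q : ℕ} (c : ConeG C D q), coneSupp (-c) = coneSupp c
  | 0, c => C.supp_neg (q := 0) c
  | q + 1, (c, e) => by
      change C.supp (-c) ∪ D.supp (-e) = C.supp c ∪ D.supp e
      rw [C.supp_neg, D.supp_neg]

theorem coneSupp_d : ∀ {q : ℕ} (c : ConeG C D q), coneSupp (φ.coneD q c) ⊆ coneSupp c
  | 0, c => by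
      change C.supp (C.d 0 c) ∪ D.supp (φ.f 0 c) ⊆ C.supp (q := 0) c
      exact Set.union_subset (C.supp_d _) (φ.supp 0 c)
  | q + 1, (c, e) => by
      change C.supp (C.d (q + 1) c) ∪ D.supp (φ.f (q + 1) c - D.d q e) ⊆ C.supp c ∪ D.supp e
      refine Set.union_subset ((C.supp_d c).trans Set.subset_union_left) ?_
      refine (h3_supp_sub D _ _).trans ?_
      exact Set.union_subset_union (φ.supp (q + 1) c) (D.supp_d e)

theorem coneSupp_glue : ∀ {q : ℕ} (Z1 Z2 : Set B), IsCompact Z1 → IsCompact Z2 →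
    ∀ c1 c2 : ConeG C D q, Disjoint (coneSupp (c1 - c2)) (Z1 ∩ Z2) →
      ∃ c : ConeG C D q, Disjoint (coneSupp (c - c1)) Z1 ∧ Disjoint (coneSupp (c - c2)) Z2
  | 0, Z1, Z2, h1, h2, c1, c2, h => C.glue (q := 0) Z1 Z2 h1 h2 c1 c2 h
  | q + 1, Z1, Z2, h1, h2, (c1, e1), (c2, e2), h => by
      change Disjoint (C.supp (c1 - c2) ∪ D.supp (e1 - e2)) (Z1 ∩ Z2) at h
      obtain ⟨c, k1, k2⟩ := C.glue Z1 Z2 h1 h2 c1 c2 (h3_left h)
      obtain ⟨e, l1, l2⟩ := D.glue Z1 Z2 h1 h2 e1 e2 (h3_right h)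
      refine ⟨(c, e), ?_, ?_⟩
      · change Disjoint (C.supp (c - c1) ∪ D.supp (e - e1)) Z1
        exact Set.disjoint_union_left.2 ⟨k1, l1⟩
      · change Disjoint (C.supp (c - c2) ∪ D.supp (e - e2)) Z2
        exact Set.disjoint_union_left.2 ⟨k2, l2⟩

/-- The mapping cone. -/
def cone : SCx B where
  G := ConeG C D
  ab := coneAb C D
  d := φ.coneD
  dd := φ.cone_dd
  supp := coneSupp
  closed := coneSupp_closed
  supp_zero := coneSupp_zero
  supp_add := coneSupp_add
  supp_neg := coneSupp_neg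
  supp_d := φ.coneSupp_d
  glue := coneSupp_glue

theorem cone_complete (hC : C.Complete) (hD : D.Complete) : φ.cone.Complete := by
  constructor
  · intro K q c h
    match q, c, h with
    | 0, c, h => exact hC.inf K 0 c h
    | q + 1, c, h =>
      have h1 : ∀ n, Disjoint (C.supp ((c (n + 1)).1 - (c n).1)) (K n) := fun n => h3_left (h n)
      have h2 : ∀ n, Disjoint (D.supp ((c (n + 1)).2 - (c n).2)) (K n) := fun n =>
        h3_right (h n)
      obtain ⟨a, ha⟩ := hC.inf K (q + 1) (fun n => (c n).1) h1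
      obtain ⟨b, hb⟩ := hD.inf K q (fun n => (c n).2) h2
      exact ⟨(a, b), fun n => Set.disjoint_union_left.2 ⟨ha n, hb n⟩⟩
  · intro q c h
    match q, c, h with
    | 0, c, h => exact hC.sep 0 c h
    | q + 1, (c, e), h =>
      change C.supp c ∪ D.supp e = ∅ at h
      obtain ⟨h1, h2⟩ := Set.union_empty_iff.1 h
      have k1 := hC.sep (q + 1) c h1
      have k2 := hD.sep q e h2
      rw [k1, k2]
      rfl

/-- Quasi-isomorphism implies exactness of the cone. -/
theorem cone_exNear {Z : Set B} (h : φ.QIso Z) : φ.cone.ExNear Z := by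
  intro q c hc
  match q, c, hc with
  | 0, c, hc =>
    change Disjoint (C.supp (C.d 0 c) ∪ D.supp (φ.f 0 c)) Z at hc
    exact h.1 0 c (h3_left hc) (h3_right hc)
  | q + 1, (c, e), hc =>
    change Disjoint (C.supp (C.d (q + 1) c) ∪ D.supp (φ.f (q + 1) c - D.d q e)) Z at hc
    have hc1 : Disjoint (C.supp (C.d (q + 1) c)) Z := h3_left hc
    have hc2 : Disjoint (D.supp (φ.f (q + 1) c - D.d q e)) Z := h3_right hc
    obtain ⟨c', hc'⟩ := h.1 (q + 1) c hc1 ⟨e, hc2⟩
    have he' : D.Cl Z q (e - φ.f q c') := by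
      change Disjoint (D.supp (D.d q (e - φ.f q c'))) Z
      have h1 : D.d q (e - φ.f q c') =
          φ.f (q + 1) (c - C.d q c') - (φ.f (q + 1) c - D.d q e) := by
        rw [map_sub, map_sub, φ.comm]
        abel
      rw [h1]
      exact h3_disj_sub D (hc'.mono_left (φ.supp _ _)) hc2
    obtain ⟨c'', k1, k2⟩ := h.2 q _ he'
    have k3 : Disjoint (C.supp (c - C.d q (c' + c''))) Z := by
      have h1 : c - C.d q (c' + c'') = (c - C.d q c') - C.d q c'' := by
        rw [map_add]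
        abel
      rw [h1]
      exact h3_disj_sub C hc' k1
    match q, c, e, c', c'', k2, k3 with
    | 0, c, e, c', c'', k2, k3 =>
      refine ⟨(c' + c'' : C.G 0), ?_⟩
      change Disjoint (C.supp (c - C.d 0 (c' + c'')) ∪ D.supp (e - φ.f 0 (c' + c''))) Z
      refine Set.disjoint_union_left.2 ⟨k3, ?_⟩
      have h1 : e - φ.f 0 (c' + c'') = e - φ.f 0 c' - φ.f 0 c'' := by
        rw [map_add]
        abel
      rw [h1]
      exact k2
    | q + 1, c, e, c', c'', k2, k3 =>
      obtain ⟨g, hg⟩ := k2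
      refine ⟨((c' + c'', -g) : C.G (q + 1) × D.G q), ?_⟩
      change Disjoint (C.supp (c - C.d (q + 1) (c' + c'')) ∪
        D.supp (e - (φ.f (q + 1) (c' + c'') - D.d q (-g)))) Z
      refine Set.disjoint_union_left.2 ⟨k3, ?_⟩
      have h1 : e - (φ.f (q + 1) (c' + c'') - D.d q (-g)) =
          e - φ.f (q + 1) c' - φ.f (q + 1) c'' - D.d q g := by
        rw [map_add, map_neg]
        abel
      rw [h1]
      exact hg

theorem qiso_of_cone {Z : Set B} (h : φ.cone.ExNear Z) : φ.QIso Z := by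
  constructor
  · intro q c hc hb
    match q, c, hc, hb with
    | 0, c, hc, hb =>
      exact h 0 c (Set.disjoint_union_left.2 ⟨hc, hb⟩)
    | q + 1, c, hc, hb =>
      obtain ⟨e, he⟩ := hb
      obtain ⟨b, hb⟩ := h (q + 1) ((c, e) : C.G (q + 1) × D.G q)
        (Set.disjoint_union_left.2 ⟨hc, he⟩)
      match q, c, e, b, hb with
      | 0, c, e, b, hb => exact ⟨b, h3_left hb⟩
      | q + 1, c, e, b, hb => exact ⟨b.1, h3_left hb⟩
  · intro q e he
    have hcl : φ.cone.Cl Z (q + 1) ((0, e) : C.G (q + 1) × D.G q) := by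
      change Disjoint (C.supp (C.d (q + 1) 0) ∪ D.supp (φ.f (q + 1) 0 - D.d q e)) Z
      rw [map_zero, map_zero, C.supp_zero, Set.empty_union, zero_sub, D.supp_neg]
      exact he
    obtain ⟨b, hb⟩ := h (q + 1) _ hcl
    match q, e, b, hb with
    | 0, e, b, hb =>
      change Disjoint (C.supp (0 - C.d 0 b) ∪ D.supp (e - φ.f 0 b)) Z at hb
      refine ⟨b, ?_, h3_right hb⟩
      have h1 := h3_left hb
      rw [zero_sub, C.supp_neg] at h1
      exact h1
    | q + 1, e, (b1, b2), hb =>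
      change Disjoint (C.supp (0 - C.d (q + 1) b1) ∪
        D.supp (e - (φ.f (q + 1) b1 - D.d q b2))) Z at hb
      refine ⟨b1, ?_, -b2, ?_⟩
      · have h1 := h3_left hb
        rw [zero_sub, C.supp_neg] at h1
        exact h1
      · have h1 := h3_right hb
        have h2 : e - φ.f (q + 1) b1 - D.d q (-b2) = e - (φ.f (q + 1) b1 - D.d q b2) := by
          rw [map_neg]
          abel
        rw [h2]
        exact h1

theorem qisoG_of_cone (h : ∀ q (c : φ.cone.G q), φ.cone.d q c = 0 → φ.cone.BdG q c) :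
    φ.QIsoG := by
  constructor
  · intro q c hc hb
    match q, c, hc, hb with
    | 0, c, hc, hb =>
      refine h 0 c ?_
      change ((C.d 0 c, φ.f 0 c) : C.G 1 × D.G 0) = 0
      rw [hc, show φ.f 0 c = 0 from hb]
      rfl
    | q + 1, c, hc, hb =>
      obtain ⟨e, he⟩ := hb
      have h1 : φ.cone.d (q + 1) ((c, e) : C.G (q + 1) × D.G q) = 0 := by
        change ((C.d (q + 1) c, φ.f (q + 1) c - D.d q e) : C.G (q + 2) × D.G (q + 1)) = 0
        rw [hc, he, sub_self]
        rfl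
      obtain ⟨b, hb⟩ := h (q + 1) _ h1
      match q, c, e, b, hb with
      | 0, c, e, b, hb => exact ⟨b, congrArg Prod.fst hb⟩
      | q + 1, c, e, b, hb => exact ⟨b.1, congrArg Prod.fst hb⟩
  · intro q e he
    have hcl : φ.cone.d (q + 1) ((0, e) : C.G (q + 1) × D.G q) = 0 := by
      change ((C.d (q + 1) 0, φ.f (q + 1) 0 - D.d q e) : C.G (q + 2) × D.G (q + 1)) = 0
      rw [map_zero, map_zero, he, sub_self]
      rfl
    obtain ⟨b, hb⟩ := h (q + 1) _ hcl
    match q, e, b, hb with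
    | 0, e, b, hb =>
      have h1 : (0 : C.G 1) = C.d 0 b := congrArg Prod.fst hb
      have h2 : e = φ.f 0 b := congrArg Prod.snd hb
      refine ⟨b, h1.symm, ?_⟩
      change e - φ.f 0 b = 0
      rw [h2, sub_self]
    | q + 1, e, (b1, b2), hb =>
      have h1 : (0 : C.G (q + 2)) = C.d (q + 1) b1 := congrArg Prod.fst hb
      have h2 : e = φ.f (q + 1) b1 - D.d q b2 := congrArg Prod.snd hb
      refine ⟨b1, h1.symm, -b2, ?_⟩
      rw [h2, map_neg]
      abel

theorem qisoC_of_cone (h : ∀ q (c : φ.cone.G q), IsCompact (φ.cone.supp c) →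
    φ.cone.d q c = 0 → φ.cone.BdC q c) : φ.QIsoC := by
  constructor
  · intro q c hk hc hb
    match q, c, hk, hc, hb with
    | 0, c, hk, hc, hb =>
      refine h 0 c hk ?_
      change ((C.d 0 c, φ.f 0 c) : C.G 1 × D.G 0) = 0
      rw [hc, show φ.f 0 c = 0 from hb]
      rfl
    | q + 1, c, hk, hc, hb =>
      obtain ⟨e, hke, he⟩ := hb
      have h1 : φ.cone.d (q + 1) ((c, e) : C.G (q + 1) × D.G q) = 0 := by
        change ((C.d (q + 1) c, φ.f (q + 1) c - D.d q e) : C.G (q + 2) × D.G (q + 1)) = 0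
        rw [hc, he, sub_self]
        rfl
      obtain ⟨b, hkb, hb⟩ := h (q + 1) ((c, e) : C.G (q + 1) × D.G q) (hk.union hke) h1
      match q, c, e, b, hkb, hb with
      | 0, c, e, b, hkb, hb => exact ⟨b, hkb, congrArg Prod.fst hb⟩
      | q + 1, c, e, b, hkb, hb =>
        exact ⟨b.1, hkb.of_isClosed_subset (C.closed b.1) Set.subset_union_left,
          congrArg Prod.fst hb⟩
  · intro q e hke he
    have hcl : φ.cone.d (q + 1) ((0, e) : C.G (q + 1) × D.G q) = 0 := by
      change ((C.d (q + 1) 0, φ.f (q + 1) 0 - D.d q e) : C.G (q + 2) × D.G (q + 1)) = 0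
      rw [map_zero, map_zero, he, sub_self]
      rfl
    have hkc : IsCompact (φ.cone.supp (q := q + 1) ((0, e) : C.G (q + 1) × D.G q)) := by
      change IsCompact (C.supp (0 : C.G (q + 1)) ∪ D.supp e)
      rw [C.supp_zero, Set.empty_union]
      exact hke
    obtain ⟨b, hkb, hb⟩ := h (q + 1) _ hkc hcl
    match q, e, b, hkb, hb with
    | 0, e, b, hkb, hb =>
      have h1 : (0 : C.G 1) = C.d 0 b := congrArg Prod.fst hb
      have h2 : e = φ.f 0 b := congrArg Prod.snd hb
      refine ⟨b, hkb, h1.symm, ?_⟩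
      change e - φ.f 0 b = 0
      rw [h2, sub_self]
    | q + 1, e, (b1, b2), hkb, hb =>
      change IsCompact (C.supp b1 ∪ D.supp b2) at hkb
      have h1 : (0 : C.G (q + 2)) = C.d (q + 1) b1 := congrArg Prod.fst hb
      have h2 : e = φ.f (q + 1) b1 - D.d q b2 := congrArg Prod.snd hb
      refine ⟨b1, hkb.of_isClosed_subset (C.closed b1) Set.subset_union_left, h1.symm, -b2, ?_, ?_⟩
      · rw [D.supp_neg]
        exact hkb.of_isClosed_subset (D.closed b2) Set.subset_union_right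
      · rw [h2, map_neg]
        abel

end SHom

end Pool.Agent.TD


end

section

/-! Block H4: quasi-isomorphisms at points are quasi-isomorphisms near compact sets, globally and with
compact supports. -/

open scoped Topology

namespace Pool.Agent.TD

namespace SHom

variable {B : Type} [TopologicalSpace B] {C D : SCx B} (φ : SHom C D)

theorem qiso_near [T2Space B] {Z : Set B} (hZ : IsCompact Z) (h : ∀ b ∈ Z, φ.QIso {b}) :
    φ.QIso Z :=
  φ.qiso_of_cone (φ.cone.exNear_of_points hZ fun b hb => φ.cone_exNear (h b hb))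

theorem qiso_global [T2Space B] (hC : C.Complete) (hD : D.Complete) (K : CompactExhaustion B)
    (h : ∀ b, φ.QIso {b}) : φ.QIsoG :=
  φ.qisoG_of_cone (φ.cone.ex_global (φ.cone_complete hC hD) K fun b => φ.cone_exNear (h b))

theorem qiso_compact [T2Space B] (hC : C.Complete) (hD : D.Complete) (K : CompactExhaustion B)
    (h : ∀ b, φ.QIso {b}) : φ.QIsoC :=
  φ.qisoC_of_cone (φ.cone.ex_compact (φ.cone_complete hC hD) K fun b => φ.cone_exNear (h b))

end SHom

end Pool.Agent.TD


end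

section

/-! Block H: push forward of a complex with supports along a map which is proper on a closed set. -/

open scoped Topology

namespace Pool.Agent.TD

/-- `π : X → B` is continuous, `S` is closed and `π` is proper on `S`. -/
structure ProperOn {X B : Type} [TopologicalSpace X] [TopologicalSpace B] (S : Set X)
    (π : X → B) : Prop where
  cont : Continuous π
  clS : IsClosed S
  comp : ∀ Z : Set B, IsCompact Z → IsCompact (S ∩ π ⁻¹' Z)
  closed : ∀ C : Set X, IsClosed C → IsClosed (π '' (C ∩ S))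

/-- For `B` locally compact Hausdorff, compactness of the preimages of compact sets is enough. -/
theorem properOn_of_comp {X B : Type} [TopologicalSpace X] [TopologicalSpace B]
    [LocallyCompactSpace B] [T2Space B] {S : Set X} {π : X → B} (h1 : Continuous π)
    (h2 : IsClosed S) (h3 : ∀ Z : Set B, IsCompact Z → IsCompact (S ∩ π ⁻¹' Z)) :
    ProperOn S π := by
  refine ⟨h1, h2, h3, fun C hC => ?_⟩
  rw [← isOpen_compl_iff, isOpen_iff_mem_nhds]
  intro b hb
  obtain ⟨Z, hZ, hbZ⟩ := exists_compact_mem_nhds b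
  have hK : IsCompact (π '' (C ∩ (S ∩ π ⁻¹' Z))) := ((h3 Z hZ).inter_left hC).image h1
  have hbK : b ∈ (π '' (C ∩ (S ∩ π ⁻¹' Z)))ᶜ := by
    rintro ⟨z, ⟨hzC, hzS, -⟩, rfl⟩
    exact hb ⟨z, ⟨hzC, hzS⟩, rfl⟩
  filter_upwards [hbZ, hK.isClosed.isOpen_compl.mem_nhds hbK] with y hy1 hy2
  rintro ⟨z, ⟨hzC, hzS⟩, rfl⟩
  exact hy2 ⟨z, ⟨hzC, hzS, hy1⟩, rfl⟩

namespace SCx

variable {X B : Type} [TopologicalSpace X] [TopologicalSpace B] (C : SCx X) {S : Set X}
  {π : X → B}

/-- Elements which vanish near `S`. -/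
def N (S : Set X) (q : ℕ) : AddSubgroup (C.G q) where
  carrier := {c | Disjoint (C.supp c) S}
  zero_mem' := by
    show Disjoint (C.supp 0) S
    rw [C.supp_zero]; exact Set.empty_disjoint S
  add_mem' := by
    intro c c' h h'
    exact (Set.disjoint_union_left.2 ⟨h, h'⟩).mono_left (C.supp_add c c')
  neg_mem' := by
    intro c h
    show Disjoint (C.supp (-c)) S
    rw [C.supp_neg]; exact h

/-- Sections over `S`. -/
def PG (S : Set X) (q : ℕ) : Type := C.G q ⧸ C.N S q

instance (S : Set X) (q : ℕ) : AddCommGroup (C.PG S q) :=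
  inferInstanceAs (AddCommGroup (C.G q ⧸ C.N S q))

/-- The class of an element. -/
def cls (S : Set X) (q : ℕ) : C.G q →+ C.PG S q := QuotientAddGroup.mk' (C.N S q)

lemma cls_surjective (q : ℕ) : Function.Surjective (C.cls S q) :=
  QuotientAddGroup.mk'_surjective _

lemma cls_eq_zero {q : ℕ} {c : C.G q} : C.cls S q c = 0 ↔ Disjoint (C.supp c) S := by
  unfold cls
  exact (QuotientAddGroup.eq_zero_iff c)

/-- The part in `S` of the support of a class. -/
def pSupp (S : Set X) {q : ℕ} (c : C.PG S q) : Set X := {z | z ∈ S ∧ ∀ c', C.cls S q c' = c → z ∈ C.supp c'}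

theorem pSupp_cls {q : ℕ} (c : C.G q) : C.pSupp S (C.cls S q c) = C.supp c ∩ S := by
  ext z
  constructor
  · rintro ⟨hz, h⟩
    exact ⟨h c rfl, hz⟩
  · rintro ⟨hz, hzS⟩
    refine ⟨hzS, fun c' hc' => ?_⟩
    have h0 : C.cls S q (c - c') = 0 := by rw [map_sub, hc', sub_self]
    have h1 := C.supp_add (c - c') c'
    rw [sub_add_cancel] at h1
    rcases h1 hz with h | h
    · exact absurd hzS (Set.disjoint_left.mp (C.cls_eq_zero.mp h0) h)
    · exact h

omit [TopologicalSpace X] [TopologicalSpace B] in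
/-- Disjointness upstairs and downstairs. -/
theorem disj_iff {A : Set X} {Z : Set B} :
    Disjoint (π '' (A ∩ S)) Z ↔ Disjoint A (S ∩ π ⁻¹' Z) := by
  rw [Set.disjoint_left, Set.disjoint_left]
  constructor
  · rintro h z hz ⟨hzS, hzZ⟩
    exact h ⟨z, ⟨hz, hzS⟩, rfl⟩ hzZ
  · rintro h _ ⟨z, ⟨hz, hzS⟩, rfl⟩ hzZ
    exact h hz ⟨hzS, hzZ⟩

/-- The differential on sections over `S`. -/
def pd (S : Set X) (q : ℕ) : C.PG S q →+ C.PG S (q + 1) :=
  QuotientAddGroup.map (C.N S q) (C.N S (q + 1)) (C.d q) (fun c hc =>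
    (show Disjoint (C.supp c) S from hc).mono_left (C.supp_d c))

@[simp] lemma pd_cls (q : ℕ) (c : C.G q) : C.pd S q (C.cls S q c) = C.cls S (q + 1) (C.d q c) := rfl

/-- The push forward of the complex of sections over `S`. -/
def push (h : ProperOn S π) : SCx B where
  G := C.PG S
  d := C.pd S
  dd := by
    intro q c
    obtain ⟨c, rfl⟩ := C.cls_surjective q c
    rw [pd_cls, pd_cls, C.dd, map_zero]
  supp c := π '' (C.pSupp S c)
  closed := by
    intro q c
    obtain ⟨c, rfl⟩ := C.cls_surjective q c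
    rw [pSupp_cls]
    exact h.closed _ (C.closed c)
  supp_zero := by
    intro q
    have h0 : (0 : C.PG S q) = C.cls S q 0 := (map_zero _).symm
    rw [h0, pSupp_cls, C.supp_zero, Set.empty_inter, Set.image_empty]
  supp_add := by
    intro q c c'
    obtain ⟨c, rfl⟩ := C.cls_surjective q c
    obtain ⟨c', rfl⟩ := C.cls_surjective q c'
    rw [← map_add, pSupp_cls, pSupp_cls, pSupp_cls, ← Set.image_union, ← Set.union_inter_distrib_right]
    exact Set.image_mono (Set.inter_subset_inter_left _ (C.supp_add c c'))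
  supp_neg := by
    intro q c
    obtain ⟨c, rfl⟩ := C.cls_surjective q c
    rw [← map_neg, pSupp_cls, pSupp_cls, C.supp_neg]
  supp_d := by
    intro q c
    obtain ⟨c, rfl⟩ := C.cls_surjective q c
    rw [pd_cls, pSupp_cls, pSupp_cls]
    exact Set.image_mono (Set.inter_subset_inter_left _ (C.supp_d c))
  glue := by
    intro q Z1 Z2 h1 h2 c1 c2 hd
    obtain ⟨c1, rfl⟩ := C.cls_surjective q c1
    obtain ⟨c2, rfl⟩ := C.cls_surjective q c2
    rw [← map_sub, pSupp_cls, disj_iff] at hd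
    obtain ⟨c, hc1, hc2⟩ := C.glue (S ∩ π ⁻¹' Z1) (S ∩ π ⁻¹' Z2) (h.comp Z1 h1) (h.comp Z2 h2)
      c1 c2 (hd.mono_right (by
        rintro z ⟨⟨h1, h2⟩, -, h3⟩
        exact ⟨h1, h2, h3⟩))
    refine ⟨C.cls S q c, ?_, ?_⟩
    · rw [← map_sub, pSupp_cls, disj_iff]
      exact hc1
    · rw [← map_sub, pSupp_cls, disj_iff]
      exact hc2

theorem push_supp (h : ProperOn S π) {q : ℕ} (c : C.G q) :
    (C.push h).supp (q := q) (C.cls S q c) = π '' (C.supp c ∩ S) := by
  show π '' (C.pSupp S (C.cls S q c)) = _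
  rw [pSupp_cls]

theorem push_Cl (h : ProperOn S π) {q : ℕ} (Z : Set B) (c : C.G q) :
    (C.push h).Cl Z q (C.cls S q c) ↔ C.Cl (S ∩ π ⁻¹' Z) q c := by
  show Disjoint (π '' (C.pSupp S (C.cls S (q + 1) (C.d q c)))) Z ↔ _
  rw [pSupp_cls, disj_iff]
  rfl

theorem push_Bd (h : ProperOn S π) {q : ℕ} (Z : Set B) (c : C.G q) :
    (C.push h).Bd Z q (C.cls S q c) ↔ C.Bd (S ∩ π ⁻¹' Z) q c := by
  cases q with
  | zero =>
    show Disjoint (π '' (C.pSupp S (C.cls S 0 c))) Z ↔ _
    rw [pSupp_cls, disj_iff]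
    rfl
  | succ q =>
    have key : ∀ e : C.G q, Disjoint (π '' (C.pSupp S (C.cls S (q + 1) c
        - C.cls S (q + 1) (C.d q e)))) Z ↔ Disjoint (C.supp (c - C.d q e)) (S ∩ π ⁻¹' Z) := by
      intro e
      rw [← map_sub, pSupp_cls, disj_iff]
    constructor
    · rintro ⟨e, he⟩
      obtain ⟨e, rfl⟩ := C.cls_surjective q e
      exact ⟨e, (key e).mp he⟩
    · rintro ⟨e, he⟩
      exact ⟨C.cls S q e, (key e).mpr he⟩

/-- For `S` = everything the push forward is complete if the complex is. -/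
theorem push_complete (h : ProperOn (Set.univ : Set X) π) (hC : C.Complete) :
    (C.push h).Complete := by
  constructor
  · intro K q (c : ℕ → C.PG Set.univ q) hc
    have hc2 : ∀ n, Disjoint (π '' (C.pSupp Set.univ (c (n + 1) - c n))) (K n) := hc
    have hs : ∀ n, ∃ c' : C.G q, C.cls Set.univ q c' = c n := fun n => C.cls_surjective q (c n)
    choose c' hc' using hs
    let K' : CompactExhaustion X :=
      { toFun := fun n => Set.univ ∩ π ⁻¹' (K n)
        isCompact' := fun n => h.comp _ (K.isCompact n)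
        subset_interior_succ' := fun n => by
          rintro z ⟨-, hz⟩
          refine mem_interior_iff_mem_nhds.mpr ?_
          have h1 : K (n + 1) ∈ 𝓝 (π z) :=
            mem_interior_iff_mem_nhds.mp (K.subset_interior_succ n hz)
          filter_upwards [h.cont.continuousAt.preimage_mem_nhds h1] with y hy
          exact ⟨Set.mem_univ _, hy⟩
        iUnion_eq' := by
          refine Set.eq_univ_of_forall fun z => ?_
          have h1 : π z ∈ ⋃ n, K n := by
            rw [K.iUnion_eq]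
            exact Set.mem_univ _
          obtain ⟨n, hn⟩ := Set.mem_iUnion.mp h1
          exact Set.mem_iUnion.mpr ⟨n, Set.mem_univ _, hn⟩ }
    have hd : ∀ n, Disjoint (C.supp (c' (n + 1) - c' n)) (K' n) := by
      intro n
      have h1 := hc2 n
      rw [← hc', ← hc', ← map_sub, pSupp_cls, disj_iff] at h1
      exact h1
    obtain ⟨c₀, hc₀⟩ := hC.inf K' q c' hd
    refine ⟨C.cls Set.univ q c₀, fun n => ?_⟩
    show Disjoint (π '' (C.pSupp Set.univ (C.cls Set.univ q c₀ - c n))) (K n)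
    rw [← hc', ← map_sub, pSupp_cls, disj_iff]
    exact hc₀ n
  · intro q c hc
    have hc1 : π '' (C.pSupp Set.univ c) = ∅ := hc
    obtain ⟨c, rfl⟩ := C.cls_surjective q c
    rw [pSupp_cls, Set.image_eq_empty, Set.inter_univ] at hc1
    rw [hC.sep q c hc1]
    exact map_zero _

/-- Product of two complexes. -/
def prod (C D : SCx X) : SCx X where
  G q := C.G q × D.G q
  d q := (C.d q).prodMap (D.d q)
  dd q c := Prod.ext (C.dd q c.1) (D.dd q c.2)
  supp c := C.supp c.1 ∪ D.supp c.2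
  closed := by
    intro q c
    exact (C.closed c.1).union (D.closed c.2)
  supp_zero := by
    intro q
    show C.supp (0 : C.G q) ∪ D.supp (0 : D.G q) = ∅
    rw [C.supp_zero, D.supp_zero, Set.union_empty]
  supp_add := by
    intro q c c'
    refine (Set.union_subset_union (C.supp_add c.1 c'.1) (D.supp_add c.2 c'.2)).trans ?_
    rw [Set.union_union_union_comm]
  supp_neg := by
    intro q c
    show C.supp (-c.1) ∪ D.supp (-c.2) = _
    rw [C.supp_neg, D.supp_neg]
  supp_d := by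
    intro q c
    exact Set.union_subset_union (C.supp_d c.1) (D.supp_d c.2)
  glue := by
    intro q Z1 Z2 h1 h2 c1 c2 hd
    have hd' : Disjoint (C.supp (c1.1 - c2.1) ∪ D.supp (c1.2 - c2.2)) (Z1 ∩ Z2) := hd
    rw [Set.disjoint_union_left] at hd'
    obtain ⟨a, ha1, ha2⟩ := C.glue Z1 Z2 h1 h2 c1.1 c2.1 hd'.1
    obtain ⟨b, hb1, hb2⟩ := D.glue Z1 Z2 h1 h2 c1.2 c2.2 hd'.2
    exact ⟨(a, b), Set.disjoint_union_left.mpr ⟨ha1, hb1⟩, Set.disjoint_union_left.mpr ⟨ha2, hb2⟩⟩

theorem prod_complete {C D : SCx X} (hC : C.Complete) (hD : D.Complete) :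
    (C.prod D).Complete := by
  constructor
  · intro K q c hc
    have hc' : ∀ n, Disjoint (C.supp ((c (n + 1)).1 - (c n).1) ∪ D.supp ((c (n + 1)).2 - (c n).2))
      (K n) := hc
    obtain ⟨a, ha⟩ := hC.inf K q (fun n => (c n).1) fun n => (Set.disjoint_union_left.mp (hc' n)).1
    obtain ⟨b, hb⟩ := hD.inf K q (fun n => (c n).2) fun n => (Set.disjoint_union_left.mp (hc' n)).2
    exact ⟨(a, b), fun n => Set.disjoint_union_left.mpr ⟨ha n, hb n⟩⟩
  · intro q c hc
    have hc' : C.supp c.1 ∪ D.supp c.2 = ∅ := hc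
    rw [Set.union_empty_iff] at hc'
    exact Prod.ext (hC.sep q c.1 hc'.1) (hD.sep q c.2 hc'.2)

end SCx

end Pool.Agent.TD


end

section

/-!
# Block M, module CUT: cut-off functions on Berkovich spectra
-/

open scoped ContDiff Topology NNReal

namespace Pool.Agent.TD.BG

namespace CUT

section gen

variable {X Φ : Type} [TopologicalSpace X] {L : LogSpace X Φ}

theorem smooth_const (c : ℝ) : L.Smooth (fun _ => c) := fun _ =>
  ⟨∅, by simp, fun _ => c, contDiff_const, Filter.Eventually.of_forall fun _ => rfl⟩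

theorem smooth_op2 {F : ℝ × ℝ → ℝ} (hF : ContDiff ℝ ∞ F) {g h : X → ℝ} (hg : L.Smooth g)
    (hh : L.Smooth h) : L.Smooth (fun z => F (g z, h z)) := by
  classical
  intro z
  obtain ⟨s, hs, a, ha, ea⟩ := hg z
  obtain ⟨t, ht, b, hb, eb⟩ := hh z
  have h1 : s ⊆ s ∪ t := Finset.subset_union_left
  have h2 : t ⊆ s ∪ t := Finset.subset_union_right
  refine ⟨s ∪ t, ?_, fun x => F (a (rst h1 x), b (rst h2 x)), ?_, ?_⟩
  · intro f hf
    rcases Finset.mem_union.1 hf with h | h
    exacts [hs f h, ht f h]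
  · exact hF.comp ((ha.comp (rst h1).contDiff).prodMk (hb.comp (rst h2).contDiff))
  · filter_upwards [ea, eb] with z' e1 e2
    rw [e1, e2, L.rst_trop, L.rst_trop]

theorem smooth_mul {g h : X → ℝ} (hg : L.Smooth g) (hh : L.Smooth h) :
    L.Smooth (fun z => g z * h z) :=
  smooth_op2 (F := fun p : ℝ × ℝ => p.1 * p.2) (contDiff_fst.mul contDiff_snd) hg hh

theorem smooth_sub {g h : X → ℝ} (hg : L.Smooth g) (hh : L.Smooth h) :
    L.Smooth (fun z => g z - h z) :=
  smooth_op2 (F := fun p : ℝ × ℝ => p.1 - p.2) (contDiff_fst.sub contDiff_snd) hg hh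

theorem smooth_prod {ι : Type} (s : Finset ι) (g : ι → X → ℝ) (hg : ∀ i ∈ s, L.Smooth (g i)) :
    L.Smooth (fun z => ∏ i ∈ s, g i z) := by
  classical
  induction s using Finset.induction_on with
  | empty => simpa using smooth_const (L := L) 1
  | insert i s hi ih =>
    have e : (fun z => ∏ j ∈ insert i s, g j z) = fun z => g i z * ∏ j ∈ s, g j z := by
      funext z
      rw [Finset.prod_insert hi]
    rw [e]
    exact smooth_mul (hg i (Finset.mem_insert_self i s))
      (ih fun j hj => hg j (Finset.mem_insert_of_mem hj))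

end gen

section ber

variable {K A : Type} [NormedField K] [CommRing A] [Algebra K A]

/-- functions of `log |a|` which are constant where `|a|` is small -/
theorem smooth_log (a : A) (hc : Continuous fun z : Ber K A => z.v a) {β : ℝ → ℝ}
    (hβ : ContDiff ℝ ∞ β) {κ m : ℝ} (hm : ∀ s ≤ m, β s = κ) :
    (berLS K A).Smooth (fun z => if z.v a = 0 then κ else β (Real.log (z.v a))) := by
  intro y
  by_cases hy : y.v a = 0
  · refine ⟨∅, by simp, fun _ => κ, contDiff_const, ?_⟩
    have h1 : ∀ᶠ z' : Ber K A in 𝓝 y, z'.v a < Real.exp m := by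
      have h2 := hc.continuousAt (x := y)
      refine h2.eventually_lt_const ?_
      show y.v a < Real.exp m
      rw [hy]
      exact Real.exp_pos m
    filter_upwards [h1] with z' hz'
    by_cases h0 : z'.v a = 0
    · rw [if_pos h0]
    · rw [if_neg h0]
      have hpos : 0 < z'.v a := lt_of_le_of_ne (z'.nonneg a) (Ne.symm h0)
      refine hm _ ?_
      rw [← Real.log_exp m]
      exact Real.log_le_log hpos hz'.le
  · refine ⟨{a}, ?_, fun x => β (x ⟨a, Finset.mem_singleton_self a⟩), ?_, ?_⟩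
    · intro f hf
      rw [Finset.mem_singleton.1 hf]
      exact hy
    · exact hβ.comp (contDiff_apply ℝ ℝ _)
    · have h1 : ∀ᶠ z' : Ber K A in 𝓝 y, z'.v a ≠ 0 := by
        have h2 := hc.continuousAt (x := y)
        exact h2.eventually_ne hy
      filter_upwards [h1] with z' hz'
      rw [if_neg hz']
      rfl

/-- the cut-off function at a point -/
theorem exists_local (hT : ∀ a : A, Continuous fun z : Ber K A => z.v a) (z : Ber K A)
    (t : Finset A) {η : ℝ} (hη : 0 < η) :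
    ∃ g : Ber K A → ℝ, (berLS K A).Smooth g ∧ (∀ᶠ z' in 𝓝 z, g z' = 1) ∧
      ∀ z', z' ∉ box z t η η → g z' = 0 := by
  classical
  -- the factors
  have hfac : ∀ a : A, ∃ f : Ber K A → ℝ, (berLS K A).Smooth f ∧ (∀ᶠ z' in 𝓝 z, f z' = 1) ∧
      ∀ z', ¬ ((z.v a ≠ 0 → z'.v a ≠ 0 ∧ |Real.log (z'.v a) - Real.log (z.v a)| ≤ η) ∧
        (z.v a = 0 → z'.v a ≤ η)) → f z' = 0 := by
    intro a
    by_cases ha : z.v a = 0
    · set β : ℝ → ℝ := fun s => Real.smoothTransition (Real.log η - s) with hβdef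
      have hβ : ContDiff ℝ ∞ β := Real.smoothTransition.contDiff.comp (contDiff_const.sub contDiff_id)
      have h1 : ∀ s ≤ Real.log η - 1, β s = 1 := fun s hs =>
        Real.smoothTransition.one_of_one_le (by linarith)
      refine ⟨_, smooth_log a (hT a) hβ h1, ?_, ?_⟩
      · have h2 : ∀ᶠ z' : Ber K A in 𝓝 z, z'.v a < Real.exp (Real.log η - 1) := by
          refine (hT a).continuousAt.eventually_lt_const ?_
          show z.v a < _
          rw [ha]
          exact Real.exp_pos _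
        filter_upwards [h2] with z' hz'
        by_cases h0 : z'.v a = 0
        · rw [if_pos h0]
        · rw [if_neg h0]
          have hpos : 0 < z'.v a := lt_of_le_of_ne (z'.nonneg a) (Ne.symm h0)
          refine h1 _ ?_
          rw [← Real.log_exp (Real.log η - 1)]
          exact Real.log_le_log hpos hz'.le
      · intro z' hz'
        have h3 : η < z'.v a := by
          by_contra hcon
          exact hz' ⟨fun h => absurd ha h, fun _ => not_lt.1 hcon⟩
        have hpos : 0 < z'.v a := hη.trans h3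
        show (if z'.v a = 0 then (1 : ℝ) else β (Real.log (z'.v a))) = 0
        rw [if_neg hpos.ne']
        refine Real.smoothTransition.zero_of_nonpos ?_
        have := Real.log_le_log hη h3.le
        linarith
    · set c := Real.log (z.v a) with hcdef
      have hη2 : 0 < η / 2 := by positivity
      have hη3 : η / 2 < η := by linarith
      set b : ContDiffBump c := ⟨η / 2, η, hη2, hη3⟩ with hbdef
      have hβ : ContDiff ℝ ∞ (fun s => b s) := b.contDiff
      have h1 : ∀ s ≤ c - η, b s = 0 := fun s hs => by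
        refine b.zero_of_le_dist ?_
        show η ≤ dist s c
        rw [Real.dist_eq, abs_sub_comm]
        exact le_trans (by linarith) (le_abs_self _)
      refine ⟨_, smooth_log a (hT a) hβ h1, ?_, ?_⟩
      · have h2 : ∀ᶠ z' : Ber K A in 𝓝 z, z'.v a ≠ 0 := (hT a).continuousAt.eventually_ne ha
        have h3 : ∀ᶠ z' : Ber K A in 𝓝 z, Real.log (z'.v a) ∈ Metric.closedBall c (η / 2) := by
          have h4 : ContinuousAt (fun z' : Ber K A => Real.log (z'.v a)) z :=
            (hT a).continuousAt.log ha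
          exact h4.eventually_mem (Metric.closedBall_mem_nhds c hη2)
        filter_upwards [h2, h3] with z' h5 h6
        rw [if_neg h5]
        exact b.one_of_mem_closedBall h6
      · intro z' hz'
        show (if z'.v a = 0 then (0 : ℝ) else b (Real.log (z'.v a))) = 0
        by_cases h0 : z'.v a = 0
        · rw [if_pos h0]
        · rw [if_neg h0]
          refine b.zero_of_le_dist ?_
          show η ≤ dist (Real.log (z'.v a)) c
          rw [Real.dist_eq]
          by_contra hcon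
          exact hz' ⟨fun _ => ⟨h0, (not_le.1 hcon).le⟩, fun h => absurd h ha⟩
  choose f hf1 hf2 hf3 using hfac
  refine ⟨fun z' => ∏ a ∈ t, f a z', smooth_prod t f fun a _ => hf1 a, ?_, ?_⟩
  · have h1 : ∀ᶠ z' in 𝓝 z, ∀ a ∈ t, f a z' = 1 := by
      rw [Filter.eventually_all_finset]
      exact fun a _ => hf2 a
    filter_upwards [h1] with z' hz'
    exact Finset.prod_eq_one hz'
  · intro z' hz'
    unfold box at hz'
    rw [Set.mem_ofPred_eq] at hz'
    push Not at hz'
    obtain ⟨a, hat, ha⟩ := hz'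
    refine Finset.prod_eq_zero hat (hf3 a z' ?_)
    intro hcon
    have h2 := ha hcon.1
    exact absurd (hcon.2 h2.1) (not_le.2 h2.2)

end ber

end CUT

open CUT in
/-- CUT: cut-off functions. -/
theorem CUT_thm (h1 : TOP_Stmt) (h2 : NHD_Stmt) : CUT_Stmt := by
  classical
  intro K A _ _ _ _ _
  obtain ⟨hT2, hT, -, -⟩ := h1 K A
  intro S V hS hV hSV
  have hloc : ∀ z : Ber K A, z ∈ S → ∃ g : Ber K A → ℝ, (berLS K A).Smooth g ∧
      (∀ᶠ z' in 𝓝 z, g z' = 1) ∧ ∃ C, IsClosed C ∧ C ⊆ V ∧ ∀ z', z' ∉ C → g z' = 0 := by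
    intro z hz
    obtain ⟨t, -, -, η, hη, hbox⟩ := h2 K A z ∅ V (hV.mem_nhds (hSV hz))
    obtain ⟨b1, -, b3⟩ := hbox η η hη le_rfl hη le_rfl
    obtain ⟨g, g1, g2, g3⟩ := exists_local hT z t hη
    exact ⟨g, g1, g2, box z t η η, b3.isClosed, b1, g3⟩
  choose! g g1 g2 C c1 c2 c3 using hloc
  obtain ⟨s, hs, hcov⟩ := hS.elim_nhds_subcover (fun z => interior {z' | g z z' = 1})
    fun z hz => interior_mem_nhds.2 (g2 z hz)
  refine ⟨fun z' => 1 - ∏ z ∈ s, (1 - g z z'),
    smooth_sub (smooth_const 1) (smooth_prod s _ fun z hz =>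
      smooth_sub (smooth_const 1) (g1 z (hs z hz))), ?_,
    ⋃ z ∈ s, C z, ?_, ?_, ?_⟩
  · have hopen : IsOpen (⋃ z ∈ s, interior {z' | g z z' = 1}) :=
      isOpen_biUnion fun z _ => isOpen_interior
    filter_upwards [hopen.mem_nhdsSet.2 hcov] with y hy
    obtain ⟨z, hz, hyz⟩ := Set.mem_iUnion₂.1 hy
    have h5 : y ∈ {z' | g z z' = 1} := interior_subset hyz
    have h3 : g z y = 1 := h5
    have h4 : ∏ z ∈ s, (1 - g z y) = 0 := Finset.prod_eq_zero hz (by rw [h3, sub_self])
    rw [h4, sub_zero]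
  · exact isClosed_biUnion_finset fun z hz => c1 z (hs z hz)
  · exact Set.iUnion₂_subset fun z hz => c2 z (hs z hz)
  · intro z' hz'
    have h3 : ∏ z ∈ s, (1 - g z z') = 1 := by
      refine Finset.prod_eq_one fun z hz => ?_
      rw [c3 z (hs z hz) z' fun hc => hz' (Set.mem_biUnion hz hc), sub_zero]
    show 1 - ∏ z ∈ s, (1 - g z z') = 0
    rw [h3, sub_self]

end Pool.Agent.TD.BG


end

section

/-! # Statement layer: comparison with the global sections of the sheaves of forms -/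

open scoped ContDiff Topology

namespace Pool.Agent.TD

namespace LogSpace

variable {X Φ : Type} [TopologicalSpace X] (L : LogSpace X Φ) {p q : ℕ} {z : X}

/-- The section defined by a form. -/
noncomputable def sec (c : X → Raw Φ p q) (hc : L.IsForm c) : L.G p q :=
  ⟨fun z => L.germ (c z) (hc.1 z), fun z => ⟨c z, ((hc.2 z).and (SFat.nhds L (hc.1 z))).mono
    fun _ h => ⟨h.2, (L.germ_eq_iff _ _).2 h.1⟩⟩⟩

theorem sec_val (c : X → Raw Φ p q) (hc : L.IsForm c) (z : X) :
    (L.sec c hc).1 z = L.germ (c z) (hc.1 z) := rfl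

theorem exists_sec (g : L.G p q) : ∃ c, ∃ hc : L.IsForm c, L.sec c hc = g := by
  choose c hc e using fun z => L.exists_germ (g.1 z)
  refine ⟨c, ⟨hc, fun z => ?_⟩, ?_⟩
  · obtain ⟨θ, hθ⟩ := g.2 z
    obtain ⟨h0, e0⟩ := hθ.self_of_nhds
    have h1 : L.Van z (c z - θ) := (L.germ_eq_iff (hc z) h0).1 ((e z).trans e0)
    filter_upwards [hθ, Van.nhds L h1, SFat.nhds L (hc z)] with z' h2 h3 h4
    obtain ⟨h5, e5⟩ := h2
    have h6 : L.germ (c z') (hc z') = L.germ (c z) h4 := by
      rw [e z', e5]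
      exact ((L.germ_eq_iff h4 h5).2 h3).symm
    exact (L.germ_eq_iff _ _).1 h6
  · apply Subtype.ext
    funext z
    exact e z

theorem IsForm.near {c : X → Raw Φ p q} (hc : L.IsForm c) (z : X) :
    ∀ᶠ z' in 𝓝 z, ∃ h : L.SFat z' (c z), L.germ (c z') (hc.1 z') = L.germ (c z) h :=
  ((hc.2 z).and (SFat.nhds L (hc.1 z))).mono fun _ h => ⟨h.2, (L.germ_eq_iff _ _).2 h.1⟩

theorem IsForm.sub {c c' : X → Raw Φ p q} (h : L.IsForm c) (h' : L.IsForm c') :
    L.IsForm (c - c') := by
  refine ⟨fun z => SFat.sub (h.1 z) (h'.1 z), fun z => ?_⟩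
  filter_upwards [h.near L z, h'.near L z] with z' h1 h2
  obtain ⟨k1, e1⟩ := h1
  obtain ⟨k2, e2⟩ := h2
  refine (L.germ_eq_iff (SFat.sub (h.1 z') (h'.1 z')) (SFat.sub k1 k2)).1 ?_
  rw [L.germ_sub (h.1 z') (h'.1 z'), L.germ_sub k1 k2, e1, e2]

theorem sec_sub {c c' : X → Raw Φ p q} (h : L.IsForm c) (h' : L.IsForm c') :
    L.sec (c - c') (IsForm.sub L h h') = L.sec c h - L.sec c' h' := by
  apply Subtype.ext
  funext z
  exact L.germ_sub (h.1 z) (h'.1 z)

theorem IsForm.dd {c : X → Raw Φ p q} (h : L.IsForm c) : L.IsForm (fun z => TD.dd (c z)) := by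
  refine ⟨fun z => SFat.dd L (h.1 z), fun z => ?_⟩
  filter_upwards [h.near L z] with z' h1
  obtain ⟨k1, e1⟩ := h1
  refine (L.germ_eq_iff (SFat.dd L (h.1 z')) (SFat.dd L k1)).1 ?_
  rw [← L.ddS_germ (h.1 z'), ← L.ddS_germ k1, e1]

theorem sec_dd {c : X → Raw Φ p q} (h : L.IsForm c) :
    L.sec (fun z => TD.dd (c z)) (IsForm.dd L h) = L.ddG p q (L.sec c h) := rfl

theorem sec_eq_zero {c : X → Raw Φ p q} (h : L.IsForm c) :
    L.sec c h = 0 ↔ ∀ z, L.Van z (c z) := by
  constructor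
  · intro e z
    have h1 : (L.sec c h).1 z = 0 := by rw [e]; rfl
    exact (L.germ_eq_zero (h.1 z)).1 h1
  · intro e
    apply Subtype.ext
    funext z
    exact (L.germ_eq_zero (h.1 z)).2 (e z)

theorem sec_eq {c c' : X → Raw Φ p q} (h : L.IsForm c) (h' : L.IsForm c') :
    L.sec c h = L.sec c' h' ↔ ∀ z, L.Van z (c z - c' z) := by
  rw [← sub_eq_zero, ← L.sec_sub h h', L.sec_eq_zero]
  rfl

theorem closed_iff {c : X → Raw Φ p q} (hc : L.IsForm c) :
    L.Closed c ↔ L.sec c hc ∈ L.Zf p q := by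
  have h1 : L.sec c hc ∈ L.Zf p q ↔ L.ddG p q (L.sec c hc) = 0 := Iff.rfl
  rw [h1, ← L.sec_dd hc, L.sec_eq_zero]
  exact ⟨fun h => h.2, fun h => ⟨hc, h⟩⟩

theorem exact_iff {c : X → Raw Φ p q} (hc : L.IsForm c) :
    L.Exact c ↔ L.sec c hc ∈ L.Bf p q := by
  rcases q with _ | q
  · exact (L.sec_eq_zero hc).symm
  · constructor
    · rintro ⟨e, he, h⟩
      exact ⟨L.sec e he, ((L.sec_eq hc (IsForm.dd L he)).2 h).symm⟩
    · rintro ⟨g, hg⟩
      obtain ⟨e, he, rfl⟩ := L.exists_sec g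
      exact ⟨e, he, (L.sec_eq hc (IsForm.dd L he)).1 hg.symm⟩

theorem cpt_iff {c : X → Raw Φ p q} (hc : L.IsForm c) : L.Cpt c ↔ L.sec c hc ∈ L.Gc p q := by
  constructor
  · rintro ⟨C, hC, h⟩
    exact ⟨C, hC, fun z hz => (L.germ_eq_zero (hc.1 z)).2 (h z hz)⟩
  · rintro ⟨C, hC, h⟩
    exact ⟨C, hC, fun z hz => (L.germ_eq_zero (hc.1 z)).1 (h z hz)⟩

theorem exactC_iff {c : X → Raw Φ p q} (hc : L.IsForm c) :
    L.ExactC c ↔ L.sec c hc ∈ L.Bc p q := by
  rcases q with _ | q
  · exact (L.sec_eq_zero hc).symm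
  · constructor
    · rintro ⟨e, he, hec, h⟩
      exact ⟨L.sec e he, (L.cpt_iff he).1 hec, ((L.sec_eq hc (IsForm.dd L he)).2 h).symm⟩
    · rintro ⟨g, hgc, hg⟩
      obtain ⟨e, he, rfl⟩ := L.exists_sec g
      exact ⟨e, he, (L.cpt_iff he).2 hgc, (L.sec_eq hc (IsForm.dd L he)).1 hg.symm⟩

end LogSpace

section iso

variable {X Φ X' Φ' : Type} [TopologicalSpace X] [TopologicalSpace X'] {L : LogSpace X Φ}
  {L' : LogSpace X' Φ'} (m : Mor L L') {p q : ℕ} (pb : (X' → Raw Φ' p q) → X → Raw Φ p q)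

/-- `pb a` represents the pull back of `a` along `m`. -/
def Reps : Prop := ∀ a, L'.IsForm a → ∀ z, L.Van z (pb a z - pullR m.ix (a (m.toFun z)))

variable {m pb}

theorem Reps.isForm (h : Reps m pb) {a : X' → Raw Φ' p q} (ha : L'.IsForm a) :
    L.IsForm (pb a) := by
  have h1 : ∀ z, L.SFat z (pb a z) := by
    intro z
    have e : pb a z = (pb a z - pullR m.ix (a (m.toFun z))) + pullR m.ix (a (m.toFun z)) :=
      (sub_add_cancel _ _).symm
    rw [e]
    exact (LogSpace.Van.sfat L (h a ha z)).add (m.sfat (ha.1 _))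
  refine ⟨h1, fun z => ?_⟩
  have h2 := m.cont.continuousAt.eventually (ha.near L' (m.toFun z))
  filter_upwards [h2, LogSpace.Van.nhds L (h a ha z), LogSpace.SFat.nhds L (h1 z)] with z' k1 k2 k3
  obtain ⟨k4, e4⟩ := k1
  refine (L.germ_eq_iff (h1 z') k3).1 ?_
  rw [(L.germ_eq_iff (h1 z') (m.sfat (ha.1 _))).2 (h a ha z'),
    (L.germ_eq_iff k3 (m.sfat k4)).2 k2]
  have := congrArg (m.pullS p q z') e4
  rwa [m.pullS_germ, m.pullS_germ] at this

theorem Reps.sec (h : Reps m pb) {a : X' → Raw Φ' p q} (ha : L'.IsForm a) :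
    L.sec (pb a) (h.isForm ha) = m.pullG p q (L'.sec a ha) := by
  apply Subtype.ext
  funext z
  rw [LogSpace.sec_val, Mor.pullG_val, LogSpace.sec_val, m.pullS_germ]
  exact (L.germ_eq_iff _ _).2 (h a ha z)

theorem isoH_of (h : Reps m pb)
    (h1 : ∀ c ∈ L.Zf p q, ∃ a ∈ L'.Zf p q, c - m.pullG p q a ∈ L.Bf p q)
    (h2 : ∀ a ∈ L'.Zf p q, m.pullG p q a ∈ L.Bf p q → a ∈ L'.Bf p q) : IsoH L' L pb where
  closed a ha := by
    rw [L.closed_iff (h.isForm ha.1), h.sec ha.1]
    exact m.pullG_Z ((L'.closed_iff ha.1).1 ha)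
  exact_iff a ha := by
    rw [L.exact_iff (h.isForm ha.1), L'.exact_iff ha.1, h.sec ha.1]
    exact ⟨h2 _ ((L'.closed_iff ha.1).1 ha), fun k => m.pullG_B k⟩
  surj c hc := by
    obtain ⟨g, hg, hb⟩ := h1 (L.sec c hc.1) ((L.closed_iff hc.1).1 hc)
    obtain ⟨a, ha, rfl⟩ := L'.exists_sec g
    refine ⟨a, (L'.closed_iff ha).2 hg, ?_⟩
    rw [L.exact_iff (LogSpace.IsForm.sub L hc.1 (h.isForm ha)), L.sec_sub hc.1 (h.isForm ha),
      h.sec ha]
    exact hb

theorem isoHc_of (h : Reps m pb) (hm : m.IsProp)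
    (h1 : ∀ c ∈ L.Zc p q, ∃ a ∈ L'.Zc p q, c - m.pullG p q a ∈ L.Bc p q)
    (h2 : ∀ a ∈ L'.Zc p q, m.pullG p q a ∈ L.Bc p q → a ∈ L'.Bc p q) : IsoHc L' L pb where
  closed a ha hac := by
    rw [L.closed_iff (h.isForm ha.1), L.cpt_iff (h.isForm ha.1), h.sec ha.1]
    exact ⟨m.pullG_Z ((L'.closed_iff ha.1).1 ha), Mor.pullG_Gc hm ((L'.cpt_iff ha.1).1 hac)⟩
  exact_iff a ha hac := by
    rw [L.exactC_iff (h.isForm ha.1), L'.exactC_iff ha.1, h.sec ha.1]
    exact ⟨h2 _ ⟨(L'.closed_iff ha.1).1 ha, (L'.cpt_iff ha.1).1 hac⟩, fun k => Mor.pullG_Bc hm k⟩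
  surj c hc hcc := by
    obtain ⟨g, hg, hb⟩ := h1 (L.sec c hc.1)
      ⟨(L.closed_iff hc.1).1 hc, (L.cpt_iff hc.1).1 hcc⟩
    obtain ⟨a, ha, rfl⟩ := L'.exists_sec g
    refine ⟨a, (L'.closed_iff ha).2 hg.1, (L'.cpt_iff ha).2 hg.2, ?_⟩
    rw [L.exactC_iff (LogSpace.IsForm.sub L hc.1 (h.isForm ha)), L.sec_sub hc.1 (h.isForm ha),
      h.sec ha]
    exact hb

end iso

end Pool.Agent.TD


end

section

/-!
# CNT: the number of leading monomials of a graded subspace does not depend on the order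
-/

open scoped ContDiff Topology NNReal

namespace Pool.Agent.TD.BG

namespace CNT

variable {K E : Type} [NormedField K] [IsUltrametricDist K] {wt : E → ℝ≥0}

/-- position of a monomial for the order `r` -/
noncomputable def pos (M : Finset E) (r : E → E → Prop) (u : E) : ℕ :=
  Set.ncard {m | m ∈ M ∧ r m u}

theorem pos_lt (M : Finset E) (r : E → E → Prop) [IsStrictTotalOrder E r] {u u' : E}
    (hu' : u' ∈ M) (h : r u' u) : pos M r u' < pos M r u := by
  refine Set.ncard_lt_ncard ?_ (M.finite_toSet.subset fun m hm => hm.1)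
  rw [Set.ssubset_iff_of_subset]
  · exact ⟨u', ⟨hu', h⟩, fun hh => irrefl_of r u' hh.2⟩
  · exact fun m hm => ⟨hm.1, trans_of r hm.2 h⟩

theorem approx (hwt : ∀ u, 0 < wt u) {M : Finset E} {W : Set (E →₀ K)}
    (hW : GSub wt (M : Set E) W) (r : E → E → Prop) [IsStrictTotalOrder E r]
    [Fintype {u | ∃ F ∈ W, IsLM wt r F u}]
    (B : {u | ∃ F ∈ W, IsLM wt r F u} → (E →₀ K)) (hB : ∀ μ, B μ ∈ W ∧ IsLM wt r (B μ) μ.1) :
    ∀ n : ℕ, ∀ F ∈ W, ∀ u, IsLM wt r F u → pos M r u = n →
      ∃ c : {u | ∃ F ∈ W, IsLM wt r F u} → K, nrm wt (F - ∑ μ, c μ • B μ) < nrm wt F := by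
  classical
  intro n
  induction n using Nat.strong_induction_on with
  | _ n ih =>
    intro F hF u hu hn
    have hFpos : 0 < nrm wt F := nrm_pos hwt (hW.ne F hF)
    set μ0 : {u | ∃ F ∈ W, IsLM wt r F u} := ⟨u, F, hF, hu⟩ with hμ0
    obtain ⟨hBW, hBu⟩ := hB μ0
    have hBu' : IsLM wt r (B μ0) u := hBu
    set c : K := F u / (B μ0) u with hc
    have hc0 : c ≠ 0 := div_ne_zero hu.1 hBu'.1
    have hcB : nrm wt (c • B μ0) = nrm wt F := by
      rw [nrm_smul, hBu'.nrm_eq, hu.nrm_eq, ← mul_assoc, ← nnnorm_mul, hc,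
        div_mul_cancel₀ _ hBu'.1]
    have hle : nrm wt (F - c • B μ0) ≤ nrm wt F := by
      refine (nrm_sub_le _ _).trans ?_
      rw [hcB, max_self]
    have hsingle : ∀ c' : K, ∑ μ, (Pi.single μ0 c' : {u | ∃ F ∈ W, IsLM wt r F u} → K) μ • B μ
        = c' • B μ0 := by
      intro c'
      rw [Finset.sum_eq_single μ0]
      · rw [Pi.single_eq_same]
      · intro μ _ hne
        rw [Pi.single_eq_of_ne hne, zero_smul]
      · intro h; exact absurd (Finset.mem_univ _) h
    rcases hle.lt_or_eq with hlt | heq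
    · exact ⟨Pi.single μ0 c, by rw [hsingle]; exact hlt⟩
    · have hF'W : F - c • B μ0 ∈ W := by
        have h1 := hW.add F hF ((-c) • B μ0) (hW.smul _ (neg_ne_zero.mpr hc0) _ hBW)
        rw [neg_smul, nrm_neg, hcB, ← sub_eq_add_neg] at h1
        exact h1 rfl heq
      obtain ⟨u', hu'⟩ := exists_isLM hwt r (hW.ne _ hF'W)
      have hF'u : (F - c • B μ0) u = 0 := by
        rw [Finsupp.sub_apply, Finsupp.smul_apply, smul_eq_mul, hc, div_mul_cancel₀ _ hBu'.1,
          sub_self]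
      have hne : u' ≠ u := by
        rintro rfl
        exact hu'.1 hF'u
      have hr : r u' u := by
        rcases trichotomous_of r u' u with h1 | h1 | h1
        · exact h1
        · exact absurd h1 hne
        · exfalso
          have h2 : ‖F u'‖₊ * wt u' < nrm wt F := by
            rw [hu.nrm_eq]; exact (hu.2 u' hne).2 h1
          have h3 : ‖(c • B μ0) u'‖₊ * wt u' < nrm wt F := by
            rw [← hcB, nrm_smul, hBu'.nrm_eq, Finsupp.smul_apply, smul_eq_mul, nnnorm_mul,
              mul_assoc]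
            exact (mul_lt_mul_iff_right₀ (by simpa using hc0)).2 ((hBu'.2 u' hne).2 h1)
          have h4 : ‖(F - c • B μ0) u'‖₊ ≤ max ‖F u'‖₊ ‖(c • B μ0) u'‖₊ := by
            rw [Finsupp.sub_apply, sub_eq_add_neg, ← nnnorm_neg ((c • B μ0) u')]
            exact IsUltrametricDist.nnnorm_add_le_max _ _
          have h5 : nrm wt (F - c • B μ0) < nrm wt F := by
            rw [hu'.nrm_eq]
            calc ‖(F - c • B μ0) u'‖₊ * wt u'
                ≤ max (‖F u'‖₊ * wt u') (‖(c • B μ0) u'‖₊ * wt u') := by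
                  rw [← max_mul]; exact mul_le_mul_left h4 _
              _ < nrm wt F := max_lt h2 h3
          rw [heq] at h5
          exact lt_irrefl _ h5
      have hu'M : u' ∈ M := hW.mon _ hF'W u' hu'.1
      obtain ⟨c', hc'⟩ := ih (pos M r u') (by rw [← hn]; exact pos_lt M r hu'M hr) _ hF'W u' hu' rfl
      refine ⟨c' + Pi.single μ0 c, ?_⟩
      have h6 : F - ∑ μ, (c' + Pi.single μ0 c : {u | ∃ F ∈ W, IsLM wt r F u} → K) μ • B μ
          = (F - c • B μ0) - ∑ μ, c' μ • B μ := by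
        simp only [Pi.add_apply, add_smul, Finset.sum_add_distrib]
        rw [hsingle]; abel
      rw [h6, ← heq]
      exact hc'

theorem finite_LM {M : Finset E} {W : Set (E →₀ K)}
    (hW : GSub wt (M : Set E) W) (r : E → E → Prop) : {u | ∃ F ∈ W, IsLM wt r F u}.Finite := by
  refine M.finite_toSet.subset ?_
  rintro u ⟨F, hF, hu⟩
  exact hW.mon F hF u hu.1

theorem card_le (h1 : ORT_Stmt) (hwt : ∀ u, 0 < wt u) {M : Finset E} {W : Set (E →₀ K)}
    (hW : GSub wt (M : Set E) W) (r r' : E → E → Prop) [IsStrictTotalOrder E r]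
    [IsStrictTotalOrder E r'] :
    Set.ncard {u | ∃ F ∈ W, IsLM wt r' F u} ≤ Set.ncard {u | ∃ F ∈ W, IsLM wt r F u} := by
  classical
  haveI : Fintype {u | ∃ F ∈ W, IsLM wt r F u} := (finite_LM hW r).fintype
  haveI : Fintype {u | ∃ F ∈ W, IsLM wt r' F u} := (finite_LM hW r').fintype
  by_contra hlt
  push Not at hlt
  rw [Set.ncard_eq_toFinset_card', Set.ncard_eq_toFinset_card', Set.toFinset_card,
    Set.toFinset_card] at hlt
  choose B hB using fun μ : {u | ∃ F ∈ W, IsLM wt r F u} => μ.2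
  choose G hG using fun μ : {u | ∃ F ∈ W, IsLM wt r' F u} => μ.2
  have happ : ∀ j, ∃ c : {u | ∃ F ∈ W, IsLM wt r F u} → K,
      nrm wt (G j - ∑ μ, c μ • B μ) < nrm wt (G j) := by
    intro j
    obtain ⟨u, hu⟩ := exists_isLM hwt r (hW.ne _ (hG j).1)
    exact approx hwt hW r B hB _ (G j) (hG j).1 u hu rfl
  choose c hc using happ
  let f : ({u | ∃ F ∈ W, IsLM wt r' F u} → K) →ₗ[K] ({u | ∃ F ∈ W, IsLM wt r F u} → K) :=
    { toFun := fun d μ => ∑ j, d j * c j μ
      map_add' := by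
        intro d d'
        funext μ
        simp only [Pi.add_apply, add_mul, Finset.sum_add_distrib]
      map_smul' := by
        intro a d
        funext μ
        simp only [Pi.smul_apply, smul_eq_mul, RingHom.id_apply, Finset.mul_sum, mul_assoc] }
  have hker : LinearMap.ker f ≠ ⊥ := by
    apply LinearMap.ker_ne_bot_of_finrank_lt
    rw [Module.finrank_fintype_fun_eq_card, Module.finrank_fintype_fun_eq_card]
    exact hlt
  obtain ⟨d, hd, hd0⟩ := (Submodule.ne_bot_iff _).mp hker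
  have hfd : ∀ μ, ∑ j, d j * c j μ = 0 := fun μ => congrFun (LinearMap.mem_ker.mp hd) μ
  have hort := h1 K E wt hwt r' _ G (fun j => j.1) Subtype.val_injective (fun j => (hG j).2) d
  obtain ⟨j0, hj0⟩ : ∃ j, d j ≠ 0 := by
    by_contra hcon
    push Not at hcon
    exact hd0 (funext hcon)
  have hpos : 0 < Finset.univ.sup fun j => ‖d j‖₊ * nrm wt (G j) := by
    refine lt_of_lt_of_le ?_ (Finset.le_sup (f := fun j => ‖d j‖₊ * nrm wt (G j))
      (Finset.mem_univ j0))
    exact mul_pos (by simpa using hj0) (nrm_pos hwt (hW.ne _ (hG j0).1))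
  have hsum : ∑ j, d j • G j = ∑ j, d j • (G j - ∑ μ, c j μ • B μ) := by
    have h2 : ∑ j, d j • ∑ μ, c j μ • B μ = 0 := by
      have h3 : ∀ j, d j • ∑ μ, c j μ • B μ = ∑ μ, (d j * c j μ) • B μ := by
        intro j
        rw [Finset.smul_sum]
        refine Finset.sum_congr rfl fun μ _ => ?_
        rw [smul_smul]
      rw [Finset.sum_congr rfl fun j _ => h3 j, Finset.sum_comm]
      refine Finset.sum_eq_zero fun μ _ => ?_
      rw [← Finset.sum_smul, hfd μ, zero_smul]
    simp only [smul_sub, Finset.sum_sub_distrib]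
    rw [h2, sub_zero]
  have hfin : nrm wt (∑ j, d j • G j) < Finset.univ.sup fun j => ‖d j‖₊ * nrm wt (G j) := by
    rw [hsum]
    refine (nrm_sum_le _ _).trans_lt ?_
    rw [Finset.sup_lt_iff hpos]
    intro j _
    rw [nrm_smul]
    by_cases hdj : d j = 0
    · rw [hdj, nnnorm_zero, zero_mul]; exact hpos
    · refine lt_of_lt_of_le ?_ (Finset.le_sup (f := fun j => ‖d j‖₊ * nrm wt (G j))
        (Finset.mem_univ j))
      exact (mul_lt_mul_iff_right₀ (by simpa using hdj)).2 (hc j)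
  rw [hort] at hfin
  exact lt_irrefl _ hfin

end CNT

theorem CNT_thm (h1 : ORT_Stmt) : CNT_Stmt := by
  intro K E _ _ wt hwt M W hW r r' _ _
  exact le_antisymm (CNT.card_le h1 hwt hW r' r) (CNT.card_le h1 hwt hW r r')

end Pool.Agent.TD.BG


end

section

/-!
# UNI: a uniform exponent for the initial forms
-/

open scoped ContDiff Topology NNReal

namespace Pool.Agent.TD.BG

namespace UNI

variable {K : Type} [NormedField K] {n : ℕ}

theorem sh_single (a b : Fin n → ℕ) :
    sh a (Finsupp.single b (1 : K)) = Finsupp.single (b + a) 1 := Finsupp.mapDomain_single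

theorem nrm_single (w : Fin n → ℝ) (b : Fin n → ℕ) :
    nrm (wtN w) (Finsupp.single b (1 : K)) = wtN w b := by
  unfold nrm
  rw [Finsupp.support_single_ne_zero b one_ne_zero, Finset.sup_singleton, Finsupp.single_eq_same,
    nnnorm_one, one_mul]

theorem hom_single (b : Fin n → ℕ) : Hom (deg b) (Finsupp.single b (1 : K)) := by
  intro u hu
  by_contra hne
  have h1 : u ≠ b := fun h => hne (by rw [h])
  exact hu (Finsupp.single_eq_of_ne h1)

theorem single_ne (b : Fin n → ℕ) : (Finsupp.single b (1 : K) : (Fin n → ℕ) →₀ K) ≠ 0 := by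
  intro h
  have h1 := Finsupp.ext_iff.1 h b
  rw [Finsupp.single_eq_same] at h1
  exact one_ne_zero h1

/-- the subspace of the elements of `J` which are homogeneous of degree `d` -/
def homJ (J : Submodule K ((Fin n → ℕ) →₀ K)) (d : ℕ) : Submodule K ((Fin n → ℕ) →₀ K) where
  carrier := {G | G ∈ J ∧ Hom d G}
  zero_mem' := ⟨J.zero_mem, fun u hu => absurd rfl hu⟩
  add_mem' := by
    rintro G G' ⟨hG, hGh⟩ ⟨hG', hGh'⟩
    refine ⟨J.add_mem hG hG', fun u hu => ?_⟩
    by_contra hne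
    have a1 : G u = 0 := by by_contra h; exact hne (hGh u h)
    have a2 : G' u = 0 := by by_contra h; exact hne (hGh' u h)
    exact hu (by simp [a1, a2])
  smul_mem' := by
    rintro c G ⟨hG, hGh⟩
    exact ⟨J.smul_mem c hG, fun u hu => hGh u fun h => hu (by simp [h])⟩

theorem count_eq [IsUltrametricDist K] (h2 : DIM_Stmt) (J : Submodule K ((Fin n → ℕ) →₀ K))
    (w : Fin n → ℝ) (i : Fin n) (d : ℕ) :
    Set.ncard (LMs w (InJ w J) i d) = Module.finrank K (homJ J d) := by
  have h := h2 K (Fin n → ℕ) (wtN w) (wtN_pos w) (finite_deg n d).toFinset (homJ J d)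
    (fun F hF u hu => by
      rw [Set.Finite.mem_toFinset]
      exact hF.2 u hu) (ord i)
  rw [← h]
  congr 1
  ext u
  constructor
  · rintro ⟨F, ⟨hF0, -, G, hG, hGh, hFG⟩, hLM⟩
    exact ⟨F, hF0, ⟨G, ⟨hG, hGh⟩, hFG⟩, hLM⟩
  · rintro ⟨F, hF0, ⟨G, ⟨hG, hGh⟩, hFG⟩, hLM⟩
    have h3 := hLM.of_approx hFG
    have h4 : nrm (wtN w) G = nrm (wtN w) F := nrm_eq_of_approx hFG
    have h5 : 0 < nrm (wtN w) F := nrm_pos (wtN_pos w) hF0
    refine ⟨G, ⟨fun h6 => ?_, hGh, G, hG, hGh, ?_⟩, h3⟩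
    · rw [h6, nrm_zero] at h4
      exact h5.ne h4
    · rw [sub_self, nrm_zero, h4]
      exact h5

/-- the statement which is proved by induction over the set of variables -/
theorem main [IsUltrametricDist K] (h1 : STP_Stmt) (h2 : DIM_Stmt)
    (J : Submodule K ((Fin n → ℕ) →₀ K)) (hJ : ∀ F ∈ J, ∀ a, sh a F ∈ J) (i0 : Fin n)
    (s : Finset (Fin n)) :
    ∃ (a : Fin n → ℕ) (W : (Fin n → ℝ) → ℕ → Set ((Fin n → ℕ) →₀ K)),
      (∀ w d F, F ∈ W w d ↔ Hom d F ∧ sh a F ∈ InJ w J (d + deg a)) ∧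
      (∀ w, GSys w (W w)) ∧
      (Set.range fun w => fun d => Set.ncard (LMs w (W w) i0 d)).Finite ∧
      ∀ j ∈ s, ∀ w d F, Hom d F → sh (xp j 1) F ∈ W w (d + 1) → F ∈ W w d := by
  classical
  induction s using Finset.induction_on with
  | empty =>
    refine ⟨0, fun w => InJ w J, fun w d F => ?_, fun w => gsys_InJ w J hJ, ?_, by simp⟩
    · rw [sh_zero]
      have e : deg (0 : Fin n → ℕ) = 0 := by simp [deg]
      rw [e, add_zero]
      exact ⟨fun h => ⟨h.2.1, h⟩, fun h => h.2⟩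
    · refine (Set.finite_singleton fun d => Module.finrank K (homJ J d)).subset ?_
      rintro _ ⟨w, rfl⟩
      rw [Set.mem_singleton_iff]
      funext d
      exact count_eq h2 J w i0 d
  | insert i s hi ih =>
    obtain ⟨a, W, hW, hG, hfin, hsat⟩ := ih
    obtain ⟨k, hk, hG', hfin'⟩ := h1 K n (Fin n → ℝ) (fun w => w) W hG i0 hfin i
    refine ⟨xp i k + a, fun w d => {F | Hom d F ∧ sh (xp i k) F ∈ W w (d + k)}, ?_, hG', hfin', ?_⟩
    · intro w d F
      show (Hom d F ∧ sh (xp i k) F ∈ W w (d + k)) ↔ _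
      refine and_congr_right fun hF => ?_
      rw [hW, sh_sh, deg_add, deg_xp, add_assoc]
      have h3 : Hom (d + k) (sh (xp i k) F) := by
        have := hom_sh (a := xp i k) hF
        rwa [deg_xp] at this
      exact ⟨fun h => h.2, fun h => ⟨h3, h⟩⟩
    · intro j hj w d F hF hm
      obtain ⟨-, hm⟩ := hm
      refine ⟨hF, ?_⟩
      rw [sh_sh] at hm
      rcases Finset.mem_insert.1 hj with rfl | hj
      · refine hk w d F hF ?_
        have e : xp j 1 + xp j k = xp j (k + 1) := by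
          unfold xp
          rw [← Pi.single_add, add_comm]
        rw [e] at hm
        have e2 : d + (k + 1) = d + 1 + k := by ring
        rw [e2]
        exact hm
      · refine hsat j hj w (d + k) _ ?_ ?_
        · have := hom_sh (a := xp i k) hF
          rwa [deg_xp] at this
        · rw [sh_sh, add_comm (xp i k)]
          have e2 : d + k + 1 = d + 1 + k := by ring
          rw [e2]
          exact hm

/-- a monomial close to an element of `J` gives a single element -/
theorem single_of_InJ [IsUltrametricDist K] (w : Fin n → ℝ)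
    (J : Submodule K ((Fin n → ℕ) →₀ K)) {b : Fin n → ℕ} {d : ℕ}
    (h : Finsupp.single b (1 : K) ∈ InJ w J d) :
    ∃ G' ∈ J, Hom d G' ∧ Single (wtN w) G' b := by
  obtain ⟨h0, -, G, hG, hGh, hlt⟩ := h
  refine ⟨G, hG, hGh, ?_⟩
  have h4 : nrm (wtN w) G = nrm (wtN w) (Finsupp.single b (1 : K)) := nrm_eq_of_approx hlt
  have h5 : ∀ u, u ≠ b → ‖G u‖₊ * wtN w u < nrm (wtN w) G := by
    intro u hu
    have h6 := le_nrm (wt := wtN w) (Finsupp.single b (1 : K) - G) u
    have h7 : (Finsupp.single b (1 : K) - G) u = - G u := by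
      rw [Finsupp.sub_apply, Finsupp.single_eq_of_ne hu, zero_sub]
    rw [h7, nnnorm_neg] at h6
    rw [h4]
    exact h6.trans_lt hlt
  have hG0 : G ≠ 0 := by
    rintro rfl
    rw [nrm_zero] at h4
    exact (nrm_pos (wtN_pos w) h0).ne h4
  obtain ⟨u, hu, hu'⟩ := exists_nrm_eq (wt := wtN w) hG0
  have hub : u = b := by
    by_contra hne
    exact (h5 u hne).ne hu'
  subst hub
  exact ⟨hu, fun u' hne => by rw [hu']; exact h5 u' hne⟩

/-- the leading monomial of a single element is close to an element of `J` -/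
theorem InJ_of_single (w : Fin n → ℝ)
    (J : Submodule K ((Fin n → ℕ) →₀ K)) {G : (Fin n → ℕ) →₀ K} {b : Fin n → ℕ} {d : ℕ}
    (hG : G ∈ J) (hGh : Hom d G) (hs : Single (wtN w) G b) :
    Finsupp.single b (1 : K) ∈ InJ w J d := by
  have hd : deg b = d := hGh b hs.1
  subst hd
  refine ⟨single_ne b, hom_single b, (G b)⁻¹ • G, J.smul_mem _ hG, (homJ J _).smul_mem _
    ⟨hG, hGh⟩ |>.2, ?_⟩
  rw [nrm_single, nrm_lt_iff (wtN_pos w b)]
  intro u
  by_cases hu : u = b
  · subst hu
    rw [Finsupp.sub_apply, Finsupp.single_eq_same, Finsupp.smul_apply, smul_eq_mul,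
      inv_mul_cancel₀ hs.1, sub_self, nnnorm_zero, zero_mul]
    exact wtN_pos w u
  · rw [Finsupp.sub_apply, Finsupp.single_eq_of_ne hu, zero_sub, nnnorm_neg, Finsupp.smul_apply,
      smul_eq_mul, nnnorm_mul, nnnorm_inv, mul_assoc]
    have h1 := hs.2 u hu
    have h2 : 0 < ‖G b‖₊ := by simpa using hs.1
    calc ‖G b‖₊⁻¹ * (‖G u‖₊ * wtN w u) < ‖G b‖₊⁻¹ * (‖G b‖₊ * wtN w b) :=
          (mul_lt_mul_iff_right₀ (by positivity)).2 h1
      _ = wtN w b := by rw [← mul_assoc, inv_mul_cancel₀ h2.ne', one_mul]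

/-- saturation: all monomials of `W` can be reduced to `1` -/
theorem reduce {W : ℕ → Set ((Fin n → ℕ) →₀ K)}
    (hsat : ∀ j d F, Hom d F → sh (xp j 1) F ∈ W (d + 1) → F ∈ W d) :
    ∀ (m : ℕ) (b : Fin n → ℕ), deg b = m → Finsupp.single b (1 : K) ∈ W m →
      Finsupp.single 0 (1 : K) ∈ W 0 := by
  intro m
  induction m with
  | zero =>
    intro b hb h
    have e : b = 0 := by
      funext i
      have h1 : b i ≤ deg b := Finset.single_le_sum (f := b) (fun _ _ => Nat.zero_le _)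
        (Finset.mem_univ i)
      have h2 : b i ≤ 0 := by rw [← hb]; exact h1
      exact Nat.le_zero.1 h2
    rw [← e]; exact h
  | succ m ih =>
    intro b hb h
    obtain ⟨j, hj⟩ : ∃ j, b j ≠ 0 := by
      by_contra hc
      push Not at hc
      have : deg b = 0 := by simp [deg, hc]
      omega
    have e : (b - xp j 1) + xp j 1 = b := by
      funext i
      by_cases hi : i = j
      · subst hi
        simp [xp]
        omega
      · simp [xp, hi]
    have hdeg : deg (b - xp j 1) = m := by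
      have h3 : deg ((b - xp j 1) + xp j 1) = deg b := by rw [e]
      rw [deg_add, deg_xp] at h3
      omega
    refine ih (b - xp j 1) hdeg (hsat j m _ ?_ ?_)
    · rw [← hdeg]; exact hom_single _
    · rw [sh_single, e]; exact h

end UNI

open UNI

theorem UNI_thm (h1 : STP_Stmt) (h2 : DIM_Stmt) : UNI_Stmt := by
  intro K _ _ n J hJ
  rcases Nat.eq_zero_or_pos n with hn | hn
  · subst hn
    refine ⟨0, fun w d G a hG hGh hs => ⟨G, hG, fun u _ => ?_, ?_⟩⟩
    · simp [deg]
    · have e : (fun _ => 0 : Fin 0 → ℕ) = a := Subsingleton.elim _ _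
      rw [e]; exact hs
  · obtain ⟨a, W, hW, hG, -, hsat⟩ := main h1 h2 J hJ ⟨0, hn⟩ Finset.univ
    refine ⟨Finset.univ.sup a, fun w d G b hGJ hGh hs => ?_⟩
    have hd : deg b = d := hGh b hs.1
    have s1 : Finsupp.single b (1 : K) ∈ InJ w J d := InJ_of_single w J hGJ hGh hs
    have s2 : Finsupp.single b (1 : K) ∈ W w d := by
      rw [hW]
      refine ⟨by rw [← hd]; exact hom_single b, ?_⟩
      exact (gsys_InJ w J hJ).shift d _ s1 a
    have s3 : Finsupp.single 0 (1 : K) ∈ W w 0 :=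
      reduce (fun j d F hF h => hsat j (Finset.mem_univ j) w d F hF h) d b hd s2
    rw [hW] at s3
    have s4 := s3.2
    rw [sh_single, zero_add, zero_add] at s4
    have s5 := (gsys_InJ w J hJ).shift _ _ s4 ((fun _ => Finset.univ.sup a) - a)
    have e1 : a + ((fun _ => Finset.univ.sup a) - a) = fun _ => Finset.univ.sup a := by
      funext i
      have : a i ≤ Finset.univ.sup a := Finset.le_sup (Finset.mem_univ i)
      show a i + (Finset.univ.sup a - a i) = Finset.univ.sup a
      omega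
    have e2 : deg a + deg ((fun _ => Finset.univ.sup a) - a) = n * Finset.univ.sup a := by
      rw [← deg_add, e1]
      simp [deg]
    rw [sh_single, e1, e2] at s5
    exact single_of_InJ w J s5

end Pool.Agent.TD.BG


end

section

/-!
# B1: points of the tropicalization come from multiplicative seminorms
-/

open scoped ContDiff Topology NNReal

namespace Pool.Agent.TD.BG

namespace B1

variable {K ι : Type} [NormedField K] [Fintype ι]

theorem wtZ_pos (w : ι → ℝ) (u : ι → ℤ) : 0 < wtZ w u := Real.exp_pos _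

theorem wtZ_zero (w : ι → ℝ) : wtZ w 0 = 1 := by
  apply NNReal.eq
  show Real.exp _ = 1
  simp

theorem wtZ_add (w : ι → ℝ) (u v : ι → ℤ) : wtZ w (u + v) = wtZ w u * wtZ w v := by
  apply NNReal.eq
  show Real.exp _ = Real.exp _ * Real.exp _
  rw [← Real.exp_add, ← Finset.sum_add_distrib]
  congr 1
  exact Finset.sum_congr rfl fun i _ => by push_cast [Pi.add_apply]; ring

theorem wtZ_single [DecidableEq ι] (w : ι → ℝ) (i : ι) (k : ℤ) :
    (wtZ w (Pi.single i k) : ℝ) = Real.exp (k * w i) := by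
  show Real.exp _ = _
  congr 1
  rw [Finset.sum_eq_single i]
  · simp
  · intro j _ hj
    simp [Pi.single_eq_of_ne hj]
  · intro h
    exact absurd (Finset.mem_univ i) h

/-- the Gauss norm -/
noncomputable def gn (w : ι → ℝ) (F : Laur K ι) : ℝ≥0 := nrm (wtZ w) (co F)

theorem gn_zero (w : ι → ℝ) : gn w (0 : Laur K ι) = 0 := nrm_zero

theorem gn_neg (w : ι → ℝ) (F : Laur K ι) : gn w (-F) = gn w F := nrm_neg (co F)

theorem gn_add [IsUltrametricDist K] (w : ι → ℝ) (F G : Laur K ι) :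
    gn w (F + G) ≤ max (gn w F) (gn w G) := nrm_add_le (co F) (co G)

theorem gn_single (w : ι → ℝ) (u : ι → ℤ) (c : K) :
    gn w (AddMonoidAlgebra.single u c) ≤ ‖c‖₊ * wtZ w u := by
  unfold gn
  rw [nrm_le_iff]
  intro v
  show ‖(Finsupp.single u c) v‖₊ * wtZ w v ≤ _
  by_cases h : v = u
  · rw [h, Finsupp.single_eq_same]
  · rw [Finsupp.single_eq_of_ne h, nnnorm_zero, zero_mul]
    exact bot_le

theorem gn_single_mul (w : ι → ℝ) (u : ι → ℤ) (c : K) (F : Laur K ι) :
    gn w (AddMonoidAlgebra.single u c * F) ≤ ‖c‖₊ * wtZ w u * gn w F := by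
  unfold gn
  rw [nrm_le_iff]
  intro v
  show ‖(AddMonoidAlgebra.single u c * F).coeff v‖₊ * wtZ w v ≤ _
  rw [AddMonoidAlgebra.coeff_single_mul_apply]
  have h1 : wtZ w v = wtZ w u * wtZ w (-u + v) := by
    rw [← wtZ_add]; congr 1; abel
  rw [h1, nnnorm_mul]
  calc ‖c‖₊ * ‖F.coeff (-u + v)‖₊ * (wtZ w u * wtZ w (-u + v))
      = ‖c‖₊ * wtZ w u * (‖F.coeff (-u + v)‖₊ * wtZ w (-u + v)) := by ring
    _ ≤ _ := mul_le_mul_right (le_nrm (co F) (-u + v)) _

theorem gn_sum [IsUltrametricDist K] (w : ι → ℝ) {κ : Type} (s : Finset κ) (F : κ → Laur K ι)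
    {c : ℝ≥0} (h : ∀ j ∈ s, gn w (F j) ≤ c) : gn w (∑ j ∈ s, F j) ≤ c := by
  classical
  induction s using Finset.induction_on with
  | empty => rw [Finset.sum_empty, gn_zero]; exact bot_le
  | insert i s hi ih =>
    rw [Finset.sum_insert hi]
    exact (gn_add w _ _).trans (max_le (h i (Finset.mem_insert_self _ _))
      (ih fun j hj => h j (Finset.mem_insert_of_mem hj)))

theorem gn_mul [IsUltrametricDist K] (w : ι → ℝ) (F G : Laur K ι) :
    gn w (F * G) ≤ gn w F * gn w G := by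
  have h1 : F = ∑ u ∈ F.coeff.support, AddMonoidAlgebra.single u (F.coeff u) := by
    apply AddMonoidAlgebra.coeff_injective
    rw [AddMonoidAlgebra.coeff_sum]
    simp only [AddMonoidAlgebra.coeff_single]
    exact (Finsupp.sum_single F.coeff).symm
  have h2 : F * G = ∑ u ∈ F.coeff.support, AddMonoidAlgebra.single u (F.coeff u) * G := by
    conv_lhs => rw [h1]
    rw [Finset.sum_mul]
  rw [h2]
  refine gn_sum w _ _ fun u _ => (gn_single_mul w u _ G).trans ?_
  exact mul_le_mul_left (le_nrm (co F) u) _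

/-- the quotient seminorm -/
noncomputable def qn (w : ι → ℝ) (I : Ideal (Laur K ι)) (F : Laur K ι) : ℝ≥0 :=
  ⨅ G : {G : Laur K ι // G ∈ I}, gn w (F + G.1)

instance (I : Ideal (Laur K ι)) : Nonempty {G : Laur K ι // G ∈ I} := ⟨⟨0, I.zero_mem⟩⟩

theorem qn_le (w : ι → ℝ) (I : Ideal (Laur K ι)) (F : Laur K ι) {G : Laur K ι} (hG : G ∈ I) :
    qn w I F ≤ gn w (F + G) :=
  ciInf_le (f := fun G : {G : Laur K ι // G ∈ I} => gn w (F + G.1)) (OrderBot.bddBelow _) ⟨G, hG⟩

theorem qn_le_gn (w : ι → ℝ) (I : Ideal (Laur K ι)) (F : Laur K ι) : qn w I F ≤ gn w F := by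
  have h := qn_le w I F I.zero_mem
  rwa [add_zero] at h

theorem le_qn (w : ι → ℝ) (I : Ideal (Laur K ι)) (F : Laur K ι) {c : ℝ≥0}
    (h : ∀ G ∈ I, c ≤ gn w (F + G)) : c ≤ qn w I F :=
  le_ciInf fun G => h G.1 G.2

theorem exists_lt (w : ι → ℝ) (I : Ideal (Laur K ι)) (F : Laur K ι) {c : ℝ≥0}
    (h : qn w I F < c) : ∃ G ∈ I, gn w (F + G) < c := by
  obtain ⟨G, hG⟩ := exists_lt_of_ciInf_lt h
  exact ⟨G.1, G.2, hG⟩

theorem qn_neg (w : ι → ℝ) (I : Ideal (Laur K ι)) (F : Laur K ι) : qn w I (-F) = qn w I F := by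
  have key : ∀ F, qn w I (-F) ≤ qn w I F := by
    intro F
    refine le_qn w I F fun G hG => ?_
    refine (qn_le w I (-F) (I.neg_mem hG)).trans ?_
    rw [show -F + -G = -(F + G) by abel, gn_neg]
  apply le_antisymm (key F)
  have := key (-F)
  rwa [neg_neg] at this

theorem qn_add [IsUltrametricDist K] (w : ι → ℝ) (I : Ideal (Laur K ι)) (F F' : Laur K ι) :
    qn w I (F + F') ≤ max (qn w I F) (qn w I F') := by
  refine le_of_forall_gt_imp_ge_of_dense fun c hc => ?_
  obtain ⟨G, hG, h1⟩ := exists_lt w I F ((le_max_left _ _).trans_lt hc)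
  obtain ⟨G', hG', h2⟩ := exists_lt w I F' ((le_max_right _ _).trans_lt hc)
  refine (qn_le w I _ (I.add_mem hG hG')).trans ?_
  rw [show F + F' + (G + G') = (F + G) + (F' + G') by abel]
  exact (gn_add w _ _).trans (max_le h1.le h2.le)

theorem qn_mul [IsUltrametricDist K] (w : ι → ℝ) (I : Ideal (Laur K ι)) (F F' : Laur K ι) :
    qn w I (F * F') ≤ qn w I F * qn w I F' := by
  refine NNReal.le_iInf_mul_iInf fun G G' => ?_
  obtain ⟨G, hG⟩ := G
  obtain ⟨G', hG'⟩ := G'
  have h1 : F * G' + G * F' + G * G' ∈ I :=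
    I.add_mem (I.add_mem (I.mul_mem_left _ hG') (I.mul_mem_right _ hG)) (I.mul_mem_left _ hG')
  refine (qn_le w I _ h1).trans ?_
  rw [show F * F' + (F * G' + G * F' + G * G') = (F + G) * (F' + G') by ring]
  exact gn_mul w _ _

theorem gn_one (w : ι → ℝ) : gn w (1 : Laur K ι) ≤ 1 := by
  have h := gn_single w 0 (1 : K)
  rw [wtZ_zero, nnnorm_one, mul_one] at h
  exact h

theorem qn_one [IsUltrametricDist K] {w : ι → ℝ} {I : Ideal (Laur K ι)} (hw : w ∈ Trop I) :
    qn w I 1 = 1 := by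
  refine le_antisymm ((qn_le_gn w I 1).trans (gn_one w)) (le_qn w I 1 fun G hG => ?_)
  by_contra hcon
  push Not at hcon
  unfold gn at hcon
  rw [nrm_lt_iff one_pos] at hcon
  have hone : ∀ u, (co (1 : Laur K ι)) u = if u = 0 then 1 else 0 := by
    intro u
    show (Finsupp.single (0 : ι → ℤ) (1 : K)) u = _
    rw [Finsupp.single_apply]
    by_cases h : u = 0
    · rw [if_pos h, if_pos h.symm]
    · rw [if_neg h, if_neg (Ne.symm h)]
  have hco : ∀ u, (co (1 + G : Laur K ι)) u = (if u = 0 then 1 else 0) + co G u := by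
    intro u
    rw [← hone u]
    rfl
  have h0 : ‖(1 : K) + co G 0‖₊ < 1 := by
    have h := hcon 0
    rw [hco, if_pos rfl, wtZ_zero, mul_one] at h
    exact h
  have hG0 : ‖co G 0‖₊ = 1 := by
    have h1 : ‖(1 : K)‖₊ ≤ max ‖(1 : K) + co G 0‖₊ ‖co G 0‖₊ := by
      have e : (1 : K) = (1 + co G 0) + (-co G 0) := by ring
      conv_lhs => rw [e]
      rw [← nnnorm_neg (co G 0)]
      exact IsUltrametricDist.nnnorm_add_le_max _ _
    have h2 : ‖co G 0‖₊ ≤ max ‖(1 : K) + co G 0‖₊ ‖(1 : K)‖₊ := by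
      have e : co G 0 = (1 + co G 0) + (-1) := by ring
      conv_lhs => rw [e]
      rw [← nnnorm_neg (1 : K)]
      exact IsUltrametricDist.nnnorm_add_le_max _ _
    rw [nnnorm_one] at h1 h2
    apply le_antisymm
    · exact h2.trans (max_le h0.le le_rfl)
    · rcases le_max_iff.1 h1 with h | h
      · exact absurd h (not_le.2 h0)
      · exact h
  refine hw G hG 0 ⟨?_, fun u hu => ?_⟩
  · intro h
    rw [h, nnnorm_zero] at hG0
    exact zero_ne_one hG0
  · rw [hG0, wtZ_zero, mul_one]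
    have h := hcon u
    rw [hco, if_neg hu, zero_add] at h
    exact h

end B1

open B1 in
theorem B1_thm (h1 : M3_Stmt) : B1_Stmt := by
  intro K ι _ _ _ _ I w hw
  obtain ⟨v, v0, v1, vmul, vadd, vle⟩ := h1 (Laur K ι) (fun F => (qn w I F : ℝ))
    (fun F => NNReal.coe_nonneg _)
    (by
      have h := qn_le_gn w I 0
      rw [gn_zero] at h
      exact_mod_cast le_antisymm h bot_le)
    (by
      have := qn_one hw
      exact_mod_cast this)
    (fun F => by
      have := qn_neg w I F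
      exact_mod_cast this)
    (fun F G => by
      have := qn_add w I F G
      exact_mod_cast this)
    (fun F G => by
      have := qn_mul w I F G
      exact_mod_cast this)
  have vgn : ∀ F, v F ≤ gn w F := fun F => (vle F).trans (by exact_mod_cast qn_le_gn w I F)
  have vz : v 0 = 0 := by
    have h := vgn 0
    rw [gn_zero] at h
    exact le_antisymm (by simpa using h) (v0 0)
  have vs : ∀ (u : ι → ℤ) (c : K), v (AddMonoidAlgebra.single u c) ≤ ‖c‖ * wtZ w u := by
    intro u c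
    refine (vgn _).trans ?_
    have h := gn_single w u c
    have h' : ((gn w (AddMonoidAlgebra.single u c) : ℝ≥0) : ℝ) ≤ ((‖c‖₊ * wtZ w u : ℝ≥0) : ℝ) :=
      NNReal.coe_le_coe.2 h
    rwa [NNReal.coe_mul, coe_nnnorm] at h'
  -- equality for monomials
  have vse : ∀ (u : ι → ℤ) (c : K), c ≠ 0 → v (AddMonoidAlgebra.single u c) = ‖c‖ * wtZ w u := by
    intro u c hc
    have h2 := vs u c
    have h3 := vs (-u) c⁻¹
    have h4 : v (AddMonoidAlgebra.single u c) * v (AddMonoidAlgebra.single (-u) c⁻¹) = 1 := by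
      rw [← vmul, AddMonoidAlgebra.single_mul_single, add_neg_cancel, mul_inv_cancel₀ hc]
      exact v1
    have hcn : 0 < ‖c‖ := norm_pos_iff.2 hc
    have hwp : (0 : ℝ) < wtZ w u := wtZ_pos w u
    have h5 : (wtZ w u : ℝ) * wtZ w (-u) = 1 := by
      have := wtZ_add w u (-u)
      rw [add_neg_cancel, wtZ_zero] at this
      exact_mod_cast this.symm
    have h6 : ‖c⁻¹‖ * (wtZ w (-u) : ℝ) = (‖c‖ * wtZ w u)⁻¹ := by
      rw [norm_inv, mul_inv]
      congr 1
      exact eq_inv_of_mul_eq_one_right h5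
    rw [h6] at h3
    refine le_antisymm h2 ?_
    have h7 : 0 < ‖c‖ * (wtZ w u : ℝ) := mul_pos hcn hwp
    have h8 : 1 ≤ v (AddMonoidAlgebra.single u c) * (‖c‖ * (wtZ w u : ℝ))⁻¹ := by
      rw [← h4]
      exact mul_le_mul_of_nonneg_left h3 (v0 _)
    rw [← div_eq_mul_inv, le_div_iff₀ h7, one_mul] at h8
    exact h8
  refine ⟨⟨v, v0, v1, vmul, vadd, fun c => ?_⟩, fun i => ?_, fun F hF => ?_⟩
  · by_cases hc : c = 0
    · rw [hc, map_zero, vz, norm_zero]
    · have h := vse 0 c hc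
      rw [wtZ_zero, NNReal.coe_one, mul_one] at h
      exact h
  · show v (var i) = _
    have h := vse (Pi.single i 1) (1 : K) one_ne_zero
    rw [norm_one, one_mul, wtZ_single] at h
    rw [show Real.exp (w i) = Real.exp (((1 : ℤ) : ℝ) * w i) by push_cast; rw [one_mul]]
    exact h
  · show v F = 0
    refine le_antisymm ((vle F).trans ?_) (v0 F)
    have h := qn_le w I F (I.neg_mem hF)
    rw [add_neg_cancel, gn_zero] at h
    exact_mod_cast h

end Pool.Agent.TD.BG


end
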