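import Mathlib
import Pool.Agent.DolbM.C01
import Pool.Agent.TD.A.Dls
import Pool.Agent.TD.A.St1

/-! Parts: TD.E.Defs, TD.E.Apx, TD.E.Dl, TD.E.Lc, TD.E.Sym, TD.E.Pol, TD.E.PP, TD.E.Exr, TD.E.Split, TD.E.Exti, TD.E.Fib, TD.T.Clp, TD.T.T3, TD.T.Over, TD.T.Conj, TD.T.All, TD.U.Ful -/

section

/-!
# Block E: closed `(p,0)`-forms near the fibre of `M(A[X]) → M(A)` over `y` (MP_90358a_ag)

`y` is a point of `M(A)`, `(H, ι)` its completed residue field (`hι : IsRes y ι`).  The fibre over `y`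
is `M(H[X])`, embedded in `M(A[X])` by `jj hι`.  A section over the fibre is a family
`s : SecT hι p` of germs; `LCat hι s D w` says that near `w`, on `D`, it is given by one constant raw
form which is defined at `w`.
-/

open scoped ContDiff Topology
open Polynomial

namespace Pool.Agent.TD

section
variable {K A H : Type} [NormedField K] [CommRing A] [Algebra K A] [NormedField H]
  {y : Ber K A} {ι : A →+* H}

theorem norm_res_algebraMap (hι : IsRes y ι) (c : K) : ‖ι (algebraMap K A c)‖ = ‖c‖ := by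
  rw [hι.norm, y.ext]

/-- The inclusion of the fibre `M(H[X]) → M(A[X])`. -/
noncomputable def jj (hι : IsRes y ι) (w : Ber H H[X]) : Ber K A[X] :=
  Ber.comap (Polynomial.mapRingHom ι) (fun w c => by
    have h1 : (Polynomial.mapRingHom ι) (algebraMap K A[X] c) =
        algebraMap H H[X] (ι (algebraMap K A c)) := by
      rw [Polynomial.algebraMap_apply, Polynomial.coe_mapRingHom, Polynomial.map_C]
      rfl
    rw [h1, w.ext, norm_res_algebraMap hι]) w

theorem jj_v (hι : IsRes y ι) (w : Ber H H[X]) (f : A[X]) : (jj hι w).v f = w.v (f.map ι) := rfl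

theorem jj_C (hι : IsRes y ι) (w : Ber H H[X]) (a : A) : (jj hι w).v (C a) = y.v a := by
  rw [jj_v, Polynomial.map_C]
  have h := w.ext (ι a)
  rw [← hι.norm]
  exact h

theorem jj_continuous (hι : IsRes y ι) : Continuous (jj hι) :=
  Ber.continuous_iff.2 fun f => Ber.continuous_v (f.map ι)

/-- Families of germs of type `(p,0)` over the fibre. -/
abbrev SecT (hι : IsRes y ι) (p : ℕ) : Type :=
  ∀ w : Ber H H[X], (berLS K A[X]).Stalk p 0 (jj hι w)

/-- `s` is given on `D`, near `w`, by one constant raw form which is defined at `w`. -/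
def LCat (hι : IsRes y ι) {p : ℕ} (s : SecT hι p) (D : Set (Ber H H[X])) (w : Ber H H[X]) : Prop :=
  ∃ θ : Raw A[X] p 0, IsCst θ ∧ (berLS K A[X]).SFat (jj hι w) θ ∧ ∀ᶠ w' in 𝓝 w, w' ∈ D →
    ∃ h : (berLS K A[X]).SFat (jj hι w') θ, s w' = (berLS K A[X]).germ θ h

/-- `s` is locally constant near `w` (including `w`). -/
def LC (hι : IsRes y ι) {p : ℕ} (s : SecT hι p) (w : Ber H H[X]) : Prop :=
  LCat hι s Set.univ w

/-- `s` is regular at `w`: on a punctured neighbourhood it is equal to a constant form which is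
defined at `w`. -/
def Reg (hι : IsRes y ι) {p : ℕ} (s : SecT hι p) (w : Ber H H[X]) : Prop :=
  LCat hι s {w}ᶜ w

/-- `x = dlog|F| - dlog|b|` for an approximation `F / b` of `f` with `|f - F / b| < |f|` at `w`. -/
def IsDl (hι : IsRes y ι) (f : H[X]) (w : Ber H H[X])
    (x : (berLS K A[X]).Stalk 1 0 (jj hι w)) : Prop :=
  ∃ (F : A[X]) (b : A) (hF : jj hι w ∈ (berLS K A[X]).dom F)
    (hb : jj hι w ∈ (berLS K A[X]).dom (C b)),
    w.v (f - C (ι b)⁻¹ * F.map ι) < w.v f ∧
      x = (berLS K A[X]).dlS F hF - (berLS K A[X]).dlS (C b) hb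

open Classical in
/-- The differential `dlog|f|` of `f ∈ H[X]`, as a family of germs (`0` where `f` vanishes). -/
noncomputable def dlH (hι : IsRes y ι) (f : H[X]) : SecT hι 1 := fun w =>
  if h : ∃ x, IsDl hι f w x then h.choose else 0

/-- Exterior product with `dlog|f|`. -/
noncomputable def WH (hι : IsRes y ι) {p : ℕ} (f : H[X]) : SecT hι p →ₗ[ℝ] SecT hι (p + 1) where
  toFun s := fun w => (berLS K A[X]).wdS p 0 (jj hι w) (dlH hι f w) (s w)
  map_add' s t := by
    funext w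
    exact map_add _ _ _
  map_smul' c s := by
    funext w
    exact ((berLS K A[X]).wdS p 0 (jj hι w) (dlH hι f w)).map_smul c (s w)

theorem WH_apply (hι : IsRes y ι) {p : ℕ} (f : H[X]) (s : SecT hι p) (w : Ber H H[X]) :
    WH hι f s w = (berLS K A[X]).wdS p 0 (jj hι w) (dlH hι f w) (s w) := rfl

/-- Combinations of symbols `dlog|f_1| ∧ ... ∧ dlog|f_p|` with entries of degree `< d`. -/
noncomputable def Sy (hι : IsRes y ι) : (p d : ℕ) → Submodule ℝ (SecT hι p)
  | 0, _ => Submodule.span ℝ {fun w => (berLS K A[X]).oneS (jj hι w)}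
  | p + 1, d => Submodule.span ℝ {s | ∃ (f : H[X]) (t : SecT hι p), f ≠ 0 ∧ f.natDegree < d ∧
      t ∈ Sy hι p d ∧ s = WH hι f t}

end

end Pool.Agent.TD


end

section

/-! Block E: approximation of polynomials over `H` by quotients `F / b` (module TD_E_APX). -/

open scoped Topology
open Polynomial

namespace Pool.Agent.TD

variable {K A H : Type} [NormedField K] [CommRing A] [Algebra K A] [NormedField H]
  {y : Ber K A} {ι : A →+* H}

/-- (E1) -/
theorem exists_apx (hι : IsRes y ι) (f : H[X]) (R ε : ℝ) (hε : 0 < ε) :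
    ∃ (F : A[X]) (b : A), ι b ≠ 0 ∧
      ∀ w : Ber H H[X], w.v X ≤ R → w.v (f - C (ι b)⁻¹ * F.map ι) < ε := by
  classical
  set n := f.natDegree with hn
  set M : ℝ := (max 1 R) ^ n with hM
  have hM1 : (1 : ℝ) ≤ max 1 R := le_max_left _ _
  have hM0 : 0 < M := by positivity
  have hδ : 0 < ε / (2 * M) := by positivity
  choose a b hb hab using fun k : ℕ => hι.dense (f.coeff k) (ε / (2 * M)) hδ
  refine ⟨∑ k ∈ Finset.range (n + 1), C (a k * ∏ l ∈ (Finset.range (n + 1)).erase k, b l) * X ^ k,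
    ∏ k ∈ Finset.range (n + 1), b k, ?_, ?_⟩
  · rw [map_prod]
    exact Finset.prod_ne_zero_iff.2 fun k _ => hb k
  · intro w hw
    have key : f - C (ι (∏ k ∈ Finset.range (n + 1), b k))⁻¹ *
        (∑ k ∈ Finset.range (n + 1),
          C (a k * ∏ l ∈ (Finset.range (n + 1)).erase k, b l) * X ^ k).map ι =
        ∑ k ∈ Finset.range (n + 1), C (f.coeff k - ι (a k) / ι (b k)) * X ^ k := by
      rw [Polynomial.map_sum, Finset.mul_sum]
      conv_lhs => rw [f.as_sum_range_C_mul_X_pow]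
      rw [← hn, ← Finset.sum_sub_distrib]
      refine Finset.sum_congr rfl fun k hk => ?_
      rw [Polynomial.map_mul, Polynomial.map_C, Polynomial.map_pow, Polynomial.map_X, ← mul_assoc,
        ← C_mul, ← sub_mul, ← C_sub]
      congr 2
      congr 1
      rw [← Finset.mul_prod_erase _ _ hk, map_mul, map_mul]
      have h1 : ι (∏ l ∈ (Finset.range (n + 1)).erase k, b l) ≠ 0 := by
        rw [map_prod]
        exact Finset.prod_ne_zero_iff.2 fun k _ => hb k
      have h2 := hb k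
      field_simp
    rw [key]
    refine lt_of_le_of_lt (w.sum_le _ _ (M := ε / 2) (by positivity) fun k hk => ?_) (half_lt_self hε)
    have hk' : k ≤ n := Nat.lt_succ_iff.1 (Finset.mem_range.1 hk)
    rw [w.mul, w.pow]
    have h1 : w.v (C (f.coeff k - ι (a k) / ι (b k))) = ‖f.coeff k - ι (a k) / ι (b k)‖ := w.ext _
    have h2 : w.v X ^ k ≤ M := by
      calc w.v X ^ k ≤ (max 1 R) ^ k := pow_le_pow_left₀ (w.nonneg _) (hw.trans (le_max_right _ _)) k
        _ ≤ (max 1 R) ^ n := pow_le_pow_right₀ hM1 hk'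
    rw [h1]
    calc ‖f.coeff k - ι (a k) / ι (b k)‖ * w.v X ^ k ≤ ε / (2 * M) * M :=
          mul_le_mul (hab k).le h2 (pow_nonneg (w.nonneg _) _) hδ.le
      _ = ε / 2 := by field_simp

end Pool.Agent.TD


end

section

/-! Block E: the differentials `dlog|f|`, `f ∈ H[X]` (module TD_E_DL). -/

open scoped Topology
open Polynomial

namespace Pool.Agent.TD

variable {K A H : Type} [NormedField K] [CommRing A] [Algebra K A] [NormedField H]
  {y : Ber K A} {ι : A →+* H}

namespace EDl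

/-- `F / b` approximates `f` at `w`. -/
def Ap (ι : A →+* H) (f : H[X]) (w : Ber H H[X]) (F : A[X]) (b : A) : Prop :=
  ι b ≠ 0 ∧ w.v (f - C (ι b)⁻¹ * F.map ι) < w.v f

theorem v_C (w : Ber H H[X]) (c : H) : w.v (C c) = ‖c‖ := w.ext c

theorem Ap.pos {f : H[X]} {w : Ber H H[X]} {F : A[X]} {b : A} (h : Ap ι f w F b) :
    0 < w.v f := (w.nonneg _).trans_lt h.2

theorem Ap.v_eq {f : H[X]} {w : Ber H H[X]} {F : A[X]} {b : A} (h : Ap ι f w F b) :
    w.v (C (ι b)⁻¹ * F.map ι) = w.v f := w.sub_eq h.2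

theorem Ap.domC (hι : IsRes y ι) {f : H[X]} {w : Ber H H[X]} {F : A[X]} {b : A}
    (h : Ap ι f w F b) : jj hι w ∈ (berLS K A[X]).dom (C b) := by
  show (jj hι w).v (C b) ≠ 0
  rw [jj_C, ← hι.norm]
  simpa using h.1

theorem Ap.domF (hι : IsRes y ι) {f : H[X]} {w : Ber H H[X]} {F : A[X]} {b : A}
    (h : Ap ι f w F b) : jj hι w ∈ (berLS K A[X]).dom F := by
  show (jj hι w).v F ≠ 0
  rw [jj_v]
  intro h0
  have h1 := h.v_eq
  rw [w.mul, h0, mul_zero] at h1
  exact h.pos.ne h1

theorem ne_of_dom (hι : IsRes y ι) {w : Ber H H[X]} {b : A}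
    (hb : jj hι w ∈ (berLS K A[X]).dom (C b)) : ι b ≠ 0 := by
  intro h0
  apply hb
  rw [jj_C, ← hι.norm, h0, norm_zero]

/-- Two fractions which are close have the same differential. -/
theorem dl_eq {z : Ber K A[X]} {F F' : A[X]} {b b' : A}
    (hF : z ∈ (berLS K A[X]).dom F) (hb : z ∈ (berLS K A[X]).dom (C b))
    (hF' : z ∈ (berLS K A[X]).dom F') (hb' : z ∈ (berLS K A[X]).dom (C b'))
    (h : z.v (F * C b' - F' * C b) < z.v (F * C b')) :
    (berLS K A[X]).dlS F hF - (berLS K A[X]).dlS (C b) hb =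
      (berLS K A[X]).dlS F' hF' - (berLS K A[X]).dlS (C b') hb' := by
  let g : Fin 3 → A[X] := ![F', C b, C b']
  have hg : ∀ i, z ∈ (berLS K A[X]).dom (g i) := by
    intro i
    fin_cases i
    exacts [hF', hb, hb']
  have hev : ∀ᶠ z' in 𝓝 z, (berLS K A[X]).lf F z' =
      0 + ∑ i, (![1, 1, -1] : Fin 3 → ℝ) i * (berLS K A[X]).lf (g i) z' := by
    have h1 : ∀ᶠ z' : Ber K A[X] in 𝓝 z, z'.v (F * C b' - F' * C b) < z'.v (F * C b') :=
      (Ber.continuous_v _).continuousAt.eventually_lt (Ber.continuous_v _).continuousAt h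
    have h2 : ∀ᶠ z' : Ber K A[X] in 𝓝 z, z' ∈ (berLS K A[X]).dom F :=
      ((berLS K A[X]).isOpen_dom F).mem_nhds hF
    have h3 : ∀ᶠ z' : Ber K A[X] in 𝓝 z, z' ∈ (berLS K A[X]).dom (C b) :=
      ((berLS K A[X]).isOpen_dom (C b)).mem_nhds hb
    have h4 : ∀ᶠ z' : Ber K A[X] in 𝓝 z, z' ∈ (berLS K A[X]).dom F' :=
      ((berLS K A[X]).isOpen_dom F').mem_nhds hF'
    have h5 : ∀ᶠ z' : Ber K A[X] in 𝓝 z, z' ∈ (berLS K A[X]).dom (C b') :=
      ((berLS K A[X]).isOpen_dom (C b')).mem_nhds hb'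
    filter_upwards [h1, h2, h3, h4, h5] with z' k1 k2 k3 k4 k5
    have e := z'.sub_eq k1
    rw [z'.mul, z'.mul] at e
    have e2 := congrArg Real.log e
    rw [Real.log_mul k4 k3, Real.log_mul k2 k5] at e2
    have e3 : Real.log (z'.v F) = 0 + (1 * Real.log (z'.v F') + (1 * Real.log (z'.v (C b)) +
        -1 * Real.log (z'.v (C b')))) := by linarith
    rw [Fin.sum_univ_three]
    show Real.log (z'.v F) = 0 + (1 * Real.log (z'.v F') + 1 * Real.log (z'.v (C b)) +
        -1 * Real.log (z'.v (C b')))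
    rw [e3]; ring
  have key := (berLS K A[X]).dlS_eq_sum hF hg _ _ hev
  rw [Fin.sum_univ_three] at key
  have key2 : (berLS K A[X]).dlS F hF = (1 : ℝ) • (berLS K A[X]).dlS F' hF' +
      (1 : ℝ) • (berLS K A[X]).dlS (C b) hb + (-1 : ℝ) • (berLS K A[X]).dlS (C b') hb' := key
  rw [key2, one_smul, one_smul, neg_one_smul]
  abel

/-- Approximations of close functions have the same differential. -/
theorem Ap.dl_eq (hι : IsRes y ι) {f g : H[X]} {w : Ber H H[X]} {F F' : A[X]} {b b' : A}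
    (h : Ap ι f w F b) (h' : Ap ι g w F' b') (hfg : w.v (f - g) < w.v f) :
    (berLS K A[X]).dlS F (h.domF hι) - (berLS K A[X]).dlS (C b) (h.domC hι) =
      (berLS K A[X]).dlS F' (h'.domF hι) - (berLS K A[X]).dlS (C b') (h'.domC hι) := by
  apply EDl.dl_eq
  have hgf : w.v g = w.v f := w.sub_eq hfg
  have hb : ι b ≠ 0 := h.1
  have hb' : ι b' ≠ 0 := h'.1
  have h1 : w.v (C (ι b)⁻¹ * F.map ι - C (ι b')⁻¹ * F'.map ι) < w.v f := by
    have e : C (ι b)⁻¹ * F.map ι - C (ι b')⁻¹ * F'.map ι =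
        (g - C (ι b')⁻¹ * F'.map ι) - ((f - C (ι b)⁻¹ * F.map ι) - (f - g)) := by ring
    rw [e]
    refine (w.sub _ _).trans_lt (max_lt (hgf ▸ h'.2) ?_)
    exact (w.sub _ _).trans_lt (max_lt h.2 hfg)
  rw [← h.v_eq] at h1
  have hc : 0 < w.v (C (ι b * ι b')) := by
    rw [v_C]
    exact norm_pos_iff.2 (mul_ne_zero hb hb')
  have h2 := mul_lt_mul_of_pos_left h1 hc
  rw [← w.mul, ← w.mul] at h2
  rw [jj_v, jj_v]
  have e1 : (C b : A[X]).map ι = C (ι b) := Polynomial.map_C ι
  have e1' : (C b' : A[X]).map ι = C (ι b') := Polynomial.map_C ι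
  have e2 : (F * C b' - F' * C b).map ι = C (ι b * ι b') *
      (C (ι b)⁻¹ * F.map ι - C (ι b')⁻¹ * F'.map ι) := by
    rw [Polynomial.map_sub, Polynomial.map_mul, Polynomial.map_mul, e1, e1']
    have e3 : C (ι b * ι b') * C (ι b)⁻¹ = C (ι b') := by
      rw [← C_mul]; congr 1; field_simp
    have e4 : C (ι b * ι b') * C (ι b')⁻¹ = C (ι b) := by
      rw [← C_mul]; congr 1; field_simp
    rw [mul_sub, ← mul_assoc, ← mul_assoc, e3, e4]
    ring
  have e5 : (F * C b').map ι = C (ι b * ι b') * (C (ι b)⁻¹ * F.map ι) := by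
    rw [Polynomial.map_mul, e1']
    have e3 : C (ι b * ι b') * C (ι b)⁻¹ = C (ι b') := by
      rw [← C_mul]; congr 1; field_simp
    rw [← mul_assoc, e3]
    ring
  rw [e2, e5]
  exact h2

theorem Ap.isDl (hι : IsRes y ι) {f : H[X]} {w : Ber H H[X]} {F : A[X]} {b : A}
    (h : Ap ι f w F b) : IsDl hι f w
      ((berLS K A[X]).dlS F (h.domF hι) - (berLS K A[X]).dlS (C b) (h.domC hι)) :=
  ⟨F, b, h.domF hι, h.domC hι, h.2, rfl⟩

theorem exists_ap (hι : IsRes y ι) {f : H[X]} {w : Ber H H[X]} (hf : w.v f ≠ 0) :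
    ∃ F b, Ap ι f w F b := by
  obtain ⟨F, b, hb, h⟩ := exists_apx hι f (w.v X) (w.v f) (lt_of_le_of_ne (w.nonneg f) hf.symm)
  exact ⟨F, b, hb, h w le_rfl⟩

theorem IsDl.exists_ap (hι : IsRes y ι) {f : H[X]} {w : Ber H H[X]}
    {x : (berLS K A[X]).Stalk 1 0 (jj hι w)} (h : IsDl hι f w x) :
    ∃ (F : A[X]) (b : A) (k : Ap ι f w F b),
      x = (berLS K A[X]).dlS F (k.domF hι) - (berLS K A[X]).dlS (C b) (k.domC hι) := by
  obtain ⟨F, b, hF, hb, h1, h2⟩ := h
  exact ⟨F, b, ⟨ne_of_dom hι hb, h1⟩, h2⟩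

theorem dlS_mul {z : Ber K A[X]} {F G : A[X]} (hF : z ∈ (berLS K A[X]).dom F)
    (hG : z ∈ (berLS K A[X]).dom G) (h : z ∈ (berLS K A[X]).dom (F * G)) :
    (berLS K A[X]).dlS (F * G) h = (berLS K A[X]).dlS F hF + (berLS K A[X]).dlS G hG := by
  let g : Fin 2 → A[X] := ![F, G]
  have hg : ∀ i, z ∈ (berLS K A[X]).dom (g i) := by
    intro i
    fin_cases i
    exacts [hF, hG]
  have hev : ∀ᶠ z' in 𝓝 z, (berLS K A[X]).lf (F * G) z' =
      0 + ∑ i, (![1, 1] : Fin 2 → ℝ) i * (berLS K A[X]).lf (g i) z' := by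
    have h2 : ∀ᶠ z' : Ber K A[X] in 𝓝 z, z' ∈ (berLS K A[X]).dom F :=
      ((berLS K A[X]).isOpen_dom F).mem_nhds hF
    have h3 : ∀ᶠ z' : Ber K A[X] in 𝓝 z, z' ∈ (berLS K A[X]).dom G :=
      ((berLS K A[X]).isOpen_dom G).mem_nhds hG
    filter_upwards [h2, h3] with z' k2 k3
    rw [Fin.sum_univ_two]
    show Real.log (z'.v (F * G)) = 0 + (1 * Real.log (z'.v F) + 1 * Real.log (z'.v G))
    rw [z'.mul, Real.log_mul k2 k3]; ring
  have key := (berLS K A[X]).dlS_eq_sum h hg _ _ hev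
  rw [Fin.sum_univ_two] at key
  have key2 : (berLS K A[X]).dlS (F * G) h = (1 : ℝ) • (berLS K A[X]).dlS F hF +
      (1 : ℝ) • (berLS K A[X]).dlS G hG := key
  rw [key2, one_smul, one_smul]

theorem dlS_one {z : Ber K A[X]} (h : z ∈ (berLS K A[X]).dom (C 1)) :
    (berLS K A[X]).dlS (C 1) h = 0 := by
  have hev : ∀ᶠ z' in 𝓝 z, (berLS K A[X]).lf (C 1) z' =
      0 + ∑ i, (![] : Fin 0 → ℝ) i * (berLS K A[X]).lf ((![] : Fin 0 → A[X]) i) z' := by
    refine Filter.Eventually.of_forall fun z' => ?_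
    show Real.log (z'.v (C 1)) = _
    rw [C_1, z'.one, Real.log_one]
    simp
  have key := (berLS K A[X]).dlS_eq_sum h (g := (![] : Fin 0 → A[X])) (fun i => i.elim0) _ _ hev
  simpa using key

theorem Ap.mul {f g : H[X]} {w : Ber H H[X]} {F G : A[X]} {b c : A} (h : Ap ι f w F b)
    (k : Ap ι g w G c) : Ap ι (f * g) w (F * G) (b * c) := by
  refine ⟨by rw [map_mul]; exact mul_ne_zero h.1 k.1, ?_⟩
  have e : f * g - C (ι (b * c))⁻¹ * (F * G).map ι =
      f * (g - C (ι c)⁻¹ * G.map ι) + (f - C (ι b)⁻¹ * F.map ι) * (C (ι c)⁻¹ * G.map ι) := by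
    rw [map_mul, mul_inv, C_mul, Polynomial.map_mul]
    ring
  rw [e]
  refine (w.add _ _).trans_lt (max_lt ?_ ?_)
  · rw [w.mul, w.mul]
    exact mul_lt_mul_of_pos_left k.2 h.pos
  · rw [w.mul, w.mul f g, k.v_eq]
    exact mul_lt_mul_of_pos_right h.2 k.pos

end EDl

open EDl

theorem exists_isDl (hι : IsRes y ι) {f : H[X]} {w : Ber H H[X]} (hf : w.v f ≠ 0) :
    ∃ x, IsDl hι f w x := by
  obtain ⟨F, b, h⟩ := EDl.exists_ap hι hf
  exact ⟨_, h.isDl hι⟩

theorem IsDl.unique (hι : IsRes y ι) {f : H[X]} {w : Ber H H[X]}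
    {x x' : (berLS K A[X]).Stalk 1 0 (jj hι w)} (h : IsDl hι f w x) (h' : IsDl hι f w x') :
    x = x' := by
  obtain ⟨F, b, k, rfl⟩ := EDl.IsDl.exists_ap hι h
  obtain ⟨F', b', k', rfl⟩ := EDl.IsDl.exists_ap hι h'
  refine EDl.Ap.dl_eq hι k k' ?_
  rw [sub_self, w.zero]
  exact k.pos

theorem isDl_dlH (hι : IsRes y ι) {f : H[X]} {w : Ber H H[X]} (hf : w.v f ≠ 0) :
    IsDl hι f w (dlH hι f w) := by
  unfold dlH
  rw [dif_pos (exists_isDl hι hf)]
  exact (exists_isDl hι hf).choose_spec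

theorem EDl.Ap.dlH_eq (hι : IsRes y ι) {f : H[X]} {w : Ber H H[X]} {F : A[X]} {b : A}
    (h : EDl.Ap ι f w F b) : dlH hι f w =
      (berLS K A[X]).dlS F (h.domF hι) - (berLS K A[X]).dlS (C b) (h.domC hι) :=
  IsDl.unique hι (isDl_dlH hι h.pos.ne') (h.isDl hι)

theorem dlH_of_eq_zero (hι : IsRes y ι) {f : H[X]} {w : Ber H H[X]} (hf : w.v f = 0) :
    dlH hι f w = 0 := by
  unfold dlH
  rw [dif_neg]
  rintro ⟨x, hx⟩
  obtain ⟨F, b, k, -⟩ := EDl.IsDl.exists_ap hι hx
  exact k.pos.ne' hf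

theorem dlH_mem_L1 (hι : IsRes y ι) (f : H[X]) (w : Ber H H[X]) :
    dlH hι f w ∈ (berLS K A[X]).L1 (jj hι w) := by
  by_cases hf : w.v f = 0
  · rw [dlH_of_eq_zero hι hf]
    exact Submodule.zero_mem _
  · obtain ⟨F, b, h⟩ := EDl.exists_ap hι hf
    rw [h.dlH_eq hι]
    exact Submodule.sub_mem _ (Submodule.subset_span ⟨F, _, rfl⟩)
      (Submodule.subset_span ⟨C b, _, rfl⟩)

theorem dlH_congr (hι : IsRes y ι) {f g : H[X]} {w : Ber H H[X]} (h : w.v (f - g) < w.v f) :
    dlH hι f w = dlH hι g w := by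
  have hf : w.v f ≠ 0 := ((w.nonneg _).trans_lt h).ne'
  have hg : w.v g ≠ 0 := by rw [w.sub_eq h]; exact hf
  obtain ⟨F, b, k⟩ := EDl.exists_ap hι hf
  obtain ⟨F', b', k'⟩ := EDl.exists_ap hι hg
  rw [k.dlH_eq hι, k'.dlH_eq hι]
  exact EDl.Ap.dl_eq hι k k' h

theorem dlH_mul (hι : IsRes y ι) {f g : H[X]} {w : Ber H H[X]} (hf : w.v f ≠ 0)
    (hg : w.v g ≠ 0) : dlH hι (f * g) w = dlH hι f w + dlH hι g w := by
  obtain ⟨F, b, k⟩ := EDl.exists_ap hι hf
  obtain ⟨G, c, k'⟩ := EDl.exists_ap hι hg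
  rw [k.dlH_eq hι, k'.dlH_eq hι, (k.mul k').dlH_eq hι]
  have e1 := EDl.dlS_mul (k.domF hι) (k'.domF hι) ((k.mul k').domF hι)
  have hbc : jj hι w ∈ (berLS K A[X]).dom (C b * C c) := by
    have h := (k.mul k').domC hι
    rwa [C_mul] at h
  have e2 := EDl.dlS_mul (k.domC hι) (k'.domC hι) hbc
  have e3 : (berLS K A[X]).dlS (C (b * c)) ((k.mul k').domC hι) =
      (berLS K A[X]).dlS (C b * C c) hbc := by
    congr 1
    exact C_mul
  rw [e1, e3, e2]
  abel

theorem dlH_pow_mul (hι : IsRes y ι) {f g : H[X]} {w : Ber H H[X]} (hf : w.v f ≠ 0)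
    (hg : w.v g ≠ 0) (k : ℕ) :
    dlH hι (f ^ k * g) w = (k : ℝ) • dlH hι f w + dlH hι g w := by
  induction k with
  | zero => rw [pow_zero, one_mul, Nat.cast_zero, zero_smul, zero_add]
  | succ k ih =>
    have h : w.v (f ^ k * g) ≠ 0 := by
      rw [w.mul, w.pow]
      exact mul_ne_zero (pow_ne_zero k hf) hg
    have e : f ^ (k + 1) * g = f * (f ^ k * g) := by ring
    rw [e, dlH_mul hι hf h, ih, Nat.cast_succ, add_smul, one_smul]
    abel

theorem dlH_map (hι : IsRes y ι) {F : A[X]} {w : Ber H H[X]}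
    (hF : jj hι w ∈ (berLS K A[X]).dom F) :
    dlH hι (F.map ι) w = (berLS K A[X]).dlS F hF := by
  have hk : EDl.Ap ι (F.map ι) w F 1 := by
    refine ⟨by rw [map_one]; exact one_ne_zero, ?_⟩
    rw [map_one, inv_one, C_1, one_mul, sub_self, w.zero]
    exact lt_of_le_of_ne (w.nonneg _) (Ne.symm hF)
  rw [hk.dlH_eq hι, EDl.dlS_one, sub_zero]

theorem dlH_LC (hι : IsRes y ι) {f : H[X]} {w : Ber H H[X]} (hf : w.v f ≠ 0) :
    LC hι (dlH hι f) w := by
  obtain ⟨F, b, k⟩ := EDl.exists_ap hι hf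
  have hs : ∀ {w' : Ber H H[X]} (k' : EDl.Ap ι f w' F b),
      (berLS K A[X]).SFat (jj hι w') (dlg F - dlg (C b)) := fun {w'} k' =>
    LogSpace.SFat.sub (⟨{F}, isSF_dlg (Finset.mem_singleton_self F), by
        simpa using k'.domF hι⟩)
      (⟨{C b}, isSF_dlg (Finset.mem_singleton_self (C b)), by simpa using k'.domC hι⟩)
  refine ⟨dlg F - dlg (C b), fun _ _ _ _ => rfl, hs k, ?_⟩
  have h1 : ∀ᶠ w' : Ber H H[X] in 𝓝 w, w'.v (f - C (ι b)⁻¹ * F.map ι) < w'.v f :=
    (Ber.continuous_v _).continuousAt.eventually_lt (Ber.continuous_v _).continuousAt k.2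
  filter_upwards [h1] with w' hw' _
  have k' : EDl.Ap ι f w' F b := ⟨k.1, hw'⟩
  refine ⟨hs k', ?_⟩
  rw [k'.dlH_eq hι]
  exact (LogSpace.germ_sub _ _ _).symm

end Pool.Agent.TD


end

section

/-! Block E: calculus of locally constant sections (module TD_E_LC). -/

open scoped Topology
open Polynomial

namespace Pool.Agent.TD

variable {K A H : Type} [NormedField K] [CommRing A] [Algebra K A] [NormedField H]
  {y : Ber K A} {ι : A →+* H} {p : ℕ}

theorem LCat.mono (hι : IsRes y ι) {s : SecT hι p} {D D' : Set (Ber H H[X])} {w : Ber H H[X]}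
    (h : LCat hι s D w) (hD : D' ⊆ D) : LCat hι s D' w := by
  obtain ⟨θ, hc, hs, he⟩ := h
  exact ⟨θ, hc, hs, he.mono fun w' h' hw' => h' (hD hw')⟩

theorem LCat.congr (hι : IsRes y ι) {s t : SecT hι p} {D : Set (Ber H H[X])} {w : Ber H H[X]}
    (h : LCat hι s D w) (he : ∀ᶠ w' in 𝓝 w, w' ∈ D → s w' = t w') : LCat hι t D w := by
  obtain ⟨θ, hc, hs, h1⟩ := h
  refine ⟨θ, hc, hs, (h1.and he).mono ?_⟩
  rintro w' ⟨h2, h3⟩ hw'
  obtain ⟨k, hk⟩ := h2 hw'
  exact ⟨k, by rw [← h3 hw', hk]⟩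

theorem LCat.zero (hι : IsRes y ι) (D : Set (Ber H H[X])) (w : Ber H H[X]) :
    LCat hι (0 : SecT hι p) D w := by
  refine ⟨0, isCst_zero, LogSpace.SFat.zero _, Filter.Eventually.of_forall fun w' _ => ?_⟩
  exact ⟨LogSpace.SFat.zero _, ((berLS K A[X]).germ_zero (z := jj hι w')).symm⟩

theorem LCat.add (hι : IsRes y ι) {s t : SecT hι p} {D : Set (Ber H H[X])} {w : Ber H H[X]}
    (h : LCat hι s D w) (k : LCat hι t D w) : LCat hι (s + t) D w := by
  obtain ⟨θ, hc, hs, he⟩ := h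
  obtain ⟨η, kc, ks, ke⟩ := k
  refine ⟨θ + η, hc.add kc, hs.add ks, (he.and ke).mono ?_⟩
  rintro w' ⟨h1, h2⟩ hw'
  obtain ⟨a1, e1⟩ := h1 hw'
  obtain ⟨a2, e2⟩ := h2 hw'
  refine ⟨a1.add a2, ?_⟩
  show s w' + t w' = _
  rw [e1, e2, LogSpace.germ_add]

theorem LCat.smul (hι : IsRes y ι) {s : SecT hι p} {D : Set (Ber H H[X])} {w : Ber H H[X]}
    (c : ℝ) (h : LCat hι s D w) : LCat hι (c • s) D w := by
  obtain ⟨θ, hc, hs, he⟩ := h
  refine ⟨c • θ, hc.smul c, hs.smul c, he.mono ?_⟩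
  intro w' h1 hw'
  obtain ⟨a1, e1⟩ := h1 hw'
  refine ⟨a1.smul c, ?_⟩
  show c • s w' = _
  rw [e1, LogSpace.germ_smul]

theorem LCat.neg (hι : IsRes y ι) {s : SecT hι p} {D : Set (Ber H H[X])} {w : Ber H H[X]}
    (h : LCat hι s D w) : LCat hι (-s) D w := by
  have h1 := LCat.smul hι (-1) h
  have e : (-1 : ℝ) • s = -s := neg_one_smul ℝ s
  rwa [e] at h1

theorem LCat.sub (hι : IsRes y ι) {s t : SecT hι p} {D : Set (Ber H H[X])} {w : Ber H H[X]}
    (h : LCat hι s D w) (k : LCat hι t D w) : LCat hι (s - t) D w := by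
  have h1 := LCat.add hι h (LCat.neg hι k)
  rwa [← sub_eq_add_neg] at h1

/-- exterior product with a locally constant `1`-form -/
theorem LCat.WH (hι : IsRes y ι) {s : SecT hι p} {D : Set (Ber H H[X])} {w : Ber H H[X]}
    {f : H[X]} (hf : LC hι (dlH hι f) w) (h : LCat hι s D w) : LCat hι (WH hι f s) D w := by
  obtain ⟨η, kc, ks, ke⟩ := hf
  obtain ⟨θ, hc, hs, he⟩ := h
  refine ⟨wdg1 η θ, kc.wdg1 hc, LogSpace.SFat.wdg1 _ ks hs, (ke.and he).mono ?_⟩
  rintro w' ⟨h1, h2⟩ hw'
  obtain ⟨a1, e1⟩ := h1 (Set.mem_univ _)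
  obtain ⟨a2, e2⟩ := h2 hw'
  refine ⟨LogSpace.SFat.wdg1 _ a1 a2, ?_⟩
  rw [WH_apply, e1, e2, LogSpace.wdS_germ]

theorem LC.oneS (hι : IsRes y ι) (w : Ber H H[X]) :
    LC hι (fun w => (berLS K A[X]).oneS (jj hι w)) w := by
  refine ⟨one0, isCst_one0, ⟨∅, isSF_one0 ∅, by simp⟩, Filter.Eventually.of_forall fun w' _ => ?_⟩
  exact ⟨⟨∅, isSF_one0 ∅, by simp⟩, rfl⟩

theorem LC.reg (hι : IsRes y ι) {s : SecT hι p} {w : Ber H H[X]} (h : LC hι s w) :
    Reg hι s w :=
  LCat.mono hι h (Set.subset_univ _)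

/-- local constancy is an open condition -/
theorem LC.nhds (hι : IsRes y ι) {s : SecT hι p} {w : Ber H H[X]} (h : LC hι s w) :
    ∀ᶠ w' in 𝓝 w, LC hι s w' := by
  obtain ⟨θ, hc, hs, he⟩ := h
  refine (eventually_eventually_nhds.2 he).mono fun w' he' => ?_
  obtain ⟨k, -⟩ := he'.self_of_nhds (Set.mem_univ _)
  exact ⟨θ, hc, k, he'⟩

theorem LC.mem_Lp (hι : IsRes y ι) {s : SecT hι p} {w : Ber H H[X]} (h : LC hι s w) :
    s w ∈ (berLS K A[X]).Lp p (jj hι w) := by
  obtain ⟨θ, hc, hs, he⟩ := h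
  obtain ⟨k, hk⟩ := he.self_of_nhds (Set.mem_univ _)
  rw [hk]
  exact (berLS K A[X]).germ_cst_mem hc k

theorem LC.closed (hι : IsRes y ι) {s : SecT hι p} {w : Ber H H[X]} (h : LC hι s w) :
    (berLS K A[X]).ddS p 0 (jj hι w) (s w) = 0 :=
  (berLS K A[X]).Lp_closed (LC.mem_Lp hι h)

/-- two locally constant sections with the same germ at `w` agree near `w` -/
theorem LC.eq_near (hι : IsRes y ι) {s t : SecT hι p} {w : Ber H H[X]} (h : LC hι s w)
    (k : LC hι t w) (e : s w = t w) : ∀ᶠ w' in 𝓝 w, s w' = t w' := by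
  obtain ⟨θ, hc, hs, he⟩ := h
  obtain ⟨η, kc, ks, ke⟩ := k
  obtain ⟨a1, e1⟩ := he.self_of_nhds (Set.mem_univ _)
  obtain ⟨a2, e2⟩ := ke.self_of_nhds (Set.mem_univ _)
  rw [e1, e2, LogSpace.germ_eq_iff] at e
  have hv : ∀ᶠ w' in 𝓝 w, (berLS K A[X]).Van (jj hι w') (θ - η) :=
    (jj_continuous hι).continuousAt.eventually (LogSpace.Van.nhds _ e)
  refine ((he.and ke).and hv).mono ?_
  rintro w' ⟨⟨h1, h2⟩, h3⟩
  obtain ⟨b1, f1⟩ := h1 (Set.mem_univ _)
  obtain ⟨b2, f2⟩ := h2 (Set.mem_univ _)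
  rw [f1, f2, LogSpace.germ_eq_iff]
  exact h3

namespace LcAux

open Classical in
/-- the section given by one raw form, where this is defined -/
noncomputable def secOf (hι : IsRes y ι) (θ : Raw A[X] p 0) : SecT hι p := fun w =>
  if h : (berLS K A[X]).SFat (jj hι w) θ then (berLS K A[X]).germ θ h else 0

theorem secOf_eq (hι : IsRes y ι) {θ : Raw A[X] p 0} {w : Ber H H[X]}
    (h : (berLS K A[X]).SFat (jj hι w) θ) : secOf hι θ w = (berLS K A[X]).germ θ h := by
  unfold secOf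
  rw [dif_pos h]

theorem secOf_LC (hι : IsRes y ι) {θ : Raw A[X] p 0} (hc : IsCst θ) {w : Ber H H[X]}
    (h : (berLS K A[X]).SFat (jj hι w) θ) : LC hι (secOf hι θ) w := by
  refine ⟨θ, hc, h, ?_⟩
  have h1 : ∀ᶠ w' in 𝓝 w, (berLS K A[X]).SFat (jj hι w') θ :=
    (jj_continuous hι).continuousAt.eventually (LogSpace.SFat.nhds _ h)
  exact h1.mono fun w' hw' _ => ⟨hw', secOf_eq hι hw'⟩

end LcAux

theorem exists_LC (hι : IsRes y ι) {w : Ber H H[X]} {x : (berLS K A[X]).Stalk p 0 (jj hι w)}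
    (hx : x ∈ (berLS K A[X]).Lp p (jj hι w)) : ∃ s : SecT hι p, LC hι s w ∧ s w = x := by
  obtain ⟨θ, hc, h, rfl⟩ := (berLS K A[X]).exists_cst hx
  exact ⟨LcAux.secOf hι θ, LcAux.secOf_LC hι hc h, LcAux.secOf_eq hι h⟩

/-- `s` is regular at `w` iff it agrees outside `w` with a locally constant section -/
theorem reg_iff (hι : IsRes y ι) {s : SecT hι p} {w : Ber H H[X]} :
    Reg hι s w ↔ ∃ u : SecT hι p, LC hι u w ∧ ∀ᶠ w' in 𝓝[≠] w, s w' = u w' := by
  constructor
  · rintro ⟨θ, hc, h, he⟩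
    refine ⟨LcAux.secOf hι θ, LcAux.secOf_LC hι hc h, ?_⟩
    rw [eventually_nhdsWithin_iff]
    refine he.mono fun w' h1 hw' => ?_
    obtain ⟨k, hk⟩ := h1 hw'
    rw [hk, LcAux.secOf_eq hι k]
  · rintro ⟨u, hu, he⟩
    rw [eventually_nhdsWithin_iff] at he
    refine LCat.congr hι (LC.reg hι hu) ?_
    exact he.mono fun w' h1 hw' => (h1 hw').symm

end Pool.Agent.TD


end

section

/-! Block E: symbols (module TD_E_SYM). -/

open scoped Topology
open Polynomial

namespace Pool.Agent.TD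

variable {K A H : Type} [NormedField K] [CommRing A] [Algebra K A] [NormedField H]
  {y : Ber K A} {ι : A →+* H} {p d : ℕ}

theorem Sy_mono (hι : IsRes y ι) {d' : ℕ} (h : d ≤ d') : Sy hι p d ≤ Sy hι p d' := by
  induction p with
  | zero => exact le_rfl
  | succ p ih =>
    refine Submodule.span_mono ?_
    rintro s ⟨f, t, h1, h2, h3, rfl⟩
    exact ⟨f, t, h1, h2.trans_le h, ih h3, rfl⟩

theorem WH_mem_Sy (hι : IsRes y ι) {f : H[X]} {t : SecT hι p} (hf : f ≠ 0)
    (hd : f.natDegree < d) (ht : t ∈ Sy hι p d) : WH hι f t ∈ Sy hι (p + 1) d :=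
  Submodule.subset_span ⟨f, t, hf, hd, ht, rfl⟩

namespace SymAux

theorem one_mem (hι : IsRes y ι) :
    (fun w => (berLS K A[X]).oneS (jj hι w) : SecT hι 0) ∈ Sy hι 0 d :=
  Submodule.subset_span rfl

/-- The monic irreducible factors of a polynomial. -/
theorem exists_factors {f : H[X]} (hf : f ≠ 0) (hd : f.natDegree < d) :
    ∃ B : Finset H[X], (∀ P ∈ B, P.Monic ∧ Irreducible P ∧ P.natDegree < d) ∧
      ∀ w : Ber H H[X], (∀ P ∈ B, w.v P ≠ 0) → w.v f ≠ 0 := by
  classical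
  refine ⟨(UniqueFactorizationMonoid.normalizedFactors f).toFinset, ?_, ?_⟩
  · intro P hP
    rw [Multiset.mem_toFinset] at hP
    have h1 := UniqueFactorizationMonoid.irreducible_of_normalized_factor P hP
    have h2 := UniqueFactorizationMonoid.normalize_normalized_factor P hP
    have h3 := UniqueFactorizationMonoid.dvd_of_mem_normalizedFactors hP
    refine ⟨?_, h1, (Polynomial.natDegree_le_of_dvd h3 hf).trans_lt hd⟩
    rw [← h2]
    exact Polynomial.monic_normalize h1.ne_zero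
  · intro w hw
    obtain ⟨c, hc⟩ := UniqueFactorizationMonoid.prod_normalizedFactors hf
    rw [← hc, w.mul, w.mprod]
    refine mul_ne_zero ?_ ?_
    · intro h0
      rw [Multiset.prod_eq_zero_iff, Multiset.mem_map] at h0
      obtain ⟨P, hP, hP0⟩ := h0
      exact hw P (Multiset.mem_toFinset.2 hP) hP0
    · intro h0
      have h1 : w.v (c : H[X]) * w.v ((c⁻¹ : H[X]ˣ) : H[X]) = 1 := by
        rw [← w.mul, ← Units.val_mul, mul_inv_cancel, Units.val_one, w.one]
      rw [h0, zero_mul] at h1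
      exact zero_ne_one h1

end SymAux

/-- Symbols are locally constant outside finitely many closed points. -/
theorem Sy_bad (hι : IsRes y ι) {s : SecT hι p} (hs : s ∈ Sy hι p d) :
    ∃ B : Finset H[X], (∀ P ∈ B, P.Monic ∧ Irreducible P ∧ P.natDegree < d) ∧
      ∀ w : Ber H H[X], (∀ P ∈ B, w.v P ≠ 0) → LC hι s w := by
  classical
  have hzero : ∀ q : ℕ, ∃ B : Finset H[X], (∀ P ∈ B, P.Monic ∧ Irreducible P ∧ P.natDegree < d) ∧
      ∀ w : Ber H H[X], (∀ P ∈ B, w.v P ≠ 0) → LC hι (0 : SecT hι q) w :=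
    fun q => ⟨∅, by simp, fun w _ => LCat.zero hι _ w⟩
  have hadd : ∀ (q : ℕ) (a b : SecT hι q),
      (∃ B : Finset H[X], (∀ P ∈ B, P.Monic ∧ Irreducible P ∧ P.natDegree < d) ∧
      ∀ w : Ber H H[X], (∀ P ∈ B, w.v P ≠ 0) → LC hι a w) →
      (∃ B : Finset H[X], (∀ P ∈ B, P.Monic ∧ Irreducible P ∧ P.natDegree < d) ∧
      ∀ w : Ber H H[X], (∀ P ∈ B, w.v P ≠ 0) → LC hι b w) →
      ∃ B : Finset H[X], (∀ P ∈ B, P.Monic ∧ Irreducible P ∧ P.natDegree < d) ∧
      ∀ w : Ber H H[X], (∀ P ∈ B, w.v P ≠ 0) → LC hι (a + b) w := by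
    rintro q a b ⟨B, hB, hB'⟩ ⟨C, hC, hC'⟩
    refine ⟨B ∪ C, ?_, ?_⟩
    · intro P hP
      rcases Finset.mem_union.1 hP with h | h
      exacts [hB P h, hC P h]
    · intro w hw
      exact LCat.add hι (hB' w fun P hP => hw P (Finset.mem_union_left _ hP))
        (hC' w fun P hP => hw P (Finset.mem_union_right _ hP))
  have hsmul : ∀ (q : ℕ) (c : ℝ) (a : SecT hι q),
      (∃ B : Finset H[X], (∀ P ∈ B, P.Monic ∧ Irreducible P ∧ P.natDegree < d) ∧
      ∀ w : Ber H H[X], (∀ P ∈ B, w.v P ≠ 0) → LC hι a w) →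
      ∃ B : Finset H[X], (∀ P ∈ B, P.Monic ∧ Irreducible P ∧ P.natDegree < d) ∧
      ∀ w : Ber H H[X], (∀ P ∈ B, w.v P ≠ 0) → LC hι (c • a) w := by
    rintro q c a ⟨B, hB, hB'⟩
    exact ⟨B, hB, fun w hw => LCat.smul hι c (hB' w hw)⟩
  induction p with
  | zero =>
    change s ∈ Submodule.span ℝ _ at hs
    induction hs using Submodule.span_induction with
    | mem s hs =>
      refine ⟨∅, by simp, fun w _ => ?_⟩
      rw [Set.mem_singleton_iff.1 hs]
      exact LC.oneS hι w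
    | zero => exact hzero _
    | add a b _ _ ha hb => exact hadd _ a b ha hb
    | smul c a _ ha => exact hsmul _ c a ha
  | succ p ih =>
    change s ∈ Submodule.span ℝ _ at hs
    induction hs using Submodule.span_induction with
    | mem s hs =>
      obtain ⟨f, t, hf, hd, ht, rfl⟩ := hs
      obtain ⟨B, hB, hB'⟩ := ih ht
      obtain ⟨C, hC, hC'⟩ := SymAux.exists_factors hf hd
      refine ⟨B ∪ C, ?_, ?_⟩
      · intro P hP
        rcases Finset.mem_union.1 hP with h | h
        exacts [hB P h, hC P h]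
      · intro w hw
        have h1 := hB' w fun P hP => hw P (Finset.mem_union_left _ hP)
        have h2 := hC' w fun P hP => hw P (Finset.mem_union_right _ hP)
        exact LCat.WH hι (dlH_LC hι h2) h1
    | zero => exact hzero _
    | add a b _ _ ha hb => exact hadd _ a b ha hb
    | smul c a _ ha => exact hsmul _ c a ha

namespace SymAux

/-- symbols of functions -/
theorem exists_sym (hι : IsRes y ι) {w : Ber H H[X]} : ∀ (p : ℕ) (f : Fin p → A[X])
    (h : ∀ i, jj hι w ∈ (berLS K A[X]).dom (f i)), ∃ d, ∃ s ∈ Sy hι p d, LC hι s w ∧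
      s w = (berLS K A[X]).symS p (fun i => (berLS K A[X]).dlS (f i) (h i)) := by
  intro p
  induction p with
  | zero =>
    intro f h
    exact ⟨0, _, one_mem hι, LC.oneS hι w, rfl⟩
  | succ p ih =>
    intro f h
    obtain ⟨d, t, ht, ht', ht''⟩ := ih (fun i => f i.succ) (fun i => h i.succ)
    have hv : w.v ((f 0).map ι) ≠ 0 := h 0
    have hne : (f 0).map ι ≠ 0 := by
      intro h0
      rw [h0, w.zero] at hv
      exact hv rfl
    refine ⟨max d (((f 0).map ι).natDegree + 1), WH hι ((f 0).map ι) t,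
      WH_mem_Sy hι hne ?_ (Sy_mono hι (le_max_left _ _) ht), LCat.WH hι (dlH_LC hι hv) ht', ?_⟩
    · exact (Nat.lt_succ_self _).trans_le (le_max_right _ _)
    · rw [WH_apply, dlH_map hι (h 0), ht'']
      rfl

theorem exists_sym_closed (hι : IsRes y ι) {Q : H[X]} (hQ : Q.Monic) (hQ' : Irreducible Q)
    {w : Ber H H[X]} (hw : w.v Q = 0) : ∀ (p : ℕ) (f : Fin p → A[X])
    (h : ∀ i, jj hι w ∈ (berLS K A[X]).dom (f i)), ∃ s ∈ Sy hι p Q.natDegree, LC hι s w ∧
      s w = (berLS K A[X]).symS p (fun i => (berLS K A[X]).dlS (f i) (h i)) := by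
  intro p
  induction p with
  | zero =>
    intro f h
    exact ⟨_, one_mem hι, LC.oneS hι w, rfl⟩
  | succ p ih =>
    intro f h
    obtain ⟨t, ht, ht', ht''⟩ := ih (fun i => f i.succ) (fun i => h i.succ)
    have hv : w.v ((f 0).map ι) ≠ 0 := h 0
    have hlt : w.v ((f 0).map ι - (f 0).map ι %ₘ Q) < w.v ((f 0).map ι) := by
      have e : (f 0).map ι - (f 0).map ι %ₘ Q = Q * ((f 0).map ι /ₘ Q) := by
        have := Polynomial.modByMonic_add_div ((f 0).map ι) Q
        rw [sub_eq_iff_eq_add']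
        exact this.symm
      rw [e, w.mul, hw, zero_mul]
      exact lt_of_le_of_ne (w.nonneg _) hv.symm
    have hv' : w.v ((f 0).map ι %ₘ Q) ≠ 0 := by
      rw [w.sub_eq hlt]
      exact hv
    have hne : (f 0).map ι %ₘ Q ≠ 0 := by
      intro h0
      rw [h0, w.zero] at hv'
      exact hv' rfl
    have hQ1 : Q ≠ 1 := by
      rintro rfl
      exact hQ'.not_isUnit isUnit_one
    refine ⟨WH hι ((f 0).map ι %ₘ Q) t,
      WH_mem_Sy hι hne (Polynomial.natDegree_modByMonic_lt _ hQ hQ1) ht,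
      LCat.WH hι (dlH_LC hι hv') ht', ?_⟩
    rw [WH_apply, ← dlH_congr hι hlt, dlH_map hι (h 0), ht'']
    rfl

end SymAux

/-- (E2) -/
theorem exists_Sy (hι : IsRes y ι) {w : Ber H H[X]} {x : (berLS K A[X]).Stalk p 0 (jj hι w)}
    (hx : x ∈ (berLS K A[X]).Lp p (jj hι w)) :
    ∃ d, ∃ s ∈ Sy hι p d, LC hι s w ∧ s w = x := by
  unfold LogSpace.Lp at hx
  induction hx using Submodule.span_induction with
  | mem x hx =>
    obtain ⟨f, h, rfl⟩ := hx
    exact SymAux.exists_sym hι p f h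
  | zero => exact ⟨0, 0, Submodule.zero_mem _, LCat.zero hι _ w, rfl⟩
  | add a b _ _ ha hb =>
    obtain ⟨d1, s1, h1, h1', rfl⟩ := ha
    obtain ⟨d2, s2, h2, h2', rfl⟩ := hb
    exact ⟨max d1 d2, s1 + s2, Submodule.add_mem _ (Sy_mono hι (le_max_left _ _) h1)
      (Sy_mono hι (le_max_right _ _) h2), LCat.add hι h1' h2', rfl⟩
  | smul c a _ ha =>
    obtain ⟨d1, s1, h1, h1', rfl⟩ := ha
    exact ⟨d1, c • s1, Submodule.smul_mem _ c h1, LCat.smul hι c h1', rfl⟩

/-- (E2) at a closed point: representatives of degree smaller than the degree of the point. -/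
theorem exists_Sy_closed (hι : IsRes y ι) {Q : H[X]} (hQ : Q.Monic) (hQ' : Irreducible Q)
    {w : Ber H H[X]} (hw : w.v Q = 0) {x : (berLS K A[X]).Stalk p 0 (jj hι w)}
    (hx : x ∈ (berLS K A[X]).Lp p (jj hι w)) :
    ∃ s ∈ Sy hι p Q.natDegree, LC hι s w ∧ s w = x := by
  unfold LogSpace.Lp at hx
  induction hx using Submodule.span_induction with
  | mem x hx =>
    obtain ⟨f, h, rfl⟩ := hx
    exact SymAux.exists_sym_closed hι hQ hQ' hw p f h
  | zero => exact ⟨0, Submodule.zero_mem _, LCat.zero hι _ w, rfl⟩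
  | add a b _ _ ha hb =>
    obtain ⟨s1, h1, h1', rfl⟩ := ha
    obtain ⟨s2, h2, h2', rfl⟩ := hb
    exact ⟨s1 + s2, Submodule.add_mem _ h1 h2, LCat.add hι h1' h2', rfl⟩
  | smul c a _ ha =>
    obtain ⟨s1, h1, h1', rfl⟩ := ha
    exact ⟨c • s1, Submodule.smul_mem _ c h1, LCat.smul hι c h1', rfl⟩

end Pool.Agent.TD


end

section

/-! Block E: polar parts of symbols (module TD_E_POL). -/

open scoped Topology
open Polynomial

namespace Pool.Agent.TD

variable {K A H : Type} [NormedField K] [CommRing A] [Algebra K A] [NormedField H]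
  [IsUltrametricDist H] [CompleteSpace H] {y : Ber K A} {ι : A →+* H} {p d : ℕ}

namespace POL

/-- `s` has a polar part along `P` at `w`. -/
def Pol (hι : IsRes y ι) (P : H[X]) (w : Ber H H[X]) (s : SecT hι (p + 1)) : Prop :=
  ∃ (u : SecT hι (p + 1)) (v : SecT hι p), LC hι u w ∧ LC hι v w ∧
      ∀ᶠ w' in 𝓝[≠] w, s w' = u w' + WH hι P v w'

omit [IsUltrametricDist H] [CompleteSpace H] in
theorem Pol.zero (hι : IsRes y ι) (P : H[X]) (w : Ber H H[X]) :
    Pol hι P w (0 : SecT hι (p + 1)) := by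
  refine ⟨0, 0, LCat.zero hι _ _, LCat.zero hι _ _, Filter.Eventually.of_forall fun w' => ?_⟩
  rw [map_zero]
  simp

omit [IsUltrametricDist H] [CompleteSpace H] in
theorem Pol.add (hι : IsRes y ι) {P : H[X]} {w : Ber H H[X]} {s t : SecT hι (p + 1)}
    (hs : Pol hι P w s) (ht : Pol hι P w t) : Pol hι P w (s + t) := by
  obtain ⟨u, v, hu, hv, h⟩ := hs
  obtain ⟨u', v', hu', hv', h'⟩ := ht
  refine ⟨u + u', v + v', LCat.add hι hu hu', LCat.add hι hv hv', ?_⟩
  filter_upwards [h, h'] with w' e e'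
  rw [map_add, Pi.add_apply, Pi.add_apply, Pi.add_apply, e, e']
  abel

omit [IsUltrametricDist H] [CompleteSpace H] in
theorem Pol.smul (hι : IsRes y ι) {P : H[X]} {w : Ber H H[X]} {s : SecT hι (p + 1)} (c : ℝ)
    (hs : Pol hι P w s) : Pol hι P w (c • s) := by
  obtain ⟨u, v, hu, hv, h⟩ := hs
  refine ⟨c • u, c • v, LCat.smul hι c hu, LCat.smul hι c hv, ?_⟩
  filter_upwards [h] with w' e
  rw [map_smul, Pi.smul_apply, Pi.smul_apply, Pi.smul_apply, e, smul_add]

/-- near a zero `w` of `P` the differential of `f` is that of `P^k g`, `g` being invertible at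
`w`. -/
theorem dl_near (hClp : StmtClp) (hι : IsRes y ι) {P f : H[X]} (hP : Irreducible P)
    {w : Ber H H[X]} (hw : w.v P = 0) (hf : f ≠ 0) :
    ∃ (k : ℕ) (g : H[X]), LC hι (dlH hι g) w ∧
      ∀ᶠ w' in 𝓝[≠] w, dlH hι f w' = (k : ℝ) • dlH hι P w' + dlH hι g w' := by
  obtain ⟨k, g, hg, e⟩ := WfDvdMonoid.max_power_factor hf hP
  obtain ⟨c, -, hc2, -, hc4⟩ := hClp H P hP
  have hwg : w.v g ≠ 0 := by
    intro h
    rw [hc2 w hw] at h
    exact hg ((hc4 g).1 h)
  refine ⟨k, g, dlH_LC hι hwg, ?_⟩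
  have h1 : ∀ᶠ w' in 𝓝[≠] w, w'.v g ≠ 0 :=
    ((Ber.continuous_v g).continuousAt.eventually_ne hwg).filter_mono nhdsWithin_le_nhds
  have h2 : ∀ᶠ w' in 𝓝[≠] w, w'.v P ≠ 0 := by
    filter_upwards [self_mem_nhdsWithin] with w' hw' h
    exact hw' ((hc2 w' h).trans (hc2 w hw).symm)
  filter_upwards [h1, h2] with w' h1 h2
  rw [e, dlH_pow_mul hι h2 h1]

theorem gen0 (hClp : StmtClp) (hι : IsRes y ι) {P f : H[X]} (hP : Irreducible P)
    {w : Ber H H[X]} (hw : w.v P = 0) (hf : f ≠ 0) {t : SecT hι p} (ht : LC hι t w) :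
    Pol hι P w (WH hι f t) := by
  obtain ⟨k, g, hg, h⟩ := dl_near hClp hι hP hw hf
  refine ⟨WH hι g t, (k : ℝ) • t, LCat.WH hι hg ht, LCat.smul hι _ ht, ?_⟩
  filter_upwards [h] with w' e
  rw [map_smul, Pi.smul_apply, WH_apply, WH_apply, WH_apply, e, map_add, map_smul,
    LinearMap.add_apply, LinearMap.smul_apply]
  exact add_comm _ _

theorem genS (hClp : StmtClp) (hι : IsRes y ι) {P f : H[X]} (hP : Irreducible P)
    {w : Ber H H[X]} (hw : w.v P = 0) (hf : f ≠ 0) {t : SecT hι (p + 1)} (ht : Pol hι P w t) :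
    Pol hι P w (WH hι f t) := by
  obtain ⟨k, g, hg, h⟩ := dl_near hClp hι hP hw hf
  obtain ⟨u, v, hu, hv, h'⟩ := ht
  refine ⟨WH hι g u, (k : ℝ) • u - WH hι g v, LCat.WH hι hg hu,
    LCat.sub hι (LCat.smul hι _ hu) (LCat.WH hι hg hv), ?_⟩
  filter_upwards [h, h'] with w' e e'
  rw [map_sub, map_smul, Pi.sub_apply, Pi.smul_apply, WH_apply, WH_apply, WH_apply, WH_apply,
    WH_apply, e, e', WH_apply]
  simp only [map_add, map_smul, LinearMap.add_apply, LinearMap.smul_apply]
  rw [LogSpace.wdS_self, smul_zero, zero_add,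
    LogSpace.wdS_anti (berLS K A[X]) (dlH hι g w') (dlH hι P w') (v w')]
  abel

end POL

/-- (E3) -/
theorem polar (hClp : StmtClp) (hι : IsRes y ι) {s : SecT hι (p + 1)} (hs : s ∈ Sy hι (p + 1) d)
    {P : H[X]} (hP : Irreducible P) {w : Ber H H[X]} (hw : w.v P = 0) :
    ∃ (u : SecT hι (p + 1)) (v : SecT hι p), LC hι u w ∧ LC hι v w ∧
      ∀ᶠ w' in 𝓝[≠] w, s w' = u w' + WH hι P v w' := by
  change POL.Pol hι P w s
  induction p with
  | zero =>
    unfold Sy at hs
    induction hs using Submodule.span_induction with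
    | mem s hs =>
      obtain ⟨f, t, hf, -, ht, rfl⟩ := hs
      refine POL.gen0 hClp hι hP hw hf ?_
      unfold Sy at ht
      obtain ⟨c, rfl⟩ := Submodule.mem_span_singleton.1 ht
      exact LCat.smul hι c (LC.oneS hι w)
    | zero => exact POL.Pol.zero hι P w
    | add s t _ _ hs ht => exact hs.add hι ht
    | smul c s _ hs => exact hs.smul hι c
  | succ p ih =>
    unfold Sy at hs
    induction hs using Submodule.span_induction with
    | mem s hs =>
      obtain ⟨f, t, hf, -, ht, rfl⟩ := hs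
      exact POL.genS hClp hι hP hw hf (ih ht)
    | zero => exact POL.Pol.zero hι P w
    | add s t _ _ hs ht => exact hs.add hι ht
    | smul c s _ hs => exact hs.smul hι c

end Pool.Agent.TD


end

section

/-! Block E: symbols with given polar parts (module TD_E_PP). -/

open scoped Topology
open Polynomial

namespace Pool.Agent.TD

variable {K A H : Type} [NormedField K] [CommRing A] [Algebra K A] [NormedField H]
  [IsUltrametricDist H] [CompleteSpace H] {y : Ber K A} {ι : A →+* H} {p : ℕ}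

namespace EPP

/-- at the closed point of `Q` exactly the multiples of `Q` vanish -/
theorem vz (hClp : StmtClp) {Q : H[X]} (hQ : Irreducible Q) {w : Ber H H[X]} (hw : w.v Q = 0)
    (f : H[X]) : w.v f = 0 ↔ Q ∣ f := by
  obtain ⟨c, -, hc2, -, hc4⟩ := hClp H Q hQ
  rw [hc2 w hw]
  exact hc4 f

theorem vne (hClp : StmtClp) {Q P : H[X]} (hQ : Irreducible Q) (hQm : Q.Monic)
    (hP : Irreducible P) (hPm : P.Monic) {w : Ber H H[X]} (hw : w.v Q = 0) (hne : P ≠ Q) :
    w.v P ≠ 0 := by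
  intro h
  have h1 : Q ∣ P := (vz hClp hQ hw P).1 h
  have h2 : Associated Q P := (hQ.dvd_irreducible_iff_associated hP).1 h1
  exact hne (Polynomial.eq_of_monic_of_associated hPm hQm h2.symm)

omit [IsUltrametricDist H] [CompleteSpace H] in
theorem lcat_sum (hι : IsRes y ι) {T : Type} [DecidableEq T] (S : Finset T) (f : T → SecT hι p)
    {D : Set (Ber H H[X])} {w : Ber H H[X]} (h : ∀ i ∈ S, LCat hι (f i) D w) :
    LCat hι (∑ i ∈ S, f i) D w := by
  induction S using Finset.induction_on with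
  | empty =>
    rw [Finset.sum_empty]
    exact LCat.zero hι D w
  | insert i S hi ih =>
    rw [Finset.sum_insert hi]
    exact (h i (Finset.mem_insert_self i S)).add hι
      (ih fun j hj => h j (Finset.mem_insert_of_mem hj))

omit [IsUltrametricDist H] [CompleteSpace H] in
/-- exterior product with a section which vanishes near `w` -/
theorem lcat_WH_sub (hι : IsRes y ι) (Q : H[X]) {s t : SecT hι p} {w : Ber H H[X]}
    (h : ∀ᶠ w' in 𝓝 w, s w' = t w') (D : Set (Ber H H[X])) : LCat hι (WH hι Q (s - t)) D w := by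
  refine (LCat.zero hι D w).congr hι ?_
  filter_upwards [h] with w' hw' _
  rw [WH_apply, Pi.sub_apply, hw', sub_self, map_zero]
  rfl

end EPP

open EPP in
/-- (PP) -/
theorem polar_parts (hClp : StmtClp) (hι : IsRes y ι) (d : ℕ) (F : Finset H[X])
    (hF : ∀ Q ∈ F, Q.Monic ∧ Irreducible Q ∧ Q.natDegree < d) (v : H[X] → SecT hι p)
    (hv : ∀ Q ∈ F, ∀ w : Ber H H[X], w.v Q = 0 → LC hι (v Q) w) :
    ∃ x ∈ Sy hι (p + 1) d,
      (∀ Q ∈ F, ∀ w : Ber H H[X], w.v Q = 0 → Reg hι (x - WH hι Q (v Q)) w) ∧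
      ∀ Q : H[X], Q.Monic → Irreducible Q → Q ∉ F → ∀ w : Ber H H[X], w.v Q = 0 →
        Reg hι x w := by
  classical
  induction d generalizing F v with
  | zero =>
    refine ⟨0, Submodule.zero_mem _, fun Q hQ => absurd (hF Q hQ).2.2 (Nat.not_lt_zero _), ?_⟩
    intro Q _ _ _ w _
    exact LCat.zero hι _ w
  | succ d ih =>
    -- the entries of degree `d`
    let Fd : Finset H[X] := F.filter fun Q => Q.natDegree = d
    have hFd : ∀ Q, Q ∈ Fd ↔ Q ∈ F ∧ Q.natDegree = d := fun Q => Finset.mem_filter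
    have h1 : ∀ Q : H[X], ∃ s : SecT hι p, Q ∈ Fd → s ∈ Sy hι p d ∧
        ∀ w : Ber H H[X], w.v Q = 0 → LC hι s w ∧ ∀ᶠ w' in 𝓝 w, s w' = v Q w' := by
      intro Q
      by_cases hQ : Q ∈ Fd
      · obtain ⟨hQF, hQd⟩ := (hFd Q).1 hQ
        obtain ⟨hQm, hQi, -⟩ := hF Q hQF
        obtain ⟨c, hc1, hc2, -, -⟩ := hClp H Q hQi
        have hLC := hv Q hQF c hc1
        obtain ⟨s, hs, hsLC, hsc⟩ := exists_Sy_closed hι hQm hQi hc1 (hLC.mem_Lp hι)
        rw [hQd] at hs
        refine ⟨s, fun _ => ⟨hs, fun w hw => ?_⟩⟩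
        rw [hc2 w hw]
        exact ⟨hsLC, hsLC.eq_near hι hLC hsc⟩
      · exact ⟨0, fun h => absurd h hQ⟩
    choose v' hv' using h1
    have h2 : ∀ Q : H[X], ∃ B : Finset H[X], Q ∈ Fd →
        (∀ P ∈ B, P.Monic ∧ Irreducible P ∧ P.natDegree < d) ∧
        ∀ w : Ber H H[X], (∀ P ∈ B, w.v P ≠ 0) → LC hι (v' Q) w := by
      intro Q
      by_cases hQ : Q ∈ Fd
      · obtain ⟨B, hB⟩ := Sy_bad hι (hv' Q hQ).1
        exact ⟨B, fun _ => hB⟩
      · exact ⟨∅, fun h => absurd h hQ⟩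
    choose B hB using h2
    let F' : Finset H[X] := (F.filter fun Q => Q.natDegree < d) ∪ Fd.biUnion B
    have hF'1 : ∀ Q ∈ F', Q.Monic ∧ Irreducible Q ∧ Q.natDegree < d := by
      intro Q hQ
      rcases Finset.mem_union.1 hQ with h | h
      · obtain ⟨h3, h4⟩ := Finset.mem_filter.1 h
        exact ⟨(hF Q h3).1, (hF Q h3).2.1, h4⟩
      · obtain ⟨P, hP, hQP⟩ := Finset.mem_biUnion.1 h
        exact (hB P hP).1 Q hQP
    have hyS : (∑ Q ∈ Fd, WH hι Q (v' Q)) ∈ Sy hι (p + 1) (d + 1) := by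
      refine Submodule.sum_mem _ fun Q hQ => ?_
      obtain ⟨hQF, hQd⟩ := (hFd Q).1 hQ
      refine WH_mem_Sy hι (hF Q hQF).1.ne_zero (by omega) ?_
      exact Sy_mono hι (Nat.le_succ d) (hv' Q hQ).1
    -- polar parts of the first summand
    have h3 : ∀ Q : H[X], ∃ s : SecT hι p, Q ∈ F' → ∀ w : Ber H H[X], w.v Q = 0 →
        LC hι s w ∧ Reg hι ((∑ Q ∈ Fd, WH hι Q (v' Q)) - WH hι Q s) w := by
      intro Q
      by_cases hQ : Q ∈ F'
      · obtain ⟨hQm, hQi, -⟩ := hF'1 Q hQ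
        obtain ⟨c, hc1, hc2, -, -⟩ := hClp H Q hQi
        obtain ⟨u, s, hu, hs, he⟩ := polar hClp hι hyS hQi hc1
        refine ⟨s, fun _ w hw => ?_⟩
        rw [hc2 w hw]
        refine ⟨hs, (reg_iff hι).2 ⟨u, hu, ?_⟩⟩
        filter_upwards [he] with w' hw'
        rw [Pi.sub_apply, hw', add_sub_cancel_right]
      · exact ⟨0, fun h => absurd h hQ⟩
    choose v'' hv'' using h3
    have hv1 : ∀ Q ∈ F', ∀ w : Ber H H[X], w.v Q = 0 →
        LC hι ((if Q ∈ F then v Q else 0) - v'' Q) w := by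
      intro Q hQ w hw
      refine LCat.sub hι ?_ (hv'' Q hQ w hw).1
      by_cases hQF : Q ∈ F
      · rw [if_pos hQF]
        exact hv Q hQF w hw
      · rw [if_neg hQF]
        exact LCat.zero hι _ w
    obtain ⟨x', hx'1, hx'2, hx'3⟩ := ih F' hF'1 (fun Q => (if Q ∈ F then v Q else 0) - v'' Q) hv1
    -- the summands of degree `d` are locally constant at the other closed points
    have h4 : ∀ Q : H[X], Q.Monic → Irreducible Q → Q ∉ F' → ∀ w : Ber H H[X], w.v Q = 0 →
        ∀ P ∈ Fd, P ≠ Q → LC hι (WH hι P (v' P)) w := by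
      intro Q hQm hQi hQF' w hw P hP hne
      obtain ⟨hPF, -⟩ := (hFd P).1 hP
      refine LCat.WH hι (dlH_LC hι ?_) ?_
      · exact vne hClp hQi hQm (hF P hPF).2.1 (hF P hPF).1 hw hne
      · refine (hB P hP).2 w fun R hR => ?_
        obtain ⟨hRm, hRi, -⟩ := (hB P hP).1 R hR
        refine vne hClp hQi hQm hRi hRm hw ?_
        rintro rfl
        exact hQF' (Finset.mem_union_right _ (Finset.mem_biUnion.2 ⟨P, hP, hR⟩))
    refine ⟨(∑ Q ∈ Fd, WH hι Q (v' Q)) + x', Submodule.add_mem _ hyS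
      (Sy_mono hι (Nat.le_succ d) hx'1), ?_, ?_⟩
    · intro Q hQ w hw
      obtain ⟨hQm, hQi, hQd⟩ := hF Q hQ
      rcases Nat.lt_succ_iff_lt_or_eq.1 hQd with hlt | heq
      · have hQF' : Q ∈ F' := Finset.mem_union_left _ (Finset.mem_filter.2 ⟨hQ, hlt⟩)
        have h5 := (hv'' Q hQF' w hw).2
        have h6 := hx'2 Q hQF' w hw
        rw [if_pos hQ] at h6
        have h7 := LCat.add hι h5 h6
        have h8 : (∑ Q ∈ Fd, WH hι Q (v' Q)) + x' - WH hι Q (v Q) =
            (∑ Q ∈ Fd, WH hι Q (v' Q)) - WH hι Q (v'' Q) +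
              (x' - WH hι Q (v Q - v'' Q)) := by
          rw [map_sub]
          abel
        rw [h8]
        exact h7
      · have hQFd : Q ∈ Fd := (hFd Q).2 ⟨hQ, heq⟩
        have hQF' : Q ∉ F' := fun h => by
          have := (hF'1 Q h).2.2
          omega
        have h5 := hx'3 Q hQm hQi hQF' w hw
        have h6 : LCat hι (∑ P ∈ Fd.erase Q, WH hι P (v' P)) {w}ᶜ w := by
          refine lcat_sum hι _ _ fun P hP => ?_
          obtain ⟨hne, hP'⟩ := Finset.mem_erase.1 hP
          exact (h4 Q hQm hQi hQF' w hw P hP' hne).mono hι (Set.subset_univ _)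
        have h7 : LCat hι (WH hι Q (v' Q - v Q)) {w}ᶜ w :=
          lcat_WH_sub hι Q ((hv' Q hQFd).2 w hw).2 _
        have h8 : (∑ Q ∈ Fd, WH hι Q (v' Q)) + x' - WH hι Q (v Q) =
            (∑ P ∈ Fd.erase Q, WH hι P (v' P)) + WH hι Q (v' Q - v Q) + x' := by
          rw [map_sub, ← Finset.add_sum_erase Fd (fun P => WH hι P (v' P)) hQFd]
          abel
        rw [h8]
        exact (h6.add hι h7).add hι h5
    · intro Q hQm hQi hQF w hw
      by_cases hQF' : Q ∈ F'
      · have h5 := (hv'' Q hQF' w hw).2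
        have h6 := hx'2 Q hQF' w hw
        rw [if_neg hQF] at h6
        have h7 := LCat.add hι h5 h6
        have h8 : (∑ Q ∈ Fd, WH hι Q (v' Q)) + x' =
            (∑ Q ∈ Fd, WH hι Q (v' Q)) - WH hι Q (v'' Q) +
              (x' - WH hι Q (0 - v'' Q)) := by
          rw [zero_sub, map_neg]
          abel
        rw [h8]
        exact h7
      · refine LCat.add hι ?_ (hx'3 Q hQm hQi hQF' w hw)
        refine lcat_sum hι _ _ fun P hP => ?_
        have hne : P ≠ Q := by
          rintro rfl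
          exact hQF ((hFd P).1 hP).1
        exact (h4 Q hQm hQi hQF' w hw P hP hne).mono hι (Set.subset_univ _)

end Pool.Agent.TD


end

section

/-! Block E: continuation of a combination of symbols to its regular points (module TD_E_EXR). -/

open scoped Topology
open Polynomial

namespace Pool.Agent.TD

variable {K A H : Type} [NormedField K] [CommRing A] [Algebra K A] [NormedField H]
  [IsUltrametricDist H] [CompleteSpace H] {y : Ber K A} {ι : A →+* H} {p d : ℕ}

namespace EXR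

open Classical in
/-- the continuation -/
noncomputable def cont (hι : IsRes y ι) (s : SecT hι p) : SecT hι p := fun w =>
  if LC hι s w then s w
  else if h : Reg hι s w then ((reg_iff hι).1 h).choose w
  else 0

/-- near every point, outside this point, no element of a finite set of irreducible polynomials
vanishes -/
theorem punctured (hClp : StmtClp) (B : Finset H[X]) (hB : ∀ P ∈ B, Irreducible P)
    (w : Ber H H[X]) : ∀ᶠ w' in 𝓝[≠] w, ∀ P ∈ B, w'.v P ≠ 0 := by
  have h : ∀ P ∈ B, ∀ᶠ w' in 𝓝[≠] w, w'.v P ≠ 0 := by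
    intro P hP
    by_cases hw : w.v P = 0
    · obtain ⟨c, -, hc, -⟩ := hClp H P (hB P hP)
      filter_upwards [self_mem_nhdsWithin] with w' hw' h0
      exact hw' ((hc w' h0).trans (hc w hw).symm)
    · have hcont : Continuous (fun w' : Ber H H[X] => w'.v P) := Ber.continuous_v P
      exact (hcont.continuousAt.eventually_ne hw).filter_mono nhdsWithin_le_nhds
  exact (Filter.eventually_all_finset B).2 h

end EXR

theorem exists_regular (hClp : StmtClp) (hι : IsRes y ι) {s : SecT hι p} (hs : s ∈ Sy hι p d) :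
    ∃ t : SecT hι p, (∀ w : Ber H H[X], (∀ Q : H[X], Irreducible Q → w.v Q ≠ 0) → t w = s w) ∧
      ∀ w, Reg hι s w → LC hι t w := by
  obtain ⟨B, hB, hBs⟩ := Sy_bad hι hs
  have hLC : ∀ w, LC hι s w → EXR.cont hι s w = s w := fun w h => if_pos h
  refine ⟨EXR.cont hι s, fun w hw => ?_, fun w hw => ?_⟩
  · exact hLC w (hBs w fun P hP => hw P (hB P hP).2.1)
  · by_cases h : LC hι s w
    · refine LCat.congr hι h ?_
      filter_upwards [LC.nhds hι h] with w' hw' _
      exact (hLC w' hw').symm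
    · have hu := ((reg_iff hι).1 hw).choose_spec
      refine LCat.congr hι hu.1 ?_
      have h1 : ∀ᶠ w' in 𝓝[≠] w, ((reg_iff hι).1 hw).choose w' = EXR.cont hι s w' := by
        filter_upwards [hu.2, EXR.punctured hClp B (fun P hP => (hB P hP).2.1) w] with w' e1 e2
        rw [hLC w' (hBs w' e2), e1]
      have h2 : ((reg_iff hι).1 hw).choose w = EXR.cont hι s w := by
        unfold EXR.cont
        rw [if_neg h, dif_pos hw]
      rw [eventually_nhdsWithin_iff] at h1
      filter_upwards [h1] with w' h3 _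
      by_cases e : w' = w
      · subst e
        exact h2
      · exact h3 e

end Pool.Agent.TD


end

section

/-! Block E: splitting of a germ at `e` (module TD_E_SPLIT). -/

open scoped Topology
open Polynomial

namespace Pool.Agent.TD

variable {K A H : Type} [NormedField K] [CommRing A] [Algebra K A] [NormedField H]
  [IsUltrametricDist H] [CompleteSpace H] {y : Ber K A} {ι : A →+* H} {p : ℕ}

namespace ESplit

omit [IsUltrametricDist H] [CompleteSpace H] in
/-- a vanishing irreducible polynomial can be taken monic -/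
theorem exists_monic {Q : H[X]} (hQ : Irreducible Q) {w : Ber H H[X]} (hw : w.v Q = 0) :
    ∃ P : H[X], P.Monic ∧ Irreducible P ∧ w.v P = 0 := by
  have h0 : Q ≠ 0 := hQ.ne_zero
  refine ⟨Q * C Q.leadingCoeff⁻¹, monic_mul_leadingCoeff_inv h0,
    irreducible_mul_leadingCoeff_inv.2 hQ, ?_⟩
  rw [w.mul, hw, zero_mul]

/-- two monic irreducible polynomials which vanish at the same point are equal -/
theorem eq_of_vanish (hClp : StmtClp) {P Q : H[X]} (hP : P.Monic) (hP' : Irreducible P)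
    (hQ : Q.Monic) (hQ' : Irreducible Q) {w : Ber H H[X]} (h1 : w.v P = 0) (h2 : w.v Q = 0) :
    P = Q := by
  obtain ⟨c, -, huniq, -, hdvd⟩ := hClp H Q hQ'
  have hc : w = c := huniq w h2
  have h3 : Q ∣ P := (hdvd P).1 (hc ▸ h1)
  exact (eq_of_monic_of_associated hQ hP ((hQ'.dvd_irreducible_iff_associated hP').1 h3)).symm

end ESplit

open ESplit in
/-- (S) -/
theorem exists_split (hClp : StmtClp) (hι : IsRes y ι) (e : Ber H H[X])
    {l : (berLS K A[X]).Stalk p 0 (jj hι e)} (hl : l ∈ (berLS K A[X]).Lp p (jj hι e)) :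
    ∃ s₁ s₂ : SecT hι p, (∀ w : Ber H H[X], ¬ w < e → LC hι s₁ w) ∧
      (∀ w : Ber H H[X], w ≤ e → LC hι s₂ w) ∧ s₁ e + s₂ e = l := by
  classical
  cases p with
  | zero =>
    obtain ⟨d, s, hs, -, hsl⟩ := exists_Sy hι hl
    refine ⟨0, s, fun w _ => LCat.zero hι _ w, fun w _ => ?_, ?_⟩
    · obtain ⟨c, hc⟩ := Submodule.mem_span_singleton.1 hs
      rw [← hc]
      exact (LC.oneS hι w).smul hι c
    · rw [hsl]
      exact zero_add l
  | succ p =>
    by_cases hcl : ∃ Q : H[X], Irreducible Q ∧ e.v Q = 0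
    · obtain ⟨Q, hQ, hQe⟩ := hcl
      obtain ⟨c, -, huniq, hmin, -⟩ := hClp H Q hQ
      obtain ⟨d, s, -, hsLC, hsl⟩ := exists_Sy hι hl
      refine ⟨0, s, fun w _ => LCat.zero hι _ w, fun w hw => ?_, ?_⟩
      · have h1 : e = c := huniq e hQe
        have h2 : w = e := by
          rw [h1] at hw ⊢
          exact hmin w hw
        rw [h2]
        exact hsLC
      · rw [hsl]
        exact zero_add l
    · push Not at hcl
      obtain ⟨d, x, hx, -, hxl⟩ := exists_Sy hι hl
      obtain ⟨B, hB, hBx⟩ := Sy_bad hι hx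
      -- polar parts
      have hpol : ∀ Q : H[X], ∃ v : SecT hι p, Irreducible Q → ∀ w : Ber H H[X], w.v Q = 0 →
          LC hι v w ∧ Reg hι (x - WH hι Q v) w := by
        intro Q
        by_cases hQ : Irreducible Q
        · obtain ⟨c, hc, huniq, -, -⟩ := hClp H Q hQ
          obtain ⟨u, v, hu, hv, huv⟩ := polar hClp hι hx hQ hc
          refine ⟨v, fun _ w hw => ?_⟩
          rw [huniq w hw]
          refine ⟨hv, (reg_iff hι).2 ⟨u, hu, ?_⟩⟩
          filter_upwards [huv] with w' hw'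
          show x w' - WH hι Q v w' = u w'
          rw [hw']
          exact add_sub_cancel_right _ _
        · exact ⟨0, fun h => absurd h hQ⟩
      choose v hv using hpol
      let F : Finset H[X] := B.filter fun Q => ∀ w : Ber H H[X], w.v Q = 0 → ¬ w ≤ e
      have hFmem : ∀ Q, Q ∈ F ↔ Q ∈ B ∧ ∀ w : Ber H H[X], w.v Q = 0 → ¬ w ≤ e := fun Q =>
        Finset.mem_filter
      obtain ⟨z, hz, hzF, hzN⟩ := polar_parts hClp hι d F (fun Q hQ => hB Q ((hFmem Q).1 hQ).1) v
        (fun Q hQ w hw => (hv Q (hB Q ((hFmem Q).1 hQ).1).2.1 w hw).1)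
      obtain ⟨Bz, hBz, hBzz⟩ := Sy_bad hι hz
      obtain ⟨s₂, hs₂, hs₂'⟩ := exists_regular hClp hι hz
      obtain ⟨s₁, hs₁, hs₁'⟩ := exists_regular hClp hι (Submodule.sub_mem _ hx hz)
      refine ⟨s₁, s₂, fun w hw => hs₁' w ?_, fun w hw => hs₂' w ?_, ?_⟩
      · by_cases hwc : ∃ Q : H[X], Irreducible Q ∧ w.v Q = 0
        · obtain ⟨Q0, hQ0, hQ0w⟩ := hwc
          obtain ⟨Q, hQm, hQ, hQw⟩ := exists_monic hQ0 hQ0w
          have hne : w ≠ e := fun h => hcl Q hQ (h ▸ hQw)
          have hnle : ¬ w ≤ e := fun h => hw (lt_of_le_of_ne h hne)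
          by_cases hQF : Q ∈ F
          · have h1 := LCat.sub hι (hv Q hQ w hQw).2 (hzF Q hQF w hQw)
            have h2 : x - WH hι Q (v Q) - (z - WH hι Q (v Q)) = x - z := by abel
            rw [h2] at h1
            exact h1
          · obtain ⟨c, hc, huniq, -, -⟩ := hClp H Q hQ
            have hQB : Q ∉ B := by
              intro h
              apply hQF
              refine (hFmem Q).2 ⟨h, fun w' hw' => ?_⟩
              rw [huniq w' hw', ← huniq w hQw]
              exact hnle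
            have hxw : LC hι x w := by
              refine hBx w fun P hP hPw => ?_
              have hPQ : P = Q := eq_of_vanish hClp (hB P hP).1 (hB P hP).2.1 hQm hQ hPw hQw
              exact hQB (hPQ ▸ hP)
            exact LCat.sub hι (hxw.reg hι) (hzN Q hQm hQ hQF w hQw)
        · push Not at hwc
          have hxw : LC hι x w := hBx w fun P hP => hwc P (hB P hP).2.1
          have hzw : LC hι z w := hBzz w fun P hP => hwc P (hBz P hP).2.1
          exact LC.reg hι (LCat.sub hι hxw hzw)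
      · by_cases hwc : ∃ Q : H[X], Irreducible Q ∧ w.v Q = 0
        · obtain ⟨Q0, hQ0, hQ0w⟩ := hwc
          obtain ⟨Q, hQm, hQ, hQw⟩ := exists_monic hQ0 hQ0w
          exact hzN Q hQm hQ (fun h => ((hFmem Q).1 h).2 w hQw hw) w hQw
        · push Not at hwc
          exact LC.reg hι (hBzz w fun P hP => hwc P (hBz P hP).2.1)
      · rw [hs₁ e hcl, hs₂ e hcl, ← hxl]
        exact sub_add_cancel _ _

end Pool.Agent.TD


end

section

/-! Block E: universal property of completed residue fields (module TD_E_EXTI). -/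

namespace Pool.Agent.TD

namespace Exti

section
variable {A H H' : Type} [CommRing A] [NormedField H] [NormedField H'] (ι : A →+* H)
  (κ : A →+* H')

/-- The ring of fractions inside `H`. -/
def fr : Subring H where
  carrier := {h | ∃ a b : A, ι b ≠ 0 ∧ h = ι a / ι b}
  one_mem' := ⟨1, 1, by rw [map_one]; exact one_ne_zero, by rw [map_one, div_one]⟩
  zero_mem' := ⟨0, 1, by rw [map_one]; exact one_ne_zero, by rw [map_zero, zero_div]⟩
  add_mem' := by
    rintro x y ⟨a, b, hb, rfl⟩ ⟨c, d, hd, rfl⟩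
    refine ⟨a * d + b * c, b * d, by rw [map_mul]; exact mul_ne_zero hb hd, ?_⟩
    rw [map_add, map_mul, map_mul, map_mul, div_add_div _ _ hb hd]
  mul_mem' := by
    rintro x y ⟨a, b, hb, rfl⟩ ⟨c, d, hd, rfl⟩
    refine ⟨a * c, b * d, by rw [map_mul]; exact mul_ne_zero hb hd, ?_⟩
    rw [map_mul, map_mul, div_mul_div_comm]
  neg_mem' := by
    rintro x ⟨a, b, hb, rfl⟩
    exact ⟨-a, b, hb, by rw [map_neg, neg_div]⟩

lemma ne_iff (hn : ∀ a, ‖κ a‖ = ‖ι a‖) (a : A) : κ a ≠ 0 ↔ ι a ≠ 0 := by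
  rw [← norm_ne_zero_iff, hn, norm_ne_zero_iff]

lemma wd (hn : ∀ a, ‖κ a‖ = ‖ι a‖) {a b c d : A} (hb : ι b ≠ 0) (hd : ι d ≠ 0)
    (h : ι a / ι b = ι c / ι d) : κ a / κ b = κ c / κ d := by
  have hb' : κ b ≠ 0 := (ne_iff ι κ hn b).2 hb
  have hd' : κ d ≠ 0 := (ne_iff ι κ hn d).2 hd
  rw [div_eq_div_iff hb hd] at h
  rw [div_eq_div_iff hb' hd']
  have h1 : ι (a * d - c * b) = 0 := by rw [map_sub, map_mul, map_mul, h, sub_self]
  have h2 : κ (a * d - c * b) = 0 := by rw [← norm_eq_zero, hn, h1, norm_zero]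
  rw [map_sub, map_mul, map_mul] at h2
  exact sub_eq_zero.1 h2

/-- The value of the extension on a fraction. -/
noncomputable def vl (s : fr ι) : H' :=
  κ s.2.choose / κ s.2.choose_spec.choose

lemma vl_eq (hn : ∀ a, ‖κ a‖ = ‖ι a‖) (s : fr ι) {a b : A} (hb : ι b ≠ 0)
    (h : (s : H) = ι a / ι b) : vl ι κ s = κ a / κ b := by
  have hs := s.2.choose_spec.choose_spec
  exact wd ι κ hn hs.1 hb (hs.2.symm.trans h)

/-- The extension on the ring of fractions. -/
noncomputable def frHom (hn : ∀ a, ‖κ a‖ = ‖ι a‖) : fr ι →+* H' where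
  toFun := vl ι κ
  map_one' := by
    rw [vl_eq ι κ hn 1 (a := 1) (b := 1) (by rw [map_one]; exact one_ne_zero)
      (by rw [map_one, div_one]; rfl), map_one, div_one]
  map_zero' := by
    rw [vl_eq ι κ hn 0 (a := 0) (b := 1) (by rw [map_one]; exact one_ne_zero)
      (by rw [map_zero, zero_div]; rfl), map_zero, zero_div]
  map_add' := by
    rintro ⟨x, a, b, hb, hx⟩ ⟨y, c, d, hd, hy⟩
    have hb' : κ b ≠ 0 := (ne_iff ι κ hn b).2 hb
    have hd' : κ d ≠ 0 := (ne_iff ι κ hn d).2 hd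
    rw [vl_eq ι κ hn ⟨x, a, b, hb, hx⟩ hb hx, vl_eq ι κ hn ⟨y, c, d, hd, hy⟩ hd hy,
      vl_eq ι κ hn (a := a * d + b * c) (b := b * d) _
        (by rw [map_mul]; exact mul_ne_zero hb hd)
        (by
          show x + y = _
          rw [hx, hy, map_add, map_mul, map_mul, map_mul, div_add_div _ _ hb hd]),
      map_add, map_mul, map_mul, map_mul, div_add_div _ _ hb' hd']
  map_mul' := by
    rintro ⟨x, a, b, hb, hx⟩ ⟨y, c, d, hd, hy⟩
    rw [vl_eq ι κ hn ⟨x, a, b, hb, hx⟩ hb hx, vl_eq ι κ hn ⟨y, c, d, hd, hy⟩ hd hy,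
      vl_eq ι κ hn (a := a * c) (b := b * d) _
        (by rw [map_mul]; exact mul_ne_zero hb hd)
        (by
          show x * y = _
          rw [hx, hy, map_mul, map_mul, div_mul_div_comm]),
      map_mul, map_mul, div_mul_div_comm]

lemma norm_frHom (hn : ∀ a, ‖κ a‖ = ‖ι a‖) (s : fr ι) : ‖frHom ι κ hn s‖ = ‖s‖ := by
  obtain ⟨x, a, b, hb, hx⟩ := s
  show ‖vl ι κ ⟨x, a, b, hb, hx⟩‖ = ‖x‖
  rw [vl_eq ι κ hn ⟨x, a, b, hb, hx⟩ hb hx, norm_div, hn, hn, hx, norm_div]

end

end Exti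

open Exti in
/-- An isometric homomorphism `κ : A → H'` into a complete field extends to `H`, if the fractions of
`ι : A → H` are dense in `H`. -/
theorem exists_ext_completion {A H H' : Type} [CommRing A] [NormedField H] [NormedField H']
    [CompleteSpace H'] (ι : A →+* H) (κ : A →+* H') (hn : ∀ a, ‖κ a‖ = ‖ι a‖)
    (hd : ∀ (h : H) (ε : ℝ), 0 < ε → ∃ a b : A, ι b ≠ 0 ∧ ‖h - ι a / ι b‖ < ε) :
    ∃ τ : H →+* H', (∀ h, ‖τ h‖ = ‖h‖) ∧ ∀ a, τ (ι a) = κ a := by
  have ue : IsUniformInducing (fr ι).subtype := isometry_subtype_coe.isUniformInducing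
  have dr : DenseRange (fr ι).subtype := by
    intro h
    rw [Metric.mem_closure_iff]
    intro ε hε
    obtain ⟨a, b, hb, hab⟩ := hd h ε hε
    exact ⟨ι a / ι b, ⟨⟨ι a / ι b, a, b, hb, rfl⟩, rfl⟩, by rw [dist_eq_norm]; exact hab⟩
  have hiso : Isometry (frHom ι κ hn) := AddMonoidHomClass.isometry_of_norm _ (norm_frHom ι κ hn)
  have hf : UniformContinuous (frHom ι κ hn) := hiso.uniformContinuous
  let τ : H →+* H' := IsDenseInducing.extendRingHom ue dr hf
  have hτ : ∀ s : fr ι, τ (s : H) = frHom ι κ hn s := fun s =>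
    IsDenseInducing.extend_eq (ue.isDenseInducing dr) hf.continuous s
  have hcont : Continuous τ := (uniformContinuous_uniformly_extend ue dr hf).continuous
  refine ⟨τ, fun h => ?_, fun a => ?_⟩
  · refine DenseRange.induction_on dr h (isClosed_eq hcont.norm continuous_norm) fun s => ?_
    show ‖τ (s : H)‖ = ‖(s : H)‖
    rw [hτ s]
    exact norm_frHom ι κ hn s
  · have h1 : ι (1 : A) ≠ 0 := by rw [map_one]; exact one_ne_zero
    have h2 : ι a = ι a / ι 1 := by rw [map_one, div_one]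
    have h3 := hτ ⟨ι a, a, 1, h1, h2⟩
    have h4 : frHom ι κ hn ⟨ι a, a, 1, h1, h2⟩ = κ a / κ 1 := vl_eq ι κ hn _ h1 h2
    have h5 : κ a / κ 1 = κ a := by rw [map_one, div_one]
    exact (h3.trans h4).trans h5

end Pool.Agent.TD


end

section

/-! Block E: the fibre over `y` is `M(H[X])` (module TD_E_FIB). -/

open scoped Topology
open Polynomial

namespace Pool.Agent.TD

variable {K A H : Type} [NormedField K] [CommRing A] [Algebra K A] [NormedField H]
  {y : Ber K A} {ι : A →+* H}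

namespace EFib

/-- The point of `M(H[X])` given by an isometric embedding `τ : H → H'` and `x ∈ H'`. -/
noncomputable def evPt {H' : Type} [NormedField H'] [IsUltrametricDist H'] (τ : H →+* H')
    (hτ : ∀ h, ‖τ h‖ = ‖h‖) (x : H') : Ber H H[X] where
  v f := ‖eval₂ τ x f‖
  nonneg f := norm_nonneg _
  one := by rw [eval₂_one, norm_one]
  mul f g := by rw [eval₂_mul, norm_mul]
  add f g := by
    rw [eval₂_add]
    exact IsUltrametricDist.norm_add_le_max _ _
  ext c := by
    rw [Polynomial.algebraMap_apply, eval₂_C]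
    exact hτ c

theorem evPt_v {H' : Type} [NormedField H'] [IsUltrametricDist H'] (τ : H →+* H')
    (hτ : ∀ h, ‖τ h‖ = ‖h‖) (x : H') (f : H[X]) : (evPt τ hτ x).v f = ‖eval₂ τ x f‖ := rfl

theorem abs_sub_lt (w : Ber H H[X]) {f g : H[X]} {ε : ℝ} (h : w.v (f - g) < ε) :
    |w.v f - w.v g| < ε := by
  have h1 : w.v f ≤ max (w.v g) (w.v (f - g)) := by
    calc w.v f = w.v (g + (f - g)) := by rw [add_sub_cancel]
      _ ≤ _ := w.add _ _
  have h2 : w.v g ≤ max (w.v f) (w.v (f - g)) := by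
    calc w.v g = w.v (f - (f - g)) := by rw [sub_sub_cancel]
      _ ≤ _ := w.sub _ _
  have h3 := w.nonneg f
  have h4 := w.nonneg g
  rw [abs_lt]
  constructor
  · rcases le_max_iff.1 h2 with h5 | h5
    · have := w.nonneg (f - g)
      linarith
    · linarith
  · rcases le_max_iff.1 h1 with h5 | h5
    · have := w.nonneg (f - g)
      linarith
    · linarith

theorem v_quot (hι : IsRes y ι) (w : Ber H H[X]) (F : A[X]) (b : A) :
    w.v (C (ι b)⁻¹ * F.map ι) = ‖(ι b)⁻¹‖ * (jj hι w).v F := by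
  rw [w.mul, jj_v]
  congr 1
  exact w.ext _

theorem tendsto_v (hι : IsRes y ι) (w₀ : Ber H H[X]) (f : H[X]) :
    Filter.Tendsto (fun w : Ber H H[X] => w.v f) (Filter.comap (jj hι) (𝓝 (jj hι w₀)))
      (𝓝 (w₀.v f)) := by
  rw [Metric.tendsto_nhds]
  intro ε hε
  obtain ⟨F, b, hb, hF⟩ := exists_apx hι f (w₀.v X + 1) (ε / 3) (by positivity)
  have hX : Filter.Tendsto (fun w : Ber H H[X] => (jj hι w).v X)
      (Filter.comap (jj hι) (𝓝 (jj hι w₀))) (𝓝 ((jj hι w₀).v X)) :=
    ((Ber.continuous_v (K := K) (X : A[X])).tendsto (jj hι w₀)).comp Filter.tendsto_comap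
  have hFt : Filter.Tendsto (fun w : Ber H H[X] => ‖(ι b)⁻¹‖ * (jj hι w).v F)
      (Filter.comap (jj hι) (𝓝 (jj hι w₀))) (𝓝 (‖(ι b)⁻¹‖ * (jj hι w₀).v F)) :=
    (((Ber.continuous_v (K := K) F).tendsto (jj hι w₀)).comp Filter.tendsto_comap).const_mul _
  have hXX : ∀ w : Ber H H[X], (jj hι w).v X = w.v X := fun w => by
    rw [jj_v, Polynomial.map_X]
  have e1 : ∀ᶠ w in Filter.comap (jj hι) (𝓝 (jj hι w₀)), (jj hι w).v X < (jj hι w₀).v X + 1 :=
    hX.eventually (gt_mem_nhds (by linarith))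
  have e2 : ∀ᶠ w in Filter.comap (jj hι) (𝓝 (jj hι w₀)),
      dist (‖(ι b)⁻¹‖ * (jj hι w).v F) (‖(ι b)⁻¹‖ * (jj hι w₀).v F) < ε / 3 :=
    (Metric.tendsto_nhds.1 hFt) (ε / 3) (by positivity)
  filter_upwards [e1, e2] with w h1 h2
  rw [hXX, hXX] at h1
  rw [← v_quot hι, ← v_quot hι, Real.dist_eq] at h2
  have h3 := abs_sub_lt w (hF w h1.le)
  have h4 := abs_sub_lt w₀ (hF w₀ (by linarith))
  rw [Real.dist_eq]
  rw [abs_lt] at *
  constructor <;> linarith [h2.1, h2.2, h3.1, h3.2, h4.1, h4.2]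

theorem isInducing_jj (hι : IsRes y ι) : Topology.IsInducing (jj hι) := by
  rw [Topology.isInducing_iff_nhds]
  intro w
  apply le_antisymm
  · exact (jj_continuous hι).tendsto w |>.le_comap
  · have h1 : 𝓝 w = Filter.comap Ber.v (𝓝 w.v) := Ber.isEmbedding_v.isInducing.nhds_eq_comap w
    rw [h1, ← Filter.tendsto_iff_comap]
    exact tendsto_pi_nhds.2 fun f => tendsto_v hι w f

end EFib

/-- (E0) -/
theorem range_jj (hRes : StmtRes) (hι : IsRes y ι) :
    Set.range (jj hι) = {z : Ber K A[X] | ∀ a, z.v (C a) = y.v a} := by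
  ext z
  constructor
  · rintro ⟨w, rfl⟩ a
    exact jj_C hι w a
  · intro hz
    obtain ⟨H', i1, i2, i3, ι', hι'⟩ := hRes K A[X] z
    obtain ⟨τ, hτ, hτ'⟩ := exists_ext_completion ι (ι'.comp C) (fun a => by
      rw [RingHom.comp_apply, hι'.norm, hz a, hι.norm]) hι.dense
    refine ⟨EFib.evPt τ hτ (ι' X), ?_⟩
    apply Ber.ext_v
    intro F
    rw [jj_v, EFib.evPt_v, Polynomial.eval₂_map, ← hι'.norm]
    congr 1
    have h1 : τ.comp ι = ι'.comp C := RingHom.ext hτ'
    rw [h1]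
    have h2 : ∀ G : A[X], eval₂ (ι'.comp C) (ι' X) G = ι' (eval₂ C X G) := fun G =>
      (Polynomial.hom_eval₂ G C ι' X).symm
    rw [h2, Polynomial.eval₂_C_X]

/-- (E0) -/
theorem isClosedEmbedding_jj (hRes : StmtRes) (hι : IsRes y ι) :
    Topology.IsClosedEmbedding (jj hι) := by
  have h1 := EFib.isInducing_jj hι
  have h2 : Topology.IsEmbedding (jj hι) := h1.isEmbedding
  refine ⟨h2, ?_⟩
  rw [range_jj hRes hι]
  simp only [Set.ofPred_forall]
  exact isClosed_iInter fun a => isClosed_eq (Ber.continuous_v _) continuous_const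

end Pool.Agent.TD


end

section

/-!
# Block T: closed points of `M(H[X])` (T_CLP, MP_90358a_ag)

An irreducible polynomial vanishes at exactly one point of the Berkovich affine line.
-/

open scoped Topology
open Polynomial

namespace Pool.Agent.TD

namespace T_CLP

variable {H : Type} [NormedField H]

/-- In a field only `0` has absolute value `0`. -/
theorem v_eq_zero_iff {L : Type} [Field L] [Algebra H L] (N : Ber H L) (x : L) :
    N.v x = 0 ↔ x = 0 := by
  constructor
  · intro h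
    by_contra hx
    have h1 : N.v (x * x⁻¹) = 1 := by rw [mul_inv_cancel₀ hx, N.one]
    rw [N.mul, h, zero_mul] at h1
    exact zero_ne_one h1
  · rintro rfl
    exact N.zero

/-- If `|P| = 0` then the value of `f` only depends on the class of `f` modulo `P`. -/
theorem v_congr {P : H[X]} (z : Ber H H[X]) (hz : z.v P = 0) {f g : H[X]}
    (hfg : AdjoinRoot.mk P f = AdjoinRoot.mk P g) : z.v f = z.v g := by
  rw [AdjoinRoot.mk_eq_mk] at hfg
  obtain ⟨q, hq⟩ := hfg
  have h0 : z.v (f - g) = 0 := by rw [hq, z.mul, hz, zero_mul]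
  have h0' : z.v (g - f) = 0 := by rw [z.sub_comm, h0]
  apply le_antisymm
  · have h1 := z.add g (f - g)
    rw [add_sub_cancel, h0, max_eq_left (z.nonneg g)] at h1
    exact h1
  · have h1 := z.add f (g - f)
    rw [add_sub_cancel, h0', max_eq_left (z.nonneg f)] at h1
    exact h1

/-- A polynomial in the class `x`. -/
noncomputable def rep (P : H[X]) (x : AdjoinRoot P) : H[X] :=
  Function.surjInv (AdjoinRoot.mk_surjective (g := P)) x

theorem mk_rep (P : H[X]) (x : AdjoinRoot P) : AdjoinRoot.mk P (rep P x) = x :=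
  Function.surjInv_eq (AdjoinRoot.mk_surjective (g := P)) x

/-- The point of the spectrum of `H[X]/(P)` given by a point at which `P` vanishes. -/
noncomputable def desc (P : H[X]) (z : Ber H H[X]) (hz : z.v P = 0) : Ber H (AdjoinRoot P) where
  v x := z.v (rep P x)
  nonneg x := z.nonneg _
  one := by
    rw [← z.one]
    refine v_congr z hz ?_
    rw [mk_rep, map_one]
  mul x y := by
    rw [← z.mul]
    refine v_congr z hz ?_
    rw [mk_rep, map_mul, mk_rep, mk_rep]
  add x y := by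
    have h1 := z.add (rep P x)
      (rep P y)
    refine le_trans (le_of_eq (v_congr z hz ?_)) h1
    rw [mk_rep, map_add, mk_rep, mk_rep]
  ext c := by
    rw [← z.ext c]
    refine v_congr z hz ?_
    rw [mk_rep]
    rfl

theorem desc_mk (P : H[X]) (z : Ber H H[X]) (hz : z.v P = 0) (f : H[X]) :
    (desc P z hz).v (AdjoinRoot.mk P f) = z.v f := by
  refine v_congr z hz ?_
  rw [mk_rep]

/-- The restriction of a point of the spectrum of `H[X]/(P)` to `H[X]`. -/
noncomputable def asc (P : H[X]) (N : Ber H (AdjoinRoot P)) : Ber H H[X] where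
  v f := N.v (AdjoinRoot.mk P f)
  nonneg f := N.nonneg _
  one := by rw [map_one, N.one]
  mul f g := by rw [map_mul, N.mul]
  add f g := by rw [map_add]; exact N.add _ _
  ext c := N.ext c

theorem asc_v (P : H[X]) (N : Ber H (AdjoinRoot P)) (f : H[X]) :
    (asc P N).v f = N.v (AdjoinRoot.mk P f) := rfl

end T_CLP

open T_CLP in
/-- (CLP) closed points: an irreducible polynomial vanishes at exactly one point. -/
theorem td_clp (hExt : StmtExt) : StmtClp := by
  intro H _ _ _ P hP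
  have : Fact (Irreducible P) := ⟨hP⟩
  have : Module.Finite H (AdjoinRoot P) := (AdjoinRoot.powerBasis hP.ne_zero).finite
  obtain ⟨N, hN⟩ := hExt H (AdjoinRoot P)
  have h0 : (asc P N).v P = 0 := by
    rw [asc_v, AdjoinRoot.mk_self, v_eq_zero_iff]
  have huniq : ∀ z : Ber H H[X], z.v P = 0 → z = asc P N := by
    intro z hz
    refine Ber.ext_v fun f => ?_
    rw [asc_v, ← hN (desc P z hz), desc_mk]
  refine ⟨asc P N, h0, huniq, ?_, ?_⟩
  · intro z hz
    refine huniq z (le_antisymm ?_ (z.nonneg P))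
    rw [← h0]
    exact hz P
  · intro f
    rw [asc_v, v_eq_zero_iff, AdjoinRoot.mk_eq_zero]

end Pool.Agent.TD


end

section

/-!
# Block T, T3: the disc of a polynomial which separates two comparable points
-/

open scoped Topology
open Polynomial

namespace Pool.Agent.TD

namespace T_T3

section
variable {H L : Type} [NormedField H] [Field L] [Algebra H L]

/-- constants have the value given by the unique absolute value of `L` -/
theorem constv {N : Ber H L} (hN : ∀ N' : Ber H L, N' = N) (E : Ber H L[X]) (b : L) :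
    E.v (C b) = N.v b := by
  have h := hN (Ber.res (Polynomial.CAlgHom (R := H) (A := L)) E)
  have h1 := congrArg (fun M : Ber H L => M.v b) h
  exact h1

theorem diff_le {N : Ber H L} (hN : ∀ N' : Ber H L, N' = N) (E : Ber H L[X]) (a b : L) :
    N.v (a - b) ≤ max (E.v (X - C a)) (E.v (X - C b)) := by
  rw [← constv hN E, C_sub]
  have h : (C a - C b : L[X]) = (X - C b) - (X - C a) := by ring
  rw [h, max_comm]
  exact E.sub _ _

theorem lin_le {N : Ber H L} (hN : ∀ N' : Ber H L, N' = N) (E : Ber H L[X]) (a b : L) :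
    E.v (X - C a) ≤ max (E.v (X - C b)) (N.v (a - b)) := by
  rw [← constv hN E, C_sub]
  have h : (X - C a : L[X]) = (X - C b) - (C a - C b) := by ring
  rw [h]
  exact E.sub _ _

end

end T_T3

open T_T3

theorem td_t3 (hExt : StmtExt) (hGauss : StmtGauss) (hOver : StmtOver) (hConj : StmtConj)
    (hProd : StmtProd) (hCore : StmtCore) : StmtT3 := by
  classical
  intro H _ _ _ P hP z e hze hlt
  let L := AlgebraicClosure H
  obtain ⟨N, hN⟩ := hExt H L
  obtain ⟨E, hE⟩ := hOver H L e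
  -- roots
  have hdeg : ∀ Q : H[X], Irreducible Q → (Q.map (algebraMap H L)) ≠ 0 := by
    intro Q hQ
    exact (Polynomial.map_ne_zero_iff (algebraMap H L).injective).2 hQ.ne_zero
  have hroot : ∀ Q : H[X], Irreducible Q → ∀ b, b ∈ (Q.map (algebraMap H L)).roots ↔
      aeval b Q = 0 := by
    intro Q hQ b
    rw [mem_roots (hdeg Q hQ), IsRoot.def, eval_map_algebraMap]
  have hex : ∃ a : L, a ∈ (P.map (algebraMap H L)).roots := by
    have h1 : (P.map (algebraMap H L)).degree ≠ 0 := by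
      rw [degree_map]
      exact hP.degree_pos.ne'
    obtain ⟨a, ha⟩ := IsAlgClosed.exists_root _ h1
    exact ⟨a, (mem_roots (hdeg P hP)).2 ha⟩
  obtain ⟨a, ha, hmin⟩ := Finset.exists_min_image (P.map (algebraMap H L)).roots.toFinset
    (fun b => E.v (X - C b)) (by
      obtain ⟨a, ha⟩ := hex
      exact ⟨a, Multiset.mem_toFinset.2 ha⟩)
  rw [Multiset.mem_toFinset] at ha
  have hmin' : ∀ b, b ∈ (P.map (algebraMap H L)).roots → E.v (X - C a) ≤ E.v (X - C b) :=
    fun b hb => hmin b (Multiset.mem_toFinset.2 hb)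
  set ρ : ℝ := E.v (X - C a) with hρ
  have hρ0 : 0 ≤ ρ := E.nonneg _
  obtain ⟨g, hg⟩ := hGauss H L N a ρ hρ0
  have hEg : E ≤ g := hg.top E (fun b => constv hN E b) le_rfl
  -- the function φ
  have hval : ∀ (Q : H[X]) (t : ℝ) (g' : Ber H L[X]), IsGauss N a t g' →
      g'.v (Q.map (algebraMap H L)) = N.v (Q.map (algebraMap H L)).leadingCoeff *
        ((Q.map (algebraMap H L)).roots.map fun b => max t (N.v (a - b))).prod := by
    intro Q t g' hg'
    rw [hProd H L g' (Q.map (algebraMap H L)), hg'.const]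
    simp only [hg'.lin]
  let φ : ℝ → ℝ := fun t => N.v (P.map (algebraMap H L)).leadingCoeff *
        ((P.map (algebraMap H L)).roots.map fun b => max t (N.v (a - b))).prod
  have hφc : Continuous φ := by
    refine continuous_const.mul ?_
    exact continuous_multiset_prod _ fun b _ => continuous_id.max continuous_const
  have hφρ : z.v P < φ ρ := by
    have h1 : e.v P ≤ φ ρ := by
      show e.v P ≤ N.v (P.map (algebraMap H L)).leadingCoeff *
        ((P.map (algebraMap H L)).roots.map fun b => max ρ (N.v (a - b))).prod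
      rw [← hval P ρ g hg, ← hE P]
      exact hEg _
    exact hlt.trans_le h1
  have hρpos : 0 < ρ := by
    rcases hρ0.eq_or_lt with h | h
    · exfalso
      have h0 : φ ρ = 0 := by
        show N.v (P.map (algebraMap H L)).leadingCoeff *
          ((P.map (algebraMap H L)).roots.map fun b => max ρ (N.v (a - b))).prod = 0
        have h1 : ((P.map (algebraMap H L)).roots.map fun b => max ρ (N.v (a - b))).prod = 0 := by
          refine Multiset.prod_eq_zero ?_
          rw [Multiset.mem_map]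
          refine ⟨a, ha, ?_⟩
          rw [sub_self, N.zero, ← h, max_self]
        rw [h1, mul_zero]
      rw [h0] at hφρ
      exact absurd hφρ (not_lt.2 (z.nonneg P))
    · exact h
  obtain ⟨ρ', ⟨hρ'1, hρ'2⟩, hρ'3⟩ : ∃ t, (0 ≤ t ∧ t < ρ) ∧ z.v P < φ t := by
    have h1 : ∀ᶠ t in 𝓝[<] ρ, z.v P < φ t :=
      (hφc.continuousAt.eventually (lt_mem_nhds hφρ)).filter_mono nhdsWithin_le_nhds
    have h2 : ∀ᶠ t in 𝓝[<] ρ, t < ρ := self_mem_nhdsWithin
    have h3 : ∀ᶠ t in 𝓝[<] ρ, 0 < t :=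
      (lt_mem_nhds hρpos : ∀ᶠ t in 𝓝 ρ, 0 < t).filter_mono nhdsWithin_le_nhds
    obtain ⟨t, ht1, ht2, ht3⟩ := (h1.and (h2.and h3)).exists
    exact ⟨t, ⟨ht3.le, ht2⟩, ht1⟩
  obtain ⟨g', hg'⟩ := hGauss H L N a ρ' hρ'1
  have haP : aeval a P = 0 := (hroot P hP a).1 ha
  obtain ⟨w, hw, hwa⟩ := hCore H L P hP a haP N ρ' g' hρ'1 hg' z (by
    rw [hval P ρ' g' hg']
    exact hρ'3.le)
  -- the claim for irreducible polynomials
  have hclaim : ∀ Q : H[X], Irreducible Q → g.v (Q.map (algebraMap H L)) ≤ e.v Q := by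
    intro Q hQ
    by_contra hc
    have hc' : e.v Q < g.v (Q.map (algebraMap H L)) := not_le.1 hc
    -- a root `b` with a small value
    have hb : ∃ b ∈ (Q.map (algebraMap H L)).roots, E.v (X - C b) < max ρ (N.v (a - b)) := by
      by_contra hnb
      push Not at hnb
      have h1 : g.v (Q.map (algebraMap H L)) ≤ E.v (Q.map (algebraMap H L)) := by
        rw [hval Q ρ g hg, hProd H L E (Q.map (algebraMap H L)), constv hN E]
        refine mul_le_mul_of_nonneg_left ?_ (N.nonneg _)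
        exact Multiset.prod_map_le_prod_map₀ _ _ (fun b _ => le_max_of_le_left hρ0)
          (fun b hb => hnb b hb)
      rw [hE Q] at h1
      exact absurd h1 (not_le.2 hc')
    obtain ⟨b, hb1, hb2⟩ := hb
    have k1 := diff_le hN E a b
    have k2 := lin_le hN E a b
    rw [← hρ] at k1 k2
    have k3 : N.v (a - b) ≤ ρ := by
      by_contra h
      have h' : ρ < N.v (a - b) := not_le.1 h
      rw [max_eq_right h'.le] at hb2
      rcases le_max_iff.1 k1 with h3 | h3
      · exact absurd h3 (not_le.2 h')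
      · exact absurd h3 (not_le.2 hb2)
    rw [max_eq_left k3] at hb2
    have k4 : ρ ≤ N.v (a - b) := by
      rcases le_max_iff.1 k2 with h3 | h3
      · exact absurd h3 (not_le.2 hb2)
      · exact h3
    -- all the roots of `Q` are far from `a`
    have hfar : ∀ b' ∈ (Q.map (algebraMap H L)).roots, ρ ≤ N.v (a - b') := by
      intro b' hb'
      by_contra h
      have h' : N.v (a - b') < ρ := not_le.1 h
      obtain ⟨τ, hτ1, hτ2, -⟩ := hConj H L Q hQ b b' ((hroot Q hQ b).1 hb1)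
        ((hroot Q hQ b').1 hb')
      have h1 : N.v (τ.symm a - b) = N.v (a - b') := by
        rw [← hτ2 N, map_sub, hτ1, AlgEquiv.apply_symm_apply]
      have h2 : τ.symm a ∈ (P.map (algebraMap H L)).roots := by
        rw [hroot P hP]
        have h3 := Polynomial.aeval_algHom_apply (τ.symm : L →ₐ[H] L) a P
        rw [haP, map_zero] at h3
        exact h3
      have h4 := lin_le hN E (τ.symm a) b
      have h5 := hmin' _ h2
      rw [h1] at h4
      exact absurd (h5.trans h4) (not_le.2 (max_lt hb2 h'))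
    have hle : g.v (Q.map (algebraMap H L)) ≤ z.v Q := by
      rw [← hw Q, hval Q ρ g hg, hProd H L w (Q.map (algebraMap H L)), constv hN w]
      refine mul_le_mul_of_nonneg_left ?_ (N.nonneg _)
      refine Multiset.prod_map_le_prod_map₀ _ _ (fun b _ => le_max_of_le_left hρ0)
          (fun b' hb' => ?_)
      have h1 := hfar b' hb'
      rw [max_eq_right h1]
      rcases le_max_iff.1 (diff_le hN w a b') with h3 | h3
      · exact absurd (h1.trans (h3.trans hwa)) (not_le.2 hρ'2)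
      · exact h3
    exact absurd (hle.trans (hze Q)) (not_le.2 hc')
  -- the claim for all polynomials
  have hall : ∀ f : H[X], g.v (f.map (algebraMap H L)) ≤ e.v f := by
    intro f
    induction f using WfDvdMonoid.induction_on_irreducible with
    | zero =>
      rw [Polynomial.map_zero, g.zero, e.zero]
    | unit u hu =>
      obtain ⟨c, hc, rfl⟩ := Polynomial.isUnit_iff.1 hu
      have h1 : g.v ((C c : H[X]).map (algebraMap H L)) = ‖c‖ := by
        rw [map_C]
        exact g.ext c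
      have h2 : e.v (C c : H[X]) = ‖c‖ := e.ext c
      rw [h1, h2]
    | mul f i hf hi ih =>
      rw [Polynomial.map_mul, g.mul, e.mul]
      exact mul_le_mul (hclaim i hi) ih (g.nonneg _) (e.nonneg _)
  refine ⟨rfl, fun z' hz' => ?_⟩
  have h1 : z'.v P ≤ g.v (P.map (algebraMap H L)) := by
    refine hz'.trans ?_
    rw [← hE P]
    exact hEg _
  obtain ⟨w', hw', hwa'⟩ := hCore H L P hP a haP N ρ g hρ0 hg z' h1
  have h2 : w' ≤ g := hg.top w' (fun b => constv hN w' b) hwa'
  intro f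
  rw [← hw' f]
  exact (h2 _).trans (hall f)

end Pool.Agent.TD


end

section

/-!
# T_OVER: every point of `M(H[X])` has a point of `M(L[X])` over it (MP_90358a_ag)
-/

open scoped Topology
open Polynomial

namespace Pool.Agent.TD

theorem td_over (hLift : StmtLift) : StmtOver := by
  intro H L _ _ _ _ _ _ z
  let alg : Algebra H[X] L[X] := (Polynomial.mapRingHom (algebraMap H L)).toAlgebra
  have halg : ∀ f : H[X], algebraMap H[X] L[X] f = f.map (algebraMap H L) := fun f => rfl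
  have hcomp : ∀ c : H, algebraMap H[X] L[X] (algebraMap H H[X] c) = algebraMap H L[X] c := by
    intro c
    rw [halg, Polynomial.algebraMap_apply, Polynomial.algebraMap_apply, Polynomial.map_C]
    rfl
  have tow : IsScalarTower H H[X] L[X] :=
    IsScalarTower.of_algebraMap_eq fun c => (hcomp c).symm
  have hint : Algebra.IsIntegral H[X] L[X] := by
    refine ⟨fun p => ?_⟩
    induction p using Polynomial.induction_on' with
    | add p q hp hq => exact hp.add hq
    | monomial n a =>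
      rw [← Polynomial.C_mul_X_pow_eq_monomial]
      have h1 : IsIntegral H a := (Algebra.IsAlgebraic.isAlgebraic a).isIntegral
      have h2 : IsIntegral H (C a : L[X]) := by
        obtain ⟨P, hP, hPa⟩ := h1
        refine ⟨P, hP, ?_⟩
        have h3 : (algebraMap H L[X]) = (C : L →+* L[X]).comp (algebraMap H L) := by
          ext c
          simp [Polynomial.algebraMap_apply]
        rw [h3, ← Polynomial.hom_eval₂, hPa, map_zero]
      have h4 : IsIntegral H[X] (C a : L[X]) := h2.tower_top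
      have h5 : IsIntegral H[X] (X : L[X]) := by
        have h6 : (X : L[X]) = algebraMap H[X] L[X] X := by
          rw [halg, Polynomial.map_X]
        rw [h6]
        exact isIntegral_algebraMap
      exact h4.mul (h5.pow n)
  have hinj : Function.Injective (algebraMap H[X] L[X]) := by
    intro f g hfg
    rw [halg, halg] at hfg
    exact Polynomial.map_injective _ (algebraMap H L).injective hfg
  obtain ⟨w, hw⟩ := hLift H H[X] L[X] hinj z
  exact ⟨w, hw⟩

end Pool.Agent.TD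


end

section

/-!
# Block T, (CONJ): the Galois action on `M(L[X])` (MP_90358a_ag)
-/

open scoped Topology
open Polynomial

namespace Pool.Agent.TD

namespace T_CONJ

theorem exists_equiv {H L : Type} [Field H] [Field L] [Algebra H L] [IsAlgClosure H L] {P : H[X]}
    (hP : Irreducible P) {a b : L} (ha : aeval a P = 0) (hb : aeval b P = 0) :
    ∃ σ : L ≃ₐ[H] L, σ a = b := by
  have : Normal H L := IsAlgClosure.normal H L
  have h : IsConjRoot H a b := by
    unfold IsConjRoot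
    rw [← minpoly.eq_of_irreducible hP ha, ← minpoly.eq_of_irreducible hP hb]
  obtain ⟨σ, hσ⟩ := isConjRoot_iff_exists_algEquiv.1 h
  exact ⟨σ.symm, by rw [← hσ, AlgEquiv.symm_apply_apply]⟩

end T_CONJ

theorem td_conj (hExt : StmtExt) : StmtConj := by
  intro H L _ _ _ _ _ _ P hP a b ha hb
  have : Algebra.IsAlgebraic H L := IsAlgClosure.isAlgebraic
  obtain ⟨σ, hσ⟩ := T_CONJ.exists_equiv hP ha hb
  obtain ⟨N₀, hN₀⟩ := hExt H L
  refine ⟨σ, hσ, fun N x => ?_, fun z w hw => ?_⟩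
  · have h : Ber.res (σ : L →ₐ[H] L) N = N := (hN₀ _).trans (hN₀ N).symm
    have h2 := congrArg (fun M : Ber H L => M.v x) h
    exact h2
  · refine ⟨Ber.res (Polynomial.mapAlgHom (σ.symm : L →ₐ[H] L)) w, fun f => ?_, fun c => ?_⟩
    · rw [Ber.res_v, Polynomial.coe_mapAlgHom, Polynomial.map_map]
      have e : (((σ.symm : L →ₐ[H] L) : L →+* L).comp (algebraMap H L)) = algebraMap H L := by
        ext x
        simp
      rw [e]
      exact hw f
    · rw [Ber.res_v, Polynomial.coe_mapAlgHom]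
      simp

end Pool.Agent.TD


end

section

/-! Block T: everything, unconditional. -/

namespace Pool.Agent.TD

theorem stmtExt : StmtExt := td_ext
theorem stmtRes : StmtRes := td_res
theorem stmtLift : StmtLift := td_lift stmtExt stmtRes
theorem stmtGauss : StmtGauss := td_gauss
theorem stmtOver : StmtOver := td_over stmtLift
theorem stmtProd : StmtProd := td_prod
theorem stmtConj : StmtConj := td_conj stmtExt
theorem stmtClp : StmtClp := td_clp stmtExt
theorem stmtCore : StmtCore := td_core stmtOver stmtConj stmtProd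
theorem stmtT2 : StmtT2 := td_t2 stmtExt stmtGauss stmtProd stmtCore
theorem stmtT3 : StmtT3 := td_t3 stmtExt stmtGauss stmtOver stmtConj stmtProd stmtCore
theorem stmtTree : StmtTree := td_tree stmtT2 stmtT3

end Pool.Agent.TD


end

section

/-! Block U: a convex set which is a finite union of convex sets. -/

namespace Pool.Agent.TD

/-- The line through two points of an affine subspace lies in it. -/
theorem Ful.line_mem {V : Type} [AddCommGroup V] [Module ℝ V] (A : AffineSubspace ℝ V)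
    (p q : V) {t t' : ℝ} (ht : t ≠ t') (h : AffineMap.lineMap p q t ∈ A)
    (h' : AffineMap.lineMap p q t' ∈ A) (r : ℝ) : AffineMap.lineMap p q r ∈ A := by
  have hr : r = AffineMap.lineMap t t' ((r - t) / (t' - t)) := by
    rw [AffineMap.lineMap_apply]
    have : t' - t ≠ 0 := sub_ne_zero.mpr (Ne.symm ht)
    simp only [vsub_eq_sub, smul_eq_mul, vadd_eq_add]
    field_simp
    ring
  rw [hr, AffineMap.apply_lineMap]
  exact AffineMap.lineMap_mem _ h h'

/-- A convex set not contained in any of finitely many affine subspaces is not contained in their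
union. -/
theorem Ful.exists_not_mem {V : Type} [AddCommGroup V] [Module ℝ V] {σ : Set V}
    (hσ : Convex ℝ σ) (hne : σ.Nonempty) {ι : Type} (A : ι → AffineSubspace ℝ V)
    (hA : ∀ i, ∃ q ∈ σ, q ∉ A i) (s : Finset ι) : ∃ p ∈ σ, ∀ i ∈ s, p ∉ A i := by
  classical
  induction s using Finset.induction_on with
  | empty =>
    obtain ⟨p, hp⟩ := hne
    exact ⟨p, hp, fun i hi => absurd hi (Finset.notMem_empty i)⟩
  | insert j s hj ih =>
    obtain ⟨p, hp, hps⟩ := ih
    obtain ⟨q, hq, hqj⟩ := hA j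
    have hfin : ∀ i ∈ insert j s, {t : ℝ | AffineMap.lineMap p q t ∈ A i}.Finite := by
      intro i hi
      refine Set.Subsingleton.finite ?_
      intro t ht t' ht'
      by_contra hne'
      rcases Finset.mem_insert.mp hi with rfl | hi
      · have := Ful.line_mem (A i) p q hne' ht ht' 1
        rw [AffineMap.lineMap_apply_one] at this
        exact hqj this
      · have := Ful.line_mem (A i) p q hne' ht ht' 0
        rw [AffineMap.lineMap_apply_zero] at this
        exact hps i hi this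
    have hbad : (⋃ i ∈ insert j s, {t : ℝ | AffineMap.lineMap p q t ∈ A i}).Finite :=
      Set.Finite.biUnion (insert j s).finite_toSet hfin
    have hinf : (Set.Icc (0 : ℝ) 1).Infinite := Set.Icc_infinite one_pos
    obtain ⟨t, ht, ht'⟩ := (hinf.sdiff hbad).nonempty
    refine ⟨AffineMap.lineMap p q t, ?_, fun i hi h => ht' ?_⟩
    · exact hσ.lineMap_mem hp hq ht
    · exact Set.mem_biUnion (Finset.mem_coe.mpr hi) h

/-- A convex set is not a finite union of convex subsets with smaller spans. -/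
theorem exists_vectorSpan_eq {V : Type} [AddCommGroup V] [Module ℝ V] {σ : Set V}
    (hσ : Convex ℝ σ) (hne : σ.Nonempty) {ι : Type} [Finite ι] (C : ι → Set V)
    (hC : ∀ i, Convex ℝ (C i)) (hsub : ∀ i, C i ⊆ σ) (hcov : σ ⊆ ⋃ i, C i) :
    ∃ i, (C i).Nonempty ∧ vectorSpan ℝ (C i) = vectorSpan ℝ σ := by
  classical
  by_contra hcon
  push Not at hcon
  have hA : ∀ i, ∃ q ∈ σ, q ∉ affineSpan ℝ (C i) := by
    intro i
    by_contra h
    push Not at h
    rcases Set.eq_empty_or_nonempty (C i) with he | hn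
    · obtain ⟨p, hp⟩ := hne
      have := h p hp
      rw [he, AffineSubspace.span_empty] at this
      exact AffineSubspace.notMem_bot ℝ V p this
    · apply hcon i hn
      refine le_antisymm (vectorSpan_mono ℝ (hsub i)) ?_
      rw [← direction_affineSpan ℝ σ, ← direction_affineSpan ℝ (C i)]
      exact AffineSubspace.direction_le (affineSpan_le.mpr h)
  have := Fintype.ofFinite ι
  obtain ⟨p, hp, hps⟩ := Ful.exists_not_mem hσ hne (fun i => affineSpan ℝ (C i)) hA Finset.univ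
  obtain ⟨i, hi⟩ := Set.mem_iUnion.mp (hcov hp)
  exact hps i (Finset.mem_univ i) (subset_affineSpan ℝ (C i) hi)

/-- On a convex set finitely many maxima of finitely many affine functions are affine on a convex
subset with the same span. -/
theorem exists_max_affine {V : Type} [AddCommGroup V] [Module ℝ V] {σ : Set V}
    (hσ : Convex ℝ σ) (hne : σ.Nonempty) {ι : Type} [Finite ι] {κ : ι → Type}
    [∀ i, Fintype (κ i)] [∀ i, Nonempty (κ i)] (l : ∀ i, κ i → V →ᵃ[ℝ] ℝ) :
    ∃ C : Set V, Convex ℝ C ∧ C.Nonempty ∧ C ⊆ σ ∧ vectorSpan ℝ C = vectorSpan ℝ σ ∧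
      ∃ m : ∀ i, κ i, ∀ x ∈ C, ∀ i j, l i j x ≤ l i (m i) x := by
  classical
  have hfin : Finite (∀ i, κ i) := Pi.finite
  have hcx : ∀ m : (∀ i, κ i), Convex ℝ {x | x ∈ σ ∧ ∀ i j, l i j x ≤ l i (m i) x} := by
    intro m x hx y hy a b ha hb hab
    refine ⟨hσ hx.1 hy.1 ha hb hab, fun i j => ?_⟩
    rw [Convex.combo_affine_apply hab, Convex.combo_affine_apply hab]
    exact add_le_add (smul_le_smul_of_nonneg_left (hx.2 i j) ha)
      (smul_le_smul_of_nonneg_left (hy.2 i j) hb)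
  obtain ⟨m, hm, hm'⟩ := exists_vectorSpan_eq hσ hne
    (fun m : (∀ i, κ i) => {x | x ∈ σ ∧ ∀ i j, l i j x ≤ l i (m i) x}) hcx
    (fun m x hx => hx.1) (fun x hx => by
      choose m hm using fun i => Finite.exists_max (fun j => l i j x)
      exact Set.mem_iUnion.mpr ⟨m, hx, fun i j => hm i j⟩)
  exact ⟨_, hcx m, hm, fun x hx => hx.1, hm', m, fun x hx => hx.2⟩

end Pool.Agent.TD


end
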