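import Mathlib
import Pool.Agent.DolbM.C02
import Pool.Agent.DolbM.C03
import Pool.Agent.DolbM.C04
import Pool.Agent.TD.A3
import Pool.Agent.TD.T.Basic

/-! Parts: TD.H.Cx, TD.F.Defs, TD.F.Cst, TD.F.Iso, TD.F.Tor, TD.F.Pr, TD.F.Hom, TD.V.Defs, TD.V.Ext, TD.V.Glue, TD.V.Zorn, TD.V.Inst, TD.F.QI, TD.F.Circ, TD.F.Step, TD.F.Zero, TD.BG.PLB -/

section

/-! Block H: the complexes with supports of a space with log functions. -/

open scoped Topology

namespace Pool.Agent.TD

namespace LogSpace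

variable {X Φ : Type} [TopologicalSpace X] (L : LogSpace X Φ)

/-- `Disjoint (supp c) Z` says that `c` vanishes at all points of `Z` (auxiliary form). -/
theorem disj_supp {p q : ℕ} (c : L.G p q) (Z : Set X) :
    Disjoint (L.supp c) Z ↔ ∀ z ∈ Z, c.1 z = 0 := by
  rw [Set.disjoint_left]
  constructor
  · intro h z hz
    by_contra hc
    exact h hc hz
  · intro h z hc hz
    exact hc (h z hz)

theorem disj_supp_sub {p q : ℕ} (c c' : L.G p q) (Z : Set X) :
    Disjoint (L.supp (c - c')) Z ↔ ∀ z ∈ Z, c.1 z = c'.1 z := by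
  rw [disj_supp]
  refine forall₂_congr fun z _ => ?_
  have h : (c - c').1 z = c.1 z - c'.1 z := rfl
  rw [h, sub_eq_zero]

/-- The complex of global sections of the sheaves of forms of type `(p, *)`. -/
noncomputable def cx [LocallyCompactSpace X] [T2Space X] (hC : L.CutOff) (p : ℕ) : SCx X where
  G q := L.G p q
  d q := (L.ddG p q).toAddMonoidHom
  dd q c := L.ddG_ddG c
  supp c := L.supp c
  closed c := L.isClosed_supp c
  supp_zero := by
    intro q
    refine Set.eq_empty_iff_forall_notMem.2 fun z hz => hz ?_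
    rfl
  supp_add := by
    intro q c c' z hz
    by_contra h
    rw [Set.mem_union, not_or] at h
    have h1 : c.1 z = 0 := by
      by_contra h2
      exact h.1 h2
    have h3 : c'.1 z = 0 := by
      by_contra h2
      exact h.2 h2
    refine hz ?_
    show c.1 z + c'.1 z = 0
    rw [h1, h3, add_zero]
  supp_neg := by
    intro q c
    ext z
    show (-c.1 z ≠ 0) ↔ (c.1 z ≠ 0)
    rw [neg_ne_zero]
  supp_d c := L.supp_ddG c
  glue := by
    intro q Z1 Z2 h1 h2 c1 c2 h
    obtain ⟨c, e1, e2⟩ := L.glue hC h1 h2 c1 c2 ((L.disj_supp_sub c1 c2 _).1 h)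
    exact ⟨c, (L.disj_supp_sub c c1 _).2 e1, (L.disj_supp_sub c c2 _).2 e2⟩

variable [LocallyCompactSpace X] [T2Space X] (hC : L.CutOff) (p : ℕ)

theorem cx_complete : (L.cx hC p).Complete := by
  constructor
  · intro K q c h
    have h' : ∀ n, ∀ z ∈ K n, (c (n + 1)).1 z = (c n).1 z := fun n =>
      (L.disj_supp_sub (c (n + 1)) (c n) _).1 (h n)
    have hmono : Monotone fun n => interior (K n) := fun m n hmn =>
      interior_mono (K.subset hmn)
    have huni : ⋃ n, interior (K n) = Set.univ := by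
      refine Set.eq_univ_of_forall fun z => ?_
      have h1 : z ∈ ⋃ n, K n := by
        rw [K.iUnion_eq]
        exact Set.mem_univ z
      obtain ⟨n, hn⟩ := Set.mem_iUnion.1 h1
      exact Set.mem_iUnion.2 ⟨n + 1, K.subset_interior_succ n hn⟩
    obtain ⟨c', hc'⟩ := L.inf_glue (fun n => interior (K n)) (fun n => isOpen_interior) hmono huni
      c (fun n z hz => h' n z (interior_subset hz))
    refine ⟨c', fun n => (L.disj_supp_sub c' (c n) _).2 fun z hz => ?_⟩
    exact (hc' (n + 1) z (K.subset_interior_succ n hz)).trans (h' n z hz)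
  · intro q c h
    apply Subtype.ext
    funext z
    by_contra hz
    exact Set.notMem_empty z ((show L.supp c = ∅ from h) ▸ hz)

/-- `Disjoint (supp c) Z` says that `c` vanishes at all points of `Z`. -/
theorem disjoint_supp_iff {q : ℕ} (c : L.G p q) (Z : Set X) :
    Disjoint (L.supp c) Z ↔ ∀ z ∈ Z, c.1 z = 0 := L.disj_supp c Z

theorem cx_Cl_iff (Z : Set X) (q : ℕ) (c : L.G p q) :
    (L.cx hC p).Cl Z q c ↔ ∀ z ∈ Z, L.ddS p q z (c.1 z) = 0 :=
  L.disj_supp (L.ddG p q c) Z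

theorem cx_Bd_succ_iff (Z : Set X) (q : ℕ) (c : L.G p (q + 1)) :
    (L.cx hC p).Bd Z (q + 1) c ↔ ∃ e : L.G p q, ∀ z ∈ Z, c.1 z = L.ddS p q z (e.1 z) := by
  constructor
  · rintro ⟨e, he⟩
    exact ⟨e, (L.disj_supp_sub c (L.ddG p q e) Z).1 he⟩
  · rintro ⟨e, he⟩
    exact ⟨e, (L.disj_supp_sub c (L.ddG p q e) Z).2 he⟩

theorem cx_Bd_zero_iff (Z : Set X) (c : L.G p 0) :
    (L.cx hC p).Bd Z 0 c ↔ ∀ z ∈ Z, c.1 z = 0 :=
  L.disj_supp c Z

/-- Poincaré lemma for the complex: at a point where the tropicalization is locally star shaped,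
closed forms of type `(p,q+1)` are boundaries. -/
theorem cx_Bd_of_star {z : X} (hs : L.StarAt z) (q : ℕ) (c : L.G p (q + 1))
    (hc : (L.cx hC p).Cl {z} (q + 1) c) : (L.cx hC p).Bd {z} (q + 1) c := by
  have h1 : L.ddS p (q + 1) z (c.1 z) = 0 :=
    (L.cx_Cl_iff hC p {z} (q + 1) c).1 hc z (Set.mem_singleton z)
  obtain ⟨e, he⟩ := L.poincare hs (c.1 z) h1
  obtain ⟨θ, h, rfl⟩ := L.exists_germ e
  obtain ⟨c0, hc0⟩ := L.extend_germ hC h
  obtain ⟨h', e'⟩ := hc0.self_of_nhds
  refine (L.cx_Bd_succ_iff hC p {z} q c).2 ⟨c0, fun z' hz' => ?_⟩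
  rw [Set.mem_singleton_iff] at hz'
  subst hz'
  rw [e']
  exact he.symm

end LogSpace

end Pool.Agent.TD


end

section

/-!
# Block F: the fibration `M(A[X]) → M(A)` near a circle `{|X| = r}` (MP_90358a_ag), definitions
-/

open scoped ContDiff Topology
open Polynomial

namespace Pool.Agent.TD

/-! ### The identity, isomorphisms -/

namespace Mor

variable {X Φ : Type} [TopologicalSpace X]

/-- The identity morphism. -/
def id (L : LogSpace X Φ) : Mor L L where
  toFun := _root_.id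
  cont := continuous_id
  ix := _root_.id
  dom_sub _ _ h := h
  lf_eq _ _ _ := rfl

end Mor

/-- The morphism `M(B) → M(A)` of spaces with log functions induced by a homomorphism. -/
noncomputable def berM {K A B : Type} [NormedField K] [CommRing A] [Algebra K A] [CommRing B]
    [Algebra K B] (φ : A →ₐ[K] B) : Mor (berLS K B) (berLS K A) where
  toFun := Ber.res φ
  cont := Ber.res_continuous φ
  ix := φ
  dom_sub _ _ h := h
  lf_eq _ _ _ := rfl

/-- The projection `M(A[X]) → M(A)`. -/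
noncomputable def prM (K A : Type) [NormedField K] [CommRing A] [Algebra K A] :
    Mor (berLS K A[X]) (berLS K A) :=
  berM ((Polynomial.CAlgHom (R := A) (A := A)).restrictScalars K)

section
variable {K A : Type} [NormedField K] [CommRing A] [Algebra K A]

theorem prM_v (z : Ber K A[X]) (a : A) : ((prM K A).toFun z).v a = z.v (C a) := rfl

/-- The circle bundle `{|X| = r}` in `M(A[X])`. -/
def circB (K A : Type) [NormedField K] [CommRing A] [Algebra K A] (r : ℝ) : Set (Ber K A[X]) :=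
  {z | z.v X = r}

theorem dom_of_circ {r : ℝ} (hr : 0 < r) {z : Ber K A[X]} (hz : z ∈ circB K A r) :
    z ∈ (berLS K A[X]).dom (X : A[X]) := by
  have h : z.v X = r := hz
  show z.v X ≠ 0
  rw [h]
  exact hr.ne'

end

/-! ### Constant forms in finitely many coordinates -/

/-- The constant form of type `(p,0)` in the coordinates `g` with coefficients `α`. -/
def cstR {Φ : Type} {n p : ℕ} (g : Fin n → Φ) (α : (Fin n → ℝ) [⋀^Fin p]→L[ℝ] ℝ) :
    Raw Φ p 0 := fun _ _ v => α (fun j i => v j (g i))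

/-! ### The interface to block U -/

/-- (U) forms of type `(p,0)` which are closed near the fibre of the circle `{|X| = r}` over a
point `y` of `M(A)`. -/
structure CircU (K A : Type) [NormedField K] [CommRing A] [Algebra K A] (r : ℝ) : Prop where
  ex0 : ∀ (y : Ber K A) (c : (berLS K A[X]).G 0 0),
    (∀ z ∈ circB K A r, (prM K A).toFun z = y → (berLS K A[X]).ddS 0 0 z (c.1 z) = 0) →
    ∃ a : (berLS K A).G 0 0, (berLS K A).ddS 0 0 y (a.1 y) = 0 ∧
      ∀ z ∈ circB K A r, (prM K A).toFun z = y → c.1 z = ((prM K A).pullG 0 0 a).1 z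
  ex1 : ∀ (p : ℕ) (y : Ber K A) (c : (berLS K A[X]).G (p + 1) 0),
    (∀ z ∈ circB K A r, (prM K A).toFun z = y → (berLS K A[X]).ddS (p + 1) 0 z (c.1 z) = 0) →
    ∃ (a : (berLS K A).G (p + 1) 0) (b : (berLS K A).G p 0),
      (berLS K A).ddS (p + 1) 0 y (a.1 y) = 0 ∧ (berLS K A).ddS p 0 y (b.1 y) = 0 ∧
      ∀ z ∈ circB K A r, ∀ h : z ∈ (berLS K A[X]).dom (X : A[X]), (prM K A).toFun z = y →
        c.1 z = ((prM K A).pullG (p + 1) 0 a).1 z +
          (berLS K A[X]).wdS p 0 z ((berLS K A[X]).dlS X h) (((prM K A).pullG p 0 b).1 z)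
  inj0 : ∀ (y : Ber K A) (a : (berLS K A).G 0 0), (berLS K A).ddS 0 0 y (a.1 y) = 0 →
    (∀ z ∈ circB K A r, (prM K A).toFun z = y → ((prM K A).pullG 0 0 a).1 z = 0) → a.1 y = 0
  inj1 : ∀ (p : ℕ) (y : Ber K A) (a : (berLS K A).G (p + 1) 0) (b : (berLS K A).G p 0),
    (berLS K A).ddS (p + 1) 0 y (a.1 y) = 0 → (berLS K A).ddS p 0 y (b.1 y) = 0 →
    (∀ z ∈ circB K A r, ∀ h : z ∈ (berLS K A[X]).dom (X : A[X]), (prM K A).toFun z = y →
      ((prM K A).pullG (p + 1) 0 a).1 z +
        (berLS K A[X]).wdS p 0 z ((berLS K A[X]).dlS X h) (((prM K A).pullG p 0 b).1 z) = 0) →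
    a.1 y = 0 ∧ b.1 y = 0

end Pool.Agent.TD


end

section

/-!
# Block F: constant forms in finitely many coordinates
-/

open scoped ContDiff Topology
open Polynomial

namespace Pool.Agent.TD

namespace Cst

/-! ### Auxiliary lemmas on alternating maps -/

section Alt

variable {E : Type} [NormedAddCommGroup E] [NormedSpace ℝ E]

omit [NormedAddCommGroup E] [NormedSpace ℝ E] in
theorem cons_eta {p : ℕ} (v : Fin (p + 1) → E) : v = Matrix.vecCons (v 0) (fun i => v i.succ) := by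
  funext i
  refine Fin.cases rfl (fun j => rfl) i

theorem map_cons {p : ℕ} (f : E [⋀^Fin (p + 1)]→L[ℝ] ℝ) (a e : E) (c : ℝ) (t : Fin p → E) :
    f (Matrix.vecCons (a + c • e) t) = f (Matrix.vecCons a t) + c * f (Matrix.vecCons e t) := by
  rw [← ContinuousAlternatingMap.curryLeft_apply_apply,
    ← ContinuousAlternatingMap.curryLeft_apply_apply,
    ← ContinuousAlternatingMap.curryLeft_apply_apply, map_add, map_smul]
  rfl

/-- If `h` vanishes when an entry is `e`, multiples of `e` can be added to the entries. -/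
theorem add_e : ∀ (p : ℕ) (h : E [⋀^Fin p]→L[ℝ] ℝ) (e : E)
    (_ : ∀ (v : Fin p → E) (i : Fin p), v i = e → h v = 0) (b : Fin p → E) (c : Fin p → ℝ),
    h (fun i => b i + c i • e) = h b := by
  intro p
  induction p with
  | zero =>
    intro h e _ b c
    congr 1
    exact Subsingleton.elim _ _
  | succ p ih =>
    intro h e he b c
    rw [cons_eta (fun i => b i + c i • e), map_cons]
    have h1 : h (Matrix.vecCons e fun i : Fin p => b i.succ + c i.succ • e) = 0 := he _ 0 rfl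
    rw [h1, mul_zero, add_zero, ← ContinuousAlternatingMap.curryLeft_apply_apply,
      ih (h.curryLeft (b 0)) e ?_ (fun i => b i.succ) (fun i => c i.succ),
      ContinuousAlternatingMap.curryLeft_apply_apply, ← cons_eta b]
    intro v i hv
    rw [ContinuousAlternatingMap.curryLeft_apply_apply]
    exact he _ i.succ hv

theorem swap01 {p : ℕ} (f : E [⋀^Fin (p + 2)]→L[ℝ] ℝ) (a e : E) (t : Fin p → E) :
    f (Matrix.vecCons a (Matrix.vecCons e t)) = -f (Matrix.vecCons e (Matrix.vecCons a t)) := by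
  have h := f.toAlternatingMap.map_swap (Matrix.vecCons e (Matrix.vecCons a t))
    (i := 0) (j := 1) (by simp)
  have h1 : Matrix.vecCons e (Matrix.vecCons a t) ∘ (Equiv.swap (0 : Fin (p + 2)) 1) =
      Matrix.vecCons a (Matrix.vecCons e t) := by
    funext i
    rcases eq_or_ne i 0 with rfl | h0
    · simp
    · rcases eq_or_ne i 1 with rfl | h2
      · simp
      · rw [Function.comp_apply, Equiv.swap_apply_of_ne_of_ne h0 h2]
        obtain ⟨j, rfl⟩ := Fin.exists_succ_eq.2 h0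
        have h3 : j ≠ 0 := by
          rintro rfl
          exact h2 rfl
        obtain ⟨l, rfl⟩ := Fin.exists_succ_eq.2 h3
        rfl
  rw [h1] at h
  exact h

/-- Expansion of an alternating map at the vectors `b i + c i e`. -/
theorem expand : ∀ (p : ℕ) (f : E [⋀^Fin (p + 1)]→L[ℝ] ℝ) (e : E) (b : Fin (p + 1) → E)
    (c : Fin (p + 1) → ℝ), f (fun i => b i + c i • e) = f b +
      ∑ j : Fin (p + 1), (-1 : ℝ) ^ (j : ℕ) * c j *
        f (Matrix.vecCons e (fun i => b (j.succAbove i))) := by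
  intro p
  induction p with
  | zero =>
    intro f e b c
    rw [cons_eta (fun i => b i + c i • e), map_cons, Fin.sum_univ_one]
    have h1 : (fun i : Fin 0 => b i.succ + c i.succ • e) = fun i : Fin 0 => b i.succ :=
      Subsingleton.elim _ _
    have h2 : (fun i : Fin 0 => b ((0 : Fin 1).succAbove i)) = fun i : Fin 0 => b i.succ :=
      Subsingleton.elim _ _
    rw [h1, h2, ← cons_eta b]
    simp
  | succ p ih =>
    intro f e b c
    rw [cons_eta (fun i => b i + c i • e), map_cons]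
    have h1 : f (Matrix.vecCons e fun i : Fin (p + 1) => b i.succ + c i.succ • e) =
        f (Matrix.vecCons e fun i : Fin (p + 1) => b i.succ) := by
      rw [← ContinuousAlternatingMap.curryLeft_apply_apply,
        add_e (p + 1) (f.curryLeft e) e ?_ (fun i => b i.succ) (fun i => c i.succ),
        ContinuousAlternatingMap.curryLeft_apply_apply]
      intro v i hv
      rw [ContinuousAlternatingMap.curryLeft_apply_apply]
      exact f.map_eq_zero_of_eq _ (i := 0) (j := i.succ) (by simpa using hv.symm)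
        (Fin.succ_ne_zero i).symm
    have h2 : f (Matrix.vecCons (b 0) fun i : Fin (p + 1) => b i.succ + c i.succ • e) = f b +
        ∑ j : Fin (p + 1), (-1 : ℝ) ^ ((j.succ : Fin (p + 2)) : ℕ) * c j.succ *
          f (Matrix.vecCons e (fun i => b (j.succ.succAbove i))) := by
      rw [← ContinuousAlternatingMap.curryLeft_apply_apply,
        ih (f.curryLeft (b 0)) e (fun i => b i.succ) (fun i => c i.succ),
        ContinuousAlternatingMap.curryLeft_apply_apply, ← cons_eta b]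
      congr 1
      refine Finset.sum_congr rfl fun j _ => ?_
      rw [ContinuousAlternatingMap.curryLeft_apply_apply, swap01]
      have h3 : Matrix.vecCons (b 0) (fun i : Fin p => b (j.succAbove i).succ) =
          fun i => b (j.succ.succAbove i) := by
        funext i
        refine Fin.cases ?_ (fun l => ?_) i
        · simp
        · simp
      rw [h3, Fin.val_succ, pow_succ]
      ring
    rw [h1, h2, Fin.sum_univ_succ (n := p + 1)]
    have h4 : (fun i : Fin (p + 1) => b ((0 : Fin (p + 2)).succAbove i)) =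
        fun i : Fin (p + 1) => b i.succ := by
      funext i
      rw [Fin.succAbove_zero]
    rw [h4]
    simp
    ring

end Alt

variable (n : ℕ)

/-- The inclusion of the hyperplane `x₀ = 0`. -/
def inc : (Fin n → ℝ) →L[ℝ] (Fin (n + 1) → ℝ) :=
  ContinuousLinearMap.pi fun i => Fin.cases (motive := fun _ => (Fin n → ℝ) →L[ℝ] ℝ) 0
    (fun j => ContinuousLinearMap.proj j) i

theorem inc_zero (y : Fin n → ℝ) : inc n y 0 = 0 := rfl

theorem inc_succ (y : Fin n → ℝ) (j : Fin n) : inc n y j.succ = y j := rfl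

/-- The first basis vector. -/
def e0 : Fin (n + 1) → ℝ := fun i => Fin.cases (motive := fun _ => ℝ) 1 (fun _ => 0) i

theorem dec (u : Fin (n + 1) → ℝ) : u = inc n (fun i => u i.succ) + u 0 • e0 n := by
  funext i
  refine Fin.cases ?_ (fun j => ?_) i
  · rw [Pi.add_apply, Pi.smul_apply, inc_zero]
    change u 0 = 0 + u 0 * 1
    ring
  · rw [Pi.add_apply, Pi.smul_apply, inc_succ]
    change u j.succ = u j.succ + u 0 * 0
    ring

theorem exp_succ {p : ℕ} (γ : (Fin (n + 1) → ℝ) [⋀^Fin (p + 1)]→L[ℝ] ℝ)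
    (u : Fin (p + 1) → Fin (n + 1) → ℝ) :
    γ u = γ (fun j => inc n (fun i => u j i.succ)) +
      ∑ j : Fin (p + 1), (-1 : ℝ) ^ (j : ℕ) * u j 0 *
        γ (Matrix.vecCons (e0 n) (fun i => inc n (fun l => u (j.succAbove i) l.succ))) := by
  have h := expand p γ (e0 n) (fun j => inc n (fun i => u j i.succ)) (fun j => u j 0)
  rw [← h]
  congr 1
  funext j
  exact dec n (u j)

end Cst

section
variable {Φ Φ' : Type} {n p : ℕ}

theorem isCst_cstR (g : Fin n → Φ) (α : (Fin n → ℝ) [⋀^Fin p]→L[ℝ] ℝ) : IsCst (cstR g α) :=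
  fun _ _ _ _ => rfl

theorem isSF_cstR [DecidableEq Φ] (g : Fin n → Φ) (α : (Fin n → ℝ) [⋀^Fin p]→L[ℝ] ℝ) :
    IsSF (Finset.univ.image g) (cstR g α) := by
  let r : (↥(Finset.univ.image g : Finset Φ) → ℝ) →L[ℝ] (Fin n → ℝ) :=
    ContinuousLinearMap.pi fun i => ContinuousLinearMap.proj
      (⟨g i, Finset.mem_image_of_mem g (Finset.mem_univ i)⟩ : (Finset.univ.image g : Finset Φ))
  exact ⟨fun _ => ContinuousAlternatingMap.constOfIsEmptyLIE ℝ
    (↥(Finset.univ.image g : Finset Φ) → ℝ)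
    ((↥(Finset.univ.image g : Finset Φ) → ℝ) [⋀^Fin p]→L[ℝ] ℝ) (Fin 0)
    (α.compContinuousLinearMap r), contDiff_const, fun x w v => rfl⟩

/-- Every constant form in the coordinates `g` is of the form `cstR g α`. -/
theorem exists_cstR [DecidableEq Φ] {g : Fin n → Φ} {θ : Raw Φ p 0} (hc : IsCst θ)
    (hs : IsSF (Finset.univ.image g) θ) : ∃ α, θ = cstR g α := by
  obtain ⟨A, -, hA⟩ := hs
  have hi : ∀ f : (Finset.univ.image g : Finset Φ), ∃ i, g i = f.1 := by
    intro f
    obtain ⟨i, -, hi⟩ := Finset.mem_image.1 f.2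
    exact ⟨i, hi⟩
  choose ix hix using hi
  refine ⟨(A 0 ![]).compContinuousLinearMap (ContinuousLinearMap.pi fun f =>
    ContinuousLinearMap.proj (ix f)), ?_⟩
  funext x w v
  rw [hc x 0 w v, hA]
  change A (rs _ 0) (fun i => rs _ (w i)) (fun j => rs _ (v j)) =
    A 0 ![] (fun j f => v j (g (ix f)))
  have e1 : (fun i => rs (Finset.univ.image g) (w i)) = ![] := Subsingleton.elim _ _
  have e2 : (fun j => rs (Finset.univ.image g) (v j)) = fun j f => v j (g (ix f)) := by
    funext j f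
    rw [hix]
    rfl
  rw [e1, e2]
  rfl

theorem pullR_cstR (φ : Φ' → Φ) (g : Fin n → Φ') (α : (Fin n → ℝ) [⋀^Fin p]→L[ℝ] ℝ) :
    pullR φ (cstR g α) = cstR (fun i => φ (g i)) α := rfl

/-- Decomposition of constant forms with respect to the first coordinate, degree `p + 1`. -/
theorem cstR_succ (γ : (Fin (n + 1) → ℝ) [⋀^Fin (p + 1)]→L[ℝ] ℝ) :
    ∃ (α : (Fin n → ℝ) [⋀^Fin (p + 1)]→L[ℝ] ℝ) (β : (Fin n → ℝ) [⋀^Fin p]→L[ℝ] ℝ),
      (∀ g : Fin (n + 1) → Φ, cstR g γ = cstR (fun i => g i.succ) α +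
        wdg1 (dlg (g 0)) (cstR (fun i => g i.succ) β)) ∧ (α = 0 → β = 0 → γ = 0) := by
  refine ⟨γ.compContinuousLinearMap (Cst.inc n),
    (γ.curryLeft (Cst.e0 n)).compContinuousLinearMap (Cst.inc n), ?_, ?_⟩
  · intro g
    funext x w v
    exact Cst.exp_succ n γ (fun j i => v j (g i))
  · intro ha hb
    ext u
    have h := Cst.exp_succ n γ u
    have h1 : ∀ u : Fin (p + 1) → Fin n → ℝ, γ (fun j => Cst.inc n (u j)) = 0 := fun u =>
      DFunLike.congr_fun ha u
    have h2 : ∀ u : Fin p → Fin n → ℝ,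
        γ (Matrix.vecCons (Cst.e0 n) (fun j => Cst.inc n (u j))) = 0 := fun u =>
      DFunLike.congr_fun hb u
    rw [h, h1, Finset.sum_eq_zero fun j _ => by rw [h2, mul_zero], add_zero]
    rfl

/-- The same in degree `0`. -/
theorem cstR_zero (γ : (Fin (n + 1) → ℝ) [⋀^Fin 0]→L[ℝ] ℝ) :
    ∃ α : (Fin n → ℝ) [⋀^Fin 0]→L[ℝ] ℝ,
      (∀ g : Fin (n + 1) → Φ, cstR g γ = cstR (fun i => g i.succ) α) ∧ (α = 0 → γ = 0) := by
  refine ⟨γ.compContinuousLinearMap (Cst.inc n), ?_, ?_⟩
  · intro g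
    funext x w v
    exact congrArg γ (Subsingleton.elim _ _)
  · intro ha
    ext u
    have h : γ.compContinuousLinearMap (Cst.inc n) ![] = 0 := DFunLike.congr_fun ha _
    change γ u = 0
    rw [← h]
    exact congrArg γ (Subsingleton.elim _ _)

end

namespace LogSpace

variable {X Φ : Type} [TopologicalSpace X] (L : LogSpace X Φ) {n p : ℕ} {z : X}

theorem sfat_cstR {g : Fin n → Φ} (h : ∀ i, z ∈ L.dom (g i))
    (α : (Fin n → ℝ) [⋀^Fin p]→L[ℝ] ℝ) : L.SFat z (cstR g α) := by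
  classical
  refine ⟨Finset.univ.image g, isSF_cstR g α, ?_⟩
  intro f hf
  obtain ⟨i, -, rfl⟩ := Finset.mem_image.1 hf
  exact h i

end LogSpace

end Pool.Agent.TD


end

section

/-!
# Block F: functoriality of the pull back, isomorphisms
-/

open scoped ContDiff Topology
open Polynomial

namespace Pool.Agent.TD

namespace Mor

variable {X Φ X' Φ' X'' Φ'' : Type} [TopologicalSpace X] [TopologicalSpace X']
  [TopologicalSpace X''] {L : LogSpace X Φ} {L' : LogSpace X' Φ'} {L'' : LogSpace X'' Φ''}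
  {p q : ℕ}

theorem ext' {m m' : Mor L L'} (h1 : m.toFun = m'.toFun) (h2 : m.ix = m'.ix) : m = m' := by
  cases m
  cases m'
  simp only at h1 h2
  subst h1
  subst h2
  rfl

theorem pullS_id {z : X} (c : L.Stalk p q z) : (Mor.id L).pullS p q z c = c := by
  obtain ⟨θ, h, rfl⟩ := L.exists_germ c
  exact (Mor.id L).pullS_germ (z := z) h

theorem pullG_id (c : L.G p q) : (Mor.id L).pullG p q c = c := by
  apply Subtype.ext
  funext z
  exact pullS_id (c.1 z)

theorem pullG_comp (m : Mor L L') (m' : Mor L' L'') (c : L''.G p q) :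
    (m.comp m').pullG p q c = m.pullG p q (m'.pullG p q c) := by
  apply Subtype.ext
  funext z
  exact m.pullS_comp m' (z := z) (c.1 (m'.toFun (m.toFun z)))

/-- Mutually inverse morphisms. -/
theorem pullG_inv {m : Mor L L'} {m' : Mor L' L} (h1 : ∀ z, m'.toFun (m.toFun z) = z)
    (h2 : ∀ f, m.ix (m'.ix f) = f) (c : L.G p q) : m.pullG p q (m'.pullG p q c) = c := by
  have e : m.comp m' = Mor.id L := ext' (funext h1) (funext h2)
  rw [← pullG_comp, e, pullG_id]

end Mor

section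
variable {K A B : Type} [NormedField K] [CommRing A] [Algebra K A] [CommRing B] [Algebra K B]
  {p q : ℕ}

theorem berM_inv_toFun (e : A ≃ₐ[K] B) (z : Ber K B) :
    (berM (e.symm : B →ₐ[K] A)).toFun ((berM (e : A →ₐ[K] B)).toFun z) = z := by
  apply Ber.ext_v
  intro a
  show z.v (e (e.symm a)) = z.v a
  rw [e.apply_symm_apply]

theorem berM_pull_inv (e : A ≃ₐ[K] B) (c : (berLS K B).G p q) :
    (berM (e : A →ₐ[K] B)).pullG p q ((berM (e.symm : B →ₐ[K] A)).pullG p q c) = c :=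
  Mor.pullG_inv (berM_inv_toFun e) (fun f => e.apply_symm_apply f) c

theorem berM_homeo (e : A ≃ₐ[K] B) :
    IsHomeomorph ((berM (e : A →ₐ[K] B)).toFun : Ber K B → Ber K A) := by
  let H : Ber K B ≃ₜ Ber K A :=
    { toFun := (berM (e : A →ₐ[K] B)).toFun
      invFun := (berM (e.symm : B →ₐ[K] A)).toFun
      left_inv := berM_inv_toFun e
      right_inv := berM_inv_toFun e.symm
      continuous_toFun := (berM (e : A →ₐ[K] B)).cont
      continuous_invFun := (berM (e.symm : B →ₐ[K] A)).cont }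
  exact H.isHomeomorph

end

end Pool.Agent.TD


end

section

/-!
# Block F: the property of tori
-/

open scoped ContDiff Topology
open Polynomial

namespace Pool.Agent.TD

section
variable (K : Type) {B : Type} [NormedField K] [CommRing B] [Algebra K B] {n : ℕ}

/-- The torus `{|g_i| = exp b_i}`. -/
def torS (g : Fin n → B) (b : Fin n → ℝ) : Set (Ber K B) := {z | ∀ i, z.v (g i) = Real.exp (b i)}

/-- (F2) The closed forms near the tori `{|g_i| = exp b_i}` are exact up to constant forms. -/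
structure TorP (g : Fin n → B) : Prop where
  compact : ∀ b, IsCompact (torS K g b)
  ex : ∀ (b : Fin n → ℝ) (p q : ℕ) (c : (berLS K B).G p (q + 1)),
    (∀ z ∈ torS K g b, (berLS K B).ddS p (q + 1) z (c.1 z) = 0) →
    ∃ e : (berLS K B).G p q, ∀ z ∈ torS K g b, c.1 z = (berLS K B).ddS p q z (e.1 z)
  cst : ∀ (b : Fin n → ℝ) (p : ℕ) (c : (berLS K B).G p 0),
    (∀ z ∈ torS K g b, (berLS K B).ddS p 0 z (c.1 z) = 0) →
    ∃ α : (Fin n → ℝ) [⋀^Fin p]→L[ℝ] ℝ, ∀ z ∈ torS K g b,
      ∃ h : (berLS K B).SFat z (cstR g α), c.1 z = (berLS K B).germ (cstR g α) h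
  uniq : ∀ (b : Fin n → ℝ) (p : ℕ) (α : (Fin n → ℝ) [⋀^Fin p]→L[ℝ] ℝ),
    (∀ z ∈ torS K g b, (berLS K B).Van z (cstR g α)) → α = 0

end

section
variable {K : Type} {B B' : Type} [NormedField K] [CommRing B] [Algebra K B] [CommRing B']
  [Algebra K B'] {n : ℕ}

theorem torS_dom {g : Fin n → B} {b : Fin n → ℝ} {z : Ber K B} (hz : z ∈ torS K g b) (i : Fin n) :
    z ∈ (berLS K B).dom (g i) := by
  show z.v (g i) ≠ 0
  rw [hz i]
  exact (Real.exp_pos _).ne'

/-- Transport along an isomorphism. -/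
theorem TorP.iso {g : Fin n → B} (h : TorP K g) (e : B ≃ₐ[K] B') :
    TorP K (fun i => e (g i)) := by
  -- the two mutually inverse morphisms
  let m : Mor (berLS K B') (berLS K B) := berM (e : B →ₐ[K] B')
  let m' : Mor (berLS K B) (berLS K B') := berM (e.symm : B' →ₐ[K] B)
  have hmv : ∀ (z : Ber K B') (x : B), (m.toFun z).v x = z.v (e x) := fun _ _ => rfl
  have hm'v : ∀ (y : Ber K B) (x : B'), (m'.toFun y).v x = y.v (e.symm x) := fun _ _ => rfl
  have hmem : ∀ (b : Fin n → ℝ) (z : Ber K B'), z ∈ torS K (fun i => e (g i)) b →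
      m.toFun z ∈ torS K g b := fun b z hz i => hz i
  have hmem' : ∀ (b : Fin n → ℝ) (y : Ber K B), y ∈ torS K g b →
      m'.toFun y ∈ torS K (fun i => e (g i)) b := by
    intro b y hy i
    show y.v (e.symm (e (g i))) = _
    rw [e.symm_apply_apply]
    exact hy i
  have hclosed : ∀ (b : Fin n → ℝ) (p q : ℕ) (c : (berLS K B').G p q),
      (∀ z ∈ torS K (fun i => e (g i)) b, (berLS K B').ddS p q z (c.1 z) = 0) →
      ∀ y ∈ torS K g b, (berLS K B).ddS p q y ((m'.pullG p q c).1 y) = 0 := by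
    intro b p q c hc y hy
    rw [Mor.pullG_val]
    have h1 := m'.pullS_ddS (z := y) (c.1 (m'.toFun y))
    rw [hc _ (hmem' b y hy), map_zero] at h1
    exact h1.symm
  have hback : ∀ (p q : ℕ) (c : (berLS K B').G p q), m.pullG p q (m'.pullG p q c) = c :=
    fun p q c => berM_pull_inv e c
  refine ⟨?_, ?_, ?_, ?_⟩
  · intro b
    have h1 : torS K (fun i => e (g i)) b = m.toFun ⁻¹' torS K g b := rfl
    rw [h1]
    exact ((berM_homeo e).homeomorph.isCompact_preimage).2 (h.compact b)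
  · intro b p q c hc
    obtain ⟨f, hf⟩ := h.ex b p q (m'.pullG p (q + 1) c) (hclosed b p (q + 1) c hc)
    refine ⟨m.pullG p q f, ?_⟩
    intro z hz
    have h1 := hf _ (hmem b z hz)
    have h2 : c.1 z = m.pullS p (q + 1) z ((m'.pullG p (q + 1) c).1 (m.toFun z)) := by
      rw [← Mor.pullG_val, hback]
    rw [h2, h1, Mor.pullG_val]
    exact m.pullS_ddS (z := z) (f.1 (m.toFun z))
  · intro b p c hc
    obtain ⟨α, hα⟩ := h.cst b p (m'.pullG p 0 c) (hclosed b p 0 c hc)
    refine ⟨α, ?_⟩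
    intro z hz
    obtain ⟨h1, h3⟩ := hα _ (hmem b z hz)
    refine ⟨m.sfat h1, ?_⟩
    have h2 : c.1 z = m.pullS p 0 z ((m'.pullG p 0 c).1 (m.toFun z)) := by
      rw [← Mor.pullG_val, hback]
    rw [h2, h3]
    exact m.pullS_germ h1
  · intro b p α hα
    refine h.uniq b p α ?_
    intro y hy
    have h1 := m'.van (z := y) (hα _ (hmem' b y hy))
    have h2 : pullR m'.ix (cstR (fun i => e (g i)) α) = cstR g α := by
      rw [pullR_cstR]
      congr 1
      funext i
      exact e.symm_apply_apply (g i)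
    rw [h2] at h1
    exact h1

end

end Pool.Agent.TD


end

section

/-!
# Block F: the projection `M(A[X]) → M(A)` is proper on the circle bundle
-/

open scoped ContDiff Topology
open Polynomial

namespace Pool.Agent.TD

section
variable {K A : Type} [NormedField K] [CommRing A] [Algebra K A]

theorem isClosed_circ (r : ℝ) : IsClosed (circB K A r) :=
  isClosed_eq (Ber.continuous_v X) continuous_const

/-- `|f|_z ≤ max_k |f_k|_{pr z} |r|^k` on the circle bundle. -/
private lemma fpr_bound {r : ℝ} {z : Ber K A[X]} (hz : z ∈ circB K A r) (f : A[X]) {M : ℕ → ℝ}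
    (hM0 : ∀ k, 0 ≤ M k) (hM : ∀ k, z.v (C (f.coeff k)) ≤ M k) :
    z.v f ≤ ∑ k ∈ Finset.range (f.natDegree + 1), M k * |r| ^ k := by
  have hX : z.v X = r := hz
  have h0 : ∀ k, 0 ≤ M k * |r| ^ k := fun k => mul_nonneg (hM0 k) (pow_nonneg (abs_nonneg r) k)
  conv_lhs => rw [Polynomial.as_sum_range_C_mul_X_pow f]
  refine z.sum_le _ _ (Finset.sum_nonneg fun k _ => h0 k) fun k hk => ?_
  rw [z.mul, z.pow, hX]
  refine le_trans ?_ (Finset.single_le_sum (f := fun k => M k * |r| ^ k)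
    (fun i _ => h0 i) hk)
  refine mul_le_mul (hM k) (pow_le_pow_left₀ ?_ (le_abs_self r) k) (pow_nonneg ?_ k) (hM0 k)
  · rw [← hX]; exact z.nonneg _
  · rw [← hX]; exact z.nonneg _

theorem isCompact_circ_pre (r : ℝ) {Z : Set (Ber K A)} (hZ : IsCompact Z) :
    IsCompact (circB K A r ∩ (prM K A).toFun ⁻¹' Z) := by
  have h1 : ∀ a : A, ∃ M : ℝ, 0 ≤ M ∧ ∀ y ∈ Z, y.v a ≤ M := by
    intro a
    have h2 : BddAbove ((fun y : Ber K A => y.v a) '' Z) :=
      (hZ.image (Ber.continuous_v a)).bddAbove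
    obtain ⟨M, hM⟩ := h2
    exact ⟨max M 0, le_max_right _ _, fun y hy => (hM ⟨y, hy, rfl⟩).trans (le_max_left _ _)⟩
  choose M hM0 hM using h1
  refine Ber.isCompact_of_bounded
    ((isClosed_circ r).inter (hZ.isClosed.preimage (prM K A).cont))
    (fun f => ∑ k ∈ Finset.range (f.natDegree + 1), M (f.coeff k) * |r| ^ k) ?_
  rintro z ⟨hz, hz'⟩ f
  exact fpr_bound hz f (fun k => hM0 _) fun k => hM (f.coeff k) _ hz'

theorem properOn_circ [LocallyCompactSpace (Ber K A)] (r : ℝ) :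
    ProperOn (circB K A r) (prM K A).toFun :=
  properOn_of_comp (prM K A).cont (isClosed_circ r) fun _ hZ => isCompact_circ_pre r hZ

/-- A smooth function of one coordinate is a form of type `(0,0)`. -/
private lemma fpr_isSF {Φ : Type} (f : Φ) {a : ℝ → ℝ} (ha : ContDiff ℝ ∞ a) :
    IsSF {f} (fun x _ _ => a (x f) : Raw Φ 0 0) := by
  have ha' : ContDiff ℝ ∞ (fun y : (({f} : Finset Φ) → ℝ) => a (y ⟨f, Finset.mem_singleton_self f⟩)) :=
    ha.comp (contDiff_apply ℝ ℝ _)
  refine ⟨fun y => ContinuousAlternatingMap.constOfIsEmptyLIE ℝ (({f} : Finset Φ) → ℝ)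
    ((({f} : Finset Φ) → ℝ) [⋀^Fin 0]→L[ℝ] ℝ) (Fin 0)
      (ContinuousAlternatingMap.constOfIsEmptyLIE ℝ (({f} : Finset Φ) → ℝ)
      ℝ (Fin 0) (a (y ⟨f, Finset.mem_singleton_self f⟩))), ?_, fun x w v => rfl⟩
  have h1 : ContDiff ℝ ∞ (fun y : (({f} : Finset Φ) → ℝ) =>
      ContinuousAlternatingMap.constOfIsEmptyLIE ℝ (({f} : Finset Φ) → ℝ)
      ℝ (Fin 0) (a (y ⟨f, Finset.mem_singleton_self f⟩))) :=
    (LinearIsometryEquiv.contDiff _).comp ha'
  exact (LinearIsometryEquiv.contDiff _).comp h1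

/-- Vanishing of `a (x f) v(f)` where `a = 0` near `z`. -/
private lemma fpr_van {X₀ Φ : Type} [TopologicalSpace X₀] (L : LogSpace X₀ Φ) {z : X₀} {f : Φ}
    (hz : z ∈ L.dom f) {a : ℝ → ℝ} (ha : ContDiff ℝ ∞ a)
    (h : ∀ᶠ z' in 𝓝 z, z' ∈ L.dom f → a (L.lf f z') = 0) :
    L.Van z (mul0 (fun x _ _ => a (x f)) (dlg f) : Raw Φ 1 0) := by
  have hd : ∀ᶠ z' in 𝓝 z, z' ∈ L.dom f := (L.isOpen_dom f).mem_nhds hz
  refine ⟨{f}, (fpr_isSF f ha).mul0 (isSF_dlg (Finset.mem_singleton_self f)),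
    {z' | a (L.lf f z') = 0 ∧ z' ∈ L.dom f}, ?_, ?_, ?_⟩
  · filter_upwards [h, hd] with z' h1 h2
    exact ⟨h1 h2, h2⟩
  · intro g hg z' hz'
    rw [Finset.mem_singleton.1 hg]
    exact hz'.2
  · intro σ _ hσP x w v hx _ _
    obtain ⟨z', hz', e'⟩ := hσP hx
    have e1 : x f = L.lf f z' := (congrFun e' ⟨f, Finset.mem_singleton_self f⟩).symm
    show a (x f) * _ = 0
    rw [e1, hz'.1, zero_mul]

/-- A global section equal to `dlog |X|` near the circle bundle. -/
theorem exists_xi (K A : Type) [NormedField K] [CommRing A] [Algebra K A] {r : ℝ} (hr : 0 < r) :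
    ∃ ξ : (berLS K A[X]).G 1 0,
      ∀ z ∈ circB K A r, ∀ h, ξ.1 z = (berLS K A[X]).dlS (X : A[X]) h := by
  classical
  let L := berLS K A[X]
  let ψ : ContDiffBump (Real.log r) := ⟨1/4, 1/2, by norm_num, by norm_num⟩
  have hψ : ContDiff ℝ ∞ (ψ : ℝ → ℝ) := ψ.contDiff
  have hψ1 : ∀ t, |t - Real.log r| ≤ 1/4 → ψ t = 1 := fun t ht =>
    ψ.one_of_mem_closedBall (by rw [Metric.mem_closedBall, Real.dist_eq]; exact ht)
  have hψ0 : ∀ t, 1/2 ≤ |t - Real.log r| → ψ t = 0 := fun t ht =>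
    ψ.zero_of_le_dist (by rw [Real.dist_eq]; exact ht)
  let θ : Raw A[X] 1 0 := mul0 (fun x _ _ => ψ (x (X : A[X]))) (dlg (X : A[X]))
  have hsf : ∀ z, z ∈ L.dom (X : A[X]) → L.SFat z θ := fun z hz =>
    ⟨{X}, (fpr_isSF X hψ).mul0 (isSF_dlg (Finset.mem_singleton_self _)), by simpa using hz⟩
  let ξ : ∀ z, L.Stalk 1 0 z := fun z =>
    if h : z ∈ L.dom (X : A[X]) then L.germ θ (hsf z h) else 0
  have hcont : Continuous fun z : Ber K A[X] => z.v X := Ber.continuous_v X
  refine ⟨⟨ξ, fun z => ?_⟩, ?_⟩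
  · by_cases hz : z ∈ L.dom (X : A[X])
    · refine ⟨θ, ?_⟩
      have hd : ∀ᶠ z' in 𝓝 z, z' ∈ L.dom (X : A[X]) := (L.isOpen_dom _).mem_nhds hz
      filter_upwards [hd] with z' hz'
      exact ⟨hsf z' hz', dif_pos hz'⟩
    · refine ⟨0, ?_⟩
      have hz0 : z.v X = 0 := by
        by_contra h
        exact hz h
      have hd : {z' : Ber K A[X] | z'.v X < r * Real.exp (-1)} ∈ 𝓝 z := by
        refine (isOpen_lt hcont continuous_const).mem_nhds ?_
        show z.v X < _
        rw [hz0]; positivity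
      filter_upwards [eventually_mem_nhds_iff.2 hd] with z' hz'
      refine ⟨LogSpace.SFat.zero L, ?_⟩
      rw [L.germ_zero]
      by_cases hz'' : z' ∈ L.dom (X : A[X])
      · show ξ z' = 0
        rw [show ξ z' = L.germ θ (hsf z' hz'') from dif_pos hz'', L.germ_eq_zero]
        refine fpr_van L hz'' hψ ?_
        filter_upwards [hz'] with y hy hyd
        apply hψ0
        have h1 : Real.log (y.v X) < Real.log r - 1 := by
          have hpos : 0 < y.v X := lt_of_le_of_ne (y.nonneg _) (Ne.symm hyd)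
          have h2 := Real.log_lt_log hpos hy
          rw [Real.log_mul hr.ne' (Real.exp_pos _).ne', Real.log_exp] at h2
          linarith
        show 1/2 ≤ |Real.log (y.v X) - Real.log r|
        rw [abs_sub_comm]
        refine le_trans ?_ (le_abs_self _)
        linarith
      · exact dif_neg hz''
  · intro z hz h
    show ξ z = L.dlS X h
    rw [show ξ z = L.germ θ (hsf z h) from dif_pos h]
    have h2 : L.SFat z (dlg (X : A[X])) :=
      ⟨{X}, isSF_dlg (Finset.mem_singleton_self _), by simpa using h⟩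
    show L.germ θ (hsf z h) = L.germ (dlg X) h2
    rw [L.germ_eq_iff]
    have e : (θ - dlg (X : A[X]) : Raw A[X] 1 0) =
        mul0 (fun x _ _ => (ψ (x (X : A[X])) - 1)) (dlg (X : A[X])) := by
      funext x w v
      show ψ (x X) * _ - _ = (ψ (x X) - 1) * _
      ring
    rw [e]
    refine fpr_van L h (a := fun t => ψ t - 1) (hψ.sub contDiff_const) ?_
    have hc : ContinuousAt (fun y : Ber K A[X] => Real.log (y.v X)) z :=
      hcont.continuousAt.log h
    have hz' : z.v X = r := hz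
    have hb : {t : ℝ | |t - Real.log r| ≤ 1/4} ∈ 𝓝 (Real.log (z.v X)) := by
      rw [hz']
      have := Metric.closedBall_mem_nhds (Real.log r) (show (0:ℝ) < 1/4 by norm_num)
      filter_upwards [this] with t ht
      rwa [Metric.mem_closedBall, Real.dist_eq] at ht
    filter_upwards [hc hb] with y hy _
    show ψ (Real.log (y.v X)) - 1 = 0
    rw [hψ1 _ hy, sub_self]

theorem ddS_wdS_dlS {z : Ber K A[X]} (h : z ∈ (berLS K A[X]).dom (X : A[X])) {p q : ℕ}
    (c : (berLS K A[X]).Stalk p q z) :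
    (berLS K A[X]).ddS (p + 1) q z ((berLS K A[X]).wdS p q z ((berLS K A[X]).dlS X h) c) =
      (berLS K A[X]).wdS p (q + 1) z ((berLS K A[X]).dlS X h) ((berLS K A[X]).ddS p q z c) :=
  (berLS K A[X]).ddS_wdS (Submodule.subset_span ⟨X, h, rfl⟩) c

end

end Pool.Agent.TD


end

section

/-!
# Block F: the morphism of complexes with supports over `M(A)`
-/

open scoped ContDiff Topology
open Polynomial

namespace Pool.Agent.TD

/-- Local properties of `M(A)`. -/
structure Good (K A : Type) [NormedField K] [CommRing A] [Algebra K A] : Prop where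
  lc : LocallyCompactSpace (Ber K A)
  cut : (berLS K A).CutOff
  star : ∀ z, (berLS K A).StarAt z

section
variable {K A : Type} [NormedField K] [CommRing A] [Algebra K A]
  [LocallyCompactSpace (Ber K A)] [LocallyCompactSpace (Ber K A[X])]
  (hA : (berLS K A).CutOff) (hX : (berLS K A[X]).CutOff) (r : ℝ)

/-- The complex of forms of type `(p,*)` near the circle bundle, pushed to `M(A)`. -/
noncomputable abbrev circD (p : ℕ) : SCx (Ber K A) :=
  ((berLS K A[X]).cx hX p).push (properOn_circ (K := K) (A := A) r)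

/-- Pull back of functions (type `(0,*)`). -/
noncomputable def phi0 : SHom ((berLS K A).cx hA 0) (circD hX r 0) where
  f q := (((berLS K A[X]).cx hX 0).cls (circB K A r) q).comp ((prM K A).pullG 0 q).toAddMonoidHom
  comm := by
    intro q c
    show ((berLS K A[X]).cx hX 0).cls (circB K A r) (q + 1)
        ((prM K A).pullG 0 (q + 1) ((berLS K A).ddG 0 q c)) =
      ((berLS K A[X]).cx hX 0).cls (circB K A r) (q + 1)
        ((berLS K A[X]).ddG 0 q ((prM K A).pullG 0 q c))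
    rw [Mor.pullG_ddG]
  supp := by
    intro q c
    refine (SCx.push_supp _ (properOn_circ (K := K) (A := A) r) _).subset.trans ?_
    rintro _ ⟨z, ⟨hz, -⟩, rfl⟩ h0
    refine hz ?_
    show (prM K A).pullS 0 q z (c.1 ((prM K A).toFun z)) = 0
    rw [h0, map_zero]

/-- The map `(a, b) ↦ pr^* a + dlog|X| ∧ pr^* b`, for a section `ξ` equal to `dlog|X|` near the
circle bundle. -/
noncomputable def phi1 (ξ : (berLS K A[X]).G 1 0)
    (hξ : ∀ z ∈ circB K A r, (berLS K A[X]).ddS 1 0 z (ξ.1 z) = 0 ∧ ξ.1 z ∈ (berLS K A[X]).L1 z)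
    (p : ℕ) : SHom (((berLS K A).cx hA (p + 1)).prod ((berLS K A).cx hA p))
      (circD hX r (p + 1)) where
  f q := (((berLS K A[X]).cx hX (p + 1)).cls (circB K A r) q).comp
    { toFun := fun c : (berLS K A).G (p + 1) q × (berLS K A).G p q =>
        (prM K A).pullG (p + 1) q c.1 + (berLS K A[X]).wdG p q ξ ((prM K A).pullG p q c.2)
      map_zero' := by
        apply Subtype.ext
        funext z
        show (prM K A).pullS (p + 1) q z 0 +
          (berLS K A[X]).wdS p q z (ξ.1 z) ((prM K A).pullS p q z 0) = 0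
        rw [map_zero, map_zero, map_zero, add_zero]
      map_add' := by
        intro c c'
        apply Subtype.ext
        funext z
        show (prM K A).pullS (p + 1) q z (c.1.1 _ + c'.1.1 _) +
          (berLS K A[X]).wdS p q z (ξ.1 z) ((prM K A).pullS p q z (c.2.1 _ + c'.2.1 _)) =
          ((prM K A).pullS (p + 1) q z (c.1.1 _) +
            (berLS K A[X]).wdS p q z (ξ.1 z) ((prM K A).pullS p q z (c.2.1 _))) +
          ((prM K A).pullS (p + 1) q z (c'.1.1 _) +
            (berLS K A[X]).wdS p q z (ξ.1 z) ((prM K A).pullS p q z (c'.2.1 _)))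
        rw [map_add, map_add, map_add]
        abel }
  comm := by
    intro q c
    show ((berLS K A[X]).cx hX (p + 1)).cls (circB K A r) (q + 1)
        ((prM K A).pullG (p + 1) (q + 1) ((berLS K A).ddG (p + 1) q c.1) +
          (berLS K A[X]).wdG p (q + 1) ξ ((prM K A).pullG p (q + 1) ((berLS K A).ddG p q c.2))) =
      ((berLS K A[X]).cx hX (p + 1)).cls (circB K A r) (q + 1)
        ((berLS K A[X]).ddG (p + 1) q ((prM K A).pullG (p + 1) q c.1 +
          (berLS K A[X]).wdG p q ξ ((prM K A).pullG p q c.2)))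
    rw [← sub_eq_zero, ← map_sub, SCx.cls_eq_zero]
    refine ((berLS K A[X]).disj_supp_sub _ _ _).2 fun z hz => ?_
    show (prM K A).pullS (p + 1) (q + 1) z ((berLS K A).ddS (p + 1) q _ (c.1.1 _)) +
        (berLS K A[X]).wdS p (q + 1) z (ξ.1 z)
          ((prM K A).pullS p (q + 1) z ((berLS K A).ddS p q _ (c.2.1 _))) =
      (berLS K A[X]).ddS (p + 1) q z ((prM K A).pullS (p + 1) q z (c.1.1 _) +
        (berLS K A[X]).wdS p q z (ξ.1 z) ((prM K A).pullS p q z (c.2.1 _)))
    rw [map_add, LogSpace.ddS_wdS _ (hξ z hz).2, Mor.pullS_ddS, Mor.pullS_ddS]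
  supp := by
    intro q c
    refine (SCx.push_supp _ (properOn_circ (K := K) (A := A) r) _).subset.trans ?_
    rintro _ ⟨z, ⟨hz, -⟩, rfl⟩
    by_contra h0
    have h1 : c.1.1 ((prM K A).toFun z) = 0 := by
      by_contra h2
      exact h0 (Or.inl h2)
    have h3 : c.2.1 ((prM K A).toFun z) = 0 := by
      by_contra h2
      exact h0 (Or.inr h2)
    refine hz ?_
    show (prM K A).pullS (p + 1) q z (c.1.1 _) +
      (berLS K A[X]).wdS p q z (ξ.1 z) ((prM K A).pullS p q z (c.2.1 _)) = 0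
    rw [h1, h3, map_zero, map_zero, map_zero, add_zero]

end

end Pool.Agent.TD


end

section

/-!
# Block V: vanishing near compact pieces of a fibre (MP_90358a_ag), definitions

`T` is a partially ordered space embedded in `X` by `j` (the fibre `M(H[X])` of the line over a
point), `C` a closed piece of `T` (a circle `{|X| = r}`, a disc).
-/

open scoped ContDiff Topology

namespace Pool.Agent.TD

section
variable {X Φ T : Type} [TopologicalSpace X] [TopologicalSpace T] [PartialOrder T]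

/-- Near `w` the restriction to `D` of the family `s` of `(p,0)`-germs is given by one form with
constant coefficients. -/
def VLC (L : LogSpace X Φ) (j : T → X) {p : ℕ} (s : ∀ w, L.Stalk p 0 (j w)) (D : Set T)
    (w : T) : Prop :=
  ∃ θ : Raw Φ p 0, IsCst θ ∧ ∀ᶠ w' in 𝓝 w, w' ∈ D → ∃ h : L.SFat (j w') θ, s w' = L.germ θ h

/-- (S) closed `(p,0)`-germs at `j e` are sums of a section over the complement of the open disc
below `e` and a section over the disc `{w ≤ e}`. -/
def Split (L : LogSpace X Φ) (j : T → X) (p : ℕ) (e : T) : Prop :=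
  ∀ l ∈ L.Lp p (j e), ∃ s1 s2 : ∀ w, L.Stalk p 0 (j w),
    (∀ w, ¬ w < e → VLC L j s1 {w | ¬ w < e} w) ∧ (∀ w, w ≤ e → VLC L j s2 (Set.Iic e) w) ∧
    s1 e + s2 e = l

/-- A closed piece `C` of the ordered space `T`, with largest element. -/
structure TreePart {T : Type} [TopologicalSpace T] [PartialOrder T] (C : Set T) : Prop where
  closed : IsClosed C
  compact_Iic : ∀ e : T, IsCompact (Set.Iic e)
  isOpen_Iio : ∀ e : T, IsOpen (Set.Iio e)
  chain : ∀ S ⊆ C, IsChain (· ≤ ·) S → S.Nonempty → ∃ m ∈ C, IsGLB S m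
  down : ∀ e ∈ C, ∀ z ∈ C, z < e → Set.Iic z ⊆ C
  star : ∀ e ∈ C, ∀ W ∈ 𝓝 e, ∃ S : Finset T, (∀ s ∈ S, s < e ∧ s ∈ C) ∧
    (∀ s ∈ S, ∀ t ∈ S, s ≠ t → Disjoint (Set.Iic s) (Set.Iic t)) ∧
    (Set.Iic e ∩ C) \ (⋃ s ∈ S, Set.Iio s) ⊆ W
  top : ∃ η ∈ C, C ⊆ Set.Iic η

/-- `c` is exact at the points `j w`, `w ∈ Z`. -/
def ExactOn (L : LogSpace X Φ) (j : T → X) {p q : ℕ} (c : L.G p (q + 1)) (Z : Set T) : Prop :=
  ∃ e : L.G p q, ∀ w ∈ Z, (L.ddG p q e).1 (j w) = c.1 (j w)

end

end Pool.Agent.TD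


end

section

/-!
# Block V: extension of sections over the fibre to global sections
-/

open scoped ContDiff Topology

namespace Pool.Agent.TD

section
variable {X Φ T : Type} [TopologicalSpace X] [TopologicalSpace T] [PartialOrder T]
  [LocallyCompactSpace X] [T2Space X] {L : LogSpace X Φ} {j : T → X} {p q : ℕ}

omit [LocallyCompactSpace X] [T2Space X] [PartialOrder T] in
theorem VLC.mono {s : ∀ w, L.Stalk p 0 (j w)} {D D' : Set T} {w : T} (h : VLC L j s D w)
    (hD : D' ⊆ D) : VLC L j s D' w := by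
  obtain ⟨θ, hθ, h⟩ := h
  exact ⟨θ, hθ, h.mono fun w' hw' hd => hw' (hD hd)⟩

omit [LocallyCompactSpace X] [T2Space X] [PartialOrder T] in
theorem VLC.closed {s : ∀ w, L.Stalk p 0 (j w)} {D : Set T} {w : T} (h : VLC L j s D w)
    (hw : w ∈ D) : L.ddS p 0 (j w) (s w) = 0 := by
  obtain ⟨θ, hθ, h⟩ := h
  obtain ⟨h1, e1⟩ := h.self_of_nhds hw
  rw [e1]
  exact L.Lp_closed (L.germ_cst_mem hθ h1)

omit [LocallyCompactSpace X] [T2Space X] in
/-- (S) is trivial at minimal points. -/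
theorem split_of_min {e : T} (he : Set.Iic e = {e}) : Split L j p e := by
  classical
  intro l hl
  have hle : ∀ w : T, w ≤ e → w = e := fun w hw => by
    have h1 : w ∈ Set.Iic e := hw
    rw [he] at h1
    exact h1
  refine ⟨fun _ => 0, fun w => if h : w = e then (h.symm ▸ l : L.Stalk p 0 (j w)) else 0,
    ?_, ?_, ?_⟩
  · intro w _
    exact ⟨0, isCst_zero, Filter.Eventually.of_forall fun w' _ =>
      ⟨LogSpace.SFat.zero L, L.germ_zero.symm⟩⟩
  · intro w hw
    obtain ⟨θ, hθ, h, e1⟩ := L.exists_cst hl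
    refine ⟨θ, hθ, Filter.Eventually.of_forall fun w' hw' => ?_⟩
    have hw'' : w' = e := hle w' hw'
    subst hw''
    refine ⟨h, ?_⟩
    show (if h : w' = w' then (h.symm ▸ l : L.Stalk p 0 (j w')) else 0) = _
    rw [dif_pos rfl]
    exact e1
  · show (0 : L.Stalk p 0 (j e)) + (if h : e = e then (h.symm ▸ l : L.Stalk p 0 (j e)) else 0) = l
    rw [dif_pos rfl, zero_add]

/-- A family which is locally constant on a compact set `Z` extends to a global section, closed at
the points of `j '' Z`. -/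
theorem vlc_extend (hC : L.CutOff) (hj : Topology.IsEmbedding j) {Z : Set T} (hZ : IsCompact Z)
    {s : ∀ w, L.Stalk p 0 (j w)} (hs : ∀ w ∈ Z, VLC L j s Z w) :
    ∃ b : L.G p 0, (∀ w ∈ Z, b.1 (j w) = s w) ∧ ∀ w ∈ Z, (L.ddG p 0 b).1 (j w) = 0 := by
  classical
  let S : ∀ z, L.Stalk p 0 z := fun z =>
    if h : ∃ w, j w = z then (h.choose_spec ▸ s h.choose : L.Stalk p 0 z) else 0
  have key : ∀ (w w' : T) (e : j w' = j w), (e ▸ s w' : L.Stalk p 0 (j w)) = s w := by
    intro w w' e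
    have h1 : w' = w := hj.injective e
    subst h1
    rfl
  have hS : ∀ w, S (j w) = s w := by
    intro w
    have h : ∃ w', j w' = j w := ⟨w, rfl⟩
    show (if h : ∃ w', j w' = j w then (h.choose_spec ▸ s h.choose : L.Stalk p 0 (j w)) else 0) = s w
    rw [dif_pos h]
    exact key _ _ _
  obtain ⟨b, hb⟩ := L.extend hC (hZ.image hj.continuous) S (by
    rintro z ⟨w, hw, rfl⟩
    obtain ⟨θ, hθ, h⟩ := hs w hw
    refine ⟨θ, ?_⟩
    rw [hj.toIsInducing.nhds_eq_comap, Filter.eventually_comap] at h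
    filter_upwards [h] with z' hz' hzZ
    obtain ⟨w', hw', rfl⟩ := hzZ
    obtain ⟨h1, e1⟩ := hz' w' rfl hw'
    exact ⟨h1, (hS w').trans e1⟩)
  have hb' : ∀ w ∈ Z, b.1 (j w) = s w := fun w hw =>
    (hb (j w) (Set.mem_image_of_mem j hw)).trans (hS w)
  refine ⟨b, hb', fun w hw => ?_⟩
  rw [LogSpace.ddG_val, hb' w hw]
  exact (hs w hw).closed hw

omit [LocallyCompactSpace X] [T2Space X] [PartialOrder T] in
/-- Exactness is an open condition. -/
theorem ExactOn.nhds {c : L.G p (q + 1)} (hj : Continuous j) {Z : Set T} (h : ExactOn L j c Z) :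
    ∃ U : Set T, IsOpen U ∧ Z ⊆ U ∧ ExactOn L j c U := by
  obtain ⟨e, he⟩ := h
  refine ⟨j ⁻¹' (L.supp (L.ddG p q e - c))ᶜ, (L.isClosed_supp _).isOpen_compl.preimage hj, ?_,
    e, ?_⟩
  · intro w hw hsupp
    apply hsupp
    show (L.ddG p q e).1 (j w) - c.1 (j w) = 0
    rw [he w hw, sub_self]
  · intro w hw
    by_contra hne
    apply hw
    show (L.ddG p q e).1 (j w) - c.1 (j w) ≠ 0
    exact sub_ne_zero.2 hne

/-- Poincaré: a section which is closed at `j w` is exact near `w`. -/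
theorem exactOn_point (hC : L.CutOff) {c : L.G p (q + 1)} (hj : Continuous j) {w : T}
    (hs : L.StarAt (j w)) (hc : (L.ddG p (q + 1) c).1 (j w) = 0) :
    ∃ U : Set T, IsOpen U ∧ w ∈ U ∧ ExactOn L j c U := by
  obtain ⟨e0, he0⟩ := L.poincare hs (c.1 (j w)) hc
  obtain ⟨θ, h, rfl⟩ := L.exists_germ e0
  obtain ⟨b, hb⟩ := L.extend_germ hC h
  obtain ⟨h', e1⟩ := hb.self_of_nhds
  have hex : ExactOn L j c {w} := by
    refine ⟨b, fun w' hw' => ?_⟩
    have hw'' : w' = w := hw'
    subst hw''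
    rw [LogSpace.ddG_val, e1]
    exact he0
  obtain ⟨U, hU, hwU, hU'⟩ := hex.nhds hj
  exact ⟨U, hU, hwU rfl, hU'⟩

end

end Pool.Agent.TD


end

section

/-!
# Block V: gluing of primitives at one point
-/

open scoped ContDiff Topology

namespace Pool.Agent.TD

section
variable {X Φ T : Type} [TopologicalSpace X] [TopologicalSpace T] [PartialOrder T]
  [LocallyCompactSpace X] [T2Space X] {L : LogSpace X Φ} {j : T → X} {p q : ℕ}

omit [PartialOrder T] in
/-- Two primitives which agree on the intersection are glued. -/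
theorem vglue_aux (hC : L.CutOff) (hj : Topology.IsEmbedding j) {Z1 Z2 : Set T}
    (h1 : IsCompact Z1) (h2 : IsCompact Z2) {c : L.G p (q + 1)} (a1 a2 : L.G p q)
    (e1 : ∀ w ∈ Z1, (L.ddG p q a1).1 (j w) = c.1 (j w))
    (e2 : ∀ w ∈ Z2, (L.ddG p q a2).1 (j w) = c.1 (j w))
    (h : ∀ w ∈ Z1 ∩ Z2, a1.1 (j w) = a2.1 (j w)) :
    ExactOn L j c (Z1 ∪ Z2) := by
  obtain ⟨a, ha1, ha2⟩ := L.glue hC (h1.image hj.continuous) (h2.image hj.continuous) a1 a2 (by
    rintro z ⟨⟨w, hw, rfl⟩, ⟨w', hw', hww⟩⟩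
    have : w' = w := hj.injective hww
    subst this
    exact h w' ⟨hw, hw'⟩)
  refine ⟨a, ?_⟩
  rintro w (hw | hw)
  · rw [← e1 w hw]
    show L.ddS p q (j w) (a.1 (j w)) = L.ddS p q (j w) (a1.1 (j w))
    rw [ha1 _ ⟨w, hw, rfl⟩]
  · rw [← e2 w hw]
    show L.ddS p q (j w) (a.1 (j w)) = L.ddS p q (j w) (a2.1 (j w))
    rw [ha2 _ ⟨w, hw, rfl⟩]

/-- Primitives over `Z1` and over the disc `Z2` below `e` are glued at the single point `e`. -/
theorem exactOn_union (hC : L.CutOff) (hj : Topology.IsEmbedding j) {e : T} (hs : L.StarAt (j e))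
    (hS : Split L j p e) {Z1 Z2 : Set T} (h1 : IsCompact Z1) (h2 : IsCompact Z2)
    (hZ1 : ∀ w ∈ Z1, ¬ w < e) (hZ2 : Z2 ⊆ Set.Iic e) (he : Z1 ∩ Z2 ⊆ {e})
    {c : L.G p (q + 1)} (e1 : ExactOn L j c Z1) (e2 : ExactOn L j c Z2) :
    ExactOn L j c (Z1 ∪ Z2) := by
  obtain ⟨a1, e1⟩ := e1
  obtain ⟨a2, e2⟩ := e2
  by_cases hee : e ∈ Z1 ∧ e ∈ Z2
  swap
  · refine vglue_aux hC hj h1 h2 a1 a2 e1 e2 fun w hw => ?_
    have hwe : w = e := he hw
    subst hwe
    exact absurd hw hee
  · have hl : L.ddS p q (j e) (a1.1 (j e) - a2.1 (j e)) = 0 := by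
      rw [map_sub]
      have k1 : L.ddS p q (j e) (a1.1 (j e)) = c.1 (j e) := e1 e hee.1
      have k2 : L.ddS p q (j e) (a2.1 (j e)) = c.1 (j e) := e2 e hee.2
      rw [k1, k2, sub_self]
    cases q with
    | zero =>
      obtain ⟨s1, s2, hs1, hs2, hs3⟩ := hS _ (L.poincare0 hs _ hl)
      obtain ⟨b1, hb1, hb1'⟩ := vlc_extend hC hj h1 (s := s1) fun w hw =>
        (hs1 w (hZ1 w hw)).mono fun w' hw' => hZ1 w' hw'
      obtain ⟨b2, hb2, hb2'⟩ := vlc_extend hC hj h2 (s := s2) fun w hw =>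
        (hs2 w (hZ2 hw)).mono hZ2
      refine vglue_aux hC hj h1 h2 (a1 - b1) (a2 + b2) ?_ ?_ ?_
      · intro w hw
        rw [map_sub]
        show (L.ddG p 0 a1).1 (j w) - (L.ddG p 0 b1).1 (j w) = _
        rw [hb1' w hw, sub_zero, e1 w hw]
      · intro w hw
        rw [map_add]
        show (L.ddG p 0 a2).1 (j w) + (L.ddG p 0 b2).1 (j w) = _
        rw [hb2' w hw, add_zero, e2 w hw]
      · intro w hw
        have hwe : w = e := he hw
        subst hwe
        show a1.1 (j w) - b1.1 (j w) = a2.1 (j w) + b2.1 (j w)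
        rw [hb1 w hee.1, hb2 w hee.2, sub_eq_iff_eq_add, add_assoc, add_comm (s2 w) (s1 w), hs3,
          add_sub_cancel]
    | succ q' =>
      obtain ⟨g, hg⟩ := L.poincare hs _ hl
      obtain ⟨θ, hθ, rfl⟩ := L.exists_germ g
      obtain ⟨b, hb⟩ := L.extend_germ hC hθ
      obtain ⟨hθ', hb⟩ := hb.self_of_nhds
      refine vglue_aux hC hj h1 h2 a1 (a2 + L.ddG p q' b) e1 ?_ ?_
      · intro w hw
        rw [map_add, L.ddG_ddG, add_zero, e2 w hw]
      · intro w hw
        have hwe : w = e := he hw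
        subst hwe
        show a1.1 (j w) = a2.1 (j w) + L.ddS p q' (j w) (b.1 (j w))
        rw [hb, hg, add_sub_cancel]

end

end Pool.Agent.TD


end

section

/-!
# Block V: vanishing near a piece of the tree
-/

open scoped ContDiff Topology

namespace Pool.Agent.TD

section
variable {X Φ T : Type} [TopologicalSpace X] [TopologicalSpace T] [PartialOrder T]
  [LocallyCompactSpace X] [T2Space X] {L : LogSpace X Φ} {j : T → X} {p q : ℕ}

omit [TopologicalSpace T] [PartialOrder T] [LocallyCompactSpace X] [T2Space X] in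
theorem vzorn_mono {c : L.G p (q + 1)} {Z Z' : Set T} (h : ExactOn L j c Z') (hZ : Z ⊆ Z') :
    ExactOn L j c Z := by
  obtain ⟨e, he⟩ := h
  exact ⟨e, fun w hw => he w (hZ hw)⟩

/-- One step: exactness near the discs below `e` gives exactness near the piece of the disc of
`e`. -/
theorem exactOn_step (hC : L.CutOff) (hj : Topology.IsEmbedding j) {C : Set T}
    (hT : TreePart C) (hst : ∀ w ∈ C, L.StarAt (j w)) (hS : ∀ w ∈ C, Split L j p w)
    {c : L.G p (q + 1)} {e : T} (he : e ∈ C) (hc : (L.ddG p (q + 1) c).1 (j e) = 0)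
    (h : ∀ w ∈ C, w < e → ExactOn L j c (Set.Iic w ∩ C)) :
    ExactOn L j c (Set.Iic e ∩ C) := by
  obtain ⟨U, hU, heU, hEU⟩ := exactOn_point hC hj.continuous (hst e he) hc
  obtain ⟨S, hS1, hSd, hSU⟩ := hT.star e he U (hU.mem_nhds heU)
  set V0 : Set T := (Set.Iic e ∩ C) \ (⋃ s ∈ S, Set.Iio s) with hV0
  have hV0c : IsCompact V0 := by
    refine IsCompact.diff ((hT.compact_Iic e).inter_right hT.closed) ?_
    exact isOpen_biUnion fun s _ => hT.isOpen_Iio s
  have hV0E : ExactOn L j c V0 := vzorn_mono hEU hSU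
  have key : ∀ R : Finset T, R ⊆ S → ExactOn L j c (V0 ∪ ⋃ s ∈ R, Set.Iic s) := by
    classical
    intro R
    induction R using Finset.induction_on with
    | empty =>
      intro _
      simpa using hV0E
    | insert a R ha ih =>
      intro hR
      have haS : a ∈ S := hR (Finset.mem_insert_self a R)
      have hRS : R ⊆ S := fun x hx => hR (Finset.mem_insert_of_mem hx)
      obtain ⟨hae, haC⟩ := hS1 a haS
      have hZ1 : ∀ w ∈ V0 ∪ ⋃ s ∈ R, Set.Iic s, ¬ w < a := by
        rintro w (hw | hw) hwa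
        · exact hw.2 (Set.mem_biUnion haS hwa)
        · obtain ⟨t, ht, hwt⟩ := Set.mem_iUnion₂.1 hw
          have hne : t ≠ a := by
            rintro rfl
            exact ha ht
          exact Set.disjoint_left.1 (hSd t (hRS ht) a haS hne) hwt hwa.le
      have hsub : Set.Iic a ⊆ C := hT.down e he a haC hae
      have e2 : ExactOn L j c (Set.Iic a) :=
        vzorn_mono (h a haC hae) fun w hw => ⟨hw, hsub hw⟩
      have hu := exactOn_union hC hj (hst a haC) (hS a haC)
        (hV0c.union (R.isCompact_biUnion fun s _ => hT.compact_Iic s)) (hT.compact_Iic a) hZ1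
        (Set.Subset.refl _) (fun w hw => by
          by_contra hne
          exact hZ1 w hw.1 (lt_of_le_of_ne hw.2 hne)) (ih hRS) e2
      refine vzorn_mono hu ?_
      rintro w (hw | hw)
      · exact Or.inl (Or.inl hw)
      · obtain ⟨t, ht, hwt⟩ := Set.mem_iUnion₂.1 hw
        rcases Finset.mem_insert.1 ht with rfl | ht
        · exact Or.inr hwt
        · exact Or.inl (Or.inr (Set.mem_biUnion ht hwt))
  refine vzorn_mono (key S (Finset.Subset.refl S)) ?_
  intro w hw
  by_cases hw' : w ∈ ⋃ s ∈ S, Set.Iio s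
  · obtain ⟨t, ht, hwt⟩ := Set.mem_iUnion₂.1 hw'
    exact Or.inr (Set.mem_biUnion ht (le_of_lt hwt))
  · exact Or.inl ⟨hw, hw'⟩

omit [TopologicalSpace T] in
theorem vzorn_exists_minimal (B : Set T) (hB : B.Nonempty)
    (h : ∀ S ⊆ B, IsChain (· ≤ ·) S → S.Nonempty → ∃ m ∈ B, ∀ z ∈ S, m ≤ z) :
    ∃ m ∈ B, ∀ z ∈ B, z ≤ m → z = m := by
  obtain ⟨x, hx⟩ := hB
  have hz := zorn_le_nonempty₀ (α := Tᵒᵈ) (OrderDual.ofDual ⁻¹' B) (by
    intro c hc hch y hy
    obtain ⟨m, hm, hmz⟩ := h (OrderDual.toDual ⁻¹' c) (fun z hz => hc hz) (by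
      intro a ha b hb hab
      have := hch ha hb (fun e => hab (OrderDual.toDual.injective e))
      exact this.symm) ⟨OrderDual.ofDual y, hy⟩
    exact ⟨OrderDual.toDual m, hm, fun z hz => hmz _ hz⟩) (OrderDual.toDual x) hx
  obtain ⟨m, -, hm⟩ := hz
  refine ⟨OrderDual.ofDual m, hm.prop, fun z hz hzm => ?_⟩
  have h1 : m ≤ OrderDual.toDual z := hzm
  have h2 : OrderDual.toDual z ≤ m := hm.le_of_ge hz h1
  exact le_antisymm hzm h2

/-- (V) abstract form. -/
theorem exactOn_tree (hC : L.CutOff) (hj : Topology.IsEmbedding j) {C : Set T}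
    (hT : TreePart C) (hst : ∀ w ∈ C, L.StarAt (j w)) (hS : ∀ w ∈ C, Split L j p w)
    (c : L.G p (q + 1)) (hc : ∀ w ∈ C, (L.ddG p (q + 1) c).1 (j w) = 0) :
    ExactOn L j c C := by
  have : T2Space T := hj.t2Space
  obtain ⟨η, hη, hCη⟩ := hT.top
  suffices hall : ∀ e ∈ C, ExactOn L j c (Set.Iic e ∩ C) from
    vzorn_mono (hall η hη) fun w hw => ⟨hCη hw, hw⟩
  by_contra hcon
  push Not at hcon
  obtain ⟨b, hbC, hb⟩ := hcon
  obtain ⟨m, ⟨hmC, hm⟩, hmin⟩ := vzorn_exists_minimal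
    {e | e ∈ C ∧ ¬ ExactOn L j c (Set.Iic e ∩ C)} ⟨b, hbC, hb⟩ (by
      intro S hSB hch hne
      obtain ⟨m, hmC, hglb⟩ := hT.chain S (fun x hx => (hSB hx).1) hch hne
      refine ⟨m, ⟨hmC, fun hE => ?_⟩, fun z hz => hglb.1 hz⟩
      obtain ⟨U, hU, hsub, hEU⟩ := hE.nhds hj.continuous
      have : Nonempty S := hne.to_subtype
      obtain ⟨i, hi⟩ := exists_subset_nhds_of_isCompact' (V := fun i : S => Set.Iic i.1 ∩ C)
        (U := U) (by
          intro a b
          rcases hch.total a.2 b.2 with h1 | h1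
          · exact ⟨a, Set.Subset.refl _, fun w hw => ⟨le_trans hw.1 h1, hw.2⟩⟩
          · exact ⟨b, fun w hw => ⟨le_trans hw.1 h1, hw.2⟩, Set.Subset.refl _⟩)
        (fun i => (hT.compact_Iic i.1).inter_right hT.closed)
        (fun i => (hT.compact_Iic i.1).isClosed.inter hT.closed)
        (fun w hw => hU.mem_nhds (hsub ⟨hglb.2 fun z hz =>
          (Set.mem_iInter.1 hw ⟨z, hz⟩).1, by
            obtain ⟨z, hz⟩ := hne
            exact (Set.mem_iInter.1 hw ⟨z, hz⟩).2⟩))
      exact (hSB i.2).2 (vzorn_mono hEU hi))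
  refine hm (exactOn_step hC hj hT hst hS hmC (hc m hmC) fun w hw hwm => ?_)
  by_contra hE
  exact hwm.ne (hmin w ⟨hw, hE⟩ hwm.le)

end

end Pool.Agent.TD


end

section

/-!
# Block V: vanishing near circles and discs of the fibre of `M(A[X]) → M(A)`
-/

open scoped ContDiff Topology
open Polynomial

namespace Pool.Agent.TD

section
variable {H : Type} [NormedField H] [IsUltrametricDist H] [CompleteSpace H]

/-- A disc. -/
theorem treePart_disc (e : Ber H H[X]) : TreePart (Set.Iic e) where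
  closed := Ber.isClosed_Iic e
  compact_Iic := Ber.isCompact_Iic
  isOpen_Iio := stmtTree.isOpen H
  chain := by
    intro S hS hc hne
    obtain ⟨m, hm, -⟩ := Ber.exists_isGLB hc hne
    obtain ⟨w, hw⟩ := hne
    exact ⟨m, (hm.1 hw).trans (hS hw), hm⟩
  down := by
    intro e' he' z _ hz w hw
    exact (le_trans hw hz.le).trans he'
  star := by
    intro e' he' W hW
    obtain ⟨S, h1, h2, h3⟩ := stmtTree.star H e' (Set.Iic e') (Ber.isClosed_Iic e')
      (le_refl _) (le_refl e') (fun z hz _ w hw => (show w ≤ z from hw).trans hz)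
      (fun z _ w _ hwe => hwe) W hW
    refine ⟨S, fun s hs => ⟨(h1 s hs).1, (h1 s hs).1.le.trans he'⟩, h2, ?_⟩
    refine Set.Subset.trans ?_ h3
    rintro w ⟨⟨hw, -⟩, hw'⟩
    exact ⟨hw, hw'⟩
  top := ⟨e, le_refl e, le_refl _⟩

/-- A circle. -/
theorem treePart_circle {r : ℝ} (hne : ∃ w : Ber H H[X], w.v X = r) :
    TreePart {w : Ber H H[X] | w.v X = r} := by
  obtain ⟨w0, hw0⟩ := hne
  obtain ⟨η, hη, -⟩ := stmtTree.inf H w0 r hw0.le
  have hcl : IsClosed {w : Ber H H[X] | w.v X = r} :=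
    isClosed_eq (Ber.continuous_v X) continuous_const
  -- points of the circle below a point of the circle different from the top
  have hdown : ∀ z : Ber H H[X], z.v X = r → z ≠ η → ∀ w, w ≤ z → w.v X = r := by
    intro z hz hzη w hw
    exact stmtTree.circle H r η z w hη hz hzη hw
  have hlt : ∀ z e : Ber H H[X], e.v X = r → z < e → z ≠ η := by
    rintro z e he hze rfl
    exact absurd (hη.le e he.le) (not_le_of_gt hze)
  refine ⟨hcl, Ber.isCompact_Iic, stmtTree.isOpen H, ?_, ?_, ?_, ?_⟩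
  · intro S hS hc hne
    obtain ⟨m, hm, hmv⟩ := Ber.exists_isGLB hc hne
    refine ⟨m, ?_, hm⟩
    have h1 := hmv (X : H[X])
    have h2 : (fun z : Ber H H[X] => z.v X) '' S = {r} := by
      ext t
      constructor
      · rintro ⟨z, hz, rfl⟩
        exact hS hz
      · rintro rfl
        obtain ⟨z, hz⟩ := hne
        exact ⟨z, hz, hS hz⟩
    rw [h2] at h1
    exact h1.unique isGLB_singleton
  · intro e he z hz hze w hw
    exact hdown z hz (hlt z e he hze) w hw
  · intro e he W hW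
    obtain ⟨S, h1, h2, h3⟩ := stmtTree.star H e (Set.Iic e ∩ {w : Ber H H[X] | w.v X = r})
      ((Ber.isClosed_Iic e).inter hcl) Set.inter_subset_left ⟨le_refl e, he⟩
      (by
        intro z hz hze w hw
        have hz' : z < e := lt_of_le_of_ne hz.1 hze
        exact ⟨(show w ≤ z from hw).trans hz.1, hdown z hz.2 (hlt z e he hz') w hw⟩)
      (by
        intro z hz w hzw hwe
        refine ⟨hwe, le_antisymm ?_ ?_⟩
        · exact (hwe X).trans (le_of_eq he)
        · exact (le_of_eq (show z.v X = r from hz.2).symm).trans (hzw X)) W hW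
    exact ⟨S, fun s hs => ⟨(h1 s hs).1, (h1 s hs).2.2⟩, h2, h3⟩
  · exact ⟨η, hη.val, fun z hz => hη.le z (le_of_eq hz)⟩

end

section
variable {K A H : Type} [NormedField K] [CommRing A] [Algebra K A] [NormedField H]
  [IsUltrametricDist H] [CompleteSpace H] {y : Ber K A} {ι : A →+* H}

omit [IsUltrametricDist H] [CompleteSpace H] in
theorem vinst_lc (hι : IsRes y ι) {p : ℕ} {s : SecT hι p} {w : Ber H H[X]} (h : LC hι s w)
    (D : Set (Ber H H[X])) : VLC (berLS K A[X]) (jj hι) s D w := by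
  obtain ⟨θ, hθ, -, h⟩ := h
  exact ⟨θ, hθ, h.mono fun w' hw' _ => hw' (Set.mem_univ w')⟩

theorem split_jj (hι : IsRes y ι) (p : ℕ) (e : Ber H H[X]) :
    Split (berLS K A[X]) (jj hι) p e := by
  intro l hl
  obtain ⟨s1, s2, h1, h2, h3⟩ := exists_split stmtClp hι e hl
  exact ⟨s1, s2, fun w hw => vinst_lc hι (h1 w hw) _, fun w hw => vinst_lc hι (h2 w hw) _, h3⟩

/-- (V) vanishing near a piece of the fibre over `y`. -/
theorem vanish_fib [LocallyCompactSpace (Ber K A[X])] (hC : (berLS K A[X]).CutOff)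
    (hst : ∀ z, (berLS K A[X]).StarAt z) (hι : IsRes y ι) {C : Set (Ber H H[X])}
    (hT : TreePart C) {p q : ℕ} (c : (berLS K A[X]).G p (q + 1))
    (hc : ∀ w ∈ C, (berLS K A[X]).ddS p (q + 1) (jj hι w) (c.1 (jj hι w)) = 0) :
    ∃ e : (berLS K A[X]).G p q, ∀ w ∈ C,
      c.1 (jj hι w) = (berLS K A[X]).ddS p q (jj hι w) (e.1 (jj hι w)) := by
  obtain ⟨e, he⟩ := exactOn_tree hC (isClosedEmbedding_jj stmtRes hι).isEmbedding hT
    (fun w _ => hst _) (fun w _ => split_jj hι p w) c hc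
  exact ⟨e, fun w hw => (he w hw).symm⟩

end

section
variable {K A : Type} [NormedField K] [CommRing A] [Algebra K A]

/-- (V) vanishing near the fibre of the circle bundle over `y`. -/
theorem vanish_circle [LocallyCompactSpace (Ber K A[X])] (hC : (berLS K A[X]).CutOff)
    (hst : ∀ z, (berLS K A[X]).StarAt z) (y : Ber K A) (r : ℝ) {p q : ℕ}
    (c : (berLS K A[X]).G p (q + 1))
    (hc : ∀ z : Ber K A[X], (∀ a, z.v (C a) = y.v a) → z.v X = r →
      (berLS K A[X]).ddS p (q + 1) z (c.1 z) = 0) :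
    ∃ e : (berLS K A[X]).G p q, ∀ z : Ber K A[X], (∀ a, z.v (C a) = y.v a) → z.v X = r →
      c.1 z = (berLS K A[X]).ddS p q z (e.1 z) := by
  obtain ⟨H, _, _, _, ι, hι⟩ := stmtRes K A y
  have hX : ∀ w : Ber H H[X], (jj hι w).v X = w.v X := fun w => by
    rw [jj_v, Polynomial.map_X]
  by_cases hne : ∃ w : Ber H H[X], w.v X = r
  · obtain ⟨e, he⟩ := vanish_fib hC hst hι (treePart_circle hne) c (by
      intro w hw
      exact hc _ (jj_C hι w) ((hX w).trans hw))
    refine ⟨e, fun z hz hzr => ?_⟩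
    have h1 : z ∈ Set.range (jj hι) := by
      rw [range_jj stmtRes hι]
      exact hz
    obtain ⟨w, rfl⟩ := h1
    exact he w ((hX w).symm.trans hzr)
  · refine ⟨0, fun z hz hzr => ?_⟩
    exfalso
    have h1 : z ∈ Set.range (jj hι) := by
      rw [range_jj stmtRes hι]
      exact hz
    obtain ⟨w, rfl⟩ := h1
    exact hne ⟨w, (hX w).symm.trans hzr⟩

end

end Pool.Agent.TD


end

section

/-!
# Block F: `phi0`, `phi1` are quasi-isomorphisms at the points of `M(A)`
-/

open scoped ContDiff Topology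
open Polynomial

namespace Pool.Agent.TD

section
variable {B : Type} [TopologicalSpace B] (C D : SCx B)

theorem qi_prod_Cl (Z : Set B) (q : ℕ) (c : C.G q × D.G q) :
    (C.prod D).Cl Z q c ↔ C.Cl Z q c.1 ∧ D.Cl Z q c.2 :=
  Set.disjoint_union_left

theorem qi_prod_Bd (Z : Set B) (q : ℕ) (c : C.G q × D.G q) :
    (C.prod D).Bd Z q c ↔ C.Bd Z q c.1 ∧ D.Bd Z q c.2 := by
  cases q with
  | zero => exact Set.disjoint_union_left
  | succ q =>
    constructor
    · rintro ⟨e, he⟩
      have he' : Disjoint (C.supp (c.1 - C.d q e.1) ∪ D.supp (c.2 - D.d q e.2)) Z := he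
      rw [Set.disjoint_union_left] at he'
      exact ⟨⟨e.1, he'.1⟩, ⟨e.2, he'.2⟩⟩
    · rintro ⟨⟨e1, h1⟩, ⟨e2, h2⟩⟩
      exact ⟨(e1, e2), Set.disjoint_union_left.2 ⟨h1, h2⟩⟩

end

section
variable {K A : Type} [NormedField K] [CommRing A] [Algebra K A]
  [LocallyCompactSpace (Ber K A)] [LocallyCompactSpace (Ber K A[X])]
  (hA : (berLS K A).CutOff) (hX : (berLS K A[X]).CutOff) {r : ℝ}

/-- Closed classes near the fibre over `y`. -/
theorem qi_Cl (p : ℕ) (y : Ber K A) (q : ℕ) (c : (berLS K A[X]).G p q) :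
    (circD hX r p).Cl {y} q (((berLS K A[X]).cx hX p).cls (circB K A r) q c) ↔
      ∀ z ∈ circB K A r, (prM K A).toFun z = y → (berLS K A[X]).ddS p q z (c.1 z) = 0 := by
  have h1 := ((berLS K A[X]).cx hX p).push_Cl (properOn_circ (K := K) (A := A) r) {y} c
  have h2 := (berLS K A[X]).cx_Cl_iff hX p (circB K A r ∩ (prM K A).toFun ⁻¹' {y}) q c
  refine (h1.trans h2).trans ⟨fun h z hz hy => h z ⟨hz, hy⟩, fun h z hz => h z hz.1 hz.2⟩

/-- Exact classes near the fibre over `y`, degree zero. -/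
theorem qi_Bd_zero (p : ℕ) (y : Ber K A) (c : (berLS K A[X]).G p 0) :
    (circD hX r p).Bd {y} 0 (((berLS K A[X]).cx hX p).cls (circB K A r) 0 c) ↔
      ∀ z ∈ circB K A r, (prM K A).toFun z = y → c.1 z = 0 := by
  have h1 := ((berLS K A[X]).cx hX p).push_Bd (properOn_circ (K := K) (A := A) r) {y} (q := 0) c
  have h2 := (berLS K A[X]).cx_Bd_zero_iff hX p (circB K A r ∩ (prM K A).toFun ⁻¹' {y}) c
  refine (h1.trans h2).trans ⟨fun h z hz hy => h z ⟨hz, hy⟩, fun h z hz => h z hz.1 hz.2⟩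

/-- Exact classes near the fibre over `y`, positive degree. -/
theorem qi_Bd_succ (p : ℕ) (y : Ber K A) (q : ℕ) (c : (berLS K A[X]).G p (q + 1)) :
    (circD hX r p).Bd {y} (q + 1) (((berLS K A[X]).cx hX p).cls (circB K A r) (q + 1) c) ↔
      ∃ e : (berLS K A[X]).G p q, ∀ z ∈ circB K A r, (prM K A).toFun z = y →
        c.1 z = (berLS K A[X]).ddS p q z (e.1 z) := by
  have h1 := ((berLS K A[X]).cx hX p).push_Bd (properOn_circ (K := K) (A := A) r) {y}
    (q := q + 1) c
  have h2 := (berLS K A[X]).cx_Bd_succ_iff hX p (circB K A r ∩ (prM K A).toFun ⁻¹' {y}) q c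
  refine (h1.trans h2).trans ⟨fun h => ?_, fun h => ?_⟩
  · obtain ⟨e, he⟩ := h
    exact ⟨e, fun z hz hy => he z ⟨hz, hy⟩⟩
  · obtain ⟨e, he⟩ := h
    exact ⟨e, fun z hz => he z hz.1 hz.2⟩

/-- Closed classes of type `(p,q+1)` are exact near the fibre over `y`. -/
theorem qi_van (hsX : ∀ z, (berLS K A[X]).StarAt z) (p : ℕ) (y : Ber K A) (q : ℕ)
    (c : (berLS K A[X]).G p (q + 1))
    (hc : ∀ z ∈ circB K A r, (prM K A).toFun z = y →
      (berLS K A[X]).ddS p (q + 1) z (c.1 z) = 0) :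
    (circD hX r p).Bd {y} (q + 1) (((berLS K A[X]).cx hX p).cls (circB K A r) (q + 1) c) := by
  rw [qi_Bd_succ]
  obtain ⟨e, he⟩ := vanish_circle hX hsX y r c (fun z hz hzr => by
    refine hc z hzr ?_
    apply Ber.ext_v
    intro a
    rw [prM_v]
    exact hz a)
  refine ⟨e, fun z hz hy => he z (fun a => ?_) hz⟩
  rw [← prM_v, hy]

theorem phi0_qiso (hsA : ∀ z, (berLS K A).StarAt z) (hsX : ∀ z, (berLS K A[X]).StarAt z)
    (hU : CircU K A r) (y : Ber K A) : (phi0 hA hX r).QIso {y} := by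
  constructor
  · intro q c hc hb
    cases q with
    | zero =>
      have h1 := ((berLS K A).cx_Cl_iff hA 0 {y} 0 c).1 hc y (Set.mem_singleton y)
      have h2 := (qi_Bd_zero hX 0 y ((prM K A).pullG 0 0 c)).1 hb
      have h3 := hU.inj0 y c h1 h2
      refine ((berLS K A).cx_Bd_zero_iff hA 0 {y} c).2 fun z hz => ?_
      rw [Set.mem_singleton_iff] at hz
      subst hz
      exact h3
    | succ q => exact (berLS K A).cx_Bd_of_star hA 0 (hsA y) q c hc
  · intro q e he
    obtain ⟨e, rfl⟩ := ((berLS K A[X]).cx hX 0).cls_surjective (S := circB K A r) q e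
    change (berLS K A[X]).G 0 q at e
    rw [qi_Cl] at he
    cases q with
    | zero =>
      obtain ⟨a, ha, hz⟩ := hU.ex0 y e he
      refine ⟨a, ((berLS K A).cx_Cl_iff hA 0 {y} 0 a).2 fun z hz => ?_, ?_⟩
      · rw [Set.mem_singleton_iff] at hz
        subst hz
        exact ha
      · have h1 : (circD hX r 0).Bd {y} 0 (((berLS K A[X]).cx hX 0).cls (circB K A r) 0
            (e - (prM K A).pullG 0 0 a)) := by
          rw [qi_Bd_zero]
          intro z hzc hzy
          show e.1 z - ((prM K A).pullG 0 0 a).1 z = 0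
          rw [hz z hzc hzy, sub_self]
        exact h1
    | succ q =>
      refine ⟨0, ((berLS K A).cx_Cl_iff hA 0 {y} (q + 1) 0).2 fun z _ => ?_, ?_⟩
      · exact map_zero _
      · rw [map_zero, sub_zero]
        exact qi_van hX hsX 0 y q e he

theorem phi1_qiso (hsA : ∀ z, (berLS K A).StarAt z) (hsX : ∀ z, (berLS K A[X]).StarAt z)
    (hU : CircU K A r) (hr : 0 < r) (ξ : (berLS K A[X]).G 1 0)
    (hξ : ∀ z ∈ circB K A r, (berLS K A[X]).ddS 1 0 z (ξ.1 z) = 0 ∧ ξ.1 z ∈ (berLS K A[X]).L1 z)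
    (hξ' : ∀ z ∈ circB K A r, ∀ h, ξ.1 z = (berLS K A[X]).dlS (X : A[X]) h) (p : ℕ)
    (y : Ber K A) : (phi1 hA hX r ξ hξ p).QIso {y} := by
  constructor
  · rintro q ⟨a, b⟩ hc hb
    rw [qi_prod_Cl] at hc
    rw [qi_prod_Bd]
    cases q with
    | zero =>
      have h1 := ((berLS K A).cx_Cl_iff hA (p + 1) {y} 0 a).1 hc.1 y (Set.mem_singleton y)
      have h1' := ((berLS K A).cx_Cl_iff hA p {y} 0 b).1 hc.2 y (Set.mem_singleton y)
      have h2 := (qi_Bd_zero hX (p + 1) y ((prM K A).pullG (p + 1) 0 a +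
        (berLS K A[X]).wdG p 0 ξ ((prM K A).pullG p 0 b))).1 hb
      have h3 := hU.inj1 p y a b h1 h1' (fun z hz h hy => by
        rw [← hξ' z hz h]
        exact h2 z hz hy)
      refine ⟨((berLS K A).cx_Bd_zero_iff hA (p + 1) {y} a).2 fun z hz => ?_,
        ((berLS K A).cx_Bd_zero_iff hA p {y} b).2 fun z hz => ?_⟩
      · rw [Set.mem_singleton_iff] at hz
        subst hz
        exact h3.1
      · rw [Set.mem_singleton_iff] at hz
        subst hz
        exact h3.2
    | succ q =>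
      exact ⟨(berLS K A).cx_Bd_of_star hA (p + 1) (hsA y) q a hc.1,
        (berLS K A).cx_Bd_of_star hA p (hsA y) q b hc.2⟩
  · intro q e he
    obtain ⟨e, rfl⟩ := ((berLS K A[X]).cx hX (p + 1)).cls_surjective (S := circB K A r) q e
    change (berLS K A[X]).G (p + 1) q at e
    rw [qi_Cl] at he
    cases q with
    | zero =>
      obtain ⟨a, b, ha, hb, hz⟩ := hU.ex1 p y e he
      refine ⟨(a, b), (qi_prod_Cl _ _ _ _ _).2
        ⟨((berLS K A).cx_Cl_iff hA (p + 1) {y} 0 a).2 fun z hz => ?_,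
          ((berLS K A).cx_Cl_iff hA p {y} 0 b).2 fun z hz => ?_⟩, ?_⟩
      · rw [Set.mem_singleton_iff] at hz
        subst hz
        exact ha
      · rw [Set.mem_singleton_iff] at hz
        subst hz
        exact hb
      · have h1 : (circD hX r (p + 1)).Bd {y} 0
            (((berLS K A[X]).cx hX (p + 1)).cls (circB K A r) 0
            (e - ((prM K A).pullG (p + 1) 0 a +
              (berLS K A[X]).wdG p 0 ξ ((prM K A).pullG p 0 b)))) := by
          rw [qi_Bd_zero]
          intro z hzc hzy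
          have hd := dom_of_circ hr hzc
          show e.1 z - (((prM K A).pullG (p + 1) 0 a).1 z +
            (berLS K A[X]).wdS p 0 z (ξ.1 z) (((prM K A).pullG p 0 b).1 z)) = 0
          rw [hz z hzc hd hzy, hξ' z hzc hd, sub_self]
        exact h1
    | succ q =>
      refine ⟨0, (qi_prod_Cl _ _ _ _ _).2
        ⟨((berLS K A).cx_Cl_iff hA (p + 1) {y} (q + 1) 0).2 fun z _ => ?_,
          ((berLS K A).cx_Cl_iff hA p {y} (q + 1) 0).2 fun z _ => ?_⟩, ?_⟩
      · exact map_zero _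
      · exact map_zero _
      · rw [map_zero, sub_zero]
        exact qi_van hX hsX (p + 1) y q e he

end

end Pool.Agent.TD


end

section

/-!
# Block F, (F1): forms near the circle bundle over a compact subset of `M(A)`
-/

open scoped ContDiff Topology
open Polynomial

namespace Pool.Agent.TD

section
variable {K A : Type} [NormedField K] [CommRing A] [Algebra K A] {r : ℝ}

/-- The circle bundle over `Z`. -/
def circZ (r : ℝ) (Z : Set (Ber K A)) : Set (Ber K A[X]) := circB K A r ∩ (prM K A).toFun ⁻¹' Z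

/-- The section `ξ` is closed and in `L1` near the circle bundle. -/
theorem circ_xi_ok (hr : 0 < r) {ξ : (berLS K A[X]).G 1 0}
    (hξ : ∀ z ∈ circB K A r, ∀ h, ξ.1 z = (berLS K A[X]).dlS (X : A[X]) h) :
    ∀ z ∈ circB K A r, (berLS K A[X]).ddS 1 0 z (ξ.1 z) = 0 ∧ ξ.1 z ∈ (berLS K A[X]).L1 z := by
  intro z hz
  have hd : z ∈ (berLS K A[X]).dom (X : A[X]) := dom_of_circ hr hz
  have h1 : (berLS K A[X]).dlS (X : A[X]) hd ∈ (berLS K A[X]).L1 z :=
    Submodule.subset_span ⟨X, hd, rfl⟩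
  rw [hξ z hz hd]
  exact ⟨(berLS K A[X]).Lp_closed (((berLS K A[X]).L1_eq _).1 h1), h1⟩

/-- Unpacking of the surjectivity part of `QIso` for `phi0`. -/
theorem circ_un0 (gA : Good K A) (gX : Good K A[X]) (hU : CircU K A r) {Z : Set (Ber K A)}
    (hZ : IsCompact Z) {q : ℕ} (c : (berLS K A[X]).G 0 q)
    (hc : ∀ z ∈ circZ r Z, (berLS K A[X]).ddS 0 q z (c.1 z) = 0) :
    ∃ a : (berLS K A).G 0 q, (∀ y ∈ Z, (berLS K A).ddS 0 q y (a.1 y) = 0) ∧
      haveI := gX.lc
      ((berLS K A[X]).cx gX.cut 0).Bd (circZ r Z) q (c - (prM K A).pullG 0 q a) := by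
  have := gA.lc
  have := gX.lc
  have hQ : (phi0 gA.cut gX.cut r).QIso Z :=
    (phi0 gA.cut gX.cut r).qiso_near hZ fun y _ => phi0_qiso gA.cut gX.cut gA.star gX.star hU y
  obtain ⟨a, ha1, ha2⟩ := hQ.2 q (((berLS K A[X]).cx gX.cut 0).cls (circB K A r) q c)
    ((SCx.push_Cl ((berLS K A[X]).cx gX.cut 0) (properOn_circ (K := K) (A := A) r) Z c).2
      (((berLS K A[X]).cx_Cl_iff gX.cut 0 (circZ r Z) q c).2 hc))
  refine ⟨a, ((berLS K A).cx_Cl_iff gA.cut 0 Z q a).1 ha1, ?_⟩
  exact (SCx.push_Bd ((berLS K A[X]).cx gX.cut 0) (properOn_circ (K := K) (A := A) r) Z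
    (c - (prM K A).pullG 0 q a)).1 ha2

/-- Unpacking of the surjectivity part of `QIso` for `phi1`. -/
theorem circ_un1 (gA : Good K A) (gX : Good K A[X]) (hU : CircU K A r) (hr : 0 < r)
    {ξ : (berLS K A[X]).G 1 0}
    (hξ : ∀ z ∈ circB K A r, ∀ h, ξ.1 z = (berLS K A[X]).dlS (X : A[X]) h)
    {Z : Set (Ber K A)} (hZ : IsCompact Z) {p q : ℕ} (c : (berLS K A[X]).G (p + 1) q)
    (hc : ∀ z ∈ circZ r Z, (berLS K A[X]).ddS (p + 1) q z (c.1 z) = 0) :
    ∃ (a : (berLS K A).G (p + 1) q) (b : (berLS K A).G p q),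
      (∀ y ∈ Z, (berLS K A).ddS (p + 1) q y (a.1 y) = 0) ∧
      (∀ y ∈ Z, (berLS K A).ddS p q y (b.1 y) = 0) ∧
      haveI := gX.lc
      ((berLS K A[X]).cx gX.cut (p + 1)).Bd (circZ r Z) q
        (c - ((prM K A).pullG (p + 1) q a + (berLS K A[X]).wdG p q ξ ((prM K A).pullG p q b))) := by
  have := gA.lc
  have := gX.lc
  have hQ : (phi1 gA.cut gX.cut r ξ (circ_xi_ok hr hξ) p).QIso Z :=
    (phi1 gA.cut gX.cut r ξ (circ_xi_ok hr hξ) p).qiso_near hZ fun y _ =>
      phi1_qiso gA.cut gX.cut gA.star gX.star hU hr ξ (circ_xi_ok hr hξ) hξ p y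
  obtain ⟨ab, ha1, ha2⟩ := hQ.2 q (((berLS K A[X]).cx gX.cut (p + 1)).cls (circB K A r) q c)
    ((SCx.push_Cl ((berLS K A[X]).cx gX.cut (p + 1)) (properOn_circ (K := K) (A := A) r) Z c).2
      (((berLS K A[X]).cx_Cl_iff gX.cut (p + 1) (circZ r Z) q c).2 hc))
  have ha3 : Disjoint ((berLS K A).supp ((berLS K A).ddG (p + 1) q ab.1) ∪
    (berLS K A).supp ((berLS K A).ddG p q ab.2)) Z := ha1
  rw [Set.disjoint_union_left] at ha3
  refine ⟨ab.1, ab.2, ((berLS K A).disj_supp _ Z).1 ha3.1, ((berLS K A).disj_supp _ Z).1 ha3.2, ?_⟩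
  exact (SCx.push_Bd ((berLS K A[X]).cx gX.cut (p + 1)) (properOn_circ (K := K) (A := A) r) Z
    (c - ((prM K A).pullG (p + 1) q ab.1 +
      (berLS K A[X]).wdG p q ξ ((prM K A).pullG p q ab.2)))).1 ha2

/-- (F1) existence, type `(0,q+1)`. -/
theorem circ_ex0 (gA : Good K A) (gX : Good K A[X]) (hU : CircU K A r) {Z : Set (Ber K A)}
    (hZ : IsCompact Z) {q : ℕ} (c : (berLS K A[X]).G 0 (q + 1))
    (hc : ∀ z ∈ circZ r Z, (berLS K A[X]).ddS 0 (q + 1) z (c.1 z) = 0) :
    ∃ (a : (berLS K A).G 0 (q + 1)) (e : (berLS K A[X]).G 0 q),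
      (∀ y ∈ Z, (berLS K A).ddS 0 (q + 1) y (a.1 y) = 0) ∧
      ∀ z ∈ circZ r Z, c.1 z = ((prM K A).pullG 0 (q + 1) a).1 z +
        (berLS K A[X]).ddS 0 q z (e.1 z) := by
  have := gX.lc
  obtain ⟨a, ha, hb⟩ := circ_un0 gA gX hU hZ c hc
  obtain ⟨e, he⟩ := ((berLS K A[X]).cx_Bd_succ_iff gX.cut 0 (circZ r Z) q _).1 hb
  refine ⟨a, e, ha, fun z hz => ?_⟩
  have h1 : c.1 z - ((prM K A).pullG 0 (q + 1) a).1 z = (berLS K A[X]).ddS 0 q z (e.1 z) :=
    he z hz
  rw [← h1]
  abel

/-- (F1) existence, type `(p+1,q+1)`. -/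
theorem circ_ex1 (gA : Good K A) (gX : Good K A[X]) (hU : CircU K A r) (hr : 0 < r)
    {Z : Set (Ber K A)} (hZ : IsCompact Z) {p q : ℕ} (c : (berLS K A[X]).G (p + 1) (q + 1))
    (hc : ∀ z ∈ circZ r Z, (berLS K A[X]).ddS (p + 1) (q + 1) z (c.1 z) = 0) :
    ∃ (a : (berLS K A).G (p + 1) (q + 1)) (b : (berLS K A).G p (q + 1))
      (e : (berLS K A[X]).G (p + 1) q),
      (∀ y ∈ Z, (berLS K A).ddS (p + 1) (q + 1) y (a.1 y) = 0) ∧
      (∀ y ∈ Z, (berLS K A).ddS p (q + 1) y (b.1 y) = 0) ∧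
      ∀ z ∈ circZ r Z, ∀ h, c.1 z = ((prM K A).pullG (p + 1) (q + 1) a).1 z +
        (berLS K A[X]).wdS p (q + 1) z ((berLS K A[X]).dlS X h)
          (((prM K A).pullG p (q + 1) b).1 z) +
        (berLS K A[X]).ddS (p + 1) q z (e.1 z) := by
  have := gX.lc
  obtain ⟨ξ, hξ⟩ := exists_xi K A hr
  obtain ⟨a, b, ha, hb, hbd⟩ := circ_un1 gA gX hU hr hξ hZ c hc
  obtain ⟨e, he⟩ := ((berLS K A[X]).cx_Bd_succ_iff gX.cut (p + 1) (circZ r Z) q _).1 hbd
  refine ⟨a, b, e, ha, hb, fun z hz h => ?_⟩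
  have h1 : c.1 z - (((prM K A).pullG (p + 1) (q + 1) a).1 z +
      (berLS K A[X]).wdS p (q + 1) z (ξ.1 z) (((prM K A).pullG p (q + 1) b).1 z)) =
      (berLS K A[X]).ddS (p + 1) q z (e.1 z) := he z hz
  rw [hξ z hz.1 h] at h1
  rw [← h1]
  abel

/-- (F1) existence, type `(0,0)`. -/
theorem circ_cst0 (gA : Good K A) (gX : Good K A[X]) (hU : CircU K A r) {Z : Set (Ber K A)}
    (hZ : IsCompact Z) (c : (berLS K A[X]).G 0 0)
    (hc : ∀ z ∈ circZ r Z, (berLS K A[X]).ddS 0 0 z (c.1 z) = 0) :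
    ∃ a : (berLS K A).G 0 0, (∀ y ∈ Z, (berLS K A).ddS 0 0 y (a.1 y) = 0) ∧
      ∀ z ∈ circZ r Z, c.1 z = ((prM K A).pullG 0 0 a).1 z := by
  have := gX.lc
  obtain ⟨a, ha, hb⟩ := circ_un0 gA gX hU hZ c hc
  refine ⟨a, ha, fun z hz => ?_⟩
  have h1 : c.1 z - ((prM K A).pullG 0 0 a).1 z = 0 :=
    ((berLS K A[X]).cx_Bd_zero_iff gX.cut 0 (circZ r Z) _).1 hb z hz
  exact sub_eq_zero.1 h1

/-- (F1) existence, type `(p+1,0)`. -/
theorem circ_cst1 (gA : Good K A) (gX : Good K A[X]) (hU : CircU K A r) (hr : 0 < r)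
    {Z : Set (Ber K A)} (hZ : IsCompact Z) {p : ℕ} (c : (berLS K A[X]).G (p + 1) 0)
    (hc : ∀ z ∈ circZ r Z, (berLS K A[X]).ddS (p + 1) 0 z (c.1 z) = 0) :
    ∃ (a : (berLS K A).G (p + 1) 0) (b : (berLS K A).G p 0),
      (∀ y ∈ Z, (berLS K A).ddS (p + 1) 0 y (a.1 y) = 0) ∧
      (∀ y ∈ Z, (berLS K A).ddS p 0 y (b.1 y) = 0) ∧
      ∀ z ∈ circZ r Z, ∀ h, c.1 z = ((prM K A).pullG (p + 1) 0 a).1 z +
        (berLS K A[X]).wdS p 0 z ((berLS K A[X]).dlS X h) (((prM K A).pullG p 0 b).1 z) := by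
  have := gX.lc
  obtain ⟨ξ, hξ⟩ := exists_xi K A hr
  obtain ⟨a, b, ha, hb, hbd⟩ := circ_un1 gA gX hU hr hξ hZ c hc
  refine ⟨a, b, ha, hb, fun z hz h => ?_⟩
  have h1 : c.1 z - (((prM K A).pullG (p + 1) 0 a).1 z +
      (berLS K A[X]).wdS p 0 z (ξ.1 z) (((prM K A).pullG p 0 b).1 z)) = 0 :=
    ((berLS K A[X]).cx_Bd_zero_iff gX.cut (p + 1) (circZ r Z) _).1 hbd z hz
  rw [hξ z hz.1 h] at h1
  exact sub_eq_zero.1 h1

end

end Pool.Agent.TD


end

section

/-!
# Block F, (F2): the induction step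
-/

open scoped ContDiff Topology
open Polynomial

namespace Pool.Agent.TD

section
variable {K A : Type} [NormedField K] [CommRing A] [Algebra K A] {n : ℕ}

/-- The coordinates `X, g_0, ..., g_(n-1)` of `A[X]`. -/
noncomputable def coX (g : Fin n → A) : Fin (n + 1) → A[X] := Fin.cons X fun i => C (g i)

theorem torS_coX (g : Fin n → A) (b : Fin (n + 1) → ℝ) :
    torS K (coX g) b = circZ (Real.exp (b 0)) (torS K g fun i => b i.succ) := by
  ext z
  constructor
  · intro hz
    exact ⟨hz 0, fun i => hz i.succ⟩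
  · rintro ⟨h1, h2⟩ i
    refine Fin.cases ?_ (fun j => ?_) i
    · exact h1
    · exact h2 j

theorem step_compact {g : Fin n → A} (h : TorP K g) (b : Fin (n + 1) → ℝ) :
    IsCompact (torS K (coX g) b) := by
  rw [torS_coX]
  exact isCompact_circ_pre _ (h.compact _)

/-- Pull back of an exact section. -/
theorem step_pull {p q : ℕ} {a : (berLS K A).G p (q + 1)} {a' : (berLS K A).G p q}
    {Z : Set (Ber K A)} (ha : ∀ y ∈ Z, a.1 y = (berLS K A).ddS p q y (a'.1 y)) {z : Ber K A[X]}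
    (hz : (prM K A).toFun z ∈ Z) : ((prM K A).pullG p (q + 1) a).1 z =
      (berLS K A[X]).ddS p q z (((prM K A).pullG p q a').1 z) := by
  rw [Mor.pullG_val, Mor.pullG_val, ha _ hz, Mor.pullS_ddS]

theorem step_ex (gA : Good K A) (gX : Good K A[X]) (hU : ∀ r, 0 < r → CircU K A r)
    {g : Fin n → A} (h : TorP K g) (b : Fin (n + 1) → ℝ) (p q : ℕ)
    (c : (berLS K A[X]).G p (q + 1))
    (hc : ∀ z ∈ torS K (coX g) b, (berLS K A[X]).ddS p (q + 1) z (c.1 z) = 0) :
    ∃ e : (berLS K A[X]).G p q, ∀ z ∈ torS K (coX g) b,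
      c.1 z = (berLS K A[X]).ddS p q z (e.1 z) := by
  have hr : 0 < Real.exp (b 0) := Real.exp_pos _
  rw [torS_coX] at hc ⊢
  have hZ := h.compact fun i => b i.succ
  cases p with
  | zero =>
    obtain ⟨a, e, ha, he⟩ := circ_ex0 gA gX (hU _ hr) hZ c hc
    obtain ⟨a', ha'⟩ := h.ex _ 0 q a ha
    refine ⟨(prM K A).pullG 0 q a' + e, fun z hz => ?_⟩
    rw [he z hz, step_pull ha' hz.2, ← map_add]
    rfl
  | succ p =>
    obtain ⟨a, b', e, ha, hb, he⟩ := circ_ex1 gA gX (hU _ hr) hr hZ c hc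
    obtain ⟨a', ha'⟩ := h.ex _ (p + 1) q a ha
    obtain ⟨b'', hb''⟩ := h.ex _ p q b' hb
    obtain ⟨ξ, hξ⟩ := exists_xi K A hr
    refine ⟨(prM K A).pullG (p + 1) q a' +
      (berLS K A[X]).wdG p q ξ ((prM K A).pullG p q b'') + e, fun z hz => ?_⟩
    have hX : z ∈ (berLS K A[X]).dom (X : A[X]) := dom_of_circ hr hz.1
    rw [he z hz hX, step_pull ha' hz.2, step_pull hb'' hz.2, ← ddS_wdS_dlS, ← hξ z hz.1 hX,
      ← map_add, ← map_add]
    rfl

/-- The image of `C o g` is contained in the image of `coX g`. -/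
theorem step_image [DecidableEq A[X]] (g : Fin n → A) :
    (Finset.univ.image fun i => (C (g i) : A[X])) ⊆ Finset.univ.image (coX g) := by
  intro f hf
  obtain ⟨i, -, rfl⟩ := Finset.mem_image.1 hf
  exact Finset.mem_image.2 ⟨i.succ, Finset.mem_univ _, rfl⟩

/-- Pull back of a constant germ. -/
theorem step_pullg {p : ℕ} {g : Fin n → A} {α : (Fin n → ℝ) [⋀^Fin p]→L[ℝ] ℝ}
    {a : (berLS K A).G p 0} {z : Ber K A[X]}
    (ha : ∃ h : (berLS K A).SFat ((prM K A).toFun z) (cstR g α),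
      a.1 ((prM K A).toFun z) = (berLS K A).germ (cstR g α) h) :
    ∃ h : (berLS K A[X]).SFat z (cstR (fun i => (C (g i) : A[X])) α),
      ((prM K A).pullG p 0 a).1 z =
        (berLS K A[X]).germ (cstR (fun i => (C (g i) : A[X])) α) h := by
  obtain ⟨k, hk⟩ := ha
  refine ⟨(prM K A).sfat k, ?_⟩
  rw [Mor.pullG_val, hk, Mor.pullS_germ]
  rfl

theorem step_cst (gA : Good K A) (gX : Good K A[X]) (hU : ∀ r, 0 < r → CircU K A r)
    {g : Fin n → A} (h : TorP K g) (b : Fin (n + 1) → ℝ) (p : ℕ) (c : (berLS K A[X]).G p 0)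
    (hc : ∀ z ∈ torS K (coX g) b, (berLS K A[X]).ddS p 0 z (c.1 z) = 0) :
    ∃ α : (Fin (n + 1) → ℝ) [⋀^Fin p]→L[ℝ] ℝ, ∀ z ∈ torS K (coX g) b,
      ∃ h : (berLS K A[X]).SFat z (cstR (coX g) α),
        c.1 z = (berLS K A[X]).germ (cstR (coX g) α) h := by
  classical
  have hr : 0 < Real.exp (b 0) := Real.exp_pos _
  rw [torS_coX] at hc ⊢
  have hZ := h.compact fun i => b i.succ
  have hX0 : (X : A[X]) ∈ Finset.univ.image (coX g) :=
    Finset.mem_image.2 ⟨0, Finset.mem_univ _, rfl⟩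
  cases p with
  | zero =>
    obtain ⟨a, ha, he⟩ := circ_cst0 gA gX (hU _ hr) hZ c hc
    obtain ⟨α, hα⟩ := h.cst _ 0 a ha
    obtain ⟨γ, hγ⟩ := exists_cstR (g := coX g)
      (isCst_cstR (fun i => (C (g i) : A[X])) α)
      ((isSF_cstR (fun i => (C (g i) : A[X])) α).mono (step_image g))
    refine ⟨γ, fun z hz => ?_⟩
    obtain ⟨k, hk⟩ := step_pullg (hα _ hz.2)
    refine ⟨hγ ▸ k, ?_⟩
    rw [he z hz, hk]
    exact (berLS K A[X]).germ_congr hγ _ _
  | succ p =>
    obtain ⟨a, b', ha, hb, he⟩ := circ_cst1 gA gX (hU _ hr) hr hZ c hc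
    obtain ⟨α, hα⟩ := h.cst _ (p + 1) a ha
    obtain ⟨β, hβ⟩ := h.cst _ p b' hb
    obtain ⟨γ, hγ⟩ := exists_cstR (g := coX g)
      ((isCst_cstR (fun i => (C (g i) : A[X])) α).add ((isCst_dlg (X : A[X])).wdg1
        (isCst_cstR (fun i => (C (g i) : A[X])) β)))
      (((isSF_cstR (fun i => (C (g i) : A[X])) α).mono (step_image g)).add
        ((isSF_dlg hX0).wdg1 ((isSF_cstR (fun i => (C (g i) : A[X])) β).mono (step_image g))))
    refine ⟨γ, fun z hz => ?_⟩
    have hX : z ∈ (berLS K A[X]).dom (X : A[X]) := dom_of_circ hr hz.1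
    obtain ⟨k, hk⟩ := step_pullg (hα _ hz.2)
    obtain ⟨l, hl⟩ := step_pullg (hβ _ hz.2)
    have k3 : (berLS K A[X]).SFat z (dlg (X : A[X])) :=
      ⟨{X}, isSF_dlg (Finset.mem_singleton_self _), fun f hf => by
        rw [Finset.mem_singleton.1 hf]
        exact hX⟩
    have k4 := k.add (LogSpace.SFat.wdg1 _ k3 l)
    refine ⟨hγ ▸ k4, ?_⟩
    have e1 : (berLS K A[X]).dlS (X : A[X]) hX = (berLS K A[X]).germ (dlg (X : A[X])) k3 := rfl
    rw [he z hz hX, hk, hl, e1, LogSpace.wdS_germ, ← LogSpace.germ_add]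
    exact (berLS K A[X]).germ_congr hγ _ _

/-- A global section with a given constant germ at `y`. -/
theorem step_sec (gA : Good K A) {p : ℕ} {g : Fin n → A} {y : Ber K A}
    (hy : ∀ i, y ∈ (berLS K A).dom (g i)) (α : (Fin n → ℝ) [⋀^Fin p]→L[ℝ] ℝ) :
    ∃ a : (berLS K A).G p 0, (berLS K A).ddS p 0 y (a.1 y) = 0 ∧
      (a.1 y = 0 → (berLS K A).Van y (cstR g α)) ∧
      ∀ z : Ber K A[X], (prM K A).toFun z = y →
        ∃ h : (berLS K A[X]).SFat z (cstR (fun i => (C (g i) : A[X])) α),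
          ((prM K A).pullG p 0 a).1 z =
            (berLS K A[X]).germ (cstR (fun i => (C (g i) : A[X])) α) h := by
  have := gA.lc
  obtain ⟨a, ha⟩ := (berLS K A).extend_germ gA.cut ((berLS K A).sfat_cstR hy α)
  obtain ⟨k, hk⟩ := ha.self_of_nhds
  refine ⟨a, ?_, ?_, ?_⟩
  · rw [hk, LogSpace.ddS_germ]
    exact (berLS K A).germ_of_eq_zero (dd_cst (isCst_cstR g α)) _
  · intro h0
    rw [hk, LogSpace.germ_eq_zero] at h0
    exact h0
  · rintro z rfl
    exact step_pullg ⟨k, hk⟩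

theorem step_pre {y : Ber K A} {z : Ber K A[X]} {Z : Set (Ber K A)}
    (hz : (prM K A).toFun z = y) (hy : y ∈ Z) : z ∈ (prM K A).toFun ⁻¹' Z := by
  subst hz
  exact hy

theorem step_uniq (gA : Good K A) (hU : ∀ r, 0 < r → CircU K A r)
    {g : Fin n → A} (h : TorP K g) (b : Fin (n + 1) → ℝ) (p : ℕ)
    (γ : (Fin (n + 1) → ℝ) [⋀^Fin p]→L[ℝ] ℝ)
    (hv : ∀ z ∈ torS K (coX g) b, (berLS K A[X]).Van z (cstR (coX g) γ)) : γ = 0 := by
  have hr : 0 < Real.exp (b 0) := Real.exp_pos _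
  rw [torS_coX] at hv
  cases p with
  | zero =>
    obtain ⟨α, h1, h2⟩ := cstR_zero (Φ := A[X]) γ
    refine h2 (h.uniq (fun i => b i.succ) 0 α fun y hy => ?_)
    obtain ⟨a, a1, a2, a3⟩ := step_sec gA (torS_dom hy) α
    refine a2 ((hU _ hr).inj0 y a a1 fun z hz hzy => ?_)
    obtain ⟨k, hk⟩ := a3 z hzy
    rw [hk, LogSpace.germ_eq_zero]
    have h3 := hv z ⟨hz, step_pre hzy hy⟩
    rw [h1] at h3
    exact h3
  | succ p =>
    obtain ⟨α, β, h1, h2⟩ := cstR_succ (Φ := A[X]) γ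
    have key : ∀ y ∈ torS K g (fun i => b i.succ),
        (berLS K A).Van y (cstR g α) ∧ (berLS K A).Van y (cstR g β) := by
      intro y hy
      obtain ⟨a, a1, a2, a3⟩ := step_sec gA (torS_dom hy) α
      obtain ⟨b', b1, b2, b3⟩ := step_sec gA (torS_dom hy) β
      have h4 := (hU _ hr).inj1 p y a b' a1 b1 (fun z hz hX hzy => by
        obtain ⟨k, hk⟩ := a3 z hzy
        obtain ⟨l, hl⟩ := b3 z hzy
        have k3 : (berLS K A[X]).SFat z (dlg (X : A[X])) :=
          ⟨{X}, isSF_dlg (Finset.mem_singleton_self _), fun f hf => by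
            rw [Finset.mem_singleton.1 hf]
            exact hX⟩
        have e1 : (berLS K A[X]).dlS (X : A[X]) hX =
            (berLS K A[X]).germ (dlg (X : A[X])) k3 := rfl
        rw [hk, hl, e1, LogSpace.wdS_germ, ← LogSpace.germ_add, LogSpace.germ_eq_zero]
        have h3 := hv z ⟨hz, step_pre hzy hy⟩
        rw [h1] at h3
        exact h3)
      exact ⟨a2 h4.1, b2 h4.2⟩
    exact h2 (h.uniq _ _ α fun y hy => (key y hy).1) (h.uniq _ _ β fun y hy => (key y hy).2)

/-- (F2), induction step. -/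
theorem TorP.step (gA : Good K A) (gX : Good K A[X]) (hU : ∀ r, 0 < r → CircU K A r)
    {g : Fin n → A} (h : TorP K g) : TorP K (coX g) where
  compact b := step_compact h b
  ex b p q c hc := step_ex gA gX hU h b p q c hc
  cst b p c hc := step_cst gA gX hU h b p c hc
  uniq b p α hα := step_uniq gA hU h b p α hα

end

end Pool.Agent.TD


end

section

/-!
# Block F, (F2): the case of a point
-/

open scoped ContDiff Topology
open Polynomial

namespace Pool.Agent.TD

/-- The spectrum `M(K)` is a point. -/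
theorem ber_self_eq (K : Type) [NormedField K] (z w : Ber K K) : z = w :=
  Ber.ext_v fun a => (z.ext a).trans (w.ext a).symm

/-- The point of `M(K)`. -/
noncomputable def fzPt (K : Type) [NormedField K] [IsUltrametricDist K] : Ber K K where
  v a := ‖a‖
  nonneg a := norm_nonneg a
  one := norm_one
  mul a b := norm_mul a b
  add a b := IsUltrametricDist.norm_add_le_max a b
  ext _ := rfl

theorem fz_dlS (K : Type) [NormedField K] (z : Ber K K) (f : K) (h : z ∈ (berLS K K).dom f) :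
    (berLS K K).dlS f h = 0 := by
  have h1 := (berLS K K).dlS_eq_sum (n := 0) (g := Fin.elim0) h (fun i => i.elim0)
    (fun i => i.elim0) ((berLS K K).lf f z) (Filter.Eventually.of_forall fun z' => by
      rw [ber_self_eq K z' z, Finset.univ_eq_empty, Finset.sum_empty, add_zero])
  rw [h1, Finset.univ_eq_empty, Finset.sum_empty]

/-- (F2) for `n = 0`. -/
theorem torP_self (K : Type) [NormedField K] [IsUltrametricDist K] (hG : Good K K) :
    TorP K (Fin.elim0 : Fin 0 → K) := by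
  have hlc := hG.lc
  refine ⟨?_, ?_, ?_, ?_⟩
  · intro b
    refine Set.Subsingleton.isCompact fun z _ w _ => ber_self_eq K z w
  · intro b p q c hc
    by_cases hne : Nonempty (Ber K K)
    · obtain ⟨z⟩ := hne
      obtain ⟨e, he⟩ := (berLS K K).poincare (hG.star z) (c.1 z) (hc z fun i => i.elim0)
      obtain ⟨θ, h, rfl⟩ := (berLS K K).exists_germ e
      obtain ⟨c0, hc0⟩ := (berLS K K).extend_germ hG.cut h
      obtain ⟨h', e'⟩ := hc0.self_of_nhds
      refine ⟨c0, fun z' _ => ?_⟩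
      obtain rfl := ber_self_eq K z' z
      rw [e']
      exact he.symm
    · exact ⟨0, fun z _ => absurd ⟨z⟩ hne⟩
  · intro b p c hc
    by_cases hne : Nonempty (Ber K K)
    · obtain ⟨z⟩ := hne
      have h1 := (berLS K K).poincare0 (hG.star z) (c.1 z) (hc z fun i => i.elim0)
      cases p with
      | zero =>
        rw [(berLS K K).Lp_zero] at h1
        obtain ⟨a, ha⟩ := Submodule.mem_span_singleton.1 h1
        refine ⟨ContinuousAlternatingMap.constOfIsEmpty ℝ (Fin 0 → ℝ) (Fin 0) a, fun z' _ => ?_⟩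
        obtain rfl := ber_self_eq K z' z
        refine ⟨(berLS K K).sfat_cstR (fun i => i.elim0) _, ?_⟩
        rw [← ha]
        have h2 : a • (berLS K K).oneS z' = (berLS K K).germ (a • one0)
            (LogSpace.SFat.smul a ⟨∅, isSF_one0 ∅, by simp⟩) :=
          ((berLS K K).germ_smul a _).symm
        rw [h2]
        refine (berLS K K).germ_congr ?_ _ _
        funext x w v
        change a * 1 = a
        rw [mul_one]
      | succ p =>
        have h2 : c.1 z = 0 := by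
          rw [(berLS K K).Lp_succ] at h1
          have h3 : Submodule.span ℝ {x | ∃ f, ∃ h : z ∈ (berLS K K).dom f,
              ∃ c ∈ (berLS K K).Lp p z, x = (berLS K K).wdS p 0 z ((berLS K K).dlS f h) c} ≤ ⊥ := by
            rw [Submodule.span_le]
            rintro x ⟨f, h, c, -, rfl⟩
            rw [fz_dlS, map_zero, LinearMap.zero_apply]
            exact Submodule.zero_mem _
          exact (Submodule.mem_bot ℝ).1 (h3 h1)
        refine ⟨0, fun z' _ => ?_⟩
        obtain rfl := ber_self_eq K z' z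
        refine ⟨(berLS K K).sfat_cstR (fun i => i.elim0) _, ?_⟩
        rw [h2, ← (berLS K K).germ_zero]
        refine (berLS K K).germ_congr ?_ _ _
        funext x w v
        rfl
    · exact ⟨0, fun z _ => absurd ⟨z⟩ hne⟩
  · intro b p α hα
    cases p with
    | zero =>
      obtain ⟨u, -, V, hV, hVd, hv⟩ := hα (fzPt K) fun i => i.elim0
      obtain ⟨x, hx⟩ := rs_surjective u ((berLS K K).trop u (fzPt K))
      have h1 := hv {(berLS K K).trop u (fzPt K)} (convex_singleton _)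
        (Set.singleton_subset_iff.2 ⟨fzPt K, mem_of_mem_nhds hV, rfl⟩) x
        (fun i => i.elim0) (fun i => i.elim0) hx (fun i => i.elim0) (fun i => i.elim0)
      ext u'
      refine Eq.trans ?_ h1
      exact congrArg α (Subsingleton.elim _ _)
    | succ p =>
      ext v
      exact α.map_coord_zero 0 (Subsingleton.elim _ _)

end Pool.Agent.TD


end

section

/-!
# PLB: elementary properties of polyhedra
-/

namespace Pool.Agent.TD.BG

namespace PLB

variable {ι : Type} [Fintype ι]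

/-- finitely many inequalities indexed by any finite type -/
lemma of_fintype {κ : Type} [Fintype κ] (l : κ → ι → ℝ) (c : κ → ℝ) :
    IsPolyh {x : ι → ℝ | ∀ j, ∑ i, l j i * x i ≤ c j} := by
  refine ⟨Fintype.card κ, fun j => l ((Fintype.equivFin κ).symm j),
    fun j => c ((Fintype.equivFin κ).symm j), ?_⟩
  ext x
  simp only [Set.mem_ofPred_eq]
  constructor
  · intro h j
    exact h _
  · intro h j
    have := h (Fintype.equivFin κ j)
    simpa using this

lemma inter {S S' : Set (ι → ℝ)} (h : IsPolyh S) (h' : IsPolyh S') : IsPolyh (S ∩ S') := by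
  obtain ⟨n, l, c, rfl⟩ := h
  obtain ⟨m, l', c', rfl⟩ := h'
  have e := of_fintype (Sum.elim l l') (Sum.elim c c')
  convert e using 1
  ext x
  simp [Sum.forall]

lemma half (l : ι → ℝ) (c : ℝ) : IsPolyh {x : ι → ℝ | ∑ i, l i * x i ≤ c} := by
  have e := of_fintype (fun _ : Unit => l) (fun _ => c)
  convert e using 1
  ext x
  simp

lemma half' (l : ι → ℝ) (c : ℝ) : IsPolyh {x : ι → ℝ | c ≤ ∑ i, l i * x i} := by
  have e := half (fun i => - l i) (-c)
  convert e using 1
  ext x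
  simp [Finset.sum_neg_distrib]

lemma hyper (l : ι → ℝ) (c : ℝ) : IsPolyh {x : ι → ℝ | ∑ i, l i * x i = c} := by
  have e := inter (half l c) (half' l c)
  convert e using 1
  ext x
  simp only [Set.mem_ofPred_eq, Set.mem_inter_iff]
  exact le_antisymm_iff

lemma convex_closed {S : Set (ι → ℝ)} (h : IsPolyh S) : Convex ℝ S ∧ IsClosed S := by
  obtain ⟨n, l, c, rfl⟩ := h
  constructor
  · intro x hx y hy a b ha hb hab j
    have e : ∑ i, l j i * (a • x + b • y) i = a * ∑ i, l j i * x i + b * ∑ i, l j i * y i := by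
      rw [Finset.mul_sum, Finset.mul_sum, ← Finset.sum_add_distrib]
      refine Finset.sum_congr rfl fun i _ => ?_
      simp only [Pi.add_apply, Pi.smul_apply, smul_eq_mul]
      ring
    rw [e]
    have h1 := mul_le_mul_of_nonneg_left (hx j) ha
    have h2 := mul_le_mul_of_nonneg_left (hy j) hb
    have h3 : a * c j + b * c j = c j := by rw [← add_mul, hab, one_mul]
    linarith
  · have e : {x : ι → ℝ | ∀ j, ∑ i, l j i * x i ≤ c j}
        = ⋂ j, {x : ι → ℝ | ∑ i, l j i * x i ≤ c j} := by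
      ext x
      simp
    rw [e]
    refine isClosed_iInter fun j => isClosed_le ?_ continuous_const
    fun_prop

/-- finitely many polyhedra indexed by any finite type -/
lemma union_fintype {κ : Type} [Fintype κ] (σ : κ → Set (ι → ℝ)) (h : ∀ j, IsPolyh (σ j)) :
    IsPolyU (⋃ j, σ j) := by
  refine ⟨Fintype.card κ, fun j => σ ((Fintype.equivFin κ).symm j), fun _ => h _, ?_⟩
  exact ((Fintype.equivFin κ).symm.surjective.iUnion_comp σ).symm

end PLB

open PLB in
/-- PLB -/
theorem PLB_thm : PLB_Stmt := by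
  intro ι _
  refine ⟨fun S S' h h' => inter h h', fun S h => convex_closed h, ?_, half, half', hyper, ?_, ?_⟩
  · intro S S' h h'
    obtain ⟨n, σ, hσ, rfl⟩ := h
    obtain ⟨m, σ', hσ', rfl⟩ := h'
    constructor
    · have e := union_fintype (fun p : Fin n × Fin m => σ p.1 ∩ σ' p.2)
        (fun p => inter (hσ p.1) (hσ' p.2))
      convert e using 1
      ext x
      simp only [Set.mem_inter_iff, Set.mem_iUnion, Prod.exists]
      constructor
      · rintro ⟨⟨i, hi⟩, j, hj⟩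
        exact ⟨i, j, hi, hj⟩
      · rintro ⟨i, j, hi, hj⟩
        exact ⟨⟨i, hi⟩, j, hj⟩
    · have e := union_fintype (Sum.elim σ σ') (by rintro (i | i); exacts [hσ i, hσ' i])
      convert e using 1
      ext x
      simp
  · have e := of_fintype (fun j : Empty => (j.elim : ι → ℝ)) (fun j => j.elim)
    convert e using 1
    ext x
    simp
  · exact ⟨0, fun j => j.elim0, fun j => j.elim0, by ext x; simp⟩

end Pool.Agent.TD.BG


end
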