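import Mathlib
import Pool.Agent.DolbM.C02
import Pool.Agent.TD.Y.Defs
import Pool.Agent.TD.Y.Map

/-! Parts: TD.Y.Cone, TD.Y.Cone2, TD.Y.Cone4, TD.Y.Open, TD.Y.Cone3, TD.Y.TropBox, TD.Y.TropTop, TD.Y.Ring, TD.Y.Loc0, TD.BG.FTB, TD.BG.STR -/

section

/-! Block Y: rational cones: Farkas lemma (module TD_Y_Cone). -/

namespace Pool.Agent.TD

variable {n : ℕ}

/-- An integral vector as a real vector. -/
def rv (v : Fin n → ℤ) : Fin n → ℝ := fun i => (v i : ℝ)

theorem pair_add_left (m m' : Fin n → ℤ) (x : Fin n → ℝ) :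
    pair (m + m') x = pair m x + pair m' x := by
  simp only [pair, Pi.add_apply, Int.cast_add, add_mul, Finset.sum_add_distrib]

theorem pair_neg_left (m : Fin n → ℤ) (x : Fin n → ℝ) : pair (-m) x = -pair m x := by
  simp [pair]

theorem pair_add_right (m : Fin n → ℤ) (x y : Fin n → ℝ) :
    pair m (x + y) = pair m x + pair m y := by
  simp only [pair, Pi.add_apply, mul_add, Finset.sum_add_distrib]

theorem pair_smul_right (m : Fin n → ℤ) (a : ℝ) (x : Fin n → ℝ) :
    pair m (a • x) = a * pair m x := by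
  simp only [pair, Pi.smul_apply, smul_eq_mul, Finset.mul_sum]
  exact Finset.sum_congr rfl fun i _ => by ring

/-- Farkas lemma over an ordered field (Bartl's proof). -/
theorem farkas_field {k W ι : Type} [Field k] [LinearOrder k] [IsStrictOrderedRing k]
    [AddCommGroup W] [Module k W] (s : Finset ι) : ∀ (a : ι → W →ₗ[k] k) (c : W →ₗ[k] k),
      (∀ x, (∀ i ∈ s, a i x ≤ 0) → c x ≤ 0) →
      ∃ l : ι → k, (∀ i, 0 ≤ l i) ∧ c = ∑ i ∈ s, l i • a i := by
  classical
  induction s using Finset.induction_on with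
  | empty =>
    intro a c h
    refine ⟨fun _ => 0, fun _ => le_rfl, ?_⟩
    ext x
    have h1 := h x (by simp)
    have h2 := h (-x) (by simp)
    rw [map_neg] at h2
    simp only [Finset.sum_empty, LinearMap.zero_apply]
    linarith
  | insert j s hj ih =>
    intro a c h
    by_cases h0 : ∀ x, (∀ i ∈ s, a i x ≤ 0) → c x ≤ 0
    · obtain ⟨l, hl, hc⟩ := ih a c h0
      refine ⟨fun i => if i = j then 0 else l i, fun i => ?_, ?_⟩
      · dsimp only
        split_ifs
        · exact le_rfl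
        · exact hl i
      · dsimp only
        rw [Finset.sum_insert hj, if_pos rfl, zero_smul, zero_add, hc]
        refine Finset.sum_congr rfl fun i hi => ?_
        rw [if_neg (by rintro rfl; exact hj hi)]
    · push Not at h0
      obtain ⟨y, hy, hcy⟩ := h0
      have hb : 0 < a j y := by
        by_contra hb
        push Not at hb
        refine absurd (h y fun i hi => ?_) (not_le.mpr hcy)
        rcases Finset.mem_insert.mp hi with rfl | hi
        · exact hb
        · exact hy i hi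
      obtain ⟨l, hl, hc⟩ := ih (fun i => a i - (a i y / a j y) • a j) (c - (c y / a j y) • a j) (by
        intro x hx
        have h1 := h (x - (a j x / a j y) • y) (by
          intro i hi
          rcases Finset.mem_insert.mp hi with rfl | hi
          · rw [map_sub, map_smul, smul_eq_mul, div_mul_cancel₀ _ hb.ne', sub_self]
          · have h2 := hx i hi
            simp only [LinearMap.sub_apply, LinearMap.smul_apply, smul_eq_mul] at h2
            rw [map_sub, map_smul, smul_eq_mul]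
            calc a i x - a j x / a j y * a i y = a i x - a i y / a j y * a j x := by ring
              _ ≤ 0 := h2)
        rw [map_sub, map_smul, smul_eq_mul] at h1
        simp only [LinearMap.sub_apply, LinearMap.smul_apply, smul_eq_mul]
        calc c x - c y / a j y * a j x = c x - a j x / a j y * c y := by ring
          _ ≤ 0 := h1)
      refine ⟨fun i => if i = j then c y / a j y - ∑ i ∈ s, l i * (a i y / a j y) else l i,
        fun i => ?_, ?_⟩
      · dsimp only
        split_ifs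
        · have h1 : ∑ i ∈ s, l i * (a i y / a j y) ≤ 0 :=
            Finset.sum_nonpos fun i hi => mul_nonpos_of_nonneg_of_nonpos (hl i)
              (div_nonpos_of_nonpos_of_nonneg (hy i hi) hb.le)
          have h2 : 0 < c y / a j y := div_pos hcy hb
          linarith
        · exact hl i
      · dsimp only
        rw [Finset.sum_insert hj, if_pos rfl]
        have h1 : ∑ i ∈ s, (if i = j then c y / a j y - ∑ i ∈ s, l i * (a i y / a j y) else l i) • a i
            = ∑ i ∈ s, l i • a i := by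
          refine Finset.sum_congr rfl fun i hi => ?_
          rw [if_neg (by rintro rfl; exact hj hi)]
        rw [h1]
        have h2 : c = ∑ i ∈ s, l i • (a i - (a i y / a j y) • a j) + (c y / a j y) • a j := by
          rw [← hc]
          abel
        conv_lhs => rw [h2]
        have h3 : ∀ t : k, (c y / a j y - t) • a j = (c y / a j y) • a j - t • a j :=
          fun t => by
            ext w
            simp only [LinearMap.smul_apply, LinearMap.sub_apply, smul_eq_mul]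
            ring
        rw [h3]
        simp only [smul_sub, Finset.sum_sub_distrib, smul_smul, ← Finset.sum_smul]
        abel

/-- The rational linear form of an integral vector. -/
noncomputable def qf (v : Fin n → ℤ) : (Fin n → ℚ) →ₗ[ℚ] ℚ where
  toFun x := ∑ i, (v i : ℚ) * x i
  map_add' x y := by simp [mul_add, Finset.sum_add_distrib]
  map_smul' c x := by
    simp only [Pi.smul_apply, smul_eq_mul, RingHom.id_apply, Finset.mul_sum]
    exact Finset.sum_congr rfl fun i _ => by ring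

theorem qf_apply (v : Fin n → ℤ) (x : Fin n → ℚ) : qf v x = ∑ i, (v i : ℚ) * x i := rfl

/-- Clearing denominators. -/
theorem clear_den (x : Fin n → ℚ) : ∃ (N : ℕ) (m : Fin n → ℤ), 0 < N ∧
    ∀ i, (m i : ℚ) = N * x i := by
  refine ⟨∏ i, (x i).den, fun i => (x i).num * ∏ j ∈ Finset.univ.erase i, ((x j).den : ℤ),
    Finset.prod_pos fun i _ => (x i).pos, fun i => ?_⟩
  rw [← Finset.mul_prod_erase Finset.univ (fun i => (x i).den) (Finset.mem_univ i)]
  push_cast
  have h : (x i).den * x i = ((x i).num : ℚ) := by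
    rw [mul_comm]
    exact Rat.mul_den_eq_num _
  calc ((x i).num : ℚ) * ∏ j ∈ Finset.univ.erase i, ((x j).den : ℚ)
      = ((x i).den * x i) * ∏ j ∈ Finset.univ.erase i, ((x j).den : ℚ) := by rw [h]
    _ = _ := by ring

/-- Farkas lemma for rational cones: an integral vector outside the cone is separated from it by
an integral linear form.  (Prove it over `ℚ` by Fourier-Motzkin elimination / induction on the
number of generators, and clear denominators; an integral vector in the real cone generated by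
integral vectors is in the rational cone.) -/
theorem farkas {γ : Set (Fin n → ℝ)} (h : IsRatCone γ) (v : Fin n → ℤ) (hv : rv v ∉ γ) :
    ∃ m ∈ dualM γ, pair m (rv v) < 0 := by
  obtain ⟨V, rfl⟩ := h
  by_cases h0 : ∀ x : Fin n → ℚ, (∀ w ∈ V, -qf w x ≤ 0) → -qf v x ≤ 0
  · exfalso
    obtain ⟨l, hl, hc⟩ := farkas_field V (fun w => -qf w) (-qf v) h0
    apply hv
    refine ⟨fun w => (l w : ℝ), fun w => Rat.cast_nonneg.mpr (hl w), ?_⟩
    funext i
    have h1 := congrArg (fun f : (Fin n → ℚ) →ₗ[ℚ] ℚ => f (Pi.single i 1)) hc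
    simp only [LinearMap.neg_apply, LinearMap.sum_apply, LinearMap.smul_apply, qf_apply,
      smul_eq_mul, Pi.single_apply, mul_ite, mul_one, mul_zero, Finset.sum_ite_eq',
      Finset.mem_univ, if_true, mul_neg, Finset.sum_neg_distrib, neg_inj] at h1
    simp only [rv, Finset.sum_apply, Pi.smul_apply, smul_eq_mul]
    have h2 : ((v i : ℚ) : ℝ) = ((∑ w ∈ V, l w * (w i : ℚ) : ℚ) : ℝ) := by rw [h1]
    push_cast at h2
    exact h2
  · push Not at h0
    obtain ⟨x, hx, hvx⟩ := h0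
    obtain ⟨N, m, hN, hm⟩ := clear_den x
    have hp : ∀ w : Fin n → ℤ, pair m (rv w) = (N : ℝ) * ((qf w x : ℚ) : ℝ) := by
      intro w
      have h1 : ∀ i, (m i : ℝ) = (N : ℝ) * (x i : ℝ) := by
        intro i
        have h2 : ((m i : ℚ) : ℝ) = ((N * x i : ℚ) : ℝ) := by rw [hm i]
        push_cast at h2
        exact h2
      simp only [pair, rv, qf_apply]
      push_cast
      rw [Finset.mul_sum]
      refine Finset.sum_congr rfl fun i _ => ?_
      rw [h1]
      ring
    have hN' : (0 : ℝ) < N := by exact_mod_cast hN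
    refine ⟨m, ?_, ?_⟩
    · rintro _ ⟨a, ha, rfl⟩
      have h1 : pair m (∑ w ∈ V, a w • (fun i => (w i : ℝ))) = ∑ w ∈ V, a w * pair m (rv w) := by
        classical
        have h2 : ∀ s : Finset (Fin n → ℤ), pair m (∑ w ∈ s, a w • (fun i => (w i : ℝ))) =
            ∑ w ∈ s, a w * pair m (rv w) := by
          intro s
          induction s using Finset.induction_on with
          | empty => simp [pair]
          | insert w s hw ih =>
            rw [Finset.sum_insert hw, Finset.sum_insert hw, pair_add_right, ih, pair_smul_right]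
            rfl
        exact h2 V
      rw [h1]
      refine Finset.sum_nonneg fun w hw => mul_nonneg (ha w) ?_
      rw [hp]
      have h3 : 0 ≤ qf w x := by
        have := hx w hw
        linarith
      have h4 : (0 : ℝ) ≤ ((qf w x : ℚ) : ℝ) := by exact_mod_cast h3
      positivity
    · rw [hp]
      have h3 : qf v x < 0 := by linarith
      have h4 : ((qf v x : ℚ) : ℝ) < 0 := by exact_mod_cast h3
      exact mul_neg_of_pos_of_neg hN' h4

end Pool.Agent.TD


end

section

/-! Block Y: rational cones: relative interiors of dual cones, Gordan's lemma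
(module TD_Y_Cone2). -/

namespace Pool.Agent.TD

variable {n : ℕ}

theorem Cone2.rv_neg (v : Fin n → ℤ) : rv (-v) = -rv v := by
  funext i
  simp [rv]

/-- Non-negative combinations of elements of a set which is closed under them. -/
theorem Cone2.comb_mem {D : Set (Fin n → ℝ)} (h0 : (0 : Fin n → ℝ) ∈ D)
    (hadd : ∀ x ∈ D, ∀ y ∈ D, x + y ∈ D) (hsmul : ∀ (c : ℝ), 0 ≤ c → ∀ x ∈ D, c • x ∈ D)
    (V : Finset (Fin n → ℤ)) (a : (Fin n → ℤ) → ℝ) (ha : ∀ v, 0 ≤ a v)
    (hV : ∀ v ∈ V, a v = 0 ∨ rv v ∈ D) : ∑ v ∈ V, a v • rv v ∈ D := by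
  refine Finset.sum_induction (fun v => a v • rv v) (· ∈ D) (fun x y hx hy => hadd x hx y hy) h0 ?_
  intro v hv
  rcases hV v hv with h | h
  · rw [h, zero_smul]
    exact h0
  · exact hsmul _ (ha v) _ h

theorem IsRatCone.add_mem {γ : Set (Fin n → ℝ)} (h : IsRatCone γ) {x y : Fin n → ℝ} (hx : x ∈ γ)
    (hy : y ∈ γ) : x + y ∈ γ := by
  obtain ⟨V, rfl⟩ := h
  obtain ⟨a, ha, rfl⟩ := hx
  obtain ⟨b, hb, rfl⟩ := hy
  refine ⟨fun v => a v + b v, fun v => add_nonneg (ha v) (hb v), ?_⟩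
  rw [← Finset.sum_add_distrib]
  exact Finset.sum_congr rfl fun v _ => (add_smul _ _ _).symm

theorem IsRatCone.smul_mem {γ : Set (Fin n → ℝ)} (h : IsRatCone γ) {x : Fin n → ℝ} (hx : x ∈ γ)
    {a : ℝ} (ha : 0 ≤ a) : a • x ∈ γ := by
  obtain ⟨V, rfl⟩ := h
  obtain ⟨b, hb, rfl⟩ := hx
  refine ⟨fun v => a * b v, fun v => mul_nonneg ha (hb v), ?_⟩
  rw [Finset.smul_sum]
  exact Finset.sum_congr rfl fun v _ => smul_smul _ _ _

theorem IsRatCone.zero_mem {γ : Set (Fin n → ℝ)} (h : IsRatCone γ) : (0 : Fin n → ℝ) ∈ γ := by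
  obtain ⟨V, rfl⟩ := h
  exact ⟨fun _ => 0, fun _ => le_rfl, by simp⟩

/-- The generators of a cone belong to it. -/
theorem Cone2.gen_mem {V : Finset (Fin n → ℤ)} {v : Fin n → ℤ} (hv : v ∈ V) :
    rv v ∈ {x | ∃ a : (Fin n → ℤ) → ℝ, (∀ v, 0 ≤ a v) ∧
      x = ∑ v ∈ V, a v • (fun i => (v i : ℝ))} := by
  classical
  refine ⟨fun u => if u = v then 1 else 0, fun u => ?_, ?_⟩
  · show (0 : ℝ) ≤ if u = v then 1 else 0
    split_ifs <;> norm_num
  · simp only [ite_smul, one_smul, zero_smul]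
    rw [Finset.sum_ite_eq' V v, if_pos hv]
    rfl

/-- There is an integral linear form, non-negative on `γ`, whose zero set in `γ` is the lineality
space of `γ`.  (Sum of the forms of `farkas` for `-v`, `v` a generator with `-v ∉ γ`.) -/
theorem exists_relint {γ : Set (Fin n → ℝ)} (h : IsRatCone γ) :
    ∃ m ∈ dualM γ, ∀ x ∈ γ, pair m x = 0 → -x ∈ γ := by
  classical
  obtain ⟨V, hV⟩ := id h
  have hex : ∀ v : Fin n → ℤ, ∃ m ∈ dualM γ, rv (-v) ∉ γ → 0 < pair m (rv v) := by
    intro v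
    by_cases hv : rv (-v) ∈ γ
    · exact ⟨0, AddSubmonoid.zero_mem _, fun h' => absurd hv h'⟩
    · obtain ⟨m, hm, hm'⟩ := farkas h (-v) hv
      refine ⟨m, hm, fun _ => ?_⟩
      rw [Cone2.rv_neg, ← neg_one_smul ℝ (rv v), pair_smul_right] at hm'
      linarith
  choose m hm hm' using hex
  refine ⟨∑ v ∈ V, m v, AddSubmonoid.sum_mem _ fun v _ => hm v, ?_⟩
  intro x hx h0
  have hs : ∀ (s : Finset (Fin n → ℤ)), pair (∑ v ∈ s, m v) x = ∑ v ∈ s, pair (m v) x := by
    intro s
    induction s using Finset.induction_on with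
    | empty => simp [pair]
    | insert a s ha ih => rw [Finset.sum_insert ha, Finset.sum_insert ha, pair_add_left, ih]
  rw [hs, Finset.sum_eq_zero_iff_of_nonneg fun v _ => hm v x hx] at h0
  have hx' := hx
  rw [hV] at hx'
  obtain ⟨a, ha, hxa⟩ := hx'
  have hgen : ∀ v ∈ V, rv v ∈ γ := by
    intro v hv
    rw [hV]
    exact Cone2.gen_mem hv
  have hp : ∀ (m : Fin n → ℤ) (s : Finset (Fin n → ℤ)),
      pair m (∑ v ∈ s, a v • rv v) = ∑ v ∈ s, a v * pair m (rv v) := by
    intro m s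
    induction s using Finset.induction_on with
    | empty => simp [pair]
    | insert u s hu ih =>
      rw [Finset.sum_insert hu, Finset.sum_insert hu, pair_add_right, ih, pair_smul_right]
  have hxa' : x = ∑ v ∈ V, a v • rv v := hxa
  have hz : ∀ v ∈ V, a v * pair (m v) (rv v) = 0 := by
    intro v hv
    have h1 := h0 v hv
    rw [hxa', hp, Finset.sum_eq_zero_iff_of_nonneg
      fun u hu => mul_nonneg (ha u) (hm v _ (hgen u hu))] at h1
    exact h1 v hv
  have hneg : -x = ∑ v ∈ V.image (fun v => -v), a (-v) • rv v := by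
    rw [Finset.sum_image (fun u _ v _ huv => neg_injective huv), hxa', ← Finset.sum_neg_distrib]
    refine Finset.sum_congr rfl fun v _ => ?_
    rw [neg_neg, Cone2.rv_neg, smul_neg]
  rw [hneg]
  refine Cone2.comb_mem h.zero_mem (fun x hx y hy => h.add_mem hx hy)
    (fun c hc x hx => h.smul_mem hx hc) _ (fun v => a (-v)) (fun v => ha _) ?_
  intro u hu
  rw [Finset.mem_image] at hu
  obtain ⟨v, hv, rfl⟩ := hu
  rw [neg_neg]
  by_cases hc : rv (-v) ∈ γ
  · exact Or.inr hc
  · left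
    rcases mul_eq_zero.1 (hz v hv) with h1 | h1
    · exact h1
    · exact absurd h1 (ne_of_gt (hm' v hc))

/-- Sum of a rational cone and the negative of a rational cone. -/
theorem IsRatCone.sub {γ γ' : Set (Fin n → ℝ)} (h : IsRatCone γ) (h' : IsRatCone γ') :
    IsRatCone {z | ∃ x ∈ γ, ∃ y ∈ γ', z = x - y} := by
  classical
  obtain ⟨V, hV⟩ := id h
  obtain ⟨V', hV'⟩ := id h'
  have hW : IsRatCone {x : Fin n → ℝ | ∃ a : (Fin n → ℤ) → ℝ, (∀ v, 0 ≤ a v) ∧
      x = ∑ v ∈ V ∪ V'.image (fun v => -v), a v • (fun i => (v i : ℝ))} := ⟨_, rfl⟩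
  have h0D : (0 : Fin n → ℝ) ∈ {z : Fin n → ℝ | ∃ x ∈ γ, ∃ y ∈ γ', z = x - y} :=
    ⟨0, h.zero_mem, 0, h'.zero_mem, by simp⟩
  refine ⟨V ∪ V'.image (fun v => -v), Set.Subset.antisymm ?_ ?_⟩
  · rintro z ⟨x, hx, y, hy, rfl⟩
    rw [sub_eq_add_neg]
    refine hW.add_mem ?_ ?_
    · rw [hV] at hx
      obtain ⟨a, ha, rfl⟩ := hx
      exact Cone2.comb_mem hW.zero_mem (fun x hx y hy => hW.add_mem hx hy)
        (fun c hc x hx => hW.smul_mem hx hc) V a ha
        fun v hv => Or.inr (Cone2.gen_mem (Finset.mem_union_left _ hv))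
    · rw [hV'] at hy
      obtain ⟨a, ha, rfl⟩ := hy
      have e : -(∑ v ∈ V', a v • (fun i => (v i : ℝ))) =
          ∑ v ∈ V'.image (fun v => -v), a (-v) • rv v := by
        rw [Finset.sum_image (fun u _ v _ huv => neg_injective huv), ← Finset.sum_neg_distrib]
        refine Finset.sum_congr rfl fun v _ => ?_
        rw [neg_neg, Cone2.rv_neg, smul_neg]
        rfl
      rw [e]
      exact Cone2.comb_mem hW.zero_mem (fun x hx y hy => hW.add_mem hx hy)
        (fun c hc x hx => hW.smul_mem hx hc) _ (fun v => a (-v)) (fun v => ha _)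
        fun v hv => Or.inr (Cone2.gen_mem (Finset.mem_union_right _ hv))
  · rintro z ⟨a, ha, rfl⟩
    refine Cone2.comb_mem h0D ?_ ?_ _ a ha ?_
    · rintro _ ⟨x, hx, y, hy, rfl⟩ _ ⟨x', hx', y', hy', rfl⟩
      exact ⟨x + x', h.add_mem hx hx', y + y', h'.add_mem hy hy', by abel⟩
    · rintro c hc _ ⟨x, hx, y, hy, rfl⟩
      exact ⟨c • x, h.smul_mem hx hc, c • y, h'.smul_mem hy hc, smul_sub _ _ _⟩
    · intro v hv
      right
      rcases Finset.mem_union.1 hv with hv | hv
      · refine ⟨rv v, ?_, 0, h'.zero_mem, by simp⟩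
        rw [hV]
        exact Cone2.gen_mem hv
      · obtain ⟨u, hu, rfl⟩ := Finset.mem_image.1 hv
        refine ⟨0, h.zero_mem, rv u, ?_, by rw [Cone2.rv_neg]; simp⟩
        rw [hV']
        exact Cone2.gen_mem hu

end Pool.Agent.TD


end

section

/-! Block Y: faces of the cones of a fan (module TD_Y_Cone4). -/

namespace Pool.Agent.TD

variable {n : ℕ}

/-- The integral pairing. -/
def Cone4.ip (m v : Fin n → ℤ) : ℤ := ∑ i, m i * v i

theorem Cone4.pair_rv (m v : Fin n → ℤ) : pair m (rv v) = (Cone4.ip m v : ℝ) := by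
  simp [pair, rv, Cone4.ip]

theorem Cone4.pair_sum (m : Fin n → ℤ) (V : Finset (Fin n → ℤ)) (a : (Fin n → ℤ) → ℝ) :
    pair m (∑ v ∈ V, a v • rv v) = ∑ v ∈ V, a v * pair m (rv v) := by
  classical
  induction V using Finset.induction_on with
  | empty => simp [pair]
  | insert v V hv ih => rw [Finset.sum_insert hv, Finset.sum_insert hv, pair_add_right,
      pair_smul_right, ih]

theorem Cone4.gen_mem {V : Finset (Fin n → ℤ)} {v : Fin n → ℤ} (hv : v ∈ V) :
    rv v ∈ {x | ∃ a : (Fin n → ℤ) → ℝ, (∀ v, 0 ≤ a v) ∧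
    x = ∑ v ∈ V, a v • (fun i => (v i : ℝ))} := by
  classical
  refine ⟨fun w => if w = v then 1 else 0, fun w => by dsimp only; split_ifs <;> norm_num, ?_⟩
  rw [Finset.sum_eq_single v]
  · dsimp only
    rw [if_pos rfl, one_smul]
    rfl
  · intro w _ hw
    simp [hw]
  · intro h
    exact absurd hv h

/-- The dual monoid of a face is obtained by inverting the linear form which defines the face. -/
theorem face_dual {σ : Set (Fin n → ℝ)} (h : IsRatCone σ) {m : Fin n → ℤ} (hm : m ∈ dualM σ)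
    {m' : Fin n → ℤ} (hm' : m' ∈ dualM {x ∈ σ | pair m x = 0}) :
    ∃ k : ℕ, m' + k • m ∈ dualM σ := by
  obtain ⟨V, rfl⟩ := h
  have key : ∀ v ∈ V, 0 ≤ Cone4.ip m' v + (∑ w ∈ V, (Cone4.ip m' w).natAbs : ℕ) * Cone4.ip m v := by
    intro v hv
    have hg := Cone4.gen_mem hv
    have h1 : 0 ≤ Cone4.ip m v := by
      have := hm (rv v) hg
      rw [Cone4.pair_rv] at this
      exact_mod_cast this
    rcases h1.eq_or_lt with h2 | h2
    · have h3 : 0 ≤ Cone4.ip m' v := by
        have := hm' (rv v) ⟨hg, by rw [Cone4.pair_rv, ← h2]; norm_num⟩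
        rw [Cone4.pair_rv] at this
        exact_mod_cast this
      rw [← h2, mul_zero, add_zero]
      exact h3
    · have h3 : (Cone4.ip m' v).natAbs ≤ ∑ w ∈ V, (Cone4.ip m' w).natAbs :=
        Finset.single_le_sum (f := fun w => (Cone4.ip m' w).natAbs) (fun _ _ => Nat.zero_le _) hv
      have h4 : |Cone4.ip m' v| ≤ ((∑ w ∈ V, (Cone4.ip m' w).natAbs : ℕ) : ℤ) := by
        rw [Int.abs_eq_natAbs]
        exact_mod_cast h3
      have h5 : -Cone4.ip m' v ≤ |Cone4.ip m' v| := neg_le_abs _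
      have h6 : (0 : ℤ) ≤ ((∑ w ∈ V, (Cone4.ip m' w).natAbs : ℕ) : ℤ) := Int.natCast_nonneg _
      nlinarith
  refine ⟨∑ w ∈ V, (Cone4.ip m' w).natAbs, ?_⟩
  rintro x ⟨a, ha, rfl⟩
  change 0 ≤ pair _ (∑ v ∈ V, a v • rv v)
  rw [Cone4.pair_sum]
  refine Finset.sum_nonneg fun v hv => mul_nonneg (ha v) ?_
  rw [Cone4.pair_rv]
  have h7 : Cone4.ip (m' + (∑ w ∈ V, (Cone4.ip m' w).natAbs) • m) v =
      Cone4.ip m' v + (∑ w ∈ V, (Cone4.ip m' w).natAbs : ℕ) * Cone4.ip m v := by
    unfold Cone4.ip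
    rw [Finset.mul_sum, ← Finset.sum_add_distrib]
    refine Finset.sum_congr rfl fun i _ => ?_
    rw [Pi.add_apply, Pi.smul_apply, nsmul_eq_mul]
    ring
  rw [h7]
  exact_mod_cast key v hv

/-- A member of a fan contained in another one is a face of it. -/
theorem Fan.face_of_sub (F : Fan n) {σ τ : F.cones} (h : τ.1 ⊆ σ.1) : IsFace τ.1 σ.1 := by
  have h1 := (F.inter σ.1 σ.2 τ.1 τ.2).1
  rwa [Set.inter_eq_right.2 h] at h1

/-- The face of a cone cut out by a character. -/
def Fan.faceC (F : Fan n) (σ : F.cones) (m : dualM σ.1) : F.cones :=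
  ⟨{x ∈ σ.1 | pair m.1 x = 0}, F.face σ.1 σ.2 _ ⟨m.1, m.2, rfl⟩⟩

/-- Separation lemma: two cones of a fan are separated by a hyperplane which cuts both of them in
their common face. -/
theorem Fan.sep (F : Fan n) (σ τ : F.cones) : ∃ m : Fin n → ℤ, m ∈ dualM σ.1 ∧ -m ∈ dualM τ.1 ∧
    (∀ x ∈ σ.1, pair m x = 0 → x ∈ τ.1) ∧ ∀ x ∈ τ.1, pair m x = 0 → x ∈ σ.1 := by
  have hσ := F.rat σ.1 σ.2
  have hτ := F.rat τ.1 τ.2
  obtain ⟨m, hm, hl⟩ := exists_relint (hσ.sub hτ)
  have i1 : ∀ x ∈ σ.1, x ∈ {z | ∃ x ∈ σ.1, ∃ y ∈ τ.1, z = x - y} := fun x hx =>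
    ⟨x, hx, 0, hτ.zero_mem, by simp⟩
  have i2 : ∀ x ∈ τ.1, -x ∈ {z | ∃ x ∈ σ.1, ∃ y ∈ τ.1, z = x - y} := fun x hx =>
    ⟨0, hσ.zero_mem, x, hx, by simp⟩
  have pn : ∀ x, pair m (-x) = -pair m x := by
    intro x
    have := pair_smul_right m (-1) x
    rwa [neg_one_smul, neg_one_mul] at this
  have f1 := (F.inter σ.1 σ.2 τ.1 τ.2).1
  have f2 := (F.inter σ.1 σ.2 τ.1 τ.2).2
  refine ⟨m, fun x hx => hm x (i1 x hx), ?_, ?_, ?_⟩
  · intro x hx
    rw [pair_neg_left, ← pn]
    exact hm _ (i2 x hx)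
  · intro x hx h0
    obtain ⟨s, hs, t, ht, e⟩ := hl x (i1 x hx) h0
    have e' : t = x + s := by
      have : t = s - -x := by
        rw [e]
        abel
      rw [this]
      abel
    obtain ⟨m2, hm2, hf⟩ := f1
    have ht' : t ∈ σ.1 ∩ τ.1 := ⟨e' ▸ hσ.add_mem hx hs, ht⟩
    rw [hf] at ht'
    have h1 := ht'.2
    rw [e', pair_add_right] at h1
    have h2 := hm2 x hx
    have h3 := hm2 s hs
    have h4 : x ∈ σ.1 ∩ τ.1 := by
      rw [hf]
      exact ⟨hx, by linarith⟩
    exact h4.2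
  · intro x hx h0
    obtain ⟨s, hs, t, ht, e⟩ := hl (-x) (i2 x hx) (by rw [pn, h0, neg_zero])
    have e' : s = x + t := by
      have : x = s - t := by
        rw [← e, neg_neg]
      rw [this]
      abel
    obtain ⟨m2, hm2, hf⟩ := f2
    have hs' : s ∈ σ.1 ∩ τ.1 := ⟨hs, e' ▸ hτ.add_mem hx ht⟩
    rw [hf] at hs'
    have h1 := hs'.2
    rw [e', pair_add_right] at h1
    have h2 := hm2 x hx
    have h3 := hm2 t ht
    have h4 : x ∈ σ.1 ∩ τ.1 := by
      rw [hf]
      exact ⟨hx, by linarith⟩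
    exact h4.1

/-- `σ^⊥` has a basis. -/
theorem perp_basis (σ : Set (Fin n → ℝ)) : ∃ (r : ℕ) (e : Fin r → Fin n → ℤ),
    (∀ i, e i ∈ perpM σ) ∧ ∀ m ∈ perpM σ, ∃! a : Fin r → ℤ, m = ∑ i, a i • e i := by
  obtain ⟨r, ⟨b⟩⟩ := Submodule.nonempty_basis_of_pid (Pi.basisFun ℤ (Fin n))
    (AddSubgroup.toIntSubmodule (perpM σ))
  have hs : ∀ a : Fin r → ℤ, ((∑ i, a i • b i : AddSubgroup.toIntSubmodule (perpM σ)) :
      Fin n → ℤ) = ∑ i, a i • (b i : Fin n → ℤ) := by
    intro a
    rw [Submodule.coe_sum]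
    rfl
  refine ⟨r, fun i => (b i : Fin n → ℤ), fun i => (b i).2, ?_⟩
  intro m hm
  refine ⟨b.equivFun ⟨m, hm⟩, ?_, ?_⟩
  · change m = ∑ i, b.equivFun ⟨m, hm⟩ i • (b i : Fin n → ℤ)
    rw [← hs, b.sum_equivFun]
  · intro a ha
    have ha' : m = ∑ i, a i • (b i : Fin n → ℤ) := ha
    have h1 : (⟨m, hm⟩ : AddSubgroup.toIntSubmodule (perpM σ)) = ∑ i, a i • b i := by
      apply Subtype.ext
      rw [hs]
      exact ha'
    rw [h1]
    funext j
    simp [Module.Basis.equivFun_apply, Finsupp.single_apply]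

end Pool.Agent.TD


end

section

/-! Block Y: charts of the faces are basic open subsets (module TD_Y_Open). -/

open AlgebraicGeometry CategoryTheory

namespace Pool.Agent.TD

/-- An inclusion of affine open subsets which induces a bijection on functions is an equality. -/
theorem eq_of_bijective_res {X : Scheme.{0}} {V W : X.Opens} (hV : IsAffineOpen V)
    (hW : IsAffineOpen W) (i : V ≤ W)
    (h : Function.Bijective (X.presheaf.map (homOfLE i).op)) : V = W := by
  have hiso : IsIso (X.presheaf.map (homOfLE i).op) := (ConcreteCategory.isIso_iff_bijective _).2 h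
  have e := hW.map_fromSpec hV (homOfLE i).op
  apply TopologicalSpace.Opens.ext
  rw [← hV.range_fromSpec, ← hW.range_fromSpec, ← e]
  have hs : Function.Surjective (Spec.map (X.presheaf.map (homOfLE i).op)) :=
    (Spec.map (X.presheaf.map (homOfLE i).op)).surjective
  rw [Scheme.Hom.comp_base]
  ext x
  constructor
  · rintro ⟨y, rfl⟩
    exact ⟨_, rfl⟩
  · rintro ⟨y, rfl⟩
    obtain ⟨y', rfl⟩ := hs y
    exact ⟨y', rfl⟩

namespace Toric

variable {K : Type} [NormedField K] {n : ℕ} {F : Fan n} {Y : Scheme.{0}} {ι : K →+* Γ(Y, ⊤)}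
  (T : Toric F Y ι)

/-- The inclusion of the dual monoid of a cone into the one of a smaller cone. -/
theorem dual_mono {σ τ : Set (Fin n → ℝ)} (h : τ ⊆ σ) {m : Fin n → ℤ} (hm : m ∈ dualM σ) :
    m ∈ dualM τ := fun x hx => hm x (h hx)

theorem stK_res {X : Scheme.{0}} (ι : K →+* Γ(X, ⊤)) {V W : X.Opens} (i : V ≤ W) (c : K) :
    X.presheaf.map (homOfLE i).op (stK ι W c) = stK ι V c := by
  show X.presheaf.map (homOfLE i).op (X.presheaf.map (homOfLE le_top).op (ι c)) =
    X.presheaf.map (homOfLE le_top).op (ι c)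
  rw [← CommRingCat.comp_apply, ← X.presheaf.map_comp]
  rfl

theorem chi_pow (σ : F.cones) (m : dualM σ.1) (k : ℕ) :
    T.chi σ (k • m) = T.chi σ m ^ k := by
  induction k with
  | zero => rw [zero_smul, T.chi_zero, pow_zero]
  | succ k ih => rw [succ_nsmul, T.chi_add, ih, pow_succ]

/-- Restriction of functions in terms of the bases. -/
theorem res_sum {σ τ : F.cones} (h : τ.1 ⊆ σ.1) (a : dualM σ.1 →₀ K) :
    Y.presheaf.map (homOfLE (T.U_mono h)).op
      (a.sum fun m c => stK ι (T.U σ) c * T.chi σ m) =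
    (a.mapDomain fun m => (⟨m.1, dual_mono h m.2⟩ : dualM τ.1)).sum
      fun m c => stK ι (T.U τ) c * T.chi τ m := by
  rw [Finsupp.sum_mapDomain_index (fun _ => by rw [map_zero, zero_mul])
    (fun _ _ _ => by rw [map_add, add_mul])]
  rw [Finsupp.sum, map_sum, Finsupp.sum]
  refine Finset.sum_congr rfl fun m _ => ?_
  rw [map_mul, stK_res, T.chi_res σ τ (T.U_mono h) m ⟨m.1, dual_mono h m.2⟩ h rfl]

theorem res_injective {σ τ : F.cones} (h : τ.1 ⊆ σ.1) :
    Function.Injective (Y.presheaf.map (homOfLE (T.U_mono h)).op) := by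
  intro x x' e
  obtain ⟨a, rfl⟩ := (T.basis σ).2 x
  obtain ⟨a', rfl⟩ := (T.basis σ).2 x'
  have e' : Y.presheaf.map (homOfLE (T.U_mono h)).op
      (a.sum fun m c => stK ι (T.U σ) c * T.chi σ m) =
      Y.presheaf.map (homOfLE (T.U_mono h)).op
      (a'.sum fun m c => stK ι (T.U σ) c * T.chi σ m) := e
  rw [T.res_sum h, T.res_sum h] at e'
  have e2 := (T.basis τ).1 e'
  have hinj : Function.Injective fun m : dualM σ.1 => (⟨m.1, dual_mono h m.2⟩ : dualM τ.1) := by
    intro m m' hm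
    have h1 : m.1 = m'.1 := congrArg (fun t : dualM τ.1 => t.1) hm
    exact Subtype.ext h1
  have e3 := Finsupp.mapDomain_injective hinj e2
  rw [e3]

/-- For `m ∈ S_σ` and the face `ρ = σ ∩ m^⊥`: `U_ρ` is the open subset `χ^m ≠ 0` of `U_σ`.
(`U_ρ ≤ D(χ^m)` because `χ^m` is invertible on `U_ρ`; both are affine; `Γ(D(χ^m))` is the
localization of `Γ(U_σ) = K[S_σ]` at `χ^m` and `Γ(U_ρ) = K[S_ρ]`, `S_ρ = S_σ + ℕ(-m)` by
`face_dual`; so the restriction `Γ(D(χ^m)) → Γ(U_ρ)` is bijective.) -/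
theorem basicOpen_chi (σ : F.cones) (m : dualM σ.1) :
    Y.basicOpen (T.chi σ m) = T.U (F.faceC σ m) := by
  have hρσ : (F.faceC σ m).1 ⊆ σ.1 := fun x hx => hx.1
  set ρ := F.faceC σ m with hρ
  have hm : m.1 ∈ perpM ρ.1 := fun x hx => hx.2
  -- the character is a unit on the chart of the face
  have hunit : T.chi ρ ⟨m.1, TropPt.perp_dual hm⟩ *
      T.chi ρ ⟨-m.1, TropPt.perp_dual ((perpM ρ.1).neg_mem hm)⟩ = 1 := by
    rw [← T.chi_add, ← T.chi_zero]
    congr 1
    apply Subtype.ext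
    exact add_neg_cancel _
  have hres : Y.presheaf.map (homOfLE (T.U_mono hρσ)).op (T.chi σ m) =
      T.chi ρ ⟨m.1, TropPt.perp_dual hm⟩ := T.chi_res σ ρ (T.U_mono hρσ) m _ hρσ rfl
  have hle : T.U ρ ≤ Y.basicOpen (T.chi σ m) := by
    have h1 := Y.basicOpen_res (T.chi σ m) (homOfLE (T.U_mono hρσ)).op
    rw [hres, Y.basicOpen_of_isUnit (IsUnit.of_mul_eq_one _ hunit)] at h1
    rw [h1]
    exact inf_le_right
  have hloc := (T.affine σ).isLocalization_basicOpen (T.chi σ m)
  -- compatibility of the restrictions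
  have hcomp : ∀ a : Γ(Y, T.U σ), Y.presheaf.map (homOfLE hle).op
      (algebraMap Γ(Y, T.U σ) Γ(Y, Y.basicOpen (T.chi σ m)) a) =
      Y.presheaf.map (homOfLE (T.U_mono hρσ)).op a := by
    intro a
    show Y.presheaf.map (homOfLE hle).op (Y.presheaf.map (homOfLE (Y.basicOpen_le _)).op a) = _
    rw [← CommRingCat.comp_apply, ← Y.presheaf.map_comp]
    rfl
  symm
  refine eq_of_bijective_res (T.affine ρ) ((T.affine σ).basicOpen _) hle ⟨?_, ?_⟩
  · rw [injective_iff_map_eq_zero]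
    intro x hx
    obtain ⟨⟨a, s⟩, hs⟩ := IsLocalization.surj (Submonoid.powers (T.chi σ m)) x
    have h1 : Y.presheaf.map (homOfLE (T.U_mono hρσ)).op a = 0 := by
      rw [← hcomp, ← hs, map_mul, hx, zero_mul]
    have h2 : a = 0 := T.res_injective hρσ (by rw [h1, map_zero])
    rw [h2, map_zero] at hs
    exact (IsLocalization.map_units Γ(Y, Y.basicOpen (T.chi σ m)) s).mul_left_eq_zero.1 hs
  · intro y
    obtain ⟨a, rfl⟩ := (T.basis ρ).2 y
    let R : Subring Γ(Y, T.U ρ) := RingHom.range (Y.presheaf.map (homOfLE hle).op).hom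
    have hK : ∀ c : K, stK ι (T.U ρ) c ∈ R := fun c => ⟨stK ι _ c, stK_res ι hle c⟩
    have hmon : ∀ m' : dualM ρ.1, T.chi ρ m' ∈ R := by
      intro m'
      obtain ⟨k, hk⟩ := face_dual (F.rat σ.1 σ.2) m.2 m'.2
      have h1 : T.chi ρ ⟨m'.1 + k • m.1, dual_mono hρσ hk⟩ ∈ R := by
        refine ⟨algebraMap _ _ (T.chi σ ⟨_, hk⟩), ?_⟩
        exact (hcomp _).trans (T.chi_res σ ρ (T.U_mono hρσ) _ _ hρσ rfl)
      have h2 : T.chi ρ ⟨-m.1, TropPt.perp_dual ((perpM ρ.1).neg_mem hm)⟩ ∈ R := by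
        obtain ⟨u, hu⟩ := IsLocalization.map_units Γ(Y, Y.basicOpen (T.chi σ m))
          (⟨T.chi σ m, Submonoid.mem_powers _⟩ : Submonoid.powers (T.chi σ m))
        refine ⟨(↑u⁻¹ : Γ(Y, Y.basicOpen (T.chi σ m))), ?_⟩
        have h3 : Y.presheaf.map (homOfLE hle).op (u : Γ(Y, Y.basicOpen (T.chi σ m))) =
            T.chi ρ ⟨m.1, TropPt.perp_dual hm⟩ := by
          rw [hu]
          exact (hcomp _).trans hres
        have h4 : Y.presheaf.map (homOfLE hle).op (↑u⁻¹ : Γ(Y, Y.basicOpen (T.chi σ m))) *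
            T.chi ρ ⟨m.1, TropPt.perp_dual hm⟩ = 1 := by
          rw [← h3, ← map_mul, Units.inv_mul, map_one]
        calc Y.presheaf.map (homOfLE hle).op (↑u⁻¹ : Γ(Y, Y.basicOpen (T.chi σ m)))
            = Y.presheaf.map (homOfLE hle).op (↑u⁻¹ : Γ(Y, Y.basicOpen (T.chi σ m))) *
              (T.chi ρ ⟨m.1, TropPt.perp_dual hm⟩ *
                T.chi ρ ⟨-m.1, TropPt.perp_dual ((perpM ρ.1).neg_mem hm)⟩) := by
              rw [hunit, mul_one]
          _ = _ := by rw [← mul_assoc, h4, one_mul]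
      have h5 : T.chi ρ m' = T.chi ρ ⟨m'.1 + k • m.1, dual_mono hρσ hk⟩ *
          (T.chi ρ ⟨-m.1, TropPt.perp_dual ((perpM ρ.1).neg_mem hm)⟩) ^ k := by
        rw [← T.chi_pow, ← T.chi_add]
        congr 1
        apply Subtype.ext
        show m'.1 = m'.1 + k • m.1 + k • (-m.1)
        rw [smul_neg, add_neg_cancel_right]
      rw [h5]
      exact R.mul_mem h1 (R.pow_mem h2 k)
    have hall : (a.sum fun m c => stK ι (T.U ρ) c * T.chi ρ m) ∈ R :=
      R.sum_mem fun m' _ => R.mul_mem (hK _) (hmon _)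
    exact hall

/-- The characters outside `σ_z^⊥` vanish at `z`. -/
theorem absv_chi_eq_zero {z : An Y ι} {σ : F.cones} (hσ : z.pt ∈ T.U σ) {m : dualM σ.1}
    (hm : m.1 ∉ perpM (T.minCone z.pt).1) : An.absv (T.U σ) (T.chi σ m) z = 0 := by
  by_contra h
  rw [An.absv_of_mem _ hσ] at h
  have h1 : IsUnit (Y.presheaf.germ (T.U σ) z.pt hσ (T.chi σ m)) := by
    by_contra h2
    exact h ((z.ker _).2 h2)
  have h2 : z.pt ∈ Y.basicOpen (T.chi σ m) := (Y.mem_basicOpen _ _ hσ).2 h1
  rw [T.basicOpen_chi, T.mem_U_iff] at h2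
  exact hm fun x hx => (h2 hx).2

/-- Compatibility of the tropicalization map with the characters. -/
theorem absv_trop {z : An Y ι} {σ : F.cones} (hσ : z.pt ∈ T.U σ) (m : dualM σ.1) :
    TropPt.absv m.1 (T.trop z) = An.absv (T.U σ) (T.chi σ m) z := by
  by_cases hm : m.1 ∈ perpM (T.minCone z.pt).1
  · exact T.absv_trop_perp hσ hm
  · rw [T.absv_chi_eq_zero hσ hm]
    unfold TropPt.absv
    have : m.1 ∉ perpM (T.trop z).cone.1 := hm
    rw [dif_neg this]

theorem trop_mem_opn {z : An Y ι} {σ : F.cones} : T.trop z ∈ TropPt.opn σ ↔ z.pt ∈ T.U σ :=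
  T.mem_U_iff.symm

theorem continuous_trop : Continuous (T.trop : An Y ι → TropPt F) := by
  rw [continuous_generateFrom_iff]
  rintro _ ⟨σ, m, V, hV, rfl⟩
  have e : T.trop ⁻¹' {b : TropPt F | b ∈ TropPt.opn σ ∧ TropPt.absv m.1 b ∈ V} =
      {z : An Y ι | z.pt ∈ T.U σ ∧ An.absv (T.U σ) (T.chi σ m) z ∈ V} := by
    ext z
    simp only [Set.mem_preimage, Set.mem_setOf_eq, T.trop_mem_opn]
    constructor
    · rintro ⟨h1, h2⟩
      rw [T.absv_trop h1] at h2
      exact ⟨h1, h2⟩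
    · rintro ⟨h1, h2⟩
      rw [← T.absv_trop h1] at h2
      exact ⟨h1, h2⟩
  rw [e]
  exact An.isOpen_basic _ _ hV

end Toric

end Pool.Agent.TD


end

section

/-! Block Y: Gordan's lemma (module TD_Y_Cone3). -/

namespace Pool.Agent.TD

variable {n : ℕ}

namespace Cone3

theorem pair_sum_right (m : Fin n → ℤ) (V : Finset (Fin n → ℤ)) (a : (Fin n → ℤ) → ℝ) :
    pair m (∑ v ∈ V, a v • (fun i => (v i : ℝ))) = ∑ v ∈ V, a v * pair m (rv v) := by
  classical
  induction V using Finset.induction_on with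
  | empty => simp [pair]
  | insert v V hv ih =>
    rw [Finset.sum_insert hv, Finset.sum_insert hv, pair_add_right, pair_smul_right, ih]
    rfl

/-- The characters which are non-negative on a cone, by the generators. -/
theorem mem_dualM_iff {γ : Set (Fin n → ℝ)} {V : Finset (Fin n → ℤ)}
    (hγ : γ = {x | ∃ a : (Fin n → ℤ) → ℝ, (∀ v, 0 ≤ a v) ∧
      x = ∑ v ∈ V, a v • (fun i => (v i : ℝ))}) (m : Fin n → ℤ) :
    m ∈ dualM γ ↔ ∀ v ∈ V, 0 ≤ ∑ i, m i * v i := by
  classical
  have hp : ∀ v : Fin n → ℤ, pair m (rv v) = ((∑ i, m i * v i : ℤ) : ℝ) := by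
    intro v
    simp [pair, rv]
  constructor
  · intro h v hv
    have h1 : rv v ∈ γ := by
      rw [hγ]
      refine ⟨fun u => if u = v then 1 else 0, fun u => ?_, ?_⟩
      · simp only
        split_ifs
        · exact zero_le_one
        · exact le_rfl
      · simp only [ite_smul, one_smul, zero_smul]
        rw [Finset.sum_ite_eq' V v, if_pos hv]
        rfl
    have h2 := h _ h1
    rw [hp] at h2
    exact_mod_cast h2
  · intro h x hx
    rw [hγ] at hx
    obtain ⟨a, ha, rfl⟩ := hx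
    rw [pair_sum_right]
    refine Finset.sum_nonneg fun v hv => mul_nonneg (ha v) ?_
    rw [hp]
    exact_mod_cast h v hv

/-- the values on the generators -/
def fV (V : Finset (Fin n → ℤ)) : ((Fin n ⊕ Fin n ⊕ V) → ℕ) →+ (V → ℤ) where
  toFun x := fun v => ∑ i, ((x (Sum.inl i) : ℤ) - x (Sum.inr (Sum.inl i))) * v.1 i
  map_zero' := by
    funext v
    simp
  map_add' x y := by
    funext v
    simp only [Pi.add_apply, Nat.cast_add]
    rw [← Finset.sum_add_distrib]
    exact Finset.sum_congr rfl fun i _ => by ring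

/-- the slack variables -/
def gV (V : Finset (Fin n → ℤ)) : ((Fin n ⊕ Fin n ⊕ V) → ℕ) →+ (V → ℤ) where
  toFun x := fun v => (x (Sum.inr (Sum.inr v)) : ℤ)
  map_zero' := by
    funext v
    simp
  map_add' x y := by
    funext v
    simp

/-- the character -/
def pV (V : Finset (Fin n → ℤ)) : ((Fin n ⊕ Fin n ⊕ V) → ℕ) →+ (Fin n → ℤ) where
  toFun x := fun i => (x (Sum.inl i) : ℤ) - x (Sum.inr (Sum.inl i))
  map_zero' := by
    funext v
    simp
  map_add' x y := by
    funext v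
    simp only [Pi.add_apply, Nat.cast_add]
    ring

end Cone3

/-- Gordan's lemma: the monoid `{m ∈ ℤ^n : ⟨m, x⟩ ≥ 0 for x ∈ γ}` is finitely generated, `γ` a
cone generated by finitely many integral vectors.  (The set of integral solutions of a finite
system of homogeneous integral inequalities: add slack variables; minimal elements, Dickson's
lemma.) -/
theorem gordan {γ : Set (Fin n → ℝ)} (h : IsRatCone γ) : (dualM γ).FG := by
  classical
  obtain ⟨V, hV⟩ := h
  have h1 : ((Cone3.fV V).eqLocusM (Cone3.gV V)).FG := AddSubmonoid.fg_eqLocusM _ _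
  have h2 : dualM γ = ((Cone3.fV V).eqLocusM (Cone3.gV V)).map (Cone3.pV V) := by
    ext m
    rw [Cone3.mem_dualM_iff hV, AddSubmonoid.mem_map]
    constructor
    · intro hm
      refine ⟨Sum.elim (fun i => (m i).toNat) (Sum.elim (fun i => (-m i).toNat)
        (fun v : V => (∑ i, m i * v.1 i).toNat)), ?_, ?_⟩
      · show Cone3.fV V _ = Cone3.gV V _
        funext v
        show ∑ i, (((m i).toNat : ℤ) - ((-m i).toNat : ℤ)) * v.1 i =
          ((∑ i, m i * v.1 i).toNat : ℤ)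
        rw [Int.toNat_of_nonneg (hm v.1 v.2)]
        refine Finset.sum_congr rfl fun i _ => ?_
        congr 1
        omega
      · funext i
        show ((m i).toNat : ℤ) - ((-m i).toNat : ℤ) = m i
        omega
    · rintro ⟨x, hx, rfl⟩ v hv
      have h3 : Cone3.fV V x = Cone3.gV V x := hx
      have h4 := congrFun h3 ⟨v, hv⟩
      have h5 : ∑ i, (Cone3.pV V x) i * v i = (x (Sum.inr (Sum.inr ⟨v, hv⟩)) : ℤ) := h4
      rw [h5]
      exact Int.natCast_nonneg _
  rw [h2]
  exact h1.map _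

end Pool.Agent.TD


end

section

/-! Block Y: the topology of the tropical toric variety: boxes are compact
(module TD_Y_TropBox). -/

open scoped Topology

namespace Pool.Agent.TD

variable {n : ℕ} {F : Fan n}

/-- A finite set of generators of `S_σ`. -/
noncomputable def gens (F : Fan n) (σ : F.cones) : Finset (Fin n → ℤ) :=
  (gordan (F.rat σ.1 σ.2)).choose

theorem closure_gens (F : Fan n) (σ : F.cones) :
    AddSubmonoid.closure (gens F σ : Set (Fin n → ℤ)) = dualM σ.1 :=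
  (gordan (F.rat σ.1 σ.2)).choose_spec

theorem gens_mem {σ : F.cones} {g : Fin n → ℤ} (h : g ∈ gens F σ) : g ∈ dualM σ.1 := by
  rw [← closure_gens F σ]
  exact AddSubmonoid.subset_closure h

/-- The box `|χ^g| ≤ R` in `Trop(U_σ)`. -/
def boxT (σ : F.cones) (R : ℝ) : Set (TropPt F) :=
  {b | b ∈ TropPt.opn σ ∧ ∀ g ∈ gens F σ, TropPt.absv g b ≤ R}


theorem TropPt.absv_of_mem {m : Fin n → ℤ} {b : TropPt F} (h : m ∈ perpM b.cone.1) :
    TropPt.absv m b = Real.exp (b.val ⟨m, h⟩) := by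
  simp only [TropPt.absv, dif_pos h]

theorem TropPt.absv_of_not_mem {m : Fin n → ℤ} {b : TropPt F} (h : m ∉ perpM b.cone.1) :
    TropPt.absv m b = 0 := by
  simp only [TropPt.absv, dif_neg h]

theorem TropPt.absv_ne_zero_iff {m : Fin n → ℤ} {b : TropPt F} :
    TropPt.absv m b ≠ 0 ↔ m ∈ perpM b.cone.1 := by
  constructor
  · intro h
    by_contra h'
    exact h (TropPt.absv_of_not_mem h')
  · intro h
    rw [TropPt.absv_of_mem h]
    exact (Real.exp_pos _).ne'

theorem TropPt.absv_nonneg (m : Fin n → ℤ) (b : TropPt F) : 0 ≤ TropPt.absv m b := by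
  by_cases h : m ∈ perpM b.cone.1
  · rw [TropPt.absv_of_mem h]
    exact (Real.exp_pos _).le
  · rw [TropPt.absv_of_not_mem h]

/-- The values `|χ^m|` at a point of `Trop(U_σ)` are multiplicative in `m ∈ S_σ`. -/
theorem TropPt.absv_add {σ : F.cones} {b : TropPt F} (hb : b ∈ TropPt.opn σ) {m m' : Fin n → ℤ}
    (hm : m ∈ dualM σ.1) (hm' : m' ∈ dualM σ.1) :
    TropPt.absv (m + m') b = TropPt.absv m b * TropPt.absv m' b := by
  by_cases h : m ∈ perpM b.cone.1
  · by_cases h' : m' ∈ perpM b.cone.1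
    · rw [TropPt.absv_of_mem h, TropPt.absv_of_mem h', TropPt.absv_of_mem (add_mem h h'),
        ← Real.exp_add, ← map_add]
      rfl
    · rw [TropPt.absv_of_not_mem h', mul_zero, TropPt.absv_of_not_mem]
      intro h2
      apply h'
      have h3 : m' = (m + m') - m := by abel
      rw [h3]
      exact sub_mem h2 h
  · rw [TropPt.absv_of_not_mem h, zero_mul, TropPt.absv_of_not_mem]
    intro h2
    apply h
    intro x hx
    have h3 := h2 x hx
    rw [pair_add_left] at h3
    have h4 := hm x (hb hx)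
    have h5 := hm' x (hb hx)
    linarith

theorem TropPt.absv_zero (b : TropPt F) : TropPt.absv (0 : Fin n → ℤ) b = 1 := by
  rw [TropPt.absv_of_mem (zero_mem _)]
  have h : (⟨0, zero_mem _⟩ : perpM b.cone.1) = 0 := rfl
  rw [h, map_zero, Real.exp_zero]

theorem TropPt.absv_nsmul {σ : F.cones} {b : TropPt F} (hb : b ∈ TropPt.opn σ) {m : Fin n → ℤ}
    (hm : m ∈ dualM σ.1) (k : ℕ) : TropPt.absv (k • m) b = TropPt.absv m b ^ k := by
  induction k with
  | zero => rw [zero_smul, pow_zero, TropPt.absv_zero]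
  | succ k ih =>
    rw [succ_nsmul, TropPt.absv_add hb (nsmul_mem hm k) hm, ih, pow_succ]

/-- Every multiplicative map `S_σ → [0,∞)` is a point of `Trop(U_σ)`. -/
theorem TropPt.exists_pt (σ : F.cones) (h : dualM σ.1 → ℝ) (h0 : h 0 = 1) (hnn : ∀ m, 0 ≤ h m)
    (hmul : ∀ m m', h (m + m') = h m * h m') :
    ∃ b : TropPt F, b ∈ TropPt.opn σ ∧ ∀ m : dualM σ.1, TropPt.absv m.1 b = h m := by
  classical
  have hpow : ∀ (m : dualM σ.1) (k : ℕ), h (k • m) = h m ^ k := by
    intro m k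
    induction k with
    | zero => rw [zero_smul, pow_zero, h0]
    | succ k ih => rw [succ_nsmul, hmul, ih, pow_succ]
  -- the sum of the generators at which `h` does not vanish
  have hsum : ∃ m0 : dualM σ.1, h m0 ≠ 0 ∧ ∀ g (hg : g ∈ gens F σ), h ⟨g, gens_mem hg⟩ ≠ 0 →
      ∀ x ∈ σ.1, pair m0.1 x = 0 → pair g x = 0 := by
    have key : ∀ S : Finset (Fin n → ℤ), ∃ m0 : dualM σ.1, h m0 ≠ 0 ∧
        ∀ g ∈ S, ∀ hg : g ∈ dualM σ.1, h ⟨g, hg⟩ ≠ 0 →
          ∀ x ∈ σ.1, pair m0.1 x = 0 → pair g x = 0 := by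
      intro S
      induction S using Finset.induction_on with
      | empty => exact ⟨0, by rw [h0]; exact one_ne_zero, by simp⟩
      | insert a S _ ih =>
        obtain ⟨m0, hm0, hS⟩ := ih
        by_cases ha : ∃ hg : a ∈ dualM σ.1, h ⟨a, hg⟩ ≠ 0
        · obtain ⟨hg, ha⟩ := ha
          refine ⟨m0 + ⟨a, hg⟩, by rw [hmul]; exact mul_ne_zero hm0 ha, ?_⟩
          intro g hgS hg' hgne x hx hx0
          have e : pair (m0.1 + a) x = pair m0.1 x + pair a x := pair_add_left _ _ _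
          have h1 : pair m0.1 x + pair a x = 0 := by rw [← e]; exact hx0
          have h2 := m0.2 x hx
          have h3 := hg x hx
          rcases Finset.mem_insert.1 hgS with rfl | hgS
          · linarith
          · exact hS g hgS hg' hgne x hx (by linarith)
        · refine ⟨m0, hm0, ?_⟩
          intro g hgS hg' hgne x hx hx0
          rcases Finset.mem_insert.1 hgS with rfl | hgS
          · exact absurd ⟨hg', hgne⟩ ha
          · exact hS g hgS hg' hgne x hx hx0
    obtain ⟨m0, hm0, hm1⟩ := key (gens F σ)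
    exact ⟨m0, hm0, fun g hg hne x hx hx0 => hm1 g hg (gens_mem hg) hne x hx hx0⟩
  obtain ⟨m0, hm0, hgen⟩ := hsum
  have hm0pos : 0 < h m0 := lt_of_le_of_ne (hnn m0) (Ne.symm hm0)
  -- the face
  set τ : F.cones := F.faceC σ m0 with hτ
  have hτmem : ∀ x, x ∈ τ.1 ↔ x ∈ σ.1 ∧ pair m0.1 x = 0 := fun x => Iff.rfl
  have hfwd : ∀ m : Fin n → ℤ, ∀ hm : m ∈ AddSubmonoid.closure (gens F σ : Set (Fin n → ℤ)),
      h ⟨m, by rw [← closure_gens F σ]; exact hm⟩ ≠ 0 → m ∈ perpM τ.1 := by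
    intro m hm
    induction hm using AddSubmonoid.closure_induction with
    | mem g hg =>
      intro hne x hx
      exact hgen g hg hne x hx.1 hx.2
    | zero =>
      intro _
      exact zero_mem _
    | add m m' hm hm' ih ih' =>
      intro hne
      have hmd : m ∈ dualM σ.1 := by rw [← closure_gens F σ]; exact hm
      have hmd' : m' ∈ dualM σ.1 := by rw [← closure_gens F σ]; exact hm'
      have e : h ⟨m + m', add_mem hmd hmd'⟩ = h ⟨m, hmd⟩ * h ⟨m', hmd'⟩ := hmul ⟨m, hmd⟩ ⟨m', hmd'⟩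
      rw [e] at hne
      exact add_mem (ih (left_ne_zero_of_mul hne)) (ih' (right_ne_zero_of_mul hne))
  have hne_iff : ∀ m : dualM σ.1, h m ≠ 0 ↔ m.1 ∈ perpM τ.1 := by
    intro m
    constructor
    · intro hne
      exact hfwd m.1 (by rw [closure_gens F σ]; exact m.2) hne
    · intro hm hzero
      have h1 : -m.1 ∈ dualM {x ∈ σ.1 | pair m0.1 x = 0} := TropPt.perp_dual (neg_mem hm)
      obtain ⟨k, hk⟩ := face_dual (F.rat σ.1 σ.2) m0.2 h1
      have h2 : m + ⟨-m.1 + k • m0.1, hk⟩ = k • m0 := by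
        apply Subtype.ext
        show m.1 + (-m.1 + k • m0.1) = k • m0.1
        abel
      have h3 := hmul m ⟨-m.1 + k • m0.1, hk⟩
      rw [h2, hzero, zero_mul, hpow] at h3
      exact pow_ne_zero k hm0 h3
  have hpos : ∀ m : dualM σ.1, m.1 ∈ perpM τ.1 → 0 < h m := fun m hm =>
    lt_of_le_of_ne (hnn m) (Ne.symm ((hne_iff m).2 hm))
  have hex : ∀ m : perpM τ.1, ∃ k : ℕ, m.1 + k • m0.1 ∈ dualM σ.1 := fun m =>
    face_dual (F.rat σ.1 σ.2) m0.2 (TropPt.perp_dual m.2)
  have hm0perp : m0.1 ∈ perpM τ.1 := fun x hx => hx.2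
  choose kk hkk using hex
  have hwd : ∀ (m : perpM τ.1) (k : ℕ) (hk : m.1 + k • m0.1 ∈ dualM σ.1) (k' : ℕ)
      (hk' : m.1 + k' • m0.1 ∈ dualM σ.1),
      Real.log (h ⟨m.1 + k • m0.1, hk⟩) - k * Real.log (h m0) =
      Real.log (h ⟨m.1 + k' • m0.1, hk'⟩) - k' * Real.log (h m0) := by
    intro m k hk k' hk'
    have e1 : (⟨m.1 + k • m0.1, hk⟩ : dualM σ.1) + k' • m0 =
        (⟨m.1 + k' • m0.1, hk'⟩ : dualM σ.1) + k • m0 := by
      apply Subtype.ext
      show m.1 + k • m0.1 + k' • m0.1 = m.1 + k' • m0.1 + k • m0.1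
      abel
    have e2 := congrArg h e1
    rw [hmul, hmul, hpow, hpow] at e2
    have p1 : 0 < h ⟨m.1 + k • m0.1, hk⟩ := hpos _ (add_mem m.2 (nsmul_mem hm0perp k))
    have p2 : 0 < h ⟨m.1 + k' • m0.1, hk'⟩ := hpos _ (add_mem m.2 (nsmul_mem hm0perp k'))
    have e3 := congrArg Real.log e2
    rw [Real.log_mul p1.ne' (pow_ne_zero _ hm0), Real.log_mul p2.ne' (pow_ne_zero _ hm0),
      Real.log_pow, Real.log_pow] at e3
    linarith
  refine ⟨⟨τ, ⟨⟨fun m => Real.log (h ⟨m.1 + kk m • m0.1, hkk m⟩) - kk m * Real.log (h m0), ?_⟩,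
    ?_⟩⟩, ?_, ?_⟩
  · have h1 : (0 : perpM τ.1).1 + (0 : ℕ) • m0.1 ∈ dualM σ.1 := by
      have : (0 : perpM τ.1).1 + (0 : ℕ) • m0.1 = 0 := by simp
      rw [this]
      exact zero_mem _
    rw [hwd 0 (kk 0) (hkk 0) 0 h1]
    have h2 : (⟨(0 : perpM τ.1).1 + (0 : ℕ) • m0.1, h1⟩ : dualM σ.1) = 0 := by
      apply Subtype.ext
      simp
    rw [h2, h0]
    simp
  · intro m m'
    have hk : (m + m').1 + (kk m + kk m') • m0.1 ∈ dualM σ.1 := by
      have : (m + m').1 + (kk m + kk m') • m0.1 = (m.1 + kk m • m0.1) + (m'.1 + kk m' • m0.1) := by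
        rw [add_smul]
        show m.1 + m'.1 + _ = _
        abel
      rw [this]
      exact add_mem (hkk m) (hkk m')
    show Real.log (h ⟨(m + m').1 + kk (m + m') • m0.1, hkk (m + m')⟩) -
      kk (m + m') * Real.log (h m0) = _
    rw [hwd (m + m') (kk (m + m')) (hkk (m + m')) (kk m + kk m') hk]
    have e1 : (⟨(m + m').1 + (kk m + kk m') • m0.1, hk⟩ : dualM σ.1) =
        ⟨m.1 + kk m • m0.1, hkk m⟩ + ⟨m'.1 + kk m' • m0.1, hkk m'⟩ := by
      apply Subtype.ext
      show m.1 + m'.1 + (kk m + kk m') • m0.1 = (m.1 + kk m • m0.1) + (m'.1 + kk m' • m0.1)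
      rw [add_smul]
      abel
    have p1 : 0 < h ⟨m.1 + kk m • m0.1, hkk m⟩ := hpos _ (add_mem m.2 (nsmul_mem hm0perp _))
    have p2 : 0 < h ⟨m'.1 + kk m' • m0.1, hkk m'⟩ := hpos _ (add_mem m'.2 (nsmul_mem hm0perp _))
    rw [e1, hmul, Real.log_mul p1.ne' p2.ne']
    push_cast
    ring
  · intro x hx
    exact hx.1
  · intro m
    by_cases hm : m.1 ∈ perpM τ.1
    · rw [TropPt.absv_of_mem (b := ⟨τ, _⟩) hm]
      have h1 : m.1 + (0 : ℕ) • m0.1 ∈ dualM σ.1 := by
        rw [zero_smul, add_zero]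
        exact m.2
      show Real.exp (Real.log (h ⟨m.1 + kk ⟨m.1, hm⟩ • m0.1, hkk ⟨m.1, hm⟩⟩) -
        kk ⟨m.1, hm⟩ * Real.log (h m0)) = h m
      rw [hwd ⟨m.1, hm⟩ (kk ⟨m.1, hm⟩) (hkk ⟨m.1, hm⟩) 0 h1]
      have h2 : (⟨m.1 + (0 : ℕ) • m0.1, h1⟩ : dualM σ.1) = m := by
        apply Subtype.ext
        simp
      have h3 : (⟨(⟨m.1, hm⟩ : perpM τ.1).1 + (0 : ℕ) • m0.1, h1⟩ : dualM σ.1) = m := h2
      rw [h3, Nat.cast_zero, zero_mul, sub_zero, Real.exp_log (hpos m hm)]
    · rw [TropPt.absv_of_not_mem (b := ⟨τ, _⟩) hm]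
      by_contra hne
      exact hm ((hne_iff m).1 (Ne.symm hne))

/-- The points of `Trop(U_σ)` are determined by the values of the characters of `S_σ`. -/
theorem TropPt.ext_absv {σ : F.cones} {b b' : TropPt F} (hb : b ∈ TropPt.opn σ)
    (hb' : b' ∈ TropPt.opn σ) (h : ∀ m ∈ dualM σ.1, TropPt.absv m b = TropPt.absv m b') :
    b = b' := by
  have key : ∀ {b b' : TropPt F}, b ∈ TropPt.opn σ → b' ∈ TropPt.opn σ →
      (∀ m ∈ dualM σ.1, TropPt.absv m b = TropPt.absv m b') → b'.cone.1 ⊆ b.cone.1 := by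
    intro b b' hb hb' h
    obtain ⟨m, hm, e⟩ := F.face_of_sub (σ := σ) (τ := b.cone) hb
    have h1 : m ∈ perpM b.cone.1 := by
      intro x hx
      rw [e] at hx
      exact hx.2
    have h2 : m ∈ perpM b'.cone.1 := by
      rw [← TropPt.absv_ne_zero_iff, ← h m hm]
      exact TropPt.absv_ne_zero_iff.2 h1
    intro x hx
    rw [e]
    exact ⟨hb' hx, h2 x hx⟩
  have hcone : b.cone = b'.cone := Subtype.ext
    (Set.Subset.antisymm (key hb' hb fun m hm => (h m hm).symm) (key hb hb' h))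
  obtain ⟨τ, v⟩ := b
  obtain ⟨τ', v'⟩ := b'
  simp only at hcone
  subst hcone
  congr 1
  ext m
  obtain ⟨m0, hm0, e⟩ := F.face_of_sub (σ := σ) (τ := τ) hb
  have hm0p : m0 ∈ perpM τ.1 := by
    intro x hx
    rw [e] at hx
    exact hx.2
  have hmd : m.1 ∈ dualM {x ∈ σ.1 | pair m0 x = 0} := by
    intro x hx
    have hx' : x ∈ τ.1 := by
      rw [e]
      exact hx
    exact (m.2 x hx').ge
  obtain ⟨k, hk⟩ := face_dual (F.rat σ.1 σ.2) hm0 hmd
  have hkp : m.1 + k • m0 ∈ perpM τ.1 := add_mem m.2 (nsmul_mem hm0p k)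
  have h1 := h m0 hm0
  have h2 := h _ hk
  rw [TropPt.absv_of_mem (b := ⟨τ, v⟩) hm0p, TropPt.absv_of_mem (b := ⟨τ, v'⟩) hm0p] at h1
  rw [TropPt.absv_of_mem (b := ⟨τ, v⟩) hkp, TropPt.absv_of_mem (b := ⟨τ, v'⟩) hkp] at h2
  have h3 := Real.exp_injective h1
  have h4 := Real.exp_injective h2
  have e1 : (⟨m.1 + k • m0, hkp⟩ : perpM τ.1) = m + k • ⟨m0, hm0p⟩ := rfl
  simp only at h3 h4
  rw [e1, map_add, map_add, map_nsmul, map_nsmul, h3] at h4
  exact add_right_cancel h4

theorem isCompact_boxT (σ : F.cones) (R : ℝ) : IsCompact (boxT σ R) := by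
  classical
  let C : Set (dualM σ.1 → ℝ) := {h | h 0 = 1 ∧ (∀ m, 0 ≤ h m) ∧
    (∀ m m', h (m + m') = h m * h m') ∧ ∀ g : gens F σ, h ⟨g.1, gens_mem g.2⟩ ≤ R}
  have hCclosed : IsClosed C := by
    have h1 : IsClosed {h : dualM σ.1 → ℝ | h 0 = 1} :=
      isClosed_eq (continuous_apply _) continuous_const
    have h2 : IsClosed {h : dualM σ.1 → ℝ | ∀ m, 0 ≤ h m} := by
      rw [Set.ofPred_forall]
      exact isClosed_iInter fun m => isClosed_le continuous_const (continuous_apply m)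
    have h3 : IsClosed {h : dualM σ.1 → ℝ | ∀ m m', h (m + m') = h m * h m'} := by
      rw [Set.ofPred_forall]
      refine isClosed_iInter fun m => ?_
      rw [Set.ofPred_forall]
      exact isClosed_iInter fun m' => isClosed_eq (continuous_apply _)
        ((continuous_apply m).mul (continuous_apply m'))
    have h4 : IsClosed {h : dualM σ.1 → ℝ | ∀ g : gens F σ, h ⟨g.1, gens_mem g.2⟩ ≤ R} := by
      rw [Set.ofPred_forall]
      exact isClosed_iInter fun g => isClosed_le (continuous_apply _) continuous_const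
    have e : C = {h : dualM σ.1 → ℝ | h 0 = 1} ∩ ({h : dualM σ.1 → ℝ | ∀ m, 0 ≤ h m} ∩
        ({h : dualM σ.1 → ℝ | ∀ m m', h (m + m') = h m * h m'} ∩
        {h : dualM σ.1 → ℝ | ∀ g : gens F σ, h ⟨g.1, gens_mem g.2⟩ ≤ R})) := rfl
    rw [e]
    exact h1.inter (h2.inter (h3.inter h4))
  have hbd : ∀ m : Fin n → ℤ, ∀ hm : m ∈ AddSubmonoid.closure (gens F σ : Set (Fin n → ℤ)),
      ∃ B : ℝ, ∀ h ∈ C, h ⟨m, by rw [← closure_gens F σ]; exact hm⟩ ≤ B := by
    intro m hm
    induction hm using AddSubmonoid.closure_induction with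
    | mem g hg => exact ⟨R, fun h hh => hh.2.2.2 ⟨g, hg⟩⟩
    | zero => exact ⟨1, fun h hh => hh.1.le⟩
    | add m m' hm hm' ih ih' =>
      obtain ⟨B, hB⟩ := ih
      obtain ⟨B', hB'⟩ := ih'
      refine ⟨B * B', fun h hh => ?_⟩
      have hmd : m ∈ dualM σ.1 := by rw [← closure_gens F σ]; exact hm
      have hmd' : m' ∈ dualM σ.1 := by rw [← closure_gens F σ]; exact hm'
      have e : h ⟨m + m', add_mem hmd hmd'⟩ = h ⟨m, hmd⟩ * h ⟨m', hmd'⟩ :=
        hh.2.2.1 ⟨m, hmd⟩ ⟨m', hmd'⟩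
      have h1 := hB h hh
      have h2 := hB' h hh
      have h3 := hh.2.1 ⟨m, hmd⟩
      have h4 := hh.2.1 ⟨m', hmd'⟩
      show h ⟨m + m', add_mem hmd hmd'⟩ ≤ B * B'
      rw [e]
      exact mul_le_mul h1 h2 h4 (h3.trans h1)
  have hbd2 : ∀ m : dualM σ.1, ∃ B : ℝ, ∀ h ∈ C, h m ≤ B := fun m =>
    hbd m.1 (by rw [closure_gens F σ]; exact m.2)
  choose B hB using hbd2
  have hCcompact : IsCompact C := by
    have h1 : IsCompact (Set.univ.pi fun m : dualM σ.1 => Set.Icc (0 : ℝ) (B m)) :=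
      isCompact_univ_pi fun m => isCompact_Icc
    exact h1.of_isClosed_subset hCclosed fun h hh m _ => ⟨hh.2.1 m, hB m h hh⟩
  have hpt : ∀ h : C, ∃ b : TropPt F, b ∈ TropPt.opn σ ∧
      ∀ m : dualM σ.1, TropPt.absv m.1 b = h.1 m := fun h =>
    TropPt.exists_pt σ h.1 h.2.1 h.2.2.1 h.2.2.2.1
  choose ψ hψ1 hψ2 using hpt
  have hψc : Continuous ψ := by
    rw [continuous_generateFrom_iff]
    rintro _ ⟨σ', m', V, hV, rfl⟩
    obtain ⟨m0, hm0, e0⟩ := (F.inter σ.1 σ.2 σ'.1 σ'.2).1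
    have hmd : m'.1 ∈ dualM {x ∈ σ.1 | pair m0 x = 0} := by
      intro x hx
      have hx' : x ∈ σ.1 ∩ σ'.1 := by
        rw [e0]
        exact hx
      exact m'.2 x hx'.2
    obtain ⟨k, hk⟩ := face_dual (F.rat σ.1 σ.2) hm0 hmd
    have hopn : ∀ h : C, ψ h ∈ TropPt.opn σ' ↔ h.1 ⟨m0, hm0⟩ ≠ 0 := by
      intro h
      rw [← hψ2 h ⟨m0, hm0⟩]
      show _ ↔ TropPt.absv m0 (ψ h) ≠ 0
      rw [TropPt.absv_ne_zero_iff]
      constructor
      · intro h1 x hx
        have hx' : x ∈ σ.1 ∩ σ'.1 := ⟨hψ1 h hx, h1 hx⟩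
        rw [e0] at hx'
        exact hx'.2
      · intro h1 x hx
        have hx' : x ∈ σ.1 ∩ σ'.1 := by
          rw [e0]
          exact ⟨hψ1 h hx, h1 x hx⟩
        exact hx'.2
    have hval : ∀ h : C, h.1 ⟨m0, hm0⟩ ≠ 0 → TropPt.absv m'.1 (ψ h) =
        h.1 ⟨m'.1 + k • m0, hk⟩ / h.1 ⟨m0, hm0⟩ ^ k := by
      intro h hne
      have h1 := (hopn h).2 hne
      have hin : ψ h ∈ TropPt.opn (F.faceC σ ⟨m0, hm0⟩) := by
        intro x hx
        have hx' : x ∈ σ.1 ∩ σ'.1 := ⟨hψ1 h hx, h1 hx⟩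
        rw [e0] at hx'
        exact hx'
      have hm0d : m0 ∈ dualM (F.faceC σ ⟨m0, hm0⟩).1 := fun x hx => hm0 x hx.1
      have h2 : TropPt.absv (m'.1 + k • m0) (ψ h) =
          TropPt.absv m'.1 (ψ h) * TropPt.absv m0 (ψ h) ^ k := by
        rw [TropPt.absv_add hin hmd (nsmul_mem hm0d k), TropPt.absv_nsmul hin hm0d]
      have h3 := hψ2 h ⟨m'.1 + k • m0, hk⟩
      have h4 := hψ2 h ⟨m0, hm0⟩
      simp only at h3 h4
      rw [h3, h4] at h2
      rw [eq_div_iff (pow_ne_zero _ hne), ← h2]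
    have hU : IsOpen {h : C | h.1 ⟨m0, hm0⟩ ≠ 0} :=
      isOpen_ne_fun ((continuous_apply _).comp continuous_subtype_val) continuous_const
    have hcont : ContinuousOn (fun h : C => h.1 ⟨m'.1 + k • m0, hk⟩ / h.1 ⟨m0, hm0⟩ ^ k)
        {h : C | h.1 ⟨m0, hm0⟩ ≠ 0} := by
      refine ContinuousOn.div ?_ ?_ fun h hh => pow_ne_zero _ hh
      · exact ((continuous_apply _).comp continuous_subtype_val).continuousOn
      · exact (((continuous_apply (⟨m0, hm0⟩ : dualM σ.1)).comp
          continuous_subtype_val).pow k).continuousOn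
    have h5 := hcont.isOpen_inter_preimage hU hV
    convert h5 using 1
    ext h
    simp only [Set.mem_preimage, Set.mem_ofPred_eq, Set.mem_inter_iff]
    rw [hopn h]
    constructor
    · rintro ⟨h6, h7⟩
      exact ⟨h6, by rw [← hval h h6]; exact h7⟩
    · rintro ⟨h6, h7⟩
      exact ⟨h6, by rw [hval h h6]; exact h7⟩
  have hrange : boxT σ R = Set.range ψ := by
    ext b
    constructor
    · rintro ⟨hb, hbR⟩
      refine ⟨⟨fun m => TropPt.absv m.1 b, TropPt.absv_zero b, fun m => TropPt.absv_nonneg _ _,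
        fun m m' => TropPt.absv_add hb m.2 m'.2, fun g => hbR g.1 g.2⟩, ?_⟩
      apply TropPt.ext_absv (hψ1 _) hb
      intro m hm
      exact hψ2 _ ⟨m, hm⟩
    · rintro ⟨h, rfl⟩
      refine ⟨hψ1 h, fun g hg => ?_⟩
      rw [hψ2 h ⟨g, gens_mem hg⟩]
      exact h.2.2.2.2 ⟨g, hg⟩
  rw [hrange]
  have : CompactSpace C := isCompact_iff_compactSpace.1 hCcompact
  exact isCompact_range hψc

end Pool.Agent.TD


end

section

/-! Block Y: the topology of the tropical toric variety (module TD_Y_TropTop). -/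

open scoped Topology

namespace Pool.Agent.TD

variable {n : ℕ} {F : Fan n}

namespace TropTop

theorem finite_cones (F : Fan n) : Finite F.cones := F.fin

theorem absv_of_notMem {m : Fin n → ℤ} {b : TropPt F} (h : m ∉ perpM b.cone.1) :
    TropPt.absv m b = 0 := by
  unfold TropPt.absv
  rw [dif_neg h]

theorem self_mem (b : TropPt F) : b ∈ TropPt.opn b.cone := Set.Subset.refl _

/-- Points of one chart are separated by the characters. -/
theorem sep_chart {σ : F.cones} {b b' : TropPt F} (hb : b ∈ TropPt.opn σ)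
    (hb' : b' ∈ TropPt.opn σ) (hne : b ≠ b') :
    ∃ u v : Set (TropPt F), IsOpen u ∧ IsOpen v ∧ b ∈ u ∧ b' ∈ v ∧ Disjoint u v := by
  have h1 : ¬ ∀ m ∈ dualM σ.1, TropPt.absv m b = TropPt.absv m b' :=
    fun h => hne (TropPt.ext_absv hb hb' h)
  push Not at h1
  obtain ⟨m, hm, hmne⟩ := h1
  obtain ⟨u, v, hu, hv, h2, h3, h4⟩ := t2_separation hmne
  refine ⟨_, _, TropPt.isOpen_basic σ ⟨m, hm⟩ hu, TropPt.isOpen_basic σ ⟨m, hm⟩ hv, ⟨hb, h2⟩,
    ⟨hb', h3⟩, ?_⟩
  rw [Set.disjoint_left]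
  rintro c ⟨-, hc⟩ ⟨-, hc'⟩
  exact Set.disjoint_left.1 h4 hc hc'

end TropTop

open TropTop

/-- Hausdorff: in one chart use `ext_absv` and the values `|χ^m|`; otherwise use `Fan.sep`: the
open sets `{|χ^m| < 1}` in `Trop(U_σ)` and `{|χ^(-m)| < 1}` in `Trop(U_τ)` are disjoint. -/
instance : T2Space (TropPt F) := by
  refine ⟨fun b b' hne => ?_⟩
  by_cases h1 : b.cone.1 ⊆ b'.cone.1
  · exact sep_chart (σ := b'.cone) h1 (self_mem b') hne
  by_cases h2 : b'.cone.1 ⊆ b.cone.1
  · exact sep_chart (σ := b.cone) (self_mem b) h2 hne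
  obtain ⟨m, m1, m2, m3, m4⟩ := F.sep b.cone b'.cone
  refine ⟨_, _, TropPt.isOpen_basic b.cone ⟨m, m1⟩ (isOpen_Iio (a := (1 : ℝ))),
    TropPt.isOpen_basic b'.cone ⟨-m, m2⟩ (isOpen_Iio (a := (1 : ℝ))), ⟨self_mem b, ?_⟩,
    ⟨self_mem b', ?_⟩, ?_⟩
  · have : m ∉ perpM b.cone.1 := fun h => h1 fun x hx => m3 x hx (h x hx)
    show TropPt.absv m b < 1
    rw [absv_of_notMem this]
    exact one_pos
  · have : -m ∉ perpM b'.cone.1 := by
      intro h
      refine h2 fun x hx => m4 x hx ?_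
      have h3 := h x hx
      rw [pair_neg_left] at h3
      linarith
    show TropPt.absv (-m) b' < 1
    rw [absv_of_notMem this]
    exact one_pos
  · rw [Set.disjoint_left]
    rintro c ⟨c1, c2⟩ ⟨c3, c4⟩
    have hm : m ∈ perpM c.cone.1 := by
      intro x hx
      have q1 : 0 ≤ pair m x := m1 x (c1 hx)
      have q2 : 0 ≤ pair (-m) x := m2 x (c3 hx)
      rw [pair_neg_left] at q2
      linarith
    have hm' : -m ∈ perpM c.cone.1 := neg_mem hm
    have c2' : TropPt.absv m c < 1 := c2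
    have c4' : TropPt.absv (-m) c < 1 := c4
    unfold TropPt.absv at c2' c4'
    rw [dif_pos hm] at c2'
    rw [dif_pos hm'] at c4'
    have e : (⟨-m, hm'⟩ : perpM c.cone.1) = -⟨m, hm⟩ := rfl
    rw [e, map_neg] at c4'
    rw [Real.exp_lt_one_iff] at c2' c4'
    linarith

theorem boxT_subset_interior (σ : F.cones) {R R' : ℝ} (h : R < R') :
    boxT σ R ⊆ interior (boxT σ R') := by
  have hopen : IsOpen {b : TropPt F | b ∈ TropPt.opn σ ∧ ∀ g ∈ gens F σ, TropPt.absv g b < R'} := by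
    have e : {b : TropPt F | b ∈ TropPt.opn σ ∧ ∀ g ∈ gens F σ, TropPt.absv g b < R'} =
        TropPt.opn σ ∩ ⋂ g ∈ gens F σ, {b : TropPt F | b ∈ TropPt.opn σ ∧
          TropPt.absv g b ∈ Set.Iio R'} := by
      ext b
      simp only [Set.mem_setOf_eq, Set.mem_inter_iff, Set.mem_iInter, Set.mem_Iio]
      constructor
      · rintro ⟨h1, h2⟩
        exact ⟨h1, fun g hg => ⟨h1, h2 g hg⟩⟩
      · rintro ⟨h1, h2⟩
        exact ⟨h1, fun g hg => (h2 g hg).2⟩
    rw [e]
    refine (TropPt.isOpen_opn σ).inter (isOpen_biInter_finset fun g hg => ?_)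
    exact TropPt.isOpen_basic σ ⟨g, gens_mem hg⟩ isOpen_Iio
  intro b hb
  refine mem_interior.2 ⟨_, ?_, hopen, ?_⟩
  · rintro c ⟨h1, h2⟩
    exact ⟨h1, fun g hg => (h2 g hg).le⟩
  · exact ⟨hb.1, fun g hg => lt_of_le_of_lt (hb.2 g hg) h⟩

namespace TropTop

theorem absv_nonneg (m : Fin n → ℤ) (b : TropPt F) : 0 ≤ TropPt.absv m b := by
  unfold TropPt.absv
  split_ifs
  · exact (Real.exp_pos _).le
  · exact le_rfl

/-- Every point is in a box of its chart. -/
theorem exists_box (b : TropPt F) : ∃ k : ℕ, ∀ R : ℝ, (k : ℝ) ≤ R → b ∈ boxT b.cone R := by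
  obtain ⟨k, hk⟩ := exists_nat_ge (∑ g ∈ gens F b.cone, TropPt.absv g b)
  refine ⟨k, fun R hR => ⟨self_mem b, fun g hg => ?_⟩⟩
  refine le_trans ?_ (hk.trans hR)
  exact Finset.single_le_sum (f := fun g => TropPt.absv g b) (fun i _ => absv_nonneg i b) hg

theorem boxT_mono (σ : F.cones) {R R' : ℝ} (h : R ≤ R') : boxT σ R ⊆ boxT σ R' :=
  fun _ hb => ⟨hb.1, fun g hg => (hb.2 g hg).trans h⟩

end TropTop

instance : WeaklyLocallyCompactSpace (TropPt F) := by
  refine ⟨fun b => ?_⟩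
  obtain ⟨k, hk⟩ := exists_box b
  refine ⟨boxT b.cone (k + 1), isCompact_boxT _ _, ?_⟩
  rw [mem_nhds_iff]
  refine ⟨_, interior_subset, isOpen_interior, ?_⟩
  exact boxT_subset_interior b.cone (lt_add_one (k : ℝ)) (hk k le_rfl)

instance : LocallyCompactSpace (TropPt F) := inferInstance

/-- The tropical toric variety is exhausted by compact sets. -/
theorem exists_exhT (F : Fan n) : ∃ B : ℕ → Set (TropPt F), (∀ k, IsCompact (B k)) ∧
    (∀ k, B k ⊆ interior (B (k + 1))) ∧ ⋃ k, B k = Set.univ := by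
  haveI := finite_cones F
  refine ⟨fun k => ⋃ σ : F.cones, boxT σ (k : ℝ), ?_, ?_, ?_⟩
  · intro k
    exact isCompact_iUnion fun σ => isCompact_boxT σ _
  · intro k
    refine Set.iUnion_subset fun σ => ?_
    refine (boxT_subset_interior σ (R' := ((k + 1 : ℕ) : ℝ)) ?_).trans ?_
    · push_cast
      exact lt_add_one _
    · exact interior_mono (Set.subset_iUnion (fun σ : F.cones => boxT σ ((k + 1 : ℕ) : ℝ)) σ)
  · rw [Set.eq_univ_iff_forall]
    intro b
    obtain ⟨k, hk⟩ := exists_box b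
    exact Set.mem_iUnion.2 ⟨k, Set.mem_iUnion.2 ⟨b.cone, hk k le_rfl⟩⟩

/-- Compact subsets are covered by finitely many boxes. -/
theorem compact_sub_box {K : Set (TropPt F)} (h : IsCompact K) :
    ∃ R : ℝ, K ⊆ ⋃ σ : F.cones, boxT σ R := by
  have hmono : ∀ {k l : ℕ}, k ≤ l →
      (⋃ σ : F.cones, interior (boxT σ (k : ℝ))) ⊆ ⋃ σ : F.cones, interior (boxT σ (l : ℝ)) := by
    intro k l hkl
    refine Set.iUnion_mono fun σ => interior_mono (boxT_mono σ ?_)
    exact_mod_cast hkl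
  obtain ⟨k, hk⟩ := h.elim_directed_cover
    (fun k : ℕ => ⋃ σ : F.cones, interior (boxT σ (k : ℝ)))
    (fun k => isOpen_iUnion fun σ => isOpen_interior) (by
      intro b _
      obtain ⟨k, hk⟩ := exists_box b
      refine Set.mem_iUnion.2 ⟨k + 1, Set.mem_iUnion.2 ⟨b.cone, ?_⟩⟩
      refine boxT_subset_interior b.cone (R := (k : ℝ)) ?_ (hk k le_rfl)
      push_cast
      exact lt_add_one _) (by
      intro k l
      exact ⟨max k l, hmono (le_max_left k l), hmono (le_max_right k l)⟩)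
  exact ⟨k, hk.trans (Set.iUnion_mono fun σ => interior_subset)⟩

end Pool.Agent.TD


end

section

/-! Block Y: the ring `Γ(Y, U_σ)` is `K[S_σ]`. -/

open AlgebraicGeometry CategoryTheory

namespace Pool.Agent.TD

namespace Toric

variable {K : Type} [NormedField K] {n : ℕ} {F : Fan n} {Y : Scheme.{0}} {ι : K →+* Γ(Y, ⊤)}
  (T : Toric F Y ι)

/-- The characters as a monoid homomorphism. -/
def chiHom (σ : F.cones) : Multiplicative (dualM σ.1) →* Γ(Y, T.U σ) where
  toFun m := T.chi σ m.toAdd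
  map_one' := T.chi_zero σ
  map_mul' m m' := T.chi_add σ m.toAdd m'.toAdd

/-- The evaluation `K[S_σ] → Γ(Y, U_σ)`. -/
noncomputable def evHom (σ : F.cones) : AddMonoidAlgebra K (dualM σ.1) →+* Γ(Y, T.U σ) :=
  AddMonoidAlgebra.liftNCRingHom (stK ι (T.U σ)) (T.chiHom σ) (fun _ _ => Commute.all _ _)

theorem evHom_single (σ : F.cones) (m : dualM σ.1) (c : K) :
    T.evHom σ (AddMonoidAlgebra.single m c) = stK ι (T.U σ) c * T.chi σ m := by
  unfold evHom
  rw [AddMonoidAlgebra.liftNCRingHom_single]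
  rfl

theorem evHom_apply (σ : F.cones) (a : AddMonoidAlgebra K (dualM σ.1)) :
    T.evHom σ a = a.coeff.sum fun m c => stK ι (T.U σ) c * T.chi σ m := rfl

theorem evHom_bij (σ : F.cones) : Function.Bijective (T.evHom σ) := by
  have h : (T.evHom σ : AddMonoidAlgebra K (dualM σ.1) → Γ(Y, T.U σ)) =
      (fun a : dualM σ.1 →₀ K => a.sum fun m c => stK ι (T.U σ) c * T.chi σ m) ∘
        (AddMonoidAlgebra.coeffEquiv : AddMonoidAlgebra K (dualM σ.1) ≃ (dualM σ.1 →₀ K)) := by
    funext a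
    exact T.evHom_apply σ a
  rw [h]
  exact (T.basis σ).comp AddMonoidAlgebra.coeffEquiv.bijective

/-- The isomorphism `K[S_σ] ≅ Γ(Y, U_σ)`. -/
noncomputable def ringIso (σ : F.cones) : AddMonoidAlgebra K (dualM σ.1) ≃+* Γ(Y, T.U σ) :=
  RingEquiv.ofBijective (T.evHom σ) (T.evHom_bij σ)

end Toric

end Pool.Agent.TD


end

section

/-! Block Y: the projection `K[S_σ] → K[σ^⊥]`. -/

open AlgebraicGeometry CategoryTheory

namespace Pool.Agent.TD

namespace An

variable {K : Type} [NormedField K] {X : Scheme.{0}} {ι : K →+* Γ(X, ⊤)}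

theorem absv_zero (U : X.Opens) (z : An X ι) : absv U (0 : Γ(X, U)) z = 0 := by
  by_cases h : z.pt ∈ U
  · rw [absv_of_mem _ h, map_zero, z.ker]
    exact not_isUnit_zero
  · unfold absv
    rw [dif_neg h]

theorem absv_neg {U : X.Opens} (f : Γ(X, U)) (z : An X ι) : absv U (-f) z = absv U f z := by
  by_cases h : z.pt ∈ U
  · have h1 : absv U (-1 : Γ(X, U)) z = 1 := by
      have h2 := absv_mul (-1 : Γ(X, U)) (-1) z
      rw [neg_mul_neg, one_mul, absv_one h] at h2
      have h3 := absv_nonneg U (-1 : Γ(X, U)) z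
      nlinarith
    have h2 := absv_mul (-1 : Γ(X, U)) f z
    rw [neg_one_mul, h1, one_mul] at h2
    exact h2
  · unfold absv
    rw [dif_neg h, dif_neg h]

end An

/-- `e` is a basis of `σ^⊥`. -/
structure IsPB {n r : ℕ} (σ : Set (Fin n → ℝ)) (e : Fin r → Fin n → ℤ) : Prop where
  mem : ∀ i, e i ∈ perpM σ
  uniq : ∀ m ∈ perpM σ, ∃! a : Fin r → ℤ, m = ∑ i, a i • e i

section proj

variable {K : Type} [NormedField K] {n : ℕ}

theorem perp_le_dual (σ : Set (Fin n → ℝ)) : (perpM σ).toAddSubmonoid ≤ dualM σ :=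
  fun _ hm => TropPt.perp_dual hm

theorem add_mem_perp {σ : Set (Fin n → ℝ)} {m m' : Fin n → ℤ} (hm : m ∈ dualM σ)
    (hm' : m' ∈ dualM σ) : m + m' ∈ perpM σ ↔ m ∈ perpM σ ∧ m' ∈ perpM σ := by
  constructor
  · intro h
    constructor
    · intro x hx
      have h1 := h x hx
      rw [pair_add_left] at h1
      have h2 := hm x hx
      have h3 := hm' x hx
      linarith
    · intro x hx
      have h1 := h x hx
      rw [pair_add_left] at h1
      have h2 := hm x hx
      have h3 := hm' x hx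
      linarith
  · rintro ⟨h1, h2⟩
    exact (perpM σ).add_mem h1 h2

open Classical in
/-- The monoid homomorphism `S_σ → K[σ^⊥]` which kills the characters outside `σ^⊥`. -/
noncomputable def projM (K : Type) [NormedField K] {n : ℕ} (σ : Set (Fin n → ℝ)) :
    Multiplicative (dualM σ) →* AddMonoidAlgebra K (perpM σ) where
  toFun m := if h : m.toAdd.1 ∈ perpM σ then AddMonoidAlgebra.single ⟨m.toAdd.1, h⟩ 1 else 0
  map_one' := by
    have h : (Multiplicative.toAdd (1 : Multiplicative (dualM σ))).1 ∈ perpM σ :=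
      (perpM σ).zero_mem
    rw [dif_pos h]
    rfl
  map_mul' m m' := by
    by_cases h : m.toAdd.1 ∈ perpM σ ∧ m'.toAdd.1 ∈ perpM σ
    · have h' : (Multiplicative.toAdd (m * m')).1 ∈ perpM σ :=
        (add_mem_perp m.toAdd.2 m'.toAdd.2).2 h
      rw [dif_pos h.1, dif_pos h.2, dif_pos h', AddMonoidAlgebra.single_mul_single, mul_one]
      rfl
    · have h' : ¬ (Multiplicative.toAdd (m * m')).1 ∈ perpM σ := fun h' =>
        h ((add_mem_perp m.toAdd.2 m'.toAdd.2).1 h')
      rw [dif_neg h']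
      by_cases h1 : m.toAdd.1 ∈ perpM σ
      · rw [dif_neg fun h2 => h ⟨h1, h2⟩, mul_zero]
      · rw [dif_neg h1, zero_mul]

/-- The projection `K[S_σ] → K[σ^⊥]`. -/
noncomputable def projH (K : Type) [NormedField K] {n : ℕ} (σ : Set (Fin n → ℝ)) :
    AddMonoidAlgebra K (dualM σ) →ₐ[K] AddMonoidAlgebra K (perpM σ) :=
  AddMonoidAlgebra.lift K _ _ (projM K σ)

/-- The inclusion `K[σ^⊥] → K[S_σ]`. -/
noncomputable def incH (K : Type) [NormedField K] {n : ℕ} (σ : Set (Fin n → ℝ)) :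
    AddMonoidAlgebra K (perpM σ) →ₐ[K] AddMonoidAlgebra K (dualM σ) :=
  AddMonoidAlgebra.mapDomainAlgHom K K
    ({ toFun := fun m => ⟨m.1, TropPt.perp_dual m.2⟩
       map_zero' := rfl
       map_add' := fun _ _ => rfl } : perpM σ →+ dualM σ)

theorem projH_single (σ : Set (Fin n → ℝ)) (m : dualM σ) (c : K) (h : m.1 ∈ perpM σ) :
    projH K σ (AddMonoidAlgebra.single m c) = AddMonoidAlgebra.single ⟨m.1, h⟩ c := by
  classical
  rw [projH, AddMonoidAlgebra.lift_single]
  show c • (if h : m.1 ∈ perpM σ then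
    (AddMonoidAlgebra.single ⟨m.1, h⟩ 1 : AddMonoidAlgebra K (perpM σ)) else 0) = _
  rw [dif_pos h, AddMonoidAlgebra.smul_single, smul_eq_mul, mul_one]

theorem projH_single_zero (σ : Set (Fin n → ℝ)) (m : dualM σ) (c : K) (h : m.1 ∉ perpM σ) :
    projH K σ (AddMonoidAlgebra.single m c) = 0 := by
  classical
  rw [projH, AddMonoidAlgebra.lift_single]
  show c • (if h : m.1 ∈ perpM σ then
    (AddMonoidAlgebra.single ⟨m.1, h⟩ 1 : AddMonoidAlgebra K (perpM σ)) else 0) = _
  rw [dif_neg h, smul_zero]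

theorem incH_single (σ : Set (Fin n → ℝ)) (m : perpM σ) (c : K) :
    incH K σ (AddMonoidAlgebra.single m c) =
      AddMonoidAlgebra.single ⟨m.1, TropPt.perp_dual m.2⟩ c := by
  unfold incH
  simp

theorem projH_incH (σ : Set (Fin n → ℝ)) (a : AddMonoidAlgebra K (perpM σ)) :
    projH K σ (incH K σ a) = a := by
  have h : (projH K σ).comp (incH K σ) = AlgHom.id K _ := by
    apply AddMonoidAlgebra.algHom_ext
    · intro m
      rw [AlgHom.comp_apply, incH_single, projH_single _ _ _ m.2]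
      rfl
    · exact Subsingleton.elim _ _
  exact congrArg (fun f => f a) h

/-- The homomorphism `K[T_1, ..., T_r] → K[σ^⊥]`, `T_i ↦ χ^{e_i}`. -/
noncomputable def polyH (K : Type) [NormedField K] {n r : ℕ} {σ : Set (Fin n → ℝ)}
    {e : Fin r → Fin n → ℤ} (he : IsPB σ e) :
    MvPolynomial (Fin r) K →ₐ[K] AddMonoidAlgebra K (perpM σ) :=
  MvPolynomial.aeval fun i => AddMonoidAlgebra.single ⟨e i, he.mem i⟩ 1

end proj

namespace Toric

variable {K : Type} [NormedField K] {n : ℕ} {F : Fan n} {Y : Scheme.{0}} {ι : K →+* Γ(Y, ⊤)}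
  (T : Toric F Y ι)

/-- At a point of the orbit of `σ`, a function has the same absolute value as its projection. -/
theorem absv_incH_projH (σ : F.cones) (a : AddMonoidAlgebra K (dualM σ.1)) {z : An Y ι}
    (hz : T.minCone z.pt = σ) : An.absv (T.U σ) (T.evHom σ a) z =
      An.absv (T.U σ) (T.evHom σ (incH K σ.1 (projH K σ.1 a))) z := by
  have hzU : z.pt ∈ T.U σ := T.mem_U_iff.2 (by rw [hz])
  have h0 : An.absv (T.U σ) (0 : Γ(Y, T.U σ)) z = 0 := An.absv_zero _ _
  have h1 : ∀ a : AddMonoidAlgebra K (dualM σ.1),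
      An.absv (T.U σ) (T.evHom σ (a - incH K σ.1 (projH K σ.1 a))) z = 0 := by
    intro a
    induction a using AddMonoidAlgebra.induction_linear with
    | zero => rw [map_zero, map_zero, sub_zero, map_zero, h0]
    | add a b ha hb =>
      have e : a + b - incH K σ.1 (projH K σ.1 (a + b)) =
          (a - incH K σ.1 (projH K σ.1 a)) + (b - incH K σ.1 (projH K σ.1 b)) := by
        rw [map_add, map_add]
        ring
      rw [e, map_add]
      refine le_antisymm ((An.absv_add _ _ _).trans ?_) (An.absv_nonneg _ _ _)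
      rw [ha, hb, max_self]
    | single m c =>
      by_cases hm : m.1 ∈ perpM σ.1
      · rw [projH_single _ _ _ hm, incH_single, sub_self, map_zero, h0]
      · rw [projH_single_zero _ _ _ hm, map_zero, sub_zero, evHom_single, An.absv_mul,
          T.absv_chi_eq_zero hzU (by rw [hz]; exact hm), mul_zero]
  set b := incH K σ.1 (projH K σ.1 a) with hb
  have h2 : T.evHom σ a = T.evHom σ b + T.evHom σ (a - b) := by
    rw [← map_add]
    congr 1
    ring
  have h3 : T.evHom σ b = T.evHom σ a + -T.evHom σ (a - b) := by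
    rw [map_sub]
    ring
  apply le_antisymm
  · rw [h2]
    refine (An.absv_add _ _ _).trans ?_
    rw [h1 a, max_eq_left (An.absv_nonneg _ _ _)]
  · rw [h3]
    refine (An.absv_add _ _ _).trans ?_
    rw [An.absv_neg, h1 a, max_eq_left (An.absv_nonneg _ _ _)]

end Toric

end Pool.Agent.TD


end

section

/-!
# FTB: finite tropical bases of ideals of Laurent polynomials
-/

open scoped ContDiff Topology NNReal

namespace Pool.Agent.TD.BG

namespace FTB

variable {K : Type} [NormedField K] {ι : Type} {m : ℕ}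

/-- Dehomogenisation of exponents. -/
def psi (e : ι ≃ Fin m) (u : Fin (m + 1) → ℕ) (i : ι) : ℤ := (u (e i).succ : ℤ)

/-- Dehomogenisation. -/
noncomputable def deh (e : ι ≃ Fin m) (F : (Fin (m + 1) → ℕ) →₀ K) : Laur K ι :=
  .ofCoeff (F.mapDomain (psi e))

/-- The weight of the homogeneous variables. -/
def whom (e : ι ≃ Fin m) (w : ι → ℝ) : Fin (m + 1) → ℝ := Fin.cons 0 fun j => w (e.symm j)

theorem psi_add (e : ι ≃ Fin m) (u a : Fin (m + 1) → ℕ) : psi e (u + a) = psi e u + psi e a := by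
  funext i
  simp [psi]

theorem psi_inj (e : ι ≃ Fin m) {u u' : Fin (m + 1) → ℕ} (hd : deg u = deg u')
    (h : psi e u = psi e u') : u = u' := by
  have h1 : ∀ j : Fin m, u j.succ = u' j.succ := by
    intro j
    have := congrFun h (e.symm j)
    simpa [psi] using this
  have h2 : u 0 = u' 0 := by
    unfold deg at hd
    rw [Fin.sum_univ_succ, Fin.sum_univ_succ] at hd
    have h3 : ∑ j : Fin m, u j.succ = ∑ j : Fin m, u' j.succ :=
      Finset.sum_congr rfl fun j _ => h1 j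
    omega
  funext i
  refine Fin.cases h2 (fun j => h1 j) i

theorem wt_eq [Fintype ι] (e : ι ≃ Fin m) (w : ι → ℝ) (u : Fin (m + 1) → ℕ) :
    wtN (whom e w) u = wtZ w (psi e u) := by
  apply NNReal.eq
  show Real.exp _ = Real.exp _
  congr 1
  rw [Fin.sum_univ_succ]
  simp only [whom, psi, Fin.cons_zero, Fin.cons_succ, mul_zero, zero_add]
  rw [← Equiv.sum_comp e]
  simp

theorem wtZ_add [Fintype ι] (w : ι → ℝ) (u v : ι → ℤ) :
    wtZ w (u + v) = wtZ w u * wtZ w v := by
  apply NNReal.eq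
  show Real.exp _ = Real.exp _ * Real.exp _
  rw [← Real.exp_add, ← Finset.sum_add_distrib]
  congr 1
  exact Finset.sum_congr rfl fun i _ => by simp [add_mul]

theorem wtZ_pos [Fintype ι] (w : ι → ℝ) (u : ι → ℤ) : 0 < wtZ w u := Real.exp_pos _

theorem co_deh (e : ι ≃ Fin m) (F : (Fin (m + 1) → ℕ) →₀ K) :
    co (deh e F) = F.mapDomain (psi e) := rfl

theorem deh_add (e : ι ≃ Fin m) (F G : (Fin (m + 1) → ℕ) →₀ K) :
    deh e (F + G) = deh e F + deh e G := by
  apply AddMonoidAlgebra.coeff_injective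
  exact Finsupp.mapDomain_add

theorem deh_smul (e : ι ≃ Fin m) (c : K) (F : (Fin (m + 1) → ℕ) →₀ K) :
    deh e (c • F) = c • deh e F := by
  apply AddMonoidAlgebra.coeff_injective
  exact Finsupp.mapDomain_smul c F

theorem deh_zero (e : ι ≃ Fin m) : deh e (0 : (Fin (m + 1) → ℕ) →₀ K) = 0 := by
  apply AddMonoidAlgebra.coeff_injective
  exact Finsupp.mapDomain_zero (f := psi e)

/-- multiplication by a monomial -/
theorem coeff_mono (b : ι → ℤ) (F : Laur K ι) :
    (AddMonoidAlgebra.single b (1 : K) * F).coeff = F.coeff.mapDomain (fun v => b + v) := by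
  ext v
  rw [AddMonoidAlgebra.coeff_single_mul_apply, one_mul]
  have h1 : v = b + (-b + v) := by abel
  conv_rhs => rw [h1]
  exact (Finsupp.mapDomain_apply (add_right_injective b) F.coeff (-b + v)).symm

theorem deh_sh (e : ι ≃ Fin m) (a : Fin (m + 1) → ℕ) (F : (Fin (m + 1) → ℕ) →₀ K) :
    deh e (sh a F) = AddMonoidAlgebra.single (psi e a) 1 * deh e F := by
  apply AddMonoidAlgebra.coeff_injective
  rw [coeff_mono]
  show (F.mapDomain fun u => u + a).mapDomain (psi e) =
    (F.mapDomain (psi e)).mapDomain fun v => psi e a + v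
  rw [← Finsupp.mapDomain_comp, ← Finsupp.mapDomain_comp]
  congr 1
  funext u
  show psi e (u + a) = psi e a + psi e u
  rw [psi_add, add_comm]

/-- Coefficients of the dehomogenisation. -/
theorem co_deh_apply (e : ι ≃ Fin m) {d : ℕ} {F : (Fin (m + 1) → ℕ) →₀ K} (hF : Hom d F)
    {u : Fin (m + 1) → ℕ} (hu : deg u = d) : co (deh e F) (psi e u) = F u := by
  rw [co_deh]
  refine Finsupp.mapDomain_apply' {u | deg u = d} F ?_ ?_ hu
  · intro v hv
    exact hF v (Finsupp.mem_support_iff.1 hv)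
  · intro v hv v' hv' h
    exact psi_inj e (hv.trans hv'.symm) h

theorem co_deh_ne (e : ι ≃ Fin m) {F : (Fin (m + 1) → ℕ) →₀ K} {v : ι → ℤ}
    (h : co (deh e F) v ≠ 0) : ∃ u, psi e u = v ∧ F u ≠ 0 := by
  classical
  rw [co_deh] at h
  have h1 := Finsupp.mapDomain_support (Finsupp.mem_support_iff.2 h)
  obtain ⟨u, hu, hu'⟩ := Finset.mem_image.1 h1
  exact ⟨u, hu', Finsupp.mem_support_iff.1 hu⟩

/-- Single forms: from homogeneous to Laurent polynomials. -/
theorem single_deh [Fintype ι] (e : ι ≃ Fin m) (w : ι → ℝ) {d : ℕ}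
    {F : (Fin (m + 1) → ℕ) →₀ K} (hF : Hom d F) {a : Fin (m + 1) → ℕ}
    (h : Single (wtN (whom e w)) F a) : Single (wtZ w) (co (deh e F)) (psi e a) := by
  have ha : co (deh e F) (psi e a) = F a := co_deh_apply e hF (hF a h.1)
  refine ⟨by rw [ha]; exact h.1, fun v hv => ?_⟩
  rw [ha]
  by_cases h0 : co (deh e F) v = 0
  · rw [h0, nnnorm_zero, zero_mul]
    exact mul_pos (by simpa using h.1) (wtZ_pos _ _)
  · obtain ⟨u, rfl, hu⟩ := co_deh_ne e h0
    rw [co_deh_apply e hF (hF u hu), ← wt_eq, ← wt_eq]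
    exact h.2 u fun h1 => hv (by rw [h1])

/-- Single forms: from Laurent polynomials to homogeneous polynomials. -/
theorem single_hom [Fintype ι] (e : ι ≃ Fin m) (w : ι → ℝ) {d : ℕ}
    {F : (Fin (m + 1) → ℕ) →₀ K} (hF : Hom d F) {a : Fin (m + 1) → ℕ} (had : deg a = d)
    (h : Single (wtZ w) (co (deh e F)) (psi e a)) : Single (wtN (whom e w)) F a := by
  have ha : co (deh e F) (psi e a) = F a := co_deh_apply e hF had
  have ha0 : F a ≠ 0 := by rw [← ha]; exact h.1
  refine ⟨ha0, fun u hu => ?_⟩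
  by_cases h0 : F u = 0
  · rw [h0, nnnorm_zero, zero_mul]
    exact mul_pos (by simpa using ha0) (wtN_pos _ _)
  · have h1 := h.2 (psi e u) fun h2 => hu (psi_inj e ((hF u h0).trans had.symm) h2)
    rw [ha, co_deh_apply e hF (hF u h0), ← wt_eq, ← wt_eq] at h1
    exact h1

/-- The homogeneous ideal (as a subspace). -/
noncomputable def JJ (e : ι ≃ Fin m) (I : Ideal (Laur K ι)) :
    Submodule K ((Fin (m + 1) → ℕ) →₀ K) where
  carrier := {F | ∀ d, deh e (F.filter fun u => deg u = d) ∈ I}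
  add_mem' := by
    intro F G hF hG d
    rw [Finsupp.filter_add, deh_add]
    exact I.add_mem (hF d) (hG d)
  zero_mem' := by
    intro d
    rw [Finsupp.filter_zero, deh_zero]
    exact I.zero_mem
  smul_mem' := by
    intro c F hF d
    rw [Finsupp.filter_smul, deh_smul, Algebra.smul_def]
    exact I.mul_mem_left _ (hF d)

theorem mem_JJ (e : ι ≃ Fin m) (I : Ideal (Laur K ι)) (F : (Fin (m + 1) → ℕ) →₀ K) :
    F ∈ JJ e I ↔ ∀ d, deh e (F.filter fun u => deg u = d) ∈ I := Iff.rfl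

theorem filter_hom {d : ℕ} {F : (Fin (m + 1) → ℕ) →₀ K} (hF : Hom d F) :
    (F.filter fun u => deg u = d) = F := by
  rw [Finsupp.filter_eq_self_iff]
  exact hF

theorem filter_hom_ne {d d' : ℕ} (hd : d ≠ d') {F : (Fin (m + 1) → ℕ) →₀ K} (hF : Hom d F) :
    (F.filter fun u => deg u = d') = 0 := by
  rw [Finsupp.filter_eq_zero_iff]
  intro u hu
  by_contra h
  exact hd ((hF u h).symm.trans hu)

theorem deh_mem (e : ι ≃ Fin m) {I : Ideal (Laur K ι)} {d : ℕ} {F : (Fin (m + 1) → ℕ) →₀ K}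
    (hF : Hom d F) (h : F ∈ JJ e I) : deh e F ∈ I := by
  have := h d
  rwa [filter_hom hF] at this

theorem mem_JJ_of_hom (e : ι ≃ Fin m) {I : Ideal (Laur K ι)} {d : ℕ}
    {F : (Fin (m + 1) → ℕ) →₀ K} (hF : Hom d F) (h : deh e F ∈ I) : F ∈ JJ e I := by
  rw [mem_JJ]
  intro d'
  by_cases hd : d = d'
  · subst hd
    rwa [filter_hom hF]
  · rw [filter_hom_ne hd hF, deh_zero]
    exact I.zero_mem

theorem sh_mem (e : ι ≃ Fin m) (I : Ideal (Laur K ι)) (F : (Fin (m + 1) → ℕ) →₀ K)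
    (hF : F ∈ JJ e I) (a : Fin (m + 1) → ℕ) : sh a F ∈ JJ e I := by
  rw [mem_JJ]
  intro d
  have hdeg : ∀ u : Fin (m + 1) → ℕ, a ≤ u → deg (u - a) + deg a = deg u := by
    intro u hu
    rw [← deg_add, tsub_add_cancel_of_le hu]
  by_cases hd : deg a ≤ d
  · have h1 : ((sh a F).filter fun u => deg u = d) = sh a (F.filter fun u => deg u = d - deg a) := by
      ext u
      by_cases hu : a ≤ u
      · obtain ⟨v, rfl⟩ : ∃ v, u = v + a := ⟨u - a, (tsub_add_cancel_of_le hu).symm⟩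
        rw [sh_apply_add, Finsupp.filter_apply, Finsupp.filter_apply, sh_apply_add, deg_add]
        have h2 : deg v + deg a = d ↔ deg v = d - deg a := by omega
        simp only [h2]
      · rw [sh_apply_of_not_le _ hu, Finsupp.filter_apply, sh_apply_of_not_le _ hu]
        simp
    rw [h1, deh_sh]
    exact I.mul_mem_left _ (hF _)
  · have h1 : ((sh a F).filter fun u => deg u = d) = 0 := by
      rw [Finsupp.filter_eq_zero_iff]
      intro u hu
      apply sh_apply_of_not_le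
      intro h2
      have := hdeg u h2
      omega
    rw [h1, deh_zero]
    exact I.zero_mem

/-- The subspace of elements of degree `N`. -/
noncomputable def VV (e : ι ≃ Fin m) (I : Ideal (Laur K ι)) (N : ℕ) :
    Submodule K ((Fin (m + 1) → ℕ) →₀ K) where
  carrier := {F | F ∈ JJ e I ∧ Hom N F}
  add_mem' := by
    rintro F G ⟨hF, hF'⟩ ⟨hG, hG'⟩
    refine ⟨(JJ e I).add_mem hF hG, fun u hu => ?_⟩
    by_contra hne
    have a1 : F u = 0 := by by_contra h; exact hne (hF' u h)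
    have a2 : G u = 0 := by by_contra h; exact hne (hG' u h)
    exact hu (by simp [a1, a2])
  zero_mem' := ⟨(JJ e I).zero_mem, fun u hu => absurd rfl hu⟩
  smul_mem' := by
    rintro c F ⟨hF, hF'⟩
    refine ⟨(JJ e I).smul_mem c hF, fun u hu => hF' u fun h => hu (by simp [h])⟩

/-- Homogenisation of a Laurent polynomial. -/
theorem exists_hom [Fintype ι] (e : ι ≃ Fin m) (F : Laur K ι) {u : ι → ℤ}
    (hu : co F u ≠ 0) : ∃ (b : ι → ℤ) (N : ℕ) (G : (Fin (m + 1) → ℕ) →₀ K)
    (a : Fin (m + 1) → ℕ), Hom N G ∧ deh e G = AddMonoidAlgebra.single b 1 * F ∧ deg a = N ∧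
      psi e a = b + u := by
  classical
  obtain ⟨S, hS⟩ : ∃ S, S = (co F).support := ⟨_, rfl⟩
  obtain ⟨b, hb⟩ : ∃ b : ι → ℤ, ∀ v ∈ S, ∀ i, 0 ≤ v i + b i := by
    refine ⟨fun i => ∑ v ∈ S, |v i|, fun v hv i => ?_⟩
    have h1 : |v i| ≤ ∑ v ∈ S, |v i| :=
      Finset.single_le_sum (f := fun v : ι → ℤ => |v i|) (fun _ _ => abs_nonneg _) hv
    have h2 := neg_abs_le (v i)
    show 0 ≤ v i + ∑ v ∈ S, |v i|
    omega
  obtain ⟨N, hN⟩ : ∃ N : ℕ, ∀ v ∈ S, ∑ i, (v i + b i).toNat ≤ N :=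
    ⟨∑ v ∈ S, ∑ i, (v i + b i).toNat, fun v hv =>
      Finset.single_le_sum (f := fun v : ι → ℤ => ∑ i, (v i + b i).toNat)
        (fun _ _ => Nat.zero_le _) hv⟩
  obtain ⟨θ, hθ⟩ : ∃ θ : (ι → ℤ) → Fin (m + 1) → ℕ, ∀ v, θ v =
      Fin.cons (N - ∑ i, (v i + b i).toNat)
        (fun j => (v (e.symm j) + b (e.symm j)).toNat) := ⟨_, fun _ => rfl⟩
  have hdeg : ∀ v ∈ S, deg (θ v) = N := by
    intro v hv
    unfold deg
    rw [Fin.sum_univ_succ, hθ]
    simp only [Fin.cons_zero, Fin.cons_succ]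
    have h1 : ∑ j : Fin m, (v (e.symm j) + b (e.symm j)).toNat = ∑ i, (v i + b i).toNat :=
      Equiv.sum_comp e.symm fun i => (v i + b i).toNat
    rw [h1]
    have := hN v hv
    omega
  have hpsi : ∀ v ∈ S, psi e (θ v) = b + v := by
    intro v hv
    funext i
    unfold psi
    rw [hθ]
    simp only [Fin.cons_succ, Equiv.symm_apply_apply, Pi.add_apply]
    rw [Int.toNat_of_nonneg (hb v hv i), add_comm]
  have huS : u ∈ S := by rw [hS]; exact Finsupp.mem_support_iff.2 hu
  refine ⟨b, N, (co F).mapDomain θ, θ u, ?_, ?_, hdeg u huS, hpsi u huS⟩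
  · intro v hv
    have h1 := Finsupp.mapDomain_support (Finsupp.mem_support_iff.2 hv)
    obtain ⟨v', hv', rfl⟩ := Finset.mem_image.1 h1
    exact hdeg v' (by rw [hS]; exact hv')
  · apply AddMonoidAlgebra.coeff_injective
    rw [coeff_mono]
    show ((co F).mapDomain θ).mapDomain (psi e) = (co F).mapDomain fun v => b + v
    rw [← Finsupp.mapDomain_comp]
    exact Finsupp.mapDomain_congr fun v hv => hpsi v (by rw [hS]; exact hv)

end FTB

theorem FTB_thm (h1 : UNI_Stmt) (h2 : CIR_Stmt) : FTB_Stmt := by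
  intro K ι _ _ _ I
  classical
  obtain ⟨m, hm⟩ : ∃ m, m = Fintype.card ι := ⟨_, rfl⟩
  have e : ι ≃ Fin m := (Fintype.equivFin ι).trans (finCongr hm.symm)
  obtain ⟨k, hk⟩ := h1 K (m + 1) (FTB.JJ e I) (FTB.sh_mem e I)
  obtain ⟨C', hC', hC⟩ := h2 K (Fin (m + 1) → ℕ) (finite_deg (m + 1) ((m + 1) * k)).toFinset
    (FTB.VV e I ((m + 1) * k)) (fun F hF u hu => by
      rw [Set.Finite.mem_toFinset]
      exact hF.2 u hu)
  refine ⟨C'.image (FTB.deh e), ?_, fun w hw => ?_⟩
  · intro F hF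
    obtain ⟨F', hF', rfl⟩ := Finset.mem_image.1 hF
    have := hC' F' hF'
    exact FTB.deh_mem e this.2 this.1
  · have hw' : ∃ F ∈ I, ∃ u, Single (wtZ w) (co F) u := by
      by_contra hcon
      push Not at hcon
      exact hw hcon
    obtain ⟨F, hF, u, hu⟩ := hw'
    obtain ⟨b, N, G, a, hG, hGF, ha, hab⟩ := FTB.exists_hom e F hu.1
    have hGJ : G ∈ FTB.JJ e I := by
      apply FTB.mem_JJ_of_hom e hG
      rw [hGF]
      exact I.mul_mem_left _ hF
    have hco : ∀ v, co (FTB.deh e G) (b + v) = co F v := by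
      intro v
      rw [hGF]
      show (AddMonoidAlgebra.single b (1 : K) * F).coeff (b + v) = F.coeff v
      rw [AddMonoidAlgebra.coeff_single_mul_apply, one_mul, neg_add_cancel_left]
    have hsG : Single (wtN (FTB.whom e w)) G a := by
      apply FTB.single_hom e w hG ha
      rw [hab]
      refine ⟨by rw [hco]; exact hu.1, fun v hv => ?_⟩
      obtain ⟨v', rfl⟩ : ∃ v', v = b + v' := ⟨-b + v, by abel⟩
      rw [hco, hco, FTB.wtZ_add, FTB.wtZ_add, mul_left_comm, mul_left_comm _ (wtZ w b)]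
      exact (mul_lt_mul_iff_right₀ (FTB.wtZ_pos w b)).2
        (hu.2 v' fun h => hv (by rw [h]))
    obtain ⟨G', hG', hG'h, hG's⟩ := hk (FTB.whom e w) N G a hGJ hG hsG
    obtain ⟨F', hF', hF's⟩ := hC (wtN (FTB.whom e w)) (wtN_pos _) (fun _ => k)
      ⟨G', ⟨hG', hG'h⟩, hG's⟩
    exact ⟨FTB.deh e F', Finset.mem_image_of_mem _ hF', _,
      FTB.single_deh e w (hC' F' hF').2 hF's⟩

end Pool.Agent.TD.BG


end

section

/-!
# The tropicalization of a stratum (module TD_BG_STR)
-/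

open scoped ContDiff Topology NNReal

namespace Pool.Agent.TD.BG.STR

section seminorm

variable {K A : Type} [NormedField K] [CommRing A] [Algebra K A] (z : Ber K A)

theorem v_zero : z.v 0 = 0 := by
  have h := z.ext 0
  simpa using h

theorem v_neg_one : z.v (-1) = 1 := by
  have h := z.ext (-1)
  simpa using h

theorem v_neg (a : A) : z.v (-a) = z.v a := by
  rw [neg_eq_neg_one_mul, z.mul, v_neg_one, one_mul]

theorem v_pow (a : A) (n : ℕ) : z.v (a ^ n) = z.v a ^ n := by
  induction n with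
  | zero => simp [z.one]
  | succ n ih => rw [pow_succ, z.mul, ih, pow_succ]

theorem v_prod {ι : Type} (s : Finset ι) (f : ι → A) :
    z.v (∏ i ∈ s, f i) = ∏ i ∈ s, z.v (f i) := by
  classical
  induction s using Finset.induction_on with
  | empty => simp [z.one]
  | insert i s hi ih => rw [Finset.prod_insert hi, z.mul, ih, Finset.prod_insert hi]

theorem v_add_eq_of_zero {a b : A} (h : z.v a = 0) : z.v (a + b) = z.v b := by
  apply le_antisymm
  · have := z.add a b
    rw [h, max_eq_right (z.nonneg b)] at this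
    exact this
  · have := z.add (-a) (a + b)
    rw [v_neg, h, max_eq_right (z.nonneg _)] at this
    simpa using this

theorem v_sum_lt {ι : Type} (s : Finset ι) (f : ι → A) {c : ℝ} (hc : 0 < c)
    (h : ∀ i ∈ s, z.v (f i) < c) : z.v (∑ i ∈ s, f i) < c := by
  classical
  induction s using Finset.induction_on with
  | empty => simpa [v_zero] using hc
  | insert i s hi ih =>
    rw [Finset.sum_insert hi]
    exact (z.add _ _).trans_lt (max_lt (h i (by simp)) (ih fun j hj => h j (by simp [hj])))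

/-- if one term dominates strictly, the sum is non-zero. -/
theorem v_sum_ne_zero {ι : Type} (s : Finset ι) (f : ι → A) {i : ι} (hi : i ∈ s)
    (h0 : z.v (f i) ≠ 0) (h : ∀ j ∈ s, j ≠ i → z.v (f j) < z.v (f i)) :
    z.v (∑ j ∈ s, f j) ≠ 0 := by
  classical
  intro hs
  have hpos : 0 < z.v (f i) := lt_of_le_of_ne (z.nonneg _) (Ne.symm h0)
  have h1 : z.v (∑ j ∈ s.erase i, f j) < z.v (f i) :=
    v_sum_lt z _ _ hpos fun j hj => h j (Finset.mem_of_mem_erase hj) (Finset.ne_of_mem_erase hj)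
  have h2 : f i + ∑ j ∈ s.erase i, f j = ∑ j ∈ s, f j := Finset.add_sum_erase s f hi
  have h3 : z.v (∑ j ∈ s.erase i, f j) = z.v (f i) := by
    have h4 : ∑ j ∈ s.erase i, f j = ∑ j ∈ s, f j + -(f i) := by rw [← h2]; abel
    rw [h4, v_add_eq_of_zero z hs, v_neg]
  exact h1.ne h3

theorem v_span {s : Set A} (hs : ∀ a ∈ s, z.v a = 0) {x : A} (hx : x ∈ Ideal.span s) :
    z.v x = 0 := by
  induction hx using Submodule.span_induction with
  | mem x h => exact hs x h
  | zero => exact v_zero z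
  | add x y _ _ hx hy => rw [v_add_eq_of_zero z hx, hy]
  | smul a x _ hx => rw [smul_eq_mul, z.mul, hx, mul_zero]

end seminorm

section laur

variable {K ι : Type} [NormedField K] [Fintype ι] [DecidableEq ι]

/-- natural exponents as integral exponents -/
def cz (m : ι →₀ ℕ) : ι → ℤ := fun i => (m i : ℤ)

omit [Fintype ι] [DecidableEq ι] in
theorem cz_inj : Function.Injective (cz (ι := ι)) := by
  intro m m' h
  ext i
  have := congrFun h i
  simpa [cz] using this

theorem prod_var_aux (m : ι →₀ ℕ) (s : Finset ι) :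
    ∏ i ∈ s, (var i : Laur K ι) ^ m i =
      AddMonoidAlgebra.single (∑ i ∈ s, m i • Pi.single i (1 : ℤ)) 1 := by
  induction s using Finset.induction_on with
  | empty => simp [AddMonoidAlgebra.one_def]
  | insert i s hi ih =>
    rw [Finset.prod_insert hi, ih, Finset.sum_insert hi, var, AddMonoidAlgebra.single_pow,
      AddMonoidAlgebra.single_mul_single]
    simp

theorem prod_var (m : ι →₀ ℕ) :
    ∏ i, (var i : Laur K ι) ^ m i = AddMonoidAlgebra.single (cz m) 1 := by
  rw [prod_var_aux]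
  congr 1
  ext j
  simp [cz, Finset.sum_apply, Pi.single_apply]

theorem aeval_var (P : MvPolynomial ι K) :
    MvPolynomial.aeval (fun i : ι => (var i : Laur K ι)) P =
      ∑ m ∈ P.support, AddMonoidAlgebra.single (cz m) (P.coeff m) := by
  rw [MvPolynomial.aeval_def, MvPolynomial.eval₂_eq']
  refine Finset.sum_congr rfl fun m _ => ?_
  rw [prod_var, AddMonoidAlgebra.coe_algebraMap]
  simp [AddMonoidAlgebra.single_mul_single]

theorem coeff_aeval_var (P : MvPolynomial ι K) (m : ι →₀ ℕ) :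
    (MvPolynomial.aeval (fun i : ι => (var i : Laur K ι)) P).coeff (cz m) = P.coeff m := by
  classical
  rw [aeval_var, AddMonoidAlgebra.coeff_sum, Finsupp.finsetSum_apply]
  simp only [AddMonoidAlgebra.coeff_single, Finsupp.single_apply, cz_inj.eq_iff]
  rw [Finset.sum_ite_eq' P.support m]
  split_ifs with h
  · rfl
  · exact (MvPolynomial.notMem_support_iff.1 h).symm

theorem exists_of_coeff_aeval_var {P : MvPolynomial ι K} {u : ι → ℤ}
    (h : (MvPolynomial.aeval (fun i : ι => (var i : Laur K ι)) P).coeff u ≠ 0) :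
    ∃ m, u = cz m := by
  classical
  by_contra hcon
  push Not at hcon
  apply h
  rw [aeval_var, AddMonoidAlgebra.coeff_sum, Finsupp.finsetSum_apply]
  refine Finset.sum_eq_zero fun m _ => ?_
  rw [AddMonoidAlgebra.coeff_single, Finsupp.single_apply, if_neg (fun h1 => hcon m h1.symm)]

omit [DecidableEq ι] in
theorem wtZ_pos (w : ι → ℝ) (u : ι → ℤ) : 0 < wtZ w u := Real.exp_pos _

omit [DecidableEq ι] in
theorem wtZ_add (w : ι → ℝ) (u v : ι → ℤ) : wtZ w (u + v) = wtZ w u * wtZ w v := by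
  apply NNReal.eq
  show Real.exp _ = Real.exp _ * Real.exp _
  rw [← Real.exp_add, ← Finset.sum_add_distrib]
  congr 1
  exact Finset.sum_congr rfl fun i _ => by simp [add_mul]

/-- A multiple of a single Laurent polynomial by a monomial is single. -/
theorem single_shift {w : ι → ℝ} {F : Laur K ι} {u : ι → ℤ} (h : Single (wtZ w) (co F) u)
    (a : ι → ℤ) : Single (wtZ w) (co (F * AddMonoidAlgebra.single a 1)) (u + a) := by
  have key : ∀ v, (F * AddMonoidAlgebra.single a 1).coeff (v + a) = F.coeff v := by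
    intro v
    rw [AddMonoidAlgebra.coeff_mul_single_add]
    simp
  refine ⟨?_, ?_⟩
  · show (F * AddMonoidAlgebra.single a 1).coeff (u + a) ≠ 0
    rw [key]
    exact h.1
  · intro u' hne
    have h1 : u' = (u' - a) + a := by abel
    have h2 : u' - a ≠ u := fun h3 => hne (by rw [← h3]; abel)
    have h3 := h.2 (u' - a) h2
    show ‖(F * AddMonoidAlgebra.single a 1).coeff u'‖₊ * wtZ w u' <
      ‖(F * AddMonoidAlgebra.single a 1).coeff (u + a)‖₊ * wtZ w (u + a)
    rw [key, h1, key, wtZ_add, wtZ_add, ← mul_assoc, ← mul_assoc]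
    exact (mul_lt_mul_iff_left₀ (wtZ_pos w a)).2 h3

end laur

section main

variable {K A : Type} [NormedField K] [CommRing A] [Algebra K A] [DecidableEq A]

/-- the value of a monomial -/
theorem v_mon {ι : Type} [Fintype ι] (z : Ber K A) (g : ι → A) (hg : ∀ i, z.v (g i) ≠ 0) (c : K)
    (m : ι →₀ ℕ) : z.v (algebraMap K A c * ∏ i, g i ^ m i) =
      ((‖c‖₊ * wtZ (fun i => Real.log (z.v (g i))) (cz m) : ℝ≥0) : ℝ) := by
  rw [z.mul, z.ext, v_prod]
  rw [NNReal.coe_mul, coe_nnnorm]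
  congr 1
  show _ = Real.exp _
  rw [Real.exp_sum]
  refine Finset.prod_congr rfl fun i _ => ?_
  have hpos : 0 < z.v (g i) := lt_of_le_of_ne (z.nonneg _) (Ne.symm (hg i))
  rw [v_pow]
  simp only [cz, Int.cast_natCast]
  rw [← Real.log_pow, Real.exp_log (pow_pos hpos _)]

theorem sub1 (t J : Finset A) (hJ : J ⊆ t) (I : Ideal (Laur K J))
    (hI : ∀ F, F ∈ I ↔ IJ t J F) (z : Ber K A) (hz : z ∈ stra t J) :
    (berLS K A).trop J z ∈ Trop I := by
  intro F hF u hs
  obtain ⟨u', P, h1, h2⟩ := (hI F).1 hF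
  have h3 := single_shift hs (fun j => (u' j : ℤ))
  rw [h1] at h3
  have hne : ∀ j : J, z.v (j : A) ≠ 0 := fun j => (hz j (hJ j.2)).2 j.2
  have h0 : z.v (MvPolynomial.aeval (fun j : J => (j : A)) P) = 0 := by
    refine v_span z ?_ h2
    intro a ha
    have ha' : a ∈ t ∧ a ∉ J := by simpa using ha
    by_contra hcon
    exact ha'.2 ((hz a ha'.1).1 hcon)
  obtain ⟨m0, hm0⟩ := exists_of_coeff_aeval_var h3.1
  have hw : (berLS K A).trop J z = fun j : J => Real.log (z.v (j : A)) := rfl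
  rw [hw] at h3
  rw [hm0] at h3
  have h4 : P.coeff m0 ≠ 0 := by
    rw [← coeff_aeval_var]
    exact h3.1
  have h5 : ∀ m, m ≠ m0 → ‖P.coeff m‖₊ * wtZ (fun j : J => Real.log (z.v (j : A))) (cz m) <
      ‖P.coeff m0‖₊ * wtZ (fun j : J => Real.log (z.v (j : A))) (cz m0) := by
    intro m hm
    have h6 := h3.2 (cz m) (fun h => hm (cz_inj h))
    rw [← coeff_aeval_var P m, ← coeff_aeval_var P m0]
    exact h6
  rw [MvPolynomial.aeval_def, MvPolynomial.eval₂_eq'] at h0
  refine v_sum_ne_zero z P.support _ (i := m0) (by simpa using h4) ?_ ?_ h0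
  · rw [v_mon z (fun j : J => (j : A)) hne]
    have h7 : ‖P.coeff m0‖₊ ≠ 0 := by simpa using h4
    have h8 := (wtZ_pos (fun j : J => Real.log (z.v (j : A))) (cz m0)).ne'
    exact_mod_cast mul_ne_zero h7 h8
  · intro m _ hm
    rw [v_mon z (fun j : J => (j : A)) hne, v_mon z (fun j : J => (j : A)) hne]
    exact_mod_cast h5 m hm

/-- the map of polynomials to Laurent polynomials -/
noncomputable def hh (K : Type) [NormedField K] (t J : Finset A) :
    MvPolynomial t K →ₐ[K] Laur K J :=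
  MvPolynomial.aeval fun a : t => if h : (a : A) ∈ J then var ⟨a, h⟩ else 0

/-- evaluation in `A` -/
noncomputable def gg (K : Type) [NormedField K] [Algebra K A] (t : Finset A) :
    MvPolynomial t K →ₐ[K] A :=
  MvPolynomial.aeval fun a : t => (a : A)

/-- restriction to the variables `J` -/
noncomputable def rr (K : Type) [NormedField K] (t J : Finset A) :
    MvPolynomial t K →ₐ[K] MvPolynomial J K :=
  MvPolynomial.aeval fun a : t => if h : (a : A) ∈ J then MvPolynomial.X ⟨a, h⟩ else 0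

theorem hh_eq (t J : Finset A) (Q : MvPolynomial t K) :
    hh K t J Q = MvPolynomial.aeval (fun j : J => var j) (rr K t J Q) := by
  have h : hh K t J = (MvPolynomial.aeval (fun j : J => (var j : Laur K J))).comp (rr K t J) := by
    apply MvPolynomial.algHom_ext
    intro a
    rw [AlgHom.comp_apply, hh, rr, MvPolynomial.aeval_X, MvPolynomial.aeval_X]
    split_ifs with h
    · rw [MvPolynomial.aeval_X]
    · simp
  rw [h]; rfl

theorem gg_sub (t J : Finset A) (Q : MvPolynomial t K) :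
    Ideal.Quotient.mk (Ideal.span (↑(t \ J) : Set A))
      (MvPolynomial.aeval (fun j : J => (j : A)) (rr K t J Q)) =
    Ideal.Quotient.mk (Ideal.span (↑(t \ J) : Set A)) (gg K t Q) := by
  have h : ((Ideal.Quotient.mkₐ K (Ideal.span (↑(t \ J) : Set A))).comp
      (MvPolynomial.aeval (fun j : J => (j : A)))).comp (rr K t J) =
      (Ideal.Quotient.mkₐ K (Ideal.span (↑(t \ J) : Set A))).comp (gg K t) := by
    apply MvPolynomial.algHom_ext
    intro a
    rw [AlgHom.comp_apply, AlgHom.comp_apply, AlgHom.comp_apply, gg, rr, MvPolynomial.aeval_X,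
      MvPolynomial.aeval_X]
    split_ifs with h
    · rw [MvPolynomial.aeval_X]
    · rw [map_zero, map_zero]
      symm
      rw [Ideal.Quotient.mkₐ_eq_mk, Ideal.Quotient.eq_zero_iff_mem]
      apply Ideal.subset_span
      simp [h]
  exact congrArg (fun f : MvPolynomial t K →ₐ[K] _ => f Q) h

theorem hh_mem (t J : Finset A) (I : Ideal (Laur K J))
    (hI : ∀ F, F ∈ I ↔ IJ t J F) (Q : MvPolynomial t K) (hQ : gg K t Q = 0) :
    hh K t J Q ∈ I := by
  rw [hI]
  refine ⟨0, rr K t J Q, ?_, ?_⟩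
  · rw [← hh_eq]
    have : (AddMonoidAlgebra.single (fun j : J => (((0 : J → ℕ) j : ℕ) : ℤ)) 1 : Laur K J) = 1 := by
      rw [AddMonoidAlgebra.one_def]
      congr 1
    rw [this, mul_one]
  · have := gg_sub t J Q
    rw [hQ, map_zero, Ideal.Quotient.eq_zero_iff_mem] at this
    exact this

theorem gg_surj (t : Finset A) (h : Algebra.adjoin K (t : Set A) = ⊤) :
    Function.Surjective (gg K t) := by
  intro a
  have h1 : a ∈ Algebra.adjoin K (t : Set A) := by rw [h]; trivial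
  rw [Algebra.adjoin_eq_range] at h1
  obtain ⟨Q, hQ⟩ := h1
  exact ⟨Q, hQ⟩

theorem sup1 (h1 : B1_Stmt) [IsUltrametricDist K] (t J : Finset A) (hJ : J ⊆ t)
    (hA : Algebra.adjoin K (t : Set A) = ⊤) (I : Ideal (Laur K J))
    (hI : ∀ F, F ∈ I ↔ IJ t J F) (w : J → ℝ) (hw : w ∈ Trop I) :
    w ∈ (berLS K A).trop J '' (stra t J) := by
  obtain ⟨z, hz1, hz2⟩ := h1 K J I w hw
  have hsurj := gg_surj t hA
  have hker : ∀ Q : MvPolynomial t K, gg K t Q = 0 → z.v (hh K t J Q) = 0 := fun Q hQ =>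
    hz2 _ (hh_mem t J I hI Q hQ)
  choose s hs using hsurj
  have hval : ∀ Q : MvPolynomial t K, z.v (hh K t J (s (gg K t Q))) = z.v (hh K t J Q) := by
    intro Q
    have h2 : z.v (hh K t J (s (gg K t Q) - Q)) = 0 := by
      apply hker
      rw [map_sub, hs, sub_self]
    have h3 := v_add_eq_of_zero z (b := hh K t J Q) h2
    rw [← map_add, sub_add_cancel] at h3
    exact h3
  have hval' : ∀ (a : A) (Q : MvPolynomial t K), gg K t Q = a →
      z.v (hh K t J (s a)) = z.v (hh K t J Q) := by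
    rintro a Q rfl
    exact hval Q
  let z' : Ber K A := {
    v := fun a => z.v (hh K t J (s a))
    nonneg := fun a => z.nonneg _
    one := by
      rw [hval' 1 1 (map_one _), map_one, z.one]
    mul := fun a b => by
      rw [hval' (a * b) (s a * s b) (by rw [map_mul, hs, hs]), map_mul, z.mul]
    add := fun a b => by
      rw [hval' (a + b) (s a + s b) (by rw [map_add, hs, hs]), map_add]
      exact z.add _ _
    ext := fun c => by
      rw [hval' _ (algebraMap K _ c) (AlgHom.commutes _ _), AlgHom.commutes, z.ext] }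
  have hX : ∀ a : t, z'.v (a : A) = z.v (if h : (a : A) ∈ J then var ⟨a, h⟩ else 0) := by
    intro a
    show z.v (hh K t J (s (a : A))) = _
    rw [hval' (a : A) (MvPolynomial.X a) (by rw [gg, MvPolynomial.aeval_X]), hh,
      MvPolynomial.aeval_X]
  have hXJ : ∀ j : J, z'.v (j : A) = Real.exp (w j) := by
    intro j
    rw [hX ⟨j, hJ j.2⟩, dif_pos j.2]
    exact hz1 j
  refine ⟨z', ?_, ?_⟩
  · intro a ha
    by_cases haJ : a ∈ J
    · refine ⟨fun _ => haJ, fun _ => ?_⟩
      rw [hXJ ⟨a, haJ⟩]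
      exact (Real.exp_pos _).ne'
    · refine ⟨fun h => absurd ?_ h, fun h => absurd h haJ⟩
      rw [hX ⟨a, ha⟩, dif_neg haJ, v_zero]
  · funext j
    show Real.log (z'.v (j : A)) = w j
    rw [hXJ, Real.log_exp]

end main

end Pool.Agent.TD.BG.STR

namespace Pool.Agent.TD.BG

theorem STR_thm (h1 : B1_Stmt) : STR_Stmt := by
  intro K A _ _ _ _ _ t J hJ hA I hI
  apply Set.Subset.antisymm
  · rintro _ ⟨z, hz, rfl⟩
    exact STR.sub1 t J hJ I hI z hz
  · intro w hw
    exact STR.sup1 h1 t J hJ hA I hI w hw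

end Pool.Agent.TD.BG


end
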