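import Mathlib
import Pool.Agent.DolbM.C06
import Pool.Agent.DolbM.C07
import Pool.Agent.TD.T.Basic
import Pool.Agent.TD.Y.Map
import Pool.Agent.TD.Y.Restr

/-! Parts: TD.Y.Glue, TD.Y.TropMor, TD.Y.Chart, TD.Y.LocBer, TD.Y.Chart2, TD.Y.AnTop, TD.Y.TropLoc, TD.Y.Loc, TD.Y.LocP, TD.Y.Loc1, TD.Y.Loc2 -/

section

/-! Block Y: the characters as functions on open subsets (module TD_Y_Glue). -/

open AlgebraicGeometry CategoryTheory

namespace Pool.Agent.TD

namespace Toric

variable {K : Type} [NormedField K] {n : ℕ} {F : Fan n} {Y : Scheme.{0}} {ι : K →+* Γ(Y, ⊤)}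
  (T : Toric F Y ι)

/-- The open subset of `Y` on which the character `χ^m` is an invertible function. -/
def Um (m : Fin n → ℤ) : Y.Opens := ⨆ σ : {σ : F.cones // m ∈ perpM σ.1}, T.U σ.1

theorem U_le_Um {m : Fin n → ℤ} {σ : F.cones} (h : m ∈ perpM σ.1) : T.U σ ≤ T.Um m :=
  le_iSup (fun σ : {σ : F.cones // m ∈ perpM σ.1} => T.U σ.1) ⟨σ, h⟩

/-- The character `χ^m` as a function on `Um m`.  (Gluing in the sheaf of functions: on
`U_σ ∩ U_τ = U_{σ ∩ τ}` the functions `chi σ m` and `chi τ m` agree by `chi_res`.) -/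
theorem exists_chiU (m : Fin n → ℤ) : ∃ s : Γ(Y, T.Um m), ∀ (σ : F.cones)
    (h : m ∈ perpM σ.1),
    Y.presheaf.map (homOfLE (T.U_le_Um h)).op s = T.chi σ ⟨m, TropPt.perp_dual h⟩ := by
  have hc : TopCat.Presheaf.IsCompatible Y.sheaf.1
      (fun σ : {σ : F.cones // m ∈ perpM σ.1} => T.U σ.1)
      (fun σ => T.chi σ.1 ⟨m, TropPt.perp_dual σ.2⟩) := by
    intro σ τ
    have hp : m ∈ perpM (capC σ.1 τ.1).1 := TropPt.perp_sub Set.inter_subset_left σ.2
    have hle : T.U σ.1 ⊓ T.U τ.1 ≤ T.U (capC σ.1 τ.1) := (T.inter σ.1 τ.1 _ rfl).le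
    have h1 : T.U (capC σ.1 τ.1) ≤ T.U σ.1 := T.U_mono Set.inter_subset_left
    have h2 : T.U (capC σ.1 τ.1) ≤ T.U τ.1 := T.U_mono Set.inter_subset_right
    have e1 := T.chi_res σ.1 (capC σ.1 τ.1) h1 ⟨m, TropPt.perp_dual σ.2⟩
      ⟨m, TropPt.perp_dual hp⟩ Set.inter_subset_left rfl
    have e2 := T.chi_res τ.1 (capC σ.1 τ.1) h2 ⟨m, TropPt.perp_dual τ.2⟩
      ⟨m, TropPt.perp_dual hp⟩ Set.inter_subset_right rfl
    have e3 := congrArg (Y.presheaf.map (homOfLE hle).op) (e1.trans e2.symm)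
    rw [← ConcreteCategory.comp_apply, ← ConcreteCategory.comp_apply, ← Functor.map_comp,
      ← Functor.map_comp] at e3
    exact e3
  obtain ⟨s, hs, -⟩ := Y.sheaf.existsUnique_gluing
    (fun σ : {σ : F.cones // m ∈ perpM σ.1} => T.U σ.1) _ hc
  exact ⟨s, fun σ h => hs ⟨σ, h⟩⟩

/-- The character `χ^m` as a function on `Um m`. -/
noncomputable def chiU (m : Fin n → ℤ) : Γ(Y, T.Um m) := (T.exists_chiU m).choose

theorem chiU_res {m : Fin n → ℤ} {σ : F.cones} (h : m ∈ perpM σ.1) :
    Y.presheaf.map (homOfLE (T.U_le_Um h)).op (T.chiU m) = T.chi σ ⟨m, TropPt.perp_dual h⟩ :=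
  (T.exists_chiU m).choose_spec σ h

theorem absv_chiU {m : Fin n → ℤ} {σ : F.cones} (h : m ∈ perpM σ.1) {z : An Y ι}
    (hz : z.pt ∈ T.U σ) :
    An.absv (T.Um m) (T.chiU m) z = An.absv (T.U σ) (T.chi σ ⟨m, TropPt.perp_dual h⟩) z := by
  rw [← T.chiU_res h, An.absv_res _ _ hz]

end Toric

end Pool.Agent.TD


end

section

/-! Block Y: the tropicalization morphism. -/

open scoped ContDiff Topology
open AlgebraicGeometry CategoryTheory

namespace Pool.Agent.TD

namespace Toric

variable {K : Type} [NormedField K] {n : ℕ} {F : Fan n} {Y : Scheme.{0}} {ι : K →+* Γ(Y, ⊤)}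
  (T : Toric F Y ι)

theorem absv_chiU_trop {m : Fin n → ℤ} {z : An Y ι} (h : m ∈ perpM (T.minCone z.pt).1) :
    An.absv (T.Um m) (T.chiU m) z = TropPt.absv m (T.trop z) := by
  rw [T.absv_chiU h (T.mem_minCone z.pt)]
  exact (T.absv_trop (T.mem_minCone z.pt) ⟨m, TropPt.perp_dual h⟩).symm

/-- The tropicalization map as a morphism: the character `m` goes to the function `χ^m`. -/
noncomputable def tropMor : Mor (anLS Y ι) (tropLS F) where
  toFun := T.trop
  cont := T.continuous_trop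
  ix m := ⟨T.Um m, T.chiU m⟩
  dom_sub m z h := by
    have h' : m ∈ perpM (T.minCone z.pt).1 := h
    refine ⟨T.U_le_Um h' (T.mem_minCone z.pt), ?_⟩
    show An.absv (T.Um m) (T.chiU m) z ≠ 0
    rw [T.absv_chiU h' (T.mem_minCone z.pt)]
    exact T.absv_chi_ne_zero h' (T.mem_minCone z.pt)
  lf_eq m z h := by
    have h' : m ∈ perpM (T.minCone z.pt).1 := h
    show Real.log (An.absv (T.Um m) (T.chiU m) z) = Real.log (TropPt.absv m (T.trop z))
    rw [T.absv_chiU_trop h']

end Toric

end Pool.Agent.TD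


end

section

/-! Block Y: the analytification of an affine open subset is the Berkovich spectrum of its ring
of functions: definitions, quotients (module TD_Y_CH1). -/

open scoped Topology
open AlgebraicGeometry CategoryTheory

namespace Pool.Agent.TD

variable {K : Type} [NormedField K] {X : Scheme.{0}} {ι : K →+* Γ(X, ⊤)} {U : X.Opens}
  {A : Type} [CommRing A] [Algebra K A]

namespace An

/-- The seminorm on `A = Γ(X, U)` of a point of `U^an`. -/
noncomputable def toBer (φ : A →+* Γ(X, U)) (hφ : ∀ c, φ (algebraMap K A c) = stK ι U c)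
    (z : opn ι U) : Ber K A where
  v a := absv U (φ a) z.1
  nonneg a := absv_nonneg _ _ _
  one := by rw [map_one, absv_one z.2]
  mul a b := by rw [map_mul, absv_mul]
  add a b := by rw [map_add]; exact absv_add _ _ _
  ext c := by rw [hφ, absv_stK c z.2]

theorem toBer_v (φ : A →+* Γ(X, U)) (hφ : ∀ c, φ (algebraMap K A c) = stK ι U c) (z : opn ι U)
    (a : A) : (toBer φ hφ z).v a = absv U (φ a) z.1 := rfl

theorem toBer_continuous (φ : A →+* Γ(X, U)) (hφ : ∀ c, φ (algebraMap K A c) = stK ι U c) :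
    Continuous (toBer φ hφ) := by
  rw [Ber.continuous_iff]
  intro a
  exact (continuousOn_absv (ι := ι) U (φ a)).restrict

theorem absv_ne_zero_iff (h : Γ(X, U)) {z : An X ι} (hz : z.pt ∈ U) :
    absv U h z ≠ 0 ↔ z.pt ∈ X.basicOpen h := by
  rw [absv_of_mem _ hz, Scheme.mem_basicOpen _ _ _ hz, Ne, z.ker, not_not]

theorem absv_pow (f : Γ(X, U)) {z : An X ι} (hz : z.pt ∈ U) (n : ℕ) :
    absv U (f ^ n) z = absv U f z ^ n := by
  induction n with
  | zero => rw [pow_zero, pow_zero, absv_one hz]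
  | succ n ih => rw [pow_succ, pow_succ, absv_mul, ih]

/-- A function on an open subset is near a point of an affine `U^an` a quotient of functions on
`U`, in absolute value. -/
theorem exists_frac (hU : IsAffineOpen U) (V : X.Opens) (f : Γ(X, V)) {z : An X ι}
    (hz : z.pt ∈ U) (hV : z.pt ∈ V) : ∃ (g h : Γ(X, U)), absv U h z ≠ 0 ∧
      (∀ z' : An X ι, z'.pt ∈ U → absv U h z' ≠ 0 →
        z'.pt ∈ V ∧ absv V f z' = absv U g z' / absv U h z') := by
  obtain ⟨h₀, hle, hmem⟩ := hU.exists_basicOpen_le ⟨z.pt, hV⟩ hz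
  have hloc := hU.isLocalization_basicOpen h₀
  obtain ⟨n, a, ha⟩ := IsLocalization.Away.surj h₀
    (X.presheaf.map (homOfLE hle).op f : Γ(X, X.basicOpen h₀))
  have hne : absv U h₀ z ≠ 0 := (absv_ne_zero_iff h₀ hz).2 hmem
  refine ⟨a * h₀, h₀ ^ (n + 1), ?_, ?_⟩
  · rw [absv_pow _ hz]
    exact pow_ne_zero _ hne
  · intro z' hz' hh
    rw [absv_pow _ hz'] at hh
    have h1 : absv U h₀ z' ≠ 0 := fun h => hh (by rw [h, zero_pow (Nat.succ_ne_zero n)])
    have h2 : z'.pt ∈ X.basicOpen h₀ := (absv_ne_zero_iff h₀ hz').1 h1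
    refine ⟨hle h2, ?_⟩
    have e1 : absv (X.basicOpen h₀) (X.presheaf.map (homOfLE hle).op f) z' = absv V f z' :=
      absv_res hle f h2
    have e2 : ∀ b : Γ(X, U), absv (X.basicOpen h₀) (algebraMap Γ(X, U) Γ(X, X.basicOpen h₀) b) z'
        = absv U b z' := fun b => absv_res (X.basicOpen_le h₀) b h2
    have e3 := congrArg (fun b => absv (X.basicOpen h₀) b z') ha
    simp only [absv_mul, absv_pow _ h2, e1, e2] at e3
    rw [absv_mul, absv_pow _ hz', pow_succ, mul_div_mul_right _ _ h1,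
      eq_div_iff (pow_ne_zero _ h1)]
    exact e3

end An

end Pool.Agent.TD


end

section

/-! Block Y: multiplicative seminorms and localization (module TD_Y_LB). -/

namespace Pool.Agent.TD

/-- Multiplicative ultrametric seminorms. -/
structure MSN (A : Type) [CommRing A] where
  v : A → ℝ
  nonneg : ∀ a, 0 ≤ v a
  one : v 1 = 1
  mul : ∀ a b, v (a * b) = v a * v b
  add : ∀ a b, v (a + b) ≤ max (v a) (v b)

/-- A multiplicative seminorm extends to a localization if it does not vanish on the elements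
which are inverted. -/
theorem MSN.exists_loc {A B : Type} [CommRing A] [CommRing B] [Algebra A B] (M : Submonoid A)
    [IsLocalization M B] (v : MSN A) (h : ∀ m ∈ M, v.v m ≠ 0) :
    ∃ w : MSN B, ∀ a, w.v (algebraMap A B a) = v.v a := by
  obtain ⟨w, hw⟩ : ∃ w : B → ℝ, ∀ (a : A) (m : M), w (IsLocalization.mk' B a m) =
      v.v a / v.v m := by
    refine ⟨fun b => v.v (IsLocalization.sec M b).1 / v.v (IsLocalization.sec M b).2, ?_⟩
    intro a m
    have h1 := IsLocalization.mk'_sec (M := M) B (IsLocalization.mk' B a m)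
    rw [IsLocalization.eq] at h1
    obtain ⟨c, hc⟩ := h1
    have h2 := congrArg v.v hc
    rw [v.mul, v.mul, v.mul, v.mul] at h2
    have h3 := mul_left_cancel₀ (h c c.2) h2
    have h4 := h m m.2
    have h5 := h _ (IsLocalization.sec M (IsLocalization.mk' B a m)).2.2
    show v.v (IsLocalization.sec M (IsLocalization.mk' B a m)).1 /
      v.v (IsLocalization.sec M (IsLocalization.mk' B a m)).2 = v.v a / v.v m
    rw [div_eq_div_iff h5 h4]
    linarith
  have hs : ∀ b : B, ∃ (a : A) (m : M), b = IsLocalization.mk' B a m := by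
    intro b
    obtain ⟨a, m, hb⟩ := IsLocalization.exists_mk'_eq M b
    exact ⟨a, m, hb.symm⟩
  refine ⟨⟨w, ?_, ?_, ?_, ?_⟩, ?_⟩
  · intro b
    obtain ⟨a, m, rfl⟩ := hs b
    rw [hw]
    exact div_nonneg (v.nonneg _) (v.nonneg _)
  · have h1 := hw 1 1
    rw [IsLocalization.mk'_one, map_one, Submonoid.coe_one, v.one, div_one] at h1
    exact h1
  · intro b b'
    obtain ⟨a, m, rfl⟩ := hs b
    obtain ⟨a', m', rfl⟩ := hs b'
    rw [← IsLocalization.mk'_mul, hw, hw, hw, Submonoid.coe_mul, v.mul, v.mul, div_mul_div_comm]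
  · intro b b'
    obtain ⟨a, m, rfl⟩ := hs b
    obtain ⟨a', m', rfl⟩ := hs b'
    rw [← IsLocalization.mk'_add, hw, hw, hw, Submonoid.coe_mul, v.mul]
    have h1 : 0 < v.v m := lt_of_le_of_ne (v.nonneg _) (h m m.2).symm
    have h2 : 0 < v.v m' := lt_of_le_of_ne (v.nonneg _) (h m' m'.2).symm
    have h3 := v.add (a * m') (a' * m)
    rw [v.mul, v.mul] at h3
    have h4 : v.v a / v.v m = v.v a * v.v m' / (v.v m * v.v m') := by
      rw [mul_div_mul_right _ _ h2.ne']
    have h5 : v.v a' / v.v m' = v.v a' * v.v m / (v.v m * v.v m') := by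
      rw [mul_comm (v.v m), mul_div_mul_right _ _ h1.ne']
    rw [h4, h5, max_div_div_right (mul_pos h1 h2).le]
    exact div_le_div_of_nonneg_right h3 (mul_pos h1 h2).le
  · intro a
    show w (algebraMap A B a) = v.v a
    rw [← IsLocalization.mk'_one B a (M := M), hw, Submonoid.coe_one, v.one, div_one]

/-- The extension of a multiplicative seminorm to a localization is unique. -/
theorem MSN.loc_unique {A B : Type} [CommRing A] [CommRing B] [Algebra A B] (M : Submonoid A)
    [IsLocalization M B] (w w' : MSN B)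
    (h : ∀ a, w.v (algebraMap A B a) = w'.v (algebraMap A B a)) : ∀ b, w.v b = w'.v b := by
  intro b
  obtain ⟨a, m, rfl⟩ := IsLocalization.exists_mk'_eq M b
  have key : ∀ u : MSN B, u.v (IsLocalization.mk' B a m) * u.v (algebraMap A B m) =
      u.v (algebraMap A B a) := by
    intro u
    rw [← u.mul, IsLocalization.mk'_spec]
  have hne : ∀ u : MSN B, u.v (algebraMap A B m) ≠ 0 := by
    intro u h0
    obtain ⟨c, hc⟩ := (IsLocalization.map_units B m).exists_right_inv
    have h1 := u.one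
    rw [← hc, u.mul, h0, zero_mul] at h1
    exact zero_ne_one h1
  have h1 := key w
  have h2 := key w'
  rw [h a, ← h2, h m] at h1
  exact mul_right_cancel₀ (hne w') h1

end Pool.Agent.TD


end

section

/-! Block Y: the analytification of an affine open subset is the Berkovich spectrum of its ring
of functions (module TD_Y_CH2). -/

open scoped Topology
open AlgebraicGeometry CategoryTheory

namespace Pool.Agent.TD

variable {K : Type} [NormedField K] {X : Scheme.{0}} {ι : K →+* Γ(X, ⊤)} {U : X.Opens}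
  {A : Type} [CommRing A] [Algebra K A]

namespace An

/-- The seminorm of a point. -/
noncomputable def msn (z : An X ι) : MSN (X.presheaf.stalk z.pt) where
  v := z.v
  nonneg := z.nonneg
  one := z.one
  mul := z.mul
  add := z.add

theorem mem_primeIdealOf (hU : IsAffineOpen U) {x : X} (hx : x ∈ U) (f : Γ(X, U)) :
    f ∈ (hU.primeIdealOf ⟨x, hx⟩).asIdeal ↔ x ∉ X.basicOpen f := by
  have h1 := hU.fromSpec_preimage_basicOpen f
  have h2 := hU.fromSpec_primeIdealOf ⟨x, hx⟩
  have h3 : hU.primeIdealOf ⟨x, hx⟩ ∈ hU.fromSpec ⁻¹ᵁ X.basicOpen f ↔ x ∈ X.basicOpen f := by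
    show hU.fromSpec (hU.primeIdealOf ⟨x, hx⟩) ∈ X.basicOpen f ↔ _
    rw [h2]
  rw [← h3, h1]
  exact not_not.symm

theorem eq_of_v {z z' : An X ι} (h : z.pt = z'.pt)
    (hv : ∀ (V : X.Opens) (f : Γ(X, V)), absv V f z = absv V f z') : z = z' := by
  obtain ⟨x, v, h1, h2, h3, h4, h5, h6⟩ := z
  obtain ⟨x', v', h1', h2', h3', h4', h5', h6'⟩ := z'
  obtain rfl : x = x' := h
  have : v = v' := by
    funext a
    obtain ⟨V, hV, f, rfl⟩ := TopCat.Presheaf.germ_exist X.presheaf a
    have h := hv V f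
    rw [absv_of_mem _ hV, absv_of_mem _ hV] at h
    exact h
  subst this
  rfl

theorem ext_absv (hU : IsAffineOpen U) {z z' : An X ι} (hz : z.pt ∈ U) (hz' : z'.pt ∈ U)
    (h : ∀ f : Γ(X, U), absv U f z = absv U f z') : z = z' := by
  have hpt : z.pt = z'.pt := by
    have h1 : hU.primeIdealOf ⟨z.pt, hz⟩ = hU.primeIdealOf ⟨z'.pt, hz'⟩ := by
      apply PrimeSpectrum.ext
      ext f
      rw [mem_primeIdealOf hU hz, mem_primeIdealOf hU hz', ← absv_ne_zero_iff f hz,
        ← absv_ne_zero_iff f hz', h f]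
    have h2 := hU.fromSpec_primeIdealOf ⟨z.pt, hz⟩
    rw [h1, hU.fromSpec_primeIdealOf ⟨z'.pt, hz'⟩] at h2
    exact h2.symm
  refine eq_of_v hpt fun V f => ?_
  by_cases hV : z.pt ∈ V
  · obtain ⟨g, h', hne, hfr⟩ := exists_frac hU V f hz hV
    rw [(hfr z hz hne).2, (hfr z' hz' (by rwa [← h h'])).2, h, h]
  · have hV' : z'.pt ∉ V := by rwa [← hpt]
    unfold absv
    rw [dif_neg hV, dif_neg hV']

/-- Every seminorm on `Γ(X, U)` comes from exactly one point of `U^an`, `U` affine. -/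
theorem toBer_bijective (hU : IsAffineOpen U) (φ : A ≃+* Γ(X, U))
    (hφ : ∀ c, φ (algebraMap K A c) = stK ι U c) :
    Function.Bijective (toBer (ι := ι) φ.toRingHom hφ) := by
  constructor
  · intro z z' h
    apply Subtype.ext
    refine ext_absv hU z.2 z'.2 fun f => ?_
    have h1 := congrArg (fun y : Ber K A => y.v (φ.symm f)) h
    have h2 : absv U (φ.toRingHom (φ.symm f)) z.1 = absv U (φ.toRingHom (φ.symm f)) z'.1 := h1
    have h3 : φ.toRingHom (φ.symm f) = f := φ.apply_symm_apply f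
    rwa [h3] at h2
  · intro y
    -- the prime ideal
    let P : Ideal Γ(X, U) :=
      { carrier := {f | y.v (φ.symm f) = 0}
        zero_mem' := by
          show y.v (φ.symm 0) = 0
          rw [map_zero, y.zero]
        add_mem' := by
          intro f g hf hg
          have hf' : y.v (φ.symm f) = 0 := hf
          have hg' : y.v (φ.symm g) = 0 := hg
          show y.v (φ.symm (f + g)) = 0
          rw [map_add]
          refine le_antisymm ((y.add _ _).trans ?_) (y.nonneg _)
          rw [hf', hg', max_self]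
        smul_mem' := by
          intro c f hf
          have hf' : y.v (φ.symm f) = 0 := hf
          show y.v (φ.symm (c * f)) = 0
          rw [map_mul, y.mul, hf', mul_zero] }
    have hP : P.IsPrime := by
      refine ⟨?_, ?_⟩
      · intro h
        have h1 : (1 : Γ(X, U)) ∈ P := by rw [h]; trivial
        have h2 : y.v (φ.symm 1) = 0 := h1
        rw [map_one, y.one] at h2
        exact one_ne_zero h2
      · intro f g h
        have h2 : y.v (φ.symm (f * g)) = 0 := h
        rw [map_mul, y.mul] at h2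
        exact mul_eq_zero.1 h2
    let p : PrimeSpectrum Γ(X, U) := ⟨P, hP⟩
    have hx : hU.fromSpec p ∈ U := by
      have h1 : hU.fromSpec p ∈ Set.range hU.fromSpec := ⟨p, rfl⟩
      rw [hU.range_fromSpec] at h1
      exact h1
    let := TopCat.Presheaf.algebra_section_stalk X.presheaf
      (⟨hU.fromSpec p, hx⟩ : (U : TopologicalSpace.Opens X))
    have hloc : IsLocalization P.primeCompl (X.presheaf.stalk (hU.fromSpec p)) :=
      hU.isLocalization_stalk' p hx
    let v' : MSN Γ(X, U) :=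
      { v := fun f => y.v (φ.symm f)
        nonneg := fun f => y.nonneg _
        one := by rw [map_one, y.one]
        mul := fun f g => by rw [map_mul, y.mul]
        add := fun f g => by rw [map_add]; exact y.add _ _ }
    obtain ⟨w, hw⟩ := MSN.exists_loc P.primeCompl (B := X.presheaf.stalk (hU.fromSpec p)) v'
      (fun m hm => hm)
    have hw' : ∀ f : Γ(X, U), w.v (X.presheaf.germ U (hU.fromSpec p) hx f) = y.v (φ.symm f) :=
      hw
    let z : An X ι :=
      { pt := hU.fromSpec p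
        v := w.v
        nonneg := w.nonneg
        one := w.one
        mul := w.mul
        add := w.add
        ext := by
          intro c
          have h1 : X.presheaf.germ ⊤ (hU.fromSpec p) trivial (ι c) =
              X.presheaf.germ U (hU.fromSpec p) hx (stK ι U c) :=
            (TopCat.Presheaf.germ_res_apply X.presheaf (homOfLE (le_top : U ≤ ⊤)) _ hx
              (ι c)).symm
          show w.v (X.presheaf.germ ⊤ (hU.fromSpec p) trivial (ι c)) = _
          rw [h1, hw', ← hφ, φ.symm_apply_apply, y.ext]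
        ker := by
          intro a
          obtain ⟨f, s, rfl⟩ := IsLocalization.exists_mk'_eq P.primeCompl a
          have h1 : w.v (IsLocalization.mk' _ f s) * y.v (φ.symm s.1) = y.v (φ.symm f) := by
            rw [← hw' s.1, ← hw' f]
            have h2 := w.mul (IsLocalization.mk' (X.presheaf.stalk (hU.fromSpec p)) f s)
              (algebraMap _ _ s.1)
            rw [IsLocalization.mk'_spec] at h2
            exact h2.symm
          rw [IsLocalization.AtPrime.isUnit_mk'_iff (X.presheaf.stalk (hU.fromSpec p)) P f s]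
          constructor
          · intro h h2
            rw [h, zero_mul] at h1
            exact h2 h1.symm
          · intro h
            have h3 : y.v (φ.symm f) = 0 := by
              by_contra h4
              exact h h4
            rw [h3] at h1
            exact (mul_eq_zero.1 h1).resolve_right s.2 }
    refine ⟨⟨z, hx⟩, ?_⟩
    apply Ber.ext_v
    intro a
    show absv U (φ a) z = y.v a
    rw [absv_of_mem _ hx]
    have h1 := hw' (φ a)
    rw [φ.symm_apply_apply] at h1
    exact h1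

theorem toBer_homeo (hU : IsAffineOpen U) (φ : A ≃+* Γ(X, U))
    (hφ : ∀ c, φ (algebraMap K A c) = stK ι U c) :
    IsHomeomorph (toBer (ι := ι) φ.toRingHom hφ) := by
  have hb := toBer_bijective (ι := ι) hU φ hφ
  have hc := toBer_continuous (ι := ι) φ.toRingHom hφ
  have hind : Topology.IsInducing (toBer (ι := ι) φ.toRingHom hφ) := by
    refine ⟨le_antisymm hc.le_induced ?_⟩
    have e1 : (instTopologicalSpaceSubtype : TopologicalSpace (opn ι U)) =
      TopologicalSpace.generateFrom _ := induced_generateFrom_eq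
    rw [e1]
    refine le_generateFrom ?_
    rintro _ ⟨_, ⟨V, f, W, hW, rfl⟩, rfl⟩
    have hv : ∀ (g : Γ(X, U)) (z : opn ι U),
        (toBer (ι := ι) φ.toRingHom hφ z).v (φ.symm g) = absv U g z.1 := by
      intro g z
      show absv U (φ (φ.symm g)) z.1 = _
      rw [φ.apply_symm_apply]
    let Q : Γ(X, U) × Γ(X, U) → Prop := fun gh => ∀ z' : An X ι, z'.pt ∈ U →
      absv U gh.2 z' ≠ 0 → z'.pt ∈ V ∧ absv V f z' = absv U gh.1 z' / absv U gh.2 z'
    refine isOpen_induced_iff.2 ⟨⋃ gh : {gh : Γ(X, U) × Γ(X, U) // Q gh},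
      {b : Ber K A | b.v (φ.symm gh.1.2) ≠ 0 ∧
        b.v (φ.symm gh.1.1) / b.v (φ.symm gh.1.2) ∈ W}, ?_, ?_⟩
    · refine isOpen_iUnion fun gh => ?_
      rw [isOpen_iff_mem_nhds]
      rintro b ⟨hb1, hb2⟩
      have h1 : ContinuousAt (fun b : Ber K A => b.v (φ.symm gh.1.1) / b.v (φ.symm gh.1.2)) b :=
        (Ber.continuous_v _).continuousAt.div (Ber.continuous_v _).continuousAt hb1
      have h2 : ∀ᶠ b : Ber K A in 𝓝 b, b.v (φ.symm gh.1.2) ≠ 0 :=
        (Ber.continuous_v _).continuousAt.eventually_ne hb1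
      exact h2.and (h1.eventually_mem (hW.mem_nhds hb2))
    · ext z
      simp only [Set.preimage_iUnion, Set.mem_iUnion, Set.mem_preimage]
      constructor
      · rintro ⟨gh, h1, h2⟩
        rw [hv] at h1
        rw [hv, hv] at h2
        obtain ⟨h3, h4⟩ := gh.2 z.1 z.2 h1
        refine ⟨h3, ?_⟩
        rw [h4]
        exact h2
      · rintro ⟨h1, h2⟩
        obtain ⟨g, h, hne, hfr⟩ := exists_frac hU V f z.2 h1
        refine ⟨⟨(g, h), hfr⟩, ?_, ?_⟩
        · rw [hv]
          exact hne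
        · rw [hv, hv, ← (hfr z.1 z.2 hne).2]
          exact h2
  exact (isHomeomorph_iff_isEmbedding_surjective).2 ⟨⟨hind, hb.1⟩, hb.2⟩

end An

end Pool.Agent.TD


end

section

/-! Block Y: the topology of the analytification of a toric variety (module TD_Y_AnTop). -/

open scoped Topology
open AlgebraicGeometry CategoryTheory

namespace Pool.Agent.TD

namespace Toric

variable {K : Type} [NormedField K] {n : ℕ} {F : Fan n} {Y : Scheme.{0}} {ι : K →+* Γ(Y, ⊤)}
  (T : Toric F Y ι)

/-- The chart `U_σ^an → M(K[S_σ])`. -/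
noncomputable def chart (σ : F.cones) :
    An.opn ι (T.U σ) → Ber K (AddMonoidAlgebra K (dualM σ.1)) :=
  An.toBer (T.ringIso σ).toRingHom (by
    intro c
    show T.evHom σ (algebraMap K _ c) = _
    have e : algebraMap K (AddMonoidAlgebra K (dualM σ.1)) c = AddMonoidAlgebra.single 0 c := rfl
    rw [e, evHom_single, T.chi_zero, mul_one])

theorem chart_homeo (σ : F.cones) : IsHomeomorph (T.chart σ) :=
  An.toBer_homeo (T.affine σ) (T.ringIso σ) _

theorem finiteType (σ : F.cones) : Algebra.FiniteType K (AddMonoidAlgebra K (dualM σ.1)) := by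
  have h : AddMonoid.FG (dualM σ.1) :=
    (AddMonoid.fg_iff_addSubmonoid_fg _).2 (gordan (F.rat σ.1 σ.2))
  exact AddMonoidAlgebra.finiteType_of_fg K _

theorem chart_single (σ : F.cones) (z : An.opn ι (T.U σ)) (m : dualM σ.1) :
    (T.chart σ z).v (AddMonoidAlgebra.single m 1) = TropPt.absv m.1 (T.trop z.1) := by
  show An.absv (T.U σ) (T.evHom σ (AddMonoidAlgebra.single m 1)) z.1 = _
  rw [evHom_single, map_one, one_mul]
  exact (T.absv_trop z.2 m).symm

/-- The characters which generate the ring of the chart. -/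
theorem adjoin_gens (σ : F.cones) : ∃ G : Finset (AddMonoidAlgebra K (dualM σ.1)),
    Algebra.adjoin K (G : Set (AddMonoidAlgebra K (dualM σ.1))) = ⊤ ∧
    ∀ x, x ∈ G ↔ ∃ (g : Fin n → ℤ) (hg : g ∈ gens F σ),
      x = AddMonoidAlgebra.single (⟨g, gens_mem hg⟩ : dualM σ.1) 1 := by
  classical
  refine ⟨(gens F σ).attach.image fun g =>
    AddMonoidAlgebra.single (⟨g.1, gens_mem g.2⟩ : dualM σ.1) 1, ?_, ?_⟩
  · set G : Finset (AddMonoidAlgebra K (dualM σ.1)) := (gens F σ).attach.image fun g =>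
      AddMonoidAlgebra.single (⟨g.1, gens_mem g.2⟩ : dualM σ.1) 1 with hG
    have h2 : ∀ m ∈ AddSubmonoid.closure (gens F σ : Set (Fin n → ℤ)), ∃ h : m ∈ dualM σ.1,
        (AddMonoidAlgebra.single (⟨m, h⟩ : dualM σ.1) 1 : AddMonoidAlgebra K (dualM σ.1)) ∈
          Algebra.adjoin K (G : Set (AddMonoidAlgebra K (dualM σ.1))) := by
      intro m hm'
      induction hm' using AddSubmonoid.closure_induction with
      | mem x hx =>
        refine ⟨gens_mem hx, Algebra.subset_adjoin ?_⟩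
        rw [hG, Finset.mem_coe, Finset.mem_image]
        exact ⟨⟨x, hx⟩, Finset.mem_attach _ _, rfl⟩
      | zero => exact ⟨(dualM σ.1).zero_mem, Subalgebra.one_mem _⟩
      | add x y _ _ hx hy =>
        obtain ⟨hx', hx2⟩ := hx
        obtain ⟨hy', hy2⟩ := hy
        refine ⟨(dualM σ.1).add_mem hx' hy', ?_⟩
        have h3 := Subalgebra.mul_mem _ hx2 hy2
        rw [AddMonoidAlgebra.single_mul_single, one_mul] at h3
        exact h3
    have h1 : ∀ (m : Fin n → ℤ) (hm : m ∈ dualM σ.1),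
        (AddMonoidAlgebra.single (⟨m, hm⟩ : dualM σ.1) 1 : AddMonoidAlgebra K (dualM σ.1)) ∈
          Algebra.adjoin K (G : Set (AddMonoidAlgebra K (dualM σ.1))) := by
      intro m hm
      have hm' : m ∈ AddSubmonoid.closure (gens F σ : Set (Fin n → ℤ)) := by
        rw [closure_gens]; exact hm
      exact (h2 m hm').2
    rw [eq_top_iff]
    rintro x -
    induction x using AddMonoidAlgebra.induction_on with
    | of m => exact h1 m.1 m.2
    | add x y hx hy => exact Subalgebra.add_mem _ hx hy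
    | smul c x hx => exact Subalgebra.smul_mem _ hx c
  · intro x
    rw [Finset.mem_image]
    constructor
    · rintro ⟨g, -, rfl⟩
      exact ⟨g.1, g.2, rfl⟩
    · rintro ⟨g, hg, rfl⟩
      exact ⟨⟨g, hg⟩, Finset.mem_attach _ _, rfl⟩

variable [IsUltrametricDist K]

/-- The preimage of a box is compact. -/
theorem isCompact_preimage_boxT (σ : F.cones) (R : ℝ) : IsCompact (T.trop ⁻¹' boxT σ R) := by
  obtain ⟨G, hG, hG2⟩ := adjoin_gens (K := K) (F := F) σ
  have h1 := ber_compact G hG R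
  have h2 : IsCompact (T.chart σ ⁻¹'
      {z : Ber K (AddMonoidAlgebra K (dualM σ.1)) | ∀ g ∈ G, z.v g ≤ R}) :=
    ((T.chart_homeo σ).homeomorph).isCompact_preimage.2 h1
  have h3 := h2.image (continuous_subtype_val (p := fun z => z ∈ An.opn ι (T.U σ)))
  convert h3 using 1
  ext z
  constructor
  · rintro ⟨hz1, hz2⟩
    have hz : z.pt ∈ T.U σ := T.trop_mem_opn.1 hz1
    refine ⟨⟨z, hz⟩, ?_, rfl⟩
    intro g hg
    obtain ⟨g', hg', rfl⟩ := (hG2 g).1 hg
    rw [T.chart_single]
    exact hz2 g' hg'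
  · rintro ⟨⟨z, hz⟩, h, rfl⟩
    refine ⟨T.trop_mem_opn.2 hz, ?_⟩
    intro g hg
    have h4 := h _ ((hG2 _).2 ⟨g, hg, rfl⟩)
    rw [T.chart_single] at h4
    exact h4

/-- The tropicalization map is proper. -/
theorem isCompact_preimage {C : Set (TropPt F)} (hC : IsCompact C) :
    IsCompact (T.trop ⁻¹' C) := by
  obtain ⟨R, hR⟩ := compact_sub_box hC
  have h1 : IsCompact (⋃ σ : F.cones, T.trop ⁻¹' boxT σ R) :=
    isCompact_iUnion fun σ => T.isCompact_preimage_boxT σ R
  refine h1.of_isClosed_subset (hC.isClosed.preimage T.continuous_trop) ?_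
  rw [← Set.preimage_iUnion]
  exact Set.preimage_mono hR

include T

/-- Two points with the same tropicalization are in one chart; otherwise separate them in
`Trop(Y)`. -/
theorem t2 : T2Space (An Y ι) := by
  refine ⟨fun z z' hzz => ?_⟩
  by_cases ht : T.trop z = T.trop z'
  · have hz : z.pt ∈ T.U (T.trop z).cone := T.mem_minCone z.pt
    have hz' : z'.pt ∈ T.U (T.trop z).cone := by
      rw [ht]
      exact T.mem_minCone z'.pt
    set σ := (T.trop z).cone
    have hne : T.chart σ ⟨z, hz⟩ ≠ T.chart σ ⟨z', hz'⟩ := fun h =>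
      hzz (congrArg Subtype.val ((T.chart_homeo σ).injective h))
    obtain ⟨A, B, hA, hB, hzA, hzB, hAB⟩ := t2_separation hne
    have hop : IsOpen (An.opn ι (T.U σ)) := An.isOpen_opn (T.U σ)
    refine ⟨Subtype.val '' (T.chart σ ⁻¹' A), Subtype.val '' (T.chart σ ⁻¹' B),
      hop.isOpenMap_subtype_val _ (hA.preimage (T.chart_homeo σ).continuous),
      hop.isOpenMap_subtype_val _ (hB.preimage (T.chart_homeo σ).continuous),
      ⟨⟨z, hz⟩, hzA, rfl⟩, ⟨⟨z', hz'⟩, hzB, rfl⟩, ?_⟩
    exact Set.disjoint_image_of_injective Subtype.val_injective (hAB.preimage _)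
  · obtain ⟨A, B, hA, hB, hzA, hzB, hAB⟩ := t2_separation ht
    exact ⟨T.trop ⁻¹' A, T.trop ⁻¹' B, hA.preimage T.continuous_trop,
      hB.preimage T.continuous_trop, hzA, hzB, hAB.preimage _⟩

theorem locallyCompact : LocallyCompactSpace (An Y ι) := by
  have ht2 : T2Space (An Y ι) := T.t2
  have hw : WeaklyLocallyCompactSpace (An Y ι) := by
    refine ⟨fun z => ?_⟩
    have hz : z.pt ∈ T.U (T.minCone z.pt) := T.mem_minCone z.pt
    set σ := T.minCone z.pt
    have hlc : LocallyCompactSpace (Ber K (AddMonoidAlgebra K (dualM σ.1))) :=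
      ber_locallyCompact (finiteType σ)
    obtain ⟨s, hs, hsn⟩ := exists_compact_mem_nhds (T.chart σ ⟨z, hz⟩)
    have hop : IsOpen (An.opn ι (T.U σ)) := An.isOpen_opn (T.U σ)
    have h1 : IsCompact (T.chart σ ⁻¹' s) :=
      ((T.chart_homeo σ).homeomorph).isCompact_preimage.2 hs
    have h2 : T.chart σ ⁻¹' s ∈ 𝓝 (⟨z, hz⟩ : An.opn ι (T.U σ)) :=
      (T.chart_homeo σ).continuous.continuousAt hsn
    exact ⟨Subtype.val '' (T.chart σ ⁻¹' s), h1.image continuous_subtype_val,
      hop.isOpenMap_subtype_val.image_mem_nhds h2⟩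
  infer_instance

end Toric

end Pool.Agent.TD


end

section

/-! Block Y: local structure of the tropical toric variety (module TD_Y_TropLoc). -/

open scoped ContDiff Topology

namespace Pool.Agent.TD

variable {n : ℕ} {F : Fan n}

namespace TropLoc

theorem mem_opn_self (b : TropPt F) : b ∈ TropPt.opn b.cone := Set.Subset.refl _

theorem absv_perp {m : Fin n → ℤ} {b : TropPt F} (h : m ∈ perpM b.cone.1) :
    TropPt.absv m b = Real.exp (b.val ⟨m, h⟩) := by
  unfold TropPt.absv
  rw [dif_pos h]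

theorem absv_not {m : Fin n → ℤ} {b : TropPt F} (h : m ∉ perpM b.cone.1) :
    TropPt.absv m b = 0 := by
  unfold TropPt.absv
  rw [dif_neg h]

theorem absv_nonneg (m : Fin n → ℤ) (b : TropPt F) : 0 ≤ TropPt.absv m b := by
  unfold TropPt.absv
  split_ifs
  · exact (Real.exp_pos _).le
  · exact le_rfl

theorem lf_perp {m : Fin n → ℤ} {b : TropPt F} (h : m ∈ perpM b.cone.1) :
    (tropLS F).lf m b = b.val ⟨m, h⟩ := by
  show Real.log (TropPt.absv m b) = _
  rw [absv_perp h, Real.log_exp]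

/-- The characters of `S_σ` are continuous at `b`, `σ` the cone of `b`. -/
theorem continuousAt_absv (b : TropPt F) {m : Fin n → ℤ} (hm : m ∈ dualM b.cone.1) :
    ContinuousAt (fun b' : TropPt F => TropPt.absv m b') b :=
  (TropPt.continuousOn_absv b.cone ⟨m, hm⟩).continuousAt
    ((TropPt.isOpen_opn b.cone).mem_nhds (mem_opn_self b))

theorem continuousAt_lf (b : TropPt F) {m : Fin n → ℤ} (hm : m ∈ perpM b.cone.1) :
    ContinuousAt (fun b' : TropPt F => (tropLS F).lf m b') b :=
  ((tropLS F).cont m).continuousAt (((tropLS F).isOpen_dom m).mem_nhds hm)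

/-- The map to the values of the generators. -/
noncomputable def Th (b : TropPt F) (b' : TropPt F) : gens F b.cone → ℝ :=
  fun g => TropPt.absv g.1 b'

theorem tendsto_absv (b : TropPt F) {m : Fin n → ℤ} (hm : m ∈ dualM b.cone.1) :
    Filter.Tendsto (fun b' : TropPt F => TropPt.absv m b')
      (Filter.principal (TropPt.opn b.cone) ⊓ Filter.comap (Th b) (𝓝 (Th b b)))
      (𝓝 (TropPt.absv m b)) := by
  rw [← closure_gens F b.cone] at hm
  have hsub : ∀ x ∈ AddSubmonoid.closure (gens F b.cone : Set (Fin n → ℤ)), x ∈ dualM b.cone.1 :=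
    fun x hx => by rwa [closure_gens F b.cone] at hx
  induction hm using AddSubmonoid.closure_induction with
  | mem g hg =>
    have h1 : Filter.Tendsto (Th b) (Filter.principal (TropPt.opn b.cone) ⊓
        Filter.comap (Th b) (𝓝 (Th b b))) (𝓝 (Th b b)) :=
      Filter.tendsto_comap.mono_left inf_le_right
    exact (tendsto_pi_nhds.1 h1) ⟨g, hg⟩
  | zero =>
    simp only [TropPt.absv_zero]
    exact tendsto_const_nhds
  | add x y hx hy ihx ihy =>
    have e : TropPt.absv (x + y) b = TropPt.absv x b * TropPt.absv y b :=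
      TropPt.absv_add (mem_opn_self b) (hsub x hx) (hsub y hy)
    rw [e]
    refine (ihx.mul ihy).congr' ?_
    have h2 : ∀ᶠ b' in Filter.principal (TropPt.opn b.cone) ⊓
        Filter.comap (Th b) (𝓝 (Th b b)), b' ∈ TropPt.opn b.cone :=
      Filter.mem_inf_of_left (Filter.mem_principal_self _)
    refine h2.mono fun b' hb' => ?_
    exact (TropPt.absv_add hb' (hsub x hx) (hsub y hy)).symm

theorem le_nhds (b : TropPt F) :
    Filter.principal (TropPt.opn b.cone) ⊓ Filter.comap (Th b) (𝓝 (Th b b)) ≤ 𝓝 b := by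
  rw [TopologicalSpace.nhds_generateFrom]
  refine le_iInf₂ fun s hs => ?_
  obtain ⟨hbs, τ, m, W, hW, rfl⟩ := hs
  rw [Filter.le_principal_iff]
  have hτ : b.cone.1 ⊆ τ.1 := hbs.1
  have hm : m.1 ∈ dualM b.cone.1 := fun x hx => m.2 x (hτ hx)
  have h1 := tendsto_absv b hm (hW.mem_nhds hbs.2)
  have h2 : ∀ᶠ b' in Filter.principal (TropPt.opn b.cone) ⊓
      Filter.comap (Th b) (𝓝 (Th b b)), b' ∈ TropPt.opn b.cone :=
    Filter.mem_inf_of_left (Filter.mem_principal_self _)
  filter_upwards [h1, h2] with b' h3 h4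
  exact ⟨Set.Subset.trans h4 hτ, h3⟩

/-- The basic neighbourhoods. -/
def Vn (b : TropPt F) (ε : ℝ) : Set (TropPt F) :=
  {b' | b' ∈ TropPt.opn b.cone ∧
    (∀ g ∈ gens F b.cone, g ∈ perpM b.cone.1 →
      |(tropLS F).lf g b' - (tropLS F).lf g b| < ε) ∧
    ∀ g ∈ gens F b.cone, g ∉ perpM b.cone.1 → TropPt.absv g b' < ε}

theorem Vn_mem (b : TropPt F) {ε : ℝ} (hε : 0 < ε) : Vn b ε ∈ 𝓝 b := by
  have h1 : ∀ᶠ b' in 𝓝 b, b' ∈ TropPt.opn b.cone :=
    (TropPt.isOpen_opn b.cone).mem_nhds (mem_opn_self b)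
  have h2 : ∀ᶠ b' in 𝓝 b, ∀ g ∈ gens F b.cone, g ∈ perpM b.cone.1 →
      |(tropLS F).lf g b' - (tropLS F).lf g b| < ε := by
    rw [Filter.eventually_all_finset]
    intro g _
    by_cases hg : g ∈ perpM b.cone.1
    · have h3 := Metric.tendsto_nhds.1 (continuousAt_lf b hg).tendsto ε hε
      exact h3.mono fun b' hb' _ => by rwa [Real.dist_eq] at hb'
    · exact Filter.Eventually.of_forall fun b' h => absurd h hg
  have h3 : ∀ᶠ b' in 𝓝 b, ∀ g ∈ gens F b.cone, g ∉ perpM b.cone.1 → TropPt.absv g b' < ε := by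
    rw [Filter.eventually_all_finset]
    intro g hgm
    by_cases hg : g ∈ perpM b.cone.1
    · exact Filter.Eventually.of_forall fun b' h => absurd hg h
    · have h4 := (continuousAt_absv b (gens_mem hgm)).tendsto
      rw [absv_not hg] at h4
      exact (h4.eventually (gt_mem_nhds hε)).mono fun b' hb' _ => hb'
  filter_upwards [h1, h2, h3] with b' k1 k2 k3
  exact ⟨k1, k2, k3⟩

theorem exists_Vn (b : TropPt F) {V : Set (TropPt F)} (hV : V ∈ 𝓝 b) :
    ∃ ε > 0, Vn b ε ⊆ V := by
  have h1 := le_nhds b hV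
  rw [inf_comm, Filter.mem_inf_principal, (Metric.nhds_basis_ball.comap _).mem_iff] at h1
  obtain ⟨δ, hδ, h1⟩ := h1
  have h2 : ∀ᶠ ε in 𝓝[>] (0 : ℝ), ∀ g ∈ gens F b.cone, ∀ x : ℝ,
      |x - (tropLS F).lf g b| < ε → |Real.exp x - Real.exp ((tropLS F).lf g b)| < δ := by
    rw [Filter.eventually_all_finset]
    intro g _
    obtain ⟨η, hη, h3⟩ := Metric.continuousAt_iff.1
      (Real.continuous_exp.continuousAt (x := (tropLS F).lf g b)) δ hδ
    refine Filter.mem_of_superset (Ioo_mem_nhdsGT hη) ?_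
    intro ε hε x hx
    have h4 := h3 (x := x) (by rw [Real.dist_eq]; exact hx.trans hε.2)
    rwa [Real.dist_eq] at h4
  have h5 : ∀ᶠ ε in 𝓝[>] (0 : ℝ), ε ∈ Set.Ioo 0 δ := Ioo_mem_nhdsGT hδ
  obtain ⟨ε, h2, h5⟩ := (h2.and h5).exists
  refine ⟨ε, h5.1, fun b' hb' => ?_⟩
  refine h1 ?_ hb'.1
  show Th b b' ∈ Metric.ball (Th b b) δ
  rw [Metric.mem_ball, dist_pi_lt_iff hδ]
  rintro ⟨g, hg⟩
  show dist (TropPt.absv g b') (TropPt.absv g b) < δ
  rw [Real.dist_eq]
  by_cases hp : g ∈ perpM b.cone.1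
  · have h6 := h2 g hg ((tropLS F).lf g b') (hb'.2.1 g hg hp)
    have hp' : g ∈ perpM b'.cone.1 := TropPt.perp_sub hb'.1 hp
    rw [lf_perp hp, lf_perp hp'] at h6
    rw [absv_perp hp, absv_perp hp']
    exact h6
  · rw [absv_not hp, sub_zero, abs_of_nonneg (absv_nonneg _ _)]
    exact (hb'.2.2 g hg hp).trans h5.2

/-- The point of the stratum of `σ` given by a homomorphism. -/
def pt (b : TropPt F) (h : perpM b.cone.1 →+ ℝ) : TropPt F := ⟨b.cone, h⟩

theorem lf_pt (b : TropPt F) (h : perpM b.cone.1 →+ ℝ) {m : Fin n → ℤ}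
    (hm : m ∈ perpM b.cone.1) : (tropLS F).lf m (pt b h) = h ⟨m, hm⟩ :=
  lf_perp (b := pt b h) hm

theorem pt_mem {b : TropPt F} {h : perpM b.cone.1 →+ ℝ} {ε : ℝ} (hε : 0 < ε)
    (hh : ∀ g ∈ gens F b.cone, ∀ hg : g ∈ perpM b.cone.1, |h ⟨g, hg⟩ - b.val ⟨g, hg⟩| < ε) :
    pt b h ∈ Vn b ε := by
  refine ⟨Set.Subset.refl _, fun g hg hp => ?_, fun g hg hp => ?_⟩
  · rw [lf_pt b h hp, lf_perp hp]
    exact hh g hg hp
  · rw [absv_not (b := pt b h) hp]
    exact hε

/-- The restriction of the homomorphism of a point near `b` to `σ^⊥`. -/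
def rest {b b' : TropPt F} (h : b' ∈ TropPt.opn b.cone) : perpM b.cone.1 →+ ℝ :=
  b'.val.comp (AddSubgroup.inclusion (fun _ hm => TropPt.perp_sub h hm))

theorem rest_apply {b b' : TropPt F} (h : b' ∈ TropPt.opn b.cone) {m : Fin n → ℤ}
    (hm : m ∈ perpM b.cone.1) : rest h ⟨m, hm⟩ = (tropLS F).lf m b' :=
  (lf_perp (TropPt.perp_sub h hm)).symm

theorem Vn_convex (b : TropPt F) {ε : ℝ} (hε : 0 < ε) (u : Finset (Fin n → ℤ))
    (hu : ∀ m ∈ u, m ∈ perpM b.cone.1) : Convex ℝ ((tropLS F).trop u '' Vn b ε) := by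
  rintro _ ⟨b1, h1, rfl⟩ _ ⟨b2, h2, rfl⟩ s t hs ht hst
  set h : perpM b.cone.1 →+ ℝ :=
    (AddMonoidHom.mulLeft s).comp (rest h1.1) + (AddMonoidHom.mulLeft t).comp (rest h2.1) with hh
  have hv : ∀ (m : Fin n → ℤ) (hm : m ∈ perpM b.cone.1),
      h ⟨m, hm⟩ = s * (tropLS F).lf m b1 + t * (tropLS F).lf m b2 := by
    intro m hm
    rw [← rest_apply h1.1 hm, ← rest_apply h2.1 hm]
    rfl
  refine ⟨pt b h, pt_mem hε fun g hg hp => ?_, ?_⟩
  · rw [hv g hp, ← lf_perp hp]
    have k1 := h1.2.1 g hg hp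
    have k2 := h2.2.1 g hg hp
    rw [abs_lt] at k1 k2 ⊢
    have e : t = 1 - s := by linarith
    subst e
    rcases hs.eq_or_lt with rfl | hs'
    · constructor <;> linarith
    · constructor <;> nlinarith
  · funext m
    show (tropLS F).lf m.1 (pt b h) = s * (tropLS F).lf m.1 b1 + t * (tropLS F).lf m.1 b2
    rw [lf_pt b h (hu m.1 m.2), hv]

/-- The homomorphism with given values on a basis. -/
theorem exists_hom {σ : Set (Fin n → ℝ)} {r : ℕ} (e : Fin r → Fin n → ℤ)
    (hb : ∀ m ∈ perpM σ, ∃! a : Fin r → ℤ, m = ∑ i, a i • e i) :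
    ∃ c : perpM σ → Fin r → ℤ, (∀ m, m.1 = ∑ i, c m i • e i) ∧
      ∀ x : Fin r → ℝ, ∃ h : perpM σ →+ ℝ, ∀ m, h m = ∑ i, (c m i : ℝ) * x i := by
  have hb' : ∀ m : perpM σ, ∃ a : Fin r → ℤ, m.1 = ∑ i, a i • e i :=
    fun m => (hb m.1 m.2).exists
  choose c hc using hb'
  have hu : ∀ (m : perpM σ) (a : Fin r → ℤ), m.1 = ∑ i, a i • e i → c m = a :=
    fun m a ha => (hb m.1 m.2).unique (hc m) ha
  refine ⟨c, hc, fun x => ⟨AddMonoidHom.mk' (fun m => ∑ i, (c m i : ℝ) * x i) ?_, fun m => rfl⟩⟩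
  intro m m'
  have h1 : c (m + m') = c m + c m' := hu _ _ (by
    rw [AddSubgroup.coe_add, hc m, hc m', ← Finset.sum_add_distrib]
    exact Finset.sum_congr rfl fun i _ => (add_smul _ _ _).symm)
  simp only [h1, Pi.add_apply, Int.cast_add, add_mul, Finset.sum_add_distrib]

end TropLoc

open TropLoc

/-- The values of the characters of `σ^⊥`, `σ` the cone of `b`, on a small neighbourhood of `b`:
every neighbourhood of `b` contains a neighbourhood whose image under any finite set of characters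
of `σ^⊥` is convex (the image of a small ball of the stratum of `b`). -/
theorem nhds_convex (b : TropPt F) {V : Set (TropPt F)} (hV : V ∈ 𝓝 b) : ∃ V' ∈ 𝓝 b, V' ⊆ V ∧
    V' ⊆ TropPt.opn b.cone ∧ ∀ u : Finset (Fin n → ℤ), (∀ m ∈ u, m ∈ perpM b.cone.1) →
      Convex ℝ ((tropLS F).trop u '' V') := by
  obtain ⟨ε, hε, h⟩ := exists_Vn b hV
  exact ⟨Vn b ε, Vn_mem b hε, h, fun b' hb' => hb'.1, fun u hu => Vn_convex b hε u hu⟩

/-- The image under all characters of `σ^⊥` of a neighbourhood of `b` contains all homomorphisms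
near `b`: for a basis `e` of `σ^⊥`, the map `b' ↦ (log |χ^{e_i}|(b'))` sends neighbourhoods of `b`
to neighbourhoods. -/
theorem nhds_image (b : TropPt F) {r : ℕ} (e : Fin r → Fin n → ℤ)
    (he : ∀ i, e i ∈ perpM b.cone.1)
    (hb : ∀ m ∈ perpM b.cone.1, ∃! a : Fin r → ℤ, m = ∑ i, a i • e i)
    {V : Set (TropPt F)} (hV : V ∈ 𝓝 b) :
    (fun b' : TropPt F => fun i => (tropLS F).lf (e i) b') '' V ∈
      𝓝 (fun i => (tropLS F).lf (e i) b) := by
  obtain ⟨ε, hε, h⟩ := exists_Vn b hV
  refine Filter.mem_of_superset ?_ (Set.image_mono h)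
  obtain ⟨c, hc, hx⟩ := exists_hom e hb
  have hbv : ∀ m : perpM b.cone.1, b.val m = ∑ i, (c m i : ℝ) * (tropLS F).lf (e i) b := by
    intro m
    have h1 : m = ∑ i, c m i • (⟨e i, he i⟩ : perpM b.cone.1) := by
      apply Subtype.ext
      rw [AddSubgroup.val_finsetSum]
      exact hc m
    conv_lhs => rw [h1]
    rw [map_sum]
    refine Finset.sum_congr rfl fun i _ => ?_
    rw [map_zsmul, zsmul_eq_mul, lf_perp (he i)]
  have hce : ∀ i, c ⟨e i, he i⟩ = Pi.single i 1 := by
    intro i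
    refine (hb (e i) (he i)).unique (hc ⟨e i, he i⟩) ?_
    rw [Finset.sum_eq_single i]
    · simp
    · intro j _ hj
      simp [Pi.single_eq_of_ne hj]
    · simp
  have h2 : ∀ᶠ x in 𝓝 (fun i => (tropLS F).lf (e i) b), ∀ g ∈ gens F b.cone,
      ∀ hg : g ∈ perpM b.cone.1, |∑ i, (c ⟨g, hg⟩ i : ℝ) * x i - b.val ⟨g, hg⟩| < ε := by
    rw [Filter.eventually_all_finset]
    intro g _
    by_cases hg : g ∈ perpM b.cone.1
    · have h3 : Continuous fun x : Fin r → ℝ => ∑ i, (c ⟨g, hg⟩ i : ℝ) * x i := by fun_prop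
      have h4 := h3.tendsto (fun i => (tropLS F).lf (e i) b)
      rw [← hbv ⟨g, hg⟩] at h4
      have h5 := Metric.tendsto_nhds.1 h4 ε hε
      refine h5.mono fun x hx _ => ?_
      rwa [Real.dist_eq] at hx
    · exact Filter.Eventually.of_forall fun x h => absurd h hg
  refine Filter.mem_of_superset h2 fun x hx2 => ?_
  obtain ⟨φ, hφ⟩ := hx x
  refine ⟨pt b φ, pt_mem hε fun g hg hp => ?_, ?_⟩
  · rw [hφ]
    exact hx2 g hg hp
  · funext i
    show (tropLS F).lf (e i) (pt b φ) = x i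
    rw [lf_pt b φ (he i), hφ, hce i, Finset.sum_eq_single i]
    · simp
    · intro j _ hj
      simp [Pi.single_eq_of_ne hj]
    · simp

theorem starAt_trop (b : TropPt F) : (tropLS F).StarAt b := by
  intro u hu V hV
  obtain ⟨V', hV', h1, h2, h3⟩ := nhds_convex b hV
  refine ⟨V', hV', h1, fun f hf b' hb' => TropPt.perp_sub (h2 hb') (hu f hf), ?_⟩
  exact (h3 u hu).starConvex ⟨b, mem_of_mem_nhds hV', rfl⟩

end Pool.Agent.TD


end

section

/-! Block Y: the local comparison of `Y^an` with the Berkovich affine space. -/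

open scoped ContDiff Topology
open AlgebraicGeometry CategoryTheory

namespace Pool.Agent.TD

/-- The torus `|T_i| = exp b_i` in the Berkovich affine space. -/
def Sb {K : Type} [NormedField K] {r : ℕ} (b : Fin r → ℝ) : Set (Ber K (MvPolynomial (Fin r) K)) :=
  {y | ∀ i, y.v (MvPolynomial.X i) = Real.exp (b i)}

namespace Toric

variable {K : Type} [NormedField K] {n : ℕ} {F : Fan n} {Y : Scheme.{0}} {ι : K →+* Γ(Y, ⊤)}
  (T : Toric F Y ι)

/-- The characters `χ^{e_i}` as functions on `U_σ`. -/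
noncomputable def evPoly (σ : F.cones) {r : ℕ} {e : Fin r → Fin n → ℤ}
    (he : IsPB σ.1 e) : MvPolynomial (Fin r) K →+* Γ(Y, T.U σ) :=
  MvPolynomial.eval₂Hom (stK ι (T.U σ)) (fun i => T.chi σ ⟨e i, TropPt.perp_dual (he.mem i)⟩)

/-- The morphism `U_σ^an → M(K[T_1, ..., T_r])` given by the characters of a basis of `σ^⊥`. -/
noncomputable def locMor (σ : F.cones) {r : ℕ} {e : Fin r → Fin n → ℤ} (he : IsPB σ.1 e) :
    Mor ((anLS Y ι).restr (An.opn ι (T.U σ))) (berLS K (MvPolynomial (Fin r) K)) where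
  toFun := An.toBer (T.evPoly σ he) (by
    intro c
    show MvPolynomial.eval₂Hom _ _ (MvPolynomial.C c) = _
    rw [MvPolynomial.coe_eval₂Hom, MvPolynomial.eval₂_C])
  cont := An.toBer_continuous _ _
  ix f := ⟨T.U σ, T.evPoly σ he f⟩
  dom_sub f z h := ⟨z.2, h⟩
  lf_eq f z h := rfl

theorem locMor_v (σ : F.cones) {r : ℕ} {e : Fin r → Fin n → ℤ} (he : IsPB σ.1 e)
    (z : An.opn ι (T.U σ)) (f : MvPolynomial (Fin r) K) :
    ((T.locMor σ he).toFun z).v f = An.absv (T.U σ) (T.evPoly σ he f) z.1 := rfl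

theorem locMor_X_ne_zero (σ : F.cones) {r : ℕ} {e : Fin r → Fin n → ℤ} (he : IsPB σ.1 e)
    (z : An.opn ι (T.U σ)) (i : Fin r) :
    ((T.locMor σ he).toFun z).v (MvPolynomial.X i) ≠ 0 := by
  rw [T.locMor_v]
  have e1 : T.evPoly σ he (MvPolynomial.X i) = T.chi σ ⟨e i, TropPt.perp_dual (he.mem i)⟩ :=
    MvPolynomial.eval₂_X _ _ _
  rw [e1]
  exact T.absv_chi_ne_zero (he.mem i) z.2

end Toric

end Pool.Agent.TD


end

section

/-! Block Y: `K[σ^⊥]` is the ring of Laurent polynomials (module TD_Y_LP). -/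

open scoped ContDiff Topology
open AlgebraicGeometry CategoryTheory

namespace Pool.Agent.TD

section poly

variable {K : Type} [NormedField K] {n r : ℕ} {σ : Set (Fin n → ℝ)} {e : Fin r → Fin n → ℤ}

/-- The multiplicative set generated by the variables. -/
noncomputable def varM (K : Type) [NormedField K] (r : ℕ) : Submonoid (MvPolynomial (Fin r) K) :=
  Submonoid.closure (Set.range MvPolynomial.X)

namespace LocP

/-- The character of a monomial. -/
def mon (he : IsPB σ e) (m : Fin r →₀ ℕ) : perpM σ := ∑ i, m i • (⟨e i, he.mem i⟩ : perpM σ)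

theorem mon_val (he : IsPB σ e) (m : Fin r →₀ ℕ) :
    (mon he m).1 = ∑ i, (m i : ℤ) • e i := by
  unfold mon
  rw [AddSubgroup.val_finsetSum]
  refine Finset.sum_congr rfl fun i _ => ?_
  rw [natCast_zsmul]
  rfl

theorem mon_inj (he : IsPB σ e) : Function.Injective (mon he) := by
  intro m m' h
  have h1 := congrArg Subtype.val h
  rw [mon_val] at h1
  obtain ⟨a, -, ha⟩ := he.uniq _ (mon he m').2
  have h2 := ha (fun i => (m i : ℤ)) h1.symm
  have h3 := ha (fun i => (m' i : ℤ)) (mon_val he m')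
  ext i
  have h4 := congrFun (h2.trans h3.symm) i
  exact_mod_cast h4

theorem prod_single (he : IsPB σ e) (m : Fin r → ℕ) (s : Finset (Fin r)) :
    ∏ i ∈ s, (AddMonoidAlgebra.single (⟨e i, he.mem i⟩ : perpM σ) (1 : K)) ^ m i =
      AddMonoidAlgebra.single (∑ i ∈ s, m i • (⟨e i, he.mem i⟩ : perpM σ)) 1 := by
  classical
  induction s using Finset.induction_on with
  | empty =>
    rw [Finset.prod_empty, Finset.sum_empty]
    rfl
  | insert i s hi ih =>
    rw [Finset.prod_insert hi, ih, Finset.sum_insert hi, AddMonoidAlgebra.single_pow,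
      AddMonoidAlgebra.single_mul_single]
    simp

theorem polyH_monomial (he : IsPB σ e) (m : Fin r →₀ ℕ) (c : K) :
    polyH K he (MvPolynomial.monomial m c) = AddMonoidAlgebra.single (mon he m) c := by
  unfold polyH
  rw [MvPolynomial.aeval_monomial, Finsupp.prod_fintype _ _ (fun i => pow_zero _),
    prod_single he m Finset.univ, AddMonoidAlgebra.coe_algebraMap]
  show AddMonoidAlgebra.single 0 c * AddMonoidAlgebra.single _ 1 = _
  rw [AddMonoidAlgebra.single_mul_single, zero_add, mul_one]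
  rfl

theorem coeff_polyH (he : IsPB σ e) (f : MvPolynomial (Fin r) K) (m : Fin r →₀ ℕ) :
    (polyH K he f).coeff (mon he m) = f.coeff m := by
  classical
  have h1 : polyH K he f =
      ∑ m ∈ f.support, AddMonoidAlgebra.single (mon he m) (f.coeff m) := by
    conv_lhs => rw [f.as_sum, map_sum]
    exact Finset.sum_congr rfl fun m _ => polyH_monomial he m _
  rw [h1, AddMonoidAlgebra.coeff_sum, Finsupp.finsetSum_apply]
  simp only [AddMonoidAlgebra.coeff_single, Finsupp.single_apply, (mon_inj he).eq_iff]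
  rw [Finset.sum_ite_eq' f.support m]
  split_ifs with h
  · rfl
  · exact (MvPolynomial.notMem_support_iff.1 h).symm

theorem polyH_inj (he : IsPB σ e) : Function.Injective (polyH K he) := by
  intro f g h
  ext m
  rw [← coeff_polyH he, h, coeff_polyH he]

theorem X_mem (i : Fin r) : (MvPolynomial.X i : MvPolynomial (Fin r) K) ∈ varM K r :=
  Submonoid.subset_closure ⟨i, rfl⟩

theorem monomial_mem (m : Fin r →₀ ℕ) : MvPolynomial.monomial m (1 : K) ∈ varM K r := by
  rw [MvPolynomial.monomial_eq, map_one, one_mul, Finsupp.prod_fintype _ _ (fun i => pow_zero _)]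
  exact Submonoid.prod_mem _ fun i _ => Submonoid.pow_mem _ (X_mem i) _

theorem exists_poly_aux (he : IsPB σ e) (a : AddMonoidAlgebra K (perpM σ)) :
    ∃ f : MvPolynomial (Fin r) K, ∃ g ∈ varM K r, polyH K he g * a = polyH K he f := by
  induction a using AddMonoidAlgebra.induction_linear with
  | zero => exact ⟨0, 1, Submonoid.one_mem _, by rw [mul_zero, map_zero]⟩
  | add a b ha hb =>
    obtain ⟨f, g, hg, h⟩ := ha
    obtain ⟨f', g', hg', h'⟩ := hb
    refine ⟨g' * f + g * f', g * g', Submonoid.mul_mem _ hg hg', ?_⟩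
    rw [map_add, map_mul, map_mul, map_mul, ← h, ← h']
    ring
  | single m c =>
    obtain ⟨a, ha, -⟩ := he.uniq m.1 m.2
    refine ⟨MvPolynomial.monomial (Finsupp.equivFunOnFinite.symm fun i => (a i).toNat) c,
      MvPolynomial.monomial (Finsupp.equivFunOnFinite.symm fun i => (-a i).toNat) 1,
      monomial_mem _, ?_⟩
    rw [polyH_monomial, polyH_monomial, AddMonoidAlgebra.single_mul_single, one_mul]
    congr 1
    apply Subtype.ext
    rw [AddSubgroup.coe_add, mon_val, mon_val]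
    conv_lhs => rw [ha]
    rw [← Finset.sum_add_distrib]
    refine Finset.sum_congr rfl fun i _ => ?_
    rw [← add_smul]
    congr 1
    show ((-a i).toNat : ℤ) + a i = ((a i).toNat : ℤ)
    omega

theorem isUnit_polyH (he : IsPB σ e) {g : MvPolynomial (Fin r) K} (hg : g ∈ varM K r) :
    IsUnit (polyH K he g) := by
  induction hg using Submonoid.closure_induction with
  | mem x h =>
    obtain ⟨i, rfl⟩ := h
    have h1 : polyH K he (MvPolynomial.X i) =
        AddMonoidAlgebra.single ⟨e i, he.mem i⟩ 1 := by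
      unfold polyH
      rw [MvPolynomial.aeval_X]
    rw [h1]
    refine IsUnit.of_mul_eq_one
      (AddMonoidAlgebra.single (-⟨e i, he.mem i⟩ : perpM σ) (1 : K)) ?_
    rw [AddMonoidAlgebra.single_mul_single, add_neg_cancel, mul_one]
    rfl
  | one => rw [map_one]; exact isUnit_one
  | mul x y _ _ hx hy => rw [map_mul]; exact hx.mul hy

end LocP

/-- `K[σ^⊥]` is the localization of `K[T_1, ..., T_r]` at the variables. -/
theorem polyH_loc (he : IsPB σ e) :
    letI := (polyH K he).toRingHom.toAlgebra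
    IsLocalization (varM K r) (AddMonoidAlgebra K (perpM σ)) := by
  letI := (polyH K he).toRingHom.toAlgebra
  have hal : ∀ f : MvPolynomial (Fin r) K,
      algebraMap (MvPolynomial (Fin r) K) (AddMonoidAlgebra K (perpM σ)) f = polyH K he f :=
    fun f => rfl
  refine ⟨?_, ?_, ?_⟩
  · intro y
    rw [hal]
    exact LocP.isUnit_polyH he y.2
  · intro z
    obtain ⟨f, g, hg, h⟩ := LocP.exists_poly_aux he z
    refine ⟨⟨f, ⟨g, hg⟩⟩, ?_⟩
    show z * algebraMap _ _ g = algebraMap _ _ f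
    rw [hal, hal, mul_comm, h]
  · intro x y h
    rw [hal, hal] at h
    exact ⟨1, by rw [LocP.polyH_inj he h]⟩

/-- Every element of `K[σ^⊥]` is a polynomial in the `χ^{e_i}` divided by a monomial. -/
theorem exists_poly (he : IsPB σ e) (a : AddMonoidAlgebra K (perpM σ)) :
    ∃ f : MvPolynomial (Fin r) K, ∃ g ∈ varM K r, polyH K he g * a = polyH K he f :=
  LocP.exists_poly_aux he a

/-- A point of `M(K[T])` with `|T_i| ≠ 0` does not vanish on monomials. -/
theorem varM_ne_zero {y : Ber K (MvPolynomial (Fin r) K)}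
    (hy : ∀ i, y.v (MvPolynomial.X i) ≠ 0) {g : MvPolynomial (Fin r) K} (hg : g ∈ varM K r) :
    y.v g ≠ 0 := by
  induction hg using Submonoid.closure_induction with
  | mem x h =>
    obtain ⟨i, rfl⟩ := h
    exact hy i
  | one => rw [y.one]; exact one_ne_zero
  | mul x z _ _ hx hz => rw [y.mul]; exact mul_ne_zero hx hz

end poly

namespace Toric

variable {K : Type} [NormedField K] {n : ℕ} {F : Fan n} {Y : Scheme.{0}} {ι : K →+* Γ(Y, ⊤)}
  (T : Toric F Y ι)

/-- `evPoly` is the evaluation of the polynomial in the characters. -/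
theorem evPoly_eq (σ : F.cones) {r : ℕ} {e : Fin r → Fin n → ℤ} (he : IsPB σ.1 e)
    (f : MvPolynomial (Fin r) K) :
    T.evPoly σ he f = T.evHom σ (incH K σ.1 (polyH K he f)) := by
  have h : T.evPoly σ he =
      (T.evHom σ).comp ((incH K σ.1).toRingHom.comp (polyH K he).toRingHom) := by
    apply MvPolynomial.ringHom_ext
    · intro c
      have h1 : T.evPoly σ he (MvPolynomial.C c) = stK ι (T.U σ) c := by
        unfold evPoly
        rw [MvPolynomial.coe_eval₂Hom, MvPolynomial.eval₂_C]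
      have h2 : polyH K he (MvPolynomial.C c) = AddMonoidAlgebra.single 0 c := by
        have h3 : (MvPolynomial.C c : MvPolynomial (Fin r) K) = algebraMap K _ c := rfl
        rw [h3, AlgHom.commutes]
        rfl
      have h4 : incH K σ.1 (AddMonoidAlgebra.single 0 c) = AddMonoidAlgebra.single 0 c := by
        rw [incH_single]
        rfl
      show T.evPoly σ he (MvPolynomial.C c) =
        T.evHom σ (incH K σ.1 (polyH K he (MvPolynomial.C c)))
      rw [h1, h2, h4, T.evHom_single, T.chi_zero, mul_one]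
    · intro i
      have h1 : T.evPoly σ he (MvPolynomial.X i) =
          T.chi σ ⟨e i, TropPt.perp_dual (he.mem i)⟩ := by
        unfold evPoly
        rw [MvPolynomial.coe_eval₂Hom, MvPolynomial.eval₂_X]
      have h2 : polyH K he (MvPolynomial.X i) =
          AddMonoidAlgebra.single ⟨e i, he.mem i⟩ 1 := by
        unfold polyH
        rw [MvPolynomial.aeval_X]
      show T.evPoly σ he (MvPolynomial.X i) =
        T.evHom σ (incH K σ.1 (polyH K he (MvPolynomial.X i)))
      rw [h1, h2, incH_single, T.evHom_single, map_one, one_mul]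
  rw [h]
  rfl

end Toric

end Pool.Agent.TD


end

section

/-! Block Y: the comparison morphism is locally affine (module TD_Y_L1). -/

open scoped ContDiff Topology
open AlgebraicGeometry CategoryTheory

namespace Pool.Agent.TD

namespace Toric

variable {K : Type} [NormedField K] {n : ℕ} {F : Fan n} {Y : Scheme.{0}} {ι : K →+* Γ(Y, ⊤)}
  (T : Toric F Y ι)

/-- The difference of a function on `U_σ` and its projection vanishes at the points of the orbit
of `σ`. -/
theorem absv_sub_incH_projH (σ : F.cones) (a : AddMonoidAlgebra K (dualM σ.1)) {z : An Y ι}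
    (hz : T.minCone z.pt = σ) :
    An.absv (T.U σ) (T.evHom σ a - T.evHom σ (incH K σ.1 (projH K σ.1 a))) z = 0 := by
  rw [← map_sub, T.absv_incH_projH σ _ hz, map_sub, projH_incH, sub_self, map_zero, map_zero,
    An.absv_zero]

/-- If `|g - g_0| < |g|` then `|g_0| = |g|`. -/
theorem absv_eq_of_sub_lt {X : Scheme.{0}} {ι : K →+* Γ(X, ⊤)} {U : X.Opens} {g g₀ : Γ(X, U)}
    {z : An X ι} (h : An.absv U (g - g₀) z < An.absv U g z) : An.absv U g z = An.absv U g₀ z := by
  apply le_antisymm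
  · have h1 := An.absv_add (g - g₀) g₀ z
    rw [sub_add_cancel] at h1
    rcases le_max_iff.1 h1 with h2 | h2
    · exact absurd h2 (not_le.2 h)
    · exact h2
  · have h1 := An.absv_add g (-(g - g₀)) z
    rw [An.absv_neg, show g + -(g - g₀) = g₀ by ring] at h1
    exact h1.trans (max_le le_rfl h.le)

/-- Near a point `z` of the orbit of `σ` where it does not vanish a function on `U_σ` has the
absolute value of a quotient of two polynomials in the characters of `σ^⊥`. -/
theorem exists_polys (σ : F.cones) {r : ℕ} {e : Fin r → Fin n → ℤ} (he : IsPB σ.1 e)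
    (z : An.opn ι (T.U σ)) (hz : T.minCone z.1.pt = σ) (g : Γ(Y, T.U σ))
    (hg : An.absv (T.U σ) g z.1 ≠ 0) : ∃ P Q : MvPolynomial (Fin r) K,
      An.absv (T.U σ) (T.evPoly σ he P) z.1 ≠ 0 ∧ An.absv (T.U σ) (T.evPoly σ he Q) z.1 ≠ 0 ∧
      ∀ᶠ z' : An.opn ι (T.U σ) in 𝓝 z, Real.log (An.absv (T.U σ) g z'.1) =
        Real.log (An.absv (T.U σ) (T.evPoly σ he P) z'.1) -
          Real.log (An.absv (T.U σ) (T.evPoly σ he Q) z'.1) := by
  obtain ⟨a, rfl⟩ := (T.evHom_bij σ).2 g
  obtain ⟨P, Q, hQ, hPQ⟩ := exists_poly he (projH K σ.1 a)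
  set g₀ := T.evHom σ (incH K σ.1 (projH K σ.1 a)) with hg₀
  have hQne : ∀ z' : An.opn ι (T.U σ), An.absv (T.U σ) (T.evPoly σ he Q) z'.1 ≠ 0 := by
    intro z'
    rw [← T.locMor_v]
    exact varM_ne_zero (T.locMor_X_ne_zero σ he z') hQ
  have hmul : T.evPoly σ he Q * g₀ = T.evPoly σ he P := by
    rw [T.evPoly_eq, T.evPoly_eq, hg₀, ← map_mul, ← map_mul, hPQ]
  have habs : ∀ z' : An Y ι, An.absv (T.U σ) (T.evPoly σ he Q) z' * An.absv (T.U σ) g₀ z' =
      An.absv (T.U σ) (T.evPoly σ he P) z' := by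
    intro z'
    rw [← An.absv_mul, hmul]
  have hcont : ∀ g : Γ(Y, T.U σ), Continuous fun z' : An.opn ι (T.U σ) =>
      An.absv (T.U σ) g z'.1 := fun g => (An.continuousOn_absv (ι := ι) (T.U σ) g).domRestrict
  have hlt : An.absv (T.U σ) (T.evHom σ a - g₀) z.1 < An.absv (T.U σ) (T.evHom σ a) z.1 := by
    rw [hg₀, T.absv_sub_incH_projH σ a hz]
    exact lt_of_le_of_ne (An.absv_nonneg _ _ _) hg.symm
  have hg0z : An.absv (T.U σ) g₀ z.1 ≠ 0 := by
    rw [← absv_eq_of_sub_lt hlt]
    exact hg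
  refine ⟨P, Q, ?_, hQne z, ?_⟩
  · rw [← habs]
    exact mul_ne_zero (hQne z) hg0z
  · have h1 : ∀ᶠ z' : An.opn ι (T.U σ) in 𝓝 z,
        An.absv (T.U σ) (T.evHom σ a - g₀) z'.1 < An.absv (T.U σ) (T.evHom σ a) z'.1 :=
      (hcont _).continuousAt.eventually_lt (hcont _).continuousAt hlt
    have h2 : ∀ᶠ z' : An.opn ι (T.U σ) in 𝓝 z, An.absv (T.U σ) g₀ z'.1 ≠ 0 :=
      (hcont _).continuousAt.eventually_ne hg0z
    filter_upwards [h1, h2] with z' h1 h2
    rw [absv_eq_of_sub_lt h1, ← habs, Real.log_mul (hQne z') h2]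
    ring

/-- Near a point `z` of the orbit of `σ` every function is, in absolute value,
a product of powers of functions pulled back from `M(K[T])`: first `exists_frac`; a function
`g = ∑_{m ∈ S_σ} a_m χ^m` on `U_σ` with `|g(z)| ≠ 0` has `|g| = |g_0|` near `z`,
`g_0 = ∑_{m ∈ σ^⊥} a_m χ^m`, as `|g - g_0|(z) = 0`; and `g_0` is a polynomial in the `χ^{e_i}`
divided by a monomial. -/
theorem locMor_affAt (σ : F.cones) {r : ℕ} {e : Fin r → Fin n → ℤ} (he : IsPB σ.1 e)
    (z : An.opn ι (T.U σ)) (hz : T.minCone z.1.pt = σ) : (T.locMor σ he).AffAt z := by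
  rintro ⟨V, f⟩ ⟨hV, hf⟩
  obtain ⟨g, h, hh, hgh⟩ := An.exists_frac (T.affine σ) V f z.2 hV
  have hf' : An.absv V f z.1 ≠ 0 := hf
  have hg : An.absv (T.U σ) g z.1 ≠ 0 := by
    intro h0
    rw [(hgh z.1 z.2 hh).2, h0, zero_div] at hf'
    exact hf' rfl
  obtain ⟨P₁, Q₁, hP₁, hQ₁, he₁⟩ := T.exists_polys σ he z hz g hg
  obtain ⟨P₂, Q₂, hP₂, hQ₂, he₂⟩ := T.exists_polys σ he z hz h hh
  have hcont : ∀ g : Γ(Y, T.U σ), Continuous fun z' : An.opn ι (T.U σ) =>
      An.absv (T.U σ) g z'.1 := fun g => (An.continuousOn_absv (ι := ι) (T.U σ) g).domRestrict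
  have h1 : ∀ᶠ z' : An.opn ι (T.U σ) in 𝓝 z, An.absv (T.U σ) g z'.1 ≠ 0 :=
    (hcont _).continuousAt.eventually_ne hg
  have h2 : ∀ᶠ z' : An.opn ι (T.U σ) in 𝓝 z, An.absv (T.U σ) h z'.1 ≠ 0 :=
    (hcont _).continuousAt.eventually_ne hh
  refine ⟨4, ![P₁, Q₁, P₂, Q₂], ![1, -1, -1, 1], 0, ?_, ?_⟩
  · intro i
    fin_cases i
    · exact hP₁
    · exact hQ₁
    · exact hP₂
    · exact hQ₂
  · filter_upwards [he₁, he₂, h1, h2] with z' he₁ he₂ h1 h2
    show Real.log (An.absv V f z'.1) = 0 + ∑ i : Fin 4, (![1, -1, -1, 1] : Fin 4 → ℝ) i *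
      Real.log (An.absv (T.U σ) (T.evPoly σ he
        ((![P₁, Q₁, P₂, Q₂] : Fin 4 → MvPolynomial (Fin r) K) i)) z'.1)
    rw [(hgh z'.1 z'.2 h2).2, Real.log_div h1 h2, he₁, he₂, Fin.sum_univ_four]
    simp only [Matrix.cons_val]
    ring

end Toric

end Pool.Agent.TD


end

section

/-! Block Y: the comparison morphism is a homeomorphism on the orbit (module TD_Y_L2). -/

open scoped ContDiff Topology
open AlgebraicGeometry CategoryTheory

namespace Pool.Agent.TD

namespace Loc2

variable {K : Type} [NormedField K] {n r : ℕ} {σ : Set (Fin n → ℝ)} {e : Fin r → Fin n → ℤ}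

/-- The points of `M(K[T])` outside the coordinate hyperplanes. -/
abbrev Tor (K : Type) [NormedField K] (r : ℕ) : Type :=
  {y : Ber K (MvPolynomial (Fin r) K) // ∀ i, y.v (MvPolynomial.X i) ≠ 0}

theorem exists_ext (he : IsPB σ e) (y : Tor K r) :
    ∃ w : MSN (AddMonoidAlgebra K (perpM σ)), ∀ f, w.v (polyH K he f) = y.1.v f := by
  letI := (polyH K he).toRingHom.toAlgebra
  haveI : IsLocalization (varM K r) (AddMonoidAlgebra K (perpM σ)) := polyH_loc he
  exact MSN.exists_loc (B := AddMonoidAlgebra K (perpM σ)) (varM K r)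
    { v := y.1.v
      nonneg := y.1.nonneg
      one := y.1.one
      mul := y.1.mul
      add := y.1.add } (fun g hg => varM_ne_zero y.2 hg)

theorem ext_unique (he : IsPB σ e) (w w' : MSN (AddMonoidAlgebra K (perpM σ)))
    (h : ∀ f, w.v (polyH K he f) = w'.v (polyH K he f)) : ∀ b, w.v b = w'.v b := by
  letI := (polyH K he).toRingHom.toAlgebra
  haveI : IsLocalization (varM K r) (AddMonoidAlgebra K (perpM σ)) := polyH_loc he
  exact MSN.loc_unique (varM K r) w w' h

/-- The extension to the Laurent polynomials. -/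
noncomputable def ext (he : IsPB σ e) (y : Tor K r) : MSN (AddMonoidAlgebra K (perpM σ)) :=
  (exists_ext he y).choose

theorem ext_v (he : IsPB σ e) (y : Tor K r) (f : MvPolynomial (Fin r) K) :
    (ext he y).v (polyH K he f) = y.1.v f := (exists_ext he y).choose_spec f

theorem continuous_ext (he : IsPB σ e) (a : AddMonoidAlgebra K (perpM σ)) :
    Continuous fun y : Tor K r => (ext he y).v a := by
  obtain ⟨f, g, hg, h⟩ := exists_poly he a
  have h1 : ∀ y : Tor K r, (ext he y).v a = y.1.v f / y.1.v g := by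
    intro y
    have h2 := congrArg (ext he y).v h
    rw [(ext he y).mul, ext_v, ext_v] at h2
    rw [eq_div_iff (varM_ne_zero y.2 hg), mul_comm]
    exact h2
  simp only [h1]
  exact ((Ber.continuous_v f).comp continuous_subtype_val).div
    ((Ber.continuous_v g).comp continuous_subtype_val) (fun y => varM_ne_zero y.2 hg)

/-- The point of `M(K[S_σ])`. -/
noncomputable def bpt (he : IsPB σ e) (y : Tor K r) :
    Ber K (AddMonoidAlgebra K (dualM σ)) where
  v a := (ext he y).v (projH K σ a)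
  nonneg a := (ext he y).nonneg _
  one := by rw [map_one, (ext he y).one]
  mul a b := by rw [map_mul, (ext he y).mul]
  add a b := by rw [map_add]; exact (ext he y).add _ _
  ext c := by
    rw [AlgHom.commutes, ← AlgHom.commutes (polyH K he), ext_v]
    exact y.1.ext c

theorem continuous_bpt (he : IsPB σ e) : Continuous (bpt (K := K) he) := by
  rw [Ber.continuous_iff]
  exact fun a => continuous_ext he _

end Loc2

namespace Toric

variable {K : Type} [NormedField K] {n : ℕ} {F : Fan n} {Y : Scheme.{0}} {ι : K →+* Γ(Y, ⊤)}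
  (T : Toric F Y ι)

theorem chart_v (σ : F.cones) (z : An.opn ι (T.U σ)) (a : AddMonoidAlgebra K (dualM σ.1)) :
    (T.chart σ z).v a = An.absv (T.U σ) (T.evHom σ a) z.1 := rfl

/-- The orbit of `σ`: the seminorm `g ↦ |g_0|_y` on `K[S_σ]`,
`g_0 = ∑_{m ∈ σ^⊥} a_m χ^m`, for `y` in `M(K[T])` with `|T_i|_y ≠ 0` for all `i`. -/
theorem locMor_section (σ : F.cones) {r : ℕ} {e : Fin r → Fin n → ℤ} (he : IsPB σ.1 e) :
    ∃ s : {y : Ber K (MvPolynomial (Fin r) K) // ∀ i, y.v (MvPolynomial.X i) ≠ 0} →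
      An.opn ι (T.U σ), Continuous s ∧ ∀ y, T.minCone (s y).1.pt = σ ∧
        (T.locMor σ he).toFun (s y) = y.1 := by
  let Φ := (T.chart_homeo σ).homeomorph
  have hΦ : ∀ z, Φ z = T.chart σ z := fun z => rfl
  refine ⟨fun y => Φ.symm (Loc2.bpt he y), Φ.symm.continuous.comp (Loc2.continuous_bpt he), ?_⟩
  intro y
  have hs : ∀ a : AddMonoidAlgebra K (dualM σ.1),
      An.absv (T.U σ) (T.evHom σ a) (Φ.symm (Loc2.bpt he y)).1 =
        (Loc2.ext he y).v (projH K σ.1 a) := by
    intro a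
    rw [← T.chart_v, ← hΦ, Φ.apply_symm_apply]
    rfl
  show T.minCone (Φ.symm (Loc2.bpt he y)).1.pt = σ ∧
    (T.locMor σ he).toFun (Φ.symm (Loc2.bpt he y)) = y.1
  generalize Φ.symm (Loc2.bpt he y) = z at hs ⊢
  constructor
  · have hsub : (T.minCone z.1.pt).1 ⊆ σ.1 := T.minCone_le z.2
    apply Subtype.ext
    refine Set.Subset.antisymm hsub ?_
    obtain ⟨m, hm, hτ⟩ := F.face_of_sub hsub
    have hmp : m ∈ perpM (T.minCone z.1.pt).1 := by
      intro x hx
      rw [hτ] at hx
      exact hx.2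
    have h1 := T.absv_trop_perp (z := z.1) (σ := σ) z.2 (m := ⟨m, hm⟩) hmp
    have h2 : TropPt.absv m (T.trop z.1) ≠ 0 := by
      unfold TropPt.absv
      rw [dif_pos (show m ∈ perpM (T.trop z.1).cone.1 from hmp)]
      exact (Real.exp_pos _).ne'
    have h3 := hs (AddMonoidAlgebra.single ⟨m, hm⟩ 1)
    rw [evHom_single, map_one, one_mul, ← h1] at h3
    have h4 : m ∈ perpM σ.1 := by
      by_contra h4
      rw [projH_single_zero _ _ _ h4] at h3
      apply h2
      refine h3.trans ?_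
      have h5 := Loc2.ext_v he y 0
      rw [map_zero, y.1.zero] at h5
      exact h5
    intro x hx
    rw [hτ]
    exact ⟨hx, h4 x hx⟩
  · apply Ber.ext_v
    intro f
    rw [T.locMor_v, T.evPoly_eq, hs, projH_incH, Loc2.ext_v]

theorem locMor_inj (σ : F.cones) {r : ℕ} {e : Fin r → Fin n → ℤ} (he : IsPB σ.1 e)
    (z z' : An.opn ι (T.U σ)) (hz : T.minCone z.1.pt = σ) (hz' : T.minCone z'.1.pt = σ)
    (h : (T.locMor σ he).toFun z = (T.locMor σ he).toFun z') : z = z' := by
  let w : An.opn ι (T.U σ) → MSN (AddMonoidAlgebra K (perpM σ.1)) := fun z =>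
    { v := fun b => An.absv (T.U σ) (T.evHom σ (incH K σ.1 b)) z.1
      nonneg := fun b => An.absv_nonneg _ _ _
      one := by rw [map_one, map_one, An.absv_one z.2]
      mul := fun a b => by rw [map_mul, map_mul, An.absv_mul]
      add := fun a b => by rw [map_add, map_add]; exact An.absv_add _ _ _ }
  have hw : ∀ b, (w z).v b = (w z').v b := by
    refine Loc2.ext_unique he _ _ fun f => ?_
    show An.absv (T.U σ) (T.evHom σ (incH K σ.1 (polyH K he f))) z.1 =
      An.absv (T.U σ) (T.evHom σ (incH K σ.1 (polyH K he f))) z'.1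
    rw [← T.evPoly_eq, ← T.locMor_v, ← T.locMor_v, h]
  apply (T.chart_homeo σ).injective
  apply Ber.ext_v
  intro a
  rw [T.chart_v, T.chart_v, T.absv_incH_projH σ a hz, T.absv_incH_projH σ a hz']
  exact hw _

theorem locMor_open (σ : F.cones) {r : ℕ} {e : Fin r → Fin n → ℤ} (he : IsPB σ.1 e)
    (z : An.opn ι (T.U σ)) (hz : T.minCone z.1.pt = σ) :
    ∀ V ∈ 𝓝 z, (T.locMor σ he).toFun '' V ∈ 𝓝 ((T.locMor σ he).toFun z) := by
  intro V hV
  obtain ⟨s, hs, hs'⟩ := T.locMor_section σ he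
  have ho : IsOpen {y : Ber K (MvPolynomial (Fin r) K) | ∀ i, y.v (MvPolynomial.X i) ≠ 0} := by
    simp only [Set.setOf_forall]
    exact isOpen_iInter_of_finite fun i => isOpen_ne_fun (Ber.continuous_v _) continuous_const
  let y : {y : Ber K (MvPolynomial (Fin r) K) // ∀ i, y.v (MvPolynomial.X i) ≠ 0} :=
    ⟨(T.locMor σ he).toFun z, T.locMor_X_ne_zero σ he z⟩
  have hy : s y = z := T.locMor_inj σ he _ _ (hs' y).1 hz (hs' y).2
  have h1 : s ⁻¹' V ∈ 𝓝 y := hs.continuousAt.preimage_mem_nhds (by rw [hy]; exact hV)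
  have h2 : Subtype.val '' (s ⁻¹' V) ∈ 𝓝 y.1 := by
    rw [← map_nhds_subtype_coe_eq_nhds y.2 (ho.mem_nhds y.2)]
    exact Filter.image_mem_map h1
  refine Filter.mem_of_superset h2 ?_
  rintro _ ⟨y', hy', rfl⟩
  exact ⟨s y', hy', (hs' y').2⟩

end Toric

end Pool.Agent.TD


end
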