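import Mathlib
import Pool.Agent.DolbM.C05
import Pool.Agent.DolbM.C06
import Pool.Agent.DolbM.C08
import Pool.Agent.TD.A3
import Pool.Agent.TD.Y.Restr

/-! Parts: TD.Y.Loc3, TD.Y.AnCut, TD.Y.Fib1, TD.Y.TropCut, TD.Y.Cong, TD.Y.Fib, TD.Y.Final -/

section

/-! Block Y: the fibres of the tropicalization map (module TD_Y_L3). -/

open scoped ContDiff Topology
open AlgebraicGeometry CategoryTheory

namespace Pool.Agent.TD

/-- Two points of the same stratum which agree at the characters of a basis are equal. -/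
theorem TropPt.ext_basis {n : ℕ} {F : Fan n} {b b' : TropPt F} (h : b'.cone = b.cone) {r : ℕ}
    {e : Fin r → Fin n → ℤ} (he : IsPB b.cone.1 e)
    (hv : ∀ i, TropPt.absv (e i) b' = TropPt.absv (e i) b) : b' = b := by
  obtain ⟨σ, v⟩ := b
  obtain ⟨σ', v'⟩ := b'
  have h' : σ' = σ := h
  subst h'
  have he' : IsPB σ'.1 e := he
  have hv' : ∀ i, v' ⟨e i, he'.mem i⟩ = v ⟨e i, he'.mem i⟩ := by
    intro i
    have h1 := hv i
    unfold TropPt.absv at h1
    have h2 : e i ∈ perpM σ'.1 := he'.mem i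
    rw [dif_pos h2, dif_pos h2] at h1
    exact Real.exp_injective h1
  have h3 : v' = v := by
    apply AddMonoidHom.ext
    intro m
    obtain ⟨a, ha, -⟩ := he'.uniq m.1 m.2
    have h4 : m = ∑ i, a i • (⟨e i, he'.mem i⟩ : perpM σ'.1) := by
      apply Subtype.ext
      rw [ha]
      simp
    rw [h4, map_sum, map_sum]
    refine Finset.sum_congr rfl fun i _ => ?_
    rw [map_zsmul, map_zsmul, hv']
  rw [h3]

namespace Toric

variable {K : Type} [NormedField K] {n : ℕ} {F : Fan n} {Y : Scheme.{0}} {ι : K →+* Γ(Y, ⊤)}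
  (T : Toric F Y ι)

/-- The fibre of the tropicalization over `b` corresponds to the torus `Sb`. -/
theorem trop_eq_iff {b : TropPt F} {r : ℕ} {e : Fin r → Fin n → ℤ} (he : IsPB b.cone.1 e)
    (z : An Y ι) : T.trop z = b ↔ ∃ hz : z.pt ∈ T.U b.cone, T.minCone z.pt = b.cone ∧
      (T.locMor b.cone he).toFun ⟨z, hz⟩ ∈ Sb (K := K) (fun i => (tropLS F).lf (e i) b) := by
  have key : ∀ (hz : z.pt ∈ T.U b.cone) (i : Fin r),
      ((T.locMor b.cone he).toFun ⟨z, hz⟩).v (MvPolynomial.X i) =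
        TropPt.absv (e i) (T.trop z) := by
    intro hz i
    rw [T.locMor_v]
    have e1 : T.evPoly b.cone he (MvPolynomial.X i) =
        T.chi b.cone ⟨e i, TropPt.perp_dual (he.mem i)⟩ := MvPolynomial.eval₂_X _ _ _
    rw [e1]
    exact (T.absv_trop hz ⟨e i, TropPt.perp_dual (he.mem i)⟩).symm
  have key2 : ∀ i, Real.exp ((tropLS F).lf (e i) b) = TropPt.absv (e i) b := by
    intro i
    show Real.exp (Real.log (TropPt.absv (e i) b)) = TropPt.absv (e i) b
    apply Real.exp_log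
    unfold TropPt.absv
    rw [dif_pos (he.mem i)]
    exact Real.exp_pos _
  constructor
  · intro h
    have hz : z.pt ∈ T.U b.cone := by
      rw [T.mem_U_iff, ← h]
      exact Set.Subset.refl _
    refine ⟨hz, ?_, ?_⟩
    · rw [← h]
      rfl
    · intro i
      rw [key hz i, key2 i, h]
  · rintro ⟨hz, h1, h2⟩
    refine TropPt.ext_basis h1 he fun i => ?_
    rw [← key hz i, ← key2 i]
    exact h2 i

end Toric

end Pool.Agent.TD


end

section

/-! Block Y: cut-off functions on the analytification of a toric variety (module TD_Y_ACUT). -/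

open scoped Topology
open AlgebraicGeometry CategoryTheory

namespace Pool.Agent.TD

namespace ACUT

open scoped ContDiff

open Classical in
/-- Extension by zero of a smooth function on a chart. -/
theorem smooth_ext {X Φ X' Φ' : Type} [TopologicalSpace X] [TopologicalSpace X']
    (L : LogSpace X Φ) (L' : LogSpace X' Φ') {W : Set X} (hW : IsOpen W) {c : W → X'}
    (hc : Continuous c) (ix : Φ' → Φ) (hdom : ∀ (x : W) f, c x ∈ L'.dom f → x.1 ∈ L.dom (ix f))
    (hlf : ∀ (x : W) f, c x ∈ L'.dom f → L.lf (ix f) x.1 = L'.lf f (c x)) {g : X' → ℝ}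
    (hg : L'.Smooth g) {C : Set X} (hC : IsClosed C) (hCW : C ⊆ W)
    (h0 : ∀ x : W, x.1 ∉ C → g (c x) = 0) :
    L.Smooth (fun x => if h : x ∈ W then g (c ⟨x, h⟩) else 0) := by
  intro x
  by_cases hx : x ∈ W
  · obtain ⟨s, hs, a, ha, he⟩ := hg (c ⟨x, hx⟩)
    refine ⟨s.image ix, ?_,
      fun y => a (fun f => y ⟨ix f.1, Finset.mem_image_of_mem ix f.2⟩), ?_, ?_⟩
    · intro f' hf'
      obtain ⟨f, hf, rfl⟩ := Finset.mem_image.1 hf'
      exact hdom ⟨x, hx⟩ f (hs f hf)
    · exact ha.comp (contDiff_pi.2 fun f => contDiff_apply ℝ ℝ _)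
    · have hd : ∀ᶠ w in 𝓝 (c ⟨x, hx⟩), ∀ f ∈ s, w ∈ L'.dom f := by
        rw [Filter.eventually_all_finset]
        exact fun f hf => (L'.isOpen_dom f).mem_nhds (hs f hf)
      have h1 : ∀ᶠ w in 𝓝 (⟨x, hx⟩ : W), (if h : w.1 ∈ W then g (c ⟨w.1, h⟩) else 0) =
          a (fun f => L.trop (s.image ix) w.1 ⟨ix f.1, Finset.mem_image_of_mem ix f.2⟩) := by
        filter_upwards [hc.continuousAt.eventually he, hc.continuousAt.eventually hd] with w h2 h3
        rw [dif_pos w.2]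
        refine Eq.trans h2 ?_
        congr 1
        funext f
        exact (hlf w f.1 (h3 f.1 f.2)).symm
      have h4 := hW.isOpenEmbedding_subtypeVal.map_nhds_eq (⟨x, hx⟩ : W)
      change ∀ᶠ x' in 𝓝 x, _
      have h5 : 𝓝 x = Filter.map Subtype.val (𝓝 (⟨x, hx⟩ : W)) := h4.symm
      rw [h5, Filter.eventually_map]
      exact h1
  · have hxC : x ∈ Cᶜ := fun h => hx (hCW h)
    refine ⟨∅, by simp, fun _ => 0, contDiff_const, ?_⟩
    filter_upwards [hC.isOpen_compl.mem_nhds hxC] with x' hx'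
    by_cases h : x' ∈ W
    · rw [dif_pos h]
      exact h0 ⟨x', h⟩ hx'
    · rw [dif_neg h]

open Classical in
/-- Cut-off functions near a point of a chart. -/
theorem local_cut {X Φ X' Φ' : Type} [TopologicalSpace X] [T2Space X] [LocallyCompactSpace X]
    [TopologicalSpace X'] (L : LogSpace X Φ) (L' : LogSpace X' Φ') (hL' : L'.CutOff) {W : Set X}
    (hW : IsOpen W) {c : W → X'} (hc : IsHomeomorph c) (ix : Φ' → Φ)
    (hdom : ∀ (x : W) f, c x ∈ L'.dom f → x.1 ∈ L.dom (ix f))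
    (hlf : ∀ (x : W) f, c x ∈ L'.dom f → L.lf (ix f) x.1 = L'.lf f (c x)) {z : X} (hz : z ∈ W)
    {V : Set X} (hV : V ∈ 𝓝 z) : ∃ g, L.Smooth g ∧ (∀ᶠ z' in 𝓝 z, g z' = 1) ∧
      ∃ C, IsClosed C ∧ C ⊆ V ∧ ∀ z', z' ∉ C → g z' = 0 := by
  obtain ⟨C0, hC0, hC0V, hC0c⟩ := local_compact_nhds (Filter.inter_mem hV (hW.mem_nhds hz))
  have hO : IsOpen (c '' (Subtype.val ⁻¹' interior C0)) :=
    hc.isOpenMap _ (isOpen_interior.preimage continuous_subtype_val)
  have hzO : c ⟨z, hz⟩ ∈ c '' (Subtype.val ⁻¹' interior C0) :=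
    ⟨⟨z, hz⟩, mem_interior_iff_mem_nhds.2 hC0, rfl⟩
  obtain ⟨g, hg, hg1, C', hC', hC'O, hg0⟩ := hL' {c ⟨z, hz⟩} _ isCompact_singleton hO
    (Set.singleton_subset_iff.2 hzO)
  have hsub : c ⁻¹' C' ⊆ Subtype.val ⁻¹' C0 := by
    intro x hx
    obtain ⟨y, hy, e⟩ := hC'O hx
    have : y = x := hc.injective e
    rw [← this]
    exact interior_subset (s := C0) hy
  have hcomp : IsCompact (Subtype.val ⁻¹' C0 : Set W) := by
    rw [Subtype.isCompact_iff, Subtype.image_preimage_coe, Set.inter_eq_right.2]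
    · exact hC0c
    · exact fun x hx => (hC0V hx).2
  have hCc : IsCompact (c ⁻¹' C') :=
    hcomp.of_isClosed_subset (hC'.preimage hc.continuous) hsub
  have hCcl : IsClosed (Subtype.val '' (c ⁻¹' C')) := (hCc.image continuous_subtype_val).isClosed
  have h0 : ∀ x : W, x.1 ∉ Subtype.val '' (c ⁻¹' C') → g (c x) = 0 := by
    intro x hx
    apply hg0
    intro h
    exact hx ⟨x, h, rfl⟩
  refine ⟨_, smooth_ext L L' hW hc.continuous ix hdom hlf hg hCcl ?_ h0, ?_,
    Subtype.val '' (c ⁻¹' C'), hCcl, ?_, ?_⟩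
  · rintro _ ⟨x, -, rfl⟩
    exact x.2
  · rw [nhdsSet_singleton] at hg1
    have h5 : 𝓝 z = Filter.map Subtype.val (𝓝 (⟨z, hz⟩ : W)) :=
      (hW.isOpenEmbedding_subtypeVal.map_nhds_eq (⟨z, hz⟩ : W)).symm
    rw [h5, Filter.eventually_map]
    filter_upwards [hc.continuous.continuousAt.eventually hg1] with w h2
    rw [dif_pos w.2]
    exact h2
  · rintro _ ⟨x, hx, rfl⟩
    exact (hC0V (hsub hx)).1
  · intro x hx
    by_cases h : x ∈ W
    · rw [dif_pos h]
      exact h0 ⟨x, h⟩ hx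
    · rw [dif_neg h]

end ACUT

namespace Toric

variable {K : Type} [NormedField K] [IsUltrametricDist K] {n : ℕ} {F : Fan n} {Y : Scheme.{0}}
  {ι : K →+* Γ(Y, ⊤)} (T : Toric F Y ι)

include T

/-- Cut-off functions: on the chart `U_σ^an` they come from `ber_cutOff` by `chart_homeo`; those
with compact support are extended by zero. -/
theorem cutOff : (anLS Y ι).CutOff := by
  have := T.t2
  have := T.locallyCompact
  refine LogSpace.cutOff_of_local _ fun z V hV => ?_
  obtain ⟨σ, hσ, -⟩ := T.exists_min z.pt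
  refine ACUT.local_cut (anLS Y ι) (berLS K (AddMonoidAlgebra K (dualM σ.1)))
    (ber_cutOff (finiteType σ)) (An.isOpen_opn (T.U σ)) (T.chart_homeo σ)
    (fun f => ⟨T.U σ, T.ringIso σ f⟩) ?_ ?_ hσ hV
  · intro x f hf
    exact ⟨x.2, hf⟩
  · intro x f _
    rfl

end Toric

end Pool.Agent.TD


end

section

/-! Block Y: transfer of forms near the fibres of the tropicalization map (module TD_Y_FB1). -/

open scoped ContDiff Topology
open AlgebraicGeometry CategoryTheory

namespace Pool.Agent.TD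

/-- The results of section 7 (F2) on the tori `torS K X b` in the Berkovich affine spaces (block
F, F/Tor.lean). -/
abbrev F2 (K : Type) [NormedField K] : Prop :=
  ∀ r : ℕ, TorP K (fun i : Fin r => (MvPolynomial.X i : MvPolynomial (Fin r) K))

/-- The tori `Sb` are the tori of block F. -/
theorem Sb_eq {K : Type} [NormedField K] {r : ℕ} (b : Fin r → ℝ) :
    Sb (K := K) b = torS K (fun i : Fin r => (MvPolynomial.X i : MvPolynomial (Fin r) K)) b := rfl

namespace FB1

section gen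

variable {X Φ X' Φ' : Type} [TopologicalSpace X] [TopologicalSpace X'] {L : LogSpace X Φ}
  {L' : LogSpace X' Φ'}

/-- Pull back of germs to a point `z` over `y`. -/
noncomputable def pullE (m : Mor L L') {z : X} {y : X'} (h : m.toFun z = y) (p q : ℕ) :
    L'.Stalk p q y →ₗ[ℝ] L.Stalk p q z := by
  subst h; exact m.pullS p q z

theorem pullE_rfl (m : Mor L L') (z : X) (p q : ℕ) :
    pullE m (rfl : m.toFun z = m.toFun z) p q = m.pullS p q z := rfl

theorem sfatE (m : Mor L L') {z : X} {y : X'} (h : m.toFun z = y) {p q : ℕ} {θ : Raw Φ' p q}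
    (k : L'.SFat y θ) : L.SFat z (pullR m.ix θ) := by
  subst h; exact m.sfat k

theorem pullE_germ (m : Mor L L') {z : X} {y : X'} (h : m.toFun z = y) {p q : ℕ}
    {θ : Raw Φ' p q} (k : L'.SFat y θ) :
    pullE m h p q (L'.germ θ k) = L.germ (pullR m.ix θ) (sfatE m h k) := by
  subst h; rfl

theorem pullE_injective (m : Mor L L') {z : X} {y : X'} (h : m.toFun z = y) {p q : ℕ}
    (hi : Function.Injective (m.pullS p q z)) : Function.Injective (pullE m h p q) := by
  subst h; exact hi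

end gen

/-- The tori are compact. -/
theorem isCompact_Sb {K : Type} [NormedField K] [IsUltrametricDist K] {r : ℕ} (b : Fin r → ℝ) :
    IsCompact (Sb (K := K) b) := by
  classical
  have hG : Algebra.adjoin K ((Finset.univ.image (MvPolynomial.X : Fin r →
      MvPolynomial (Fin r) K) : Finset (MvPolynomial (Fin r) K)) :
      Set (MvPolynomial (Fin r) K)) = ⊤ := by
    rw [Finset.coe_image, Finset.coe_univ, Set.image_univ]
    exact MvPolynomial.adjoin_range_X
  have hc : IsClosed (Sb (K := K) b) := by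
    have e : Sb (K := K) b = ⋂ i, {y : Ber K (MvPolynomial (Fin r) K) |
        y.v (MvPolynomial.X i) = Real.exp (b i)} := by
      ext y
      simp [Sb]
    rw [e]
    exact isClosed_iInter fun i => isClosed_eq (Ber.continuous_v _) continuous_const
  refine (ber_compact _ hG (∑ i, Real.exp (b i))).of_isClosed_subset hc ?_
  intro y hy g hg
  obtain ⟨i, -, rfl⟩ := Finset.mem_image.1 hg
  rw [hy i]
  exact Finset.single_le_sum (f := fun i => Real.exp (b i)) (fun j _ => (Real.exp_pos _).le)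
    (Finset.mem_univ i)

end FB1

namespace Toric

variable {K : Type} [NormedField K] [IsUltrametricDist K] {n : ℕ} {F : Fan n} {Y : Scheme.{0}}
  {ι : K →+* Γ(Y, ⊤)} (T : Toric F Y ι)

open FB1

/-- Transfer of sections along the fibre: a section `c` on `Y^an` gives a section `c'` on
`M(K[T])` with `c = locMor^* c'` on the fibre over `b`. -/
theorem push (b : TropPt F) {r : ℕ} {e : Fin r → Fin n → ℤ} (he : IsPB b.cone.1 e) {p q : ℕ}
    (c : (anLS Y ι).G p q) : ∃ c' : (berLS K (MvPolynomial (Fin r) K)).G p q,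
    ∀ z : An.opn ι (T.U b.cone), T.trop z.1 = b →
      (T.locMor b.cone he).pullS p q z (c'.1 ((T.locMor b.cone he).toFun z)) =
        ((anLS Y ι).incl _).pullS p q z (c.1 z.1) := by
  classical
  obtain ⟨s, hs, hs'⟩ := T.locMor_section b.cone he
  -- the germs
  have hex : ∀ y : Ber K (MvPolynomial (Fin r) K), ∃ x : (berLS K (MvPolynomial (Fin r) K)).Stalk p q y,
      ∀ z : An.opn ι (T.U b.cone), T.minCone z.1.pt = b.cone →
        ∀ h : (T.locMor b.cone he).toFun z = y,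
          pullE (T.locMor b.cone he) h p q x = ((anLS Y ι).incl _).pullS p q z (c.1 z.1) := by
    intro y
    by_cases hy : ∃ z : An.opn ι (T.U b.cone), T.minCone z.1.pt = b.cone ∧
        (T.locMor b.cone he).toFun z = y
    · obtain ⟨z, hz, rfl⟩ := hy
      obtain ⟨x, hx⟩ := (T.locMor b.cone he).pullS_surjective (p := p) (q := q)
        (T.locMor_affAt b.cone he z hz) (((anLS Y ι).incl _).pullS p q z (c.1 z.1))
      refine ⟨x, fun z' hz' h => ?_⟩
      have e1 : z' = z := T.locMor_inj b.cone he z' z hz' hz h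
      subst e1
      exact hx
    · exact ⟨0, fun z hz h => absurd ⟨z, hz, h⟩ hy⟩
  choose sy hsy using hex
  have hlc := ber_locallyCompact (K := K) (A := MvPolynomial (Fin r) K) inferInstance
  have hcut := ber_cutOff (K := K) (A := MvPolynomial (Fin r) K) inferInstance
  have hO : IsOpen {y : Ber K (MvPolynomial (Fin r) K) | ∀ i, y.v (MvPolynomial.X i) ≠ 0} := by
    simp only [Set.ofPred_forall]
    exact isOpen_iInter_of_finite fun i => isOpen_ne_fun (Ber.continuous_v _) continuous_const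
  obtain ⟨c', hc'⟩ := (berLS K (MvPolynomial (Fin r) K)).extend hcut
    (isCompact_Sb (K := K) (fun i => (tropLS F).lf (e i) b)) sy (by
    intro y0 hy0
    have hy0' : ∀ i, y0.v (MvPolynomial.X i) ≠ 0 := fun i => by
      rw [hy0 i]
      exact (Real.exp_pos _).ne'
    obtain ⟨hz0, hz0'⟩ := hs' ⟨y0, hy0'⟩
    set z0 := s ⟨y0, hy0'⟩ with hz0def
    -- the germ of `c` at `z0`
    obtain ⟨θ1, hθ1⟩ := c.2 z0.1
    obtain ⟨k1, e1⟩ := hθ1.self_of_nhds
    obtain ⟨x, hx⟩ := (T.locMor b.cone he).pullS_surjective (p := p) (q := q)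
        (T.locMor_affAt b.cone he z0 hz0) (((anLS Y ι).incl _).pullS p q z0 (c.1 z0.1))
    obtain ⟨θ, k, rfl⟩ := (berLS K (MvPolynomial (Fin r) K)).exists_germ x
    rw [Mor.pullS_germ, e1] at hx
    have hx2 : ((anLS Y ι).restr (An.opn ι (T.U b.cone))).germ
        (pullR (T.locMor b.cone he).ix θ) ((T.locMor b.cone he).sfat k) =
        ((anLS Y ι).restr (An.opn ι (T.U b.cone))).germ
          (pullR ((anLS Y ι).incl (An.opn ι (T.U b.cone))).ix θ1)
          (((anLS Y ι).incl (An.opn ι (T.U b.cone))).sfat (z := z0) k1) := hx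
    rw [LogSpace.germ_eq_iff] at hx2
    have hvan := hx2.nhds
    -- the neighbourhood
    have hθ1' : ∀ᶠ z in 𝓝 z0, ∃ h : (anLS Y ι).SFat z.1 θ1, c.1 z.1 = (anLS Y ι).germ θ1 h :=
      continuous_subtype_val.continuousAt.eventually hθ1
    have hev := (hs.continuousAt (x := ⟨y0, hy0'⟩)).eventually (hvan.and hθ1')
    have hev2 : ∀ᶠ y in 𝓝 y0, ∃ h : (∀ i, y.v (MvPolynomial.X i) ≠ 0),
        ((anLS Y ι).restr (An.opn ι (T.U b.cone))).Van (s ⟨y, h⟩)
          (pullR (T.locMor b.cone he).ix θ -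
            pullR ((anLS Y ι).incl (An.opn ι (T.U b.cone))).ix θ1) ∧
        ∃ h' : (anLS Y ι).SFat (s ⟨y, h⟩).1 θ1,
          c.1 (s ⟨y, h⟩).1 = (anLS Y ι).germ θ1 h' := by
      rw [← map_nhds_subtype_coe_eq_nhds (p := fun y : Ber K (MvPolynomial (Fin r) K) =>
        ∀ i, y.v (MvPolynomial.X i) ≠ 0) hy0' (hO.mem_nhds hy0'), Filter.eventually_map]
      exact hev.mono fun y hy => ⟨y.2, hy⟩
    have hk : ∀ᶠ y in 𝓝 y0, (berLS K (MvPolynomial (Fin r) K)).SFat y θ := by
      rw [hz0'] at k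
      exact k.nhds
    refine ⟨θ, (hev2.and hk).mono ?_⟩
    rintro y ⟨⟨hyO, hv, h', e'⟩, ky⟩ hyS
    obtain ⟨hz, hzy⟩ := hs' ⟨y, hyO⟩
    refine ⟨ky, ?_⟩
    have hinj := pullE_injective (T.locMor b.cone he) hzy (p := p) (q := q)
      ((T.locMor b.cone he).pullS_injective (T.locMor_affAt b.cone he _ hz)
        (T.locMor_open b.cone he _ hz))
    apply hinj
    rw [hsy y _ hz hzy, pullE_germ, e']
    symm
    exact (LogSpace.germ_eq_iff _ _ _).2 hv)
  refine ⟨c', fun z hz => ?_⟩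
  obtain ⟨hzU, hzc, hzS⟩ := (T.trop_eq_iff he z.1).1 hz
  rw [hc' _ hzS, ← pullE_rfl]
  exact hsy _ z hzc rfl

/-- Conversely. -/
theorem pull (b : TropPt F) {r : ℕ} {e : Fin r → Fin n → ℤ} (he : IsPB b.cone.1 e) {p q : ℕ}
    (c' : (berLS K (MvPolynomial (Fin r) K)).G p q) : ∃ c : (anLS Y ι).G p q,
    ∀ z : An.opn ι (T.U b.cone), T.trop z.1 = b →
      (T.locMor b.cone he).pullS p q z (c'.1 ((T.locMor b.cone he).toFun z)) =
        ((anLS Y ι).incl _).pullS p q z (c.1 z.1) := by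
  classical
  have hW : IsOpen (An.opn ι (T.U b.cone)) := An.isOpen_opn _
  have hex : ∀ z : An Y ι, ∃ x : (anLS Y ι).Stalk p q z, ∀ h : z ∈ An.opn ι (T.U b.cone),
      (T.locMor b.cone he).pullS p q ⟨z, h⟩ (c'.1 ((T.locMor b.cone he).toFun ⟨z, h⟩)) =
        ((anLS Y ι).incl _).pullS p q ⟨z, h⟩ x := by
    intro z
    by_cases h : z ∈ An.opn ι (T.U b.cone)
    · obtain ⟨x, hx⟩ := ((anLS Y ι).incl_bij (p := p) (q := q) hW ⟨z, h⟩).2
        ((T.locMor b.cone he).pullS p q ⟨z, h⟩ (c'.1 ((T.locMor b.cone he).toFun ⟨z, h⟩)))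
      exact ⟨x, fun _ => hx.symm⟩
    · exact ⟨0, fun h' => absurd h' h⟩
  choose sz hsz using hex
  have := T.t2
  have := T.locallyCompact
  obtain ⟨c, hc⟩ := (anLS Y ι).extend T.cutOff (T.isCompact_preimage (isCompact_singleton (x := b)))
    sz (by
    intro z0 hz0
    have hz0' : T.trop z0 = b := hz0
    obtain ⟨hzU, hzc, hzS⟩ := (T.trop_eq_iff he z0).1 hz0'
    obtain ⟨θ, hθ⟩ := c'.2 ((T.locMor b.cone he).toFun ⟨z0, hzU⟩)
    have hev := ((T.locMor b.cone he).cont.continuousAt (x := ⟨z0, hzU⟩)).eventually hθ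
    have hev2 : ∀ᶠ z in 𝓝 z0, ∃ h : z ∈ An.opn ι (T.U b.cone),
        ∃ h' : (berLS K (MvPolynomial (Fin r) K)).SFat ((T.locMor b.cone he).toFun ⟨z, h⟩) θ,
          c'.1 ((T.locMor b.cone he).toFun ⟨z, h⟩) =
            (berLS K (MvPolynomial (Fin r) K)).germ θ h' := by
      rw [← map_nhds_subtype_coe_eq_nhds (p := fun z : An Y ι => z ∈ An.opn ι (T.U b.cone)) hzU
        (hW.mem_nhds hzU), Filter.eventually_map]
      exact hev.mono fun z hz => ⟨z.2, hz⟩
    refine ⟨pullR (T.locMor b.cone he).ix θ, hev2.mono ?_⟩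
    rintro z ⟨h, h', e'⟩ -
    have k : (anLS Y ι).SFat z (pullR (T.locMor b.cone he).ix θ) :=
      (T.locMor b.cone he).sfat h'
    refine ⟨k, ?_⟩
    apply ((anLS Y ι).incl_bij (p := p) (q := q) hW ⟨z, h⟩).1
    rw [← hsz z h, e']
    rfl)
  refine ⟨c, fun z hz => ?_⟩
  rw [hc z.1 hz]
  exact hsz z.1 z.2

end Toric

end Pool.Agent.TD


end

section

/-! Block Y: cut-off functions on the tropical toric variety (module TD_Y_TropCut). -/

open scoped ContDiff Topology

namespace Pool.Agent.TD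

variable {n : ℕ} {F : Fan n}

namespace TropCut

/-- A finite product of smooth functions is smooth. -/
lemma smooth_prod {X Φ : Type} [TopologicalSpace X] (L : LogSpace X Φ) {ι : Type} (s : Finset ι)
    (g : ι → X → ℝ) (hg : ∀ i ∈ s, L.Smooth (g i)) : L.Smooth (fun z => ∏ i ∈ s, g i z) := by
  classical
  induction s using Finset.induction_on with
  | empty =>
    simp only [Finset.prod_empty]
    exact L.smooth_const 1
  | insert i s hi ih =>
    have h1 : L.Smooth (g i) := hg i (Finset.mem_insert_self _ _)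
    have h2 := ih (fun j hj => hg j (Finset.mem_insert_of_mem hj))
    have hF : ContDiff ℝ ∞ (fun x : Fin 2 → ℝ => x 0 * x 1) := by fun_prop
    have hs := LogSpace.Smooth.comp (L := L) (g := ![g i, fun z => ∏ i ∈ s, g i z]) (by
      intro j
      fin_cases j
      · exact h1
      · exact h2) hF
    have e : (fun z => ∏ i ∈ insert i s, g i z) = (fun z => g i z * ∏ i ∈ s, g i z) := by
      funext z
      exact Finset.prod_insert hi
    rw [e]
    exact hs

/-- Extension by zero of a smooth function on an open subset. -/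
lemma smooth_of_restr {X Φ : Type} [TopologicalSpace X] (L : LogSpace X Φ) {W D : Set X}
    (hW : IsOpen W) (hD : IsClosed D) (hDW : D ⊆ W) {g : X → ℝ}
    (hg : (L.restr W).Smooth (fun z => g z.1)) (h0 : ∀ z, z ∉ D → g z = 0) : L.Smooth g := by
  intro z
  by_cases hz : z ∈ W
  · obtain ⟨s, hs, a, ha, he⟩ := hg ⟨z, hz⟩
    refine ⟨s, hs, a, ha, ?_⟩
    rw [← map_nhds_subtype_coe_eq_nhds hz (hW.mem_nhds hz), Filter.eventually_map]
    exact he
  · refine ⟨∅, by simp, fun _ => 0, contDiff_const, ?_⟩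
    filter_upwards [hD.isOpen_compl.mem_nhds (fun h => hz (hDW h))] with z' hz'
    exact h0 z' hz'

lemma absv_nonneg (m : Fin n → ℤ) (b : TropPt F) : 0 ≤ TropPt.absv m b := by
  unfold TropPt.absv
  split_ifs
  · exact (Real.exp_pos _).le
  · exact le_rfl

lemma absv_pos {m : Fin n → ℤ} {b : TropPt F} (h : m ∈ perpM b.cone.1) :
    0 < TropPt.absv m b := by
  unfold TropPt.absv
  rw [dif_pos h]
  exact Real.exp_pos _

lemma absv_eq_zero {m : Fin n → ℤ} {b : TropPt F} (h : m ∉ perpM b.cone.1) :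
    TropPt.absv m b = 0 := by
  unfold TropPt.absv
  rw [dif_neg h]

/-- Bump functions. -/
lemma bump {r δ : ℝ} (hr : 0 ≤ r) (hδ : 0 < δ) : ∃ a : ℝ → ℝ, ContDiff ℝ ∞ a ∧
    (∃ ε, 0 < ε ∧ ∀ t, t < ε → a t = a 0) ∧ (∀ᶠ t in 𝓝 r, a t = 1) ∧
      ∀ t, 0 ≤ t → δ ≤ |t - r| → a t = 0 := by
  rcases hr.eq_or_lt with rfl | hr
  · refine ⟨fun t => 1 - Real.smoothTransition (2 * t / δ - 1), ?_, ⟨δ / 2, by positivity, ?_⟩,
      ?_, ?_⟩
    · have h1 : ContDiff ℝ ∞ (fun t : ℝ => 2 * t / δ - 1) := by fun_prop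
      exact contDiff_const.sub (Real.smoothTransition.contDiff.comp h1)
    · intro t ht
      have h1 : 2 * t / δ - 1 ≤ 0 := by
        rw [sub_nonpos, div_le_one hδ]
        linarith
      have h2 : 2 * (0 : ℝ) / δ - 1 ≤ 0 := by norm_num
      simp only [Real.smoothTransition.zero_of_nonpos h1, Real.smoothTransition.zero_of_nonpos h2]
    · filter_upwards [Iio_mem_nhds (show (0 : ℝ) < δ / 2 by positivity)] with t ht
      have ht' : t < δ / 2 := ht
      have h1 : 2 * t / δ - 1 ≤ 0 := by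
        rw [sub_nonpos, div_le_one hδ]
        linarith
      simp only [Real.smoothTransition.zero_of_nonpos h1, sub_zero]
    · intro t ht ht'
      rw [sub_zero, abs_of_nonneg ht] at ht'
      have h1 : 1 ≤ 2 * t / δ - 1 := by
        rw [le_sub_iff_add_le, le_div_iff₀ hδ]
        linarith
      simp only [Real.smoothTransition.one_of_one_le h1, sub_self]
  · have hρ : 0 < min δ (r / 2) := lt_min hδ (by positivity)
    let f : ContDiffBump r := ⟨min δ (r / 2) / 2, min δ (r / 2), by positivity, by linarith⟩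
    refine ⟨f, f.contDiff, ⟨r / 2, by positivity, ?_⟩, f.eventuallyEq_one, ?_⟩
    · intro t ht
      have h1 : f t = 0 := by
        apply f.zero_of_le_dist
        rw [Real.dist_eq, abs_sub_comm, abs_of_nonneg (by linarith)]
        exact (min_le_right _ _).trans (by linarith)
      have h2 : f 0 = 0 := by
        apply f.zero_of_le_dist
        rw [Real.dist_eq, abs_sub_comm, abs_of_nonneg (by linarith)]
        exact (min_le_right _ _).trans (by linarith)
      rw [h1, h2]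
    · intro t _ ht
      apply f.zero_of_le_dist
      rw [Real.dist_eq]
      exact (min_le_left _ _).trans ht

/-- The neighbourhoods of a point are given by the values of the generators. -/
lemma nhds_gens (b : TropPt F) {V : Set (TropPt F)} (hV : V ∈ 𝓝 b) : ∃ δ : ℝ, 0 < δ ∧
    ∀ b' ∈ TropPt.opn b.cone, (∀ g ∈ gens F b.cone,
      |TropPt.absv g b' - TropPt.absv g b| < δ) → b' ∈ V := by
  let Ψ : TropPt F → (gens F b.cone → ℝ) := fun b' g => TropPt.absv g.1 b'
  let 𝓕 : Filter (TropPt F) := Filter.comap Ψ (𝓝 (Ψ b)) ⊓ Filter.principal (TropPt.opn b.cone)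
  have hopn : ∀ᶠ b' in 𝓕, b' ∈ TropPt.opn b.cone :=
    Filter.mem_inf_of_right (Filter.mem_principal_self _)
  have hbo : b ∈ TropPt.opn b.cone := Set.Subset.refl _
  have ht : ∀ m ∈ dualM b.cone.1, Filter.Tendsto (fun b' : TropPt F => TropPt.absv m b') 𝓕
      (𝓝 (TropPt.absv m b)) := by
    intro m hm
    rw [← closure_gens F b.cone] at hm
    induction hm using AddSubmonoid.closure_induction with
    | mem g hg =>
      have h1 : Filter.Tendsto Ψ 𝓕 (𝓝 (Ψ b)) := Filter.tendsto_comap.mono_left inf_le_left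
      exact ((continuous_apply (⟨g, hg⟩ : gens F b.cone)).tendsto (Ψ b)).comp h1
    | zero =>
      simp only [TropPt.absv_zero]
      exact tendsto_const_nhds
    | add m m' hm hm' h h' =>
      rw [closure_gens F b.cone] at hm hm'
      rw [TropPt.absv_add hbo hm hm']
      refine (h.mul h').congr' ?_
      filter_upwards [hopn] with b' hb'
      exact (TropPt.absv_add hb' hm hm').symm
  have hle : 𝓕 ≤ 𝓝 b := by
    have e : 𝓝 b = ⨅ s ∈ {s | b ∈ s ∧ s ∈ {A : Set (TropPt F) | ∃ (σ : F.cones) (m : dualM σ.1)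
      (V : Set ℝ), IsOpen V ∧ A = {b : TropPt F | b ∈ TropPt.opn σ ∧ TropPt.absv m.1 b ∈ V}}},
        Filter.principal s := TopologicalSpace.nhds_generateFrom
    rw [e]
    refine le_iInf₂ ?_
    rintro _ ⟨hb, σ, m, U, hU, rfl⟩
    rw [Filter.le_principal_iff]
    have hσ : b.cone.1 ⊆ σ.1 := hb.1
    have hm : m.1 ∈ dualM b.cone.1 := fun x hx => m.2 x (hσ hx)
    filter_upwards [hopn, (ht m.1 hm).eventually (hU.mem_nhds hb.2)] with b' h1 h2
    exact ⟨Set.Subset.trans h1 hσ, h2⟩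
  have hb := (Metric.nhds_basis_ball (x := Ψ b)).comap Ψ
  obtain ⟨δ, hδ, h⟩ := (hb.inf_principal (TropPt.opn b.cone)).mem_iff.1 (hle hV)
  refine ⟨δ, hδ, fun b' hb' hg => h ⟨?_, hb'⟩⟩
  show dist (Ψ b') (Ψ b) < δ
  rw [dist_pi_lt_iff hδ]
  intro g
  rw [Real.dist_eq]
  exact hg g.1 g.2

end TropCut

/-- For `m ∈ S_σ` and a smooth function `a` on `ℝ` which is constant near `0`, the function
`a(|χ^m|)` is smooth on `Trop(U_σ)`. -/
theorem smooth_absvT (σ : F.cones) {m : Fin n → ℤ} (hm : m ∈ dualM σ.1) {a : ℝ → ℝ}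
    (ha : ContDiff ℝ ∞ a) {ε : ℝ} (hε : 0 < ε) (h0 : ∀ t, t < ε → a t = a 0) :
    ((tropLS F).restr (TropPt.opn σ)).Smooth (fun b => a (TropPt.absv m b.1)) := by
  rintro ⟨b, hb⟩
  by_cases hmb : m ∈ perpM b.cone.1
  · refine ⟨{m}, ?_, fun y => a (Real.exp (y ⟨m, Finset.mem_singleton_self m⟩)), ?_, ?_⟩
    · intro f hf
      rw [Finset.mem_singleton] at hf
      subst hf
      exact hmb
    · have h1 : ContDiff ℝ ∞ (fun y : ({m} : Finset (Fin n → ℤ)) → ℝ =>
          y ⟨m, Finset.mem_singleton_self m⟩) := contDiff_apply ℝ ℝ _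
      exact ha.comp (Real.contDiff_exp.comp h1)
    · have h1 : {z' : TropPt.opn σ | m ∈ perpM z'.1.cone.1} ∈ 𝓝 (⟨b, hb⟩ : TropPt.opn σ) :=
        (((tropLS F).isOpen_dom m).preimage continuous_subtype_val).mem_nhds hmb
      filter_upwards [h1] with z' hz'
      have h2 : 0 < TropPt.absv m z'.1 := TropCut.absv_pos hz'
      show a (TropPt.absv m z'.1) = a (Real.exp (Real.log (TropPt.absv m z'.1)))
      rw [Real.exp_log h2]
  · refine ⟨∅, by simp, fun _ => a 0, contDiff_const, ?_⟩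
    have h1 : Continuous (fun z' : TropPt.opn σ => TropPt.absv m z'.1) :=
      continuousOn_iff_continuous_domRestrict.1 (TropPt.continuousOn_absv σ ⟨m, hm⟩)
    have h2 : TropPt.absv m b < ε := by
      rw [TropCut.absv_eq_zero hmb]
      exact hε
    filter_upwards [h1.continuousAt.eventually (Iio_mem_nhds h2)] with z' hz'
    exact h0 _ hz'

/-- Cut-off functions on `Trop(Y)`: products of functions `a(|χ^m|)`, supported in a box of
`Trop(U_σ)`, extended by zero; then `LogSpace.cutOff_of_local`. -/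
theorem cutOff_trop : (tropLS F).CutOff := by
  classical
  apply LogSpace.cutOff_of_local
  intro b V hV
  obtain ⟨δ, hδ, hδV⟩ := TropCut.nhds_gens b hV
  let σ : F.cones := b.cone
  have hbo : b ∈ TropPt.opn σ := Set.Subset.refl _
  choose a ha haε ha1 ha0 using fun g : Fin n → ℤ =>
    TropCut.bump (TropCut.absv_nonneg g b) (half_pos hδ)
  let G : TropPt F → ℝ := fun b' =>
    if b' ∈ TropPt.opn σ then ∏ g ∈ gens F σ, a g (TropPt.absv g b') else 0
  -- a box
  obtain ⟨R, hR⟩ : ∃ R : ℝ, ∀ g ∈ gens F σ, TropPt.absv g b + δ / 2 ≤ R := by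
    refine ⟨∑ g ∈ gens F σ, TropPt.absv g b + δ / 2, fun g hg => ?_⟩
    have := Finset.single_le_sum (f := fun g => TropPt.absv g b)
      (fun g _ => TropCut.absv_nonneg g b) hg
    linarith
  let D : Set (TropPt F) := boxT σ R ∩
    ⋂ g ∈ gens F σ, (boxT σ R ∩ (fun b' => TropPt.absv g b') ⁻¹'
      {t | |t - TropPt.absv g b| ≤ δ / 2})
  have hbox : IsClosed (boxT (F := F) σ R) := (isCompact_boxT σ R).isClosed
  have hD : IsClosed D := by
    refine hbox.inter (isClosed_biInter fun g hg => ?_)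
    refine ContinuousOn.preimage_isClosed_of_isClosed ?_ hbox ?_
    · exact (TropPt.continuousOn_absv σ ⟨g, gens_mem hg⟩).mono (fun b' hb' => hb'.1)
    · exact isClosed_le (by fun_prop) continuous_const
  have hDo : D ⊆ TropPt.opn σ := fun b' hb' => hb'.1.1
  have hDV : D ⊆ V := by
    intro b' hb'
    refine hδV b' (hDo hb') fun g hg => ?_
    have h1 := (Set.mem_iInter₂.1 hb'.2 g hg).2
    have h2 : |TropPt.absv g b' - TropPt.absv g b| ≤ δ / 2 := h1
    linarith
  have hG0 : ∀ b', b' ∉ D → G b' = 0 := by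
    intro b' hb'
    by_cases ho : b' ∈ TropPt.opn σ
    · have h1 : ∃ g ∈ gens F σ, δ / 2 < |TropPt.absv g b' - TropPt.absv g b| := by
        by_contra hcon
        push Not at hcon
        have hbx : b' ∈ boxT σ R := by
          refine ⟨ho, fun g hg => ?_⟩
          have h2 := (abs_le.1 (hcon g hg)).2
          linarith [hR g hg]
        exact hb' ⟨hbx, Set.mem_iInter₂.2 fun g hg => ⟨hbx, hcon g hg⟩⟩
      obtain ⟨g, hg, hgl⟩ := h1
      show (if b' ∈ TropPt.opn σ then ∏ g ∈ gens F σ, a g (TropPt.absv g b') else 0) = 0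
      rw [if_pos ho]
      exact Finset.prod_eq_zero hg (ha0 g _ (TropCut.absv_nonneg g b') hgl.le)
    · exact if_neg ho
  refine ⟨G, ?_, ?_, D, hD, hDV, hG0⟩
  · refine TropCut.smooth_of_restr _ (TropPt.isOpen_opn σ) hD hDo ?_ hG0
    have h1 := TropCut.smooth_prod ((tropLS F).restr (TropPt.opn σ)) (gens F σ)
      (fun g b' => a g (TropPt.absv g b'.1)) (fun g hg => by
        obtain ⟨ε, hε, h0⟩ := haε g
        exact smooth_absvT σ (gens_mem hg) (ha g) hε h0)
    have e : (fun z : TropPt.opn σ => G z.1) =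
        fun z => ∏ g ∈ gens F σ, a g (TropPt.absv g z.1) := by
      funext z
      exact if_pos z.2
    rw [e]
    exact h1
  · have h1 : ∀ᶠ b' in 𝓝 b, ∀ g ∈ gens F σ, a g (TropPt.absv g b') = 1 := by
      rw [Filter.eventually_all_finset]
      intro g hg
      have h2 : ContinuousAt (fun b' : TropPt F => TropPt.absv g b') b :=
        (TropPt.continuousOn_absv σ ⟨g, gens_mem hg⟩).continuousAt
          ((TropPt.isOpen_opn σ).mem_nhds hbo)
      exact h2.eventually (ha1 g)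
    filter_upwards [h1, (TropPt.isOpen_opn σ).mem_nhds hbo] with b' h2 h3
    show (if b' ∈ TropPt.opn σ then ∏ g ∈ gens F σ, a g (TropPt.absv g b') else 0) = 1
    rw [if_pos h3]
    exact Finset.prod_eq_one h2

end Pool.Agent.TD


end

section

/-! Block Y: germs of forms only depend on the functions `lf f` near the point. -/

open scoped ContDiff Topology

namespace Pool.Agent.TD

namespace LogSpace

variable {X Φ Φ' : Type} [TopologicalSpace X] (L : LogSpace X Φ) {p q : ℕ} {z : X}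

theorem germ_pullR_congr (φ φ' : Φ' → Φ) {s : Finset Φ'} {θ : Raw Φ' p q} (hs : IsSF s θ)
    (hφ : ∀ f ∈ s, z ∈ L.dom (φ f)) (hφ' : ∀ f ∈ s, z ∈ L.dom (φ' f))
    (e : ∀ f ∈ s, ∀ᶠ z' in 𝓝 z, L.lf (φ f) z' = L.lf (φ' f) z')
    (h : L.SFat z (pullR φ θ)) (h' : L.SFat z (pullR φ' θ)) :
    L.germ (pullR φ θ) h = L.germ (pullR φ' θ) h' := by
  classical
  rw [germ_eq_iff]
  have hd : ∀ᶠ z' in 𝓝 z, ∀ f ∈ s, z' ∈ L.dom (φ f) ∧ z' ∈ L.dom (φ' f) ∧
      L.lf (φ f) z' = L.lf (φ' f) z' := by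
    rw [Filter.eventually_all_finset]
    intro f hf
    have h1 : ∀ᶠ z' in 𝓝 z, z' ∈ L.dom (φ f) := (L.isOpen_dom _).mem_nhds (hφ f hf)
    have h2 : ∀ᶠ z' in 𝓝 z, z' ∈ L.dom (φ' f) := (L.isOpen_dom _).mem_nhds (hφ' f hf)
    exact h1.and (h2.and (e f hf))
  refine ⟨s.image φ ∪ s.image φ', ?_, _, hd, ?_, ?_⟩
  · have h1 : IsSF (s.image φ ∪ s.image φ') (pullR φ θ) :=
      (hs.pullR (φ := φ)).mono Finset.subset_union_left
    have h2 : IsSF (s.image φ ∪ s.image φ') (pullR φ' θ) :=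
      (hs.pullR (φ := φ')).mono Finset.subset_union_right
    have h3 := h1.add (h2.smul (-1))
    have h4 : pullR φ θ + (-1 : ℝ) • pullR φ' θ = pullR φ θ - pullR φ' θ := by
      rw [neg_smul, one_smul, sub_eq_add_neg]
    rwa [h4] at h3
  · intro f hf z' hz'
    rcases Finset.mem_union.1 hf with hf | hf
    · obtain ⟨g, hg, rfl⟩ := Finset.mem_image.1 hf
      exact (hz' g hg).1
    · obtain ⟨g, hg, rfl⟩ := Finset.mem_image.1 hf
      exact (hz' g hg).2.1
  · intro σ hσ hσP x w v hx hw hv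
    obtain ⟨α, hα, hα'⟩ := hs
    let ℓ : s → ((↥(s.image φ ∪ s.image φ') → ℝ) →ₗ[ℝ] ℝ) := fun f =>
      LinearMap.proj ⟨φ f.1, Finset.mem_union_left _ (Finset.mem_image_of_mem _ f.2)⟩ -
        LinearMap.proj ⟨φ' f.1, Finset.mem_union_right _ (Finset.mem_image_of_mem _ f.2)⟩
    have h0 : ∀ f : s, ∀ y ∈ σ, ℓ f y = 0 := by
      intro f y hy
      obtain ⟨z', hz', rfl⟩ := hσP hy
      show L.lf (φ f.1) z' - L.lf (φ' f.1) z' = 0
      rw [(hz' f.1 f.2).2.2, sub_self]
    have h1 : ∀ f : s, ∀ y ∈ vectorSpan ℝ σ, ℓ f y = 0 := by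
      intro f y hy
      rw [vectorSpan_def] at hy
      induction hy using Submodule.span_induction with
      | mem y hy =>
        obtain ⟨a, ha, b, hb, rfl⟩ := Set.mem_vsub.1 hy
        rw [vsub_eq_sub, map_sub, h0 f a ha, h0 f b hb, sub_self]
      | zero => exact map_zero _
      | add a b _ _ ha hb => rw [map_add, ha, hb, add_zero]
      | smul c a _ ha => rw [map_smul, ha, smul_zero]
    have key : ∀ y : Φ → ℝ, (∀ f : s, ℓ f (rs (s.image φ ∪ s.image φ') y) = 0) →
        rs s (fun f => y (φ f)) = rs s (fun f => y (φ' f)) := by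
      intro y hy
      funext f
      have := hy f
      exact sub_eq_zero.1 this
    show θ (fun f => x (φ f)) (fun i f => w i (φ f)) (fun j f => v j (φ f)) -
      θ (fun f => x (φ' f)) (fun i f => w i (φ' f)) (fun j f => v j (φ' f)) = 0
    rw [hα', hα', key x fun f => h0 f _ hx]
    have e1 : (fun i => rs s fun f => w i (φ f)) = fun i => rs s fun f => w i (φ' f) :=
      funext fun i => key (w i) fun f => h1 f _ (hw i)
    have e2 : (fun j => rs s fun f => v j (φ f)) = fun j => rs s fun f => v j (φ' f) :=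
      funext fun j => key (v j) fun f => h1 f _ (hv j)
    rw [e1, e2, sub_self]

end LogSpace

end Pool.Agent.TD


end

section

/-! Block Y: forms near the fibres of the tropicalization map (module TD_Y_FB2). -/

open scoped ContDiff Topology
open AlgebraicGeometry CategoryTheory

namespace Pool.Agent.TD

theorem exists_pb {n : ℕ} (σ : Set (Fin n → ℝ)) :
    ∃ (r : ℕ) (e : Fin r → Fin n → ℤ), IsPB σ e := by
  obtain ⟨r, e, h1, h2⟩ := perp_basis σ
  exact ⟨r, e, ⟨h1, h2⟩⟩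

/-- The germs of the constant forms in the functions of `s`. -/
noncomputable def LogSpace.cstM {X Φ : Type} [TopologicalSpace X] (L : LogSpace X Φ)
    (s : Finset Φ) (p : ℕ) (z : X) : Submodule ℝ (L.Stalk p 0 z) where
  carrier := {c | ∃ θ : Raw Φ p 0, IsCst θ ∧ IsSF s θ ∧ ∃ h : L.SFat z θ, c = L.germ θ h}
  zero_mem' := ⟨0, isCst_zero, IsSF.zero s, LogSpace.SFat.zero L, L.germ_zero.symm⟩
  add_mem' := by
    rintro _ _ ⟨θ, h1, h2, h3, rfl⟩ ⟨η, k1, k2, k3, rfl⟩
    exact ⟨θ + η, h1.add k1, h2.add k2, h3.add k3, (L.germ_add h3 k3).symm⟩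
  smul_mem' := by
    rintro c _ ⟨θ, h1, h2, h3, rfl⟩
    exact ⟨c • θ, h1.smul c, h2.smul c, h3.smul c, (L.germ_smul c h3).symm⟩

theorem LogSpace.symS_cstM {X Φ : Type} [TopologicalSpace X] (L : LogSpace X Φ)
    (s : Finset Φ) {z : X} : ∀ (p : ℕ) (ℓ : Fin p → L.Stalk 1 0 z), (∀ i, ℓ i ∈ L.cstM s 1 z) →
      L.symS p ℓ ∈ L.cstM s p z
  | 0, _, _ => ⟨one0, isCst_one0, isSF_one0 s, ⟨∅, isSF_one0 ∅, by simp⟩, rfl⟩
  | p + 1, ℓ, hℓ => by
    obtain ⟨θ, h1, h2, h3, e1⟩ := L.symS_cstM s p (fun i => ℓ i.succ) (fun i => hℓ i.succ)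
    obtain ⟨η, k1, k2, k3, e2⟩ := hℓ 0
    refine ⟨wdg1 η θ, k1.wdg1 h1, IsSF.wdg1 k2 h2, LogSpace.SFat.wdg1 L k3 h3, ?_⟩
    show L.wdS p 0 z (ℓ 0) (L.symS p (fun i => ℓ i.succ)) = _
    rw [e1, e2, L.wdS_germ]

/-- Near `b` the function `log |χ^m|`, `m ∈ σ^⊥`, is a combination of the `log |χ^{e_j}|`. -/
theorem trop_dlS_mem {n : ℕ} {F : Fan n} {b : TropPt F} {r : ℕ} {e : Fin r → Fin n → ℤ}
    [DecidableEq (Fin n → ℤ)] (he : IsPB b.cone.1 e) {m : Fin n → ℤ} (hm : b ∈ (tropLS F).dom m) :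
    (tropLS F).dlS m hm ∈ (tropLS F).cstM (Finset.univ.image e) 1 b := by
  obtain ⟨a, ha, -⟩ := he.uniq m hm
  have ha' : m = ∑ i, a i • e i := ha
  have hd : ∀ i, b ∈ (tropLS F).dom (e i) := fun i => he.mem i
  have key : ∀ᶠ z' in 𝓝 b, (tropLS F).lf m z' = 0 + ∑ i, (a i : ℝ) * (tropLS F).lf (e i) z' := by
    have h1 : ∀ᶠ z' in 𝓝 b, ∀ i, z' ∈ (tropLS F).dom (e i) :=
      Filter.eventually_all.2 fun i => ((tropLS F).isOpen_dom (e i)).mem_nhds (hd i)
    refine h1.mono fun z' hz' => ?_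
    have hz'' : ∀ i, e i ∈ perpM z'.cone.1 := hz'
    have hval : ∀ (m' : Fin n → ℤ) (h : m' ∈ perpM z'.cone.1),
        (tropLS F).lf m' z' = z'.val ⟨m', h⟩ := by
      intro m' h
      show Real.log (TropPt.absv m' z') = _
      unfold TropPt.absv
      rw [dif_pos h, Real.log_exp]
    have hmm : m ∈ perpM z'.cone.1 := by
      rw [ha']
      exact AddSubgroup.sum_mem _ fun i _ => (perpM z'.cone.1).zsmul_mem (hz'' i) _
    rw [hval m hmm, zero_add]
    have e1 : (⟨m, hmm⟩ : perpM z'.cone.1) = ∑ i, a i • (⟨e i, hz'' i⟩ : perpM z'.cone.1) := by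
      apply Subtype.ext
      rw [AddSubgroup.val_finsetSum]
      exact ha'
    rw [e1, map_sum]
    refine Finset.sum_congr rfl fun i _ => ?_
    rw [map_zsmul, hval (e i) (hz'' i), zsmul_eq_mul]
  rw [(tropLS F).dlS_eq_sum hm hd (fun i => (a i : ℝ)) 0 key]
  refine Submodule.sum_mem _ fun i _ => Submodule.smul_mem _ _ ?_
  exact ⟨dlg (e i), isCst_dlg (e i), isSF_dlg (Finset.mem_image_of_mem e (Finset.mem_univ i)),
    ⟨{e i}, isSF_dlg (Finset.mem_singleton_self (e i)), by simpa using hd i⟩, rfl⟩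

theorem trop_Lp_le {n : ℕ} {F : Fan n} {b : TropPt F} {r : ℕ} {e : Fin r → Fin n → ℤ}
    [DecidableEq (Fin n → ℤ)] (he : IsPB b.cone.1 e) (p : ℕ) :
    (tropLS F).Lp p b ≤ (tropLS F).cstM (Finset.univ.image e) p b := by
  unfold LogSpace.Lp
  rw [Submodule.span_le]
  rintro _ ⟨f, hf, rfl⟩
  exact (tropLS F).symS_cstM _ p _ fun i => trop_dlS_mem he (hf i)

namespace Toric

variable {K : Type} [NormedField K] [IsUltrametricDist K] {n : ℕ} {F : Fan n} {Y : Scheme.{0}}
  {ι : K →+* Γ(Y, ⊤)} (T : Toric F Y ι)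

/-- Every point of the torus comes from a point of the fibre. -/
theorem exists_fib_pt {b : TropPt F} {r : ℕ} {e : Fin r → Fin n → ℤ} (he : IsPB b.cone.1 e)
    {y : Ber K (MvPolynomial (Fin r) K)}
    (hy : y ∈ Sb (K := K) (fun i => (tropLS F).lf (e i) b)) :
    ∃ z : An.opn ι (T.U b.cone), T.minCone z.1.pt = b.cone ∧ T.trop z.1 = b ∧
      (T.locMor b.cone he).toFun z = y := by
  obtain ⟨s, -, hs⟩ := T.locMor_section b.cone he
  have hy0 : ∀ i, y.v (MvPolynomial.X i) ≠ 0 := fun i => by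
    rw [hy i]
    exact (Real.exp_pos _).ne'
  refine ⟨s ⟨y, hy0⟩, (hs _).1, ?_, (hs _).2⟩
  rw [T.trop_eq_iff he]
  refine ⟨(s ⟨y, hy0⟩).2, (hs _).1, ?_⟩
  have h2 := (hs ⟨y, hy0⟩).2
  have h3 : (T.locMor b.cone he).toFun ⟨(s ⟨y, hy0⟩).1, (s ⟨y, hy0⟩).2⟩ = y := h2
  rw [h3]
  exact hy

/-- The pull back by the comparison morphism is injective at the points of the orbit. -/
theorem locMor_pullS_inj {σ : F.cones} {r : ℕ} {e : Fin r → Fin n → ℤ} (he : IsPB σ.1 e)
    (z : An.opn ι (T.U σ)) (hz : T.minCone z.1.pt = σ) (p q : ℕ) :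
    Function.Injective ((T.locMor σ he).pullS p q z) :=
  Mor.pullS_injective _ (T.locMor_affAt σ he z hz) (T.locMor_open σ he z hz)

/-- The section obtained by `push` is closed on the torus if the given one is on the fibre. -/
theorem push_closed {b : TropPt F} {r : ℕ} {e : Fin r → Fin n → ℤ} (he : IsPB b.cone.1 e)
    {p q : ℕ} {c : (anLS Y ι).G p q} {c' : (berLS K (MvPolynomial (Fin r) K)).G p q}
    (hcc : ∀ z : An.opn ι (T.U b.cone), T.trop z.1 = b →
      (T.locMor b.cone he).pullS p q z (c'.1 ((T.locMor b.cone he).toFun z)) =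
        ((anLS Y ι).incl _).pullS p q z (c.1 z.1))
    (hc : ∀ z, T.trop z = b → (anLS Y ι).ddS p q z (c.1 z) = 0) :
    ∀ y ∈ Sb (K := K) (fun i => (tropLS F).lf (e i) b),
      (berLS K (MvPolynomial (Fin r) K)).ddS p q y (c'.1 y) = 0 := by
  intro y hy
  obtain ⟨z, hz1, hz2, rfl⟩ := T.exists_fib_pt he hy
  apply T.locMor_pullS_inj he z hz1 p (q + 1)
  rw [Mor.pullS_ddS, hcc z hz2, map_zero]
  have h1 := ((anLS Y ι).incl (An.opn ι (T.U b.cone))).pullS_ddS (z := z) (c.1 z.1)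
  have h2 : (anLS Y ι).ddS p q (((anLS Y ι).incl (An.opn ι (T.U b.cone))).toFun z) (c.1 z.1) = 0 :=
    hc z.1 hz2
  rw [h2, map_zero] at h1
  exact h1.symm

/-- Exactness near the fibres. -/
theorem fib_exact (h : F2 K) (b : TropPt F) {p q : ℕ} (c : (anLS Y ι).G p (q + 1))
    (hc : ∀ z, T.trop z = b → (anLS Y ι).ddS p (q + 1) z (c.1 z) = 0) :
    ∃ e : (anLS Y ι).G p q, ∀ z, T.trop z = b → (anLS Y ι).ddS p q z (e.1 z) = c.1 z := by
  obtain ⟨r, e, he⟩ := exists_pb b.cone.1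
  obtain ⟨c1, hc1⟩ := T.push b he c
  obtain ⟨e1, he1⟩ := (h r).ex _ p q c1 (T.push_closed he hc1 hc)
  obtain ⟨e2, he2⟩ := T.pull b he e1
  refine ⟨e2, fun z hz => ?_⟩
  obtain ⟨hzU, hmc, hS⟩ := (T.trop_eq_iff he z).1 hz
  have k1 := hc1 ⟨z, hzU⟩ hz
  have k2 := he2 ⟨z, hzU⟩ hz
  have k3 := he1 _ hS
  apply ((anLS Y ι).incl_bij (An.isOpen_opn _) ⟨z, hzU⟩).1
  have k4 := ((anLS Y ι).incl (An.opn ι (T.U b.cone))).pullS_ddS (z := ⟨z, hzU⟩) (e2.1 z)
  have k5 := (T.locMor b.cone he).pullS_ddS (z := ⟨z, hzU⟩)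
    (e1.1 ((T.locMor b.cone he).toFun ⟨z, hzU⟩))
  rw [← k3] at k5
  exact k4.trans ((congrArg _ k2.symm).trans (k5.symm.trans k1))

/-- Comparison of the two pull backs of the constant forms at a point of `U_σ`. -/
theorem germ_cst_cmp {σ : F.cones} {r : ℕ} {e : Fin r → Fin n → ℤ} (he : IsPB σ.1 e)
    (z : An.opn ι (T.U σ)) {p : ℕ} (α : (Fin r → ℝ) [⋀^Fin p]→L[ℝ] ℝ)
    (h1 : ((anLS Y ι).restr (An.opn ι (T.U σ))).SFat z
      (pullR (T.locMor σ he).ix (cstR (fun i : Fin r => (MvPolynomial.X i : MvPolynomial (Fin r) K)) α)))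
    (h2 : ((anLS Y ι).restr (An.opn ι (T.U σ))).SFat z
      (pullR ((anLS Y ι).incl (An.opn ι (T.U σ))).ix (pullR T.tropMor.ix (cstR e α)))) :
    ((anLS Y ι).restr (An.opn ι (T.U σ))).germ _ h1 =
      ((anLS Y ι).restr (An.opn ι (T.U σ))).germ _ h2 := by
  classical
  have hs : IsSF (Finset.univ : Finset (Fin r)) (cstR (id : Fin r → Fin r) α) := by
    have := isSF_cstR (id : Fin r → Fin r) α
    rwa [Finset.image_id] at this
  have key : ∀ (i : Fin r) (z' : An.opn ι (T.U σ)),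
      An.absv (T.U σ) (T.evPoly σ he (MvPolynomial.X i)) z'.1 =
        An.absv (T.Um (e i)) (T.chiU (e i)) z'.1 := by
    intro i z'
    rw [T.absv_chiU (he.mem i) z'.2]
    have e1 : T.evPoly σ he (MvPolynomial.X i) = T.chi σ ⟨e i, TropPt.perp_dual (he.mem i)⟩ :=
      MvPolynomial.eval₂_X _ _ _
    rw [e1]
  have hne : ∀ i : Fin r, An.absv (T.U σ) (T.evPoly σ he (MvPolynomial.X i)) z.1 ≠ 0 :=
    fun i => T.locMor_X_ne_zero σ he z i
  refine LogSpace.germ_pullR_congr ((anLS Y ι).restr (An.opn ι (T.U σ)))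
    (fun i => (⟨T.U σ, T.evPoly σ he (MvPolynomial.X i)⟩ : Σ U : Y.Opens, Γ(Y, U)))
    (fun i => (⟨T.Um (e i), T.chiU (e i)⟩ : Σ U : Y.Opens, Γ(Y, U))) hs ?_ ?_ ?_ h1 h2
  · intro i _
    exact ⟨z.2, hne i⟩
  · intro i _
    refine ⟨T.U_le_Um (he.mem i) z.2, ?_⟩
    rw [← key i z]
    exact hne i
  · intro i _
    refine Filter.Eventually.of_forall fun z' => ?_
    show Real.log _ = Real.log _
    rw [key i z']

theorem pullG_germ {b : TropPt F} {p : ℕ} (a : (tropLS F).G p 0) {θ : Raw (Fin n → ℤ) p 0}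
    (hθ : (tropLS F).SFat b θ) (hab : a.1 b = (tropLS F).germ θ hθ) {z : An Y ι}
    (hz : T.trop z = b) : ∃ hk : (anLS Y ι).SFat z (pullR T.tropMor.ix θ),
      (T.tropMor.pullG p 0 a).1 z = (anLS Y ι).germ (pullR T.tropMor.ix θ) hk := by
  subst hz
  refine ⟨T.tropMor.sfat hθ, ?_⟩
  rw [Mor.pullG_val]
  exact (congrArg _ hab).trans (T.tropMor.pullS_germ hθ)

/-- Closed forms of type `(p,0)` near the fibres come from `Trop(Y)`. -/
theorem fib_zero (h : F2 K) (b : TropPt F) {p : ℕ} (c : (anLS Y ι).G p 0)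
    (hc : ∀ z, T.trop z = b → (anLS Y ι).ddS p 0 z (c.1 z) = 0) :
    ∃ a : (tropLS F).G p 0, (tropLS F).ddS p 0 b (a.1 b) = 0 ∧
      ∀ z, T.trop z = b → c.1 z = (T.tropMor.pullG p 0 a).1 z := by
  classical
  obtain ⟨r, e, he⟩ := exists_pb b.cone.1
  obtain ⟨c1, hc1⟩ := T.push b he c
  obtain ⟨α, hα⟩ := (h r).cst _ p c1 (T.push_closed he hc1 hc)
  have hd : ∀ i, b ∈ (tropLS F).dom (e i) := fun i => he.mem i
  have hsf : (tropLS F).SFat b (cstR e α) := (tropLS F).sfat_cstR hd α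
  obtain ⟨a, ha⟩ := (tropLS F).extend_germ cutOff_trop hsf
  obtain ⟨hb, hab⟩ := ha.self_of_nhds
  refine ⟨a, ?_, ?_⟩
  · rw [hab, LogSpace.ddS_germ]
    exact (tropLS F).germ_of_eq_zero (dd_cst (isCst_cstR e α)) _
  · intro z hz
    obtain ⟨hzU, hmc, hS⟩ := (T.trop_eq_iff he z).1 hz
    have k1 := hc1 ⟨z, hzU⟩ hz
    obtain ⟨h3, k3⟩ := hα _ hS
    subst hz
    apply ((anLS Y ι).incl_bij (An.isOpen_opn _) ⟨z, hzU⟩).1
    have k4 : (T.tropMor.pullG p 0 a).1 z = (anLS Y ι).germ (pullR T.tropMor.ix (cstR e α))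
        (T.tropMor.sfat hb) := by
      rw [Mor.pullG_val]
      exact (congrArg _ hab).trans (T.tropMor.pullS_germ hb)
    rw [← k1, k3, Mor.pullS_germ]
    refine (T.germ_cst_cmp he ⟨z, hzU⟩ α _
      (((anLS Y ι).incl (An.opn ι (T.U (T.trop z).cone))).sfat (z := ⟨z, hzU⟩)
        (T.tropMor.sfat hb))).trans ?_
    exact (congrArg (((anLS Y ι).incl (An.opn ι (T.U (T.trop z).cone))).pullS p 0 ⟨z, hzU⟩)
      k4).symm

/-- Injectivity in type `(p,0)`. -/
theorem fib_inj (h2 : F2 K) (b : TropPt F) {p : ℕ} (a : (tropLS F).G p 0)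
    (ha : (tropLS F).ddS p 0 b (a.1 b) = 0)
    (h : ∀ z, T.trop z = b → (T.tropMor.pullG p 0 a).1 z = 0) : a.1 b = 0 := by
  classical
  obtain ⟨r, e, he⟩ := exists_pb b.cone.1
  obtain ⟨θ, hc, hs, hθ, hab⟩ := trop_Lp_le he p ((tropLS F).poincare0 (starAt_trop b) _ ha)
  obtain ⟨α, rfl⟩ := exists_cstR hc hs
  have hα : α = 0 := by
    refine (h2 r).uniq (fun i => (tropLS F).lf (e i) b) p α fun y hy => ?_
    obtain ⟨z, hz1, hz2, rfl⟩ := T.exists_fib_pt he hy
    have hd : ∀ i : Fin r, (T.locMor b.cone he).toFun z ∈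
        (berLS K (MvPolynomial (Fin r) K)).dom (MvPolynomial.X i) := fun i =>
      T.locMor_X_ne_zero b.cone he z i
    have hsf := (berLS K (MvPolynomial (Fin r) K)).sfat_cstR hd α
    rw [← (berLS K (MvPolynomial (Fin r) K)).germ_eq_zero hsf]
    apply T.locMor_pullS_inj he z hz1 p 0
    rw [map_zero, Mor.pullS_germ]
    obtain ⟨hk, k4⟩ := T.pullG_germ a hθ hab hz2
    refine (T.germ_cst_cmp he z α _
      (((anLS Y ι).incl (An.opn ι (T.U b.cone))).sfat (z := z) hk)).trans ?_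
    refine (congrArg (((anLS Y ι).incl (An.opn ι (T.U b.cone))).pullS p 0 z) k4).symm.trans ?_
    rw [h z.1 hz2]
    exact map_zero _
  rw [hab]
  exact (tropLS F).germ_of_eq_zero (by rw [hα]; rfl) _

end Toric

end Pool.Agent.TD


end

section

/-! Block Y: the comparison of the Dolbeault cohomology of `Trop(Y)` and `Y^an`, `Y` toric
(stage 1). -/

open scoped ContDiff Topology
open AlgebraicGeometry CategoryTheory

namespace Pool.Agent.TD

namespace Toric

variable {K : Type} [NormedField K] [IsUltrametricDist K] {n : ℕ} {F : Fan n}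
  {Y : Scheme.{0}} {ι : K →+* Γ(Y, ⊤)} (T : Toric F Y ι)

theorem isProp : T.tropMor.IsProp := fun _ h => T.isCompact_preimage h

theorem properOn : ProperOn Set.univ T.trop := by
  refine properOn_of_comp T.continuous_trop isClosed_univ fun Z hZ => ?_
  rw [Set.univ_inter]
  exact T.isCompact_preimage hZ

theorem supp_pullG {p q : ℕ} (c : (tropLS F).G p q) {z : An Y ι}
    (h : z ∈ (anLS Y ι).supp (T.tropMor.pullG p q c)) : T.trop z ∈ (tropLS F).supp c := by
  intro h0
  apply h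
  rw [Mor.pullG_val]
  have h1 : c.1 (T.tropMor.toFun z) = 0 := h0
  rw [h1, map_zero]

section inst

variable [T2Space (An Y ι)] [LocallyCompactSpace (An Y ι)]

/-- The complex of forms on `Y^an`, pushed forward to `Trop(Y)`. -/
noncomputable def cxP (p : ℕ) : SCx (TropPt F) := ((anLS Y ι).cx T.cutOff p).push T.properOn

/-- The class of a form. -/
noncomputable def clsP (p q : ℕ) : (anLS Y ι).G p q →+ (T.cxP p).G q :=
  ((anLS Y ι).cx T.cutOff p).cls Set.univ q

theorem clsP_surj (p q : ℕ) : Function.Surjective (T.clsP p q) :=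
  ((anLS Y ι).cx T.cutOff p).cls_surjective q

theorem clsP_eq_zero {p q : ℕ} {c : (anLS Y ι).G p q} : T.clsP p q c = 0 ↔ c = 0 := by
  have h1 := ((anLS Y ι).cx T.cutOff p).cls_eq_zero (S := Set.univ) (q := q) (c := c)
  refine Iff.trans h1 ?_
  constructor
  · intro h
    apply Subtype.ext
    funext z
    exact ((anLS Y ι).disjoint_supp_iff p c Set.univ).1 h z trivial
  · rintro rfl
    exact ((anLS Y ι).disjoint_supp_iff p 0 Set.univ).2 fun z _ => rfl

theorem clsP_inj {p q : ℕ} {c c' : (anLS Y ι).G p q} (h : T.clsP p q c = T.clsP p q c') :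
    c = c' := by
  rw [← sub_eq_zero] at h ⊢
  rw [← map_sub] at h
  exact T.clsP_eq_zero.1 h

theorem clsP_d (p q : ℕ) (c : (anLS Y ι).G p q) :
    (T.cxP p).d q (T.clsP p q c) = T.clsP p (q + 1) ((anLS Y ι).ddG p q c) := rfl

theorem supp_clsP {p q : ℕ} (c : (anLS Y ι).G p q) :
    (T.cxP p).supp (T.clsP p q c) = T.trop '' ((anLS Y ι).supp c) := by
  have h := ((anLS Y ι).cx T.cutOff p).push_supp T.properOn c
  rw [Set.inter_univ] at h
  exact h

/-- The morphism of complexes with supports. -/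
noncomputable def shom (p : ℕ) : SHom ((tropLS F).cx cutOff_trop p) (T.cxP p) where
  f q := (T.clsP p q).comp (T.tropMor.pullG p q).toAddMonoidHom
  comm q c := congrArg (T.clsP p (q + 1)) (T.tropMor.pullG_dd p q c)
  supp q c := by
    have h := T.supp_clsP (T.tropMor.pullG p q c)
    refine h.trans_subset ?_
    rintro _ ⟨z, hz, rfl⟩
    exact T.supp_pullG c hz

theorem shom_f (p q : ℕ) (c : (tropLS F).G p q) :
    (T.shom p).f q c = T.clsP p q (T.tropMor.pullG p q c) := rfl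

theorem qiso (h : F2 K) (p : ℕ) (b : TropPt F) : (T.shom p).QIso {b} := by
  have hst := starAt_trop b
  have key : ∀ {q : ℕ} (P : An Y ι → Prop),
      (∀ z ∈ (Set.univ : Set (An Y ι)) ∩ T.trop ⁻¹' {b}, P z) ↔ ∀ z, T.trop z = b → P z := by
    intro q P
    constructor
    · intro h z hz
      exact h z ⟨trivial, hz⟩
    · rintro h z ⟨-, hz⟩
      exact h z hz
  refine ⟨?_, ?_⟩
  · intro q c hc hb
    rcases q with _ | q
    · have h1 : ((anLS Y ι).cx T.cutOff p).Bd (Set.univ ∩ T.trop ⁻¹' {b}) 0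
          (T.tropMor.pullG p 0 c) :=
        (((anLS Y ι).cx T.cutOff p).push_Bd T.properOn {b} (T.tropMor.pullG p 0 c)).1 hb
      rw [(anLS Y ι).cx_Bd_zero_iff T.cutOff, key (q := 0)] at h1
      have h2 := ((tropLS F).cx_Cl_iff cutOff_trop p {b} 0 c).1 hc b rfl
      rw [(tropLS F).cx_Bd_zero_iff cutOff_trop]
      intro z hz
      rw [Set.mem_singleton_iff.1 hz]
      exact T.fib_inj h b c h2 h1
    · exact (tropLS F).cx_Bd_of_star cutOff_trop p hst q c hc
  · intro q e he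
    obtain ⟨c, rfl⟩ := T.clsP_surj p q e
    have h1 : ((anLS Y ι).cx T.cutOff p).Cl (Set.univ ∩ T.trop ⁻¹' {b}) q c :=
      (((anLS Y ι).cx T.cutOff p).push_Cl T.properOn {b} c).1 he
    rw [(anLS Y ι).cx_Cl_iff T.cutOff, key (q := 0)] at h1
    rcases q with _ | q
    · obtain ⟨a, ha, hac⟩ := T.fib_zero h b c h1
      refine ⟨a, ?_, ?_⟩
      · exact ((tropLS F).cx_Cl_iff cutOff_trop p {b} 0 a).2 (by rintro _ rfl; exact ha)
      · have h2 : ((anLS Y ι).cx T.cutOff p).Bd (Set.univ ∩ T.trop ⁻¹' {b}) 0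
            (c - T.tropMor.pullG p 0 a) := by
          rw [(anLS Y ι).cx_Bd_zero_iff T.cutOff, key (q := 0)]
          intro z hz
          have h3 := hac z hz
          show c.1 z - (T.tropMor.pullG p 0 a).1 z = 0
          rw [h3, sub_self]
        have h3 := (((anLS Y ι).cx T.cutOff p).push_Bd T.properOn {b}
          (c - T.tropMor.pullG p 0 a)).2 h2
        have h4 : T.clsP p 0 (c - T.tropMor.pullG p 0 a) =
            T.clsP p 0 c - (T.shom p).f 0 a := map_sub (T.clsP p 0) _ _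
        rw [← h4]
        exact h3
    · obtain ⟨e, he'⟩ := T.fib_exact h b c h1
      refine ⟨(0 : (tropLS F).G p (q + 1)), ?_, ?_⟩
      · refine ((tropLS F).cx_Cl_iff cutOff_trop p {b} (q + 1) 0).2 ?_
        rintro z -
        exact map_zero _
      · have h2 : ((anLS Y ι).cx T.cutOff p).Bd (Set.univ ∩ T.trop ⁻¹' {b}) (q + 1) c := by
          rw [(anLS Y ι).cx_Bd_succ_iff T.cutOff]
          exact ⟨e, (key (q := 0) _).2 fun z hz => (he' z hz).symm⟩
        have h3 := (((anLS Y ι).cx T.cutOff p).push_Bd T.properOn {b} c).2 h2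
        have h4 : T.clsP p (q + 1) c - (T.shom p).f (q + 1) (0 : (tropLS F).G p (q + 1)) =
            T.clsP p (q + 1) c := by
          rw [shom_f, map_zero, map_zero, sub_zero]
        rw [h4]
        exact h3

theorem cxP_complete (p : ℕ) : (T.cxP p).Complete :=
  SCx.push_complete _ T.properOn ((anLS Y ι).cx_complete T.cutOff p)

end inst

theorem exists_exhaustion (F : Fan n) : Nonempty (CompactExhaustion (TropPt F)) := by
  obtain ⟨B, h1, h2, h3⟩ := exists_exhT F
  exact ⟨⟨B, h1, h2, h3⟩⟩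

theorem bdG_iff [T2Space (An Y ι)] [LocallyCompactSpace (An Y ι)] {p q : ℕ}
    (c : (anLS Y ι).G p q) : (T.cxP p).BdG q (T.clsP p q c) ↔ c ∈ (anLS Y ι).Bf p q := by
  rcases q with _ | q
  · exact T.clsP_eq_zero
  · constructor
    · rintro ⟨e, he⟩
      obtain ⟨e, rfl⟩ := T.clsP_surj p q e
      rw [T.clsP_d] at he
      exact ⟨e, (T.clsP_inj he).symm⟩
    · rintro ⟨e, rfl⟩
      exact ⟨T.clsP p q e, rfl⟩

theorem gc_iff {p q : ℕ} (c : (tropLS F).G p q) : c ∈ (tropLS F).Gc p q ↔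
    IsCompact ((tropLS F).supp c) := by
  constructor
  · rintro ⟨K, hK, h⟩
    refine hK.of_isClosed_subset ((tropLS F).isClosed_supp c) fun z hz => ?_
    by_contra hz'
    exact hz (h z hz')
  · intro h
    refine ⟨_, h, fun z hz => ?_⟩
    by_contra h'
    exact hz h'

theorem gcY_iff [T2Space (An Y ι)] [LocallyCompactSpace (An Y ι)] {p q : ℕ}
    (c : (anLS Y ι).G p q) : c ∈ (anLS Y ι).Gc p q ↔
    IsCompact ((T.cxP p).supp (T.clsP p q c)) := by
  rw [T.supp_clsP]
  constructor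
  · rintro ⟨K, hK, h⟩
    have h1 : IsCompact ((anLS Y ι).supp c) :=
      hK.of_isClosed_subset ((anLS Y ι).isClosed_supp c) fun z hz => by
        by_contra hz'
        exact hz (h z hz')
    exact h1.image T.continuous_trop
  · intro h
    refine ⟨_, T.isCompact_preimage h, fun z hz => ?_⟩
    by_contra h'
    exact hz ⟨z, h', rfl⟩

theorem bdC_iff [T2Space (An Y ι)] [LocallyCompactSpace (An Y ι)] {p q : ℕ}
    (c : (anLS Y ι).G p q) : (T.cxP p).BdC q (T.clsP p q c) ↔ c ∈ (anLS Y ι).Bc p q := by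
  rcases q with _ | q
  · exact T.clsP_eq_zero
  · constructor
    · rintro ⟨e, he1, he⟩
      obtain ⟨e, rfl⟩ := T.clsP_surj p q e
      rw [T.clsP_d] at he
      exact ⟨e, (T.gcY_iff e).2 he1, (T.clsP_inj he).symm⟩
    · rintro ⟨e, he1, rfl⟩
      exact ⟨T.clsP p q e, (T.gcY_iff e).1 he1, rfl⟩

/-- Stage 1, in terms of forms. -/
theorem stage1_forms (h : F2 K) (p q : ℕ) :
    ((∀ c ∈ (anLS Y ι).Zf p q, ∃ a ∈ (tropLS F).Zf p q,
      c - T.tropMor.pullG p q a ∈ (anLS Y ι).Bf p q) ∧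
    (∀ a ∈ (tropLS F).Zf p q, T.tropMor.pullG p q a ∈ (anLS Y ι).Bf p q →
      a ∈ (tropLS F).Bf p q)) ∧
    (∀ c ∈ (anLS Y ι).Zc p q, ∃ a ∈ (tropLS F).Zc p q,
      c - T.tropMor.pullG p q a ∈ (anLS Y ι).Bc p q) ∧
    (∀ a ∈ (tropLS F).Zc p q, T.tropMor.pullG p q a ∈ (anLS Y ι).Bc p q →
      a ∈ (tropLS F).Bc p q) := by
  have := T.t2
  have := T.locallyCompact
  obtain ⟨E⟩ := exists_exhaustion F
  have hG := (T.shom p).qiso_global ((tropLS F).cx_complete cutOff_trop p) (T.cxP_complete p) E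
    fun b => T.qiso h p b
  have hC := (T.shom p).qiso_compact ((tropLS F).cx_complete cutOff_trop p) (T.cxP_complete p) E
    fun b => T.qiso h p b
  refine ⟨⟨?_, ?_⟩, ?_, ?_⟩
  · intro c hc
    have hc' : (anLS Y ι).ddG p q c = 0 := hc
    obtain ⟨a, ha, hb⟩ := hG.2 q (T.clsP p q c) (by rw [T.clsP_d, hc', map_zero])
    refine ⟨a, ha, ?_⟩
    rw [shom_f, ← map_sub, T.bdG_iff] at hb
    exact hb
  · intro a ha hb
    have h1 := hG.1 q a ha (by rw [shom_f]; exact (T.bdG_iff _).2 hb)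
    rcases q with _ | q
    · exact h1
    · obtain ⟨e, he⟩ := h1
      exact ⟨e, he.symm⟩
  · intro c hc
    have hc' : (anLS Y ι).ddG p q c = 0 := hc.1
    obtain ⟨a, ha1, ha, hb⟩ := hC.2 q (T.clsP p q c) ((T.gcY_iff c).1 hc.2)
      (by rw [T.clsP_d, hc', map_zero])
    refine ⟨a, ⟨ha, (gc_iff a).2 ha1⟩, ?_⟩
    rw [shom_f, ← map_sub, T.bdC_iff] at hb
    exact hb
  · intro a ha hb
    have h1 := hC.1 q a ((gc_iff a).1 ha.2) ha.1 (by rw [shom_f]; exact (T.bdC_iff _).2 hb)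
    rcases q with _ | q
    · exact h1
    · obtain ⟨e, he1, he⟩ := h1
      exact ⟨e, (gc_iff e).2 he1, he.symm⟩

/-- Stage 1: the tropicalization map induces isomorphisms on Dolbeault cohomology, with and
without supports. -/
theorem stage1 (h : F2 K) (p q : ℕ) : Function.Bijective (T.tropMor.mapH p q) ∧
    Function.Bijective (Mor.mapHc T.isProp p q) := by
  obtain ⟨⟨h1, h2⟩, h3, h4⟩ := T.stage1_forms h p q
  exact ⟨Mor.mapH_bijective _ h1 h2, Mor.mapHc_bijective T.isProp h3 h4⟩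

end Toric

end Pool.Agent.TD


end
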