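import Mathlib
import Pool.Agent.DolbM.C01
import Pool.Agent.DolbM.C02
import Pool.Agent.TD.A3

/-! Parts: TD.U.Defs -/

section

/-! Block U: definitions. -/

open scoped ContDiff Topology
open Polynomial

namespace Pool.Agent.TD

namespace Mor

variable {X Φ X' Φ' : Type} [TopologicalSpace X] [TopologicalSpace X'] {L : LogSpace X Φ}
  {L' : LogSpace X' Φ'}

/-- Pull back of germs at the point `z` over `y`. -/
noncomputable def pullY (m : Mor L L') {z : X} {y : X'} (h : m.toFun z = y) (p q : ℕ) :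
    L'.Stalk p q y →ₗ[ℝ] L.Stalk p q z := by
  subst h; exact m.pullS p q z

theorem pullY_rfl (m : Mor L L') (z : X) (p q : ℕ) : m.pullY (rfl : m.toFun z = m.toFun z) p q =
    m.pullS p q z := rfl

theorem sfatY (m : Mor L L') {z : X} {y : X'} (h : m.toFun z = y) {p q : ℕ} {θ : Raw Φ' p q}
    (k : L'.SFat y θ) : L.SFat z (pullR m.ix θ) := by
  subst h; exact m.sfat k

theorem pullY_germ (m : Mor L L') {z : X} {y : X'} (h : m.toFun z = y) {p q : ℕ}
    {θ : Raw Φ' p q} (k : L'.SFat y θ) :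
    m.pullY h p q (L'.germ θ k) = L.germ (pullR m.ix θ) (m.sfatY h k) := by
  subst h; rfl

theorem pullY_ddS (m : Mor L L') {z : X} {y : X'} (h : m.toFun z = y) {p q : ℕ}
    (c : L'.Stalk p q y) : m.pullY h p (q + 1) (L'.ddS p q y c) = L.ddS p q z (m.pullY h p q c) := by
  subst h; exact m.pullS_ddS c

theorem pullY_wdS (m : Mor L L') {z : X} {y : X'} (h : m.toFun z = y) {p q : ℕ}
    (a : L'.Stalk 1 0 y) (c : L'.Stalk p q y) :
    m.pullY h (p + 1) q (L'.wdS p q y a c) = L.wdS p q z (m.pullY h 1 0 a) (m.pullY h p q c) := by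
  subst h; exact m.pullS_wdS a c

theorem domY (m : Mor L L') {z : X} {y : X'} (h : m.toFun z = y) {f : Φ'} (k : y ∈ L'.dom f) :
    z ∈ L.dom (m.ix f) := by
  subst h; exact m.dom_sub _ _ k

theorem pullY_dlS (m : Mor L L') {z : X} {y : X'} (h : m.toFun z = y) (f : Φ')
    (k : y ∈ L'.dom f) : m.pullY h 1 0 (L'.dlS f k) = L.dlS (m.ix f) (m.domY h k) := by
  subst h; exact m.pullS_dlS f k

theorem pullY_oneS (m : Mor L L') {z : X} {y : X'} (h : m.toFun z = y) :
    m.pullY h 0 0 (L'.oneS y) = L.oneS z := by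
  subst h; exact m.pullS_oneS

theorem pullY_Lp (m : Mor L L') {z : X} {y : X'} (h : m.toFun z = y) {p : ℕ}
    {c : L'.Stalk p 0 y} (hc : c ∈ L'.Lp p y) : m.pullY h p 0 c ∈ L.Lp p z := by
  subst h; exact m.pullS_Lp hc

end Mor

variable {K : Type} [NormedField K]

/-- The morphism `M(B) → M(A)` of a homomorphism of `K`-algebras. -/
noncomputable def berMor {A B : Type} [CommRing A] [CommRing B] [Algebra K A] [Algebra K B]
    (f : A →ₐ[K] B) : Mor (berLS K B) (berLS K A) where
  toFun := Ber.res f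
  cont := Ber.res_continuous f
  ix := f
  dom_sub _ _ h := h
  lf_eq _ _ _ := rfl

/-- The projection `M(R[X]) → M(R)`. -/
noncomputable def prX (K R : Type) [NormedField K] [CommRing R] [Algebra K R] :
    Mor (berLS K R[X]) (berLS K R) :=
  berMor (K := K) (IsScalarTower.toAlgHom K R R[X])

theorem prX_ix {R : Type} [CommRing R] [Algebra K R] (a : R) :
    (prX K R).ix a = C a := rfl

/-- `k` (with `ι`) is the residue field of `y` (not completed). -/
structure IsResF {R k : Type} [CommRing R] [Algebra K R] [NormedField k]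
    (y : Ber K R) (ι : R →+* k) : Prop where
  norm : ∀ a, ‖ι a‖ = y.v a
  frac : ∀ x : k, ∃ a b : R, ι b ≠ 0 ∧ x = ι a / ι b

/-- The fibre embedding `M(k[X]) → M(R[X])`. -/
noncomputable def fibU {R k : Type} [CommRing R] [Algebra K R] [NormedField k] {y : Ber K R}
    {ι : R →+* k} (h : IsResF y ι) (w : Ber k k[X]) : Ber K R[X] :=
  Ber.comap (Polynomial.mapRingHom ι) (fun w c => by
    have h1 : algebraMap K R[X] c = C (algebraMap K R c) := rfl
    rw [h1, coe_mapRingHom, map_C]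
    have h2 := w.ext (ι (algebraMap K R c))
    rw [show (algebraMap k k[X]) (ι (algebraMap K R c)) = C (ι (algebraMap K R c)) from rfl] at h2
    rw [h2, h.norm, y.ext]) w

theorem fibU_v {R k : Type} [CommRing R] [Algebra K R] [NormedField k] {y : Ber K R}
    {ι : R →+* k} (h : IsResF y ι) (w : Ber k k[X]) (f : R[X]) :
    (fibU h w).v f = w.v (f.map ι) := rfl

theorem fibU_over {R k : Type} [CommRing R] [Algebra K R] [NormedField k] {y : Ber K R}
    {ι : R →+* k} (h : IsResF y ι) (w : Ber k k[X]) : (prX K R).toFun (fibU h w) = y := by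
  apply Ber.ext_v
  intro a
  show w.v ((C a).map ι) = y.v a
  rw [map_C]
  have h2 := w.ext (ι a)
  rw [show (algebraMap k k[X]) (ι a) = C (ι a) from rfl] at h2
  rw [h2, h.norm]

/-- `d^n f((Y + b)/d)` as a polynomial in `Y`, `n` the degree of `f`. -/
noncomputable def shp {R : Type} [CommRing R] (b d : R) (f : R[X]) : R[X] :=
  (f.scaleRoots d).comp (X + C b)

/-- The absolute value of `f` at the Gauss point of centre `b/d` and radius `ρ` over `x`. -/
noncomputable def gz {R : Type} [CommRing R] [Algebra K R] (b d : R) (x : Ber K R) (ρ : ℝ)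
    (f : R[X]) : ℝ :=
  (⨆ i : Fin (f.natDegree + 1), x.v ((shp b d f).coeff i) * (x.v d * ρ) ^ (i : ℕ)) /
    x.v d ^ f.natDegree

/-- `z` is the Gauss point of centre `b/d` and radius `ρ` over `x`. -/
def IsGz {R : Type} [CommRing R] [Algebra K R] (b d : R) (x : Ber K R) (ρ : ℝ)
    (z : Ber K R[X]) : Prop := ∀ f, z.v f = gz b d x ρ f

/-- Abstract residue systems over the line of an algebraically closed field. -/
structure RSys (k M N : Type) [NormedField k] [AddCommGroup M] [AddCommGroup N] where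
  E : Ber k k[X] → Type
  [ab : ∀ w, AddCommGroup (E w)]
  /-- base elements -/
  i : ∀ w, M →+ E w
  /-- `dlog |X - β| ∧ v` -/
  j : ∀ (w : Ber k k[X]) (_ : k), N →+ E w
  /-- `dlog |γ| ∧ v` -/
  l : k → N →+ M
  j1 : ∀ w β β', w.v (X - C β') < w.v (X - C β) → ∀ v, j w β v = i w (l (β - β') v)
  j2 : ∀ w β β', ‖β - β'‖ < w.v (X - C β) → ∀ v, j w β v = j w β' v
  ind : ∀ (a : k) (ρ : ℝ) (w : Ber k k[X]), 0 < ρ → (∀ β, w.v (X - C β) = max ρ ‖a - β‖) →
    ∀ (S : Finset k) (x : M) (v : k → N), (∀ β ∈ S, ‖a - β‖ ≤ ρ) →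
      (∀ β ∈ S, ∀ β' ∈ S, β ≠ β' → ρ ≤ ‖β - β'‖) → i w x + ∑ β ∈ S, j w β (v β) = 0 →
        x = 0 ∧ ∀ β ∈ S, v β = 0

attribute [instance] RSys.ab

namespace RSys

variable {k M N : Type} [NormedField k] [AddCommGroup M] [AddCommGroup N] (P : RSys k M N)

/-- The section `s` is given near `w` on `D` by `x + ∑ dlog |X - β| ∧ v β`. -/
def LC (s : ∀ w, P.E w) (D : Set (Ber k k[X])) (w : Ber k k[X]) : Prop :=
  ∃ (x : M) (S : Finset k) (v : k → N), (∀ β ∈ S, w.v (X - C β) ≠ 0) ∧
    ∀ᶠ w' in 𝓝 w, w' ∈ D → s w' = P.i w' x + ∑ β ∈ S, P.j w' β (v β)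

end RSys

end Pool.Agent.TD


end
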