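import Mathlib
import Pool.Agent.DolbM.C01
import Pool.Agent.DolbM.C02
import Pool.Agent.DolbM.C04
import Pool.Agent.DolbM.C10

/-! Parts: TD.U.Abs1, TD.U.Abs2, TD.U.Abs3, TD.U.Desc1, TD.U.Desc2, MldAcc.Recur, MldAcc.Core, TD.BG.MAC, TD.BG.STP, TD.BG.TPL, TD.BG.FM1, TD.BG.SSP -/

section

/-! Block U3, abstract form: normal forms. -/

open scoped ContDiff Topology
open Polynomial

namespace Pool.Agent.TD

namespace RSys

variable {k M N : Type} [NormedField k] [IsUltrametricDist k] [IsAlgClosed k] [AddCommGroup M]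
  [AddCommGroup N] (P : RSys k M N)

/-- `w` is the Gauss point of centre `a` and radius `ρ > 0`. -/
def IsG (a : k) (ρ : ℝ) (w : Ber k k[X]) : Prop := 0 < ρ ∧ ∀ β, w.v (X - C β) = max ρ ‖a - β‖

theorem ev_lt (w : Ber k k[X]) (β β' : k) (h : w.v (X - C β) < w.v (X - C β')) :
    ∀ᶠ w' in 𝓝 w, w'.v (X - C β) < w'.v (X - C β') :=
  (Ber.continuous_v (X - C β)).continuousAt.eventually_lt
    (Ber.continuous_v (X - C β')).continuousAt h

theorem ev_const_lt (w : Ber k k[X]) (β : k) (c : ℝ) (h : c < w.v (X - C β)) :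
    ∀ᶠ w' in 𝓝 w, c < w'.v (X - C β) :=
  (Ber.continuous_v (X - C β)).continuousAt.eventually_const_lt h

theorem normal_aux {a : k} {ρ : ℝ} {w : Ber k k[X]} (hw : IsG a ρ w) (S₀ : Finset k)
    (v₀ : k → N) :
    ∃ (x : M) (S : Finset k) (v : k → N), (∀ β ∈ S, ‖a - β‖ ≤ ρ) ∧
      (∀ β ∈ S, ∀ β' ∈ S, β ≠ β' → ρ ≤ ‖β - β'‖) ∧
      ∀ᶠ w' in 𝓝 w, ∑ β ∈ S₀, P.j w' β (v₀ β) = P.i w' x + ∑ β ∈ S, P.j w' β (v β) := by
  classical
  obtain ⟨hρ, hw⟩ := hw
  induction S₀ using Finset.induction_on with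
  | empty =>
    refine ⟨0, ∅, 0, by simp, by simp, ?_⟩
    simp
  | insert b S₀ hb ih =>
    obtain ⟨x, S, v, h1, h2, h3⟩ := ih
    have hwa : w.v (X - C a) = ρ := by
      rw [hw, sub_self, norm_zero, max_eq_left hρ.le]
    by_cases hc : ρ < ‖a - b‖
    · have h4 : w.v (X - C a) < w.v (X - C b) := by
        rw [hwa, hw b]
        exact lt_max_of_lt_right hc
      refine ⟨P.l (b - a) (v₀ b) + x, S, v, h1, h2, ?_⟩
      filter_upwards [h3, ev_lt w a b h4] with w' e1 e2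
      rw [Finset.sum_insert hb, e1, P.j1 w' b a e2, map_add, add_assoc]
    · push Not at hc
      have hwb : w.v (X - C b) = ρ := by rw [hw, max_eq_left hc]
      by_cases hd : ∃ β ∈ S, ‖b - β‖ < ρ
      · obtain ⟨β, hβ, hd⟩ := hd
        refine ⟨x, S, Function.update v β (v₀ b + v β), h1, h2, ?_⟩
        have h4 : ‖b - β‖ < w.v (X - C b) := by rwa [hwb]
        filter_upwards [h3, ev_const_lt w b _ h4] with w' e1 e2
        rw [Finset.sum_insert hb, e1, P.j2 w' b β e2]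
        rw [← Finset.add_sum_erase S _ hβ, ← Finset.add_sum_erase S
          (fun β_1 => P.j w' β_1 (Function.update v β (v₀ b + v β) β_1)) hβ]
        have h5 : ∑ β_1 ∈ S.erase β, P.j w' β_1 (Function.update v β (v₀ b + v β) β_1) =
            ∑ β_1 ∈ S.erase β, P.j w' β_1 (v β_1) := by
          refine Finset.sum_congr rfl fun c hc => ?_
          rw [Function.update_of_ne (Finset.ne_of_mem_erase hc)]
        rw [h5, Function.update_self, map_add]
        abel
      · push Not at hd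
        have hbS : b ∉ S := by
          intro hb'
          have := hd b hb'
          rw [sub_self, norm_zero] at this
          exact absurd this (not_le.2 hρ)
        refine ⟨x, insert b S, Function.update v b (v₀ b), ?_, ?_, ?_⟩
        · intro β hβ
          rcases Finset.mem_insert.1 hβ with rfl | hβ
          · exact hc
          · exact h1 β hβ
        · intro β hβ β' hβ' hne
          rcases Finset.mem_insert.1 hβ with e | hβ
          · rcases Finset.mem_insert.1 hβ' with e' | hβ'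
            · exact absurd (e.trans e'.symm) hne
            · rw [e]
              exact hd β' hβ'
          · rcases Finset.mem_insert.1 hβ' with e' | hβ'
            · rw [e', norm_sub_rev]
              exact hd β hβ
            · exact h2 β hβ β' hβ' hne
        · filter_upwards [h3] with w' e1
          rw [Finset.sum_insert hb, e1, Finset.sum_insert hbS, Function.update_self]
          have h5 : ∑ β_1 ∈ S, P.j w' β_1 (Function.update v b (v₀ b) β_1) =
              ∑ β_1 ∈ S, P.j w' β_1 (v β_1) := by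
            refine Finset.sum_congr rfl fun c hcS => ?_
            have hcb : c ≠ b := fun e => hbS (e ▸ hcS)
            rw [Function.update_of_ne hcb]
          rw [h5]
          abel

/-- Normal form at a Gauss point: the centres can be chosen in the disc, in different classes. -/
theorem normal_form {s : ∀ w, P.E w} {D : Set (Ber k k[X])} {a : k} {ρ : ℝ} {w : Ber k k[X]}
    (hw : IsG a ρ w) (h : P.LC s D w) :
    ∃ (x : M) (S : Finset k) (v : k → N), (∀ β ∈ S, ‖a - β‖ ≤ ρ) ∧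
      (∀ β ∈ S, ∀ β' ∈ S, β ≠ β' → ρ ≤ ‖β - β'‖) ∧
      ∀ᶠ w' in 𝓝 w, w' ∈ D → s w' = P.i w' x + ∑ β ∈ S, P.j w' β (v β) := by
  obtain ⟨x₀, S₀, v₀, -, h0⟩ := h
  obtain ⟨x, S, v, h1, h2, h3⟩ := P.normal_aux hw S₀ v₀
  refine ⟨x₀ + x, S, v, h1, h2, ?_⟩
  filter_upwards [h0, h3] with w' e0 e3 hD
  rw [e0 hD, e3, map_add, add_assoc]

/-- At a point which is a limit of discs sections are base elements. -/
theorem limit_form {s : ∀ w, P.E w} {D : Set (Ber k k[X])} {w : Ber k k[X]}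
    (hw : ∀ S : Finset k, (∀ β ∈ S, w.v (X - C β) ≠ 0) →
      ∃ β, ∀ β' ∈ S, w.v (X - C β) < w.v (X - C β')) (h : P.LC s D w) :
    ∃ x : M, ∀ᶠ w' in 𝓝 w, w' ∈ D → s w' = P.i w' x := by
  obtain ⟨x₀, S₀, v₀, hS₀, h0⟩ := h
  obtain ⟨β, hβ⟩ := hw S₀ hS₀
  refine ⟨x₀ + ∑ β' ∈ S₀, P.l (β' - β) (v₀ β'), ?_⟩
  have h1 : ∀ᶠ w' in 𝓝 w, ∀ β' ∈ S₀, w'.v (X - C β) < w'.v (X - C β') :=
    (Filter.eventually_all_finset S₀).2 fun β' hβ' => ev_lt w β β' (hβ β' hβ')
  filter_upwards [h0, h1] with w' e0 e1 hD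
  rw [e0 hD, map_add, map_sum]
  congr 1
  exact Finset.sum_congr rfl fun β' hβ' => P.j1 w' β' β (e1 β' hβ') _

end RSys

end Pool.Agent.TD


end

section

/-! Block U3, abstract form: total coefficients vanish inside the circle. -/

open scoped ContDiff Topology
open Polynomial

namespace Pool.Agent.TD

namespace RSys

namespace Abs2

theorem tri {k : Type} [NormedField k] [IsUltrametricDist k] (a b c : k) :
    ‖a - c‖ ≤ max ‖a - b‖ ‖b - c‖ := by
  have h := IsUltrametricDist.dist_triangle_max a b c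
  rwa [dist_eq_norm, dist_eq_norm, dist_eq_norm] at h

end Abs2

variable {k M N : Type} [NormedField k] [IsUltrametricDist k] [IsAlgClosed k] [AddCommGroup M]
  [AddCommGroup N] (P : RSys k M N)

/-- The coefficient of a section at a Gauss point in the direction of the complement of the disc:
`tot = τ` means: for all `ρ'` slightly smaller than `ρ` (and for `ρ` itself) ... ; formulated through
a normal form at the point. -/
def Tot (s : ∀ w, P.E w) (D : Set (Ber k k[X])) (a : k) (ρ : ℝ) (w : Ber k k[X]) (τ : N) : Prop :=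
  IsG a ρ w ∧ ∃ (x : M) (S : Finset k) (v : k → N), (∀ β ∈ S, ‖a - β‖ ≤ ρ) ∧
      (∀ β ∈ S, ∀ β' ∈ S, β ≠ β' → ρ ≤ ‖β - β'‖) ∧
      (∀ᶠ w' in 𝓝 w, w' ∈ D → s w' = P.i w' x + ∑ β ∈ S, P.j w' β (v β)) ∧ τ = ∑ β ∈ S, v β

/-- Total coefficients, with arbitrary centres in the disc. -/
def TT (s : ∀ w, P.E w) (D : Set (Ber k k[X])) (a : k) (ρ : ℝ) (w : Ber k k[X]) (τ : N) : Prop :=
  IsG a ρ w ∧ ∃ (x : M) (S : Finset k) (v : k → N), (∀ β ∈ S, ‖a - β‖ ≤ ρ) ∧
      (∀ᶠ w' in 𝓝 w, w' ∈ D → s w' = P.i w' x + ∑ β ∈ S, P.j w' β (v β)) ∧ τ = ∑ β ∈ S, v β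

omit [IsAlgClosed k] in
/-- Independence for centres in arbitrary position. -/
theorem ind_sum {a : k} {ρ : ℝ} {w : Ber k k[X]} (hw : IsG a ρ w) {ι : Type} (T : Finset ι)
    (x : M) (b : ι → k) (u : ι → N) (hb : ∀ t ∈ T, ‖a - b t‖ ≤ ρ)
    (h : P.i w x + ∑ t ∈ T, P.j w (b t) (u t) = 0) : x = 0 ∧ ∑ t ∈ T, u t = 0 := by
  classical
  have hρ := hw.1
  let st : Setoid k :=
    { r := fun β β' => ‖β - β'‖ < ρ
      iseqv :=
        { refl := fun β => by rw [sub_self, norm_zero]; exact hρ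
          symm := fun {β β'} h => by rw [norm_sub_rev]; exact h
          trans := fun {β β' β''} h h' => (Abs2.tri β β' β'').trans_lt (max_lt h h') } }
  let c : k → k := fun β => Quotient.out (Quotient.mk st β)
  have hc1 : ∀ β, ‖c β - β‖ < ρ := fun β => Quotient.mk_out (s := st) β
  have hc2 : ∀ β β', c β ≠ c β' → ρ ≤ ‖c β - c β'‖ := by
    intro β β' hne
    by_contra hlt
    push Not at hlt
    apply hne
    have e : Quotient.mk st β = Quotient.mk st β' := by
      apply Quotient.sound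
      show ‖β - β'‖ < ρ
      have h1 : ‖β - c β‖ < ρ := by rw [norm_sub_rev]; exact hc1 β
      exact (Abs2.tri β (c β) β').trans_lt
        (max_lt h1 ((Abs2.tri (c β) (c β') β').trans_lt (max_lt hlt (hc1 β'))))
    show Quotient.out (Quotient.mk st β) = Quotient.out (Quotient.mk st β')
    rw [e]
  have hval : ∀ β, ‖a - β‖ ≤ ρ → w.v (X - C β) = ρ := fun β hβ => by
    rw [hw.2, max_eq_left hβ]
  have hj : ∀ t ∈ T, P.j w (b t) (u t) = P.j w (c (b t)) (u t) := by
    intro t ht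
    apply P.j2
    rw [hval _ (hb t ht), norm_sub_rev]
    exact hc1 (b t)
  have key := P.ind a ρ w hρ hw.2 (T.image fun t => c (b t)) x
    (fun γ => ∑ t ∈ T with c (b t) = γ, u t) ?_ ?_ ?_
  · refine ⟨key.1, ?_⟩
    rw [← Finset.sum_fiberwise_of_maps_to (s := T) (t := T.image fun t => c (b t))
      (g := fun t => c (b t)) (fun t ht => Finset.mem_image_of_mem _ ht) u]
    exact Finset.sum_eq_zero key.2
  · intro γ hγ
    obtain ⟨t, ht, rfl⟩ := Finset.mem_image.1 hγ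
    refine (Abs2.tri a (b t) (c (b t))).trans (max_le (hb t ht) ?_)
    rw [norm_sub_rev]
    exact (hc1 _).le
  · intro γ hγ γ' hγ' hne
    obtain ⟨t, ht, rfl⟩ := Finset.mem_image.1 hγ
    obtain ⟨t', ht', rfl⟩ := Finset.mem_image.1 hγ'
    exact hc2 _ _ hne
  · rw [← h]
    congr 1
    rw [Finset.sum_congr rfl hj, ← Finset.sum_fiberwise_of_maps_to (s := T)
      (t := T.image fun t => c (b t)) (g := fun t => c (b t))
      (fun t ht => Finset.mem_image_of_mem _ ht) (fun t => P.j w (c (b t)) (u t))]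
    refine Finset.sum_congr rfl fun γ _ => ?_
    rw [map_sum]
    refine Finset.sum_congr rfl fun t ht => ?_
    rw [(Finset.mem_filter.1 ht).2]

omit [IsUltrametricDist k] [IsAlgClosed k] in
/-- Two descriptions of the same Gauss point. -/
theorem isG_eq {a a' : k} {ρ ρ' : ℝ} {w : Ber k k[X]} (h : IsG a ρ w) (h' : IsG a' ρ' w) :
    ρ' = ρ ∧ ‖a - a'‖ ≤ ρ := by
  have h1 := h.2 a
  have h2 := h'.2 a
  have h3 := h.2 a'
  have h4 := h'.2 a'
  rw [sub_self, norm_zero, max_eq_left h.1.le] at h1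
  rw [sub_self, norm_zero, max_eq_left h'.1.le] at h4
  rw [h1] at h2
  rw [h4] at h3
  have h5 : ρ' ≤ ρ := by rw [h2]; exact le_max_left _ _
  have h6 : ρ ≤ ρ' := by rw [h3]; exact le_max_left _ _
  refine ⟨le_antisymm h5 h6, ?_⟩
  calc ‖a - a'‖ ≤ max ρ ‖a - a'‖ := le_max_right _ _
    _ = ρ' := h3.symm
    _ ≤ ρ := h5

omit [IsAlgClosed k] in
/-- Total coefficients are unique, comparison with another expression. -/
theorem TT.unique {P : RSys k M N} {s : ∀ w, P.E w} {D : Set (Ber k k[X])} {a a' : k} {ρ ρ' : ℝ}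
    {w : Ber k k[X]} {τ τ' : N} (hwD : w ∈ D) (h : P.TT s D a ρ w τ) (h' : P.TT s D a' ρ' w τ') :
    τ = τ' := by
  classical
  obtain ⟨hg, x, S, v, hS, hev, rfl⟩ := h
  obtain ⟨hg', x', S', v', hS', hev', rfl⟩ := h'
  obtain ⟨hρ, haa⟩ := isG_eq hg hg'
  have e1 := hev.self_of_nhds hwD
  have e2 := hev'.self_of_nhds hwD
  have key := P.ind_sum hg (S.disjSum S') (x - x') (Sum.elim id id)
    (Sum.elim v fun β => -v' β) ?_ ?_
  · have h1 := key.2
    rw [Finset.sum_disjSum] at h1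
    simp only [Sum.elim_inl, Sum.elim_inr, Finset.sum_neg_distrib] at h1
    exact add_neg_eq_zero.1 h1
  · rintro (β | β) hβ
    · exact hS β (Finset.inl_mem_disjSum.1 hβ)
    · have h1 := hS' β (Finset.inr_mem_disjSum.1 hβ)
      rw [hρ] at h1
      exact (Abs2.tri a a' β).trans (max_le haa h1)
  · rw [Finset.sum_disjSum]
    simp only [Sum.elim_inl, Sum.elim_inr, id_eq, map_neg, Finset.sum_neg_distrib]
    rw [map_sub]
    have h1 : P.i w x + ∑ β ∈ S, P.j w β (v β) = P.i w x' + ∑ β ∈ S', P.j w β (v' β) := by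
      rw [← e1, ← e2]
    have h2 := sub_eq_zero.2 h1
    rw [← h2]
    abel

omit [IsUltrametricDist k] [IsAlgClosed k] in
/-- The points of a chain converge to its infimum. -/
theorem chain_mem {C : Set (Ber k k[X])} (hC : IsChain (· ≤ ·) C) (hne : C.Nonempty)
    {m : Ber k k[X]} (hm : ∀ f, IsGLB ((fun z : Ber k k[X] => z.v f) '' C) (m.v f))
    {V : Set (Ber k k[X])} (hV : V ∈ 𝓝 m) : ∃ w ∈ C, w ∈ V := by
  classical
  have : Nonempty C := hne.to_subtype
  have : IsCodirectedOrder C := ⟨fun a b => (hC.total a.2 b.2).elim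
    (fun h => ⟨a, le_rfl, h⟩) (fun h => ⟨b, h, le_rfl⟩)⟩
  have ht : Filter.Tendsto (fun c : C => (c : Ber k k[X])) Filter.atBot (𝓝 m) := by
    rw [nhds_induced, Filter.tendsto_comap_iff, tendsto_pi_nhds]
    intro f
    refine tendsto_atBot_isGLB (f := fun c : C => (c : Ber k k[X]).v f)
      (fun c c' h => h f) ?_
    have h1 := hm f
    rw [Set.image_eq_range] at h1
    exact h1
  obtain ⟨c, hc⟩ := (ht.eventually hV).exists
  exact ⟨c, c.2, hc⟩

/-- On the part `|a| = r`, `ρ < r` of the circle all total coefficients vanish. -/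
theorem tot_zero {r : ℝ} (hr : 0 < r) (s : ∀ w, P.E w)
    (hs : ∀ w, w.v X = r → P.LC s {w | w.v X = r} w) {a : k} {ρ : ℝ} {w : Ber k k[X]}
    (ha : ‖a‖ = r) (hρ : ρ < r) {τ : N} (h : P.Tot s {w | w.v X = r} a ρ w τ) : τ = 0 := by
  classical
  by_contra hτ
  set D : Set (Ber k k[X]) := {w | w.v X = r} with hD
  have hX : ∀ z : Ber k k[X], z.v X = z.v (X - C 0) := fun z => by rw [C_0, sub_zero]
  have hmemD : ∀ {b : k} {t : ℝ} {z : Ber k k[X]}, ‖b‖ = r → t < r → IsG b t z → z ∈ D := by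
    intro b t z hb ht hz
    show z.v X = r
    rw [hX, hz.2, sub_zero, hb, max_eq_right ht.le]
  let G : Set (Ber k k[X]) := {z | ∃ (b : k) (t : ℝ) (σ : N), ‖b‖ = r ∧ t < r ∧
    P.TT s D b t z σ ∧ σ ≠ 0}
  have hwG : w ∈ G := by
    obtain ⟨hg, x, S, v, hS, -, hev, hsum⟩ := h
    exact ⟨a, ρ, τ, ha, hρ, ⟨hg, x, S, v, hS, hev, hsum⟩, hτ⟩
  have hzorn : ∃ m : (Ber k k[X])ᵒᵈ, Maximal (· ∈ OrderDual.ofDual ⁻¹' G) m := by
    refine zorn_le₀ _ fun C' hC'G hC' => ?_
    set Ch : Set (Ber k k[X]) := OrderDual.toDual ⁻¹' C' with hCdef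
    have hC : IsChain (· ≤ ·) Ch := by
      intro z hz z' hz' hne
      exact (hC' hz hz' hne).symm
    have hCG : ∀ z ∈ Ch, z ∈ G := fun z hz => hC'G hz
    rcases Ch.eq_empty_or_nonempty with hemp | hne
    · refine ⟨OrderDual.toDual w, hwG, fun z hz => ?_⟩
      have : OrderDual.ofDual z ∈ Ch := hz
      rw [hemp] at this
      exact absurd this (Set.notMem_empty _)
    obtain ⟨m, hm1, hm2⟩ := Ber.exists_isGLB hC hne
    refine ⟨OrderDual.toDual m, ?_, fun z hz => hm1.1 (show OrderDual.ofDual z ∈ Ch from hz)⟩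
    show m ∈ G
    have hCD : ∀ z ∈ Ch, z ∈ D := by
      intro z hz
      obtain ⟨b, t, σ, hb, ht, hTT, -⟩ := hCG z hz
      exact hmemD hb ht hTT.1
    have hmD : m ∈ D := by
      show m.v X = r
      have h1 := hm2 X
      have h2 : (fun z : Ber k k[X] => z.v X) '' Ch = {r} := by
        ext t
        constructor
        · rintro ⟨z, hz, rfl⟩
          exact hCD z hz
        · rintro rfl
          obtain ⟨z, hz⟩ := hne
          exact ⟨z, hz, hCD z hz⟩
      rw [h2] at h1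
      exact h1.unique isGLB_singleton
    rcases classify m with ⟨b, t, ht, hmG⟩ | hlim
    · -- a Gauss point
      have hg : IsG b t m := ⟨ht, hmG⟩
      obtain ⟨x, S, v, hS, -, hev⟩ := P.normal_form hg (hs m hmD)
      obtain ⟨z, hzC, hzV⟩ := chain_mem hC hne hm2 (eventually_eventually_nhds.2 hev)
      obtain ⟨b', t', σ, hb', ht', hTT, hσ⟩ := hCG z hzC
      have hmz : m ≤ z := hm1.1 hzC
      have h1 : max t ‖b - b'‖ ≤ t' := by
        have h2 := hmz (X - C b')
        rw [hmG, hTT.1.2, sub_self, norm_zero, max_eq_left hTT.1.1.le] at h2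
        exact h2
      have htt' : t ≤ t' := (le_max_left _ _).trans h1
      have hbb' : ‖b - b'‖ ≤ t' := (le_max_right _ _).trans h1
      have hgz : IsG b t' z := by
        refine ⟨hTT.1.1, fun β => ?_⟩
        rw [hTT.1.2]
        apply le_antisymm
        · refine max_le (le_max_left _ _) ?_
          refine (Abs2.tri b' b β).trans (max_le ?_ (le_max_right _ _))
          rw [norm_sub_rev]
          exact hbb'.trans (le_max_left _ _)
        · refine max_le (le_max_left _ _) ?_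
          exact (Abs2.tri b b' β).trans (max_le (hbb'.trans (le_max_left _ _)) (le_max_right _ _))
      have hTT' : P.TT s D b t' z (∑ β ∈ S, v β) :=
        ⟨hgz, x, S, v, fun β hβ => (hS β hβ).trans htt', hzV, rfl⟩
      have e := TT.unique (hCD z hzC) hTT hTT'
      have htr : t < r := htt'.trans_lt ht'
      have hbr : ‖b‖ = r := by
        have h3 : m.v X = r := hmD
        rw [hX, hmG, sub_zero] at h3
        rcases le_total t ‖b‖ with h4 | h4
        · rwa [max_eq_right h4] at h3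
        · rw [max_eq_left h4] at h3
          exact absurd h3 htr.ne
      exact ⟨b, t, _, hbr, htr, ⟨hg, x, S, v, hS, hev, rfl⟩, e ▸ hσ⟩
    · -- a point of the second kind
      obtain ⟨x, hev⟩ := P.limit_form hlim (hs m hmD)
      obtain ⟨z, hzC, hzV⟩ := chain_mem hC hne hm2 (eventually_eventually_nhds.2 hev)
      obtain ⟨b', t', σ, hb', ht', hTT, hσ⟩ := hCG z hzC
      exfalso
      apply hσ
      have hTT' : P.TT s D b' t' z (∑ β ∈ (∅ : Finset k), (0 : N)) := by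
        refine ⟨hTT.1, x, ∅, fun _ => 0, fun β hβ => absurd hβ (Finset.notMem_empty _), ?_, rfl⟩
        refine Filter.Eventually.mono hzV fun z' hz' hzD' => ?_
        rw [Finset.sum_empty, add_zero]
        exact hz' hzD'
      have e := TT.unique (hCD z hzC) hTT hTT'
      rw [e, Finset.sum_empty]
  obtain ⟨m', hm'⟩ := hzorn
  obtain ⟨m, rfl⟩ : ∃ m, OrderDual.toDual m = m' := ⟨OrderDual.ofDual m', rfl⟩
  have hmG : m ∈ G := hm'.1
  have hmin : ∀ z ∈ G, z ≤ m → m ≤ z := fun z hz hle =>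
    hm'.2 (y := OrderDual.toDual z) hz hle
  obtain ⟨b, t, σ, hb, ht, hTT, hσ⟩ := hmG
  have hmD : m ∈ D := hmemD hb ht hTT.1
  obtain ⟨x, S, v, hS, hsep, hev⟩ := P.normal_form hTT.1 (hs m hmD)
  have e : σ = ∑ β ∈ S, v β := TT.unique hmD hTT ⟨hTT.1, x, S, v, hS, hev, rfl⟩
  obtain ⟨β, hβ, hvβ⟩ : ∃ β ∈ S, v β ≠ 0 := by
    by_contra hall
    push Not at hall
    exact hσ (e.trans (Finset.sum_eq_zero hall))
  -- smaller Gauss points
  have hη : ∀ t' : ℝ, ∃ z : Ber k k[X], 0 ≤ t' → ∀ γ, z.v (X - C γ) = max t' ‖β - γ‖ := by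
    intro t'
    by_cases h0 : 0 ≤ t'
    · obtain ⟨z, hz, -⟩ := exists_eta β t' h0
      exact ⟨z, fun _ => hz⟩
    · exact ⟨m, fun h => absurd h h0⟩
  choose η hη using hη
  have hmv : ∀ γ, m.v (X - C γ) = max t ‖β - γ‖ := by
    intro γ
    rw [hTT.1.2]
    have h1 := hS β hβ
    apply le_antisymm
    · exact max_le (le_max_left _ _) ((Abs2.tri b β γ).trans (max_le (h1.trans (le_max_left _ _))
        (le_max_right _ _)))
    · refine max_le (le_max_left _ _) ((Abs2.tri β b γ).trans (max_le ?_ (le_max_right _ _)))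
      rw [norm_sub_rev]
      exact h1.trans (le_max_left _ _)
  have ht0 := hTT.1.1
  have hpos : ∀ᶠ t' in 𝓝[<] t, 0 < t' :=
    (lt_mem_nhds ht0).filter_mono nhdsWithin_le_nhds
  have hlim : Filter.Tendsto η (𝓝[<] t) (𝓝 m) := by
    refine tendsto_lin fun γ => ?_
    rw [hmv γ]
    have h1 : Filter.Tendsto (fun t' : ℝ => max t' ‖β - γ‖) (𝓝[<] t) (𝓝 (max t ‖β - γ‖)) :=
      ((continuous_id.max continuous_const).tendsto t).mono_left nhdsWithin_le_nhds
    refine h1.congr' ?_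
    filter_upwards [hpos] with t' ht'
    rw [hη t' ht'.le γ]
  have hlt : ∀ᶠ t' in 𝓝[<] t, t' < t := self_mem_nhdsWithin
  obtain ⟨t', ⟨ht'0, ht't⟩, hloc⟩ := ((hpos.and hlt).and
    (hlim.eventually (eventually_eventually_nhds.2 hev))).exists
  have hg' : IsG β t' (η t') := ⟨ht'0, hη t' ht'0.le⟩
  have hβr : ‖β‖ = r := by
    have h1 : ‖b - β‖ < ‖b‖ := by rw [hb]; exact (hS β hβ).trans_lt ht
    have h2 := Abs2.tri b β 0
    rw [sub_zero, sub_zero] at h2
    have h3 := Abs2.tri β b 0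
    rw [sub_zero, sub_zero, norm_sub_rev] at h3
    have h4 : ‖b‖ ≤ ‖β‖ := by
      rcases le_max_iff.1 h2 with h5 | h5
      · exact absurd h5 (not_le.2 h1)
      · exact h5
    exact le_antisymm (h3.trans (max_le (h1.le.trans hb.le) hb.le)) (hb ▸ h4)
  have hzG : η t' ∈ G := by
    refine ⟨β, t', v β, hβr, ht't.trans ht, ⟨hg', x + ∑ γ ∈ S.erase β, P.l (γ - β) (v γ), {β}, v,
      ?_, ?_, ?_⟩, hvβ⟩
    · intro γ hγ
      rw [Finset.mem_singleton.1 hγ, sub_self, norm_zero]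
      exact ht'0.le
    · have hop : ∀ᶠ z in 𝓝 (η t'), ∀ γ ∈ S.erase β, z.v (X - C β) < z.v (X - C γ) := by
        rw [Filter.eventually_all_finset]
        intro γ hγ
        obtain ⟨hγβ, hγS⟩ := Finset.mem_erase.1 hγ
        refine (isOpen_lt (Ber.continuous_v (X - C β)) (Ber.continuous_v (X - C γ))).mem_nhds ?_
        show (η t').v (X - C β) < (η t').v (X - C γ)
        rw [hη t' ht'0.le, hη t' ht'0.le, sub_self, norm_zero, max_eq_left ht'0.le]
        exact (ht't.trans_le (hsep β hβ γ hγS (Ne.symm hγβ))).trans_le (le_max_right _ _)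
      filter_upwards [hop, hloc] with z hz1 hz2 hzD
      rw [hz2 hzD, Finset.sum_singleton, ← Finset.add_sum_erase S _ hβ, map_add, map_sum]
      have h1 : ∑ γ ∈ S.erase β, P.j z γ (v γ) =
          ∑ γ ∈ S.erase β, P.i z (P.l (γ - β) (v γ)) :=
        Finset.sum_congr rfl fun γ hγ => P.j1 z γ β (hz1 γ hγ) (v γ)
      rw [h1]
      abel
    · rw [Finset.sum_singleton]
  have hle : η t' ≤ m := by
    refine le_lin fun γ => ?_
    rw [hη t' ht'0.le, hmv]
    exact max_le_max ht't.le le_rfl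
  have h1 := hmin _ hzG hle (X - C β)
  rw [hη t' ht'0.le, hmv, sub_self, norm_zero, max_eq_left ht'0.le, max_eq_left ht0.le] at h1
  exact absurd h1 (not_le.2 ht't)

end RSys

end Pool.Agent.TD


end

section

/-! Block U3, abstract form: sections over the circle. -/

open scoped ContDiff Topology
open Polynomial

namespace Pool.Agent.TD

namespace RSys

variable {k M N : Type} [NormedField k] [IsUltrametricDist k] [IsAlgClosed k] [AddCommGroup M]
  [AddCommGroup N] (P : RSys k M N)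

namespace Abs3Aux

omit [IsAlgClosed k] in
theorem exists_isG (a : k) {ρ : ℝ} (hρ : 0 < ρ) : ∃ w : Ber k k[X], IsG a ρ w := by
  obtain ⟨w, h, -, -⟩ := exists_eta a ρ hρ.le
  exact ⟨w, hρ, h⟩

omit [IsAlgClosed k] in
theorem max_norm_le {a b β : k} {ρ : ℝ} (h : ‖a - b‖ ≤ ρ) :
    max ρ ‖a - β‖ ≤ max ρ ‖b - β‖ := by
  refine max_le (le_max_left _ _) ?_
  have h1 := IsUltrametricDist.norm_add_le_max (a - b) (b - β)
  rw [sub_add_sub_cancel] at h1
  exact h1.trans (max_le (h.trans (le_max_left _ _)) (le_max_right _ _))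

omit [IsAlgClosed k] in
theorem max_norm_eq {a b β : k} {ρ : ℝ} (h : ‖a - b‖ ≤ ρ) :
    max ρ ‖a - β‖ = max ρ ‖b - β‖ :=
  le_antisymm (max_norm_le h) (max_norm_le (by rwa [norm_sub_rev]))

/-- Gauss points of discs with the same centre and near radius are near. -/
theorem gauss_near {a b : k} {ρ : ℝ} {w : Ber k k[X]} (hw : IsG a ρ w) (hab : ‖a - b‖ ≤ ρ)
    {W : Set (Ber k k[X])} (hW : W ∈ 𝓝 w) :
    ∀ᶠ ρ' in 𝓝 ρ, ∀ w', IsG b ρ' w' → w' ∈ W := by
  classical
  have hex : ∀ ρ' : ℝ, ∃ w' : Ber k k[X], 0 < ρ' → IsG b ρ' w' := by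
    intro ρ'
    by_cases h : 0 < ρ'
    · obtain ⟨w', h'⟩ := exists_isG b h
      exact ⟨w', fun _ => h'⟩
    · exact ⟨w, fun h' => absurd h' h⟩
  choose g hg using hex
  have ht : Filter.Tendsto g (𝓝 ρ) (𝓝 w) := by
    apply tendsto_lin
    intro β
    rw [hw.2 β, max_norm_eq hab]
    have h1 : Filter.Tendsto (fun ρ' : ℝ => max ρ' ‖b - β‖) (𝓝 ρ) (𝓝 (max ρ ‖b - β‖)) :=
      (continuous_id.max continuous_const).continuousAt
    refine h1.congr' ?_
    filter_upwards [lt_mem_nhds hw.1] with ρ' h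
    exact ((hg ρ' h).2 β).symm
  filter_upwards [ht hW] with ρ' h w' hw'
  have h2 : w' = g ρ' := ext_lin fun β => by rw [hw'.2 β, (hg ρ' hw'.1).2 β]
  rw [h2]
  exact h

omit [IsUltrametricDist k] [IsAlgClosed k] in
theorem v_C (w : Ber k k[X]) (β : k) : w.v (C β) = ‖β‖ := w.ext β

omit [IsUltrametricDist k] [IsAlgClosed k] in
theorem v_sub_of_lt {w : Ber k k[X]} {β : k} (h : ‖β‖ < w.v X) : w.v (X - C β) = w.v X := by
  rw [sub_eq_add_neg]
  exact w.add_eq (by rwa [w.neg, v_C])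

omit [IsUltrametricDist k] [IsAlgClosed k] in
theorem norm_of_close {w : Ber k k[X]} {β : k} (h : w.v (X - C β) < w.v X) : ‖β‖ = w.v X := by
  rw [← v_C w β]
  exact w.sub_eq h

/-- Normal form at a Gauss point of the circle: the coefficients of centres on the circle vanish. -/
theorem coeff_zero {r : ℝ} (hr : 0 < r) (s : ∀ w, P.E w)
    (hs : ∀ w, w.v X = r → P.LC s {w | w.v X = r} w) {a : k} {ρ : ℝ} {w : Ber k k[X]}
    (hw : IsG a ρ w) (hwr : w.v X = r) :
    ∃ (x : M) (S : Finset k) (v : k → N), (∀ β ∈ S, ‖a - β‖ ≤ ρ) ∧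
      (∀ β ∈ S, ∀ β' ∈ S, β ≠ β' → ρ ≤ ‖β - β'‖) ∧ (∀ β ∈ S, ‖β‖ = r → v β = 0) ∧
      ∀ᶠ w' in 𝓝 w, w'.v X = r → s w' = P.i w' x + ∑ β ∈ S, P.j w' β (v β) := by
  classical
  obtain ⟨x, S, v, h1, h2, h3⟩ := P.normal_form hw (hs w hwr)
  refine ⟨x, S, v, h1, h2, ?_, h3⟩
  intro β hβ hβr
  have hρr : ρ ≤ r := by
    have h4 := hw.2 0
    rw [C_0, sub_zero, hwr] at h4
    rw [h4]
    exact le_max_left _ _
  have e1 := gauss_near hw (h1 β hβ) (eventually_eventually_nhds.2 h3)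
  have e2 : ∀ᶠ ρ' in 𝓝[<] ρ, ∀ w', IsG β ρ' w' → w' ∈ {y : Ber k k[X] | ∀ᶠ w' in 𝓝 y,
      w' ∈ {w : Ber k k[X] | w.v X = r} →
        s w' = P.i w' x + ∑ β ∈ S, P.j w' β (v β)} := e1.filter_mono nhdsWithin_le_nhds
  obtain ⟨ρ', h5, h6⟩ := (e2.and (Ioo_mem_nhdsLT hw.1)).exists
  obtain ⟨w', hw'⟩ := exists_isG β h6.1
  have h7 : ∀ᶠ w'' in 𝓝 w', w'' ∈ {w : Ber k k[X] | w.v X = r} →
      s w'' = P.i w'' x + ∑ β ∈ S, P.j w'' β (v β) := h5 w' hw'
  have h8 : ∀ᶠ w'' in 𝓝 w', ∀ β' ∈ S.erase β, w''.v (X - C β) < w''.v (X - C β') := by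
    rw [Filter.eventually_all_finset]
    intro β' hβ'
    rw [Finset.mem_erase] at hβ'
    have ho : IsOpen {z' : Ber k k[X] | z'.v (X - C β) < z'.v (X - C β')} :=
      isOpen_lt (Ber.continuous_v _) (Ber.continuous_v _)
    refine ho.mem_nhds ?_
    show w'.v (X - C β) < w'.v (X - C β')
    rw [hw'.2 β, hw'.2 β', sub_self, norm_zero, max_eq_left h6.1.le]
    exact lt_of_lt_of_le h6.2 ((h2 β hβ β' hβ'.2 (Ne.symm hβ'.1)).trans (le_max_right _ _))
  have ht : P.Tot s {w | w.v X = r} β ρ' w' (v β) := by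
    refine ⟨hw', x + ∑ β' ∈ S.erase β, P.l (β' - β) (v β'), {β}, v, ?_, ?_, ?_, ?_⟩
    · intro b hb
      rw [Finset.mem_singleton] at hb
      rw [hb, sub_self, norm_zero]
      exact h6.1.le
    · intro b hb b' hb' hne
      rw [Finset.mem_singleton] at hb hb'
      exact absurd (hb.trans hb'.symm) hne
    · filter_upwards [h7, h8] with w'' h9 h10 h11
      rw [h9 h11, ← Finset.sum_erase_add S _ hβ, Finset.sum_singleton, map_add, map_sum,
        Finset.sum_congr rfl (fun β' hβ' => P.j1 w'' β' β (h10 β' hβ') (v β')), add_assoc]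
    · rw [Finset.sum_singleton]
  exact P.tot_zero hr s hs hβr (h6.2.trans_le hρr) ht

end Abs3Aux

open Abs3Aux

/-- (U3) A section over the circle is `x + dlog |X| ∧ v`. -/
theorem circle_section {r : ℝ} (hr : 0 < r) (s : ∀ w, P.E w)
    (hs : ∀ w, w.v X = r → P.LC s {w | w.v X = r} w) :
    ∃ (x : M) (v : N), ∀ w, w.v X = r → s w = P.i w x + P.j w 0 v := by
  classical
  obtain ⟨w0, hw0⟩ := exists_isG (0 : k) hr
  have hw0r : w0.v X = r := by
    have h := hw0.2 0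
    rwa [C_0, sub_zero, sub_zero, norm_zero, max_eq_left hr.le] at h
  obtain ⟨x, S, v, h1, -, h3, h4⟩ := coeff_zero P hr s hs hw0 hw0r
  obtain ⟨v0, hv0⟩ : ∃ v0 : N, ∀ w' : Ber k k[X], w'.v X = r →
      ∑ β ∈ S, P.j w' β (v β) = P.j w' 0 v0 := by
    refine ⟨∑ β ∈ S, if ‖β‖ = r then 0 else v β, fun w' hw' => ?_⟩
    rw [map_sum]
    refine Finset.sum_congr rfl fun β hβ => ?_
    by_cases hb : ‖β‖ = r
    · rw [if_pos hb, h3 β hβ hb, map_zero, map_zero]
    · rw [if_neg hb]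
      have hle : ‖β‖ ≤ r := by
        have h := h1 β hβ
        rwa [zero_sub, norm_neg] at h
      have hlt : ‖β‖ < r := lt_of_le_of_ne hle hb
      apply P.j2
      rw [sub_zero, v_sub_of_lt (by rwa [hw']), hw']
      exact hlt
  have key0 : ∀ᶠ w' in 𝓝 w0, w'.v X = r → s w' = P.i w' x + P.j w' 0 v0 := by
    filter_upwards [h4] with w' h h'
    rw [h h', hv0 w' h']
  -- radii on the circle
  have hcirc : ∀ {β : k} {ρ : ℝ} {w : Ber k k[X]}, ‖β‖ = r → ρ < r → IsG β ρ w → w.v X = r := by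
    intro β ρ w hβ hρ hw
    have h := hw.2 0
    rwa [C_0, sub_zero, sub_zero, hβ, max_eq_right hρ.le] at h
  have hj : ∀ {β : k} {w : Ber k k[X]}, w.v X = r → w.v (X - C β) < r →
      P.i w x + P.j w 0 v0 = P.i w (x + P.l (0 - β) v0) := by
    intro β w hw hlt
    rw [P.j1 w 0 β (by rwa [C_0, sub_zero, hw]) v0, map_add]
  have hcen : ∀ {β : k} {ρ : ℝ} {w : Ber k k[X]}, IsG β ρ w → w.v (X - C β) = ρ := by
    intro β ρ w hw
    rw [hw.2 β, sub_self, norm_zero, max_eq_left hw.1.le]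
  -- uniqueness
  have hind : ∀ {β : k} {ρ : ℝ} {w : Ber k k[X]}, IsG β ρ w → ∀ y y' : M,
      P.i w y = P.i w y' → y = y' := by
    intro β ρ w hw y y' h
    have h5 := P.ind β ρ w hw.1 hw.2 ∅ (y - y') (fun _ => 0) (by simp) (by simp)
      (by rw [Finset.sum_empty, add_zero, map_sub, h, sub_self])
    exact sub_eq_zero.1 h5.1
  -- discs inside the circle
  have hloc : ∀ {β : k} {ρ : ℝ} {w : Ber k k[X]}, ‖β‖ = r → ρ < r → IsG β ρ w →
      ∃ y : M, ∀ᶠ w' in 𝓝 w, w'.v X = r → s w' = P.i w' y := by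
    intro β ρ w hβ hρ hw
    obtain ⟨y, T, u, g1, -, g3, g4⟩ := coeff_zero P hr s hs hw (hcirc hβ hρ hw)
    refine ⟨y, ?_⟩
    filter_upwards [g4] with w' h h'
    rw [h h', Finset.sum_eq_zero, add_zero]
    intro b hb
    have hbr : ‖b‖ = r := by
      have h5 : ‖β - b‖ < ‖β‖ := by
        rw [hβ]
        exact (g1 b hb).trans_lt hρ
      have h6 : ‖β‖ ≤ max ‖β - b‖ ‖b‖ := by
        have h7 := IsUltrametricDist.norm_add_le_max (β - b) b
        rwa [sub_add_cancel] at h7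
      have h8 : ‖b‖ ≤ max ‖b - β‖ ‖β‖ := by
        have h7 := IsUltrametricDist.norm_add_le_max (b - β) β
        rwa [sub_add_cancel] at h7
      rw [norm_sub_rev b β, max_eq_right h5.le] at h8
      rcases le_max_iff.1 h6 with h9 | h9
      · exact absurd h9 (not_le.2 h5)
      · rw [← hβ]
        exact le_antisymm h8 h9
    rw [g3 b hb hbr, map_zero]
  have hdisc : ∀ {β : k}, ‖β‖ = r → ∀ ρ ∈ Set.Ioo 0 r, ∀ w, IsG β ρ w →
      s w = P.i w (x + P.l (0 - β) v0) := by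
    intro β hβ
    -- near the radius `r`
    have e1 := gauss_near hw0 (b := β) (by rw [zero_sub, norm_neg, hβ]) key0
    have e2 : ∀ᶠ ρ' in 𝓝[<] r, ∀ w', IsG β ρ' w' → w' ∈ {w' : Ber k k[X] | w'.v X = r →
      s w' = P.i w' x + P.j w' 0 v0} := e1.filter_mono nhdsWithin_le_nhds
    obtain ⟨ρ1, h5, h6⟩ := (e2.and (Ioo_mem_nhdsLT hr)).exists
    have hA1 : ∀ w, IsG β ρ1 w → s w = P.i w (x + P.l (0 - β) v0) := by
      intro w hw
      have h7 : w.v X = r → s w = P.i w x + P.j w 0 v0 := h5 w hw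
      rw [h7 (hcirc hβ h6.2 hw)]
      exact hj (hcirc hβ h6.2 hw) (by rw [hcen hw]; exact h6.2)
    intro ρ hρ
    have hall : (∀ w, IsG β ρ1 w → s w = P.i w (x + P.l (0 - β) v0)) ↔
        (∀ w, IsG β ρ w → s w = P.i w (x + P.l (0 - β) v0)) := by
      refine (isPreconnected_Ioo (a := (0 : ℝ)) (b := r)).induction₂
        (fun ρ ρ' => (∀ w, IsG β ρ w → s w = P.i w (x + P.l (0 - β) v0)) ↔
          (∀ w, IsG β ρ' w → s w = P.i w (x + P.l (0 - β) v0))) ?_ ?_ ?_ h6 hρ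
      · intro ρ2 hρ2
        obtain ⟨w2, hw2⟩ := exists_isG β hρ2.1
        obtain ⟨y, hy⟩ := hloc hβ hρ2.2 hw2
        have e3 := gauss_near hw2 (b := β) (by rw [sub_self, norm_zero]; exact hρ2.1.le) hy
        have e4 : ∀ᶠ ρ' in 𝓝[Set.Ioo 0 r] ρ2, ∀ w', IsG β ρ' w' → w' ∈ {w' : Ber k k[X] |
          w'.v X = r → s w' = P.i w' y} := e3.filter_mono nhdsWithin_le_nhds
        have hiff : ∀ ρ' ∈ Set.Ioo 0 r, (∀ w', IsG β ρ' w' → w'.v X = r → s w' = P.i w' y) →
            ((∀ w, IsG β ρ' w → s w = P.i w (x + P.l (0 - β) v0)) ↔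
              y = x + P.l (0 - β) v0) := by
          intro ρ' hρ' hs'
          constructor
          · intro hh
            obtain ⟨w', hw'⟩ := exists_isG β hρ'.1
            apply hind hw'
            rw [← hh w' hw', hs' w' hw' (hcirc hβ hρ'.2 hw')]
          · intro hh w' hw'
            rw [hs' w' hw' (hcirc hβ hρ'.2 hw'), hh]
        have hself : ∀ w', IsG β ρ2 w' → w'.v X = r → s w' = P.i w' y := by
          intro w' hw' h'
          have h8 : w' = w2 := ext_lin fun b => by rw [hw'.2 b, hw2.2 b]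
          rw [h8] at h' ⊢
          exact hy.self_of_nhds h'
        filter_upwards [e4, self_mem_nhdsWithin] with ρ' h9 h10
        exact (hiff ρ2 hρ2 hself).trans (hiff ρ' h10 fun w' hw' => h9 w' hw').symm
      · intro a b c _ _ _ hab hbc
        exact hab.trans hbc
      · intro a b _ _ hab
        exact hab.symm
    exact hall.1 hA1
  refine ⟨x, v0, fun w hw => ?_⟩
  rcases classify w with ⟨a, ρ, hρ, hG⟩ | h2
  · have hmax : max ρ ‖a‖ = r := by
      have h := hG 0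
      rw [C_0, sub_zero, sub_zero, hw] at h
      exact h.symm
    have hρr : ρ ≤ r := hmax ▸ le_max_left _ _
    rcases hρr.lt_or_eq with hlt | heq
    · have har : ‖a‖ = r := by
        rcases le_total ρ ‖a‖ with h | h
        · rwa [max_eq_right h] at hmax
        · rw [max_eq_left h] at hmax
          exact absurd hmax hlt.ne
      rw [hdisc har ρ ⟨hρ, hlt⟩ w ⟨hρ, hG⟩]
      exact (hj hw (by rw [hcen ⟨hρ, hG⟩]; exact hlt)).symm
    · have har : ‖a‖ ≤ r := hmax ▸ le_max_right _ _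
      have hww : w = w0 := by
        apply ext_lin
        intro β
        rw [hG β, hw0.2 β, heq]
        exact max_norm_eq (by rwa [sub_zero])
      rw [hww]
      exact key0.self_of_nhds hw0r
  · obtain ⟨y, hy⟩ := P.limit_form h2 (hs w hw)
    have hy' : ∀ᶠ w' in 𝓝 w, w'.v X = r → s w' = P.i w' y := hy
    obtain ⟨β, ρ, e, hρ, he, hle, -, heW, hS⟩ := limit_disc w h2 _ hy' {0} (by
      intro b hb
      rw [Finset.mem_singleton] at hb
      rw [hb, C_0, sub_zero, hw]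
      exact hr.ne')
    have hρr : ρ < r := by
      have h := hS 0 (Finset.mem_singleton_self 0)
      rwa [C_0, sub_zero, hw] at h
    have hlt : w.v (X - C β) < r := hle.trans_lt hρr
    have hβ : ‖β‖ = r := by
      rw [← hw]
      exact norm_of_close (by rwa [hw])
    have heG : IsG β ρ e := ⟨hρ, he⟩
    have he1 : s e = P.i e y := heW (hcirc hβ hρr heG)
    have he2 : s e = P.i e (x + P.l (0 - β) v0) := hdisc hβ ρ ⟨hρ, hρr⟩ e heG
    have hyx : y = x + P.l (0 - β) v0 := hind heG _ _ (he1.symm.trans he2)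
    rw [hj hw hlt, ← hyx]
    exact hy'.self_of_nhds hw

end RSys

end Pool.Agent.TD


end

section

/-! Block U4: descent of the vanishing of constant germs. -/

open scoped ContDiff Topology
open Polynomial

namespace Pool.Agent.TD

namespace Desc1

/-- The finite set in `Van` can be enlarged. -/
theorem enlarge {X Φ : Type} [TopologicalSpace X] (L : LogSpace X Φ) {p q : ℕ} {z : X}
    {θ : Raw Φ p q} (h : L.Van z θ) (t : Finset Φ) (ht : ∀ f ∈ t, z ∈ L.dom f) :
    ∃ u : Finset Φ, t ⊆ u ∧ IsSF u θ ∧ ∃ V ∈ 𝓝 z,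
      (∀ f ∈ u, V ⊆ L.dom f) ∧ VanOn u θ (L.trop u '' V) := by
  classical
  obtain ⟨s, hs, V, hV, hVs, hvs⟩ := h
  have h1 : s ⊆ s ∪ t := Finset.subset_union_left
  have h2 : t ⊆ s ∪ t := Finset.subset_union_right
  have hW : ∀ᶠ z' in 𝓝 z, ∀ f ∈ t, z' ∈ L.dom f := by
    rw [Filter.eventually_all_finset]
    exact fun f hf => (L.isOpen_dom f).mem_nhds (ht f hf)
  refine ⟨s ∪ t, h2, hs.mono h1, V ∩ {z' | ∀ f ∈ t, z' ∈ L.dom f},
    Filter.inter_mem hV hW, ?_, ?_⟩
  · intro f hf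
    rcases Finset.mem_union.1 hf with h | h
    exacts [Set.inter_subset_left.trans (hVs f h), fun z' hz' => hz'.2 f h]
  · refine VanOn.refine h1 (P := L.trop s '' V) ?_ hvs
    rintro _ ⟨_, ⟨z', hz', rfl⟩, rfl⟩
    exact ⟨z', hz'.1, (L.rst_trop h1 z').symm⟩

/-- The span of the image of a set under a linear map. -/
theorem vectorSpan_image {V W : Type} [AddCommGroup V] [Module ℝ V] [AddCommGroup W]
    [Module ℝ W] (r : V →ₗ[ℝ] W) (σ : Set V) :
    vectorSpan ℝ (r '' σ) = Submodule.map r (vectorSpan ℝ σ) := by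
  have h := AffineMap.map_vectorSpan (k := ℝ) (s := σ) r.toAffineMap
  simpa using h.symm

end Desc1

/-- Descent along a proper surjective morphism with polyhedral local tropicalizations upstairs. -/
theorem Mor.descend {X Φ X' Φ' : Type} [TopologicalSpace X] [TopologicalSpace X']
    {L : LogSpace X Φ} {L' : LogSpace X' Φ'} (m : Mor L' L) {z : X}
    (hsur : ∃ V ∈ 𝓝 z, V ⊆ Set.range m.toFun)
    (hc : IsCompact (m.toFun ⁻¹' {z}))
    (hp : ∀ W : Set X', IsOpen W → m.toFun ⁻¹' {z} ⊆ W → ∃ V ∈ 𝓝 z, m.toFun ⁻¹' V ⊆ W)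
    (hF : ∀ z', m.toFun z' = z → L'.FinConv z') {p : ℕ} {θ : Raw Φ p 0} (hθ : IsCst θ)
    (hs : L.SFat z θ) (hv : ∀ z', m.toFun z' = z → L'.Van z' (pullR m.ix θ)) :
    L.Van z θ := by
  classical
  obtain ⟨s, hsf, hsd⟩ := hs
  have hD : {x : X | ∀ f ∈ s, x ∈ L.dom f} ∈ 𝓝 z := by
    have : ∀ᶠ x in 𝓝 z, ∀ f ∈ s, x ∈ L.dom f := by
      rw [Filter.eventually_all_finset]
      exact fun f hf => (L.isOpen_dom f).mem_nhds (hsd f hf)
    exact this
  -- local data upstairs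
  have key : ∀ z' : X', m.toFun z' = z → ∃ (u : Finset Φ') (V : Set X')
      (S : Set (Set (u → ℝ))), s.image m.ix ⊆ u ∧ V ∈ 𝓝 z' ∧ S.Finite ∧
        (∀ σ ∈ S, Convex ℝ σ) ∧ L'.trop u '' V = ⋃₀ S ∧
        VanOn u (pullR m.ix θ) (L'.trop u '' V) := by
    intro z' hz'
    obtain ⟨u, hu, -, V0, hV0, hVd, hvan⟩ := Desc1.enlarge L' (hv z' hz') (s.image m.ix) (by
      intro f hf
      obtain ⟨f', hf', rfl⟩ := Finset.mem_image.1 hf
      refine m.dom_sub _ _ ?_
      rw [hz']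
      exact hsd f' hf')
    obtain ⟨V, hV, hVV, -, S, hS, hSc, hSe⟩ := hF z' hz' u
      (fun f hf => hVd f hf (mem_of_mem_nhds hV0)) V0 hV0
    exact ⟨u, V, S, hu, hV, hS, hSc, hSe, hvan.mono (Set.image_mono hVV)⟩
  choose! u V S hu hV hS hSc hSe hvan using key
  obtain ⟨t, ht, htc⟩ := hc.elim_nhds_subcover (fun z' => interior (V z'))
    (fun z' hz' => interior_mem_nhds.2 (hV z' hz'))
  obtain ⟨V1, hV1, hV1W⟩ := hp (⋃ z' ∈ t, interior (V z'))
    (isOpen_biUnion fun z' _ => isOpen_interior) htc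
  obtain ⟨V2, hV2, hV2r⟩ := hsur
  refine ⟨s, hsf, (V1 ∩ V2) ∩ {x : X | ∀ f ∈ s, x ∈ L.dom f},
    Filter.inter_mem (Filter.inter_mem hV1 hV2) hD, fun f hf x hx => hx.2 f hf, ?_⟩
  intro σ hσ hσP x w v hx hw hvv
  -- the restriction maps
  have hmem : ∀ i : t, ∀ f : s, m.ix f ∈ u i := fun i f =>
    hu i (ht i i.2) (Finset.mem_image_of_mem _ f.2)
  let r : ∀ i : t, ((u i) → ℝ) →ₗ[ℝ] (s → ℝ) := fun i =>
    LinearMap.funLeft ℝ ℝ (fun f : s => (⟨m.ix f, hmem i f⟩ : u i))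
  have hr : ∀ (i : t) (y : u i → ℝ) (f : s), r i y f = y ⟨m.ix f, hmem i f⟩ := fun i y f => rfl
  have hfin : ∀ i : t, Finite (S i) := fun i => (hS i (ht i i.2)).to_subtype
  let C : (Σ i : t, (S i : Set (Set (u i → ℝ)))) → Set (s → ℝ) := fun c =>
    r c.1 '' (c.2.1 ∩ r c.1 ⁻¹' σ)
  have hconv : ∀ c : (Σ i : t, (S i : Set (Set (u i → ℝ)))),
      Convex ℝ (c.2.1 ∩ r c.1 ⁻¹' σ) := fun c =>
    (hSc c.1 (ht c.1 c.1.2) c.2.1 c.2.2).inter (hσ.linear_preimage (r c.1))
  obtain ⟨c, hcne, hcs⟩ := exists_vectorSpan_eq hσ ⟨_, hx⟩ C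
    (fun c => (hconv c).linear_image (r c.1))
    (by
      rintro c _ ⟨y, hy, rfl⟩
      exact hy.2)
    (by
      intro y hy
      obtain ⟨z2, ⟨⟨hz1, hz2⟩, hz3⟩, rfl⟩ := hσP hy
      obtain ⟨x', rfl⟩ := hV2r hz2
      have h1 : x' ∈ ⋃ z' ∈ t, interior (V z') := hV1W hz1
      simp only [Set.mem_iUnion] at h1
      obtain ⟨i, hi, hxi⟩ := h1
      have h2 : L'.trop (u i) x' ∈ ⋃₀ S i := by
        rw [← hSe i (ht i hi)]
        exact ⟨x', interior_subset hxi, rfl⟩
      obtain ⟨c, hc, hxc⟩ := h2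
      have h3 : r ⟨i, hi⟩ (L'.trop (u i) x') = L.trop s (m.toFun x') := by
        funext f
        exact m.lf_eq f x' (hz3 f f.2)
      refine Set.mem_iUnion.2 ⟨⟨⟨i, hi⟩, ⟨c, hc⟩⟩, ?_⟩
      exact ⟨L'.trop (u i) x', ⟨hxc, by rw [Set.mem_preimage, h3]; exact hy⟩, h3⟩)
  obtain ⟨i, c⟩ := c
  have hsp : ∀ j, ∃ y ∈ vectorSpan ℝ (c.1 ∩ r i ⁻¹' σ), r i y = rs s (v j) := by
    intro j
    have h1 := hvv j
    rw [← hcs] at h1
    change rs s (v j) ∈ vectorSpan ℝ (r i '' (c.1 ∩ r i ⁻¹' σ)) at h1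
    rw [Desc1.vectorSpan_image] at h1
    exact h1
  choose y hy hry using hsp
  obtain ⟨_, x0, hx0, -⟩ := hcne
  obtain ⟨X0, hX0⟩ := rs_surjective (u i) x0
  have hY : ∀ j, ∃ Y : Φ' → ℝ, rs (u i) Y = y j := fun j => rs_surjective (u i) (y j)
  choose Y hYy using hY
  have hz := hvan i (ht i i.2) (c.1 ∩ r i ⁻¹' σ) (hconv ⟨i, c⟩) (by
      intro a ha
      rw [hSe i (ht i i.2)]
      exact ⟨c.1, c.2, ha.1⟩) X0 ![] Y (by rw [hX0]; exact hx0) (fun k => k.elim0)
    (fun j => by rw [hYy]; exact hy j)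
  obtain ⟨α, hα, hαe⟩ := hsf
  have h4 : θ x w v = θ (X0 ∘ m.ix) w v := hθ _ _ _ _
  rw [h4, ← hz]
  change θ (X0 ∘ m.ix) w v = θ (X0 ∘ m.ix) (fun k => (![] : Fin 0 → Φ' → ℝ) k ∘ m.ix)
    (fun j => Y j ∘ m.ix)
  rw [hαe, hαe]
  have h5 : (fun k => rs s (w k)) = fun k => rs s ((![] : Fin 0 → Φ' → ℝ) k ∘ m.ix) := by
    funext k
    exact k.elim0
  have h6 : (fun j => rs s (v j)) = fun j => rs s (Y j ∘ m.ix) := by
    funext j
    rw [← hry j, ← hYy j]
    rfl
  rw [h5, h6]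

end Pool.Agent.TD


end

section

/-! Block U4: integral extensions. -/

open scoped ContDiff Topology
open Polynomial

namespace Pool.Agent.TD

namespace Desc2Aux

theorem comap_eq_res {K A B : Type} [NormedField K] [CommRing A] [CommRing B] [Algebra K A]
    [Algebra K B] (f : A →ₐ[K] B) : (BG.comap f : Ber K B → Ber K A) = Ber.res f := by
  funext z
  exact Ber.ext_v fun a => rfl

/-- Basic neighbourhoods in the spectrum. -/
theorem exists_basic {K B : Type} [NormedField K] [CommRing B] [Algebra K B] (z : Ber K B)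
    {V : Set (Ber K B)} (hV : V ∈ 𝓝 z) :
    ∃ (t : Finset B) (N : B → Set ℝ), (∀ b ∈ t, N b ∈ 𝓝 (z.v b)) ∧
      ∀ z' : Ber K B, (∀ b ∈ t, z'.v b ∈ N b) → z' ∈ V := by
  rw [nhds_induced, Filter.mem_comap] at hV
  obtain ⟨W, hW, hWV⟩ := hV
  rw [nhds_pi, Filter.mem_pi'] at hW
  obtain ⟨t, N, hN, hNW⟩ := hW
  exact ⟨t, N, fun b _ => hN b, fun z' hz' => hWV (hNW fun b hb => hz' b hb)⟩

end Desc2Aux

open Desc2Aux

/-- Local polyhedrality for integral extensions of algebras of finite type. -/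
theorem finConv_int (hSTA : BG.STA_Stmt) (hINT : BG.INT_Stmt) {K A B : Type} [NormedField K]
    [IsUltrametricDist K] [CommRing A] [Algebra K A] [Algebra.FiniteType K A] [CommRing B]
    [Algebra K B] (f : A →ₐ[K] B) (h1 : Function.Injective f) (h2 : f.toRingHom.IsIntegral)
    (z : Ber K B) : (berLS K B).FinConv z := by
  classical
  intro u hu V hV
  obtain ⟨t, N, hN, hNV⟩ := exists_basic z hV
  obtain ⟨S0, hS0⟩ := (Algebra.FiniteType.out : (⊤ : Subalgebra K A).FG)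
  let B1 : Subalgebra K B := Algebra.adjoin K (((S0.image f) ∪ u ∪ t : Finset B) : Set B)
  have hft : Algebra.FiniteType K B1 := by
    rw [← Subalgebra.fg_iff_finiteType]
    exact Subalgebra.fg_adjoin_finset _
  have huB : ∀ b ∈ u, b ∈ B1 := fun b hb => Algebra.subset_adjoin (by
    simp only [Finset.coe_union, Set.mem_union, Finset.mem_coe]
    exact Or.inl (Or.inr hb))
  have htB : ∀ b ∈ t, b ∈ B1 := fun b hb => Algebra.subset_adjoin (by
    simp only [Finset.coe_union, Set.mem_union, Finset.mem_coe]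
    exact Or.inr hb)
  have hfB : ∀ a : A, f a ∈ B1 := by
    intro a
    have h3 : (⊤ : Subalgebra K A).map f ≤ B1 := by
      rw [← hS0, AlgHom.map_adjoin]
      apply Algebra.adjoin_mono
      intro b hb
      obtain ⟨s, hs, rfl⟩ := hb
      simp only [Finset.coe_union, Set.mem_union, Finset.mem_coe]
      exact Or.inl (Or.inl (Finset.mem_image_of_mem f hs))
    exact h3 ⟨a, Algebra.mem_top, rfl⟩
  have hint : (B1.val : B1 →ₐ[K] B).toRingHom.IsIntegral := by
    intro b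
    obtain ⟨p, hp, hpb⟩ := h2 b
    let g : A →+* B1 := (f.codRestrict B1 hfB).toRingHom
    refine ⟨p.map g, hp.map g, ?_⟩
    rw [eval₂_map]
    exact hpb
  obtain ⟨hc, hs, -, -⟩ := hINT K B1 B B1.val Subtype.val_injective hint
  -- the point below
  let z1 : Ber K B1 := BG.comap B1.val z
  let u1 : Finset B1 := u.attach.image fun b => ⟨b.1, huB b.1 b.2⟩
  have hu1 : ∀ b (hb : b ∈ u), (⟨b, huB b hb⟩ : B1) ∈ u1 := fun b hb =>
    Finset.mem_image.2 ⟨⟨b, hb⟩, Finset.mem_attach _ _, rfl⟩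
  have hu1' : ∀ b ∈ u1, (b : B) ∈ u := by
    intro b hb
    obtain ⟨c, -, rfl⟩ := Finset.mem_image.1 hb
    exact c.2
  let V1 : Set (Ber K B1) := {w | ∀ b ∈ t.attach, w.v ⟨b.1, htB b.1 b.2⟩ ∈ N b.1}
  have hV1 : V1 ∈ 𝓝 z1 := by
    have h3 : ∀ᶠ w in 𝓝 z1, ∀ b ∈ t.attach, w.v ⟨b.1, htB b.1 b.2⟩ ∈ N b.1 := by
      rw [Filter.eventually_all_finset]
      intro b _
      have h4 : Continuous fun w : Ber K B1 => w.v ⟨b.1, htB b.1 b.2⟩ := Ber.continuous_v _
      exact h4.continuousAt.eventually (hN b.1 b.2)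
    exact h3
  obtain ⟨V1', hV1', hVV, hdom, S, hSfin, hSc, hSu⟩ := (hSTA K B1 z1).2 u1 (fun b hb => by
    show z.v (b : B) ≠ 0
    exact hu _ (hu1' b hb)) V1 hV1
  refine ⟨BG.comap B1.val ⁻¹' V1', hc.continuousAt.preimage_mem_nhds hV1', ?_, ?_, ?_⟩
  · intro w hw
    exact hNV w fun b hb => hVV hw ⟨b, hb⟩ (Finset.mem_attach _ _)
  · intro b hb w hw
    exact hdom _ (hu1 b hb) hw
  · let r : (u1 → ℝ) →ₗ[ℝ] (u → ℝ) :=
      { toFun := fun x b => x ⟨⟨b.1, huB b.1 b.2⟩, hu1 b.1 b.2⟩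
        map_add' := fun x x' => rfl
        map_smul' := fun c x => rfl }
    refine ⟨(fun σ => r '' σ) '' S, hSfin.image _, ?_, ?_⟩
    · rintro _ ⟨σ, hσ, rfl⟩
      exact (hSc σ hσ).linear_image r
    · have h3 : (berLS K B).trop u '' (BG.comap B1.val ⁻¹' V1') =
          r '' ((berLS K B1).trop u1 '' V1') := by
        ext x
        constructor
        · rintro ⟨w, hw, rfl⟩
          exact ⟨_, ⟨BG.comap B1.val w, hw, rfl⟩, rfl⟩
        · rintro ⟨_, ⟨w1, hw1, rfl⟩, rfl⟩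
          obtain ⟨w, rfl⟩ := hs w1
          exact ⟨w, hw1, rfl⟩
      rw [h3, hSu, Set.sUnion_image, Set.sUnion_eq_biUnion, Set.image_iUnion₂]

/-- (U4) -/
theorem van_of_int (hSTA : BG.STA_Stmt) (hINT : BG.INT_Stmt) {K A B : Type} [NormedField K]
    [IsUltrametricDist K] [CommRing A] [Algebra K A] [Algebra.FiniteType K A] [CommRing B]
    [Algebra K B] (f : A →ₐ[K] B) (h1 : Function.Injective f) (h2 : f.toRingHom.IsIntegral)
    (z : Ber K A) {p : ℕ} {θ : Raw A p 0} (hθ : IsCst θ) (hs : (berLS K A).SFat z θ)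
    (hv : ∀ z', Ber.res f z' = z → (berLS K B).Van z' (pullR f θ)) :
    (berLS K A).Van z θ := by
  obtain ⟨-, hsur, hcl, hprop⟩ := hINT K A B f h1 h2
  rw [comap_eq_res] at hsur hcl hprop
  refine Mor.descend (berMor f) ?_ ?_ ?_ ?_ hθ hs ?_
  · exact ⟨Set.univ, Filter.univ_mem, fun w _ => hsur w⟩
  · exact hprop {z} isCompact_singleton
  · intro W hW hzW
    refine ⟨(Ber.res f '' Wᶜ)ᶜ, ?_, ?_⟩
    · refine (hcl _ hW.isClosed_compl).isOpen_compl.mem_nhds ?_
      rintro ⟨w, hw, hwz⟩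
      exact hw (hzW hwz)
    · intro w hw
      by_contra hcon
      exact hw ⟨w, hcon, rfl⟩
  · intro z' _
    exact finConv_int hSTA hINT f h1 h2 z'
  · exact hv

end Pool.Agent.TD


end

section

/-!
# Recurrence for sequences of subgroups of `ℝ^d` which contain `ℤ^d`
-/

namespace MldAcc

open Filter Topology

section general

variable {E : Type*} [NormedAddCommGroup E] [NormedSpace ℝ E] [FiniteDimensional ℝ E]

/-- A closed subgroup which contains no line of `W` is discrete in `W`. -/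
theorem discrete_part (H : AddSubgroup E) (hH : IsClosed (H : Set E)) (W : Submodule ℝ E)
    (hW : ∀ v ∈ W, (∀ t : ℝ, t • v ∈ H) → v = 0) :
    ∃ r : ℝ, 0 < r ∧ ∀ h ∈ H, h ∈ W → ‖h‖ < r → h = 0 := by
  have : ProperSpace E := FiniteDimensional.proper ℝ E
  by_contra hcon
  push Not at hcon
  have h1 : ∀ n : ℕ, ∃ h ∈ H, h ∈ W ∧ ‖h‖ < 1 / ((n : ℝ) + 1) ∧ h ≠ 0 :=
    fun n => hcon _ (by positivity)
  choose h hhH hhW hhr hh0 using h1
  have hnorm : ∀ n, 0 < ‖h n‖ := fun n => norm_pos_iff.2 (hh0 n)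
  set u : ℕ → E := fun n => ‖h n‖⁻¹ • h n with hu
  have hu1 : ∀ n, u n ∈ Metric.sphere (0 : E) 1 := by
    intro n
    rw [mem_sphere_zero_iff_norm, hu]
    simp only [norm_smul, norm_inv, norm_norm]
    exact inv_mul_cancel₀ (hnorm n).ne'
  obtain ⟨v, hv, φ, hφ, hlim⟩ := (isCompact_sphere (0 : E) 1).tendsto_subseq hu1
  have hh : Tendsto (fun n => ‖h (φ n)‖) atTop (𝓝 0) := by
    have h2 : Tendsto (fun n => ‖h n‖) atTop (𝓝 0) :=
      squeeze_zero (fun n => norm_nonneg _) (fun n => (hhr n).le)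
        tendsto_one_div_add_atTop_nhds_zero_nat
    exact h2.comp hφ.tendsto_atTop
  have hvW : v ∈ W := by
    have hcl : IsClosed (W : Set E) := W.closed_of_finiteDimensional
    exact hcl.mem_of_tendsto hlim (Eventually.of_forall fun n => W.smul_mem _ (hhW _))
  have hvH : ∀ t : ℝ, t • v ∈ H := by
    intro t
    have h3 : Tendsto (fun n => t • u (φ n)) atTop (𝓝 (t • v)) := hlim.const_smul t
    have h4 : Tendsto (fun n => ⌊t / ‖h (φ n)‖⌋ • h (φ n)) atTop (𝓝 (t • v)) := by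
      refine tendsto_of_tendsto_of_dist h3 ?_
      refine squeeze_zero (fun n => dist_nonneg) (fun n => ?_) hh
      have hn := hnorm (φ n)
      have e1 : t • u (φ n) - ⌊t / ‖h (φ n)‖⌋ • h (φ n) =
          Int.fract (t / ‖h (φ n)‖) • h (φ n) := by
        rw [hu, smul_smul, ← Int.cast_smul_eq_zsmul ℝ, ← sub_smul, Int.fract, div_eq_mul_inv]
      rw [dist_eq_norm, e1, norm_smul, Real.norm_of_nonneg (Int.fract_nonneg _)]
      exact mul_le_of_le_one_left hn.le (Int.fract_lt_one _).le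
    exact hH.mem_of_tendsto h4 (Eventually.of_forall fun n => H.zsmul_mem (hhH _) _)
  have h5 := hW v hvW hvH
  rw [h5, mem_sphere_zero_iff_norm, norm_zero] at hv
  exact zero_ne_one hv

/-- The quotient of a finite dimensional space by a closed subgroup has no small subgroups. -/
theorem noSmall (H : AddSubgroup E) (hH : IsClosed (H : Set E)) :
    ∃ δ : ℝ, 0 < δ ∧ ∀ x ∉ H, ∃ s : ℕ, ∀ h ∈ H, δ ≤ ‖s • x - h‖ := by
  let V : Submodule ℝ E :=
    { carrier := {v | ∀ t : ℝ, t • v ∈ H}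
      add_mem' := by
        intro a b ha hb t
        rw [smul_add]
        exact H.add_mem (ha t) (hb t)
      zero_mem' := by
        intro t
        rw [smul_zero]
        exact H.zero_mem
      smul_mem' := by
        intro c v hv t
        rw [smul_smul]
        exact hv _ }
  have hVH : ∀ v ∈ V, v ∈ H := by
    intro v hv
    have := hv 1
    rwa [one_smul] at this
  obtain ⟨W, hVW⟩ := V.exists_isCompl
  obtain ⟨r, hr, hdisc⟩ := discrete_part H hH W (by
    intro v hvW hv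
    have h1 : v ∈ V ⊓ W := ⟨hv, hvW⟩
    rw [hVW.inf_eq_bot] at h1
    exact (Submodule.mem_bot ℝ).1 h1)
  set P : E →ₗ[ℝ] E := W.projection V hVW.symm with hP
  have hPW : ∀ x, P x ∈ W := fun x => Submodule.projection_apply_mem hVW.symm x
  have hPV : ∀ x, x - P x ∈ V := fun x => Submodule.sub_projection_mem hVW.symm x
  have hPH : ∀ x ∈ H, P x ∈ H := by
    intro x hx
    have := H.sub_mem hx (hVH _ (hPV x))
    rwa [sub_sub_cancel] at this
  set Pc : E →L[ℝ] E := LinearMap.toContinuousLinearMap P with hPc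
  have hPc' : ∀ x, Pc x = P x := fun x => rfl
  set C : ℝ := ‖Pc‖ with hC
  have hC0 : 0 ≤ C := norm_nonneg _
  refine ⟨r / (4 * (C + 1)), by positivity, ?_⟩
  intro x hx
  by_contra hcon
  push Not at hcon
  choose h hhH hhd using hcon
  set e : ℕ → E := fun m => P ((2 ^ m : ℕ) • x) - P (h (2 ^ m)) with he
  have hCδ : C * (r / (4 * (C + 1))) ≤ r / 4 := by
    rw [mul_div_assoc', div_le_div_iff₀ (by positivity) (by norm_num)]
    nlinarith
  have hen : ∀ m, ‖e m‖ ≤ r / 4 := by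
    intro m
    have h1 : e m = Pc ((2 ^ m : ℕ) • x - h (2 ^ m)) := by
      rw [hPc', map_sub]
    rw [h1]
    refine (Pc.le_opNorm _).trans (le_trans ?_ hCδ)
    exact mul_le_mul_of_nonneg_left (hhd _).le hC0
  have hrec : ∀ m, e (m + 1) = (2 : ℝ) • e m := by
    intro m
    have h1 : e (m + 1) - (2 : ℝ) • e m = (2 : ℤ) • P (h (2 ^ m)) - P (h (2 ^ (m + 1))) := by
      simp only [he]
      rw [pow_succ, mul_comm (2 ^ m) 2, mul_smul, smul_sub, map_nsmul, ← Nat.cast_smul_eq_nsmul ℝ,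
        ← Int.cast_smul_eq_zsmul ℝ]
      push_cast
      abel
    have h2 : (2 : ℤ) • P (h (2 ^ m)) - P (h (2 ^ (m + 1))) = 0 := by
      apply hdisc
      · exact H.sub_mem (H.zsmul_mem (hPH _ (hhH _)) _) (hPH _ (hhH _))
      · exact W.sub_mem (zsmul_mem (hPW _) _) (hPW _)
      · rw [← h1]
        refine (norm_sub_le _ _).trans_lt ?_
        rw [norm_smul]
        have h3 := hen m
        have h4 := hen (m + 1)
        have h5 : ‖(2 : ℝ)‖ = 2 := by norm_num
        rw [h5]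
        linarith
    rw [h2] at h1
    exact sub_eq_zero.1 h1
  have hpow : ∀ m, e m = ((2 : ℝ) ^ m) • e 0 := by
    intro m
    induction m with
    | zero => simp
    | succ m ih => rw [hrec, ih, smul_smul, pow_succ, mul_comm]
  have h0 : e 0 = 0 := by
    by_contra hne
    have hpos : 0 < ‖e 0‖ := norm_pos_iff.2 hne
    obtain ⟨m, hm⟩ := pow_unbounded_of_one_lt (r / 4 / ‖e 0‖) (one_lt_two : (1 : ℝ) < 2)
    have h1 := hen m
    rw [hpow, norm_smul, norm_pow] at h1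
    have h5 : ‖(2 : ℝ)‖ = 2 := by norm_num
    rw [h5] at h1
    rw [div_lt_iff₀ hpos] at hm
    linarith
  apply hx
  have h1 : P x = P (h 1) := by
    have h2 : e 0 = P x - P (h 1) := by
      simp only [he, pow_zero, one_smul]
    rw [h2] at h0
    exact sub_eq_zero.1 h0
  have h2 : x = (x - P x) + P (h 1) := by
    rw [← h1]
    abel
  rw [h2]
  exact H.add_mem (hVH _ (hPV x)) (hPH _ (hhH _))

end general

variable {d : ℕ}

/-- The points of `ℝ^d` which are limits of points of the groups `N i`. -/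
def limGrp (U : Ultrafilter ℕ) (N : ℕ → AddSubgroup (Fin d → ℝ)) : AddSubgroup (Fin d → ℝ) where
  carrier := {x | ∀ ε : ℝ, 0 < ε → ∀ᶠ i in (U : Filter ℕ), ∃ y ∈ N i, ‖x - y‖ < ε}
  add_mem' := by
    intro a b ha hb ε hε
    filter_upwards [ha (ε / 2) (by positivity), hb (ε / 2) (by positivity)] with i h1 h2
    obtain ⟨y, hy, hy'⟩ := h1
    obtain ⟨z, hz, hz'⟩ := h2
    refine ⟨y + z, (N i).add_mem hy hz, ?_⟩
    have : a + b - (y + z) = (a - y) + (b - z) := by abel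
    rw [this]
    exact (norm_add_le _ _).trans_lt (by linarith)
  zero_mem' := by
    intro ε hε
    refine Eventually.of_forall fun i => ⟨0, (N i).zero_mem, ?_⟩
    simpa using hε
  neg_mem' := by
    intro a ha ε hε
    filter_upwards [ha ε hε] with i h1
    obtain ⟨y, hy, hy'⟩ := h1
    refine ⟨-y, (N i).neg_mem hy, ?_⟩
    rw [show -a - -y = -(a - y) by abel, norm_neg]
    exact hy'

theorem mem_limGrp {U : Ultrafilter ℕ} {N : ℕ → AddSubgroup (Fin d → ℝ)} {x : Fin d → ℝ} :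
    x ∈ limGrp U N ↔ ∀ ε : ℝ, 0 < ε → ∀ᶠ i in (U : Filter ℕ), ∃ y ∈ N i, ‖x - y‖ < ε :=
  Iff.rfl

theorem isClosed_limGrp (U : Ultrafilter ℕ) (N : ℕ → AddSubgroup (Fin d → ℝ)) :
    IsClosed (limGrp U N : Set (Fin d → ℝ)) := by
  rw [← isSeqClosed_iff_isClosed]
  intro u x hu hx ε hε
  obtain ⟨n, hn⟩ := (Metric.tendsto_atTop.1 hx (ε / 2) (by positivity))
  have h1 := hn n le_rfl
  rw [dist_eq_norm] at h1
  filter_upwards [hu n (ε / 2) (by positivity)] with i h2
  obtain ⟨y, hy, hy'⟩ := h2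
  refine ⟨y, hy, ?_⟩
  have : x - y = -(u n - x) + (u n - y) := by abel
  rw [this]
  refine (norm_add_le _ _).trans_lt ?_
  rw [norm_neg]
  linarith

/-- The integral part of a vector belongs to every subgroup which contains the unit vectors. -/
theorem floor_mem (N : AddSubgroup (Fin d → ℝ)) (hN : ∀ i, Pi.single i 1 ∈ N) (x : Fin d → ℝ) :
    (fun i => (⌊x i⌋ : ℝ)) ∈ N := by
  have h1 : (fun i => (⌊x i⌋ : ℝ)) = ∑ i, ⌊x i⌋ • (Pi.single i 1 : Fin d → ℝ) := by
    funext l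
    rw [Finset.sum_apply, Finset.sum_eq_single l]
    · simp
    · intro b _ hb
      simp [hb.symm]
    · intro h
      exact absurd (Finset.mem_univ l) h
  rw [h1]
  exact N.sum_mem fun i _ => N.zsmul_mem (hN i) _

/-- Most of the groups `N k` consist of limits of points of the groups `N i`. -/
theorem recur (U : Ultrafilter ℕ) (N : ℕ → AddSubgroup (Fin d → ℝ))
    (hN : ∀ k i, Pi.single i 1 ∈ N k) :
    ∀ᶠ k in (U : Filter ℕ), ∀ x ∈ N k, ∀ ε : ℝ, 0 < ε →
      ∀ᶠ i in (U : Filter ℕ), ∃ y ∈ N i, ‖x - y‖ < ε := by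
  set H := limGrp U N with hH
  have hHZ : ∀ i, (Pi.single i 1 : Fin d → ℝ) ∈ H := by
    intro i ε hε
    refine Eventually.of_forall fun k => ⟨_, hN k i, ?_⟩
    simpa using hε
  obtain ⟨δ, hδ, hns⟩ := noSmall H (isClosed_limGrp U N)
  by_contra hcon
  rw [← Ultrafilter.eventually_not] at hcon
  have h1 : ∀ᶠ k in (U : Filter ℕ), ∃ z : Fin d → ℝ, z ∈ N k ∧ z ∈ Set.Icc (0 : Fin d → ℝ) 1 ∧
      ∀ h ∈ H, δ ≤ ‖z - h‖ := by
    filter_upwards [hcon] with k hk
    push Not at hk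
    obtain ⟨x, hx, hx2⟩ := hk
    have hxH : x ∉ H := by
      intro h
      obtain ⟨ε, hε, h3⟩ := hx2
      obtain ⟨i, hi1, y, hy, hy2⟩ := (h3.and (mem_limGrp.1 h ε hε)).exists
      exact absurd hy2 (not_lt.2 (hi1 y hy))
    obtain ⟨s, hs⟩ := hns x hxH
    refine ⟨s • x - fun i => (⌊(s • x) i⌋ : ℝ), ?_, ?_, ?_⟩
    · exact (N k).sub_mem ((N k).nsmul_mem hx s) (floor_mem _ (hN k) _)
    · constructor
      · intro i
        exact Int.fract_nonneg ((s • x) i)
      · intro i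
        exact (Int.fract_lt_one ((s • x) i)).le
    · intro h hh
      have h4 := hs ((fun i => (⌊(s • x) i⌋ : ℝ)) + h) (H.add_mem (floor_mem _ hHZ _) hh)
      rw [sub_sub]
      exact h4
  obtain ⟨z, hz⟩ := h1.choice
  have hle : ((U.map z : Ultrafilter (Fin d → ℝ)) : Filter (Fin d → ℝ)) ≤
      𝓟 (Set.Icc (0 : Fin d → ℝ) 1) := by
    rw [le_principal_iff]
    exact hz.mono fun k hk => hk.2.1
  obtain ⟨a, _, ha⟩ := isCompact_Icc.ultrafilter_le_nhds _ hle
  have hlim : Tendsto z (U : Filter ℕ) (𝓝 a) := ha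
  have haH : a ∈ H := by
    intro ε hε
    filter_upwards [hz, Metric.tendsto_nhds.1 hlim ε hε] with k hk hk2
    refine ⟨z k, hk.1, ?_⟩
    rw [norm_sub_rev, ← dist_eq_norm]
    exact hk2
  have h5 : ∀ᶠ k in (U : Filter ℕ), False := by
    filter_upwards [hz, Metric.tendsto_nhds.1 hlim δ hδ] with k hk hk2
    have h6 := hk.2.2 a haH
    rw [← dist_eq_norm] at h6
    exact absurd hk2 (not_lt.2 h6)
  exact h5.exists.choose_spec

end MldAcc


end

section

/-!
# The core of the ascending chain condition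

Everything happens in one simplicial cone, the positive orthant of `ℝ^d`.
-/

namespace MldAcc

open Filter Topology Finset

/-! ### well-quasi-orders and ultrafilters -/

/-- A sequence built from a property which holds for most natural numbers. -/
theorem exists_seq (U : Ultrafilter ℕ) (P : ℕ → Prop) (r : ℕ → ℕ → Prop)
    (hP : ∀ᶠ k in (U : Filter ℕ), P k)
    (hr : ∀ k, P k → ∀ᶠ i in (U : Filter ℕ), r k i) :
    ∃ f : ℕ → ℕ, (∀ n, P (f n)) ∧ ∀ m n, m < n → r (f m) (f n) := by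
  apply exists_seq_of_forall_finset_exists P r
  intro s hs
  have h1 : ∀ᶠ i in (U : Filter ℕ), ∀ x ∈ s, r x i := by
    rw [Filter.eventually_all_finset]
    exact fun x hx => hr x (hs x hx)
  obtain ⟨i, hi⟩ := (hP.and h1).exists
  exact ⟨i, hi⟩

/-- In a well-ordered set most elements of a sequence are below most of the others. -/
theorem wf_ultra (U : Ultrafilter ℕ) {S : Set ℝ} (hS : S.IsWF) (x : ℕ → ℝ) (hx : ∀ k, x k ∈ S) :
    ∀ᶠ k in (U : Filter ℕ), ∀ᶠ i in (U : Filter ℕ), x k ≤ x i := by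
  by_contra hcon
  rw [← Ultrafilter.eventually_not] at hcon
  obtain ⟨f, hf, hr⟩ := exists_seq U (fun k => ¬ ∀ᶠ i in (U : Filter ℕ), x k ≤ x i)
    (fun k i => ¬ x k ≤ x i) hcon (fun k hk => by
      rw [← Ultrafilter.eventually_not] at hk
      exact hk)
  obtain ⟨m, n, hmn, h⟩ := hS.isPWO.exists_lt (f := fun n => x (f n)) (fun n => hx _)
  exact hr m n hmn h

/-! ### monomial ideals -/

variable {d : ℕ}

/-- The order function of a monomial ideal, given by the exponents of its generators. -/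
noncomputable def ordA (A : Set (Fin d → ℕ)) (y : Fin d → ℝ) : ℝ :=
  sInf ((fun a : Fin d → ℕ => ∑ l, (a l : ℝ) * y l) '' A)

theorem lin_nonneg {y : Fin d → ℝ} (hy : ∀ l, 0 ≤ y l) (a : Fin d → ℕ) :
    0 ≤ ∑ l, (a l : ℝ) * y l :=
  sum_nonneg fun l _ => mul_nonneg (Nat.cast_nonneg _) (hy l)

theorem bdd (A : Set (Fin d → ℕ)) {y : Fin d → ℝ} (hy : ∀ l, 0 ≤ y l) :
    BddBelow ((fun a : Fin d → ℕ => ∑ l, (a l : ℝ) * y l) '' A) := by
  refine ⟨0, ?_⟩
  rintro _ ⟨a, _, rfl⟩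
  exact lin_nonneg hy a

theorem ordA_le {A : Set (Fin d → ℕ)} {y : Fin d → ℝ} (hy : ∀ l, 0 ≤ y l) {a b : Fin d → ℕ}
    (ha : a ∈ A) (hab : a ≤ b) : ordA A y ≤ ∑ l, (b l : ℝ) * y l := by
  refine (csInf_le (bdd A hy) ⟨a, ha, rfl⟩).trans ?_
  exact sum_le_sum fun l _ => mul_le_mul_of_nonneg_right (by exact_mod_cast hab l) (hy l)

theorem le_ordA {A : Set (Fin d → ℕ)} (hA : A.Nonempty) {y : Fin d → ℝ} {c : ℝ}
    (h : ∀ a ∈ A, c ≤ ∑ l, (a l : ℝ) * y l) : c ≤ ordA A y := by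
  apply le_csInf (hA.image _)
  rintro _ ⟨a, ha, rfl⟩
  exact h a ha

theorem ordA_nonneg {A : Set (Fin d → ℕ)} (hA : A.Nonempty) {y : Fin d → ℝ} (hy : ∀ l, 0 ≤ y l) :
    0 ≤ ordA A y :=
  le_ordA hA fun a _ => lin_nonneg hy a

theorem exists_lt_of_ordA_lt {A : Set (Fin d → ℕ)} (hA : A.Nonempty) {y : Fin d → ℝ} {c : ℝ}
    (h : ordA A y < c) : ∃ a ∈ A, ∑ l, (a l : ℝ) * y l < c := by
  obtain ⟨_, ⟨a, ha, rfl⟩, h2⟩ := exists_lt_of_csInf_lt (hA.image _) h
  exact ⟨a, ha, h2⟩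

/-- Most of the ideals of a sequence contain the ideal of all monomials which belong to most
members of the sequence. -/
theorem limit_ideal (U : Ultrafilter ℕ) (A : ℕ → Set (Fin d → ℕ)) :
    ∀ᶠ k in (U : Filter ℕ), ∀ a : Fin d → ℕ, (∀ᶠ i in (U : Filter ℕ), ∃ b ∈ A i, b ≤ a) →
      ∃ b ∈ A k, b ≤ a := by
  by_contra hcon
  rw [← Ultrafilter.eventually_not] at hcon
  have h1 : ∀ᶠ k in (U : Filter ℕ), ∃ a : Fin d → ℕ,
      (∀ᶠ i in (U : Filter ℕ), ∃ b ∈ A i, b ≤ a) ∧ ¬ ∃ b ∈ A k, b ≤ a := by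
    filter_upwards [hcon] with k hk
    by_contra h
    apply hk
    intro a ha
    by_contra h2
    exact h ⟨a, ha, h2⟩
  obtain ⟨a, ha⟩ := h1.choice
  obtain ⟨f, hf, hr⟩ := exists_seq U
    (fun k => (∀ᶠ i in (U : Filter ℕ), ∃ b ∈ A i, b ≤ a k) ∧ ¬ ∃ b ∈ A k, b ≤ a k)
    (fun k i => ∃ b ∈ A i, b ≤ a k) ha (fun k hk => hk.1)
  obtain ⟨m, n, hmn, h⟩ := (Set.isPWO_of_wellQuasiOrderedLE
    (Set.univ : Set (Fin d → ℕ))).exists_lt (f := fun n => a (f n)) (fun n => Set.mem_univ _)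
  apply (hf n).2
  obtain ⟨b, hb, hb2⟩ := hr m n hmn
  exact ⟨b, hb, hb2.trans h⟩

/-- Comparison of the order functions on a box. -/
theorem ideal_ultra (U : Ultrafilter ℕ) (A : ℕ → Set (Fin d → ℕ)) (hA : ∀ k, (A k).Nonempty) :
    ∀ᶠ k in (U : Filter ℕ), ∀ η M : ℝ, 0 < η →
      ∀ᶠ i in (U : Filter ℕ), ∀ y : Fin d → ℝ, (∀ l, η ≤ y l) → (∀ l, y l ≤ M) →
        ordA (A k) y ≤ ordA (A i) y := by
  filter_upwards [limit_ideal U A] with k hk
  intro η M hη
  by_contra hcon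
  rw [← Ultrafilter.eventually_not] at hcon
  obtain ⟨a0, ha0⟩ := hA k
  set R : ℝ := ∑ l, (a0 l : ℝ) * M with hR
  -- a violating exponent vector
  have h1 : ∀ᶠ i in (U : Filter ℕ), ∃ a : Fin d → ℕ, a ∈ A i ∧ (∀ l, (a l : ℝ) ≤ R / η) ∧
      ∃ y : Fin d → ℝ, (∀ l, 0 ≤ y l) ∧ ∑ l, (a l : ℝ) * y l < ordA (A k) y := by
    filter_upwards [hcon] with i hi
    push Not at hi
    obtain ⟨y, hy1, hy2, hy3⟩ := hi
    have hy0 : ∀ l, 0 ≤ y l := fun l => hη.le.trans (hy1 l)
    obtain ⟨a, ha, hlt⟩ := exists_lt_of_ordA_lt (hA i) hy3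
    refine ⟨a, ha, ?_, y, hy0, hlt⟩
    intro l
    have h2 : ordA (A k) y ≤ R := by
      refine (ordA_le hy0 ha0 le_rfl).trans ?_
      exact sum_le_sum fun l _ => mul_le_mul_of_nonneg_left (hy2 l) (Nat.cast_nonneg _)
    have h3 : (a l : ℝ) * η ≤ ∑ l, (a l : ℝ) * y l := by
      refine (mul_le_mul_of_nonneg_left (hy1 l) (Nat.cast_nonneg _)).trans ?_
      exact single_le_sum (f := fun l => (a l : ℝ) * y l)
        (fun l _ => mul_nonneg (Nat.cast_nonneg _) (hy0 l)) (mem_univ l)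
    rw [le_div_iff₀ hη]
    linarith
  obtain ⟨a, ha⟩ := h1.choice
  -- it is constant
  have hfin : Set.Finite {b : Fin d → ℕ | ∀ l, (b l : ℝ) ≤ R / η} := by
    refine (Set.finite_Iic (fun _ : Fin d => ⌊R / η⌋₊)).subset ?_
    intro b hb l
    exact Nat.le_floor (hb l)
  have hex : ∃ b ∈ {b : Fin d → ℕ | ∀ l, (b l : ℝ) ≤ R / η},
      ∀ᶠ i in (U : Filter ℕ), a i = b := by
    have h4 := (Ultrafilter.eventually_exists_mem_iff (f := U)
      (P := fun b i => a i = b) hfin).1 (by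
        filter_upwards [ha] with i hi
        exact ⟨a i, hi.2.1, rfl⟩)
    exact h4
  obtain ⟨b, _, hb⟩ := hex
  obtain ⟨b', hb', hb''⟩ := hk b (by
    filter_upwards [ha, hb] with i h1 h2
    exact ⟨a i, h1.1, h2.le⟩)
  obtain ⟨i, ⟨_, _, y, hy0, hlt⟩, hi⟩ := (ha.and hb).exists
  rw [hi] at hlt
  exact absurd hlt (not_lt.2 (ordA_le hy0 hb' hb''))

/-! ### the core -/

/-- The log discrepancy function on a simplicial cone. -/
noncomputable def F {d : ℕ} {ι : Type} [Fintype ι] (b : Fin d → ℝ) (r : ι → ℝ)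
    (A : ι → Set (Fin d → ℕ)) (y : Fin d → ℝ) : ℝ :=
  ∑ l, (1 - b l) * y l - ∑ j, r j * ordA (A j) y

/-- There is no infinite ascending sequence of infima of log discrepancy functions. The exponents
are `r' k` in the upper bound and `r k` in the lower bound. -/
theorem core {d : ℕ} {ι : Type} [Fintype ι] {S : Set ℝ} (hS : S.IsWF)
    (N : ℕ → AddSubgroup (Fin d → ℝ)) (b : ℕ → Fin d → ℝ) (r r' : ℕ → ι → ℝ)
    (A : ℕ → ι → Set (Fin d → ℕ)) (w : ℕ → Fin d → ℝ) (μ c : ℕ → ℝ)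
    (hN : ∀ k i, Pi.single i 1 ∈ N k)
    (hb : ∀ k i, b k i ∈ S) (hb1 : ∀ k i, b k i ≤ 1)
    (hr0 : ∀ k j, 0 ≤ r' k j)
    (hrr : ∀ᶠ k in (Filter.hyperfilter ℕ : Filter ℕ),
      ∀ᶠ i in (Filter.hyperfilter ℕ : Filter ℕ), ∀ j, r' k j ≤ r i j)
    (hA : ∀ k j, (A k j).Nonempty)
    (hw : ∀ k, w k ∈ N k) (hw0 : ∀ k i, 0 < w k i)
    (hwc : ∀ k, F (b k) (r' k) (A k) (w k) < c k)
    (hμ : ∀ k, ∀ y ∈ N k, (∀ i, 0 < y i) → μ k ≤ F (b k) (r k) (A k) y)
    (hc : ∀ k i, k < i → c k ≤ μ i) : False := by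
  set U : Ultrafilter ℕ := Filter.hyperfilter ℕ with hU
  have hUtop : (U : Filter ℕ) ≤ atTop := Nat.hyperfilter_le_atTop
  have h1 := recur U N hN
  have h2 : ∀ᶠ k in (U : Filter ℕ), ∀ᶠ i in (U : Filter ℕ), ∀ l, b k l ≤ b i l := by
    have : ∀ l, ∀ᶠ k in (U : Filter ℕ), ∀ᶠ i in (U : Filter ℕ), b k l ≤ b i l :=
      fun l => wf_ultra U hS (fun k => b k l) (fun k => hb k l)
    filter_upwards [Filter.eventually_all.2 this] with k hk
    exact Filter.eventually_all.2 hk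
  have h4 := Filter.eventually_all.2 fun j => ideal_ultra U (fun k => A k j) (fun k => hA k j)
  obtain ⟨k, hk1, hk2, hk3, hk4⟩ := (h1.and (h2.and (hrr.and h4))).exists
  -- the size of the neighbourhood
  obtain ⟨m, hm, hml⟩ : ∃ m : ℝ, 0 < m ∧ ∀ l, m ≤ w k l := by
    rcases isEmpty_or_nonempty (Fin d) with h | h
    · exact ⟨1, one_pos, fun l => h.elim l⟩
    · obtain ⟨l0, hl0⟩ := Finite.exists_min (w k)
      exact ⟨w k l0, hw0 k l0, hl0⟩
  have hwn : ∀ l, 0 ≤ w k l := fun l => (hw0 k l).le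
  set P : ℝ := ∑ l, (1 - b k l) * w k l with hP
  set R : ℝ := ∑ j, r' k j * ordA (A k j) (w k) with hR
  have hP0 : 0 ≤ P := sum_nonneg fun l _ => mul_nonneg (by linarith [hb1 k l]) (hwn l)
  have hR0 : 0 ≤ R := sum_nonneg fun j _ => mul_nonneg (hr0 k j) (ordA_nonneg (hA k j) hwn)
  have hgap : P - R < c k := hwc k
  obtain ⟨δ, hδ0, hδ1, hδ⟩ : ∃ δ : ℝ, 0 < δ ∧ δ ≤ 1 / 2 ∧ P - R + δ * (P + R) < c k := by
    refine ⟨min (1 / 2) ((c k - (P - R)) / (2 * (P + R + 1))), ?_, min_le_left _ _, ?_⟩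
    · apply lt_min (by norm_num)
      apply div_pos (by linarith) (by positivity)
    · have e1 : min (1 / 2) ((c k - (P - R)) / (2 * (P + R + 1))) * (P + R) ≤
          (c k - (P - R)) / (2 * (P + R + 1)) * (P + R) :=
        mul_le_mul_of_nonneg_right (min_le_right _ _) (by linarith)
      have e2 : (c k - (P - R)) / (2 * (P + R + 1)) * (P + R) < c k - (P - R) := by
        rw [div_mul_eq_mul_div, div_lt_iff₀ (by positivity)]
        nlinarith
      linarith
  have hε : 0 < δ * m := mul_pos hδ0 hm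
  have hU1 : ∀ᶠ i in (U : Filter ℕ), k < i := hUtop (eventually_gt_atTop k)
  have hU2 : ∀ᶠ i in (U : Filter ℕ), ∀ j, ∀ y : Fin d → ℝ, (∀ l, m / 2 ≤ y l) →
      (∀ l, y l ≤ ∑ l', 2 * w k l') → ordA (A k j) y ≤ ordA (A i j) y :=
    Filter.eventually_all.2 fun j => hk4 j (m / 2) (∑ l', 2 * w k l') (by positivity)
  obtain ⟨i, ⟨y, hyN, hy⟩, hi2, hi3, hi4, hki⟩ :=
    ((hk1 (w k) (hw k) (δ * m) hε).and (hk2.and (hk3.and (hU2.and hU1)))).exists
  have hyl : ∀ l, |w k l - y l| ≤ δ * w k l := by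
    intro l
    have e1 : |w k l - y l| ≤ ‖w k - y‖ := norm_le_pi_norm (w k - y) l
    have e2 : δ * m ≤ δ * w k l := mul_le_mul_of_nonneg_left (hml l) hδ0.le
    linarith
  have hlow : ∀ l, (1 - δ) * w k l ≤ y l := by
    intro l
    have := (abs_le.1 (hyl l)).2
    linarith
  have hup : ∀ l, y l ≤ (1 + δ) * w k l := by
    intro l
    have := (abs_le.1 (hyl l)).1
    linarith
  have hyη : ∀ l, m / 2 ≤ y l := by
    intro l
    have e1 := hlow l
    have e2 := hml l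
    nlinarith [hw0 k l]
  have hyM : ∀ l, y l ≤ ∑ l', 2 * w k l' := by
    intro l
    have e1 : 2 * w k l ≤ ∑ l', 2 * w k l' :=
      single_le_sum (f := fun l' => 2 * w k l') (fun l' _ => by linarith [hwn l']) (mem_univ l)
    have e2 := hup l
    nlinarith [hw0 k l]
  have hy0 : ∀ l, 0 < y l := fun l => lt_of_lt_of_le (by positivity) (hyη l)
  have hyn : ∀ l, 0 ≤ y l := fun l => (hy0 l).le
  -- comparison of the two functions at `y`
  have c1 : F (b i) (r i) (A i) y ≤ F (b k) (r' k) (A k) y := by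
    unfold F
    apply sub_le_sub
    · refine sum_le_sum fun l _ => mul_le_mul_of_nonneg_right ?_ (hyn l)
      linarith [hi2 l]
    · refine sum_le_sum fun j _ => ?_
      exact mul_le_mul (hi3 j) (hi4 j y hyη hyM) (ordA_nonneg (hA k j) hyn)
        ((hr0 k j).trans (hi3 j))
  have c2 : F (b k) (r' k) (A k) y ≤ (1 + δ) * P - (1 - δ) * R := by
    unfold F
    apply sub_le_sub
    · rw [hP, mul_sum]
      refine sum_le_sum fun l _ => ?_
      have e1 := mul_le_mul_of_nonneg_left (hup l) (by linarith [hb1 k l] : 0 ≤ 1 - b k l)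
      linarith
    · rw [hR, mul_sum]
      refine sum_le_sum fun j _ => ?_
      have e1 : (1 - δ) * ordA (A k j) (w k) ≤ ordA (A k j) y := by
        apply le_ordA (hA k j)
        intro a ha
        have e2 := ordA_le hwn ha le_rfl
        have e3 : (1 - δ) * ∑ l, (a l : ℝ) * w k l ≤ ∑ l, (a l : ℝ) * y l := by
          rw [mul_sum]
          refine sum_le_sum fun l _ => ?_
          have e4 := mul_le_mul_of_nonneg_left (hlow l) (Nat.cast_nonneg (α := ℝ) (a l))
          linarith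
        have e5 := mul_le_mul_of_nonneg_left e2 (by linarith : (0 : ℝ) ≤ 1 - δ)
        linarith
      have e6 := mul_le_mul_of_nonneg_left e1 (hr0 k j)
      linarith
  have c3 := hμ i y hyN hy0
  have c4 := hc k i hki
  linarith

/-- The data of a simplicial cone. -/
def Dat (S : Set ℝ) (d J : ℕ) (t t' μ c : ℝ) : Prop :=
  ∃ (N : AddSubgroup (Fin d → ℝ)) (b : Fin d → ℝ) (r : Fin J → ℝ)
    (A : Fin J → Set (Fin d → ℕ)) (C : Set (Fin d → ℕ)) (w : Fin d → ℝ),
    (∀ i, Pi.single i 1 ∈ N) ∧ (∀ i, b i ∈ S ∧ b i ≤ 1) ∧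
    (∀ j, r j ∈ S ∧ 0 ≤ r j ∧ (A j).Nonempty) ∧ C.Nonempty ∧ w ∈ N ∧ (∀ i, 0 < w i) ∧
    F b r A w - t' * ordA C w < c ∧
    ∀ y ∈ N, (∀ i, 0 < y i) → μ ≤ F b r A y - t * ordA C y

theorem core_dat {S : Set ℝ} (hS : S.IsWF) {d J : ℕ} (t t' μ c : ℕ → ℝ)
    (ht0 : ∀ k, 0 ≤ t' k) (htt : ∀ k i, k < i → t' k ≤ t i) (hc : ∀ k i, k < i → c k ≤ μ i)
    (h : ∀ k, Dat S d J (t k) (t' k) (μ k) (c k)) : False := by
  choose N b r A C w hN hb hr hC hw hw0 hwc hμ using h
  refine core (ι := Option (Fin J)) hS N b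
    (fun k j => Option.elim j (t k) (r k)) (fun k j => Option.elim j (t' k) (r k))
    (fun k j => Option.elim j (C k) (A k)) w μ c hN (fun k i => (hb k i).1)
    (fun k i => (hb k i).2) ?_ ?_ ?_ hw hw0 ?_ ?_ hc
  · rintro k (_ | j)
    · exact ht0 k
    · exact (hr k j).2.1
  · have h1 : ∀ᶠ k in (Filter.hyperfilter ℕ : Filter ℕ),
        ∀ᶠ i in (Filter.hyperfilter ℕ : Filter ℕ), ∀ j, r k j ≤ r i j := by
      have : ∀ j, ∀ᶠ k in (Filter.hyperfilter ℕ : Filter ℕ),
          ∀ᶠ i in (Filter.hyperfilter ℕ : Filter ℕ), r k j ≤ r i j :=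
        fun j => wf_ultra _ hS (fun k => r k j) (fun k => (hr k j).1)
      filter_upwards [Filter.eventually_all.2 this] with k hk
      exact Filter.eventually_all.2 hk
    filter_upwards [h1] with k hk
    filter_upwards [hk, Nat.hyperfilter_le_atTop (eventually_gt_atTop k)] with i hi hki
    rintro (_ | j)
    · exact htt k i hki
    · exact hi j
  · rintro k (_ | j)
    · exact hC k
    · exact (hr k j).2.2
  · intro k
    have := hwc k
    unfold F at this ⊢
    rw [Fintype.sum_option]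
    simp only [Option.elim_none, Option.elim_some]
    linarith
  · intro k y hy hy0
    have := hμ k y hy hy0
    unfold F at this ⊢
    rw [Fintype.sum_option]
    simp only [Option.elim_none, Option.elim_some]
    linarith

/-- The same with bounded `d` and `J`. -/
theorem core_bdd {S : Set ℝ} (hS : S.IsWF) {n K : ℕ} (t t' μ c : ℕ → ℝ)
    (ht0 : ∀ k, 0 ≤ t' k) (htt : ∀ k i, k < i → t' k ≤ t i) (hc : ∀ k i, k < i → c k ≤ μ i)
    (h : ∀ k, ∃ d ≤ n, ∃ J ≤ K, Dat S d J (t k) (t' k) (μ k) (c k)) : False := by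
  have h1 : ∀ᶠ k in (Filter.hyperfilter ℕ : Filter ℕ), ∃ p : Fin (n + 1) × Fin (K + 1),
      Dat S p.1 p.2 (t k) (t' k) (μ k) (c k) := by
    refine Eventually.of_forall fun k => ?_
    obtain ⟨d, hd, J, hJ, hD⟩ := h k
    exact ⟨(⟨d, by omega⟩, ⟨J, by omega⟩), hD⟩
  obtain ⟨p, hp⟩ := Ultrafilter.eventually_exists_iff.1 h1
  have h2 : ∃ᶠ k in atTop, Dat S p.1 p.2 (t k) (t' k) (μ k) (c k) :=
    hp.frequently.filter_mono Nat.hyperfilter_le_atTop
  obtain ⟨φ, hφ, hD⟩ := extraction_of_frequently_atTop h2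
  exact core_dat hS (fun k => t (φ k)) (fun k => t' (φ k)) (fun k => μ (φ k)) (fun k => c (φ k))
    (fun k => ht0 _) (fun k i hki => htt _ _ (hφ hki)) (fun k i hki => hc _ _ (hφ hki)) hD

end MldAcc


end

section

/-!
# Module MAC: finitely many upper sets with a given counting function
-/

open scoped ContDiff Topology NNReal

namespace Pool.Agent.TD.BG

namespace MAC

/-- An upper set contains everything above its elements. -/
theorem mem_iff {n : ℕ} {E : Set (Fin n → ℕ)} (hE : ∀ u ∈ E, ∀ a, u + a ∈ E) (a : Fin n → ℕ) :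
    (∃ b ∈ E, b ≤ a) ↔ a ∈ E := by
  constructor
  · rintro ⟨b, hb, hba⟩
    have h := hE b hb (a - b)
    rwa [add_tsub_cancel_of_le hba] at h
  · intro h
    exact ⟨a, h, le_rfl⟩

end MAC

theorem MAC_thm : MAC_Stmt := by
  intro n H
  by_contra hcon
  have hinf : {E : Set (Fin n → ℕ) | (∀ u ∈ E, ∀ a, u + a ∈ E) ∧
    ∀ d, Set.ncard {u | u ∈ E ∧ deg u = d} = H d}.Infinite := hcon
  set S := {E : Set (Fin n → ℕ) | (∀ u ∈ E, ∀ a, u + a ∈ E) ∧
    ∀ d, Set.ncard {u | u ∈ E ∧ deg u = d} = H d} with hS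
  let f : ℕ ↪ S := hinf.natEmbedding
  let E : ℕ → Set (Fin n → ℕ) := fun k => (f k).1
  have hinj : Function.Injective E := fun k l h => f.injective (Subtype.ext h)
  have hup : ∀ k, ∀ u ∈ E k, ∀ a, u + a ∈ E k := fun k => (f k).2.1
  have hcard : ∀ k d, Set.ncard {u | u ∈ E k ∧ deg u = d} = H d := fun k => (f k).2.2
  let U : Ultrafilter ℕ := Filter.hyperfilter ℕ
  let L : Set (Fin n → ℕ) := {a | ∀ᶠ i in (U : Filter ℕ), a ∈ E i}
  have hL : ∀ᶠ k in (U : Filter ℕ), L ⊆ E k := by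
    filter_upwards [MldAcc.limit_ideal U E] with k hk a ha
    rw [← MAC.mem_iff (hup k) a]
    apply hk a
    have ha' : ∀ᶠ i in (U : Filter ℕ), a ∈ E i := ha
    filter_upwards [ha'] with i hi
    exact ⟨a, hi, le_rfl⟩
  -- the counting function of the limit
  have hdeg : ∀ d, Set.ncard {u | u ∈ L ∧ deg u = d} = H d := by
    intro d
    have h1 : ∀ᶠ i in (U : Filter ℕ), ∀ u ∈ {u : Fin n → ℕ | deg u = d}, (u ∈ E i ↔ u ∈ L) := by
      rw [Filter.eventually_all_finite (finite_deg n d)]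
      intro u _
      by_cases hu : u ∈ L
      · have hu' : ∀ᶠ i in (U : Filter ℕ), u ∈ E i := hu
        filter_upwards [hu'] with i hi
        exact ⟨fun _ => hu, fun _ => hi⟩
      · have hu' : ∀ᶠ i in (U : Filter ℕ), ¬ u ∈ E i := by
          rw [Ultrafilter.eventually_not]
          exact hu
        filter_upwards [hu'] with i hi
        exact ⟨fun h => absurd h hi, fun h => absurd h hu⟩
    obtain ⟨i, hi⟩ := h1.exists
    rw [← hcard i d]
    congr 1
    ext u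
    constructor
    · rintro ⟨h2, h3⟩
      exact ⟨(hi u h3).2 h2, h3⟩
    · rintro ⟨h2, h3⟩
      exact ⟨(hi u h3).1 h2, h3⟩
  have heq : ∀ᶠ k in (U : Filter ℕ), E k = L := by
    filter_upwards [hL] with k hk
    apply Set.Subset.antisymm _ hk
    intro u hu
    have hfin : {v | v ∈ E k ∧ deg v = deg u}.Finite :=
      (finite_deg n (deg u)).subset fun v hv => hv.2
    have hsub : {v | v ∈ L ∧ deg v = deg u} ⊆ {v | v ∈ E k ∧ deg v = deg u} :=
      fun v hv => ⟨hk hv.1, hv.2⟩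
    have h2 := Set.eq_of_subset_of_ncard_le hsub (by rw [hdeg, hcard]) hfin
    have h3 : u ∈ {v | v ∈ E k ∧ deg v = deg u} := ⟨hu, rfl⟩
    rw [← h2] at h3
    exact h3.1
  have hfin : {k | E k = L}.Finite := by
    apply Set.Subsingleton.finite
    intro k hk l hl
    exact hinj (hk.trans hl.symm)
  exact Filter.notMem_hyperfilter_of_finite hfin heq

end Pool.Agent.TD.BG


end

section

/-!
# STP: one step of the argument for finite tropical bases (PAPER.md, section 3, B2 (iv), (v))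
-/

open scoped ContDiff Topology NNReal

namespace Pool.Agent.TD.BG.STP

/-! ### Dickson -/

/-- for an upper set of `ℕ^n` the exponent of `x_i` may be lowered above a certain bound -/
theorem upper_bound {n : ℕ} (i : Fin n) (E : Set (Fin n → ℕ)) (hE : ∀ u ∈ E, ∀ a, u + a ∈ E) :
    ∃ k : ℕ, ∀ k', k ≤ k' → ∀ u, u + xp i (k' + 1) ∈ E → u + xp i k' ∈ E := by
  classical
  have hpwo : E.IsPWO := Set.isPWO_of_wellQuasiOrderedLE _
  have hfin : {m | Minimal (· ∈ E) m}.Finite := by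
    apply WellQuasiOrderedLE.finite_of_isAntichain
    exact setOfPred_minimal_antichain _
  obtain ⟨k, hk⟩ := (hfin.image fun m => m i).bddAbove
  refine ⟨k, fun k' hk' u hu => ?_⟩
  obtain ⟨m, hm, hmin⟩ := hpwo.exists_le_minimal hu
  have hmk : m i ≤ k := hk ⟨m, hmin, rfl⟩
  have hle : m ≤ u + xp i k' := by
    intro j
    by_cases hj : j = i
    · subst hj
      simp only [Pi.add_apply, xp, Pi.single_eq_same]
      omega
    · have := hm j
      simpa only [Pi.add_apply, xp, Pi.single_eq_of_ne hj] using this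
  have := hE m hmin.prop (u + xp i k' - m)
  rwa [add_tsub_cancel_of_le hle] at this

theorem xp_add {n : ℕ} (i : Fin n) (a b : ℕ) : xp i (a + b) = xp i a + xp i b := by
  unfold xp
  exact Pi.single_add (f := fun _ => ℕ) i a b

section sys

variable {K : Type} [NormedField K] [IsUltrametricDist K] {n : ℕ} {w : Fin n → ℝ}
  {W : ℕ → Set ((Fin n → ℕ) →₀ K)}

/-- the set of all leading monomials -/
def Eset (w : Fin n → ℝ) (W : ℕ → Set ((Fin n → ℕ) →₀ K)) (i : Fin n) : Set (Fin n → ℕ) :=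
  {u | u ∈ LMs w W i (deg u)}

omit [IsUltrametricDist K] in
theorem lms_deg (hW : GSys w W) {i : Fin n} {d : ℕ} {u : Fin n → ℕ} (hu : u ∈ LMs w W i d) :
    deg u = d := by
  obtain ⟨F, hF, hLM⟩ := hu
  exact (hW.gsub d).mon F hF u hLM.1

omit [IsUltrametricDist K] in
theorem lms_eq (hW : GSys w W) (i : Fin n) (d : ℕ) :
    {u | u ∈ Eset w W i ∧ deg u = d} = LMs w W i d := by
  ext u
  constructor
  · rintro ⟨h1, h2⟩
    rw [← h2]
    exact h1
  · intro h
    have h2 := lms_deg hW h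
    refine ⟨?_, h2⟩
    show u ∈ LMs w W i (deg u)
    rw [h2]
    exact h

omit [IsUltrametricDist K] in
theorem eset_upper (hW : GSys w W) (i : Fin n) : ∀ u ∈ Eset w W i, ∀ a, u + a ∈ Eset w W i := by
  rintro u ⟨F, hF, hLM⟩ a
  refine ⟨sh a F, ?_, isLM_sh.2 hLM⟩
  rw [deg_add]
  exact hW.shift _ F hF a

/-- division by a power of `x_i` -/
theorem lemA (hW : GSys w W) {i : Fin n} {d j : ℕ} {u : Fin n → ℕ}
    (h : u + xp i j ∈ LMs w W i (d + j)) :
    ∃ F, Hom d F ∧ sh (xp i j) F ∈ W (d + j) ∧ IsLM (wtN w) (ord i) F u := by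
  obtain ⟨G, hG, hLM⟩ := h
  have hinj : Function.Injective fun v : Fin n → ℕ => v + xp i j := add_left_injective _
  let F : (Fin n → ℕ) →₀ K := Finsupp.comapDomain (fun v => v + xp i j) G hinj.injOn
  have hFa : ∀ v, F v = G (v + xp i j) := fun v => Finsupp.comapDomain_apply _ _ _ _
  have hdiff : ∀ v, (G - sh (xp i j) F) v ≠ 0 → (G - sh (xp i j) F) v = G v ∧ v i < j := by
    intro v hv
    by_cases hle : xp i j ≤ v
    · exfalso
      apply hv
      obtain ⟨v', rfl⟩ : ∃ v', v = v' + xp i j := ⟨v - xp i j, (tsub_add_cancel_of_le hle).symm⟩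
      rw [Finsupp.sub_apply, sh_apply_add, hFa, sub_self]
    · constructor
      · rw [Finsupp.sub_apply, sh_apply_of_not_le F hle, sub_zero]
      · by_contra hcon
        push Not at hcon
        apply hle
        intro l
        by_cases hl : l = i
        · subst hl
          simpa [xp] using hcon
        · simp [xp, hl]
  have hpos : 0 < nrm (wtN w) G := nrm_pos (wtN_pos w) ((hW.gsub _).ne G hG)
  have hlt : nrm (wtN w) (G - sh (xp i j) F) < nrm (wtN w) G := by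
    rw [nrm_lt_iff hpos]
    intro v
    by_cases hv : (G - sh (xp i j) F) v = 0
    · rw [hv, nnnorm_zero, zero_mul]
      exact hpos
    · obtain ⟨h1, h2⟩ := hdiff v hv
      rw [h1, hLM.nrm_eq]
      have h3 : v i < (u + xp i j) i := by
        simp only [Pi.add_apply, xp, Pi.single_eq_same]
        omega
      have hne : v ≠ u + xp i j := by
        rintro rfl
        exact lt_irrefl _ h3
      exact (hLM.2 v hne).2 (Or.inl h3)
  have hFh : Hom d F := by
    intro v hv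
    rw [hFa] at hv
    have := (hW.gsub _).mon G hG _ hv
    have h2 : deg (v + xp i j) = d + j := this
    rw [deg_add, deg_xp] at h2
    omega
  refine ⟨F, hFh, (hW.gsub _).approx G hG _ ?_ hlt, ?_⟩
  · intro v hv
    have := hom_sh (a := xp i j) hFh v hv
    rw [deg_xp] at this
    exact this
  · exact isLM_sh.1 (hLM.of_approx hlt)

/-- the set of leading monomials after division -/
theorem lms_div (hW : GSys w W) (i : Fin n) (d k : ℕ) :
    LMs w (fun d => {F | Hom d F ∧ sh (xp i k) F ∈ W (d + k)}) i d =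
      {u | deg u = d ∧ u + xp i k ∈ Eset w W i} := by
  ext u
  constructor
  · rintro ⟨F, ⟨hF1, hF2⟩, hLM⟩
    have h1 : deg u = d := hF1 u hLM.1
    refine ⟨h1, ?_⟩
    show u + xp i k ∈ LMs w W i (deg (u + xp i k))
    rw [deg_add, deg_xp, h1]
    exact ⟨_, hF2, isLM_sh.2 hLM⟩
  · rintro ⟨h1, h2⟩
    have h3 : u + xp i k ∈ LMs w W i (d + k) := by
      have h4 : u + xp i k ∈ LMs w W i (deg (u + xp i k)) := h2
      rwa [deg_add, deg_xp, h1] at h4
    obtain ⟨F, hF1, hF2, hF3⟩ := lemA hW h3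
    exact ⟨F, ⟨hF1, hF2⟩, hF3⟩

omit [IsUltrametricDist K] in
theorem isLM_smul {r : (Fin n → ℕ) → (Fin n → ℕ) → Prop} {F : (Fin n → ℕ) →₀ K}
    {u : Fin n → ℕ} (c : K) (hc : c ≠ 0) (h : IsLM (wtN w) r F u) : IsLM (wtN w) r (c • F) u := by
  have hc' : 0 < ‖c‖₊ := by simpa using hc
  refine ⟨by simpa [hc] using h.1, fun u' hne => ?_⟩
  rw [Finsupp.smul_apply, Finsupp.smul_apply, smul_eq_mul, smul_eq_mul, nnnorm_mul, nnnorm_mul,
    mul_assoc, mul_assoc]
  exact ⟨(mul_le_mul_iff_right₀ hc').2 (h.2 u' hne).1,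
    fun hr => (mul_lt_mul_iff_right₀ hc').2 ((h.2 u' hne).2 hr)⟩

theorem stab (hW : GSys w W) (i : Fin n) (k : ℕ)
    (hk : ∀ u, u + xp i (k + 1) ∈ Eset w W i → u + xp i k ∈ Eset w W i) (d : ℕ)
    (F : (Fin n → ℕ) →₀ K) (hF : Hom d F) (hF1 : sh (xp i (k + 1)) F ∈ W (d + (k + 1))) :
    sh (xp i k) F ∈ W (d + k) := by
  classical
  have hwf : ({u | deg u = d} : Set (Fin n → ℕ)).WellFoundedOn (ord i) :=
    Set.Finite.wellFoundedOn (finite_deg n d)
  have main : ∀ u ∈ {u : Fin n → ℕ | deg u = d}, ∀ F : (Fin n → ℕ) →₀ K, Hom d F →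
      sh (xp i (k + 1)) F ∈ W (d + (k + 1)) → IsLM (wtN w) (ord i) F u →
      sh (xp i k) F ∈ W (d + k) := by
    intro u hu
    refine hwf.induction (P := fun u => ∀ F : (Fin n → ℕ) →₀ K, Hom d F →
      sh (xp i (k + 1)) F ∈ W (d + (k + 1)) → IsLM (wtN w) (ord i) F u →
      sh (xp i k) F ∈ W (d + k)) hu ?_
    clear hu u
    intro u hu ih F hF hF1 hLM
    have h1 : u + xp i (k + 1) ∈ Eset w W i := by
      show u + xp i (k + 1) ∈ LMs w W i (deg (u + xp i (k + 1)))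
      have hu' : deg u = d := hu
      rw [deg_add, deg_xp, hu']
      exact ⟨_, hF1, isLM_sh.2 hLM⟩
    have h2 : u + xp i k ∈ LMs w W i (d + k) := by
      have h4 : u + xp i k ∈ LMs w W i (deg (u + xp i k)) := hk u h1
      have hu' : deg u = d := hu
      rwa [deg_add, deg_xp, hu'] at h4
    obtain ⟨F', hF'h, hF'1, hF'LM⟩ := lemA hW h2
    set c : K := F u / F' u with hc
    have hc0 : c ≠ 0 := div_ne_zero hLM.1 hF'LM.1
    have hcF' : (c • F') u = F u := by
      rw [Finsupp.smul_apply, smul_eq_mul, hc, div_mul_cancel₀ _ hF'LM.1]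
    have hLM2 : IsLM (wtN w) (ord i) (c • F') u := isLM_smul c hc0 hF'LM
    have hn2 : nrm (wtN w) (c • F') = nrm (wtN w) F := by
      rw [hLM2.nrm_eq, hLM.nrm_eq, hcF']
    have hle : nrm (wtN w) (F - c • F') ≤ nrm (wtN w) F := by
      refine (nrm_sub_le _ _).trans ?_
      rw [hn2, max_self]
    have hcW : sh (xp i k) (c • F') ∈ W (d + k) := by
      rw [sh_smul]
      exact (hW.gsub _).smul c hc0 _ hF'1
    have hFk : ∀ v, sh (xp i k) F v ≠ 0 → v ∈ {u | deg u = d + k} := by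
      intro v hv
      have := hom_sh (a := xp i k) hF v hv
      rw [deg_xp] at this
      exact this
    rcases lt_or_eq_of_le hle with hlt | heq
    · refine (hW.gsub _).approx _ hcW _ hFk ?_
      rw [nrm_sub_comm]
      have h3 : nrm (wtN w) (sh (xp i k) (c • F')) = nrm (wtN w) (sh (xp i k) F) := by
        rw [nrm_sh, nrm_sh, hn2]
      rw [h3]
      exact nrm_sh_lt.2 hlt
    · have hpos : 0 < nrm (wtN w) F := by
        rw [hLM.nrm_eq]
        exact mul_pos (by simpa using hLM.1) (wtN_pos w u)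
      have hne0 : F - c • F' ≠ 0 := by
        intro h0
        rw [h0, nrm_zero] at heq
        exact hpos.ne heq
      obtain ⟨u'', hu''⟩ := exists_isLM (wtN_pos w) (ord i) hne0
      have hF''h : Hom d (F - c • F') := by
        intro v hv
        by_contra hcon
        have a1 : F v = 0 := by by_contra h; exact hcon (hF v h)
        have a2 : F' v = 0 := by by_contra h; exact hcon (hF'h v h)
        exact hv (by simp [a1, a2])
      have hr : ord i u'' u := by
        have hne : u'' ≠ u := by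
          rintro rfl
          apply hu''.1
          rw [Finsupp.sub_apply, hcF', sub_self]
        rcases trichotomous_of (ord i) u'' u with h3 | h3 | h3
        · exact h3
        · exact absurd h3 hne
        · exfalso
          have h4 := (hLM.2 u'' hne).2 h3
          have h5 := (hLM2.2 u'' hne).2 h3
          rw [hcF'] at h5
          have h6 : ‖(F - c • F') u''‖₊ ≤ max ‖F u''‖₊ ‖(c • F') u''‖₊ := by
            rw [Finsupp.sub_apply, sub_eq_add_neg, ← nnnorm_neg ((c • F') u'')]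
            exact IsUltrametricDist.nnnorm_add_le_max _ _
          have h7 : ‖(F - c • F') u''‖₊ * wtN w u'' < ‖F u‖₊ * wtN w u := by
            calc ‖(F - c • F') u''‖₊ * wtN w u''
                ≤ max (‖F u''‖₊ * wtN w u'') (‖(c • F') u''‖₊ * wtN w u'') := by
                  rw [← max_mul]; exact mul_le_mul_left h6 _
              _ < _ := max_lt h4 h5
          rw [← hu''.nrm_eq, heq, hLM.nrm_eq] at h7
          exact lt_irrefl _ h7
      have hcW1 : sh (xp i (k + 1)) (-(c • F')) ∈ W (d + (k + 1)) := by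
        have h3 : sh (xp i (k + 1)) (-(c • F')) = sh (xp i 1) (sh (xp i k) ((-c) • F')) := by
          rw [sh_sh, ← xp_add, neg_smul]
        rw [h3, sh_smul]
        have h4 := hW.shift (d + k) ((-c) • sh (xp i k) F')
          ((hW.gsub _).smul (-c) (neg_ne_zero.2 hc0) _ hF'1) (xp i 1)
        rwa [deg_xp, add_assoc] at h4
      have hW1 : sh (xp i (k + 1)) (F - c • F') ∈ W (d + (k + 1)) := by
        rw [sub_eq_add_neg, sh_add]
        refine (hW.gsub _).add _ hF1 _ hcW1 ?_ ?_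
        · rw [nrm_sh, nrm_sh, nrm_neg, hn2]
        · rw [← sh_add, ← sub_eq_add_neg, nrm_sh, nrm_sh, heq]
      have hW2 := ih u'' (hF''h u'' hu''.1) hr _ hF''h hW1 hu''
      have h8 : sh (xp i k) F = sh (xp i k) (F - c • F') + sh (xp i k) (c • F') := by
        rw [← sh_add, sub_add_cancel]
      rw [h8]
      refine (hW.gsub _).add _ hW2 _ hcW ?_ ?_
      · rw [nrm_sh, nrm_sh, hn2, heq]
      · rw [← h8, nrm_sh, nrm_sh, heq]
  have hF0 : F ≠ 0 := by
    intro h
    have := (hW.gsub _).ne _ hF1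
    exact this (sh_eq_zero.2 h)
  obtain ⟨u, hu⟩ := exists_isLM (wtN_pos w) (ord i) hF0
  exact main u (hF u hu.1) F hF hF1 hu

omit [IsUltrametricDist K] in
theorem gsys_div (hW : GSys w W) (i : Fin n) (k : ℕ) :
    GSys w fun d => {F | Hom d F ∧ sh (xp i k) F ∈ W (d + k)} where
  gsub d := {
    ne := by
      rintro F ⟨hF1, hF2⟩ h0
      exact (hW.gsub _).ne _ hF2 (sh_eq_zero.2 h0)
    mon := fun F hF => hF.1
    approx := by
      rintro F ⟨hF1, hF2⟩ G hG hlt
      refine ⟨hG, (hW.gsub _).approx _ hF2 _ ?_ (nrm_sh_lt.2 hlt)⟩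
      intro v hv
      have := hom_sh (a := xp i k) (d := d) (F := G) hG v hv
      rw [deg_xp] at this
      exact this
    add := by
      rintro F ⟨hF1, hF2⟩ G ⟨hG1, hG2⟩ h1 h2
      refine ⟨?_, ?_⟩
      · intro v hv
        by_contra hcon
        have a1 : F v = 0 := by by_contra h; exact hcon (hF1 v h)
        have a2 : G v = 0 := by by_contra h; exact hcon (hG1 v h)
        exact hv (by simp [a1, a2])
      · rw [sh_add]
        refine (hW.gsub _).add _ hF2 _ hG2 ?_ ?_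
        · rw [nrm_sh, nrm_sh, h1]
        · rw [← sh_add, nrm_sh, nrm_sh, h2]
    smul := by
      rintro c hc F ⟨hF1, hF2⟩
      refine ⟨?_, ?_⟩
      · intro v hv
        exact hF1 v fun h => hv (by simp [h])
      · rw [sh_smul]
        exact (hW.gsub _).smul c hc _ hF2 }
  shift := by
    rintro d F ⟨hF1, hF2⟩ a
    refine ⟨hom_sh hF1, ?_⟩
    have h1 := hW.shift _ _ hF2 a
    rw [sh_sh] at h1 ⊢
    rw [add_comm (xp i k) a, add_right_comm] at h1
    exact h1

theorem cnt_eq (h2 : CNT_Stmt) (hW : GSys w W) (i i0 : Fin n) (d : ℕ) :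
    Set.ncard (LMs w W i0 d) = Set.ncard (LMs w W i d) := by
  have h := h2 K (Fin n → ℕ) (wtN w) (wtN_pos w) (finite_deg n d).toFinset (W d)
    (by rw [Set.Finite.coe_toFinset]; exact hW.gsub d) (ord i0) (ord i)
  exact h

end sys

end Pool.Agent.TD.BG.STP

namespace Pool.Agent.TD.BG

open STP in
/-- STP: one step of the argument. -/
theorem STP_thm (h1 : MAC_Stmt) (h2 : CNT_Stmt) : STP_Stmt := by
  classical
  intro K _ _ n Λ w W hW i0 hfin i
  -- finitely many sets of leading monomials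
  have hE : (Set.range fun l => Eset (w l) (W l) i).Finite := by
    refine (hfin.biUnion fun H _ => h1 n H).subset ?_
    rintro _ ⟨l, rfl⟩
    refine Set.mem_biUnion ⟨l, rfl⟩ ⟨eset_upper (hW l) i, fun d => ?_⟩
    rw [lms_eq (hW l) i d]
    exact (cnt_eq h2 (hW l) i i0 d).symm
  -- a common bound
  have hb : ∀ E : Set (Fin n → ℕ), ∃ k : ℕ, (∀ u ∈ E, ∀ a, u + a ∈ E) → ∀ k', k ≤ k' →
      ∀ u, u + xp i (k' + 1) ∈ E → u + xp i k' ∈ E := by
    intro E
    by_cases hE : ∀ u ∈ E, ∀ a, u + a ∈ E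
    · obtain ⟨k, hk⟩ := upper_bound i E hE
      exact ⟨k, fun _ => hk⟩
    · exact ⟨0, fun h => absurd h hE⟩
  choose kE hkE using hb
  obtain ⟨k, hk⟩ := (hE.image kE).bddAbove
  have hk' : ∀ l u, u + xp i (k + 1) ∈ Eset (w l) (W l) i → u + xp i k ∈ Eset (w l) (W l) i :=
    fun l => hkE _ (eset_upper (hW l) i) k (hk ⟨_, ⟨l, rfl⟩, rfl⟩)
  refine ⟨k, fun l d F hF hF1 => stab (hW l) i k (hk' l) d F hF hF1,
    fun l => gsys_div (hW l) i k, ?_⟩
  refine (hE.image fun E => fun d => Set.ncard {u : Fin n → ℕ | deg u = d ∧ u + xp i k ∈ E}).subset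
    ?_
  rintro _ ⟨l, rfl⟩
  refine ⟨_, ⟨l, rfl⟩, ?_⟩
  funext d
  have h3 := cnt_eq h2 (gsys_div (hW l) i k) i i0 d
  rw [lms_div (hW l) i d k] at h3
  exact h3.symm

end Pool.Agent.TD.BG


end

section

/-!
# TPL: tropicalizations are finite unions of polyhedra
-/

open scoped ContDiff Topology NNReal

namespace Pool.Agent.TD.BG

namespace TPL

theorem polyU_of_polyh {ι : Type} [Fintype ι] {S : Set (ι → ℝ)} (h : IsPolyh S) : IsPolyU S :=
  ⟨1, fun _ => S, fun _ => h, (Set.iUnion_const S).symm⟩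

theorem polyh_inter (h2 : PLB_Stmt) {ι α : Type} [Fintype ι] (s : Finset α)
    (f : α → Set (ι → ℝ)) (hf : ∀ a ∈ s, IsPolyh (f a)) : IsPolyh {w | ∀ a ∈ s, w ∈ f a} := by
  classical
  induction s using Finset.induction_on with
  | empty =>
    have h : {w : ι → ℝ | ∀ a ∈ (∅ : Finset α), w ∈ f a} = Set.univ := by
      ext w
      simp
    rw [h]
    exact (h2 ι).2.2.2.2.2.2.1
  | insert a s ha ih =>
    have h : {w : ι → ℝ | ∀ b ∈ insert a s, w ∈ f b} = f a ∩ {w | ∀ b ∈ s, w ∈ f b} := by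
      ext w
      simp
    rw [h]
    exact (h2 ι).1 _ _ (hf a (Finset.mem_insert_self a s))
      (ih fun b hb => hf b (Finset.mem_insert_of_mem hb))

theorem polyU_inter (h2 : PLB_Stmt) {ι α : Type} [Fintype ι] (s : Finset α)
    (f : α → Set (ι → ℝ)) (hf : ∀ a ∈ s, IsPolyU (f a)) : IsPolyU {w | ∀ a ∈ s, w ∈ f a} := by
  classical
  induction s using Finset.induction_on with
  | empty =>
    have h : {w : ι → ℝ | ∀ a ∈ (∅ : Finset α), w ∈ f a} = Set.univ := by
      ext w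
      simp
    rw [h]
    exact polyU_of_polyh (h2 ι).2.2.2.2.2.2.1
  | insert a s ha ih =>
    have h : {w : ι → ℝ | ∀ b ∈ insert a s, w ∈ f b} = f a ∩ {w | ∀ b ∈ s, w ∈ f b} := by
      ext w
      simp
    rw [h]
    exact ((h2 ι).2.2.1 _ _ (hf a (Finset.mem_insert_self a s))
      (ih fun b hb => hf b (Finset.mem_insert_of_mem hb))).1

theorem polyU_union (h2 : PLB_Stmt) {ι α : Type} [Fintype ι] (s : Finset α)
    (f : α → Set (ι → ℝ)) (hf : ∀ a ∈ s, IsPolyU (f a)) : IsPolyU {w | ∃ a ∈ s, w ∈ f a} := by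
  classical
  induction s using Finset.induction_on with
  | empty =>
    have h : {w : ι → ℝ | ∃ a ∈ (∅ : Finset α), w ∈ f a} = ∅ := by
      ext w
      simp
    rw [h]
    exact (h2 ι).2.2.2.2.2.2.2
  | insert a s ha ih =>
    have h : {w : ι → ℝ | ∃ b ∈ insert a s, w ∈ f b} = f a ∪ {w | ∃ b ∈ s, w ∈ f b} := by
      ext w
      simp
    rw [h]
    exact ((h2 ι).2.2.1 _ _ (hf a (Finset.mem_insert_self a s))
      (ih fun b hb => hf b (Finset.mem_insert_of_mem hb))).2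

section val

variable {K ι : Type} [NormedField K] [Fintype ι]

theorem val_eq (F : (ι → ℤ) →₀ K) (w : ι → ℝ) {u : ι → ℤ} (h : F u ≠ 0) :
    ((‖F u‖₊ * wtZ w u : ℝ≥0) : ℝ) = Real.exp (Real.log ‖F u‖ + ∑ i, (u i : ℝ) * w i) := by
  rw [Real.exp_add, Real.exp_log (norm_pos_iff.2 h)]
  rfl

theorem val_le_iff (F : (ι → ℤ) →₀ K) (w : ι → ℝ) {u v : ι → ℤ} (hu : F u ≠ 0) (hv : F v ≠ 0) :
    ‖F v‖₊ * wtZ w v ≤ ‖F u‖₊ * wtZ w u ↔
      ∑ i, ((v i : ℝ) - u i) * w i ≤ Real.log ‖F u‖ - Real.log ‖F v‖ := by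
  rw [← NNReal.coe_le_coe, val_eq F w hu, val_eq F w hv, Real.exp_le_exp]
  have h : ∑ i, ((v i : ℝ) - u i) * w i = ∑ i, (v i : ℝ) * w i - ∑ i, (u i : ℝ) * w i := by
    rw [← Finset.sum_sub_distrib]
    exact Finset.sum_congr rfl fun i _ => by ring
  rw [h]
  constructor <;> intro h1 <;> linarith

theorem wtZ_pos (w : ι → ℝ) (u : ι → ℤ) : 0 < wtZ w u := Real.exp_pos _

/-- The tropical hypersurface of one Laurent polynomial. -/
theorem hyper (h2 : PLB_Stmt) (F : (ι → ℤ) →₀ K) :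
    IsPolyU {w : ι → ℝ | ∀ u, ¬ Single (wtZ w) F u} := by
  classical
  by_cases hF : F = 0
  · have h : {w : ι → ℝ | ∀ u, ¬ Single (wtZ w) F u} = Set.univ := by
      ext w
      simp [Single, hF]
    rw [h]
    exact polyU_of_polyh (h2 ι).2.2.2.2.2.2.1
  let s : Finset ((ι → ℤ) × (ι → ℤ)) := (F.support ×ˢ F.support).filter fun p => p.1 ≠ p.2
  let f : (ι → ℤ) × (ι → ℤ) → Set (ι → ℝ) := fun p =>
    {w | ‖F p.1‖₊ * wtZ w p.1 ≤ ‖F p.2‖₊ * wtZ w p.2} ∩
      {w | ∀ v ∈ F.support, w ∈ {w : ι → ℝ | ‖F v‖₊ * wtZ w v ≤ ‖F p.1‖₊ * wtZ w p.1}}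
  have heq : {w : ι → ℝ | ∀ u, ¬ Single (wtZ w) F u} = {w | ∃ p ∈ s, w ∈ f p} := by
    ext w
    constructor
    · intro h
      obtain ⟨u, hu, hmax⟩ := exists_nrm_eq (wt := wtZ w) hF
      have h3 := h u
      have h4 : ∃ u', u' ≠ u ∧ ‖F u‖₊ * wtZ w u ≤ ‖F u'‖₊ * wtZ w u' := by
        by_contra hcon
        push Not at hcon
        exact h3 ⟨hu, hcon⟩
      obtain ⟨u', hne, hle⟩ := h4
      have hu' : F u' ≠ 0 := by
        intro h0
        rw [h0, nnnorm_zero, zero_mul] at hle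
        have hpos : 0 < ‖F u‖₊ * wtZ w u := mul_pos (by simpa using hu) (wtZ_pos w u)
        exact absurd hle (not_le.2 hpos)
      refine ⟨(u, u'), ?_, hle, fun v _ => ?_⟩
      · simp only [s, Finset.mem_filter, Finset.mem_product, Finsupp.mem_support_iff]
        exact ⟨⟨hu, hu'⟩, Ne.symm hne⟩
      · show ‖F v‖₊ * wtZ w v ≤ ‖F u‖₊ * wtZ w u
        rw [hmax]
        exact le_nrm F v
    · rintro ⟨⟨u, u'⟩, hp, hle, hall⟩ u0 hS
      simp only [s, Finset.mem_filter, Finset.mem_product, Finsupp.mem_support_iff] at hp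
      obtain ⟨⟨hu, hu'⟩, hne⟩ := hp
      have hle' : ‖F u‖₊ * wtZ w u ≤ ‖F u'‖₊ * wtZ w u' := hle
      have h0 : ‖F u0‖₊ * wtZ w u0 ≤ ‖F u‖₊ * wtZ w u :=
        hall u0 (Finsupp.mem_support_iff.2 hS.1)
      by_cases h5 : u = u0
      · have h6 : u' ≠ u0 := fun h => hne (h5.trans h.symm)
        exact absurd (hS.2 u' h6) (not_lt.2 (h0.trans hle'))
      · exact absurd (hS.2 u h5) (not_lt.2 h0)
  rw [heq]
  apply polyU_union h2
  rintro ⟨u, u'⟩ hp
  simp only [s, Finset.mem_filter, Finset.mem_product, Finsupp.mem_support_iff] at hp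
  obtain ⟨⟨hu, hu'⟩, hne⟩ := hp
  apply polyU_of_polyh
  refine (h2 ι).1 _ _ ?_ (polyh_inter h2 _ _ ?_)
  · have h : {w : ι → ℝ | ‖F u‖₊ * wtZ w u ≤ ‖F u'‖₊ * wtZ w u'} =
        {w : ι → ℝ | ∑ i, ((u i : ℝ) - u' i) * w i ≤ Real.log ‖F u'‖ - Real.log ‖F u‖} := by
      ext w
      exact val_le_iff F w hu' hu
    show IsPolyh {w : ι → ℝ | ‖F u‖₊ * wtZ w u ≤ ‖F u'‖₊ * wtZ w u'}
    rw [h]
    exact (h2 ι).2.2.2.1 (fun i => (u i : ℝ) - u' i) _
  · intro v hv
    rw [Finsupp.mem_support_iff] at hv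
    have h : {w : ι → ℝ | ‖F v‖₊ * wtZ w v ≤ ‖F u‖₊ * wtZ w u} =
        {w : ι → ℝ | ∑ i, ((v i : ℝ) - u i) * w i ≤ Real.log ‖F u‖ - Real.log ‖F v‖} := by
      ext w
      exact val_le_iff F w hu hv
    show IsPolyh {w : ι → ℝ | ‖F v‖₊ * wtZ w v ≤ ‖F u‖₊ * wtZ w u}
    rw [h]
    exact (h2 ι).2.2.2.1 (fun i => (v i : ℝ) - u i) _

end val

end TPL

open TPL in
/-- TPL: tropicalizations are finite unions of polyhedra. -/
theorem TPL_thm (h1 : FTB_Stmt) (h2 : PLB_Stmt) : TPL_Stmt := by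
  intro K ι _ _ _ I
  obtain ⟨C, hC, hT⟩ := h1 K ι I
  have heq : Trop I = {w : ι → ℝ | ∀ F ∈ C, w ∈ {w : ι → ℝ | ∀ u, ¬ Single (wtZ w) (co F) u}} := by
    ext w
    constructor
    · intro h F hF
      exact h F (hC F hF)
    · intro h
      by_contra hcon
      obtain ⟨F, hF, u, hu⟩ := hT w hcon
      exact h F hF u hu
  rw [heq]
  exact polyU_inter h2 C _ fun F _ => hyper h2 (co F)

end Pool.Agent.TD.BG


end

section

/-!
# FM1: Fourier-Motzkin elimination of one variable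
-/

namespace Pool.Agent.TD.BG

namespace FM1

/-- A finite system of inequalities indexed by an arbitrary finite type. -/
theorem isPolyh_of_fintype {ι : Type} [Fintype ι] {J : Type} [Fintype J] (l : J → ι → ℝ)
    (c : J → ℝ) : IsPolyh {x : ι → ℝ | ∀ j, ∑ i, l j i * x i ≤ c j} := by
  classical
  refine ⟨Fintype.card J, fun k => l ((Fintype.equivFin J).symm k),
    fun k => c ((Fintype.equivFin J).symm k), ?_⟩
  ext x
  simp only [Set.mem_ofPred_eq]
  constructor
  · intro h k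
    exact h _
  · intro h j
    have := h (Fintype.equivFin J j)
    simpa using this

/-- Finitely many lower bounds below finitely many upper bounds. -/
theorem exists_mid {P N : Type} [Finite P] [Finite N] (lo : N → ℝ) (up : P → ℝ)
    (h : ∀ a b, lo b ≤ up a) : ∃ t : ℝ, (∀ b, lo b ≤ t) ∧ ∀ a, t ≤ up a := by
  rcases isEmpty_or_nonempty N with hN | hN
  · rcases isEmpty_or_nonempty P with hP | hP
    · exact ⟨0, fun b => (hN.false b).elim, fun a => (hP.false a).elim⟩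
    · obtain ⟨a0, ha0⟩ := Finite.exists_min up
      exact ⟨up a0, fun b => (hN.false b).elim, ha0⟩
  · obtain ⟨b0, hb0⟩ := Finite.exists_max lo
    exact ⟨lo b0, hb0, fun a => h a b0⟩

end FM1

theorem FM1_thm : FM1_Stmt := by
  intro n S hS
  obtain ⟨m, l, c, rfl⟩ := hS
  classical
  let J : Type := {j : Fin m // l j 0 = 0} ⊕ ({j : Fin m // 0 < l j 0} × {j : Fin m // l j 0 < 0})
  let L : J → Fin n → ℝ := fun j => Sum.elim (fun a i => l a.1 i.succ)
    (fun p i => (-(l p.2.1 0)) * l p.1.1 i.succ + l p.1.1 0 * l p.2.1 i.succ) j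
  let C : J → ℝ := fun j => Sum.elim (fun a => c a.1)
    (fun p => (-(l p.2.1 0)) * c p.1.1 + l p.1.1 0 * c p.2.1) j
  have key : ((fun x : Fin (n + 1) → ℝ => fun i : Fin n => x i.succ) ''
      {x | ∀ j, ∑ i, l j i * x i ≤ c j}) = {y : Fin n → ℝ | ∀ j : J, ∑ i, L j i * y i ≤ C j} := by
    ext y
    simp only [Set.mem_image, Set.mem_ofPred_eq]
    constructor
    · rintro ⟨x, hx, rfl⟩ j
      have hx' : ∀ j, l j 0 * x 0 + ∑ i : Fin n, l j i.succ * x i.succ ≤ c j := by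
        intro j
        have := hx j
        rwa [Fin.sum_univ_succ] at this
      rcases j with a | ⟨a, b⟩
      · have := hx' a.1
        rw [a.2] at this
        simp only [L, C, Sum.elim_inl]
        linarith
      · have h1 := hx' a.1
        have h2 := hx' b.1
        simp only [L, C, Sum.elim_inr]
        have e : ∑ i : Fin n, (-(l b.1 0) * l a.1 i.succ + l a.1 0 * l b.1 i.succ) * x i.succ =
            (-(l b.1 0)) * ∑ i : Fin n, l a.1 i.succ * x i.succ +
              l a.1 0 * ∑ i : Fin n, l b.1 i.succ * x i.succ := by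
          rw [Finset.mul_sum, Finset.mul_sum, ← Finset.sum_add_distrib]
          exact Finset.sum_congr rfl fun i _ => by ring
        rw [e]
        have p1 : 0 ≤ -(l b.1 0) := by have := b.2; linarith
        have p2 : 0 ≤ l a.1 0 := a.2.le
        have m1 := mul_le_mul_of_nonneg_left h1 p1
        have m2 := mul_le_mul_of_nonneg_left h2 p2
        nlinarith [m1, m2]
    · intro h
      obtain ⟨t, ht1, ht2⟩ := FM1.exists_mid
        (fun b : {j : Fin m // l j 0 < 0} => (c b.1 - ∑ i : Fin n, l b.1 i.succ * y i) / l b.1 0)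
        (fun a : {j : Fin m // 0 < l j 0} => (c a.1 - ∑ i : Fin n, l a.1 i.succ * y i) / l a.1 0)
        (by
          intro a b
          have hab := h (Sum.inr (a, b))
          simp only [L, C, Sum.elim_inr] at hab
          have e : ∑ i : Fin n, (-(l b.1 0) * l a.1 i.succ + l a.1 0 * l b.1 i.succ) * y i =
              (-(l b.1 0)) * ∑ i : Fin n, l a.1 i.succ * y i +
                l a.1 0 * ∑ i : Fin n, l b.1 i.succ * y i := by
            rw [Finset.mul_sum, Finset.mul_sum, ← Finset.sum_add_distrib]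
            exact Finset.sum_congr rfl fun i _ => by ring
          rw [e] at hab
          have hb : l b.1 0 < 0 := b.2
          have ha : 0 < l a.1 0 := a.2
          show (c b.1 - ∑ i : Fin n, l b.1 i.succ * y i) / l b.1 0 ≤
            (c a.1 - ∑ i : Fin n, l a.1 i.succ * y i) / l a.1 0
          rw [div_le_iff_of_neg hb, div_mul_eq_mul_div, div_le_iff₀ ha]
          nlinarith [hab])
      refine ⟨Fin.cons t y, ?_, ?_⟩
      · intro j
        rw [Fin.sum_univ_succ]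
        simp only [Fin.cons_zero, Fin.cons_succ]
        rcases lt_trichotomy (l j 0) 0 with hj | hj | hj
        · have := ht1 ⟨j, hj⟩
          simp only at this
          rw [div_le_iff_of_neg hj] at this
          linarith
        · have := h (Sum.inl ⟨j, hj⟩)
          simp only [L, C, Sum.elim_inl] at this
          rw [hj]
          linarith
        · have := ht2 ⟨j, hj⟩
          simp only at this
          rw [le_div_iff₀ hj] at this
          linarith
      · funext i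
        simp
  rw [key]
  exact FM1.isPolyh_of_fintype L C

end Pool.Agent.TD.BG


end

section

/-!
# Block BG: the local structure (module TD_BG_SSP)
-/

open scoped ContDiff Topology NNReal

namespace Pool.Agent.TD.BG

namespace SSP

/-! ### Polyhedra -/

theorem polyU_iUnion {ι κ : Type} [Fintype ι] [Finite κ] {S : κ → Set (ι → ℝ)}
    (h : ∀ k, IsPolyh (S k)) : IsPolyU (⋃ k, S k) := by
  obtain ⟨n, ⟨e⟩⟩ := Finite.exists_equiv_fin κ
  refine ⟨n, fun i => S (e.symm i), fun i => h _, ?_⟩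
  ext x
  simp only [Set.mem_iUnion]
  constructor
  · rintro ⟨k, hk⟩
    exact ⟨e k, by rwa [e.symm_apply_apply]⟩
  · rintro ⟨i, hi⟩
    exact ⟨_, hi⟩

theorem polyh_biInter (h6 : PLB_Stmt) {ι κ : Type} [Fintype ι] (s : Finset κ)
    (S : κ → Set (ι → ℝ)) (h : ∀ k, IsPolyh (S k)) : IsPolyh {x | ∀ k ∈ s, x ∈ S k} := by
  classical
  obtain ⟨a1, -, -, -, -, -, a7, -⟩ := h6 ι
  induction s using Finset.induction_on with
  | empty =>
    have e : {x : ι → ℝ | ∀ k ∈ (∅ : Finset κ), x ∈ S k} = Set.univ := by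
      ext x
      simp
    rw [e]
    exact a7
  | insert k s hk ih =>
    have e : {x : ι → ℝ | ∀ k' ∈ insert k s, x ∈ S k'} = S k ∩ {x | ∀ k ∈ s, x ∈ S k} := by
      ext x
      simp
    rw [e]
    exact a1 _ _ (h k) ih

/-- The box in the coordinates `J`: `|x_a - w_a| ≤ ε` for the coordinates with `p`, `x_a ≤ c` for
the other ones. -/
def Bx {A : Type} (p : A → Prop) (J : Finset A) (w : A → ℝ) (ε c : ℝ) : Set (J → ℝ) :=
  {x | ∀ a : J, (p a → |x a - w a| ≤ ε) ∧ (¬ p a → x a ≤ c)}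

theorem polyh_bx (h6 : PLB_Stmt) {A : Type} (p : A → Prop) (J : Finset A) (w : A → ℝ)
    (ε c : ℝ) : IsPolyh (Bx p J w ε c) := by
  classical
  obtain ⟨a1, -, -, a4, a5, -, a7, -⟩ := h6 J
  have hsum : ∀ (a : J) (x : J → ℝ), ∑ i, (Pi.single a 1 : J → ℝ) i * x i = x a := by
    intro a x
    rw [Finset.sum_eq_single a]
    · simp
    · intro b _ hb
      simp [Pi.single_apply, hb]
    · intro h
      exact absurd (Finset.mem_univ a) h
  have hle : ∀ (a : J) (r : ℝ), IsPolyh {x : J → ℝ | x a ≤ r} := by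
    intro a r
    have := a4 (Pi.single a 1) r
    simpa only [hsum] using this
  have hge : ∀ (a : J) (r : ℝ), IsPolyh {x : J → ℝ | r ≤ x a} := by
    intro a r
    have := a5 (Pi.single a 1) r
    simpa only [hsum] using this
  have key : ∀ a : J, IsPolyh {x : J → ℝ | (p a → |x a - w a| ≤ ε) ∧ (¬ p a → x a ≤ c)} := by
    intro a
    by_cases hp : p a
    · have e : {x : J → ℝ | (p a → |x a - w a| ≤ ε) ∧ (¬ p a → x a ≤ c)} =
          {x : J → ℝ | x a ≤ w a + ε} ∩ {x : J → ℝ | w a - ε ≤ x a} := by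
        ext x
        simp only [Set.mem_setOf_eq, Set.mem_inter_iff, hp, not_true_eq_false, false_imp_iff,
          and_true, true_imp_iff, abs_le]
        constructor
        · rintro ⟨h1, h2⟩
          exact ⟨by linarith, by linarith⟩
        · rintro ⟨h1, h2⟩
          exact ⟨by linarith, by linarith⟩
      rw [e]
      exact a1 _ _ (hle a _) (hge a _)
    · have e : {x : J → ℝ | (p a → |x a - w a| ≤ ε) ∧ (¬ p a → x a ≤ c)} =
          {x : J → ℝ | x a ≤ c} := by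
        ext x
        simp [hp]
      rw [e]
      exact hle a _
  have e : Bx p J w ε c = {x | ∀ a ∈ (Finset.univ : Finset J),
      x ∈ {x : J → ℝ | (p a → |x a - w a| ≤ ε) ∧ (¬ p a → x a ≤ c)}} := by
    ext x
    simp [Bx]
  rw [e]
  exact polyh_biInter h6 _ _ key

/-! ### Strata -/

variable {K A : Type} [NormedField K] [CommRing A] [Algebra K A]

/-- The image of a box in a stratum. -/
theorem box_stra (z : Ber K A) (t J : Finset A) (hJt : J ⊆ t) (hJ : ∀ a ∈ t, z.v a ≠ 0 → a ∈ J)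
    {ε δ : ℝ} (hδ : 0 < δ) {z' : Ber K A} (hz' : z' ∈ stra t J) :
    z' ∈ box z t ε δ ↔
      (berLS K A).trop J z' ∈ Bx (fun a => z.v a ≠ 0) J (fun a => Real.log (z.v a)) ε
        (Real.log δ) := by
  constructor
  · intro h a
    have ha : (a : A) ∈ t := hJt a.2
    have hne : z'.v a ≠ 0 := (hz' a ha).2 a.2
    have hpos : 0 < z'.v a := lt_of_le_of_ne (z'.nonneg _) hne.symm
    refine ⟨fun hp => ((h a ha).1 hp).2, fun hp => ?_⟩
    exact Real.log_le_log hpos ((h a ha).2 (not_not.1 hp))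
  · intro h a ha
    refine ⟨fun hp => ?_, fun hp => ?_⟩
    · have haJ := hJ a ha hp
      exact ⟨(hz' a ha).2 haJ, (h ⟨a, haJ⟩).1 hp⟩
    · by_cases haJ : a ∈ J
      · have hne : z'.v a ≠ 0 := (hz' a ha).2 haJ
        have hpos : 0 < z'.v a := lt_of_le_of_ne (z'.nonneg _) hne.symm
        have h1 := (h ⟨a, haJ⟩).2 (not_not.2 hp)
        exact (Real.log_le_log_iff hpos hδ).1 h1
      · have h0 : z'.v a = 0 := by
          by_contra hne
          exact haJ ((hz' a ha).1 hne)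
        rw [h0]
        exact hδ.le

end SSP

open SSP in
/-- TD_BG_SSP. -/
theorem SSP_thm (h1 : NHD_Stmt) (h2 : STR_Stmt) (h3 : IDJ_Stmt) (h4 : TPL_Stmt) (h5 : FM_Stmt)
    (h6 : PLB_Stmt) (h7 : ADH_Stmt) : SSP_Stmt := by
  classical
  intro K A _ _ _ _ _ z u hu V hV
  obtain ⟨t, hut, hgen, η, hη, hbox⟩ := h1 K A z u V hV
  -- the strata
  let κ : Type := {J : Finset A // J ⊆ t ∧ ∀ a ∈ t, z.v a ≠ 0 → a ∈ J}
  have hκ : Finite κ := by
    have hf : Finite {J : Finset A // J ∈ t.powerset} := inferInstance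
    exact Finite.of_injective (β := {J : Finset A // J ∈ t.powerset})
      (fun J => ⟨J.1, Finset.mem_powerset.2 J.2.1⟩)
      (fun J J' h => Subtype.ext (congrArg (fun x => x.1) h))
  have hpoly : ∀ J : κ, ∃ (n : ℕ) (σ : Fin n → Set (J.1 → ℝ)), (∀ i, IsPolyh (σ i)) ∧
      (berLS K A).trop J.1 '' (stra t J.1) = ⋃ i, σ i := by
    intro J
    obtain ⟨I, hI⟩ := h3 K A t J.1
    obtain ⟨n, σ, hσ, hσ'⟩ := h4 K J.1 I
    exact ⟨n, σ, hσ, (h2 K A t J.1 J.2.1 hgen I hI).trans hσ'⟩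
  choose n σ hσ hσ' using hpoly
  -- the radii
  have hrad : ∀ k : (Σ J : κ, Fin (n J)), ∃ e : ℝ, 0 < e ∧
      ((∀ η : ℝ, 0 < η → ∃ x ∈ σ k.1 k.2, (∀ a : k.1.1, z.v a ≠ 0 →
        |x a - Real.log (z.v a)| ≤ η) ∧ ∀ a : k.1.1, ¬ (z.v a ≠ 0) → x a ≤ -(1 / η)) ∨
      ¬ ∃ x ∈ σ k.1 k.2, (∀ a : k.1.1, z.v a ≠ 0 → |x a - Real.log (z.v a)| ≤ e) ∧
        ∀ a : k.1.1, ¬ (z.v a ≠ 0) → x a ≤ -(1 / e)) := by
    intro k
    by_cases h : ∀ η : ℝ, 0 < η → ∃ x ∈ σ k.1 k.2, (∀ a : k.1.1, z.v a ≠ 0 →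
        |x a - Real.log (z.v a)| ≤ η) ∧ ∀ a : k.1.1, ¬ (z.v a ≠ 0) → x a ≤ -(1 / η)
    · exact ⟨1, one_pos, Or.inl h⟩
    · rw [not_forall] at h
      obtain ⟨e, he⟩ := h
      rw [Classical.not_imp] at he
      exact ⟨e, he.1, Or.inr he.2⟩
  choose e he he' using hrad
  have hεex : ∃ ε : ℝ, 0 < ε ∧ ε ≤ η ∧ ∀ k, ε ≤ e k := by
    have h1 : ∀ᶠ ε : ℝ in 𝓝[>] 0, ∀ k, ε ≤ e k := by
      rw [Filter.eventually_all]
      intro k
      filter_upwards [Ioc_mem_nhdsGT (he k)] with ε hε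
      exact hε.2
    have h2 : ∀ᶠ ε : ℝ in 𝓝[>] 0, 0 < ε ∧ ε ≤ η := by
      filter_upwards [Ioc_mem_nhdsGT hη] with ε hε
      exact hε
    obtain ⟨ε, hε1, hε2⟩ := (h1.and h2).exists
    exact ⟨ε, hε2.1, hε2.2, hε1⟩
  obtain ⟨ε, hε, hεη, hεe⟩ := hεex
  let δ : ℝ := min η (Real.exp (-(1 / ε)))
  have hδ : 0 < δ := lt_min hη (Real.exp_pos _)
  have hδη : δ ≤ η := min_le_left _ _
  have hδl : Real.log δ ≤ -(1 / ε) := by
    have := Real.log_le_log hδ (min_le_right η (Real.exp (-(1 / ε))))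
    rwa [Real.log_exp] at this
  obtain ⟨b1, b2, b3⟩ := hbox ε δ hε hεη hδ hδη
  have huJ : ∀ J : κ, u ⊆ J.1 := fun J a ha => J.2.2 a (hut ha) (hu a ha)
  -- the image of the box
  have himg : (berLS K A).trop u '' (box z t ε δ) = ⋃ k : (Σ J : κ, Fin (n J)),
      (rst (huJ k.1)).toLinearMap '' (σ k.1 k.2 ∩ Bx (fun a => z.v a ≠ 0) k.1.1
        (fun a => Real.log (z.v a)) ε (Real.log δ)) := by
    ext y
    simp only [Set.mem_iUnion]
    constructor
    · rintro ⟨z', hz', rfl⟩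
      let J0 : Finset A := t.filter fun a => z'.v a ≠ 0
      have hJ0 : J0 ⊆ t ∧ ∀ a ∈ t, z.v a ≠ 0 → a ∈ J0 :=
        ⟨Finset.filter_subset _ _, fun a ha hp => Finset.mem_filter.2 ⟨ha, ((hz' a ha).1 hp).1⟩⟩
      let J : κ := ⟨J0, hJ0⟩
      have hst : z' ∈ stra t J.1 := by
        intro a ha
        show z'.v a ≠ 0 ↔ a ∈ J0
        rw [Finset.mem_filter]
        exact ⟨fun h => ⟨ha, h⟩, fun h => h.2⟩
      have hmem : (berLS K A).trop J.1 z' ∈ ⋃ i, σ J i := by
        rw [← hσ' J]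
        exact ⟨z', hst, rfl⟩
      obtain ⟨i, hi⟩ := Set.mem_iUnion.1 hmem
      refine ⟨⟨J, i⟩, (berLS K A).trop J.1 z', ⟨hi, ?_⟩, rfl⟩
      exact (box_stra z t J.1 J.2.1 J.2.2 hδ hst).1 hz'
    · rintro ⟨⟨J, i⟩, x, ⟨hx, hxB⟩, rfl⟩
      have hmem : x ∈ (berLS K A).trop J.1 '' (stra t J.1) := by
        rw [hσ' J]
        exact Set.mem_iUnion.2 ⟨i, hx⟩
      obtain ⟨z', hst, rfl⟩ := hmem
      exact ⟨z', (box_stra z t J.1 J.2.1 J.2.2 hδ hst).2 hxB, rfl⟩
  refine ⟨box z t ε δ, b2, b1, b3, fun a ha z' hz' => ((hz' a (hut ha)).1 (hu a ha)).1, ?_, ?_⟩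
  · rw [himg]
    refine polyU_iUnion fun k => ?_
    exact h5 _ _ _ _ ((h6 k.1.1).1 _ _ (hσ k.1 k.2) (polyh_bx h6 _ _ _ _ _))
  · rw [himg]
    intro y hy a b ha hb hab
    obtain ⟨k, x, ⟨hx, hxB⟩, rfl⟩ := Set.mem_iUnion.1 hy
    have hadh : ∀ η : ℝ, 0 < η → ∃ x ∈ σ k.1 k.2, (∀ a : k.1.1, z.v a ≠ 0 →
        |x a - Real.log (z.v a)| ≤ η) ∧ ∀ a : k.1.1, ¬ (z.v a ≠ 0) → x a ≤ -(1 / η) := by
      rcases he' k with h | h
      · exact h
      · exfalso
        apply h
        refine ⟨x, hx, fun a hp => ((hxB a).1 hp).trans (hεe k), fun a hp => ?_⟩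
        refine ((hxB a).2 hp).trans (hδl.trans ?_)
        exact neg_le_neg (one_div_le_one_div_of_le hε (hεe k))
    obtain ⟨x', hx', hx1, hx2⟩ := h7 k.1.1 (fun a => z.v a ≠ 0) (σ k.1 k.2) (hσ k.1 k.2)
      (fun a => Real.log (z.v a)) hadh ε (Real.log δ) hε.le x hx (fun a => (hxB a).1)
      (fun a => (hxB a).2) b hb (by linarith)
    refine Set.mem_iUnion.2 ⟨k, x', ⟨hx', fun c => ⟨fun hp => ?_, hx2 c⟩⟩, ?_⟩
    · rw [hx1 c hp, add_sub_cancel_left, abs_mul, abs_of_nonneg hb]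
      calc b * |x c - Real.log (z.v c)| ≤ 1 * |x c - Real.log (z.v c)| :=
            mul_le_mul_of_nonneg_right (by linarith) (abs_nonneg _)
        _ ≤ ε := by rw [one_mul]; exact (hxB c).1 hp
    · ext c
      have hc : z.v c ≠ 0 := hu c c.2
      show x' ⟨c, huJ k.1 c.2⟩ = a * Real.log (z.v c) + b * x ⟨c, huJ k.1 c.2⟩
      rw [hx1 _ hc]
      have : a = 1 - b := by linarith
      rw [this]
      ring

end Pool.Agent.TD.BG


end
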