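import Mathlib
import Pool.Agent.DolbM.C10

/-! Parts: TD.U.Fib -/

section

/-! Block U: the fibre embedding. -/

open scoped ContDiff Topology
open Polynomial

namespace Pool.Agent.TD

variable {K R k : Type} [NormedField K] [CommRing R] [Algebra K R] [NormedField k]
  {y : Ber K R} {ι : R →+* k}

theorem fibU_continuous (h : IsResF y ι) : Continuous (fibU h) := by
  rw [Ber.continuous_iff]
  intro a
  exact Ber.continuous_v (a.map ι)

namespace FibAux

/-- A polynomial of `k[X]` has a common denominator. -/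
theorem exists_rep (h : IsResF y ι) (g : k[X]) :
    ∃ (F : R[X]) (d : R), ι d ≠ 0 ∧ F.map ι = C (ι d) * g := by
  induction g using Polynomial.induction_on' with
  | add p q hp hq =>
    obtain ⟨F, d, hd, hF⟩ := hp
    obtain ⟨F', d', hd', hF'⟩ := hq
    refine ⟨C d' * F + C d * F', d * d', by rw [map_mul]; exact mul_ne_zero hd hd', ?_⟩
    rw [Polynomial.map_add, Polynomial.map_mul, Polynomial.map_mul, map_C, map_C, hF, hF',
      map_mul, C_mul]
    ring
  | monomial n x =>
    obtain ⟨a, b, hb, rfl⟩ := h.frac x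
    refine ⟨monomial n a, b, hb, ?_⟩
    rw [map_monomial, C_mul_monomial, mul_div_cancel₀ _ hb]

/-- The point `z` over `y` vanishes at the polynomials whose image is zero. -/
theorem zero_of_map (h : IsResF y ι) (z : Ber K R[X]) (hz : ∀ a, z.v (C a) = y.v a) (G : R[X])
    (hG : G.map ι = 0) : z.v G = 0 := by
  apply le_antisymm _ (z.nonneg G)
  rw [G.as_sum_range]
  refine z.sum_le _ _ le_rfl fun i _ => ?_
  have h1 : ι (G.coeff i) = 0 := by
    have := congrArg (fun p => p.coeff i) hG
    simpa [coeff_map] using this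
  rw [← C_mul_X_pow_eq_monomial, z.mul, hz, ← h.norm, h1, norm_zero, zero_mul]

theorem eq_of_sub (z : Ber K R[X]) {a b : R[X]} (h : z.v (a - b) = 0) : z.v a = z.v b := by
  apply le_antisymm
  · have h1 : z.v (b + (a - b)) ≤ _ := z.add b (a - b)
    rw [h, max_eq_left (z.nonneg b), add_sub_cancel] at h1
    exact h1
  · have h1 : z.v (a - (a - b)) ≤ _ := z.sub a (a - b)
    rw [h, max_eq_left (z.nonneg a), sub_sub_cancel] at h1
    exact h1

theorem wd (h : IsResF y ι) (z : Ber K R[X]) (hz : ∀ a, z.v (C a) = y.v a) {g : k[X]}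
    {F F' : R[X]} {d d' : R} (hd : ι d ≠ 0) (hF : F.map ι = C (ι d) * g) (hd' : ι d' ≠ 0)
    (hF' : F'.map ι = C (ι d') * g) : z.v F / y.v d = z.v F' / y.v d' := by
  have h1 : z.v (C d' * F - C d * F') = 0 := by
    apply zero_of_map h z hz
    rw [Polynomial.map_sub, Polynomial.map_mul, Polynomial.map_mul, map_C, map_C, hF, hF']
    ring
  have h2 := eq_of_sub z h1
  rw [z.mul, z.mul, hz, hz] at h2
  have h3 : y.v d ≠ 0 := by rw [← h.norm]; exact norm_ne_zero_iff.2 hd
  have h4 : y.v d' ≠ 0 := by rw [← h.norm]; exact norm_ne_zero_iff.2 hd'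
  rw [div_eq_div_iff h3 h4]
  linarith

end FibAux

open FibAux in
theorem fibU_surj (h : IsResF y ι) (z : Ber K R[X]) (hz : (prX K R).toFun z = y) :
    ∃ w, fibU h w = z := by
  have hz' : ∀ a, z.v (C a) = y.v a := fun a => by
    rw [← hz]
    rfl
  choose F d hd hF using exists_rep h
  have hpos : ∀ {e : R}, ι e ≠ 0 → 0 < y.v e := fun {e} he => by
    rw [← h.norm]; exact norm_pos_iff.2 he
  have key : ∀ (g : k[X]) (F' : R[X]) (d' : R), ι d' ≠ 0 → F'.map ι = C (ι d') * g →
      z.v (F g) / y.v (d g) = z.v F' / y.v d' := fun g F' d' hd' hF' =>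
    wd h z hz' (hd g) (hF g) hd' hF'
  refine ⟨{ v := fun g => z.v (F g) / y.v (d g)
            nonneg := fun g => div_nonneg (z.nonneg _) (y.nonneg _)
            one := ?_
            mul := ?_
            add := ?_
            ext := ?_ }, ?_⟩
  · rw [key 1 1 1 (by simp) (by simp), z.one, y.one, div_one]
  · intro a b
    rw [key (a * b) (F a * F b) (d a * d b) (by rw [map_mul]; exact mul_ne_zero (hd a) (hd b))
      (by rw [Polynomial.map_mul, hF, hF, map_mul, C_mul]; ring), z.mul, y.mul, mul_div_mul_comm]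
  · intro a b
    rw [key (a + b) (C (d b) * F a + C (d a) * F b) (d a * d b)
      (by rw [map_mul]; exact mul_ne_zero (hd a) (hd b))
      (by
        rw [Polynomial.map_add, Polynomial.map_mul, Polynomial.map_mul, map_C, map_C, hF, hF,
          map_mul, C_mul]
        ring)]
    have h1 := z.add (C (d b) * F a) (C (d a) * F b)
    rw [z.mul, z.mul, hz', hz'] at h1
    have ha := hpos (hd a)
    have hb := hpos (hd b)
    rw [y.mul, div_le_iff₀ (mul_pos ha hb)]
    refine h1.trans (max_le ?_ ?_)
    · have h2 : y.v (d b) * z.v (F a) = z.v (F a) / y.v (d a) * (y.v (d a) * y.v (d b)) := by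
        field_simp
      rw [h2]
      exact mul_le_mul_of_nonneg_right (le_max_left _ _) (mul_pos ha hb).le
    · have h2 : y.v (d a) * z.v (F b) = z.v (F b) / y.v (d b) * (y.v (d a) * y.v (d b)) := by
        field_simp
      rw [h2]
      exact mul_le_mul_of_nonneg_right (le_max_right _ _) (mul_pos ha hb).le
  · intro c
    obtain ⟨a, b, hb, rfl⟩ := h.frac c
    rw [key _ (C a) b hb (by
      rw [map_C, show (algebraMap k k[X]) (ι a / ι b) = C (ι a / ι b) from rfl, ← C_mul,
        mul_div_cancel₀ _ hb]), hz', ← h.norm, ← h.norm, norm_div]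
  · apply Ber.ext_v
    intro f
    rw [fibU_v]
    show z.v (F (f.map ι)) / y.v (d (f.map ι)) = z.v f
    rw [key (f.map ι) f 1 (by simp) (by simp), y.one, div_one]

end Pool.Agent.TD


end
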