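import Mathlib
import Pool.Agent.DolbM.C01
import Pool.Agent.DolbM.C04
import Pool.Agent.DolbM.C10

/-! Parts: TD.U.Gpt, TD.U.Gpt2, TD.U.Kl, TD.U.U1, TD.U.U5b, TD.U.Lin1, TD.U.Lin2, TD.U.Lin3, TD.U.Lin4, TD.U.Mon1, TD.U.Mon2 -/

section

/-! Block U: Gauss points over variable base points. -/

open scoped ContDiff Topology
open Polynomial

namespace Pool.Agent.TD

variable {K R : Type} [NormedField K] [CommRing R] [Algebra K R]

namespace U_GPT

/-- The absolute value of `H` as a point. -/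
noncomputable def nrmPt (H : Type) [NormedField H] [IsUltrametricDist H] : Ber H H where
  v := norm
  nonneg := norm_nonneg
  one := norm_one
  mul := norm_mul
  add := fun a b => IsUltrametricDist.norm_add_le_max a b
  ext := fun _ => rfl

section

variable {H : Type} [NormedField H] [IsUltrametricDist H] {x : Ber K R} {ι : R →+* H}

omit [IsUltrametricDist H] in
theorem comp_shp (b d : R) (hd : ι d ≠ 0) (f : R[X]) (i : ℕ) :
    ((f.map ι).comp (X + C (ι b / ι d))).coeff i * ι d ^ f.natDegree =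
      ι ((shp b d f).coeff i) * ι d ^ i := by
  have h1 : ((shp b d f).map ι).comp (C (ι d) * X) =
      C (ι d) ^ f.natDegree * (f.map ι).comp (X + C (ι b / ι d)) := by
    have h2 := scaleRoots_eval₂_mul (p := f) (C.comp ι : R →+* H[X]) (X + C (ι b / ι d)) d
    have h3 : (C.comp ι : R →+* H[X]) d * (X + C (ι b / ι d)) = C (ι d) * X + C (ι b) := by
      rw [RingHom.comp_apply, mul_add, ← C_mul, mul_div_cancel₀ _ hd]
    rw [h3] at h2
    unfold shp
    rw [Polynomial.map_comp, comp_assoc, Polynomial.map_add, map_X, map_C, add_comp, X_comp, C_comp]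
    unfold comp
    rw [eval₂_map, eval₂_map, h2, RingHom.comp_apply]
  have h4 := congrArg (fun p : H[X] => p.coeff i) h1
  simp only [comp_C_mul_X_coeff, coeff_map] at h4
  rw [h4, ← C_pow, coeff_C_mul, mul_comm]

theorem shp_coeff_zero (b d : R) (f : R[X]) {i : ℕ} (hi : f.natDegree < i) :
    (shp b d f).coeff i = 0 := by
  refine coeff_eq_zero_of_natDegree_lt (lt_of_le_of_lt ?_ hi)
  unfold shp
  refine natDegree_comp_le.trans ?_
  rw [natDegree_scaleRoots]
  calc f.natDegree * (X + C b : R[X]).natDegree ≤ f.natDegree * 1 := by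
        refine Nat.mul_le_mul_left _ ?_
        refine (natDegree_add_le _ _).trans ?_
        simp [natDegree_X_le]
    _ = f.natDegree := mul_one _

/-- One monomial. -/
theorem term_eq (hι : ∀ a, ‖ι a‖ = x.v a) (b d : R) (hd : x.v d ≠ 0) (ρ : ℝ) (f : R[X]) (i : ℕ) :
    (T_GAUSS.av (nrmPt H)) (((f.map ι).comp (X + C (ι b / ι d))).coeff i) * ρ ^ i =
      x.v ((shp b d f).coeff i) * (x.v d * ρ) ^ i / x.v d ^ f.natDegree := by
  have hd' : ι d ≠ 0 := by
    intro h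
    apply hd
    rw [← hι, h, norm_zero]
  have h1 := congrArg norm (comp_shp b d hd' f i)
  rw [norm_mul, norm_mul, norm_pow, norm_pow, hι, hι] at h1
  have h2 : (T_GAUSS.av (nrmPt H)) (((f.map ι).comp (X + C (ι b / ι d))).coeff i) =
      ‖((f.map ι).comp (X + C (ι b / ι d))).coeff i‖ := rfl
  rw [h2, eq_div_iff (pow_ne_zero _ hd), mul_pow]
  calc _ = ‖((f.map ι).comp (X + C (ι b / ι d))).coeff i‖ * x.v d ^ f.natDegree * ρ ^ i := by ring
    _ = _ := by rw [h1]; ring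

theorem le_gz (b d : R) (x : Ber K R) (ρ : ℝ) (f : R[X]) {i : ℕ} (hi : i ≤ f.natDegree) :
    x.v ((shp b d f).coeff i) * (x.v d * ρ) ^ i / x.v d ^ f.natDegree ≤ gz b d x ρ f := by
  unfold gz
  refine div_le_div_of_nonneg_right ?_ (pow_nonneg (x.nonneg d) _)
  exact le_ciSup (f := fun i : Fin (f.natDegree + 1) =>
    x.v ((shp b d f).coeff i) * (x.v d * ρ) ^ (i : ℕ)) (Set.finite_range _).bddAbove
    ⟨i, Nat.lt_succ_of_le hi⟩

theorem ex_gz (b d : R) (x : Ber K R) (ρ : ℝ) (f : R[X]) :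
    ∃ i ≤ f.natDegree, x.v ((shp b d f).coeff i) * (x.v d * ρ) ^ i / x.v d ^ f.natDegree =
      gz b d x ρ f := by
  obtain ⟨i, hi⟩ := exists_eq_ciSup_of_finite (f := fun i : Fin (f.natDegree + 1) =>
    x.v ((shp b d f).coeff i) * (x.v d * ρ) ^ (i : ℕ))
  refine ⟨i, Nat.le_of_lt_succ i.2, ?_⟩
  unfold gz
  rw [← hi]

theorem gauss_eq (hι : ∀ a, ‖ι a‖ = x.v a) (b d : R) (hd : x.v d ≠ 0) (ρ : ℝ) (hρ : 0 < ρ)
    (f : R[X]) :
    ((f.map ι).comp (X + C (ι b / ι d))).gaussNorm (T_GAUSS.av (nrmPt H)) ρ = gz b d x ρ f := by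
  apply le_antisymm
  · obtain ⟨i, hi⟩ := exists_eq_gaussNorm (T_GAUSS.av (nrmPt H)) ρ
      ((f.map ι).comp (X + C (ι b / ι d)))
    rw [hi, term_eq hι b d hd ρ f i]
    by_cases h : i ≤ f.natDegree
    · exact le_gz b d x ρ f h
    · rw [shp_coeff_zero b d f (not_le.mp h), x.zero, zero_mul, zero_div]
      obtain ⟨j, -, hj2⟩ := ex_gz b d x ρ f
      rw [← hj2]
      have := x.nonneg ((shp b d f).coeff j)
      have := x.nonneg d
      positivity
  · obtain ⟨i, -, hi⟩ := ex_gz b d x ρ f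
    rw [← hi, ← term_eq hι b d hd ρ f i]
    exact le_gaussNorm _ _ hρ.le i

/-- The Gauss point. -/
noncomputable def pt (hι : ∀ a, ‖ι a‖ = x.v a) (b d : R) (ρ : ℝ) (hρ : 0 < ρ) : Ber K R[X] where
  v f := (T_GAUSS.gp (nrmPt H) (ι b / ι d) ρ hρ.le).v (f.map ι)
  nonneg f := (T_GAUSS.gp (nrmPt H) (ι b / ι d) ρ hρ.le).nonneg _
  one := by rw [Polynomial.map_one, Ber.one]
  mul f g := by rw [Polynomial.map_mul, Ber.mul]
  add f g := by
    rw [Polynomial.map_add]
    exact Ber.add _ _ _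
  ext c := by
    have h1 : algebraMap K R[X] c = C (algebraMap K R c) := rfl
    have h2 := (T_GAUSS.gp (nrmPt H) (ι b / ι d) ρ hρ.le).ext (ι (algebraMap K R c))
    rw [show (algebraMap H H[X]) (ι (algebraMap K R c)) = C (ι (algebraMap K R c)) from rfl] at h2
    rw [h1, map_C, h2, hι, x.ext]

theorem pt_gz (hι : ∀ a, ‖ι a‖ = x.v a) (b d : R) (hd : x.v d ≠ 0) (ρ : ℝ) (hρ : 0 < ρ) :
    IsGz b d x ρ (pt hι b d ρ hρ) := fun f => by
  show (T_GAUSS.gp (nrmPt H) (ι b / ι d) ρ hρ.le).v (f.map ι) = _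
  rw [T_GAUSS.gp_v]
  exact gauss_eq hι b d hd ρ hρ f

end

end U_GPT

/-- Gauss points exist. -/
theorem exists_gz (b d : R) (x : Ber K R) (hd : x.v d ≠ 0) (ρ : ℝ) (hρ : 0 < ρ) :
    ∃ z : Ber K R[X], IsGz b d x ρ z := by
  obtain ⟨H, _, _, _, ι, hι⟩ := td_res K R x
  exact ⟨_, U_GPT.pt_gz hι.norm b d hd ρ hρ⟩

/-- The value of a Gauss point is one of the monomials; the other ones are smaller. -/
theorem gz_eq (b d : R) (x : Ber K R) (hd : x.v d ≠ 0) (ρ : ℝ) (hρ : 0 < ρ) (f : R[X]) :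
    (∀ i ≤ f.natDegree, x.v ((shp b d f).coeff i) * (x.v d * ρ) ^ i / x.v d ^ f.natDegree ≤
      gz b d x ρ f) ∧
    ∃ i ≤ f.natDegree, x.v ((shp b d f).coeff i) * (x.v d * ρ) ^ i / x.v d ^ f.natDegree =
      gz b d x ρ f :=
  ⟨fun _ hi => U_GPT.le_gz b d x ρ f hi, U_GPT.ex_gz b d x ρ f⟩

/-- Values on base functions and on `d X - b`. -/
theorem gz_C (b d : R) (x : Ber K R) (hd : x.v d ≠ 0) (ρ : ℝ) (hρ : 0 < ρ) (z : Ber K R[X])
    (hz : IsGz b d x ρ z) (a : R) : z.v (C a) = x.v a := by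
  obtain ⟨H, _, _, _, ι, hι⟩ := td_res K R x
  rw [hz, ← U_GPT.gauss_eq hι.norm b d hd ρ hρ, map_C, C_comp, gaussNorm_C]
  exact hι.norm a

theorem gz_lin (b d : R) (x : Ber K R) (hd : x.v d ≠ 0) (ρ : ℝ) (hρ : 0 < ρ) (z : Ber K R[X])
    (hz : IsGz b d x ρ z) : z.v (C d * X - C b) = x.v d * ρ := by
  obtain ⟨H, _, _, _, ι, hι⟩ := td_res K R x
  have hd' : ι d ≠ 0 := by
    intro h
    apply hd
    rw [← hι.norm, h, norm_zero]
  have h1 : ((C d * X - C b : R[X]).map ι).comp (X + C (ι b / ι d)) = monomial 1 (ι d) := by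
    rw [Polynomial.map_sub, Polynomial.map_mul, map_C, map_C, map_X, sub_comp, mul_comp, C_comp,
      C_comp, X_comp, mul_add, ← C_mul, mul_div_cancel₀ _ hd', add_sub_cancel_right,
      ← C_mul_X_eq_monomial]
  rw [hz, ← U_GPT.gauss_eq hι.norm b d hd ρ hρ, h1, gaussNorm_monomial, pow_one, ← hι.norm]
  rfl

end Pool.Agent.TD


end

section

/-! Block U: continuity of the Gauss points, Gauss points of the fibre. -/

open scoped ContDiff Topology
open Polynomial

namespace Pool.Agent.TD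

variable {K R : Type} [NormedField K] [CommRing R] [Algebra K R]

namespace Gpt2Aux

/-- The value of the Gauss point at `f` is continuous in the point and the radius. -/
theorem gz_continuousAt (b d : R) (y : Ber K R) (hd : y.v d ≠ 0) (ρ : ℝ) (f : R[X]) :
    ContinuousAt (fun p : Ber K R × ℝ => gz b d p.1 p.2 f) (y, ρ) := by
  have hc : ∀ a : R, Continuous (fun p : Ber K R × ℝ => p.1.v a) := fun a =>
    (Ber.continuous_v a).comp continuous_fst
  have e : (fun p : Ber K R × ℝ => gz b d p.1 p.2 f) = fun p : Ber K R × ℝ =>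
      ((Finset.univ : Finset (Fin (f.natDegree + 1))).sup' Finset.univ_nonempty
        (fun i => p.1.v ((shp b d f).coeff i) * (p.1.v d * p.2) ^ (i : ℕ))) /
        p.1.v d ^ f.natDegree := by
    funext p
    rw [Finset.sup'_univ_eq_ciSup]
    rfl
  rw [e]
  refine ContinuousAt.div (ContinuousAt.finset_sup'_apply Finset.univ_nonempty fun i _ => ?_)
    ((hc d).pow _).continuousAt (pow_ne_zero _ hd)
  exact ((hc _).mul (((hc d).mul continuous_snd).pow _)).continuousAt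

/-- A supremum over a longer range of terms which vanish. -/
theorem iSup_fin_eq (t : ℕ → ℝ) (m n : ℕ) (hmn : m ≤ n) (h0 : ∀ i, 0 ≤ t i)
    (h : ∀ i, m < i → t i = 0) :
    (⨆ i : Fin (n + 1), t i) = ⨆ i : Fin (m + 1), t i := by
  have b1 : BddAbove (Set.range fun i : Fin (n + 1) => t i) := (Set.finite_range _).bddAbove
  have b2 : BddAbove (Set.range fun i : Fin (m + 1) => t i) := (Set.finite_range _).bddAbove
  apply le_antisymm
  · refine ciSup_le fun i => ?_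
    rcases Nat.lt_or_ge m i with hi | hi
    · rw [h _ hi]
      exact (h0 0).trans (le_ciSup b2 (0 : Fin (m + 1)))
    · exact le_ciSup b2 (⟨i, by omega⟩ : Fin (m + 1))
  · refine ciSup_le fun i => ?_
    exact le_ciSup b1 (⟨i, by omega⟩ : Fin (n + 1))

/-- The coefficients of `shp b d f` in the residue field. -/
theorem coeff_shp {k : Type} [Field k] (ι : R →+* k) (b d : R) (hd : ι d ≠ 0) (f : R[X]) (i : ℕ) :
    ι ((shp b d f).coeff i) = ι d ^ f.natDegree *
      (((f.map ι).comp (X + C (ι b / ι d))).coeff i * (ι d)⁻¹ ^ i) := by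
  have h1 : (f.scaleRoots d).map ι = C (ι d ^ f.natDegree) * (f.map ι).comp (C (ι d)⁻¹ * X) := by
    ext j
    rw [coeff_map, coeff_scaleRoots, coeff_C_mul, comp_C_mul_X_coeff, map_mul, map_pow,
      coeff_map]
    rcases Nat.lt_or_ge f.natDegree j with hj | hj
    · rw [coeff_eq_zero_of_natDegree_lt hj, map_zero, zero_mul, zero_mul, mul_zero]
    · have h2 : ι d ^ f.natDegree = ι d ^ (f.natDegree - j) * ι d ^ j := by
        rw [← pow_add, Nat.sub_add_cancel hj]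
      have h3 : ι d ^ j * (ι d)⁻¹ ^ j = 1 := by
        rw [← mul_pow, mul_inv_cancel₀ hd, one_pow]
      rw [h2]
      linear_combination (-(ι (f.coeff j) * ι d ^ (f.natDegree - j))) * h3
  have h2 : (shp b d f).map ι = C (ι d ^ f.natDegree) *
      ((f.map ι).comp (X + C (ι b / ι d))).comp (C (ι d)⁻¹ * X) := by
    unfold shp
    rw [Polynomial.map_comp, h1, mul_comp, comp_assoc, comp_assoc, C_comp]
    congr 2
    rw [Polynomial.map_add, map_X, map_C, mul_comp, C_comp, X_comp, add_comp, X_comp, C_comp,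
      mul_add, ← C_mul]
    congr 2
    rw [div_eq_mul_inv, mul_comm]
  rw [← coeff_map, h2, coeff_C_mul, comp_C_mul_X_coeff]

end Gpt2Aux

/-- Continuity: near `(y, ρ)` the Gauss points are near the Gauss point `z`. -/
theorem gz_nhds (b d : R) (y : Ber K R) (hd : y.v d ≠ 0) (ρ : ℝ) (hρ : 0 < ρ) (z : Ber K R[X])
    (hz : IsGz b d y ρ z) : ∀ V ∈ 𝓝 z, ∃ W ∈ 𝓝 y, ∃ ε > 0, ε < ρ ∧
      ∀ x ∈ W, x.v d ≠ 0 ∧ ∀ ρ', |ρ' - ρ| < ε → ∀ z', IsGz b d x ρ' z' → z' ∈ V := by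
  intro V hV
  rw [nhds_induced, Filter.mem_comap] at hV
  obtain ⟨U, hU, hUV⟩ := hV
  have hG : ContinuousAt (fun p : Ber K R × ℝ => fun f : R[X] => gz b d p.1 p.2 f) (y, ρ) :=
    continuousAt_pi.2 fun f => Gpt2Aux.gz_continuousAt b d y hd ρ f
  have hzv : (fun f : R[X] => gz b d y ρ f) = z.v := (funext hz).symm
  have h1 : (fun p : Ber K R × ℝ => fun f : R[X] => gz b d p.1 p.2 f) ⁻¹' U ∈ 𝓝 (y, ρ) := by
    refine hG.preimage_mem_nhds ?_
    show U ∈ 𝓝 (fun f : R[X] => gz b d y ρ f)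
    rw [hzv]
    exact hU
  rw [nhds_prod_eq, Filter.mem_prod_iff] at h1
  obtain ⟨W, hW, I, hI, hWI⟩ := h1
  obtain ⟨ε, hε, hεI⟩ := Metric.mem_nhds_iff.1 hI
  have hopen : {x : Ber K R | x.v d ≠ 0} ∈ 𝓝 y :=
    (isOpen_ne_fun (Ber.continuous_v d) continuous_const).mem_nhds hd
  refine ⟨W ∩ {x | x.v d ≠ 0}, Filter.inter_mem hW hopen, min ε (ρ / 2),
    lt_min hε (half_pos hρ), (min_le_right _ _).trans_lt (half_lt_self hρ), ?_⟩
  rintro x ⟨hxW, hxd⟩
  refine ⟨hxd, fun ρ' hρ' z' hz' => hUV ?_⟩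
  have h2 : (x, ρ') ∈ (fun p : Ber K R × ℝ => fun f : R[X] => gz b d p.1 p.2 f) ⁻¹' U := by
    refine hWI ⟨hxW, hεI ?_⟩
    rw [Metric.mem_ball, Real.dist_eq]
    exact hρ'.trans_le (min_le_left _ _)
  show z'.v ∈ U
  have h3 : z'.v = fun f : R[X] => gz b d x ρ' f := funext hz'
  rw [h3]
  exact h2

/-- The Gauss points of the fibre. -/
theorem fibU_gz {k : Type} [NormedField k] {y : Ber K R} {ι : R →+* k} (h : IsResF y ι)
    (b d : R) (hd : ι d ≠ 0) (ρ : ℝ) (hρ : 0 < ρ) (w : Ber k k[X])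
    (hw : ∀ f : k[X], w.v f = (⨆ i : Fin (f.natDegree + 1),
      ‖(f.comp (X + C (ι b / ι d))).coeff i‖ * ρ ^ (i : ℕ))) :
    IsGz b d y ρ (fibU h w) := by
  intro f
  rw [fibU_v, hw]
  have hD : 0 < y.v d := by
    rw [← h.norm]
    exact norm_pos_iff.2 hd
  have ht : ∀ i : ℕ, y.v ((shp b d f).coeff i) * (y.v d * ρ) ^ i =
      (‖((f.map ι).comp (X + C (ι b / ι d))).coeff i‖ * ρ ^ i) * y.v d ^ f.natDegree := by
    intro i
    rw [← h.norm, Gpt2Aux.coeff_shp ι b d hd f i, norm_mul, norm_mul, norm_pow, norm_pow,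
      norm_inv, h.norm, mul_pow]
    have h3 : (y.v d)⁻¹ ^ i * y.v d ^ i = 1 := by
      rw [← mul_pow, inv_mul_cancel₀ hD.ne', one_pow]
    linear_combination (y.v d ^ f.natDegree *
      ‖((f.map ι).comp (X + C (ι b / ι d))).coeff i‖ * ρ ^ i) * h3
  unfold gz
  rw [show (⨆ i : Fin (f.natDegree + 1), y.v ((shp b d f).coeff i) * (y.v d * ρ) ^ (i : ℕ)) =
    (⨆ i : Fin (f.natDegree + 1), ‖((f.map ι).comp (X + C (ι b / ι d))).coeff i‖ * ρ ^ (i : ℕ)) *
      y.v d ^ f.natDegree from by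
        rw [Real.iSup_mul_of_nonneg (pow_nonneg hD.le _)]
        exact congrArg iSup (funext fun i => ht i)]
  rw [mul_div_assoc, div_self (pow_ne_zero _ hD.ne'), mul_one]
  refine (Gpt2Aux.iSup_fin_eq
    (fun i => ‖((f.map ι).comp (X + C (ι b / ι d))).coeff i‖ * ρ ^ i)
    (f.map ι).natDegree f.natDegree natDegree_map_le
    (fun i => mul_nonneg (norm_nonneg _) (pow_nonneg hρ.le _)) fun i hi => ?_).symm
  have h0 : ((f.map ι).comp (X + C (ι b / ι d))).coeff i = 0 := by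
    refine coeff_eq_zero_of_natDegree_lt ?_
    rw [natDegree_comp, natDegree_X_add_C, mul_one]
    exact hi
  show ‖((f.map ι).comp (X + C (ι b / ι d))).coeff i‖ * ρ ^ i = 0
  rw [h0, norm_zero, zero_mul]

end Pool.Agent.TD


end

section

/-! Block U: germs of `log |F|` on Berkovich spectra; Steinberg relation. -/

open scoped ContDiff Topology
open Polynomial

namespace Pool.Agent.TD

variable {K A : Type} [NormedField K] [CommRing A] [Algebra K A] {z : Ber K A}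

/-- `log |F|` only depends on `F` up to smaller functions. -/
theorem dlS_eq_of_close {F G : A} (hF : z.v F ≠ 0) (hG : z.v G ≠ 0) (h : z.v (F - G) < z.v F) :
    (berLS K A).dlS (z := z) F hF = (berLS K A).dlS (z := z) G hG := by
  refine (berLS K A).dlS_eq_of_lf hF hG 0 ?_
  have ho : IsOpen {z' : Ber K A | z'.v (F - G) < z'.v F} :=
    isOpen_lt (Ber.continuous_v _) (Ber.continuous_v _)
  filter_upwards [ho.mem_nhds h] with z' hz'
  show Real.log (z'.v F) = 0 + Real.log (z'.v G)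
  rw [zero_add, z'.sub_eq hz']

theorem dlS_mul {F G : A} (hF : z.v F ≠ 0) (hG : z.v G ≠ 0) (hFG : z.v (F * G) ≠ 0) :
    (berLS K A).dlS (z := z) (F * G) hFG =
      (berLS K A).dlS (z := z) F hF + (berLS K A).dlS (z := z) G hG := by
  have hz : ∀ i : Fin 2, z ∈ (berLS K A).dom ((![F, G] : Fin 2 → A) i) := by
    intro i
    fin_cases i
    · exact hF
    · exact hG
  have h := (berLS K A).dlS_eq_sum (n := 2) (f := F * G) (g := ![F, G]) hFG hz (fun _ => 1) 0 (by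
    filter_upwards [((berLS K A).isOpen_dom F).mem_nhds hF,
      ((berLS K A).isOpen_dom G).mem_nhds hG] with z' h1 h2
    have h1' : z'.v F ≠ 0 := h1
    have h2' : z'.v G ≠ 0 := h2
    rw [Fin.sum_univ_two]
    show Real.log (z'.v (F * G)) = 0 + (1 * Real.log (z'.v F) + 1 * Real.log (z'.v G))
    rw [z'.mul, Real.log_mul h1' h2']
    ring)
  rw [h, Fin.sum_univ_two, one_smul, one_smul]
  rfl

theorem dlS_algebraMap (c : K) (h : z.v (algebraMap K A c) ≠ 0) :
    (berLS K A).dlS (z := z) (algebraMap K A c) h = 0 := by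
  have h1 := (berLS K A).dlS_eq_sum (n := 0) (f := algebraMap K A c) (g := ![]) h
    (fun i => i.elim0) (fun _ => 1) (Real.log ‖c‖) (by
      refine Filter.Eventually.of_forall fun z' => ?_
      show Real.log (z'.v (algebraMap K A c)) = _
      rw [z'.ext]
      simp)
  rw [h1]
  simp

section
variable {Φ : Type} {p q : ℕ}

theorem kl_wdg_congr {f g f' g' : Φ} {θ : Raw Φ p q} {x : Φ → ℝ} {w : Fin q → Φ → ℝ}
    {v : Fin (p + 2) → Φ → ℝ} (hf : ∀ j, v j f = v j f') (hg : ∀ j, v j g = v j g') :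
    wdg1 (dlg f) (wdg1 (dlg g) θ) x w v = wdg1 (dlg f') (wdg1 (dlg g') θ) x w v := by
  show ∑ j : Fin (p + 2), (-1 : ℝ) ^ (j : ℕ) * v j f * (∑ i : Fin (p + 1), (-1 : ℝ) ^ (i : ℕ) *
      v (j.succAbove i) g * θ x w (fun k => v (j.succAbove (i.succAbove k)))) =
    ∑ j : Fin (p + 2), (-1 : ℝ) ^ (j : ℕ) * v j f' * (∑ i : Fin (p + 1), (-1 : ℝ) ^ (i : ℕ) *
      v (j.succAbove i) g' * θ x w (fun k => v (j.succAbove (i.succAbove k))))
  simp only [hf, hg]

theorem kl_anti {s : Finset Φ} {f g : Φ} {θ : Raw Φ p q} (h : IsSF s θ) {x : Φ → ℝ}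
    {w : Fin q → Φ → ℝ} {v : Fin (p + 2) → Φ → ℝ} :
    wdg1 (dlg f) (wdg1 (dlg g) θ) x w v = - wdg1 (dlg g) (wdg1 (dlg f) θ) x w v :=
  congrFun (congrFun (congrFun (wdg1_anti (η := dlg f) (η' := dlg g) h) x) w) v

/-- The piece of `σ` where the coordinates `a` and `b` are equal and at least the coordinate
`c`. -/
def klPiece {u : Finset Φ} (σ : Set (u → ℝ)) (a b c : u) : Set (u → ℝ) :=
  {y | y ∈ σ ∧ y a = y b ∧ y c ≤ y a}

theorem klPiece_convex {u : Finset Φ} {σ : Set (u → ℝ)} (hσ : Convex ℝ σ) (a b c : u) :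
    Convex ℝ (klPiece σ a b c) := by
  intro y hy y' hy' s t hs ht hst
  refine ⟨hσ hy.1 hy'.1 hs ht hst, ?_, ?_⟩
  · show s * y a + t * y' a = s * y b + t * y' b
    rw [hy.2.1, hy'.2.1]
  · show s * y c + t * y' c ≤ s * y a + t * y' a
    have h1 := mul_le_mul_of_nonneg_left hy.2.2 hs
    have h2 := mul_le_mul_of_nonneg_left hy'.2.2 ht
    linarith

theorem klPiece_span {u : Finset Φ} {σ : Set (u → ℝ)} {a b c : u} {w : u → ℝ}
    (hw : w ∈ vectorSpan ℝ (klPiece σ a b c)) : w a = w b := by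
  let ℓ : (u → ℝ) →ₗ[ℝ] ℝ := (LinearMap.proj a : (u → ℝ) →ₗ[ℝ] ℝ) -
    (LinearMap.proj b : (u → ℝ) →ₗ[ℝ] ℝ)
  have hk : vectorSpan ℝ (klPiece σ a b c) ≤ LinearMap.ker ℓ := by
    rw [vectorSpan, Submodule.span_le]
    rintro _ ⟨y, hy, y', hy', rfl⟩
    show (y a - y' a) - (y b - y' b) = 0
    rw [hy.2.1, hy'.2.1, sub_self]
  have h0 : w a - w b = 0 := hk hw
  exact sub_eq_zero.1 h0

end

/-- Steinberg relation: for `F - G = H`:
`dlog F ∧ dlog G = dlog F ∧ dlog H + dlog H ∧ dlog G`. -/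
theorem steinberg {F G H : A} (hF : z.v F ≠ 0) (hG : z.v G ≠ 0) (hH : z.v H ≠ 0)
    (e : F - G = H) {p q : ℕ} (c : (berLS K A).Stalk p q z) :
    (berLS K A).wdS (p + 1) q z ((berLS K A).dlS F hF)
        ((berLS K A).wdS p q z ((berLS K A).dlS G hG) c) =
      (berLS K A).wdS (p + 1) q z ((berLS K A).dlS F hF)
        ((berLS K A).wdS p q z ((berLS K A).dlS H hH) c) +
      (berLS K A).wdS (p + 1) q z ((berLS K A).dlS H hH)
        ((berLS K A).wdS p q z ((berLS K A).dlS G hG) c) := by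
  classical
  obtain ⟨θ, hθ, rfl⟩ := (berLS K A).exists_germ c
  unfold LogSpace.dlS
  rw [LogSpace.wdS_germ, LogSpace.wdS_germ, LogSpace.wdS_germ, LogSpace.wdS_germ,
    LogSpace.wdS_germ, ← LogSpace.germ_add, LogSpace.germ_eq_iff]
  obtain ⟨s, hs, hsd⟩ := hθ
  let u : Finset A := s ∪ {F, G, H}
  have hFu : F ∈ u := by simp [u]
  have hGu : G ∈ u := by simp [u]
  have hHu : H ∈ u := by simp [u]
  have hu : ∀ f ∈ u, z ∈ (berLS K A).dom f := by
    intro f hf
    simp only [u, Finset.mem_union, Finset.mem_insert, Finset.mem_singleton] at hf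
    rcases hf with hf | rfl | rfl | rfl
    · exact hsd f hf
    · exact hF
    · exact hG
    · exact hH
  have hev : ∀ᶠ z' in 𝓝 z, ∀ f' ∈ u, z' ∈ (berLS K A).dom f' := by
    rw [Filter.eventually_all_finset]
    exact fun f' hf' => ((berLS K A).isOpen_dom f').mem_nhds (hu f' hf')
  have hθu : IsSF u θ := hs.mono Finset.subset_union_left
  have hsf2 : ∀ f ∈ u, ∀ g ∈ u, IsSF u (wdg1 (dlg f) (wdg1 (dlg g) θ)) := fun f hf g hg =>
    IsSF.wdg1 (isSF_dlg hf) (IsSF.wdg1 (isSF_dlg hg) hθu)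
  refine ⟨u, ?_, {z' | ∀ f' ∈ u, z' ∈ (berLS K A).dom f'}, hev, fun f' hf' z' hz' => hz' f' hf',
    ?_⟩
  · have h1 := (hsf2 F hFu H hHu).add (hsf2 H hHu G hGu)
    have h2 := (hsf2 F hFu G hGu).add (h1.smul (-1))
    have h3 : wdg1 (dlg F) (wdg1 (dlg G) θ) + (-1 : ℝ) • (wdg1 (dlg F) (wdg1 (dlg H) θ) +
        wdg1 (dlg H) (wdg1 (dlg G) θ)) = wdg1 (dlg F) (wdg1 (dlg G) θ) -
        (wdg1 (dlg F) (wdg1 (dlg H) θ) + wdg1 (dlg H) (wdg1 (dlg G) θ)) := by
      rw [neg_one_smul, sub_eq_add_neg]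
    rw [← h3]
    exact h2
  · intro σ hσ hσP x w v hx hw hv
    have hcov : σ ⊆ ⋃ i, (![klPiece σ ⟨F, hFu⟩ ⟨G, hGu⟩ ⟨H, hHu⟩,
        klPiece σ ⟨F, hFu⟩ ⟨H, hHu⟩ ⟨G, hGu⟩,
        klPiece σ ⟨G, hGu⟩ ⟨H, hHu⟩ ⟨F, hFu⟩] : Fin 3 → Set (u → ℝ)) i := by
      intro y hy
      obtain ⟨z', hz', rfl⟩ := hσP hy
      have hF0 : 0 < z'.v F := lt_of_le_of_ne (z'.nonneg F) (Ne.symm (hz' F hFu))
      have hG0 : 0 < z'.v G := lt_of_le_of_ne (z'.nonneg G) (Ne.symm (hz' G hGu))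
      have hH0 : 0 < z'.v H := lt_of_le_of_ne (z'.nonneg H) (Ne.symm (hz' H hHu))
      have hFe : F = G + H := by rw [← e]; ring
      rw [Set.mem_iUnion]
      rcases lt_trichotomy (z'.v G) (z'.v H) with h | h | h
      · refine ⟨1, hy, ?_, ?_⟩
        · show Real.log (z'.v F) = Real.log (z'.v H)
          rw [hFe, add_comm, z'.add_eq h]
        · show Real.log (z'.v G) ≤ Real.log (z'.v F)
          rw [hFe, add_comm, z'.add_eq h]
          exact Real.log_le_log hG0 h.le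
      · refine ⟨2, hy, ?_, ?_⟩
        · show Real.log (z'.v G) = Real.log (z'.v H)
          rw [h]
        · show Real.log (z'.v F) ≤ Real.log (z'.v G)
          apply Real.log_le_log hF0
          rw [hFe]
          exact (z'.add G H).trans (max_le le_rfl h.ge)
      · refine ⟨0, hy, ?_, ?_⟩
        · show Real.log (z'.v F) = Real.log (z'.v G)
          rw [hFe, z'.add_eq h]
        · show Real.log (z'.v H) ≤ Real.log (z'.v F)
          rw [hFe, z'.add_eq h]
          exact Real.log_le_log hH0 h.le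
    obtain ⟨i, -, hi⟩ := exists_vectorSpan_eq hσ ⟨_, hx⟩ _ (by
      intro i
      fin_cases i
      · exact klPiece_convex hσ _ _ _
      · exact klPiece_convex hσ _ _ _
      · exact klPiece_convex hσ _ _ _) (by
      intro i
      fin_cases i
      · exact fun y hy => hy.1
      · exact fun y hy => hy.1
      · exact fun y hy => hy.1) hcov
    show wdg1 (dlg F) (wdg1 (dlg G) θ) x w v - (wdg1 (dlg F) (wdg1 (dlg H) θ) x w v +
      wdg1 (dlg H) (wdg1 (dlg G) θ) x w v) = 0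
    rw [← hi] at hv
    fin_cases i
    · have hFG : ∀ j, v j F = v j G := fun j => klPiece_span (hv j)
      have h1 : wdg1 (dlg F) (wdg1 (dlg G) θ) x w v = wdg1 (dlg F) (wdg1 (dlg F) θ) x w v :=
        kl_wdg_congr (fun _ => rfl) (fun j => (hFG j).symm)
      have h2 : wdg1 (dlg H) (wdg1 (dlg G) θ) x w v = wdg1 (dlg H) (wdg1 (dlg F) θ) x w v :=
        kl_wdg_congr (fun _ => rfl) (fun j => (hFG j).symm)
      have h3 : wdg1 (dlg F) (wdg1 (dlg F) θ) x w v = - wdg1 (dlg F) (wdg1 (dlg F) θ) x w v :=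
        kl_anti hθu
      have h4 : wdg1 (dlg F) (wdg1 (dlg H) θ) x w v = - wdg1 (dlg H) (wdg1 (dlg F) θ) x w v :=
        kl_anti hθu
      linarith
    · have hFH : ∀ j, v j F = v j H := fun j => klPiece_span (hv j)
      have h1 : wdg1 (dlg F) (wdg1 (dlg H) θ) x w v = wdg1 (dlg F) (wdg1 (dlg F) θ) x w v :=
        kl_wdg_congr (fun _ => rfl) (fun j => (hFH j).symm)
      have h2 : wdg1 (dlg H) (wdg1 (dlg G) θ) x w v = wdg1 (dlg F) (wdg1 (dlg G) θ) x w v :=
        kl_wdg_congr (fun j => (hFH j).symm) (fun _ => rfl)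
      have h3 : wdg1 (dlg F) (wdg1 (dlg F) θ) x w v = - wdg1 (dlg F) (wdg1 (dlg F) θ) x w v :=
        kl_anti hθu
      linarith
    · have hGH : ∀ j, v j G = v j H := fun j => klPiece_span (hv j)
      have h1 : wdg1 (dlg F) (wdg1 (dlg H) θ) x w v = wdg1 (dlg F) (wdg1 (dlg G) θ) x w v :=
        kl_wdg_congr (fun _ => rfl) (fun j => (hGH j).symm)
      have h2 : wdg1 (dlg H) (wdg1 (dlg G) θ) x w v = wdg1 (dlg G) (wdg1 (dlg G) θ) x w v :=
        kl_wdg_congr (fun j => (hGH j).symm) (fun _ => rfl)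
      have h3 : wdg1 (dlg G) (wdg1 (dlg G) θ) x w v = - wdg1 (dlg G) (wdg1 (dlg G) θ) x w v :=
        kl_anti hθu
      linarith

end Pool.Agent.TD


end

section

/-! Block U1: independence at Gauss points. -/

open scoped ContDiff Topology
open Polynomial

namespace Pool.Agent.TD

variable {K R : Type} [NormedField K] [CommRing R] [Algebra K R]

namespace U1

theorem shp_C (b d a : R) : shp b d (C a) = C a := by
  rw [shp]
  simp

theorem natDegree_lin (b d : R) (hd : d ≠ 0) : (C d * X - C b : R[X]).natDegree = 1 := by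
  rw [natDegree_sub_C, natDegree_C_mul_X d hd]

theorem shp_lin (b d : R) (hd : d ≠ 0) : shp b d (C d * X - C b) = C d * X := by
  have h1 : (C d * X - C b : R[X]).scaleRoots d = C d * X - C (b * d) := by
    ext i
    rw [coeff_scaleRoots, natDegree_lin b d hd]
    rcases i with _ | _ | i
    · simp
    · simp
    · simp
  rw [shp, h1]
  simp only [sub_comp, mul_comp, C_comp, X_comp, C_mul]
  ring

/-- The vector span of a product with an interval. -/
theorem mem_vectorSpan_prod {E : Type} [AddCommGroup E] [Module ℝ E] {σ : Set E} {I : Set ℝ}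
    (hσ : σ.Nonempty) {t₀ t₁ : ℝ} (h0 : t₀ ∈ I) (h1 : t₁ ∈ I) (hne : t₀ ≠ t₁) {s : E}
    (hs : s ∈ vectorSpan ℝ σ) (t : ℝ) : (s, t) ∈ vectorSpan ℝ (σ ×ˢ I) := by
  have e1 : ((s, 0) : E × ℝ) ∈ vectorSpan ℝ (σ ×ˢ I) := by
    have h2 : vectorSpan ℝ σ ≤ (vectorSpan ℝ (σ ×ˢ I)).comap (LinearMap.inl ℝ E ℝ) := by
      rw [vectorSpan, Submodule.span_le]
      rintro _ ⟨a, ha, c, hc, rfl⟩
      show (LinearMap.inl ℝ E ℝ) (a - c) ∈ vectorSpan ℝ (σ ×ˢ I)
      have h3 := vsub_mem_vectorSpan ℝ (s := σ ×ˢ I) (p₁ := (a, t₀)) (p₂ := (c, t₀))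
        ⟨ha, h0⟩ ⟨hc, h0⟩
      have h4 : ((a, t₀) : E × ℝ) -ᵥ (c, t₀) = (LinearMap.inl ℝ E ℝ) (a - c) := by
        ext
        · rfl
        · show t₀ - t₀ = 0
          ring
      rwa [h4] at h3
    exact h2 hs
  have e2 : ((0, t) : E × ℝ) ∈ vectorSpan ℝ (σ ×ˢ I) := by
    obtain ⟨a, ha⟩ := hσ
    have h3 := vsub_mem_vectorSpan ℝ (s := σ ×ˢ I) (p₁ := (a, t₁)) (p₂ := (a, t₀))
        ⟨ha, h1⟩ ⟨ha, h0⟩
    have h4 := Submodule.smul_mem _ (t / (t₁ - t₀)) h3
    have h5 : (t / (t₁ - t₀)) • (((a, t₁) : E × ℝ) -ᵥ (a, t₀)) = (0, t) := by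
      have h6 : t₁ - t₀ ≠ 0 := sub_ne_zero.mpr (Ne.symm hne)
      ext
      · show (t / (t₁ - t₀)) • (a - a) = 0
        rw [sub_self, smul_zero]
      · show (t / (t₁ - t₀)) * (t₁ - t₀) = t
        field_simp
    rwa [h5] at h4
  have e3 := Submodule.add_mem _ e1 e2
  have e4 : ((s, 0) : E × ℝ) + (0, t) = (s, t) := by
    ext
    · show s + 0 = s
      rw [add_zero]
    · show 0 + t = t
      rw [zero_add]
  rwa [e4] at e3

theorem isSF_congr {Φ : Type} {p : ℕ} {s : Finset Φ} {θ : Raw Φ p 0} (h : IsSF s θ)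
    (hc : IsCst θ) {x x' : Φ → ℝ} {w w' : Fin 0 → Φ → ℝ} {v v' : Fin p → Φ → ℝ}
    (hv : ∀ j, ∀ a ∈ s, v j a = v' j a) : θ x w v = θ x' w' v' := by
  rw [hc x x' w v]
  obtain ⟨α, -, hα⟩ := h
  rw [hα, hα]
  have h1 : (fun j => rs s (v j)) = fun j => rs s (v' j) := by
    funext j a
    exact hv j a a.2
  have h2 : (fun i => rs s (w i)) = fun i => rs s (w' i) := by
    funext i
    exact i.elim0
  rw [h1, h2]

/-- The term of degree `i` in the value of `f` at a Gauss point. -/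
noncomputable def trm (b d : R) (f : R[X]) (i : ℕ) (x : Ber K R) (r : ℝ) : ℝ :=
  x.v ((shp b d f).coeff i) * (x.v d * r) ^ i / x.v d ^ f.natDegree

theorem continuousAt_trm (b d : R) (f : R[X]) (i : ℕ) (y : Ber K R) (hd : y.v d ≠ 0) (ρ : ℝ) :
    ContinuousAt (fun q : Ber K R × ℝ => trm b d f i q.1 q.2) (y, ρ) := by
  unfold trm
  have h1 : ∀ a : R, Continuous (fun q : Ber K R × ℝ => q.1.v a) := fun a =>
    (Ber.continuous_v a).comp continuous_fst
  apply ContinuousAt.div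
  · exact ((h1 _).mul (((h1 d).mul continuous_snd).pow i)).continuousAt
  · exact ((h1 d).pow _).continuousAt
  · exact pow_ne_zero _ hd

open Classical in
/-- The exponents with a coefficient which does not vanish at `y`. -/
noncomputable def Kf (b d : R) (y : Ber K R) (f : R[X]) : Finset ℕ :=
  (Finset.range (f.natDegree + 1)).filter (fun i => y.v ((shp b d f).coeff i) ≠ 0)

theorem mem_Kf {b d : R} {y : Ber K R} {f : R[X]} {i : ℕ} :
    i ∈ Kf b d y f ↔ i ≤ f.natDegree ∧ y.v ((shp b d f).coeff i) ≠ 0 := by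
  classical
  rw [Kf, Finset.mem_filter, Finset.mem_range, Nat.lt_succ_iff]

theorem log_trm {b d : R} {f : R[X]} {i : ℕ} {x : Ber K R} (hd : x.v d ≠ 0)
    (h : x.v ((shp b d f).coeff i) ≠ 0) (t : ℝ) :
    Real.log (trm b d f i x (Real.exp t)) = Real.log (x.v ((shp b d f).coeff i)) +
      i * (Real.log (x.v d) + t) - f.natDegree * Real.log (x.v d) := by
  have h1 : x.v d * Real.exp t ≠ 0 := mul_ne_zero hd (Real.exp_ne_zero t)
  rw [trm, Real.log_div (mul_ne_zero h (pow_ne_zero _ h1)) (pow_ne_zero _ hd),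
    Real.log_mul h (pow_ne_zero _ h1), Real.log_pow, Real.log_pow, Real.log_mul hd
    (Real.exp_ne_zero t), Real.log_exp]

theorem trm_pos {b d : R} {f : R[X]} {i : ℕ} {x : Ber K R} (hd : x.v d ≠ 0)
    (h : x.v ((shp b d f).coeff i) ≠ 0) (t : ℝ) : 0 < trm b d f i x (Real.exp t) := by
  have h1 : 0 < x.v d := lt_of_le_of_ne (x.nonneg _) (Ne.symm hd)
  have h2 : 0 < x.v ((shp b d f).coeff i) := lt_of_le_of_ne (x.nonneg _) (Ne.symm h)
  have h3 := Real.exp_pos t
  rw [trm]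
  positivity

theorem key {P : ℕ} (b d : R) (y : Ber K R) (hd : y.v d ≠ 0) (ρ : ℝ) (hρ : 0 < ρ)
    (z : Ber K R[X]) (hz : IsGz b d y ρ z) (θ : Raw R[X] P 0) (hθ : IsCst θ)
    (h : (berLS K R[X]).Van z θ) (s₀ : Finset R) (hs₀ : ∀ a ∈ s₀, y.v a ≠ 0) :
    ∃ u : Finset R, s₀ ⊆ u ∧ ∃ W ∈ 𝓝 y, (∀ a ∈ u, W ⊆ (berLS K R).dom a) ∧
      ∀ σ : Set (u → ℝ), Convex ℝ σ → σ.Nonempty → σ ⊆ (berLS K R).trop u '' W →
        ∀ (v : Fin P → R → ℝ) (τ : Fin P → ℝ), (∀ j, rs u (v j) ∈ vectorSpan ℝ σ) →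
          ∃ V : Fin P → R[X] → ℝ, (∀ j, ∀ a ∈ s₀, V j (C a) = v j a) ∧
            (∀ j, V j (C d * X - C b) = v j d + τ j) ∧ ∀ x w, θ x w V = 0 := by
  classical
  have hd0 : d ≠ 0 := by
    rintro rfl
    exact hd y.zero
  obtain ⟨u, -, V, hV, hVd, hv⟩ := h
  let u₁ : Finset R[X] := u ∪ (s₀.image C ∪ {C d * X - C b})
  have hu₁ : u ⊆ u₁ := Finset.subset_union_left
  have hC₁ : ∀ a ∈ s₀, C a ∈ u₁ := fun a ha => Finset.mem_union_right _
    (Finset.mem_union_left _ (Finset.mem_image_of_mem _ ha))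
  have hF₁ : C d * X - C b ∈ u₁ := Finset.mem_union_right _
    (Finset.mem_union_right _ (Finset.mem_singleton_self _))
  have hz₁ : ∀ f ∈ u₁, 0 < z.v f := by
    intro f hf
    refine lt_of_le_of_ne (z.nonneg f) (Ne.symm ?_)
    rcases Finset.mem_union.mp hf with hf | hf
    · exact hVd f hf (mem_of_mem_nhds hV)
    · rcases Finset.mem_union.mp hf with hf | hf
      · obtain ⟨a, ha, rfl⟩ := Finset.mem_image.mp hf
        rw [gz_C b d y hd ρ hρ z hz]
        exact hs₀ a ha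
      · rw [Finset.mem_singleton.mp hf, gz_lin b d y hd ρ hρ z hz]
        exact mul_ne_zero hd hρ.ne'
  -- the neighbourhood of `z`
  let V₂ : Set (Ber K R[X]) := V ∩ {z' | ∀ f ∈ u₁, z.v f / 2 < z'.v f}
  have hV₂ : V₂ ∈ 𝓝 z := by
    refine Filter.inter_mem hV ?_
    have h1 : ∀ᶠ z' in 𝓝 z, ∀ f ∈ u₁, z.v f / 2 < z'.v f := by
      rw [Filter.eventually_all_finset]
      intro f hf
      have h2 : IsOpen {z' : Ber K R[X] | z.v f / 2 < z'.v f} :=
        isOpen_lt continuous_const (Ber.continuous_v f)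
      refine h2.mem_nhds ?_
      show z.v f / 2 < z.v f
      linarith [hz₁ f hf]
    exact h1
  have hvan : VanOn u₁ θ ((berLS K R[X]).trop u₁ '' V₂) := by
    refine VanOn.refine hu₁ (P := (berLS K R[X]).trop u '' V) ?_ hv
    rintro _ ⟨_, ⟨z', hz', rfl⟩, rfl⟩
    exact ⟨z', hz'.1, ((berLS K R[X]).rst_trop hu₁ z').symm⟩
  obtain ⟨W, hW, ε, hε, hερ, hWε⟩ := gz_nhds b d y hd ρ hρ z hz V₂ hV₂
  -- the terms which are small
  have hsm : ∀ᶠ q in 𝓝 ((y, ρ) : Ber K R × ℝ), ∀ f ∈ u₁, ∀ i ∈ Finset.range (f.natDegree + 1),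
      i ∉ Kf b d y f → trm b d f i q.1 q.2 < z.v f / 2 := by
    rw [Filter.eventually_all_finset]
    intro f hf
    rw [Filter.eventually_all_finset]
    intro i hi
    by_cases hiK : i ∈ Kf b d y f
    · exact Filter.Eventually.of_forall fun q h => absurd hiK h
    · have h1 : trm b d f i y ρ < z.v f / 2 := by
        have h2 : y.v ((shp b d f).coeff i) = 0 := by
          by_contra h3
          exact hiK (mem_Kf.mpr ⟨Nat.lt_succ_iff.mp (Finset.mem_range.mp hi), h3⟩)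
        rw [trm, h2, zero_mul, zero_div]
        linarith [hz₁ f hf]
      have h2 := (continuousAt_trm b d f i y hd ρ).eventually (Iio_mem_nhds h1)
      exact h2.mono fun q hq _ => hq
  rw [nhds_prod_eq, Filter.eventually_prod_iff] at hsm
  obtain ⟨pa, hpa, pb, hpb, hsm⟩ := hsm
  rw [Metric.eventually_nhds_iff] at hpb
  obtain ⟨ε₁, hε₁, hpb⟩ := hpb
  -- the functions on the base
  let u₂ : Finset R := insert d s₀ ∪
    u₁.biUnion (fun f => (Kf b d y f).image (fun i => (shp b d f).coeff i))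
  have hd₂ : d ∈ u₂ := Finset.mem_union_left _ (Finset.mem_insert_self _ _)
  have hs₂ : s₀ ⊆ u₂ := fun a ha => Finset.mem_union_left _ (Finset.mem_insert_of_mem ha)
  have hg₂ : ∀ f ∈ u₁, ∀ i ∈ Kf b d y f, (shp b d f).coeff i ∈ u₂ := by
    intro f hf i hi
    exact Finset.mem_union_right _ (Finset.mem_biUnion.mpr ⟨f, hf,
      Finset.mem_image_of_mem (fun i => (shp b d f).coeff i) hi⟩)
  have hy₂ : ∀ a ∈ u₂, y.v a ≠ 0 := by
    intro a ha
    rcases Finset.mem_union.mp ha with ha | ha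
    · rcases Finset.mem_insert.mp ha with rfl | ha
      · exact hd
      · exact hs₀ a ha
    · obtain ⟨f, hf, ha⟩ := Finset.mem_biUnion.mp ha
      obtain ⟨i, hi, rfl⟩ := Finset.mem_image.mp ha
      exact (mem_Kf.mp hi).2
  have hW₂ : ∀ᶠ x in 𝓝 y, ∀ a ∈ u₂, x ∈ (berLS K R).dom a := by
    rw [Filter.eventually_all_finset]
    exact fun a ha => ((berLS K R).isOpen_dom a).mem_nhds (hy₂ a ha)
  let W₃ : Set (Ber K R) := W ∩ ({x | pa x} ∩ {x | ∀ a ∈ u₂, x ∈ (berLS K R).dom a})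
  have hW₃ : W₃ ∈ 𝓝 y := Filter.inter_mem hW (Filter.inter_mem hpa hW₂)
  refine ⟨u₂, hs₂, W₃, hW₃, fun a ha x hx => hx.2.2 a ha, ?_⟩
  intro σ hσ hσne hσW v τ hvσ
  -- the interval
  let ε₂ : ℝ := min ε ε₁
  have hε₂ : 0 < ε₂ := lt_min hε hε₁
  let I : Set ℝ := {t | |Real.exp t - ρ| < ε₂}
  have hI : Convex ℝ I := by
    apply Set.OrdConnected.convex
    constructor
    intro a ha c hc t ht
    have h1 := Real.exp_le_exp.mpr ht.1
    have h2 := Real.exp_le_exp.mpr ht.2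
    have h3 := abs_lt.mp (show |Real.exp a - ρ| < ε₂ from ha)
    have h4 := abs_lt.mp (show |Real.exp c - ρ| < ε₂ from hc)
    show |Real.exp t - ρ| < ε₂
    rw [abs_lt]
    constructor <;> linarith [h3.1, h3.2, h4.1, h4.2]
  have hI0 : Real.log ρ ∈ I := by
    show |Real.exp (Real.log ρ) - ρ| < ε₂
    rw [Real.exp_log hρ, sub_self, abs_zero]
    exact hε₂
  have hI1 : Real.log (ρ + ε₂ / 2) ∈ I := by
    show |Real.exp (Real.log (ρ + ε₂ / 2)) - ρ| < ε₂
    rw [Real.exp_log (by linarith), add_sub_cancel_left, abs_of_pos (by linarith)]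
    linarith
  have hI2 : Real.log ρ ≠ Real.log (ρ + ε₂ / 2) := by
    intro h1
    have h2 := congrArg Real.exp h1
    rw [Real.exp_log hρ, Real.exp_log (by linarith)] at h2
    linarith
  -- the affine functions
  have hne : ∀ f : u₁, Nonempty (Kf b d y (f : R[X])) := by
    intro f
    obtain ⟨-, i, hi, h1⟩ := gz_eq b d y hd ρ hρ (f : R[X])
    refine ⟨⟨i, mem_Kf.mpr ⟨hi, ?_⟩⟩⟩
    intro h2
    have h3 := hz₁ f f.2
    rw [hz, ← h1, h2, zero_mul, zero_div] at h3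
    exact lt_irrefl _ h3
  let l : ∀ f : u₁, Kf b d y (f : R[X]) → ((u₂ → ℝ) × ℝ) →ₗ[ℝ] ℝ := fun f i =>
    (LinearMap.proj (⟨(shp b d (f : R[X])).coeff i, hg₂ f f.2 i i.2⟩ : u₂)).comp
        (LinearMap.fst ℝ (u₂ → ℝ) ℝ) +
      ((i : ℕ) : ℝ) • ((LinearMap.proj (⟨d, hd₂⟩ : u₂)).comp (LinearMap.fst ℝ (u₂ → ℝ) ℝ) +
        LinearMap.snd ℝ (u₂ → ℝ) ℝ)
  have hl : ∀ (f : u₁) (i : Kf b d y (f : R[X])) (s : u₂ → ℝ) (t : ℝ), l f i (s, t) =
      s ⟨(shp b d (f : R[X])).coeff i, hg₂ f f.2 i i.2⟩ + ((i : ℕ) : ℝ) * (s ⟨d, hd₂⟩ + t) :=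
    fun _ _ _ _ => rfl
  obtain ⟨Cx, hC1, ⟨q₀, hq₀⟩, hC3, hC4, m, hm⟩ := exists_max_affine (σ := σ ×ˢ I)
    (hσ.prod hI) (hσne.prod ⟨_, hI0⟩) (fun f i => (l f i).toAffineMap)
  let Λ : ((u₂ → ℝ) × ℝ) →ₗ[ℝ] (u₁ → ℝ) := LinearMap.pi fun f =>
    l f (m f) - (((f : R[X]).natDegree : ℕ) : ℝ) •
      ((LinearMap.proj (⟨d, hd₂⟩ : u₂)).comp (LinearMap.fst ℝ (u₂ → ℝ) ℝ))
  have hΛ : ∀ (f : u₁) (s : u₂ → ℝ) (t : ℝ), Λ (s, t) f =
      s ⟨(shp b d (f : R[X])).coeff (m f), hg₂ f f.2 (m f) (m f).2⟩ +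
        (((m f : ℕ)) : ℝ) * (s ⟨d, hd₂⟩ + t) -
        (((f : R[X]).natDegree : ℕ) : ℝ) * s ⟨d, hd₂⟩ := fun _ _ _ => rfl
  have hA : ∀ q ∈ Cx, Λ q ∈ (berLS K R[X]).trop u₁ '' V₂ := by
    rintro ⟨s, t⟩ hq
    obtain ⟨hs, ht⟩ := hC3 hq
    obtain ⟨x, hx, hxs⟩ := hσW hs
    have hs' : ∀ a (ha : a ∈ u₂), s ⟨a, ha⟩ = Real.log (x.v a) := by
      intro a ha
      rw [show s = (berLS K R).trop u₂ x from hxs.symm]
      rfl
    have ht' : |Real.exp t - ρ| < ε₂ := ht
    have htε : |Real.exp t - ρ| < ε := lt_of_lt_of_le ht' (min_le_left _ _)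
    have htε₁ : dist (Real.exp t) ρ < ε₁ := by
      rw [Real.dist_eq]
      exact lt_of_lt_of_le ht' (min_le_right _ _)
    obtain ⟨hxd, hxW⟩ := hWε x hx.1
    obtain ⟨z', hz'⟩ := exists_gz b d x hxd (Real.exp t) (Real.exp_pos t)
    have hzV : z' ∈ V₂ := hxW _ htε z' hz'
    refine ⟨z', hzV, ?_⟩
    funext f
    rw [hΛ, hs', hs']
    show Real.log (z'.v f) = _
    obtain ⟨h1, i, hi, h2⟩ := gz_eq b d x hxd (Real.exp t) (Real.exp_pos t) (f : R[X])
    have hM : z.v f / 2 < z'.v f := hzV.2 f f.2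
    rw [← hz' f] at h1 h2
    have hiK : i ∈ Kf b d y (f : R[X]) := by
      by_contra hiK
      have h3 := hsm hx.2.1 (hpb htε₁) f f.2 i (Finset.mem_range.mpr (Nat.lt_succ_iff.mpr hi)) hiK
      have h4 : trm b d (f : R[X]) i x (Real.exp t) = z'.v f := h2
      rw [h4] at h3
      linarith
    have hgi : ∀ j ∈ Kf b d y (f : R[X]), x.v ((shp b d (f : R[X])).coeff j) ≠ 0 :=
      fun j hj => hx.2.2 _ (hg₂ f f.2 j hj)
    have h5 := hm (s, t) hq f ⟨i, hiK⟩
    have h6 : l f ⟨i, hiK⟩ (s, t) ≤ l f (m f) (s, t) := h5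
    rw [hl, hl, hs', hs', hs'] at h6
    have h7 := log_trm (b := b) (f := (f : R[X])) hxd (hgi i hiK) t
    have h8 := log_trm (b := b) (f := (f : R[X])) hxd (hgi (m f) (m f).2) t
    have h9 : trm b d (f : R[X]) i x (Real.exp t) = z'.v f := h2
    have h10 : trm b d (f : R[X]) (m f) x (Real.exp t) ≤ z'.v f :=
      h1 (m f) (mem_Kf.mp (m f).2).1
    have h11 := Real.log_le_log (trm_pos (b := b) (f := (f : R[X])) hxd (hgi (m f) (m f).2) t) h10
    rw [h9] at h7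
    rw [h8] at h11
    apply le_antisymm
    · rw [h7]
      linarith
    · exact h11
  -- the vectors
  have hvec : ∀ j, ((rs u₂ (v j), τ j) : (u₂ → ℝ) × ℝ) ∈ vectorSpan ℝ Cx := by
    intro j
    rw [hC4]
    exact mem_vectorSpan_prod hσne hI0 hI1 hI2 (hvσ j) (τ j)
  choose V' hV' using fun j => rs_surjective u₁ (Λ (rs u₂ (v j), τ j))
  have hco : ∀ j (f : R[X]) (hf : f ∈ u₁), V' j f =
      v j ((shp b d f).coeff (m ⟨f, hf⟩)) + ((m ⟨f, hf⟩ : ℕ) : ℝ) * (v j d + τ j) -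
        ((f.natDegree : ℕ) : ℝ) * v j d := by
    intro j f hf
    have h1 := congrFun (hV' j) ⟨f, hf⟩
    rw [hΛ] at h1
    exact h1
  refine ⟨V', ?_, ?_, ?_⟩
  · intro j a ha
    rw [hco j _ (hC₁ a ha)]
    have h1 := (mem_Kf.mp (m ⟨C a, hC₁ a ha⟩).2).1
    rw [natDegree_C, Nat.le_zero] at h1
    rw [h1, shp_C, coeff_C_zero, natDegree_C]
    simp
  · intro j
    rw [hco j _ hF₁]
    obtain ⟨h1, h2⟩ := mem_Kf.mp (m ⟨C d * X - C b, hF₁⟩).2
    rw [natDegree_lin b d hd0] at h1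
    have h3 : ((m ⟨C d * X - C b, hF₁⟩ : ℕ)) = 1 := by
      rcases Nat.le_one_iff_eq_zero_or_eq_one.mp h1 with h3 | h3
      · exfalso
        rw [h3, shp_lin b d hd0] at h2
        apply h2
        simp [y.zero]
      · exact h3
    rw [h3, shp_lin b d hd0, natDegree_lin b d hd0]
    simp
  · intro x w
    obtain ⟨x₁, hx₁⟩ := rs_surjective u₁ (Λ q₀)
    rw [hθ x x₁]
    apply hvan (Λ '' Cx) (hC1.linear_image Λ)
    · rintro _ ⟨q, hq, rfl⟩
      exact hA q hq
    · rw [hx₁]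
      exact ⟨q₀, hq₀, rfl⟩
    · intro i
      exact i.elim0
    · intro j
      rw [hV' j]
      exact vectorSpan_map_mem Λ (hvec j)

end U1

/-- Base forms are determined by their pull back to a Gauss point. -/
theorem gz_inj {p : ℕ} (b d : R) (y : Ber K R) (hd : y.v d ≠ 0) (ρ : ℝ) (hρ : 0 < ρ)
    (z : Ber K R[X]) (hz : IsGz b d y ρ z) (x0 : Raw R p 0) (hx : IsCst x0)
    (hx' : (berLS K R).SFat y x0) (h : (berLS K R[X]).Van z (pullR (prX K R).ix x0)) :
    (berLS K R).Van y x0 := by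
  obtain ⟨s, hs, hsd⟩ := hx'
  have hcst : IsCst (pullR (prX K R).ix x0) := fun x x' w v => hx _ _ _ _
  obtain ⟨u, hsu, W, hW, hWd, hkey⟩ := U1.key b d y hd ρ hρ z hz _ hcst h s hsd
  refine ⟨u, hs.mono hsu, W, hW, hWd, ?_⟩
  intro σ hσ hσW x w v hxσ _ hvσ
  obtain ⟨V, hV1, -, hV3⟩ := hkey σ hσ ⟨_, hxσ⟩ hσW v 0 hvσ
  have h1 := hV3 0 (fun i => i.elim0)
  have h2 : x0 ((0 : R[X] → ℝ) ∘ (prX K R).ix) (fun i : Fin 0 => (i.elim0 : R → ℝ))
      (fun j => V j ∘ (prX K R).ix) = 0 := by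
    rw [← h1]
    exact U1.isSF_congr hs hx fun j a _ => rfl
  rw [← h2]
  exact U1.isSF_congr hs hx fun j a ha => (hV1 j a ha).symm

/-- `x0 + dlog |d X - b| ∧ v = 0` implies `x0 = 0`, `v = 0`. -/
theorem gz_ind {p : ℕ} (b d : R) (y : Ber K R) (hd : y.v d ≠ 0) (ρ : ℝ) (hρ : 0 < ρ)
    (z : Ber K R[X]) (hz : IsGz b d y ρ z) (x0 : Raw R (p + 1) 0) (hx : IsCst x0)
    (hx' : (berLS K R).SFat y x0) (v0 : Raw R p 0) (hv : IsCst v0)
    (hv' : (berLS K R).SFat y v0)
    (h : (berLS K R[X]).Van z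
      (pullR (prX K R).ix x0 + wdg1 (dlg (C d * X - C b)) (pullR (prX K R).ix v0))) :
    (berLS K R).Van y x0 ∧ (berLS K R).Van y v0 := by
  obtain ⟨s, hs, hs', hsd⟩ := LogSpace.SFat.common (berLS K R) hx' hv'
  have hcst : IsCst (pullR (prX K R).ix x0 +
      wdg1 (dlg (C d * X - C b)) (pullR (prX K R).ix v0)) := by
    intro x x' w v
    show x0 _ _ _ + ∑ j : Fin (p + 1), (-1 : ℝ) ^ (j : ℕ) * v j (C d * X - C b) * v0 _ _ _ =
      x0 _ _ _ + ∑ j : Fin (p + 1), (-1 : ℝ) ^ (j : ℕ) * v j (C d * X - C b) * v0 _ _ _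
    rw [hx (x ∘ (prX K R).ix) (x' ∘ (prX K R).ix)]
    congr 1
    refine Finset.sum_congr rfl fun j _ => ?_
    rw [hv (x ∘ (prX K R).ix) (x' ∘ (prX K R).ix)]
  obtain ⟨u, hsu, W, hW, hWd, hkey⟩ := U1.key b d y hd ρ hρ z hz _ hcst h s hsd
  -- the relation
  have hrel : ∀ σ : Set (u → ℝ), Convex ℝ σ → σ.Nonempty → σ ⊆ (berLS K R).trop u '' W →
      ∀ (x : R → ℝ) (w : Fin 0 → R → ℝ) (v : Fin (p + 1) → R → ℝ) (τ : Fin (p + 1) → ℝ),
        (∀ j, rs u (v j) ∈ vectorSpan ℝ σ) →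
        x0 x w v + ∑ j : Fin (p + 1), (-1 : ℝ) ^ (j : ℕ) * (v j d + τ j) *
          v0 x w (fun i => v (j.succAbove i)) = 0 := by
    intro σ hσ hne hσW x w v τ hvσ
    obtain ⟨V, hV1, hV2, hV3⟩ := hkey σ hσ hne hσW v τ hvσ
    have h1 : x0 ((0 : R[X] → ℝ) ∘ (prX K R).ix) (fun i : Fin 0 => (i.elim0 : R[X] → ℝ) ∘ (prX K R).ix)
        (fun j => V j ∘ (prX K R).ix) + ∑ j : Fin (p + 1), (-1 : ℝ) ^ (j : ℕ) *
          V j (C d * X - C b) * v0 ((0 : R[X] → ℝ) ∘ (prX K R).ix)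
            (fun i : Fin 0 => (i.elim0 : R[X] → ℝ) ∘ (prX K R).ix)
            (fun i => V (j.succAbove i) ∘ (prX K R).ix) = 0 := hV3 0 (fun i => i.elim0)
    rw [← h1]
    congr 1
    · exact U1.isSF_congr hs hx fun j a ha => (hV1 j a ha).symm
    · refine Finset.sum_congr rfl fun j _ => ?_
      rw [hV2 j]
      congr 1
      exact U1.isSF_congr hs' hv fun i a ha => (hV1 _ a ha).symm
  have hv0 : ∀ σ : Set (u → ℝ), Convex ℝ σ → σ.Nonempty → σ ⊆ (berLS K R).trop u '' W →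
      ∀ (x : R → ℝ) (w : Fin 0 → R → ℝ) (v : Fin p → R → ℝ),
        (∀ j, rs u (v j) ∈ vectorSpan ℝ σ) → v0 x w v = 0 := by
    intro σ hσ hne hσW x w v hvσ
    have hv1 : ∀ j, rs u ((Fin.cons 0 v : Fin (p + 1) → R → ℝ) j) ∈ vectorSpan ℝ σ := by
      intro j
      refine Fin.cases ?_ (fun i => ?_) j
      · rw [Fin.cons_zero, rs_zero]
        exact Submodule.zero_mem _
      · rw [Fin.cons_succ]
        exact hvσ i
    have e1 := hrel σ hσ hne hσW x w (Fin.cons 0 v : Fin (p + 1) → R → ℝ) 0 hv1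
    have e2 := hrel σ hσ hne hσW x w (Fin.cons 0 v : Fin (p + 1) → R → ℝ)
      (Fin.cons 1 0 : Fin (p + 1) → ℝ) hv1
    rw [Fin.sum_univ_succ] at e1 e2
    simp only [Pi.zero_apply, add_zero, Fin.cons_zero, Fin.cons_succ, Fin.val_zero, pow_zero,
      one_mul, zero_add, Fin.succAbove_zero, mul_zero, zero_mul] at e1 e2
    linarith
  constructor
  · refine ⟨u, hs.mono hsu, W, hW, hWd, ?_⟩
    intro σ hσ hσW x w v hxσ _ hvσ
    have e1 := hrel σ hσ ⟨_, hxσ⟩ hσW x w v 0 hvσ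
    rw [Finset.sum_eq_zero, add_zero] at e1
    · exact e1
    · intro j _
      rw [hv0 σ hσ ⟨_, hxσ⟩ hσW x w _ (fun i => hvσ _), mul_zero]
  · refine ⟨u, hs'.mono hsu, W, hW, hWd, ?_⟩
    intro σ hσ hσW x w v hxσ _ hvσ
    exact hv0 σ hσ ⟨_, hxσ⟩ hσW x w v hvσ

end Pool.Agent.TD


end

section

/-! Block U5: uniqueness. -/

open scoped ContDiff Topology
open Polynomial

namespace Pool.Agent.TD

/-- The circle of radius `r` in the fibre over `y`. -/
def circ {K A : Type} [NormedField K] [CommRing A] [Algebra K A] (y : Ber K A) (r : ℝ) :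
    Set (Ber K A[X]) := {z | (prX K A).toFun z = y ∧ z.v X = r}

namespace U5bAux

theorem lin_eq {A : Type} [CommRing A] : (C (1 : A) * X - C 0 : A[X]) = X := by
  rw [C_1, one_mul, C_0, sub_zero]

/-- The Gauss point with centre `0` and radius `r` lies in the circle of radius `r`. -/
theorem gz_mem_circ {K A : Type} [NormedField K] [CommRing A] [Algebra K A]
    (y : Ber K A) {r : ℝ} (hr : 0 < r) (h1 : y.v 1 ≠ 0) {z : Ber K A[X]}
    (hz : IsGz 0 1 y r z) : z ∈ circ y r := by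
  refine ⟨?_, ?_⟩
  · apply Ber.ext_v
    intro a
    show z.v (C a) = y.v a
    exact gz_C 0 1 y h1 r hr z hz a
  · have h := gz_lin 0 1 y h1 r hr z hz
    rw [lin_eq, y.one, one_mul] at h
    exact h

end U5bAux

/-- Uniqueness, raw form. -/
theorem circ_inj {K A : Type} [NormedField K] [CommRing A] [Algebra K A]
    (y : Ber K A) {r : ℝ} (hr : 0 < r) {p : ℕ} (x0 : Raw A (p + 1) 0) (v0 : Raw A p 0)
    (hx : IsCst x0) (hv : IsCst v0) (hx' : (berLS K A).SFat y x0) (hv' : (berLS K A).SFat y v0)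
    (h : ∀ z ∈ circ y r, (berLS K A[X]).Van z (pullR (prX K A).ix x0 +
        wdg1 (dlg (X : A[X])) (pullR (prX K A).ix v0))) :
    (berLS K A).Van y x0 ∧ (berLS K A).Van y v0 := by
  have h1 : y.v 1 ≠ 0 := by
    rw [y.one]
    exact one_ne_zero
  obtain ⟨z, hz⟩ := exists_gz 0 1 y h1 r hr
  have h2 := h z (U5bAux.gz_mem_circ y hr h1 hz)
  refine gz_ind 0 1 y h1 r hr z hz x0 hx hx' v0 hv hv' ?_
  rw [U5bAux.lin_eq]
  exact h2

theorem circ_inj0 {K A : Type} [NormedField K] [CommRing A] [Algebra K A]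
    (y : Ber K A) {r : ℝ} (hr : 0 < r) (x0 : Raw A 0 0)
    (hx : IsCst x0) (hx' : (berLS K A).SFat y x0)
    (h : ∀ z ∈ circ y r, (berLS K A[X]).Van z (pullR (prX K A).ix x0)) :
    (berLS K A).Van y x0 := by
  have h1 : y.v 1 ≠ 0 := by
    rw [y.one]
    exact one_ne_zero
  obtain ⟨z, hz⟩ := exists_gz 0 1 y h1 r hr
  exact gz_inj 0 1 y h1 r hr z hz x0 hx hx' (h z (U5bAux.gz_mem_circ y hr h1 hz))

end Pool.Agent.TD


end

section

/-! Block U: the germs `log |X - β|` for `β` in the residue field. -/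

open scoped ContDiff Topology
open Polynomial

namespace Pool.Agent.TD

variable {K R k : Type} [NormedField K] [CommRing R] [Algebra K R] [NormedField k]
  {y : Ber K R} {ι : R →+* k}

namespace IsResF

/-- numerator -/
noncomputable def num (h : IsResF y ι) (β : k) : R := (h.frac β).choose

/-- denominator -/
noncomputable def den (h : IsResF y ι) (β : k) : R := (h.frac β).choose_spec.choose

theorem den_ne (h : IsResF y ι) (β : k) : ι (h.den β) ≠ 0 :=
  (h.frac β).choose_spec.choose_spec.1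

theorem eq_div (h : IsResF y ι) (β : k) : β = ι (h.num β) / ι (h.den β) :=
  (h.frac β).choose_spec.choose_spec.2

theorem v_ne (h : IsResF y ι) {a : R} : y.v a ≠ 0 ↔ ι a ≠ 0 := by
  rw [← h.norm, norm_ne_zero_iff]

theorem v_num (h : IsResF y ι) {γ : k} (hγ : γ ≠ 0) : y.v (h.num γ) ≠ 0 := by
  rw [h.v_ne]
  intro h0
  exact hγ (by rw [h.eq_div γ, h0, zero_div])

theorem v_den (h : IsResF y ι) (γ : k) : y.v (h.den γ) ≠ 0 := h.v_ne.2 (h.den_ne γ)

/-- `d X - b` for `β = b/d`. -/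
noncomputable def lp (h : IsResF y ι) (β : k) : R[X] := C (h.den β) * X - C (h.num β)

theorem ber_C (w : Ber k k[X]) (c : k) : w.v (C c) = ‖c‖ := w.ext c

theorem fib_gen (h : IsResF y ι) {b d : R} (hd : ι d ≠ 0) (w : Ber k k[X]) :
    (fibU h w).v (C d * X - C b) = ‖ι d‖ * w.v (X - C (ι b / ι d)) := by
  rw [fibU_v, ← ber_C w (ι d), ← w.mul]
  congr 1
  rw [Polynomial.map_sub, Polynomial.map_mul, map_C, map_X, map_C, mul_sub, ← C_mul,
    mul_div_cancel₀ _ hd]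

theorem fib_lp (h : IsResF y ι) (β : k) (w : Ber k k[X]) :
    (fibU h w).v (h.lp β) = ‖ι (h.den β)‖ * w.v (X - C β) := by
  rw [lp, h.fib_gen (h.den_ne β) w, ← h.eq_div β]

theorem fib_C (h : IsResF y ι) (a : R) (w : Ber k k[X]) : (fibU h w).v (C a) = y.v a := by
  rw [fibU_v, map_C, ber_C, h.norm]

/-- The germ `dlog |γ|` on the base. -/
noncomputable def bl (h : IsResF y ι) (γ : k) : (berLS K R).Stalk 1 0 y := by
  classical
  exact if hγ : γ ≠ 0 then (berLS K R).dlS (h.num γ) (h.v_num hγ) -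
    (berLS K R).dlS (h.den γ) (h.v_den γ) else 0

/-- The germ `dlog |X - β|`. -/
noncomputable def lin (h : IsResF y ι) (β : k) (w : Ber k k[X]) :
    (berLS K R[X]).Stalk 1 0 (fibU h w) := by
  classical
  exact if hβ : (fibU h w).v (h.lp β) ≠ 0 ∧ (fibU h w).v (C (h.den β)) ≠ 0 then
    (berLS K R[X]).dlS (h.lp β) hβ.1 - (berLS K R[X]).dlS (C (h.den β)) hβ.2 else 0

/-- Pull back of base germs to the fibre. -/
noncomputable def pb (h : IsResF y ι) (p q : ℕ) (w : Ber k k[X]) :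
    (berLS K R).Stalk p q y →ₗ[ℝ] (berLS K R[X]).Stalk p q (fibU h w) :=
  (prX K R).pullY (fibU_over h w) p q

theorem dlS_mem_L1 {A : Type} [CommRing A] [Algebra K A] {z : Ber K A} {f : A}
    (hf : z ∈ (berLS K A).dom f) : (berLS K A).dlS f hf ∈ (berLS K A).L1 z :=
  Submodule.subset_span ⟨f, hf, rfl⟩

theorem bl_mem (h : IsResF y ι) (γ : k) : h.bl γ ∈ (berLS K R).L1 y := by
  unfold bl
  split_ifs with hγ
  · exact Submodule.sub_mem _ (dlS_mem_L1 _) (dlS_mem_L1 _)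
  · exact Submodule.zero_mem _

theorem lin_mem (h : IsResF y ι) (β : k) (w : Ber k k[X]) :
    h.lin β w ∈ (berLS K R[X]).L1 (fibU h w) := by
  unfold lin
  split_ifs with hβ
  · exact Submodule.sub_mem _ (dlS_mem_L1 _) (dlS_mem_L1 _)
  · exact Submodule.zero_mem _

/-- Quotients: `log |F1| - log |F2| = log |G1| - log |G2|` if `F1 G2 - G1 F2` has absolute
value zero. -/
theorem dlS_sub_eq {A : Type} [CommRing A] [Algebra K A] {z : Ber K A} {F1 F2 G1 G2 : A}
    (h1 : z.v F1 ≠ 0) (h2 : z.v F2 ≠ 0) (h3 : z.v G1 ≠ 0) (h4 : z.v G2 ≠ 0)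
    (h0 : z.v (F1 * G2 - G1 * F2) = 0) :
    (berLS K A).dlS (z := z) F1 h1 - (berLS K A).dlS (z := z) F2 h2 =
      (berLS K A).dlS (z := z) G1 h3 - (berLS K A).dlS (z := z) G2 h4 := by
  have h14 : z.v (F1 * G2) ≠ 0 := by
    rw [z.mul]
    exact mul_ne_zero h1 h4
  have h32 : z.v (G1 * F2) ≠ 0 := by
    rw [z.mul]
    exact mul_ne_zero h3 h2
  have e := dlS_eq_of_close h14 h32 (by
    rw [h0]
    exact lt_of_le_of_ne (z.nonneg _) (Ne.symm h14))
  rw [dlS_mul h1 h4 h14, dlS_mul h3 h2 h32] at e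
  rw [sub_eq_sub_iff_add_eq_add]
  exact e

/-- `dlog |γ|` for a quotient `γ = a / b`. -/
theorem bl_eq (h : IsResF y ι) {a b : R} (ha : y.v a ≠ 0) (hb : y.v b ≠ 0) :
    h.bl (ι a / ι b) = (berLS K R).dlS a ha - (berLS K R).dlS b hb := by
  have hb' : ι b ≠ 0 := h.v_ne.1 hb
  have hγ : ι a / ι b ≠ 0 := div_ne_zero (h.v_ne.1 ha) hb'
  rw [bl, dif_pos hγ]
  apply dlS_sub_eq
  rw [← h.norm, norm_eq_zero, map_sub, map_mul, map_mul, sub_eq_zero]
  have e := h.eq_div (ι a / ι b)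
  rw [div_eq_div_iff hb' (h.den_ne _)] at e
  exact e.symm

/-- `dlog |X - β|` for a quotient `β = b / d`. -/
theorem lin_eq (h : IsResF y ι) (w : Ber k k[X]) {b d : R} (hd : ι d ≠ 0)
    (h1 : (fibU h w).v (C d * X - C b) ≠ 0) (h2 : (fibU h w).v (C d) ≠ 0) :
    h.lin (ι b / ι d) w = (berLS K R[X]).dlS (C d * X - C b) h1 -
      (berLS K R[X]).dlS (C d) h2 := by
  have hw : w.v (X - C (ι b / ι d)) ≠ 0 := by
    rw [h.fib_gen hd w] at h1
    exact right_ne_zero_of_mul h1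
  have hβ : (fibU h w).v (h.lp (ι b / ι d)) ≠ 0 ∧ (fibU h w).v (C (h.den (ι b / ι d))) ≠ 0 := by
    constructor
    · rw [h.fib_lp]
      exact mul_ne_zero (norm_ne_zero_iff.2 (h.den_ne _)) hw
    · rw [h.fib_C]
      exact h.v_den _
  rw [lin, dif_pos hβ]
  apply dlS_sub_eq
  have e1 : h.lp (ι b / ι d) * C d - (C d * X - C b) * C (h.den (ι b / ι d)) =
      C (b * h.den (ι b / ι d) - h.num (ι b / ι d) * d) := by
    rw [lp, C_sub, C_mul, C_mul]
    ring
  rw [e1, h.fib_C, ← h.norm, norm_eq_zero, map_sub, map_mul, map_mul, sub_eq_zero]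
  have e := h.eq_div (ι b / ι d)
  rw [div_eq_div_iff hd (h.den_ne _)] at e
  exact e

end IsResF

end Pool.Agent.TD


end

section

/-! Block U: relations between the germs `log |X - β|`. -/

open scoped ContDiff Topology
open Polynomial

namespace Pool.Agent.TD

variable {K R k : Type} [NormedField K] [CommRing R] [Algebra K R] [NormedField k]
  {y : Ber K R} {ι : R →+* k}

namespace IsResF

theorem lin2_congr {A : Type} [CommRing A] [Algebra K A] {z : Ber K A} {F G : A} (e : F = G)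
    (hF : z.v F ≠ 0) (hG : z.v G ≠ 0) :
    (berLS K A).dlS (z := z) F hF = (berLS K A).dlS (z := z) G hG := by
  subst e; rfl

theorem lin2_cden (h : IsResF y ι) (w : Ber k k[X]) (β : k) :
    (fibU h w).v (C (h.den β)) ≠ 0 := by
  rw [h.fib_C]; exact h.v_den β

theorem lin2_lp_ne (h : IsResF y ι) (w : Ber k k[X]) (β : k) (hw : w.v (X - C β) ≠ 0) :
    (fibU h w).v (h.lp β) ≠ 0 := by
  rw [h.fib_lp]
  exact mul_ne_zero (norm_ne_zero_iff.2 (h.den_ne β)) hw

theorem lin2_lin (h : IsResF y ι) (w : Ber k k[X]) (β : k) (hw : w.v (X - C β) ≠ 0) :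
    h.lin β w = (berLS K R[X]).dlS (h.lp β) (h.lin2_lp_ne w β hw) -
      (berLS K R[X]).dlS (C (h.den β)) (h.lin2_cden w β) := by
  unfold lin
  rw [dif_pos ⟨h.lin2_lp_ne w β hw, h.lin2_cden w β⟩]

/-- numerator of the difference -/
noncomputable def lin2_a (h : IsResF y ι) (β β' : k) : R :=
  h.num β * h.den β' - h.num β' * h.den β

theorem lin2_div (h : IsResF y ι) (β β' : k) :
    β - β' = ι (h.lin2_a β β') / ι (h.den β * h.den β') := by
  have h1 := h.eq_div β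
  have h2 := h.eq_div β'
  have d1 := h.den_ne β
  have d2 := h.den_ne β'
  have e : ι (h.lin2_a β β') / ι (h.den β * h.den β') =
      ι (h.num β) / ι (h.den β) - ι (h.num β') / ι (h.den β') := by
    unfold lin2_a
    rw [map_sub, map_mul, map_mul, map_mul]
    field_simp
  rw [e, ← h1, ← h2]

theorem lin2_norm_a (h : IsResF y ι) (β β' : k) :
    y.v (h.lin2_a β β') = ‖ι (h.den β)‖ * ‖ι (h.den β')‖ * ‖β - β'‖ := by
  have d1 := h.den_ne β
  have d2 := h.den_ne β'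
  rw [h.lin2_div β β', ← h.norm, map_mul, norm_div, norm_mul]
  have e1 : ‖ι (h.den β)‖ ≠ 0 := norm_ne_zero_iff.2 d1
  have e2 : ‖ι (h.den β')‖ ≠ 0 := norm_ne_zero_iff.2 d2
  field_simp

theorem lin2_a_ne (h : IsResF y ι) {β β' : k} (hb : β ≠ β') : y.v (h.lin2_a β β') ≠ 0 := by
  rw [h.lin2_norm_a]
  exact mul_ne_zero (mul_ne_zero (norm_ne_zero_iff.2 (h.den_ne β))
    (norm_ne_zero_iff.2 (h.den_ne β'))) (norm_ne_zero_iff.2 (sub_ne_zero.2 hb))

theorem lin2_ca_ne (h : IsResF y ι) (w : Ber k k[X]) {β β' : k} (hb : β ≠ β') :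
    (fibU h w).v (C (h.lin2_a β β')) ≠ 0 := by
  rw [h.fib_C]; exact h.lin2_a_ne hb

theorem lin2_dd_ne (h : IsResF y ι) (β β' : k) : y.v (h.den β * h.den β') ≠ 0 := by
  rw [y.mul]; exact mul_ne_zero (h.v_den β) (h.v_den β')

theorem lin2_pb (h : IsResF y ι) (w : Ber k k[X]) {β β' : k} (hb : β ≠ β') :
    h.pb 1 0 w (h.bl (β - β')) = (berLS K R[X]).dlS (C (h.lin2_a β β')) (h.lin2_ca_ne w hb) -
      ((berLS K R[X]).dlS (C (h.den β)) (h.lin2_cden w β) +
        (berLS K R[X]).dlS (C (h.den β')) (h.lin2_cden w β')) := by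
  rw [h.lin2_div β β', h.bl_eq (h.lin2_a_ne hb) (h.lin2_dd_ne β β'), map_sub]
  unfold pb
  rw [Mor.pullY_dlS, Mor.pullY_dlS]
  have hne : (fibU h w).v (C (h.den β * h.den β')) ≠ 0 := by
    rw [h.fib_C]; exact h.lin2_dd_ne β β'
  have hne2 : (fibU h w).v (C (h.den β) * C (h.den β')) ≠ 0 := by
    rw [← C_mul]; exact hne
  have e1 : (berLS K R[X]).dlS (z := fibU h w) (C (h.den β * h.den β')) hne =
      (berLS K R[X]).dlS (C (h.den β)) (h.lin2_cden w β) +
        (berLS K R[X]).dlS (C (h.den β')) (h.lin2_cden w β') := by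
    rw [lin2_congr C_mul hne hne2, dlS_mul (h.lin2_cden w β) (h.lin2_cden w β') hne2]
  rw [← e1]
  rfl

theorem lin2_F1_ne (h : IsResF y ι) (w : Ber k k[X]) (β β' : k) (hw : w.v (X - C β) ≠ 0) :
    (fibU h w).v (C (h.den β') * h.lp β) ≠ 0 := by
  rw [(fibU h w).mul]
  exact mul_ne_zero (h.lin2_cden w β') (h.lin2_lp_ne w β hw)

theorem lin2_F1_v (h : IsResF y ι) (w : Ber k k[X]) (β β' : k) :
    (fibU h w).v (C (h.den β') * h.lp β) =
      ‖ι (h.den β)‖ * ‖ι (h.den β')‖ * w.v (X - C β) := by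
  rw [(fibU h w).mul, h.fib_C, h.fib_lp, ← h.norm]
  ring

/-- `dlog |F1| = dlog |X - β| + dlog |d d'|`. -/
theorem lin2_F1 (h : IsResF y ι) (w : Ber k k[X]) (β β' : k) (hw : w.v (X - C β) ≠ 0) :
    (berLS K R[X]).dlS (C (h.den β') * h.lp β) (h.lin2_F1_ne w β β' hw) =
      h.lin β w + ((berLS K R[X]).dlS (C (h.den β)) (h.lin2_cden w β) +
        (berLS K R[X]).dlS (C (h.den β')) (h.lin2_cden w β')) := by
  rw [dlS_mul (h.lin2_cden w β') (h.lin2_lp_ne w β hw) (h.lin2_F1_ne w β β' hw),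
    h.lin2_lin w β hw]
  abel

theorem lin2_diff (h : IsResF y ι) (β β' : k) :
    C (h.den β') * h.lp β - C (h.den β) * h.lp β' = - C (h.lin2_a β β') := by
  unfold lp lin2_a
  simp only [map_sub, map_mul]
  ring

/-- (J1) -/
theorem lin_far (h : IsResF y ι) (w : Ber k k[X]) (β β' : k)
    (hw : w.v (X - C β') < w.v (X - C β)) : h.lin β w = h.pb 1 0 w (h.bl (β - β')) := by
  have hb : β ≠ β' := by rintro rfl; exact lt_irrefl _ hw
  have hw0 : w.v (X - C β) ≠ 0 := ne_of_gt (lt_of_le_of_lt (w.nonneg _) hw)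
  have h1 := h.lin2_F1 w β β' hw0
  have h2 : (berLS K R[X]).dlS (C (h.den β') * h.lp β) (h.lin2_F1_ne w β β' hw0) =
      (berLS K R[X]).dlS (z := fibU h w) (C (h.lin2_a β β')) (h.lin2_ca_ne w hb) := by
    refine (berLS K R[X]).dlS_eq_of_lf _ _ 0 ?_
    have ho : IsOpen {z' : Ber K R[X] | z'.v (C (h.den β) * h.lp β') <
        z'.v (C (h.den β') * h.lp β)} :=
      isOpen_lt (Ber.continuous_v _) (Ber.continuous_v _)
    have hin : fibU h w ∈ {z' : Ber K R[X] | z'.v (C (h.den β) * h.lp β') <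
        z'.v (C (h.den β') * h.lp β)} := by
      show (fibU h w).v (C (h.den β) * h.lp β') < (fibU h w).v (C (h.den β') * h.lp β)
      rw [h.lin2_F1_v, h.lin2_F1_v, mul_comm ‖ι (h.den β')‖]
      exact mul_lt_mul_of_pos_left hw (mul_pos (norm_pos_iff.2 (h.den_ne β))
        (norm_pos_iff.2 (h.den_ne β')))
    filter_upwards [ho.mem_nhds hin] with z' hz'
    have hz'' : z'.v (C (h.den β) * h.lp β') < z'.v (C (h.den β') * h.lp β) := hz'
    show Real.log (z'.v (C (h.den β') * h.lp β)) = 0 + Real.log (z'.v (C (h.lin2_a β β')))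
    have e1 : C (h.den β') * h.lp β - (C (h.den β') * h.lp β - C (h.den β) * h.lp β') =
      C (h.den β) * h.lp β' := by ring
    have e2 := z'.sub_eq (a := C (h.den β') * h.lp β)
      (b := C (h.den β') * h.lp β - C (h.den β) * h.lp β') (by rw [e1]; exact hz'')
    rw [zero_add, ← e2, h.lin2_diff, z'.neg]
  rw [h.lin2_pb w hb, ← h2, h1]
  abel

/-- (J2) -/
theorem lin_near [IsUltrametricDist k] (h : IsResF y ι) (w : Ber k k[X]) (β β' : k)
    (hw : ‖β - β'‖ < w.v (X - C β)) : h.lin β w = h.lin β' w := by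
  have hw0 : w.v (X - C β) ≠ 0 := ne_of_gt (lt_of_le_of_lt (norm_nonneg _) hw)
  have hC : w.v (C (β - β')) = ‖β - β'‖ := w.ext (β - β')
  have hv : w.v (X - C β') = w.v (X - C β) := by
    apply w.sub_eq
    have e : (X - C β) - (X - C β') = - C (β - β') := by rw [C_sub]; ring
    rw [e, w.neg, hC]
    exact hw
  have hw1 : w.v (X - C β') ≠ 0 := by rw [hv]; exact hw0
  have h1 := h.lin2_F1 w β β' hw0
  have h2 := h.lin2_F1 w β' β hw1
  have h3 : (berLS K R[X]).dlS (C (h.den β') * h.lp β) (h.lin2_F1_ne w β β' hw0) =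
      (berLS K R[X]).dlS (z := fibU h w) (C (h.den β) * h.lp β') (h.lin2_F1_ne w β' β hw1) := by
    apply dlS_eq_of_close
    rw [h.lin2_diff, (fibU h w).neg, h.fib_C, h.lin2_norm_a, h.lin2_F1_v]
    exact mul_lt_mul_of_pos_left hw (mul_pos (norm_pos_iff.2 (h.den_ne β))
        (norm_pos_iff.2 (h.den_ne β')))
  rw [h1, h2, add_comm ((berLS K R[X]).dlS (C (h.den β')) _)] at h3
  exact add_right_cancel h3

theorem lin2_key {M : Type} [AddCommGroup M] (AB eB Ae Ag G gB : M)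
    (hh : AB + eB + (Ae + 0) = Ag + -G + (Ae + 0) + (gB + eB + (G + 0))) : AB = Ag + gB := by
  have : AB + (eB + Ae) = (Ag + gB) + (eB + Ae) := by
    calc AB + (eB + Ae) = AB + eB + (Ae + 0) := by abel
      _ = Ag + -G + (Ae + 0) + (gB + eB + (G + 0)) := hh
      _ = (Ag + gB) + (eB + Ae) := by abel
  exact add_right_cancel this

/-- Steinberg relation for two linear functions. -/
theorem lin_steinberg (h : IsResF y ι) (w : Ber k k[X]) (β β' : k) (hb : β ≠ β')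
    (h1 : w.v (X - C β) ≠ 0) (h2 : w.v (X - C β') ≠ 0) {p : ℕ}
    (c : (berLS K R[X]).Stalk p 0 (fibU h w)) :
    (berLS K R[X]).wdS (p + 1) 0 _ (h.lin β w) ((berLS K R[X]).wdS p 0 _ (h.lin β' w) c) =
      (berLS K R[X]).wdS (p + 1) 0 _ (h.lin β w)
        ((berLS K R[X]).wdS p 0 _ (h.pb 1 0 w (h.bl (β - β'))) c) +
      (berLS K R[X]).wdS (p + 1) 0 _ (h.pb 1 0 w (h.bl (β - β')))
        ((berLS K R[X]).wdS p 0 _ (h.lin β' w) c) := by
  have hH : (fibU h w).v (- C (h.lin2_a β β')) ≠ 0 := by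
    rw [(fibU h w).neg]; exact h.lin2_ca_ne w hb
  have hst := steinberg (h.lin2_F1_ne w β β' h1) (h.lin2_F1_ne w β' β h2) hH
    (h.lin2_diff β β') c
  have f1 := h.lin2_F1 w β β' h1
  have f2 := h.lin2_F1 w β' β h2
  have f3 : (berLS K R[X]).dlS (z := fibU h w) (- C (h.lin2_a β β')) hH =
      h.pb 1 0 w (h.bl (β - β')) + ((berLS K R[X]).dlS (C (h.den β)) (h.lin2_cden w β) +
        (berLS K R[X]).dlS (C (h.den β')) (h.lin2_cden w β')) := by
    rw [h.lin2_pb w hb, sub_add_cancel]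
    refine (berLS K R[X]).dlS_eq_of_lf _ _ 0 (Filter.Eventually.of_forall fun z' => ?_)
    show Real.log (z'.v (- C (h.lin2_a β β'))) = 0 + Real.log (z'.v (C (h.lin2_a β β')))
    rw [z'.neg, zero_add]
  rw [add_comm ((berLS K R[X]).dlS (C (h.den β')) _)] at f2
  rw [f1, f2, f3] at hst
  generalize (berLS K R[X]).dlS (C (h.den β)) (h.lin2_cden w β) +
        (berLS K R[X]).dlS (C (h.den β')) (h.lin2_cden w β') = e at hst
  simp only [map_add, LinearMap.add_apply] at hst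
  have s1 := (berLS K R[X]).wdS_self e c
  have s2 := (berLS K R[X]).wdS_anti e (h.pb 1 0 w (h.bl (β - β'))) c
  rw [s1, s2] at hst
  exact lin2_key _ _ _ _ _ _ hst

end IsResF

end Pool.Agent.TD


end

section

/-! Block U: factorisation. -/

open scoped ContDiff Topology
open Polynomial

namespace Pool.Agent.TD

section lin3D

variable {K A : Type} [NormedField K] [CommRing A] [Algebra K A]

/-- `dlog |F|`, extended by zero to functions vanishing at `z`. -/
noncomputable def lin3D (z : Ber K A) (F : A) : (berLS K A).Stalk 1 0 z := by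
  classical
  exact if h : z.v F ≠ 0 then (berLS K A).dlS (z := z) F h else 0

theorem lin3_of {z : Ber K A} {F : A} (h : z.v F ≠ 0) :
    lin3D z F = (berLS K A).dlS (z := z) F h := dif_pos h

theorem lin3_mul {z : Ber K A} {F G : A} (hF : z.v F ≠ 0) (hG : z.v G ≠ 0) :
    lin3D z (F * G) = lin3D z F + lin3D z G := by
  have h : z.v (F * G) ≠ 0 := by
    rw [z.mul]
    exact mul_ne_zero hF hG
  rw [lin3_of hF, lin3_of hG, lin3_of h, dlS_mul hF hG h]

theorem lin3_one (z : Ber K A) : lin3D z 1 = 0 := by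
  have h1 : z.v (1 : A) ≠ 0 := by
    rw [z.one]
    exact one_ne_zero
  have h2 := lin3_mul h1 h1
  rw [mul_one] at h2
  exact left_eq_add.1 h2

theorem lin3_mprod {z : Ber K A} (s : Multiset A) (hs : ∀ a ∈ s, z.v a ≠ 0) :
    z.v s.prod ≠ 0 ∧ lin3D z s.prod = (s.map fun a => lin3D z a).sum := by
  induction s using Multiset.induction_on with
  | empty =>
    refine ⟨?_, ?_⟩
    · rw [Multiset.prod_zero, z.one]
      exact one_ne_zero
    · rw [Multiset.prod_zero, Multiset.map_zero, Multiset.sum_zero, lin3_one]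
  | cons a s ih =>
    have ha : z.v a ≠ 0 := hs a (Multiset.mem_cons_self a s)
    obtain ⟨h1, h2⟩ := ih fun b hb => hs b (Multiset.mem_cons_of_mem hb)
    refine ⟨?_, ?_⟩
    · rw [Multiset.prod_cons, z.mul]
      exact mul_ne_zero ha h1
    · rw [Multiset.prod_cons, Multiset.map_cons, Multiset.sum_cons, lin3_mul ha h1, h2]

theorem lin3_close {z : Ber K A} {F G : A} (hF : z.v F ≠ 0) (h : z.v (F - G) = 0) :
    lin3D z F = lin3D z G := by
  have h1 : z.v (F - G) < z.v F := by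
    rw [h]
    exact lt_of_le_of_ne (z.nonneg F) (Ne.symm hF)
  have hG : z.v G ≠ 0 := by
    rw [z.sub_eq h1]
    exact hF
  rw [lin3_of hF, lin3_of hG]
  exact dlS_eq_of_close hF hG h1

end lin3D

variable {K R k : Type} [NormedField K] [CommRing R] [Algebra K R] [NormedField k]
  {y : Ber K R} {ι : R →+* k}

namespace IsResF

theorem lin3_map_lp (h : IsResF y ι) (β : k) : (h.lp β).map ι = C (ι (h.den β)) * (X - C β) := by
  have h1 : ι (h.num β) = ι (h.den β) * β := by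
    have h2 := h.eq_div β
    have h3 := h.den_ne β
    rw [eq_div_iff h3] at h2
    rw [← h2, mul_comm]
  rw [lp, Polynomial.map_sub, Polynomial.map_mul, map_C, map_X, map_C, h1, C_mul]
  ring

theorem lin3_lp_ne (h : IsResF y ι) {β : k} {w : Ber k k[X]} (hβ : w.v (X - C β) ≠ 0) :
    (fibU h w).v (h.lp β) ≠ 0 := by
  rw [h.fib_lp]
  exact mul_ne_zero (norm_ne_zero_iff.2 (h.den_ne β)) hβ

theorem lin3_Cden_ne (h : IsResF y ι) (β : k) (w : Ber k k[X]) :
    (fibU h w).v (C (h.den β)) ≠ 0 := by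
  rw [h.fib_C]
  exact h.v_den β

theorem lin3_lin (h : IsResF y ι) {β : k} {w : Ber k k[X]} (hβ : w.v (X - C β) ≠ 0) :
    h.lin β w = lin3D (fibU h w) (h.lp β) - lin3D (fibU h w) (C (h.den β)) := by
  have h1 := h.lin3_lp_ne hβ
  have h2 := h.lin3_Cden_ne β w
  rw [lin3_of h1, lin3_of h2]
  unfold lin
  exact dif_pos ⟨h1, h2⟩

theorem lin3_pb_bl (h : IsResF y ι) {c : k} (hc : c ≠ 0) (w : Ber k k[X]) :
    h.pb 1 0 w (h.bl c) = lin3D (fibU h w) (C (h.num c)) - lin3D (fibU h w) (C (h.den c)) := by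
  have h1 : (fibU h w).v (C (h.num c)) ≠ 0 := by
    rw [h.fib_C]
    exact h.v_num hc
  have h2 := h.lin3_Cden_ne c w
  have h3 : h.bl c = (berLS K R).dlS (h.num c) (h.v_num hc) -
      (berLS K R).dlS (h.den c) (h.v_den c) := by
    unfold bl
    exact dif_pos hc
  rw [lin3_of h1, lin3_of h2, h3, map_sub]
  unfold pb
  rw [Mor.pullY_dlS, Mor.pullY_dlS]
  rfl

/-- Factorisation of polynomials (k algebraically closed). -/
theorem dlS_factor [IsAlgClosed k] (h : IsResF y ι) (w : Ber k k[X]) (F : R[X])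
    (hF : (fibU h w).v F ≠ 0) : ∃ (c : k) (s : Multiset k), c ≠ 0 ∧
      (∀ β ∈ s, w.v (X - C β) ≠ 0) ∧
      (berLS K R[X]).dlS F hF = h.pb 1 0 w (h.bl c) + (s.map fun β => h.lin β w).sum := by
  have hw : w.v (F.map ι) ≠ 0 := hF
  have hF0 : F.map ι ≠ 0 := by
    intro h0
    rw [h0, w.zero] at hw
    exact hw rfl
  set c : k := (F.map ι).leadingCoeff with hc
  set s : Multiset k := (F.map ι).roots with hs
  have hc0 : c ≠ 0 := leadingCoeff_ne_zero.2 hF0
  have hfac : F.map ι = C c * (s.map fun β => X - C β).prod :=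
    (IsAlgClosed.splits (F.map ι)).eq_prod_roots
  have hroot : ∀ β ∈ s, w.v (X - C β) ≠ 0 := by
    intro β hβ h0
    apply hw
    rw [hfac, w.mul, w.mprod, Multiset.map_map]
    have h1 : (s.map (w.v ∘ fun β => X - C β)).prod = 0 := by
      apply Multiset.prod_eq_zero
      rw [Multiset.mem_map]
      exact ⟨β, hβ, h0⟩
    rw [h1, mul_zero]
  refine ⟨c, s, hc0, hroot, ?_⟩
  -- the two products
  have hD := lin3_mprod (z := fibU h w) (s.map fun β => (C (h.den β) : R[X])) (by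
    intro a ha
    rw [Multiset.mem_map] at ha
    obtain ⟨β, -, rfl⟩ := ha
    exact h.lin3_Cden_ne β w)
  have hL := lin3_mprod (z := fibU h w) (s.map fun β => h.lp β) (by
    intro a ha
    rw [Multiset.mem_map] at ha
    obtain ⟨β, hβ, rfl⟩ := ha
    exact h.lin3_lp_ne (hroot β hβ))
  set D : R[X] := (s.map fun β => (C (h.den β) : R[X])).prod with hDd
  set L : R[X] := (s.map fun β => h.lp β).prod with hLd
  have hCn : (fibU h w).v (C (h.num c)) ≠ 0 := by
    rw [h.fib_C]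
    exact h.v_num hc0
  have hCd := h.lin3_Cden_ne c w
  have hFD : (fibU h w).v (F * D) ≠ 0 := by
    rw [(fibU h w).mul]
    exact mul_ne_zero hF hD.1
  have hG1 : (fibU h w).v (F * D * C (h.den c)) ≠ 0 := by
    rw [(fibU h w).mul]
    exact mul_ne_zero hFD hCd
  have hlinprod : ∀ t : Multiset k, ((t.map fun β => h.lp β).prod).map ι =
      ((t.map fun β => (C (h.den β) : R[X])).prod).map ι * (t.map fun β => X - C β).prod := by
    intro t
    induction t using Multiset.induction_on with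
    | empty => simp
    | cons β t ih =>
      rw [Multiset.map_cons, Multiset.map_cons, Multiset.map_cons, Multiset.prod_cons,
        Multiset.prod_cons, Multiset.prod_cons, Polynomial.map_mul, Polynomial.map_mul, ih,
        h.lin3_map_lp, map_C]
      ring
  have hmap : (F * D * C (h.den c) - C (h.num c) * L).map ι = 0 := by
    have h1 : ι (h.num c) = ι (h.den c) * c := by
      have h2 := h.eq_div c
      rw [eq_div_iff (h.den_ne c)] at h2
      rw [← h2, mul_comm]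
    rw [Polynomial.map_sub, Polynomial.map_mul, Polynomial.map_mul, Polynomial.map_mul, map_C,
      map_C, hLd, hlinprod s, ← hDd, hfac, h1, C_mul]
    ring
  have hclose : (fibU h w).v (F * D * C (h.den c) - C (h.num c) * L) = 0 := by
    rw [fibU_v, hmap, w.zero]
  have key := lin3_close hG1 hclose
  rw [lin3_mul hFD hCd, lin3_mul hF hD.1, lin3_mul hCn hL.1, hD.2, hL.2, Multiset.map_map,
    Multiset.map_map] at key
  have hsum : (s.map fun β => h.lin β w).sum =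
      (s.map ((fun a => lin3D (fibU h w) a) ∘ fun β => h.lp β)).sum -
      (s.map ((fun a => lin3D (fibU h w) a) ∘ fun β => (C (h.den β) : R[X]))).sum := by
    rw [← Multiset.sum_map_sub]
    refine congrArg Multiset.sum (Multiset.map_congr rfl fun β hβ => ?_)
    exact h.lin3_lin (hroot β hβ)
  rw [← lin3_of hF, h.lin3_pb_bl hc0 w, hsum]
  have key2 : lin3D (fibU h w) F = lin3D (fibU h w) (C (h.num c)) +
      (s.map ((fun a => lin3D (fibU h w) a) ∘ fun β => h.lp β)).sum - lin3D (fibU h w) (C (h.den c)) -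
      (s.map ((fun a => lin3D (fibU h w) a) ∘ fun β => (C (h.den β) : R[X]))).sum := by
    rw [← key]
    abel
  rw [key2]
  abel

end IsResF

end Pool.Agent.TD


end

section

/-! Block U: generation. -/

open scoped ContDiff Topology
open Polynomial

namespace Pool.Agent.TD

variable {K R k : Type} [NormedField K] [CommRing R] [Algebra K R] [NormedField k]
  {y : Ber K R} {ι : R →+* k}

namespace IsResF

namespace Lin4

/-- The generators `dlog |X - β| ∧ u`. -/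
noncomputable def gen1 (h : IsResF y ι) (w : Ber k k[X]) (p : ℕ) :
    Set ((berLS K R[X]).Stalk (p + 1) 0 (fibU h w)) :=
  {x | ∃ β, w.v (X - C β) ≠ 0 ∧ ∃ u ∈ (berLS K R).Lp p y,
    x = (berLS K R[X]).wdS p 0 _ (h.lin β w) (h.pb p 0 w u)}

/-- The space generated by the base germs and the products. -/
noncomputable def GG (h : IsResF y ι) (w : Ber k k[X]) :
    (p : ℕ) → Submodule ℝ ((berLS K R[X]).Stalk p 0 (fibU h w))
  | 0 => ((berLS K R).Lp 0 y).map (h.pb 0 0 w)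
  | p + 1 => ((berLS K R).Lp (p + 1) y).map (h.pb (p + 1) 0 w) ⊔ Submodule.span ℝ (gen1 h w p)

variable {h : IsResF y ι} {w : Ber k k[X]}

theorem pb_mem {p : ℕ} {u : (berLS K R).Stalk p 0 y} (hu : u ∈ (berLS K R).Lp p y) :
    h.pb p 0 w u ∈ GG h w p := by
  cases p with
  | zero => exact Submodule.mem_map_of_mem hu
  | succ p => exact Submodule.mem_sup_left (Submodule.mem_map_of_mem hu)

theorem lin_pb_mem {p : ℕ} {u : (berLS K R).Stalk p 0 y} (hu : u ∈ (berLS K R).Lp p y) {β : k}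
    (hβ : w.v (X - C β) ≠ 0) :
    (berLS K R[X]).wdS p 0 _ (h.lin β w) (h.pb p 0 w u) ∈ GG h w (p + 1) :=
  Submodule.mem_sup_right (Submodule.subset_span ⟨β, hβ, u, hu, rfl⟩)

theorem pb_wdS (γ : k) {p : ℕ} (u : (berLS K R).Stalk p 0 y) :
    (berLS K R[X]).wdS p 0 _ (h.pb 1 0 w (h.bl γ)) (h.pb p 0 w u) =
      h.pb (p + 1) 0 w ((berLS K R).wdS p 0 y (h.bl γ) u) :=
  ((prX K R).pullY_wdS (fibU_over h w) _ _).symm

theorem bl_mem' (γ : k) {p : ℕ} {u : (berLS K R).Stalk p 0 y} (hu : u ∈ (berLS K R).Lp p y) :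
    (berLS K R).wdS p 0 y (h.bl γ) u ∈ (berLS K R).Lp (p + 1) y :=
  (berLS K R).wdS_mem (h.bl_mem γ) hu

/-- Stability under the products with the base germs. -/
theorem bl_stable (γ : k) {p : ℕ} {c : (berLS K R[X]).Stalk p 0 (fibU h w)}
    (hc : c ∈ GG h w p) :
    (berLS K R[X]).wdS p 0 _ (h.pb 1 0 w (h.bl γ)) c ∈ GG h w (p + 1) := by
  cases p with
  | zero =>
    obtain ⟨u, hu, rfl⟩ := hc
    rw [pb_wdS]
    exact pb_mem (bl_mem' γ hu)
  | succ p =>
    obtain ⟨a, ha, b, hb, rfl⟩ := Submodule.mem_sup.1 hc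
    clear hc
    rw [map_add]
    refine Submodule.add_mem _ ?_ ?_
    · obtain ⟨u, hu, rfl⟩ := ha
      rw [pb_wdS]
      exact pb_mem (bl_mem' γ hu)
    · induction hb using Submodule.span_induction with
      | mem b hb =>
        obtain ⟨β, hβ, u, hu, rfl⟩ := hb
        rw [LogSpace.wdS_anti, pb_wdS]
        exact Submodule.neg_mem _ (lin_pb_mem (bl_mem' γ hu) hβ)
      | zero => rw [map_zero]; exact Submodule.zero_mem _
      | add b b' _ _ hb hb' => rw [map_add]; exact Submodule.add_mem _ hb hb'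
      | smul r b _ hb => rw [map_smul]; exact Submodule.smul_mem _ r hb

/-- Stability under the products with the linear germs. -/
theorem lin_stable {β : k} (hβ : w.v (X - C β) ≠ 0) {p : ℕ}
    {c : (berLS K R[X]).Stalk p 0 (fibU h w)} (hc : c ∈ GG h w p) :
    (berLS K R[X]).wdS p 0 _ (h.lin β w) c ∈ GG h w (p + 1) := by
  cases p with
  | zero =>
    obtain ⟨u, hu, rfl⟩ := hc
    exact lin_pb_mem hu hβ
  | succ p =>
    obtain ⟨a, ha, b, hb, rfl⟩ := Submodule.mem_sup.1 hc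
    clear hc
    rw [map_add]
    refine Submodule.add_mem _ ?_ ?_
    · obtain ⟨u, hu, rfl⟩ := ha
      exact lin_pb_mem hu hβ
    · induction hb using Submodule.span_induction with
      | mem b hb =>
        obtain ⟨β', hβ', u, hu, rfl⟩ := hb
        by_cases hbb : β = β'
        · subst hbb
          rw [LogSpace.wdS_self]
          exact Submodule.zero_mem _
        · rw [lin_steinberg h w β β' hbb hβ hβ', LogSpace.wdS_anti _ (h.pb 1 0 w (h.bl (β - β'))),
            pb_wdS]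
          exact Submodule.add_mem _ (lin_pb_mem (bl_mem' _ hu) hβ)
            (Submodule.neg_mem _ (lin_pb_mem (bl_mem' _ hu) hβ'))
      | zero => rw [map_zero]; exact Submodule.zero_mem _
      | add b b' _ _ hb hb' => rw [map_add]; exact Submodule.add_mem _ hb hb'
      | smul r b _ hb => rw [map_smul]; exact Submodule.smul_mem _ r hb

theorem le_GG [IsAlgClosed k] (p : ℕ) : (berLS K R[X]).Lp p (fibU h w) ≤ GG h w p := by
  induction p with
  | zero =>
    rw [LogSpace.Lp_zero, Submodule.span_le]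
    rintro x hx
    rw [Set.mem_singleton_iff] at hx
    subst hx
    refine ⟨(berLS K R).oneS y, ?_, (prX K R).pullY_oneS (fibU_over h w)⟩
    show (berLS K R).oneS y ∈ (berLS K R).Lp 0 y
    rw [LogSpace.Lp_zero]
    exact Submodule.subset_span rfl
  | succ p ih =>
    rw [LogSpace.Lp_succ, Submodule.span_le]
    rintro x ⟨F, hF, c, hc, rfl⟩
    have hc' := ih hc
    obtain ⟨γ, s, -, hs, e⟩ := h.dlS_factor w F hF
    show (berLS K R[X]).wdS p 0 _ ((berLS K R[X]).dlS F hF) c ∈ GG h w (p + 1)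
    rw [e, map_add, LinearMap.add_apply]
    refine Submodule.add_mem _ (bl_stable γ hc') ?_
    clear e
    induction s using Multiset.induction_on with
    | empty =>
      rw [Multiset.map_zero, Multiset.sum_zero, map_zero, LinearMap.zero_apply]
      exact Submodule.zero_mem _
    | cons β s ihs =>
      rw [Multiset.map_cons, Multiset.sum_cons, map_add, LinearMap.add_apply]
      exact Submodule.add_mem _ (lin_stable (hs β (Multiset.mem_cons_self β s)) hc')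
        (ihs fun β' hβ' => hs β' (Multiset.mem_cons_of_mem hβ'))

theorem span_form (p : ℕ) {c : (berLS K R[X]).Stalk (p + 1) 0 (fibU h w)}
    (hc : c ∈ Submodule.span ℝ (gen1 h w p)) :
    ∃ (S : Finset k) (v : k → (berLS K R).Stalk p 0 y), (∀ β, v β ∈ (berLS K R).Lp p y) ∧
      (∀ β ∈ S, w.v (X - C β) ≠ 0) ∧
      c = ∑ β ∈ S, (berLS K R[X]).wdS p 0 _ (h.lin β w) (h.pb p 0 w (v β)) := by
  classical
  induction hc using Submodule.span_induction with
  | mem c hc =>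
    obtain ⟨β, hβ, u, hu, rfl⟩ := hc
    refine ⟨{β}, fun _ => u, fun _ => hu, ?_, ?_⟩
    · intro β' hβ'
      rw [Finset.mem_singleton] at hβ'
      subst hβ'
      exact hβ
    · rw [Finset.sum_singleton]
  | zero =>
    exact ⟨∅, fun _ => 0, fun _ => Submodule.zero_mem _, fun β hβ => absurd hβ (Finset.notMem_empty β), by
      rw [Finset.sum_empty]⟩
  | add c c' _ _ h1 h2 =>
    obtain ⟨S, v, hv, hS, rfl⟩ := h1
    obtain ⟨S', v', hv', hS', rfl⟩ := h2
    refine ⟨S ∪ S', fun β => (if β ∈ S then v β else 0) + (if β ∈ S' then v' β else 0), ?_, ?_, ?_⟩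
    · intro β
      refine Submodule.add_mem _ ?_ ?_
      · split_ifs
        · exact hv β
        · exact Submodule.zero_mem _
      · split_ifs
        · exact hv' β
        · exact Submodule.zero_mem _
    · intro β hβ
      rcases Finset.mem_union.1 hβ with hβ | hβ
      · exact hS β hβ
      · exact hS' β hβ
    · have key : ∀ (T : Finset k) (u : k → (berLS K R).Stalk p 0 y), T ⊆ S ∪ S' →
          ∑ β ∈ T, (berLS K R[X]).wdS p 0 _ (h.lin β w) (h.pb p 0 w (u β)) =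
          ∑ β ∈ S ∪ S', (berLS K R[X]).wdS p 0 _ (h.lin β w)
            (h.pb p 0 w (if β ∈ T then u β else 0)) := by
        intro T u hT
        rw [← Finset.sum_subset hT]
        · refine Finset.sum_congr rfl fun β hβ => ?_
          rw [if_pos hβ]
        · intro β _ hβ
          rw [if_neg hβ, map_zero, map_zero]
      rw [key S v Finset.subset_union_left, key S' v' Finset.subset_union_right,
        ← Finset.sum_add_distrib]
      refine Finset.sum_congr rfl fun β _ => ?_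
      rw [map_add, map_add]
  | smul r c _ h1 =>
    obtain ⟨S, v, hv, hS, rfl⟩ := h1
    refine ⟨S, fun β => r • v β, fun β => Submodule.smul_mem _ r (hv β), hS, ?_⟩
    rw [Finset.smul_sum]
    refine Finset.sum_congr rfl fun β _ => ?_
    rw [map_smul, map_smul]

end Lin4

/-- (GEN) Generation of the constant germs of type `(p+1, 0)`. -/
theorem gen [IsAlgClosed k] (h : IsResF y ι) (w : Ber k k[X]) (p : ℕ)
    (c : (berLS K R[X]).Stalk (p + 1) 0 (fibU h w))
    (hc : c ∈ (berLS K R[X]).Lp (p + 1) (fibU h w)) :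
    ∃ (x : (berLS K R).Stalk (p + 1) 0 y) (S : Finset k) (v : k → (berLS K R).Stalk p 0 y),
      x ∈ (berLS K R).Lp (p + 1) y ∧ (∀ β, v β ∈ (berLS K R).Lp p y) ∧
      (∀ β ∈ S, w.v (X - C β) ≠ 0) ∧
      c = h.pb (p + 1) 0 w x + ∑ β ∈ S, (berLS K R[X]).wdS p 0 _ (h.lin β w) (h.pb p 0 w (v β)) := by
  have h1 : c ∈ Lin4.GG h w (p + 1) := Lin4.le_GG (p + 1) hc
  obtain ⟨a, ha, b, hb, rfl⟩ := Submodule.mem_sup.1 h1
  obtain ⟨x, hx, rfl⟩ := ha
  obtain ⟨S, v, hv, hS, rfl⟩ := Lin4.span_form p hb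
  exact ⟨x, S, v, hx, hv, hS, rfl⟩

end IsResF

end Pool.Agent.TD


end

section

/-! Block U: dominant monomials just below the Gauss point. -/

open scoped ContDiff Topology
open Polynomial

namespace Pool.Agent.TD

variable {K A : Type} [NormedField K] [CommRing A] [Algebra K A]

namespace U_MON1

theorem shp01 (F : A[X]) : shp 0 1 F = F := by
  unfold shp
  rw [Polynomial.scaleRoots_one, C_0, add_zero, comp_X]

/-- The Gauss norm of centre zero is the largest monomial. -/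
theorem gz01 (y : Ber K A) (ρ : ℝ) (hρ : 0 < ρ) (F : A[X]) :
    (∀ i, y.v (F.coeff i) * ρ ^ i ≤ gz 0 1 y ρ F) ∧
      ∃ i, y.v (F.coeff i) * ρ ^ i = gz 0 1 y ρ F := by
  have h1 : y.v (1 : A) = 1 := y.one
  obtain ⟨h2, i, _, hi⟩ := gz_eq (0 : A) 1 y (by rw [h1]; exact one_ne_zero) ρ hρ F
  rw [shp01] at h2 hi
  simp only [h1, one_mul, one_pow, div_one] at h2 hi
  refine ⟨fun j => ?_, i, hi⟩
  by_cases hj : j ≤ F.natDegree
  · exact h2 j hj
  · rw [coeff_eq_zero_of_natDegree_lt (not_le.mp hj), y.zero, zero_mul, ← hi]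
    exact mul_nonneg (y.nonneg _) (by positivity)

/-- The dominant term just below `r`. -/
theorem dom_terms (c : ℕ → ℝ) (N : ℕ) (hc : ∀ i, 0 ≤ c i) (hN : ∀ i, N < i → c i = 0) (r m : ℝ)
    (hr : 0 < r) (hm : 0 < m) (hle : ∀ i, c i * r ^ i ≤ m) (hex : ∃ i, c i * r ^ i = m) :
    ∃ (n : ℕ) (ε : ℝ), 0 < ε ∧ ε < r ∧ 0 < c n ∧
      ∀ ρ, r - ε < ρ → ρ < r → ∀ i, i ≠ n → c i * ρ ^ i < c n * ρ ^ n := by
  classical
  set n := Nat.find hex with hn
  have hnm : c n * r ^ n = m := Nat.find_spec hex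
  have hmin : ∀ i, i < n → c i * r ^ i < m := fun i hi =>
    lt_of_le_of_ne (hle i) (Nat.find_min hex hi)
  have hcn : 0 < c n := by
    rcases (hc n).lt_or_eq with h | h
    · exact h
    · rw [← h, zero_mul] at hnm
      exact absurd hnm hm.ne
  have key : ∀ i ∈ Finset.range (N + 1), ∀ᶠ ρ in 𝓝[<] r, i ≠ n → c i * ρ ^ i < c n * ρ ^ n := by
    intro i _
    rcases (hle i).lt_or_eq with h | h
    · have h1 : Filter.Tendsto (fun ρ : ℝ => c i * ρ ^ i) (𝓝 r) (𝓝 (c i * r ^ i)) :=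
        Continuous.tendsto (by fun_prop) r
      have h2 : Filter.Tendsto (fun ρ : ℝ => c n * ρ ^ n) (𝓝 r) (𝓝 (c n * r ^ n)) :=
        Continuous.tendsto (by fun_prop) r
      rw [hnm] at h2
      exact ((h1.eventually_lt h2 h).filter_mono nhdsWithin_le_nhds).mono fun ρ h3 _ => h3
    · by_cases hin : i = n
      · exact Filter.Eventually.of_forall fun ρ h3 => absurd hin h3
      have hni : n < i := by
        rcases lt_or_gt_of_ne hin with h3 | h3
        · exact absurd h (hmin i h3).ne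
        · exact h3
      have hpos : ∀ᶠ ρ in 𝓝[<] r, 0 < ρ :=
        (Ioi_mem_nhds hr : Set.Ioi (0 : ℝ) ∈ 𝓝 r) |> fun h3 => nhdsWithin_le_nhds h3
      filter_upwards [hpos, self_mem_nhdsWithin] with ρ h3 h4 _
      have h4' : ρ < r := h4
      obtain ⟨k, rfl⟩ := Nat.exists_eq_add_of_lt hni
      have h5 : c (n + k + 1) * r ^ (k + 1) = c n := by
        have h6 : c (n + k + 1) * r ^ (k + 1) * r ^ n = c n * r ^ n := by
          rw [hnm, ← h]
          ring
        exact mul_right_cancel₀ (pow_pos hr n).ne' h6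
      have h7 : 0 < c (n + k + 1) := by
        rcases (hc (n + k + 1)).lt_or_eq with h8 | h8
        · exact h8
        · rw [← h8, zero_mul] at h5
          exact absurd h5 hcn.ne
      have h9 : ρ ^ (k + 1) < r ^ (k + 1) := pow_lt_pow_left₀ h4' h3.le (Nat.succ_ne_zero k)
      calc c (n + k + 1) * ρ ^ (n + k + 1) = c (n + k + 1) * ρ ^ (k + 1) * ρ ^ n := by ring
        _ < c (n + k + 1) * r ^ (k + 1) * ρ ^ n :=
            mul_lt_mul_of_pos_right (mul_lt_mul_of_pos_left h9 h7) (pow_pos h3 n)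
        _ = c n * ρ ^ n := by rw [h5]
  have hall : ∀ᶠ ρ in 𝓝[<] r, ∀ i ∈ Finset.range (N + 1), i ≠ n → c i * ρ ^ i < c n * ρ ^ n :=
    (Finset.eventually_all _).2 key
  obtain ⟨l, hl, hl2⟩ := (mem_nhdsLT_iff_exists_Ioo_subset).1 hall
  have hl' : l < r := hl
  refine ⟨n, min (r - l) (r / 2), lt_min (by linarith) (by linarith),
    (min_le_right _ _).trans_lt (by linarith), hcn, ?_⟩
  intro ρ h1 h2 i hi
  have h3 : l < ρ := by
    have := min_le_left (r - l) (r / 2)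
    linarith
  have h4 : 0 < ρ := by
    have := min_le_right (r - l) (r / 2)
    linarith
  by_cases hiN : i ≤ N
  · exact hl2 ⟨h3, h2⟩ i (Finset.mem_range.2 (Nat.lt_succ_of_le hiN)) hi
  · rw [hN i (not_le.mp hiN), zero_mul]
    positivity

end U_MON1

/-- A function has a dominant monomial at the Gauss points of radius slightly less than `r`. -/
theorem dom_mono (y : Ber K A) (r : ℝ) (hr : 0 < r) (z : Ber K A[X]) (hz : IsGz 0 1 y r z)
    (F : A[X]) (hF : z.v F ≠ 0) : ∃ (a : A) (n : ℕ) (ε : ℝ), 0 < ε ∧ ε < r ∧ y.v a ≠ 0 ∧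
      ∀ ρ', r - ε < ρ' → ρ' < r → ∀ z', IsGz 0 1 y ρ' z' → z'.v F ≠ 0 ∧
        z'.v (F - C a * X ^ n) < z'.v F := by
  obtain ⟨h1, h2⟩ := U_MON1.gz01 y r hr F
  have hm : 0 < gz 0 1 y r F := by
    rw [← hz F]
    exact lt_of_le_of_ne (z.nonneg F) (Ne.symm hF)
  obtain ⟨n, ε, hε, hεr, hcn, h3⟩ := U_MON1.dom_terms (fun i => y.v (F.coeff i)) F.natDegree
    (fun i => y.nonneg _) (fun i hi => by
      show y.v (F.coeff i) = 0
      rw [coeff_eq_zero_of_natDegree_lt hi, y.zero]) r _ hr hm h1 h2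
  refine ⟨F.coeff n, n, ε, hε, hεr, hcn.ne', ?_⟩
  intro ρ' h4 h5 z' hz'
  have hρ : 0 < ρ' := by linarith
  have h6 : y.v (F.coeff n) * ρ' ^ n ≤ z'.v F := by
    rw [hz' F]
    exact (U_MON1.gz01 y ρ' hρ F).1 n
  have h7 : 0 < y.v (F.coeff n) * ρ' ^ n := mul_pos hcn (pow_pos hρ n)
  refine ⟨(h7.trans_le h6).ne', ?_⟩
  obtain ⟨-, i, hi⟩ := U_MON1.gz01 y ρ' hρ (F - C (F.coeff n) * X ^ n)
  rw [hz' (F - C (F.coeff n) * X ^ n), ← hi, coeff_sub, coeff_C_mul, coeff_X_pow]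
  by_cases hin : i = n
  · rw [if_pos hin, hin, mul_one, sub_self, y.zero, zero_mul]
    exact h7.trans_le h6
  · rw [if_neg hin, mul_zero, sub_zero]
    exact (h3 ρ' h4 h5 i hin).trans_le h6

end Pool.Agent.TD


end

section

/-! Block U: constant forms just below the Gauss point. -/

open scoped ContDiff Topology
open Polynomial

namespace Pool.Agent.TD

variable {K A : Type} [NormedField K] [CommRing A] [Algebra K A]

namespace U_MON2

/-- `θ` and `η` agree just below the Gauss point of radius `r`. -/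
def Near (y : Ber K A) (r : ℝ) {p : ℕ} (θ η : Raw A[X] p 0) : Prop :=
  ∃ ε : ℝ, 0 < ε ∧ ε < r ∧ ∀ ρ', r - ε < ρ' → ρ' < r → ∀ z', IsGz 0 1 y ρ' z' →
    (berLS K A[X]).Van z' (θ - η)

/-- The forms `x0 + dlog |X| ∧ v0`. -/
def Sp (y : Ber K A) : (p : ℕ) → Raw A[X] p 0 → Prop
  | 0, η => ∃ x0 : Raw A 0 0, IsCst x0 ∧ (berLS K A).SFat y x0 ∧ η = pullR (prX K A).ix x0
  | p + 1, η => ∃ (x0 : Raw A (p + 1) 0) (v0 : Raw A p 0), IsCst x0 ∧ IsCst v0 ∧
      (berLS K A).SFat y x0 ∧ (berLS K A).SFat y v0 ∧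
      η = pullR (prX K A).ix x0 + wdg1 (dlg (X : A[X])) (pullR (prX K A).ix v0)

variable {y : Ber K A} {r : ℝ} {p : ℕ}

theorem Near.add {θ η θ' η' : Raw A[X] p 0} (h : Near y r θ η) (k : Near y r θ' η') :
    Near y r (θ + θ') (η + η') := by
  obtain ⟨ε, h1, h2, h3⟩ := h
  obtain ⟨δ, k1, k2, k3⟩ := k
  refine ⟨min ε δ, lt_min h1 k1, lt_of_le_of_lt (min_le_left _ _) h2, ?_⟩
  intro ρ' l1 l2 z' hz'
  have e : θ + θ' - (η + η') = (θ - η) + (θ' - η') := by abel
  rw [e]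
  have m1 := min_le_left ε δ
  have m2 := min_le_right ε δ
  exact LogSpace.Van.add _ (h3 ρ' (by linarith) l2 z' hz') (k3 ρ' (by linarith) l2 z' hz')

theorem Near.smul (c : ℝ) {θ η : Raw A[X] p 0} (h : Near y r θ η) :
    Near y r (c • θ) (c • η) := by
  obtain ⟨ε, h1, h2, h3⟩ := h
  refine ⟨ε, h1, h2, ?_⟩
  intro ρ' l1 l2 z' hz'
  have e : c • θ - c • η = c • (θ - η) := (smul_sub c θ η).symm
  rw [e]
  exact ((berLS K A[X]).VanM p 0 z').smul_mem c (h3 ρ' l1 l2 z' hz')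

theorem one_ne (y : Ber K A) : y.v 1 ≠ 0 := by
  rw [y.one]
  exact one_ne_zero

theorem ovr {ρ : ℝ} (hρ : 0 < ρ) {z : Ber K A[X]} (hz : IsGz 0 1 y ρ z) :
    (prX K A).toFun z = y := by
  apply Ber.ext_v
  intro a
  exact gz_C 0 1 y (one_ne y) ρ hρ z hz a

theorem vX {ρ : ℝ} (hρ : 0 < ρ) {z : Ber K A[X]} (hz : IsGz 0 1 y ρ z) : z.v X = ρ := by
  have h := gz_lin 0 1 y (one_ne y) ρ hρ z hz
  rw [map_one, one_mul, map_zero, sub_zero, y.one, one_mul] at h
  exact h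

theorem vX_ne {ρ : ℝ} (hρ : 0 < ρ) {z : Ber K A[X]} (hz : IsGz 0 1 y ρ z) : z.v X ≠ 0 := by
  rw [vX hρ hz]
  exact hρ.ne'

/-- The differential of the logarithm of a function close to a monomial. -/
theorem van_dlg {z : Ber K A[X]} {F : A[X]} {a : A} {n : ℕ} (hF : z.v F ≠ 0)
    (ha : z.v (C a) ≠ 0) (hX : z.v X ≠ 0) (h : z.v (F - C a * X ^ n) < z.v F) :
    (berLS K A[X]).Van z (dlg F - (dlg (C a) + (n : ℝ) • dlg X)) := by
  have hg : ∀ i : Fin 2, z ∈ (berLS K A[X]).dom ((![C a, X] : Fin 2 → A[X]) i) := by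
    intro i
    fin_cases i
    · exact ha
    · exact hX
  have ho : IsOpen {z' : Ber K A[X] | z'.v (F - C a * X ^ n) < z'.v F} :=
    isOpen_lt (Ber.continuous_v _) (Ber.continuous_v _)
  have h1 := (berLS K A[X]).dls_van (n := 2) (f := F) (g := ![C a, X]) hF hg
    ![1, (n : ℝ)] 0 (by
    filter_upwards [ho.mem_nhds h, ((berLS K A[X]).isOpen_dom (C a)).mem_nhds ha,
      ((berLS K A[X]).isOpen_dom X).mem_nhds hX] with z' hz' h1 h2
    have h1' : z'.v (C a) ≠ 0 := h1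
    have h2' : z'.v X ≠ 0 := h2
    rw [Fin.sum_univ_two]
    show Real.log (z'.v F) = 0 + (1 * Real.log (z'.v (C a)) + (n : ℝ) * Real.log (z'.v X))
    rw [← z'.sub_eq hz', z'.mul, z'.pow, Real.log_mul h1' (pow_ne_zero _ h2'), Real.log_pow]
    ring)
  rw [Fin.sum_univ_two] at h1
  have e : (![1, (n : ℝ)] : Fin 2 → ℝ) 0 • dlg ((![C a, X] : Fin 2 → A[X]) 0) +
      (![1, (n : ℝ)] : Fin 2 → ℝ) 1 • dlg ((![C a, X] : Fin 2 → A[X]) 1) =
      dlg (C a : A[X]) + (n : ℝ) • dlg X := by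
    show (1 : ℝ) • dlg (C a : A[X]) + (n : ℝ) • dlg X = _
    rw [one_smul]
  rw [e] at h1
  exact h1

theorem sfat_dlg {X Φ : Type} [TopologicalSpace X] (L : LogSpace X Φ) {z : X} {f : Φ}
    (h : z ∈ L.dom f) : L.SFat z (dlg f) :=
  ⟨{f}, isSF_dlg (Finset.mem_singleton_self f), by simpa using h⟩

theorem Sp.sfat {η : Raw A[X] p 0} (h : Sp y p η) {ρ : ℝ} (hρ : 0 < ρ) {z : Ber K A[X]}
    (hz : IsGz 0 1 y ρ z) : (berLS K A[X]).SFat z η := by
  cases p with
  | zero =>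
    obtain ⟨x0, -, hs, rfl⟩ := h
    exact (prX K A).sfatY (ovr hρ hz) hs
  | succ p =>
    obtain ⟨x0, v0, -, -, hs, hs', rfl⟩ := h
    exact ((prX K A).sfatY (ovr hρ hz) hs).add
      (LogSpace.SFat.wdg1 _ (sfat_dlg _ (vX_ne hρ hz)) ((prX K A).sfatY (ovr hρ hz) hs'))

/-- Product of a form `x0 + dlog |X| ∧ v0` with `dlog |a| + n dlog |X|`. -/
theorem Sp.step {η : Raw A[X] p 0} (h : Sp y p η) {a : A} (ha : y.v a ≠ 0) (n : ℕ) :
    Sp y (p + 1) (wdg1 (dlg (C a : A[X]) + (n : ℝ) • dlg X) η) := by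
  have hda : (berLS K A).SFat y (dlg a) := sfat_dlg _ ha
  have e1 : ∀ {q : ℕ} (x0 : Raw A q 0), pullR (prX K A).ix (wdg1 (dlg a) x0) =
      wdg1 (dlg (C a : A[X])) (pullR (prX K A).ix x0) := fun x0 => pullR_wdg1 _ _ _
  cases p with
  | zero =>
    obtain ⟨x0, hc, hs, rfl⟩ := h
    refine ⟨wdg1 (dlg a) x0, (n : ℝ) • x0, (isCst_dlg a).wdg1 hc, hc.smul _,
      LogSpace.SFat.wdg1 _ hda hs, hs.smul _, ?_⟩
    rw [e1, pullR_smul, wdg1_smul_right, wdg1_add_left, wdg1_smul_left]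
  | succ p =>
    obtain ⟨x0, v0, hc, hc', hs, hs', rfl⟩ := h
    refine ⟨wdg1 (dlg a) x0, (n : ℝ) • x0 + (-1 : ℝ) • wdg1 (dlg a) v0, (isCst_dlg a).wdg1 hc,
      (hc.smul _).add (((isCst_dlg a).wdg1 hc').smul _), LogSpace.SFat.wdg1 _ hda hs,
      (hs.smul _).add ((LogSpace.SFat.wdg1 _ hda hs').smul _), ?_⟩
    classical
    obtain ⟨s, hs1, -⟩ := id hs'
    have hsp : IsSF (s.image (prX K A).ix) (pullR (prX K A).ix v0) := hs1.pullR
    have e2 : wdg1 (dlg X) ((n : ℝ) • pullR (prX K A).ix x0 +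
        (-1 : ℝ) • wdg1 (dlg (C a : A[X])) (pullR (prX K A).ix v0)) =
        (n : ℝ) • wdg1 (dlg X) (pullR (prX K A).ix x0) +
        (-1 : ℝ) • wdg1 (dlg X) (wdg1 (dlg (C a : A[X])) (pullR (prX K A).ix v0)) := by
      rw [wdg1_add_right, wdg1_smul_right, wdg1_smul_right]
    have e3 : ∀ {q : ℕ} (θ : Raw A[X] q 0), wdg1 (dlg (C a : A[X]) + (n : ℝ) • dlg X) θ =
        wdg1 (dlg (C a : A[X])) θ + (n : ℝ) • wdg1 (dlg X) θ := fun θ => by
      rw [wdg1_add_left, wdg1_smul_left]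
    rw [e1, pullR_add, pullR_smul, pullR_smul, e1, e2, wdg1_add_right, e3, e3,
      wdg1_self hsp, wdg1_anti (η := dlg (C a : A[X])) (η' := dlg X) hsp, smul_zero, add_zero,
      neg_one_smul]
    abel

theorem wdg1_split (η η' : Raw A[X] 1 0) (θ θ' : Raw A[X] p 0) :
    wdg1 η θ - wdg1 η' θ' = wdg1 η (θ - θ') + wdg1 (η - η') θ' := by
  have e1 : θ - θ' = θ + (-1 : ℝ) • θ' := by rw [neg_one_smul, sub_eq_add_neg]
  have e2 : η - η' = η + (-1 : ℝ) • η' := by rw [neg_one_smul, sub_eq_add_neg]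
  rw [e1, e2, wdg1_add_right, wdg1_add_left, wdg1_smul_right, wdg1_smul_left, neg_one_smul,
    neg_one_smul]
  abel

theorem symR_near (hr : 0 < r) (z : Ber K A[X]) (hz : IsGz 0 1 y r z) :
    ∀ (p : ℕ) (f : Fin p → A[X]), (∀ i, z.v (f i) ≠ 0) →
      ∃ η, Sp y p η ∧ Near y r (symR p f) η
  | 0, f, _ => by
    refine ⟨one0, ⟨one0, isCst_one0, ⟨∅, isSF_one0 ∅, by simp⟩, rfl⟩, r / 2, by linarith,
      by linarith, ?_⟩
    intro ρ' h1 h2 z' hz'
    have e : symR 0 f - one0 = (0 : Raw A[X] 0 0) := sub_self one0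
    rw [e]
    exact ((berLS K A[X]).VanM 0 0 z').zero_mem
  | p + 1, f, hf => by
    obtain ⟨η, hη, δ, k1, k2, k3⟩ := symR_near hr z hz p (fun i => f i.succ) (fun i => hf i.succ)
    obtain ⟨a, n, ε, h1, h2, ha, h3⟩ := dom_mono y r hr z hz (f 0) (hf 0)
    refine ⟨_, hη.step ha n, min ε δ, lt_min h1 k1, lt_of_le_of_lt (min_le_left _ _) h2, ?_⟩
    intro ρ' l1 l2 z' hz'
    have m1 := min_le_left ε δ
    have m2 := min_le_right ε δ
    have hρ : 0 < ρ' := by linarith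
    obtain ⟨h4, h5⟩ := h3 ρ' (by linarith) l2 z' hz'
    have k4 := k3 ρ' (by linarith) l2 z' hz'
    have hCa : z'.v (C a) ≠ 0 := by
      rw [gz_C 0 1 y (one_ne y) ρ' hρ z' hz']
      exact ha
    have h6 := van_dlg h4 hCa (vX_ne hρ hz') h5
    have e : symR (p + 1) f - wdg1 (dlg (C a : A[X]) + (n : ℝ) • dlg X) η =
        wdg1 (dlg (f 0)) (symR p (fun i => f i.succ) - η) +
          wdg1 (dlg (f 0) - (dlg (C a) + (n : ℝ) • dlg X)) η := wdg1_split _ _ _ _
    rw [e]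
    exact LogSpace.Van.add _ (LogSpace.Van.wdg1_right _ (sfat_dlg _ h4) k4)
      (LogSpace.Van.wdg1_left _ h6 (hη.sfat hρ hz'))

end U_MON2

/-- Constant forms at the Gauss point are `x0 + dlog |X| ∧ v0` just below it. -/
theorem below_gauss (y : Ber K A) (r : ℝ) (hr : 0 < r) (z : Ber K A[X]) (hz : IsGz 0 1 y r z)
    {p : ℕ} (θ : Raw A[X] (p + 1) 0) (hθ : IsCst θ) (hs : (berLS K A[X]).SFat z θ) :
    ∃ (x0 : Raw A (p + 1) 0) (v0 : Raw A p 0) (ε : ℝ), IsCst x0 ∧ IsCst v0 ∧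
      (berLS K A).SFat y x0 ∧ (berLS K A).SFat y v0 ∧ 0 < ε ∧ ε < r ∧
      ∀ ρ', r - ε < ρ' → ρ' < r → ∀ z', IsGz 0 1 y ρ' z' → (berLS K A[X]).Van z'
        (θ - (pullR (prX K A).ix x0 + wdg1 (dlg (X : A[X])) (pullR (prX K A).ix v0))) := by
  obtain ⟨u, hu, hd⟩ := hs
  have key : ∃ (x0 : Raw A (p + 1) 0) (v0 : Raw A p 0), IsCst x0 ∧ IsCst v0 ∧
      (berLS K A).SFat y x0 ∧ (berLS K A).SFat y v0 ∧ U_MON2.Near y r θ
        (pullR (prX K A).ix x0 + wdg1 (dlg (X : A[X])) (pullR (prX K A).ix v0)) := by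
    have hspan := cst_span hu hθ
    clear hθ hu
    induction hspan using Submodule.span_induction with
    | mem x hx =>
      obtain ⟨f, hf, rfl⟩ := hx
      obtain ⟨η, hη, hn⟩ := U_MON2.symR_near hr z hz (p + 1) f (fun i => hd _ (hf i))
      obtain ⟨x0, v0, h1, h2, h3, h4, rfl⟩ := hη
      exact ⟨x0, v0, h1, h2, h3, h4, hn⟩
    | zero =>
      refine ⟨0, 0, isCst_zero, isCst_zero, LogSpace.SFat.zero _, LogSpace.SFat.zero _, r / 2,
        by linarith, by linarith, ?_⟩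
      intro ρ' h1 h2 z' hz'
      have e : (0 : Raw A[X] (p + 1) 0) - (pullR (prX K A).ix 0 +
          wdg1 (dlg (X : A[X])) (pullR (prX K A).ix 0)) = 0 := by
        funext x w v
        show (0 : ℝ) - (0 + ∑ j : Fin (p + 1), (-1 : ℝ) ^ (j : ℕ) * _ * 0) = 0
        simp
      rw [e]
      exact ((berLS K A[X]).VanM (p + 1) 0 z').zero_mem
    | add x x' _ _ hx hx' =>
      obtain ⟨x0, v0, h1, h2, h3, h4, h5⟩ := hx
      obtain ⟨x1, v1, k1, k2, k3, k4, k5⟩ := hx'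
      refine ⟨x0 + x1, v0 + v1, h1.add k1, h2.add k2, h3.add k3, h4.add k4, ?_⟩
      have e : pullR (prX K A).ix (x0 + x1) + wdg1 (dlg (X : A[X])) (pullR (prX K A).ix (v0 + v1)) =
          (pullR (prX K A).ix x0 + wdg1 (dlg (X : A[X])) (pullR (prX K A).ix v0)) +
          (pullR (prX K A).ix x1 + wdg1 (dlg (X : A[X])) (pullR (prX K A).ix v1)) := by
        rw [pullR_add, pullR_add, wdg1_add_right]
        abel
      rw [e]
      exact h5.add k5
    | smul c x _ hx =>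
      obtain ⟨x0, v0, h1, h2, h3, h4, h5⟩ := hx
      refine ⟨c • x0, c • v0, h1.smul c, h2.smul c, h3.smul c, h4.smul c, ?_⟩
      have e : pullR (prX K A).ix (c • x0) + wdg1 (dlg (X : A[X])) (pullR (prX K A).ix (c • v0)) =
          c • (pullR (prX K A).ix x0 + wdg1 (dlg (X : A[X])) (pullR (prX K A).ix v0)) := by
        rw [pullR_smul, pullR_smul, wdg1_smul_right, smul_add]
      rw [e]
      exact h5.smul c
  obtain ⟨x0, v0, h1, h2, h3, h4, ε, h5, h6, h7⟩ := key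
  exact ⟨x0, v0, ε, h1, h2, h3, h4, h5, h6, h7⟩

end Pool.Agent.TD


end
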