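import Mathlib
import Pool.Agent.DolbM.C02
import Pool.Agent.DolbM.C03
import Pool.Agent.DolbM.C05
import Pool.Agent.DolbM.C06
import Pool.Agent.DolbM.C11
import Pool.Agent.DolbM.C12
import Pool.Agent.DolbM.C13
import Pool.Agent.DolbM.C14

/-! Parts: TD.U.Res2, TD.U.Sys1, TD.U.Sys2, TD.U.Sys3, TD.U.U5a, TD.BG.ORT, TD.BG.DIM, TD.BG.CIR, TD.BG.FM, TD.BG.ADH, TD.BG.IDJ, TD.BG.STA, TD.BG.All, TD.F.Bridge -/

section

/-! Block U: the integral closure in an algebraically closed field. -/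

open scoped ContDiff Topology
open Polynomial

namespace Pool.Agent.TD

/-- The integral closure of `A` in an algebraically closed field has the splitting property. -/
theorem monSplits_intCl (A Ω : Type) [CommRing A] [Field Ω] [IsAlgClosed Ω] [Algebra A Ω] :
    MonSplits (integralClosure A Ω) := by
  intro f hf
  have hmon : (f.map (algebraMap (integralClosure A Ω) Ω)).Monic := hf.map _
  obtain ⟨s, hs⟩ := splits_iff_exists_multiset.1
    (IsAlgClosed.splits (f.map (algebraMap (integralClosure A Ω) Ω)))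
  rw [hmon.leadingCoeff, C_1, one_mul] at hs
  have hint : ∀ r ∈ s, r ∈ integralClosure A Ω := by
    intro r hr
    have h0 : (f.map (algebraMap (integralClosure A Ω) Ω)).eval r = 0 := by
      rw [hs, eval_multiset_prod]
      apply Multiset.prod_eq_zero
      rw [Multiset.map_map]
      exact Multiset.mem_map.2 ⟨r, hr, by simp⟩
    have h1 : IsIntegral (integralClosure A Ω) r := ⟨f, hf, by rw [← eval_map]; exact h0⟩
    exact isIntegral_trans (R := A) (A := integralClosure A Ω) r h1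
  refine ⟨s.attach.map fun r => ⟨r.1, hint r.1 r.2⟩, ?_⟩
  have hinj : Function.Injective (algebraMap (integralClosure A Ω) Ω) := Subtype.val_injective
  apply Polynomial.map_injective _ hinj
  rw [hs, Polynomial.map_multiset_prod, Multiset.map_map, Multiset.map_map]
  congr 1
  conv_lhs => rw [← Multiset.attach_map_val s, Multiset.map_map]
  apply Multiset.map_congr rfl
  intro r _
  simp only [Function.comp_apply, Polynomial.map_sub, map_X, map_C]
  rfl

/-- The integral closure `R` of the domain `A` in an algebraic closure of its fraction field. -/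
theorem exists_intCl (K A : Type) [NormedField K] [CommRing A] [IsDomain A] [Algebra K A] :
    ∃ (R : Type) (_ : CommRing R) (_ : Algebra K R) (f : A →ₐ[K] R), Function.Injective f ∧
      f.toRingHom.IsIntegral ∧ MonSplits R := by
  let Ω := AlgebraicClosure (FractionRing A)
  let R := integralClosure A Ω
  let _ : Algebra K R := ((algebraMap A R).comp (algebraMap K A)).toAlgebra
  let f : A →ₐ[K] R := { algebraMap A R with commutes' := fun c => rfl }
  refine ⟨R, inferInstance, inferInstance, f, ?_, ?_, monSplits_intCl A Ω⟩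
  · intro a b hab
    have h1 : algebraMap A R a = algebraMap A R b := hab
    have h2 : algebraMap A Ω a = algebraMap A Ω b := congrArg (algebraMap R Ω) h1
    rw [IsScalarTower.algebraMap_apply A (FractionRing A) Ω,
      IsScalarTower.algebraMap_apply A (FractionRing A) Ω] at h2
    exact IsFractionRing.injective A (FractionRing A)
      ((algebraMap (FractionRing A) Ω).injective h2)
  · intro x
    exact integralClosure.isIntegral x

/-- The same for the polynomial rings. -/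
theorem mapX_int {K A R : Type} [NormedField K] [CommRing A] [Algebra K A] [CommRing R]
    [Algebra K R] (f : A →ₐ[K] R) (h1 : Function.Injective f) (h2 : f.toRingHom.IsIntegral) :
    Function.Injective (Polynomial.mapAlgHom f) ∧
      (Polynomial.mapAlgHom f).toRingHom.IsIntegral := by
  constructor
  · rw [coe_mapAlgHom]
    exact Polynomial.map_injective _ h1
  · let _ : Algebra A R := f.toRingHom.toAlgebra
    let _ : Algebra A[X] R[X] := Polynomial.algebra A R
    intro p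
    have h3 : IsIntegral A[X] p := by
      rw [Polynomial.isIntegral_iff_isIntegral_coeff]
      intro n
      exact h2 (p.coeff n)
    exact h3

end Pool.Agent.TD


end

section

/-! Block U: the residue systems of forms. -/

open scoped ContDiff Topology
open Polynomial

namespace Pool.Agent.TD

variable {K R k : Type} [NormedField K] [CommRing R] [Algebra K R] [NormedField k]
  [IsUltrametricDist k] {y : Ber K R} {ι : R →+* k}

namespace Sys1Aux

omit [IsUltrametricDist k]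

theorem pb_germ (h : IsResF y ι) {p q : ℕ} (w : Ber k k[X]) {θ : Raw R p q}
    (hθ : (berLS K R).SFat y θ) : h.pb p q w ((berLS K R).germ θ hθ) =
      (berLS K R[X]).germ (pullR (prX K R).ix θ) ((prX K R).sfatY (fibU_over h w) hθ) :=
  (prX K R).pullY_germ (fibU_over h w) hθ

theorem pb_wdS (h : IsResF y ι) {p q : ℕ} (w : Ber k k[X]) (a : (berLS K R).Stalk 1 0 y)
    (c : (berLS K R).Stalk p q y) : h.pb (p + 1) q w ((berLS K R).wdS p q y a c) =
      (berLS K R[X]).wdS p q _ (h.pb 1 0 w a) (h.pb p q w c) :=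
  (prX K R).pullY_wdS (fibU_over h w) a c

/-- The raw form of `dlog |X - β|`. -/
noncomputable def lr (h : IsResF y ι) (β : k) : Raw R[X] 1 0 :=
  dlg (h.lp β) - dlg (C (h.den β))

theorem lin_germ (h : IsResF y ι) (w : Ber k k[X]) (β : k) (hw : w.v (X - C β) ≠ 0) :
    ∃ kk : (berLS K R[X]).SFat (fibU h w) (lr h β),
      h.lin β w = (berLS K R[X]).germ (lr h β) kk := by
  have h1 : (fibU h w).v (h.lp β) ≠ 0 := by
    rw [h.fib_lp]
    exact mul_ne_zero (norm_ne_zero_iff.2 (h.den_ne β)) hw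
  have h2 : (fibU h w).v (C (h.den β)) ≠ 0 := by
    rw [h.fib_C]
    exact h.v_den β
  have s1 : (berLS K R[X]).SFat (fibU h w) (dlg (h.lp β)) :=
    ⟨{h.lp β}, isSF_dlg (Finset.mem_singleton_self _), fun f hf => by
      rw [Finset.mem_singleton.1 hf]
      exact h1⟩
  have s2 : (berLS K R[X]).SFat (fibU h w) (dlg (C (h.den β))) :=
    ⟨{C (h.den β)}, isSF_dlg (Finset.mem_singleton_self _), fun f hf => by
      rw [Finset.mem_singleton.1 hf]
      exact h2⟩
  refine ⟨s1.sub s2, ?_⟩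
  unfold IsResF.lin
  rw [dif_pos ⟨h1, h2⟩]
  exact (LogSpace.germ_sub _ s1 s2).symm

theorem sum_germ (h : IsResF y ι) {p : ℕ} (w : Ber k k[X]) (v0 : k → Raw R p 0)
    (hv0 : ∀ β, (berLS K R).SFat y (v0 β)) (S : Finset k)
    (hS : ∀ β ∈ S, w.v (X - C β) ≠ 0) :
    ∃ kk : (berLS K R[X]).SFat (fibU h w)
        (∑ β ∈ S, wdg1 (lr h β) (pullR (prX K R).ix (v0 β))),
      ∑ β ∈ S, (berLS K R[X]).wdS p 0 _ (h.lin β w)
        (h.pb p 0 w ((berLS K R).germ (v0 β) (hv0 β))) = (berLS K R[X]).germ _ kk := by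
  classical
  induction S using Finset.induction_on with
  | empty =>
    refine ⟨by rw [Finset.sum_empty]; exact LogSpace.SFat.zero _, ?_⟩
    rw [Finset.sum_empty]
    exact ((berLS K R[X]).germ_of_eq_zero Finset.sum_empty _).symm
  | insert β S hβ ih =>
    obtain ⟨k1, e1⟩ := ih fun β' h' => hS β' (Finset.mem_insert_of_mem h')
    obtain ⟨k2, e2⟩ := lin_germ h w β (hS β (Finset.mem_insert_self β S))
    have k3 := LogSpace.SFat.wdg1 _ k2 ((prX K R).sfatY (fibU_over h w) (hv0 β))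
    refine ⟨by rw [Finset.sum_insert hβ]; exact k3.add k1, ?_⟩
    rw [Finset.sum_insert hβ, e1, e2, pb_germ, LogSpace.wdS_germ, ← LogSpace.germ_add]
    exact (berLS K R[X]).germ_congr (Finset.sum_insert
      (f := fun β => wdg1 (lr h β) (pullR (prX K R).ix (v0 β))) hβ).symm _ _

/-- A relation at `w` holds near `w`. -/
theorem near (h : IsResF y ι) {p : ℕ} (w : Ber k k[X]) (x : (berLS K R).Stalk (p + 1) 0 y)
    (v : k → (berLS K R).Stalk p 0 y) (S : Finset k) (hS : ∀ β ∈ S, w.v (X - C β) ≠ 0)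
    (e : h.pb (p + 1) 0 w x +
      ∑ β ∈ S, (berLS K R[X]).wdS p 0 _ (h.lin β w) (h.pb p 0 w (v β)) = 0) :
    ∀ᶠ w' in 𝓝 w, h.pb (p + 1) 0 w' x +
      ∑ β ∈ S, (berLS K R[X]).wdS p 0 _ (h.lin β w') (h.pb p 0 w' (v β)) = 0 := by
  obtain ⟨x0, hx0, rfl⟩ := (berLS K R).exists_germ x
  choose v0 hv0 hv1 using fun β => (berLS K R).exists_germ (v β)
  obtain rfl : v = fun β => (berLS K R).germ (v0 β) (hv0 β) := funext fun β => (hv1 β).symm
  have key : ∀ w' : Ber k k[X], (∀ β ∈ S, w'.v (X - C β) ≠ 0) →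
      (h.pb (p + 1) 0 w' ((berLS K R).germ x0 hx0) +
        ∑ β ∈ S, (berLS K R[X]).wdS p 0 _ (h.lin β w')
          (h.pb p 0 w' ((berLS K R).germ (v0 β) (hv0 β))) = 0 ↔
        (berLS K R[X]).Van (fibU h w') (pullR (prX K R).ix x0 +
          ∑ β ∈ S, wdg1 (lr h β) (pullR (prX K R).ix (v0 β)))) := by
    intro w' hw'
    obtain ⟨k1, e1⟩ := sum_germ h w' v0 hv0 S hw'
    rw [e1, pb_germ, ← LogSpace.germ_add, LogSpace.germ_eq_zero]
  have hdom : ∀ᶠ w' in 𝓝 w, ∀ β ∈ S, w'.v (X - C β) ≠ 0 := by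
    rw [Filter.eventually_all_finset]
    exact fun β hβ =>
      (isOpen_ne_fun (Ber.continuous_v (X - C β)) continuous_const).mem_nhds (hS β hβ)
  have hcont : Continuous (fibU h) :=
    Ber.continuous_iff.2 fun a => Ber.continuous_v (a.map ι)
  have hvan := hcont.continuousAt.eventually (LogSpace.Van.nhds _ ((key w hS).1 e))
  filter_upwards [hdom, hvan] with w' h1 h2
  exact (key w' h1).2 h2

theorem wdg1_sub_left {Φ : Type} {p q : ℕ} (η η' : Raw Φ 1 0) (θ : Raw Φ p q) :
    wdg1 (η - η') θ = wdg1 η θ - wdg1 η' θ := by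
  have h1 : η - η' = η + (-1 : ℝ) • η' := by rw [neg_one_smul, sub_eq_add_neg]
  rw [h1, wdg1_add_left, wdg1_smul_left, neg_one_smul, sub_eq_add_neg]

/-- Independence of two terms at a Gauss point. -/
theorem two (h : IsResF y ι) {p : ℕ} (β : k) (r : ℝ) (hr : 0 < r) (w : Ber k k[X])
    (hw1 : w.v (X - C β) ≠ 0)
    (hw : ∀ f : k[X], w.v f = (⨆ i : Fin (f.natDegree + 1),
      ‖(f.comp (X + C β)).coeff i‖ * r ^ (i : ℕ)))
    (x : (berLS K R).Stalk (p + 1) 0 y) (hx : x ∈ (berLS K R).Lp (p + 1) y)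
    (v : (berLS K R).Stalk p 0 y) (hv : v ∈ (berLS K R).Lp p y)
    (e : h.pb (p + 1) 0 w x + (berLS K R[X]).wdS p 0 _ (h.lin β w) (h.pb p 0 w v) = 0) :
    v = 0 := by
  obtain ⟨x0, cx, hx0, rfl⟩ := (berLS K R).exists_cst hx
  obtain ⟨v0, cv, hv0, rfl⟩ := (berLS K R).exists_cst hv
  have hden : (berLS K R).SFat y (dlg (h.den β)) :=
    ⟨{h.den β}, isSF_dlg (Finset.mem_singleton_self _), fun f hf => by
      rw [Finset.mem_singleton.1 hf]
      exact h.v_den β⟩
  have hg : IsGz (h.num β) (h.den β) y r (fibU h w) := by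
    refine fibU_gz h (h.num β) (h.den β) (h.den_ne β) r hr w fun f => ?_
    rw [hw f, ← h.eq_div β]
  obtain ⟨k2, e2⟩ := lin_germ h w β hw1
  rw [e2, pb_germ, pb_germ, LogSpace.wdS_germ, ← LogSpace.germ_add,
    LogSpace.germ_eq_zero] at e
  have e3 : pullR (prX K R).ix x0 + wdg1 (lr h β) (pullR (prX K R).ix v0) =
      pullR (prX K R).ix (x0 - wdg1 (dlg (h.den β)) v0) +
        wdg1 (dlg (C (h.den β) * X - C (h.num β))) (pullR (prX K R).ix v0) := by
    have e4 : pullR (prX K R).ix (x0 - wdg1 (dlg (h.den β)) v0) =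
        pullR (prX K R).ix x0 - wdg1 (dlg (C (h.den β))) (pullR (prX K R).ix v0) := rfl
    have e5 : lr h β = dlg (C (h.den β) * X - C (h.num β)) - dlg (C (h.den β)) := rfl
    rw [e4, e5, wdg1_sub_left]
    abel
  rw [e3] at e
  have hcst : IsCst (x0 - wdg1 (dlg (h.den β)) v0) := by
    have h1 : x0 - wdg1 (dlg (h.den β)) v0 = x0 + (-1 : ℝ) • wdg1 (dlg (h.den β)) v0 := by
      rw [neg_one_smul, sub_eq_add_neg]
    rw [h1]
    exact cx.add (((isCst_dlg _).wdg1 cv).smul _)
  have h2 := gz_ind (h.num β) (h.den β) y (h.v_den β) r hr (fibU h w) hg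
    (x0 - wdg1 (dlg (h.den β)) v0) hcst (hx0.sub (LogSpace.SFat.wdg1 _ hden hv0)) v0 cv hv0 e
  exact ((berLS K R).germ_eq_zero hv0).2 h2.2

/-- Base germs are determined by their pull backs at Gauss points. -/
theorem one (h : IsResF y ι) {p : ℕ} (a : k) (r : ℝ) (hr : 0 < r) (w : Ber k k[X])
    (hw : ∀ f : k[X], w.v f = (⨆ i : Fin (f.natDegree + 1),
      ‖(f.comp (X + C a)).coeff i‖ * r ^ (i : ℕ)))
    (x : (berLS K R).Stalk p 0 y) (hx : x ∈ (berLS K R).Lp p y)
    (e : h.pb p 0 w x = 0) : x = 0 := by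
  obtain ⟨x0, cx, hx0, rfl⟩ := (berLS K R).exists_cst hx
  have hg : IsGz (h.num a) (h.den a) y r (fibU h w) := by
    refine fibU_gz h (h.num a) (h.den a) (h.den_ne a) r hr w fun f => ?_
    rw [hw f, ← h.eq_div a]
  rw [pb_germ, LogSpace.germ_eq_zero] at e
  exact ((berLS K R).germ_eq_zero hx0).2
    (gz_inj (h.num a) (h.den a) y (h.v_den a) r hr (fibU h w) hg x0 cx hx0 e)

end Sys1Aux

namespace Sys1Aux

/-- The values of a Gauss point. -/
theorem gauss_eq [IsAlgClosed k] {a : k} {ρ : ℝ} (hρ : 0 < ρ) {w : Ber k k[X]}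
    (hw : ∀ β, w.v (X - C β) = max ρ ‖a - β‖) : ∀ f : k[X], w.v f =
      (⨆ i : Fin (f.natDegree + 1), ‖(f.comp (X + C a)).coeff i‖ * ρ ^ (i : ℕ)) := by
  obtain ⟨w', h1, h2, -⟩ := exists_eta a ρ hρ.le
  have e : w = w' := ext_lin fun β => by rw [hw, h1]
  rw [e]
  exact h2

theorem max_eq {a b c : k} {ρ : ℝ} (h : ‖a - b‖ ≤ ρ) : max ρ ‖b - c‖ = max ρ ‖a - c‖ := by
  apply le_antisymm
  · refine max_le (le_max_left _ _) ?_
    have h1 : b - c = (b - a) + (a - c) := by ring
    rw [h1]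
    refine (IsUltrametricDist.norm_add_le_max _ _).trans (max_le ?_ (le_max_right _ _))
    rw [norm_sub_rev]
    exact h.trans (le_max_left _ _)
  · refine max_le (le_max_left _ _) ?_
    have h1 : a - c = (a - b) + (b - c) := by ring
    rw [h1]
    exact (IsUltrametricDist.norm_add_le_max _ _).trans (max_le (h.trans (le_max_left _ _)) (le_max_right _ _))

theorem ind_v [IsAlgClosed k] (h : IsResF y ι) {p : ℕ} (a : k) (ρ : ℝ) (w : Ber k k[X])
    (hρ : 0 < ρ) (hw : ∀ β, w.v (X - C β) = max ρ ‖a - β‖) (S : Finset k)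
    (x : (berLS K R).Stalk (p + 1) 0 y) (hx : x ∈ (berLS K R).Lp (p + 1) y)
    (v : k → (berLS K R).Stalk p 0 y) (hv : ∀ β, v β ∈ (berLS K R).Lp p y)
    (h1 : ∀ β ∈ S, ‖a - β‖ ≤ ρ) (h2 : ∀ β ∈ S, ∀ β' ∈ S, β ≠ β' → ρ ≤ ‖β - β'‖)
    (e : h.pb (p + 1) 0 w x +
      ∑ β ∈ S, (berLS K R[X]).wdS p 0 _ (h.lin β w) (h.pb p 0 w (v β)) = 0) :
    ∀ β ∈ S, v β = 0 := by
  classical
  intro β0 hβ0
  have hne : ∀ β, w.v (X - C β) ≠ 0 := fun β => by
    rw [hw]
    exact (lt_max_of_lt_left hρ).ne'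
  have hev := near h w x v S (fun β _ => hne β) e
  obtain ⟨r, -, hr, hrt⟩ := exists_seq_strictMono_tendsto' hρ
  choose W hW1 hW2 _ using fun n => exists_eta β0 (r n) (hr n).1.le
  have ht : Filter.Tendsto W Filter.atTop (𝓝 w) := by
    refine tendsto_lin fun β => ?_
    have e1 : w.v (X - C β) = max ρ ‖β0 - β‖ := by rw [hw, max_eq (h1 β0 hβ0)]
    rw [e1]
    have e2 : (fun n => (W n).v (X - C β)) = fun n => max (r n) ‖β0 - β‖ :=
      funext fun n => hW1 n β
    rw [e2]
    exact hrt.max tendsto_const_nhds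
  obtain ⟨n, hn⟩ := (ht.eventually hev).exists
  have hr0 : (W n).v (X - C β0) = r n := by
    rw [hW1, sub_self, norm_zero, max_eq_left (hr n).1.le]
  have hfar : ∀ β ∈ S.erase β0, h.lin β (W n) = h.pb 1 0 (W n) (h.bl (β - β0)) := by
    intro β hβ
    have hβS := Finset.mem_of_mem_erase hβ
    have hβ' := Finset.ne_of_mem_erase hβ
    refine h.lin_far (W n) β β0 ?_
    rw [hr0, hW1]
    exact ((hr n).2.trans_le (h2 β0 hβ0 β hβS hβ'.symm)).trans_le (le_max_right _ _)
  obtain ⟨x', hx'⟩ : ∃ x', x' = x + ∑ β ∈ S.erase β0, (berLS K R).wdS p 0 y (h.bl (β - β0)) (v β) :=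
    ⟨_, rfl⟩
  have hx'm : x' ∈ (berLS K R).Lp (p + 1) y := by
    rw [hx']
    exact Submodule.add_mem _ hx (Submodule.sum_mem _ fun β _ =>
      (berLS K R).wdS_mem (h.bl_mem _) (hv β))
  refine two h β0 (r n) (hr n).1 (W n) (by rw [hr0]; exact (hr n).1.ne') (hW2 n) x' hx'm (v β0)
    (hv β0) ?_
  rw [← hn, ← Finset.add_sum_erase S _ hβ0, hx', map_add, map_sum]
  have e3 : ∑ β ∈ S.erase β0, (berLS K R[X]).wdS p 0 _ (h.lin β (W n)) (h.pb p 0 (W n) (v β)) =
      ∑ β ∈ S.erase β0, h.pb (p + 1) 0 (W n) ((berLS K R).wdS p 0 y (h.bl (β - β0)) (v β)) := by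
    refine Finset.sum_congr rfl fun β hβ => ?_
    rw [hfar β hβ, pb_wdS]
  rw [e3]
  abel

end Sys1Aux

namespace IsResF

/-- The residue system of the forms of type `(p+1, 0)`. -/
noncomputable def sys [IsAlgClosed k] (h : IsResF y ι) (p : ℕ) :
    RSys k ((berLS K R).Lp (p + 1) y) ((berLS K R).Lp p y) where
  E w := (berLS K R[X]).Stalk (p + 1) 0 (fibU h w)
  i w := ((h.pb (p + 1) 0 w).comp ((berLS K R).Lp (p + 1) y).subtype).toAddMonoidHom
  j w β := (((berLS K R[X]).wdS p 0 _ (h.lin β w)).comp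
    ((h.pb p 0 w).comp ((berLS K R).Lp p y).subtype)).toAddMonoidHom
  l γ := (LinearMap.codRestrict ((berLS K R).Lp (p + 1) y)
    (((berLS K R).wdS p 0 y (h.bl γ)).comp ((berLS K R).Lp p y).subtype)
    (fun v => (berLS K R).wdS_mem (h.bl_mem γ) v.2)).toAddMonoidHom
  j1 := by
    intro w β β' hw v
    show (berLS K R[X]).wdS p 0 _ (h.lin β w) (h.pb p 0 w v.1) =
      h.pb (p + 1) 0 w ((berLS K R).wdS p 0 y (h.bl (β - β')) v.1)
    rw [h.lin_far w β β' hw, Sys1Aux.pb_wdS]
  j2 := by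
    intro w β β' hw v
    show (berLS K R[X]).wdS p 0 _ (h.lin β w) (h.pb p 0 w v.1) =
      (berLS K R[X]).wdS p 0 _ (h.lin β' w) (h.pb p 0 w v.1)
    rw [h.lin_near w β β' hw]
  ind := by
    intro a ρ w hρ hw S x v h1 h2 e
    have e' : h.pb (p + 1) 0 w x.1 +
        ∑ β ∈ S, (berLS K R[X]).wdS p 0 _ (h.lin β w) (h.pb p 0 w (v β).1) = 0 := e
    have hv := Sys1Aux.ind_v h a ρ w hρ hw S x.1 x.2 (fun β => (v β).1) (fun β => (v β).2)
      h1 h2 e'
    refine ⟨?_, fun β hβ => Subtype.ext (hv β hβ)⟩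
    have e3 : ∑ β ∈ S, (berLS K R[X]).wdS p 0 _ (h.lin β w) (h.pb p 0 w (v β).1) = 0 :=
      Finset.sum_eq_zero fun β hβ => by
        have h4 : (v β).1 = 0 := hv β hβ
        rw [h4, map_zero, map_zero]
    rw [e3, add_zero] at e'
    exact Subtype.ext (Sys1Aux.one h a ρ hρ w (Sys1Aux.gauss_eq hρ hw) x.1 x.2 e')

/-- The residue system of the forms of type `(0, 0)`. -/
noncomputable def sys0 [IsAlgClosed k] (h : IsResF y ι) : RSys k ((berLS K R).Lp 0 y) PUnit where
  E w := (berLS K R[X]).Stalk 0 0 (fibU h w)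
  i w := ((h.pb 0 0 w).comp ((berLS K R).Lp 0 y).subtype).toAddMonoidHom
  j w β := 0
  l γ := 0
  j1 := by
    intro w β β' _ v
    show (0 : (berLS K R[X]).Stalk 0 0 (fibU h w)) = h.pb 0 0 w 0
    rw [map_zero]
  j2 := by
    intro w β β' _ v
    rfl
  ind := by
    intro a ρ w hρ hw S x v _ _ e
    refine ⟨?_, fun β _ => rfl⟩
    have e' : h.pb 0 0 w x.1 +
        ∑ β ∈ S, (0 : (berLS K R[X]).Stalk 0 0 (fibU h w)) = 0 := e
    rw [Finset.sum_const_zero, add_zero] at e'
    exact Subtype.ext (Sys1Aux.one h a ρ hρ w (Sys1Aux.gauss_eq hρ hw) x.1 x.2 e')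

end IsResF

end Pool.Agent.TD


end

section

/-! Block U: locally constant forms along the fibre are sections of the residue system. -/

open scoped ContDiff Topology
open Polynomial

namespace Pool.Agent.TD

variable {K R k : Type} [NormedField K] [CommRing R] [Algebra K R] [NormedField k]
  [IsUltrametricDist k] {y : Ber K R} {ι : R →+* k}

namespace IsResF

omit [IsUltrametricDist k] in
theorem Sys2.cont (h : IsResF y ι) : Continuous (fibU h) := by
  rw [Ber.continuous_iff]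
  intro a
  exact Ber.continuous_v (a.map ι)

/-- The germs along the fibre are given near `w` by one raw form. -/
def Sys2.LR (h : IsResF y ι) {p q : ℕ} (c : ∀ w, (berLS K R[X]).Stalk p q (fibU h w))
    (w : Ber k k[X]) : Prop :=
  ∃ Θ : Raw R[X] p q, ∀ᶠ w' in 𝓝 w, ∃ k' : (berLS K R[X]).SFat (fibU h w') Θ,
    c w' = (berLS K R[X]).germ Θ k'

omit [IsUltrametricDist k] in
theorem Sys2.LR.add {h : IsResF y ι} {p q : ℕ}
    {c c' : ∀ w, (berLS K R[X]).Stalk p q (fibU h w)} {w : Ber k k[X]}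
    (hc : Sys2.LR h c w) (hc' : Sys2.LR h c' w) : Sys2.LR h (fun w' => c w' + c' w') w := by
  obtain ⟨Θ, hΘ⟩ := hc
  obtain ⟨Θ', hΘ'⟩ := hc'
  refine ⟨Θ + Θ', (hΘ.and hΘ').mono ?_⟩
  rintro w' ⟨⟨k1, e1⟩, ⟨k2, e2⟩⟩
  exact ⟨k1.add k2, by beta_reduce; rw [e1, e2, (berLS K R[X]).germ_add]⟩

omit [IsUltrametricDist k] in
theorem Sys2.LR.zero {h : IsResF y ι} {p q : ℕ} {w : Ber k k[X]} :
    Sys2.LR h (p := p) (q := q) (fun _ => 0) w :=
  ⟨0, Filter.Eventually.of_forall fun _ =>
    ⟨LogSpace.SFat.zero _, ((berLS K R[X]).germ_zero).symm⟩⟩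

omit [IsUltrametricDist k] in
theorem Sys2.LR.sum {h : IsResF y ι} {p q : ℕ} {w : Ber k k[X]} (S : Finset k)
    {c : k → ∀ w, (berLS K R[X]).Stalk p q (fibU h w)} (hc : ∀ β ∈ S, Sys2.LR h (c β) w) :
    Sys2.LR h (fun w' => ∑ β ∈ S, c β w') w := by
  classical
  induction S using Finset.induction_on with
  | empty =>
    have : (fun w' : Ber k k[X] => ∑ β ∈ (∅ : Finset k), c β w') = fun _ => 0 := by
      funext w'
      exact Finset.sum_empty
    rw [this]
    exact Sys2.LR.zero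
  | insert a S ha ih =>
    have : (fun w' : Ber k k[X] => ∑ β ∈ insert a S, c β w') =
        fun w' => c a w' + ∑ β ∈ S, c β w' := by
      funext w'
      exact Finset.sum_insert ha
    rw [this]
    exact (hc a (Finset.mem_insert_self a S)).add
      (ih fun β hβ => hc β (Finset.mem_insert_of_mem hβ))

omit [IsUltrametricDist k] in
theorem Sys2.LR.wd {h : IsResF y ι} {p q : ℕ} {w : Ber k k[X]}
    {a : ∀ w, (berLS K R[X]).Stalk 1 0 (fibU h w)}
    {c : ∀ w, (berLS K R[X]).Stalk p q (fibU h w)} (ha : Sys2.LR h a w) (hc : Sys2.LR h c w) :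
    Sys2.LR h (fun w' => (berLS K R[X]).wdS p q _ (a w') (c w')) w := by
  obtain ⟨Θ, hΘ⟩ := ha
  obtain ⟨Θ', hΘ'⟩ := hc
  refine ⟨wdg1 Θ Θ', (hΘ.and hΘ').mono ?_⟩
  rintro w' ⟨⟨k1, e1⟩, ⟨k2, e2⟩⟩
  exact ⟨LogSpace.SFat.wdg1 _ k1 k2, by beta_reduce; rw [e1, e2, LogSpace.wdS_germ]⟩

omit [IsUltrametricDist k] in
theorem Sys2.LR.pb (h : IsResF y ι) {p q : ℕ} (w : Ber k k[X])
    (x : (berLS K R).Stalk p q y) : Sys2.LR h (fun w' => h.pb p q w' x) w := by
  obtain ⟨θ, k1, rfl⟩ := (berLS K R).exists_germ x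
  exact ⟨pullR (prX K R).ix θ, Filter.Eventually.of_forall fun w' =>
    ⟨(prX K R).sfatY (fibU_over h w') k1, (prX K R).pullY_germ (fibU_over h w') k1⟩⟩

omit [IsUltrametricDist k] in
theorem Sys2.LR.lin (h : IsResF y ι) (w : Ber k k[X]) (β : k) (hβ : w.v (X - C β) ≠ 0) :
    Sys2.LR h (fun w' => h.lin β w') w := by
  have h2 : ∀ w' : Ber k k[X], (fibU h w').v (C (h.den β)) ≠ 0 := by
    intro w'
    rw [h.fib_C]
    exact h.v_den β
  have h1 : ∀ᶠ w' in 𝓝 w, (fibU h w').v (h.lp β) ≠ 0 := by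
    have h3 : (fibU h w).v (h.lp β) ≠ 0 := by
      rw [h.fib_lp]
      exact mul_ne_zero (norm_ne_zero_iff.2 (h.den_ne β)) hβ
    have h4 : Continuous (fun w' : Ber k k[X] => (fibU h w').v (h.lp β)) :=
      (Ber.continuous_v (h.lp β)).comp (Sys2.cont h)
    exact h4.continuousAt.eventually_ne h3
  refine ⟨dlg (h.lp β) - dlg (C (h.den β)), h1.mono fun w' hw' => ?_⟩
  have e : h.lin β w' = (berLS K R[X]).dlS (h.lp β) hw' -
      (berLS K R[X]).dlS (C (h.den β)) (h2 w') := by
    unfold IsResF.lin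
    rw [dif_pos ⟨hw', h2 w'⟩]
  beta_reduce
  rw [e]
  unfold LogSpace.dlS
  exact ⟨_, ((berLS K R[X]).germ_sub _ _).symm⟩

omit [IsUltrametricDist k] in
theorem Sys2.LR.uniq {h : IsResF y ι} {p q : ℕ} {w : Ber k k[X]}
    {c : ∀ w, (berLS K R[X]).Stalk p q (fibU h w)} (hc : Sys2.LR h c w) (θ : Raw R[X] p q)
    (hk : (berLS K R[X]).SFat (fibU h w) θ) (e : (berLS K R[X]).germ θ hk = c w) :
    ∀ᶠ w' in 𝓝 w, ∀ k' : (berLS K R[X]).SFat (fibU h w') θ,
      (berLS K R[X]).germ θ k' = c w' := by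
  obtain ⟨Θ, hΘ⟩ := hc
  obtain ⟨k0, e0⟩ := hΘ.self_of_nhds
  have h1 : (berLS K R[X]).Van (fibU h w) (θ - Θ) :=
    ((berLS K R[X]).germ_eq_iff hk k0).1 (e.trans e0)
  have h2 : ∀ᶠ w' in 𝓝 w, (berLS K R[X]).Van (fibU h w') (θ - Θ) :=
    (Sys2.cont h).continuousAt.eventually (LogSpace.Van.nhds _ h1)
  refine (hΘ.and h2).mono ?_
  rintro w' ⟨⟨k1, e1⟩, h3⟩ k'
  rw [e1]
  exact ((berLS K R[X]).germ_eq_iff k' k1).2 h3

/-- Locally constant forms along the fibre are sections of the system. -/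
theorem lc_sys [IsAlgClosed k] (h : IsResF y ι) (p : ℕ) {D : Set (Ber k k[X])}
    (s : ∀ w, (berLS K R[X]).Stalk (p + 1) 0 (fibU h w)) (w : Ber k k[X])
    (θ : Raw R[X] (p + 1) 0) (hθ : IsCst θ) (hk : (berLS K R[X]).SFat (fibU h w) θ)
    (hs : ∀ᶠ w' in 𝓝 w, w' ∈ D → ∃ k' : (berLS K R[X]).SFat (fibU h w') θ,
      s w' = (berLS K R[X]).germ θ k') : (h.sys p).LC s D w := by
  obtain ⟨x, S, v, hx, hv, hS, hc⟩ := h.gen w p ((berLS K R[X]).germ θ hk)
    (LogSpace.germ_cst_mem _ hθ hk)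
  refine ⟨⟨x, hx⟩, S, fun β => ⟨v β, hv β⟩, hS, ?_⟩
  have hLR : Sys2.LR h (fun w' => h.pb (p + 1) 0 w' x +
      ∑ β ∈ S, (berLS K R[X]).wdS p 0 _ (h.lin β w') (h.pb p 0 w' (v β))) w :=
    (Sys2.LR.pb h w x).add (Sys2.LR.sum S fun β hβ =>
      (Sys2.LR.lin h w β (hS β hβ)).wd (Sys2.LR.pb h w (v β)))
  refine ((hLR.uniq θ hk hc).and hs).mono ?_
  rintro w' ⟨h1, h2⟩ hw'
  obtain ⟨k', e⟩ := h2 hw'
  exact e.trans (h1 k')

theorem lc_sys0 [IsAlgClosed k] (h : IsResF y ι) {D : Set (Ber k k[X])}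
    (s : ∀ w, (berLS K R[X]).Stalk 0 0 (fibU h w)) (w : Ber k k[X])
    (θ : Raw R[X] 0 0) (hθ : IsCst θ)
    (hs : ∀ᶠ w' in 𝓝 w, w' ∈ D → ∃ k' : (berLS K R[X]).SFat (fibU h w') θ,
      s w' = (berLS K R[X]).germ θ k') : h.sys0.LC s D w := by
  obtain ⟨t, ht⟩ : ∃ t : ℝ, t = θ 0 ![] ![] := ⟨_, rfl⟩
  have hk0 : (berLS K R).SFat y (t • one0 : Raw R 0 0) :=
    LogSpace.SFat.smul t ⟨∅, isSF_one0 ∅, by simp⟩
  have hθt : pullR (prX K R).ix (t • one0 : Raw R 0 0) = θ := by
    funext x w' v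
    change t * 1 = θ x w' v
    rw [hθ x 0 w' v, mul_one, ht]
    congr 1 <;> exact Subsingleton.elim _ _
  refine ⟨⟨(berLS K R).germ _ hk0, LogSpace.germ_cst_mem _ (isCst_one0.smul t) hk0⟩, ∅,
    fun _ => PUnit.unit, by simp, ?_⟩
  refine hs.mono ?_
  intro w' h2 hw'
  obtain ⟨k', e⟩ := h2 hw'
  have h3 : h.pb 0 0 w' ((berLS K R).germ _ hk0) =
      (berLS K R[X]).germ (pullR (prX K R).ix (t • one0 : Raw R 0 0))
        ((prX K R).sfatY (fibU_over h w') hk0) :=
    (prX K R).pullY_germ (fibU_over h w') hk0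
  have h4 : h.pb 0 0 w' ((berLS K R).germ _ hk0) = (berLS K R[X]).germ θ k' :=
    h3.trans ((berLS K R[X]).germ_congr hθt _ _)
  rw [Finset.sum_empty, add_zero]
  exact e.trans h4.symm

end IsResF

end Pool.Agent.TD


end

section

/-! Block U3: sections over the circle. -/

open scoped ContDiff Topology
open Polynomial

namespace Pool.Agent.TD

variable {K R k : Type} [NormedField K] [CommRing R] [Algebra K R] [NormedField k]
  [IsUltrametricDist k] {y : Ber K R} {ι : R →+* k}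

namespace IsResF

omit [IsUltrametricDist k] in
theorem v_X_ne (h : IsResF y ι) {r : ℝ} (hr : 0 < r) {w : Ber k k[X]} (hw : w.v X = r) :
    (fibU h w).v (X : R[X]) ≠ 0 := by
  rw [fibU_v, map_X, hw]; exact hr.ne'

/-- `dlog |1| = 0`. -/
theorem dlS_one {z : Ber K R[X]} (h1 : z.v (1 : R[X]) ≠ 0) :
    (berLS K R[X]).dlS (z := z) (1 : R[X]) h1 = 0 := by
  have h2 := (berLS K R[X]).dlS_eq_sum (z := z) (f := (1 : R[X])) (n := 0) (g := Fin.elim0) h1
    (fun i => i.elim0) Fin.elim0 0 (Filter.Eventually.of_forall fun z' => by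
      show Real.log (z'.v 1) = _
      rw [z'.one]
      simp)
  rw [h2]
  simp

omit [IsUltrametricDist k] in
/-- `dlog |X - 0| = dlog |X|`. -/
theorem lin_zero (h : IsResF y ι) (w : Ber k k[X]) (hX : (fibU h w).v (X : R[X]) ≠ 0) :
    h.lin 0 w = (berLS K R[X]).dlS X hX := by
  have e0 : (0 : k) = ι 0 / ι 1 := by simp
  have e1 : (C (1 : R) * X - C 0 : R[X]) = X := by simp
  have e2 : (C (1 : R) : R[X]) = 1 := C_1
  have h1 : (fibU h w).v (C (1 : R) * X - C 0) ≠ 0 := by rw [e1]; exact hX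
  have h2 : (fibU h w).v (C (1 : R)) ≠ 0 := by rw [e2, (fibU h w).one]; exact one_ne_zero
  rw [e0, h.lin_eq w (by simp) h1 h2]
  have e3 : (berLS K R[X]).dlS (z := fibU h w) (C (1 : R)) h2 = 0 := by
    have : ∀ (f : R[X]) (hf : (fibU h w).v f ≠ 0), f = 1 →
        (berLS K R[X]).dlS (z := fibU h w) f hf = 0 := by
      rintro f hf rfl
      exact dlS_one hf
    exact this _ _ e2
  have e4 : (berLS K R[X]).dlS (z := fibU h w) (C (1 : R) * X - C 0) h1 =
      (berLS K R[X]).dlS X hX := by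
    have : ∀ (f : R[X]) (hf : (fibU h w).v f ≠ 0), f = X →
        (berLS K R[X]).dlS (z := fibU h w) f hf = (berLS K R[X]).dlS X hX := by
      rintro f hf rfl
      rfl
    exact this _ _ e1
  rw [e3, e4, sub_zero]

/-- (U3) for forms of type `(p+1, 0)`. -/
theorem circle [IsAlgClosed k] (h : IsResF y ι) (p : ℕ) {r : ℝ} (hr : 0 < r)
    (s : ∀ w, (berLS K R[X]).Stalk (p + 1) 0 (fibU h w))
    (hs : ∀ w : Ber k k[X], w.v X = r → ∃ θ : Raw R[X] (p + 1) 0, IsCst θ ∧
      ∀ᶠ w' in 𝓝 w, w'.v X = r → ∃ k' : (berLS K R[X]).SFat (fibU h w') θ,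
      s w' = (berLS K R[X]).germ θ k') :
    ∃ x ∈ (berLS K R).Lp (p + 1) y, ∃ v ∈ (berLS K R).Lp p y, ∀ w, ∀ hw : w.v X = r,
      s w = h.pb (p + 1) 0 w x + (berLS K R[X]).wdS p 0 _
        ((berLS K R[X]).dlS X (h.v_X_ne hr hw)) (h.pb p 0 w v) := by
  have hLC : ∀ w : Ber k k[X], w.v X = r →
      (h.sys p).LC s {w : Ber k k[X] | w.v X = r} w := by
    intro w hw
    obtain ⟨θ, hθ, he⟩ := hs w hw
    obtain ⟨hk, -⟩ := he.self_of_nhds hw
    exact h.lc_sys p s w θ hθ hk he
  obtain ⟨x, v, hxv⟩ := RSys.circle_section (h.sys p) hr s hLC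
  refine ⟨x.1, x.2, v.1, v.2, fun w hw => ?_⟩
  rw [← h.lin_zero w]
  exact hxv w hw

theorem circle0 [IsAlgClosed k] (h : IsResF y ι) {r : ℝ} (hr : 0 < r)
    (s : ∀ w, (berLS K R[X]).Stalk 0 0 (fibU h w))
    (hs : ∀ w : Ber k k[X], w.v X = r → ∃ θ : Raw R[X] 0 0, IsCst θ ∧
      ∀ᶠ w' in 𝓝 w, w'.v X = r → ∃ k' : (berLS K R[X]).SFat (fibU h w') θ,
      s w' = (berLS K R[X]).germ θ k') :
    ∃ x ∈ (berLS K R).Lp 0 y, ∀ w, w.v X = r → s w = h.pb 0 0 w x := by
  have hLC : ∀ w : Ber k k[X], w.v X = r →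
      h.sys0.LC s {w : Ber k k[X] | w.v X = r} w := by
    intro w hw
    obtain ⟨θ, hθ, he⟩ := hs w hw
    exact h.lc_sys0 s w θ hθ he
  obtain ⟨x, v, hxv⟩ := RSys.circle_section h.sys0 hr s hLC
  refine ⟨x.1, x.2, fun w hw => ?_⟩
  have h1 := hxv w hw
  have h2 : h.sys0.j w 0 v = 0 := rfl
  rw [h2, add_zero] at h1
  exact h1

end IsResF

end Pool.Agent.TD


end

section

/-! Block U5: degree zero part of the fibre theorem. -/

open scoped ContDiff Topology
open Polynomial

namespace Pool.Agent.TD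

namespace U5aAux

/-- A global section agrees near `z` with every raw form which represents its germ at `z`. -/
theorem near_of_germ {X Φ : Type} [TopologicalSpace X] (L : LogSpace X Φ) {p q : ℕ} (c : L.G p q)
    {z : X} {θ : Raw Φ p q} (h : L.SFat z θ) (e : c.1 z = L.germ θ h) :
    ∀ᶠ z' in 𝓝 z, ∃ h' : L.SFat z' θ, c.1 z' = L.germ θ h' := by
  obtain ⟨η, hη⟩ := c.2 z
  obtain ⟨k, ek⟩ := hη.self_of_nhds
  have hV : L.Van z (η - θ) := (L.germ_eq_iff k h).1 (ek.symm.trans e)
  filter_upwards [hη, LogSpace.Van.nhds L hV, LogSpace.SFat.nhds L h] with z' hk' hv h'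
  obtain ⟨k', e'⟩ := hk'
  exact ⟨h', e'.trans ((L.germ_eq_iff k' h').2 hv)⟩

theorem shp_zero_one {R : Type} [CommRing R] (f : R[X]) : shp (0 : R) 1 f = f := by
  unfold shp
  rw [scaleRoots_one, C_0, add_zero, comp_X]

/-- Gauss points of centre `0` are mapped to Gauss points of centre `0`. -/
theorem isGz_res {K A R : Type} [NormedField K] [CommRing A] [Algebra K A] [CommRing R]
    [Algebra K R] (f : A →ₐ[K] R) (hf : Function.Injective f) {x : Ber K R} {y : Ber K A}
    (hy : Ber.res f x = y) {ρ : ℝ} {z : Ber K R[X]} (hz : IsGz 0 1 x ρ z) :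
    IsGz 0 1 y ρ (Ber.res (Polynomial.mapAlgHom f) z) := by
  subst hy
  intro F
  have e : (Ber.res (Polynomial.mapAlgHom f) z).v F = z.v (F.map (f : A →+* R)) := rfl
  rw [e, hz]
  unfold gz
  rw [shp_zero_one, shp_zero_one]
  have hd : (F.map (f : A →+* R)).natDegree = F.natDegree :=
    natDegree_map_eq_of_injective hf F
  rw [hd]
  have h1 : (Ber.res f x).v (1 : A) = x.v (1 : R) := by rw [Ber.one, Ber.one]
  rw [h1]
  refine congrArg (fun t => t / x.v (1 : R) ^ F.natDegree) ?_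
  refine iSup_congr fun i => ?_
  rw [coeff_map]
  rfl

theorem isCst_pullR {Φ Φ' : Type} {p q : ℕ} {θ : Raw Φ' p q} (h : IsCst θ) (φ : Φ' → Φ) :
    IsCst (pullR φ θ) := fun _ _ _ _ => h _ _ _ _

theorem isCst_sub {Φ : Type} {p q : ℕ} {θ η : Raw Φ p q} (h : IsCst θ) (k : IsCst η) :
    IsCst (θ - η) := fun x x' w v => by
  show θ x w v - η x w v = θ x' w v - η x' w v
  rw [h x x', k x x']

/-- The model form `x0 + dlog|X| ∧ v0`. -/
noncomputable def mdl {R : Type} [CommRing R] (φ : R → R[X]) {p : ℕ} (x0 : Raw R (p + 1) 0)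
    (v0 : Raw R p 0) : Raw R[X] (p + 1) 0 :=
  pullR φ x0 + wdg1 (dlg (X : R[X])) (pullR φ v0)

theorem isGz_unique {K R : Type} [NormedField K] [CommRing R] [Algebra K R] {b d : R}
    {x : Ber K R} {ρ : ℝ} {z z' : Ber K R[X]} (h : IsGz b d x ρ z) (h' : IsGz b d x ρ z') :
    z = z' := Ber.ext_v fun f => (h f).trans (h' f).symm

/-- The Gauss point of centre `0` and radius `r` lies in the circle. -/
theorem gz_mem_circ {K A : Type} [NormedField K] [CommRing A] [Algebra K A] {y : Ber K A} {r : ℝ}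
    (hr : 0 < r) {z : Ber K A[X]} (hz : IsGz 0 1 y r z) : z ∈ circ y r := by
  have h1 : y.v (1 : A) ≠ 0 := by rw [y.one]; exact one_ne_zero
  refine ⟨Ber.ext_v fun a => gz_C 0 1 y h1 r hr z hz a, ?_⟩
  have h2 := gz_lin 0 1 y h1 r hr z hz
  rw [y.one, one_mul] at h2
  simpa using h2

theorem smul_oneS_inj {X Φ : Type} [TopologicalSpace X] (L : LogSpace X Φ) {z : X} {t t' : ℝ}
    (h : t • L.oneS z = t' • L.oneS z) : t = t' := by
  have h1 : (t - t') • L.oneS z = 0 := by rw [sub_smul, h, sub_self]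
  unfold LogSpace.oneS at h1
  rw [← LogSpace.germ_smul, LogSpace.germ_eq_zero] at h1
  obtain ⟨u, hu, V, hV, hVd, hv⟩ := h1
  obtain ⟨x, hx⟩ := rs_surjective u (L.trop u z)
  have h2 := hv {L.trop u z} (convex_singleton _) (by
    rintro _ rfl
    exact ⟨z, mem_of_mem_nhds hV, rfl⟩) x ![] ![] (by rw [hx]; rfl) (fun i => i.elim0)
    (fun i => i.elim0)
  have h3 : (t - t') * 1 = 0 := h2
  linarith

theorem exists_smul_oneS {X Φ : Type} [TopologicalSpace X] (L : LogSpace X Φ) {z : X}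
    {c : L.Stalk 0 0 z} (hc : c ∈ L.Lp 0 z) : ∃ t : ℝ, c = t • L.oneS z := by
  rw [LogSpace.Lp_zero, Submodule.mem_span_singleton] at hc
  obtain ⟨t, ht⟩ := hc
  exact ⟨t, ht.symm⟩

end U5aAux

open U5aAux

/-- Comparison downstairs for forms of type `(p+1, 0)`, raw form. -/
theorem circ_raw (hSTA : BG.STA_Stmt) (hINT : BG.INT_Stmt) {K A : Type} [NormedField K]
    [IsUltrametricDist K] [CommRing A] [IsDomain A] [Algebra K A] [Algebra.FiniteType K A]
    (y : Ber K A) {r : ℝ} (hr : 0 < r) {p : ℕ} (c : (berLS K A[X]).G (p + 1) 0)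
    (hc : ∀ z ∈ circ y r, (berLS K A[X]).ddS (p + 1) 0 z (c.1 z) = 0) :
    ∃ (x0 : Raw A (p + 1) 0) (v0 : Raw A p 0), IsCst x0 ∧ IsCst v0 ∧
      (berLS K A).SFat y x0 ∧ (berLS K A).SFat y v0 ∧
      ∀ z ∈ circ y r, ∃ h : (berLS K A[X]).SFat z (pullR (prX K A).ix x0 +
        wdg1 (dlg (X : A[X])) (pullR (prX K A).ix v0)), c.1 z = (berLS K A[X]).germ _ h := by
  have hone : y.v (1 : A) ≠ 0 := by rw [y.one]; exact one_ne_zero
  -- constant representatives at the points of the circle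
  have hrep : ∀ z ∈ circ y r, ∃ θ : Raw A[X] (p + 1) 0, IsCst θ ∧
      ∃ h : (berLS K A[X]).SFat z θ, c.1 z = (berLS K A[X]).germ θ h := fun z hz =>
    (berLS K A[X]).exists_cst ((berLS K A[X]).poincare0 (hSTA K A[X] z).1 (c.1 z) (hc z hz))
  obtain ⟨zr, hzr⟩ := exists_gz (0 : A) 1 y hone r hr
  have hzrc : zr ∈ circ y r := gz_mem_circ hr hzr
  obtain ⟨θ, hθ, hθs, hθe⟩ := hrep zr hzrc
  obtain ⟨x0, v0, ε, hx0, hv0, hx0s, hv0s, hε, hεr, hbel⟩ := below_gauss y r hr zr hzr θ hθ hθs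
  refine ⟨x0, v0, hx0, hv0, hx0s, hv0s, ?_⟩
  intro z hz
  have hzX : z.v (X : A[X]) ≠ 0 := by rw [hz.2]; exact hr.ne'
  -- the model form
  have hmod : ∀ z ∈ circ y r, (berLS K A[X]).SFat z (pullR (prX K A).ix x0 +
        wdg1 (dlg (X : A[X])) (pullR (prX K A).ix v0)) := by
    intro z hz
    have hzX : z.v (X : A[X]) ≠ 0 := by rw [hz.2]; exact hr.ne'
    refine LogSpace.SFat.add ((prX K A).sfatY hz.1 hx0s) ?_
    refine LogSpace.SFat.wdg1 _ ⟨{X}, isSF_dlg (Finset.mem_singleton_self _), ?_⟩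
      ((prX K A).sfatY hz.1 hv0s)
    intro f hf
    rw [Finset.mem_singleton.1 hf]
    exact hzX
  refine ⟨hmod z hz, ?_⟩
  obtain ⟨θz, hθz, hθzs, hθze⟩ := hrep z hz
  rw [hθze, (berLS K A[X]).germ_eq_iff]
  obtain ⟨R, _, _, f, hf1, hf2, hR⟩ := exists_intCl K A
  obtain ⟨hF1, hF2⟩ := mapX_int f hf1 hf2
  have hcm : IsCst (pullR (prX K A).ix x0 + wdg1 (dlg (X : A[X])) (pullR (prX K A).ix v0)) :=
    (isCst_pullR hx0 _).add ((isCst_dlg X).wdg1 (isCst_pullR hv0 _))
  refine van_of_int hSTA hINT (Polynomial.mapAlgHom f) hF1 hF2 z (isCst_sub hθz hcm)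
    (hθzs.sub (hmod z hz)) ?_
  intro z' hz'
  -- upstairs
  let m : Mor (berLS K R[X]) (berLS K A[X]) := berMor (Polynomial.mapAlgHom f)
  let y' : Ber K R := (prX K R).toFun z'
  have hyy : Ber.res f y' = y := by
    rw [← hz.1]
    apply Ber.ext_v
    intro a
    show z'.v (C (f a)) = z.v (C a)
    rw [← hz']
    show z'.v (C (f a)) = z'.v ((C a).map (f : A →+* R))
    rw [map_C]
    rfl
  have hcirc : ∀ z'' : Ber K R[X], (prX K R).toFun z'' = y' → z''.v X = r →
      m.toFun z'' ∈ circ y r := by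
    intro z'' h1 h2
    refine ⟨?_, ?_⟩
    · rw [← hyy, ← h1]
      apply Ber.ext_v
      intro a
      show z''.v ((C a).map (f : A →+* R)) = z''.v (C (f a))
      rw [map_C]
      rfl
    · show z''.v ((X : A[X]).map (f : A →+* R)) = r
      rw [map_X]
      exact h2
  obtain ⟨k, _, _, ι, h⟩ := exists_resF y'
  have hcl : IsAlgClosed k := resF_algClosed hR h
  obtain ⟨w', hw'⟩ := fibU_surj h z' rfl
  let c' := m.pullG (p + 1) 0 c
  -- germs upstairs from germs downstairs
  have hup : ∀ (z'' : Ber K R[X]) (η : Raw A[X] (p + 1) 0)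
      (hη : (berLS K A[X]).SFat (m.toFun z'') η)
      (_ : c.1 (m.toFun z'') = (berLS K A[X]).germ η hη),
      c'.1 z'' = (berLS K R[X]).germ (pullR m.ix η) (m.sfat hη) := by
    intro z'' η hη e
    show m.pullS (p + 1) 0 z'' (c.1 (m.toFun z'')) = _
    rw [e, Mor.pullS_germ]
  obtain ⟨x, hx, v, hv, hxv⟩ := h.circle p hr (fun w => c'.1 (fibU h w)) (by
    intro w hw
    have hmem : m.toFun (fibU h w) ∈ circ y r :=
      hcirc _ (fibU_over h w) (by rw [fibU_v, map_X, hw])
    obtain ⟨θw, hθw, hθws, hθwe⟩ := hrep _ hmem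
    refine ⟨pullR m.ix θw, isCst_pullR hθw _, ?_⟩
    have := (fibU_continuous h).continuousAt.eventually
      (near_of_germ _ c' (m.sfat hθws) (hup _ θw hθws hθwe))
    filter_upwards [this] with w'' hw'' _ using hw'')
  obtain ⟨X0, hX0, hX0s, rfl⟩ := (berLS K R).exists_cst hx
  obtain ⟨V0, hV0, hV0s, rfl⟩ := (berLS K R).exists_cst hv
  have hS : ∀ w : Ber k k[X], w.v X = r → ∃ k' : (berLS K R[X]).SFat (fibU h w)
      (mdl (prX K R).ix X0 V0), c'.1 (fibU h w) = (berLS K R[X]).germ _ k' := by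
    intro w hw
    have h1 := hxv w hw
    refine ⟨?_, ?_⟩
    · refine LogSpace.SFat.add ((prX K R).sfatY (fibU_over h w) hX0s) ?_
      refine LogSpace.SFat.wdg1 _ ⟨{X}, isSF_dlg (Finset.mem_singleton_self _), ?_⟩
        ((prX K R).sfatY (fibU_over h w) hV0s)
      intro f hf
      rw [Finset.mem_singleton.1 hf]
      exact h.v_X_ne hr hw
    · rw [h1]
      unfold IsResF.pb
      rw [Mor.pullY_germ, Mor.pullY_germ]
      unfold LogSpace.dlS
      rw [LogSpace.wdS_germ, ← LogSpace.germ_add]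
      rfl
  -- the Gauss point upstairs
  have hone' : ι (1 : R) ≠ 0 := by rw [map_one]; exact one_ne_zero
  have hd' : y'.v (1 : R) ≠ 0 := by rw [y'.one]; exact one_ne_zero
  obtain ⟨wr, hwr1, hwr2, -⟩ := exists_eta (ι (0 : R) / ι (1 : R)) r hr.le
  have hzr' : IsGz 0 1 y' r (fibU h wr) := fibU_gz h 0 1 hone' r hr wr hwr2
  have hwrX : wr.v X = r := by
    have h1 := hwr1 0
    rw [show ι (0 : R) = 0 from map_zero ι, zero_div, sub_zero, norm_zero, C_0, sub_zero,
      max_eq_left hr.le] at h1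
    exact h1
  have hmr : m.toFun (fibU h wr) = zr := isGz_unique (isGz_res f hf1 hyy hzr') hzr
  have hθs' : (berLS K A[X]).SFat (m.toFun (fibU h wr)) θ := by rw [hmr]; exact hθs
  have hθe' : c.1 (m.toFun (fibU h wr)) = (berLS K A[X]).germ θ hθs' := by
    have : ∀ z1 : Ber K A[X], z1 = zr → ∀ hs : (berLS K A[X]).SFat z1 θ,
        c.1 z1 = (berLS K A[X]).germ θ hs := by
      rintro _ rfl hs; exact hθe
    exact this _ hmr _
  obtain ⟨k1, hk1⟩ := hS wr hwrX
  have hV1 : (berLS K R[X]).Van (fibU h wr) (mdl (prX K R).ix X0 V0 - pullR m.ix θ) :=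
    ((berLS K R[X]).germ_eq_iff k1 (m.sfat hθs')).1 (hk1.symm.trans (hup _ θ hθs' hθe'))
  obtain ⟨W, hW, ε', hε', hε'r, hW'⟩ := gz_nhds (0 : R) 1 y' hd' r hr (fibU h wr) hzr' _
    (LogSpace.Van.nhds _ hV1)
  have hyW : y' ∈ W := mem_of_mem_nhds hW
  obtain ⟨ρ', hρ1, hρ2, hρ3, hρ4⟩ : ∃ ρ', r - ε < ρ' ∧ ρ' < r ∧ |ρ' - r| < ε' ∧ 0 < ρ' := by
    have hmin : 0 < min ε ε' := lt_min hε hε'
    have hm1 : min ε ε' ≤ ε := min_le_left _ _
    have hm2 : min ε ε' ≤ ε' := min_le_right _ _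
    refine ⟨r - min ε ε' / 2, by linarith, by linarith, ?_, by linarith⟩
    rw [show r - min ε ε' / 2 - r = -(min ε ε' / 2) by ring, abs_neg, abs_of_pos (by linarith)]
    linarith
  obtain ⟨z2, hz2⟩ := exists_gz (0 : R) 1 y' hd' ρ' hρ4
  have hV2 : (berLS K R[X]).Van z2 (mdl (prX K R).ix X0 V0 - pullR m.ix θ) :=
    (hW' y' hyW).2 ρ' hρ3 z2 hz2
  have hV3 := hbel ρ' hρ1 hρ2 (m.toFun z2) (isGz_res f hf1 hyy hz2)
  have hV4 := m.van hV3
  have hkey : mdl (prX K R).ix X0 V0 - pullR m.ix (mdl (prX K A).ix x0 v0) =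
      pullR (prX K R).ix (X0 - pullR f x0) +
        wdg1 (dlg (C (1 : R) * X - C 0)) (pullR (prX K R).ix (V0 - pullR f v0)) := by
    have hc1 : (C (1 : R) * X - C 0 : R[X]) = X := by rw [C_0, sub_zero, C_1, one_mul]
    rw [hc1]
    have hcomp : m.ix ∘ (prX K A).ix = (prX K R).ix ∘ f := by
      funext a
      show (C a : A[X]).map (f : A →+* R) = C (f a)
      rw [map_C]
      rfl
    have hmX : m.ix (X : A[X]) = (X : R[X]) := by
      show (X : A[X]).map (f : A →+* R) = X
      rw [map_X]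
    have h1 : pullR m.ix (mdl (prX K A).ix x0 v0) = mdl (prX K R).ix (pullR f x0) (pullR f v0) := by
      unfold mdl
      rw [pullR_add, pullR_wdg1]
      have e1 : ∀ {q' : ℕ} (η : Raw A q' 0), pullR m.ix (pullR (prX K A).ix η) =
          pullR (prX K R).ix (pullR f η) := by
        intro q' η
        funext x w v
        show η ((x ∘ m.ix) ∘ (prX K A).ix) _ _ = η ((x ∘ (prX K R).ix) ∘ f) _ _
        rw [Function.comp_assoc, Function.comp_assoc, hcomp]
        congr 1 <;> funext j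
        · exact j.elim0
        · show (v j ∘ m.ix) ∘ (prX K A).ix = (v j ∘ (prX K R).ix) ∘ f
          rw [Function.comp_assoc, Function.comp_assoc, hcomp]
      rw [e1, e1]
      have e2 : pullR m.ix (dlg (X : A[X])) = dlg (X : R[X]) := by
        funext x w v
        show v 0 (m.ix X) = v 0 X
        rw [hmX]
      rw [e2]
    rw [h1]
    have e3 : ∀ {q' : ℕ} (η : Raw R[X] 1 0) (a b : Raw R[X] q' 0),
        wdg1 η (a - b) = wdg1 η a - wdg1 η b := by
      intro q' η a b
      have e4 : a = (a - b) + b := by rw [sub_add_cancel]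
      conv_rhs => rw [e4, wdg1_add_right]
      rw [add_sub_cancel_right]
    have e5 : pullR (prX K R).ix (V0 - pullR f v0) =
        pullR (prX K R).ix V0 - pullR (prX K R).ix (pullR f v0) := rfl
    have e6 : pullR (prX K R).ix (X0 - pullR f x0) =
        pullR (prX K R).ix X0 - pullR (prX K R).ix (pullR f x0) := rfl
    rw [e5, e6, e3]
    unfold mdl
    abel
  have hV5 : (berLS K R[X]).Van z2 (mdl (prX K R).ix X0 V0 -
      pullR m.ix (mdl (prX K A).ix x0 v0)) := by
    have h1 := LogSpace.Van.add _ hV2 hV4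
    have h2 : mdl (prX K R).ix X0 V0 - pullR m.ix θ + pullR m.ix (θ -
        (pullR (prX K A).ix x0 + wdg1 (dlg (X : A[X])) (pullR (prX K A).ix v0))) =
        mdl (prX K R).ix X0 V0 - pullR m.ix (mdl (prX K A).ix x0 v0) := by
      funext x w v
      show (mdl (prX K R).ix X0 V0 x w v - pullR m.ix θ x w v) + (pullR m.ix θ x w v -
        pullR m.ix (mdl (prX K A).ix x0 v0) x w v) = mdl (prX K R).ix X0 V0 x w v -
        pullR m.ix (mdl (prX K A).ix x0 v0) x w v
      ring
    rwa [h2] at h1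
  rw [hkey] at hV5
  have hfx : (berLS K R).SFat y' (pullR f x0) := by
    have := (berMor f).sfatY hyy hx0s
    exact this
  have hfv : (berLS K R).SFat y' (pullR f v0) := by
    have := (berMor f).sfatY hyy hv0s
    exact this
  obtain ⟨hX, hV⟩ := gz_ind (0 : R) 1 y' hd' ρ' hρ4 z2 hz2 (X0 - pullR f x0)
    (isCst_sub hX0 (isCst_pullR hx0 _)) (hX0s.sub hfx) (V0 - pullR f v0)
    (isCst_sub hV0 (isCst_pullR hv0 _)) (hV0s.sub hfv) hV5
  -- back to `z'`
  have hzX' : z'.v (X : R[X]) = r := by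
    rw [← hz.2, ← hz']
    show z'.v X = z'.v ((X : A[X]).map (f : A →+* R))
    rw [map_X]
  have hV6 : (berLS K R[X]).Van z' (mdl (prX K R).ix X0 V0 -
      pullR m.ix (mdl (prX K A).ix x0 v0)) := by
    rw [hkey]
    refine LogSpace.Van.add _ ((prX K R).van (z := z') hX) ?_
    refine LogSpace.Van.wdg1_right _ ?_ ((prX K R).van (z := z') hV)
    refine ⟨{C (1 : R) * X - C 0}, isSF_dlg (Finset.mem_singleton_self _), ?_⟩
    intro g hg
    rw [Finset.mem_singleton.1 hg]
    show z'.v (C (1 : R) * X - C 0) ≠ 0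
    rw [C_0, sub_zero, C_1, one_mul, hzX']
    exact hr.ne'
  have hwX : w'.v X = r := by
    have h1 : (fibU h w').v (X : R[X]) = r := by rw [hw']; exact hzX'
    rw [fibU_v, map_X] at h1
    exact h1
  have hV7 : (berLS K R[X]).Van z' (mdl (prX K R).ix X0 V0 - pullR m.ix θz) := by
    have hθzs' : (berLS K A[X]).SFat (m.toFun (fibU h w')) θz := by
      rw [hw']
      show (berLS K A[X]).SFat (Ber.res (Polynomial.mapAlgHom f) z') θz
      rw [hz']; exact hθzs
    have hθze' : c.1 (m.toFun (fibU h w')) = (berLS K A[X]).germ θz hθzs' := by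
      have : ∀ z1 : Ber K A[X], z1 = z → ∀ hs : (berLS K A[X]).SFat z1 θz,
          c.1 z1 = (berLS K A[X]).germ θz hs := by
        rintro _ rfl hs; exact hθze
      refine this _ ?_ _
      rw [hw']; exact hz'
    obtain ⟨k2, hk2⟩ := hS w' hwX
    have := ((berLS K R[X]).germ_eq_iff k2 (m.sfat hθzs')).1
      (hk2.symm.trans (hup _ θz hθzs' hθze'))
    rwa [hw'] at this
  have h8 := ((berLS K R[X]).VanM (p + 1) 0 z').sub_mem hV6 hV7
  have h9 : mdl (prX K R).ix X0 V0 - pullR m.ix (mdl (prX K A).ix x0 v0) -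
      (mdl (prX K R).ix X0 V0 - pullR m.ix θz) = pullR (Polynomial.mapAlgHom f) (θz -
        (pullR (prX K A).ix x0 + wdg1 (dlg (X : A[X])) (pullR (prX K A).ix v0))) := by
    funext x w v
    show mdl (prX K R).ix X0 V0 x w v - pullR m.ix (mdl (prX K A).ix x0 v0) x w v -
      (mdl (prX K R).ix X0 V0 x w v - pullR m.ix θz x w v) = pullR m.ix θz x w v -
      pullR m.ix (mdl (prX K A).ix x0 v0) x w v
    ring
  rw [h9] at h8
  exact h8

/-- The same for type `(0,0)`. -/
theorem circ_raw0 (hSTA : BG.STA_Stmt) (hINT : BG.INT_Stmt) {K A : Type} [NormedField K]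
    [IsUltrametricDist K] [CommRing A] [IsDomain A] [Algebra K A] [Algebra.FiniteType K A]
    (y : Ber K A) {r : ℝ} (hr : 0 < r) (c : (berLS K A[X]).G 0 0)
    (hc : ∀ z ∈ circ y r, (berLS K A[X]).ddS 0 0 z (c.1 z) = 0) :
    ∃ t : ℝ, ∀ z ∈ circ y r, c.1 z = t • (berLS K A[X]).oneS z := by
  have hone : y.v (1 : A) ≠ 0 := by rw [y.one]; exact one_ne_zero
  have hrep : ∀ z ∈ circ y r, ∃ t : ℝ, c.1 z = t • (berLS K A[X]).oneS z := fun z hz =>
    exists_smul_oneS _ ((berLS K A[X]).poincare0 (hSTA K A[X] z).1 (c.1 z) (hc z hz))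
  obtain ⟨zr, hzr⟩ := exists_gz (0 : A) 1 y hone r hr
  have hzrc : zr ∈ circ y r := gz_mem_circ hr hzr
  obtain ⟨t, ht⟩ := hrep zr hzrc
  refine ⟨t, ?_⟩
  intro z hz
  obtain ⟨tz, htz⟩ := hrep z hz
  obtain ⟨R, _, _, f, hf1, hf2, hR⟩ := exists_intCl K A
  obtain ⟨hF1, hF2⟩ := mapX_int f hf1 hf2
  obtain ⟨z', hz'⟩ : ∃ z', Ber.res (Polynomial.mapAlgHom f) z' = z := by
    obtain ⟨z', hz'⟩ := (hINT K A[X] R[X] (Polynomial.mapAlgHom f) hF1 hF2).2.1 z
    exact ⟨z', by rw [← hz']; rfl⟩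
  -- upstairs
  let m : Mor (berLS K R[X]) (berLS K A[X]) := berMor (Polynomial.mapAlgHom f)
  let y' : Ber K R := (prX K R).toFun z'
  have hyy : Ber.res f y' = y := by
    rw [← hz.1]
    apply Ber.ext_v
    intro a
    show z'.v (C (f a)) = z.v (C a)
    rw [← hz']
    show z'.v (C (f a)) = z'.v ((C a).map (f : A →+* R))
    rw [map_C]
    rfl
  have hcirc : ∀ z'' : Ber K R[X], (prX K R).toFun z'' = y' → z''.v X = r →
      m.toFun z'' ∈ circ y r := by
    intro z'' h1 h2
    refine ⟨?_, ?_⟩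
    · rw [← hyy, ← h1]
      apply Ber.ext_v
      intro a
      show z''.v ((C a).map (f : A →+* R)) = z''.v (C (f a))
      rw [map_C]
      rfl
    · show z''.v ((X : A[X]).map (f : A →+* R)) = r
      rw [map_X]
      exact h2
  obtain ⟨k, _, _, ι, h⟩ := exists_resF y'
  have hcl : IsAlgClosed k := resF_algClosed hR h
  obtain ⟨w', hw'⟩ := fibU_surj h z' rfl
  let c' := m.pullG 0 0 c
  have hup : ∀ (z'' : Ber K R[X]) (τ : ℝ), c.1 (m.toFun z'') = τ • (berLS K A[X]).oneS _ →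
      c'.1 z'' = τ • (berLS K R[X]).oneS z'' := by
    intro z'' τ e
    show m.pullS 0 0 z'' (c.1 (m.toFun z'')) = _
    rw [e, (m.pullS 0 0 z'').map_smul, Mor.pullS_oneS]
  obtain ⟨x, hx, hxv⟩ := h.circle0 hr (fun w => c'.1 (fibU h w)) (by
    intro w hw
    have hmem : m.toFun (fibU h w) ∈ circ y r :=
      hcirc _ (fibU_over h w) (by rw [fibU_v, map_X, hw])
    obtain ⟨τ, hτ⟩ := hrep _ hmem
    have e1 := hup _ τ hτ
    unfold LogSpace.oneS at e1
    rw [← LogSpace.germ_smul] at e1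
    refine ⟨τ • one0, isCst_one0.smul τ, ?_⟩
    have := (fibU_continuous h).continuousAt.eventually (near_of_germ _ c' _ e1)
    filter_upwards [this] with w'' hw'' _ using hw'')
  obtain ⟨t', rfl⟩ := exists_smul_oneS _ hx
  have hS : ∀ w : Ber k k[X], w.v X = r → c'.1 (fibU h w) = t' • (berLS K R[X]).oneS _ := by
    intro w hw
    have h1 := hxv w hw
    rw [h1]
    unfold IsResF.pb
    rw [((prX K R).pullY (fibU_over h w) 0 0).map_smul, Mor.pullY_oneS]
  have hone' : ι (1 : R) ≠ 0 := by rw [map_one]; exact one_ne_zero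
  obtain ⟨wr, hwr1, hwr2, -⟩ := exists_eta (ι (0 : R) / ι (1 : R)) r hr.le
  have hzr' : IsGz 0 1 y' r (fibU h wr) := fibU_gz h 0 1 hone' r hr wr hwr2
  have hwrX : wr.v X = r := by
    have h1 := hwr1 0
    rw [show ι (0 : R) = 0 from map_zero ι, zero_div, sub_zero, norm_zero, C_0, sub_zero,
      max_eq_left hr.le] at h1
    exact h1
  have hmr : m.toFun (fibU h wr) = zr := isGz_unique (isGz_res f hf1 hyy hzr') hzr
  have e1 : t' = t := by
    refine smul_oneS_inj _ ((hS wr hwrX).symm.trans (hup _ t ?_))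
    rw [hmr]; exact ht
  have hzX' : z'.v (X : R[X]) = r := by
    rw [← hz.2, ← hz']
    show z'.v X = z'.v ((X : A[X]).map (f : A →+* R))
    rw [map_X]
  have hwX : w'.v X = r := by
    have h1 : (fibU h w').v (X : R[X]) = r := by rw [hw']; exact hzX'
    rw [fibU_v, map_X] at h1
    exact h1
  have e2 : t' = tz := by
    refine smul_oneS_inj _ ((hS w' hwX).symm.trans (hup _ tz ?_))
    have : m.toFun (fibU h w') = z := by rw [hw']; exact hz'
    rw [this]; exact htz
  rw [htz, ← e2, e1]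

end Pool.Agent.TD


end

section

/-!
# Orthogonality of elements with different leading monomials
-/

open scoped ContDiff Topology NNReal

namespace Pool.Agent.TD.BG

namespace ORT

theorem sum_lt {K ι : Type} [NormedField K] [IsUltrametricDist K] (w N : ℝ≥0) (hN : 0 < N)
    (s : Finset ι) (x : ι → K) (h : ∀ i ∈ s, ‖x i‖₊ * w < N) : ‖∑ i ∈ s, x i‖₊ * w < N := by
  classical
  induction s using Finset.induction_on with
  | empty => simpa using hN
  | insert i s hi ih =>
    rw [Finset.sum_insert hi]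
    have h1 : ‖x i + ∑ j ∈ s, x j‖₊ ≤ max ‖x i‖₊ ‖∑ j ∈ s, x j‖₊ :=
      IsUltrametricDist.nnnorm_add_le_max _ _
    calc ‖x i + ∑ j ∈ s, x j‖₊ * w ≤ max ‖x i‖₊ ‖∑ j ∈ s, x j‖₊ * w := mul_le_mul_left h1 _
      _ = max (‖x i‖₊ * w) (‖∑ j ∈ s, x j‖₊ * w) := max_mul _ _ _
      _ < N := max_lt (h i (Finset.mem_insert_self i s))
          (ih fun j hj => h j (Finset.mem_insert_of_mem hj))

end ORT

open ORT in
theorem ORT_thm : ORT_Stmt := by
  intro K E _ _ wt hwt r _ ι _ G u hu hG c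
  classical
  apply le_antisymm
  · refine (nrm_sum_le _ _).trans (le_of_eq ?_)
    refine Finset.sup_congr rfl fun j _ => ?_
    rw [nrm_smul]
  · set N : ℝ≥0 := Finset.univ.sup fun j => ‖c j‖₊ * nrm wt (G j) with hNdef
    by_cases hN0 : N = 0
    · rw [hN0]; exact bot_le
    have hN : 0 < N := pos_iff_ne_zero.2 hN0
    have hne : (Finset.univ : Finset ι).Nonempty := by
      by_contra hemp
      rw [Finset.not_nonempty_iff_eq_empty] at hemp
      apply hN0
      rw [hNdef, hemp, Finset.sup_empty]; rfl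
    have hle : ∀ j, ‖c j‖₊ * nrm wt (G j) ≤ N := fun j =>
      Finset.le_sup (f := fun j => ‖c j‖₊ * nrm wt (G j)) (Finset.mem_univ j)
    obtain ⟨j0, -, hj0⟩ := Finset.exists_mem_eq_sup Finset.univ hne
      fun j => ‖c j‖₊ * nrm wt (G j)
    let T : Finset ι := Finset.univ.filter fun j => ‖c j‖₊ * nrm wt (G j) = N
    have hT0 : j0 ∈ T := by
      simp only [T, Finset.mem_filter, Finset.mem_univ, true_and]
      exact hj0.symm
    obtain ⟨j, hj, hmax⟩ : ∃ j ∈ T, ∀ i ∈ T, ¬ r (u j) (u i) := by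
      let S : Finset E := T.image u
      have hwf : (S : Set E).WellFoundedOn (Function.swap r) :=
        Set.Finite.wellFoundedOn (r := Function.swap r) (S.finite_toSet)
      have hS0 : u j0 ∈ S := Finset.mem_image_of_mem u hT0
      obtain ⟨v, hv⟩ := WellFounded.has_min hwf Set.univ ⟨⟨u j0, hS0⟩, trivial⟩
      obtain ⟨j, hj, hjv⟩ := Finset.mem_image.1 (v.2 : v.1 ∈ S)
      refine ⟨j, hj, fun i hi hr => ?_⟩
      have h3 := hv.2 ⟨u i, Finset.mem_image_of_mem u hi⟩ trivial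
      apply h3
      show r v.1 (u i)
      rw [← hjv]; exact hr
    have hjN : ‖c j‖₊ * nrm wt (G j) = N := by
      simpa only [T, Finset.mem_filter, Finset.mem_univ, true_and] using hj
    have hterm : ∀ i ∈ Finset.univ.erase j, ‖c i * G i (u j)‖₊ * wt (u j) < N := by
      intro i hi
      have hij : i ≠ j := Finset.ne_of_mem_erase hi
      rw [nnnorm_mul, mul_assoc]
      by_cases hiT : ‖c i‖₊ * nrm wt (G i) = N
      · have hiT' : i ∈ T := by
          simp only [T, Finset.mem_filter, Finset.mem_univ, true_and]; exact hiT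
        have hne' : u j ≠ u i := fun h => hij (hu h).symm
        have hr : r (u i) (u j) := by
          rcases trichotomous_of r (u i) (u j) with h | h | h
          · exact h
          · exact absurd h.symm hne'
          · exact absurd h (hmax i hiT')
        have h1 := ((hG i).2 (u j) hne').2 hr
        rw [← (hG i).nrm_eq] at h1
        have hc : 0 < ‖c i‖₊ := by
          rw [pos_iff_ne_zero]
          intro h0
          rw [h0, zero_mul] at hiT
          exact hN0 hiT.symm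
        rw [← hiT]
        exact mul_lt_mul_of_pos_left h1 hc
      · calc ‖c i‖₊ * (‖G i (u j)‖₊ * wt (u j)) ≤ ‖c i‖₊ * nrm wt (G i) :=
              mul_le_mul_right (le_nrm (G i) (u j)) _
          _ < N := lt_of_le_of_ne (hle i) hiT
    have hrest := sum_lt (wt (u j)) N hN (Finset.univ.erase j) (fun i => c i * G i (u j)) hterm
    have hmain : ‖c j * G j (u j)‖₊ * wt (u j) = N := by
      rw [nnnorm_mul, mul_assoc, ← (hG j).nrm_eq, hjN]
    have hval : (∑ i, c i • G i) (u j) = c j * G j (u j) +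
        ∑ i ∈ Finset.univ.erase j, c i * G i (u j) := by
      rw [Finsupp.finsetSum_apply, ← Finset.add_sum_erase _ _ (Finset.mem_univ j)]
      simp only [Finsupp.smul_apply, smul_eq_mul]
    refine le_trans ?_ (le_nrm (∑ i, c i • G i) (u j))
    by_contra hcon
    push Not at hcon
    have h1 : ‖c j * G j (u j)‖₊ ≤ max ‖(∑ i, c i • G i) (u j)‖₊
        ‖∑ i ∈ Finset.univ.erase j, c i * G i (u j)‖₊ := by
      have e : c j * G j (u j) = (∑ i, c i • G i) (u j) +
          -(∑ i ∈ Finset.univ.erase j, c i * G i (u j)) := by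
        rw [hval]; ring
      rw [e, ← nnnorm_neg (∑ i ∈ Finset.univ.erase j, c i * G i (u j))]
      exact IsUltrametricDist.nnnorm_add_le_max _ _
    have h2 : N ≤ max (‖(∑ i, c i • G i) (u j)‖₊ * wt (u j))
        (‖∑ i ∈ Finset.univ.erase j, c i * G i (u j)‖₊ * wt (u j)) := by
      rw [← max_mul, ← hmain]; exact mul_le_mul_left h1 _
    exact absurd h2 (not_le.2 (max_lt hcon hrest))

end Pool.Agent.TD.BG


end

section

/-!
# Module TD_BG_DIM: the number of leading monomials of a subspace is its dimension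
-/

open scoped ContDiff Topology NNReal

namespace Pool.Agent.TD.BG.DIM

variable {K E : Type} [NormedField K]

/-- Evaluation at the points of a set. -/
def ev (V : Submodule K (E →₀ K)) (S : Set E) : V →ₗ[K] (S → K) where
  toFun G u := (G : E →₀ K) (u : E)
  map_add' _ _ := rfl
  map_smul' _ _ := rfl

theorem finite_of_supp (M : Finset E) (V : Submodule K (E →₀ K))
    (hV : ∀ F ∈ V, ∀ u, F u ≠ 0 → u ∈ M) : Module.Finite K V := by
  have hinj : Function.Injective (ev V (M : Set E)) := by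
    rw [injective_iff_map_eq_zero]
    intro G hG
    apply Subtype.ext
    ext u
    by_contra hne
    exact hne (congrFun hG ⟨u, hV G.1 G.2 u hne⟩)
  exact Module.Finite.of_injective (ev V (M : Set E)) hinj

end Pool.Agent.TD.BG.DIM

namespace Pool.Agent.TD.BG

open DIM in
theorem DIM_thm (h1 : ORT_Stmt) : DIM_Stmt := by
  classical
  intro K E _ _ wt hwt M V hV r _
  have hset : {u | ∃ F : E →₀ K, F ≠ 0 ∧ (∃ G ∈ V, nrm wt (F - G) < nrm wt F) ∧
      IsLM wt r F u} = {u | ∃ G ∈ V, IsLM wt r G u} := by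
    ext u
    constructor
    · rintro ⟨F, -, ⟨G, hG, hFG⟩, hu⟩
      exact ⟨G, hG, hu.of_approx hFG⟩
    · rintro ⟨G, hG, hu⟩
      have hG0 : G ≠ 0 := by
        rintro rfl
        exact hu.1 rfl
      refine ⟨G, hG0, ⟨G, hG, ?_⟩, hu⟩
      rw [sub_self, nrm_zero]
      exact nrm_pos hwt hG0
  rw [hset]
  set S : Set E := {u | ∃ G ∈ V, IsLM wt r G u} with hS
  have hSM : S ⊆ (M : Set E) := by
    rintro u ⟨G, hG, hu⟩
    exact hV G hG u hu.1
  have hSf : S.Finite := M.finite_toSet.subset hSM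
  have : Fintype S := hSf.fintype
  have : Module.Finite K V := finite_of_supp M V hV
  rw [← Nat.card_coe_set_eq, Nat.card_eq_fintype_card]
  apply le_antisymm
  · have hch : ∀ u : S, ∃ G ∈ V, IsLM wt r G u := fun u => u.2
    choose G hG hu using hch
    have hli : LinearIndependent K (fun u : S => (⟨G u, hG u⟩ : V)) := by
      refine (Fintype.linearIndependent_iff (R := K) (ι := S)
        (v := fun u : S => (⟨G u, hG u⟩ : V))).2 fun c hc u => ?_
      have h2 := h1 K E wt hwt r S G (fun u => (u : E)) Subtype.coe_injective hu c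
      have h3 : (∑ j, c j • G j) = 0 := by
        have h4 := congrArg (fun v : V => (v : E →₀ K)) hc
        simpa using h4
      rw [h3, nrm_zero] at h2
      have h4 : ‖c u‖₊ * nrm wt (G u) ≤ 0 := by
        rw [h2]
        exact Finset.le_sup (f := fun j => ‖c j‖₊ * nrm wt (G j)) (Finset.mem_univ u)
      have h5 : 0 < nrm wt (G u) := by
        apply nrm_pos hwt
        intro h6
        have h7 := (hu u).1
        rw [h6] at h7
        exact h7 rfl
      rw [nonpos_iff_eq_zero, mul_eq_zero] at h4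
      rcases h4 with h4 | h4
      · simpa using h4
      · exact absurd h4 h5.ne'
    exact hli.fintype_card_le_finrank
  · have hinj : Function.Injective (ev V S) := by
      rw [injective_iff_map_eq_zero]
      intro G hG
      by_contra hne
      have hG0 : (G : E →₀ K) ≠ 0 := fun h => hne (Subtype.ext h)
      obtain ⟨u, hu⟩ := exists_isLM hwt r hG0
      exact hu.1 (congrFun hG ⟨u, G.1, G.2, hu⟩)
    have h2 := LinearMap.finrank_le_finrank_of_injective hinj
    rwa [Module.finrank_fintype_fun_eq_card] at h2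

end Pool.Agent.TD.BG


end

section

/-!
# CIR: finitely many circuits suffice
-/

open scoped ContDiff Topology NNReal

namespace Pool.Agent.TD.BG

namespace CIR

variable {K E : Type} [NormedField K] [IsUltrametricDist K]

/-- If `F` is single at `u` with the smallest possible number of monomials, every non-zero `G` of
`V` supported on the support of `F` is single at `u`. -/
theorem key {wt : E → ℝ≥0} {V : Submodule K (E →₀ K)} {F G : E →₀ K} {u : E} (hFV : F ∈ V)
    (hF : Single wt F u)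
    (hmin : ∀ G ∈ V, Single wt G u → F.support.card ≤ G.support.card) (hGV : G ∈ V)
    (hG : G ≠ 0) (hs : G.support ⊆ F.support) : Single wt G u := by
  classical
  obtain ⟨u1, hu1, hmin1⟩ := Finset.exists_min_image G.support (fun v => ‖F v‖₊ / ‖G v‖₊)
    (Finsupp.support_nonempty_iff.2 hG)
  have hG1 : G u1 ≠ 0 := Finsupp.mem_support_iff.1 hu1
  have hF1 : F u1 ≠ 0 := Finsupp.mem_support_iff.1 (hs hu1)
  obtain ⟨c, hc⟩ : ∃ c : K, c = F u1 / G u1 := ⟨_, rfl⟩
  have hc0 : c ≠ 0 := by rw [hc]; exact div_ne_zero hF1 hG1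
  have hcn : ‖c‖₊ = ‖F u1‖₊ / ‖G u1‖₊ := by rw [hc, nnnorm_div]
  have hcpos : 0 < ‖c‖₊ := by simpa using hc0
  have hle : ∀ v, ‖c‖₊ * ‖G v‖₊ ≤ ‖F v‖₊ := by
    intro v
    by_cases h0 : G v = 0
    · simp [h0]
    · have h1 := hmin1 v (Finsupp.mem_support_iff.2 h0)
      have h1' : ‖c‖₊ ≤ ‖F v‖₊ / ‖G v‖₊ := by rw [hcn]; exact h1
      have h2 : 0 < ‖G v‖₊ := by simpa using h0
      exact (le_div_iff₀ h2).1 h1'
  by_cases heq : ‖c‖₊ * ‖G u‖₊ = ‖F u‖₊
  · have hFu : ‖F u‖₊ ≠ 0 := by simpa using hF.1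
    refine ⟨?_, ?_⟩
    · intro h0
      rw [h0, nnnorm_zero, mul_zero] at heq
      exact hFu heq.symm
    · intro u' hne
      have h1 : ‖c‖₊ * (‖G u'‖₊ * wt u') < ‖c‖₊ * (‖G u‖₊ * wt u) := by
        calc ‖c‖₊ * (‖G u'‖₊ * wt u') = (‖c‖₊ * ‖G u'‖₊) * wt u' := by rw [mul_assoc]
          _ ≤ ‖F u'‖₊ * wt u' := mul_le_mul_left (hle u') _
          _ < ‖F u‖₊ * wt u := hF.2 u' hne
          _ = ‖c‖₊ * (‖G u‖₊ * wt u) := by rw [← heq, mul_assoc]
      exact lt_of_mul_lt_mul_left h1 zero_le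
  · exfalso
    have hlt : ‖c‖₊ * ‖G u‖₊ < ‖F u‖₊ := lt_of_le_of_ne (hle u) heq
    have happ : ∀ v, (F - c • G) v = F v - c * G v := by
      intro v
      simp
    have hcmul : ∀ v, ‖c * G v‖₊ = ‖c‖₊ * ‖G v‖₊ := fun v => nnnorm_mul _ _
    -- the value at `u`
    have hu : ‖F u‖₊ ≤ ‖(F - c • G) u‖₊ := by
      have h1 : ‖F u‖₊ ≤ max ‖(F - c • G) u‖₊ ‖c * G u‖₊ := by
        have h2 : F u = (F - c • G) u + c * G u := by rw [happ]; ring
        calc ‖F u‖₊ = ‖(F - c • G) u + c * G u‖₊ := by rw [← h2]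
          _ ≤ _ := IsUltrametricDist.nnnorm_add_le_max _ _
      rcases le_max_iff.1 h1 with h2 | h2
      · exact h2
      · rw [hcmul] at h2
        exact absurd h2 (not_le.2 hlt)
    have hother : ∀ v, ‖(F - c • G) v‖₊ ≤ ‖F v‖₊ := by
      intro v
      rw [happ, sub_eq_add_neg]
      refine (IsUltrametricDist.nnnorm_add_le_max _ _).trans (max_le le_rfl ?_)
      rw [nnnorm_neg, hcmul]
      exact hle v
    have hsing : Single wt (F - c • G) u := by
      refine ⟨?_, ?_⟩
      · intro h0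
        rw [h0, nnnorm_zero] at hu
        exact hF.1 (by simpa using hu)
      · intro u' hne
        calc ‖(F - c • G) u'‖₊ * wt u' ≤ ‖F u'‖₊ * wt u' := mul_le_mul_left (hother u') _
          _ < ‖F u‖₊ * wt u := hF.2 u' hne
          _ ≤ ‖(F - c • G) u‖₊ * wt u := mul_le_mul_left hu _
    have hmem : F - c • G ∈ V := V.sub_mem hFV (V.smul_mem c hGV)
    have hcard := hmin _ hmem hsing
    have hsub : (F - c • G).support ⊂ F.support := by
      refine (Finset.ssubset_iff_of_subset ?_).2 ⟨u1, Finsupp.mem_support_iff.2 hF1, ?_⟩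
      · intro v hv
        rw [Finsupp.mem_support_iff] at hv ⊢
        intro h0
        apply hv
        have h1 := hother v
        rw [h0, nnnorm_zero] at h1
        simpa using h1
      · rw [Finsupp.mem_support_iff, not_not, happ, hc, div_mul_cancel₀ _ hG1, sub_self]
    exact absurd hcard (not_le.2 (Finset.card_lt_card hsub))

end CIR

theorem CIR_thm : CIR_Stmt := by
  intro K E _ _ M V hV
  classical
  obtain ⟨g, hg, hg1⟩ : ∃ g : Finset E → (E →₀ K), (∀ S, g S ∈ V) ∧
      ∀ S, (∃ F ∈ V, F ≠ 0 ∧ F.support = S) → g S ≠ 0 ∧ (g S).support = S := by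
    have h : ∀ S : Finset E, ∃ G : E →₀ K, G ∈ V ∧
        ((∃ F ∈ V, F ≠ 0 ∧ F.support = S) → G ≠ 0 ∧ G.support = S) := by
      intro S
      by_cases hS : ∃ F ∈ V, F ≠ 0 ∧ F.support = S
      · obtain ⟨F, hFV, hF⟩ := hS
        exact ⟨F, hFV, fun _ => hF⟩
      · exact ⟨0, V.zero_mem, fun h => absurd h hS⟩
    choose g hg hg1 using h
    exact ⟨g, hg, hg1⟩
  refine ⟨M.powerset.image g, ?_, ?_⟩
  · intro F hF
    obtain ⟨S, -, rfl⟩ := Finset.mem_image.1 hF
    exact hg S
  · intro wt hwt u hex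
    obtain ⟨F0, hF0V, hF0⟩ := hex
    obtain ⟨F, ⟨hFV, hF⟩, hmin⟩ := WellFounded.has_min
      (measure fun F : E →₀ K => F.support.card).wf {F | F ∈ V ∧ Single wt F u} ⟨F0, hF0V, hF0⟩
    have hmin' : ∀ G ∈ V, Single wt G u → F.support.card ≤ G.support.card := by
      intro G hGV hG
      exact not_lt.1 (hmin G ⟨hGV, hG⟩)
    have hFne : F ≠ 0 := by
      rintro rfl
      exact hF.1 rfl
    have hP := hg1 F.support ⟨F, hFV, hFne, rfl⟩
    refine ⟨g F.support, Finset.mem_image.2 ⟨F.support, ?_, rfl⟩, ?_⟩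
    · rw [Finset.mem_powerset]
      intro v hv
      exact hV F hFV v (Finsupp.mem_support_iff.1 hv)
    · exact CIR.key hFV hF hmin' (hg _) hP.1 hP.2.le

end Pool.Agent.TD.BG


end

section

/-!
# Linear images of polyhedra are polyhedra
-/

open scoped Topology

namespace Pool.Agent.TD.BG

namespace FM

theorem reindex {ι κ : Type} [Fintype ι] [Fintype κ] (e : ι ≃ κ) {S : Set (ι → ℝ)}
    (h : IsPolyh S) : IsPolyh {y : κ → ℝ | (fun i => y (e i)) ∈ S} := by
  obtain ⟨n, l, c, rfl⟩ := h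
  refine ⟨n, fun j k => l j (e.symm k), c, ?_⟩
  ext y
  show (∀ j, ∑ i, l j i * y (e i) ≤ c j) ↔ ∀ j, ∑ k, l j (e.symm k) * y k ≤ c j
  refine forall_congr' fun j => ?_
  rw [← Equiv.sum_comp e (fun k => l j (e.symm k) * y k)]
  simp only [Equiv.symm_apply_apply]

theorem elimOption (h1 : FM1_Stmt) {κ : Type} [Fintype κ] {T : Set (Option κ → ℝ)}
    (h : IsPolyh T) : IsPolyh ((fun z : Option κ → ℝ => fun k => z (some k)) '' T) := by
  set n := Fintype.card κ
  let e : κ ≃ Fin n := Fintype.equivFin κ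
  let e' : Option κ ≃ Fin (n + 1) := (Equiv.optionCongr e).trans (finSuccEquiv n).symm
  have he' : ∀ k, e' (some k) = (e k).succ := fun k => by
    simp [e']
  have he2 : ∀ i : Fin n, e'.symm i.succ = some (e.symm i) := fun i => by
    rw [Equiv.symm_apply_eq, he', Equiv.apply_symm_apply]
  have hT' := h1 n _ (reindex e' h)
  have hT2 := reindex e.symm hT'
  convert hT2 using 1
  ext y
  constructor
  · rintro ⟨z, hz, rfl⟩
    refine ⟨fun i => z (e'.symm i), ?_, ?_⟩
    · show (fun i => z (e'.symm (e' i))) ∈ T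
      simpa only [Equiv.symm_apply_apply] using hz
    · funext i
      show z (e'.symm i.succ) = z (some (e.symm i))
      rw [he2]
  · rintro ⟨x, hx, hxy⟩
    refine ⟨fun i => x (e' i), hx, ?_⟩
    funext k
    show x (e' (some k)) = y k
    have h2 := congrFun hxy (e k)
    have h3 : x (e k).succ = y (e.symm (e k)) := h2
    rw [he', h3, Equiv.symm_apply_apply]

/-- elimination of all coordinates of one type -/
theorem elim (h1 : FM1_Stmt) (ι : Type) [Finite ι] : ∀ [Fintype ι] (κ : Type) [Fintype κ]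
    (T : Set (ι ⊕ κ → ℝ)), IsPolyh T →
      IsPolyh ((fun z : ι ⊕ κ → ℝ => fun k => z (Sum.inr k)) '' T) := by
  induction ι using Finite.induction_empty_option with
  | of_equiv e ih =>
    rename_i α β
    intro _ κ _ T hT
    have : Fintype α := Fintype.ofEquiv β e.symm
    have h2 := ih κ _ (reindex (Equiv.sumCongr e.symm (Equiv.refl κ)) hT)
    convert h2 using 1
    ext y
    constructor
    · rintro ⟨z, hz, rfl⟩
      refine ⟨fun i => z (Equiv.sumCongr e (Equiv.refl κ) i), ?_, rfl⟩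
      show (fun i => z (Equiv.sumCongr e (Equiv.refl κ)
        (Equiv.sumCongr e.symm (Equiv.refl κ) i))) ∈ T
      convert hz using 1
      funext i
      congr 1
      rcases i with i | i
      · simp
      · simp
    · rintro ⟨z, hz, rfl⟩
      exact ⟨_, hz, rfl⟩
  | h_empty =>
    intro _ κ _ T hT
    have h2 := reindex (Equiv.emptySum PEmpty κ) hT
    convert h2 using 1
    ext y
    constructor
    · rintro ⟨z, hz, rfl⟩
      show (fun i => z (Sum.inr (Equiv.emptySum PEmpty κ i))) ∈ T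
      convert hz using 1
      funext i
      rcases i with i | i
      · exact i.elim
      · rfl
    · intro hy
      exact ⟨_, hy, rfl⟩
  | h_option ih =>
    rename_i α _
    intro _ κ _ T hT
    let e : Option α ⊕ κ ≃ α ⊕ Option κ :=
      { toFun := fun i => match i with
          | Sum.inl none => Sum.inr none
          | Sum.inl (some a) => Sum.inl a
          | Sum.inr k => Sum.inr (some k)
        invFun := fun i => match i with
          | Sum.inl a => Sum.inl (some a)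
          | Sum.inr none => Sum.inl none
          | Sum.inr (some k) => Sum.inr k
        left_inv := by
          rintro ((_ | _) | _) <;> rfl
        right_inv := by
          rintro (_ | _ | _) <;> rfl }
    have h2 := ih (Option κ) _ (reindex e hT)
    have h3 := elimOption h1 h2
    convert h3 using 1
    ext y
    constructor
    · rintro ⟨z, hz, rfl⟩
      refine ⟨_, ⟨fun i => z (e.symm i), ?_, rfl⟩, rfl⟩
      show (fun i => z (e.symm (e i))) ∈ T
      simpa only [Equiv.symm_apply_apply] using hz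
    · rintro ⟨_, ⟨z, hz, rfl⟩, rfl⟩
      exact ⟨_, hz, rfl⟩

theorem inter_fin (h2 : PLB_Stmt) {ι κ : Type} [Fintype ι] (A : κ → Set (ι → ℝ))
    (hA : ∀ k, IsPolyh (A k)) (s : Finset κ) : IsPolyh (⋂ k ∈ s, A k) := by
  classical
  induction s using Finset.induction_on with
  | empty =>
    simp only [Finset.notMem_empty, Set.iInter_of_empty, Set.iInter_univ]
    exact (h2 ι).2.2.2.2.2.2.1
  | insert k s _ ih =>
    rw [Finset.set_biInter_insert]
    exact (h2 ι).1 _ _ (hA k) ih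

end FM

/-- Linear images of polyhedra are polyhedra. -/
theorem FM_thm (h1 : FM1_Stmt) (h2 : PLB_Stmt) : FM_Stmt := by
  classical
  intro ι κ _ _ L S hS
  let G : Set (ι ⊕ κ → ℝ) := {z | (fun i => z (Sum.inl i)) ∈ S} ∩
    ⋂ k ∈ (Finset.univ : Finset κ), {z | ∑ j, (Sum.elim
      (fun i => - L (Pi.single i 1) k) (Pi.single k 1) : ι ⊕ κ → ℝ) j * z j = 0}
  have hLx : ∀ (x : ι → ℝ) (k : κ), L x k = ∑ i, L (Pi.single i 1) k * x i := by
    intro x k
    have h3 : x = ∑ i, x i • (Pi.single i (1 : ℝ) : ι → ℝ) := by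
      funext j
      simp [Finset.sum_apply, Pi.single_apply]
    conv_lhs => rw [h3]
    rw [map_sum, Finset.sum_apply]
    refine Finset.sum_congr rfl fun i _ => ?_
    rw [map_smul, Pi.smul_apply, smul_eq_mul, mul_comm]
  have hmem : ∀ (z : ι ⊕ κ → ℝ) (k : κ), (∑ j, (Sum.elim
      (fun i => - L (Pi.single i 1) k) (Pi.single k 1) : ι ⊕ κ → ℝ) j * z j = 0) ↔
      z (Sum.inr k) = L (fun i => z (Sum.inl i)) k := by
    intro z k
    rw [hLx, Fintype.sum_sum_type]
    simp only [Sum.elim_inl, Sum.elim_inr, Pi.single_apply, ite_mul, one_mul, zero_mul,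
      Finset.sum_ite_eq', Finset.mem_univ, if_true, neg_mul, Finset.sum_neg_distrib]
    constructor <;> intro h <;> linarith
  have hG : IsPolyh G := by
    refine (h2 _).1 _ _ ?_ (FM.inter_fin h2 _ (fun k => (h2 _).2.2.2.2.2.1 _ 0) _)
    obtain ⟨n, l, c, rfl⟩ := hS
    refine ⟨n, fun j => Sum.elim (l j) 0, c, ?_⟩
    ext z
    show (∀ j, ∑ i, l j i * z (Sum.inl i) ≤ c j) ↔
      ∀ j, ∑ i, (Sum.elim (l j) 0 : ι ⊕ κ → ℝ) i * z i ≤ c j
    refine forall_congr' fun j => ?_
    rw [Fintype.sum_sum_type]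
    simp
  have h4 := FM.elim h1 ι κ G hG
  convert h4 using 1
  ext y
  constructor
  · rintro ⟨x, hx, rfl⟩
    refine ⟨Sum.elim x (L x), ⟨hx, ?_⟩, rfl⟩
    refine Set.mem_iInter₂.2 fun k _ => ?_
    exact (hmem _ k).2 rfl
  · rintro ⟨z, ⟨hz, hz2⟩, rfl⟩
    refine ⟨_, hz, ?_⟩
    funext k
    exact ((hmem z k).1 (Set.mem_iInter₂.1 hz2 k (Finset.mem_univ k))).symm

end Pool.Agent.TD.BG


end

section

/-!
# ADH: a polyhedron which comes arbitrarily close to `(w, -∞)` is star-shaped about `w` after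
projection
-/

open scoped Topology

namespace Pool.Agent.TD.BG

namespace ADH

/-- The set where the coordinates outside `p` are at most `c` is a polyhedron. -/
theorem polyh_le {ι : Type} [Fintype ι] (p : ι → Prop) (c : ℝ) :
    IsPolyh {x : ι → ℝ | ∀ i, ¬ p i → x i ≤ c} := by
  classical
  let e : Fin (Fintype.card ι) ≃ ι := (Fintype.equivFin ι).symm
  refine ⟨Fintype.card ι, fun j => if p (e j) then 0 else Pi.single (e j) 1,
    fun j => if p (e j) then 0 else c, ?_⟩
  ext x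
  simp only [Set.mem_setOf_eq]
  have key : ∀ j : Fin (Fintype.card ι),
      (∑ i, (if p (e j) then (0 : ι → ℝ) else Pi.single (e j) 1) i * x i ≤
        if p (e j) then 0 else c) ↔ (¬ p (e j) → x (e j) ≤ c) := by
    intro j
    by_cases hp : p (e j)
    · simp [hp]
    · have h1 : ∑ i, (Pi.single (e j) (1 : ℝ) : ι → ℝ) i * x i = x (e j) := by
        rw [Finset.sum_eq_single (e j)]
        · simp
        · intro i _ hi
          rw [Pi.single_eq_of_ne hi, zero_mul]
        · intro h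
          exact absurd (Finset.mem_univ _) h
      simp only [hp, if_false, h1, not_false_eq_true, true_imp_iff]
  constructor
  · intro h j
    exact (key j).2 (h (e j))
  · intro h i hi
    have h1 := (key (e.symm i)).1 (h (e.symm i))
    rw [Equiv.apply_symm_apply] at h1
    exact h1 hi

/-- The linear map which sets the coordinates outside `p` to `0`. -/
noncomputable def kill {ι : Type} (p : ι → Prop) [DecidablePred p] :
    (ι → ℝ) →ₗ[ℝ] (ι → ℝ) :=
  LinearMap.pi fun i => if p i then LinearMap.proj i else 0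

theorem kill_pos {ι : Type} (p : ι → Prop) [DecidablePred p] (x : ι → ℝ) {i : ι} (h : p i) :
    kill p x i = x i := by
  simp [kill, h]

theorem kill_neg {ι : Type} (p : ι → Prop) [DecidablePred p] (x : ι → ℝ) {i : ι} (h : ¬ p i) :
    kill p x i = 0 := by
  simp [kill, h]

end ADH

open ADH in
theorem ADH_thm (h1 : FM_Stmt) (h2 : PLB_Stmt) : ADH_Stmt := by
  classical
  intro ι _ p S hS w hw ε c _ x hx _ hxc r hr0 hr1
  obtain ⟨hinter, hcc, -⟩ := h2 ι
  have hSc : IsPolyh (S ∩ {x : ι → ℝ | ∀ i, ¬ p i → x i ≤ c}) := hinter _ _ hS (polyh_le p c)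
  have hC : IsClosed (kill p '' (S ∩ {x : ι → ℝ | ∀ i, ¬ p i → x i ≤ c})) :=
    (hcc _ (h1 ι ι (kill p) _ hSc)).2
  have hconv : Convex ℝ S := (hcc S hS).1
  let y : ι → ℝ := fun i => if p i then w i + r * (x i - w i) else 0
  have hy : y ∈ kill p '' (S ∩ {x : ι → ℝ | ∀ i, ¬ p i → x i ≤ c}) := by
    rw [← hC.closure_eq, Metric.mem_closure_iff]
    intro δ hδ
    have hc0 : 0 < |c| + 1 := by positivity
    obtain ⟨z, hz, hzp, hzn⟩ := hw (min (δ / 2) (1 / (|c| + 1))) (lt_min (half_pos hδ)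
      (one_div_pos.2 hc0))
    have hη0 : 0 < min (δ / 2) (1 / (|c| + 1)) := lt_min (half_pos hδ) (one_div_pos.2 hc0)
    have hη1 : |c| + 1 ≤ 1 / min (δ / 2) (1 / (|c| + 1)) := by
      rw [le_one_div hc0 hη0]
      exact min_le_right _ _
    refine ⟨kill p ((1 - r) • z + r • x), ⟨_, ⟨?_, ?_⟩, rfl⟩, ?_⟩
    · exact hconv hz hx (by linarith) hr0 (by ring)
    · intro i hi
      have hzi : z i ≤ c := by
        have h3 := hzn i hi
        have h4 : -|c| ≤ c := neg_abs_le c
        linarith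
      have hxi : x i ≤ c := hxc i hi
      show (1 - r) * z i + r * x i ≤ c
      have h5 : (1 - r) * z i ≤ (1 - r) * c := mul_le_mul_of_nonneg_left hzi (by linarith)
      have h6 : r * x i ≤ r * c := mul_le_mul_of_nonneg_left hxi hr0
      linarith
    · refine lt_of_le_of_lt ((dist_pi_le_iff (half_pos hδ).le).2 fun i => ?_) (half_lt_self hδ)
      by_cases hi : p i
      · rw [kill_pos p _ hi, Real.dist_eq]
        have h3 : y i - ((1 - r) • z + r • x) i = -((1 - r) * (z i - w i)) := by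
          simp only [y, hi, if_true, Pi.add_apply, Pi.smul_apply, smul_eq_mul]
          ring
        rw [h3, abs_neg, abs_mul, abs_of_nonneg (by linarith : (0 : ℝ) ≤ 1 - r)]
        have h4 : |z i - w i| ≤ δ / 2 := (hzp i hi).trans (min_le_left _ _)
        calc (1 - r) * |z i - w i| ≤ 1 * |z i - w i| :=
              mul_le_mul_of_nonneg_right (by linarith) (abs_nonneg _)
          _ ≤ δ / 2 := by rw [one_mul]; exact h4
      · rw [kill_neg p _ hi]
        simp only [y, hi, if_false, dist_self]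
        exact (half_pos hδ).le
  obtain ⟨x', ⟨hx'S, hx'c⟩, hx'y⟩ := hy
  refine ⟨x', hx'S, fun i hi => ?_, hx'c⟩
  have h3 := congrFun hx'y i
  rw [kill_pos p _ hi] at h3
  rw [h3]
  simp only [y, hi, if_true]

end Pool.Agent.TD.BG


end

section

/-!
# Module IDJ: `IJ t J` is an ideal
-/

set_option autoImplicit false
set_option linter.unusedSectionVars false

open scoped ContDiff Topology NNReal

namespace Pool.Agent.TD.BG

namespace IDJ

variable {K A : Type} [NormedField K] [CommRing A] [Algebra K A] [DecidableEq A] {J : Finset A}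

/-- The Laurent monomial with exponent `u`. -/
noncomputable def mz (K : Type) [NormedField K] (J : Finset A) (u : J → ℤ) : Laur K J :=
  AddMonoidAlgebra.single u 1

theorem mz_add (u u' : J → ℤ) : mz K J (u + u') = mz K J u * mz K J u' := by
  unfold mz
  rw [AddMonoidAlgebra.single_mul_single, one_mul]

theorem mz_zero : mz K J 0 = 1 := rfl

/-- The monomial of the polynomial ring. -/
noncomputable def mp (K : Type) [NormedField K] (J : Finset A) (u : J → ℕ) : MvPolynomial J K :=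
  ∏ j : J, MvPolynomial.X j ^ u j

theorem mz_nsmul (u : J → ℤ) (n : ℕ) : mz K J (n • u) = mz K J u ^ n := by
  induction n with
  | zero => rw [zero_smul, pow_zero, mz_zero]
  | succ n ih => rw [add_smul, one_smul, mz_add, ih, pow_succ]

theorem mz_sum (s : Finset J) (f : J → J → ℤ) :
    mz K J (∑ j ∈ s, f j) = ∏ j ∈ s, mz K J (f j) := by
  induction s using Finset.induction_on with
  | empty => rw [Finset.sum_empty, Finset.prod_empty, mz_zero]
  | insert i s hi ih => rw [Finset.sum_insert hi, Finset.prod_insert hi, mz_add, ih]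

theorem phi_mp (u : J → ℕ) :
    MvPolynomial.aeval (fun j : J => (var j : Laur K J)) (mp K J u) =
      mz K J (fun j => (u j : ℤ)) := by
  unfold mp
  rw [map_prod]
  have h1 : ∀ j : J, MvPolynomial.aeval (fun j : J => (var j : Laur K J))
      (MvPolynomial.X j ^ u j : MvPolynomial J K) = mz K J (u j • (Pi.single j 1 : J → ℤ)) := by
    intro j
    rw [map_pow, MvPolynomial.aeval_X, mz_nsmul]
    rfl
  simp only [h1]
  rw [← mz_sum]
  congr 1
  funext i
  rw [Finset.sum_apply, Finset.sum_eq_single i]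
  · simp
  · intro j _ hj
    simp [Ne.symm hj]
  · intro h
    exact absurd (Finset.mem_univ i) h

/-- Every Laurent polynomial becomes a polynomial after multiplication by a monomial. -/
theorem exists_poly (G : Laur K J) : ∃ (u : J → ℕ) (Q : MvPolynomial J K),
    G * mz K J (fun j => (u j : ℤ)) = MvPolynomial.aeval (fun j : J => var j) Q := by
  induction G using AddMonoidAlgebra.induction_linear with
  | zero => exact ⟨0, 0, by rw [zero_mul, map_zero]⟩
  | add f g hf hg =>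
    obtain ⟨u, Q, h⟩ := hf
    obtain ⟨u', Q', h'⟩ := hg
    refine ⟨u + u', Q * mp K J u' + Q' * mp K J u, ?_⟩
    have h1 : (fun j => ((u + u') j : ℤ)) = (fun j => (u j : ℤ)) + fun j => (u' j : ℤ) := by
      funext j
      simp
    rw [map_add, map_mul, map_mul, phi_mp, phi_mp, ← h, ← h', h1, mz_add]
    ring
  | single a c =>
    refine ⟨fun j => (-a j).toNat, MvPolynomial.C c * mp K J (fun j => (a j).toNat), ?_⟩
    rw [map_mul, phi_mp, MvPolynomial.aeval_C]
    have h1 : a + (fun j => ((-a j).toNat : ℤ)) = fun j => ((a j).toNat : ℤ) := by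
      funext j
      show a j + ((-a j).toNat : ℤ) = ((a j).toNat : ℤ)
      omega
    have h2 : (AddMonoidAlgebra.single a c : Laur K J) = algebraMap K (Laur K J) c * mz K J a := by
      unfold mz
      rw [← Algebra.smul_def]
      simp
    rw [h2, mul_assoc, ← mz_add, h1]

theorem zero_mem (t J : Finset A) : IJ (K := K) t J 0 :=
  ⟨0, 0, by rw [zero_mul, map_zero], by rw [map_zero]; exact Ideal.zero_mem _⟩

theorem add_mem {t J : Finset A} {F F' : Laur K J} (h : IJ t J F) (h' : IJ t J F') :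
    IJ t J (F + F') := by
  obtain ⟨u, P, h1, h2⟩ := h
  obtain ⟨u', P', h1', h2'⟩ := h'
  refine ⟨u + u', P * mp K J u' + P' * mp K J u, ?_, ?_⟩
  · have e1 : (fun j => ((u + u') j : ℤ)) = (fun j => (u j : ℤ)) + fun j => (u' j : ℤ) := by
      funext j
      simp
    rw [map_add, map_mul, map_mul, phi_mp, phi_mp, ← h1, ← h1', e1]
    show (F + F') * mz K J _ = F * mz K J _ * mz K J _ + F' * mz K J _ * mz K J _
    rw [mz_add]
    ring
  · rw [map_add, map_mul, map_mul]
    exact Ideal.add_mem _ (Ideal.mul_mem_right _ _ h2) (Ideal.mul_mem_right _ _ h2')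

theorem mul_mem {t J : Finset A} (G : Laur K J) {F : Laur K J} (h : IJ t J F) :
    IJ t J (G * F) := by
  obtain ⟨u, P, h1, h2⟩ := h
  obtain ⟨u', Q, h3⟩ := exists_poly G
  refine ⟨u + u', Q * P, ?_, ?_⟩
  · have e1 : (fun j => ((u + u') j : ℤ)) = (fun j => (u j : ℤ)) + fun j => (u' j : ℤ) := by
      funext j
      simp
    rw [map_mul, ← h1, ← h3, e1]
    show (G * F) * mz K J _ = G * mz K J _ * (F * mz K J _)
    rw [mz_add]
    ring
  · rw [map_mul]
    exact Ideal.mul_mem_left _ _ h2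

end IDJ

theorem IDJ_thm : IDJ_Stmt := by
  intro K A _ _ _ _ t J
  exact ⟨{ carrier := {F | IJ t J F}
           zero_mem' := IDJ.zero_mem t J
           add_mem' := fun h h' => IDJ.add_mem h h'
           smul_mem' := fun G F h => IDJ.mul_mem G h }, fun F => Iff.rfl⟩

end Pool.Agent.TD.BG


end

section

/-!
# Block BG (MP_90358a_ag): star-shaped neighbourhoods, the form used by the other blocks
(module TD_BG_STA)
-/

set_option autoImplicit false

open scoped Topology

namespace Pool.Agent.TD.BG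

/-- STA from SSP: local star-shapedness and finite unions of convex sets. -/
theorem STA_thm (h1 : SSP_Stmt) (h2 : PLB_Stmt) : STA_Stmt := by
  intro K A _ _ _ _ _ z
  constructor
  · intro u hu V hV
    obtain ⟨V', hV', h3, -, h4, -, h5⟩ := h1 K A z u (fun a ha => hu a ha) V hV
    exact ⟨V', hV', h3, fun a ha z' hz' => h4 a ha z' hz', h5⟩
  · intro u hu V hV
    obtain ⟨V', hV', h3, -, h4, ⟨n, σ, h6, h7⟩, -⟩ := h1 K A z u (fun a ha => hu a ha) V hV
    refine ⟨V', hV', h3, fun a ha z' hz' => h4 a ha z' hz', Set.range σ, Set.finite_range σ, ?_, ?_⟩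
    · rintro _ ⟨i, rfl⟩
      exact ((h2 u).2.1 (σ i) (h6 i)).1
    · rw [h7, Set.sUnion_range]

end Pool.Agent.TD.BG


end

section

/-!
# Blocks BG and M: the theorems without hypotheses
-/

namespace Pool.Agent.TD.BG

theorem cnt : CNT_Stmt := CNT_thm ORT_thm
theorem dim : DIM_Stmt := DIM_thm ORT_thm
theorem stp : STP_Stmt := STP_thm MAC_thm cnt
theorem uni : UNI_Stmt := UNI_thm stp dim
theorem ftb : FTB_Stmt := FTB_thm uni CIR_thm
theorem tpl : TPL_Stmt := TPL_thm ftb PLB_thm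
theorem fm : FM_Stmt := FM_thm FM1_thm PLB_thm
theorem adh : ADH_Stmt := ADH_thm fm PLB_thm
theorem b1 : B1_Stmt := B1_thm M3_thm
theorem str : STR_Stmt := STR_thm b1
theorem top : TOP_Stmt := TOP_thm
theorem exh : EXH_Stmt := EXH_thm TOP_thm BND_thm
theorem nhd : NHD_Stmt := NHD_thm TOP_thm BND_thm
theorem int : INT_Stmt := INT_thm M3_thm TOP_thm
theorem cut : CUT_Stmt := CUT_thm TOP_thm nhd
theorem ssp : SSP_Stmt := SSP_thm nhd str IDJ_thm tpl fm PLB_thm adh
theorem sta : STA_Stmt := STA_thm ssp PLB_thm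

end Pool.Agent.TD.BG


end

section

/-!
# Block F: the interface to block U, local properties of `M(A)`
-/

open scoped ContDiff Topology
open Polynomial

namespace Pool.Agent.TD

theorem good_of_finiteType (K A : Type) [NormedField K] [IsUltrametricDist K] [CommRing A]
    [Algebra K A] [Algebra.FiniteType K A] : Good K A where
  lc := (BG.exh K A).1
  cut := BG.cut K A
  star z := (BG.sta K A z).1

section
variable {K A : Type} [NormedField K] [CommRing A] [Algebra K A]

theorem bridge_ix : (prX K A).ix = (prM K A).ix := funext fun _ => rfl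

theorem bridge_fun : (prX K A).toFun = (prM K A).toFun :=
  funext fun _ => Ber.ext_v fun _ => rfl

theorem bridge_mem {y : Ber K A} {r : ℝ} {z : Ber K A[X]} :
    z ∈ circ y r ↔ z ∈ circB K A r ∧ (prM K A).toFun z = y := by
  constructor
  · rintro ⟨h1, h2⟩
    exact ⟨h2, by rw [← bridge_fun]; exact h1⟩
  · rintro ⟨h1, h2⟩
    exact ⟨by rw [bridge_fun]; exact h2, h1⟩

/-- A global section with a given constant germ at `y`. -/
theorem bridge_ext [LocallyCompactSpace (Ber K A)] (hC : (berLS K A).CutOff) {y : Ber K A}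
    {p : ℕ} {x0 : Raw A p 0} (hx : IsCst x0) (hs : (berLS K A).SFat y x0) :
    ∃ a : (berLS K A).G p 0, (berLS K A).ddS p 0 y (a.1 y) = 0 ∧
      a.1 y = (berLS K A).germ x0 hs := by
  obtain ⟨a, ha⟩ := (berLS K A).extend_germ hC hs
  obtain ⟨ha1, ha2⟩ := ha.self_of_nhds
  refine ⟨a, ?_, ha2⟩
  rw [ha2]
  exact (berLS K A).Lp_closed ((berLS K A).germ_cst_mem hx ha1)

theorem bridge_cst {y : Ber K A} (hst : (berLS K A).StarAt y) {p : ℕ}
    {x : (berLS K A).Stalk p 0 y} (hx : (berLS K A).ddS p 0 y x = 0) :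
    ∃ x0 : Raw A p 0, IsCst x0 ∧ ∃ hs : (berLS K A).SFat y x0, x = (berLS K A).germ x0 hs :=
  (berLS K A).exists_cst ((berLS K A).poincare0 hst x hx)

end

/-- The degree zero part of the fibre theorem. -/
theorem circU (K A : Type) [NormedField K] [IsUltrametricDist K] [CommRing A] [IsDomain A]
    [Algebra K A] [Algebra.FiniteType K A] (r : ℝ) (hr : 0 < r) : CircU K A r := by
  have hG := good_of_finiteType K A
  have := hG.lc
  have hC := hG.cut
  refine ⟨?_, ?_, ?_, ?_⟩
  · intro y c hc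
    obtain ⟨t, ht⟩ := circ_raw0 BG.sta BG.int y hr c (by
      intro z hz
      exact hc z (bridge_mem.1 hz).1 (bridge_mem.1 hz).2)
    have h1 : (berLS K A).SFat y (one0 : Raw A 0 0) := ⟨∅, isSF_one0 ∅, by simp⟩
    obtain ⟨a, ha1, ha2⟩ := bridge_ext hC (isCst_one0.smul t) (h1.smul t)
    refine ⟨a, ha1, ?_⟩
    intro z hz hy
    subst hy
    rw [ht z (bridge_mem.2 ⟨hz, rfl⟩), Mor.pullG_val, ha2, (berLS K A).germ_smul t h1, map_smul]
    rfl
  · intro p y c hc
    obtain ⟨x0, v0, hx0, hv0, hsx, hsv, h⟩ := circ_raw BG.sta BG.int y hr c (by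
      intro z hz
      exact hc z (bridge_mem.1 hz).1 (bridge_mem.1 hz).2)
    obtain ⟨a, ha1, ha2⟩ := bridge_ext hC hx0 hsx
    obtain ⟨b, hb1, hb2⟩ := bridge_ext hC hv0 hsv
    refine ⟨a, b, ha1, hb1, ?_⟩
    intro z hz hd hy
    subst hy
    obtain ⟨k, hk⟩ := h z (bridge_mem.2 ⟨hz, rfl⟩)
    rw [hk, Mor.pullG_val, Mor.pullG_val, ha2, hb2, Mor.pullS_germ, Mor.pullS_germ,
      LogSpace.dlS, LogSpace.wdS_germ, ← LogSpace.germ_add]
    exact (berLS K A[X]).germ_congr rfl _ _
  · intro y a ha h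
    obtain ⟨x0, hx0, hs, e⟩ := bridge_cst (hG.star y) ha
    rw [e, LogSpace.germ_eq_zero]
    refine circ_inj0 y hr x0 hx0 hs ?_
    intro z hz
    obtain ⟨hz1, hz2⟩ := bridge_mem.1 hz
    subst hz2
    have h1 := h z hz1 rfl
    rw [Mor.pullG_val, e, Mor.pullS_germ, LogSpace.germ_eq_zero] at h1
    exact h1
  · intro p y a b ha hb h
    obtain ⟨x0, hx0, hs, e⟩ := bridge_cst (hG.star y) ha
    obtain ⟨v0, hv0, ht, e'⟩ := bridge_cst (hG.star y) hb
    rw [e, e', LogSpace.germ_eq_zero, LogSpace.germ_eq_zero]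
    refine circ_inj y hr x0 v0 hx0 hv0 hs ht ?_
    intro z hz
    obtain ⟨hz1, hz2⟩ := bridge_mem.1 hz
    subst hz2
    have h1 := h z hz1 (dom_of_circ hr hz1) rfl
    rw [Mor.pullG_val, Mor.pullG_val, e, e', Mor.pullS_germ, Mor.pullS_germ, LogSpace.dlS,
      LogSpace.wdS_germ, ← LogSpace.germ_add, LogSpace.germ_eq_zero] at h1
    exact h1

end Pool.Agent.TD


end
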