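import Mathlib
import Pool.Agent.DolbM.C03
import Pool.Agent.DolbM.C05
import Pool.Agent.DolbM.C09
import Pool.Agent.DolbM.C15
import Pool.Agent.TD.S.Toric

/-! Parts: TD.F.Poly, TD.F.Final, TD.S.ToricMain -/

section

/-!
# Block F, (F2): polynomial rings
-/

open scoped ContDiff Topology
open Polynomial

namespace Pool.Agent.TD

/-- (F2) for polynomial rings. -/
theorem torP_mvPolynomial (K : Type) [NormedField K] [IsUltrametricDist K]
    (hG : ∀ (A : Type) [CommRing A] [Algebra K A] [Algebra.FiniteType K A], Good K A)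
    (hU : ∀ (A : Type) [CommRing A] [Algebra K A] [Algebra.FiniteType K A] [IsDomain A] (r : ℝ),
      0 < r → CircU K A r) (n : ℕ) :
    TorP K (fun i : Fin n => (MvPolynomial.X i : MvPolynomial (Fin n) K)) := by
  induction n with
  | zero =>
    have h := (torP_self K (hG K)).iso (MvPolynomial.isEmptyAlgEquiv K (Fin 0)).symm
    have e : (fun i => (MvPolynomial.isEmptyAlgEquiv K (Fin 0)).symm
        ((Fin.elim0 : Fin 0 → K) i)) =
        fun i : Fin 0 => (MvPolynomial.X i : MvPolynomial (Fin 0) K) := by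
      funext i
      exact i.elim0
    rw [e] at h
    exact h
  | succ n ih =>
    have hF : Algebra.FiniteType K (Polynomial (MvPolynomial (Fin n) K)) :=
      Algebra.FiniteType.trans (S := MvPolynomial (Fin n) K) inferInstance inferInstance
    have h := (TorP.step (hG (MvPolynomial (Fin n) K)) (hG (Polynomial (MvPolynomial (Fin n) K)))
      (hU (MvPolynomial (Fin n) K)) ih).iso (MvPolynomial.finSuccEquiv K n).symm
    have e : (fun i => (MvPolynomial.finSuccEquiv K n).symm
        (coX (fun i : Fin n => (MvPolynomial.X i : MvPolynomial (Fin n) K)) i)) =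
        fun i : Fin (n + 1) => (MvPolynomial.X i : MvPolynomial (Fin (n + 1)) K) := by
      funext i
      rw [AlgEquiv.symm_apply_eq]
      refine Fin.cases ?_ (fun j => ?_) i
      · rw [MvPolynomial.finSuccEquiv_X_zero]
        rfl
      · rw [MvPolynomial.finSuccEquiv_X_succ]
        rfl
    rw [e] at h
    exact h

end Pool.Agent.TD


end

section

/-!
# Block F: (F2) in the form used by block Y, stage 1
-/

open scoped ContDiff Topology
open Polynomial

namespace Pool.Agent.TD

/-- (F2) -/
theorem f2 (K : Type) [NormedField K] [IsUltrametricDist K] : F2 K := fun n =>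
  torP_mvPolynomial K (fun A _ _ _ => good_of_finiteType K A)
    (fun A _ _ _ _ r hr => circU K A r hr) n

end Pool.Agent.TD


end

section

/-! # Statement layer: the theorem for toric varieties -/

open scoped ContDiff Topology
open AlgebraicGeometry CategoryTheory

namespace Pool.Agent.TD

namespace Toric

variable {K : Type} [NormedField K] {n : ℕ} {F : Fan n} {Y : Scheme.{0}} {ι : Str K Y}
  (T : Toric F Y ι)

theorem reps_pb {p q : ℕ} : Reps T.tropMor (T.pb (p := p) (q := q)) := by
  classical
  intro a ha z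
  obtain ⟨s, hs, hd⟩ := ha.1 (T.trop z)
  have hzU := T.mem_minCone z.pt
  have h1 : ∀ f ∈ s, z ∈ (anLS Y ι).dom (T.cix z f) := by
    intro f hf
    have h2 : f ∈ perpM (T.minCone z.pt).1 := hd f hf
    refine ⟨hzU, ?_⟩
    unfold cix
    simp only [dif_pos h2]
    exact T.absv_chi_ne_zero h2 hzU
  have h2 : ∀ f ∈ s, z ∈ (anLS Y ι).dom (T.tropMor.ix f) := fun f hf =>
    T.tropMor.dom_sub f z (hd f hf)
  have h3 : ∀ f ∈ s, ∀ᶠ z' in 𝓝 z, (anLS Y ι).lf (T.cix z f) z' =
      (anLS Y ι).lf (T.tropMor.ix f) z' := by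
    intro f hf
    have h4 : f ∈ perpM (T.minCone z.pt).1 := hd f hf
    filter_upwards [(An.isOpen_opn (T.U (T.minCone z.pt))).mem_nhds hzU] with z' hz'
    show Real.log (An.absv _ (T.cix z f).2 z') =
      Real.log (An.absv (T.Um f) (T.chiU f) z')
    unfold cix
    simp only [dif_pos h4]
    rw [T.absv_chiU h4 hz']
  have hs' : IsSF s (a (T.trop z)) := hs
  have k1 : (anLS Y ι).SFat z (pullR (T.cix z) (a (T.trop z))) := by
    classical
    refine ⟨s.image (T.cix z), hs'.pullR, ?_⟩
    intro f hf
    obtain ⟨g, hg, rfl⟩ := Finset.mem_image.1 hf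
    exact h1 g hg
  have k2 : (anLS Y ι).SFat z (pullR T.tropMor.ix (a (T.trop z))) :=
    T.tropMor.sfat (ha.1 (T.trop z))
  exact ((anLS Y ι).germ_eq_iff k1 k2).1
    ((anLS Y ι).germ_pullR_congr (T.cix z) T.tropMor.ix hs' h1 h2 h3 k1 k2)

/-- The tropicalization map induces isomorphisms on Dolbeault cohomology. -/
theorem isoH [IsUltrametricDist K] (p q : ℕ) :
    IsoH (tropLS F) (anLS Y ι) (T.pb (p := p) (q := q)) ∧
      IsoHc (tropLS F) (anLS Y ι) (T.pb (p := p) (q := q)) := by
  obtain ⟨⟨h1, h2⟩, h3, h4⟩ := T.stage1_forms (f2 K) p q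
  exact ⟨isoH_of T.reps_pb h1 h2, isoHc_of T.reps_pb T.isProp h3 h4⟩

end Toric

end Pool.Agent.TD


end
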