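import Mathlib
import Pool.Agent.TD.N.Defs
import Pool.Agent.TD.T.Basic

/-! Parts: TD.GP.Gx, TD.GP.Gm, TD.OV.Rel, TD.SEP.A, TD.SEP.B -/

section

/-!
# Gauss extensions (MP_90358a_ag, PAPER2.md Q4)

`gx z s` is the point `|∑ a_i Y^i| = max |a_i|_z s^i` of `M(A[Y])`, `z` in `M(A)`, `s ≥ 0`.
`gauss_mul` is the multiplicativity for polynomials in any number of variables.
-/

open scoped Topology NNReal Polynomial
open Polynomial

namespace Pool.Agent.TD

variable {K A : Type} [NormedField K] [CommRing A] [Algebra K A]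

namespace Ber

/-- The value as a non-negative real number. -/
def nv (z : Ber K A) (a : A) : ℝ≥0 := ⟨z.v a, z.nonneg a⟩

@[simp] theorem coe_nv (z : Ber K A) (a : A) : ((z.nv a : ℝ≥0) : ℝ) = z.v a := rfl

theorem nv_zero (z : Ber K A) : z.nv 0 = 0 := NNReal.eq z.zero

theorem nv_mul (z : Ber K A) (a b : A) : z.nv (a * b) = z.nv a * z.nv b := NNReal.eq (z.mul a b)

theorem sum_lt {ι : Type} (z : Ber K A) (s : Finset ι) (f : ι → A) {M : ℝ} (hM : 0 < M)
    (h : ∀ i ∈ s, z.v (f i) < M) : z.v (∑ i ∈ s, f i) < M := by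
  classical
  induction s using Finset.induction_on with
  | empty => simpa [z.zero] using hM
  | insert i s hi ih =>
    rw [Finset.sum_insert hi]
    refine (z.add _ _).trans_lt (max_lt (h i (Finset.mem_insert_self i s)) (ih fun j hj => ?_))
    exact h j (Finset.mem_insert_of_mem hj)

theorem continuous_nv (a : A) : Continuous (fun z : Ber K A => z.nv a) :=
  Continuous.subtype_mk (continuous_v a) _

/-- Multiplicativity of Gauss norms, abstract form. -/
theorem gauss_mul {G O : Type} [AddCommMonoid G] [Finset.HasAntidiagonal G] [AddCommMonoid O]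
    [LinearOrder O] [IsOrderedCancelAddMonoid O] (o : G →+ O) (ho : Function.Injective o)
    (z : Ber K A) (w : G → ℝ≥0) (hw : ∀ a b, w (a + b) = w a * w b) (f g : G → A)
    (S T U : Finset G) (hS : ∀ i, i ∉ S → f i = 0) (hT : ∀ i, i ∉ T → g i = 0)
    (hU : ∀ i, i ∉ U → ∑ x ∈ Finset.HasAntidiagonal.antidiagonal i, f x.1 * g x.2 = 0) :
    (U.sup fun n => z.nv (∑ x ∈ Finset.HasAntidiagonal.antidiagonal n, f x.1 * g x.2) * w n) =
      (S.sup fun i => z.nv (f i) * w i) * (T.sup fun i => z.nv (g i) * w i) := by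
  classical
  have hf : ∀ i, z.nv (f i) * w i ≤ S.sup fun i => z.nv (f i) * w i := by
    intro i
    by_cases hi : i ∈ S
    · exact Finset.le_sup (f := fun i => z.nv (f i) * w i) hi
    · rw [hS i hi, nv_zero, zero_mul]; exact zero_le
  have hg : ∀ i, z.nv (g i) * w i ≤ T.sup fun i => z.nv (g i) * w i := by
    intro i
    by_cases hi : i ∈ T
    · exact Finset.le_sup (f := fun i => z.nv (g i) * w i) hi
    · rw [hT i hi, nv_zero, zero_mul]; exact zero_le
  obtain ⟨Mf, hMf⟩ : ∃ M, M = S.sup fun i => z.nv (f i) * w i := ⟨_, rfl⟩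
  obtain ⟨Mg, hMg⟩ : ∃ M, M = T.sup fun i => z.nv (g i) * w i := ⟨_, rfl⟩
  rw [← hMf] at hf
  rw [← hMg] at hg
  rw [← hMf, ← hMg]
  have hsum : ∀ n, z.nv (∑ x ∈ Finset.HasAntidiagonal.antidiagonal n, f x.1 * g x.2) * w n ≤ Mf * Mg := by
    intro n
    rcases eq_or_ne (w n) 0 with h0 | h0
    · rw [h0, mul_zero]; exact zero_le
    have hwn : 0 < w n := pos_iff_ne_zero.2 h0
    rw [← le_div_iff₀ hwn, ← NNReal.coe_le_coe, coe_nv]
    refine z.sum_le _ _ (NNReal.coe_nonneg _) ?_
    intro x hx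
    rw [← coe_nv, NNReal.coe_le_coe, le_div_iff₀ hwn, nv_mul, ← Finset.HasAntidiagonal.mem_antidiagonal.1 hx, hw]
    calc z.nv (f x.1) * z.nv (g x.2) * (w x.1 * w x.2)
        = (z.nv (f x.1) * w x.1) * (z.nv (g x.2) * w x.2) := by ring
      _ ≤ Mf * Mg := mul_le_mul' (hf _) (hg _)
  apply le_antisymm
  · exact Finset.sup_le fun n _ => hsum n
  · rcases eq_or_ne Mf 0 with h0 | h0
    · rw [h0, zero_mul]; exact zero_le
    rcases eq_or_ne Mg 0 with h1 | h1
    · rw [h1, mul_zero]; exact zero_le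
    -- the last indices where the maxima are attained
    have hSne : S.Nonempty := by
      by_contra h
      rw [Finset.not_nonempty_iff_eq_empty] at h
      rw [h, Finset.sup_empty] at hMf
      exact h0 hMf
    have hTne : T.Nonempty := by
      by_contra h
      rw [Finset.not_nonempty_iff_eq_empty] at h
      rw [h, Finset.sup_empty] at hMg
      exact h1 hMg
    obtain ⟨a0, ha0, ha0'⟩ := Finset.exists_mem_eq_sup S hSne (fun i => z.nv (f i) * w i)
    obtain ⟨b0, hb0, hb0'⟩ := Finset.exists_mem_eq_sup T hTne (fun i => z.nv (g i) * w i)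
    obtain ⟨a, ha, hamax⟩ := Finset.exists_max_image
      (S.filter fun i => z.nv (f i) * w i = Mf) o
      ⟨a0, Finset.mem_filter.2 ⟨ha0, by rw [hMf]; exact ha0'.symm⟩⟩
    obtain ⟨b, hb, hbmax⟩ := Finset.exists_max_image
      (T.filter fun i => z.nv (g i) * w i = Mg) o
      ⟨b0, Finset.mem_filter.2 ⟨hb0, by rw [hMg]; exact hb0'.symm⟩⟩
    have ha1 := (Finset.mem_filter.1 ha).2
    have hb1 := (Finset.mem_filter.1 hb).2
    have hwa : w a ≠ 0 := by intro h; rw [h, mul_zero] at ha1; exact h0 ha1.symm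
    have hwb : w b ≠ 0 := by intro h; rw [h, mul_zero] at hb1; exact h1 hb1.symm
    have hwab : 0 < w (a + b) := by rw [hw]; exact pos_iff_ne_zero.2 (mul_ne_zero hwa hwb)
    have hab : (a, b) ∈ Finset.HasAntidiagonal.antidiagonal (a + b) := Finset.HasAntidiagonal.mem_antidiagonal.2 rfl
    have hamax' : ∀ i, z.nv (f i) * w i = Mf → o i ≤ o a := by
      intro i hi
      refine hamax i (Finset.mem_filter.2 ⟨?_, hi⟩)
      by_contra hc
      rw [hS i hc, nv_zero, zero_mul] at hi
      exact h0 hi.symm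
    have hbmax' : ∀ i, z.nv (g i) * w i = Mg → o i ≤ o b := by
      intro i hi
      refine hbmax i (Finset.mem_filter.2 ⟨?_, hi⟩)
      by_contra hc
      rw [hT i hc, nv_zero, zero_mul] at hi
      exact h1 hi.symm
    have hval : z.nv (∑ x ∈ Finset.HasAntidiagonal.antidiagonal (a + b), f x.1 * g x.2) * w (a + b) = Mf * Mg := by
      have hterm : z.nv (f a * g b) * w (a + b) = Mf * Mg := by
        rw [nv_mul, hw, ← ha1, ← hb1]; ring
      rw [← Finset.add_sum_erase _ _ hab]
      have hlt : z.v (∑ x ∈ (Finset.HasAntidiagonal.antidiagonal (a + b)).erase (a, b), f x.1 * g x.2) <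
          z.v (f a * g b) := by
        have hpos : 0 < z.v (f a * g b) := by
          rw [← coe_nv, NNReal.coe_pos, pos_iff_ne_zero]
          intro h
          rw [h, zero_mul] at hterm
          exact mul_ne_zero h0 h1 hterm.symm
        refine z.sum_lt _ _ hpos ?_
        intro x hx
        obtain ⟨hx1, hx2⟩ := Finset.mem_erase.1 hx
        have hx3 := Finset.HasAntidiagonal.mem_antidiagonal.1 hx2
        rw [← coe_nv, ← coe_nv, NNReal.coe_lt_coe]
        by_contra hc
        push Not at hc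
        have h2 : Mf * Mg ≤ (z.nv (f x.1) * w x.1) * (z.nv (g x.2) * w x.2) := by
          calc Mf * Mg = z.nv (f a * g b) * w (a + b) := hterm.symm
            _ ≤ z.nv (f x.1 * g x.2) * w (a + b) := mul_le_mul_left hc _
            _ = (z.nv (f x.1) * w x.1) * (z.nv (g x.2) * w x.2) := by
              rw [nv_mul, ← hx3, hw]; ring
        have h3 : z.nv (f x.1) * w x.1 = Mf := by
          apply le_antisymm (hf _)
          by_contra hc'
          push Not at hc'
          exact absurd h2 (not_le.2 (mul_lt_mul'' hc' (lt_of_le_of_ne (hg x.2) (by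
            rintro h4
            exact absurd h2 (not_le.2 (by
              rw [h4]; exact mul_lt_mul_of_pos_right hc' (pos_iff_ne_zero.2 h1)))))
            (zero_le) (zero_le)))
        have h4 : z.nv (g x.2) * w x.2 = Mg := by
          apply le_antisymm (hg _)
          by_contra hc'
          push Not at hc'
          rw [h3] at h2
          exact absurd h2 (not_le.2 (mul_lt_mul_of_pos_left hc' (pos_iff_ne_zero.2 h0)))
        have h5 := hamax' _ h3
        have h6 := hbmax' _ h4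
        have h7 : o x.1 + o x.2 = o a + o b := by rw [← map_add, hx3, map_add]
        have h8 : o x.1 = o a := by
          by_contra hne
          exact absurd h7 (ne_of_lt (add_lt_add_of_lt_of_le (lt_of_le_of_ne h5 hne) h6))
        have h9 : o x.2 = o b := by
          rw [h8] at h7; exact add_left_cancel h7
        exact hx1 (Prod.ext (ho h8) (ho h9))
      have h2 : z.nv (f a * g b + ∑ x ∈ (Finset.HasAntidiagonal.antidiagonal (a + b)).erase (a, b),
          f x.1 * g x.2) = z.nv (f a * g b) := NNReal.eq (z.add_eq hlt)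
      rw [h2, hterm]
    rw [← hval]
    by_cases hU' : a + b ∈ U
    · exact Finset.le_sup (f := fun n => z.nv (∑ x ∈ Finset.HasAntidiagonal.antidiagonal n, f x.1 * g x.2) * w n)
        hU'
    · rw [hU _ hU', nv_zero, zero_mul]; exact zero_le

end Ber

section gx

/-- The value of the Gauss extension. -/
noncomputable def gxn (z : Ber K A) (s : ℝ≥0) (f : A[X]) : ℝ≥0 :=
  f.support.sup fun i => z.nv (f.coeff i) * s ^ i

theorem le_gxn (z : Ber K A) (s : ℝ≥0) (f : A[X]) (i : ℕ) :
    z.nv (f.coeff i) * s ^ i ≤ gxn z s f := by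
  by_cases hi : i ∈ f.support
  · exact Finset.le_sup (f := fun i => z.nv (f.coeff i) * s ^ i) hi
  · rw [Polynomial.notMem_support_iff.1 hi, Ber.nv_zero, zero_mul]; exact zero_le

theorem gxn_le (z : Ber K A) (s : ℝ≥0) (f : A[X]) {M : ℝ≥0}
    (h : ∀ i, z.nv (f.coeff i) * s ^ i ≤ M) : gxn z s f ≤ M :=
  Finset.sup_le fun i _ => h i

theorem gxn_C (z : Ber K A) (s : ℝ≥0) (a : A) : gxn z s (C a) = z.nv a := by
  apply le_antisymm
  · refine gxn_le _ _ _ fun i => ?_
    rw [coeff_C]
    split_ifs with h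
    · rw [h, pow_zero, mul_one]
    · rw [Ber.nv_zero, zero_mul]; exact zero_le
  · have := le_gxn z s (C a) 0
    rwa [coeff_C_zero, pow_zero, mul_one] at this

/-- **Gauss extension** of `z` to `A[Y]` with radius `s`. -/
noncomputable def gx (z : Ber K A) (s : ℝ≥0) : Ber K A[X] where
  v f := gxn z s f
  nonneg f := NNReal.coe_nonneg _
  one := by
    rw [← C_1, gxn_C, Ber.coe_nv, z.one]
  mul f g := by
    rw [← NNReal.coe_mul]
    congr 1
    have h := Ber.gauss_mul (AddMonoidHom.id ℕ) Function.injective_id z (fun i => s ^ i)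
      (fun a b => pow_add s a b) f.coeff g.coeff f.support g.support (f * g).support
      (fun i hi => Polynomial.notMem_support_iff.1 hi)
      (fun i hi => Polynomial.notMem_support_iff.1 hi)
      (fun i hi => by rw [← coeff_mul]; exact Polynomial.notMem_support_iff.1 hi)
    simp only [← coeff_mul] at h
    exact h
  add f g := by
    rw [← NNReal.coe_max, NNReal.coe_le_coe]
    refine gxn_le _ _ _ fun i => ?_
    have h1 : z.nv ((f + g).coeff i) ≤ max (z.nv (f.coeff i)) (z.nv (g.coeff i)) := by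
      rw [coeff_add]; exact z.add _ _
    calc z.nv ((f + g).coeff i) * s ^ i
        ≤ max (z.nv (f.coeff i)) (z.nv (g.coeff i)) * s ^ i := mul_le_mul_left h1 _
      _ = max (z.nv (f.coeff i) * s ^ i) (z.nv (g.coeff i) * s ^ i) := max_mul _ _ _
      _ ≤ _ := max_le_max (le_gxn _ _ _ _) (le_gxn _ _ _ _)
  ext c := by
    rw [IsScalarTower.algebraMap_apply K A A[X], ← C_eq_algebraMap, gxn_C, Ber.coe_nv, z.ext]

theorem gx_v (z : Ber K A) (s : ℝ≥0) (f : A[X]) : (gx z s).v f = gxn z s f := rfl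

theorem gx_le (z : Ber K A) (s : ℝ≥0) (f : A[X]) (i : ℕ) :
    z.v (f.coeff i) * (s : ℝ) ^ i ≤ (gx z s).v f := by
  have h := NNReal.coe_le_coe.2 (le_gxn z s f i)
  rw [gx_v]
  simpa using h

theorem gx_v_le (z : Ber K A) (s : ℝ≥0) (f : A[X]) {M : ℝ} (hM : 0 ≤ M)
    (h : ∀ i, z.v (f.coeff i) * (s : ℝ) ^ i ≤ M) : (gx z s).v f ≤ M := by
  lift M to ℝ≥0 using hM
  rw [gx_v, NNReal.coe_le_coe]
  refine gxn_le _ _ _ fun i => ?_
  rw [← NNReal.coe_le_coe]
  simpa using h i

theorem gx_ex (z : Ber K A) (s : ℝ≥0) (f : A[X]) :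
    ∃ i, (gx z s).v f = z.v (f.coeff i) * (s : ℝ) ^ i := by
  rcases f.support.eq_empty_or_nonempty with h | h
  · refine ⟨0, ?_⟩
    have h0 : f = 0 := Polynomial.support_eq_empty.1 h
    subst h0
    rw [(gx z s).zero, coeff_zero, z.zero, zero_mul]
  · obtain ⟨i, hi, hi'⟩ := Finset.exists_mem_eq_sup f.support h
      (fun i => z.nv (f.coeff i) * s ^ i)
    refine ⟨i, ?_⟩
    rw [gx_v, gxn, hi']
    simp

@[simp] theorem gx_C (z : Ber K A) (s : ℝ≥0) (a : A) : (gx z s).v (C a) = z.v a := by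
  rw [gx_v, gxn_C, Ber.coe_nv]

@[simp] theorem gx_X (z : Ber K A) (s : ℝ≥0) : (gx z s).v X = s := by
  apply le_antisymm
  · refine gx_v_le _ _ _ (NNReal.coe_nonneg _) fun i => ?_
    rw [coeff_X]
    split_ifs with h
    · rw [← h, z.one, pow_one, one_mul]
    · rw [z.zero, zero_mul]; exact NNReal.coe_nonneg _
  · have := gx_le z s X 1
    rwa [coeff_X_one, z.one, one_mul, pow_one] at this

theorem gx_zero (z : Ber K A) (f : A[X]) : (gx z 0).v f = z.v (f.coeff 0) := by
  apply le_antisymm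
  · refine gx_v_le _ _ _ (z.nonneg _) fun i => ?_
    rcases Nat.eq_zero_or_pos i with h | h
    · rw [h, pow_zero, mul_one]
    · rw [NNReal.coe_zero, zero_pow h.ne', mul_zero]; exact z.nonneg _
  · have := gx_le z 0 f 0
    rwa [pow_zero, mul_one] at this

/-- The Gauss extension is the largest extension. -/
theorem le_gx {z : Ber K A} {s : ℝ≥0} {w : Ber K A[X]} (h : ∀ a, w.v (C a) ≤ z.v a)
    (hX : w.v X ≤ s) : w ≤ gx z s := by
  intro f
  conv_lhs => rw [f.as_sum_support_C_mul_X_pow]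
  refine w.sum_le _ _ ((gx z s).nonneg f) fun i _ => ?_
  rw [w.mul, w.pow]
  exact (mul_le_mul (h _) (pow_le_pow_left₀ (w.nonneg _) hX _) (pow_nonneg (w.nonneg _) _)
    (z.nonneg _)).trans (gx_le z s f i)

theorem gx_mono {z z' : Ber K A} {s s' : ℝ≥0} (h : z ≤ z') (hs : s ≤ s') :
    gx z s ≤ gx z' s' := by
  refine le_gx (fun a => ?_) ?_
  · rw [gx_C]; exact h a
  · rw [gx_X]; exact_mod_cast hs

theorem continuous_gx : Continuous fun p : Ber K A × ℝ≥0 => gx p.1 p.2 := by
  rw [Ber.continuous_iff]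
  intro f
  apply NNReal.continuous_coe.comp
  show Continuous fun p : Ber K A × ℝ≥0 =>
    f.support.sup fun i => p.1.nv (f.coeff i) * p.2 ^ i
  refine Continuous.finset_sup_apply fun i _ => ?_
  exact ((Ber.continuous_nv (f.coeff i)).comp continuous_fst).mul (continuous_snd.pow i)

end gx

section path

/-- The path `z_s`, for a homomorphism `φ : A → A[Y]`. -/
noncomputable def tr (φ : A →ₐ[K] A[X]) (z : Ber K A) (s : ℝ≥0) : Ber K A := Ber.res φ (gx z s)

theorem tr_v (φ : A →ₐ[K] A[X]) (z : Ber K A) (s : ℝ≥0) (a : A) :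
    (tr φ z s).v a = (gx z s).v (φ a) := rfl

theorem tr_zero {φ : A →ₐ[K] A[X]} (hφ : ∀ a, (φ a).coeff 0 = a) (z : Ber K A) :
    tr φ z 0 = z := by
  apply Ber.ext_v
  intro a
  rw [tr_v, gx_zero, hφ]

theorem tr_mono (φ : A →ₐ[K] A[X]) {z z' : Ber K A} {s s' : ℝ≥0} (h : z ≤ z') (hs : s ≤ s') :
    tr φ z s ≤ tr φ z' s' := fun a => gx_mono h hs (φ a)

theorem continuous_tr (φ : A →ₐ[K] A[X]) :
    Continuous fun p : Ber K A × ℝ≥0 => tr φ p.1 p.2 :=
  (Ber.res_continuous φ).comp continuous_gx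

theorem tr_C {φ : A →ₐ[K] A[X]} (z : Ber K A) (s : ℝ≥0) {a : A} (h : φ a = C a) :
    (tr φ z s).v a = z.v a := by
  rw [tr_v, h, gx_C]

theorem tr_X {φ : A →ₐ[K] A[X]} (z : Ber K A) (s : ℝ≥0) {a : A} (h : φ a = C a + X) :
    (tr φ z s).v a = max (z.v a) s := by
  rw [tr_v, h]
  apply le_antisymm
  · refine ((gx z s).add _ _).trans ?_
    rw [gx_C, gx_X]
  · apply max_le
    · have h1 := gx_le z s (C a + X) 0
      rw [coeff_add, coeff_C_zero, coeff_X_zero, add_zero, pow_zero, mul_one] at h1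
      exact h1
    · have h1 := gx_le z s (C a + X) 1
      rw [coeff_add, coeff_C_succ, coeff_X_one, zero_add, z.one, one_mul, pow_one] at h1
      exact h1

/-- The translation `X ↦ X + Y` of `R[X]`. -/
noncomputable def shX (K R : Type) [NormedField K] [CommRing R] [Algebra K R] :
    R[X] →ₐ[K] R[X][X] :=
  (Polynomial.aeval (C X + X : R[X][X]) : R[X] →ₐ[R] R[X][X]).restrictScalars K

theorem shX_C (R : Type) [CommRing R] [Algebra K R] (a : R) : shX K R (C a) = C (C a) := by
  show Polynomial.aeval (C X + X : R[X][X]) (C a) = C (C a)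
  rw [aeval_C]
  rfl

theorem shX_X (R : Type) [CommRing R] [Algebra K R] : shX K R X = C X + X := by
  show Polynomial.aeval (C X + X : R[X][X]) X = C X + X
  rw [aeval_X]

theorem shX_coeff (R : Type) [CommRing R] [Algebra K R] (f : R[X]) (n : ℕ) :
    (shX K R f).coeff n = Polynomial.hasseDeriv n f := by
  have h1 : shX K R f = Polynomial.taylor X (f.map C) := by
    show Polynomial.aeval (C X + X : R[X][X]) f = _
    rw [taylor_apply, Polynomial.comp, eval₂_map, aeval_def, add_comm]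
    rfl
  rw [h1, taylor_coeff, hasseDeriv_apply, hasseDeriv_apply]
  rw [Polynomial.sum, Polynomial.sum, eval_finsetSum]
  have hinj : Function.Injective (C : R →+* R[X]) := C_injective
  rw [support_map_of_injective _ hinj]
  apply Finset.sum_congr rfl
  intro i _
  rw [coeff_map, eval_monomial, ← C_mul_X_pow_eq_monomial, C_mul, C_eq_natCast]

theorem shX_coeff_zero (R : Type) [CommRing R] [Algebra K R] (f : R[X]) :
    (shX K R f).coeff 0 = f := by
  rw [shX_coeff, hasseDeriv_zero]; rfl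

end path

end Pool.Agent.TD


end

section

/-!
# Gauss points in several variables (MP_90358a_ag, PAPER2.md)

`gmp z ρ` is the point `|∑ a_u X^u| = max |a_u|_z ρ^u` of `M(A[X_σ])`, `z` in `M(A)`, radii `ρ i ≥ 0`;
`gp ρ` is the case `A = K`.
-/

open scoped Topology NNReal
open MvPolynomial

namespace Pool.Agent.TD

variable {K A σ : Type} [NormedField K] [CommRing A] [Algebra K A]

/-- `ρ^u` -/
noncomputable def mw (ρ : σ → ℝ≥0) (u : σ →₀ ℕ) : ℝ≥0 := u.prod fun i n => ρ i ^ n

theorem mw_zero (ρ : σ → ℝ≥0) : mw ρ 0 = 1 := Finsupp.prod_zero_index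

theorem mw_add (ρ : σ → ℝ≥0) (a b : σ →₀ ℕ) : mw ρ (a + b) = mw ρ a * mw ρ b := by
  classical
  exact Finsupp.prod_add_index' (fun i => pow_zero _) (fun i m n => pow_add _ _ _)

theorem mw_single (ρ : σ → ℝ≥0) (i : σ) (n : ℕ) : mw ρ (Finsupp.single i n) = ρ i ^ n :=
  Finsupp.prod_single_index (pow_zero _)

theorem mw_pos {ρ : σ → ℝ≥0} (hρ : ∀ i, 0 < ρ i) (u : σ →₀ ℕ) : 0 < mw ρ u :=
  Finset.prod_pos fun i _ => pow_pos (hρ i) _

theorem mw_mono {ρ ρ' : σ → ℝ≥0} (h : ∀ i, ρ i ≤ ρ' i) (u : σ →₀ ℕ) : mw ρ u ≤ mw ρ' u :=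
  Finset.prod_le_prod' fun i _ => pow_le_pow_left₀ zero_le (h i) _

theorem continuous_mw (u : σ →₀ ℕ) : Continuous fun ρ : σ → ℝ≥0 => mw ρ u :=
  continuous_finset_prod _ fun i _ => (continuous_apply i).pow _

/-- The value of a Gauss point. -/
noncomputable def gmn (z : Ber K A) (ρ : σ → ℝ≥0) (P : MvPolynomial σ A) : ℝ≥0 :=
  P.support.sup fun u => z.nv (P.coeff u) * mw ρ u

theorem le_gmn (z : Ber K A) (ρ : σ → ℝ≥0) (P : MvPolynomial σ A) (u : σ →₀ ℕ) :
    z.nv (P.coeff u) * mw ρ u ≤ gmn z ρ P := by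
  by_cases hu : u ∈ P.support
  · exact Finset.le_sup (f := fun u => z.nv (P.coeff u) * mw ρ u) hu
  · rw [MvPolynomial.notMem_support_iff.1 hu, Ber.nv_zero, zero_mul]; exact zero_le

theorem gmn_le (z : Ber K A) (ρ : σ → ℝ≥0) (P : MvPolynomial σ A) {M : ℝ≥0}
    (h : ∀ u, z.nv (P.coeff u) * mw ρ u ≤ M) : gmn z ρ P ≤ M :=
  Finset.sup_le fun u _ => h u

theorem gmn_monomial (z : Ber K A) (ρ : σ → ℝ≥0) (u : σ →₀ ℕ) (a : A) :
    gmn z ρ (monomial u a) = z.nv a * mw ρ u := by
  classical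
  apply le_antisymm
  · refine gmn_le _ _ _ fun u' => ?_
    rw [coeff_monomial]
    split_ifs with h
    · rw [h]
    · rw [Ber.nv_zero, zero_mul]; exact zero_le
  · have := le_gmn z ρ (monomial u a) u
    rwa [coeff_monomial, if_pos rfl] at this

theorem gmn_C (z : Ber K A) (ρ : σ → ℝ≥0) (a : A) : gmn z ρ (C a) = z.nv a := by
  show gmn z ρ (monomial 0 a) = _
  rw [gmn_monomial, mw_zero, mul_one]

theorem gmn_mul [Finite σ] (z : Ber K A) (ρ : σ → ℝ≥0) (P Q : MvPolynomial σ A) :
    gmn z ρ (P * Q) = gmn z ρ P * gmn z ρ Q := by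
  classical
  obtain ⟨n, ⟨e⟩⟩ := Finite.exists_equiv_fin σ
  letI : LinearOrder σ := LinearOrder.lift' e e.injective
  have h := Ber.gauss_mul (MonomialOrder.lex (σ := σ)).toSyn.toAddMonoidHom
    (MonomialOrder.lex (σ := σ)).toSyn.injective z (mw ρ) (mw_add ρ) P.coeff Q.coeff
    P.support Q.support (P * Q).support
    (fun i hi => MvPolynomial.notMem_support_iff.1 hi)
    (fun i hi => MvPolynomial.notMem_support_iff.1 hi)
    (fun i hi => by rw [← coeff_mul]; exact MvPolynomial.notMem_support_iff.1 hi)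
  simp only [← coeff_mul] at h
  exact h

/-- **Gauss extension** of `z` to `A[X_σ]` with radii `ρ`. -/
noncomputable def gmp [Finite σ] (z : Ber K A) (ρ : σ → ℝ≥0) : Ber K (MvPolynomial σ A) where
  v f := gmn z ρ f
  nonneg f := NNReal.coe_nonneg _
  one := by
    rw [← C_1, gmn_C, Ber.coe_nv, z.one]
  mul f g := by
    rw [← NNReal.coe_mul, gmn_mul]
  add f g := by
    rw [← NNReal.coe_max, NNReal.coe_le_coe]
    refine gmn_le _ _ _ fun i => ?_
    have h1 : z.nv ((f + g).coeff i) ≤ max (z.nv (f.coeff i)) (z.nv (g.coeff i)) := by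
      rw [coeff_add]; exact z.add _ _
    calc z.nv ((f + g).coeff i) * mw ρ i
        ≤ max (z.nv (f.coeff i)) (z.nv (g.coeff i)) * mw ρ i := mul_le_mul_left h1 _
      _ = max (z.nv (f.coeff i) * mw ρ i) (z.nv (g.coeff i) * mw ρ i) := max_mul _ _ _
      _ ≤ _ := max_le_max (le_gmn _ _ _ _) (le_gmn _ _ _ _)
  ext c := by
    rw [IsScalarTower.algebraMap_apply K A (MvPolynomial σ A), MvPolynomial.algebraMap_eq, gmn_C,
      Ber.coe_nv, z.ext]

section gmp

variable [Finite σ]

theorem gm_v (z : Ber K A) (ρ : σ → ℝ≥0) (P : MvPolynomial σ A) : (gmp z ρ).v P = gmn z ρ P := rfl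

theorem gm_le (z : Ber K A) (ρ : σ → ℝ≥0) (P : MvPolynomial σ A) (u : σ →₀ ℕ) :
    z.v (P.coeff u) * (mw ρ u : ℝ) ≤ (gmp z ρ).v P := by
  have h := NNReal.coe_le_coe.2 (le_gmn z ρ P u)
  rw [gm_v]
  simpa using h

theorem gm_v_le (z : Ber K A) (ρ : σ → ℝ≥0) (P : MvPolynomial σ A) {M : ℝ} (hM : 0 ≤ M)
    (h : ∀ u, z.v (P.coeff u) * (mw ρ u : ℝ) ≤ M) : (gmp z ρ).v P ≤ M := by
  lift M to ℝ≥0 using hM
  rw [gm_v, NNReal.coe_le_coe]
  refine gmn_le _ _ _ fun u => ?_
  rw [← NNReal.coe_le_coe]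
  simpa using h u

theorem gm_ex (z : Ber K A) (ρ : σ → ℝ≥0) (P : MvPolynomial σ A) :
    ∃ u, (gmp z ρ).v P = z.v (P.coeff u) * (mw ρ u : ℝ) := by
  rcases P.support.eq_empty_or_nonempty with h | h
  · refine ⟨0, ?_⟩
    have h0 : P = 0 := MvPolynomial.support_eq_empty.1 h
    subst h0
    rw [(gmp z ρ).zero, coeff_zero, z.zero, zero_mul]
  · obtain ⟨u, hu, hu'⟩ := Finset.exists_mem_eq_sup P.support h
      (fun u => z.nv (P.coeff u) * mw ρ u)
    refine ⟨u, ?_⟩
    rw [gm_v, gmn, hu']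
    simp

theorem gm_monomial (z : Ber K A) (ρ : σ → ℝ≥0) (u : σ →₀ ℕ) (a : A) :
    (gmp z ρ).v (monomial u a) = z.v a * mw ρ u := by
  rw [gm_v, gmn_monomial]; simp

@[simp] theorem gm_C (z : Ber K A) (ρ : σ → ℝ≥0) (a : A) : (gmp z ρ).v (C a) = z.v a := by
  rw [gm_v, gmn_C, Ber.coe_nv]

@[simp] theorem gm_X (z : Ber K A) (ρ : σ → ℝ≥0) (i : σ) : (gmp z ρ).v (X i) = ρ i := by
  show (gmp z ρ).v (monomial (Finsupp.single i 1) 1) = ρ i
  rw [gm_monomial, z.one, one_mul, mw_single, pow_one]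

/-- The Gauss extension is the largest extension. -/
theorem le_gm {z : Ber K A} {ρ : σ → ℝ≥0} {w : Ber K (MvPolynomial σ A)}
    (h : ∀ a, w.v (C a) ≤ z.v a) (hX : ∀ i, w.v (X i) ≤ ρ i) : w ≤ gmp z ρ := by
  intro P
  conv_lhs => rw [P.as_sum]
  refine w.sum_le _ _ ((gmp z ρ).nonneg P) fun u _ => ?_
  refine le_trans ?_ (gm_le z ρ P u)
  rw [monomial_eq, w.mul]
  refine mul_le_mul (h _) ?_ (w.nonneg _) (z.nonneg _)
  rw [Finsupp.prod, w.prod, mw, Finsupp.prod, NNReal.coe_prod]
  refine Finset.prod_le_prod (fun i _ => w.nonneg _) fun i _ => ?_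
  rw [w.pow, NNReal.coe_pow]
  exact pow_le_pow_left₀ (w.nonneg _) (hX i) _

theorem gm_mono {z z' : Ber K A} {ρ ρ' : σ → ℝ≥0} (h : z ≤ z') (hρ : ∀ i, ρ i ≤ ρ' i) :
    gmp z ρ ≤ gmp z' ρ' := by
  refine le_gm (fun a => ?_) fun i => ?_
  · rw [gm_C]; exact h a
  · rw [gm_X]; exact_mod_cast hρ i

theorem continuous_gm : Continuous fun p : Ber K A × (σ → ℝ≥0) => gmp p.1 p.2 := by
  rw [Ber.continuous_iff]
  intro f
  apply NNReal.continuous_coe.comp
  show Continuous fun p : Ber K A × (σ → ℝ≥0) =>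
    f.support.sup fun u => p.1.nv (f.coeff u) * mw p.2 u
  refine Continuous.finset_sup_apply fun u _ => ?_
  exact ((Ber.continuous_nv (f.coeff u)).comp continuous_fst).mul
    ((continuous_mw u).comp continuous_snd)

end gmp

/-- The point of `M(K)`. -/
noncomputable def nrm (K : Type) [NormedField K] [IsUltrametricDist K] : Ber K K where
  v a := ‖a‖
  nonneg := norm_nonneg
  one := norm_one
  mul := norm_mul
  add := IsUltrametricDist.norm_add_le_max
  ext _ := rfl

section gp

variable [IsUltrametricDist K] [Finite σ]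

/-- The Gauss point with radii `ρ`. -/
noncomputable def gp (ρ : σ → ℝ≥0) : Ber K (MvPolynomial σ K) := gmp (nrm K) ρ

theorem gp_v (ρ : σ → ℝ≥0) (P : MvPolynomial σ K) : (gp ρ).v P = gn ρ P := rfl

theorem isGp_gp (ρ : σ → ℝ≥0) : IsGp ρ (gp ρ : Ber K (MvPolynomial σ K)) := fun _ => rfl

theorem IsGp.eq_gp {ρ : σ → ℝ≥0} {z : Ber K (MvPolynomial σ K)} (h : IsGp ρ z) : z = gp ρ :=
  Ber.ext_v fun P => h P

theorem gn_mul (ρ : σ → ℝ≥0) (P Q : MvPolynomial σ K) : gn ρ (P * Q) = gn ρ P * gn ρ Q :=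
  gmn_mul (nrm K) ρ P Q

omit [Finite σ] in
theorem le_gn (ρ : σ → ℝ≥0) (P : MvPolynomial σ K) (u : σ →₀ ℕ) :
    ‖P.coeff u‖₊ * mw ρ u ≤ gn ρ P := le_gmn (nrm K) ρ P u

theorem gp_le (ρ : σ → ℝ≥0) (P : MvPolynomial σ K) (u : σ →₀ ℕ) :
    ‖P.coeff u‖ * (mw ρ u : ℝ) ≤ (gp ρ).v P := gm_le (nrm K) ρ P u

theorem gp_v_le (ρ : σ → ℝ≥0) (P : MvPolynomial σ K) {M : ℝ} (hM : 0 ≤ M)
    (h : ∀ u, ‖P.coeff u‖ * (mw ρ u : ℝ) ≤ M) : (gp ρ).v P ≤ M := gm_v_le (nrm K) ρ P hM h

theorem gp_ex (ρ : σ → ℝ≥0) (P : MvPolynomial σ K) :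
    ∃ u, (gp ρ).v P = ‖P.coeff u‖ * (mw ρ u : ℝ) := gm_ex (nrm K) ρ P

theorem gp_monomial (ρ : σ → ℝ≥0) (u : σ →₀ ℕ) (a : K) :
    (gp ρ).v (monomial u a) = ‖a‖ * mw ρ u := gm_monomial (nrm K) ρ u a

@[simp] theorem gp_X (ρ : σ → ℝ≥0) (i : σ) : (gp ρ : Ber K (MvPolynomial σ K)).v (X i) = ρ i :=
  gm_X (nrm K) ρ i

/-- A point with `|X_i| ≤ ρ_i` is below the Gauss point. -/
theorem le_gp {ρ : σ → ℝ≥0} {w : Ber K (MvPolynomial σ K)} (hX : ∀ i, w.v (X i) ≤ ρ i) :
    w ≤ gp ρ :=
  le_gm (fun a => (w.ext a).le) hX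

theorem gp_mono {ρ ρ' : σ → ℝ≥0} (h : ∀ i, ρ i ≤ ρ' i) :
    (gp ρ : Ber K (MvPolynomial σ K)) ≤ gp ρ' := gm_mono le_rfl h

theorem continuous_gp : Continuous (gp : (σ → ℝ≥0) → Ber K (MvPolynomial σ K)) :=
  continuous_gm.comp (continuous_const.prodMk continuous_id)

/-- With positive radii the kernel is zero. -/
theorem gp_eq_zero {ρ : σ → ℝ≥0} (hρ : ∀ i, 0 < ρ i) {P : MvPolynomial σ K} :
    (gp ρ).v P = 0 ↔ P = 0 := by
  constructor
  · intro h
    ext u
    have h1 := gp_le ρ P u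
    rw [h] at h1
    have h2 : (0 : ℝ) < mw ρ u := by exact_mod_cast mw_pos hρ u
    have h3 : ‖P.coeff u‖ ≤ 0 := by
      by_contra hc
      push Not at hc
      exact absurd h1 (not_le.2 (mul_pos hc h2))
    rw [coeff_zero]
    exact norm_le_zero_iff.1 h3
  · rintro rfl
    exact Ber.zero _

end gp

/-- The translation of the variable `X_i` of `R[X_σ]`. -/
noncomputable def shM (K : Type) {σ : Type} [NormedField K] (R : Type) [CommRing R] [Algebra K R]
    [DecidableEq σ] (i : σ) :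
    MvPolynomial σ R →ₐ[K] Polynomial (MvPolynomial σ R) :=
  (MvPolynomial.aeval (fun j => Polynomial.C (X j) + if j = i then Polynomial.X else 0) :
    MvPolynomial σ R →ₐ[R] Polynomial (MvPolynomial σ R)).restrictScalars K

section shM

variable {R : Type} [CommRing R] [Algebra K R] [DecidableEq σ]

theorem shM_C (i : σ) (a : R) : shM K R i (C a) = Polynomial.C (C a) := by
  show MvPolynomial.aeval _ (C a) = _
  rw [aeval_C]
  rfl

theorem shM_X_self (i : σ) : shM K R i (X i) = Polynomial.C (X i) + Polynomial.X := by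
  show MvPolynomial.aeval _ (X i) = _
  rw [aeval_X, if_pos rfl]

theorem shM_X_ne {i j : σ} (h : j ≠ i) : shM K R i (X j) = Polynomial.C (X j) := by
  show MvPolynomial.aeval _ (X j) = _
  rw [aeval_X, if_neg h, add_zero]

theorem shM_coeff_zero (i : σ) (P : MvPolynomial σ R) : (shM K R i P).coeff 0 = P := by
  induction P using MvPolynomial.induction_on with
  | C a => rw [shM_C, Polynomial.coeff_C_zero]
  | add p q hp hq => rw [map_add, Polynomial.coeff_add, hp, hq]
  | mul_X p j hp =>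
    rw [map_mul, Polynomial.mul_coeff_zero, hp]
    by_cases h : j = i
    · subst h
      rw [shM_X_self, Polynomial.coeff_add, Polynomial.coeff_C_zero, Polynomial.coeff_X_zero,
        add_zero]
    · rw [shM_X_ne h, Polynomial.coeff_C_zero]

/-- If the values at `z` of a linear form `l = ∑ a_j X_j + a` change, they only increase. -/
theorem tr_le {φ : A →ₐ[K] Polynomial A} (hφ : ∀ a, (φ a).coeff 0 = a) (z : Ber K A) (s : ℝ≥0) :
    z ≤ tr φ z s := by
  conv_lhs => rw [← tr_zero hφ z]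
  exact tr_mono φ le_rfl zero_le

end shM

end Pool.Agent.TD


end

section

/-!
# The relation `|x - y| < |x|` (MP_90358a_ag, PAPER2.md ND6)
-/

open scoped Topology NNReal Polynomial
open Polynomial

namespace Pool.Agent.TD

/-- `x ∼ y` at `η`: `|x - y| < |x|`. -/
def Rel {K A : Type} [NormedField K] [CommRing A] [Algebra K A] (η : Ber K A) (x y : A) : Prop :=
  η.v (x - y) < η.v x

section

variable {K A B : Type} [NormedField K] [CommRing A] [Algebra K A] [CommRing B] [Algebra K B]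
  {η : Ber K A} {x y x' y' c : A}

theorem Rel.pos (h : Rel η x y) : 0 < η.v x := (η.nonneg _).trans_lt h

theorem Rel.v_eq (h : Rel η x y) : η.v y = η.v x := η.sub_eq h

theorem Rel.symm (h : Rel η x y) : Rel η y x := by
  unfold Rel
  rw [η.sub_comm, h.v_eq]; exact h

theorem Rel.refl (h : 0 < η.v x) : Rel η x x := by
  unfold Rel
  rwa [sub_self, η.zero]

theorem Rel.trans (h : Rel η x y) (h' : Rel η y c) : Rel η x c := by
  unfold Rel
  have h1 : x - c = (x - y) + (y - c) := by ring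
  rw [h1]
  refine (η.add _ _).trans_lt (max_lt h ?_)
  rw [← h.v_eq]; exact h'

theorem Rel.mul_left (hc : 0 < η.v c) (h : Rel η x y) : Rel η (c * x) (c * y) := by
  unfold Rel
  rw [← mul_sub, η.mul, η.mul]
  exact mul_lt_mul_of_pos_left h hc

theorem Rel.mul_right (hc : 0 < η.v c) (h : Rel η x y) : Rel η (x * c) (y * c) := by
  rw [mul_comm x, mul_comm y]; exact h.mul_left hc

theorem Rel.cancel_left (h : Rel η (c * x) (c * y)) : Rel η x y := by
  unfold Rel at h ⊢
  rw [← mul_sub, η.mul, η.mul] at h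
  exact lt_of_mul_lt_mul_left h (η.nonneg _)

theorem Rel.mul (h : Rel η x y) (h' : Rel η x' y') : Rel η (x * x') (y * y') :=
  (h.mul_right h'.pos).trans (h'.mul_left h.symm.pos)

theorem Rel.pow (h : Rel η x y) (n : ℕ) : Rel η (x ^ n) (y ^ n) := by
  induction n with
  | zero =>
    rw [pow_zero, pow_zero]
    exact Rel.refl (by rw [η.one]; exact one_pos)
  | succ n ih => rw [pow_succ, pow_succ]; exact ih.mul h

theorem Rel.congr_left (h : Rel η x y) (e : x' = x) : Rel η x' y := e ▸ h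

theorem Rel.congr_right (h : Rel η x y) (e : y' = y) : Rel η x y' := e ▸ h

theorem Rel.res {φ : B →ₐ[K] A} {x y : B} : Rel (Ber.res φ η) x y ↔ Rel η (φ x) (φ y) := by
  unfold Rel
  rw [Ber.res_v, Ber.res_v, map_sub]

theorem Rel.multiset_prod {ι : Type} (s : Multiset ι) (f g : ι → A)
    (h : ∀ i ∈ s, Rel η (f i) (g i)) : Rel η (s.map f).prod (s.map g).prod := by
  induction s using Multiset.induction_on with
  | empty =>
    rw [Multiset.map_zero, Multiset.map_zero, Multiset.prod_zero]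
    exact Rel.refl (by rw [η.one]; exact one_pos)
  | cons a s ih =>
    rw [Multiset.map_cons, Multiset.map_cons, Multiset.prod_cons, Multiset.prod_cons]
    exact (h a (Multiset.mem_cons_self a s)).mul
      (ih fun i hi => h i (Multiset.mem_cons_of_mem hi))

/-- The relation is an open condition. -/
theorem Rel.eventually (h : Rel η x y) : ∀ᶠ e in 𝓝 η, Rel e x y :=
  (Ber.continuous_v (x - y)).continuousAt.eventually_lt (Ber.continuous_v x).continuousAt h

end

section field

variable {K F : Type} [NormedField K] [Field F] [Algebra K F]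

theorem Ber.field_pos (N : Ber K F) {a : F} (ha : a ≠ 0) : 0 < N.v a := by
  refine lt_of_le_of_ne (N.nonneg a) fun h => ?_
  have h1 : N.v (a * a⁻¹) = 0 := by rw [N.mul, ← h, zero_mul]
  rw [mul_inv_cancel₀ ha, N.one] at h1
  exact one_ne_zero h1

theorem Ber.field_eq_zero (N : Ber K F) {a : F} : N.v a = 0 ↔ a = 0 :=
  ⟨fun h => by by_contra hc; exact (N.field_pos hc).ne' h, fun h => by rw [h, N.zero]⟩

theorem Ber.field_div (N : Ber K F) (a b : F) : N.v (a / b) = N.v a / N.v b := by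
  rcases eq_or_ne b 0 with rfl | hb
  · rw [div_zero, N.zero, div_zero]
  · rw [eq_div_iff (N.field_pos hb).ne', ← N.mul, div_mul_cancel₀ a hb]

theorem gx_pos (N : Ber K F) {ρ : ℝ≥0} (hρ : 0 < ρ) {f : F[X]} (hf : f ≠ 0) :
    0 < (gx N ρ).v f := by
  refine lt_of_lt_of_le ?_ (gx_le N ρ f f.natDegree)
  exact mul_pos (N.field_pos (leadingCoeff_ne_zero.2 hf)) (by positivity)

theorem gx_monomial {A : Type} [CommRing A] [Algebra K A] (N : Ber K A) (ρ : ℝ≥0) (n : ℕ) (a : A) :
    (gx N ρ).v (monomial n a) = N.v a * (ρ : ℝ) ^ n := by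
  rw [← C_mul_X_pow_eq_monomial, (gx N ρ).mul, gx_C, (gx N ρ).pow, gx_X]

/-- **Division with control of the norms.** -/
theorem gx_mod_le (N : Ber K F) {ρ : ℝ≥0} (hρ : 0 < ρ) {α : F[X]} (hα0 : α ≠ 0)
    (hα : N.v α.leadingCoeff * (ρ : ℝ) ^ α.natDegree = (gx N ρ).v α) (f : F[X]) :
    (gx N ρ).v (f % α) ≤ (gx N ρ).v f := by
  classical
  have key : ∀ n, ∀ f : F[X], f.natDegree ≤ n → (gx N ρ).v (f % α) ≤ (gx N ρ).v f := by
    intro n
    induction n with
    | zero =>
      intro f hf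
      rcases lt_or_ge f.degree α.degree with h | h
      · rw [mod_eq_self_iff hα0 |>.2 h]
      · rcases eq_or_ne f 0 with rfl | hf0
        · rw [EuclideanDomain.zero_mod]
        have h1 : α.natDegree ≤ 0 := (natDegree_le_natDegree h).trans hf
        have h2 : f % α = 0 := by
          have hu : IsUnit α := by
            rw [isUnit_iff_degree_eq_zero, degree_eq_natDegree hα0, Nat.le_zero.1 h1]; rfl
          exact EuclideanDomain.mod_eq_zero.2 hu.dvd
        rw [h2, Ber.zero]; exact Ber.nonneg _ _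
    | succ n ih =>
      intro f hf
      rcases lt_or_ge f.degree α.degree with h | h
      · rw [mod_eq_self_iff hα0 |>.2 h]
      rcases eq_or_ne f 0 with rfl | hf0
      · rw [EuclideanDomain.zero_mod]
      have hle : α.natDegree ≤ f.natDegree := natDegree_le_natDegree h
      -- subtract the leading term
      obtain ⟨m, hm⟩ : ∃ m, m = monomial (f.natDegree - α.natDegree)
          (f.leadingCoeff / α.leadingCoeff) := ⟨_, rfl⟩
      have hlc : α.leadingCoeff ≠ 0 := leadingCoeff_ne_zero.2 hα0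
      have hval : (gx N ρ).v (m * α) = N.v f.leadingCoeff * (ρ : ℝ) ^ f.natDegree := by
        rw [(gx N ρ).mul, hm, gx_monomial, ← hα, N.field_div]
        have : (N.v α.leadingCoeff) ≠ 0 := (N.field_pos hlc).ne'
        rw [show f.natDegree = (f.natDegree - α.natDegree) + α.natDegree by omega, pow_add,
          Nat.add_sub_cancel]
        field_simp
      have hmα : (gx N ρ).v (m * α) ≤ (gx N ρ).v f := by
        rw [hval]; exact gx_le N ρ f f.natDegree
      have h2 : (f - m * α) % α = f % α := by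
        rw [sub_mod, EuclideanDomain.mod_eq_zero.2 (Dvd.intro_left m rfl), sub_zero]
      have h3 : (gx N ρ).v (f - m * α) ≤ (gx N ρ).v f := ((gx N ρ).sub _ _).trans
        (max_le le_rfl hmα)
      rw [← h2]
      refine le_trans (ih _ ?_) h3
      -- the degree drops
      have hm0 : m ≠ 0 := by
        rw [hm, Ne, monomial_eq_zero_iff]
        exact div_ne_zero (leadingCoeff_ne_zero.2 hf0) hlc
      have hdeg : (m * α).natDegree = f.natDegree := by
        rw [natDegree_mul hm0 hα0, hm, natDegree_monomial, if_neg (div_ne_zero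
          (leadingCoeff_ne_zero.2 hf0) hlc)]
        omega
      have hlead : (m * α).leadingCoeff = f.leadingCoeff := by
        rw [leadingCoeff_mul, hm, leadingCoeff_monomial, div_mul_cancel₀ _ hlc]
      rcases eq_or_ne (f - m * α) 0 with h0 | h0
      · rw [h0, natDegree_zero]; omega
      have hd : (f - m * α).degree < f.degree := by
        refine degree_sub_lt_left ?_ hf0 hlead.symm
        rw [degree_eq_natDegree hf0, degree_eq_natDegree (mul_ne_zero hm0 hα0), hdeg]
      have := natDegree_lt_natDegree h0 hd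
      omega
  exact key f.natDegree f le_rfl

/-- Keep the terms of maximal norm. -/
theorem gx_strip (N : Ber K F) {ρ : ℝ≥0} (hρ : 0 < ρ) {f : F[X]} (hf : f ≠ 0) :
    ∃ f' : F[X], Rel (gx N ρ) f f' ∧ f' ≠ 0 ∧ f'.natDegree ≤ f.natDegree ∧
      N.v f'.leadingCoeff * (ρ : ℝ) ^ f'.natDegree = (gx N ρ).v f' ∧
      (∀ i, f'.coeff i ≠ 0 → N.v (f'.coeff i) * (ρ : ℝ) ^ i = (gx N ρ).v f') ∧
      ∀ i, f'.coeff i ≠ 0 → f'.coeff i = f.coeff i := by
  classical
  obtain ⟨S, hS⟩ : ∃ S : Finset ℕ, S = f.support.filter fun i =>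
    N.v (f.coeff i) * (ρ : ℝ) ^ i = (gx N ρ).v f := ⟨_, rfl⟩
  obtain ⟨f', hf'⟩ : ∃ f' : F[X], f' = ∑ i ∈ S, monomial i (f.coeff i) := ⟨_, rfl⟩
  have hc : ∀ i, f'.coeff i = if i ∈ S then f.coeff i else 0 := by
    intro i
    rw [hf', finsetSum_coeff]
    simp only [coeff_monomial]
    rw [Finset.sum_ite_eq' S i fun j => f.coeff j]
  have hrel : Rel (gx N ρ) f f' := by
    unfold Rel
    obtain ⟨i, hi⟩ := gx_ex N ρ (f - f')
    rw [hi, coeff_sub, hc]
    split_ifs with h
    · rw [sub_self, N.zero, zero_mul]; exact gx_pos N hρ hf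
    · rw [sub_zero]
      refine lt_of_le_of_ne (gx_le N ρ f i) fun h1 => h ?_
      rw [hS, Finset.mem_filter]
      refine ⟨mem_support_iff.2 fun h2 => ?_, h1⟩
      rw [h2, N.zero, zero_mul] at h1
      exact (gx_pos N hρ hf).ne h1
  have hmax : ∀ i, f'.coeff i ≠ 0 → N.v (f'.coeff i) * (ρ : ℝ) ^ i = (gx N ρ).v f' := by
    intro i hi
    have hiS : i ∈ S := by
      by_contra h
      rw [hc, if_neg h] at hi
      exact hi rfl
    rw [hrel.v_eq, hc, if_pos hiS]
    rw [hS] at hiS
    exact (Finset.mem_filter.1 hiS).2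
  have hf'0 : f' ≠ 0 := by
    rintro h
    have := hrel.symm.pos
    rw [h, Ber.zero] at this
    exact lt_irrefl _ this
  refine ⟨f', hrel, hf'0, ?_, hmax _ (leadingCoeff_ne_zero.2 hf'0), hmax, ?_⟩
  · rw [natDegree_le_iff_coeff_eq_zero]
    intro i hi
    rw [hc]
    split_ifs with h
    · exact coeff_eq_zero_of_natDegree_lt hi
    · rfl
  · intro i hi
    rw [hc] at hi ⊢
    split_ifs with h
    · rfl
    · rw [if_neg h] at hi; exact absurd rfl hi

/-- The value of `X - (b - a)`. -/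
theorem gx_X_add_C {A : Type} [CommRing A] [Algebra K A] (N : Ber K A) (ρ : ℝ≥0) (a : A) :
    (gx N ρ).v (X + C a) = max (ρ : ℝ) (N.v a) := by
  apply le_antisymm
  · refine ((gx N ρ).add _ _).trans ?_
    rw [gx_X, gx_C]
  · apply max_le
    · have h := gx_le N ρ (X + C a) 1
      rwa [coeff_add, coeff_X_one, coeff_C_succ, add_zero, N.one, one_mul, pow_one] at h
    · have h := gx_le N ρ (X + C a) 0
      rwa [coeff_add, coeff_X_zero, coeff_C_zero, zero_add, pow_zero, mul_one] at h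

/-- Translations by elements of norm `≤ ρ` do not change the Gauss norm. -/
theorem gx_trans (N : Ber K F) (ρ : ℝ≥0) {a : F} (ha : N.v a ≤ ρ) (f : F[X]) :
    (gx N ρ).v (f.comp (X + C a)) = (gx N ρ).v f := by
  have h1 : ∀ b : F, N.v b ≤ ρ → ∀ f : F[X],
      (gx N ρ).v (f.comp (X + C b)) ≤ (gx N ρ).v f := by
    intro b hb f
    have h2 : Ber.res ((Polynomial.aeval (X + C b : F[X]) : F[X] →ₐ[F] F[X]).restrictScalars K)
        (gx N ρ) ≤ gx N ρ := by
      refine le_gx (fun c => ?_) ?_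
      · show (gx N ρ).v (Polynomial.aeval (X + C b : F[X]) (C c)) ≤ N.v c
        rw [aeval_C, algebraMap_eq, gx_C]
      · show (gx N ρ).v (Polynomial.aeval (X + C b : F[X]) X) ≤ ρ
        rw [aeval_X, gx_X_add_C]
        exact max_le le_rfl hb
    exact h2 f
  apply le_antisymm (h1 a ha f)
  have h3 := h1 (-a) (by rwa [N.neg]) (f.comp (X + C a))
  rwa [comp_assoc, add_comp, X_comp, C_comp, C_neg, neg_add_cancel_right, comp_X] at h3

end field

end Pool.Agent.TD


end

section

/-!
# Linear independence over `K^p` in a complete field (MP_90358a_ag, PAPER2.md SEP, (A))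
-/

open scoped Topology

namespace Pool.Agent.TD

variable {K : Type} [NormedField K] [IsUltrametricDist K]

theorem norm_sub_le_max' (x y : K) : ‖x - y‖ ≤ max ‖x‖ ‖y‖ := by
  have h := IsUltrametricDist.norm_add_le_max x (-y)
  rwa [norm_neg, ← sub_eq_add_neg] at h

/-- `c` is linearly independent over `K^p`. -/
def IndP (p : ℕ) {n : ℕ} (c : Fin n → K) : Prop :=
  ∀ a : Fin n → K, ∑ i, c i * a i ^ p = 0 → ∀ i, a i = 0

/-- (A) the norms of combinations are bounded from below. -/
theorem sepA (p : ℕ) [hp : Fact p.Prime] [CharP K p] [CompleteSpace K] (n : ℕ) (c : Fin n → K)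
    (hc : IndP p c) :
    ∃ δ : ℝ, 0 < δ ∧ ∀ (a : Fin n → K) (i : Fin n), δ * ‖a i‖ ^ p ≤ ‖∑ j, c j * a j ^ p‖ := by
  have hp0 : 0 < p := hp.out.pos
  induction n with
  | zero => exact ⟨1, one_pos, fun a i => i.elim0⟩
  | succ n ih =>
    -- the last coordinates
    obtain ⟨δ, hδ, h⟩ := ih (fun i => c i.succ) (by
      intro a ha i
      have h1 := hc (Fin.cons 0 a) (by
        rw [Fin.sum_univ_succ]
        simp only [Fin.cons_zero, Fin.cons_succ, zero_pow hp0.ne', mul_zero, zero_add]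
        exact ha) i.succ
      rwa [Fin.cons_succ] at h1)
    -- the distance to the span
    have hd : ∃ d : ℝ, 0 < d ∧ ∀ a : Fin n → K, d ≤ ‖c 0 + ∑ j, c j.succ * a j ^ p‖ := by
      by_contra hcon
      push Not at hcon
      have hseq : ∀ m : ℕ, ∃ a : Fin n → K, ‖c 0 + ∑ j, c j.succ * a j ^ p‖ < 1 / ((m : ℝ) + 1) :=
        fun m => hcon _ (by positivity)
      choose a ha using hseq
      have hlim0 : Filter.Tendsto (fun m => ‖c 0 + ∑ j, c j.succ * a m j ^ p‖) Filter.atTop
          (𝓝 0) := by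
        refine squeeze_zero (fun m => norm_nonneg _) (fun m => (ha m).le) ?_
        exact tendsto_one_div_add_atTop_nhds_zero_nat
      have hcau : ∀ j, CauchySeq fun m => a m j := by
        intro j
        rw [Metric.cauchySeq_iff]
        intro ε hε
        have hpos : 0 < δ * ε ^ p := by positivity
        obtain ⟨M, hM⟩ := (Metric.tendsto_atTop.1 hlim0) (δ * ε ^ p) hpos
        refine ⟨M, fun m hm k hk => ?_⟩
        have hm' := hM m hm
        have hk' := hM k hk
        rw [Real.dist_eq, sub_zero, abs_of_nonneg (norm_nonneg _)] at hm' hk'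
        rw [dist_eq_norm]
        have h1 := h (fun i => a m i - a k i) j
        have h2 : ∑ i, c i.succ * (a m i - a k i) ^ p =
            (c 0 + ∑ i, c i.succ * a m i ^ p) - (c 0 + ∑ i, c i.succ * a k i ^ p) := by
          rw [add_sub_add_left_eq_sub, ← Finset.sum_sub_distrib]
          apply Finset.sum_congr rfl
          intro i _
          rw [sub_pow_char, mul_sub]
        rw [h2] at h1
        have h3 : δ * ‖a m j - a k j‖ ^ p < δ * ε ^ p :=
          h1.trans_lt ((norm_sub_le_max' _ _).trans_lt (max_lt hm' hk'))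
        have h4 : ‖a m j - a k j‖ ^ p < ε ^ p := lt_of_mul_lt_mul_left h3 hδ.le
        exact lt_of_pow_lt_pow_left₀ p hε.le h4
      choose b hb using fun j => cauchySeq_tendsto_of_complete (hcau j)
      have hlim : Filter.Tendsto (fun m => ‖c 0 + ∑ j, c j.succ * a m j ^ p‖) Filter.atTop
          (𝓝 ‖c 0 + ∑ j, c j.succ * b j ^ p‖) := by
        refine Filter.Tendsto.norm (tendsto_const_nhds.add (tendsto_finsetSum _ fun j _ => ?_))
        exact ((hb j).pow p).const_mul _
      have h0 : ‖c 0 + ∑ j, c j.succ * b j ^ p‖ = 0 := tendsto_nhds_unique hlim hlim0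
      have h1 := hc (Fin.cons 1 b) (by
        rw [Fin.sum_univ_succ]
        simp only [Fin.cons_zero, Fin.cons_succ, one_pow, mul_one]
        exact norm_eq_zero.1 h0) 0
      rw [Fin.cons_zero] at h1
      exact one_ne_zero h1
    obtain ⟨d, hd0, hd⟩ := hd
    obtain ⟨M, hM⟩ : ∃ M, M = max 1 (‖c 0‖ / d) := ⟨_, rfl⟩
    have hM1 : 1 ≤ M := by rw [hM]; exact le_max_left _ _
    have hM0 : 0 < M := one_pos.trans_le hM1
    have hkey0 : ∀ a : Fin (n + 1) → K, d * ‖a 0‖ ^ p ≤ ‖∑ j, c j * a j ^ p‖ := by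
      intro a
      rcases eq_or_ne (a 0) 0 with h0 | h0
      · rw [h0, norm_zero, zero_pow hp0.ne', mul_zero]; exact norm_nonneg _
      · have h1 : ∑ j, c j * a j ^ p = a 0 ^ p *
            (c 0 + ∑ j : Fin n, c j.succ * (a j.succ / a 0) ^ p) := by
          rw [Fin.sum_univ_succ, mul_add, Finset.mul_sum, mul_comm (c 0)]
          congr 1
          apply Finset.sum_congr rfl
          intro j _
          rw [div_pow]
          field_simp
        rw [h1, norm_mul, norm_pow, mul_comm d]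
        exact mul_le_mul_of_nonneg_left (hd _) (by positivity)
    refine ⟨min d (δ / M), lt_min hd0 (div_pos hδ hM0), ?_⟩
    intro a i
    refine Fin.cases ?_ (fun j => ?_) i
    · exact (mul_le_mul_of_nonneg_right (min_le_left _ _) (by positivity)).trans (hkey0 a)
    · have h1 := h (fun i => a i.succ) j
      have h2 : ‖∑ i : Fin n, c i.succ * a i.succ ^ p‖ ≤ M * ‖∑ j, c j * a j ^ p‖ := by
        have h3 : ∑ i : Fin n, c i.succ * a i.succ ^ p =
            (∑ j, c j * a j ^ p) - c 0 * a 0 ^ p := by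
          rw [Fin.sum_univ_succ]; ring
        rw [h3]
        refine (norm_sub_le_max' _ _).trans (max_le ?_ ?_)
        · exact le_mul_of_one_le_left (norm_nonneg _) hM1
        · rw [norm_mul, norm_pow]
          have h4 := hkey0 a
          have h5 : ‖a 0‖ ^ p ≤ ‖∑ j, c j * a j ^ p‖ / d := by
            rw [le_div_iff₀ hd0, mul_comm]; exact h4
          calc ‖c 0‖ * ‖a 0‖ ^ p ≤ ‖c 0‖ * (‖∑ j, c j * a j ^ p‖ / d) :=
                mul_le_mul_of_nonneg_left h5 (norm_nonneg _)
            _ = (‖c 0‖ / d) * ‖∑ j, c j * a j ^ p‖ := by ring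
            _ ≤ M * ‖∑ j, c j * a j ^ p‖ := by
                refine mul_le_mul_of_nonneg_right ?_ (norm_nonneg _)
                rw [hM]; exact le_max_right _ _
      calc min d (δ / M) * ‖a j.succ‖ ^ p ≤ (δ / M) * ‖a j.succ‖ ^ p :=
            mul_le_mul_of_nonneg_right (min_le_right _ _) (by positivity)
        _ = (δ * ‖a j.succ‖ ^ p) / M := by ring
        _ ≤ (M * ‖∑ j, c j * a j ^ p‖) / M := by
            exact div_le_div_of_nonneg_right (h1.trans h2) hM0.le
        _ = _ := by field_simp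

/-- `K` as a vector space over itself through the Frobenius endomorphism. -/
def FrobK (K : Type) (_ : ℕ) : Type := K

instance (p : ℕ) : AddCommGroup (FrobK K p) := inferInstanceAs (AddCommGroup K)

noncomputable instance (p : ℕ) [Fact p.Prime] [CharP K p] : Module K (FrobK K p) :=
  Module.compHom K (frobenius K p)

/-- The identity. -/
def ofF (K : Type) [NormedField K] (p : ℕ) : FrobK K p ≃+ K := AddEquiv.refl K

omit [IsUltrametricDist K] in
theorem ofF_smul (p : ℕ) [Fact p.Prime] [CharP K p] (a : K) (x : FrobK K p) :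
    ofF K p (a • x) = ofF K p x * a ^ p := by
  show frobenius K p a * ofF K p x = _
  rw [frobenius_def, mul_comm]

omit [IsUltrametricDist K] in
/-- A finite set of elements is contained in the span over `K^p` of independent elements. -/
theorem exists_basisP (p : ℕ) [hp : Fact p.Prime] [CharP K p] (S : Finset K) :
    ∃ (n : ℕ) (c : Fin n → K), IndP p c ∧ ∀ s ∈ S, ∃ a : Fin n → K, s = ∑ i, c i * a i ^ p := by
  classical
  let V : Submodule K (FrobK K p) := Submodule.span K ((ofF K p).symm '' (S : Set K))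
  have hfin : Module.Finite K V := Module.Finite.span_of_finite K (S.finite_toSet.image _)
  let b := Module.finBasis K V
  refine ⟨_, fun i => ofF K p (b i), ?_, ?_⟩
  · intro a ha i
    have hli := b.linearIndependent
    rw [Fintype.linearIndependent_iff] at hli
    apply hli a
    apply Subtype.ext
    apply (ofF K p).injective
    rw [AddSubmonoidClass.coe_finsetSum, map_sum]
    show _ = ofF K p 0
    rw [map_zero]
    refine (Finset.sum_congr rfl fun j _ => ?_).trans ha
    exact ofF_smul (K := K) p (a j) (b j).1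
  · intro s hs
    have hsV : (ofF K p).symm s ∈ V := Submodule.subset_span ⟨s, hs, rfl⟩
    refine ⟨fun i => b.repr ⟨(ofF K p).symm s, hsV⟩ i, ?_⟩
    have h1 := b.sum_repr ⟨(ofF K p).symm s, hsV⟩
    have h2 := congrArg (fun x : V => ofF K p x.1) h1
    simp only [AddSubmonoidClass.coe_finsetSum, map_sum, AddEquiv.apply_symm_apply] at h2
    refine h2.symm.trans (Finset.sum_congr rfl fun j _ => ?_)
    exact ofF_smul (K := K) p _ (b j).1

end Pool.Agent.TD


end

section

/-!
# Separability (MP_90358a_ag, PAPER2.md SEP, (B)-(E))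
-/

open scoped Topology NNReal
open MvPolynomial

set_option linter.unusedSectionVars false
set_option linter.unusedVariables false

namespace Pool.Agent.TD

section coeff

variable {K σ : Type} [Field K] (p : ℕ) [hp : Fact p.Prime] [CharP K p]

/-- The exponent `a` with values `< p` as a finitely supported function. -/
noncomputable def toE [Finite σ] (a : σ → Fin p) : σ →₀ ℕ :=
  Finsupp.equivFunOnFinite.symm fun i => (a i : ℕ)

theorem toE_apply [Finite σ] (a : σ → Fin p) (i : σ) : toE p a i = a i := rfl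

/-- The coefficients of `C c * X^a * g^p`. -/
theorem coeff_pow_char [Fintype σ] [DecidableEq σ] (a a' : σ → Fin p) (c : K) (g : MvPolynomial σ K)
    (u : σ →₀ ℕ) :
    coeff (toE p a' + p • u) (C c * monomial (toE p a) 1 * g ^ p) =
      if a = a' then c * (coeff u g) ^ p else 0 := by
  classical
  have hp0 : p ≠ 0 := hp.out.ne_zero
  have hgp : g ^ p = (expand p g).map (frobenius K p) := (map_frobenius_expand p).symm
  rw [mul_assoc, coeff_C_mul, coeff_monomial_mul']
  split_ifs with h1 h2 h2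
  · subst h2
    rw [add_tsub_cancel_left, one_mul, hgp, coeff_map, coeff_expand_smul p hp0, frobenius_def]
  · rw [one_mul, hgp, coeff_map]
    -- some coordinate is not divisible by `p`
    have h3 : ∃ i, a i ≠ a' i := by
      by_contra hc
      push Not at hc
      exact h2 (funext hc)
    obtain ⟨i, hi⟩ := h3
    have h4 : ¬ p ∣ (toE p a' + p • u - toE p a) i := by
      rw [Finsupp.tsub_apply, Finsupp.add_apply, Finsupp.smul_apply, toE_apply, toE_apply,
        smul_eq_mul]
      have h5 := h1 i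
      rw [Finsupp.add_apply, Finsupp.smul_apply, toE_apply, toE_apply, smul_eq_mul] at h5
      rintro ⟨q, hq⟩
      apply hi
      apply Fin.ext
      have h6 : (a' i : ℕ) + p * u i = (a i : ℕ) + p * q := by omega
      have h7 : ((a' i : ℕ) + p * u i) % p = ((a i : ℕ) + p * q) % p := by rw [h6]
      rw [Nat.add_mul_mod_self_left, Nat.add_mul_mod_self_left, Nat.mod_eq_of_lt (a' i).2,
        Nat.mod_eq_of_lt (a i).2] at h7
      exact h7.symm
    rw [coeff_expand_of_not_dvd _ h4, map_zero, mul_zero]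
  · exfalso
    apply h1
    subst h2
    exact le_add_right le_rfl
  · rw [mul_zero]

end coeff

section sum

variable {K σ : Type} [Field K] (p : ℕ) [hp : Fact p.Prime] [CharP K p] [Fintype σ]
  [DecidableEq σ]

/-- `∑ C (c l) * X^a * g_{l,a}^p`. -/
noncomputable def fsum {n : ℕ} (c : Fin n → K) (g : Fin n → (σ → Fin p) → MvPolynomial σ K) :
    MvPolynomial σ K :=
  ∑ l, ∑ a, C (c l) * monomial (toE p a) 1 * g l a ^ p

theorem coeff_fsum {n : ℕ} (c : Fin n → K) (g : Fin n → (σ → Fin p) → MvPolynomial σ K)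
    (a : σ → Fin p) (u : σ →₀ ℕ) :
    coeff (toE p a + p • u) (fsum p c g) = ∑ l, c l * (coeff u (g l a)) ^ p := by
  unfold fsum
  rw [coeff_sum]
  apply Finset.sum_congr rfl
  intro l _
  rw [coeff_sum]
  simp only [coeff_pow_char]
  rw [Finset.sum_ite_eq' Finset.univ a fun a' => c l * coeff u (g l a') ^ p,
    if_pos (Finset.mem_univ a)]

theorem exists_div (v : σ →₀ ℕ) : ∃ (a : σ → Fin p) (u : σ →₀ ℕ), v = toE p a + p • u := by
  refine ⟨fun i => ⟨v i % p, Nat.mod_lt _ hp.out.pos⟩,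
    Finsupp.equivFunOnFinite.symm fun i => v i / p, ?_⟩
  ext i
  rw [Finsupp.add_apply, Finsupp.smul_apply, toE_apply, smul_eq_mul]
  exact (Nat.mod_add_div _ _).symm

theorem fsum_add {n : ℕ} (c : Fin n → K) (g g' : Fin n → (σ → Fin p) → MvPolynomial σ K) :
    fsum p c (fun l a => g l a + g' l a) = fsum p c g + fsum p c g' := by
  unfold fsum
  rw [← Finset.sum_add_distrib]
  apply Finset.sum_congr rfl
  intro l _
  rw [← Finset.sum_add_distrib]
  apply Finset.sum_congr rfl
  intro a _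
  rw [add_pow_char, mul_add]

/-- Every polynomial with coefficients in the span is of this form. -/
theorem exists_fsum {n : ℕ} (c : Fin n → K) (f : MvPolynomial σ K)
    (hf : ∀ v ∈ f.support, ∃ b : Fin n → K, coeff v f = ∑ l, c l * b l ^ p) :
    ∃ g, f = fsum p c g := by
  have hp0 : p ≠ 0 := hp.out.ne_zero
  have hmon : ∀ (v : σ →₀ ℕ) (b : Fin n → K), ∃ g, monomial v (∑ l, c l * b l ^ p) =
      fsum p c g := by
    intro v b
    obtain ⟨a, u, rfl⟩ := exists_div p v
    refine ⟨fun l a' => if a' = a then monomial u (b l) else 0, ?_⟩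
    ext w
    obtain ⟨a', u', rfl⟩ := exists_div p w
    rw [coeff_fsum, coeff_monomial]
    by_cases ha : a' = a
    · subst ha
      simp only [if_true, coeff_monomial]
      by_cases hu : u = u'
      · subst hu
        simp
      · rw [if_neg, Finset.sum_eq_zero]
        · intro l _
          rw [if_neg hu, zero_pow hp0, mul_zero]
        · intro h
          apply hu
          have h2 := add_left_cancel h
          ext i
          have h3 := congrArg (fun x : σ →₀ ℕ => x i) h2
          simpa [hp0] using h3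
    · rw [if_neg, Finset.sum_eq_zero]
      · intro l _
        rw [if_neg ha, coeff_zero, zero_pow hp0, mul_zero]
      · intro h
        apply ha
        funext i
        apply Fin.ext
        have h3 := congrArg (fun x : σ →₀ ℕ => x i % p) h
        simp only [Finsupp.add_apply, Finsupp.smul_apply, toE_apply, smul_eq_mul,
          Nat.add_mul_mod_self_left, Nat.mod_eq_of_lt (a i).2, Nat.mod_eq_of_lt (a' i).2] at h3
        exact h3.symm
  have hsum : ∀ S : Finset (σ →₀ ℕ), (∀ v ∈ S, ∃ b : Fin n → K, coeff v f = ∑ l, c l * b l ^ p) →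
      ∃ g, ∑ v ∈ S, monomial v (coeff v f) = fsum p c g := by
    intro S
    induction S using Finset.induction_on with
    | empty =>
      intro _
      refine ⟨fun _ _ => 0, ?_⟩
      rw [Finset.sum_empty]
      unfold fsum
      rw [Finset.sum_eq_zero]
      intro l _
      rw [Finset.sum_eq_zero]
      intro a _
      rw [zero_pow hp0, mul_zero]
    | insert v S hv ih =>
      intro h
      obtain ⟨g, hg⟩ := ih fun w hw => h w (Finset.mem_insert_of_mem hw)
      obtain ⟨b, hb⟩ := h v (Finset.mem_insert_self v S)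
      obtain ⟨g', hg'⟩ := hmon v b
      refine ⟨fun l a => g' l a + g l a, ?_⟩
      rw [fsum_add, Finset.sum_insert hv, hg, hb, hg']
  obtain ⟨g, hg⟩ := hsum f.support hf
  exact ⟨g, by rw [← hg]; exact f.as_sum⟩

end sum

section norm

variable {K σ : Type} [NormedField K] [IsUltrametricDist K] (p : ℕ) [hp : Fact p.Prime]
  [CharP K p] [Fintype σ] [DecidableEq σ]

theorem mw_smul (ρ : σ → ℝ≥0) (u : σ →₀ ℕ) (n : ℕ) : mw ρ (n • u) = mw ρ u ^ n := by
  induction n with
  | zero => rw [zero_smul, mw_zero, pow_zero]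
  | succ n ih => rw [succ_nsmul, mw_add, ih, pow_succ]

/-- (B) -/
theorem sepB {n : ℕ} (c : Fin n → K) {δ : ℝ} (hδ : 0 < δ)
    (hc : ∀ (a : Fin n → K) (i : Fin n), δ * ‖a i‖ ^ p ≤ ‖∑ j, c j * a j ^ p‖) (ρ : σ → ℝ≥0)
    (g : Fin n → (σ → Fin p) → MvPolynomial σ K) (l : Fin n) (a : σ → Fin p) :
    δ * (mw ρ (toE p a) : ℝ) * ((gp ρ).v (g l a)) ^ p ≤ (gp ρ).v (fsum p c g) := by
  obtain ⟨u, hu⟩ := gp_ex ρ (g l a)
  have h1 := gp_le ρ (fsum p c g) (toE p a + p • u)
  rw [coeff_fsum] at h1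
  refine le_trans ?_ h1
  rw [hu, mw_add, mw_smul, mul_pow]
  push_cast
  calc δ * (mw ρ (toE p a) : ℝ) * (‖coeff u (g l a)‖ ^ p * (mw ρ u : ℝ) ^ p)
      = (δ * ‖coeff u (g l a)‖ ^ p) * ((mw ρ (toE p a) : ℝ) * (mw ρ u : ℝ) ^ p) := by ring
    _ ≤ ‖∑ j, c j * coeff u (g j a) ^ p‖ * ((mw ρ (toE p a) : ℝ) * (mw ρ u : ℝ) ^ p) :=
        mul_le_mul_of_nonneg_right (hc (fun j => coeff u (g j a)) l) (by positivity)

end norm

section field

variable {K σ L : Type} [NormedField K] [IsUltrametricDist K] (p : ℕ) [hp : Fact p.Prime]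
  [CharP K p] [Fintype σ] [DecidableEq σ] [Field L] [Algebra K L]

omit [IsUltrametricDist K] hp [CharP K p] [Fintype σ] [DecidableEq σ] in
/-- Common denominators. -/
theorem sep_denom (w : Ber K L) (ι : MvPolynomial σ K →+* L) (hι : Function.Injective ι)
    (hd : ∀ (x : L) (ε : ℝ), 0 < ε → ∃ b c : MvPolynomial σ K, c ≠ 0 ∧
      w.v (x - ι b / ι c) < ε)
    {J : Type} (S : Finset J) (y : J → L) {ε : ℝ} (hε : 0 < ε) :
    ∃ (d : MvPolynomial σ K) (g : J → MvPolynomial σ K), d ≠ 0 ∧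
      ∀ j ∈ S, w.v (y j - ι (g j) / ι d) < ε := by
  classical
  induction S using Finset.induction_on with
  | empty => exact ⟨1, fun _ => 0, one_ne_zero, fun j hj => absurd hj (Finset.notMem_empty j)⟩
  | insert j S hj ih =>
    obtain ⟨d, g, hd0, h⟩ := ih
    obtain ⟨b, c, hc0, hbc⟩ := hd (y j) ε hε
    have hιd : ι d ≠ 0 := (map_ne_zero_iff ι hι).2 hd0
    have hιc : ι c ≠ 0 := (map_ne_zero_iff ι hι).2 hc0
    refine ⟨d * c, fun i => if i = j then b * d else g i * c, mul_ne_zero hd0 hc0, ?_⟩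
    intro i hi
    by_cases hij : i = j
    · subst hij
      have e : ι (b * d) / ι (d * c) = ι b / ι c := by
        rw [map_mul, map_mul]; field_simp
      simp only [if_true]
      rw [e]; exact hbc
    · have hiS : i ∈ S := (Finset.mem_insert.1 hi).resolve_left hij
      have e : ι (g i * c) / ι (d * c) = ι (g i) / ι d := by
        rw [map_mul, map_mul]; field_simp
      simp only [if_neg hij]
      rw [e]; exact h i hiS

/-- (C) -/
theorem sepC {n : ℕ} (c : Fin n → K) {δ : ℝ} (hδ : 0 < δ)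
    (hc : ∀ (a : Fin n → K) (i : Fin n), δ * ‖a i‖ ^ p ≤ ‖∑ j, c j * a j ^ p‖) {ρ : σ → ℝ≥0}
    (hρ : ∀ i, 0 < ρ i) (w : Ber K L) (ι : MvPolynomial σ K →+* L)
    (hιC : ∀ x : K, ι (C x) = algebraMap K L x) (hι : ∀ P, w.v (ι P) = (gp ρ).v P)
    (hd : ∀ (x : L) (ε : ℝ), 0 < ε → ∃ b c : MvPolynomial σ K, c ≠ 0 ∧
      w.v (x - ι b / ι c) < ε)
    (y : Fin n → (σ → Fin p) → L)
    (hy : ∑ l, ∑ a, ι (C (c l)) * ι (monomial (toE p a) 1) * y l a ^ p = 0) :
    ∀ l a, y l a = 0 := by
  have hinj : Function.Injective ι := by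
    rw [injective_iff_map_eq_zero]
    intro P hP
    rw [← gp_eq_zero hρ, ← hι, hP, w.zero]
  have hCL : CharP L p := charP_of_injective_algebraMap (algebraMap K L).injective p
  intro l0 a0
  by_contra hne
  have hpos : 0 < w.v (y l0 a0) := w.field_pos hne
  have hp0 : 0 < p := hp.out.pos
  -- a bound for the coefficients
  obtain ⟨B, hB⟩ : ∃ B : ℝ, B = 1 + ∑ l : Fin n, ∑ a : σ → Fin p,
      w.v (ι (C (c l)) * ι (monomial (toE p a) 1)) := ⟨_, rfl⟩
  have hBle : ∀ l a, w.v (ι (C (c l)) * ι (monomial (toE p a) 1)) ≤ B := by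
    intro l a
    have h1 : w.v (ι (C (c l)) * ι (monomial (toE p a) 1)) ≤
        ∑ a : σ → Fin p, w.v (ι (C (c l)) * ι (monomial (toE p a) 1)) :=
      Finset.single_le_sum (f := fun a => w.v (ι (C (c l)) * ι (monomial (toE p a) 1)))
        (fun a _ => w.nonneg _) (Finset.mem_univ a)
    have h2 : ∑ a : σ → Fin p, w.v (ι (C (c l)) * ι (monomial (toE p a) 1)) ≤
        ∑ l : Fin n, ∑ a : σ → Fin p, w.v (ι (C (c l)) * ι (monomial (toE p a) 1)) :=
      Finset.single_le_sum
        (f := fun l => ∑ a : σ → Fin p, w.v (ι (C (c l)) * ι (monomial (toE p a) 1)))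
        (fun l _ => Finset.sum_nonneg fun a _ => w.nonneg _) (Finset.mem_univ l)
    rw [hB]
    linarith
  have hB0 : 0 < B := by
    have : 0 ≤ ∑ l : Fin n, ∑ a : σ → Fin p, w.v (ι (C (c l)) * ι (monomial (toE p a) 1)) :=
      Finset.sum_nonneg fun l _ => Finset.sum_nonneg fun a _ => w.nonneg _
    rw [hB]; linarith
  obtain ⟨T, hT⟩ : ∃ T : ℝ, T = δ * (mw ρ (toE p a0) : ℝ) * w.v (y l0 a0) ^ p := ⟨_, rfl⟩
  have hmw : (0 : ℝ) < mw ρ (toE p a0) := by exact_mod_cast mw_pos hρ _
  have hT0 : 0 < T := by rw [hT]; positivity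
  -- choose `ε`
  obtain ⟨ε, hε0, hε1, hε2⟩ : ∃ ε : ℝ, 0 < ε ∧ ε ≤ w.v (y l0 a0) ∧ B * ε ^ p < T := by
    refine ⟨min (w.v (y l0 a0)) (min 1 (T / (2 * B))), ?_, min_le_left _ _, ?_⟩
    · exact lt_min hpos (lt_min one_pos (by positivity))
    · have h1 : min (w.v (y l0 a0)) (min 1 (T / (2 * B))) ≤ 1 :=
        (min_le_right _ _).trans (min_le_left _ _)
      have h2 : min (w.v (y l0 a0)) (min 1 (T / (2 * B))) ≤ T / (2 * B) :=
        (min_le_right _ _).trans (min_le_right _ _)
      have h0 : 0 ≤ min (w.v (y l0 a0)) (min 1 (T / (2 * B))) :=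
        le_min hpos.le (le_min zero_le_one (by positivity))
      have h3 : min (w.v (y l0 a0)) (min 1 (T / (2 * B))) ^ p ≤
          min (w.v (y l0 a0)) (min 1 (T / (2 * B))) := by
        calc _ ≤ min (w.v (y l0 a0)) (min 1 (T / (2 * B))) ^ 1 :=
              pow_le_pow_of_le_one h0 h1 hp0
          _ = _ := pow_one _
      calc B * min (w.v (y l0 a0)) (min 1 (T / (2 * B))) ^ p ≤ B * (T / (2 * B)) :=
            mul_le_mul_of_nonneg_left (h3.trans h2) hB0.le
        _ = T / 2 := by field_simp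
        _ < T := by linarith
  -- approximate
  obtain ⟨d, g, hd0, hg⟩ := sep_denom w ι hinj hd (Finset.univ : Finset (Fin n × (σ → Fin p)))
    (fun j => y j.1 j.2) hε0
  have hιd : ι d ≠ 0 := (map_ne_zero_iff ι hinj).2 hd0
  have hgd : ∀ l a, w.v (y l a - ι (g (l, a)) / ι d) < ε := fun l a => hg (l, a)
    (Finset.mem_univ _)
  have hval0 : w.v (ι (g (l0, a0)) / ι d) = w.v (y l0 a0) :=
    w.sub_eq ((hgd l0 a0).trans_le hε1)
  -- (B)
  have hBB := sepB p c hδ hc ρ (fun l a => g (l, a)) l0 a0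
  have hdp : 0 < w.v (ι d) := w.field_pos hιd
  have hid : ι (fsum p c fun l a => g (l, a)) / ι d ^ p =
      ∑ l, ∑ a, ι (C (c l)) * ι (monomial (toE p a) 1) * (ι (g (l, a)) / ι d) ^ p := by
    unfold fsum
    rw [map_sum, Finset.sum_div]
    apply Finset.sum_congr rfl
    intro l _
    rw [map_sum, Finset.sum_div]
    apply Finset.sum_congr rfl
    intro a _
    rw [map_mul, map_mul, map_pow, div_pow]
    ring
  have hsm : w.v (ι (fsum p c fun l a => g (l, a)) / ι d ^ p) < T := by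
    rw [hid]
    have h1 : ∑ l, ∑ a, ι (C (c l)) * ι (monomial (toE p a) 1) * (ι (g (l, a)) / ι d) ^ p =
        -∑ l, ∑ a, ι (C (c l)) * ι (monomial (toE p a) 1) *
          (y l a - ι (g (l, a)) / ι d) ^ p := by
      rw [eq_neg_iff_add_eq_zero, ← hy, ← Finset.sum_add_distrib]
      apply Finset.sum_congr rfl
      intro l _
      rw [← Finset.sum_add_distrib]
      apply Finset.sum_congr rfl
      intro a _
      rw [sub_pow_char]; ring
    rw [h1, w.neg]
    refine w.sum_lt _ _ hT0 fun l _ => w.sum_lt _ _ hT0 fun a _ => ?_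
    rw [w.mul, w.pow]
    calc w.v (ι (C (c l)) * ι (monomial (toE p a) 1)) * w.v (y l a - ι (g (l, a)) / ι d) ^ p
        ≤ B * ε ^ p := mul_le_mul (hBle l a)
          (pow_le_pow_left₀ (w.nonneg _) (hgd l a).le p) (pow_nonneg (w.nonneg _) p) hB0.le
      _ < T := hε2
  rw [w.field_div, w.pow, hι] at hsm
  rw [div_lt_iff₀ (pow_pos hdp p)] at hsm
  have h2 : w.v (y l0 a0) ^ p * w.v (ι d) ^ p = ((gp ρ).v (g (l0, a0))) ^ p := by
    rw [← hval0, w.field_div, hι, div_pow]
    field_simp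
  have h3 : T * w.v (ι d) ^ p = δ * (mw ρ (toE p a0) : ℝ) * ((gp ρ).v (g (l0, a0))) ^ p := by
    rw [hT, ← h2]; ring
  rw [h3] at hsm
  exact absurd hBB (not_le.2 hsm)

/-- (D) `p`-th powers of linearly independent elements are linearly independent. -/
theorem sepD [CompleteSpace K] {ρ : σ → ℝ≥0} (hρ : ∀ i, 0 < ρ i) (w : Ber K L)
    (ι : MvPolynomial σ K →+* L)
    (hιC : ∀ x : K, ι (C x) = algebraMap K L x) (hι : ∀ P, w.v (ι P) = (gp ρ).v P)
    (hd : ∀ (x : L) (ε : ℝ), 0 < ε → ∃ b c : MvPolynomial σ K, c ≠ 0 ∧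
      w.v (x - ι b / ι c) < ε)
    {J : Type} [Fintype J] (h : J → L)
    (hli : ∀ f : J → MvPolynomial σ K, ∑ j, ι (f j) * h j = 0 → ∀ j, f j = 0) :
    ∀ f : J → MvPolynomial σ K, ∑ j, ι (f j) * h j ^ p = 0 → ∀ j, f j = 0 := by
  classical
  have hCL : CharP L p := charP_of_injective_algebraMap (algebraMap K L).injective p
  have hp0 : p ≠ 0 := hp.out.ne_zero
  intro f hf
  -- basis of the span of the coefficients
  obtain ⟨n, c, hc, hS⟩ := exists_basisP p
    (Finset.univ.biUnion fun j => (f j).support.image fun v => coeff v (f j))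
  obtain ⟨δ, hδ, hδc⟩ := sepA p n c hc
  have hex : ∀ j, ∃ g, f j = fsum p c g := by
    intro j
    refine exists_fsum p c (f j) fun v hv => hS _ ?_
    exact Finset.mem_biUnion.2 ⟨j, Finset.mem_univ j, Finset.mem_image_of_mem _ hv⟩
  choose g hg using hex
  have hsum : ∑ l, ∑ a, ι (C (c l)) * ι (monomial (toE p a) 1) *
      (∑ j, ι (g j l a) * h j) ^ p = 0 := by
    rw [← hf]
    have h1 : ∀ l a, ι (C (c l)) * ι (monomial (toE p a) 1) * (∑ j, ι (g j l a) * h j) ^ p =
        ∑ j, ι (C (c l) * monomial (toE p a) 1 * g j l a ^ p) * h j ^ p := by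
      intro l a
      rw [sum_pow_char p, Finset.mul_sum]
      apply Finset.sum_congr rfl
      intro j _
      rw [map_mul, map_mul, map_pow, mul_pow]
      ring
    simp only [h1]
    have h2 : ∀ j, ι (f j) * h j ^ p =
        ∑ l, ∑ a, ι (C (c l) * monomial (toE p a) 1 * g j l a ^ p) * h j ^ p := by
      intro j
      conv_lhs => rw [hg j]
      unfold fsum
      rw [map_sum, Finset.sum_mul]
      apply Finset.sum_congr rfl
      intro l _
      rw [map_sum, Finset.sum_mul]
    simp only [h2]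
    refine Eq.trans ?_ Finset.sum_comm
    apply Finset.sum_congr rfl
    intro l _
    exact Finset.sum_comm
  have hz := sepC p c hδ hδc hρ w ι hιC hι hd (fun l a => ∑ j, ι (g j l a) * h j) hsum
  intro j
  rw [hg j]
  unfold fsum
  rw [Finset.sum_eq_zero]
  intro l _
  rw [Finset.sum_eq_zero]
  intro a _
  rw [hli (fun j => g j l a) (hz l a) j, zero_pow hp0, mul_zero]

end field

end Pool.Agent.TD


end
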