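import Mathlib
import Pool.Agent.DolbM.C01
import Pool.Agent.DolbM.C17
import Pool.Agent.TD.N.Defs

/-! Parts: TD.N.Data, TD.FA.Defs, TD.X2.Defs, TD.R.Defs, TD.R.S2, TD.N.Ifc, TD.MT.C1, TD.MT.C2, TD.MT.C3, TD.N.Bas, TD.X2.Den, TD.X2.LL -/

section

/-!
# Stage 3: the local data ND0 at a point of a smooth tropicalization (PAPER2.md, ND0)

`t i` are the coordinates which are `-∞` at the point `w`, `T e` the functions given by the elements
of the matroid (`T e0 = 1`).  `V0` is a compact neighbourhood of `F_w = D.Fw`.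
-/

open scoped Topology NNReal

namespace Pool.Agent.TD

/-- Data at a point `w`. -/
structure NDat (K A I E : Type) [NormedField K] [CommRing A] [Algebra K A] where
  t : I → A
  T : E → A
  ρ : E → ℝ≥0
  e0 : E
  M : Matroid E
  V0 : Set (Ber K A)
  δ0 : ℝ

namespace NDat

variable {K A I E : Type} [NormedField K] [CommRing A] [Algebra K A] (D : NDat K A I E)

/-- The tropical coordinates `y_e = log |T_e| - log ρ_e`. -/
noncomputable def yc (z : Ber K A) (e : E) : ℝ := Real.log (z.v (D.T e)) - Real.log (D.ρ e)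

/-- The fibre `F_w`. -/
def Fw : Set (Ber K A) := {z | z ∈ D.V0 ∧ (∀ i, z.v (D.t i) = 0) ∧ ∀ e, D.yc z e = 0}

/-- The fibre `F_(r,y)`. -/
def Fry (r : I → ℝ≥0) (y : E → ℝ) : Set (Ber K A) :=
  {z | z ∈ D.V0 ∧ (∀ i, z.v (D.t i) = r i) ∧ ∀ e, D.yc z e = y e}

/-- The radius `ρ_e exp y_e`. -/
noncomputable def rd (y : E → ℝ) (e : E) : ℝ≥0 := D.ρ e * (Real.exp (y e)).toNNReal

/-- The functions `t` and `T_e`, `e ∈ J`. -/
def vr (J : Set E) : I ⊕ J → A := Sum.elim D.t fun e => D.T e.1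

/-- The homomorphism `K[t, X_e : e ∈ J] → A`. -/
noncomputable def ph (J : Set E) : MvPolynomial (I ⊕ J) K →ₐ[K] A := MvPolynomial.aeval (D.vr J)

/-- The homomorphism `K[X_e : e ∈ J] → A`. -/
noncomputable def ph0 (J : Set E) : MvPolynomial J K →ₐ[K] A :=
  MvPolynomial.aeval fun e : J => D.T e.1

/-- `(r, y)` is generic for the basis `B`, of size less than `δ`. -/
structure Gen (δ : ℝ) (B : Set E) (r : I → ℝ≥0) (y : E → ℝ) : Prop where
  rpos : ∀ i, 0 < r i
  rlt : ∀ i, (r i : ℝ) < δ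
  berg : BergM D.M y
  y0 : y D.e0 = 0
  ylt : ∀ e, |y e| < δ
  inj : Set.InjOn y B

/-- The top point of a facet. -/
structure IsTop (B : Set E) (r : I → ℝ≥0) (y : E → ℝ) (z : Ber K A) : Prop where
  mem : z ∈ D.Fry r y
  max : ∀ z' ∈ D.Fry r y, z' ≤ z
  gauss : GaussAt (D.vr (B \ {D.e0})) (Sum.elim r fun e => D.rd y e.1) z

/-- The properties of the data. -/
structure Ok : Prop where
  ρpos : ∀ e, 0 < D.ρ e
  ρ0 : D.ρ D.e0 = 1
  T0 : D.T D.e0 = 1
  ground : D.M.E = Set.univ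
  loopless : ∀ e, D.M.Indep {e}
  δpos : 0 < D.δ0
  comp : IsCompact D.V0
  Tne : ∀ z ∈ D.V0, ∀ e, z.v (D.T e) ≠ 0
  ne : D.Fw.Nonempty
  nhd : ∀ z ∈ D.Fw, D.V0 ∈ 𝓝 z
  berg : ∀ z ∈ D.V0, BergM D.M (D.yc z)
  top : ∀ B r y, D.M.IsBase B → D.e0 ∈ B → D.Gen D.δ0 B r y → ∃ z, D.IsTop B r y z
  uniq : ∀ B r y, D.M.IsBase B → D.e0 ∈ B → D.Gen D.δ0 B r y → ∀ z ∈ D.Fry r y,
    ∀ z' ∈ D.Fry r y, fam (D.vr (B \ {D.e0})) z = fam (D.vr (B \ {D.e0})) z' → z = z'
  dens : ∀ B r y, D.M.IsBase B → D.e0 ∈ B → D.Gen D.δ0 B r y → ∀ z ∈ D.Fry r y,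
    Dens (D.ph (B \ {D.e0})) z

end NDat

end Pool.Agent.TD


end

section

/-!
# Facets (PAPER2.md, FA): definitions

`A` is spanned by characters `chi m`, `m` in a group `N`.
-/

open scoped Topology NNReal

namespace Pool.Agent.TD.FA

variable {K A N : Type} [NormedField K] [CommRing A] [Algebra K A] [AddCommGroup N]

/-- Evaluation of a linear combination of characters. -/
noncomputable def ev (chi : N → A) (F : N →₀ K) : A := F.sum fun m c => algebraMap K A c * chi m

/-- The weight `exp (w m)`. -/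
noncomputable def wt (w : N → ℝ) (m : N) : ℝ≥0 := (Real.exp (w m)).toNNReal

/-- The quotient norm on `A` of the weighted sup norm. -/
noncomputable def qn (chi : N → A) (w : N → ℝ) (a : A) : ℝ≥0 :=
  sInf {s | ∃ F : N →₀ K, ev chi F = a ∧ s = BG.nrm (wt w) F}

/-- The fibre `F_w`. -/
def Fib (K : Type) {A N : Type} [NormedField K] [CommRing A] [Algebra K A]
    (chi : N → A) (w : N → ℝ) : Set (Ber K A) := {z | ∀ m, z.v (chi m) = Real.exp (w m)}

/-- Data of a facet: characters, a point `w` such that the points `w + s_v`,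
`s_v(m) = ∑ coef m i * v i`, `v` small, have non-empty fibres, and the weight is one. -/
structure Facet (K : Type) {A N σ : Type} [NormedField K] [CommRing A] [Algebra K A]
    [AddCommGroup N] [Fintype σ] (chi : N → A) (u : σ → N) (coef : N →+ (σ → ℤ))
    (w : N →+ ℝ) : Prop where
  chi_zero : chi 0 = 1
  chi_add : ∀ m m', chi (m + m') = chi m * chi m'
  span : ∀ a : A, ∃ F : N →₀ K, ev chi F = a
  fg : AddGroup.FG N
  coef_self : ∀ i, coef (u i) i = 1
  coef_ne : ∀ i j, i ≠ j → coef (u i) j = 0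
  near : ∃ δ : ℝ, 0 < δ ∧ ∀ v : σ → ℝ, (∀ i, |v i| < δ) →
    (Fib K chi fun m => w m + ∑ i, (coef m i : ℝ) * v i).Nonempty
  weight : ∀ m, coef m = 0 → ∃ c : K, (qn (K := K) chi w (chi m - algebraMap K A c) : ℝ) <
    Real.exp (w m)

end Pool.Agent.TD.FA


end

section

/-!
# Smooth points of tropicalizations, algebraic form (PAPER2.md, X1, X2): definitions

`A` is a `K`-algebra spanned by characters `χ m`, `m ∈ P`, `P` a submonoid of the group `N`; `A'` is
the algebra in which the characters are invertible, `χ'` its characters.  The tropicalization is the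
set of the functions `tr χ z = (m ↦ |χ m|_z)`, `z ∈ M(A)`.
-/

open scoped Topology NNReal

namespace Pool.Agent.TD.X2

/-- An algebra spanned by characters, and the algebra in which they are invertible. -/
structure Chars (K : Type) {A A' N : Type} [NormedField K] [CommRing A] [Algebra K A]
    [CommRing A'] [Algebra K A'] [AddCommGroup N] (P : AddSubmonoid N) (r : A →ₐ[K] A')
    (χ : P → A) (χ' : N → A') : Prop where
  zero : χ 0 = 1
  add : ∀ m m', χ (m + m') = χ m * χ m'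
  zero' : χ' 0 = 1
  add' : ∀ m m', χ' (m + m') = χ' m * χ' m'
  comp : ∀ m : P, r (χ m) = χ' m
  span : ∀ a : A, ∃ F : P →₀ K, (F.sum fun m c => algebraMap K A c * χ m) = a
  span' : ∀ a : A', ∃ F : N →₀ K, FA.ev χ' F = a
  inj : Function.Injective r
  gen : ∀ m : N, ∃ a b : P, m = (a : N) - b
  fgP : P.FG

variable {K A A' N k I E : Type} [NormedField K] [CommRing A] [Algebra K A] [CommRing A']
  [Algebra K A'] [AddCommGroup N] {P : AddSubmonoid N}

/-- The tropicalization map. -/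
def tr (χ : P → A) (z : Ber K A) (m : P) : ℝ := z.v (χ m)

/-- The coordinate `exp (a_i) |χ^{m_i}|` of `[0,∞)`. -/
noncomputable def cx (mm : k → P) (a : k → ℝ) (b : P → ℝ) (i : k) : ℝ := Real.exp (a i) * b (mm i)

/-- The coordinate `c_e + log |χ^{μ_e}|`. -/
noncomputable def cy (μ : E → P) (c : E → ℝ) (b : P → ℝ) (e : E) : ℝ := c e + Real.log (b (μ e))

/-- A chart of the tropicalization near `w`: the coordinates `cx`, `cy` identify the part of the
tropicalization in `U` with the part of `[0,∞)^k × Σ_M` in `U'`, and the other characters are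
integral affine functions of the coordinates. -/
structure Chart (K : Type) {A N k E : Type} [NormedField K] [CommRing A] [Algebra K A]
    [AddCommGroup N] {P : AddSubmonoid N} [Fintype k] [Fintype E] (χ : P → A) (w : P → ℝ)
    (mm : k → P) (μ : E → P) (a : k → ℝ) (c : E → ℝ) (M : Matroid E) (e0 : E)
    (U : Set (P → ℝ)) (U' : Set ((k → ℝ) × (E → ℝ))) : Prop where
  ground : M.E = Set.univ
  loopless : ∀ e, M.Indep {e}
  μ0 : μ e0 = 0
  c0 : c e0 = 0
  hw : w ∈ Set.range (tr (K := K) χ)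
  isOpen : IsOpen U
  w_mem : w ∈ U
  ne : ∀ z : Ber K A, tr χ z ∈ U → ∀ e, z.v (χ (μ e)) ≠ 0
  isOpen' : IsOpen U'
  img : (fun b => (cx mm a b, cy μ c b)) '' (Set.range (tr (K := K) χ) ∩ U) =
    {p | p ∈ U' ∧ (∀ i, 0 ≤ p.1 i) ∧ p.2 e0 = 0 ∧ BergM M p.2}
  aff : ∀ m : P, ∃ (α : k → ℤ) (n : E → ℤ) (d : ℝ), (∀ i, w (mm i) = 0 → 0 ≤ α i) ∧
    ∀ z : Ber K A, tr χ z ∈ U → z.v (χ m) = Real.exp d * (∏ i, cx mm a (tr χ z) i ^ α i) *
      Real.exp (∑ e, n e * cy μ c (tr χ z) e)

/-- The tropical coordinates centred at `w`. -/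
noncomputable def ye (χ : P → A) (w : P → ℝ) (ch : E → P) (z : Ber K A) (e : E) : ℝ :=
  Real.log (z.v (χ (ch e))) - Real.log (w (ch e))

/-- A chart centred at `w`: the characters `mt i` vanish at `w`, the coordinates `ye` are zero at
`w`. -/
structure CChart (K : Type) {A N I E : Type} [NormedField K] [CommRing A] [Algebra K A]
    [AddCommGroup N] {P : AddSubmonoid N} [Fintype I] [Fintype E] (χ : P → A) (w : P → ℝ)
    (mt : I → P) (ch : E → P) (M : Matroid E) (e0 : E) (U : Set (P → ℝ)) (δ : ℝ) : Prop where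
  ground : M.E = Set.univ
  loopless : ∀ e, M.Indep {e}
  ch0 : ch e0 = 0
  hw : w ∈ Set.range (tr (K := K) χ)
  wt : ∀ i, w (mt i) = 0
  wch : ∀ e, w (ch e) ≠ 0
  isOpen : IsOpen U
  w_mem : w ∈ U
  δpos : 0 < δ
  ne : ∀ z : Ber K A, tr χ z ∈ U → ∀ e, z.v (χ (ch e)) ≠ 0
  berg : ∀ z : Ber K A, tr χ z ∈ U → BergM M (ye χ w ch z)
  ex : ∀ (r : I → ℝ≥0) (y : E → ℝ), (∀ i, (r i : ℝ) < δ) → (∀ e, |y e| < δ) → y e0 = 0 →
    BergM M y → ∃ z : Ber K A, tr χ z ∈ U ∧ (∀ i, z.v (χ (mt i)) = r i) ∧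
      ∀ e, ye χ w ch z e = y e
  aff : ∀ m : P, ∃ (α : I → ℕ) (n : E → ℤ) (d : ℝ), ∀ z : Ber K A, tr χ z ∈ U →
    z.v (χ m) = Real.exp d * (∏ i, z.v (χ (mt i)) ^ α i) *
      Real.exp (∑ e, n e * ye χ w ch z e)

/-- Near the point `b` of the open stratum the tropicalization `S` is the affine space `b + Λ`. -/
def LinAbs (S : Set (P → ℝ)) (b : N →+ ℝ) (Λ : Submodule ℝ (N →+ ℝ)) : Prop :=
  ∃ O : Set (P → ℝ), IsOpen O ∧ (fun m : P => Real.exp (b m)) ∈ O ∧
    ∀ b' ∈ O, b' ∈ S ↔ ∃ l ∈ Λ, ∀ m : P, b' m = Real.exp (b m) * Real.exp (l m)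

/-- The weights are one: at points of the open stratum near which the tropicalization is
`b + Λ`, the characters in `Λ^⊥` are near constants. -/
def Wt (K : Type) {A A' N : Type} [NormedField K] [CommRing A] [Algebra K A] [CommRing A']
    [Algebra K A'] [AddCommGroup N] {P : AddSubmonoid N} (χ : P → A) (χ' : N → A') : Prop :=
  ∀ b : N →+ ℝ, (fun m : P => Real.exp (b m)) ∈ Set.range (tr (K := K) χ) →
    ∀ Λ : Submodule ℝ (N →+ ℝ), LinAbs (Set.range (tr (K := K) χ)) b Λ →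
      ∀ m : N, (∀ l ∈ Λ, l m = 0) → ∃ c : K,
        (FA.qn (K := K) χ' b (χ' m - algebraMap K A' c) : ℝ) < Real.exp (b m)

end Pool.Agent.TD.X2


end

section

/-!
# Block R (PAPER3.md): smooth points in the general sense: definitions

`T` is a set of functions on `P` (the tropicalization in a chart).  A general smooth chart of `T`
at `w` is a homeomorphism of a neighbourhood of `w` in `T` with an open subset of
`[0,∞)^k × Σ_M` (`[0,∞) = exp [-∞,∞)`) which identifies the integral affine functions.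
-/

open scoped Topology NNReal

namespace Pool.Agent.TD.R

variable {N k I E : Type} [AddCommGroup N] {P : AddSubmonoid N}

/-- The model `[0,∞)^k × Σ_M`. -/
def Mdl (k : Type) {E : Type} (M : Matroid E) (e0 : E) : Set ((k → ℝ) × (E → ℝ)) :=
  {p | (∀ i, 0 ≤ p.1 i) ∧ p.2 e0 = 0 ∧ BergM M p.2}

/-- `g` is near `b` an integral affine function of the logarithms of the characters. -/
def AffC (T : Set (P → ℝ)) (b : P → ℝ) (g : (P → ℝ) → ℝ) : Prop :=
  ∃ (m m' : P) (c : ℝ), b m ≠ 0 ∧ b m' ≠ 0 ∧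
    ∀ᶠ b' in 𝓝[T] b, g b' = Real.log (b' m) - Real.log (b' m') + c

/-- `g` is near `b` an integral affine function of the finite coordinates. -/
def AffX [Fintype k] [Fintype E] (T : Set (P → ℝ)) (x : k → (P → ℝ) → ℝ) (y : E → (P → ℝ) → ℝ)
    (b : P → ℝ) (g : (P → ℝ) → ℝ) : Prop :=
  ∃ (n : k → ℤ) (l : E → ℤ) (c : ℝ), (∀ i, x i b = 0 → n i = 0) ∧
    ∀ᶠ b' in 𝓝[T] b, g b' = ∑ i, (n i : ℝ) * Real.log (x i b') + ∑ e, (l e : ℝ) * y e b' + c

/-- The coordinate map. -/
def cm (x : k → (P → ℝ) → ℝ) (y : E → (P → ℝ) → ℝ) (b : P → ℝ) : (k → ℝ) × (E → ℝ) :=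
  (fun i => x i b, fun e => y e b)

/-- General smooth chart at `w`. -/
structure GChart [Fintype k] [Fintype E] (T : Set (P → ℝ)) (w : P → ℝ)
    (x : k → (P → ℝ) → ℝ) (y : E → (P → ℝ) → ℝ) (M : Matroid E) (e0 : E) (U : Set (P → ℝ)) :
    Prop where
  ground : M.E = Set.univ
  loopless : ∀ e, M.Indep {e}
  isOpen : IsOpen U
  hw : w ∈ T
  w_mem : w ∈ U
  inj : Set.InjOn (cm x y) (T ∩ U)
  homeo : ∀ b ∈ T ∩ U, Filter.map (cm x y) (𝓝[T] b) = 𝓝[Mdl k M e0] (cm x y b)
  affx : ∀ b ∈ T ∩ U, ∀ i, x i b ≠ 0 → AffC T b fun b' => Real.log (x i b')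
  affy : ∀ b ∈ T ∩ U, ∀ e, AffC T b (y e)
  aff : ∀ b ∈ T ∩ U, ∀ m : P, b m ≠ 0 → AffX T x y b fun b' => Real.log (b' m)

/-- The box in the model. -/
def Bx (I : Type) {E : Type} (M : Matroid E) (e0 : E) (δ : ℝ) : Set ((I → ℝ) × (E → ℝ)) :=
  {p | (∀ i, 0 ≤ p.1 i ∧ p.1 i < δ) ∧ (∀ e, |p.2 e| < δ) ∧ p.2 e0 = 0 ∧ BergM M p.2}

/-- Chart centred at `w`; `L` is the inverse of the coordinate map. -/
structure LM [Fintype I] [Fintype E] (T : Set (P → ℝ)) (w : P → ℝ)
    (t : I → (P → ℝ) → ℝ) (y : E → (P → ℝ) → ℝ) (M : Matroid E) (e0 : E) (U : Set (P → ℝ))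
    (δ : ℝ) (L : (I → ℝ) × (E → ℝ) → P → ℝ) : Prop where
  ground : M.E = Set.univ
  loopless : ∀ e, M.Indep {e}
  isOpen : IsOpen U
  hw : w ∈ T
  w_mem : w ∈ U
  δpos : 0 < δ
  tw : ∀ i, t i w = 0
  yw : ∀ e, y e w = 0
  maps : ∀ b ∈ T ∩ U, cm t y b ∈ Bx I M e0 δ
  Lmaps : ∀ p ∈ Bx I M e0 δ, L p ∈ T ∩ U
  left : ∀ b ∈ T ∩ U, L (cm t y b) = b
  right : ∀ p ∈ Bx I M e0 δ, cm t y (L p) = p
  cont : ContinuousOn (cm t y) (T ∩ U)
  Lcont : ContinuousOn L (Bx I M e0 δ)
  afft : ∀ b ∈ T ∩ U, ∀ i, t i b ≠ 0 → AffC T b fun b' => Real.log (t i b')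
  affy : ∀ b ∈ T ∩ U, ∀ e, AffC T b (y e)
  aff : ∀ b ∈ T ∩ U, ∀ m : P, b m ≠ 0 → AffX T t y b fun b' => Real.log (b' m)

/-- The elements of `T` are homomorphisms to `[0,∞)`. -/
def IsTr (T : Set (P → ℝ)) : Prop := ∀ b ∈ T, b 0 = 1 ∧ (∀ m m', b (m + m') = b m * b m') ∧
  ∀ m, 0 ≤ b m

/-- The open stratum is dense. -/
def Dns (T : Set (P → ℝ)) : Prop := ∀ b ∈ T, ∀ V ∈ 𝓝 b, ∃ b' ∈ T ∩ V, ∀ m, b' m ≠ 0

/-- The open part of the box. -/
def Om (I : Type) {E : Type} (M : Matroid E) (e0 : E) (δ : ℝ) : Set ((I → ℝ) × (E → ℝ)) :=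
  {p | p ∈ Bx I M e0 δ ∧ ∀ i, 0 < p.1 i}

/-- Affine functions of the logarithmic coordinates. -/
noncomputable def Aff [Fintype I] [Fintype E] (n : I → ℝ) (l : E → ℝ) (c : ℝ)
    (p : (I → ℝ) × (E → ℝ)) : ℝ := ∑ i, n i * Real.log (p.1 i) + ∑ e, l e * p.2 e + c

end Pool.Agent.TD.R


end

section

/-! Block R: elementary consequences of a centred chart (module TD_R_S2). -/

open scoped Topology NNReal

namespace Pool.Agent.TD.R

variable {N I E : Type} [AddCommGroup N] {P : AddSubmonoid N} [Fintype I] [Fintype E]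
  {T : Set (P → ℝ)} {w : P → ℝ} {t : I → (P → ℝ) → ℝ} {y : E → (P → ℝ) → ℝ} {M : Matroid E}
  {e0 : E} {U : Set (P → ℝ)} {δ : ℝ} {L : (I → ℝ) × (E → ℝ) → P → ℝ}

theorem S2.cm_w (h : LM T w t y M e0 U δ L) : cm t y w = (fun _ => 0, fun _ => 0) := by
  unfold cm
  simp only [h.tw, h.yw]

theorem S2.L_zero (h : LM T w t y M e0 U δ L) : L (fun _ => 0, fun _ => 0) = w := by
  rw [← S2.cm_w h]
  exact h.left w ⟨h.hw, h.w_mem⟩

theorem S2.Bx_mono {δ δ' : ℝ} (h : δ' ≤ δ) : Bx I M e0 δ' ⊆ Bx I M e0 δ := by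
  rintro p ⟨h1, h2, h3, h4⟩
  exact ⟨fun i => ⟨(h1 i).1, (h1 i).2.trans_le h⟩, fun e => (h2 e).trans_le h, h3, h4⟩

theorem S2.tendsto_L (h : LM T w t y M e0 U δ L) {b : P → ℝ} (hb : b ∈ T ∩ U) :
    Filter.Tendsto L (𝓝[Bx I M e0 δ] (cm t y b)) (𝓝[T] b) := by
  have h1 : ContinuousWithinAt L (Bx I M e0 δ) (cm t y b) := h.Lcont _ (h.maps b hb)
  have h2 : Filter.Tendsto L (𝓝[Bx I M e0 δ] (cm t y b)) (𝓝 b) := by
    have h3 := h1.tendsto
    rwa [h.left b hb] at h3
  refine tendsto_nhdsWithin_iff.2 ⟨h2, ?_⟩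
  filter_upwards [self_mem_nhdsWithin] with p hp
  exact (h.Lmaps p hp).1

/-- Restriction to smaller neighbourhoods. -/
theorem LM.shrink (h : LM T w t y M e0 U δ L) {V : Set (P → ℝ)} (hV : V ∈ 𝓝[T] w) {η : ℝ}
    (hη : 0 < η) : ∃ (U' : Set (P → ℝ)) (δ' : ℝ), U' ⊆ U ∧ δ' ≤ δ ∧ δ' ≤ η ∧
      LM T w t y M e0 U' δ' L ∧ T ∩ U' ⊆ V := by
  have hw : w ∈ T ∩ U := ⟨h.hw, h.w_mem⟩
  have h1 : L ⁻¹' V ∈ 𝓝[Bx I M e0 δ] (cm t y w) := S2.tendsto_L h hw hV
  rw [Metric.mem_nhdsWithin_iff] at h1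
  obtain ⟨ε, hε, hball⟩ := h1
  set δ' := min δ (min η ε) with hδ'
  have hδ'pos : 0 < δ' := lt_min h.δpos (lt_min hη hε)
  have hle : δ' ≤ δ := min_le_left _ _
  have hleη : δ' ≤ η := (min_le_right _ _).trans (min_le_left _ _)
  have hleε : δ' ≤ ε := (min_le_right _ _).trans (min_le_right _ _)
  have hBall : ∀ p ∈ Bx I M e0 δ', p ∈ Metric.ball (cm t y w) ε ∩ Bx I M e0 δ := by
    intro p hp
    refine ⟨?_, S2.Bx_mono hle hp⟩
    rw [Metric.mem_ball, S2.cm_w h]
    refine lt_of_lt_of_le ?_ hleε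
    rw [Prod.dist_eq, max_lt_iff]
    constructor
    · rw [dist_pi_lt_iff hδ'pos]
      intro i
      rw [Real.dist_eq, sub_zero, abs_of_nonneg (hp.1 i).1]
      exact (hp.1 i).2
    · rw [dist_pi_lt_iff hδ'pos]
      intro e
      rw [Real.dist_eq, sub_zero]
      exact hp.2.1 e
  let O : Set ((I → ℝ) × (E → ℝ)) := {p | (∀ i, p.1 i < δ') ∧ ∀ e, |p.2 e| < δ'}
  have hO : IsOpen O := by
    have e1 : O = (⋂ i, {p : (I → ℝ) × (E → ℝ) | p.1 i < δ'}) ∩
        ⋂ e, {p : (I → ℝ) × (E → ℝ) | |p.2 e| < δ'} := by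
      ext p
      simp [O]
    rw [e1]
    refine (isOpen_iInter_of_finite fun i => ?_).inter (isOpen_iInter_of_finite fun e => ?_)
    · exact isOpen_lt ((continuous_apply i).comp continuous_fst) continuous_const
    · exact isOpen_lt (((continuous_apply e).comp continuous_snd).abs) continuous_const
  obtain ⟨u, hu, hue⟩ := continuousOn_iff'.1 h.cont O hO
  have hmemu : ∀ b ∈ T ∩ U, b ∈ u ↔ cm t y b ∈ O := by
    intro b hb
    constructor
    · intro hbu
      have h2 : b ∈ cm t y ⁻¹' O ∩ (T ∩ U) := by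
        rw [hue]
        exact ⟨hbu, hb⟩
      exact h2.1
    · intro hbO
      have h2 : b ∈ u ∩ (T ∩ U) := by
        rw [← hue]
        exact ⟨hbO, hb⟩
      exact h2.1
  have hsub : T ∩ (u ∩ U) ⊆ T ∩ U := fun b hb => ⟨hb.1, hb.2.2⟩
  have hmaps : ∀ b ∈ T ∩ (u ∩ U), cm t y b ∈ Bx I M e0 δ' := by
    intro b hb
    have hbU : b ∈ T ∩ U := hsub hb
    have h2 := h.maps b hbU
    have h3 : cm t y b ∈ O := (hmemu b hbU).1 hb.2.1
    exact ⟨fun i => ⟨(h2.1 i).1, h3.1 i⟩, h3.2, h2.2.2.1, h2.2.2.2⟩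
  have hLmaps : ∀ p ∈ Bx I M e0 δ', L p ∈ T ∩ (u ∩ U) := by
    intro p hp
    have hpδ := S2.Bx_mono hle hp
    have h2 := h.Lmaps p hpδ
    refine ⟨h2.1, ?_, h2.2⟩
    rw [hmemu _ h2, h.right p hpδ]
    exact ⟨fun i => (hp.1 i).2, hp.2.1⟩
  refine ⟨u ∩ U, δ', Set.inter_subset_right, hle, hleη, ?_, ?_⟩
  · refine
      { ground := h.ground
        loopless := h.loopless
        isOpen := hu.inter h.isOpen
        hw := h.hw
        w_mem := ⟨?_, h.w_mem⟩
        δpos := hδ'pos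
        tw := h.tw
        yw := h.yw
        maps := hmaps
        Lmaps := hLmaps
        left := fun b hb => h.left b (hsub hb)
        right := fun p hp => h.right p (S2.Bx_mono hle hp)
        cont := h.cont.mono hsub
        Lcont := h.Lcont.mono (S2.Bx_mono hle)
        afft := fun b hb => h.afft b (hsub hb)
        affy := fun b hb => h.affy b (hsub hb)
        aff := fun b hb => h.aff b (hsub hb) }
    rw [hmemu w hw, S2.cm_w h]
    exact ⟨fun _ => hδ'pos, fun _ => by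
      show |(0 : ℝ)| < δ'
      rw [abs_zero]
      exact hδ'pos⟩
  · intro b hb
    have h2 := hball (hBall _ (hmaps b hb))
    have h3 : L (cm t y b) ∈ V := h2
    rwa [h.left b (hsub hb)] at h3

/-- The points `L p`, `p → 0`, tend to `w`. -/
theorem LM.L_zero (h : LM T w t y M e0 U δ L) : L (fun _ => 0, fun _ => 0) = w :=
  S2.L_zero h

/-- Convergence to `w` in coordinates. -/
theorem LM.tendsto_iff (h : LM T w t y M e0 U δ L) {ι : Type} {F : Filter ι} {u : ι → P → ℝ}
    (hu : ∀ᶠ j in F, u j ∈ T ∩ U) : Filter.Tendsto u F (𝓝 w) ↔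
      (∀ i, Filter.Tendsto (fun j => t i (u j)) F (𝓝 0)) ∧
        ∀ e, Filter.Tendsto (fun j => y e (u j)) F (𝓝 0) := by
  have hw : w ∈ T ∩ U := ⟨h.hw, h.w_mem⟩
  constructor
  · intro hl
    have h1 : Filter.Tendsto u F (𝓝[T ∩ U] w) := tendsto_nhdsWithin_iff.2 ⟨hl, hu⟩
    have h2 : Filter.Tendsto (fun j => cm t y (u j)) F (𝓝 (cm t y w)) :=
      (h.cont w hw).tendsto.comp h1
    have h3 := (continuous_fst.tendsto _).comp h2
    have h4 := (continuous_snd.tendsto _).comp h2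
    rw [tendsto_pi_nhds] at h3 h4
    constructor
    · intro i
      have h5 := h3 i
      rw [show (cm t y w).1 i = 0 from h.tw i] at h5
      exact h5
    · intro e
      have h5 := h4 e
      rw [show (cm t y w).2 e = 0 from h.yw e] at h5
      exact h5
  · rintro ⟨h1, h2⟩
    have h3 : Filter.Tendsto (fun j => cm t y (u j)) F (𝓝 (cm t y w)) := by
      rw [S2.cm_w h, nhds_prod_eq]
      exact (tendsto_pi_nhds.2 h1).prodMk (tendsto_pi_nhds.2 h2)
    have h4 : Filter.Tendsto (fun j => cm t y (u j)) F (𝓝[Bx I M e0 δ] (cm t y w)) := by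
      refine tendsto_nhdsWithin_iff.2 ⟨h3, ?_⟩
      filter_upwards [hu] with j hj
      exact h.maps _ hj
    have h5 : Filter.Tendsto (fun j => L (cm t y (u j))) F (𝓝[T] w) :=
      (S2.tendsto_L h hw).comp h4
    refine (tendsto_nhds_of_tendsto_nhdsWithin h5).congr' ?_
    filter_upwards [hu] with j hj
    exact h.left _ hj

/-- Functions of the form `AffX` near a point, in the coordinates of the model. -/
theorem LM.affX_model (h : LM T w t y M e0 U δ L) {b : P → ℝ} (hb : b ∈ T ∩ U)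
    (ht : ∀ i, t i b ≠ 0) {g : (P → ℝ) → ℝ} (hg : AffX T t y b g) :
    ∃ (n : I → ℤ) (l : E → ℤ) (c : ℝ), ∀ᶠ p in 𝓝[Om I M e0 δ] (cm t y b),
      g (L p) = Aff (fun i => (n i : ℝ)) (fun e => (l e : ℝ)) c p := by
  have _ := ht
  obtain ⟨n, l, c, _, hg⟩ := hg
  refine ⟨n, l, c, ?_⟩
  have hsub : Om I M e0 δ ⊆ Bx I M e0 δ := fun p hp => hp.1
  have h1 : Filter.Tendsto L (𝓝[Om I M e0 δ] (cm t y b)) (𝓝[T] b) :=
    (S2.tendsto_L h hb).mono_left (nhdsWithin_mono _ hsub)
  filter_upwards [h1.eventually hg, self_mem_nhdsWithin] with p hp hpO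
  have h2 := h.right p (hsub hpO)
  have h3 : ∀ i, t i (L p) = p.1 i := fun i => congrFun (congrArg Prod.fst h2) i
  have h4 : ∀ e, y e (L p) = p.2 e := fun e => congrFun (congrArg Prod.snd h2) e
  rw [hp]
  simp only [h3, h4]
  rfl

/-- The characters of a homomorphism: the set where finitely many generators do not vanish. -/
theorem stratum_open (hT : IsTr T) {G : Finset P} (hG : AddSubmonoid.closure (G : Set P) = ⊤)
    {b : P → ℝ} (hm : ∀ m, b m ≠ 0) : ∀ᶠ b' in 𝓝[T] b, ∀ m, b' m ≠ 0 := by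
  have h1 : ∀ᶠ b' in 𝓝 b, ∀ m ∈ G, b' m ≠ 0 := by
    rw [Filter.eventually_all_finset]
    intro m _
    exact (continuous_apply m).continuousAt.eventually_ne (hm m)
  filter_upwards [mem_nhdsWithin_of_mem_nhds h1, self_mem_nhdsWithin] with b' hb' hbT
  obtain ⟨h0, hmul, -⟩ := hT b' hbT
  intro m
  have hmem : m ∈ AddSubmonoid.closure (G : Set P) := by
    rw [hG]
    trivial
  induction hmem using AddSubmonoid.closure_induction with
  | mem x hx => exact hb' x hx
  | zero =>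
    rw [h0]
    exact one_ne_zero
  | add x y _ _ hx hy =>
    rw [hmul]
    exact mul_ne_zero hx hy

end Pool.Agent.TD.R


end

section

/-!
# Stages 2 + 3: the statements of sections Q, SEP, LP, GP used by section ND (PAPER2.md)
-/

open scoped Topology NNReal

namespace Pool.Agent.TD

/-- (Q6) compact fibres are quasi-finite. -/
def StmtQ6 : Prop := ∀ (K R A : Type) [NormedField K] [IsUltrametricDist K] [CommRing R]
  [CommRing A] [Algebra K R] [Algebra K A] (φ : R →ₐ[K] A), φ.toRingHom.FiniteType →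
  ∀ (z : Ber K A) (Ω V : Set (Ber K A)), IsCompact Ω → IsOpen V →
    Ω = V ∩ {z' | Ber.res φ z' = Ber.res φ z} → z ∈ Ω → Zmp φ z

/-- (Q7) openness. -/
def StmtQ7 : Prop := ∀ (K R A : Type) [NormedField K] [IsUltrametricDist K] [CommRing R]
  [IsDomain R] [IsIntegrallyClosed R] [CommRing A] [IsDomain A] [Algebra K R] [Algebra K A]
  (φ : R →ₐ[K] A), Function.Injective φ → ∀ z : Ber K A, Zmp φ z →
    ∀ V ∈ 𝓝 z, Ber.res φ '' V ∈ 𝓝 (Ber.res φ z)

/-- (Q9) degree one. -/
def StmtQ9 : Prop := ∀ (K R A : Type) [NormedField K] [IsUltrametricDist K] [CommRing R]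
  [IsDomain R] [IsIntegrallyClosed R] [CommRing A] [IsDomain A] [Algebra K R] [Algebra K A]
  (φ : R →ₐ[K] A), Function.Injective φ → φ.toRingHom.FiniteType →
  (∀ a : A, ∃ P : Polynomial R, (P.map (algebraMap R (FractionRing R))).Separable ∧
    P.eval₂ φ.toRingHom a = 0) →
  ∀ (Z : Set (Ber K R)) (F V V1 : Set (Ber K A)) (y0 : Ber K R) (Y1 : Set (Ber K R)),
    IsClosed Z → IsPreconnected Z → IsCompact F → IsOpen V → F = V ∩ Ber.res φ ⁻¹' Z →
    (∀ z ∈ F, Zmp φ z) → y0 ∈ Ber.res φ '' F → y0 ∈ closure Y1 → (∀ z ∈ F, V1 ∈ 𝓝 z) →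
    (∀ y ∈ Y1, y.ker = ⊥ ∧ (∀ z ∈ V1, ∀ z' ∈ V1, Ber.res φ z = y → Ber.res φ z' = y → z = z') ∧
      ∀ z ∈ V1, Ber.res φ z = y → Dens φ z) →
    Set.InjOn (Ber.res φ) F ∧ Ber.res φ '' F = Z ∧ ∀ z ∈ F, Dens φ z

/-- (SEP) separability. -/
def StmtSep : Prop := ∀ (K σ A : Type) [NormedField K] [IsUltrametricDist K] [CompleteSpace K]
  [Finite σ] [CommRing A] [IsDomain A] [Algebra K A] (φ : MvPolynomial σ K →ₐ[K] A) (z : Ber K A)
  (ρ : σ → ℝ≥0), (∀ i, 0 < ρ i) → (∀ P, z.v (φ P) = gn ρ P) → z.ker = ⊥ → Dens φ z →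
  ∀ a : A, (∃ P : Polynomial (MvPolynomial σ K), P ≠ 0 ∧ P.eval₂ φ.toRingHom a = 0) →
    ∃ P : Polynomial (MvPolynomial σ K),
      (P.map (algebraMap (MvPolynomial σ K) (FractionRing (MvPolynomial σ K)))).Separable ∧
        P.eval₂ φ.toRingHom a = 0

/-- (LP) fractions which are bounded near the Gauss point are Laurent polynomials. -/
def StmtLP : Prop := ∀ (K σ : Type) [NormedField K] [IsUltrametricDist K] [Finite σ]
  (ρ : σ → ℝ≥0), (∀ i, 0 < ρ i) → ∀ η : Ber K (MvPolynomial σ K), IsGp ρ η →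
  ∀ b c : MvPolynomial σ K, b ≠ 0 → c ≠ 0 →
    (∀ᶠ y : Ber K (MvPolynomial σ K) in 𝓝 η, (∀ i, y.v (MvPolynomial.X i) = ρ i) →
      y.v b * η.v c ≤ η.v b * y.v c) →
    ∃ (P : MvPolynomial σ K) (u : σ →₀ ℕ),
      η.v (MvPolynomial.monomial u 1 * b - P * c) < η.v (MvPolynomial.monomial u 1 * b)

/-- (GP) Gauss points exist and depend continuously on the radii. -/
def StmtGp : Prop := ∀ (K σ : Type) [NormedField K] [IsUltrametricDist K] [Finite σ],
  ∃ g : (σ → ℝ≥0) → Ber K (MvPolynomial σ K), Continuous g ∧ ∀ ρ, IsGp ρ (g ρ)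

/-- (PATH) increasing paths to the Gauss point. -/
def StmtPath : Prop := ∀ (K σ : Type) [NormedField K] [IsUltrametricDist K] [Finite σ]
  (ρ : σ → ℝ≥0) (η : Ber K (MvPolynomial σ K)), IsGp ρ η → ∀ w : Ber K (MvPolynomial σ K),
  (∀ i, w.v (MvPolynomial.X i) ≤ ρ i) → ∃ γ : ℝ → Ber K (MvPolynomial σ K),
    ContinuousOn γ (Set.Icc 0 1) ∧ γ 0 = w ∧ γ 1 = η ∧ ∀ s ∈ Set.Icc (0 : ℝ) 1, w ≤ γ s ∧ γ s ≤ η

end Pool.Agent.TD


end

section

/-! Matroids (PAPER2.md, MT): values on the closure of an independent set (module TD_MT_C1). -/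

namespace Pool.Agent.TD

variable {E : Type} [Finite E] {M : Matroid E} {y : E → ℝ}

/-- (C1) -/
theorem BergM.closure (hy : BergM M y) {I : Set E} (hI : M.Indep I) (hinj : Set.InjOn y I) {e : E}
    (he : e ∈ M.closure I) (heI : e ∉ I) : ∃ b ∈ M.fundCircuit e I, b ∈ I ∧ y e = y b ∧
      ∀ b' ∈ M.fundCircuit e I, y b' ≤ y b := by
  have hC : M.IsCircuit (M.fundCircuit e I) := hI.fundCircuit_isCircuit he heI
  have heC : e ∈ M.fundCircuit e I := M.mem_fundCircuit e I
  have hsub : ∀ b ∈ M.fundCircuit e I, b ≠ e → b ∈ I := by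
    intro b hb hbe
    rcases M.fundCircuit_subset_insert e I hb with h | h
    · exact absurd h hbe
    · exact h
  obtain ⟨f, hf, hfe, hyf⟩ := hy _ hC e heC
  obtain ⟨b, hb, hmax⟩ := Set.exists_max_image (M.fundCircuit e I \ {e}) y (Set.toFinite _)
    ⟨f, hf, hfe⟩
  have hbI : b ∈ I := hsub b hb.1 hb.2
  have h1 : y e ≤ y b := hyf.trans (hmax f ⟨hf, hfe⟩)
  obtain ⟨g, hg, hgb, hyg⟩ := hy _ hC b hb.1
  have hge : g = e := by
    by_contra hne
    have h2 : y g ≤ y b := hmax g ⟨hg, hne⟩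
    exact hgb (hinj (hsub g hg hne) hbI (le_antisymm h2 hyg))
  rw [hge] at hyg
  refine ⟨b, hb.1, hbI, le_antisymm h1 hyg, ?_⟩
  intro b' hb'
  by_cases hbe : b' = e
  · rw [hbe]
    exact h1
  · exact hmax b' ⟨hb', hbe⟩

/-- (C1), weak form -/
theorem BergM.mem_image (hy : BergM M y) {I : Set E} (hI : M.Indep I) (hinj : Set.InjOn y I) {e : E}
    (he : e ∈ M.closure I) : ∃ b ∈ I, y e = y b := by
  by_cases heI : e ∈ I
  · exact ⟨e, heI, rfl⟩
  · obtain ⟨b, _, hb, h, _⟩ := hy.closure hI hinj he heI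
    exact ⟨b, hb, h⟩

/-- An element with a new value is independent. -/
theorem BergM.insert_indep (hy : BergM M y) (hE : M.E = Set.univ) {I : Set E} (hI : M.Indep I)
    (hinj : Set.InjOn y I) {e : E} (he : ∀ b ∈ I, y e ≠ y b) :
    M.Indep (insert e I) ∧ Set.InjOn y (insert e I) := by
  have heI : e ∉ I := fun h => he e h rfl
  constructor
  · rw [hI.insert_indep_iff_of_notMem heI]
    refine ⟨by rw [hE]; exact Set.mem_univ e, ?_⟩
    intro hcl
    obtain ⟨b, hb, h⟩ := hy.mem_image hI hinj hcl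
    exact he b hb h
  · rw [Set.injOn_insert heI]
    refine ⟨hinj, ?_⟩
    rintro ⟨b, hb, h⟩
    exact he b hb h.symm

/-- (C4) -/
theorem BergM.nonpos (hy : BergM M y) (hE : M.E = Set.univ) {B : Set E} (hB : M.IsBase B)
    (h : ∀ b ∈ B, y b ≤ 0) (e : E) : y e ≤ 0 := by
  by_cases heB : e ∈ B
  · exact h e heB
  · have hC : M.IsCircuit (M.fundCircuit e B) :=
      hB.fundCircuit_isCircuit (by rw [hE]; exact Set.mem_univ e) heB
    obtain ⟨f, hf, hfe, hyf⟩ := hy _ hC e (M.mem_fundCircuit e B)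
    rcases M.fundCircuit_subset_insert e B hf with h1 | h1
    · exact absurd h1 hfe
    · exact hyf.trans (h f h1)

/-- Uniqueness: a point of the tropical linear space is determined by its values on a basis, if
these are different. -/
theorem BergM.eq_of_base {y' : E → ℝ} (hy : BergM M y) (hy' : BergM M y') (hE : M.E = Set.univ)
    {B : Set E} (hB : M.IsBase B) (h : ∀ b ∈ B, y b = y' b) (hinj : Set.InjOn y B) : y = y' := by
  have hinj' : Set.InjOn y' B := by
    intro b hb c hc hbc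
    exact hinj hb hc (by rw [h b hb, h c hc]; exact hbc)
  funext e
  by_cases heB : e ∈ B
  · exact h e heB
  · have hcl : e ∈ M.closure B := by
      rw [hB.closure_eq, hE]
      exact Set.mem_univ e
    obtain ⟨b, hbC, hb, hye, hmax⟩ := hy.closure hB.indep hinj hcl heB
    obtain ⟨b', hbC', hb', hye', hmax'⟩ := hy'.closure hB.indep hinj' hcl heB
    have h1 : y b' ≤ y b := hmax b' hbC'
    have h2 : y' b ≤ y' b' := hmax' b hbC
    rw [← h b hb, ← h b' hb'] at h2
    rw [hye, hye', ← h b' hb']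
    exact le_antisymm h2 h1

end Pool.Agent.TD


end

section

/-! Matroids (PAPER2.md, MT): the section of a basis (module TD_MT_C2). -/

namespace Pool.Agent.TD

variable {E : Type} {M : Matroid E}

namespace MTC2

/-- The part of the fundamental circuit in the basis is not empty. -/
theorem nonempty_D (hE : M.E = Set.univ) (hl : ∀ e, M.Indep {e}) {B : Set E}
    (hB : M.IsBase B) (e : E) : (M.fundCircuit e B ∩ B).Nonempty := by
  by_cases he : e ∈ B
  · exact ⟨e, M.mem_fundCircuit e B, he⟩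
  · have hC : M.IsCircuit (M.fundCircuit e B) :=
      hB.fundCircuit_isCircuit (by rw [hE]; exact Set.mem_univ e) he
    by_contra hne
    rw [Set.not_nonempty_iff_eq_empty] at hne
    have hsub : M.fundCircuit e B ⊆ {e} := by
      intro x hx
      rcases M.fundCircuit_subset_insert e B hx with h | h
      · exact h
      · have h2 : x ∈ M.fundCircuit e B ∩ B := ⟨hx, h⟩
        rw [hne] at h2
        exact absurd h2 (Set.notMem_empty x)
    exact hC.not_indep ((hl e).subset hsub)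

/-- Closure of a part of a basis. -/
theorem mem_closure_iff_D (hE : M.E = Set.univ) {B : Set E} (hB : M.IsBase B) {I : Set E}
    (hI : I ⊆ B) (e : E) : e ∈ M.closure I ↔ M.fundCircuit e B ∩ B ⊆ I := by
  have hIE : ∀ S : Set E, S ⊆ M.E := fun S => by rw [hE]; exact Set.subset_univ S
  by_cases he : e ∈ B
  · rw [Matroid.fundCircuit_eq_of_mem he]
    constructor
    · intro hcl x hx
      obtain ⟨rfl, hxB⟩ := hx
      have h1 := hB.indep.closure_inter_eq_self_of_subset hI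
      rw [← h1]
      exact ⟨hcl, hxB⟩
    · intro h
      exact M.mem_closure_of_mem (h ⟨rfl, he⟩) (hIE I)
  · constructor
    · intro hcl x hx
      have heI : e ∉ I := fun h => he (hI h)
      obtain ⟨C, hCs, hC, heC⟩ := Matroid.exists_isCircuit_of_mem_closure hcl heI
      have h1 : C = M.fundCircuit e B :=
        hC.eq_fundCircuit_of_subset hB.indep (hCs.trans (Set.insert_subset_insert hI))
      have h2 : x ∈ C := by rw [h1]; exact hx.1
      rcases hCs h2 with h3 | h3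
      · rw [h3] at hx
        exact absurd hx.2 he
      · exact h3
    · intro h
      have hC : M.IsCircuit (M.fundCircuit e B) :=
        hB.fundCircuit_isCircuit (by rw [hE]; exact Set.mem_univ e) he
      have h1 := hC.mem_closure_sdiff_singleton_of_mem (M.mem_fundCircuit e B)
      rw [M.fundCircuit_sdiff_eq_inter he] at h1
      exact M.closure_subset_closure h h1

end MTC2

open MTC2 in
/-- (C2) -/
theorem exists_bergM [Finite E] (hE : M.E = Set.univ) (hl : ∀ e, M.Indep {e}) {B : Set E}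
    (hB : M.IsBase B) (u : E → ℝ) : ∃ y : E → ℝ, BergM M y ∧ (∀ b ∈ B, y b = u b) ∧
      (∀ e, ∃ b ∈ B, y e = u b) ∧
      ∀ e ∉ B, ∃ b ∈ M.fundCircuit e B, b ∈ B ∧ y e = u b ∧
        ∀ b' ∈ M.fundCircuit e B, b' ∈ B → u b' ≤ u b := by
  have hex : ∀ e : E, ∃ b ∈ M.fundCircuit e B ∩ B, ∀ b' ∈ M.fundCircuit e B ∩ B, u b' ≤ u b := by
    intro e
    exact Set.exists_max_image _ u (Set.toFinite _) (nonempty_D hE hl hB e)
  choose β hβ hmax using hex
  refine ⟨fun e => u (β e), ?_, ?_, ?_, ?_⟩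
  · intro C hC e he
    by_contra hcon
    push Not at hcon
    have hI : {b | b ∈ B ∧ u b < u (β e)} ⊆ B := fun b hb => hb.1
    have h1 : C \ {e} ⊆ M.closure {b | b ∈ B ∧ u b < u (β e)} := by
      intro f hf
      rw [mem_closure_iff_D hE hB hI]
      intro b hb
      exact ⟨hb.2, (hmax f b hb).trans_lt (hcon f hf.1 hf.2)⟩
    have h2 : e ∈ M.closure {b | b ∈ B ∧ u b < u (β e)} :=
      M.closure_subset_closure_of_subset_closure h1 (hC.mem_closure_sdiff_singleton_of_mem he)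
    rw [mem_closure_iff_D hE hB hI] at h2
    exact lt_irrefl _ (h2 (hβ e)).2
  · intro b hb
    have h := (hβ b).1
    rw [Matroid.fundCircuit_eq_of_mem hb] at h
    show u (β b) = u b
    rw [show β b = b from h]
  · intro e
    exact ⟨β e, (hβ e).2, rfl⟩
  · intro e _
    exact ⟨β e, (hβ e).1, (hβ e).2, rfl, fun b' h1 h2 => hmax e b' ⟨h1, h2⟩⟩

end Pool.Agent.TD


end

section

/-! Matroids (PAPER2.md, MT): exchange, generic points (module TD_MT_C3). -/

namespace Pool.Agent.TD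

variable {E : Type} {M : Matroid E}

theorem base_induction_aux [Finite E] {e0 : E} {P : Set E → Prop}
    (step : ∀ (B : Set E) (b e : E), M.IsBase B → e0 ∈ B → b ∈ B → b ≠ e0 → e ∉ B →
      M.IsBase (insert e (B \ {b})) → P B → P (insert e (B \ {b})))
    {B : Set E} (hB : M.IsBase B) (he : e0 ∈ B) (n : ℕ) : ∀ B' : Set E, M.IsBase B' → e0 ∈ B' →
      P B' → (B' \ B).ncard = n → P B := by
  induction n with
  | zero =>
    intro B' hB' he' hP hn
    have h1 : B' \ B = ∅ := (Set.ncard_eq_zero (Set.toFinite _)).1 hn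
    have h2 : B' ⊆ B := Set.sdiff_eq_empty.1 h1
    rw [← hB'.eq_of_subset_isBase hB h2]
    exact hP
  | succ n ih =>
    intro B' hB' he' hP hn
    have h1 : (B' \ B).Nonempty := by
      rw [Set.nonempty_iff_ne_empty]
      intro h
      rw [h, Set.ncard_empty] at hn
      omega
    obtain ⟨b, hb1, hb2⟩ := h1
    obtain ⟨e, ⟨he1, he2⟩, he3⟩ := hB'.exchange_mem hB hb1 hb2
    have hbe : b ≠ e0 := fun h => hb2 (by rw [h]; exact he)
    have h3 := step B' b e hB' he' hb1 hbe he2 he3 hP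
    refine ih (insert e (B' \ {b})) he3 (Set.mem_insert_of_mem _ ⟨he', fun h => hbe h.symm⟩) h3 ?_
    have h4 : insert e (B' \ {b}) \ B = (B' \ B) \ {b} := by
      ext x
      simp only [Set.mem_sdiff, Set.mem_insert_iff, Set.mem_singleton_iff]
      constructor
      · rintro ⟨h5 | h5, h6⟩
        · exact absurd (by rw [h5]; exact he1) h6
        · exact ⟨⟨h5.1, h6⟩, h5.2⟩
      · rintro ⟨⟨h5, h6⟩, h7⟩
        exact ⟨Or.inr ⟨h5, h7⟩, h6⟩
    have h5 : b ∈ B' \ B := ⟨hb1, hb2⟩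
    rw [h4, Set.ncard_sdiff_singleton_of_mem h5, hn]
    rfl

/-- (C3) -/
theorem base_induction [Finite E] {e0 : E} {P : Set E → Prop} {B0 : Set E} (hB0 : M.IsBase B0)
    (he0 : e0 ∈ B0) (h0 : P B0)
    (step : ∀ (B : Set E) (b e : E), M.IsBase B → e0 ∈ B → b ∈ B → b ≠ e0 → e ∉ B →
      M.IsBase (insert e (B \ {b})) → P B → P (insert e (B \ {b})))
    {B : Set E} (hB : M.IsBase B) (he : e0 ∈ B) : P B :=
  base_induction_aux step hB he _ B0 hB0 he0 h0 rfl

/-- Small different values. -/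
theorem exists_small [Finite E] (e0 : E) {δ : ℝ} (hδ : 0 < δ) : ∃ u : E → ℝ,
    Function.Injective u ∧ u e0 = 0 ∧ ∀ e, |u e| < δ := by
  obtain ⟨N, ⟨f⟩⟩ := Finite.exists_equiv_fin E
  have hN : (0 : ℝ) < N + 1 := by positivity
  have hc : 0 < δ / (N + 1) := by positivity
  refine ⟨fun e => δ / (N + 1) * (((f e : ℕ) : ℝ) - ((f e0 : ℕ) : ℝ)), ?_, by simp, ?_⟩
  · intro x y h
    have h1 : ((f x : ℕ) : ℝ) - ((f e0 : ℕ) : ℝ) = ((f y : ℕ) : ℝ) - ((f e0 : ℕ) : ℝ) :=
      mul_left_cancel₀ hc.ne' h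
    have h2 : ((f x : ℕ) : ℝ) = ((f y : ℕ) : ℝ) := by linarith
    exact f.injective (Fin.ext (by exact_mod_cast h2))
  · intro e
    rw [abs_mul, abs_of_pos hc]
    have h1 : |((f e : ℕ) : ℝ) - ((f e0 : ℕ) : ℝ)| < N + 1 := by
      have h2 : ((f e : ℕ) : ℝ) < N := by exact_mod_cast (f e).2
      have h3 : ((f e0 : ℕ) : ℝ) < N := by exact_mod_cast (f e0).2
      have h4 : (0 : ℝ) ≤ ((f e : ℕ) : ℝ) := Nat.cast_nonneg _
      have h5 : (0 : ℝ) ≤ ((f e0 : ℕ) : ℝ) := Nat.cast_nonneg _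
      rw [abs_lt]
      constructor <;> linarith
    calc δ / (N + 1) * |((f e : ℕ) : ℝ) - ((f e0 : ℕ) : ℝ)| < δ / (N + 1) * (N + 1) :=
          mul_lt_mul_of_pos_left h1 hc
      _ = δ := by field_simp

/-- Small points of the tropical linear space which are generic for a basis. -/
theorem exists_gen [Finite E] (hE : M.E = Set.univ) (hl : ∀ e, M.Indep {e}) {e0 : E} {B : Set E}
    (hB : M.IsBase B) (he0 : e0 ∈ B) {δ : ℝ} (hδ : 0 < δ) : ∃ y : E → ℝ, BergM M y ∧ y e0 = 0 ∧
      (∀ e, |y e| < δ) ∧ Set.InjOn y B := by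
  obtain ⟨u, hu1, hu2, hu3⟩ := exists_small e0 hδ
  obtain ⟨y, hy1, hy2, hy3, -⟩ := exists_bergM hE hl hB u
  refine ⟨y, hy1, by rw [hy2 e0 he0, hu2], fun e => ?_, fun b hb b' hb' h => ?_⟩
  · obtain ⟨b, -, h⟩ := hy3 e
    rw [h]
    exact hu3 b
  · rw [hy2 b hb, hy2 b' hb'] at h
    exact hu1 h

/-- Small points which are generic for two neighbouring bases. -/
theorem exists_gen2 [Finite E] (hE : M.E = Set.univ) (hl : ∀ e, M.Indep {e}) {e0 b e : E}
    {B : Set E} (hB : M.IsBase B) (he0 : e0 ∈ B) (hb : b ∈ B) (hbe : b ≠ e0) (he : e ∉ B)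
    (hB' : M.IsBase (insert e (B \ {b}))) {δ : ℝ} (hδ : 0 < δ) :
    ∃ y : E → ℝ, BergM M y ∧ y e0 = 0 ∧ (∀ e, |y e| < δ) ∧ Set.InjOn y B ∧
      Set.InjOn y (insert e (B \ {b})) := by
  classical
  obtain ⟨v, hv1, hv2, hv3⟩ := exists_small e0 (half_pos hδ)
  set u : E → ℝ := fun x => if x = b then 3 / 4 * δ else v x with hu
  have hub : u b = 3 / 4 * δ := if_pos rfl
  have hun : ∀ x, x ≠ b → u x = v x := fun x hx => if_neg hx
  have hlt : ∀ x, x ≠ b → u x < u b := by
    intro x hx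
    rw [hub, hun x hx]
    have := (abs_lt.1 (hv3 x)).2
    linarith
  have hinj : Function.Injective u := by
    intro x x' h
    by_cases h1 : x = b
    · by_cases h2 : x' = b
      · rw [h1, h2]
      · rw [h1] at h
        exact absurd h (hlt x' h2).ne'
    · by_cases h2 : x' = b
      · rw [h2] at h
        exact absurd h (hlt x h1).ne
      · rw [hun x h1, hun x' h2] at h
        exact hv1 h
  have hsm : ∀ x, |u x| < δ := by
    intro x
    by_cases h1 : x = b
    · rw [h1, hub, abs_of_pos (by positivity)]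
      linarith
    · rw [hun x h1]
      have := hv3 x
      linarith
  obtain ⟨y, hy1, hy2, hy3, hy4⟩ := exists_bergM hE hl hB u
  have hyb : y e = u b := by
    obtain ⟨b1, hb1, hb2, hb3, hb4⟩ := hy4 e he
    have hcirc : b ∈ M.fundCircuit e B := by
      have hecl : e ∈ M.closure B := by
        rw [hB.closure_eq, hE]
        exact Set.mem_univ e
      rw [hB.indep.mem_fundCircuit_iff hecl he]
      refine hB'.indep.subset ?_
      rintro x ⟨hx1 | hx1, hx2⟩
      · exact Or.inl hx1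
      · exact Or.inr ⟨hx1, hx2⟩
    have h1 : b1 = b := by
      by_contra h2
      have h3 := hb4 b hcirc hb
      have h4 := hlt b1 h2
      linarith
    rw [hb3, h1]
  refine ⟨y, hy1, by rw [hy2 e0 he0, hun e0 (fun h => hbe h.symm), hv2], fun x => ?_,
    fun x hx x' hx' h => ?_, ?_⟩
  · obtain ⟨b1, -, h⟩ := hy3 x
    rw [h]
    exact hsm b1
  · rw [hy2 x hx, hy2 x' hx'] at h
    exact hinj h
  · rintro x (rfl | ⟨hx1, hx2⟩) x' (rfl | ⟨hx1', hx2'⟩) h
    · rfl
    · rw [hyb, hy2 x' hx1'] at h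
      exact absurd (hinj h).symm hx2'
    · rw [hyb, hy2 x hx1] at h
      exact absurd (hinj h) hx2
    · rw [hy2 x hx1, hy2 x' hx1'] at h
      exact hinj h

/-- Given values on an independent set extend to a basis: a small point with prescribed different
values on the basis, `y e0 = 0`. -/
theorem exists_gen3 [Finite E] (hE : M.E = Set.univ) (hl : ∀ e, M.Indep {e}) {e0 : E}
    {B : Set E} (hB : M.IsBase B) (he0 : e0 ∈ B) (u : E → ℝ) (hu : u e0 = 0)
    (hinj : Set.InjOn u B) {δ : ℝ} (hδ : ∀ b ∈ B, |u b| < δ) :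
    ∃ y : E → ℝ, BergM M y ∧ y e0 = 0 ∧ (∀ e, |y e| < δ) ∧ Set.InjOn y B ∧ (∀ b ∈ B, y b = u b) ∧
      ∀ e ∉ B, ∃ b ∈ M.fundCircuit e B, b ∈ B ∧ y e = u b ∧
        ∀ b' ∈ M.fundCircuit e B, b' ∈ B → u b' ≤ u b := by
  obtain ⟨y, hy1, hy2, hy3, hy4⟩ := exists_bergM hE hl hB u
  refine ⟨y, hy1, by rw [hy2 e0 he0, hu], fun e => ?_, fun b hb b' hb' h => ?_, hy2, hy4⟩
  · obtain ⟨b, hb, h⟩ := hy3 e
    rw [h]
    exact hδ b hb
  · rw [hy2 b hb, hy2 b' hb'] at h
    exact hinj hb hb' h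

/-- Every independent set containing `e0` lies in a basis; all bases have the same size. -/
theorem ncard_base [Finite E] {B B' : Set E} (hB : M.IsBase B) (hB' : M.IsBase B') :
    B.ncard = B'.ncard := hB.ncard_eq_ncard_of_isBase hB'

/-- An independent set has at most as many elements as a basis, and is a basis if it has the same
number. -/
theorem ncard_indep [Finite E] {B I : Set E} (hB : M.IsBase B) (hI : M.Indep I) :
    I.ncard ≤ B.ncard ∧ (I.ncard = B.ncard → M.IsBase I) := by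
  obtain ⟨B', hB', hI'⟩ := hI.exists_isBase_superset
  have h1 := ncard_base hB hB'
  refine ⟨?_, fun h => ?_⟩
  · rw [h1]
    exact Set.ncard_le_ncard hI' (Set.toFinite _)
  · have h2 : I = B' := Set.eq_of_subset_of_ncard_le hI' (by rw [h, h1]) (Set.toFinite _)
    rw [h2]
    exact hB'

end Pool.Agent.TD


end

section

/-! Local data ND0: elementary consequences (PAPER2.md, ND; module TD_N_BAS). -/

open scoped Topology NNReal

namespace Pool.Agent.TD

section
variable {K A R σ τ : Type} [NormedField K] [CommRing A] [Algebra K A] [CommRing R] [Algebra K R]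

/-- A multiplicative seminorm is determined by its Gauss radii. -/
theorem GaussAt.fam_eq {a : σ → A} {ρ : σ → ℝ≥0} {z z' : Ber K A} (h : GaussAt a ρ z)
    (h' : GaussAt a ρ z') : fam a z = fam a z' := by
  apply Ber.ext_v
  intro P
  rw [fam_v, fam_v, h P, h' P]

theorem gn_X (ρ : σ → ℝ≥0) (i : σ) : gn (K := K) ρ (MvPolynomial.X i) = ρ i := by
  classical
  unfold gn
  rw [MvPolynomial.support_X, Finset.sup_singleton, MvPolynomial.coeff_X, if_pos rfl, nnnorm_one,
    one_mul]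
  exact (Finsupp.prod_single_index (h := fun i n => ρ i ^ n) (pow_zero (ρ i))).trans (pow_one _)

theorem gn_C (ρ : σ → ℝ≥0) (c : K) : gn (K := K) ρ (MvPolynomial.C c) = ‖c‖₊ := by
  classical
  unfold gn
  by_cases hc : c = 0
  · rw [hc, MvPolynomial.C_0, MvPolynomial.support_zero, Finset.sup_empty, nnnorm_zero]
    rfl
  · have h1 : (MvPolynomial.C c : MvPolynomial σ K).support = {0} := by
      rw [MvPolynomial.C_apply, MvPolynomial.support_monomial, if_neg hc]
    rw [h1, Finset.sup_singleton, MvPolynomial.coeff_C, if_pos rfl, Finsupp.prod_zero_index,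
      mul_one]

theorem gn_pos {ρ : σ → ℝ≥0} (hρ : ∀ i, 0 < ρ i) {P : MvPolynomial σ K} (hP : P ≠ 0) :
    0 < gn ρ P := by
  obtain ⟨u, hu⟩ := MvPolynomial.support_nonempty.mpr hP
  have h1 : 0 < ‖P.coeff u‖₊ * u.prod fun i n => ρ i ^ n := by
    apply mul_pos
    · rw [nnnorm_pos]
      exact MvPolynomial.mem_support_iff.mp hu
    · unfold Finsupp.prod
      exact Finset.prod_pos fun i _ => pow_pos (hρ i) _
  exact lt_of_lt_of_le h1 (Finset.le_sup (f := fun u => ‖P.coeff u‖₊ * u.prod fun i n => ρ i ^ n) hu)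

theorem GaussAt.v_eq {a : σ → A} {ρ : σ → ℝ≥0} {z : Ber K A} (h : GaussAt a ρ z) (i : σ) :
    z.v (a i) = ρ i := by
  have h1 := h (MvPolynomial.X i)
  rwa [MvPolynomial.aeval_X, gn_X] at h1

theorem Bas.gn_rename (f : τ → σ) (hf : Function.Injective f) (ρ : σ → ℝ≥0) (P : MvPolynomial τ K) :
    gn ρ (MvPolynomial.rename f P) = gn (fun i => ρ (f i)) P := by
  classical
  unfold gn
  rw [MvPolynomial.support_rename_of_injective hf, Finset.sup_image]
  apply Finset.sup_congr rfl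
  intro u _
  simp only [Function.comp_apply]
  rw [MvPolynomial.coeff_rename_mapDomain f hf]
  congr 1
  exact Finsupp.prod_mapDomain_index_inj hf

/-- The substitution `t = 0`. -/
noncomputable def Bas.sub0 (K τ σ : Type) [NormedField K] :
    MvPolynomial (τ ⊕ σ) K →ₐ[K] MvPolynomial σ K :=
  MvPolynomial.aeval (Sum.elim (fun _ => 0) MvPolynomial.X)

theorem Bas.sub0_rename (Q : MvPolynomial σ K) :
    Bas.sub0 K τ σ (MvPolynomial.rename Sum.inr Q) = Q := by
  unfold Bas.sub0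
  rw [MvPolynomial.aeval_rename]
  have h : (Sum.elim (fun _ : τ => (0 : MvPolynomial σ K)) MvPolynomial.X) ∘ Sum.inr
      = MvPolynomial.X := by
    funext i
    rfl
  rw [h, MvPolynomial.aeval_X_left]
  rfl

theorem Bas.sub0_monomial {w : τ ⊕ σ →₀ ℕ} {i : τ} (hi : w (Sum.inl i) ≠ 0) (c : K) :
    Bas.sub0 K τ σ (MvPolynomial.monomial w c) = 0 := by
  unfold Bas.sub0
  rw [MvPolynomial.aeval_monomial]
  have h : (w.prod fun j n => (Sum.elim (fun _ : τ => (0 : MvPolynomial σ K)) MvPolynomial.X j) ^ n)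
      = 0 := by
    unfold Finsupp.prod
    apply Finset.prod_eq_zero (Finsupp.mem_support_iff.mpr hi)
    exact zero_pow hi
  rw [h, mul_zero]

theorem Bas.inr_cases (w : τ ⊕ σ →₀ ℕ) :
    (∃ i : τ, w (Sum.inl i) ≠ 0) ∨ ∃ u : σ →₀ ℕ, w = u.mapDomain Sum.inr := by
  by_cases h : ∃ i : τ, w (Sum.inl i) ≠ 0
  · exact Or.inl h
  · push Not at h
    refine Or.inr ⟨w.comapDomain Sum.inr Sum.inr_injective.injOn, ?_⟩
    symm
    apply Finsupp.mapDomain_comapDomain Sum.inr Sum.inr_injective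
    intro j hj
    cases j with
    | inl i => exact absurd (h i) (Finsupp.mem_support_iff.mp hj)
    | inr j => exact ⟨j, rfl⟩

theorem Bas.coeff_sub0 (P : MvPolynomial (τ ⊕ σ) K) (u : σ →₀ ℕ) :
    (Bas.sub0 K τ σ P).coeff u = P.coeff (u.mapDomain Sum.inr) := by
  classical
  induction P using MvPolynomial.induction_on' with
  | monomial w c =>
    rcases Bas.inr_cases w with ⟨i, hi⟩ | ⟨u', rfl⟩
    · rw [Bas.sub0_monomial hi, MvPolynomial.coeff_zero, MvPolynomial.coeff_monomial, if_neg]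
      rintro rfl
      apply hi
      apply Finsupp.mapDomain_notin_range
      rintro ⟨j, hj⟩
      exact Sum.inr_ne_inl hj
    · rw [← MvPolynomial.rename_monomial, Bas.sub0_rename, MvPolynomial.rename_monomial,
        MvPolynomial.coeff_monomial, MvPolynomial.coeff_monomial]
      have h : (Finsupp.mapDomain (Sum.inr : σ → τ ⊕ σ) u' = Finsupp.mapDomain Sum.inr u)
          ↔ u' = u := (Finsupp.mapDomain_injective Sum.inr_injective).eq_iff
      by_cases h' : u' = u
      · rw [if_pos h', if_pos (h.mpr h')]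
      · rw [if_neg h', if_neg fun h'' => h' (h.mp h'')]
  | add P Q hP hQ => rw [map_add, MvPolynomial.coeff_add, hP, hQ, MvPolynomial.coeff_add]

theorem Bas.gn_sub0 (ρ : σ → ℝ≥0) (P : MvPolynomial (τ ⊕ σ) K) :
    gn (Sum.elim (fun _ => 0) ρ) P = gn ρ (Bas.sub0 K τ σ P) := by
  have hprod : ∀ u : σ →₀ ℕ, ((u.mapDomain (Sum.inr : σ → τ ⊕ σ)).prod
      fun i n => (Sum.elim (fun _ : τ => (0 : ℝ≥0)) ρ i) ^ n) = u.prod fun i n => ρ i ^ n := fun u =>
    Finsupp.prod_mapDomain_index_inj Sum.inr_injective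
  apply le_antisymm
  · unfold gn
    apply Finset.sup_le
    intro w hw
    rcases Bas.inr_cases w with ⟨i, hi⟩ | ⟨u, rfl⟩
    · have h : (w.prod fun j n => (Sum.elim (fun _ : τ => (0 : ℝ≥0)) ρ j) ^ n) = 0 := by
        unfold Finsupp.prod
        apply Finset.prod_eq_zero (Finsupp.mem_support_iff.mpr hi)
        exact zero_pow hi
      rw [h, mul_zero]
      exact bot_le
    · rw [hprod, ← Bas.coeff_sub0]
      apply Finset.le_sup (f := fun u => ‖(Bas.sub0 K τ σ P).coeff u‖₊ * u.prod fun i n => ρ i ^ n)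
      rw [MvPolynomial.mem_support_iff, Bas.coeff_sub0]
      exact MvPolynomial.mem_support_iff.mp hw
  · unfold gn
    apply Finset.sup_le
    intro u hu
    rw [Bas.coeff_sub0, ← hprod]
    apply Finset.le_sup (f := fun u => ‖P.coeff u‖₊ * u.prod
      fun i n => (Sum.elim (fun _ : τ => (0 : ℝ≥0)) ρ i) ^ n)
    rw [MvPolynomial.mem_support_iff, Bas.coeff_sub0] at hu
    rw [MvPolynomial.mem_support_iff]
    exact hu

theorem Bas.aeval_sub0 (a : σ → A) (P : MvPolynomial (τ ⊕ σ) K) :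
    MvPolynomial.aeval a (Bas.sub0 K τ σ P) = MvPolynomial.aeval (Sum.elim (fun _ => 0) a) P := by
  have h : (MvPolynomial.aeval a).comp (Bas.sub0 K τ σ)
      = (MvPolynomial.aeval (Sum.elim (fun _ => 0) a) : MvPolynomial (τ ⊕ σ) K →ₐ[K] A) := by
    apply MvPolynomial.algHom_ext
    intro i
    rw [AlgHom.comp_apply]
    unfold Bas.sub0
    rw [MvPolynomial.aeval_X, MvPolynomial.aeval_X]
    cases i with
    | inl i => simp
    | inr i => simp
  exact DFunLike.congr_fun h P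

theorem Bas.aeval_ker {z : Ber K A} {b b' : σ → A} (h : ∀ i, z.v (b i - b' i) = 0)
    (P : MvPolynomial σ K) : z.v (MvPolynomial.aeval b P - MvPolynomial.aeval b' P) = 0 := by
  have h1 : (Ideal.Quotient.mkₐ K z.ker).comp (MvPolynomial.aeval b)
      = (Ideal.Quotient.mkₐ K z.ker).comp (MvPolynomial.aeval b') := by
    apply MvPolynomial.algHom_ext
    intro i
    rw [AlgHom.comp_apply, AlgHom.comp_apply, MvPolynomial.aeval_X, MvPolynomial.aeval_X]
    exact Ideal.Quotient.eq.mpr (h i)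
  have h2 := DFunLike.congr_fun h1 P
  exact Ideal.Quotient.eq.mp h2

theorem Bas.v_eq_of_sub {z : Ber K A} {x y : A} (h : z.v (x - y) = 0) : z.v x = z.v y := by
  apply le_antisymm
  · have h1 := z.add (x - y) y
    rw [sub_add_cancel, h] at h1
    exact h1.trans (max_le (z.nonneg y) le_rfl)
  · have h1 := z.add (y - x) x
    rw [sub_add_cancel, z.sub_comm y x, h] at h1
    exact h1.trans (max_le (z.nonneg x) le_rfl)

theorem Bas.continuous_gn (P : MvPolynomial σ K) : Continuous fun ρ : σ → ℝ≥0 => gn ρ P := by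
  unfold gn
  apply Continuous.finset_sup_apply
  intro u _
  apply Continuous.mul continuous_const
  unfold Finsupp.prod
  exact continuous_finset_prod _ fun i _ => (continuous_apply i).pow _

/-- Restriction of a Gauss family to part of the variables. -/
theorem GaussAt.comp {a : σ → A} {ρ : σ → ℝ≥0} {z : Ber K A} (h : GaussAt a ρ z) (f : τ → σ)
    (hf : Function.Injective f) : GaussAt (fun i => a (f i)) (fun i => ρ (f i)) z := by
  intro P
  have h1 := h (MvPolynomial.rename f P)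
  rw [MvPolynomial.aeval_rename, Bas.gn_rename f hf] at h1
  exact h1

/-- Adding variables which vanish. -/
theorem GaussAt.sum_zero {a : σ → A} {ρ : σ → ℝ≥0} {z : Ber K A} (h : GaussAt a ρ z) {t : τ → A}
    (ht : ∀ i, z.v (t i) = 0) : GaussAt (Sum.elim t a) (Sum.elim (fun _ => 0) ρ) z := by
  intro P
  have h1 : z.v (MvPolynomial.aeval (Sum.elim t a) P
      - MvPolynomial.aeval (Sum.elim (fun _ => 0) a) P) = 0 := by
    apply Bas.aeval_ker
    intro i
    cases i with
    | inl i =>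
      show z.v (t i - 0) = 0
      rw [sub_zero, ht i]
    | inr i =>
      show z.v (a i - a i) = 0
      rw [sub_self, z.zero]
  rw [Bas.v_eq_of_sub h1, ← Bas.aeval_sub0, h, Bas.gn_sub0]

/-- The set where a finite family is Gauss is closed. -/
theorem isClosed_gaussAt (a : σ → A) (ρ : σ → ℝ≥0) : IsClosed {z : Ber K A | GaussAt a ρ z} := by
  have h : {z : Ber K A | GaussAt a ρ z}
      = ⋂ P : MvPolynomial σ K, {z : Ber K A | z.v (MvPolynomial.aeval a P) = gn ρ P} := by
    ext z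
    rw [Set.mem_iInter]
    rfl
  rw [h]
  exact isClosed_iInter fun P => isClosed_eq (Ber.continuous_v _) continuous_const

/-- Limits of Gauss points. -/
theorem GaussAt.of_tendsto [Finite σ] {a : σ → A} {ι : Type} {l : Filter ι} [l.NeBot]
    {ρ : ι → σ → ℝ≥0} {ρ0 : σ → ℝ≥0} (hρ : Filter.Tendsto ρ l (𝓝 ρ0)) {z : ι → Ber K A}
    {z0 : Ber K A} (hz : Filter.Tendsto z l (𝓝 z0)) (h : ∀ᶠ i in l, GaussAt a (ρ i) (z i)) :
    GaussAt a ρ0 z0 := by
  intro P
  have h1 : Filter.Tendsto (fun i => (z i).v (MvPolynomial.aeval a P)) l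
      (𝓝 (z0.v (MvPolynomial.aeval a P))) :=
    ((Ber.continuous_v (MvPolynomial.aeval a P)).tendsto z0).comp hz
  have h2 : Filter.Tendsto (fun i => ((gn (ρ i) P : ℝ≥0) : ℝ)) l (𝓝 ((gn ρ0 P : ℝ≥0) : ℝ)) :=
    (((NNReal.continuous_coe).comp (Bas.continuous_gn P)).tendsto ρ0).comp hρ
  refine tendsto_nhds_unique_of_eventuallyEq h1 h2 ?_
  filter_upwards [h] with i hi
  exact hi P

end

namespace NDat

variable {K A I E : Type} [NormedField K] [CommRing A] [Algebra K A] {D : NDat K A I E}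

theorem yc_e0 (hD : D.Ok) (z : Ber K A) : D.yc z D.e0 = 0 := by
  unfold yc
  rw [hD.T0, hD.ρ0, z.one]
  simp

theorem Bas.rd_coe (y : E → ℝ) (e : E) : ((D.rd y e : ℝ≥0) : ℝ) = D.ρ e * Real.exp (y e) := by
  unfold rd
  rw [NNReal.coe_mul, Real.coe_toNNReal _ (Real.exp_pos _).le]

theorem v_T (hD : D.Ok) {z : Ber K A} (hz : z ∈ D.V0) (e : E) :
    z.v (D.T e) = D.rd (D.yc z) e := by
  have h1 : 0 < z.v (D.T e) := lt_of_le_of_ne (z.nonneg _) (hD.Tne z hz e).symm
  have h2 : (0 : ℝ) < D.ρ e := by exact_mod_cast hD.ρpos e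
  rw [Bas.rd_coe]
  unfold yc
  rw [Real.exp_sub, Real.exp_log h1, Real.exp_log h2]
  field_simp

theorem v_T_Fw (hD : D.Ok) {z : Ber K A} (hz : z ∈ D.Fw) (e : E) : z.v (D.T e) = D.ρ e := by
  rw [v_T hD hz.1 e, Bas.rd_coe, hz.2.2 e, Real.exp_zero, mul_one]

theorem yc_of_v (hD : D.Ok) {z : Ber K A} {y : E → ℝ} {e : E} (h : z.v (D.T e) = D.rd y e) :
    D.yc z e = y e := by
  have h2 : (0 : ℝ) < D.ρ e := by exact_mod_cast hD.ρpos e
  unfold yc
  rw [h, Bas.rd_coe, Real.log_mul h2.ne' (Real.exp_pos _).ne', Real.log_exp]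
  ring

/-- `yc` is continuous on `V0`. -/
theorem yc_cont (hD : D.Ok) (e : E) : ContinuousOn (fun z : Ber K A => D.yc z e) D.V0 := by
  unfold yc
  exact ((Ber.continuous_v (D.T e)).continuousOn.log fun z hz => hD.Tne z hz e).sub
    continuousOn_const

theorem isCompact_Fw (hD : D.Ok) : IsCompact D.Fw := by
  have h : D.Fw = D.V0 ∩ ((⋂ i, {z : Ber K A | z.v (D.t i) = 0}) ∩
      ⋂ e, {z : Ber K A | z.v (D.T e) = D.ρ e}) := by
    ext z
    constructor
    · intro hz
      refine ⟨hz.1, Set.mem_iInter.mpr hz.2.1, Set.mem_iInter.mpr fun e => v_T_Fw hD hz e⟩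
    · rintro ⟨h1, h2, h3⟩
      refine ⟨h1, fun i => Set.mem_iInter.mp h2 i, fun e => ?_⟩
      have h4 : z.v (D.T e) = D.ρ e := Set.mem_iInter.mp h3 e
      unfold yc
      rw [h4, sub_self]
  rw [h]
  apply hD.comp.inter_right
  apply IsClosed.inter
  · exact isClosed_iInter fun i => isClosed_eq (Ber.continuous_v _) continuous_const
  · exact isClosed_iInter fun i => isClosed_eq (Ber.continuous_v _) continuous_const

/-- The sets `{|t| < δ, |y| < δ}` form a basis of neighbourhoods of `F_w`. -/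
theorem small [Finite I] [Finite E] (hD : D.Ok) {U : Set (Ber K A)} (hU : IsOpen U)
    (h : D.Fw ⊆ U) : ∃ δ : ℝ, 0 < δ ∧ δ ≤ D.δ0 ∧ ∀ z ∈ D.V0, (∀ i, z.v (D.t i) < δ) →
      (∀ e, |D.yc z e| < δ) → z ∈ U := by
  classical
  cases nonempty_fintype I
  cases nonempty_fintype E
  have hK : IsCompact (D.V0 \ U) := hD.comp.diff hU
  rcases (D.V0 \ U).eq_empty_or_nonempty with he | hne
  · refine ⟨D.δ0, hD.δpos, le_rfl, fun z hz _ _ => ?_⟩
    by_contra hc
    have : z ∈ D.V0 \ U := ⟨hz, hc⟩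
    rw [he] at this
    exact this
  · set m : Ber K A → ℝ := fun z => ∑ i, z.v (D.t i) + ∑ e, |D.yc z e| with hm
    have hmc : ContinuousOn m (D.V0 \ U) := by
      apply ContinuousOn.add
      · exact continuousOn_finset_sum _ fun i _ => (Ber.continuous_v _).continuousOn
      · exact continuousOn_finset_sum _ fun e _ =>
          ((yc_cont hD e).mono Set.diff_subset).abs
    obtain ⟨z0, hz0, hmin⟩ := hK.exists_isMinOn hne hmc
    have hpos : 0 < m z0 := by
      have h0 : 0 ≤ m z0 := add_nonneg (Finset.sum_nonneg fun i _ => z0.nonneg _)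
        (Finset.sum_nonneg fun e _ => abs_nonneg _)
      apply lt_of_le_of_ne h0
      intro h00
      have h1 : 0 ≤ ∑ i, z0.v (D.t i) := Finset.sum_nonneg fun i _ => z0.nonneg _
      have h2 : 0 ≤ ∑ e, |D.yc z0 e| := Finset.sum_nonneg fun e _ => abs_nonneg _
      have h3 : m z0 = ∑ i, z0.v (D.t i) + ∑ e, |D.yc z0 e| := rfl
      have h4 : ∑ i, z0.v (D.t i) = 0 := by linarith
      have h5 : ∑ e, |D.yc z0 e| = 0 := by linarith
      rw [Finset.sum_eq_zero_iff_of_nonneg fun i _ => z0.nonneg _] at h4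
      rw [Finset.sum_eq_zero_iff_of_nonneg fun e _ => abs_nonneg _] at h5
      apply hz0.2
      apply h
      exact ⟨hz0.1, fun i => h4 i (Finset.mem_univ i), fun e => abs_eq_zero.mp (h5 e (Finset.mem_univ e))⟩
    set N : ℝ := (Fintype.card I : ℝ) + Fintype.card E with hN
    have hN0 : 0 ≤ N := by positivity
    have hδ : 0 < m z0 / (N + 1) := by positivity
    refine ⟨min D.δ0 (m z0 / (N + 1)), lt_min hD.δpos hδ, min_le_left _ _, ?_⟩
    intro z hz h1 h2
    by_contra hc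
    have h3 : m z0 ≤ m z := hmin ⟨hz, hc⟩
    have h4 : ∑ i, z.v (D.t i) ≤ (Fintype.card I : ℝ) * (m z0 / (N + 1)) := by
      have := Finset.sum_le_card_nsmul Finset.univ (fun i => z.v (D.t i)) (m z0 / (N + 1))
        fun i _ => ((h1 i).trans_le (min_le_right _ _)).le
      rwa [Finset.card_univ, nsmul_eq_mul] at this
    have h5 : ∑ e, |D.yc z e| ≤ (Fintype.card E : ℝ) * (m z0 / (N + 1)) := by
      have := Finset.sum_le_card_nsmul Finset.univ (fun e => |D.yc z e|) (m z0 / (N + 1))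
        fun i _ => ((h2 i).trans_le (min_le_right _ _)).le
      rwa [Finset.card_univ, nsmul_eq_mul] at this
    have h6 : m z ≤ N * (m z0 / (N + 1)) := by
      have : m z = ∑ i, z.v (D.t i) + ∑ e, |D.yc z e| := rfl
      rw [this, hN, add_mul]
      exact add_le_add h4 h5
    have h7 : N * (m z0 / (N + 1)) < m z0 := by
      have : N * (m z0 / (N + 1)) + m z0 / (N + 1) = m z0 := by field_simp
      linarith
    linarith

/-- Points over the same generic point are in the same facet. -/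
theorem mem_Fry [Finite E] (hD : D.Ok) {B : Set E} {r : I → ℝ≥0} {y : E → ℝ} {δ : ℝ}
    (hB : D.M.IsBase B) (hg : D.Gen δ B r y) {z : Ber K A} (hz : z ∈ D.V0)
    (hr : ∀ i, z.v (D.t i) = r i) (hy : ∀ b ∈ B, D.yc z b = y b) : z ∈ D.Fry r y := by
  have h1 := BergM.eq_of_base hg.berg (hD.berg z hz) hD.ground hB (fun b hb => (hy b hb).symm)
    hg.inj
  exact ⟨hz, hr, fun e => (congrFun h1 e).symm⟩

/-- The same for a point at which the family is Gauss. -/
theorem mem_Fry' [Finite E] (hD : D.Ok) {B : Set E} {r : I → ℝ≥0} {y : E → ℝ} {δ : ℝ}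
    (hB : D.M.IsBase B) (hg : D.Gen δ B r y) {z : Ber K A} (hz : z ∈ D.V0)
    (h : GaussAt (D.vr (B \ {D.e0})) (Sum.elim r fun e => D.rd y e.1) z) : z ∈ D.Fry r y := by
  apply mem_Fry hD hB hg hz
  · intro i
    exact h.v_eq (Sum.inl i)
  · intro b hb
    by_cases hb0 : b = D.e0
    · rw [hb0, yc_e0 hD z, hg.y0]
    · exact yc_of_v hD (h.v_eq (Sum.inr ⟨b, hb, hb0⟩))

/-- Generic points exist. -/
theorem exists_Gen [Finite I] [Finite E] (hD : D.Ok) {B : Set E} (hB : D.M.IsBase B)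
    (he0 : D.e0 ∈ B) {δ : ℝ} (hδ : 0 < δ) : ∃ r y, D.Gen δ B r y := by
  obtain ⟨y, h1, h2, h3, h4⟩ := exists_gen hD.ground hD.loopless hB he0 hδ
  refine ⟨fun _ => (δ / 2).toNNReal, y, ?_, ?_, h1, h2, h3, h4⟩
  · intro _
    exact Real.toNNReal_pos.mpr (by linarith)
  · intro _
    rw [Real.coe_toNNReal _ (by linarith)]
    linarith

theorem Gen.mono {B : Set E} {r : I → ℝ≥0} {y : E → ℝ} {δ δ' : ℝ} (h : D.Gen δ B r y)
    (hδ : δ ≤ δ') : D.Gen δ' B r y := by
  exact ⟨h.rpos, fun i => (h.rlt i).trans_le hδ, h.berg, h.y0, fun e => (h.ylt e).trans_le hδ, h.inj⟩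

/-- A basis containing `e0` exists. -/
theorem exists_base (hD : D.Ok) : ∃ B, D.M.IsBase B ∧ D.e0 ∈ B := by
  obtain ⟨B, hB, hs⟩ := (hD.loopless D.e0).exists_isBase_superset
  exact ⟨B, hB, hs rfl⟩

end NDat

end Pool.Agent.TD


end

section

/-! Nonzero functions do not vanish identically near a point (module TD_X2_DEN). -/

open scoped Topology NNReal

namespace Pool.Agent.TD.X2

variable {K A : Type} [NormedField K] [IsUltrametricDist K] [CommRing A] [IsDomain A]
  [Algebra K A] [Algebra.FiniteType K A]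

/-- the translation `X ↦ X + Y` -/
noncomputable def shAll (K : Type) [NormedField K] (s : ℕ) :
    MvPolynomial (Fin s) K →ₐ[K] MvPolynomial (Fin s) (MvPolynomial (Fin s) K) :=
  MvPolynomial.aeval fun i => MvPolynomial.C (MvPolynomial.X i) + MvPolynomial.X i

theorem shAll_coeff_zero (K : Type) [NormedField K] (s : ℕ) (P : MvPolynomial (Fin s) K) :
    (shAll K s P).coeff 0 = P := by
  have h : ((MvPolynomial.constantCoeff : MvPolynomial (Fin s) (MvPolynomial (Fin s) K) →+*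
      MvPolynomial (Fin s) K).comp (shAll K s).toRingHom) = RingHom.id _ := by
    apply MvPolynomial.ringHom_ext
    · intro r
      have e1 : (shAll K s).toRingHom (MvPolynomial.C r) =
          MvPolynomial.C (MvPolynomial.C r) := by
        show shAll K s (MvPolynomial.C r) = _
        unfold shAll
        rw [MvPolynomial.aeval_C]
        rfl
      rw [RingHom.comp_apply, e1, MvPolynomial.constantCoeff_C]
      rfl
    · intro i
      have e1 : (shAll K s).toRingHom (MvPolynomial.X i) =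
          MvPolynomial.C (MvPolynomial.X i) + MvPolynomial.X i := by
        show shAll K s (MvPolynomial.X i) = _
        unfold shAll
        rw [MvPolynomial.aeval_X]
      rw [RingHom.comp_apply, e1, map_add, MvPolynomial.constantCoeff_C,
        MvPolynomial.constantCoeff_X, add_zero]
      rfl
  exact congrArg (fun F : MvPolynomial (Fin s) K →+* MvPolynomial (Fin s) K => F P) h

/-- some coefficient of the translated polynomial is not in a given prime ideal -/
theorem shAll_coeff_notMem (K : Type) [NormedField K] (s : ℕ)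
    (I : Ideal (MvPolynomial (Fin s) K)) [I.IsPrime] {P : MvPolynomial (Fin s) K} (hP : P ≠ 0) :
    ∃ u, (shAll K s P).coeff u ∉ I := by
  by_contra hc
  push Not at hc
  let q : MvPolynomial (Fin s) K →+* (MvPolynomial (Fin s) K ⧸ I) := Ideal.Quotient.mk I
  let β : MvPolynomial (Fin s) (MvPolynomial (Fin s) K ⧸ I) →+*
      MvPolynomial (Fin s) (MvPolynomial (Fin s) K ⧸ I) :=
    (MvPolynomial.eval₂Hom MvPolynomial.C
      fun i => MvPolynomial.X i - MvPolynomial.C (q (MvPolynomial.X i)))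
  have h : β.comp ((MvPolynomial.map q).comp (shAll K s).toRingHom) =
      MvPolynomial.map (q.comp (MvPolynomial.C : K →+* MvPolynomial (Fin s) K)) := by
    apply MvPolynomial.ringHom_ext
    · intro r
      have e1 : (shAll K s).toRingHom (MvPolynomial.C r) =
          MvPolynomial.C (MvPolynomial.C r) := by
        show shAll K s (MvPolynomial.C r) = _
        unfold shAll
        rw [MvPolynomial.aeval_C]
        rfl
      rw [RingHom.comp_apply, RingHom.comp_apply, e1, MvPolynomial.map_C, MvPolynomial.map_C]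
      show MvPolynomial.eval₂Hom _ _ _ = _
      rw [MvPolynomial.eval₂Hom_C]
      rfl
    · intro i
      have e1 : (shAll K s).toRingHom (MvPolynomial.X i) =
          MvPolynomial.C (MvPolynomial.X i) + MvPolynomial.X i := by
        show shAll K s (MvPolynomial.X i) = _
        unfold shAll
        rw [MvPolynomial.aeval_X]
      rw [RingHom.comp_apply, RingHom.comp_apply, e1, map_add, map_add, MvPolynomial.map_C,
        MvPolynomial.map_X, MvPolynomial.map_X]
      show MvPolynomial.eval₂Hom _ _ _ + MvPolynomial.eval₂Hom _ _ _ = _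
      rw [MvPolynomial.eval₂Hom_C, MvPolynomial.eval₂Hom_X']
      ring
  have h1 : MvPolynomial.map q (shAll K s P) = 0 := by
    ext u
    rw [MvPolynomial.coeff_map, MvPolynomial.coeff_zero]
    exact Ideal.Quotient.eq_zero_iff_mem.2 (hc u)
  have h2 : MvPolynomial.map (q.comp (MvPolynomial.C : K →+* MvPolynomial (Fin s) K)) P = 0 := by
    have e1 := congrArg (fun F : MvPolynomial (Fin s) K →+*
      MvPolynomial (Fin s) (MvPolynomial (Fin s) K ⧸ I) => F P) h
    have e2 : (β.comp ((MvPolynomial.map q).comp (shAll K s).toRingHom)) P =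
        β (MvPolynomial.map q (shAll K s P)) := rfl
    rw [← e1]
    show (β.comp ((MvPolynomial.map q).comp (shAll K s).toRingHom)) P = 0
    rw [e2, h1, map_zero]
  have hinj : Function.Injective (q.comp (MvPolynomial.C : K →+* MvPolynomial (Fin s) K)) :=
    RingHom.injective _
  apply hP
  apply MvPolynomial.map_injective _ hinj
  rw [h2, map_zero]

omit [IsUltrametricDist K] in
/-- the Gauss extension with radii `0` -/
theorem gm_zero {R σ : Type} [CommRing R] [Algebra K R] [Finite σ] (z : Ber K R)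
    (P : MvPolynomial σ R) : (gmp z (fun _ => 0)).v P = z.v (P.coeff 0) := by
  have h0 := gm_le z (fun _ => 0) P 0
  rw [mw_zero, NNReal.coe_one, mul_one] at h0
  apply le_antisymm _ h0
  obtain ⟨u, hu⟩ := gm_ex z (fun _ => 0) P
  by_cases hu0 : u = 0
  · rw [hu, hu0, mw_zero, NNReal.coe_one, mul_one]
  · obtain ⟨i, hi⟩ : ∃ i, u i ≠ 0 := by
      by_contra hc
      push Not at hc
      exact hu0 (Finsupp.ext hc)
    have h1 : mw (fun _ : σ => (0 : ℝ≥0)) u = 0 := by
      unfold mw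
      rw [Finsupp.prod]
      exact Finset.prod_eq_zero (Finsupp.mem_support_iff.2 hi) (zero_pow hi)
    rw [hu, h1, NNReal.coe_zero, mul_zero]
    exact z.nonneg _

/-- The set where a nonzero function does not vanish is dense. -/
theorem exists_ne (h7 : StmtQ7) {f : A} (hf : f ≠ 0) (z : Ber K A) {V : Set (Ber K A)}
    (hV : V ∈ 𝓝 z) : ∃ z' ∈ V, z'.v f ≠ 0 := by
  obtain ⟨s, g, hg, hfin⟩ := exists_finite_inj_algHom_of_fg K A
  have hint : g.toRingHom.IsIntegral := RingHom.Finite.to_isIntegral hfin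
  -- a nonzero multiple of `f`
  obtain ⟨p, hp, hd⟩ : ∃ p : MvPolynomial (Fin s) K, p ≠ 0 ∧ f ∣ g p := by
    let _ : Algebra (MvPolynomial (Fin s) K) A := g.toRingHom.toAlgebra
    have h1 : IsAlgebraic (MvPolynomial (Fin s) K) f :=
      IsIntegral.isAlgebraic (hint f)
    obtain ⟨r, hr, h2⟩ := h1.exists_nonzero_dvd (mem_nonZeroDivisors_of_ne_zero hf)
    exact ⟨r, hr, h2⟩
  have hz : Zmp g z := by
    refine ⟨1, ?_, ?_, ?_⟩
    · rw [z.one]; exact one_ne_zero
    · exact hint 1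
    · intro x
      exact ⟨0, hint _⟩
  have hN := h7 K (MvPolynomial (Fin s) K) A g hg z hz V hV
  set y : Ber K (MvPolynomial (Fin s) K) := Ber.res g z with hy
  have hc : Continuous fun t : ℝ≥0 =>
      Ber.res (shAll K s) (gmp y (fun _ : Fin s => t)) := by
    have h2 : Continuous fun t : ℝ≥0 => (y, fun _ : Fin s => t) :=
      continuous_const.prodMk (continuous_pi fun _ => continuous_id)
    have h3 : Continuous fun t : ℝ≥0 => gmp y (fun _ : Fin s => t) := continuous_gm.comp h2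
    exact (Ber.res_continuous _).comp h3
  have h0 : Ber.res (shAll K s) (gmp y (fun _ : Fin s => (0 : ℝ≥0))) = y := by
    apply Ber.ext_v
    intro a
    rw [Ber.res_v, gm_zero, shAll_coeff_zero]
  have hev : ∀ᶠ t : ℝ≥0 in 𝓝 0,
      Ber.res (shAll K s) (gmp y (fun _ : Fin s => t)) ∈ Ber.res g '' V := by
    have h1 := hc.tendsto 0
    rw [h0] at h1
    exact h1 hN
  obtain ⟨t, ht, htpos⟩ : ∃ t : ℝ≥0,
      Ber.res (shAll K s) (gmp y (fun _ : Fin s => t)) ∈ Ber.res g '' V ∧ 0 < t := by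
    have h1 : ∀ᶠ t : ℝ≥0 in 𝓝[>] 0,
        Ber.res (shAll K s) (gmp y (fun _ : Fin s => t)) ∈ Ber.res g '' V :=
      hev.filter_mono nhdsWithin_le_nhds
    exact (h1.and self_mem_nhdsWithin).exists
  obtain ⟨z', hz'V, hz'⟩ := ht
  refine ⟨z', hz'V, ?_⟩
  intro hzf
  obtain ⟨h, hh⟩ := hd
  have e1 : z'.v (g p) = 0 := by
    rw [hh, z'.mul, hzf, zero_mul]
  have e2 : (Ber.res g z').v p = 0 := e1
  rw [hz', Ber.res_v] at e2
  obtain ⟨u, hu⟩ := shAll_coeff_notMem K s y.ker hp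
  have e3 := gm_le y (fun _ : Fin s => t) (shAll K s p) u
  rw [e2] at e3
  have e4 : 0 < y.v ((shAll K s p).coeff u) := lt_of_le_of_ne (y.nonneg _) (Ne.symm hu)
  have e5 : (0 : ℝ) < mw (fun _ : Fin s => t) u := by
    exact_mod_cast mw_pos (fun _ => htpos) u
  exact absurd e3 (not_le.2 (mul_pos e4 e5))

end Pool.Agent.TD.X2


end

section

/-! Matroids: the tropical linear space is an affine space near a generic point (module
TD_X2_LL). -/

namespace Pool.Agent.TD

/-- The differences of the values on a set on which `y` is injective are bounded below. -/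
theorem LL.exists_gap {E : Type} [Finite E] {y : E → ℝ} {B : Set E} (hinj : Set.InjOn y B) :
    ∃ g : ℝ, 0 < g ∧ ∀ b ∈ B, ∀ b' ∈ B, b ≠ b' → g ≤ |y b - y b'| := by
  rcases Set.eq_empty_or_nonempty {p : E × E | p.1 ∈ B ∧ p.2 ∈ B ∧ p.1 ≠ p.2} with h | h
  · refine ⟨1, one_pos, fun b hb b' hb' hne => ?_⟩
    have : (b, b') ∈ {p : E × E | p.1 ∈ B ∧ p.2 ∈ B ∧ p.1 ≠ p.2} := ⟨hb, hb', hne⟩
    rw [h] at this
    exact absurd this (Set.notMem_empty _)
  · obtain ⟨p, hp, hmin⟩ := Set.exists_min_image _ (fun p : E × E => |y p.1 - y p.2|)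
      (Set.toFinite _) h
    refine ⟨|y p.1 - y p.2|, ?_, fun b hb b' hb' hne => hmin (b, b') ⟨hb, hb', hne⟩⟩
    rw [abs_pos, sub_ne_zero]
    intro he
    exact hp.2.2 (hinj hp.1 hp.2.1 he)

/-- Near a point which is injective on a basis `B` the tropical linear space is given by the
equations `y e = y (β e)`. -/
theorem BergM.locally_linear {E : Type} [Finite E] {M : Matroid E} {y : E → ℝ}
    (hE : M.E = Set.univ) (hl : ∀ e, M.Indep {e}) (hy : BergM M y) {B : Set E}
    (hB : M.IsBase B) (hinj : Set.InjOn y B) : ∃ β : E → E, (∀ e, β e ∈ B) ∧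
      (∀ b ∈ B, β b = b) ∧ ∃ δ : ℝ, 0 < δ ∧ ∀ y' : E → ℝ, (∀ e, |y' e - y e| < δ) →
        (BergM M y' ↔ ∀ e, y' e = y' (β e)) := by
  classical
  have hcl : ∀ e, e ∈ M.closure B := by
    intro e
    rw [hB.closure_eq, hE]
    exact Set.mem_univ e
  have hex : ∀ e : E, ∃ b ∈ B, (e ∈ B → b = e) ∧ (e ∉ B → b ∈ M.fundCircuit e B ∧
      ∀ b' ∈ M.fundCircuit e B, y b' ≤ y b) := by
    intro e
    by_cases he : e ∈ B
    · exact ⟨e, he, fun _ => rfl, fun h => absurd he h⟩
    · obtain ⟨b, h1, h2, h3, h4⟩ := hy.closure hB.indep hinj (hcl e) he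
      exact ⟨b, h2, fun h => absurd h he, fun _ => ⟨h1, h4⟩⟩
  choose β hβB hβe hβm using hex
  obtain ⟨g, hg, hgap⟩ := LL.exists_gap hinj
  refine ⟨β, hβB, fun b hb => hβe b hb, g / 3, by positivity, ?_⟩
  intro y' hy'
  have habs : ∀ e, y' e - y e < g / 3 ∧ y e - y' e < g / 3 := by
    intro e
    have := abs_lt.mp (hy' e)
    constructor <;> linarith [this.1, this.2]
  have hinj' : Set.InjOn y' B := by
    intro b hb b' hb' he
    by_contra hne
    have h1 := hgap b hb b' hb' hne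
    have h2 := habs b
    have h3 := habs b'
    rcases abs_cases (y b - y b') with ⟨h4, _⟩ | ⟨h4, _⟩ <;> linarith
  have hlt : ∀ e ∉ B, ∀ b ∈ M.fundCircuit e B, b ∈ B → b ≠ β e → y' b < y' (β e) := by
    intro e he b hb hbB hne
    have h1 := (hβm e he).2 b hb
    have h2 := hgap b hbB (β e) (hβB e) hne
    rw [abs_of_nonpos (by linarith)] at h2
    have h3 := habs b
    have h4 := habs (β e)
    linarith
  constructor
  · intro hb e
    by_cases he : e ∈ B
    · rw [hβe e he]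
    · obtain ⟨b, h1, h2, h3, h4⟩ := hb.closure hB.indep hinj' (hcl e) he
      have h5 := h4 _ (hβm e he).1
      have h6 : b = β e := by
        by_contra hne
        exact absurd (hlt e he b h1 h2 hne) (not_lt.mpr h5)
      rw [h3, h6]
  · intro he
    obtain ⟨z, hz1, hz2, -, hz4⟩ := exists_bergM hE hl hB y'
    have hzy : z = y' := by
      funext e
      by_cases heB : e ∈ B
      · exact hz2 e heB
      · obtain ⟨b, h1, h2, h3, h4⟩ := hz4 e heB
        have h5 := h4 _ (hβm e heB).1 (hβB e)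
        have h6 : b = β e := by
          by_contra hne
          exact absurd (hlt e heB b h1 h2 hne) (not_lt.mpr h5)
        rw [h3, h6, ← he e]
    rw [← hzy]
    exact hz1

end Pool.Agent.TD


end
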