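import Mathlib
import Pool.Agent.DolbM.C02
import Pool.Agent.DolbM.C18
import Pool.Agent.TD.N.Defs

/-! Parts: TD.FA.Qn, TD.R.A1, TD.MT.C5, TD.R.A2, TD.R.S3, TD.R.S4, TD.FA.Dns, TD.FA.Gau, TD.FA.Top, TD.MT.C6, TD.R.S1 -/

section

/-! Facets (PAPER2.md, FA): elementary properties of the quotient norm (module TD_FA_QN). -/

open scoped Topology NNReal

namespace Pool.Agent.TD.FA

namespace Qn

section
variable {K A N : Type} [NormedField K] [CommRing A] [Algebra K A] {chi : N → A}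

theorem ev_eq (F : N →₀ K) : ev chi F = Finsupp.linearCombination K chi F := by
  unfold ev
  rw [Finsupp.linearCombination_apply]
  refine Finsupp.sum_congr fun m _ => ?_
  rw [Algebra.smul_def]

theorem nrm_single_le (wt : N → ℝ≥0) (m : N) (c : K) :
    BG.nrm wt (Finsupp.single m c) ≤ ‖c‖₊ * wt m := by
  classical
  rw [BG.nrm_le_iff]
  intro u
  by_cases h : m = u
  · subst h
    rw [Finsupp.single_eq_same]
  · rw [Finsupp.single_eq_of_ne (Ne.symm h), nnnorm_zero, zero_mul]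
    exact bot_le

theorem sum_lt {ι : Type} (z : Ber K A) (s : Finset ι) (f : ι → A) {M : ℝ} (hM : 0 < M)
    (h : ∀ i ∈ s, z.v (f i) < M) : z.v (∑ i ∈ s, f i) < M := by
  classical
  induction s using Finset.induction_on with
  | empty => simpa [z.zero] using hM
  | insert i s hi ih =>
    rw [Finset.sum_insert hi]
    refine (z.add _ _).trans_lt (max_lt (h i (Finset.mem_insert_self i s)) (ih fun j hj => ?_))
    exact h j (Finset.mem_insert_of_mem hj)

theorem coe_wt (w : N → ℝ) (m : N) : ((wt w m : ℝ≥0) : ℝ) = Real.exp (w m) :=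
  Real.coe_toNNReal _ (Real.exp_pos _).le

theorem v_term {w : N → ℝ} {z : Ber K A} (hz : z ∈ Fib K chi w) (c : K) (m : N) :
    z.v (algebraMap K A c * chi m) = ((‖c‖₊ * wt w m : ℝ≥0) : ℝ) := by
  rw [z.mul, z.ext, hz m, NNReal.coe_mul, coe_wt, coe_nnnorm]

end

end Qn

open Qn

variable {K A N σ : Type} [NormedField K] [IsUltrametricDist K] [CommRing A] [Algebra K A]
  [AddCommGroup N] {chi : N → A} {w : N →+ ℝ}

theorem qn_le (F : N →₀ K) : qn (K := K) chi w (ev chi F) ≤ BG.nrm (wt w) F := by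
  exact csInf_le' ⟨F, rfl, rfl⟩

theorem exists_lt (hs : ∀ a : A, ∃ F : N →₀ K, ev chi F = a) (a : A) {ε : ℝ≥0} (hε : 0 < ε) :
    ∃ F : N →₀ K, ev chi F = a ∧ BG.nrm (wt w) F < qn (K := K) chi w a + ε := by
  obtain ⟨F0, hF0⟩ := hs a
  have h1 : sInf {s | ∃ F : N →₀ K, ev chi F = a ∧ s = BG.nrm (wt w) F} <
      qn (K := K) chi w a + ε := lt_add_of_pos_right _ hε
  have hne : {s | ∃ F : N →₀ K, ev chi F = a ∧ s = BG.nrm (wt w) F}.Nonempty :=
    ⟨BG.nrm (wt w) F0, F0, hF0, rfl⟩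
  obtain ⟨s, ⟨F, hF, rfl⟩, hlt⟩ := exists_lt_of_csInf_lt hne h1
  exact ⟨F, hF, hlt⟩

theorem qn_add (hs : ∀ a : A, ∃ F : N →₀ K, ev chi F = a) (a b : A) :
    qn (K := K) chi w (a + b) ≤ max (qn (K := K) chi w a) (qn (K := K) chi w b) := by
  refine le_of_forall_pos_le_add fun ε hε => ?_
  obtain ⟨F, hF, h1⟩ := exists_lt (w := w) hs a hε
  obtain ⟨G, hG, h2⟩ := exists_lt (w := w) hs b hε
  have h3 : ev chi (F + G) = a + b := by
    rw [ev_eq, map_add, ← ev_eq, ← ev_eq, hF, hG]
  rw [← h3]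
  refine (qn_le _).trans ((BG.nrm_add_le F G).trans (max_le ?_ ?_))
  · exact h1.le.trans (add_le_add_left (le_max_left _ _) _)
  · exact h2.le.trans (add_le_add_left (le_max_right _ _) _)

theorem qn_neg (a : A) : qn (K := K) chi w (-a) = qn (K := K) chi w a := by
  unfold qn
  congr 1
  ext s
  constructor
  · rintro ⟨F, hF, rfl⟩
    refine ⟨-F, ?_, (BG.nrm_neg F).symm⟩
    rw [ev_eq, map_neg, ← ev_eq, hF, neg_neg]
  · rintro ⟨F, hF, rfl⟩
    refine ⟨-F, ?_, (BG.nrm_neg F).symm⟩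
    rw [ev_eq, map_neg, ← ev_eq, hF]

theorem qn_zero : qn (K := K) chi w 0 = 0 := by
  have h := qn_le (K := K) (chi := chi) (w := w) 0
  rw [ev_eq, map_zero, BG.nrm_zero] at h
  exact le_antisymm h bot_le

theorem qn_mul (h0 : chi 0 = 1) (hm : ∀ m m', chi (m + m') = chi m * chi m')
    (hs : ∀ a : A, ∃ F : N →₀ K, ev chi F = a) (a b : A) :
    qn (K := K) chi w (a * b) ≤ qn (K := K) chi w a * qn (K := K) chi w b := by
  have key : ∀ F G : N →₀ K, ev chi F = a → ev chi G = b →
      qn (K := K) chi w (a * b) ≤ BG.nrm (wt w) F * BG.nrm (wt w) G := by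
    intro F G hF hG
    let H : N →₀ K := ∑ m ∈ F.support, ∑ m' ∈ G.support, Finsupp.single (m + m') (F m * G m')
    have hH : ev chi H = a * b := by
      rw [ev_eq, map_sum]
      have h1 : ∀ m ∈ F.support, Finsupp.linearCombination K chi
          (∑ m' ∈ G.support, Finsupp.single (m + m') (F m * G m')) =
          ∑ m' ∈ G.support, (algebraMap K A (F m) * chi m) * (algebraMap K A (G m') * chi m') := by
        intro m _
        rw [map_sum]
        refine Finset.sum_congr rfl fun m' _ => ?_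
        rw [Finsupp.linearCombination_single, hm, Algebra.smul_def, map_mul]
        ring
      rw [Finset.sum_congr rfl h1, ← Finset.sum_mul_sum, ← hF, ← hG]
      rfl
    rw [← hH]
    refine (qn_le _).trans ((BG.nrm_sum_le _ _).trans (Finset.sup_le fun m _ => ?_))
    refine (BG.nrm_sum_le _ _).trans (Finset.sup_le fun m' _ => ?_)
    refine (nrm_single_le _ _ _).trans ?_
    have h2 : wt w (m + m') = wt w m * wt w m' := by
      apply NNReal.eq
      rw [NNReal.coe_mul, coe_wt, coe_wt, coe_wt, map_add, Real.exp_add]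
    rw [nnnorm_mul, h2]
    calc ‖F m‖₊ * ‖G m'‖₊ * (wt w m * wt w m')
        = (‖F m‖₊ * wt w m) * (‖G m'‖₊ * wt w m') := by ring
      _ ≤ _ := mul_le_mul' (BG.le_nrm F m) (BG.le_nrm G m')
  have ht : Filter.Tendsto (fun ε : ℝ≥0 => (qn (K := K) chi w a + ε) * (qn (K := K) chi w b + ε))
      (𝓝[>] 0) (𝓝 ((qn (K := K) chi w a + 0) * (qn (K := K) chi w b + 0))) :=
    (Continuous.tendsto (by fun_prop) 0).mono_left nhdsWithin_le_nhds
  rw [add_zero, add_zero] at ht
  refine ge_of_tendsto ht ?_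
  filter_upwards [self_mem_nhdsWithin] with ε hε
  obtain ⟨F, hF, h1⟩ := exists_lt (w := w) hs a hε
  obtain ⟨G, hG, h2⟩ := exists_lt (w := w) hs b hε
  exact (key F G hF hG).trans (mul_le_mul' h1.le h2.le)

theorem qn_chi (m : N) : (qn (K := K) chi w (chi m) : ℝ) ≤ Real.exp (w m) := by
  have h := qn_le (K := K) (chi := chi) (w := w) (Finsupp.single m 1)
  rw [ev_eq, Finsupp.linearCombination_single, one_smul] at h
  have h1 := h.trans (nrm_single_le _ _ _)
  rw [nnnorm_one, one_mul] at h1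
  rw [← coe_wt]
  exact_mod_cast h1

theorem qn_C (h0 : chi 0 = 1) (c : K) : (qn (K := K) chi w (algebraMap K A c) : ℝ) ≤ ‖c‖ := by
  have h := qn_le (K := K) (chi := chi) (w := w) (Finsupp.single 0 c)
  rw [ev_eq, Finsupp.linearCombination_single, h0, Algebra.smul_def, mul_one] at h
  have h1 := h.trans (nrm_single_le _ _ _)
  have h2 : wt w 0 = 1 := by
    apply NNReal.eq
    rw [coe_wt, map_zero, Real.exp_zero, NNReal.coe_one]
  rw [h2, mul_one] at h1
  rw [← coe_nnnorm]
  exact_mod_cast h1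

/-- Points of the fibre are bounded by the quotient norm. -/
theorem v_le_qn (hs : ∀ a : A, ∃ F : N →₀ K, ev chi F = a) {z : Ber K A} (hz : z ∈ Fib K chi w)
    (a : A) : z.v a ≤ qn (K := K) chi w a := by
  have h1 : (z.v a).toNNReal ≤ qn (K := K) chi w a := by
    obtain ⟨F0, hF0⟩ := hs a
    have hne : {s | ∃ F : N →₀ K, ev chi F = a ∧ s = BG.nrm (wt w) F}.Nonempty :=
      ⟨BG.nrm (wt w) F0, F0, hF0, rfl⟩
    refine le_csInf hne ?_
    rintro _ ⟨F, hF, rfl⟩
    rw [← NNReal.coe_le_coe, Real.coe_toNNReal _ (z.nonneg a), ← hF]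
    refine z.sum_le F.support _ (NNReal.coe_nonneg _) fun m _ => ?_
    rw [v_term hz, NNReal.coe_le_coe]
    exact BG.le_nrm F m
  rw [← NNReal.coe_le_coe, Real.coe_toNNReal _ (z.nonneg a)] at h1
  exact h1

/-- A combination of characters which is zero in `A` is not single at a point with non-empty
fibre. -/
theorem not_single {w' : N → ℝ} {z : Ber K A} (hz : z ∈ Fib K chi w') {F : N →₀ K}
    (hF : ev chi F = 0) (m : N) : ¬ BG.Single (wt w') F m := by
  classical
  rintro ⟨h1, h2⟩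
  have hm : m ∈ F.support := Finsupp.mem_support_iff.2 h1
  have hpos : 0 < ((‖F m‖₊ * wt w' m : ℝ≥0) : ℝ) := by
    rw [NNReal.coe_mul, coe_wt, coe_nnnorm]
    exact mul_pos (norm_pos_iff.2 h1) (Real.exp_pos _)
  have h3 : ev chi F = algebraMap K A (F m) * chi m +
      ∑ m' ∈ F.support.erase m, algebraMap K A (F m') * chi m' := by
    rw [Finset.add_sum_erase F.support (fun m' => algebraMap K A (F m') * chi m') hm]
    rfl
  have h4 : z.v (∑ m' ∈ F.support.erase m, algebraMap K A (F m') * chi m') <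
      z.v (algebraMap K A (F m) * chi m) := by
    rw [v_term hz]
    refine sum_lt z _ _ hpos fun m' hm' => ?_
    rw [v_term hz, NNReal.coe_lt_coe]
    exact h2 m' (Finset.ne_of_mem_erase hm')
  have h5 := z.add_eq h4
  rw [← h3, hF, z.zero, v_term hz] at h5
  exact hpos.ne h5

end Pool.Agent.TD.FA


end

section

/-! Block R: locally affine functions on intervals (module TD_R_A1). -/

open scoped Topology

namespace Pool.Agent.TD.R

/-- two affine functions which agree on an interval with more than one point near a point -/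
private theorem coef_eq {J : Set ℝ} (hJ : IsPreconnected J) (hn : J.Nontrivial) {t α β α' β' : ℝ}
    (ht : t ∈ J) (h1 : ∀ᶠ s in 𝓝[J] t, α * s + β = α' * s + β') : α = α' ∧ β = β' := by
  have hacc := hJ.preperfect_of_nontrivial hn t ht
  have h2 : ∀ᶠ s in 𝓝[≠] t ⊓ Filter.principal J, s ∈ J ∧ s ≠ t ∧ α * s + β = α' * s + β' := by
    have e1 : ∀ᶠ s in 𝓝[≠] t ⊓ Filter.principal J, s ∈ J :=
      Filter.Eventually.filter_mono inf_le_right (Filter.eventually_principal.mpr fun _ h => h)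
    have e2 : ∀ᶠ s in 𝓝[≠] t ⊓ Filter.principal J, s ≠ t :=
      Filter.Eventually.filter_mono inf_le_left self_mem_nhdsWithin
    have e3 : ∀ᶠ s in 𝓝[≠] t ⊓ Filter.principal J, α * s + β = α' * s + β' := by
      refine Filter.Eventually.filter_mono ?_ h1
      exact inf_le_inf_right _ nhdsWithin_le_nhds
    filter_upwards [e1, e2, e3] with s a b c using ⟨a, b, c⟩
  have : (𝓝[≠] t ⊓ Filter.principal J).NeBot := hacc
  obtain ⟨s, -, hst, hs⟩ := h2.exists
  have h0 := h1.self_of_nhdsWithin ht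
  have hd : (α - α') * (s - t) = 0 := by linear_combination hs - h0
  have hα : α = α' := by
    rcases mul_eq_zero.mp hd with h | h
    · linarith
    · exact absurd (by linarith : s = t) hst
  refine ⟨hα, ?_⟩
  rw [hα] at h0
  linarith

/-- A locally affine function on an interval is determined by its germ at a point. -/
theorem affine_of_germ {J : Set ℝ} (hJ : J.OrdConnected) {h : ℝ → ℝ}
    (hh : ∀ s ∈ J, ∃ α β : ℝ, ∀ᶠ s' in 𝓝[J] s, h s' = α * s' + β) {s0 α β : ℝ} (hs0 : s0 ∈ J)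
    (h0 : ∀ᶠ s' in 𝓝[J] s0, h s' = α * s' + β) : ∀ s ∈ J, h s = α * s + β := by
  rcases J.subsingleton_or_nontrivial with hsub | hn
  · intro s hs
    rw [hsub hs hs0]
    exact h0.self_of_nhdsWithin hs0
  · have hp : IsPreconnected J := hJ.isPreconnected
    have : PreconnectedSpace J := Subtype.preconnectedSpace hp
    let S : Set J := {s | ∀ᶠ t : J in 𝓝 s, h t = α * t + β}
    have key : ∀ (s : J) (p : ℝ → Prop), (∀ᶠ t in 𝓝[J] (s : ℝ), p t) ↔ ∀ᶠ t : J in 𝓝 s, p t := by
      intro s p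
      rw [nhdsWithin_eq_map_subtype_coe s.2, Filter.eventually_map]
    have hopen : IsOpen S := isOpen_setOfPred_eventually_nhds
    have hclosed : IsClosed S := by
      rw [← closure_subset_iff_isClosed]
      intro s hs
      obtain ⟨α', β', h1⟩ := hh s s.2
      rw [key s (fun t => h t = α' * t + β')] at h1
      have h2 := eventually_eventually_nhds.mpr h1
      obtain ⟨t, ht1, ht2⟩ := (mem_closure_iff_frequently.mp hs).and_eventually h2 |>.exists
      have h3 : ∀ᶠ u in 𝓝[J] (t : ℝ), α * u + β = α' * u + β' := by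
        rw [key t (fun u => α * u + β = α' * u + β')]
        have ht1' : ∀ᶠ u : J in 𝓝 t, h u = α * u + β := ht1
        filter_upwards [ht1', ht2] with u a b
        rw [← a, b]
      obtain ⟨ha, hb⟩ := coef_eq hp hn t.2 h3
      rw [← ha, ← hb] at h1
      exact h1
    have huniv : S = Set.univ := by
      refine IsClopen.eq_univ ⟨hclosed, hopen⟩ ⟨⟨s0, hs0⟩, ?_⟩
      exact (key ⟨s0, hs0⟩ (fun t => h t = α * t + β)).mp h0
    intro s hs
    have hmem : (⟨s, hs⟩ : J) ∈ S := by rw [huniv]; trivial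
    have hmem2 : ∀ᶠ t : J in 𝓝 (⟨s, hs⟩ : J), h t = α * t + β := hmem
    exact hmem2.self_of_nhds

/-- A locally affine function on an interval is affine. -/
theorem affine_of_locally {J : Set ℝ} (hJ : J.OrdConnected) {h : ℝ → ℝ}
    (hh : ∀ s ∈ J, ∃ α β : ℝ, ∀ᶠ s' in 𝓝[J] s, h s' = α * s' + β) :
    ∃ α β : ℝ, ∀ s ∈ J, h s = α * s + β := by
  rcases J.eq_empty_or_nonempty with rfl | ⟨s0, hs0⟩
  · exact ⟨0, 0, fun s hs => absurd hs (Set.notMem_empty s)⟩
  · obtain ⟨α, β, h0⟩ := hh s0 hs0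
    exact ⟨α, β, affine_of_germ hJ hh hs0 h0⟩

end Pool.Agent.TD.R


end

section

/-! Matroids (PAPER2.md, MT): the local structure of a tropical linear space
(module TD_MT_C5). -/

namespace Pool.Agent.TD

variable {E : Type} {M : Matroid E}

/-- Symmetric exchange. -/
theorem symm_exchange [Finite E] {B B' : Set E} (hB : M.IsBase B) (hB' : M.IsBase B') {x : E}
    (hx : x ∈ B \ B') : ∃ y ∈ B' \ B, M.IsBase (insert y (B \ {x})) ∧
      M.IsBase (insert x (B' \ {y})) := by
  have hxE : x ∈ M.E := hB.subset_ground hx.1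
  have hC := hB'.fundCircuit_isCircuit hxE hx.2
  have hK := M.fundCocircuit_isCocircuit hx.1 hB
  have hxC : x ∈ M.fundCircuit x B' := M.mem_fundCircuit x B'
  have hxK : x ∈ M.fundCocircuit x B := M.mem_fundCocircuit x B
  obtain ⟨y, ⟨hyC, hyK⟩, hyx⟩ :=
    (hC.isCocircuit_inter_nontrivial hK ⟨x, hxC, hxK⟩).exists_ne x
  have hyB' : y ∈ B' := by
    rcases M.fundCircuit_subset_insert x B' hyC with h | h
    · exact absurd h hyx
    · exact h
  have hyB : y ∈ M.E \ B := by
    rcases M.fundCocircuit_subset_insert_compl x B hyK with h | h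
    · exact absurd h hyx
    · exact h
  refine ⟨y, ⟨hyB', hyB.2⟩, ?_, ?_⟩
  · have h1 : x ∈ M.fundCircuit y B := hB.mem_fundCocircuit_iff_mem_fundCircuit.1 hyK
    have hcl : y ∈ M.closure B := by rw [hB.closure_eq]; exact hyB.1
    have h2 := (hB.indep.mem_fundCircuit_iff hcl hyB.2).1 h1
    rw [← Set.insert_sdiff_singleton_comm hyx] at h2
    exact hB.exchange_isBase_of_indep hyB.2 h2
  · have hcl : x ∈ M.closure B' := by rw [hB'.closure_eq]; exact hxE
    have h2 := (hB'.indep.mem_fundCircuit_iff hcl hx.2).1 hyC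
    rw [← Set.insert_sdiff_singleton_comm (Ne.symm hyx)] at h2
    exact hB'.exchange_isBase_of_indep hx.2 h2

/-- The weight of a set. -/
noncomputable def wtS (v : E → ℝ) (B : Set E) : ℝ := ∑ᶠ e ∈ B, v e

/-- `B` is a basis of minimal weight. -/
def IsMin (M : Matroid E) (v : E → ℝ) (B : Set E) : Prop :=
  M.IsBase B ∧ ∀ B', M.IsBase B' → wtS v B ≤ wtS v B'

theorem wtS_exchange [Finite E] (v : E → ℝ) {B : Set E} {x y : E} (hx : x ∈ B) (hy : y ∉ B) :
    wtS v (insert y (B \ {x})) = wtS v B - v x + v y := by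
  have h1 : wtS v B = v x + wtS v (B \ {x}) := by
    unfold wtS
    rw [← finsum_mem_insert v (fun h => h.2 rfl) (Set.toFinite _)]
    rw [Set.insert_sdiff_singleton, Set.insert_eq_of_mem hx]
  have h2 : wtS v (insert y (B \ {x})) = v y + wtS v (B \ {x}) := by
    unfold wtS
    rw [finsum_mem_insert v (fun h => hy h.1) (Set.toFinite _)]
  rw [h1, h2]
  ring

theorem wtS_add [Finite E] (v y : E → ℝ) (B : Set E) : wtS (v + y) B = wtS v B + wtS y B := by
  unfold wtS
  rw [← finsum_mem_add_distrib (Set.toFinite B)]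
  rfl

theorem abs_wtS_le [Finite E] (y : E → ℝ) (B : Set E) {δ : ℝ} (hδ : 0 ≤ δ)
    (h : ∀ e, |y e| ≤ δ) : |wtS y B| ≤ Nat.card E * δ := by
  classical
  haveI := Fintype.ofFinite E
  have h1 : wtS y B = ∑ e : E, if e ∈ B then y e else 0 := by
    unfold wtS
    rw [finsum_mem_def, finsum_eq_sum_of_fintype]
    apply Finset.sum_congr rfl
    intro e _
    rw [Set.indicator_apply]
  rw [h1, Nat.card_eq_fintype_card]
  calc |∑ e : E, if e ∈ B then y e else 0| ≤ ∑ e : E, |if e ∈ B then y e else 0| :=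
        Finset.abs_sum_le_sum_abs _ _
    _ ≤ ∑ _e : E, δ := by
        apply Finset.sum_le_sum
        intro e _
        split_ifs
        · exact h e
        · rw [abs_zero]; exact hδ
    _ = Fintype.card E * δ := by
        rw [Finset.sum_const, nsmul_eq_mul, Finset.card_univ]

theorem exists_isMin [Finite E] (M : Matroid E) (v : E → ℝ) : ∃ B, IsMin M v B := by
  obtain ⟨B0, hB0⟩ := M.exists_isBase
  obtain ⟨B, hB, hmin⟩ := Set.exists_min_image {B | M.IsBase B} (wtS v) (Set.toFinite _) ⟨B0, hB0⟩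
  exact ⟨B, hB, fun B' hB' => hmin B' hB'⟩

theorem IsMin.eq {v : E → ℝ} {B B' : Set E} (h : IsMin M v B) (h' : IsMin M v B') :
    wtS v B = wtS v B' := le_antisymm (h.2 B' h'.1) (h'.2 B h.1)

theorem IsMin.of_le {v : E → ℝ} {B B' : Set E} (h : IsMin M v B) (hb : M.IsBase B')
    (h' : wtS v B' ≤ wtS v B) : IsMin M v B' := ⟨hb, fun B'' h'' => h'.trans (h.2 B'' h'')⟩

/-- The bases of minimal weight are the bases of a matroid. -/
theorem exists_minM [Finite E] (hE : M.E = Set.univ) (v : E → ℝ) : ∃ M' : Matroid E,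
    M'.E = Set.univ ∧ ∀ B, M'.IsBase B ↔ IsMin M v B := by
  refine ⟨Matroid.ofIsBaseOfFinite (E := Set.univ) Set.finite_univ (IsMin M v)
    (exists_isMin M v) ?_ (fun B _ => Set.subset_univ B), rfl, fun B => Iff.rfl⟩
  intro B B' hB hB' x hx
  obtain ⟨y, hy, h1, h2⟩ := symm_exchange hB.1 hB'.1 hx
  refine ⟨y, hy, hB.of_le h1 ?_⟩
  have h3 := hB'.2 _ h2
  rw [wtS_exchange v hy.1 hx.2] at h3
  rw [wtS_exchange v hx.1 hy.2]
  linarith

/-- (BC) -/
theorem bergM_iff [Finite E] (hE : M.E = Set.univ) (hl : ∀ e, M.Indep {e}) (y : E → ℝ) :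
    BergM M y ↔ ∀ e, ∃ B, IsMin M y B ∧ e ∈ B := by
  constructor
  · intro h e
    obtain ⟨B, hB⟩ := exists_isMin M y
    by_cases he : e ∈ B
    · exact ⟨B, hB, he⟩
    · have heE : e ∈ M.E := by rw [hE]; exact Set.mem_univ e
      have hC := hB.1.fundCircuit_isCircuit heE he
      obtain ⟨f, hf, hfe, hle⟩ := h _ hC e (M.mem_fundCircuit e B)
      have hfB : f ∈ B := by
        rcases M.fundCircuit_subset_insert e B hf with h | h
        · exact absurd h hfe
        · exact h
      have hcl : e ∈ M.closure B := by rw [hB.1.closure_eq]; exact heE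
      have h2 := (hB.1.indep.mem_fundCircuit_iff hcl he).1 hf
      rw [← Set.insert_sdiff_singleton_comm (Ne.symm hfe)] at h2
      have h3 := hB.1.exchange_isBase_of_indep he h2
      refine ⟨_, hB.of_le h3 ?_, Set.mem_insert e _⟩
      rw [wtS_exchange y hfB he]
      linarith
  · intro h C hC e he
    by_contra hcon
    have hcon' : ∀ f ∈ C, f ≠ e → y f < y e := by
      intro f hf hfe
      by_contra h1
      exact hcon ⟨f, hf, hfe, not_lt.1 h1⟩
    obtain ⟨B, hB, heB⟩ := h e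
    have h1 : e ∈ M.closure (C \ {e}) := hC.mem_closure_sdiff_singleton_of_mem he
    have h2 : e ∉ M.closure (B \ {e}) := hB.1.indep.notMem_closure_sdiff_of_mem heB
    have h3 : ∃ f ∈ C \ {e}, f ∉ M.closure (B \ {e}) := by
      by_contra hno
      have hsub : C \ {e} ⊆ M.closure (B \ {e}) := by
        intro f hf
        by_contra h4
        exact hno ⟨f, hf, h4⟩
      exact h2 (M.closure_subset_closure_of_subset_closure hsub h1)
    obtain ⟨f, hf, hfcl⟩ := h3
    have hfE : f ∈ M.E := by rw [hE]; exact Set.mem_univ f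
    have hfe : f ≠ e := hf.2
    have hfB : f ∉ B := by
      intro hfB
      exact hfcl (M.mem_closure_of_mem' ⟨hfB, hfe⟩ hfE)
    have h4 := hB.1.exchange_base_of_notMem_closure heB hfcl hfE
    have h5 := hB.2 _ h4
    rw [wtS_exchange y heB hfB] at h5
    have h6 := hcon' f hf.1 hfe
    linarith

theorem exists_gap [Finite E] (v : E → ℝ) :
    ∃ g : ℝ, 0 < g ∧ ∀ B B' : Set E, wtS v B < wtS v B' → g ≤ wtS v B' - wtS v B := by
  by_cases hne : Nonempty {p : Set E × Set E // wtS v p.1 < wtS v p.2}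
  · obtain ⟨p, hp⟩ := Finite.exists_min
      (fun p : {p : Set E × Set E // wtS v p.1 < wtS v p.2} => wtS v p.1.2 - wtS v p.1.1)
    exact ⟨wtS v p.1.2 - wtS v p.1.1, sub_pos.2 p.2, fun B B' h => hp ⟨(B, B'), h⟩⟩
  · exact ⟨1, one_pos, fun B B' h => absurd ⟨⟨(B, B'), h⟩⟩ hne⟩

/-- (C5) -/
theorem exists_star [Finite E] (hE : M.E = Set.univ) (hl : ∀ e, M.Indep {e}) {v : E → ℝ}
    (hv : BergM M v) : ∃ M' : Matroid E, M'.E = Set.univ ∧ (∀ e, M'.Indep {e}) ∧
      ∃ δ : ℝ, 0 < δ ∧ ∀ y : E → ℝ, (∀ e, |y e| < δ) → (BergM M (v + y) ↔ BergM M' y) := by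
  obtain ⟨M', hE', hM'⟩ := exists_minM hE v
  have hl' : ∀ e, M'.Indep {e} := by
    intro e
    obtain ⟨B, hB, heB⟩ := (bergM_iff hE hl v).1 hv e
    exact ((hM' B).2 hB).indep.subset (Set.singleton_subset_iff.2 heB)
  refine ⟨M', hE', hl', ?_⟩
  obtain ⟨g, hg, hgap⟩ := exists_gap v
  have hN : (0 : ℝ) ≤ Nat.card E := Nat.cast_nonneg _
  have hδ : 0 < g / (2 * Nat.card E + 1) := div_pos hg (by linarith)
  refine ⟨g / (2 * Nat.card E + 1), hδ, fun y hy => ?_⟩
  have hab : ∀ B : Set E, |wtS y B| ≤ Nat.card E * (g / (2 * Nat.card E + 1)) :=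
    fun B => abs_wtS_le y B hδ.le (fun e => (hy e).le)
  have hsm : 2 * (Nat.card E * (g / (2 * Nat.card E + 1))) < g := by
    have h1 : g / (2 * Nat.card E + 1) * (2 * Nat.card E + 1) = g :=
      div_mul_cancel₀ g (by linarith)
    linarith
  have key : ∀ B : Set E, IsMin M (v + y) B ↔ IsMin M' y B := by
    intro B
    constructor
    · rintro ⟨hB, hmin⟩
      obtain ⟨B0, hB0⟩ := exists_isMin M v
      have h1 : wtS v B ≤ wtS v B0 := by
        by_contra hlt
        have h2 := hgap B0 B (not_le.1 hlt)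
        have h3 := hmin B0 hB0.1
        rw [wtS_add, wtS_add] at h3
        have h4 := (abs_le.1 (hab B)).1
        have h5 := (abs_le.1 (hab B0)).2
        linarith
      have h2 : IsMin M v B := hB0.of_le hB h1
      refine ⟨(hM' B).2 h2, fun B' hB' => ?_⟩
      have h3 := (hM' B').1 hB'
      have h4 := hmin B' h3.1
      rw [wtS_add, wtS_add, h2.eq h3] at h4
      linarith
    · rintro ⟨hB, hmin⟩
      have h2 := (hM' B).1 hB
      refine ⟨h2.1, fun B' hB' => ?_⟩
      rw [wtS_add, wtS_add]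
      rcases (h2.2 B' hB').lt_or_eq with hlt | heq
      · have h3 := hgap B B' hlt
        have h4 := (abs_le.1 (hab B)).2
        have h5 := (abs_le.1 (hab B')).1
        linarith
      · have h3 : IsMin M v B' := h2.of_le hB' heq.ge
        have h4 := hmin B' ((hM' B').2 h3)
        linarith
  rw [bergM_iff hE hl, bergM_iff hE' hl']
  constructor
  · intro h e
    obtain ⟨B, hB, he⟩ := h e
    exact ⟨B, (key B).1 hB, he⟩
  · intro h e
    obtain ⟨B, hB, he⟩ := h e
    exact ⟨B, (key B).2 hB, he⟩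

end Pool.Agent.TD


end

section

/-! Block R: paths in the open part of the box (module TD_R_A2). -/

open scoped Topology NNReal

namespace Pool.Agent.TD.R

variable {I E : Type} [Fintype I] [Fintype E] {M : Matroid E} {e0 : E} {δ : ℝ}

/-- A path in the open part of the box which is a segment in logarithmic coordinates. -/
structure IsPath (M : Matroid E) (e0 : E) (δ : ℝ) (γ : ℝ → (I → ℝ) × (E → ℝ))
    (p0 p : (I → ℝ) × (E → ℝ)) : Prop where
  cont : ContinuousOn γ (Set.Icc 0 1)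
  zero : γ 0 = p0
  one : γ 1 = p
  mem : ∀ s ∈ Set.Icc (0 : ℝ) 1, γ s ∈ Om I M e0 δ
  aff : ∀ (n : I → ℝ) (l : E → ℝ) (c : ℝ), ∀ s ∈ Set.Icc (0 : ℝ) 1,
    Aff n l c (γ s) = (1 - s) * Aff n l c p0 + s * Aff n l c p

/-- The fan of a matroid is a cone. -/
theorem bergM_smul {y : E → ℝ} (hy : BergM M y) {s : ℝ} (hs : 0 ≤ s) :
    BergM M (fun e => s * y e) := by
  intro C hC e he
  obtain ⟨f, hf, hfe, hle⟩ := hy C hC e he
  exact ⟨f, hf, hfe, mul_le_mul_of_nonneg_left hle hs⟩

/-- The segment in logarithmic coordinates. -/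
noncomputable def gam (p0 p : (I → ℝ) × (E → ℝ)) (s : ℝ) : (I → ℝ) × (E → ℝ) :=
  (fun i => Real.exp ((1 - s) * Real.log (p0.1 i) + s * Real.log (p.1 i)),
    fun e => (1 - s) * p0.2 e + s * p.2 e)

theorem gam_continuous (p0 p : (I → ℝ) × (E → ℝ)) : Continuous (gam p0 p) := by
  unfold gam
  refine Continuous.prodMk (continuous_pi fun i => ?_) (continuous_pi fun e => ?_)
  · exact Real.continuous_exp.comp (by fun_prop)
  · fun_prop

theorem conv_lt {a b d s : ℝ} (ha : a < d) (hb : b < d) (hs0 : 0 ≤ s) (hs1 : s ≤ 1) :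
    (1 - s) * a + s * b < d := by
  rcases eq_or_lt_of_le hs0 with h | h
  · rw [← h]; linarith
  · have h1 : (1 - s) * a ≤ (1 - s) * d := mul_le_mul_of_nonneg_left ha.le (by linarith)
    have h2 : s * b < s * d := mul_lt_mul_of_pos_left hb h
    linarith

theorem isPath_gam {p0 p : (I → ℝ) × (E → ℝ)} (hp0 : p0 ∈ Om I M e0 δ) (hp : p ∈ Om I M e0 δ)
    (hB : ∀ s ∈ Set.Icc (0 : ℝ) 1, BergM M (fun e => (1 - s) * p0.2 e + s * p.2 e)) :
    IsPath M e0 δ (gam p0 p) p0 p := by
  obtain ⟨⟨ha1, ha2, ha3, ha4⟩, ha5⟩ := hp0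
  obtain ⟨⟨hb1, hb2, hb3, hb4⟩, hb5⟩ := hp
  refine ⟨(gam_continuous p0 p).continuousOn, ?_, ?_, ?_, ?_⟩
  · refine Prod.ext (funext fun i => ?_) (funext fun e => ?_)
    · simp [gam, Real.exp_log (ha5 i)]
    · simp [gam]
  · refine Prod.ext (funext fun i => ?_) (funext fun e => ?_)
    · simp [gam, Real.exp_log (hb5 i)]
    · simp [gam]
  · rintro s ⟨hs0, hs1⟩
    refine ⟨⟨fun i => ⟨(Real.exp_pos _).le, ?_⟩, fun e => ?_, ?_, hB s ⟨hs0, hs1⟩⟩,
      fun i => Real.exp_pos _⟩
    · have h1 := Real.log_lt_log (ha5 i) (ha1 i).2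
      have h2 := Real.log_lt_log (hb5 i) (hb1 i).2
      have hδ : 0 < δ := lt_trans (ha5 i) (ha1 i).2
      exact (Real.lt_log_iff_exp_lt hδ).1 (conv_lt h1 h2 hs0 hs1)
    · have h1 := abs_lt.1 (ha2 e)
      have h2 := abs_lt.1 (hb2 e)
      rw [abs_lt]
      constructor
      · have := conv_lt (neg_lt.1 h1.1) (neg_lt.1 h2.1) hs0 hs1
        show -δ < (1 - s) * p0.2 e + s * p.2 e
        linarith
      · exact conv_lt h1.2 h2.2 hs0 hs1
    · show (1 - s) * p0.2 e0 + s * p.2 e0 = 0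
      rw [ha3, hb3]
      ring
  · intro n l c s _
    unfold Aff gam
    simp only [Real.log_exp]
    have e1 : ∑ i, n i * ((1 - s) * Real.log (p0.1 i) + s * Real.log (p.1 i)) =
        (1 - s) * ∑ i, n i * Real.log (p0.1 i) + s * ∑ i, n i * Real.log (p.1 i) := by
      rw [Finset.mul_sum, Finset.mul_sum, ← Finset.sum_add_distrib]
      exact Finset.sum_congr rfl fun i _ => by ring
    have e2 : ∑ e, l e * ((1 - s) * p0.2 e + s * p.2 e) =
        (1 - s) * ∑ e, l e * p0.2 e + s * ∑ e, l e * p.2 e := by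
      rw [Finset.mul_sum, Finset.mul_sum, ← Finset.sum_add_distrib]
      exact Finset.sum_congr rfl fun i _ => by ring
    rw [e1, e2]
    ring

/-- `Om` is star-shaped about the points with `y = 0`. -/
theorem exists_path {p0 p : (I → ℝ) × (E → ℝ)} (hp0 : p0 ∈ Om I M e0 δ) (h0 : p0.2 = 0)
    (hp : p ∈ Om I M e0 δ) : ∃ γ, IsPath M e0 δ γ p0 p := by
  refine ⟨gam p0 p, isPath_gam hp0 hp fun s hs => ?_⟩
  have h1 := bergM_smul hp.1.2.2.2 hs.1
  have h2 : (fun e => (1 - s) * p0.2 e + s * p.2 e) = fun e => s * p.2 e := by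
    funext e
    rw [h0]
    simp
  rw [h2]
  exact h1

/-- `Om` is locally star-shaped. -/
theorem exists_path_loc (hE : M.E = Set.univ) (hl : ∀ e, M.Indep {e})
    {p0 : (I → ℝ) × (E → ℝ)} (hp0 : p0 ∈ Om I M e0 δ) :
    ∀ᶠ p in 𝓝[Om I M e0 δ] p0, ∃ γ, IsPath M e0 δ γ p0 p := by
  obtain ⟨M', -, -, δ', hδ', hM'⟩ := exists_star hE hl hp0.1.2.2.2
  have h1 : ∀ᶠ p : (I → ℝ) × (E → ℝ) in 𝓝 p0, ∀ e, |p.2 e - p0.2 e| < δ' := by
    rw [Filter.eventually_all]
    intro e
    have hc : Continuous fun p : (I → ℝ) × (E → ℝ) => |p.2 e - p0.2 e| := by fun_prop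
    have := hc.tendsto p0
    simp only [sub_self, abs_zero] at this
    exact this.eventually (gt_mem_nhds hδ')
  filter_upwards [nhdsWithin_le_nhds h1, self_mem_nhdsWithin] with p hp hpO
  refine ⟨gam p0 p, isPath_gam hp0 hpO ?_⟩
  have h2 : BergM M' (fun e => p.2 e - p0.2 e) := by
    rw [← hM' _ hp]
    have h3 : p0.2 + (fun e => p.2 e - p0.2 e) = p.2 := by
      funext e
      simp
    rw [h3]
    exact hpO.1.2.2.2
  intro s hs
  have h4 : ∀ e, |s * (p.2 e - p0.2 e)| < δ' := by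
    intro e
    rw [abs_mul, abs_of_nonneg hs.1]
    exact lt_of_le_of_lt (mul_le_of_le_one_left (abs_nonneg _) hs.2) (hp e)
  have h5 := (hM' _ h4).2 (bergM_smul h2 hs.1)
  have h6 : (fun e => (1 - s) * p0.2 e + s * p.2 e) = p0.2 + fun e => s * (p.2 e - p0.2 e) := by
    funext e
    simp only [Pi.add_apply]
    ring
  rw [h6]
  exact h5

/-- (GLOB) a function which is locally affine in the logarithmic coordinates is affine. -/
theorem glob {g : (I → ℝ) × (E → ℝ) → ℝ} (hg : ∀ p ∈ Om I M e0 δ, ∃ n l c,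
    ∀ᶠ p' in 𝓝[Om I M e0 δ] p, g p' = Aff n l c p') {p0 : (I → ℝ) × (E → ℝ)}
    (hp0 : p0 ∈ Om I M e0 δ) (h0 : p0.2 = 0) {n : I → ℝ} {l : E → ℝ} {c : ℝ}
    (h : ∀ᶠ p' in 𝓝[Om I M e0 δ] p0, g p' = Aff n l c p') :
    ∀ p ∈ Om I M e0 δ, g p = Aff n l c p := by
  intro p hp
  obtain ⟨γ, hγ⟩ := exists_path hp0 h0 hp
  have ht : ∀ s ∈ Set.Icc (0 : ℝ) 1,
      Filter.Tendsto γ (𝓝[Set.Icc 0 1] s) (𝓝[Om I M e0 δ] (γ s)) := by
    intro s hs
    rw [tendsto_nhdsWithin_iff]
    exact ⟨hγ.cont s hs, by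
      filter_upwards [self_mem_nhdsWithin] with s' hs'
      exact hγ.mem s' hs'⟩
  have hh : ∀ s ∈ Set.Icc (0 : ℝ) 1, ∃ α β : ℝ, ∀ᶠ s' in 𝓝[Set.Icc 0 1] s,
      g (γ s') = α * s' + β := by
    intro s hs
    obtain ⟨n', l', c', h'⟩ := hg (γ s) (hγ.mem s hs)
    refine ⟨Aff n' l' c' p - Aff n' l' c' p0, Aff n' l' c' p0, ?_⟩
    filter_upwards [(ht s hs).eventually h', self_mem_nhdsWithin] with s' h1 h2
    rw [h1, hγ.aff n' l' c' s' h2]
    ring
  have h00 : (0 : ℝ) ∈ Set.Icc (0 : ℝ) 1 := ⟨le_refl _, zero_le_one⟩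
  have h11 : (1 : ℝ) ∈ Set.Icc (0 : ℝ) 1 := ⟨zero_le_one, le_refl _⟩
  have h3 : ∀ᶠ s' in 𝓝[Set.Icc (0 : ℝ) 1] 0,
      g (γ s') = (Aff n l c p - Aff n l c p0) * s' + Aff n l c p0 := by
    have h4 := ht 0 h00
    rw [hγ.zero] at h4
    filter_upwards [h4.eventually h, self_mem_nhdsWithin] with s' h1 h2
    rw [h1, hγ.aff n l c s' h2]
    ring
  have h5 := affine_of_germ (h := fun s => g (γ s)) Set.ordConnected_Icc hh h00 h3 1 h11
  simp only [hγ.one] at h5
  rw [h5]
  ring

theorem bergM_zero (hl : ∀ e, M.Indep {e}) : BergM M (fun _ => 0) := by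
  intro C hC e he
  by_contra hcon
  push Not at hcon
  have h1 : C ⊆ {e} := by
    intro f hf
    by_contra hfe
    exact absurd (le_refl (0 : ℝ)) (not_le.2 (hcon f hf hfe))
  exact hC.dep.not_indep ((hl e).subset h1)

theorem pt_mem (hl : ∀ e, M.Indep {e}) (hδ : 0 < δ) {u : I → ℝ} (hu : ∀ i, 0 < u i ∧ u i < δ) :
    ((u, fun _ => 0) : (I → ℝ) × (E → ℝ)) ∈ Om I M e0 δ := by
  refine ⟨⟨fun i => ⟨(hu i).1.le, (hu i).2⟩, fun e => ?_, rfl, bergM_zero hl⟩, fun i => (hu i).1⟩
  show |(0 : ℝ)| < δ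
  rw [abs_zero]
  exact hδ

/-- The base points. -/
theorem base_mem (hl : ∀ e, M.Indep {e}) (hδ : 0 < δ) :
    ((fun _ => δ / 2, fun _ => 0) : (I → ℝ) × (E → ℝ)) ∈ Om I M e0 δ :=
  pt_mem hl hδ fun _ => ⟨by linarith, by linarith⟩

/-- The coefficients of the `log t_i` and the constant are determined by the function. -/
theorem aff_uniq (hl : ∀ e, M.Indep {e}) (hδ : 0 < δ) {n n' : I → ℝ} {l l' : E → ℝ} {c c' : ℝ}
    (h : ∀ p ∈ Om I M e0 δ, Aff n l c p = Aff n' l' c' p) : n = n' ∧ c = c' := by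
  classical
  have key : ∀ u : I → ℝ, (∀ i, 0 < u i ∧ u i < δ) →
      ∑ i, n i * Real.log (u i) + c = ∑ i, n' i * Real.log (u i) + c' := by
    intro u hu
    have h1 := h _ (pt_mem hl hδ hu)
    simpa [Aff] using h1
  have h0 := key (fun _ => δ / 2) fun _ => ⟨by linarith, by linarith⟩
  have hn : n = n' := by
    funext i
    have h1 := key (Function.update (fun _ => δ / 2) i (δ / 4)) (by
      intro j
      by_cases hj : j = i
      · subst hj
        rw [Function.update_self]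
        exact ⟨by linarith, by linarith⟩
      · rw [Function.update_of_ne hj]
        exact ⟨by linarith, by linarith⟩)
    have h2 : ∀ m : I → ℝ, ∑ j, m j * Real.log (Function.update (fun _ => δ / 2) i (δ / 4) j) =
        ∑ j, m j * Real.log (δ / 2) + m i * (Real.log (δ / 4) - Real.log (δ / 2)) := by
      intro m
      rw [← Finset.add_sum_erase _ _ (Finset.mem_univ i),
        ← Finset.add_sum_erase _ (fun j => m j * Real.log (δ / 2)) (Finset.mem_univ i)]
      rw [Function.update_self]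
      have h3 : ∑ x ∈ Finset.univ.erase i,
          m x * Real.log (Function.update (fun _ => δ / 2) i (δ / 4) x) =
          ∑ x ∈ Finset.univ.erase i, m x * Real.log (δ / 2) := by
        refine Finset.sum_congr rfl fun j hj => ?_
        rw [Function.update_of_ne (Finset.ne_of_mem_erase hj)]
      rw [h3]
      ring
    rw [h2 n, h2 n'] at h1
    have h4 : n i * (Real.log (δ / 4) - Real.log (δ / 2)) =
        n' i * (Real.log (δ / 4) - Real.log (δ / 2)) := by linarith
    have h5 : Real.log (δ / 4) < Real.log (δ / 2) :=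
      Real.log_lt_log (by linarith) (by linarith)
    exact mul_right_cancel₀ (by linarith) h4
  refine ⟨hn, ?_⟩
  rw [hn] at h0
  linarith

end Pool.Agent.TD.R


end

section

/-! Block R: the open stratum is the set where the coordinates `t` do not vanish
(module TD_R_S3). -/

open scoped Topology NNReal

namespace Pool.Agent.TD.R

variable {N I E : Type} [AddCommGroup N] {P : AddSubmonoid N} [Fintype I] [Fintype E]
  {T : Set (P → ℝ)} {w : P → ℝ} {t : I → (P → ℝ) → ℝ} {y : E → (P → ℝ) → ℝ} {M : Matroid E}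
  {e0 : E} {U : Set (P → ℝ)} {δ : ℝ} {L : (I → ℝ) × (E → ℝ) → P → ℝ}

theorem LM.cm_mem_Om (h : LM T w t y M e0 U δ L) {b : P → ℝ} (hb : b ∈ T ∩ U)
    (ht : ∀ i, t i b ≠ 0) : cm t y b ∈ Om I M e0 δ :=
  ⟨h.maps b hb, fun i => lt_of_le_of_ne ((h.maps b hb).1 i).1 (Ne.symm (ht i))⟩

theorem LM.tendsto_cm (h : LM T w t y M e0 U δ L) {b : P → ℝ} (hb : b ∈ T ∩ U)
    (ht : ∀ i, t i b ≠ 0) :
    Filter.Tendsto (cm t y) (𝓝[T] b) (𝓝[Om I M e0 δ] (cm t y b)) := by
  have e1 : 𝓝[T ∩ U] b = 𝓝[T] b :=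
    nhdsWithin_inter_of_mem' (mem_nhdsWithin_of_mem_nhds (h.isOpen.mem_nhds hb.2))
  have hc : Filter.Tendsto (cm t y) (𝓝[T] b) (𝓝 (cm t y b)) := by
    have := h.cont b hb
    rw [ContinuousWithinAt, e1] at this
    exact this
  refine tendsto_nhdsWithin_iff.2 ⟨hc, ?_⟩
  have hU : ∀ᶠ b' in 𝓝[T] b, b' ∈ T ∩ U := by
    rw [← e1]
    exact self_mem_nhdsWithin
  have hti : ∀ᶠ b' in 𝓝[T] b, ∀ i, t i b' ≠ 0 := by
    rw [Filter.eventually_all]
    intro i
    have h1 : Filter.Tendsto (fun b' => (cm t y b').1 i) (𝓝[T] b) (𝓝 ((cm t y b).1 i)) :=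
      ((continuous_apply i).comp continuous_fst).continuousAt.tendsto.comp hc
    exact h1.eventually_ne (ht i)
  filter_upwards [hU, hti] with b' h1 h2
  exact h.cm_mem_Om h1 h2

theorem LM.stratum_of_t (h : LM T w t y M e0 U δ L) (hT : IsTr T) (hd : Dns T) {G : Finset P}
    (hG : AddSubmonoid.closure (G : Set P) = ⊤) {b : P → ℝ} (hb : b ∈ T ∩ U)
    (ht : ∀ i, t i b ≠ 0) (m : P) : b m ≠ 0 := by
  intro hbm
  have hcmb : cm t y b ∈ Om I M e0 δ := h.cm_mem_Om hb ht
  have hev : ∀ᶠ b1 in 𝓝[T] b, ∃ γ, IsPath M e0 δ γ (cm t y b) (cm t y b1) :=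
    (h.tendsto_cm hb ht).eventually (exists_path_loc h.ground h.loopless hcmb)
  have hU : ∀ᶠ b' in 𝓝[T] b, b' ∈ U :=
    mem_nhdsWithin_of_mem_nhds (h.isOpen.mem_nhds hb.2)
  obtain ⟨V, hV, hVT⟩ := mem_nhdsWithin_iff_exists_mem_nhds_inter.1 (hev.and hU)
  obtain ⟨b1, ⟨hb1T, hb1V⟩, hb1⟩ := hd b hb.1 V hV
  obtain ⟨⟨γ, hγ⟩, hb1U⟩ := hVT ⟨hb1V, hb1T⟩
  have hf0 : L (γ 0) = b := by rw [hγ.zero, h.left b hb]
  have hf1 : L (γ 1) = b1 := by rw [hγ.one, h.left b1 ⟨hb1T, hb1U⟩]
  have hfm : ∀ s ∈ Set.Icc (0 : ℝ) 1, L (γ s) ∈ T ∩ U := fun s hs =>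
    h.Lmaps _ (hγ.mem s hs).1
  have hfc : ContinuousOn (fun s => L (γ s)) (Set.Icc 0 1) :=
    h.Lcont.comp hγ.cont fun s hs => (hγ.mem s hs).1
  have hft : ∀ s ∈ Set.Icc (0 : ℝ) 1, Filter.Tendsto (fun s => L (γ s)) (𝓝[Set.Icc 0 1] s)
      (𝓝[T] (L (γ s))) := fun s hs =>
    tendsto_nhdsWithin_iff.2 ⟨hfc s hs, by
      filter_upwards [self_mem_nhdsWithin] with s' hs' using (hfm s' hs').1⟩
  -- the bad set
  let D : Set ℝ := {s | s ∈ Set.Icc (0 : ℝ) 1 ∧ ∃ m, L (γ s) m = 0}
  have hDc : IsClosed D := by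
    rw [← isOpen_compl_iff, isOpen_iff_mem_nhds]
    intro s hs
    by_cases hsI : s ∈ Set.Icc (0 : ℝ) 1
    · have hall : ∀ m, L (γ s) m ≠ 0 := fun m hm => hs ⟨hsI, m, hm⟩
      have h1 := (hft s hsI).eventually (stratum_open hT hG hall)
      obtain ⟨V', hV', hV'T⟩ := mem_nhdsWithin_iff_exists_mem_nhds_inter.1 h1
      filter_upwards [hV'] with s' hs' hs'D
      obtain ⟨hs'I, m', hm'⟩ := hs'D
      exact hV'T ⟨hs', hs'I⟩ m' hm'
    · filter_upwards [isClosed_Icc.isOpen_compl.mem_nhds hsI] with s' hs' hs'D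
      exact hs' hs'D.1
  have hDK : IsCompact D := isCompact_Icc.of_isClosed_subset hDc fun s hs => hs.1
  have h0D : (0 : ℝ) ∈ D := ⟨⟨le_refl _, zero_le_one⟩, m, by rw [hf0]; exact hbm⟩
  obtain ⟨hsI, m', hm'⟩ : sSup D ∈ D := hDK.sSup_mem ⟨0, h0D⟩
  set r : ℝ := sSup D with hr
  have hlub : ∀ s ∈ D, s ≤ r := fun s hs => le_csSup hDK.bddAbove hs
  have hr1 : r < 1 := by
    rcases lt_or_eq_of_le hsI.2 with h1 | h1
    · exact h1
    · exfalso
      rw [h1, hf1] at hm'
      exact hb1 m' hm'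
  have hpos : ∀ s ∈ Set.Ioc r 1, ∀ m, 0 < L (γ s) m := by
    intro s hs m
    have hsI' : s ∈ Set.Icc (0 : ℝ) 1 := ⟨hsI.1.trans hs.1.le, hs.2⟩
    refine lt_of_le_of_ne ((hT _ (hfm s hsI').1).2.2 m) fun h0 => ?_
    exact absurd (hlub s ⟨hsI', m, h0.symm⟩) (not_le.2 hs.1)
  have hsub : Set.Ioc r 1 ⊆ Set.Icc (0 : ℝ) 1 := fun s hs => ⟨hsI.1.trans hs.1.le, hs.2⟩
  obtain ⟨α, β, hαβ⟩ := affine_of_locally (J := Set.Ioc r 1) Set.ordConnected_Ioc
    (h := fun s => Real.log (L (γ s) m')) (by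
      intro s hs
      have hsI' : s ∈ Set.Icc (0 : ℝ) 1 := hsub hs
      have hcm : cm t y (L (γ s)) = γ s := h.right _ (hγ.mem s hsI').1
      have hti : ∀ i, t i (L (γ s)) ≠ 0 := by
        intro i
        have h1 := (hγ.mem s hsI').2 i
        rw [← hcm] at h1
        exact h1.ne'
      obtain ⟨n, l, c, hn⟩ := h.affX_model (hfm s hsI') hti
        (h.aff _ (hfm s hsI') m' (hpos s hs m').ne')
      rw [hcm] at hn
      have hγt : Filter.Tendsto γ (𝓝[Set.Ioc r 1] s) (𝓝[Om I M e0 δ] (γ s)) :=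
        tendsto_nhdsWithin_iff.2 ⟨(hγ.cont s hsI').mono_left (nhdsWithin_mono _ hsub), by
          filter_upwards [self_mem_nhdsWithin] with s' hs' using hγ.mem s' (hsub hs')⟩
      refine ⟨Aff (fun i => (n i : ℝ)) (fun e => (l e : ℝ)) c (cm t y b1) -
        Aff (fun i => (n i : ℝ)) (fun e => (l e : ℝ)) c (cm t y b),
        Aff (fun i => (n i : ℝ)) (fun e => (l e : ℝ)) c (cm t y b), ?_⟩
      filter_upwards [hγt.eventually hn, self_mem_nhdsWithin] with s' h1 h2
      rw [h1, hγ.aff _ _ _ s' (hsub h2)]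
      ring)
  have hexp : ∀ s ∈ Set.Ioc r 1, L (γ s) m' = Real.exp (α * s + β) := by
    intro s hs
    rw [← hαβ s hs, Real.exp_log (hpos s hs m')]
  have hnb : (𝓝[Set.Ioc r 1] r).NeBot := by
    rw [← mem_closure_iff_nhdsWithin_neBot, closure_Ioc hr1.ne]
    exact ⟨le_refl _, hr1.le⟩
  have l1 : Filter.Tendsto (fun s => L (γ s) m') (𝓝[Set.Ioc r 1] r) (𝓝 (L (γ r) m')) := by
    have h1 : Filter.Tendsto (fun s => L (γ s)) (𝓝[Set.Ioc r 1] r) (𝓝 (L (γ r))) :=
      (hfc r hsI).mono_left (nhdsWithin_mono _ hsub)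
    exact (continuous_apply m').continuousAt.tendsto.comp h1
  have l2 : Filter.Tendsto (fun s => L (γ s) m') (𝓝[Set.Ioc r 1] r)
      (𝓝 (Real.exp (α * r + β))) := by
    have h1 : Filter.Tendsto (fun s : ℝ => Real.exp (α * s + β)) (𝓝[Set.Ioc r 1] r)
        (𝓝 (Real.exp (α * r + β))) :=
      (Continuous.tendsto (by fun_prop) r).mono_left nhdsWithin_le_nhds
    refine h1.congr' ?_
    filter_upwards [self_mem_nhdsWithin] with s hs using (hexp s hs).symm
  have := tendsto_nhds_unique l1 l2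
  rw [hm'] at this
  exact (Real.exp_pos _).ne this

/-- Near a point with all characters non-zero all characters are given by affine functions of
the non-vanishing coordinates, in one neighbourhood. -/
theorem LM.uniform (h : LM T w t y M e0 U δ L) (hT : IsTr T) {G : Finset P}
    (hG : AddSubmonoid.closure (G : Set P) = ⊤) {b : P → ℝ} (hb : b ∈ T ∩ U)
    (hm : ∀ m, b m ≠ 0) : ∃ W ∈ 𝓝[T] b, ∀ m : P, ∃ (n : I → ℝ) (l : E → ℝ) (c : ℝ),
      (∀ i, t i b = 0 → n i = 0) ∧ ∀ b' ∈ W, Real.log (b' m) =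
        ∑ i, n i * Real.log (t i b') + ∑ e, l e * y e b' + c := by
  have hgen : ∀ m : P, ∃ (n : I → ℝ) (l : E → ℝ) (c : ℝ),
      (∀ i, t i b = 0 → n i = 0) ∧ ∀ᶠ b' in 𝓝[T] b, Real.log (b' m) =
        ∑ i, n i * Real.log (t i b') + ∑ e, l e * y e b' + c := by
    intro m
    obtain ⟨n, l, c, h1, h2⟩ := h.aff b hb m (hm m)
    exact ⟨fun i => (n i : ℝ), fun e => (l e : ℝ), c, fun i hi => by simp [h1 i hi], h2⟩
  choose n l c h1 h2 using hgen
  refine ⟨{b' | b' ∈ T ∧ (∀ m, b' m ≠ 0) ∧ ∀ g ∈ G, Real.log (b' g) =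
        ∑ i, n g i * Real.log (t i b') + ∑ e, l g e * y e b' + c g}, ?_, ?_⟩
  · have h3 : ∀ᶠ b' in 𝓝[T] b, ∀ g ∈ G, Real.log (b' g) =
        ∑ i, n g i * Real.log (t i b') + ∑ e, l g e * y e b' + c g :=
      (Filter.eventually_all_finset G).2 fun g _ => h2 g
    have h4 : ∀ᶠ b' in 𝓝[T] b, b' ∈ T := self_mem_nhdsWithin
    exact h4.and ((stratum_open hT hG hm).and h3)
  · intro m
    have hmem : m ∈ AddSubmonoid.closure (G : Set P) := by rw [hG]; trivial
    induction hmem using AddSubmonoid.closure_induction with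
    | mem g hg => exact ⟨n g, l g, c g, h1 g, fun b' hb' => hb'.2.2 g hg⟩
    | zero =>
      refine ⟨fun _ => 0, fun _ => 0, 0, fun _ _ => rfl, fun b' hb' => ?_⟩
      rw [(hT b' hb'.1).1]
      simp
    | add m m' _ _ ih ih' =>
      obtain ⟨n1, l1, c1, a1, a2⟩ := ih
      obtain ⟨n2, l2, c2, d1, d2⟩ := ih'
      refine ⟨fun i => n1 i + n2 i, fun e => l1 e + l2 e, c1 + c2,
        fun i hi => by simp [a1 i hi, d1 i hi], fun b' hb' => ?_⟩
      rw [(hT b' hb'.1).2.1, Real.log_mul (hb'.2.1 _) (hb'.2.1 _), a2 b' hb', d2 b' hb']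
      simp only [add_mul, Finset.sum_add_distrib]
      ring

theorem LM.t_of_stratum (h : LM T w t y M e0 U δ L) (hT : IsTr T) {G : Finset P}
    (hG : AddSubmonoid.closure (G : Set P) = ⊤) {b : P → ℝ} (hb : b ∈ T ∩ U)
    (hm : ∀ m, b m ≠ 0) (i : I) : t i b ≠ 0 := by
  classical
  intro hi
  obtain ⟨W, hW, hWm⟩ := h.uniform hT hG hb hm
  let p : ℝ → (I → ℝ) × (E → ℝ) := fun s => (Function.update (cm t y b).1 i s, (cm t y b).2)
  have hpc : Continuous p := by
    refine Continuous.prodMk ?_ continuous_const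
    exact (continuous_const (y := (cm t y b).1)).update i continuous_id
  have hp0 : p 0 = cm t y b := by
    have : Function.update (cm t y b).1 i 0 = (cm t y b).1 := by
      have h0 : (0 : ℝ) = (cm t y b).1 i := hi.symm
      rw [h0, Function.update_eq_self]
    simp only [p, this]
  have hpB : ∀ s ∈ Set.Ico (0 : ℝ) δ, p s ∈ Bx I M e0 δ := by
    intro s hs
    have hbx := h.maps b hb
    refine ⟨fun i' => ?_, hbx.2⟩
    by_cases hii : i' = i
    · subst hii
      simp only [p, Function.update_self]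
      exact hs
    · simp only [p, Function.update_of_ne hii]
      exact hbx.1 i'
  have hLp : ContinuousOn (fun s => L (p s)) (Set.Ico 0 δ) :=
    h.Lcont.comp hpc.continuousOn hpB
  have hLt : ∀ s ∈ Set.Ico (0 : ℝ) δ, Filter.Tendsto (fun s => L (p s)) (𝓝[Set.Ico 0 δ] s)
      (𝓝[T] (L (p s))) := fun s hs =>
    tendsto_nhdsWithin_iff.2 ⟨hLp s hs, by
      filter_upwards [self_mem_nhdsWithin] with s' hs' using (h.Lmaps _ (hpB s' hs')).1⟩
  have h0 := hLt 0 ⟨le_refl _, h.δpos⟩
  rw [hp0, h.left b hb] at h0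
  obtain ⟨ε, hε, hεW⟩ := Metric.mem_nhdsWithin_iff.1 (h0 hW)
  have hWs : ∀ s ∈ Set.Ioo (0 : ℝ) (min ε δ), L (p s) ∈ W := by
    intro s hs
    refine hεW ⟨?_, hs.1.le, hs.2.trans_le (min_le_right _ _)⟩
    rw [Metric.mem_ball, Real.dist_eq, sub_zero, abs_of_pos hs.1]
    exact hs.2.trans_le (min_le_left _ _)
  have hIoo : Set.Ioo (0 : ℝ) (min ε δ) ⊆ Set.Ico 0 δ := fun s hs =>
    ⟨hs.1.le, hs.2.trans_le (min_le_right _ _)⟩
  have hcmp : ∀ s ∈ Set.Ioo (0 : ℝ) (min ε δ), cm t y (L (p s)) = p s := fun s hs =>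
    h.right _ (hpB s (hIoo hs))
  have htj : ∀ s ∈ Set.Ioo (0 : ℝ) (min ε δ), t i (L (p s)) = s := by
    intro s hs
    have h1 : (cm t y (L (p s))).1 i = (p s).1 i := by rw [hcmp s hs]
    simpa [cm, p] using h1
  have hti : ∀ s ∈ Set.Ioo (0 : ℝ) (min ε δ), ∀ i', i' ≠ i → t i' (L (p s)) = t i' b := by
    intro s hs i' hi'
    have h1 : (cm t y (L (p s))).1 i' = (p s).1 i' := by rw [hcmp s hs]
    simpa [cm, p, Function.update_of_ne hi'] using h1
  have hye : ∀ s ∈ Set.Ioo (0 : ℝ) (min ε δ), ∀ e, y e (L (p s)) = y e b := by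
    intro s hs e
    have h1 : (cm t y (L (p s))).2 e = (p s).2 e := by rw [hcmp s hs]
    simpa [cm, p] using h1
  -- the characters are constant along the ray
  have hconst : ∀ m : P, ∃ C : ℝ, ∀ s ∈ Set.Ioo (0 : ℝ) (min ε δ), Real.log (L (p s) m) = C := by
    intro m
    obtain ⟨n, l, c, h1, h2⟩ := hWm m
    refine ⟨∑ i', n i' * Real.log (t i' b) + ∑ e, l e * y e b + c, fun s hs => ?_⟩
    rw [h2 _ (hWs s hs)]
    congr 2
    · refine Finset.sum_congr rfl fun i' _ => ?_
      by_cases hii : i' = i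
      · subst hii
        rw [h1 i' hi, zero_mul, zero_mul]
      · rw [hti s hs i' hii]
    · exact Finset.sum_congr rfl fun e _ => by rw [hye s hs e]
  have hmin : 0 < min ε δ := lt_min hε h.δpos
  have hs1 : min ε δ / 2 ∈ Set.Ioo (0 : ℝ) (min ε δ) := ⟨half_pos hmin, half_lt_self hmin⟩
  set s1 := min ε δ / 2 with hs1def
  obtain ⟨m, m', c, _, _, hc⟩ := h.afft _ (h.Lmaps _ (hpB s1 (hIoo hs1))) i
    (by rw [htj s1 hs1]; exact hs1.1.ne')
  obtain ⟨C, hC⟩ := hconst m
  obtain ⟨C', hC'⟩ := hconst m'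
  have hnh : 𝓝[Set.Ico 0 δ] s1 = 𝓝 s1 :=
    nhdsWithin_eq_nhds.2 (Filter.mem_of_superset (isOpen_Ioo.mem_nhds hs1) hIoo)
  have hev := (hLt s1 (hIoo hs1)).eventually hc
  rw [hnh] at hev
  have hev2 : ∀ᶠ s in 𝓝 s1, Real.log s = C - C' + c := by
    filter_upwards [hev, isOpen_Ioo.mem_nhds hs1] with s h1 h2
    rw [htj s h2, hC s h2, hC' s h2] at h1
    exact h1
  have hev3 : ∀ᶠ s in 𝓝[≠] s1, Real.log s = C - C' + c ∧ s ∈ Set.Ioo (0 : ℝ) (min ε δ) ∧
      s ∈ ({s1}ᶜ : Set ℝ) := by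
    have h1 : ∀ᶠ s in 𝓝[≠] s1, Real.log s = C - C' + c := hev2.filter_mono nhdsWithin_le_nhds
    have h2 : ∀ᶠ s in 𝓝[≠] s1, s ∈ Set.Ioo (0 : ℝ) (min ε δ) :=
      mem_nhdsWithin_of_mem_nhds (isOpen_Ioo.mem_nhds hs1)
    have h3 : ∀ᶠ s in 𝓝[≠] s1, s ∈ ({s1}ᶜ : Set ℝ) := self_mem_nhdsWithin
    exact h1.and (h2.and h3)
  obtain ⟨s2, h4, h5, h6⟩ := hev3.exists
  apply h6
  have h7 : Real.log s1 = C - C' + c := hev2.self_of_nhds
  exact Real.log_injOn_pos (Set.mem_Ioi.2 h5.1) (Set.mem_Ioi.2 hs1.1) (h4.trans h7.symm)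

end Pool.Agent.TD.R


end

section

/-! Block R: the characters in the coordinates of the chart (module TD_R_S4). -/

open scoped Topology NNReal

namespace Pool.Agent.TD.R

variable {N I E : Type} [AddCommGroup N] {P : AddSubmonoid N} [Fintype I] [Fintype E]
  {T : Set (P → ℝ)} {w : P → ℝ} {t : I → (P → ℝ) → ℝ} {y : E → (P → ℝ) → ℝ} {M : Matroid E}
  {e0 : E} {U : Set (P → ℝ)} {δ : ℝ} {L : (I → ℝ) × (E → ℝ) → P → ℝ}

theorem LM.s4_t (h : LM T w t y M e0 U δ L) {p : (I → ℝ) × (E → ℝ)} (hp : p ∈ Bx I M e0 δ)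
    (i : I) : t i (L p) = p.1 i :=
  congrFun (congrArg Prod.fst (h.right p hp)) i

theorem LM.s4_y (h : LM T w t y M e0 U δ L) {p : (I → ℝ) × (E → ℝ)} (hp : p ∈ Bx I M e0 δ)
    (e : E) : y e (L p) = p.2 e :=
  congrFun (congrArg Prod.snd (h.right p hp)) e

theorem LM.s4_om (h : LM T w t y M e0 U δ L) {b : P → ℝ} (hb : b ∈ T ∩ U)
    (ht : ∀ i, t i b ≠ 0) : cm t y b ∈ Om I M e0 δ :=
  ⟨h.maps b hb, fun i => lt_of_le_of_ne ((h.maps b hb).1 i).1 (Ne.symm (ht i))⟩

theorem LM.s4_tend (h : LM T w t y M e0 U δ L) {p : (I → ℝ) × (E → ℝ)} (hp : p ∈ Om I M e0 δ) :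
    Filter.Tendsto L (𝓝[Om I M e0 δ] p) (𝓝[T] (L p)) := by
  have hsub : Om I M e0 δ ⊆ Bx I M e0 δ := fun q hq => hq.1
  refine tendsto_nhdsWithin_of_tendsto_nhds_of_eventually_within _
    ((h.Lcont p hp.1).mono hsub) ?_
  filter_upwards [self_mem_nhdsWithin] with q hq
  exact (h.Lmaps q hq.1).1

theorem s4_exp (n : I → ℤ) (l : E → ℤ) (c : ℝ) {p : (I → ℝ) × (E → ℝ)}
    (hp : ∀ i, 0 < p.1 i) :
    Real.exp (Aff (fun i => (n i : ℝ)) (fun e => (l e : ℝ)) c p) =
      Real.exp c * (∏ i, p.1 i ^ n i) * Real.exp (∑ e, (l e : ℝ) * p.2 e) := by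
  unfold Aff
  rw [Real.exp_add, Real.exp_add, Real.exp_sum]
  have e1 : ∏ i, Real.exp ((n i : ℝ) * Real.log (p.1 i)) = ∏ i, p.1 i ^ n i := by
    refine Finset.prod_congr rfl fun i _ => ?_
    rw [mul_comm, ← Real.rpow_def_of_pos (hp i), Real.rpow_intCast]
  rw [e1]
  ring

theorem LM.s4_glob (h : LM T w t y M e0 U δ L) (hT : IsTr T) (hd : Dns T) {G : Finset P}
    (hG : AddSubmonoid.closure (G : Set P) = ⊤) (m : P) :
    ∃ (n : I → ℤ) (l : E → ℤ) (c : ℝ), ∀ p ∈ Om I M e0 δ,
      Real.log (L p m) = Aff (fun i => (n i : ℝ)) (fun e => (l e : ℝ)) c p := by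
  have hloc : ∀ p ∈ Om I M e0 δ, ∃ (n : I → ℤ) (l : E → ℤ) (c : ℝ),
      ∀ᶠ p' in 𝓝[Om I M e0 δ] p,
        Real.log (L p' m) = Aff (fun i => (n i : ℝ)) (fun e => (l e : ℝ)) c p' := by
    intro p hp
    have hb := h.Lmaps p hp.1
    have ht : ∀ i, t i (L p) ≠ 0 := fun i => by
      rw [h.s4_t hp.1]; exact (hp.2 i).ne'
    have hm := h.stratum_of_t hT hd hG hb ht m
    obtain ⟨n, l, c, hh⟩ := h.affX_model hb ht (h.aff (L p) hb m hm)
    rw [h.right p hp.1] at hh
    exact ⟨n, l, c, hh⟩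
  have hp0 := base_mem (I := I) (M := M) (e0 := e0) h.loopless h.δpos
  obtain ⟨n, l, c, hh⟩ := hloc _ hp0
  refine ⟨n, l, c, ?_⟩
  refine glob (g := fun p => Real.log (L p m)) (fun p hp => ?_) hp0 rfl hh
  obtain ⟨n, l, c, hh⟩ := hloc p hp
  exact ⟨_, _, _, hh⟩

theorem LM.s4_open (h : LM T w t y M e0 U δ L) (hT : IsTr T) (hd : Dns T) {G : Finset P}
    (hG : AddSubmonoid.closure (G : Set P) = ⊤) {m : P} {n : I → ℤ} {l : E → ℤ} {c : ℝ}
    (hh : ∀ p ∈ Om I M e0 δ,
      Real.log (L p m) = Aff (fun i => (n i : ℝ)) (fun e => (l e : ℝ)) c p)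
    {b : P → ℝ} (hb : b ∈ T ∩ U) (ht : ∀ i, t i b ≠ 0) :
    b m = Real.exp c * (∏ i, t i b ^ n i) * Real.exp (∑ e, (l e : ℝ) * y e b) := by
  have hom := h.s4_om hb ht
  have hm := h.stratum_of_t hT hd hG hb ht m
  have hpos : 0 < b m := lt_of_le_of_ne ((hT b hb.1).2.2 m) (Ne.symm hm)
  have h1 := hh _ hom
  rw [h.left b hb] at h1
  have h2 := s4_exp n l c (p := cm t y b) hom.2
  rw [← h1, Real.exp_log hpos] at h2
  exact h2

theorem LM.s4_nonneg (h : LM T w t y M e0 U δ L) (hT : IsTr T) (hd : Dns T) {G : Finset P}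
    (hG : AddSubmonoid.closure (G : Set P) = ⊤) {m : P} {n : I → ℤ} {l : E → ℤ} {c : ℝ}
    (hh : ∀ p ∈ Om I M e0 δ,
      Real.log (L p m) = Aff (fun i => (n i : ℝ)) (fun e => (l e : ℝ)) c p) (i : I) :
    0 ≤ n i := by
  classical
  by_contra hn
  push Not at hn
  have hδ := h.δpos
  have hbase := base_mem (I := I) (M := M) (e0 := e0) h.loopless h.δpos
  let q : ℝ → (I → ℝ) × (E → ℝ) := fun s => (fun j => if j = i then s else δ / 2, fun _ => 0)
  have hqB : ∀ s, 0 ≤ s → s < δ → q s ∈ Bx I M e0 δ := by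
    intro s h0 h1
    refine ⟨fun j => ?_, hbase.1.2.1, hbase.1.2.2.1, hbase.1.2.2.2⟩
    by_cases hj : j = i
    · simp only [q, hj, if_true]
      exact ⟨h0, h1⟩
    · simp only [q, hj, if_false]
      exact ⟨by linarith, by linarith⟩
  have hqO : ∀ s, 0 < s → s < δ → q s ∈ Om I M e0 δ := by
    intro s h0 h1
    refine ⟨hqB s h0.le h1, fun j => ?_⟩
    by_cases hj : j = i
    · simp only [q, hj, if_true]
      exact h0
    · simp only [q, hj, if_false]
      linarith
  have hqc : Continuous q := by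
    refine Continuous.prodMk (continuous_pi fun j => ?_) continuous_const
    by_cases hj : j = i
    · simp only [hj, if_true]
      exact continuous_id
    · simp only [hj, if_false]
      exact continuous_const
  have hev : ∀ᶠ s in 𝓝[>] (0 : ℝ), 0 < s ∧ s < δ := by
    filter_upwards [self_mem_nhdsWithin, mem_nhdsWithin_of_mem_nhds (Iio_mem_nhds hδ)] with s h1 h2
    exact ⟨h1, h2⟩
  have hq0 : Filter.Tendsto q (𝓝[>] (0 : ℝ)) (𝓝[Bx I M e0 δ] (q 0)) := by
    refine tendsto_nhdsWithin_of_tendsto_nhds_of_eventually_within _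
      (hqc.continuousAt.tendsto.mono_left nhdsWithin_le_nhds) ?_
    filter_upwards [hev] with s hs
    exact hqB s hs.1.le hs.2
  have hlim : Filter.Tendsto (fun s => L (q s) m) (𝓝[>] (0 : ℝ)) (𝓝 (L (q 0) m)) := by
    have h1 : Filter.Tendsto L (𝓝[Bx I M e0 δ] (q 0)) (𝓝 (L (q 0))) :=
      h.Lcont (q 0) (hqB 0 le_rfl hδ)
    exact ((continuous_apply m).continuousAt.tendsto.comp h1).comp hq0
  -- the values
  have hval : ∀ s, 0 < s → s < δ → Real.log (L (q s) m) =
      (n i : ℝ) * Real.log s + ((∑ j ∈ Finset.univ.erase i, (n j : ℝ) * Real.log (δ / 2)) + c) := by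
    intro s h0 h1
    rw [hh _ (hqO s h0 h1)]
    unfold Aff
    rw [← Finset.add_sum_erase Finset.univ _ (Finset.mem_univ i)]
    have e1 : ∑ j ∈ Finset.univ.erase i, (n j : ℝ) * Real.log ((q s).1 j) =
        ∑ j ∈ Finset.univ.erase i, (n j : ℝ) * Real.log (δ / 2) := by
      refine Finset.sum_congr rfl fun j hj => ?_
      have hj' : j ≠ i := Finset.ne_of_mem_erase hj
      simp only [q, hj', if_false]
    rw [e1]
    simp only [q, if_true, mul_zero, Finset.sum_const_zero, add_zero]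
    ring
  have hpos : ∀ s, 0 < s → s < δ → 0 < L (q s) m := by
    intro s h0 h1
    have hO := hqO s h0 h1
    have hb := h.Lmaps _ hO.1
    have hne := h.stratum_of_t hT hd hG hb (fun j => by
      rw [h.s4_t hO.1]; exact (hO.2 j).ne') m
    exact lt_of_le_of_ne ((hT _ hb.1).2.2 m) (Ne.symm hne)
  have hlog : Filter.Tendsto (fun s => Real.log (L (q s) m)) (𝓝[>] (0 : ℝ)) Filter.atTop := by
    have h1 : Filter.Tendsto (fun s : ℝ => (n i : ℝ) * Real.log s +
        ((∑ j ∈ Finset.univ.erase i, (n j : ℝ) * Real.log (δ / 2)) + c)) (𝓝[>] (0 : ℝ))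
        Filter.atTop := by
      refine Filter.tendsto_atTop_add_const_right _ _ ?_
      exact Real.tendsto_log_nhdsGT_zero.const_mul_atBot_of_neg (by exact_mod_cast hn)
    refine h1.congr' ?_
    filter_upwards [hev] with s hs
    exact (hval s hs.1 hs.2).symm
  have htop : Filter.Tendsto (fun s => L (q s) m) (𝓝[>] (0 : ℝ)) Filter.atTop := by
    refine (Real.tendsto_exp_atTop.comp hlog).congr' ?_
    filter_upwards [hev] with s hs
    exact Real.exp_log (hpos s hs.1 hs.2)
  exact not_tendsto_nhds_of_tendsto_atTop htop _ hlim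

/-- Every character is a monomial in the coordinates, on the whole chart. -/
theorem LM.coord (h : LM T w t y M e0 U δ L) (hT : IsTr T) (hd : Dns T) {G : Finset P}
    (hG : AddSubmonoid.closure (G : Set P) = ⊤) (m : P) :
    ∃ (n : I → ℕ) (l : E → ℤ) (c : ℝ), ∀ b ∈ T ∩ U, b m = Real.exp c * (∏ i, t i b ^ n i) *
      Real.exp (∑ e, (l e : ℝ) * y e b) := by
  obtain ⟨n, l, c, hh⟩ := h.s4_glob hT hd hG m
  have hn := h.s4_nonneg hT hd hG hh
  refine ⟨fun i => (n i).toNat, l, c, ?_⟩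
  have hc : ContinuousOn (cm t y) (T ∩ U) := h.cont
  have hct : ∀ i, ContinuousOn (t i) (T ∩ U) := fun i =>
    (continuous_apply i).comp_continuousOn (continuous_fst.comp_continuousOn hc)
  have hcy : ∀ e, ContinuousOn (y e) (T ∩ U) := fun e =>
    (continuous_apply e).comp_continuousOn (continuous_snd.comp_continuousOn hc)
  have key : Set.EqOn (fun b : P → ℝ => b m) (fun b => Real.exp c * (∏ i, t i b ^ (n i).toNat) *
      Real.exp (∑ e, (l e : ℝ) * y e b)) (T ∩ U) := by
    refine Set.EqOn.of_subset_closure (s := {b | b ∈ T ∩ U ∧ ∀ i, t i b ≠ 0}) ?_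
      (continuous_apply m).continuousOn ?_ (fun b hb => hb.1) ?_
    · rintro b ⟨hb, ht⟩
      show b m = _
      rw [h.s4_open hT hd hG hh hb ht]
      refine congrArg₂ _ (congrArg _ (Finset.prod_congr rfl fun i _ => ?_)) rfl
      rw [← zpow_natCast, Int.toNat_of_nonneg (hn i)]
    · refine (ContinuousOn.mul continuousOn_const ?_).mul ?_
      · exact continuousOn_finset_prod _ fun i _ => (hct i).pow _
      · exact (continuousOn_finset_sum _ fun e _ =>
          continuousOn_const.mul (hcy e)).rexp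
    · intro b hb
      rw [mem_closure_iff_nhds]
      intro V hV
      obtain ⟨b', ⟨hbT, hbV⟩, hb'⟩ := hd b hb.1 (V ∩ U)
        (Filter.inter_mem hV (h.isOpen.mem_nhds hb.2))
      have hTU : b' ∈ T ∩ U := ⟨hbT, hbV.2⟩
      exact ⟨b', hbV.1, hTU, fun i => h.t_of_stratum hT hG hTU hb' i⟩
  exact fun b hb => key hb

/-- The coordinates `t` are quotients of characters on the open stratum. -/
theorem LM.coord_t (h : LM T w t y M e0 U δ L) (hT : IsTr T) (hd : Dns T) {G : Finset P}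
    (hG : AddSubmonoid.closure (G : Set P) = ⊤) (i : I) : ∃ (m m' : P) (c : ℝ),
      ∀ b ∈ T ∩ U, (∀ j, t j b ≠ 0) → t i b = Real.exp c * (b m / b m') := by
  classical
  have hp0 := base_mem (I := I) (M := M) (e0 := e0) h.loopless h.δpos
  set p0 : (I → ℝ) × (E → ℝ) := (fun _ => δ / 2, fun _ => 0) with hp0def
  have hb0 := h.Lmaps p0 hp0.1
  have ht0 : t i (L p0) ≠ 0 := by
    rw [h.s4_t hp0.1]; exact (hp0.2 i).ne'
  obtain ⟨m, m', c, -, -, hc⟩ := h.afft (L p0) hb0 i ht0
  obtain ⟨n1, l1, c1, h1⟩ := h.s4_glob hT hd hG m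
  obtain ⟨n2, l2, c2, h2⟩ := h.s4_glob hT hd hG m'
  have hsub : ∀ p : (I → ℝ) × (E → ℝ),
      Aff (fun i => (n1 i : ℝ) - n2 i) (fun e => (l1 e : ℝ) - l2 e) (c1 - c2 + c) p =
      Aff (fun i => (n1 i : ℝ)) (fun e => (l1 e : ℝ)) c1 p -
        Aff (fun i => (n2 i : ℝ)) (fun e => (l2 e : ℝ)) c2 p + c := by
    intro p
    unfold Aff
    simp only [sub_mul, Finset.sum_sub_distrib]
    ring
  have hgerm : ∀ᶠ p in 𝓝[Om I M e0 δ] p0, Real.log (p.1 i) =
      Aff (fun i => (n1 i : ℝ) - n2 i) (fun e => (l1 e : ℝ) - l2 e) (c1 - c2 + c) p := by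
    filter_upwards [(h.s4_tend hp0).eventually hc, self_mem_nhdsWithin] with p hp hpO
    rw [hsub, ← h1 p hpO, ← h2 p hpO, ← h.s4_t hpO.1 i]
    exact hp
  have hall := glob (g := fun p : (I → ℝ) × (E → ℝ) => Real.log (p.1 i)) (fun p _ =>
    ⟨Pi.single i 1, 0, 0, Filter.Eventually.of_forall fun p' => by
      unfold Aff
      simp [Pi.single_apply]⟩) hp0 rfl hgerm
  refine ⟨m, m', c, fun b hb ht => ?_⟩
  have hom := h.s4_om hb ht
  have e1 := hall _ hom
  rw [hsub, ← h1 _ hom, ← h2 _ hom, h.left b hb] at e1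
  have e2 : Real.log (t i b) = Real.log (b m) - Real.log (b m') + c := e1
  have hti : 0 < t i b := hom.2 i
  have pos : ∀ m, 0 < b m := fun m =>
    lt_of_le_of_ne ((hT b hb.1).2.2 m) (Ne.symm (h.stratum_of_t hT hd hG hb ht m))
  rw [← Real.exp_log hti, e2, Real.exp_add, Real.exp_sub, Real.exp_log (pos m),
    Real.exp_log (pos m')]
  ring

/-- The coordinates `y` near `w`. -/
theorem LM.coord_y (h : LM T w t y M e0 U δ L) (hT : IsTr T)
    (hu : ∀ m : P, w m ≠ 0 → ∃ m' : P, m + m' = 0) (e : E) : ∃ m : P, w m ≠ 0 ∧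
      ∀ᶠ b in 𝓝[T] w, y e b = Real.log (b m) - Real.log (w m) := by
  obtain ⟨m1, m2, c, h1, h2, hc⟩ := h.affy w ⟨h.hw, h.w_mem⟩ e
  obtain ⟨m2', hm⟩ := hu m2 h2
  have hprod : ∀ b ∈ T, b m2 * b m2' = 1 := fun b hb => by
    rw [← (hT b hb).2.1, hm, (hT b hb).1]
  have hlog : ∀ b ∈ T, b m1 ≠ 0 →
      Real.log (b (m1 + m2')) = Real.log (b m1) - Real.log (b m2) := by
    intro b hb hb1
    have hp := hprod b hb
    have hb2 : b m2 ≠ 0 := left_ne_zero_of_mul_eq_one hp
    have hb2' : b m2' ≠ 0 := right_ne_zero_of_mul_eq_one hp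
    have e2 : Real.log (b m2) + Real.log (b m2') = 0 := by
      rw [← Real.log_mul hb2 hb2', hp, Real.log_one]
    rw [(hT b hb).2.1, Real.log_mul hb1 hb2']
    linarith
  have hw0 := hc.self_of_nhdsWithin h.hw
  rw [h.yw e] at hw0
  refine ⟨m1 + m2', ?_, ?_⟩
  · rw [(hT w h.hw).2.1]
    exact mul_ne_zero h1 (right_ne_zero_of_mul_eq_one (hprod w h.hw))
  · have hne : ∀ᶠ b in 𝓝[T] w, b m1 ≠ 0 :=
      nhdsWithin_le_nhds ((continuous_apply m1).continuousAt.eventually_ne h1)
    filter_upwards [hc, hne, self_mem_nhdsWithin] with b hb hb1 hbT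
    rw [hb, hlog b hbT hb1, hlog w h.hw h1]
    linarith

/-- The exponents are unique. -/
theorem LM.coord_uniq (h : LM T w t y M e0 U δ L) {n n' : I → ℤ} {l l' : E → ℤ} {c c' : ℝ}
    (he : ∀ b ∈ T ∩ U, (∀ i, t i b ≠ 0) →
      Real.exp c * (∏ i, t i b ^ n i) * Real.exp (∑ e, (l e : ℝ) * y e b) =
      Real.exp c' * (∏ i, t i b ^ n' i) * Real.exp (∑ e, (l' e : ℝ) * y e b)) :
    n = n' ∧ c = c' := by
  have hall : ∀ p ∈ Om I M e0 δ, Aff (fun i => (n i : ℝ)) (fun e => (l e : ℝ)) c p =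
      Aff (fun i => (n' i : ℝ)) (fun e => (l' e : ℝ)) c' p := by
    intro p hp
    have h1 := he (L p) (h.Lmaps p hp.1) (fun i => by
      rw [h.s4_t hp.1]; exact (hp.2 i).ne')
    simp only [h.s4_t hp.1, h.s4_y hp.1] at h1
    rw [← s4_exp n l c hp.2, ← s4_exp n' l' c' hp.2] at h1
    exact Real.exp_injective h1
  obtain ⟨h1, h2⟩ := aff_uniq h.loopless h.δpos hall
  refine ⟨funext fun i => ?_, h2⟩
  have h3 := congrFun h1 i
  exact_mod_cast h3

end Pool.Agent.TD.R


end

section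

/-! Facets (PAPER2.md, FA1): Laurent polynomials in `u` are dense (module TD_FA_DNS). -/

open scoped Topology NNReal

namespace Pool.Agent.TD.FA

variable {K A N σ : Type} [NormedField K] [IsUltrametricDist K] [CommRing A] [Algebra K A]
  [AddCommGroup N] [Fintype σ] {chi : N → A} {u : σ → N} {coef : N →+ (σ → ℤ)} {w : N →+ ℝ}

/-- The Laurent monomial in `u` with exponent `a`. -/
def um (u : σ → N) (a : σ → ℤ) : N := ∑ i, a i • u i

namespace Dns

/-! ### Evaluation -/

section ev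

variable {K A N : Type} [NormedField K] [CommRing A] [Algebra K A] {chi : N → A}

theorem ev_zero : ev chi (0 : N →₀ K) = 0 := Finsupp.sum_zero_index

theorem ev_add (F G : N →₀ K) : ev chi (F + G) = ev chi F + ev chi G := by
  classical
  unfold ev
  rw [Finsupp.sum_add_index']
  · intro m
    rw [map_zero, zero_mul]
  · intro m c c'
    rw [map_add, add_mul]

theorem ev_single (m : N) (c : K) : ev chi (Finsupp.single m c) = algebraMap K A c * chi m := by
  unfold ev
  rw [Finsupp.sum_single_index]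
  rw [map_zero, zero_mul]

theorem ev_sum {ι : Type} (s : Finset ι) (F : ι → N →₀ K) :
    ev chi (∑ i ∈ s, F i) = ∑ i ∈ s, ev chi (F i) := by
  classical
  induction s using Finset.induction_on with
  | empty => rw [Finset.sum_empty, Finset.sum_empty, ev_zero]
  | insert i s hi ih => rw [Finset.sum_insert hi, Finset.sum_insert hi, ev_add, ih]

end ev

/-! ### The quotient norm as a real number -/

theorem q_add (hs : ∀ a : A, ∃ F : N →₀ K, ev chi F = a) (a b : A) :
    (qn (K := K) chi w (a + b) : ℝ) ≤ max (qn (K := K) chi w a : ℝ) (qn (K := K) chi w b) := by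
  have h := qn_add (K := K) (w := w) hs a b
  exact_mod_cast h

theorem q_mul (h0 : chi 0 = 1) (hm : ∀ m m', chi (m + m') = chi m * chi m')
    (hs : ∀ a : A, ∃ F : N →₀ K, ev chi F = a) (a b : A) :
    (qn (K := K) chi w (a * b) : ℝ) ≤ (qn (K := K) chi w a : ℝ) * (qn (K := K) chi w b) := by
  have h := qn_mul (K := K) (w := w) h0 hm hs a b
  exact_mod_cast h

theorem q_sum (hs : ∀ a : A, ∃ F : N →₀ K, ev chi F = a) {ι : Type} (s : Finset ι) (f : ι → A)
    {B : ℝ} (hB : 0 ≤ B) (h : ∀ i ∈ s, (qn (K := K) chi w (f i) : ℝ) ≤ B) :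
    (qn (K := K) chi w (∑ i ∈ s, f i) : ℝ) ≤ B := by
  classical
  induction s using Finset.induction_on with
  | empty =>
    rw [Finset.sum_empty, qn_zero]
    exact hB
  | insert i s hi ih =>
    rw [Finset.sum_insert hi]
    exact (q_add hs _ _).trans (max_le (h i (Finset.mem_insert_self i s))
      (ih fun j hj => h j (Finset.mem_insert_of_mem hj)))

/-! ### The kernel of `coef` -/

/-- A uniform approximation of the character `m0` by a constant. -/
def Good (K : Type) {A N : Type} [NormedField K] [CommRing A] [Algebra K A] [AddCommGroup N]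
    (chi : N → A) (w : N →+ ℝ) (θ : ℝ) (m0 : N) : Prop :=
  ∃ c : K, ‖c‖ = Real.exp (w m0) ∧
    (qn (K := K) chi w (chi m0 - algebraMap K A c) : ℝ) ≤ θ * Real.exp (w m0)

theorem Good.mono {θ θ' : ℝ} (hθ : θ ≤ θ') {m0 : N} (h : Good K chi w θ m0) :
    Good K chi w θ' m0 := by
  obtain ⟨c, h1, h2⟩ := h
  exact ⟨c, h1, h2.trans (mul_le_mul_of_nonneg_right hθ (Real.exp_pos _).le)⟩

theorem Good.zero (h : Facet K chi u coef w) {θ : ℝ} (hθ : 0 ≤ θ) : Good K chi w θ (0 : N) := by
  refine ⟨1, by rw [map_zero, Real.exp_zero, norm_one], ?_⟩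
  rw [h.chi_zero, map_one, sub_self, qn_zero, map_zero, Real.exp_zero, mul_one]
  exact hθ

theorem Good.add (h : Facet K chi u coef w) {θ : ℝ} {g g' : N}
    (hg : Good K chi w θ g) (hg' : Good K chi w θ g') : Good K chi w θ (g + g') := by
  obtain ⟨c, h1, h2⟩ := hg
  obtain ⟨c', h1', h2'⟩ := hg'
  refine ⟨c * c', by rw [norm_mul, h1, h1', map_add, Real.exp_add], ?_⟩
  have e : chi (g + g') - algebraMap K A (c * c') =
      chi g * (chi g' - algebraMap K A c') + algebraMap K A c' * (chi g - algebraMap K A c) := by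
    rw [h.chi_add, map_mul]
    ring
  rw [e]
  refine (q_add h.span _ _).trans (max_le ?_ ?_)
  · refine (q_mul h.chi_zero h.chi_add h.span _ _).trans ?_
    calc (qn (K := K) chi w (chi g) : ℝ) * (qn (K := K) chi w (chi g' - algebraMap K A c'))
        ≤ Real.exp (w g) * (θ * Real.exp (w g')) :=
          mul_le_mul (qn_chi g) h2' (NNReal.coe_nonneg _) (Real.exp_pos _).le
      _ = θ * Real.exp (w (g + g')) := by rw [map_add, Real.exp_add]; ring
  · refine (q_mul h.chi_zero h.chi_add h.span _ _).trans ?_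
    calc (qn (K := K) chi w (algebraMap K A c') : ℝ) * (qn (K := K) chi w (chi g - algebraMap K A c))
        ≤ ‖c'‖ * (θ * Real.exp (w g)) :=
          mul_le_mul (qn_C h.chi_zero c') h2 (NNReal.coe_nonneg _) (norm_nonneg _)
      _ = θ * Real.exp (w (g + g')) := by rw [h1', map_add, Real.exp_add]; ring

theorem Good.neg (h : Facet K chi u coef w) {θ : ℝ} {g : N} (hg : Good K chi w θ g) :
    Good K chi w θ (-g) := by
  obtain ⟨c, h1, h2⟩ := hg
  have hc0 : ‖c‖ ≠ 0 := by rw [h1]; exact (Real.exp_pos _).ne'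
  have hc : c ≠ 0 := norm_ne_zero_iff.1 hc0
  have hn : ‖c⁻¹‖ = Real.exp (w (-g)) := by rw [norm_inv, h1, map_neg, Real.exp_neg]
  refine ⟨c⁻¹, hn, ?_⟩
  have e1 : chi (-g) * chi g = 1 := by rw [← h.chi_add, neg_add_cancel, h.chi_zero]
  have e2 : algebraMap K A c⁻¹ * algebraMap K A c = 1 := by
    rw [← map_mul, inv_mul_cancel₀ hc, map_one]
  have e : chi (-g) - algebraMap K A c⁻¹ =
      -(chi (-g) * (algebraMap K A c⁻¹ * (chi g - algebraMap K A c))) := by
    have e3 : chi (-g) * (algebraMap K A c⁻¹ * (chi g - algebraMap K A c)) =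
        (chi (-g) * chi g) * algebraMap K A c⁻¹ -
          chi (-g) * (algebraMap K A c⁻¹ * algebraMap K A c) := by ring
    rw [e3, e1, e2]
    ring
  rw [e, qn_neg]
  refine (q_mul h.chi_zero h.chi_add h.span _ _).trans ?_
  have h3 : (qn (K := K) chi w (algebraMap K A c⁻¹ * (chi g - algebraMap K A c)) : ℝ) ≤
      Real.exp (w (-g)) * (θ * Real.exp (w g)) := by
    refine (q_mul h.chi_zero h.chi_add h.span _ _).trans ?_
    exact mul_le_mul ((qn_C h.chi_zero c⁻¹).trans hn.le) h2 (NNReal.coe_nonneg _)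
      (Real.exp_pos _).le
  calc (qn (K := K) chi w (chi (-g)) : ℝ) *
        (qn (K := K) chi w (algebraMap K A c⁻¹ * (chi g - algebraMap K A c)))
      ≤ Real.exp (w (-g)) * (Real.exp (w (-g)) * (θ * Real.exp (w g))) :=
        mul_le_mul (qn_chi (-g)) h3 (NNReal.coe_nonneg _) (Real.exp_pos _).le
    _ = θ * Real.exp (w (-g)) := by
        have e4 : Real.exp (w (-g)) * Real.exp (w g) = 1 := by
          rw [← Real.exp_add, ← map_add, neg_add_cancel, map_zero, Real.exp_zero]
        calc Real.exp (w (-g)) * (Real.exp (w (-g)) * (θ * Real.exp (w g)))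
            = θ * Real.exp (w (-g)) * (Real.exp (w (-g)) * Real.exp (w g)) := by ring
          _ = θ * Real.exp (w (-g)) := by rw [e4, mul_one]

/-- The fibre at `w` is not empty. -/
theorem fib_nonempty (h : Facet K chi u coef w) : (Fib K chi w).Nonempty := by
  obtain ⟨δ, hδ, hv⟩ := h.near
  have h1 := hv (fun _ => 0) (fun i => by rw [abs_zero]; exact hδ)
  have e : (fun m => w m + ∑ i, (coef m i : ℝ) * (fun _ : σ => (0 : ℝ)) i) = w := by
    funext m
    simp
  rwa [e] at h1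

/-- Every element of the kernel is approximated. -/
theorem exists_good (h : Facet K chi u coef w) {m0 : N} (hm : coef m0 = 0) :
    ∃ θ : ℝ, 0 ≤ θ ∧ θ < 1 ∧ Good K chi w θ m0 := by
  obtain ⟨c, hc⟩ := h.weight m0 hm
  obtain ⟨z, hz⟩ := fib_nonempty h
  have hp : 0 < Real.exp (w m0) := Real.exp_pos _
  refine ⟨(qn (K := K) chi w (chi m0 - algebraMap K A c) : ℝ) / Real.exp (w m0),
    div_nonneg (NNReal.coe_nonneg _) hp.le, (div_lt_one hp).2 hc, c, ?_, ?_⟩
  · have h1 : z.v (chi m0) = Real.exp (w m0) := hz m0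
    have h2 : z.v (chi m0 - algebraMap K A c) < z.v (chi m0) := by
      rw [h1]
      exact (v_le_qn h.span hz _).trans_lt hc
    have h3 := z.sub_eq h2
    rw [z.ext] at h3
    rw [h3, h1]
  · rw [div_mul_cancel₀ _ hp.ne']

/-- One constant for finitely many elements. -/
theorem exists_good_finset (h : Facet K chi u coef w) (S : Finset N)
    (hS : ∀ m0 ∈ S, coef m0 = 0) :
    ∃ θ : ℝ, 0 ≤ θ ∧ θ < 1 ∧ ∀ m0 ∈ S, Good K chi w θ m0 := by
  classical
  induction S using Finset.induction_on with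
  | empty => exact ⟨0, le_rfl, one_pos, fun m hm => absurd hm (Finset.notMem_empty m)⟩
  | insert g S hg ih =>
    obtain ⟨θ, h0, h1, h2⟩ := ih fun m hm => hS m (Finset.mem_insert_of_mem hm)
    obtain ⟨θ', h0', h1', h2'⟩ := exists_good h (hS g (Finset.mem_insert_self g S))
    refine ⟨max θ θ', h0.trans (le_max_left _ _), max_lt h1 h1', fun m hm => ?_⟩
    rcases Finset.mem_insert.1 hm with rfl | hm
    · exact h2'.mono (le_max_right _ _)
    · exact (h2 m hm).mono (le_max_left _ _)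

/-- The kernel is finitely generated. -/
theorem ker_fg (h : Facet K chi u coef w) : coef.ker.FG := by
  haveI : Module.Finite ℤ N := Module.Finite.iff_addGroup_fg.2 h.fg
  have h1 : (AddSubgroup.toIntSubmodule coef.ker).FG := IsNoetherian.noetherian _
  have h2 := (Submodule.fg_iff_addSubgroup_fg _).1 h1
  exact h2

theorem exists_theta_ker (h : Facet K chi u coef w) :
    ∃ θ : ℝ, 0 ≤ θ ∧ θ < 1 ∧ ∀ m0 : N, coef m0 = 0 → Good K chi w θ m0 := by
  obtain ⟨S, hS⟩ := ker_fg h
  have hS' : ∀ m0 ∈ S, coef m0 = 0 := by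
    intro m0 hm
    have h1 : m0 ∈ coef.ker := by
      rw [← hS]
      exact AddSubgroup.subset_closure hm
    exact h1
  obtain ⟨θ, h0, h1, h2⟩ := exists_good_finset h S hS'
  refine ⟨θ, h0, h1, fun m0 hm => ?_⟩
  let T : AddSubgroup N :=
    { carrier := {m | Good K chi w θ m}
      zero_mem' := Good.zero h h0
      add_mem' := fun ha hb => Good.add h ha hb
      neg_mem' := fun ha => Good.neg h ha }
  have h3 : AddSubgroup.closure (S : Set N) ≤ T := (AddSubgroup.closure_le T).2 h2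
  rw [hS] at h3
  exact h3 hm

/-! ### The exponents of `um` -/

theorem coef_um (h : Facet K chi u coef w) (a : σ → ℤ) : coef (um u a) = a := by
  classical
  funext j
  unfold um
  rw [map_sum, Finset.sum_apply, Finset.sum_eq_single j]
  · rw [map_zsmul, Pi.smul_apply, h.coef_self, smul_eq_mul, mul_one]
  · intro i _ hij
    rw [map_zsmul, Pi.smul_apply, h.coef_ne i j hij, smul_zero]
  · intro hj
    exact absurd (Finset.mem_univ j) hj

/-- Approximation of a combination of characters. -/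
theorem approx_ev (h : Facet K chi u coef w) {θ : ℝ} (hθ : 0 ≤ θ) (c : N → K)
    (hc : ∀ m, (qn (K := K) chi w (chi m - algebraMap K A (c m) * chi (um u (coef m))) : ℝ) ≤
      θ * Real.exp (w m)) (F : N →₀ K) :
    (qn (K := K) chi w (ev chi F - ev (fun n => chi (um u n))
      (∑ m ∈ F.support, Finsupp.single (coef m) (F m * c m))) : ℝ) ≤ θ * BG.nrm (wt w) F := by
  have e : ev chi F - ev (fun n => chi (um u n))
      (∑ m ∈ F.support, Finsupp.single (coef m) (F m * c m)) =
      ∑ m ∈ F.support, algebraMap K A (F m) *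
        (chi m - algebraMap K A (c m) * chi (um u (coef m))) := by
    rw [ev_sum]
    have e1 : ev chi F = ∑ m ∈ F.support, algebraMap K A (F m) * chi m := rfl
    rw [e1, ← Finset.sum_sub_distrib]
    refine Finset.sum_congr rfl fun m _ => ?_
    rw [ev_single, map_mul]
    ring
  rw [e]
  refine q_sum h.span _ _ (mul_nonneg hθ (NNReal.coe_nonneg _)) fun m _ => ?_
  refine (q_mul h.chi_zero h.chi_add h.span _ _).trans ?_
  have h1 : ‖F m‖ * Real.exp (w m) ≤ BG.nrm (wt w) F := by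
    have h2 := BG.le_nrm (wt := wt w) F m
    have h3 : ((‖F m‖₊ * wt w m : ℝ≥0) : ℝ) ≤ BG.nrm (wt w) F := NNReal.coe_le_coe.2 h2
    rw [NNReal.coe_mul, coe_nnnorm] at h3
    unfold wt at h3
    rwa [Real.coe_toNNReal _ (Real.exp_pos _).le] at h3
  calc (qn (K := K) chi w (algebraMap K A (F m)) : ℝ) *
        (qn (K := K) chi w (chi m - algebraMap K A (c m) * chi (um u (coef m))))
      ≤ ‖F m‖ * (θ * Real.exp (w m)) :=
        mul_le_mul (qn_C h.chi_zero _) (hc m) (NNReal.coe_nonneg _) (norm_nonneg _)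
    _ = θ * (‖F m‖ * Real.exp (w m)) := by ring
    _ ≤ θ * BG.nrm (wt w) F := mul_le_mul_of_nonneg_left h1 hθ

end Dns

open Dns

/-- (FA1), first part: uniform approximation of characters. -/
theorem exists_theta (h : Facet K chi u coef w) : ∃ θ : ℝ, 0 ≤ θ ∧ θ < 1 ∧ ∀ m : N, ∃ c : K,
    ‖c‖ * Real.exp (w (um u (coef m))) = Real.exp (w m) ∧
    (qn (K := K) chi w (chi m - algebraMap K A c * chi (um u (coef m))) : ℝ) ≤
      θ * Real.exp (w m) := by
  obtain ⟨θ, h0, h1, h2⟩ := exists_theta_ker h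
  refine ⟨θ, h0, h1, fun m => ?_⟩
  have hk : coef (m - um u (coef m)) = 0 := by rw [map_sub, coef_um h, sub_self]
  obtain ⟨c, hc1, hc2⟩ := h2 _ hk
  have hw : Real.exp (w (m - um u (coef m))) * Real.exp (w (um u (coef m))) =
      Real.exp (w m) := by
    rw [← Real.exp_add, ← map_add, sub_add_cancel]
  refine ⟨c, by rw [hc1, hw], ?_⟩
  have e : chi m - algebraMap K A c * chi (um u (coef m)) =
      chi (um u (coef m)) * (chi (m - um u (coef m)) - algebraMap K A c) := by
    have e1 : chi m = chi (um u (coef m)) * chi (m - um u (coef m)) := by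
      rw [← h.chi_add, add_sub_cancel]
    rw [mul_sub, ← e1]
    ring
  rw [e]
  refine (q_mul h.chi_zero h.chi_add h.span _ _).trans ?_
  calc (qn (K := K) chi w (chi (um u (coef m))) : ℝ) *
        (qn (K := K) chi w (chi (m - um u (coef m)) - algebraMap K A c))
      ≤ Real.exp (w (um u (coef m))) * (θ * Real.exp (w (m - um u (coef m)))) :=
        mul_le_mul (qn_chi _) hc2 (NNReal.coe_nonneg _) (Real.exp_pos _).le
    _ = θ * Real.exp (w m) := by rw [← hw]; ring

/-- (FA1): density. -/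
theorem exists_approx (h : Facet K chi u coef w) (a : A) {ε : ℝ} (hε : 0 < ε) :
    ∃ G : (σ → ℤ) →₀ K, (qn (K := K) chi w (a - ev (fun n => chi (um u n)) G) : ℝ) < ε := by
  obtain ⟨θ0, h00, h01, h02⟩ := exists_theta h
  choose c hc1 hc2 using h02
  -- a constant between `θ0` and `1`
  obtain ⟨θ, hθ0, hθ1⟩ := exists_between h01
  have hθp : 0 < θ := lt_of_le_of_lt h00 hθ0
  -- one step
  have step : ∀ b : A, ∃ G : (σ → ℤ) →₀ K,
      (qn (K := K) chi w (b - ev (fun n => chi (um u n)) G) : ℝ) ≤ θ * qn (K := K) chi w b := by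
    intro b
    by_cases hb : qn (K := K) chi w b = 0
    · refine ⟨0, ?_⟩
      rw [ev_zero, sub_zero, hb, NNReal.coe_zero, mul_zero]
    · have hbp : 0 < qn (K := K) chi w b := pos_iff_ne_zero.2 hb
      have hbp' : (0 : ℝ) < qn (K := K) chi w b := NNReal.coe_pos.2 hbp
      -- the error allowed for the representation
      obtain ⟨η, hη0, hη⟩ : ∃ η : ℝ≥0, 0 < η ∧
          θ0 * ((qn (K := K) chi w b : ℝ) + η) ≤ θ * qn (K := K) chi w b := by
        have h3 : 0 < (θ - θ0) * (qn (K := K) chi w b : ℝ) := mul_pos (sub_pos.2 hθ0) hbp'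
        refine ⟨((θ - θ0) * (qn (K := K) chi w b : ℝ)).toNNReal, Real.toNNReal_pos.2 h3, ?_⟩
        rw [Real.coe_toNNReal _ h3.le]
        have h4 : θ0 * ((θ - θ0) * (qn (K := K) chi w b : ℝ)) ≤
            1 * ((θ - θ0) * (qn (K := K) chi w b : ℝ)) := mul_le_mul_of_nonneg_right h01.le h3.le
        nlinarith [h4]
      obtain ⟨F, hF1, hF2⟩ := exists_lt (K := K) (w := w) h.span b hη0
      have h5 := approx_ev h h00 c hc2 F
      rw [hF1] at h5
      refine ⟨_, h5.trans ?_⟩
      refine (mul_le_mul_of_nonneg_left ?_ h00).trans hη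
      have h6 : (BG.nrm (wt w) F : ℝ) < ((qn (K := K) chi w b + η : ℝ≥0) : ℝ) :=
        NNReal.coe_lt_coe.2 hF2
      rw [NNReal.coe_add] at h6
      exact h6.le
  -- iteration
  have iter : ∀ k : ℕ, ∃ G : (σ → ℤ) →₀ K,
      (qn (K := K) chi w (a - ev (fun n => chi (um u n)) G) : ℝ) ≤
        θ ^ k * qn (K := K) chi w a := by
    intro k
    induction k with
    | zero =>
      refine ⟨0, ?_⟩
      rw [ev_zero, sub_zero, pow_zero, one_mul]
    | succ k ih =>
      obtain ⟨G, hG⟩ := ih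
      obtain ⟨G', hG'⟩ := step (a - ev (fun n => chi (um u n)) G)
      refine ⟨G + G', ?_⟩
      rw [ev_add, ← sub_sub]
      refine hG'.trans ?_
      rw [pow_succ, mul_comm (θ ^ k) θ, mul_assoc]
      exact mul_le_mul_of_nonneg_left hG hθp.le
  obtain ⟨k, hk⟩ := exists_pow_lt_of_lt_one (div_pos hε (by
    have := NNReal.coe_nonneg (qn (K := K) chi w a)
    linarith : (0 : ℝ) < (qn (K := K) chi w a : ℝ) + 1)) hθ1
  obtain ⟨G, hG⟩ := iter k
  refine ⟨G, hG.trans_lt ?_⟩
  have hq := NNReal.coe_nonneg (qn (K := K) chi w a)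
  have hq1 : (0 : ℝ) < (qn (K := K) chi w a : ℝ) + 1 := by linarith
  rw [lt_div_iff₀ hq1] at hk
  refine lt_of_le_of_lt ?_ hk
  exact mul_le_mul_of_nonneg_left (by linarith) (pow_pos hθp k).le

end Pool.Agent.TD.FA


end

section

/-! Facets (PAPER2.md, FA3): the quotient norm of Laurent polynomials in `u`
(module TD_FA_GAU). -/

open scoped Topology NNReal

namespace Pool.Agent.TD.FA

variable {K A N σ : Type} [NormedField K] [IsUltrametricDist K] [CommRing A] [Algebra K A]
  [AddCommGroup N] [Fintype σ] {chi : N → A} {u : σ → N} {coef : N →+ (σ → ℤ)} {w : N →+ ℝ}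

omit [IsUltrametricDist K] in
private theorem coef_um' (h : Facet K chi u coef w) (n : σ → ℤ) : coef (um u n) = n := by
  classical
  funext j
  unfold um
  rw [map_sum, Finset.sum_apply, Finset.sum_eq_single j]
  · rw [map_zsmul, Pi.smul_apply, h.coef_self, smul_eq_mul, mul_one]
  · intro i _ hij
    rw [map_zsmul, Pi.smul_apply, h.coef_ne i j hij, smul_zero]
  · intro hj
    exact absurd (Finset.mem_univ j) hj

omit [IsUltrametricDist K] in
private theorem um_inj' (h : Facet K chi u coef w) : Function.Injective (um u) := by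
  intro a b hab
  rw [← coef_um' h a, hab, coef_um' h b]

omit [IsUltrametricDist K] [AddCommGroup N] [Fintype σ] in
private theorem coe_wt' (w : N → ℝ) (m : N) : ((wt w m : ℝ≥0) : ℝ) = Real.exp (w m) :=
  Real.coe_toNNReal _ (Real.exp_pos _).le

omit [IsUltrametricDist K] in
private theorem ev_map' (G : (σ → ℤ) →₀ K) :
    ev chi (G.mapDomain (um u)) = ev (fun n => chi (um u n)) G := by
  unfold ev
  rw [Finsupp.sum_mapDomain_index]
  · intro b; simp
  · intro b x y; rw [map_add, add_mul]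

omit [IsUltrametricDist K] [AddCommGroup N] [Fintype σ] in
private theorem ev_sub' (F G : N →₀ K) : ev chi (F - G) = ev chi F - ev chi G := by
  unfold ev
  rw [Finsupp.sum_sub_index]
  intro b x y
  rw [map_sub, sub_mul]

/-- (FA3) -/
theorem qn_laurent (h : Facet K chi u coef w) (G : (σ → ℤ) →₀ K) :
    qn (K := K) chi w (ev (fun n => chi (um u n)) G) = BG.nrm (wt fun n => w (um u n)) G := by
  classical
  set P0 : N →₀ K := G.mapDomain (um u) with hP0
  have hinj := um_inj' h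
  have hP0a : ∀ n, P0 (um u n) = G n := fun n => Finsupp.mapDomain_apply hinj G n
  have hP0z : ∀ m, P0 m ≠ 0 → ∃ n, m = um u n := by
    intro m hm
    by_contra hcon
    push Not at hcon
    apply hm
    apply Finsupp.mapDomain_of_notMem_range
    rintro ⟨n, hn⟩
    exact hcon n hn.symm
  apply le_antisymm
  · rw [← ev_map']
    refine (qn_le _).trans ?_
    rw [BG.nrm_le_iff]
    intro m
    by_cases hm : P0 m = 0
    · rw [← hP0, hm, nnnorm_zero, zero_mul]; exact bot_le
    · obtain ⟨n, rfl⟩ := hP0z m hm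
      rw [← hP0, hP0a]
      exact BG.le_nrm (wt := wt fun n => w (um u n)) G n
  · by_contra hcon
    rw [not_le] at hcon
    obtain ⟨F, hF, hFlt⟩ := exists_lt (w := w) h.span (ev (fun n => chi (um u n)) G)
      (tsub_pos_of_lt hcon)
    rw [add_tsub_cancel_of_le hcon.le] at hFlt
    set N0 : ℝ≥0 := BG.nrm (wt fun n => w (um u n)) G with hN0
    have hN0pos : 0 < N0 := pos_of_gt hcon
    have hG0 : G ≠ 0 := by
      rintro rfl
      rw [hN0, BG.nrm_zero] at hN0pos
      exact lt_irrefl _ hN0pos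
    -- the set S and its extreme point
    let S : Finset (σ → ℤ) := G.support.filter
      fun n => ‖G n‖₊ * (wt fun n => w (um u n)) n = N0
    obtain ⟨n1, hn1, hn1'⟩ := BG.exists_nrm_eq (wt := wt fun n => w (um u n)) hG0
    have hS : S.Nonempty := ⟨n1, by simp only [S, Finset.mem_filter, Finsupp.mem_support_iff];
                                     exact ⟨hn1, hn1'⟩⟩
    obtain ⟨n0, hn0S, hn0max⟩ := S.exists_max_image (fun n => ∑ i, (n i) ^ 2) hS
    have hn0 : ‖G n0‖₊ * (wt fun n => w (um u n)) n0 = N0 := (Finset.mem_filter.1 hn0S).2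
    have hlt : ∀ n ∈ S, n ≠ n0 → ∑ i, (n i : ℝ) * (n0 i : ℝ) < ∑ i, (n0 i : ℝ) * (n0 i : ℝ) := by
      intro n hn hne
      have h1 : ∑ i, (n i) ^ 2 ≤ ∑ i, (n0 i) ^ 2 := hn0max n hn
      have h2 : 0 < ∑ i, (n i - n0 i) ^ 2 := by
        obtain ⟨i, hi⟩ : ∃ i, n i ≠ n0 i := by
          by_contra hc
          push Not at hc
          exact hne (funext hc)
        apply Finset.sum_pos' (fun i _ => sq_nonneg _)
        exact ⟨i, Finset.mem_univ i, by
          have : n i - n0 i ≠ 0 := sub_ne_zero.2 hi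
          positivity⟩
      have h3 : ∑ i, (n i - n0 i) ^ 2 =
          ∑ i, (n i) ^ 2 - 2 * ∑ i, n i * n0 i + ∑ i, (n0 i) ^ 2 := by
        rw [Finset.mul_sum, ← Finset.sum_sub_distrib, ← Finset.sum_add_distrib]
        exact Finset.sum_congr rfl fun i _ => by ring
      have h4 : ∑ i, n0 i * n0 i = ∑ i, (n0 i) ^ 2 :=
        Finset.sum_congr rfl fun i _ => by ring
      have h5 : ∑ i, n i * n0 i < ∑ i, n0 i * n0 i := by
        rw [h4]; linarith
      exact_mod_cast h5
    -- the function L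
    let L : N → ℝ := fun m => ∑ i, (coef m i : ℝ) * (n0 i : ℝ)
    have hLum : ∀ n, L (um u n) = ∑ i, (n i : ℝ) * (n0 i : ℝ) := by
      intro n
      simp only [L, coef_um' h]
    set P : N →₀ K := P0 - F with hP
    have hPev : ev chi P = 0 := by
      rw [hP, ev_sub', hF, hP0, ev_map', sub_self]
    have hFm : ∀ m, ‖F m‖ * Real.exp (w m) < N0 := by
      intro m
      have h1 := (BG.le_nrm (wt := wt w) F m).trans_lt hFlt
      have h2 : ((‖F m‖₊ * wt w m : ℝ≥0) : ℝ) < N0 := NNReal.coe_lt_coe.2 h1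
      rw [NNReal.coe_mul, coe_wt', coe_nnnorm] at h2
      exact h2
    have hn0' : ‖G n0‖ * Real.exp (w (um u n0)) = N0 := by
      rw [← hn0, NNReal.coe_mul, coe_wt', coe_nnnorm]
    have hPum : ‖P (um u n0)‖ = ‖G n0‖ := by
      have h1 : ‖F (um u n0)‖ < ‖G n0‖ := by
        have h2 := hFm (um u n0)
        rw [← hn0'] at h2
        exact lt_of_mul_lt_mul_right h2 (Real.exp_pos _).le
      rw [hP, Finsupp.sub_apply, hP0a, sub_eq_add_neg,
        IsUltrametricDist.norm_add_eq_max_of_norm_ne_norm, norm_neg, max_eq_left h1.le]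
      rw [norm_neg]
      exact h1.ne'
    have hPlt : ∀ m, m ≠ um u n0 → ∀ᶠ t : ℝ in 𝓝[>] 0,
        ‖P m‖ * Real.exp (w m + t * L m) < N0 * Real.exp (t * L (um u n0)) := by
      intro m hm
      by_cases hcase : ‖P m‖ * Real.exp (w m) < N0
      · have hcont : ContinuousAt (fun t : ℝ => N0 * Real.exp (t * L (um u n0)) -
            ‖P m‖ * Real.exp (w m + t * L m)) 0 := by fun_prop
        have h0 : 0 < (fun t : ℝ => N0 * Real.exp (t * L (um u n0)) -
            ‖P m‖ * Real.exp (w m + t * L m)) 0 := by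
          simp only [zero_mul, Real.exp_zero, mul_one, add_zero]
          linarith
        have h1 := hcont.eventually (lt_mem_nhds h0)
        have h2 : ∀ᶠ t : ℝ in 𝓝[>] 0, 0 < N0 * Real.exp (t * L (um u n0)) -
            ‖P m‖ * Real.exp (w m + t * L m) := nhdsWithin_le_nhds h1
        filter_upwards [h2] with t ht
        linarith
      · rw [not_lt] at hcase
        have hle : ‖P m‖ ≤ max ‖P0 m‖ ‖F m‖ := by
          rw [hP, Finsupp.sub_apply, sub_eq_add_neg, ← norm_neg (F m)]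
          exact IsUltrametricDist.norm_add_le_max _ _
        have hex := Real.exp_pos (w m)
        have h1 : ‖P m‖ * Real.exp (w m) ≤
            max (‖P0 m‖ * Real.exp (w m)) (‖F m‖ * Real.exp (w m)) := by
          rw [← max_mul_of_nonneg _ _ hex.le]
          exact mul_le_mul_of_nonneg_right hle hex.le
        have h2 : N0 ≤ ‖P0 m‖ * Real.exp (w m) := by
          rcases le_max_iff.1 (hcase.trans h1) with h3 | h3
          · exact h3
          · exact absurd (hFm m) (not_lt.2 h3)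
        have hne : P0 m ≠ 0 := by
          intro h3
          rw [h3, norm_zero, zero_mul] at h2
          exact absurd (NNReal.coe_pos.2 hN0pos) (not_lt.2 h2)
        obtain ⟨n, rfl⟩ := hP0z m hne
        rw [hP0a] at h2 h1 hne
        have h4 : ‖G n‖ * Real.exp (w (um u n)) ≤ N0 := by
          have h5 := BG.le_nrm (wt := wt fun n => w (um u n)) G n
          have h6 : ((‖G n‖₊ * (wt fun n => w (um u n)) n : ℝ≥0) : ℝ) ≤ N0 :=
            NNReal.coe_le_coe.2 h5
          rwa [NNReal.coe_mul, coe_wt', coe_nnnorm] at h6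
        have h7 : ‖G n‖ * Real.exp (w (um u n)) = N0 := le_antisymm h4 h2
        have hnS : n ∈ S := by
          simp only [S, Finset.mem_filter, Finsupp.mem_support_iff]
          refine ⟨hne, ?_⟩
          apply NNReal.eq
          rw [NNReal.coe_mul, coe_wt', coe_nnnorm]
          exact h7
        have hnn : n ≠ n0 := by
          rintro rfl
          exact hm rfl
        have h8 := hlt n hnS hnn
        rw [← hLum, ← hLum] at h8
        have h9 : ‖P (um u n)‖ * Real.exp (w (um u n)) ≤ N0 :=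
          h1.trans (max_le h4 (hFm _).le)
        filter_upwards [self_mem_nhdsWithin] with t ht
        have ht' : (0 : ℝ) < t := ht
        rw [Real.exp_add, ← mul_assoc]
        have h10 : Real.exp (t * L (um u n)) < Real.exp (t * L (um u n0)) :=
          Real.exp_lt_exp.2 (mul_lt_mul_of_pos_left h8 ht')
        calc ‖P (um u n)‖ * Real.exp (w (um u n)) * Real.exp (t * L (um u n))
            ≤ N0 * Real.exp (t * L (um u n)) :=
              mul_le_mul_of_nonneg_right h9 (Real.exp_pos _).le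
          _ < N0 * Real.exp (t * L (um u n0)) :=
              mul_lt_mul_of_pos_left h10 (NNReal.coe_pos.2 hN0pos)
    obtain ⟨δ, hδ, hnear⟩ := h.near
    have hev1 : ∀ᶠ t : ℝ in 𝓝[>] 0, ∀ m ∈ P.support, m ≠ um u n0 →
        ‖P m‖ * Real.exp (w m + t * L m) < N0 * Real.exp (t * L (um u n0)) := by
      rw [Filter.eventually_all_finset]
      intro m _
      by_cases hm : m = um u n0
      · exact Filter.Eventually.of_forall fun t hne => absurd hm hne
      · filter_upwards [hPlt m hm] with t ht _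
        exact ht
    have hev2 : ∀ᶠ t : ℝ in 𝓝[>] 0, ∀ i, |t * (n0 i : ℝ)| < δ := by
      rw [Filter.eventually_all]
      intro i
      have hcont : ContinuousAt (fun t : ℝ => |t * (n0 i : ℝ)|) 0 := by fun_prop
      have h0 : (fun t : ℝ => |t * (n0 i : ℝ)|) 0 < δ := by simpa using hδ
      exact nhdsWithin_le_nhds (hcont.eventually (gt_mem_nhds h0))
    obtain ⟨t, ht1, ht2⟩ := (hev1.and hev2).exists
    obtain ⟨z, hz⟩ := hnear (fun i => t * (n0 i : ℝ)) ht2
    have hwt : ∀ m, w m + ∑ i, (coef m i : ℝ) * (t * (n0 i : ℝ)) = w m + t * L m := by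
      intro m
      simp only [L, Finset.mul_sum]
      congr 1
      exact Finset.sum_congr rfl fun i _ => by ring
    refine not_single hz hPev (um u n0) ⟨?_, ?_⟩
    · intro h0
      rw [h0, norm_zero] at hPum
      rw [← hPum, zero_mul] at hn0'
      exact (NNReal.coe_pos.2 hN0pos).ne hn0'
    · intro m hm
      rw [← NNReal.coe_lt_coe, NNReal.coe_mul, NNReal.coe_mul, coe_wt', coe_wt', coe_nnnorm,
        coe_nnnorm, hwt, hwt, hPum]
      have h11 : ‖G n0‖ * Real.exp (w (um u n0) + t * L (um u n0)) =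
          N0 * Real.exp (t * L (um u n0)) := by
        rw [Real.exp_add, ← mul_assoc, hn0']
      rw [h11]
      by_cases hms : m ∈ P.support
      · exact ht1 m hms hm
      · rw [Finsupp.notMem_support_iff.1 hms, norm_zero, zero_mul]
        exact mul_pos (NNReal.coe_pos.2 hN0pos) (Real.exp_pos _)

end Pool.Agent.TD.FA


end

section

/-! Facets (PAPER2.md, FA2, FA4): the top point, uniqueness, density (module TD_FA_TOP). -/

open scoped Topology NNReal

namespace Pool.Agent.TD.FA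

variable {K A N σ : Type} [NormedField K] [IsUltrametricDist K] [CommRing A] [Algebra K A]
  [AddCommGroup N] [Fintype σ] {chi : N → A} {u : σ → N} {coef : N →+ (σ → ℤ)} {w : N →+ ℝ}

namespace TopP

/-! ### Products of finitely supported functions -/

/-- The convolution product. -/
noncomputable def mulF {E : Type} [AddCommGroup E] (F G : E →₀ K) : E →₀ K :=
  ∑ p ∈ F.support ×ˢ G.support, Finsupp.single (p.1 + p.2) (F p.1 * G p.2)

theorem le_nrm_mulF {E : Type} [AddCommGroup E] {wt : E → ℝ≥0} (h0 : ∀ x, 0 < wt x)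
    (hadd : ∀ x y, wt (x + y) = wt x * wt y) (r : E → E → Prop) [IsStrictTotalOrder E r]
    (hr : ∀ x y z, r x y → r (x + z) (y + z)) (F G : E →₀ K) :
    BG.nrm wt F * BG.nrm wt G ≤ BG.nrm wt (mulF F G) := by
  classical
  by_cases hF : F = 0
  · subst hF
    rw [BG.nrm_zero, zero_mul]; exact bot_le
  by_cases hG : G = 0
  · subst hG
    rw [BG.nrm_zero, mul_zero]; exact bot_le
  obtain ⟨x, hx⟩ := BG.exists_isLM h0 r hF
  obtain ⟨y, hy⟩ := BG.exists_isLM h0 r hG
  rw [hx.nrm_eq, hy.nrm_eq]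
  have hpos : 0 < ‖F x * G y‖₊ := by
    rw [nnnorm_mul]
    exact mul_pos (nnnorm_pos.2 hx.1) (nnnorm_pos.2 hy.1)
  have hmem : (x, y) ∈ F.support ×ˢ G.support := by
    rw [Finset.mem_product]
    exact ⟨Finsupp.mem_support_iff.2 hx.1, Finsupp.mem_support_iff.2 hy.1⟩
  have key : ∀ p ∈ (F.support ×ˢ G.support).erase (x, y),
      ‖(Finsupp.single (p.1 + p.2) (F p.1 * G p.2) : E →₀ K) (x + y)‖₊ < ‖F x * G y‖₊ := by
    rintro ⟨a, b⟩ hab
    rw [Finset.mem_erase] at hab
    by_cases hs : a + b = x + y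
    · show ‖(Finsupp.single (a + b) (F a * G b) : E →₀ K) (x + y)‖₊ < _
      rw [hs, Finsupp.single_eq_same]
      have hw : wt a * wt b = wt x * wt y := by rw [← hadd, ← hadd, hs]
      have hwp : 0 < wt x * wt y := mul_pos (h0 x) (h0 y)
      have hax : a ≠ x := by
        intro e
        subst e
        have : b = y := add_left_cancel hs
        exact hab.1 (by rw [this])
      have hby : b ≠ y := by
        intro e
        subst e
        exact hax (add_right_cancel hs)
      have h1 : ‖F a‖₊ * wt a * (‖G b‖₊ * wt b) < ‖F x‖₊ * wt x * (‖G y‖₊ * wt y) := by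
        rcases trichotomous_of r x a with h2 | h2 | h2
        · exact (mul_le_mul_right ((hy.2 b hby).1) _).trans_lt
            (mul_lt_mul_of_pos_right ((hx.2 a hax).2 h2) (mul_pos (nnnorm_pos.2 hy.1) (h0 y)))
        · exact absurd h2.symm hax
        · have h3 : r y b := by
            rcases trichotomous_of r y b with h4 | h4 | h4
            · exact h4
            · exact absurd h4.symm hby
            · exfalso
              have h5 := hr _ _ b h2
              have h6 := hr _ _ x h4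
              rw [hs] at h5
              rw [add_comm b x, add_comm y x] at h6
              exact irrefl_of r _ (trans_of r h5 h6)
          exact (mul_le_mul_left ((hx.2 a hax).1) _).trans_lt
            (mul_lt_mul_of_pos_left ((hy.2 b hby).2 h3) (mul_pos (nnnorm_pos.2 hx.1) (h0 x)))
      rw [nnnorm_mul, nnnorm_mul]
      have e1 : ‖F a‖₊ * wt a * (‖G b‖₊ * wt b) = ‖F a‖₊ * ‖G b‖₊ * (wt x * wt y) := by
        rw [← hw]; ring
      have e2 : ‖F x‖₊ * wt x * (‖G y‖₊ * wt y) = ‖F x‖₊ * ‖G y‖₊ * (wt x * wt y) := by ring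
      rw [e1, e2] at h1
      exact lt_of_mul_lt_mul_right h1 hwp.le
    · show ‖(Finsupp.single (a + b) (F a * G b) : E →₀ K) (x + y)‖₊ < _
      rw [Finsupp.single_eq_of_ne (Ne.symm hs), nnnorm_zero]
      exact hpos
  have hval : mulF F G (x + y) = F x * G y +
      ∑ p ∈ (F.support ×ˢ G.support).erase (x, y),
        (Finsupp.single (p.1 + p.2) (F p.1 * G p.2) : E →₀ K) (x + y) := by
    unfold mulF
    rw [← Finset.add_sum_erase _ _ hmem, Finsupp.add_apply, Finsupp.finsetSum_apply]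
    show (Finsupp.single (x + y) (F x * G y) : E →₀ K) (x + y) + _ = _
    rw [Finsupp.single_eq_same]
  have hsum : ‖∑ p ∈ (F.support ×ˢ G.support).erase (x, y),
        (Finsupp.single (p.1 + p.2) (F p.1 * G p.2) : E →₀ K) (x + y)‖₊ < ‖F x * G y‖₊ := by
    have h1 : ∀ (s : Finset (E × E)) (f : E × E → K), (∀ p ∈ s, ‖f p‖₊ < ‖F x * G y‖₊) →
        ‖∑ p ∈ s, f p‖₊ < ‖F x * G y‖₊ := by
      intro s f
      induction s using Finset.induction_on with
      | empty => intro _; simpa using hpos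
      | insert i s hi ih =>
        intro h
        rw [Finset.sum_insert hi]
        exact (IsUltrametricDist.nnnorm_add_le_max _ _).trans_lt
          (max_lt (h i (Finset.mem_insert_self _ _))
            (ih fun j hj => h j (Finset.mem_insert_of_mem hj)))
    exact h1 _ _ key
  have hnorm : ‖mulF F G (x + y)‖₊ = ‖F x * G y‖₊ := by
    rw [hval, IsUltrametricDist.nnnorm_add_eq_max_of_nnnorm_ne_nnnorm hsum.ne', max_eq_left hsum.le]
  calc ‖F x‖₊ * wt x * (‖G y‖₊ * wt y) = ‖mulF F G (x + y)‖₊ * wt (x + y) := by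
        rw [hnorm, hadd, nnnorm_mul]; ring
    _ ≤ _ := BG.le_nrm _ _

/-- A strict total order on exponents, compatible with addition. -/
theorem exists_order (σ : Type) [Fintype σ] : ∃ r : (σ → ℤ) → (σ → ℤ) → Prop,
    IsStrictTotalOrder (σ → ℤ) r ∧ ∀ x y z, r x y → r (x + z) (y + z) := by
  classical
  let e := Fintype.equivFin σ
  let f : (σ → ℤ) → Lex (Fin (Fintype.card σ) → ℤ) := fun x => toLex fun j => x (e.symm j)
  have hf : Function.Injective f := by
    intro x y h
    have h1 : (fun j => x (e.symm j)) = fun j => y (e.symm j) := toLex.injective h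
    funext i
    have h2 := congrFun h1 (e i)
    simpa using h2
  have hadd : ∀ x y, f (x + y) = f x + f y := fun x y => rfl
  refine ⟨fun x y => f x < f y, ?_, ?_⟩
  · exact {
      trichotomous := fun x y h1 h2 => hf (le_antisymm (not_lt.1 h2) (not_lt.1 h1))
      irrefl := fun x => lt_irrefl _
      trans := fun x y z => lt_trans }
  · intro x y z h
    show f (x + z) < f (y + z)
    rw [hadd, hadd]
    exact add_lt_add_iff_right _ |>.2 h

/-! ### Evaluation -/

theorem ev_eq_sum {N : Type} (chi : N → A) (F : N →₀ K) :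
    ev chi F = F.sum fun m c => algebraMap K A c * chi m := rfl

theorem ev_zero {N : Type} (chi : N → A) : ev chi (0 : N →₀ K) = 0 := Finsupp.sum_zero_index

theorem ev_add {N : Type} (chi : N → A) (F G : N →₀ K) :
    ev chi (F + G) = ev chi F + ev chi G := by
  classical
  unfold ev
  exact Finsupp.sum_add_index' (by simp) (by intros; rw [map_add, add_mul])

theorem ev_single {N : Type} (chi : N → A) (m : N) (c : K) :
    ev chi (Finsupp.single m c) = algebraMap K A c * chi m := by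
  unfold ev
  exact Finsupp.sum_single_index (by simp)

theorem ev_sum {N ι : Type} (chi : N → A) (s : Finset ι) (f : ι → N →₀ K) :
    ev chi (∑ i ∈ s, f i) = ∑ i ∈ s, ev chi (f i) := by
  classical
  induction s using Finset.induction_on with
  | empty => simp [ev_zero]
  | insert i s hi ih => rw [Finset.sum_insert hi, ev_add, ih, Finset.sum_insert hi]

theorem ev_mulF {E : Type} [AddCommGroup E] (chi : E → A)
    (hadd : ∀ x y, chi (x + y) = chi x * chi y) (F G : E →₀ K) :
    ev chi (mulF F G) = ev chi F * ev chi G := by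
  unfold mulF
  rw [ev_sum, Finset.sum_product]
  unfold ev
  rw [Finsupp.sum, Finsupp.sum, Finset.sum_mul_sum]
  refine Finset.sum_congr rfl fun a _ => Finset.sum_congr rfl fun b _ => ?_
  rw [Finsupp.sum_single_index (by simp), hadd, map_mul]
  ring

/-! ### Characters of the facet -/

theorem um_zero : um u 0 = 0 := by simp [um]

theorem um_add (a b : σ → ℤ) : um u (a + b) = um u a + um u b := by
  unfold um
  rw [← Finset.sum_add_distrib]
  exact Finset.sum_congr rfl fun i _ => by rw [Pi.add_apply, add_smul]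

theorem w_um (a : σ → ℤ) : w (um u a) = ∑ i, (a i : ℝ) * w (u i) := by
  unfold um
  rw [map_sum]
  exact Finset.sum_congr rfl fun i _ => by rw [map_zsmul, zsmul_eq_mul]

theorem coe_wt {N : Type} (w : N → ℝ) (m : N) : (wt w m : ℝ) = Real.exp (w m) :=
  Real.coe_toNNReal _ (Real.exp_pos _).le

theorem wt_pos {N : Type} (w : N → ℝ) (m : N) : 0 < wt w m := by
  rw [← NNReal.coe_pos, coe_wt]; exact Real.exp_pos _

theorem wt_um_add (x y : σ → ℤ) : wt (fun n => w (um u n)) (x + y) =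
    wt (fun n => w (um u n)) x * wt (fun n => w (um u n)) y := by
  apply NNReal.eq
  rw [NNReal.coe_mul, coe_wt, coe_wt, coe_wt, ← Real.exp_add, um_add, map_add]

theorem qn_mul_laurent (h : Facet K chi u coef w) (F G : (σ → ℤ) →₀ K) :
    qn (K := K) chi w (ev (fun n => chi (um u n)) F * ev (fun n => chi (um u n)) G) =
      qn (K := K) chi w (ev (fun n => chi (um u n)) F) *
        qn (K := K) chi w (ev (fun n => chi (um u n)) G) := by
  refine le_antisymm (qn_mul h.chi_zero h.chi_add h.span _ _) ?_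
  obtain ⟨r, hr, hr'⟩ := exists_order σ
  have hm : ∀ x y, (fun n => chi (um u n)) (x + y) =
      (fun n => chi (um u n)) x * (fun n => chi (um u n)) y := by
    intro x y
    show chi (um u (x + y)) = chi (um u x) * chi (um u y)
    rw [um_add, h.chi_add]
  rw [← ev_mulF _ hm, qn_laurent h, qn_laurent h, qn_laurent h]
  exact le_nrm_mulF (fun x => wt_pos _ x) wt_um_add r hr' F G

theorem qn_sub_comm (a b : A) : qn (K := K) chi w (a - b) = qn (K := K) chi w (b - a) := by
  rw [← qn_neg, neg_sub]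

/-- elements which are close have the same norm -/
theorem qn_eq_of_approx (hs : ∀ a : A, ∃ F : N →₀ K, ev chi F = a) {a b : A}
    (h : qn (K := K) chi w (a - b) < qn (K := K) chi w a) :
    qn (K := K) chi w b = qn (K := K) chi w a := by
  apply le_antisymm
  · have h1 := qn_add (K := K) (w := w) hs a (b - a)
    rw [show a + (b - a) = b by ring, qn_sub_comm] at h1
    exact h1.trans (max_le le_rfl h.le)
  · by_contra hc
    push Not at hc
    have h1 := qn_add (K := K) (w := w) hs (a - b) b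
    rw [show a - b + b = a by ring] at h1
    exact absurd h1 (not_le.2 (max_lt h hc))

end TopP

open TopP

/-- (FA4) the quotient norm is multiplicative. -/
theorem qn_mul_eq (h : Facet K chi u coef w) (a b : A) :
    qn (K := K) chi w (a * b) = qn (K := K) chi w a * qn (K := K) chi w b := by
  have hle : ∀ a b : A, qn (K := K) chi w (a * b) ≤ qn (K := K) chi w a * qn (K := K) chi w b :=
    fun a b => qn_mul h.chi_zero h.chi_add h.span a b
  by_cases ha : qn (K := K) chi w a = 0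
  · have h1 := hle a b
    rw [ha, zero_mul] at h1 ⊢
    exact le_antisymm h1 bot_le
  by_cases hb : qn (K := K) chi w b = 0
  · have h1 := hle a b
    rw [hb, mul_zero] at h1 ⊢
    exact le_antisymm h1 bot_le
  have ha' : 0 < qn (K := K) chi w a := pos_iff_ne_zero.2 ha
  have hb' : 0 < qn (K := K) chi w b := pos_iff_ne_zero.2 hb
  obtain ⟨F, hF⟩ := exists_approx h a (ε := ((min (qn (K := K) chi w a) (qn (K := K) chi w b) :
    ℝ≥0) : ℝ)) (NNReal.coe_pos.2 (lt_min ha' hb'))
  obtain ⟨G, hG⟩ := exists_approx h b (ε := ((min (qn (K := K) chi w a) (qn (K := K) chi w b) :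
    ℝ≥0) : ℝ)) (NNReal.coe_pos.2 (lt_min ha' hb'))
  rw [NNReal.coe_lt_coe] at hF hG
  set a' := ev (fun n => chi (um u n)) F with ha1
  set b' := ev (fun n => chi (um u n)) G with hb1
  have e1 : qn (K := K) chi w a' = qn (K := K) chi w a :=
    qn_eq_of_approx h.span (hF.trans_le (min_le_left _ _))
  have e2 : qn (K := K) chi w b' = qn (K := K) chi w b :=
    qn_eq_of_approx h.span (hG.trans_le (min_le_right _ _))
  have e3 : qn (K := K) chi w (a' * b') = qn (K := K) chi w a * qn (K := K) chi w b := by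
    rw [← e1, ← e2]
    exact qn_mul_laurent h F G
  rw [← e3]
  apply qn_eq_of_approx h.span
  rw [e3, qn_sub_comm, show a * b - a' * b' = (a - a') * b + a' * (b - b') by ring]
  refine (qn_add h.span _ _).trans_lt (max_lt ((hle _ _).trans_lt ?_) ((hle _ _).trans_lt ?_))
  · exact mul_lt_mul_of_pos_right (hF.trans_le (min_le_left _ _)) hb'
  · rw [e1]
    exact mul_lt_mul_of_pos_left (hG.trans_le (min_le_right _ _)) ha'

namespace TopP

theorem chi_nsmul (h : Facet K chi u coef w) (n : ℕ) (m : N) : chi (n • m) = chi m ^ n := by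
  induction n with
  | zero => rw [zero_smul, h.chi_zero, pow_zero]
  | succ n ih => rw [succ_nsmul, h.chi_add, ih, pow_succ]

theorem chi_sum (h : Facet K chi u coef w) {ι : Type} (s : Finset ι) (f : ι → N) :
    chi (∑ i ∈ s, f i) = ∏ i ∈ s, chi (f i) := by
  classical
  induction s using Finset.induction_on with
  | empty => simp [h.chi_zero]
  | insert i s hi ih => rw [Finset.sum_insert hi, h.chi_add, ih, Finset.prod_insert hi]

/-- natural exponents as integral exponents -/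
def nz (s : σ →₀ ℕ) : σ → ℤ := fun i => (s i : ℤ)

omit [Fintype σ] in
theorem nz_inj : Function.Injective (nz : (σ →₀ ℕ) → (σ → ℤ)) := by
  intro s t h
  ext i
  have := congrFun h i
  exact Nat.cast_injective this

theorem chi_nz (h : Facet K chi u coef w) (s : σ →₀ ℕ) :
    chi (um u (nz s)) = s.prod fun i k => chi (u i) ^ k := by
  rw [Finsupp.prod_fintype _ _ (by simp)]
  unfold um
  rw [chi_sum h]
  refine Finset.prod_congr rfl fun i _ => ?_
  rw [← chi_nsmul h]
  show chi ((s i : ℤ) • u i) = _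
  rw [natCast_zsmul]

theorem wt_nz (s : σ →₀ ℕ) :
    wt (fun n => w (um u n)) (nz s) = s.prod fun i k => wt w (u i) ^ k := by
  rw [Finsupp.prod_fintype _ _ (by simp)]
  apply NNReal.eq
  rw [coe_wt, NNReal.coe_prod, w_um, Real.exp_sum]
  refine Finset.prod_congr rfl fun i _ => ?_
  rw [NNReal.coe_pow, coe_wt, ← Real.exp_nat_mul]
  rfl

/-- A polynomial as a Laurent polynomial. -/
noncomputable def toL (P : MvPolynomial σ K) : (σ → ℤ) →₀ K :=
  ∑ s ∈ P.support, Finsupp.single (nz s) (P.coeff s)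

omit [IsUltrametricDist K] [Fintype σ] in
theorem toL_nz (P : MvPolynomial σ K) (s : σ →₀ ℕ) : toL P (nz s) = P.coeff s := by
  classical
  unfold toL
  rw [Finsupp.finsetSum_apply]
  rw [Finset.sum_eq_single s]
  · exact Finsupp.single_eq_same
  · intro t _ hts
    exact Finsupp.single_eq_of_ne fun e => hts (nz_inj e).symm
  · intro hs
    rw [MvPolynomial.notMem_support_iff.1 hs]
    simp

omit [IsUltrametricDist K] [Fintype σ] in
theorem toL_other (P : MvPolynomial σ K) (n : σ → ℤ) (hn : ∀ s, n ≠ nz s) : toL P n = 0 := by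
  classical
  unfold toL
  rw [Finsupp.finsetSum_apply]
  exact Finset.sum_eq_zero fun s _ => Finsupp.single_eq_of_ne (hn s)

theorem ev_toL (h : Facet K chi u coef w) (P : MvPolynomial σ K) :
    ev (fun n => chi (um u n)) (toL P) = MvPolynomial.aeval (fun i => chi (u i)) P := by
  unfold toL
  rw [ev_sum, MvPolynomial.aeval_def, MvPolynomial.eval₂_eq]
  refine Finset.sum_congr rfl fun s _ => ?_
  rw [ev_single, chi_nz h]
  rfl

theorem nrm_toL (P : MvPolynomial σ K) :
    BG.nrm (wt fun n => w (um u n)) (toL P) = gn (fun i => wt w (u i)) P := by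
  apply le_antisymm
  · rw [BG.nrm_le_iff]
    intro n
    by_cases hn : ∃ s, n = nz s
    · obtain ⟨s, rfl⟩ := hn
      rw [toL_nz, wt_nz]
      by_cases hs : P.coeff s = 0
      · rw [hs, nnnorm_zero, zero_mul]; exact bot_le
      · exact Finset.le_sup (f := fun t : σ →₀ ℕ => ‖P.coeff t‖₊ * t.prod fun i k =>
          wt w (u i) ^ k) (MvPolynomial.mem_support_iff.2 hs)
    · push Not at hn
      rw [toL_other P n hn, nnnorm_zero, zero_mul]; exact bot_le
  · refine Finset.sup_le fun s _ => ?_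
    have h1 := BG.le_nrm (wt := wt fun n => w (um u n)) (toL P) (nz s)
    rwa [toL_nz, wt_nz] at h1

theorem qn_algebraMap (h : Facet K chi u coef w) (c : K) :
    qn (K := K) chi w (algebraMap K A c) = ‖c‖₊ := by
  have h1 : ev (fun n => chi (um u n)) (Finsupp.single 0 c) = algebraMap K A c := by
    rw [ev_single, um_zero, h.chi_zero, mul_one]
  rw [← h1, qn_laurent h]
  have h0 : wt (fun n => w (um u n)) (0 : σ → ℤ) = 1 := by
    apply NNReal.eq
    rw [coe_wt, um_zero, map_zero, Real.exp_zero]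
    rfl
  apply le_antisymm
  · rw [BG.nrm_le_iff]
    intro n
    by_cases hn : n = 0
    · subst hn
      rw [Finsupp.single_eq_same, h0, mul_one]
    · rw [Finsupp.single_eq_of_ne hn, nnnorm_zero, zero_mul]; exact bot_le
  · have h2 := BG.le_nrm (wt := wt fun n => w (um u n)) (Finsupp.single 0 c : (σ → ℤ) →₀ K) 0
    rwa [Finsupp.single_eq_same, h0, mul_one] at h2

theorem qn_one (h : Facet K chi u coef w) : qn (K := K) chi w (1 : A) = 1 := by
  have h1 := qn_algebraMap h (1 : K)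
  rwa [map_one, nnnorm_one] at h1

theorem qn_chi_eq (h : Facet K chi u coef w) (m : N) :
    (qn (K := K) chi w (chi m) : ℝ) = Real.exp (w m) := by
  refine le_antisymm (qn_chi m) ?_
  have h1 : (qn (K := K) chi w (chi m) : ℝ) * qn (K := K) chi w (chi (-m)) = 1 := by
    rw [← NNReal.coe_mul, ← qn_mul_eq h, ← h.chi_add, add_neg_cancel, h.chi_zero, qn_one h]
    rfl
  have h2 : (qn (K := K) chi w (chi (-m)) : ℝ) ≤ Real.exp (w (-m)) := qn_chi (-m)
  have h3 : 1 ≤ (qn (K := K) chi w (chi m) : ℝ) * Real.exp (w (-m)) := by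
    rw [← h1]
    exact mul_le_mul_of_nonneg_left h2 (NNReal.coe_nonneg _)
  rw [map_neg, Real.exp_neg, ← div_eq_mul_inv, le_div_iff₀ (Real.exp_pos _), one_mul] at h3
  exact h3

/-- The quotient norm as a point. -/
noncomputable def pt (h : Facet K chi u coef w) : Ber K A where
  v a := qn (K := K) chi w a
  nonneg a := NNReal.coe_nonneg _
  one := by rw [qn_one h]; rfl
  mul a b := by rw [qn_mul_eq h]; rfl
  add a b := by
    have := qn_add (K := K) (w := w) h.span a b
    rw [← NNReal.coe_max]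
    exact_mod_cast this
  ext c := by rw [qn_algebraMap h]; rfl

end TopP

/-- The top point of the facet. -/
theorem exists_top (h : Facet K chi u coef w) : ∃ z ∈ Fib K chi w, (∀ z' ∈ Fib K chi w, z' ≤ z) ∧
    GaussAt (fun i => chi (u i)) (fun i => wt w (u i)) z := by
  refine ⟨TopP.pt h, fun m => qn_chi_eq h m, fun z' hz' a => v_le_qn h.span hz' a, fun P => ?_⟩
  show (qn (K := K) chi w _ : ℝ) = _
  rw [← ev_toL h, qn_laurent h, nrm_toL]

namespace TopP

/-- clearing denominators -/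
theorem clear (h : Facet K chi u coef w) (G : (σ → ℤ) →₀ K) :
    ∃ (k : σ →₀ ℕ) (P : MvPolynomial σ K),
      MvPolynomial.aeval (fun i => chi (u i)) (MvPolynomial.monomial k (1 : K)) *
        ev (fun n => chi (um u n)) G = MvPolynomial.aeval (fun i => chi (u i)) P := by
  classical
  induction G using Finsupp.induction_linear with
  | zero => exact ⟨0, 0, by rw [ev_zero, mul_zero, map_zero]⟩
  | add F G hF hG =>
    obtain ⟨k, P, hP⟩ := hF
    obtain ⟨l, Q, hQ⟩ := hG
    refine ⟨k + l, MvPolynomial.monomial l 1 * P + MvPolynomial.monomial k 1 * Q, ?_⟩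
    have e : (MvPolynomial.monomial (k + l) (1 : K) : MvPolynomial σ K) =
        MvPolynomial.monomial k 1 * MvPolynomial.monomial l 1 := by
      rw [MvPolynomial.monomial_mul, one_mul]
    rw [e, ev_add, map_mul, map_add, map_mul, map_mul, ← hP, ← hQ]
    ring
  | single n c =>
    let k : σ →₀ ℕ := Finsupp.equivFunOnFinite.symm fun i => (-n i).toNat
    let l : σ →₀ ℕ := Finsupp.equivFunOnFinite.symm fun i => (n i).toNat
    refine ⟨k, MvPolynomial.monomial l c, ?_⟩
    rw [MvPolynomial.aeval_monomial, MvPolynomial.aeval_monomial, ← chi_nz h, ← chi_nz h,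
      ev_single, map_one, one_mul]
    have e : nz k + n = nz l := by
      funext i
      show (((-n i).toNat : ℕ) : ℤ) + n i = (((n i).toNat : ℕ) : ℤ)
      omega
    rw [← e, um_add, h.chi_add]
    ring

theorem v_um (h : Facet K chi u coef w) {z : Ber K A} (hz : z ∈ Fib K chi w) (k : σ →₀ ℕ) :
    z.v (MvPolynomial.aeval (fun i => chi (u i)) (MvPolynomial.monomial k (1 : K))) =
      Real.exp (w (um u (nz k))) := by
  rw [MvPolynomial.aeval_monomial, ← chi_nz h, map_one, one_mul]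
  exact hz _

end TopP

/-- (FA2) -/
theorem fib_uniq (h : Facet K chi u coef w) {z z' : Ber K A} (hz : z ∈ Fib K chi w)
    (hz' : z' ∈ Fib K chi w) (e : fam (fun i => chi (u i)) z = fam (fun i => chi (u i)) z') :
    z = z' := by
  have hP : ∀ P : MvPolynomial σ K, z.v (MvPolynomial.aeval (fun i => chi (u i)) P) =
      z'.v (MvPolynomial.aeval (fun i => chi (u i)) P) := by
    intro P
    rw [← fam_v, ← fam_v, e]
  have hG : ∀ G : (σ → ℤ) →₀ K, z.v (ev (fun n => chi (um u n)) G) =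
      z'.v (ev (fun n => chi (um u n)) G) := by
    intro G
    obtain ⟨k, P, hk⟩ := clear h G
    have h1 := hP P
    rw [← hk, z.mul, z'.mul, v_um h hz, v_um h hz'] at h1
    exact mul_left_cancel₀ (Real.exp_pos _).ne' h1
  have hle : ∀ {z z' : Ber K A}, z ∈ Fib K chi w → z' ∈ Fib K chi w →
      (∀ G : (σ → ℤ) →₀ K, z.v (ev (fun n => chi (um u n)) G) =
        z'.v (ev (fun n => chi (um u n)) G)) → ∀ a, z.v a ≤ z'.v a := by
    intro z z' hz hz' hG a
    refine le_of_forall_pos_le_add fun ε hε => ?_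
    obtain ⟨G, hGa⟩ := exists_approx h a (half_pos hε)
    set g := ev (fun n => chi (um u n)) G with hg
    have h1 : z.v a ≤ z.v (a - g) + z.v g := by
      have := z.add (a - g) g
      rw [sub_add_cancel] at this
      exact this.trans (max_le_add_of_nonneg (z.nonneg _) (z.nonneg _))
    have h2 : z'.v g ≤ z'.v (a - g) + z'.v a := by
      have := z'.add (g - a) a
      rw [sub_add_cancel, Ber.sub_comm] at this
      exact this.trans (max_le_add_of_nonneg (z'.nonneg _) (z'.nonneg _))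
    have h3 : z.v (a - g) ≤ ε / 2 := (v_le_qn h.span hz _).trans hGa.le
    have h4 : z'.v (a - g) ≤ ε / 2 := (v_le_qn h.span hz' _).trans hGa.le
    have h5 := hG G
    rw [← hg] at h5
    linarith
  apply Ber.ext_v
  intro a
  exact le_antisymm (hle hz hz' hG a) (hle hz' hz (fun G => (hG G).symm) a)

/-- (FA2) -/
theorem fib_dens (h : Facet K chi u coef w) {z : Ber K A} (hz : z ∈ Fib K chi w) :
    Dens (MvPolynomial.aeval fun i => chi (u i) : MvPolynomial σ K →ₐ[K] A) z := by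
  intro a ε hε
  obtain ⟨G, hGa⟩ := exists_approx h a hε
  obtain ⟨k, P, hk⟩ := clear h G
  have hpos : 0 < z.v (MvPolynomial.aeval (fun i => chi (u i))
      (MvPolynomial.monomial k (1 : K))) := by
    rw [v_um h hz]; exact Real.exp_pos _
  refine ⟨P, MvPolynomial.monomial k (1 : K), hpos.ne', ?_⟩
  rw [← hk, ← mul_sub, z.mul, mul_comm]
  exact mul_lt_mul_of_pos_right ((v_le_qn h.span hz _).trans_lt hGa) hpos

end Pool.Agent.TD.FA


end

section

/-! Matroids (PAPER2.md, MT): adding coloops (module TD_MT_C6). -/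

namespace Pool.Agent.TD

/-- (C6) adding coloops does not change the conditions. -/
theorem exists_coloops {E J : Type} [Finite E] [Finite J] (M : Matroid E) (hE : M.E = Set.univ)
    (hl : ∀ e, M.Indep {e}) : ∃ M' : Matroid (E ⊕ J), M'.E = Set.univ ∧ (∀ e, M'.Indep {e}) ∧
      ∀ y : E ⊕ J → ℝ, BergM M' y ↔ BergM M fun e => y (Sum.inl e) := by
  have hI : ∀ I : Set (E ⊕ J), (M.sum (Matroid.freeOn Set.univ)).Indep I ↔
      M.Indep (Sum.inl ⁻¹' I) := by
    intro I
    rw [Matroid.sum_indep_iff]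
    simp
  have hg : (M.sum (Matroid.freeOn (Set.univ : Set J))).E = Set.univ := by
    rw [Matroid.sum_ground, hE, Matroid.freeOn_ground]
    ext x
    cases x <;> simp
  refine ⟨M.sum (Matroid.freeOn Set.univ), hg, ?_, ?_⟩
  · intro e
    rw [hI]
    cases e with
    | inl e =>
      have : (Sum.inl ⁻¹' ({Sum.inl e} : Set (E ⊕ J))) = {e} := by
        ext x
        simp
      rw [this]
      exact hl e
    | inr j =>
      have : (Sum.inl ⁻¹' ({Sum.inr j} : Set (E ⊕ J))) = ∅ := by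
        ext x
        simp
      rw [this]
      exact M.empty_indep
  · intro y
    have hcirc : ∀ C : Set E, M.IsCircuit C →
        (M.sum (Matroid.freeOn (Set.univ : Set J))).IsCircuit (Sum.inl '' C) := by
      intro C hC
      rw [Matroid.isCircuit_iff_minimal_not_indep (by rw [hg]; exact Set.subset_univ _)]
      have hC' := hC.minimal_not_indep
      constructor
      · show ¬ _
        rw [hI, Set.preimage_image_eq _ Sum.inl_injective]
        exact hC'.prop
      · intro D hD hDC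
        replace hD : ¬ M.Indep (Sum.inl ⁻¹' D) := by
          rw [← hI]
          exact hD
        have h1 : Sum.inl ⁻¹' D ⊆ C := by
          intro x hx
          obtain ⟨z, hz, hzx⟩ := hDC hx
          rwa [← Sum.inl_injective hzx]
        have h2 := hC'.le_of_le hD h1
        rintro _ ⟨z, hz, rfl⟩
        exact h2 hz
    have hcirc2 : ∀ C : Set (E ⊕ J), (M.sum (Matroid.freeOn (Set.univ : Set J))).IsCircuit C →
        ∃ C0, M.IsCircuit C0 ∧ C = Sum.inl '' C0 := by
      intro C hC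
      have hC' := hC.minimal_not_indep
      have hp : ¬ M.Indep (Sum.inl ⁻¹' C) := by
        rw [← hI]
        exact hC'.prop
      have hsub : C ⊆ Sum.inl '' (Sum.inl ⁻¹' C) := by
        apply hC'.le_of_le
        · show ¬ _
          rw [hI, Set.preimage_image_eq _ Sum.inl_injective]
          exact hp
        · exact Set.image_preimage_subset _ _
      refine ⟨Sum.inl ⁻¹' C, ?_, Set.Subset.antisymm hsub (Set.image_preimage_subset _ _)⟩
      rw [Matroid.isCircuit_iff_minimal_not_indep (by rw [hE]; exact Set.subset_univ _)]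
      refine ⟨hp, ?_⟩
      intro D hD hDC
      have h3 : C ⊆ Sum.inl '' D := by
        apply hC'.le_of_le
        · show ¬ _
          rw [hI, Set.preimage_image_eq _ Sum.inl_injective]
          exact hD
        · rintro _ ⟨z, hz, rfl⟩
          exact hDC hz
      intro x hx
      obtain ⟨z, hz, hzx⟩ := h3 hx
      rwa [← Sum.inl_injective hzx]
    constructor
    · intro h C hC e he
      obtain ⟨f, hf, hne, hle⟩ := h (Sum.inl '' C) (hcirc C hC) (Sum.inl e) ⟨e, he, rfl⟩
      obtain ⟨g, hg, rfl⟩ := hf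
      exact ⟨g, hg, fun h => hne (by rw [h]), hle⟩
    · intro h C hC e he
      obtain ⟨C0, hC0, rfl⟩ := hcirc2 C hC
      obtain ⟨e0, he0, rfl⟩ := he
      obtain ⟨f, hf, hne, hle⟩ := h C0 hC0 e0 he0
      exact ⟨Sum.inl f, ⟨f, hf, rfl⟩, fun h => hne (Sum.inl_injective h), hle⟩

end Pool.Agent.TD


end

section

/-! Block R: centring a general smooth chart (module TD_R_S1). -/

open scoped Topology NNReal

namespace Pool.Agent.TD.R

variable {N k E : Type} [AddCommGroup N] {P : AddSubmonoid N} [Fintype k] [Fintype E]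
  {T : Set (P → ℝ)} {w : P → ℝ} {x : k → (P → ℝ) → ℝ} {y : E → (P → ℝ) → ℝ} {M : Matroid E}
  {e0 : E} {U : Set (P → ℝ)}

namespace S1

theorem mem_mdl (h : GChart T w x y M e0 U) {b : P → ℝ} (hb : b ∈ T ∩ U) :
    cm x y b ∈ Mdl k M e0 := by
  have h1 : Mdl k M e0 ∈ Filter.map (cm x y) (𝓝[T] b) := by
    rw [h.homeo b hb]
    exact self_mem_nhdsWithin
  exact mem_of_mem_nhdsWithin (s := T) hb.1 h1

theorem cwa (h : GChart T w x y M e0 U) {b : P → ℝ} (hb : b ∈ T ∩ U) :
    ContinuousWithinAt (cm x y) T b := by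
  show Filter.map (cm x y) (𝓝[T] b) ≤ 𝓝 (cm x y b)
  rw [h.homeo b hb]
  exact nhdsWithin_le_nhds

theorem con (h : GChart T w x y M e0 U) : ContinuousOn (cm x y) (T ∩ U) :=
  fun _ hb => (cwa h hb).mono Set.inter_subset_left

theorem nhdsT (h : GChart T w x y M e0 U) {b : P → ℝ} (hb : b ∈ T ∩ U) : T ∩ U ∈ 𝓝[T] b :=
  Filter.inter_mem self_mem_nhdsWithin (mem_nhdsWithin_of_mem_nhds (h.isOpen.mem_nhds hb.2))

/-- The inverse of the coordinate map. -/
noncomputable def inv (T : Set (P → ℝ)) (x : k → (P → ℝ) → ℝ) (y : E → (P → ℝ) → ℝ)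
    (U : Set (P → ℝ)) : (k → ℝ) × (E → ℝ) → P → ℝ :=
  Function.invFunOn (cm x y) (T ∩ U)

theorem inv_left (h : GChart T w x y M e0 U) {b : P → ℝ} (hb : b ∈ T ∩ U) :
    inv T x y U (cm x y b) = b :=
  h.inj.leftInvOn_invFunOn hb

theorem inv_cont (h : GChart T w x y M e0 U) {b : P → ℝ} (hb : b ∈ T ∩ U) :
    ContinuousWithinAt (inv T x y U) (Mdl k M e0) (cm x y b) := by
  show Filter.Tendsto (inv T x y U) (𝓝[Mdl k M e0] (cm x y b)) (𝓝 (inv T x y U (cm x y b)))
  rw [← h.homeo b hb, inv_left h hb, Filter.tendsto_map'_iff]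
  have h1 : (inv T x y U ∘ cm x y) =ᶠ[𝓝[T] b] id := by
    filter_upwards [nhdsT h hb] with b' hb'
    exact inv_left h hb'
  exact (Filter.tendsto_congr' h1).2 (Filter.tendsto_id.mono_left nhdsWithin_le_nhds)

/-- The change of coordinates. -/
noncomputable def kap (w : P → ℝ) (x : k → (P → ℝ) → ℝ) (y : E → (P → ℝ) → ℝ)
    (p : ({i : k // x i w = 0} → ℝ) × (E ⊕ {i : k // x i w ≠ 0} → ℝ)) :
    (k → ℝ) × (E → ℝ) :=
  (fun i => @dite ℝ (x i w = 0) (Classical.propDecidable _) (fun h => p.1 ⟨i, h⟩)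
    fun h => x i w * Real.exp (p.2 (Sum.inr ⟨i, h⟩)), fun e => y e w + p.2 (Sum.inl e))

theorem kap_pos {p : ({i : k // x i w = 0} → ℝ) × (E ⊕ {i : k // x i w ≠ 0} → ℝ)} {i : k}
    (h : x i w = 0) : (kap w x y p).1 i = p.1 ⟨i, h⟩ := by
  show dite _ _ _ = _
  rw [dif_pos h]

theorem kap_neg {p : ({i : k // x i w = 0} → ℝ) × (E ⊕ {i : k // x i w ≠ 0} → ℝ)} {i : k}
    (h : x i w ≠ 0) : (kap w x y p).1 i = x i w * Real.exp (p.2 (Sum.inr ⟨i, h⟩)) := by
  show dite _ _ _ = _
  rw [dif_neg h]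

theorem kap_snd (p : ({i : k // x i w = 0} → ℝ) × (E ⊕ {i : k // x i w ≠ 0} → ℝ)) (e : E) :
    (kap w x y p).2 e = y e w + p.2 (Sum.inl e) := rfl

theorem kap_cont (w : P → ℝ) (x : k → (P → ℝ) → ℝ) (y : E → (P → ℝ) → ℝ) :
    Continuous (kap w x y) := by
  refine Continuous.prodMk (continuous_pi fun i => ?_) (continuous_pi fun e => ?_)
  · by_cases h : x i w = 0
    · simp only [dif_pos h]
      exact (continuous_apply _).comp continuous_fst
    · simp only [dif_neg h]
      exact continuous_const.mul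
        (Real.continuous_exp.comp ((continuous_apply _).comp continuous_snd))
  · exact continuous_const.add ((continuous_apply _).comp continuous_snd)

theorem kap_zero (w : P → ℝ) (x : k → (P → ℝ) → ℝ) (y : E → (P → ℝ) → ℝ) :
    kap w x y 0 = cm x y w := by
  refine Prod.ext (funext fun i => ?_) (funext fun e => ?_)
  · by_cases h : x i w = 0
    · rw [kap_pos h]
      show (0 : ℝ) = x i w
      exact h.symm
    · rw [kap_neg h]
      show x i w * Real.exp 0 = x i w
      rw [Real.exp_zero, mul_one]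
  · rw [kap_snd]
    show y e w + 0 = y e w
    rw [add_zero]

/-- Independence of the instance. -/
theorem sum_inst {α : Type} (i1 i2 : Fintype α) (f : α → ℝ) :
    (@Finset.univ α i1).sum f = (@Finset.univ α i2).sum f := by
  rw [Subsingleton.elim i1 i2]

/-- The open set of the model. -/
def O1 (w : P → ℝ) (x : k → (P → ℝ) → ℝ) (y : E → (P → ℝ) → ℝ) (δ : ℝ) :
    Set ((k → ℝ) × (E → ℝ)) :=
  {q | (∀ i : {i : k // x i w = 0}, q.1 i.1 < δ) ∧ (∀ j : {i : k // x i w ≠ 0}, 0 < q.1 j.1 ∧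
    |Real.log (q.1 j.1) - Real.log (x j.1 w)| < δ) ∧ ∀ e, |q.2 e - y e w| < δ}

theorem isOpen_log (l ds : ℝ) : IsOpen {x : ℝ | 0 < x ∧ |Real.log x - l| < ds} := by
  have h1 : ContinuousOn (fun x : ℝ => |Real.log x - l|) (Set.Ioi 0) := by
    have h2 : ContinuousOn Real.log (Set.Ioi 0) :=
      Real.continuousOn_log.mono fun x hx => (ne_of_gt hx : x ≠ 0)
    exact (h2.sub continuousOn_const).abs
  exact h1.isOpen_inter_preimage isOpen_Ioi (isOpen_Iio (a := ds))

theorem isOpen_O1 (w : P → ℝ) (x : k → (P → ℝ) → ℝ) (y : E → (P → ℝ) → ℝ) (δ : ℝ) :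
    IsOpen (O1 w x y δ) := by
  have hc1 : ∀ i : k, Continuous fun q : (k → ℝ) × (E → ℝ) => q.1 i := fun i =>
    (continuous_apply _).comp continuous_fst
  have hc2 : ∀ e : E, Continuous fun q : (k → ℝ) × (E → ℝ) => q.2 e := fun e =>
    (continuous_apply _).comp continuous_snd
  have e : O1 w x y δ = (⋂ i : {i : k // x i w = 0}, {q : (k → ℝ) × (E → ℝ) | q.1 i.1 < δ}) ∩
      ((⋂ j : {i : k // x i w ≠ 0}, (fun q : (k → ℝ) × (E → ℝ) => q.1 j.1) ⁻¹'
        {t : ℝ | 0 < t ∧ |Real.log t - Real.log (x j.1 w)| < δ}) ∩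
      ⋂ e : E, {q : (k → ℝ) × (E → ℝ) | |q.2 e - y e w| < δ}) := by
    ext q
    simp only [O1, Set.mem_setOf_eq, Set.mem_inter_iff, Set.mem_iInter, Set.mem_preimage]
  rw [e]
  refine (isOpen_iInter_of_finite fun i => ?_).inter
    ((isOpen_iInter_of_finite fun j => ?_).inter (isOpen_iInter_of_finite fun e => ?_))
  · exact isOpen_lt (hc1 _) continuous_const
  · exact (isOpen_log _ _).preimage (hc1 _)
  · exact isOpen_lt ((hc2 e).sub continuous_const).abs continuous_const

end S1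

/-- A general smooth chart gives a centred chart: `t` are the coordinates `x i` which vanish at
`w`, the other coordinates are `y e - y e (w)` and `log x i - log x i (w)`, `x i (w) ≠ 0`. -/
theorem GChart.exists_LM [Fintype {i : k // x i w = 0}] [Fintype {i : k // x i w ≠ 0}]
    (h : GChart T w x y M e0 U) :
    ∃ (M' : Matroid (E ⊕ {i : k // x i w ≠ 0})) (U1 : Set (P → ℝ)) (δ : ℝ)
      (L : ({i : k // x i w = 0} → ℝ) × (E ⊕ {i : k // x i w ≠ 0} → ℝ) → P → ℝ),
      LM T w (fun i : {i : k // x i w = 0} => x i.1)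
        (Sum.elim (fun e b => y e b - y e w) fun (i : {i : k // x i w ≠ 0}) b =>
          Real.log (x i.1 b) - Real.log (x i.1 w)) M' (Sum.inl e0) U1 δ L := by
  classical
  have hwTU : w ∈ T ∩ U := ⟨h.hw, h.w_mem⟩
  obtain ⟨hx0, hv0, hvM⟩ := S1.mem_mdl h hwTU
  have hx0' : ∀ i, 0 ≤ x i w := hx0
  have hv0' : y e0 w = 0 := hv0
  have hJ : ∀ j : {i : k // x i w ≠ 0}, 0 < x j.1 w := fun j =>
    lt_of_le_of_ne (hx0' _) (Ne.symm j.2)
  obtain ⟨M1, hE1, hl1, δ1, hδ1, hM1⟩ := exists_star h.ground h.loopless hvM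
  have hM1' : ∀ η : E → ℝ, (∀ e, |η e| < δ1) →
      (BergM M ((fun e => y e w) + η) ↔ BergM M1 η) := hM1
  obtain ⟨M', hE', hl', hM'⟩ := exists_coloops (J := {i : k // x i w ≠ 0}) M1 hE1 hl1
  -- the image of the chart
  have hV : cm x y '' (T ∩ U) ∈ 𝓝[Mdl k M e0] (cm x y w) := by
    rw [← h.homeo w hwTU]
    exact Filter.image_mem_map (S1.nhdsT h hwTU)
  obtain ⟨O, hO, hwO, hOV⟩ := mem_nhdsWithin.1 hV
  have hO' : S1.kap w x y ⁻¹' O ∈ 𝓝 (0 : ({i : k // x i w = 0} → ℝ) ×
      (E ⊕ {i : k // x i w ≠ 0} → ℝ)) := by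
    refine (S1.kap_cont w x y).continuousAt (hO.mem_nhds ?_)
    rw [S1.kap_zero]
    exact hwO
  obtain ⟨δ2, hδ2, hball⟩ := Metric.mem_nhds_iff.1 hO'
  obtain ⟨δ, hδ, hδδ1, hδδ2⟩ : ∃ δ : ℝ, 0 < δ ∧ δ ≤ δ1 ∧ δ ≤ δ2 :=
    ⟨min δ1 δ2, lt_min hδ1 hδ2, min_le_left _ _, min_le_right _ _⟩
  -- the box is mapped to the model
  have hkM : ∀ p ∈ Bx {i : k // x i w = 0} M' (Sum.inl e0) δ,
      S1.kap w x y p ∈ Mdl k M e0 := by
    rintro p ⟨hp1, hp2, hp3, hp4⟩
    refine ⟨fun i => ?_, ?_, ?_⟩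
    · by_cases hi : x i w = 0
      · rw [S1.kap_pos hi]
        exact (hp1 _).1
      · rw [S1.kap_neg hi]
        exact mul_nonneg (hx0' i) (Real.exp_pos _).le
    · rw [S1.kap_snd, hv0', hp3, add_zero]
    · show BergM M ((fun e => y e w) + fun e => p.2 (Sum.inl e))
      exact (hM1' _ fun e => lt_of_lt_of_le (hp2 _) hδδ1).2 ((hM' p.2).1 hp4)
  have hkV : ∀ p ∈ Bx {i : k // x i w = 0} M' (Sum.inl e0) δ,
      S1.kap w x y p ∈ cm x y '' (T ∩ U) := by
    intro p hp
    refine hOV ⟨?_, hkM p hp⟩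
    apply hball
    rw [Metric.mem_ball, Prod.dist_eq, max_lt_iff, dist_pi_lt_iff hδ2, dist_pi_lt_iff hδ2]
    refine ⟨fun i => ?_, fun e => ?_⟩
    · rw [Real.dist_eq]
      show |p.1 i - 0| < δ2
      rw [sub_zero, abs_of_nonneg (hp.1 i).1]
      exact lt_of_lt_of_le (hp.1 i).2 hδδ2
    · rw [Real.dist_eq]
      show |p.2 e - 0| < δ2
      rw [sub_zero]
      exact lt_of_lt_of_le (hp.2.1 e) hδδ2
  -- the inverse
  have hL1 : ∀ p ∈ Bx {i : k // x i w = 0} M' (Sum.inl e0) δ,
      S1.inv T x y U (S1.kap w x y p) ∈ T ∩ U := fun p hp =>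
    Function.invFunOn_mem (by
      obtain ⟨b, hb, hb'⟩ := hkV p hp
      exact ⟨b, hb, hb'⟩)
  have hL2 : ∀ p ∈ Bx {i : k // x i w = 0} M' (Sum.inl e0) δ,
      cm x y (S1.inv T x y U (S1.kap w x y p)) = S1.kap w x y p := fun p hp =>
    Function.invFunOn_eq (by
      obtain ⟨b, hb, hb'⟩ := hkV p hp
      exact ⟨b, hb, hb'⟩)
  have hL2x : ∀ p ∈ Bx {i : k // x i w = 0} M' (Sum.inl e0) δ, ∀ i,
      x i (S1.inv T x y U (S1.kap w x y p)) = (S1.kap w x y p).1 i := fun p hp i =>
    congrFun (congrArg Prod.fst (hL2 p hp)) i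
  have hL2y : ∀ p ∈ Bx {i : k // x i w = 0} M' (Sum.inl e0) δ, ∀ e,
      y e (S1.inv T x y U (S1.kap w x y p)) = (S1.kap w x y p).2 e := fun p hp e =>
    congrFun (congrArg Prod.snd (hL2 p hp)) e
  -- the open set
  obtain ⟨u, hu, huT⟩ := continuousOn_iff'.1 (S1.con h) _ (S1.isOpen_O1 w x y δ)
  have hmem : ∀ b, b ∈ T ∩ (u ∩ U) ↔ b ∈ T ∩ U ∧ cm x y b ∈ S1.O1 w x y δ := by
    intro b
    have h1 : b ∈ cm x y ⁻¹' S1.O1 w x y δ ∩ (T ∩ U) ↔ b ∈ u ∩ (T ∩ U) := by rw [huT]
    constructor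
    · rintro ⟨hT, hu', hU⟩
      exact ⟨⟨hT, hU⟩, (h1.2 ⟨hu', hT, hU⟩).1⟩
    · rintro ⟨hTU, hO1⟩
      exact ⟨hTU.1, (h1.1 ⟨hO1, hTU⟩).1, hTU.2⟩
  have hJpos : ∀ b ∈ T ∩ (u ∩ U), ∀ j : {i : k // x i w ≠ 0}, 0 < x j.1 b := fun b hb j =>
    (((hmem b).1 hb).2.2.1 j).1
  have hxc : ∀ i, ContinuousOn (x i) (T ∩ U) := fun i =>
    ((continuous_apply i).comp continuous_fst).comp_continuousOn (S1.con h)
  have hyc : ∀ e, ContinuousOn (y e) (T ∩ U) := fun e =>
    ((continuous_apply e).comp continuous_snd).comp_continuousOn (S1.con h)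
  have hsub : T ∩ (u ∩ U) ⊆ T ∩ U := fun b hb => ⟨hb.1, hb.2.2⟩
  refine ⟨M', u ∩ U, δ, fun p => S1.inv T x y U (S1.kap w x y p), ?_⟩
  refine ⟨hE', hl', hu.inter h.isOpen, h.hw, ?_, hδ, fun i => i.2, ?_, ?_, ?_, ?_, ?_, ?_, ?_,
    ?_, ?_, ?_⟩
  · -- w_mem
    have h1 : w ∈ T ∩ (u ∩ U) := by
      rw [hmem]
      refine ⟨hwTU, fun i => ?_, fun j => ⟨hJ j, ?_⟩, fun e => ?_⟩
      · show x i.1 w < δ
        rw [i.2]
        exact hδ
      · show |Real.log (x j.1 w) - Real.log (x j.1 w)| < δ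
        rw [sub_self, abs_zero]
        exact hδ
      · show |y e w - y e w| < δ
        rw [sub_self, abs_zero]
        exact hδ
    exact h1.2
  · -- yw
    rintro (e | j)
    · exact sub_self _
    · exact sub_self _
  · -- maps
    intro b hb
    obtain ⟨hTU, h1, h2, h3⟩ := (hmem b).1 hb
    obtain ⟨hb1, hb2, hb3⟩ := S1.mem_mdl h hTU
    refine ⟨fun i => ⟨hb1 i.1, h1 i⟩, ?_, ?_, ?_⟩
    · rintro (e | j)
      · exact h3 e
      · exact (h2 j).2
    · show y e0 b - y e0 w = 0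
      have h4 : y e0 b = 0 := hb2
      rw [h4, hv0', sub_zero]
    · refine (hM' _).2 ((hM1' _ ?_).1 ?_)
      · intro e
        exact lt_of_lt_of_le (h3 e) hδδ1
      · have h4 : (fun e => y e w) + (fun e => y e b - y e w) = (cm x y b).2 := by
          funext e
          show y e w + (y e b - y e w) = y e b
          ring
        show BergM M ((fun e => y e w) + fun e => y e b - y e w)
        rw [h4]
        exact hb3
  · -- Lmaps
    intro p hp
    rw [hmem]
    refine ⟨hL1 p hp, ?_⟩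
    rw [hL2 p hp]
    refine ⟨fun i => ?_, fun j => ?_, fun e => ?_⟩
    · rw [S1.kap_pos i.2]
      exact (hp.1 _).2
    · rw [S1.kap_neg j.2]
      refine ⟨mul_pos (hJ j) (Real.exp_pos _), ?_⟩
      rw [Real.log_mul (hJ j).ne' (Real.exp_pos _).ne', Real.log_exp, add_sub_cancel_left]
      exact hp.2.1 _
    · rw [S1.kap_snd, add_sub_cancel_left]
      exact hp.2.1 _
  · -- left
    intro b hb
    obtain ⟨hTU, h1, h2, h3⟩ := (hmem b).1 hb
    have h4 : S1.kap w x y (cm (fun i : {i : k // x i w = 0} => x i.1)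
        (Sum.elim (fun e b => y e b - y e w) fun (i : {i : k // x i w ≠ 0}) b =>
          Real.log (x i.1 b) - Real.log (x i.1 w)) b) = cm x y b := by
      refine Prod.ext (funext fun i => ?_) (funext fun e => ?_)
      · by_cases hi : x i w = 0
        · rw [S1.kap_pos hi]
          rfl
        · rw [S1.kap_neg hi]
          show x i w * Real.exp (Real.log (x i b) - Real.log (x i w)) = x i b
          have h5 : 0 < x i w := hJ ⟨i, hi⟩
          have h6 : 0 < x i b := (h2 ⟨i, hi⟩).1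
          rw [Real.exp_sub, Real.exp_log h5, Real.exp_log h6]
          field_simp
      · rw [S1.kap_snd]
        show y e w + (y e b - y e w) = y e b
        ring
    show S1.inv T x y U (S1.kap w x y _) = b
    rw [h4]
    exact S1.inv_left h hTU
  · -- right
    intro p hp
    refine Prod.ext (funext fun i => ?_) (funext fun e => ?_)
    · show x i.1 (S1.inv T x y U (S1.kap w x y p)) = p.1 i
      rw [hL2x p hp, S1.kap_pos i.2]
    · rcases e with e | j
      · show y e (S1.inv T x y U (S1.kap w x y p)) - y e w = p.2 (Sum.inl e)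
        rw [hL2y p hp, S1.kap_snd, add_sub_cancel_left]
      · show Real.log (x j.1 (S1.inv T x y U (S1.kap w x y p))) - Real.log (x j.1 w) =
          p.2 (Sum.inr j)
        rw [hL2x p hp, S1.kap_neg j.2, Real.log_mul (hJ j).ne' (Real.exp_pos _).ne',
          Real.log_exp, add_sub_cancel_left]
  · -- cont
    refine ContinuousOn.prodMk (continuousOn_pi.2 fun i => ?_) (continuousOn_pi.2 fun e => ?_)
    · exact (hxc i.1).mono hsub
    · rcases e with e | j
      · exact ((hyc e).mono hsub).sub continuousOn_const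
      · exact (((hxc j.1).mono hsub).log fun b hb => (hJpos b hb j).ne').sub continuousOn_const
  · -- Lcont
    intro p hp
    obtain ⟨b, hb, hb'⟩ := hkV p hp
    have h1 : ContinuousWithinAt (S1.inv T x y U) (Mdl k M e0) (S1.kap w x y p) := by
      rw [← hb']
      exact S1.inv_cont h hb
    exact h1.comp (S1.kap_cont w x y).continuousWithinAt hkM
  · -- afft
    intro b hb i hi
    exact h.affx b (hsub hb) i.1 hi
  · -- affy
    intro b hb e
    rcases e with e | j
    · obtain ⟨m, m', c, hm, hm', hc⟩ := h.affy b (hsub hb) e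
      refine ⟨m, m', c - y e w, hm, hm', ?_⟩
      filter_upwards [hc] with b' hb'
      show y e b' - y e w = _
      rw [hb']
      ring
    · obtain ⟨m, m', c, hm, hm', hc⟩ := h.affx b (hsub hb) j.1 (hJpos b hb j).ne'
      refine ⟨m, m', c - Real.log (x j.1 w), hm, hm', ?_⟩
      filter_upwards [hc] with b' hb'
      show Real.log (x j.1 b') - Real.log (x j.1 w) = _
      rw [hb']
      ring
  · -- aff
    intro b hb m hm
    obtain ⟨n, l, c, hn, hc⟩ := h.aff b (hsub hb) m hm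
    refine ⟨fun i => n i.1, Sum.elim l fun j => n j.1,
      c + (∑ e, (l e : ℝ) * y e w) + ∑ j : {i : k // x i w ≠ 0}, (n j.1 : ℝ) *
        Real.log (x j.1 w), fun i hi => hn i.1 hi, ?_⟩
    filter_upwards [hc] with b' hb'
    rw [hb', Fintype.sum_sum_type]
    simp only [Sum.elim_inl, Sum.elim_inr]
    have h1 : ∑ i, (n i : ℝ) * Real.log (x i b') =
        (∑ i : {i : k // x i w = 0}, (n i.1 : ℝ) * Real.log (x i.1 b')) +
        ∑ j : {i : k // x i w ≠ 0}, (n j.1 : ℝ) * Real.log (x j.1 b') := by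
      rw [← Fintype.sum_subtype_add_sum_subtype (fun i : k => x i w = 0)]
      exact congrArg₂ (fun a b : ℝ => a + b) (S1.sum_inst _ _ _) (S1.sum_inst _ _ _)
    have h2 : ∑ e, (l e : ℝ) * (y e b' - y e w) =
        ∑ e, (l e : ℝ) * y e b' - ∑ e, (l e : ℝ) * y e w := by
      rw [← Finset.sum_sub_distrib]
      exact Finset.sum_congr rfl fun e _ => by ring
    have h3 : ∑ j : {i : k // x i w ≠ 0}, (n j.1 : ℝ) *
        (Real.log (x j.1 b') - Real.log (x j.1 w)) =
        ∑ j : {i : k // x i w ≠ 0}, (n j.1 : ℝ) * Real.log (x j.1 b') -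
        ∑ j : {i : k // x i w ≠ 0}, (n j.1 : ℝ) * Real.log (x j.1 w) := by
      rw [← Finset.sum_sub_distrib]
      exact Finset.sum_congr rfl fun e _ => by ring
    rw [h1, h2, h3]
    ring

end Pool.Agent.TD.R


end
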