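import Mathlib
import Pool.Agent.DolbM.C07
import Pool.Agent.DolbM.C18

/-! Parts: TD.X2.Loc -/

section

/-! Algebras spanned by characters: extension of points, compactness (module TD_X2_LOC). -/

open scoped Topology NNReal

namespace Pool.Agent.TD.X2

variable {K A A' N σ : Type} [NormedField K] [CommRing A] [Algebra K A] [CommRing A']
  [Algebra K A'] [AddCommGroup N] {P : AddSubmonoid N} {r : A →ₐ[K] A'} {χ : P → A} {χ' : N → A'}

theorem continuous_tr (χ : P → A) : Continuous (tr (K := K) χ) :=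
  continuous_pi fun m => Ber.continuous_v (χ m)

theorem Chars.tr_zero (h : Chars K P r χ χ') (z : Ber K A) : tr χ z 0 = 1 := by
  show z.v (χ 0) = 1
  rw [h.zero, z.one]

theorem Chars.tr_add (h : Chars K P r χ χ') (z : Ber K A) (m m' : P) :
    tr χ z (m + m') = tr χ z m * tr χ z m' := by
  show z.v (χ (m + m')) = z.v (χ m) * z.v (χ m')
  rw [h.add, z.mul]

theorem Chars.tr_res (h : Chars K P r χ χ') (z : Ber K A') (m : P) :
    tr χ (Ber.res r z) m = z.v (χ' m) := by
  show z.v (r (χ m)) = z.v (χ' m)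
  rw [h.comp]

/-- Characters are invertible on `A'`. -/
theorem Chars.v_ne (h : Chars K P r χ χ') (z : Ber K A') (m : N) : z.v (χ' m) ≠ 0 := by
  intro h0
  have h1 : z.v (χ' (m + -m)) = z.v (χ' m) * z.v (χ' (-m)) := by rw [h.add', z.mul]
  rw [add_neg_cancel, h.zero', z.one, h0, zero_mul] at h1
  exact one_ne_zero h1

theorem Chars.v_pos (h : Chars K P r χ χ') (z : Ber K A') (m : N) : 0 < z.v (χ' m) :=
  lt_of_le_of_ne (z.nonneg _) (h.v_ne z m).symm

/-- Every element of `A'` is a fraction. -/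
theorem Chars.exists_frac (h : Chars K P r χ χ') (a' : A') :
    ∃ (a : A) (m : P), χ' m * a' = r a := by
  obtain ⟨F, rfl⟩ := h.span' a'
  induction F using Finsupp.induction_linear with
  | zero => exact ⟨0, 0, by simp [FA.ev]⟩
  | add F G hF hG =>
    obtain ⟨a1, m1, e1⟩ := hF
    obtain ⟨a2, m2, e2⟩ := hG
    refine ⟨χ m2 * a1 + χ m1 * a2, m1 + m2, ?_⟩
    have e3 : FA.ev χ' (F + G) = FA.ev χ' F + FA.ev χ' G := by
      unfold FA.ev
      rw [Finsupp.sum_add_index']
      · intro m; rw [map_zero, zero_mul]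
      · intro m c c'; rw [map_add, add_mul]
    rw [e3, map_add, map_mul, map_mul, ← e1, ← e2, h.comp, h.comp, AddSubmonoid.coe_add, h.add']
    ring
  | single m c =>
    obtain ⟨x, y, e⟩ := h.gen m
    refine ⟨algebraMap K A c * χ x, y, ?_⟩
    have e3 : FA.ev χ' (Finsupp.single m c) = algebraMap K A' c * χ' m := by
      unfold FA.ev
      rw [Finsupp.sum_single_index]
      rw [map_zero, zero_mul]
    have e4 : χ' y * χ' m = χ' x := by
      rw [← h.add', e]
      congr 1
      abel
    rw [e3, map_mul, r.commutes, h.comp, ← e4]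
    ring

/-- The points of `M(A)` at which the characters do not vanish are points of `M(A')`. -/
theorem Chars.exists_ext (h : Chars K P r χ χ') (z : Ber K A) (hz : ∀ m, z.v (χ m) ≠ 0) :
    ∃ z' : Ber K A', Ber.res r z' = z := by
  have hpos : ∀ m, 0 < z.v (χ m) := fun m => lt_of_le_of_ne (z.nonneg _) (hz m).symm
  obtain ⟨w, hw⟩ : ∃ w : A' → ℝ, ∀ (a' : A') (a : A) (m : P), χ' m * a' = r a →
      w a' = z.v a / z.v (χ m) := by
    choose fa fm hf using h.exists_frac
    refine ⟨fun a' => z.v (fa a') / z.v (χ (fm a')), fun a' a m e => ?_⟩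
    have h1 : χ m * fa a' = χ (fm a') * a := by
      apply h.inj
      rw [map_mul, map_mul, ← hf a', ← e, h.comp, h.comp]
      ring
    have h2 := congrArg z.v h1
    rw [z.mul, z.mul] at h2
    show z.v (fa a') / z.v (χ (fm a')) = _
    rw [div_eq_div_iff (hz _) (hz _)]
    linarith
  have h0 : ((0 : P) : N) = 0 := rfl
  refine ⟨⟨w, ?_, ?_, ?_, ?_, ?_⟩, ?_⟩
  · intro a'
    obtain ⟨a, m, e⟩ := h.exists_frac a'
    rw [hw a' a m e]
    exact div_nonneg (z.nonneg _) (z.nonneg _)
  · rw [hw 1 1 0 (by rw [h0, h.zero', map_one, mul_one]), h.zero, z.one, div_one]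
  · intro a' b'
    obtain ⟨a, m, e⟩ := h.exists_frac a'
    obtain ⟨b, n, e'⟩ := h.exists_frac b'
    rw [hw a' a m e, hw b' b n e', hw (a' * b') (a * b) (m + n) (by
      rw [AddSubmonoid.coe_add, h.add', map_mul, ← e, ← e']; ring), h.add, z.mul, z.mul,
      div_mul_div_comm]
  · intro a' b'
    obtain ⟨a, m, e⟩ := h.exists_frac a'
    obtain ⟨b, n, e'⟩ := h.exists_frac b'
    rw [hw a' a m e, hw b' b n e', hw (a' + b') (χ n * a + χ m * b) (m + n) (by
      rw [AddSubmonoid.coe_add, h.add', map_add, map_mul, map_mul, ← e, ← e', h.comp, h.comp]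
      ring), h.add, z.mul]
    have h1 := hpos m
    have h2 := hpos n
    have h3 := z.add (χ n * a) (χ m * b)
    rw [z.mul, z.mul] at h3
    have h4 : z.v a / z.v (χ m) = z.v (χ n) * z.v a / (z.v (χ m) * z.v (χ n)) := by
      rw [mul_comm (z.v (χ m)), mul_div_mul_left _ _ h2.ne']
    have h5 : z.v b / z.v (χ n) = z.v (χ m) * z.v b / (z.v (χ m) * z.v (χ n)) := by
      rw [mul_div_mul_left _ _ h1.ne']
    rw [h4, h5, max_div_div_right (mul_pos h1 h2).le]
    exact div_le_div_of_nonneg_right h3 (mul_pos h1 h2).le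
  · intro c
    rw [hw (algebraMap K A' c) (algebraMap K A c) 0 (by
      rw [h0, h.zero', one_mul, r.commutes]), h.zero, z.one, div_one, z.ext]
  · apply Ber.ext_v
    intro a
    show w (r a) = z.v a
    rw [hw (r a) a 0 (by rw [h0, h.zero', one_mul]), h.zero, z.one, div_one]

theorem Chars.res_inj (h : Chars K P r χ χ') {z z' : Ber K A'}
    (e : Ber.res r z = Ber.res r z') : z = z' := by
  apply Ber.ext_v
  intro a'
  obtain ⟨a, m, ha⟩ := h.exists_frac a'
  have h1 : z.v (r a) = z'.v (r a) := congrArg (fun y : Ber K A => y.v a) e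
  have h2 : z.v (r (χ m)) = z'.v (r (χ m)) := congrArg (fun y : Ber K A => y.v (χ m)) e
  rw [h.comp] at h2
  rw [← ha, z.mul, z'.mul, h2] at h1
  exact mul_left_cancel₀ (h.v_ne z' m) h1

/-- The logarithm of a point of the open stratum. -/
theorem Chars.exists_log (h : Chars K P r χ χ') (z : Ber K A) (hz : ∀ m, z.v (χ m) ≠ 0) :
    ∃ b : N →+ ℝ, ∀ m : P, z.v (χ m) = Real.exp (b m) := by
  obtain ⟨z', rfl⟩ := h.exists_ext z hz
  refine ⟨⟨⟨fun m => Real.log (z'.v (χ' m)), ?_⟩, ?_⟩, fun m => ?_⟩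
  · show Real.log (z'.v (χ' 0)) = 0
    rw [h.zero', z'.one, Real.log_one]
  · intro m n
    show Real.log (z'.v (χ' (m + n))) = Real.log (z'.v (χ' m)) + Real.log (z'.v (χ' n))
    rw [h.add', z'.mul, Real.log_mul (h.v_ne z' m) (h.v_ne z' n)]
  · show z'.v (r (χ m)) = Real.exp (Real.log (z'.v (χ' m)))
    rw [h.comp, Real.exp_log (h.v_pos z' m)]

theorem Chars.mem_Fib_iff (h : Chars K P r χ χ') {b : N →+ ℝ} {z : Ber K A'} :
    z ∈ FA.Fib K χ' b ↔ ∀ m : P, (Ber.res r z).v (χ m) = Real.exp (b m) := by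
  constructor
  · intro hz m
    show z.v (r (χ m)) = _
    rw [h.comp]
    exact hz m
  · intro hz m
    obtain ⟨x, y, e⟩ := h.gen m
    have hx : z.v (r (χ x)) = Real.exp (b x) := hz x
    have hy : z.v (r (χ y)) = Real.exp (b y) := hz y
    rw [h.comp] at hx hy
    have h1 : χ' y * χ' m = χ' x := by
      rw [← h.add', e]
      congr 1
      abel
    have h2 := congrArg z.v h1
    rw [z.mul, hx, hy] at h2
    show z.v (χ' m) = Real.exp (b m)
    have h3 : Real.exp (b x) = Real.exp (b y) * Real.exp (b m) := by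
      rw [← Real.exp_add, ← map_add, e]
      congr 2
      abel
    rw [h3] at h2
    exact mul_left_cancel₀ (Real.exp_pos _).ne' h2

/-- An order relation for the restrictions is one for the points. -/
theorem Chars.le_iff (h : Chars K P r χ χ') {z z' : Ber K A'}
    (he : ∀ m : N, z.v (χ' m) = z'.v (χ' m)) : Ber.res r z ≤ Ber.res r z' ↔ z ≤ z' := by
  constructor
  · intro hle a'
    obtain ⟨a, m, ha⟩ := h.exists_frac a'
    have h1 : z.v (r a) ≤ z'.v (r a) := hle a
    rw [← ha, z.mul, z'.mul, he] at h1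
    exact le_of_mul_le_mul_left h1 (h.v_pos z' m)
  · intro hle
    exact Ber.res_mono r hle

theorem Chars.res_aeval (h : Chars K P r χ χ') (u : σ → P) (Q : MvPolynomial σ K) :
    r (MvPolynomial.aeval (fun i => χ (u i)) Q) = MvPolynomial.aeval (fun i => χ' (u i)) Q := by
  have e : r.comp (MvPolynomial.aeval (fun i => χ (u i)) : MvPolynomial σ K →ₐ[K] A) =
      MvPolynomial.aeval (fun i => χ' (u i)) := by
    apply MvPolynomial.algHom_ext
    intro i
    rw [AlgHom.comp_apply, MvPolynomial.aeval_X, MvPolynomial.aeval_X, h.comp]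
  exact DFunLike.congr_fun e Q

theorem Chars.dens (h : Chars K P r χ χ') (u : σ → P) {z : Ber K A'}
    (hd : Dens (MvPolynomial.aeval fun i => χ' (u i) : MvPolynomial σ K →ₐ[K] A') z) :
    Dens (MvPolynomial.aeval fun i => χ (u i) : MvPolynomial σ K →ₐ[K] A) (Ber.res r z) := by
  intro a ε hε
  obtain ⟨b, c, h1, h2⟩ := hd (r a) ε hε
  refine ⟨b, c, ?_, ?_⟩
  · show z.v (r _) ≠ 0
    rw [h.res_aeval]
    exact h1
  · show z.v (r _) < ε * z.v (r _)
    rw [map_sub, map_mul, h.res_aeval, h.res_aeval]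
    exact h2

theorem Chars.fam_res (h : Chars K P r χ χ') (u : σ → P) (z : Ber K A') :
    fam (fun i => χ (u i)) (Ber.res r z) = fam (fun i => χ' (u i)) z := by
  apply Ber.ext_v
  intro Q
  exact congrArg z.v (h.res_aeval u Q)

theorem Chars.fgN (h : Chars K P r χ χ') : AddGroup.FG N := by
  obtain ⟨S, hS⟩ := h.fgP
  rw [AddGroup.fg_iff]
  refine ⟨(S : Set N), ?_, S.finite_toSet⟩
  rw [eq_top_iff]
  rintro m -
  obtain ⟨x, y, rfl⟩ := h.gen m
  have key : ∀ p : P, (p : N) ∈ AddSubgroup.closure (S : Set N) := by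
    intro p
    have h1 : (p : N) ∈ AddSubmonoid.closure (S : Set N) := by rw [hS]; exact p.2
    have h2 : AddSubmonoid.closure (S : Set N) ≤
        (AddSubgroup.closure (S : Set N)).toAddSubmonoid :=
      AddSubmonoid.closure_le.2 AddSubgroup.subset_closure
    exact h2 h1
  exact sub_mem (key x) (key y)

theorem Chars.exists_gens (h : Chars K P r χ χ') :
    ∃ G : Finset P, AddSubmonoid.closure (G : Set P) = ⊤ := by
  have h1 : AddMonoid.FG P := (AddMonoid.fg_iff_addSubmonoid_fg P).2 h.fgP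
  exact h1.fg_top

theorem Chars.adjoin_eq [DecidableEq A] (h : Chars K P r χ χ') {G : Finset P}
    (hG : AddSubmonoid.closure (G : Set P) = ⊤) :
    Algebra.adjoin K ((G.image χ : Finset A) : Set A) = ⊤ := by
  rw [eq_top_iff]
  rintro a -
  obtain ⟨F, rfl⟩ := h.span a
  have key : ∀ m : P, χ m ∈ Algebra.adjoin K ((G.image χ : Finset A) : Set A) := by
    intro m
    have hm : m ∈ AddSubmonoid.closure (G : Set P) := by rw [hG]; trivial
    induction hm using AddSubmonoid.closure_induction with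
    | mem x hx =>
      apply Algebra.subset_adjoin
      rw [Finset.mem_coe]
      exact Finset.mem_image_of_mem χ hx
    | zero => rw [h.zero]; exact one_mem _
    | add x y _ _ hx hy => rw [h.add]; exact mul_mem hx hy
  unfold Finsupp.sum
  exact sum_mem fun m _ => mul_mem (Subalgebra.algebraMap_mem _ _) (key m)

theorem Chars.finiteType (h : Chars K P r χ χ') : Algebra.FiniteType K A := by
  classical
  obtain ⟨G, hG⟩ := h.exists_gens
  exact ⟨⟨G.image χ, h.adjoin_eq hG⟩⟩

theorem Chars.isCompact [IsUltrametricDist K] (h : Chars K P r χ χ') {G : Finset P}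
    (hG : AddSubmonoid.closure (G : Set P) = ⊤) (w : P → ℝ) (ε : ℝ) :
    IsCompact {z : Ber K A | ∀ m ∈ G, |z.v (χ m) - w m| ≤ ε} := by
  classical
  refine (ber_compact (G.image χ) (h.adjoin_eq hG)
    (∑ m ∈ G, (|w m| + |ε|))).of_isClosed_subset ?_ ?_
  · have h2 : {z : Ber K A | ∀ m ∈ G, |z.v (χ m) - w m| ≤ ε} =
        ⋂ m ∈ G, {z : Ber K A | |z.v (χ m) - w m| ≤ ε} := by
      ext z
      simp only [Set.mem_ofPred_eq, Set.mem_iInter]
    rw [h2]
    exact isClosed_biInter fun m _ => isClosed_le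
      ((Ber.continuous_v (χ m)).sub continuous_const).abs continuous_const
  · intro z hz g hg
    obtain ⟨m, hm, rfl⟩ := Finset.mem_image.1 hg
    have h1 := hz m hm
    have h3 : z.v (χ m) ≤ |w m| + |ε| := by
      have h4 := (abs_le.1 h1).2
      have h5 := le_abs_self (w m)
      have h6 := le_abs_self ε
      linarith
    exact h3.trans (Finset.single_le_sum (f := fun m => |w m| + |ε|)
      (fun i _ => add_nonneg (abs_nonneg _) (abs_nonneg _)) hm)

end Pool.Agent.TD.X2


end
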