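import Mathlib.Algebra.Category.Grp.Injective
import Pool.Agent.DolbM.C06
import Pool.Agent.DolbM.C08
import Pool.Agent.DolbM.C18
import Pool.Agent.DolbM.C19
import Pool.Agent.DolbM.C20
import Pool.Agent.TD.X.Map
import Pool.Agent.TD.X.Smooth
import Pool.Agent.TD.Y.Restr

/-! Parts: TD.X1.Defs, TD.X1.Chr, TD.X1.Chars, TD.X1.Top, TD.X1.Tr, TD.X1.GC, TD.X1.Wt, TD.X3.FinConv -/

section

/-!
# The charts of a subvariety of a toric variety (MP_90358a_ag, section X.b): definitions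

`φ : X → Y` a closed immersion, `X` integral, `Y` toric.  `gc` is the cone of the stratum of `Y`
which contains the generic point of `X`; the characters which do not vanish identically on `X` are
those in `gc^⊥`.
-/

open scoped Topology NNReal
open AlgebraicGeometry CategoryTheory

namespace Pool.Agent.TD.X1

variable {K : Type} [NormedField K] {X Y : Scheme.{0}} {n : ℕ} {F : Fan n} {ι : Str K Y}
  (T : Toric F Y ι) (φ : X ⟶ Y)

/-- The function `|χ^m|`, `m ∈ P`, on `Trop(Y)`. -/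
noncomputable def fn {N : AddSubgroup (Fin n → ℤ)} (P : AddSubmonoid N) (b : TropPt F)
    (m : P) : ℝ := TropPt.absv m.1.1 b

/-- The characters in `N` which are functions on `U_σ`. -/
def dM (N : AddSubgroup (Fin n → ℤ)) (σ : F.cones) : AddSubmonoid N := (dualM σ.1).comap N.subtype

/-- The ring `Γ(X, φ⁻¹(U_σ))`. -/
def Ax (σ : F.cones) : Type := Fn X (opX φ (T.U σ))

noncomputable instance (σ : F.cones) : CommRing (Ax T φ σ) :=
  inferInstanceAs (CommRing (Fn X (opX φ (T.U σ))))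

/-- The identity. -/
noncomputable def axE (σ : F.cones) : Ax T φ σ ≃+* Fn X (opX φ (T.U σ)) := RingEquiv.refl _

noncomputable instance (σ : F.cones) : Algebra K (Ax T φ σ) :=
  ((axE T φ σ).symm.toRingHom.comp (stK (Str.pb φ ι) (opX φ (T.U σ)))).toAlgebra

theorem axE_alg (σ : F.cones) (c : K) : axE T φ σ (algebraMap K (Ax T φ σ) c) =
    stK (Str.pb φ ι) (opX φ (T.U σ)) c := rfl

/-- The restriction `Γ(X, φ⁻¹(U_σ)) → Γ(X, φ⁻¹(U_τ))`, `τ` a face of `σ`. -/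
noncomputable def rx {σ τ : F.cones} (h : τ.1 ⊆ σ.1) : Ax T φ σ →ₐ[K] Ax T φ τ where
  toRingHom := (axE T φ τ).symm.toRingHom.comp
    ((X.presheaf.map (homOfLE (fun _ hx => T.U_mono h hx :
      opX φ (T.U τ) ≤ opX φ (T.U σ))).op).hom.comp (axE T φ σ).toRingHom)
  commutes' c := Toric.stK_res (Str.pb φ ι) (fun _ hx => T.U_mono h hx :
      opX φ (T.U τ) ≤ opX φ (T.U σ)) c

/-- The characters on `φ⁻¹(U_σ)`. -/
noncomputable def chS (σ : F.cones) (m : Sg σ.1) : Ax T φ σ := (axE T φ σ).symm (fnX φ (T.chi σ m))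

/-- The characters in `N` on `φ⁻¹(U_σ)`. -/
noncomputable def chi (N : AddSubgroup (Fin n → ℤ)) (σ : F.cones) (m : dM N σ) : Ax T φ σ :=
  chS T φ σ ⟨m.1.1, m.2⟩

/-- The invertible characters on `φ⁻¹(U_τ)`. -/
noncomputable def chi' (τ : F.cones) (m : perpM τ.1) : Ax T φ τ :=
  chS T φ τ ⟨m.1, TropPt.perp_dual m.2⟩

/-- The cone of the stratum which contains the generic point of `X`. -/
noncomputable def gc [IsIntegral X] : F.cones := T.minCone (φ (genericPoint X))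

end Pool.Agent.TD.X1


end

section

/-!
# The characters on the charts of a subvariety (MP_90358a_ag, section X.b)
-/

open scoped Topology NNReal
open AlgebraicGeometry CategoryTheory

namespace Pool.Agent.TD.X1

variable {K : Type} [NormedField K] {X Y : Scheme.{0}} {n : ℕ} {F : Fan n} {ι : Str K Y}
  (T : Toric F Y ι) (φ : X ⟶ Y)

theorem chS_zero (σ : F.cones) : chS T φ σ 0 = 1 := by
  show fnH φ (T.U σ) (T.chi σ 0) = 1
  rw [T.chi_zero, map_one]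

theorem chS_add (σ : F.cones) (m m' : Sg σ.1) : chS T φ σ (m + m') = chS T φ σ m * chS T φ σ m' := by
  show fnH φ (T.U σ) (T.chi σ (m + m')) = fnH φ (T.U σ) (T.chi σ m) * fnH φ (T.U σ) (T.chi σ m')
  rw [T.chi_add, map_mul]

theorem fnH_res {V W : Y.Opens} (h : V ≤ W) (f : Γ(Y, W)) :
    X.presheaf.map (homOfLE (fun _ hx => h hx : opX φ V ≤ opX φ W)).op (fnH φ W f) =
      fnH φ V (Y.presheaf.map (homOfLE h).op f) := by
  have h1 := φ.naturality (homOfLE h).op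
  have h2 := congrArg (fun g => g f) (congrArg CommRingCat.Hom.hom h1)
  exact h2.symm

theorem rx_chS {σ τ : F.cones} (h : τ.1 ⊆ σ.1) (m : Sg σ.1) : rx T φ h (chS T φ σ m) =
    chS T φ τ ⟨m.1, Toric.dual_mono h m.2⟩ := by
  have h1 := fnH_res φ (T.U_mono h) (T.chi σ m)
  rw [T.chi_res σ τ (T.U_mono h) m ⟨m.1, Toric.dual_mono h m.2⟩ h rfl] at h1
  exact h1

theorem chS_unit {σ : F.cones} {m : Sg σ.1} (hm : m.1 ∈ perpM σ.1) : IsUnit (chS T φ σ m) := by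
  have h : chS T φ σ m * chS T φ σ ⟨-m.1, TropPt.perp_dual ((perpM σ.1).neg_mem hm)⟩ = 1 := by
    rw [← chS_add, ← chS_zero T φ σ]
    congr 1
    apply Subtype.ext
    show m.1 + -m.1 = 0
    exact add_neg_cancel _
  exact IsUnit.of_mul_eq_one _ h

theorem surj [IsClosedImmersion φ] (σ : F.cones) : Function.Surjective (fnH φ (T.U σ)) :=
  φ.app_surjective (T.U σ) (T.affine σ)

theorem affineX [IsClosedImmersion φ] (σ : F.cones) : IsAffineOpen (opX φ (T.U σ)) :=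
  (T.affine σ).preimage φ

theorem alg_eq (σ : F.cones) (c : K) : algebraMap K (Ax T φ σ) c =
    (fnH φ (T.U σ) (stK ι (T.U σ) c) : Fn X (opX φ (T.U σ))) := by
  have h1 := fnH_res φ (le_top : T.U σ ≤ ⊤) (ι c)
  exact h1

/-- Every function on `φ⁻¹(U_σ)` is a linear combination of characters. -/
theorem span_chS [IsClosedImmersion φ] (σ : F.cones) (a : Ax T φ σ) :
    ∃ G : Sg σ.1 →₀ K, (G.sum fun m c => algebraMap K (Ax T φ σ) c * chS T φ σ m) = a := by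
  obtain ⟨f, hf⟩ := surj T φ σ a
  obtain ⟨G, rfl⟩ := (T.basis σ).2 f
  refine ⟨G, ?_⟩
  refine Eq.trans ?_ hf
  show _ = fnH φ (T.U σ) (G.sum fun m c => stK ι (T.U σ) c * T.chi σ m)
  unfold Finsupp.sum
  rw [map_sum]
  refine Finset.sum_congr rfl fun m _ => ?_
  rw [map_mul]
  exact congrArg (fun b : Fn X (opX φ (T.U σ)) => b * fnH φ (T.U σ) (T.chi σ m))
    (alg_eq T φ σ (G m))

variable [IsIntegral X]

theorem mem_gen {σ : F.cones} : genericPoint X ∈ opX φ (T.U σ) ↔ (gc T φ).1 ⊆ σ.1 :=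
  T.mem_U_iff

theorem gc_le (x : X) : (gc T φ).1 ⊆ (T.minCone (φ x)).1 := by
  rw [← mem_gen]
  exact (genericPoint_specializes x).mem_open (opX φ _).2 (T.mem_minCone (φ x))

theorem gc_le_tropX (z : An X (Str.pb φ ι)) : (gc T φ).1 ⊆ (T.tropX φ z).cone.1 :=
  gc_le T φ z.pt

theorem isDomain {σ : F.cones} (h : (gc T φ).1 ⊆ σ.1) : IsDomain (Ax T φ σ) := by
  have : Nonempty (opX φ (T.U σ)) := ⟨⟨genericPoint X, (mem_gen T φ).2 h⟩⟩
  exact inferInstanceAs (IsDomain Γ(X, opX φ (T.U σ)))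

/-- The characters outside `gc^⊥` vanish on `X`. -/
theorem chS_eq_zero {σ : F.cones} {m : Sg σ.1} (hm : m.1 ∉ perpM (gc T φ).1) :
    chS T φ σ m = 0 := by
  by_contra h
  apply hm
  have h1 : X.basicOpen (fnH φ (T.U σ) (T.chi σ m)) = φ ⁻¹ᵁ Y.basicOpen (T.chi σ m) :=
    (Scheme.preimage_basicOpen φ (T.chi σ m)).symm
  have h2 : genericPoint X ∈ X.basicOpen (fnH φ (T.U σ) (T.chi σ m)) := by
    have h3 : ((X.basicOpen (fnH φ (T.U σ) (T.chi σ m)) : X.Opens) : Set X).Nonempty := by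
      rw [Set.nonempty_iff_ne_empty]
      intro h4
      apply h
      have h5 : X.basicOpen (fnH φ (T.U σ) (T.chi σ m)) = ⊥ := TopologicalSpace.Opens.ext h4
      rw [basicOpen_eq_bot_iff] at h5
      exact h5
    exact (genericPoint_spec X).mem_open_set_iff (X.basicOpen _).2 |>.2
      (by rwa [Set.univ_inter])
  rw [h1] at h2
  have h3 : φ (genericPoint X) ∈ Y.basicOpen (T.chi σ m) := h2
  rw [T.basicOpen_chi, T.mem_U_iff] at h3
  exact fun x hx => (h3 hx).2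

/-- The characters in `gc^⊥` do not vanish on `X`. -/
theorem chS_ne_zero {σ : F.cones} (h : (gc T φ).1 ⊆ σ.1) {m : Sg σ.1}
    (hm : m.1 ∈ perpM (gc T φ).1) : chS T φ σ m ≠ 0 := by
  intro h0
  have h1 := rx_chS T φ h m
  rw [h0, map_zero] at h1
  have h2 := chS_unit T φ (σ := gc T φ) (m := ⟨m.1, Toric.dual_mono h m.2⟩) hm
  have := isDomain T φ (σ := gc T φ) (Set.Subset.refl _)
  rw [← h1] at h2
  exact not_isUnit_zero h2

end Pool.Agent.TD.X1


end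

section

/-!
# The chart rings of a subvariety are spanned by characters (MP_90358a_ag, section X.b)
-/

open scoped Topology NNReal
open AlgebraicGeometry CategoryTheory

namespace Pool.Agent.TD.X1

section cone

variable {n : ℕ} {F : Fan n}

/-- The characters which vanish on a face are differences of such characters in `S_σ`. -/
theorem exists_split {σ ρ : F.cones} (h : ρ.1 ⊆ σ.1) {m : Fin n → ℤ} (hm : m ∈ perpM ρ.1) :
    ∃ m1 m2 : Fin n → ℤ, m1 ∈ perpM ρ.1 ∧ m2 ∈ perpM ρ.1 ∧ m1 ∈ dualM σ.1 ∧ m2 ∈ dualM σ.1 ∧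
      m = m1 - m2 := by
  obtain ⟨m0, h0, hf⟩ := F.face_of_sub h
  have h0' : m0 ∈ dualM σ.1 := h0
  have h1 : m0 ∈ perpM ρ.1 := by
    intro x hx
    rw [hf] at hx
    exact hx.2
  have h2 : m ∈ dualM {x ∈ σ.1 | pair m0 x = 0} := by
    rw [← hf]
    exact TropPt.perp_dual hm
  obtain ⟨k, hk⟩ := face_dual (F.rat σ.1 σ.2) h0' h2
  exact ⟨m + k • m0, k • m0, add_mem hm (nsmul_mem h1 k), nsmul_mem h1 k, hk,
    nsmul_mem h0' k, (add_sub_cancel_right _ _).symm⟩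

/-- The monoid `S_σ ∩ τ^⊥` is finitely generated. -/
theorem dM_fg {σ τ : F.cones} (h : τ.1 ⊆ σ.1) : (dM (perpM τ.1) σ).FG := by
  classical
  obtain ⟨S, hS⟩ := gordan (F.rat σ.1 σ.2)
  refine ⟨S.subtype (· ∈ perpM τ.1), le_antisymm ?_ ?_⟩
  · rw [AddSubmonoid.closure_le]
    intro m hm
    have h1 : m.1 ∈ S := Finset.mem_subtype.1 hm
    show m.1 ∈ dualM σ.1
    rw [← hS]
    exact AddSubmonoid.subset_closure h1
  · have key : ∀ m ∈ AddSubmonoid.closure (S : Set (Fin n → ℤ)), ∀ hm : m ∈ perpM τ.1,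
        (⟨m, hm⟩ : perpM τ.1) ∈ AddSubmonoid.closure
          ((S.subtype (· ∈ perpM τ.1) : Finset (perpM τ.1)) : Set (perpM τ.1)) := by
      intro m hm
      induction hm using AddSubmonoid.closure_induction with
      | mem x hx =>
        intro hm
        exact AddSubmonoid.subset_closure (Finset.mem_subtype.2 hx)
      | zero =>
        intro hm
        exact AddSubmonoid.zero_mem _
      | add x y hx hy ihx ihy =>
        intro hm
        have hxd : x ∈ dualM σ.1 := by rw [← hS]; exact hx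
        have hyd : y ∈ dualM σ.1 := by rw [← hS]; exact hy
        have key2 : ∀ v ∈ τ.1, pair x v = 0 ∧ pair y v = 0 := by
          intro v hv
          have e1 := hm v hv
          rw [pair_add_left] at e1
          have e2 := hxd v (h hv)
          have e3 := hyd v (h hv)
          constructor <;> linarith
        have hx' : x ∈ perpM τ.1 := fun v hv => (key2 v hv).1
        have hy' : y ∈ perpM τ.1 := fun v hv => (key2 v hv).2
        have e : (⟨x + y, hm⟩ : perpM τ.1) = ⟨x, hx'⟩ + ⟨y, hy'⟩ := rfl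
        rw [e]
        exact AddSubmonoid.add_mem _ (ihx hx') (ihy hy')
    intro m hm
    have h1 : m.1 ∈ dualM σ.1 := hm
    rw [← hS] at h1
    exact key m.1 h1 m.2

end cone

variable {K : Type} [NormedField K] {X Y : Scheme.{0}} {n : ℕ} {F : Fan n} {ι : Str K Y}
  (T : Toric F Y ι) (φ : X ⟶ Y) [IsClosedImmersion φ] [IsIntegral X]

theorem span_chi {σ : F.cones} (a : Ax T φ σ) : ∃ G : dM (perpM (gc T φ).1) σ →₀ K,
    (G.sum fun m c => algebraMap K (Ax T φ σ) c * chi T φ (perpM (gc T φ).1) σ m) = a := by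
  classical
  obtain ⟨G, rfl⟩ := span_chS T φ σ a
  induction G using Finsupp.induction_linear with
  | zero => exact ⟨0, by rw [Finsupp.sum_zero_index, Finsupp.sum_zero_index]⟩
  | add f g hf hg =>
    obtain ⟨F1, h1⟩ := hf
    obtain ⟨F2, h2⟩ := hg
    refine ⟨F1 + F2, ?_⟩
    rw [Finsupp.sum_add_index' (fun _ => by rw [map_zero, zero_mul])
      (fun _ _ _ => by rw [map_add, add_mul]), h1, h2,
      Finsupp.sum_add_index' (fun _ => by rw [map_zero, zero_mul])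
      (fun _ _ _ => by rw [map_add, add_mul])]
  | single m c =>
    rw [Finsupp.sum_single_index (by rw [map_zero, zero_mul])]
    by_cases hm : m.1 ∈ perpM (gc T φ).1
    · refine ⟨Finsupp.single ⟨⟨m.1, hm⟩, m.2⟩ c, ?_⟩
      rw [Finsupp.sum_single_index (by rw [map_zero, zero_mul])]
      rfl
    · refine ⟨0, ?_⟩
      rw [Finsupp.sum_zero_index, chS_eq_zero T φ hm, mul_zero]

theorem span_chi' (a : Ax T φ (gc T φ)) : ∃ G : perpM (gc T φ).1 →₀ K,
    FA.ev (chi' T φ (gc T φ)) G = a := by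
  classical
  obtain ⟨G, rfl⟩ := span_chS T φ (gc T φ) a
  induction G using Finsupp.induction_linear with
  | zero => exact ⟨0, by rw [FA.ev, Finsupp.sum_zero_index, Finsupp.sum_zero_index]⟩
  | add f g hf hg =>
    obtain ⟨F1, h1⟩ := hf
    obtain ⟨F2, h2⟩ := hg
    refine ⟨F1 + F2, ?_⟩
    rw [FA.ev] at h1 h2 ⊢
    rw [Finsupp.sum_add_index' (fun _ => by rw [map_zero, zero_mul])
      (fun _ _ _ => by rw [map_add, add_mul]), h1, h2,
      Finsupp.sum_add_index' (fun _ => by rw [map_zero, zero_mul])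
      (fun _ _ _ => by rw [map_add, add_mul])]
  | single m c =>
    rw [Finsupp.sum_single_index (by rw [map_zero, zero_mul])]
    by_cases hm : m.1 ∈ perpM (gc T φ).1
    · refine ⟨Finsupp.single ⟨m.1, hm⟩ c, ?_⟩
      rw [FA.ev, Finsupp.sum_single_index (by rw [map_zero, zero_mul])]
      rfl
    · refine ⟨0, ?_⟩
      rw [FA.ev, Finsupp.sum_zero_index, chS_eq_zero T φ hm, mul_zero]

omit [IsClosedImmersion φ] in
theorem rx_inj {σ : F.cones} (h : (gc T φ).1 ⊆ σ.1) : Function.Injective (rx T φ h) := by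
  have : Nonempty (opX φ (T.U (gc T φ))) := ⟨⟨genericPoint X, (mem_gen T φ).2 Set.Subset.rfl⟩⟩
  exact map_injective_of_isIntegral X (homOfLE (fun _ hx => T.U_mono h hx :
      opX φ (T.U (gc T φ)) ≤ opX φ (T.U σ)))

/-- The chart rings of `X` are spanned by the characters in `gc^⊥`. -/
theorem chars {σ : F.cones} (h : (gc T φ).1 ⊆ σ.1) :
    X2.Chars K (dM (perpM (gc T φ).1) σ) (rx T φ h) (chi T φ (perpM (gc T φ).1) σ)
      (chi' T φ (gc T φ)) where
  zero := chS_zero T φ σ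
  add m m' := chS_add T φ σ ⟨m.1.1, m.2⟩ ⟨m'.1.1, m'.2⟩
  zero' := chS_zero T φ (gc T φ)
  add' m m' := chS_add T φ (gc T φ) ⟨m.1, TropPt.perp_dual m.2⟩ ⟨m'.1, TropPt.perp_dual m'.2⟩
  comp m := rx_chS T φ h _
  span := span_chi T φ
  span' := span_chi' T φ
  inj := rx_inj T φ h
  gen m := by
    obtain ⟨m1, m2, h1, h2, h3, h4, e⟩ := exists_split h m.2
    exact ⟨⟨⟨m1, h1⟩, h3⟩, ⟨⟨m2, h2⟩, h4⟩, Subtype.ext e⟩
  fgP := dM_fg h

theorem finiteType {σ : F.cones} (h : (gc T φ).1 ⊆ σ.1) : Algebra.FiniteType K (Ax T φ σ) :=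
  (chars T φ h).finiteType

omit [IsClosedImmersion φ] in
/-- Characters which do not vanish at a point with cone `σ` are units on `U_σ`. -/
theorem unit {w : TropPt F} (m : dM (perpM (gc T φ).1) w.cone)
    (hm : fn (dM (perpM (gc T φ).1) w.cone) w m ≠ 0) :
    ∃ m' : dM (perpM (gc T φ).1) w.cone, m + m' = 0 := by
  have h1 : m.1.1 ∈ perpM w.cone.1 := by
    by_contra h
    apply hm
    unfold fn TropPt.absv
    rw [dif_neg h]
  refine ⟨⟨-m.1, ?_⟩, ?_⟩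
  · show (-m.1 : perpM (gc T φ).1).1 ∈ dualM w.cone.1
    exact TropPt.perp_dual ((perpM w.cone.1).neg_mem h1)
  · apply Subtype.ext
    exact add_neg_cancel _

end Pool.Agent.TD.X1


end

section

/-!
# Points of the tropical toric variety as functions on characters (MP_90358a_ag, section X.b)

`S` is a subset of `Trop(Y)` in the closure of the stratum of `τ`; the part of `S` in the chart of
`σ` is identified by `fn` with a set of functions on `S_σ ∩ τ^⊥`.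
-/

open scoped Topology NNReal
open AlgebraicGeometry CategoryTheory

namespace Pool.Agent.TD.X1

section abs

variable {α β : Type} [TopologicalSpace α] [TopologicalSpace β]

theorem map_nhdsWithin {f : α → β} {s : Set α} {b : α}
    (h1 : Filter.Tendsto f (𝓝[s] b) (𝓝 (f b)))
    (h2 : Filter.principal s ⊓ Filter.comap f (𝓝 (f b)) ≤ 𝓝 b) :
    Filter.map f (𝓝[s] b) = 𝓝[f '' s] (f b) := by
  have e : 𝓝[s] b = Filter.comap f (𝓝 (f b)) ⊓ Filter.principal s := by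
    refine le_antisymm (le_inf (Filter.map_le_iff_le_comap.1 h1) inf_le_right) ?_
    refine le_inf ?_ inf_le_right
    rw [inf_comm]
    exact h2
  rw [e, Filter.push_pull', Filter.map_principal]
  rfl

theorem exists_open {T A : Set β} (hA : A ⊆ T) (h : ∀ a ∈ A, A ∈ 𝓝[T] a) :
    ∃ U : Set β, IsOpen U ∧ T ∩ U = A := by
  have h1 : ∀ a : A, ∃ u : Set β, IsOpen u ∧ a.1 ∈ u ∧ u ∩ T ⊆ A := by
    intro a
    obtain ⟨u, hu, hau, hs⟩ := mem_nhdsWithin.1 (h a.1 a.2)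
    exact ⟨u, hu, hau, hs⟩
  choose u hu hau hs using h1
  refine ⟨⋃ a, u a, isOpen_iUnion hu, Set.Subset.antisymm ?_ ?_⟩
  · rintro x ⟨hx, hx'⟩
    obtain ⟨a, ha⟩ := Set.mem_iUnion.1 hx'
    exact hs a ⟨ha, hx⟩
  · intro x hx
    exact ⟨hA hx, Set.mem_iUnion.2 ⟨⟨x, hx⟩, hau ⟨x, hx⟩⟩⟩

end abs

variable {n : ℕ} {F : Fan n} {τ σ : F.cones} {S : Set (TropPt F)}

theorem absv_out {b : TropPt F} (hb : τ.1 ⊆ b.cone.1) {m : Fin n → ℤ} (hm : m ∉ perpM τ.1) :
    TropPt.absv m b = 0 :=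
  TropLoc.absv_not fun h => hm (TropPt.perp_sub hb h)

theorem fn_inj : Set.InjOn (fn (dM (perpM τ.1) σ)) {b | τ.1 ⊆ b.cone.1 ∧ b ∈ TropPt.opn σ} := by
  rintro b ⟨hb, hb'⟩ c ⟨hc, hc'⟩ e
  refine TropPt.ext_absv hb' hc' fun m hm => ?_
  by_cases h : m ∈ perpM τ.1
  · exact congrFun e ⟨⟨m, h⟩, hm⟩
  · rw [absv_out hb h, absv_out hc h]

theorem continuousAt_fn {b : TropPt F} (hb : b ∈ TropPt.opn σ) :
    ContinuousAt (fn (dM (perpM τ.1) σ)) b := by
  rw [continuousAt_pi]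
  intro m
  exact (TropPt.continuousOn_absv σ ⟨m.1.1, m.2⟩).continuousAt
    ((TropPt.isOpen_opn σ).mem_nhds hb)

/-- The topology of `Trop(U_σ)` is defined by the characters. -/
theorem fn_le {b : TropPt F} (hb : τ.1 ⊆ b.cone.1) (hbσ : b ∈ TropPt.opn σ) :
    Filter.principal {b | τ.1 ⊆ b.cone.1 ∧ b ∈ TropPt.opn σ} ⊓
      Filter.comap (fn (dM (perpM τ.1) σ)) (𝓝 (fn (dM (perpM τ.1) σ) b)) ≤ 𝓝 b := by
  set l := Filter.principal {b | τ.1 ⊆ b.cone.1 ∧ b ∈ TropPt.opn σ} ⊓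
      Filter.comap (fn (dM (perpM τ.1) σ)) (𝓝 (fn (dM (perpM τ.1) σ) b)) with hl
  have hl1 : ∀ᶠ b' in l, τ.1 ⊆ b'.cone.1 ∧ b' ∈ TropPt.opn σ :=
    Filter.mem_inf_of_left (Filter.mem_principal_self _)
  have hl2 : ∀ m ∈ dualM σ.1, m ∈ perpM τ.1 →
      Filter.Tendsto (fun b' : TropPt F => TropPt.absv m b') l (𝓝 (TropPt.absv m b)) := by
    intro m hm hm'
    have h1 : Filter.Tendsto (fn (dM (perpM τ.1) σ)) l (𝓝 (fn (dM (perpM τ.1) σ) b)) :=
      Filter.tendsto_comap.mono_left inf_le_right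
    exact (tendsto_pi_nhds.1 h1) ⟨⟨m, hm'⟩, hm⟩
  obtain ⟨m0, h0, hf⟩ := F.face_of_sub (σ := σ) (τ := b.cone) hbσ
  have h0' : m0 ∈ dualM σ.1 := h0
  have h1 : m0 ∈ perpM b.cone.1 := by
    intro x hx
    rw [hf] at hx
    exact hx.2
  have h2 : m0 ∈ perpM τ.1 := TropPt.perp_sub hb h1
  have ht0 := hl2 m0 h0' h2
  have hb0 : TropPt.absv m0 b ≠ 0 := TropPt.absv_ne_zero_iff.2 h1
  have hl3 : ∀ᶠ b' in l, b' ∈ TropPt.opn b.cone ∧ TropPt.absv m0 b' ≠ 0 := by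
    filter_upwards [hl1, ht0.eventually_ne hb0] with b' h3 h4
    refine ⟨fun x hx => ?_, h4⟩
    rw [hf]
    exact ⟨h3.2 hx, TropPt.absv_ne_zero_iff.1 h4 x hx⟩
  have hl4 : ∀ g ∈ dualM b.cone.1, Filter.Tendsto (fun b' : TropPt F => TropPt.absv g b') l
      (𝓝 (TropPt.absv g b)) := by
    intro g hg
    by_cases hgt : g ∈ perpM τ.1
    · have hg' : g ∈ dualM {x ∈ σ.1 | pair m0 x = 0} := by
        rw [← hf]
        exact hg
      obtain ⟨k, hk⟩ := face_dual (F.rat σ.1 σ.2) h0' hg'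
      have key : ∀ b' : TropPt F, b' ∈ TropPt.opn b.cone → TropPt.absv m0 b' ≠ 0 →
          TropPt.absv g b' = TropPt.absv (g + k • m0) b' / TropPt.absv m0 b' ^ k := by
        intro b' hb' hb0'
        have h5 : k • m0 ∈ dualM b.cone.1 := nsmul_mem (TropPt.perp_dual h1) k
        rw [TropPt.absv_add hb' hg h5, TropPt.absv_nsmul hb' (TropPt.perp_dual h1),
          mul_div_cancel_right₀ _ (pow_ne_zero _ hb0')]
      rw [key b (TropLoc.mem_opn_self b) hb0]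
      have h6 := (hl2 (g + k • m0) hk (add_mem hgt (nsmul_mem h2 k))).div (ht0.pow k)
        (pow_ne_zero _ hb0)
      refine h6.congr' ?_
      filter_upwards [hl3] with b' h7
      exact (key b' h7.1 h7.2).symm
    · rw [absv_out hb hgt]
      refine Filter.Tendsto.congr' ?_ tendsto_const_nhds
      filter_upwards [hl1] with b' h3
      exact (absv_out h3.1 hgt).symm
  refine le_trans ?_ (TropLoc.le_nhds b)
  refine le_inf ?_ ?_
  · rw [Filter.le_principal_iff]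
    exact hl3.mono fun b' h => h.1
  · rw [← Filter.map_le_iff_le_comap]
    refine tendsto_pi_nhds.2 fun g => ?_
    exact hl4 g.1 (gens_mem g.2)

/-- The part of `S` in the chart, as a set of functions. -/
def fnS (τ σ : F.cones) (S : Set (TropPt F)) : Set (dM (perpM τ.1) σ → ℝ) :=
  fn (dM (perpM τ.1) σ) '' (S ∩ TropPt.opn σ)

theorem map_fn (hS : ∀ b ∈ S, τ.1 ⊆ b.cone.1) {b : TropPt F} (hb : b ∈ S)
    (hbσ : b ∈ TropPt.opn σ) : Filter.map (fn (dM (perpM τ.1) σ)) (𝓝[S] b) =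
      𝓝[fnS τ σ S] (fn (dM (perpM τ.1) σ) b) := by
  have e : 𝓝[S] b = 𝓝[S ∩ TropPt.opn σ] b :=
    (nhdsWithin_inter_of_mem' (mem_nhdsWithin_of_mem_nhds
      ((TropPt.isOpen_opn σ).mem_nhds hbσ))).symm
  rw [e]
  refine map_nhdsWithin ((continuousAt_fn hbσ).mono_left nhdsWithin_le_nhds) ?_
  refine le_trans (inf_le_inf_right _ ?_) (fn_le (hS b hb) hbσ)
  rw [Filter.principal_mono]
  exact fun b' hb' => ⟨hS b' hb'.1, hb'.2⟩

theorem ev_iff (hS : ∀ b ∈ S, τ.1 ⊆ b.cone.1) {b : TropPt F} (hb : b ∈ S)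
    (hbσ : b ∈ TropPt.opn σ) {p : (dM (perpM τ.1) σ → ℝ) → Prop} :
    (∀ᶠ f in 𝓝[fnS τ σ S] (fn (dM (perpM τ.1) σ) b), p f) ↔
      ∀ᶠ b' in 𝓝[S] b, p (fn (dM (perpM τ.1) σ) b') := by
  rw [← map_fn hS hb hbσ]
  exact Filter.eventually_map

/-- The inverse of `fn`. -/
noncomputable def ifn [Nonempty (TropPt F)] (τ σ : F.cones) (S : Set (TropPt F)) :
    (dM (perpM τ.1) σ → ℝ) → TropPt F :=
  Function.invFunOn (fn (dM (perpM τ.1) σ)) (S ∩ TropPt.opn σ)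

theorem ifn_fn [Nonempty (TropPt F)] (hS : ∀ b ∈ S, τ.1 ⊆ b.cone.1) {b : TropPt F} (hb : b ∈ S)
    (hbσ : b ∈ TropPt.opn σ) : ifn τ σ S (fn (dM (perpM τ.1) σ) b) = b := by
  have h1 : Set.InjOn (fn (dM (perpM τ.1) σ)) (S ∩ TropPt.opn σ) := by
    refine fn_inj.mono ?_
    intro b' hb'
    exact ⟨hS b' hb'.1, hb'.2⟩
  have h2 : b ∈ S ∩ TropPt.opn σ := ⟨hb, hbσ⟩
  exact h1.leftInvOn_invFunOn h2

end Pool.Agent.TD.X1


end

section

/-!
# The tropicalization map in a chart (MP_90358a_ag, section X.b)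
-/

open scoped Topology NNReal
open AlgebraicGeometry CategoryTheory

namespace Pool.Agent.TD.X1

variable {K : Type} [NormedField K] {X Y : Scheme.{0}} {n : ℕ} {F : Fan n} {ι : Str K Y}
  (T : Toric F Y ι) (φ : X ⟶ Y)

/-- Absolute values of functions and the map `X^an → Y^an`. -/
theorem absv_map (U : Op Y) (f : Fn Y U) (z : An X (Str.pb φ ι)) :
    An.absv U f (An.map φ ι z) = An.absv (opX φ U) (fnX φ f) z := by
  by_cases h : z.pt ∈ opX φ U
  · have h' : (An.map φ ι z).pt ∈ U := h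
    rw [An.absv_of_mem _ h, An.absv_of_mem _ h']
    have h1 := congrArg (fun g => g f) (congrArg CommRingCat.Hom.hom
      (Scheme.Hom.germ_stalkMap φ U z.pt h))
    exact congrArg z.v h1
  · have h' : (An.map φ ι z).pt ∉ U := h
    unfold An.absv
    rw [dif_neg h, dif_neg h']

theorem tropX_mem_opn {z : An X (Str.pb φ ι)} {σ : F.cones} :
    T.tropX φ z ∈ TropPt.opn σ ↔ z ∈ An.opn (Str.pb φ ι) (opX φ (T.U σ)) :=
  T.trop_mem_opn

theorem absv_tropX {z : An X (Str.pb φ ι)} {σ : F.cones}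
    (hz : z ∈ An.opn (Str.pb φ ι) (opX φ (T.U σ))) (m : Sg σ.1) :
    TropPt.absv m.1 (T.tropX φ z) = An.absv (opX φ (T.U σ)) (fnX φ (T.chi σ m)) z := by
  have h1 : (An.map φ ι z).pt ∈ T.U σ := hz
  unfold Toric.tropX
  rw [T.absv_trop h1 m, absv_map]

/-- The chart `(φ⁻¹ U_σ)^an → M(A_σ)`. -/
noncomputable def tb (σ : F.cones) (z : An.opn (Str.pb φ ι) (opX φ (T.U σ))) :
    Ber K (Ax T φ σ) := An.toBer (axE T φ σ).toRingHom (axE_alg T φ σ) z

theorem tb_v (σ : F.cones) (z : An.opn (Str.pb φ ι) (opX φ (T.U σ))) (a : Ax T φ σ) :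
    (tb T φ σ z).v a = An.absv (opX φ (T.U σ)) (axE T φ σ a) z.1 := rfl

theorem tb_homeo [IsClosedImmersion φ] (σ : F.cones) : IsHomeomorph (tb T φ σ) :=
  An.toBer_homeo (ι := Str.pb φ ι) (affineX T φ σ) (axE T φ σ) (axE_alg T φ σ)

theorem tr_tb (N : AddSubgroup (Fin n → ℤ)) (σ : F.cones)
    (z : An.opn (Str.pb φ ι) (opX φ (T.U σ))) :
    X2.tr (chi T φ N σ) (tb T φ σ z) = fn (dM N σ) (T.tropX φ z.1) := by
  funext m
  exact (absv_tropX T φ z.2 ⟨m.1.1, m.2⟩).symm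

theorem range_tr [IsClosedImmersion φ] (N : AddSubgroup (Fin n → ℤ)) (σ : F.cones) :
    Set.range (X2.tr (K := K) (chi T φ N σ)) =
      fn (dM N σ) '' (T.TropX φ ∩ TropPt.opn σ) := by
  ext f
  constructor
  · rintro ⟨y, rfl⟩
    obtain ⟨z, rfl⟩ := (tb_homeo T φ σ).surjective y
    refine ⟨T.tropX φ z.1, ⟨⟨z.1, rfl⟩, ?_⟩, (tr_tb T φ N σ z).symm⟩
    exact (tropX_mem_opn T φ).2 z.2
  · rintro ⟨b, ⟨⟨z, rfl⟩, hb⟩, rfl⟩
    have hz := (tropX_mem_opn T φ).1 hb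
    exact ⟨tb T φ σ ⟨z, hz⟩, tr_tb T φ N σ ⟨z, hz⟩⟩

variable [IsIntegral X]

theorem gc_le_of_mem {b : TropPt F} (hb : b ∈ T.TropX φ) : (gc T φ).1 ⊆ b.cone.1 := by
  obtain ⟨z, rfl⟩ := hb
  exact gc_le_tropX T φ z

/-- The fibres of the tropicalization map. -/
theorem tr_eq_iff {σ : F.cones} {w : TropPt F} (hw : (gc T φ).1 ⊆ w.cone.1)
    (hwσ : w ∈ TropPt.opn σ) (z : An.opn (Str.pb φ ι) (opX φ (T.U σ))) :
    X2.tr (chi T φ (perpM (gc T φ).1) σ) (tb T φ σ z) = fn (dM (perpM (gc T φ).1) σ) w ↔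
      T.tropX φ z.1 = w := by
  rw [tr_tb]
  constructor
  · intro h
    exact fn_inj ⟨gc_le_tropX T φ z.1, (tropX_mem_opn T φ).2 z.2⟩ ⟨hw, hwσ⟩ h
  · rintro rfl
    rfl

theorem range_tr' [IsClosedImmersion φ] (σ : F.cones) :
    Set.range (X2.tr (K := K) (chi T φ (perpM (gc T φ).1) σ)) =
      fnS (gc T φ) σ (T.TropX φ) := range_tr T φ _ σ

end Pool.Agent.TD.X1


end

section

/-!
# Smooth charts as charts of sets of functions (MP_90358a_ag, section X.b)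
-/

open scoped Topology NNReal
open AlgebraicGeometry CategoryTheory

namespace Pool.Agent.TD.X1

variable {n : ℕ} {F : Fan n} {τ σ : F.cones} {S : Set (TropPt F)}

/-- Logarithms of characters which are finite at `b` are additive near `b`. -/
theorem lgT_sub {b : TropPt F} {m1 m2 : Fin n → ℤ} (h1 : m1 ∈ perpM b.cone.1)
    (h2 : m2 ∈ perpM b.cone.1) {b' : TropPt F} (hb' : b' ∈ TropPt.opn b.cone) :
    lgT (m1 - m2) b' = Real.log (TropPt.absv m1 b') - Real.log (TropPt.absv m2 b') := by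
  have k1 : m1 ∈ perpM b'.cone.1 := TropPt.perp_sub hb' h1
  have k2 : m2 ∈ perpM b'.cone.1 := TropPt.perp_sub hb' h2
  have k3 : m1 - m2 ∈ perpM b'.cone.1 := sub_mem k1 k2
  have e1 := TropLoc.lf_perp k1
  have e2 := TropLoc.lf_perp k2
  have e3 := TropLoc.lf_perp k3
  show (tropLS F).lf (m1 - m2) b' = (tropLS F).lf m1 b' - (tropLS F).lf m2 b'
  rw [e1, e2, e3, ← map_sub]
  rfl

theorem affC_of (hS : ∀ b ∈ S, τ.1 ⊆ b.cone.1) {b : TropPt F} (hb : b ∈ S)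
    (hbσ : b ∈ TropPt.opn σ) {g : TropPt F → ℝ} {g' : (dM (perpM τ.1) σ → ℝ) → ℝ}
    (hg : ∀ᶠ b' in 𝓝[S] b, g' (fn (dM (perpM τ.1) σ) b') = g b') (h : AffGerm S b g) :
    R.AffC (fnS τ σ S) (fn (dM (perpM τ.1) σ) b) g' := by
  obtain ⟨m, hm, c, hc⟩ := h
  obtain ⟨m1, m2, h1, h2, h3, h4, rfl⟩ := exists_split (σ := σ) (ρ := b.cone) hbσ hm
  have t1 : m1 ∈ perpM τ.1 := TropPt.perp_sub (hS b hb) h1
  have t2 : m2 ∈ perpM τ.1 := TropPt.perp_sub (hS b hb) h2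
  refine ⟨⟨⟨m1, t1⟩, h3⟩, ⟨⟨m2, t2⟩, h4⟩, c, ?_, ?_, ?_⟩
  · exact TropPt.absv_ne_zero_iff.2 h1
  · exact TropPt.absv_ne_zero_iff.2 h2
  · rw [ev_iff hS hb hbσ]
    have h5 : ∀ᶠ b' in 𝓝[S] b, b' ∈ TropPt.opn b.cone :=
      mem_nhdsWithin_of_mem_nhds ((TropPt.isOpen_opn b.cone).mem_nhds (TropLoc.mem_opn_self b))
    filter_upwards [hg, hc, h5] with b' k1 k2 k3
    rw [k1, k2, lgT_sub h1 h2 k3]
    rfl

/-- The coordinate map of a chart is a local homeomorphism. -/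
theorem map_f {C : TChart F} (hC : C.Ok S) {b : TropPt F} (hb : b ∈ S ∩ C.U) :
    Filter.map C.f (𝓝[S] b) = 𝓝[TMod C.k C.r C.M] (C.f b) := by
  have e1 : 𝓝[S] b = 𝓝[S ∩ C.U] b :=
    (nhdsWithin_inter_of_mem' (mem_nhdsWithin_of_mem_nhds
      (hC.homeo.openU.mem_nhds hb.2))).symm
  have hfb := hC.homeo.mapf b hb
  have e2 : 𝓝[TMod C.k C.r C.M] (C.f b) = 𝓝[C.Im] (C.f b) :=
    (nhdsWithin_inter_of_mem' (mem_nhdsWithin_of_mem_nhds
      (hC.homeo.openV.mem_nhds hfb.2))).symm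
  rw [e1, e2]
  refine le_antisymm ?_ ?_
  · refine tendsto_nhdsWithin_iff.2 ⟨hC.homeo.contf b hb, ?_⟩
    filter_upwards [self_mem_nhdsWithin] with b' hb'
    exact hC.homeo.mapf b' hb'
  · have h1 : Filter.Tendsto C.g (𝓝[C.Im] (C.f b)) (𝓝[S ∩ C.U] b) := by
      refine tendsto_nhdsWithin_iff.2 ⟨?_, ?_⟩
      · have h2 := hC.homeo.contg (C.f b) hfb
        have h3 : Filter.Tendsto C.g (𝓝[C.Im] (C.f b)) (𝓝 (C.g (C.f b))) := h2
        rwa [hC.homeo.gf b hb] at h3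
      · filter_upwards [self_mem_nhdsWithin] with v hv
        exact hC.homeo.mapg v hv
    have h2 : Filter.map C.f (Filter.map C.g (𝓝[C.Im] (C.f b))) = 𝓝[C.Im] (C.f b) := by
      rw [Filter.map_map]
      refine (Filter.map_congr (m₂ := id) ?_).trans Filter.map_id
      filter_upwards [self_mem_nhdsWithin] with v hv
      exact hC.homeo.fg v hv
    rw [← h2]
    exact Filter.map_mono h1

/-- A smooth chart of `S` gives a smooth chart of the corresponding set of functions. -/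
theorem exists_gchart (hS : ∀ b ∈ S, τ.1 ⊆ b.cone.1) {C : TChart F} (hC : C.Ok S)
    {w : TropPt F} (hw : w ∈ S) (hwσ : w ∈ TropPt.opn σ) (hwU : w ∈ C.U) :
    ∃ (x : Fin C.k → (dM (perpM τ.1) σ → ℝ) → ℝ) (y : Fin (C.r + 1) → (dM (perpM τ.1) σ → ℝ) → ℝ)
      (U : Set (dM (perpM τ.1) σ → ℝ)),
      R.GChart (fnS τ σ S) (fn (dM (perpM τ.1) σ) w) x y C.M 0 U := by
  classical
  have : Nonempty (TropPt F) := ⟨w⟩
  set f0 := fn (dM (perpM τ.1) σ) with hf0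
  have hif : ∀ b ∈ S, b ∈ TropPt.opn σ → ifn τ σ S (f0 b) = b := fun b hb hbσ =>
    ifn_fn hS hb hbσ
  -- the open set
  have hA : ∀ a ∈ f0 '' (S ∩ TropPt.opn σ ∩ C.U), f0 '' (S ∩ TropPt.opn σ ∩ C.U) ∈
      𝓝[fnS τ σ S] a := by
    rintro _ ⟨b, ⟨⟨hb, hbσ⟩, hbU⟩, rfl⟩
    rw [hf0, ← map_fn hS hb hbσ]
    refine Filter.image_mem_map ?_
    exact Filter.inter_mem (Filter.inter_mem self_mem_nhdsWithin
      (mem_nhdsWithin_of_mem_nhds ((TropPt.isOpen_opn σ).mem_nhds hbσ)))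
      (mem_nhdsWithin_of_mem_nhds (hC.homeo.openU.mem_nhds hbU))
  obtain ⟨U, hU, hTU⟩ := exists_open (Set.image_mono Set.inter_subset_left) hA
  have hTU' : fnS τ σ S ∩ U = f0 '' (S ∩ TropPt.opn σ ∩ C.U) := hTU
  refine ⟨fun i f => (C.f (ifn τ σ S f)).1 i, fun e f => (C.f (ifn τ σ S f)).2 e, U, ?_⟩
  have hcm : ∀ f, R.cm (fun (i : Fin C.k) f => (C.f (ifn τ σ S f)).1 i)
      (fun (e : Fin (C.r + 1)) f => (C.f (ifn τ σ S f)).2 e) f = C.f (ifn τ σ S f) := fun f => rfl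
  have hev : ∀ b ∈ S, b ∈ TropPt.opn σ → ∀ᶠ b' in 𝓝[S] b, ifn τ σ S (f0 b') = b' := by
    intro b hb hbσ
    have h1 : ∀ᶠ b' in 𝓝[S] b, b' ∈ TropPt.opn σ :=
      mem_nhdsWithin_of_mem_nhds ((TropPt.isOpen_opn σ).mem_nhds hbσ)
    filter_upwards [h1, self_mem_nhdsWithin] with b' k1 k2
    exact hif b' k2 k1
  have hmod : R.Mdl (Fin C.k) C.M 0 = TMod C.k C.r C.M := by
    ext p
    constructor
    · rintro ⟨h1, h2, h3⟩
      exact ⟨h1, h3, h2⟩
    · rintro ⟨h1, h2, h3⟩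
      exact ⟨h1, h3, h2⟩
  constructor
  · exact hC.ground
  · exact hC.loopless
  · exact hU
  · exact ⟨w, ⟨hw, hwσ⟩, rfl⟩
  · have h1 : f0 w ∈ fnS τ σ S ∩ U := by
      rw [hTU']
      exact ⟨w, ⟨⟨hw, hwσ⟩, hwU⟩, rfl⟩
    exact h1.2
  · rw [hTU']
    rintro _ ⟨b, ⟨⟨hb, hbσ⟩, hbU⟩, rfl⟩ _ ⟨b', ⟨⟨hb', hbσ'⟩, hbU'⟩, rfl⟩ e
    rw [hcm, hcm, hif b hb hbσ, hif b' hb' hbσ'] at e
    have h1 := congrArg C.g e
    rw [hC.homeo.gf b ⟨hb, hbU⟩, hC.homeo.gf b' ⟨hb', hbU'⟩] at h1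
    rw [h1]
  · rw [hTU']
    rintro _ ⟨b, ⟨⟨hb, hbσ⟩, hbU⟩, rfl⟩
    rw [hcm, hif b hb hbσ, hmod, ← map_f hC ⟨hb, hbU⟩, hf0, ← map_fn hS hb hbσ, Filter.map_map]
    refine Filter.map_congr ?_
    filter_upwards [hev b hb hbσ] with b' hb'
    show C.f (ifn τ σ S (f0 b')) = C.f b'
    rw [hb']
  · rw [hTU']
    rintro _ ⟨b, ⟨⟨hb, hbσ⟩, hbU⟩, rfl⟩ i hi
    have h1 : (C.f b).1 i ≠ 0 := by
      have h2 : (C.f (ifn τ σ S (f0 b))).1 i ≠ 0 := hi
      rwa [hif b hb hbσ] at h2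
    refine affC_of hS hb hbσ ?_ ((hC.aff b ⟨hb, hbU⟩).1 i h1)
    filter_upwards [hev b hb hbσ] with b' hb'
    show Real.log ((C.f (ifn τ σ S (f0 b'))).1 i) = _
    rw [hb']
  · rw [hTU']
    rintro _ ⟨b, ⟨⟨hb, hbσ⟩, hbU⟩, rfl⟩ e
    refine affC_of hS hb hbσ ?_ ((hC.aff b ⟨hb, hbU⟩).2 e)
    filter_upwards [hev b hb hbσ] with b' hb'
    show (C.f (ifn τ σ S (f0 b'))).2 e = _
    rw [hb']
  · rw [hTU']
    rintro _ ⟨b, ⟨⟨hb, hbσ⟩, hbU⟩, rfl⟩ m hm
    have h1 : m.1.1 ∈ perpM b.cone.1 := TropPt.absv_ne_zero_iff.1 hm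
    obtain ⟨a, c, d, h2, h3⟩ := hC.gen b ⟨hb, hbU⟩ m.1.1 h1
    refine ⟨a, c, d, ?_, ?_⟩
    · intro i hi
      have h4 : (C.f (ifn τ σ S (f0 b))).1 i = 0 := hi
      rw [hif b hb hbσ] at h4
      exact h2 i h4
    · rw [hf0, ev_iff hS hb hbσ]
      filter_upwards [hev b hb hbσ, h3] with b' hb' h4
      show lgT m.1.1 b' = ∑ i, (a i : ℝ) * Real.log ((C.f (ifn τ σ S (f0 b'))).1 i) +
        ∑ e, (c e : ℝ) * (C.f (ifn τ σ S (f0 b'))).2 e + d
      rw [hb', h4]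
      ring

end Pool.Agent.TD.X1


end

section

/-!
# The weights (MP_90358a_ag, section X.b)
-/

open scoped Topology NNReal
open AlgebraicGeometry CategoryTheory

namespace Pool.Agent.TD.X1

section lin

variable {n : ℕ}

/-- Homomorphisms to `ℝ` on a group of characters are given by vectors. -/
theorem exists_vec (N : AddSubgroup (Fin n → ℤ)) (l : N →+ ℝ) :
    ∃ x : Fin n → ℝ, ∀ m : N, l m = pair m.1 x := by
  have hinj : Module.Injective ℤ ℝ := (Module.Baer.of_divisible ℝ).injective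
  obtain ⟨h, hh⟩ := hinj.out N.toIntSubmodule.subtype Subtype.val_injective l.toIntLinearMap
  refine ⟨fun i => h (Pi.single i 1), fun m => ?_⟩
  have h1 : l m = h m.1 := (hh m).symm
  rw [h1]
  have h2 : m.1 = ∑ i, m.1 i • (Pi.single i (1 : ℤ) : Fin n → ℤ) := by
    funext j
    rw [Finset.sum_apply]
    simp only [Pi.smul_apply, Pi.single_apply, smul_eq_mul, mul_ite, mul_one, mul_zero,
      Finset.sum_ite_eq, Finset.mem_univ, if_true]
  conv_lhs => rw [h2]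
  rw [map_sum]
  unfold pair
  refine Finset.sum_congr rfl fun i _ => ?_
  rw [map_smul, zsmul_eq_mul]

/-- The pairing as a linear map. -/
noncomputable def pN (N : AddSubgroup (Fin n → ℤ)) : (Fin n → ℝ) →ₗ[ℝ] (N →+ ℝ) where
  toFun x := AddMonoidHom.mk' (fun m => pair m.1 x) fun a b => pair_add_left a.1 b.1 x
  map_add' x y := by
    ext m
    exact pair_add_right m.1 x y
  map_smul' c x := by
    ext m
    exact pair_smul_right m.1 c x

theorem pN_apply (N : AddSubgroup (Fin n → ℤ)) (x : Fin n → ℝ) (m : N) : pN N x m = pair m.1 x :=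
  rfl

end lin

variable {K : Type} [NormedField K] {X Y : Scheme.{0}} {n : ℕ} {F : Fan n} {ι : Str K Y}
  (T : Toric F Y ι) (φ : X ⟶ Y) [IsClosedImmersion φ] [IsIntegral X]

/-- The point of the stratum of `gc` given by a homomorphism. -/
noncomputable def ptG (b : perpM (gc T φ).1 →+ ℝ) : TropPt F := ⟨gc T φ, b⟩

omit [IsClosedImmersion φ] in
theorem absv_ptG (b : perpM (gc T φ).1 →+ ℝ) (m : perpM (gc T φ).1) :
    TropPt.absv m.1 (ptG T φ b) = Real.exp (b m) :=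
  TropLoc.absv_perp (b := ptG T φ b) m.2

omit [IsClosedImmersion φ] in
theorem fn_ptG (σ : F.cones) (b : perpM (gc T φ).1 →+ ℝ) :
    fn (dM (perpM (gc T φ).1) σ) (ptG T φ b) = fun m => Real.exp (b m.1) := by
  funext m
  exact absv_ptG T φ b m.1

theorem ptG_mem {σ : F.cones} (h : (gc T φ).1 ⊆ σ.1) {b : perpM (gc T φ).1 →+ ℝ}
    (hb : (fun m : dM (perpM (gc T φ).1) σ => Real.exp (b m.1)) ∈
      Set.range (X2.tr (K := K) (chi T φ (perpM (gc T φ).1) σ))) : ptG T φ b ∈ T.TropX φ := by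
  rw [range_tr'] at hb
  obtain ⟨b1, ⟨h1, h2⟩, h3⟩ := hb
  rw [← fn_ptG] at h3
  have h4 : b1 = ptG T φ b := fn_inj ⟨gc_le_of_mem T φ h1, h2⟩ ⟨Set.Subset.refl _, h⟩ h3
  rwa [h4] at h1

theorem isReg_ptG {σ : F.cones} (h : (gc T φ).1 ⊆ σ.1) {b : perpM (gc T φ).1 →+ ℝ}
    {Λ : Submodule ℝ (perpM (gc T φ).1 →+ ℝ)}
    (hΛ : X2.LinAbs (Set.range (X2.tr (K := K) (chi T φ (perpM (gc T φ).1) σ))) b Λ) :
    ∀ᶠ b' in 𝓝 (ptG T φ b), b' ∈ T.TropX φ ↔
      ∃ x ∈ Λ.comap (pN (perpM (gc T φ).1)), IsTr (ptG T φ b) b' x := by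
  obtain ⟨O, hO, hbO, hΛ⟩ := hΛ
  rw [range_tr'] at hΛ
  have hσ : ptG T φ b ∈ TropPt.opn σ := h
  have h1 : ∀ᶠ b' in 𝓝 (ptG T φ b), fn (dM (perpM (gc T φ).1) σ) b' ∈ O := by
    refine (continuousAt_fn hσ).eventually_mem (hO.mem_nhds ?_)
    rw [fn_ptG]
    exact hbO
  have h2 : ∀ᶠ b' in 𝓝 (ptG T φ b), b' ∈ TropPt.opn (gc T φ) :=
    (TropPt.isOpen_opn _).mem_nhds (Set.Subset.refl _)
  filter_upwards [h1, h2] with b' k1 k2
  have k3 : b' ∈ TropPt.opn σ := Set.Subset.trans k2 h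
  have hiff := hΛ _ k1
  constructor
  · intro hb'
    have hcone : b'.cone = gc T φ :=
      Subtype.ext (Set.Subset.antisymm k2 (gc_le_of_mem T φ hb'))
    obtain ⟨l, hl, hlm⟩ := hiff.1 ⟨b', ⟨hb', k3⟩, rfl⟩
    obtain ⟨x, hx⟩ := exists_vec _ l
    refine ⟨x, ?_, hcone, fun m => ?_⟩
    · have e : pN (perpM (gc T φ).1) x = l := by
        ext m
        exact (hx m).symm
      show pN (perpM (gc T φ).1) x ∈ Λ
      rw [e]
      exact hl
    · by_cases hm : m ∈ perpM (gc T φ).1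
      · obtain ⟨m1, m2, q1, q2, q3, q4, rfl⟩ := exists_split (σ := σ) (ρ := gc T φ) h hm
        have hmb : ∀ m : Fin n → ℤ, m ∈ perpM (gc T φ).1 → m ∈ perpM b'.cone.1 := by
          intro m hm
          rw [hcone]
          exact hm
        have val : ∀ (m : Fin n → ℤ) (hm : m ∈ perpM (gc T φ).1), m ∈ dualM σ.1 →
            b'.val ⟨m, hmb m hm⟩ = b ⟨m, hm⟩ + pair m x := by
          intro m hm hmσ
          have e1 := hlm ⟨⟨m, hm⟩, hmσ⟩
          have e2 : fn (dM (perpM (gc T φ).1) σ) b' ⟨⟨m, hm⟩, hmσ⟩ =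
              Real.exp (b'.val ⟨m, hmb m hm⟩) := TropLoc.absv_perp _
          rw [e2, ← Real.exp_add] at e1
          have e3 := Real.exp_injective e1
          rw [e3, hx]
        rw [TropLoc.absv_perp (hmb _ hm), TropLoc.absv_perp (b := ptG T φ b) hm, ← Real.exp_add]
        congr 1
        have e4 : (⟨m1 - m2, hmb _ hm⟩ : perpM b'.cone.1) = ⟨m1, hmb _ q1⟩ - ⟨m2, hmb _ q2⟩ := rfl
        have e5 : (⟨m1 - m2, hm⟩ : perpM (gc T φ).1) = ⟨m1, q1⟩ - ⟨m2, q2⟩ := rfl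
        have e6 : (ptG T φ b).val ⟨m1 - m2, hm⟩ = b ⟨m1, q1⟩ - b ⟨m2, q2⟩ := by
          show b ⟨m1 - m2, hm⟩ = _
          rw [e5, map_sub]
        have e7 : pair (m1 - m2) x = pair m1 x - pair m2 x := by
          rw [sub_eq_add_neg, pair_add_left, pair_neg_left, sub_eq_add_neg]
        rw [e4, map_sub, val m1 q1 q3, val m2 q2 q4, e6, e7]
        ring
      · have hm' : m ∉ perpM b'.cone.1 := by
          rw [hcone]
          exact hm
        rw [TropLoc.absv_not hm', TropLoc.absv_not (b := ptG T φ b) hm, zero_mul]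
  · rintro ⟨x, hx, hcone, hval⟩
    have h3 : fn (dM (perpM (gc T φ).1) σ) b' ∈ fnS (gc T φ) σ (T.TropX φ) := by
      rw [hiff]
      refine ⟨_, hx, fun m => ?_⟩
      have e1 : fn (dM (perpM (gc T φ).1) σ) b' m = TropPt.absv m.1.1 b' := rfl
      rw [e1, hval, absv_ptG]
      rfl
    obtain ⟨b2, ⟨h4, h5⟩, h6⟩ := h3
    have h7 : b2 = b' := by
      refine fn_inj ⟨gc_le_of_mem T φ h4, h5⟩ ⟨?_, k3⟩ h6
      show (gc T φ).1 ⊆ b'.cone.1
      rw [hcone]
      exact Set.Subset.refl _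
    rwa [← h7]

omit [IsClosedImmersion φ] in
theorem isCon_ptG {b : perpM (gc T φ).1 →+ ℝ} {Λ : Submodule ℝ (Fin n → ℝ)}
    (h : ∀ᶠ b' in 𝓝 (ptG T φ b), b' ∈ T.TropX φ ↔ ∃ x ∈ Λ, IsTr (ptG T φ b) b' x)
    {m : Fin n → ℤ} (hm : m ∈ perpM (gc T φ).1) (hm' : ∀ x ∈ Λ, pair m x = 0) :
    IsCon (T.TropX φ) (ptG T φ b) m := by
  refine ⟨hm, ?_⟩
  filter_upwards [nhdsWithin_le_nhds h, self_mem_nhdsWithin] with b' h1 h2
  obtain ⟨x, hx, -, hv⟩ := h1.1 h2
  unfold lgT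
  rw [hv m, hm' x hx, Real.exp_zero, mul_one]

omit [IsClosedImmersion φ] in
/-- A point of the analytification over a point of the open stratum. -/
theorem exists_fib {b : perpM (gc T φ).1 →+ ℝ} (hb : ptG T φ b ∈ T.TropX φ) :
    ∃ z : Ber K (Ax T φ (gc T φ)), z ∈ FA.Fib K (chi' T φ (gc T φ)) b := by
  obtain ⟨z0, hz0⟩ := hb
  have h1 : z0 ∈ An.opn (Str.pb φ ι) (opX φ (T.U (gc T φ))) := by
    rw [← tropX_mem_opn, hz0]
    exact Set.Subset.refl _
  refine ⟨tb T φ (gc T φ) ⟨z0, h1⟩, fun m => ?_⟩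
  have h2 := absv_tropX T φ h1 ⟨m.1, TropPt.perp_dual m.2⟩
  rw [hz0, absv_ptG] at h2
  exact h2.symm

omit [IsClosedImmersion φ] in
/-- Linear combinations of characters in the ring of the open stratum. -/
theorem linX_eq {j : ℕ} (m : Fin j → Sg (gc T φ).1) (a : Fin j → K) :
    (T.linX φ m a : Ax T φ (gc T φ)) =
      ∑ i, algebraMap K (Ax T φ (gc T φ)) (a i) * chS T φ (gc T φ) (m i) := by
  show fnH φ (T.U (gc T φ)) (∑ i, stK ι (T.U (gc T φ)) (a i) * T.chi (gc T φ) (m i)) = _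
  rw [map_sum]
  refine Finset.sum_congr rfl fun i _ => ?_
  rw [map_mul]
  exact congrArg (fun b : Fn X (opX φ (T.U (gc T φ))) => b * fnH φ (T.U (gc T φ))
    (T.chi (gc T φ) (m i))) (alg_eq T φ (gc T φ) (a i)).symm

omit [IsClosedImmersion φ] in
/-- The quotient norm of a linear combination of characters. -/
theorem qn_lin [IsUltrametricDist K] (b : perpM (gc T φ).1 →+ ℝ) {j : ℕ}
    (m : Fin j → Sg (gc T φ).1) (a : Fin j → K) {r : ℝ} (hr : 0 ≤ r)
    (h : ∀ i, ‖a i‖ * TropPt.absv (m i).m (ptG T φ b) ≤ r) :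
    (FA.qn (K := K) (chi' T φ (gc T φ)) b
      (∑ i, algebraMap K (Ax T φ (gc T φ)) (a i) * chS T φ (gc T φ) (m i)) : ℝ) ≤ r := by
  classical
  let G : Fin j → (perpM (gc T φ).1 →₀ K) := fun i =>
    if hm : (m i).m ∈ perpM (gc T φ).1 then Finsupp.single ⟨(m i).m, hm⟩ (a i) else 0
  have h1 : FA.ev (chi' T φ (gc T φ)) (∑ i, G i) =
      ∑ i, algebraMap K (Ax T φ (gc T φ)) (a i) * chS T φ (gc T φ) (m i) := by
    rw [FA.Qn.ev_eq, map_sum]
    refine Finset.sum_congr rfl fun i _ => ?_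
    by_cases hm : (m i).m ∈ perpM (gc T φ).1
    · have e : G i = Finsupp.single ⟨(m i).m, hm⟩ (a i) := dif_pos hm
      rw [e, Finsupp.linearCombination_single, Algebra.smul_def]
      rfl
    · have e : G i = 0 := dif_neg hm
      rw [e, map_zero, chS_eq_zero T φ hm, mul_zero]
  rw [← h1]
  have h2 : BG.nrm (FA.wt b) (∑ i, G i) ≤ r.toNNReal := by
    refine (BG.nrm_sum_le _ _).trans (Finset.sup_le fun i _ => ?_)
    by_cases hm : (m i).m ∈ perpM (gc T φ).1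
    · have e : G i = Finsupp.single ⟨(m i).m, hm⟩ (a i) := dif_pos hm
      rw [e]
      refine (FA.Qn.nrm_single_le _ _ _).trans ?_
      rw [← NNReal.coe_le_coe, NNReal.coe_mul, FA.Qn.coe_wt, coe_nnnorm, Real.coe_toNNReal _ hr]
      have h3 := h i
      rw [absv_ptG T φ b ⟨(m i).m, hm⟩] at h3
      exact h3
    · have e : G i = 0 := dif_neg hm
      rw [e, BG.nrm_zero]
      exact bot_le
  have h3 := (FA.qn_le (K := K) (chi := chi' T φ (gc T φ)) (w := b) (∑ i, G i)).trans h2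
  rw [← NNReal.coe_le_coe, Real.coe_toNNReal _ hr] at h3
  exact h3

/-- The weights of `Trop(X)` are one: near constants. -/
theorem wt_of [IsUltrametricDist K] {σ : F.cones} (h : (gc T φ).1 ⊆ σ.1)
    (hW : ∀ b ∈ T.TropX φ, IsReg (T.TropX φ) b → T.IsWeight φ b 1) :
    X2.Wt K (chi T φ (perpM (gc T φ).1) σ) (chi' T φ (gc T φ)) := by
  classical
  intro b hb Λ hΛ m hm
  have hC := chars T φ (σ := σ) h
  have hb0 : ptG T φ b ∈ T.TropX φ := ptG_mem T φ h hb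
  have hreg := isReg_ptG T φ h hΛ
  have hw := hW _ hb0 ⟨_, hreg⟩
  have hcon : ∀ m : perpM (gc T φ).1, (∀ l ∈ Λ, l m = 0) →
      IsCon (T.TropX φ) (ptG T φ b) m.1 := fun m hm =>
    isCon_ptG T φ hreg m.2 fun x hx => hm _ hx
  by_cases hm0 : m = 0
  · refine ⟨1, ?_⟩
    rw [hm0, hC.zero', map_one, sub_self, FA.qn_zero, NNReal.coe_zero]
    exact Real.exp_pos _
  -- two characters which are constant are not orthogonal
  have hno : ¬ T.Orth φ (ptG T φ b) (![⟨m.1, TropPt.perp_dual m.2⟩, 0] :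
      Fin 2 → Sg (gc T φ).1) := by
    intro hO
    have h2 : (2 : ℕ) ≤ 1 := by
      refine hw.2 ⟨![⟨m.1, TropPt.perp_dual m.2⟩, 0], ?_, ?_, hO⟩
      · intro i j hij
        have hne : (⟨m.1, TropPt.perp_dual m.2⟩ : Sg (gc T φ).1) ≠ 0 := by
          intro e
          have e' : m.1 = 0 := congrArg (fun q : Sg (gc T φ).1 => q.m) e
          exact hm0 (Subtype.ext e')
        fin_cases i <;> fin_cases j
        · rfl
        · exact absurd hij hne
        · exact absurd hij.symm hne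
        · rfl
      · intro i
        fin_cases i
        · exact hcon m hm
        · exact hcon 0 fun l _ => map_zero l
    omega
  unfold Toric.Orth at hno
  push Not at hno
  obtain ⟨a, l, m', a', he, r, hr, hle, i, hi⟩ := hno
  obtain ⟨z, hz⟩ := exists_fib T φ hb0
  have e1 := linX_eq T φ (![⟨m.1, TropPt.perp_dual m.2⟩, 0] : Fin 2 → Sg (gc T φ).1) a
  have e2 := linX_eq T φ m' a'
  rw [Fin.sum_univ_two] at e1
  have e3 : algebraMap K (Ax T φ (gc T φ)) (a 0) * chi' T φ (gc T φ) m +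
      algebraMap K (Ax T φ (gc T φ)) (a 1) =
      ∑ i, algebraMap K (Ax T φ (gc T φ)) (a' i) * chS T φ (gc T φ) (m' i) := by
    rw [← e2]
    refine Eq.trans ?_ (e1.symm.trans he)
    have e4 : chS T φ (gc T φ) ((![⟨m.1, TropPt.perp_dual m.2⟩, 0] :
        Fin 2 → Sg (gc T φ).1) 1) = 1 := chS_zero T φ (gc T φ)
    rw [e4, mul_one]
    rfl
  have hq := qn_lin T φ b m' a' hr hle
  rw [← e3] at hq
  have hv := (FA.v_le_qn hC.span' hz (algebraMap K (Ax T φ (gc T φ)) (a 0) *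
    chi' T φ (gc T φ) m + algebraMap K (Ax T φ (gc T φ)) (a 1))).trans hq
  -- the two terms have the same value
  have v0 : z.v (algebraMap K (Ax T φ (gc T φ)) (a 0) * chi' T φ (gc T φ) m) =
      ‖a 0‖ * Real.exp (b m) := by
    rw [z.mul, z.ext, hz m]
  have v1 : z.v (algebraMap K (Ax T φ (gc T φ)) (a 1)) = ‖a 1‖ := z.ext _
  have hbig : r < ‖a 0‖ * Real.exp (b m) ∨ r < ‖a 1‖ := by
    fin_cases i
    · left
      have h3 : r < ‖a 0‖ * TropPt.absv m.1 (ptG T φ b) := hi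
      rwa [absv_ptG] at h3
    · right
      have h3 : r < ‖a 1‖ * TropPt.absv (0 : perpM (gc T φ).1).1 (ptG T φ b) := hi
      rw [absv_ptG, map_zero, Real.exp_zero, mul_one] at h3
      exact h3
  have heq : ‖a 0‖ * Real.exp (b m) = ‖a 1‖ := by
    by_contra hne
    have h4 : z.v (algebraMap K (Ax T φ (gc T φ)) (a 0) * chi' T φ (gc T φ) m +
        algebraMap K (Ax T φ (gc T φ)) (a 1)) = max (‖a 0‖ * Real.exp (b m)) ‖a 1‖ := by
      rcases lt_or_gt_of_ne hne with h5 | h5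
      · rw [max_eq_right h5.le, add_comm, ← v1]
        exact z.add_eq (by rw [v0, v1]; exact h5)
      · rw [max_eq_left h5.le, ← v0]
        exact z.add_eq (by rw [v0, v1]; exact h5)
    rw [h4] at hv
    rcases hbig with h5 | h5
    · exact absurd ((le_max_left _ _).trans hv) (not_le.2 h5)
    · exact absurd ((le_max_right _ _).trans hv) (not_le.2 h5)
  have hlt : r < ‖a 0‖ * Real.exp (b m) := by
    rcases hbig with h5 | h5
    · exact h5
    · rw [heq]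
      exact h5
  have ha0 : a 0 ≠ 0 := by
    intro h0
    rw [h0, norm_zero, zero_mul] at hlt
    exact absurd hlt (not_lt.2 hr)
  have hna : 0 < ‖a 0‖ := norm_pos_iff.2 ha0
  refine ⟨-(a 1) / a 0, ?_⟩
  have e5 : chi' T φ (gc T φ) m - algebraMap K (Ax T φ (gc T φ)) (-(a 1) / a 0) =
      algebraMap K (Ax T φ (gc T φ)) (a 0)⁻¹ * (algebraMap K (Ax T φ (gc T φ)) (a 0) *
        chi' T φ (gc T φ) m + algebraMap K (Ax T φ (gc T φ)) (a 1)) := by
    have e6 : algebraMap K (Ax T φ (gc T φ)) (a 0)⁻¹ * algebraMap K (Ax T φ (gc T φ)) (a 0) = 1 := by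
      rw [← map_mul, inv_mul_cancel₀ ha0, map_one]
    rw [mul_add, ← mul_assoc, e6, one_mul, div_eq_mul_inv, map_mul, map_neg]
    ring
  rw [e5]
  have h6 := FA.qn_mul (w := b) hC.zero' hC.add' hC.span'
    (algebraMap K (Ax T φ (gc T φ)) (a 0)⁻¹) (algebraMap K (Ax T φ (gc T φ)) (a 0) *
        chi' T φ (gc T φ) m + algebraMap K (Ax T φ (gc T φ)) (a 1))
  rw [← NNReal.coe_le_coe, NNReal.coe_mul] at h6
  have h7 := FA.qn_C (K := K) (w := b) hC.zero' (a 0)⁻¹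
  calc _ ≤ _ := h6
    _ ≤ ‖(a 0)⁻¹‖ * r := mul_le_mul h7 hq (NNReal.coe_nonneg _) (norm_nonneg _)
    _ < Real.exp (b m) := by
      rw [norm_inv, inv_mul_lt_iff₀ hna]
      exact hlt

end Pool.Agent.TD.X1


end

section

/-!
# X3: transport of local polyhedrality
-/

open scoped ContDiff Topology

namespace Pool.Agent.TD

namespace X3

variable {X Φ X' Φ' : Type} [TopologicalSpace X] [TopologicalSpace X'] {L : LogSpace X Φ}
  {L' : LogSpace X' Φ'}

/-- Finitely many functions near `z` are affine combinations of functions of `L'`. -/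
theorem affine_family (m : Mor L L') {z : X} (h : m.AffAt z) (u : Finset Φ)
    (hu : ∀ f ∈ u, z ∈ L.dom f) : ∃ (u' : Finset Φ') (A : (u' → ℝ) →ᵃ[ℝ] (u → ℝ)),
      (∀ f' ∈ u', m.toFun z ∈ L'.dom f') ∧
      ∀ᶠ z' in 𝓝 z, L.trop u z' = A (L'.trop u' (m.toFun z')) := by
  classical
  have hsf : ∀ f : u, ∃ (n : ℕ) (g : Fin n → Φ') (a : Fin n → ℝ) (b : ℝ),
      (∀ i, m.toFun z ∈ L'.dom (g i)) ∧
      ∀ᶠ z' in 𝓝 z, L.lf f z' = b + ∑ i, a i * L.lf (m.ix (g i)) z' := fun f => h f.1 (hu f.1 f.2)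
  choose n g a b hg he using hsf
  let u' : Finset Φ' := Finset.univ.biUnion fun f : u => Finset.univ.image (g f)
  have hgu : ∀ f i, g f i ∈ u' := fun f i => Finset.mem_biUnion.2
    ⟨f, Finset.mem_univ _, Finset.mem_image_of_mem _ (Finset.mem_univ _)⟩
  let B : (u' → ℝ) →ₗ[ℝ] (u → ℝ) := LinearMap.pi fun f =>
    ∑ i, a f i • LinearMap.proj (⟨g f i, hgu f i⟩ : u')
  let A : (u' → ℝ) →ᵃ[ℝ] (u → ℝ) := B.toAffineMap + AffineMap.const ℝ _ b
  have hA : ∀ (y : u' → ℝ) (f : u), A y f = (∑ i, a f i * y ⟨g f i, hgu f i⟩) + b f := by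
    intro y f
    show B y f + b f = _
    congr 1
    show (∑ i, a f i • (LinearMap.proj (⟨g f i, hgu f i⟩ : u') : (u' → ℝ) →ₗ[ℝ] ℝ)) y = _
    rw [LinearMap.sum_apply]
    rfl
  refine ⟨u', A, ?_, ?_⟩
  · intro f' hf'
    obtain ⟨f, -, hf⟩ := Finset.mem_biUnion.1 hf'
    obtain ⟨i, -, rfl⟩ := Finset.mem_image.1 hf
    exact hg f i
  · have h1 : ∀ᶠ z' in 𝓝 z, ∀ f : u, L.lf f z' = b f + ∑ i, a f i * L.lf (m.ix (g f i)) z' :=
      Filter.eventually_all.2 he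
    have h2 : ∀ᶠ z' in 𝓝 z, ∀ f : u, ∀ i, m.toFun z' ∈ L'.dom (g f i) :=
      Filter.eventually_all.2 fun f => Filter.eventually_all.2 fun i =>
        m.cont.continuousAt.eventually ((L'.isOpen_dom _).mem_nhds (hg f i))
    filter_upwards [h1, h2] with z' h3 h4
    funext f
    rw [hA]
    show L.lf f z' = _
    rw [h3 f, add_comm]
    congr 1
    refine Finset.sum_congr rfl fun i _ => ?_
    rw [m.lf_eq _ _ (h4 f i)]
    rfl

/-- Transport of `FinConv` from `L'` to `L`. -/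
theorem finConv_of_aff (m : Mor L L') {z : X} (h : m.AffAt z)
    (ho : ∀ V ∈ 𝓝 z, m.toFun '' V ∈ 𝓝 (m.toFun z)) (hF : L'.FinConv (m.toFun z)) :
    L.FinConv z := by
  classical
  intro u hu V hV
  obtain ⟨u', A, hu', hA⟩ := affine_family m h u hu
  have hd : ∀ᶠ z' in 𝓝 z, ∀ f ∈ u, z' ∈ L.dom f := by
    rw [Filter.eventually_all_finset]
    exact fun f hf => (L.isOpen_dom f).mem_nhds (hu f hf)
  let V1 : Set X := V ∩ {z' | (L.trop u z' = A (L'.trop u' (m.toFun z'))) ∧ ∀ f ∈ u, z' ∈ L.dom f}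
  have hV1 : V1 ∈ 𝓝 z := Filter.inter_mem hV (hA.and hd)
  obtain ⟨V', hV', hV'V, -, S, hS, hSc, hSe⟩ := hF u' hu' _ (ho V1 hV1)
  refine ⟨V1 ∩ m.toFun ⁻¹' V', Filter.inter_mem hV1 (m.cont.continuousAt hV'),
    fun z' hz' => hz'.1.1, fun f hf z' hz' => hz'.1.2.2 f hf, (fun σ => A '' σ) '' S,
    hS.image _, ?_, ?_⟩
  · rintro _ ⟨σ, hσ, rfl⟩
    exact (hSc σ hσ).affine_image A
  · ext y
    constructor
    · rintro ⟨z', ⟨hz1, hz2⟩, rfl⟩
      have h1 : L'.trop u' (m.toFun z') ∈ ⋃₀ S := by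
        rw [← hSe]
        exact ⟨_, hz2, rfl⟩
      obtain ⟨σ, hσ, hσ'⟩ := h1
      exact ⟨A '' σ, ⟨σ, hσ, rfl⟩, ⟨_, hσ', hz1.2.1.symm⟩⟩
    · rintro ⟨_, ⟨σ, hσ, rfl⟩, ⟨x, hx, rfl⟩⟩
      have h1 : x ∈ L'.trop u' '' V' := by
        rw [hSe]
        exact ⟨σ, hσ, hx⟩
      obtain ⟨y', hy', rfl⟩ := h1
      obtain ⟨z', hz', rfl⟩ := hV'V hy'
      exact ⟨z', ⟨hz', hy'⟩, hz'.2.1⟩

/-- Transport of `StarAt` from `L'` to `L`. -/
theorem starAt_of_aff (m : Mor L L') {z : X} (h : m.AffAt z)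
    (ho : ∀ V ∈ 𝓝 z, m.toFun '' V ∈ 𝓝 (m.toFun z)) (hF : L'.StarAt (m.toFun z)) :
    L.StarAt z := by
  classical
  intro u hu V hV
  obtain ⟨u', A, hu', hA⟩ := affine_family m h u hu
  have hd : ∀ᶠ z' in 𝓝 z, ∀ f ∈ u, z' ∈ L.dom f := by
    rw [Filter.eventually_all_finset]
    exact fun f hf => (L.isOpen_dom f).mem_nhds (hu f hf)
  let V1 : Set X := V ∩ {z' | (L.trop u z' = A (L'.trop u' (m.toFun z'))) ∧ ∀ f ∈ u, z' ∈ L.dom f}
  have hV1 : V1 ∈ 𝓝 z := Filter.inter_mem hV (hA.and hd)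
  obtain ⟨V', hV', hV'V, -, hst⟩ := hF u' hu' _ (ho V1 hV1)
  refine ⟨V1 ∩ m.toFun ⁻¹' V', Filter.inter_mem hV1 (m.cont.continuousAt hV'),
    fun z' hz' => hz'.1.1, fun f hf z' hz' => hz'.1.2.2 f hf, ?_⟩
  have e1 : L.trop u '' (V1 ∩ m.toFun ⁻¹' V') = A '' (L'.trop u' '' V') := by
    ext y
    constructor
    · rintro ⟨z', ⟨hz1, hz2⟩, rfl⟩
      exact ⟨_, ⟨_, hz2, rfl⟩, hz1.2.1.symm⟩
    · rintro ⟨_, ⟨y', hy', rfl⟩, rfl⟩
      obtain ⟨z', hz', rfl⟩ := hV'V hy'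
      exact ⟨z', ⟨hz', hy'⟩, hz'.2.1⟩
  rw [e1, (mem_of_mem_nhds hV1).2.1]
  exact hst.affine_image A

theorem finConv_of_restr {W : Set X} (hW : IsOpen W) (z : W) (h : (L.restr W).FinConv z) :
    L.FinConv z.1 := by
  intro u hu V hV
  obtain ⟨V', hV', hV'V, hd, S, hS, hSc, hSe⟩ := h u hu _
    (continuous_subtype_val.continuousAt hV)
  refine ⟨Subtype.val '' V', hW.isOpenMap_subtype_val.image_mem_nhds hV', ?_, ?_, S, hS, hSc, ?_⟩
  · rintro _ ⟨z', hz', rfl⟩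
    exact hV'V hz'
  · rintro f hf _ ⟨z', hz', rfl⟩
    exact hd f hf hz'
  · rw [← hSe]
    ext y
    constructor
    · rintro ⟨_, ⟨z', hz', rfl⟩, rfl⟩
      exact ⟨z', hz', rfl⟩
    · rintro ⟨z', hz', rfl⟩
      exact ⟨_, ⟨z', hz', rfl⟩, rfl⟩

theorem starAt_of_restr {W : Set X} (hW : IsOpen W) (z : W) (h : (L.restr W).StarAt z) :
    L.StarAt z.1 := by
  intro u hu V hV
  obtain ⟨V', hV', hV'V, hd, hst⟩ := h u hu _ (continuous_subtype_val.continuousAt hV)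
  refine ⟨Subtype.val '' V', hW.isOpenMap_subtype_val.image_mem_nhds hV', ?_, ?_, ?_⟩
  · rintro _ ⟨z', hz', rfl⟩
    exact hV'V hz'
  · rintro f hf _ ⟨z', hz', rfl⟩
    exact hd f hf hz'
  · have e : L.trop u '' (Subtype.val '' V') = (L.restr W).trop u '' V' := by
      rw [Set.image_image]
      rfl
    rw [e]
    exact hst

end X3

end Pool.Agent.TD


end
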