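import Mathlib
import Pool.Agent.DolbM.C05
import Pool.Agent.DolbM.C19
import Pool.Agent.TD.X.Smooth
import Pool.Agent.TD.Y.Restr

/-! Parts: TD.AR.Defs, TD.AR.Geo, TD.AR.Sub, TD.AR.Cal, TD.AR.Cen, TD.AR.Iex, TD.AR.Ics0, TD.AR.Ics1, TD.AR.Ics, TD.AR.Red, TD.AR.Step, TD.AR.Zero, TD.AR.Iso, TD.X3.Star -/

section

/-!
# Section AR (PAPER2.md): arrangements, definitions

Forms near compact sets `Z`.  `ExOn L Z`: closed forms of type `(p,q+1)` near `Z` are exact near `Z`.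
`CstOn L S c Z`: near `Z` the section `c` of type `(p,0)` is a constant form in finitely many functions
of the set `S`.  `ArrB Z0 S0 N`: the theorem AR for the class of the sets
`{y ∈ Z0 : |γ_i|_y = s_i}`, `γ_i ∈ N s_i`, of the spectrum `M(A)`.
-/

open scoped ContDiff Topology
open Polynomial

namespace Pool.Agent.TD

section
variable {X Φ : Type} [TopologicalSpace X] (L : LogSpace X Φ)

/-- `c` is closed at the points of `Z`. -/
def ClOn {p q : ℕ} (c : L.G p q) (Z : Set X) : Prop := ∀ z ∈ Z, L.ddS p q z (c.1 z) = 0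

/-- Closed forms of type `(p,q+1)` near `Z` are exact near `Z`. -/
def ExOn (Z : Set X) : Prop := ∀ (p q : ℕ) (c : L.G p (q + 1)), ClOn L c Z →
  ∃ e : L.G p q, ∀ z ∈ Z, c.1 z = L.ddS p q z (e.1 z)

/-- Near `Z` the section `c` is a constant form in finitely many functions of `S`. -/
def CstOn {p : ℕ} (S : Set Φ) (c : L.G p 0) (Z : Set X) : Prop :=
  ∃ (m : ℕ) (u : Fin m → Φ) (θ : Raw (Fin m) p 0), (∀ i, u i ∈ S) ∧ IsCst θ ∧
    IsSF Finset.univ θ ∧ ∀ z ∈ Z, ∃ h : L.SFat z (pullR u θ), c.1 z = L.germ (pullR u θ) h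

/-- Closed forms of type `(p,0)` near `Z` are constant forms in functions of `S`. -/
def CsOn (S : Set Φ) (Z : Set X) : Prop := ∀ (p : ℕ) (c : L.G p 0), ClOn L c Z → CstOn L S c Z

/-- The functions of `S` are defined at the points of `Z`. -/
def DomOn (S : Set Φ) (Z : Set X) : Prop := ∀ f ∈ S, ∀ z ∈ Z, z ∈ L.dom f

/-- Near the points of `Z` the functions `f`, `f'` are defined and differ by a constant. -/
def EqvOn (f f' : Φ) (Z : Set X) : Prop := ∀ z ∈ Z, z ∈ L.dom f ∧ z ∈ L.dom f' ∧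
  ∃ b : ℝ, ∀ᶠ z' in 𝓝 z, L.lf f z' = b + L.lf f' z'

end

section
variable {K A : Type} [NormedField K] [CommRing A] [Algebra K A]

/-- The subset `{|γ| = s : (γ, s) ∈ F}` of `Z0`. -/
def ZF (Z0 : Set (Ber K A)) (F : List (A × ℝ)) : Set (Ber K A) :=
  {y | y ∈ Z0 ∧ ∀ x ∈ F, y.v x.1 = x.2}

/-- The functions of the conditions `F`. -/
def SFn (S0 : Set A) (F : List (A × ℝ)) : Set A := S0 ∪ {γ | ∃ x ∈ F, x.1 = γ}

/-- The conditions of the list are admissible. -/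
def FOk (N : ℝ → Set A) (F : List (A × ℝ)) : Prop := ∀ x ∈ F, 0 < x.2 ∧ x.1 ∈ N x.2

/-- A class of functions bounded by `s` on `Z0`. -/
structure NOk (K : Type) {A : Type} [NormedField K] [CommRing A] [Algebra K A]
    (Z0 : Set (Ber K A)) (S0 : Set A) (N : ℝ → Set A) : Prop where
  compact : IsCompact Z0
  dom : ∀ f ∈ S0, ∀ y ∈ Z0, y.v f ≠ 0
  sub : ∀ s, ∀ γ ∈ N s, ∀ γ' ∈ N s, γ - γ' ∈ N s
  smul : ∀ s, ∀ γ ∈ N s, ∀ a : K, a ≠ 0 → a • γ ∈ N (‖a‖ * s)
  bound : ∀ s, ∀ γ ∈ N s, ∀ y ∈ Z0, y.v γ ≤ s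

/-- Theorem AR for the class of sets `ZF Z0 F`. -/
structure ArrB (K : Type) {A : Type} [NormedField K] [CommRing A] [Algebra K A]
    (Z0 : Set (Ber K A)) (S0 : Set A) (N : ℝ → Set A) : Prop extends NOk K Z0 S0 N where
  ex : ∀ F, FOk N F → ExOn (berLS K A) (ZF Z0 F)
  cst : ∀ F, FOk N F → CsOn (berLS K A) (SFn S0 F) (ZF Z0 F)

/-- The circle bundle `{|X - β| = r}` over `Y`. -/
def cenZ (β : A) (r : ℝ) (Y : Set (Ber K A)) : Set (Ber K A[X]) :=
  {z | (prM K A).toFun z ∈ Y ∧ z.v (X - C β) = r}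

/-! ### The step from `A` to `A[X]` -/

/-- `{|X| = r}` over `Z0`. -/
def upZ (r : ℝ) (Z0 : Set (Ber K A)) : Set (Ber K A[X]) :=
  {z | (prM K A).toFun z ∈ Z0 ∧ z.v X = r}

/-- The functions `X` and `C f`, `f ∈ S0`. -/
def upS (S0 : Set A) : Set A[X] := {X} ∪ C '' S0

/-- The functions `a X + γ`, `|a| r ≤ s`, `γ ∈ N s`. -/
def upN (K : Type) {A : Type} [NormedField K] [CommRing A] [Algebra K A] (r : ℝ)
    (N : ℝ → Set A) (s : ℝ) : Set A[X] :=
  {f | ∃ (a : K) (γ : A), ‖a‖ * r ≤ s ∧ γ ∈ N s ∧ f = C (algebraMap K A a) * X + C γ}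

/-- The set `{z over ZF Z0 F : |X| = r, |X - β| = r (β ∈ Bs)}`. -/
def ZX (r : ℝ) (Z0 : Set (Ber K A)) (F : List (A × ℝ)) (Bs : List A) : Set (Ber K A[X]) :=
  {z | (prM K A).toFun z ∈ ZF Z0 F ∧ z.v X = r ∧ ∀ β ∈ Bs, z.v (X - C β) = r}

/-- The functions of `ZX`. -/
def SX (S0 : Set A) (F : List (A × ℝ)) (Bs : List A) : Set A[X] :=
  {X} ∪ C '' (SFn S0 F) ∪ {f | ∃ β ∈ Bs, f = X - C β}

end

end Pool.Agent.TD


end

section

/-! Section AR: geometry of the sets `ZX`. -/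

open scoped ContDiff Topology
open Polynomial

namespace Pool.Agent.TD

section
variable {K A : Type} [NormedField K] [CommRing A] [Algebra K A] {r : ℝ} {Z0 : Set (Ber K A)}
  {S0 : Set A} {N : ℝ → Set A}

theorem zf_compact (hN : NOk K Z0 S0 N) (F : List (A × ℝ)) : IsCompact (ZF Z0 F) := by
  have h1 : ZF Z0 F = Z0 ∩ ⋂ x ∈ F, {y : Ber K A | y.v x.1 = x.2} := by
    ext y
    simp only [ZF, Set.mem_ofPred_eq, Set.mem_inter_iff, Set.mem_iInter]
  rw [h1]
  exact hN.compact.inter_right (isClosed_iInter fun x => isClosed_iInter fun _ =>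
    isClosed_eq (Ber.continuous_v x.1) continuous_const)

theorem zx_compact (hN : NOk K Z0 S0 N) (F : List (A × ℝ)) (Bs : List A) :
    IsCompact (ZX r Z0 F Bs) := by
  have h1 : ZX r Z0 F Bs = (circB K A r ∩ (prM K A).toFun ⁻¹' (ZF Z0 F)) ∩
      ⋂ β ∈ Bs, {z : Ber K A[X] | z.v (X - C β) = r} := by
    ext z
    simp only [ZX, circB, Set.mem_ofPred_eq, Set.mem_inter_iff, Set.mem_iInter,
      Set.mem_preimage]
    constructor
    · rintro ⟨h1, h2, h3⟩
      exact ⟨⟨h2, h1⟩, h3⟩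
    · rintro ⟨⟨h2, h1⟩, h3⟩
      exact ⟨h1, h2, h3⟩
  rw [h1]
  exact (isCompact_circ_pre r (zf_compact hN F)).inter_right
    (isClosed_iInter fun β => isClosed_iInter fun _ =>
      isClosed_eq (Ber.continuous_v (X - C β)) continuous_const)

theorem zx_nil (F : List (A × ℝ)) : ZX r Z0 F [] = cenZ (0 : A) r (ZF Z0 F) := by
  ext z
  simp only [ZX, cenZ, Set.mem_ofPred_eq, List.not_mem_nil, false_implies, implies_true, and_true,
    C_0, sub_zero]

/-- The conditions `|β - β'| = r`, `β' ∈ Bs`, `|β| = r`. -/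
def yF (r : ℝ) (F : List (A × ℝ)) (β : A) (Bs : List A) : List (A × ℝ) :=
  F ++ (β, r) :: Bs.map fun β' => (β - β', r)

theorem yF_ok (hN : NOk K Z0 S0 N) (hr : 0 < r) {F : List (A × ℝ)} (hF : FOk N F) {β : A}
    {Bs : List A} (hβ : β ∈ N r) (hB : ∀ β' ∈ Bs, β' ∈ N r) : FOk N (yF r F β Bs) := by
  intro x hx
  unfold yF at hx
  rcases List.mem_append.1 hx with h | h
  · exact hF x h
  · rcases List.mem_cons.1 h with h | h
    · rw [h]
      exact ⟨hr, hβ⟩
    · obtain ⟨β', hβ', rfl⟩ := List.mem_map.1 h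
      exact ⟨hr, hN.sub r β hβ β' (hB β' hβ')⟩

/-- The conditions `yF`. -/
theorem geo_yF {F : List (A × ℝ)} {β : A} {Bs : List A} {y : Ber K A} :
    y ∈ ZF Z0 (yF r F β Bs) ↔ y ∈ ZF Z0 F ∧ y.v β = r ∧ ∀ β' ∈ Bs, y.v (β - β') = r := by
  constructor
  · rintro ⟨h0, h1⟩
    refine ⟨⟨h0, fun x hx => h1 x (List.mem_append.2 (Or.inl hx))⟩, ?_, ?_⟩
    · exact h1 (β, r) (List.mem_append.2 (Or.inr (List.mem_cons.2 (Or.inl rfl))))
    · intro β' hβ'
      exact h1 (β - β', r) (List.mem_append.2 (Or.inr (List.mem_cons.2 (Or.inr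
        (List.mem_map.2 ⟨β', hβ', rfl⟩)))))
  · rintro ⟨⟨h0, h1⟩, h2, h3⟩
    refine ⟨h0, fun x hx => ?_⟩
    rcases List.mem_append.1 hx with h | h
    · exact h1 x h
    · rcases List.mem_cons.1 h with h | h
      · rw [h]
        exact h2
      · obtain ⟨β', hβ', rfl⟩ := List.mem_map.1 h
        exact h3 β' hβ'

/-- Points of `ZX` near the centre `β` lie over the set `Y` of the conditions `yF`. -/
theorem zx_near (hN : NOk K Z0 S0 N) {F : List (A × ℝ)} {β : A} {Bs : List A} (hβ : β ∈ N r)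
    (hB : ∀ β' ∈ Bs, β' ∈ N r) {z : Ber K A[X]} (hz : z ∈ ZX r Z0 F Bs)
    (h : z.v (X - C β) < r) : (prM K A).toFun z ∈ ZF Z0 (yF r F β Bs) := by
  obtain ⟨h0, hX, h2⟩ := hz
  refine geo_yF.2 ⟨h0, ?_, ?_⟩
  · rw [prM_v, ← hX]
    exact z.sub_eq (by rw [hX]; exact h)
  · intro β' hβ'
    have h3 : z.v (X - C β' - C (β - β')) < z.v (X - C β') := by
      rw [h2 β' hβ', C_sub, show (X - C β' - (C β - C β') : A[X]) = X - C β by ring]
      exact h
    rw [prM_v, z.sub_eq h3, h2 β' hβ']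

/-- Conversely, and near such points `|X| = |β|`, `|X - β'| = |β - β'|`. -/
theorem zx_disc {F : List (A × ℝ)} {β : A} {Bs : List A} {z : Ber K A[X]}
    (hz : (prM K A).toFun z ∈ ZF Z0 (yF r F β Bs)) (h : z.v (X - C β) < r) :
    z ∈ ZX r Z0 F Bs := by
  obtain ⟨h0, h1, h2⟩ := geo_yF.1 hz
  refine ⟨h0, ?_, ?_⟩
  · have h3 : z.v (C β) = r := h1
    rw [← h3]
    refine z.sub_eq ?_
    rw [z.sub_comm, h3]
    exact h
  · intro β' hβ'
    have h3 : z.v (C (β - β')) = r := h2 β' hβ'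
    rw [← h3]
    refine z.sub_eq ?_
    rw [h3, C_sub, show (C β - C β' - (X - C β') : A[X]) = C β - X by ring, z.sub_comm]
    exact h

theorem zx_disc_eqv (hr : 0 < r) {F : List (A × ℝ)} {β : A} {Bs : List A} {z : Ber K A[X]}
    (hz : (prM K A).toFun z ∈ ZF Z0 (yF r F β Bs)) (h : z.v (X - C β) < r) :
    (∀ᶠ z' in 𝓝 z, z'.v (X : A[X]) = z'.v (C β)) ∧
      ∀ β' ∈ Bs, ∀ᶠ z' in 𝓝 z, z'.v (X - C β') = z'.v (C (β - β')) := by
  obtain ⟨h0, h1, h2⟩ := geo_yF.1 hz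
  constructor
  · have h3 : z.v (C β) = r := h1
    have h4 : ∀ᶠ z' : Ber K A[X] in 𝓝 z, z'.v (X - C β) < z'.v (C β) :=
      (isOpen_lt (Ber.continuous_v _) (Ber.continuous_v _)).mem_nhds
        (show z.v (X - C β) < z.v (C β) by rw [h3]; exact h)
    filter_upwards [h4] with z' hz'
    refine z'.sub_eq ?_
    rw [z'.sub_comm]
    exact hz'
  · intro β' hβ'
    have h3 : z.v (C (β - β')) = r := h2 β' hβ'
    have h4 : ∀ᶠ z' : Ber K A[X] in 𝓝 z, z'.v (X - C β) < z'.v (C (β - β')) :=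
      (isOpen_lt (Ber.continuous_v _) (Ber.continuous_v _)).mem_nhds
        (show z.v (X - C β) < z.v (C (β - β')) by rw [h3]; exact h)
    filter_upwards [h4] with z' hz'
    refine z'.sub_eq ?_
    have h5 : (C (β - β') - (X - C β') : A[X]) = C β - X := by
      rw [C_sub]
      ring
    rw [h5, z'.sub_comm]
    exact hz'

/-- `|X - β| ≤ r` on `ZX`. -/
theorem zx_le (hN : NOk K Z0 S0 N) {F : List (A × ℝ)} {β : A} {Bs : List A} (hβ : β ∈ N r)
    {z : Ber K A[X]} (hz : z ∈ ZX r Z0 F Bs) : z.v (X - C β) ≤ r := by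
  obtain ⟨h0, hX, h2⟩ := hz
  refine (z.sub _ _).trans (max_le hX.le ?_)
  exact hN.bound r β hβ _ h0.1

/-- The functions of `ZX` are defined on it. -/
theorem zx_dom (hN : NOk K Z0 S0 N) (hr : 0 < r) {F : List (A × ℝ)} (hF : FOk N F)
    {Bs : List A} : DomOn (berLS K A[X]) (SX S0 F Bs) (ZX r Z0 F Bs) := by
  rintro f hf z ⟨h0, hX, h2⟩
  show z.v f ≠ 0
  rcases hf with (hf | hf) | hf
  · rw [Set.mem_singleton_iff.1 hf, hX]
    exact hr.ne'
  · obtain ⟨g, hg, rfl⟩ := hf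
    rcases hg with hg | ⟨x, hx, rfl⟩
    · exact hN.dom g hg _ h0.1
    · have h3 : z.v (C x.1) = x.2 := h0.2 x hx
      rw [h3]
      exact (hF x hx).1.ne'
  · obtain ⟨β, hβ, rfl⟩ := hf
    rw [h2 β hβ]
    exact hr.ne'

/-- Choice of the radius: an open set which contains `ZX (β :: Bs)` contains `{|X - β| ≥ r'}`. -/
theorem zx_radius (hN : NOk K Z0 S0 N) (hr : 0 < r) {F : List (A × ℝ)} {β : A} {Bs : List A}
    (hβ : β ∈ N r) {U : Set (Ber K A[X])} (hU : IsOpen U) (h : ZX r Z0 F (β :: Bs) ⊆ U) :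
    ∃ r' : ℝ, 0 < r' ∧ r' < r ∧ ∀ z ∈ ZX r Z0 F Bs, r' ≤ z.v (X - C β) → z ∈ U := by
  have hK : IsCompact (ZX r Z0 F Bs \ U) := (zx_compact hN F Bs).diff hU
  have hlt : ∀ z ∈ ZX r Z0 F Bs \ U, z.v (X - C β) < r := by
    rintro z ⟨hz, hzU⟩
    refine lt_of_le_of_ne (zx_le hN hβ hz) fun he => hzU (h ?_)
    obtain ⟨h0, hX, h2⟩ := hz
    refine ⟨h0, hX, fun β' hβ' => ?_⟩
    rcases List.mem_cons.1 hβ' with h3 | h3
    · rw [h3]
      exact he
    · exact h2 β' h3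
  rcases (ZX r Z0 F Bs \ U).eq_empty_or_nonempty with he | hne
  · refine ⟨r / 2, half_pos hr, half_lt_self hr, fun z hz _ => ?_⟩
    by_contra hzU
    have h3 : z ∈ ZX r Z0 F Bs \ U := ⟨hz, hzU⟩
    rw [he] at h3
    exact h3
  · obtain ⟨z0, hz0, hmax⟩ := hK.exists_isMaxOn hne (Ber.continuous_v (X - C β)).continuousOn
    have h3 := hlt z0 hz0
    have h4 := z0.nonneg (X - C β)
    refine ⟨(z0.v (X - C β) + r) / 2, by linarith, by linarith, fun z hz hle => ?_⟩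
    by_contra hzU
    have h5 : z.v (X - C β) ≤ z0.v (X - C β) := hmax ⟨hz, hzU⟩
    linarith

end

end Pool.Agent.TD


end

section

/-! Section AR: substitution of functions in constant forms, sections given by one raw form. -/

open scoped ContDiff Topology

namespace Pool.Agent.TD

section
variable {X Φ Ψ : Type} [TopologicalSpace X] (L : LogSpace X Φ) {p q : ℕ}

/-- A constant form in the functions `u i` is equal to the same form in the functions `u' i` if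
`lf (u i) - lf (u' i)` is constant near `z`. -/
theorem van_sub {z : X} {θ : Raw Ψ p q} {S : Finset Ψ} (hc : IsCst θ) (hs : IsSF S θ)
    {u u' : Ψ → Φ} (h : ∀ i ∈ S, z ∈ L.dom (u i) ∧ z ∈ L.dom (u' i) ∧
      ∃ b : ℝ, ∀ᶠ z' in 𝓝 z, L.lf (u i) z' = b + L.lf (u' i) z') :
    L.Van z (pullR u θ - pullR u' θ) := by
  classical
  let t : Finset Φ := S.image u ∪ S.image u'
  have hut : ∀ i ∈ S, u i ∈ t := fun i hi =>
    Finset.mem_union_left _ (Finset.mem_image_of_mem u hi)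
  have hut' : ∀ i ∈ S, u' i ∈ t := fun i hi =>
    Finset.mem_union_right _ (Finset.mem_image_of_mem u' hi)
  have ht : ∀ f ∈ t, z ∈ L.dom f := by
    intro f hf
    rcases Finset.mem_union.1 hf with h1 | h1
    · obtain ⟨i, hi, rfl⟩ := Finset.mem_image.1 h1
      exact (h i hi).1
    · obtain ⟨i, hi, rfl⟩ := Finset.mem_image.1 h1
      exact (h i hi).2.1
  have hev : ∀ᶠ z' in 𝓝 z, ∀ f ∈ t, z' ∈ L.dom f := by
    rw [Filter.eventually_all_finset]
    exact fun f hf => (L.isOpen_dom f).mem_nhds (ht f hf)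
  choose hd hd' b hb using h
  have hev3 : ∀ᶠ z' in 𝓝 z, ∀ i : S, L.lf (u i) z' = b i i.2 + L.lf (u' i) z' := by
    rw [Filter.eventually_all]
    exact fun i => hb i i.2
  have hsf : IsSF t (pullR u θ - pullR u' θ) := by
    have h1 : (pullR u θ - pullR u' θ) ∈ LogSpace.dlsSF p q t :=
      Submodule.sub_mem _ ((IsSF.pullR hs).mono Finset.subset_union_left)
        ((IsSF.pullR hs).mono Finset.subset_union_right)
    exact h1
  refine ⟨t, hsf, {z' | (∀ f ∈ t, z' ∈ L.dom f) ∧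
    ∀ i : S, L.lf (u i) z' = b i i.2 + L.lf (u' i) z'}, hev.and hev3,
    fun f hf z' hz' => hz'.1 f hf, ?_⟩
  intro σ _ hσP x w v _ hw hv
  have key : ∀ y : Φ → ℝ, rs t y ∈ vectorSpan ℝ σ → rs S (y ∘ u) = rs S (y ∘ u') := by
    intro y hy
    funext i
    let ℓ : (t → ℝ) →ₗ[ℝ] ℝ := LinearMap.proj ⟨u i, hut i i.2⟩ - LinearMap.proj ⟨u' i, hut' i i.2⟩
    have hℓ : ∀ y, ℓ y = y ⟨u i, hut i i.2⟩ - y ⟨u' i, hut' i i.2⟩ := fun y => by
      simp [ℓ]
    have hk : vectorSpan ℝ σ ≤ LinearMap.ker ℓ := by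
      rw [vectorSpan, Submodule.span_le]
      rintro _ ⟨y1, hy1, y2, hy2, rfl⟩
      obtain ⟨z1, hz1, rfl⟩ := hσP hy1
      obtain ⟨z2, hz2, rfl⟩ := hσP hy2
      have h1 := hz1.2 i
      have h2 := hz2.2 i
      show ℓ (L.trop t z1 - L.trop t z2) = 0
      rw [map_sub, hℓ, hℓ]
      show L.lf (u i) z1 - L.lf (u' i) z1 - (L.lf (u i) z2 - L.lf (u' i) z2) = 0
      rw [h1, h2]
      ring
    have h0 : ℓ (rs t y) = 0 := hk hy
    rw [hℓ] at h0
    exact sub_eq_zero.1 h0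
  have e1 : (fun i => rs S (w i ∘ u)) = fun i => rs S (w i ∘ u') := by
    funext i
    exact key (w i) (hw i)
  have e2 : (fun j => rs S (v j ∘ u)) = fun j => rs S (v j ∘ u') := by
    funext j
    exact key (v j) (hv j)
  obtain ⟨α, -, hα⟩ := hs
  show θ (x ∘ u) (fun i => w i ∘ u) (fun j => v j ∘ u)
    - θ (x ∘ u') (fun i => w i ∘ u') (fun j => v j ∘ u') = 0
  rw [sub_eq_zero, hc (x ∘ u) (x ∘ u'), hα, hα]
  exact congrArg₂ (fun a c => α (rs S (x ∘ u')) a c) e1 e2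

/-- A raw form defines a germ if its functions are defined. -/
theorem sfat_pullR {z : X} {θ : Raw Ψ p q} {S : Finset Ψ} (hs : IsSF S θ) {u : Ψ → Φ}
    (h : ∀ i ∈ S, z ∈ L.dom (u i)) : L.SFat z (pullR u θ) := by
  classical
  refine ⟨S.image u, IsSF.pullR hs, ?_⟩
  intro f hf
  obtain ⟨i, hi, rfl⟩ := Finset.mem_image.1 hf
  exact h i hi

/-- A raw form which is defined at all points of the compact set `Z` is near `Z` a global
section. -/
theorem exists_secR [LocallyCompactSpace X] [T2Space X] (hC : L.CutOff) {Z : Set X}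
    (hZ : IsCompact Z) {θ : Raw Φ p q} (h : ∀ z ∈ Z, L.SFat z θ) :
    ∃ c : L.G p q, ∀ z ∈ Z, ∃ k : L.SFat z θ, c.1 z = L.germ θ k := by
  classical
  obtain ⟨c, hc⟩ := L.extend hC hZ
    (fun z => if h : L.SFat z θ then L.germ θ h else 0) (fun z hz => ⟨θ, by
      refine (LogSpace.SFat.nhds L (h z hz)).mono fun z' hz' _ => ⟨hz', ?_⟩
      exact dif_pos hz'⟩)
  refine ⟨c, fun z hz => ⟨h z hz, ?_⟩⟩
  rw [hc z hz]
  exact dif_pos (h z hz)

end

end Pool.Agent.TD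


end

section

/-! Section AR: calculus of constant forms near compact sets. -/

open scoped ContDiff Topology

namespace Pool.Agent.TD

section
variable {X Φ : Type} [TopologicalSpace X] {L : LogSpace X Φ} {p q : ℕ}

theorem CstOn.mono {S S' : Set Φ} {c : L.G p 0} {Z Z' : Set X} (h : CstOn L S c Z) (hS : S ⊆ S')
    (hZ : Z' ⊆ Z) : CstOn L S' c Z' := by
  obtain ⟨n, u, θ, hu, hc, hs, hz⟩ := h
  exact ⟨n, u, θ, fun i => hS (hu i), hc, hs, fun z hz' => hz z (hZ hz')⟩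

theorem CstOn.congr {S : Set Φ} {c c' : L.G p 0} {Z : Set X} (h : CstOn L S c Z)
    (e : ∀ z ∈ Z, c.1 z = c'.1 z) : CstOn L S c' Z := by
  obtain ⟨n, u, θ, hu, hc, hs, hz⟩ := h
  refine ⟨n, u, θ, hu, hc, hs, fun z hz' => ?_⟩
  obtain ⟨k, ek⟩ := hz z hz'
  exact ⟨k, (e z hz').symm.trans ek⟩

lemma calCst {Ψ : Type} {θ : Raw Ψ p q} (h : IsCst θ) (u : Ψ → Φ) : IsCst (pullR u θ) :=
  fun _ _ _ _ => h _ _ _ _

theorem CstOn.clOn {S : Set Φ} {c : L.G p 0} {Z : Set X} (h : CstOn L S c Z) : ClOn L c Z := by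
  obtain ⟨n, u, θ, hu, hc, hs, hz⟩ := h
  intro z hz'
  obtain ⟨k, ek⟩ := hz z hz'
  rw [ek]
  exact L.Lp_closed (L.germ_cst_mem (calCst hc u) k)

lemma calApp {m m' : ℕ} (u : Fin m → Φ) (u' : Fin m' → Φ) (θ : Raw (Fin m) p q)
    (θ' : Raw (Fin m') p q) :
    pullR (Fin.append u u') (pullR (Fin.castAdd m') θ + pullR (Fin.natAdd m) θ') =
      pullR u θ + pullR u' θ' := by
  have e1 : Fin.append u u' ∘ Fin.castAdd m' = u := funext fun i => Fin.append_left u u' i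
  have e2 : Fin.append u u' ∘ Fin.natAdd m = u' := funext fun i => Fin.append_right u u' i
  have e3 : pullR (Fin.append u u') (pullR (Fin.castAdd m') θ + pullR (Fin.natAdd m) θ') =
      pullR (Fin.append u u' ∘ Fin.castAdd m') θ + pullR (Fin.append u u' ∘ Fin.natAdd m) θ' := rfl
  rw [e3, e1, e2]

lemma calCons {m : ℕ} (f : Φ) (u : Fin m → Φ) (θ : Raw (Fin m) p q) :
    pullR (Fin.cons f u : Fin (m + 1) → Φ) (wdg1 (dlg 0) (pullR Fin.succ θ)) =
      wdg1 (dlg f) (pullR u θ) := by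
  rw [pullR_wdg1]
  have e1 : (Fin.cons f u : Fin (m + 1) → Φ) ∘ Fin.succ = u := rfl
  have e2 : pullR (Fin.cons f u : Fin (m + 1) → Φ) (pullR Fin.succ θ) =
      pullR ((Fin.cons f u : Fin (m + 1) → Φ) ∘ Fin.succ) θ := rfl
  have e3 : pullR (Fin.cons f u : Fin (m + 1) → Φ) (dlg 0) = dlg f := rfl
  rw [e2, e1, e3]

theorem CstOn.add {S : Set Φ} {c c' : L.G p 0} {Z : Set X} (h : CstOn L S c Z)
    (h' : CstOn L S c' Z) : CstOn L S (c + c') Z := by
  obtain ⟨m, u, θ, hu, hc, hs, hz⟩ := h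
  obtain ⟨m', u', θ', hu', hc', hs', hz'⟩ := h'
  refine ⟨m + m', Fin.append u u', pullR (Fin.castAdd m') θ + pullR (Fin.natAdd m) θ', ?_,
    (calCst hc _).add (calCst hc' _), (hs.pullR.mono (Finset.subset_univ _)).add
      (hs'.pullR.mono (Finset.subset_univ _)), fun z hzZ => ?_⟩
  · intro i
    refine Fin.addCases (fun j => ?_) (fun j => ?_) i
    · rw [Fin.append_left]; exact hu j
    · rw [Fin.append_right]; exact hu' j
  · obtain ⟨k1, e1⟩ := hz z hzZ
    obtain ⟨k2, e2⟩ := hz' z hzZ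
    have e := calApp u u' θ θ'
    have k : L.SFat z (pullR (Fin.append u u')
        (pullR (Fin.castAdd m') θ + pullR (Fin.natAdd m) θ')) := by
      rw [e]; exact k1.add k2
    refine ⟨k, ?_⟩
    have e3 : (c + c').1 z = c.1 z + c'.1 z := rfl
    rw [e3, e1, e2, ← L.germ_add k1 k2]
    exact L.germ_congr e.symm _ _

/-- Exterior product with `dlog f`. -/
theorem CstOn.wd {S : Set Φ} {c : L.G p 0} {c' : L.G (p + 1) 0} {Z : Set X} (h : CstOn L S c Z)
    {f : Φ} (hf : f ∈ S) (e : ∀ z ∈ Z, ∃ k : z ∈ L.dom f,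
      c'.1 z = L.wdS p 0 z (L.dlS f k) (c.1 z)) : CstOn L S c' Z := by
  obtain ⟨m, u, θ, hu, hc, hs, hz⟩ := h
  refine ⟨m + 1, Fin.cons f u, wdg1 (dlg 0) (pullR Fin.succ θ), ?_,
    (isCst_dlg 0).wdg1 (calCst hc _), IsSF.wdg1 (isSF_dlg (Finset.mem_univ 0))
      (hs.pullR.mono (Finset.subset_univ _)), fun z hzZ => ?_⟩
  · intro i
    refine Fin.cases ?_ (fun j => ?_) i
    · rw [Fin.cons_zero]; exact hf
    · rw [Fin.cons_succ]; exact hu j
  · obtain ⟨k1, e1⟩ := hz z hzZ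
    obtain ⟨k2, e2⟩ := e z hzZ
    have e3 := calCons f u θ
    have k0 : L.SFat z (dlg f) :=
      ⟨{f}, isSF_dlg (Finset.mem_singleton_self f), by simpa using k2⟩
    have k : L.SFat z (pullR (Fin.cons f u : Fin (m + 1) → Φ)
        (wdg1 (dlg 0) (pullR Fin.succ θ))) := by
      rw [e3]; exact LogSpace.SFat.wdg1 L k0 k1
    refine ⟨k, ?_⟩
    rw [e2, e1]
    have e4 : L.wdS p 0 z (L.dlS f k2) (L.germ (pullR u θ) k1) =
        L.germ (wdg1 (dlg f) (pullR u θ)) (LogSpace.SFat.wdg1 L k0 k1) := rfl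
    rw [e4]
    exact L.germ_congr e3.symm _ _

/-- Replacement of the functions `S` by functions `S'`. -/
theorem CstOn.subst {S S' : Set Φ} {c : L.G p 0} {Z : Set X} (h : CstOn L S c Z)
    (e : ∀ f ∈ S, ∃ f' ∈ S', EqvOn L f f' Z) : CstOn L S' c Z := by
  obtain ⟨m, u, θ, hu, hc, hs, hz⟩ := h
  have h1 : ∀ i, ∃ f' ∈ S', EqvOn L (u i) f' Z := fun i => e (u i) (hu i)
  choose u' hu' he using h1
  refine ⟨m, u', θ, hu', hc, hs, fun z hzZ => ?_⟩
  obtain ⟨k, ek⟩ := hz z hzZ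
  refine ⟨sfat_pullR L hs fun i _ => (he i z hzZ).2.1, ?_⟩
  rw [ek, L.germ_eq_iff]
  exact van_sub L hc hs fun i _ => he i z hzZ

/-- Pull back. -/
theorem CstOn.pull {X' Φ' : Type} [TopologicalSpace X'] {L' : LogSpace X' Φ'} (m : Mor L L')
    {S : Set Φ'} {c : L'.G p 0} {Z : Set X'} (h : CstOn L' S c Z) :
    CstOn L (m.ix '' S) (m.pullG p 0 c) (m.toFun ⁻¹' Z) := by
  obtain ⟨n, u, θ, hu, hc, hs, hz⟩ := h
  refine ⟨n, m.ix ∘ u, θ, fun i => Set.mem_image_of_mem _ (hu i), hc, hs, fun z hzZ => ?_⟩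
  obtain ⟨k, ek⟩ := hz (m.toFun z) hzZ
  refine ⟨m.sfat k, ?_⟩
  rw [Mor.pullG_val, ek, Mor.pullS_germ]
  rfl

theorem ClOn.pull {X' Φ' : Type} [TopologicalSpace X'] {L' : LogSpace X' Φ'} (m : Mor L L')
    {c : L'.G p q} {Z : Set X'} (h : ClOn L' c Z) : ClOn L (m.pullG p q c) (m.toFun ⁻¹' Z) := by
  intro z hz
  rw [Mor.pullG_val, ← m.pullS_ddS, h _ hz, map_zero]

/-- The set of points where a section is closed is open. -/
theorem isOpen_cl (c : L.G p q) : IsOpen {z | L.ddS p q z (c.1 z) = 0} := by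
  have h := (L.isClosed_supp (L.ddG p q c)).isOpen_compl
  have e : {z | L.ddS p q z (c.1 z) = 0} = (L.supp (L.ddG p q c))ᶜ := by
    ext z
    exact not_not.symm
  rw [e]
  exact h

end

end Pool.Agent.TD


end

section

/-! Section AR: circle bundles with an arbitrary centre (automorphism `X ↦ X + β`). -/

open scoped ContDiff Topology
open Polynomial

namespace Pool.Agent.TD

section
variable {K A : Type} [NormedField K] [CommRing A] [Algebra K A] {r : ℝ}

/-- The automorphism `X ↦ X - β`. -/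
noncomputable def cenE (K : Type) {A : Type} [NormedField K] [CommRing A] [Algebra K A] (β : A) :
    A[X] ≃ₐ[K] A[X] :=
  (Polynomial.algEquivAevalXAddC (-β)).restrictScalars K

theorem cenE_X (β : A) : cenE K β X = X - C β := by
  show Polynomial.algEquivAevalXAddC (-β) X = X - C β
  rw [Polynomial.algEquivAevalXAddC_apply, aeval_X, C_neg, sub_eq_add_neg]

theorem cenE_C (β a : A) : cenE K β (C a) = C a := by
  show Polynomial.algEquivAevalXAddC (-β) (C a) = C a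
  rw [Polynomial.algEquivAevalXAddC_apply, aeval_C]
  rfl

/-- The automorphism of `M(A[X])`. -/
noncomputable def cenM (K : Type) {A : Type} [NormedField K] [CommRing A] [Algebra K A] (β : A) :
    Mor (berLS K A[X]) (berLS K A[X]) := berM (cenE K β : A[X] →ₐ[K] A[X])

/-- The inverse automorphism of `M(A[X])`. -/
noncomputable def cenN (K : Type) {A : Type} [NormedField K] [CommRing A] [Algebra K A] (β : A) :
    Mor (berLS K A[X]) (berLS K A[X]) := berM ((cenE K β).symm : A[X] →ₐ[K] A[X])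

theorem cenN_cenM (β : A) (z : Ber K A[X]) : (cenN K β).toFun ((cenM K β).toFun z) = z :=
  berM_inv_toFun (cenE K β) z

theorem cenM_cenN (β : A) (z : Ber K A[X]) : (cenM K β).toFun ((cenN K β).toFun z) = z :=
  berM_inv_toFun (cenE K β).symm z

theorem cenM_pull_inv (β : A) {p q : ℕ} (c : (berLS K A[X]).G p q) :
    (cenM K β).pullG p q ((cenN K β).pullG p q c) = c :=
  berM_pull_inv (cenE K β) c

theorem cenM_v (β : A) (z : Ber K A[X]) (f : A[X]) :
    ((cenM K β).toFun z).v f = z.v (cenE K β f) := rfl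

theorem cenM_comp (β : A) : (cenM K β).comp (prM K A) = prM K A := by
  apply Mor.ext'
  · funext z
    apply Ber.ext_v
    intro a
    show z.v (cenE K β (C a)) = z.v (C a)
    rw [cenE_C]
  · funext a
    show cenE K β (C a) = C a
    exact cenE_C β a

theorem cenM_pr (β : A) (z : Ber K A[X]) :
    (prM K A).toFun ((cenM K β).toFun z) = (prM K A).toFun z := by
  have h := congrArg (fun m => m.toFun z) (cenM_comp (K := K) β)
  exact h

theorem cenM_pull_pr (β : A) {p q : ℕ} (a : (berLS K A).G p q) :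
    (cenM K β).pullG p q ((prM K A).pullG p q a) = (prM K A).pullG p q a := by
  rw [← Mor.pullG_comp, cenM_comp]

theorem mem_cenZ_iff (β : A) (r : ℝ) (Y : Set (Ber K A)) (z : Ber K A[X]) :
    z ∈ cenZ β r Y ↔ (cenM K β).toFun z ∈ circZ r Y := by
  have h1 : (cenM K β).toFun z ∈ circZ r Y ↔
      z.v (cenE K β X) = r ∧ (prM K A).toFun ((cenM K β).toFun z) ∈ Y := Iff.rfl
  rw [h1, cenE_X, cenM_pr]
  exact and_comm

theorem cenN_cl (β : A) {Y : Set (Ber K A)} {p q : ℕ} {c : (berLS K A[X]).G p q}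
    (hc : ClOn (berLS K A[X]) c (cenZ β r Y)) :
    ∀ w ∈ circZ r Y, (berLS K A[X]).ddS p q w (((cenN K β).pullG p q c).1 w) = 0 := by
  intro w hw
  have h1 : (cenN K β).toFun w ∈ cenZ β r Y := by
    rw [mem_cenZ_iff, cenM_cenN]
    exact hw
  have h2 := hc _ h1
  rw [Mor.pullG_val, ← Mor.pullS_ddS, h2, map_zero]

theorem cen_val (β : A) {p q : ℕ} (c : (berLS K A[X]).G p q) (z : Ber K A[X]) :
    c.1 z = (cenM K β).pullS p q z (((cenN K β).pullG p q c).1 ((cenM K β).toFun z)) := by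
  have h := congrArg (fun c : (berLS K A[X]).G p q => c.1 z) (cenM_pull_inv β c)
  exact h.symm

theorem cen_dlS_congr {f g : A[X]} (hfg : f = g) {z : Ber K A[X]}
    (hf : z ∈ (berLS K A[X]).dom f) (hg : z ∈ (berLS K A[X]).dom g) :
    (berLS K A[X]).dlS f hf = (berLS K A[X]).dlS g hg := by
  subst hfg
  rfl

theorem circ_exOn (gA : Good K A) (gX : Good K A[X]) (hU : CircU K A r) (hr : 0 < r)
    {Y : Set (Ber K A)} (hY : IsCompact Y) (h : ExOn (berLS K A) Y) :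
    ExOn (berLS K A[X]) (circZ r Y) := by
  intro p q c hc
  cases p with
  | zero =>
    obtain ⟨a, e, ha, he⟩ := circ_ex0 gA gX hU hY c hc
    obtain ⟨a', ha'⟩ := h 0 q a ha
    refine ⟨(prM K A).pullG 0 q a' + e, fun z hz => ?_⟩
    have h1 : (((prM K A).pullG 0 q a' + e : (berLS K A[X]).G 0 q)).1 z =
        ((prM K A).pullG 0 q a').1 z + e.1 z := rfl
    rw [he z hz, h1, map_add, Mor.pullG_val, Mor.pullG_val, ha' _ hz.2, Mor.pullS_ddS]
  | succ p =>
    obtain ⟨a, b, e, ha, hb, he⟩ := circ_ex1 gA gX hU hr hY c hc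
    obtain ⟨a', ha'⟩ := h (p + 1) q a ha
    obtain ⟨b', hb'⟩ := h p q b hb
    obtain ⟨ξ, hξ⟩ := exists_xi K A hr
    refine ⟨(prM K A).pullG (p + 1) q a' +
      (berLS K A[X]).wdG p q ξ ((prM K A).pullG p q b') + e, fun z hz => ?_⟩
    have hd : z ∈ (berLS K A[X]).dom (X : A[X]) := dom_of_circ hr hz.1
    have h1 : (((prM K A).pullG (p + 1) q a' +
        (berLS K A[X]).wdG p q ξ ((prM K A).pullG p q b') + e :
          (berLS K A[X]).G (p + 1) q)).1 z =
        ((prM K A).pullG (p + 1) q a').1 z +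
          (berLS K A[X]).wdS p q z (ξ.1 z) (((prM K A).pullG p q b').1 z) + e.1 z := rfl
    rw [he z hz hd, h1, map_add, map_add, hξ z hz.1 hd, ddS_wdS_dlS, Mor.pullG_val,
      Mor.pullG_val, Mor.pullG_val, Mor.pullG_val, ha' _ hz.2, hb' _ hz.2, Mor.pullS_ddS,
      Mor.pullS_ddS]

theorem cen_compact (β : A) (r : ℝ) {Y : Set (Ber K A)} (hY : IsCompact Y) :
    IsCompact (cenZ β r Y) := by
  have h1 : cenZ β r Y = (cenN K β).toFun '' (circZ r Y) := by
    ext z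
    constructor
    · intro hz
      exact ⟨(cenM K β).toFun z, (mem_cenZ_iff β r Y z).1 hz, cenN_cenM β z⟩
    · rintro ⟨w, hw, rfl⟩
      rw [mem_cenZ_iff, cenM_cenN]
      exact hw
  rw [h1]
  exact (isCompact_circ_pre r hY).image (cenN K β).cont

theorem cen_ex (gA : Good K A) (gX : Good K A[X]) (hU : CircU K A r) (hr : 0 < r)
    {Y : Set (Ber K A)} (hY : IsCompact Y) (h : ExOn (berLS K A) Y) (β : A) :
    ExOn (berLS K A[X]) (cenZ β r Y) := by
  intro p q c hc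
  obtain ⟨e, he⟩ := circ_exOn gA gX hU hr hY h p q ((cenN K β).pullG p (q + 1) c) (cenN_cl β hc)
  refine ⟨(cenM K β).pullG p q e, fun z hz => ?_⟩
  rw [cen_val β c z, he _ ((mem_cenZ_iff β r Y z).1 hz), Mor.pullS_ddS, Mor.pullG_val]

theorem cen_cst0 (gA : Good K A) (gX : Good K A[X]) (hU : CircU K A r)
    {Y : Set (Ber K A)} (hY : IsCompact Y) (β : A) (c : (berLS K A[X]).G 0 0)
    (hc : ClOn (berLS K A[X]) c (cenZ β r Y)) :
    ∃ a : (berLS K A).G 0 0, ClOn (berLS K A) a Y ∧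
      ∀ z ∈ cenZ β r Y, c.1 z = ((prM K A).pullG 0 0 a).1 z := by
  obtain ⟨a, ha, h⟩ := circ_cst0 gA gX hU hY ((cenN K β).pullG 0 0 c) (cenN_cl β hc)
  refine ⟨a, ha, fun z hz => ?_⟩
  rw [cen_val β c z, h _ ((mem_cenZ_iff β r Y z).1 hz)]
  have h1 := congrArg (fun c : (berLS K A[X]).G 0 0 => c.1 z) (cenM_pull_pr β a)
  exact h1

theorem cen_cst1 (gA : Good K A) (gX : Good K A[X]) (hU : CircU K A r) (hr : 0 < r)
    {Y : Set (Ber K A)} (hY : IsCompact Y) (β : A) {p : ℕ} (c : (berLS K A[X]).G (p + 1) 0)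
    (hc : ClOn (berLS K A[X]) c (cenZ β r Y)) :
    ∃ (a : (berLS K A).G (p + 1) 0) (b : (berLS K A).G p 0),
      ClOn (berLS K A) a Y ∧ ClOn (berLS K A) b Y ∧
      ∀ z ∈ cenZ β r Y, ∀ h : z ∈ (berLS K A[X]).dom (X - C β : A[X]),
        c.1 z = ((prM K A).pullG (p + 1) 0 a).1 z +
          (berLS K A[X]).wdS p 0 z ((berLS K A[X]).dlS (X - C β) h)
            (((prM K A).pullG p 0 b).1 z) := by
  obtain ⟨a, b, ha, hb, h⟩ := circ_cst1 gA gX hU hr hY ((cenN K β).pullG (p + 1) 0 c)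
    (cenN_cl β hc)
  refine ⟨a, b, ha, hb, fun z hz hd => ?_⟩
  have hz' := (mem_cenZ_iff β r Y z).1 hz
  have hd' : (cenM K β).toFun z ∈ (berLS K A[X]).dom (X : A[X]) := dom_of_circ hr hz'.1
  have h1 : (cenM K β).pullS (p + 1) 0 z (((prM K A).pullG (p + 1) 0 a).1
      ((cenM K β).toFun z)) = ((prM K A).pullG (p + 1) 0 a).1 z :=
    congrArg (fun c : (berLS K A[X]).G (p + 1) 0 => c.1 z) (cenM_pull_pr β a)
  have h2 : (cenM K β).pullS p 0 z (((prM K A).pullG p 0 b).1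
      ((cenM K β).toFun z)) = ((prM K A).pullG p 0 b).1 z :=
    congrArg (fun c : (berLS K A[X]).G p 0 => c.1 z) (cenM_pull_pr β b)
  have h3 : (cenM K β).pullS 1 0 z ((berLS K A[X]).dlS (X : A[X]) hd') =
      (berLS K A[X]).dlS (X - C β) hd := by
    rw [Mor.pullS_dlS]
    exact cen_dlS_congr (cenE_X β) _ _
  rw [cen_val β c z, h _ hz' hd', map_add, Mor.pullS_wdS, h1, h2, h3]

end

end Pool.Agent.TD


end

section

/-! Section AR: exactness for the sets `ZX`, induction on the number of centres. -/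

open scoped ContDiff Topology
open Polynomial

namespace Pool.Agent.TD

section
variable {K A : Type} [NormedField K] [CommRing A] [Algebra K A] {r : ℝ} {Z0 : Set (Ber K A)}
  {S0 : Set A} {N : ℝ → Set A}

theorem zx_ex_nil (gA : Good K A) (gX : Good K A[X]) (hU : ∀ r, 0 < r → CircU K A r) (hr : 0 < r)
    (hN : ArrB K Z0 S0 N) {F : List (A × ℝ)} (hF : FOk N F) :
    ExOn (berLS K A[X]) (ZX r Z0 F []) := by
  rw [zx_nil]
  exact cen_ex gA gX (hU r hr) hr (zf_compact hN.toNOk F) (hN.ex F hF) 0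

theorem zx_ex_cons (gA : Good K A) (gX : Good K A[X]) (hU : ∀ r, 0 < r → CircU K A r)
    (hr : 0 < r) (hN : ArrB K Z0 S0 N) {F : List (A × ℝ)} (hF : FOk N F) {β : A} {Bs : List A}
    (hβ : β ∈ N r) (hB : ∀ β' ∈ Bs, β' ∈ N r) (ih : ExOn (berLS K A[X]) (ZX r Z0 F Bs)) :
    ExOn (berLS K A[X]) (ZX r Z0 F (β :: Bs)) := by
  intro p q c hc
  have := gX.lc
  obtain ⟨r', hr'0, hr'r, hr'⟩ := zx_radius hN.toNOk hr hβ (isOpen_cl c) (fun z hz => hc z hz)
  have hS : IsCompact (ZX r Z0 F Bs) := zx_compact hN.toNOk F Bs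
  have hY : IsCompact (ZF Z0 (yF r F β Bs)) := zf_compact hN.toNOk _
  have hYok : FOk N (yF r F β Bs) := yF_ok hN.toNOk hr hF hβ hB
  have hv : Continuous fun z : Ber K A[X] => z.v (X - C β) := Ber.continuous_v _
  have hQ : IsCompact (ZX r Z0 F Bs ∩ {z | r' ≤ z.v (X - C β)}) :=
    hS.inter_right (isClosed_le continuous_const hv)
  have hD : IsCompact (ZX r Z0 F Bs ∩ ((prM K A).toFun ⁻¹' (ZF Z0 (yF r F β Bs)) ∩
      {z | z.v (X - C β) ≤ r'})) :=
    hS.inter_right ((hY.isClosed.preimage (prM K A).cont).inter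
      (isClosed_le hv continuous_const))
  have hcO : ClOn (berLS K A[X]) c (cenZ β r' (ZF Z0 (yF r F β Bs))) := by
    rintro z ⟨hz1, hz2⟩
    exact hr' z (zx_disc hz1 (hz2.trans_lt hr'r)) hz2.ge
  obtain ⟨e, he⟩ := cen_ex gA gX (hU r' hr'0) hr'0 hY (hN.ex _ hYok) β p q c hcO
  obtain ⟨c', hc1, hc2⟩ := (berLS K A[X]).glue gX.cut hQ hD c ((berLS K A[X]).ddG p q e) (by
    rintro z ⟨⟨-, h1⟩, -, h2, h3⟩
    exact he z ⟨h2, le_antisymm h3 h1⟩)
  have hcl : ClOn (berLS K A[X]) c' (ZX r Z0 F Bs) := by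
    intro z hz
    rcases le_or_gt r' (z.v (X - C β)) with h | h
    · rw [hc1 z ⟨hz, h⟩]
      exact hr' z hz h
    · rw [hc2 z ⟨hz, zx_near hN.toNOk hβ hB hz (h.trans hr'r), h.le⟩]
      exact (berLS K A[X]).ddS_ddS _
  obtain ⟨e2, he2⟩ := ih p q c' hcl
  refine ⟨e2, fun z hz => ?_⟩
  have hzS : z ∈ ZX r Z0 F Bs :=
    ⟨hz.1, hz.2.1, fun β' h' => hz.2.2 β' (List.mem_cons_of_mem _ h')⟩
  have hzβ : z.v (X - C β) = r := hz.2.2 β List.mem_cons_self
  rw [← hc1 z ⟨hzS, show r' ≤ z.v (X - C β) from hzβ ▸ hr'r.le⟩]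
  exact he2 z hzS

theorem zx_ex (gA : Good K A) (gX : Good K A[X]) (hU : ∀ r, 0 < r → CircU K A r)
    (hr : 0 < r) (hN : ArrB K Z0 S0 N) {F : List (A × ℝ)} (hF : FOk N F) :
    ∀ Bs : List A, (∀ β ∈ Bs, β ∈ N r) → ExOn (berLS K A[X]) (ZX r Z0 F Bs)
  | [], _ => zx_ex_nil gA gX hU hr hN hF
  | β :: Bs, h => zx_ex_cons gA gX hU hr hN hF (h β (by simp))
      (fun β' h' => h β' (List.mem_cons_of_mem _ h'))
      (zx_ex gA gX hU hr hN hF Bs fun β' h' => h β' (List.mem_cons_of_mem _ h'))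

end

end Pool.Agent.TD


end

section

/-! Section AR: forms of type `(p,0)` near the sets `ZX`, no centre, functions. -/

open scoped ContDiff Topology
open Polynomial

namespace Pool.Agent.TD

theorem ics0_dlS_congr {X Φ : Type} [TopologicalSpace X] (L : LogSpace X Φ) {z : X} {f f' : Φ}
    (e : f = f') (h : z ∈ L.dom f) (h' : z ∈ L.dom f') : L.dlS f h = L.dlS f' h' := by
  subst e
  rfl

section
variable {K A : Type} [NormedField K] [CommRing A] [Algebra K A] {r : ℝ} {Z0 : Set (Ber K A)}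
  {S0 : Set A} {N : ℝ → Set A}

theorem zx_cs_nil (gA : Good K A) (gX : Good K A[X]) (hU : ∀ r, 0 < r → CircU K A r) (hr : 0 < r)
    (hN : ArrB K Z0 S0 N) {F : List (A × ℝ)} (hF : FOk N F) :
    CsOn (berLS K A[X]) (SX S0 F []) (ZX r Z0 F []) := by
  rw [zx_nil]
  intro p c hc
  have hcomp : IsCompact (ZF Z0 F) := zf_compact hN.toNOk F
  have hpull : ∀ (q : ℕ) (a : (berLS K A).G q 0), ClOn (berLS K A) a (ZF Z0 F) →
      CstOn (berLS K A[X]) (SX S0 F []) ((prM K A).pullG q 0 a) (cenZ (0 : A) r (ZF Z0 F)) := by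
    intro q a ha
    refine ((hN.cst F hF q a ha).pull (prM K A)).mono ?_ fun z hz => hz.1
    rintro f ⟨g, hg, rfl⟩
    exact Or.inl (Or.inr ⟨g, hg, rfl⟩)
  cases p with
  | zero =>
    obtain ⟨a, ha, hca⟩ := cen_cst0 gA gX (hU r hr) hcomp 0 c hc
    exact (hpull 0 a ha).congr fun z hz => (hca z hz).symm
  | succ p =>
    obtain ⟨a, b, ha, hb, hcab⟩ := cen_cst1 gA gX (hU r hr) hr hcomp 0 c hc
    obtain ⟨ξ, hξ⟩ := exists_xi K A hr
    have hX : (X - C (0 : A) : A[X]) = X := by rw [C_0, sub_zero]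
    have hcirc : ∀ z ∈ cenZ (0 : A) r (ZF Z0 F), z ∈ circB K A r := by
      intro z hz
      have h := hz.2
      rwa [hX] at h
    have h1 : CstOn (berLS K A[X]) (SX S0 F [])
        ((berLS K A[X]).wdG p 0 ξ ((prM K A).pullG p 0 b)) (cenZ (0 : A) r (ZF Z0 F)) := by
      refine (hpull p b hb).wd (f := X) (Or.inl (Or.inl rfl)) fun z hz => ?_
      have k : z ∈ (berLS K A[X]).dom (X : A[X]) := dom_of_circ hr (hcirc z hz)
      refine ⟨k, ?_⟩
      rw [LogSpace.wdG_val, hξ z (hcirc z hz) k]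
    refine ((hpull (p + 1) a ha).add h1).congr fun z hz => ?_
    have k : z ∈ (berLS K A[X]).dom (X : A[X]) := dom_of_circ hr (hcirc z hz)
    have k' : z ∈ (berLS K A[X]).dom (X - C (0 : A) : A[X]) := by rw [hX]; exact k
    have h2 : ((prM K A).pullG (p + 1) 0 a +
        (berLS K A[X]).wdG p 0 ξ ((prM K A).pullG p 0 b)).1 z =
        ((prM K A).pullG (p + 1) 0 a).1 z +
          ((berLS K A[X]).wdG p 0 ξ ((prM K A).pullG p 0 b)).1 z := rfl
    rw [h2, hcab z hz k', LogSpace.wdG_val, hξ z (hcirc z hz) k,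
      ics0_dlS_congr (berLS K A[X]) hX k' k]

/-- The case of functions (type `(0,0)`). -/
theorem zx_cs_cons0 (gA : Good K A) (gX : Good K A[X]) (hU : ∀ r, 0 < r → CircU K A r)
    (hr : 0 < r) (hN : ArrB K Z0 S0 N) {F : List (A × ℝ)} (hF : FOk N F) {β : A} {Bs : List A}
    (hβ : β ∈ N r) (hB : ∀ β' ∈ Bs, β' ∈ N r)
    (ih : CsOn (berLS K A[X]) (SX S0 F Bs) (ZX r Z0 F Bs)) (c : (berLS K A[X]).G 0 0)
    (hc : ClOn (berLS K A[X]) c (ZX r Z0 F (β :: Bs))) :
    CstOn (berLS K A[X]) (SX S0 F (β :: Bs)) c (ZX r Z0 F (β :: Bs)) := by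
  have := gX.lc
  obtain ⟨r', hr'0, hr'r, hr'⟩ := zx_radius hN.toNOk hr hβ (isOpen_cl c) (fun z hz => hc z hz)
  have hS : IsCompact (ZX r Z0 F Bs) := zx_compact hN.toNOk F Bs
  have hY : IsCompact (ZF Z0 (yF r F β Bs)) := zf_compact hN.toNOk _
  have hv : Continuous fun z : Ber K A[X] => z.v (X - C β) := Ber.continuous_v _
  have hQ : IsCompact (ZX r Z0 F Bs ∩ {z | r' ≤ z.v (X - C β)}) :=
    hS.inter_right (isClosed_le continuous_const hv)
  have hD : IsCompact (ZX r Z0 F Bs ∩ ((prM K A).toFun ⁻¹' (ZF Z0 (yF r F β Bs)) ∩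
      {z | z.v (X - C β) ≤ r'})) :=
    hS.inter_right ((hY.isClosed.preimage (prM K A).cont).inter
      (isClosed_le hv continuous_const))
  have hcO : ClOn (berLS K A[X]) c (cenZ β r' (ZF Z0 (yF r F β Bs))) := by
    rintro z ⟨hz1, hz2⟩
    exact hr' z (zx_disc hz1 (hz2.trans_lt hr'r)) hz2.ge
  obtain ⟨a, ha, hca⟩ := cen_cst0 gA gX (hU r' hr'0) hY β c hcO
  obtain ⟨c', hc1, hc2⟩ := (berLS K A[X]).glue gX.cut hQ hD c ((prM K A).pullG 0 0 a) (by
    rintro z ⟨⟨-, h1⟩, -, h2, h3⟩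
    exact hca z ⟨h2, le_antisymm h3 h1⟩)
  have hcl : ClOn (berLS K A[X]) c' (ZX r Z0 F Bs) := by
    intro z hz
    rcases le_or_gt r' (z.v (X - C β)) with h | h
    · rw [hc1 z ⟨hz, h⟩]
      exact hr' z hz h
    · have hzY := zx_near hN.toNOk hβ hB hz (h.trans hr'r)
      rw [hc2 z ⟨hz, hzY, h.le⟩]
      exact ClOn.pull (prM K A) ha z hzY
  have hTS : ZX r Z0 F (β :: Bs) ⊆ ZX r Z0 F Bs := by
    rintro z ⟨h1, h2, h3⟩
    exact ⟨h1, h2, fun β' h' => h3 β' (List.mem_cons_of_mem _ h')⟩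
  have hSX : SX S0 F Bs ⊆ SX S0 F (β :: Bs) := by
    rintro f (h | ⟨β', hβ', rfl⟩)
    · exact Or.inl h
    · exact Or.inr ⟨β', List.mem_cons_of_mem _ hβ', rfl⟩
  refine ((ih 0 c' hcl).mono hSX hTS).congr fun z hz => ?_
  have hzβ : z.v (X - C β) = r := hz.2.2 β List.mem_cons_self
  exact hc1 z ⟨hTS hz, show r' ≤ z.v (X - C β) from hzβ ▸ hr'r.le⟩

end

end Pool.Agent.TD


end

section

/-! Section AR: forms of type `(p,0)` near the sets `ZX`, type `(p+1,0)`. -/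

open scoped ContDiff Topology
open Polynomial

namespace Pool.Agent.TD

section
variable {Φ Φ' : Type} {p q : ℕ}

theorem ics1_cst_wdg1 {η : Raw Φ 1 0} {θ : Raw Φ p q} (h : IsCst η) (k : IsCst θ) :
    IsCst (wdg1 η θ) := by
  intro x x' w v
  unfold wdg1
  refine Finset.sum_congr rfl fun j _ => ?_
  rw [h x x', k x x']

theorem ics1_cst_pullR {θ : Raw Φ' p q} (u : Φ' → Φ) (k : IsCst θ) : IsCst (pullR u θ) :=
  fun _ _ _ _ => k _ _ _ _

theorem ics1_germ_closed {X : Type} [TopologicalSpace X] (L : LogSpace X Φ) {z : X}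
    {θ : Raw Φ p q} (k : IsCst θ) (h : L.SFat z θ) : L.ddS p q z (L.germ θ h) = 0 := by
  rw [L.ddS_germ, L.germ_congr (dd_cst k) _ (LogSpace.SFat.zero L), L.germ_zero]

theorem ics1_sfat_dlg {X : Type} [TopologicalSpace X] (L : LogSpace X Φ) {z : X} {f : Φ}
    (h : z ∈ L.dom f) : L.SFat z (dlg f) :=
  ⟨{f}, isSF_dlg (Finset.mem_singleton_self f), by simpa using h⟩

end

section
variable {K A : Type} [NormedField K] [CommRing A] [Algebra K A] {r : ℝ} {Z0 : Set (Ber K A)}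
  {S0 : Set A} {N : ℝ → Set A}

/-- The case of type `(p+1,0)`. -/
theorem zx_cs_cons1 (gA : Good K A) (gX : Good K A[X]) (hU : ∀ r, 0 < r → CircU K A r)
    (hr : 0 < r) (hN : ArrB K Z0 S0 N) {F : List (A × ℝ)} (hF : FOk N F) {β : A} {Bs : List A}
    (hβ : β ∈ N r) (hB : ∀ β' ∈ Bs, β' ∈ N r)
    (ih : CsOn (berLS K A[X]) (SX S0 F Bs) (ZX r Z0 F Bs)) {p : ℕ}
    (c : (berLS K A[X]).G (p + 1) 0)
    (hc : ClOn (berLS K A[X]) c (ZX r Z0 F (β :: Bs))) :
    CstOn (berLS K A[X]) (SX S0 F (β :: Bs)) c (ZX r Z0 F (β :: Bs)) := by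
  classical
  have := gX.lc
  obtain ⟨r', hr'0, hr'r, hU'⟩ := zx_radius hN.toNOk hr hβ (isOpen_cl c) hc
  have hcont : Continuous fun z : Ber K A[X] => z.v (X - C β) := Ber.continuous_v _
  have hScomp : IsCompact (ZX r Z0 F Bs) := zx_compact hN.toNOk F Bs
  have hYcomp : IsCompact (ZF Z0 (yF r F β Bs)) := zf_compact hN.toNOk _
  set S := ZX r Z0 F Bs with hS
  set Y := ZF Z0 (yF r F β Bs) with hY
  set Q : Set (Ber K A[X]) := S ∩ {z | r' ≤ z.v (X - C β)} with hQ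
  set D : Set (Ber K A[X]) := S ∩ ((prM K A).toFun ⁻¹' Y ∩ {z | z.v (X - C β) ≤ r'}) with hD
  have hQcomp : IsCompact Q := hScomp.inter_right (isClosed_le continuous_const hcont)
  have hDcomp : IsCompact D := hScomp.inter_right
    ((hYcomp.isClosed.preimage (prM K A).cont).inter (isClosed_le hcont continuous_const))
  have hcover : ∀ z ∈ S, z ∈ Q ∨ z ∈ D := by
    intro z hz
    rcases le_total r' (z.v (X - C β)) with h | h
    · exact Or.inl ⟨hz, h⟩
    · exact Or.inr ⟨hz, zx_near hN.toNOk hβ hB hz (h.trans_lt hr'r), h⟩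
  have hO : ∀ z ∈ cenZ β r' Y, z ∈ S ∧ z ∈ Q ∧ z ∈ D := by
    rintro z ⟨h1, h2⟩
    have h3 : z ∈ S := zx_disc h1 (by rw [h2]; exact hr'r)
    exact ⟨h3, ⟨h3, h2.ge⟩, ⟨h3, h1, h2.le⟩⟩
  have hQD : ∀ z ∈ Q ∩ D, z ∈ cenZ β r' Y := by
    rintro z ⟨⟨h1, h2⟩, -, h3, h4⟩
    exact ⟨h3, le_antisymm h4 h2⟩
  have hclQ : ∀ z ∈ Q, (berLS K A[X]).ddS (p + 1) 0 z (c.1 z) = 0 := fun z hz => hU' z hz.1 hz.2
  obtain ⟨x0, v, hx0, hv, hcO⟩ := cen_cst1 gA gX (hU r' hr'0) hr'0 hYcomp β c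
    (fun z hz => hclQ z (hO z hz).2.1)
  obtain ⟨m, u, θ, hu, hθc, hθs, hvθ⟩ := hN.cst (yF r F β Bs)
    (yF_ok hN.toNOk hr hF hβ hB) p v hv
  have hdom := zx_dom hN.toNOk hr hF (Bs := Bs)
  have hex : ∀ i, ∃ f' ∈ SX S0 F Bs, EqvOn (berLS K A[X]) (C (u i)) f' D := by
    intro i
    have same : u i ∈ SFn S0 F → ∃ f' ∈ SX S0 F Bs, EqvOn (berLS K A[X]) (C (u i)) f' D := by
      intro h
      have h1 : (C (u i) : A[X]) ∈ SX S0 F Bs := Or.inl (Or.inr ⟨u i, h, rfl⟩)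
      refine ⟨C (u i), h1, fun z hz => ?_⟩
      have h2 := hdom _ h1 z hz.1
      exact ⟨h2, h2, 0, Filter.Eventually.of_forall fun z' => by rw [zero_add]⟩
    have other : ∀ f' ∈ SX S0 F Bs, (∀ z ∈ D, ∀ᶠ z' in 𝓝 z, z'.v f' = z'.v (C (u i))) →
        ∃ f' ∈ SX S0 F Bs, EqvOn (berLS K A[X]) (C (u i)) f' D := by
      intro f' h1 h2
      refine ⟨f', h1, fun z hz => ?_⟩
      have h3 := hdom _ h1 z hz.1
      have h4 := (h2 z hz).self_of_nhds
      refine ⟨?_, h3, 0, (h2 z hz).mono fun z' hz' => ?_⟩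
      · show z.v (C (u i)) ≠ 0
        rw [← h4]
        exact h3
      · show Real.log (z'.v (C (u i))) = 0 + Real.log (z'.v f')
        rw [zero_add, hz']
    rcases hu i with h | ⟨x, hx, hxu⟩
    · exact same (Or.inl h)
    · rcases List.mem_append.1 hx with hx | hx
      · exact same (Or.inr ⟨x, hx, hxu⟩)
      · rcases List.mem_cons.1 hx with hx | hx
        · have e : u i = β := by rw [← hxu, hx]
          refine other X (Or.inl (Or.inl rfl)) fun z hz => ?_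
          rw [e]
          exact (zx_disc_eqv hr hz.2.1 (lt_of_le_of_lt hz.2.2 hr'r)).1
        · obtain ⟨β', hβ', rfl⟩ := List.mem_map.1 hx
          have e : u i = β - β' := hxu.symm
          refine other (X - C β') (Or.inr ⟨β', hβ', rfl⟩) fun z hz => ?_
          rw [e]
          exact (zx_disc_eqv hr hz.2.1 (lt_of_le_of_lt hz.2.2 hr'r)).2 β' hβ'
  choose u' hu' heqv using hex
  have hsf : ∀ z ∈ S, (berLS K A[X]).SFat z (pullR u' θ) := fun z hz =>
    sfat_pullR _ hθs fun i _ => hdom _ (hu' i) z hz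
  have hQdom : ∀ z ∈ Q, z ∈ (berLS K A[X]).dom (X - C β : A[X]) := by
    intro z hz
    have h : r' ≤ z.v (X - C β) := hz.2
    exact (hr'0.trans_le h).ne'
  have hsf1 : ∀ z ∈ Q, (berLS K A[X]).SFat z (wdg1 (dlg (X - C β : A[X])) (pullR u' θ)) :=
    fun z hz => LogSpace.SFat.wdg1 _ (ics1_sfat_dlg _ (hQdom z hz)) (hsf z hz.1)
  obtain ⟨s0, hs0⟩ := exists_secR (berLS K A[X]) gX.cut hQcomp
    (θ := pullR u' θ) (fun z hz => hsf z hz.1)
  obtain ⟨s, hs⟩ := exists_secR (berLS K A[X]) gX.cut hQcomp hsf1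
  -- the section `s` is `dlog |X - β| ^ s0` on `Q`
  have hss0 : ∀ z ∈ Q, ∀ k : z ∈ (berLS K A[X]).dom (X - C β : A[X]),
      s.1 z = (berLS K A[X]).wdS p 0 z ((berLS K A[X]).dlS (X - C β) k) (s0.1 z) := by
    intro z hz k
    obtain ⟨k1, e1⟩ := hs z hz
    obtain ⟨k2, e2⟩ := hs0 z hz
    rw [e1, e2]
    rfl
  have hscl : ∀ z ∈ Q, (berLS K A[X]).ddS (p + 1) 0 z (s.1 z) = 0 := by
    intro z hz
    obtain ⟨k1, e1⟩ := hs z hz
    rw [e1]
    exact ics1_germ_closed _ (ics1_cst_wdg1 (fun _ _ _ _ => rfl) (ics1_cst_pullR u' hθc)) k1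
  -- on `O`
  have hcO' : ∀ z ∈ cenZ β r' Y, (c - s).1 z = ((prM K A).pullG (p + 1) 0 x0).1 z := by
    intro z hz
    obtain ⟨h1, h2, h3⟩ := hO z hz
    have hval : (c - s).1 z = c.1 z - s.1 z := rfl
    have k := hQdom z h2
    have e : ((prM K A).pullG p 0 v).1 z = s0.1 z := by
      obtain ⟨k2, e2⟩ := hs0 z h2
      obtain ⟨k3, e3⟩ := hvθ _ hz.1
      rw [e2, Mor.pullG_val, e3, Mor.pullS_germ, LogSpace.germ_eq_iff]
      exact van_sub (berLS K A[X]) hθc hθs (u := fun i => C (u i)) (u' := u')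
        fun i _ => heqv i z h3
    rw [hval, hcO z hz k, hss0 z h2 k, e]
    abel
  obtain ⟨ct, hct1, hct2⟩ := (berLS K A[X]).glue gX.cut hQcomp hDcomp (c - s)
    ((prM K A).pullG (p + 1) 0 x0) (fun z hz => hcO' z (hQD z hz))
  have hctcl : ClOn (berLS K A[X]) ct S := by
    intro z hz
    rcases hcover z hz with h | h
    · rw [hct1 z h]
      have hval : (c - s).1 z = c.1 z - s.1 z := rfl
      rw [hval, map_sub, hclQ z h, hscl z h, sub_zero]
    · rw [hct2 z h]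
      exact ClOn.pull (prM K A) hx0 z h.2.1
  have hTS : ZX r Z0 F (β :: Bs) ⊆ S := by
    rintro z ⟨h1, h2, h3⟩
    exact ⟨h1, h2, fun β' h' => h3 β' (List.mem_cons_of_mem _ h')⟩
  have hTQ : ZX r Z0 F (β :: Bs) ⊆ Q := by
    intro z hz
    refine ⟨hTS hz, ?_⟩
    have h1 : z.v (X - C β) = r := hz.2.2 β (by simp)
    show r' ≤ z.v (X - C β)
    rw [h1]
    exact hr'r.le
  have hSX : SX S0 F Bs ⊆ SX S0 F (β :: Bs) := by
    rintro f (h | ⟨β', hβ', rfl⟩)
    · exact Or.inl h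
    · exact Or.inr ⟨β', List.mem_cons_of_mem _ hβ', rfl⟩
  have hcs0 : CstOn (berLS K A[X]) (SX S0 F (β :: Bs)) s0 (ZX r Z0 F (β :: Bs)) :=
    ⟨m, u', θ, fun i => hSX (hu' i), hθc, hθs, fun z hz => hs0 z (hTQ hz)⟩
  have hcs : CstOn (berLS K A[X]) (SX S0 F (β :: Bs)) s (ZX r Z0 F (β :: Bs)) :=
    hcs0.wd (f := X - C β) (Or.inr ⟨β, by simp, rfl⟩)
      fun z hz => ⟨hQdom z (hTQ hz), hss0 z (hTQ hz) _⟩
  have hcct : CstOn (berLS K A[X]) (SX S0 F (β :: Bs)) ct (ZX r Z0 F (β :: Bs)) :=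
    (ih (p + 1) ct hctcl).mono hSX hTS
  refine (hcct.add hcs).congr fun z hz => ?_
  have h1 : (ct + s).1 z = ct.1 z + s.1 z := rfl
  have h2 : (c - s).1 z = c.1 z - s.1 z := rfl
  rw [h1, hct1 z (hTQ hz), h2, sub_add_cancel]

end

end Pool.Agent.TD


end

section

/-! Section AR: forms of type `(p,0)` near the sets `ZX`, induction on the number of centres. -/

open scoped ContDiff Topology
open Polynomial

namespace Pool.Agent.TD

section
variable {K A : Type} [NormedField K] [CommRing A] [Algebra K A] {r : ℝ} {Z0 : Set (Ber K A)}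
  {S0 : Set A} {N : ℝ → Set A}

theorem zx_cs (gA : Good K A) (gX : Good K A[X]) (hU : ∀ r, 0 < r → CircU K A r)
    (hr : 0 < r) (hN : ArrB K Z0 S0 N) {F : List (A × ℝ)} (hF : FOk N F) :
    ∀ Bs : List A, (∀ β ∈ Bs, β ∈ N r) → CsOn (berLS K A[X]) (SX S0 F Bs) (ZX r Z0 F Bs)
  | [], _ => zx_cs_nil gA gX hU hr hN hF
  | β :: Bs, h => by
      have ih := zx_cs gA gX hU hr hN hF Bs fun β' h' => h β' (List.mem_cons_of_mem _ h')
      have h1 := h β (by simp)
      have h2 := fun β' h' => h β' (List.mem_cons_of_mem _ h')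
      intro p c hc
      match p, c, hc with
      | 0, c, hc => exact zx_cs_cons0 gA gX hU hr hN hF h1 h2 ih c hc
      | p + 1, c, hc => exact zx_cs_cons1 gA gX hU hr hN hF h1 h2 ih c hc

end

end Pool.Agent.TD


end

section

/-! Section AR: reduction to centres and base forms. -/

open scoped ContDiff Topology
open Polynomial

namespace Pool.Agent.TD

section
variable {K A : Type} [NormedField K] [CommRing A] [Algebra K A] {r : ℝ} {Z0 : Set (Ber K A)}
  {S0 : Set A} {N : ℝ → Set A}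

private lemma red_vcst (z : Ber K A[X]) (a : K) : z.v (C (algebraMap K A a)) = ‖a‖ := by
  rw [← z.ext a, Polynomial.algebraMap_apply]

private lemma red_vaX {z : Ber K A[X]} (hz : z.v (X : A[X]) = r) (a : K) :
    z.v (C (algebraMap K A a) * X) = ‖a‖ * r := by
  rw [z.mul, red_vcst, hz]

private lemma red_mono {f f' : A[X]} {Z Z' : Set (Ber K A[X])}
    (h : EqvOn (berLS K A[X]) f f' Z) (hZ : Z' ⊆ Z) : EqvOn (berLS K A[X]) f f' Z' :=
  fun z hz => h z (hZ hz)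

private lemma red_refl {f : A[X]} {Z : Set (Ber K A[X])} (h : ∀ z ∈ Z, z.v f ≠ 0) :
    EqvOn (berLS K A[X]) f f Z :=
  fun z hz => ⟨h z hz, h z hz, 0, Filter.Eventually.of_forall fun _ => (zero_add _).symm⟩

/-- The class of functions `a X + γ` is admissible. -/
theorem up_nok [IsUltrametricDist K] (hr : 0 < r) (hN : NOk K Z0 S0 N) :
    NOk K (upZ r Z0) (upS S0) (upN K r N) := by
  refine ⟨?_, ?_, ?_, ?_, ?_⟩
  · have h : upZ r Z0 = circB K A r ∩ (prM K A).toFun ⁻¹' Z0 := by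
      ext z
      exact ⟨fun h => ⟨h.2, h.1⟩, fun h => ⟨h.2, h.1⟩⟩
    rw [h]
    exact isCompact_circ_pre r hN.compact
  · rintro f (hf | ⟨g, hg, rfl⟩) z hz
    · rw [Set.mem_singleton_iff.1 hf, hz.2]
      exact hr.ne'
    · rw [← prM_v]
      exact hN.dom g hg _ hz.1
  · rintro s _ ⟨a, γ, ha, hγ, rfl⟩ _ ⟨a', γ', ha', hγ', rfl⟩
    refine ⟨a - a', γ - γ', ?_, hN.sub s γ hγ γ' hγ', ?_⟩
    · have h1 : ‖a - a'‖ ≤ max ‖a‖ ‖a'‖ := by
        have h := IsUltrametricDist.norm_add_le_max a (-a')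
        rwa [norm_neg, ← sub_eq_add_neg] at h
      have h2 : max ‖a‖ ‖a'‖ * r ≤ s := by
        rcases max_choice ‖a‖ ‖a'‖ with h | h <;> rw [h]
        · exact ha
        · exact ha'
      exact (mul_le_mul_of_nonneg_right h1 hr.le).trans h2
    · rw [map_sub, C_sub, C_sub]
      ring
  · rintro s _ ⟨a, γ, ha, hγ, rfl⟩ b hb
    refine ⟨b * a, b • γ, ?_, hN.smul s γ hγ b hb, ?_⟩
    · rw [norm_mul, mul_assoc]
      exact mul_le_mul_of_nonneg_left ha (norm_nonneg b)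
    · rw [smul_add, ← smul_mul_assoc, smul_C, smul_C, map_mul, Algebra.smul_def b
        (algebraMap K A a)]
  · rintro s _ ⟨a, γ, ha, hγ, rfl⟩ z hz
    refine (z.add _ _).trans (max_le ?_ ?_)
    · rw [red_vaX hz.2]
      exact ha
    · rw [← prM_v]
      exact hN.bound s γ hγ _ hz.1

/-- One condition: a form which is not essential is replaced by a form of the base, an essential one by a
centre. -/
theorem red_one (hr : 0 < r) (hN : NOk K Z0 S0 N) {f : A[X]} {s : ℝ} (hs : 0 < s)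
    (hf : f ∈ upN K r N s) :
    (∃ γ ∈ N s, (∀ z ∈ upZ r Z0, z.v f = s ↔ z.v (C γ) = s) ∧
      EqvOn (berLS K A[X]) (C γ) f {z | z ∈ upZ r Z0 ∧ z.v f = s}) ∨
    (∃ β ∈ N r, (∀ z ∈ upZ r Z0, z.v f = s ↔ z.v (X - C β) = r) ∧
      EqvOn (berLS K A[X]) (X - C β) f {z | z ∈ upZ r Z0 ∧ z.v f = s}) := by
  obtain ⟨a, γ, ha, hγ, rfl⟩ := hf
  rcases lt_or_eq_of_le ha with hlt | heq
  · left
    have key : ∀ z ∈ upZ r Z0, z.v (C (algebraMap K A a) * X + C γ) = s ↔ z.v (C γ) = s := by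
      intro z hz
      have hX : z.v (C (algebraMap K A a) * X) < s := by
        rw [red_vaX hz.2]; exact hlt
      constructor
      · intro h
        have h1 : z.v ((C (algebraMap K A a) * X + C γ) + -(C (algebraMap K A a) * X)) =
            z.v (C (algebraMap K A a) * X + C γ) := by
          apply z.add_eq
          rw [z.neg, h]; exact hX
        rw [show (C (algebraMap K A a) * X + C γ) + -(C (algebraMap K A a) * X) = C γ by ring] at h1
        rw [h1, h]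
      · intro h
        rw [add_comm, z.add_eq (by rw [h]; exact hX), h]
    refine ⟨γ, hγ, key, ?_⟩
    rintro z ⟨hz, hzs⟩
    have hγz : z.v (C γ) = s := (key z hz).1 hzs
    refine ⟨?_, ?_, 0, ?_⟩
    · show z.v (C γ) ≠ 0
      rw [hγz]; exact hs.ne'
    · show z.v _ ≠ 0
      rw [hzs]; exact hs.ne'
    · have hX : z.v (C (algebraMap K A a) * X) < z.v (C γ) := by
        rw [red_vaX hz.2, hγz]; exact hlt
      have h1 : ∀ᶠ z' in 𝓝 z, z'.v (C (algebraMap K A a) * X) < z'.v (C γ) :=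
        (Ber.continuous_v _).continuousAt.eventually_lt (Ber.continuous_v _).continuousAt hX
      filter_upwards [h1] with z' hz'
      rw [zero_add]
      show Real.log (z'.v (C γ)) = Real.log (z'.v _)
      rw [add_comm (C (algebraMap K A a) * X), z'.add_eq hz']
  · right
    have ha0 : a ≠ 0 := by
      rintro rfl
      rw [norm_zero, zero_mul] at heq
      exact hs.ne heq
    have hna : 0 < ‖a‖ := norm_pos_iff.2 ha0
    have hβ : (-a⁻¹) • γ ∈ N r := by
      have h := hN.smul s γ hγ (-a⁻¹) (neg_ne_zero.2 (inv_ne_zero ha0))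
      have e : ‖-a⁻¹‖ * s = r := by
        rw [norm_neg, norm_inv, ← heq, ← mul_assoc, inv_mul_cancel₀ hna.ne', one_mul]
      rwa [e] at h
    have hfe : (C (algebraMap K A a) * X + C γ : A[X]) =
        C (algebraMap K A a) * (X - C ((-a⁻¹) • γ)) := by
      have e : algebraMap K A a * ((-a⁻¹) • γ) = -γ := by
        rw [← Algebra.smul_def, smul_smul, mul_neg, mul_inv_cancel₀ ha0, neg_smul, one_smul]
      rw [mul_sub, ← C_mul, e, C_neg, sub_neg_eq_add]
    have hv : ∀ z : Ber K A[X], z.v (C (algebraMap K A a) * X + C γ) =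
        ‖a‖ * z.v (X - C ((-a⁻¹) • γ)) := by
      intro z
      rw [hfe, z.mul, red_vcst]
    have key : ∀ z : Ber K A[X], z.v (C (algebraMap K A a) * X + C γ) = s ↔
        z.v (X - C ((-a⁻¹) • γ)) = r := by
      intro z
      rw [hv, ← heq]
      constructor
      · intro h
        exact mul_left_cancel₀ hna.ne' h
      · intro h
        rw [h]
    refine ⟨_, hβ, fun z _ => key z, ?_⟩
    rintro z ⟨hz, hzs⟩
    have hXz : z.v (X - C ((-a⁻¹) • γ)) = r := (key z).1 hzs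
    have hX0 : z.v (X - C ((-a⁻¹) • γ)) ≠ 0 := by rw [hXz]; exact hr.ne'
    refine ⟨hX0, ?_, -Real.log ‖a‖, ?_⟩
    · show z.v _ ≠ 0
      rw [hzs]; exact hs.ne'
    · have h1 : ∀ᶠ z' in 𝓝 z, z'.v (X - C ((-a⁻¹) • γ)) ≠ 0 :=
        (Ber.continuous_v _).continuousAt.eventually_ne hX0
      filter_upwards [h1] with z' hz'
      show Real.log (z'.v _) = -Real.log ‖a‖ + Real.log (z'.v _)
      rw [hv, Real.log_mul hna.ne' hz', neg_add_cancel_left]

/-- Reduction of a list of conditions. -/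
theorem red_list (hr : 0 < r) (hN : NOk K Z0 S0 N) {F : List (A[X] × ℝ)} (hF : FOk (upN K r N) F) :
    ∃ (F' : List (A × ℝ)) (Bs : List A), FOk N F' ∧ (∀ β ∈ Bs, β ∈ N r) ∧
      ZF (upZ r Z0) F = ZX r Z0 F' Bs ∧
      ∀ f ∈ SX S0 F' Bs, ∃ f' ∈ SFn (upS S0) F,
        EqvOn (berLS K A[X]) f f' (ZF (upZ r Z0) F) := by
  induction F with
  | nil =>
    refine ⟨[], [], ?_, ?_, ?_, ?_⟩
    · intro x hx
      exact absurd hx List.not_mem_nil
    · intro β hβ
      exact absurd hβ List.not_mem_nil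
    · ext z
      constructor
      · rintro ⟨hz, -⟩
        exact ⟨⟨hz.1, fun x hx => absurd hx List.not_mem_nil⟩, hz.2,
          fun β hβ => absurd hβ List.not_mem_nil⟩
      · rintro ⟨⟨hz, -⟩, hz2, -⟩
        exact ⟨⟨hz, hz2⟩, fun x hx => absurd hx List.not_mem_nil⟩
    · rintro f ((hf | ⟨g, (hg | ⟨x, hx, -⟩), rfl⟩) | ⟨β, hβ, -⟩)
      · refine ⟨f, Or.inl (Or.inl hf), red_refl fun z hz => ?_⟩
        rw [Set.mem_singleton_iff.1 hf, hz.1.2]
        exact hr.ne'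
      · refine ⟨C g, Or.inl (Or.inr ⟨g, hg, rfl⟩), red_refl fun z hz => ?_⟩
        rw [← prM_v]
        exact hN.dom g hg _ hz.1.1
      · exact absurd hx List.not_mem_nil
      · exact absurd hβ List.not_mem_nil
  | cons x F ih =>
    obtain ⟨f, s⟩ := x
    obtain ⟨F', Bs, hF', hBs, hZ, hS⟩ := ih fun x hx => hF x (List.mem_cons_of_mem _ hx)
    obtain ⟨hs, hf⟩ := hF (f, s) List.mem_cons_self
    have hsub : ZF (upZ r Z0) ((f, s) :: F) ⊆ ZF (upZ r Z0) F := fun z hz =>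
      ⟨hz.1, fun x hx => hz.2 x (List.mem_cons_of_mem _ hx)⟩
    have hsub2 : ZF (upZ r Z0) ((f, s) :: F) ⊆ {z | z ∈ upZ r Z0 ∧ z.v f = s} := fun z hz =>
      ⟨hz.1, hz.2 (f, s) List.mem_cons_self⟩
    have hmem : ∀ g ∈ SFn (upS S0) F, g ∈ SFn (upS S0) ((f, s) :: F) := by
      rintro g (hg | ⟨x, hx, hxg⟩)
      · exact Or.inl hg
      · exact Or.inr ⟨x, List.mem_cons_of_mem _ hx, hxg⟩
    have hmemf : f ∈ SFn (upS S0) ((f, s) :: F) := Or.inr ⟨(f, s), List.mem_cons_self, rfl⟩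
    have hold : ∀ g ∈ SX S0 F' Bs, ∃ f' ∈ SFn (upS S0) ((f, s) :: F),
        EqvOn (berLS K A[X]) g f' (ZF (upZ r Z0) ((f, s) :: F)) := by
      intro g hg
      obtain ⟨f', hf', he⟩ := hS g hg
      exact ⟨f', hmem f' hf', red_mono he hsub⟩
    rcases red_one hr hN hs hf with ⟨γ, hγ, hiff, heqv⟩ | ⟨β, hβ, hiff, heqv⟩
    · refine ⟨(γ, s) :: F', Bs, ?_, hBs, ?_, ?_⟩
      · intro x hx
        rcases List.mem_cons.1 hx with rfl | hx
        · exact ⟨hs, hγ⟩
        · exact hF' x hx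
      · ext z
        constructor
        · intro hz
          have h1 : z ∈ ZX r Z0 F' Bs := hZ ▸ hsub hz
          have h2 : z.v (C γ) = s := (hiff z hz.1).1 (hz.2 (f, s) List.mem_cons_self)
          refine ⟨⟨h1.1.1, ?_⟩, h1.2⟩
          intro x hx
          rcases List.mem_cons.1 hx with rfl | hx
          · exact h2
          · exact h1.1.2 x hx
        · intro hz
          have h1 : z ∈ ZX r Z0 F' Bs :=
            ⟨⟨hz.1.1, fun x hx => hz.1.2 x (List.mem_cons_of_mem _ hx)⟩, hz.2⟩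
          have h2 : z.v (C γ) = s := hz.1.2 (γ, s) List.mem_cons_self
          rw [← hZ] at h1
          refine ⟨h1.1, ?_⟩
          intro x hx
          rcases List.mem_cons.1 hx with rfl | hx
          · exact (hiff z h1.1).2 h2
          · exact h1.2 x hx
      · rintro g ((hg | ⟨g', (hg' | ⟨x, hx, hxg⟩), rfl⟩) | hg)
        · exact hold g (Or.inl (Or.inl hg))
        · exact hold _ (Or.inl (Or.inr ⟨g', Or.inl hg', rfl⟩))
        · rcases List.mem_cons.1 hx with rfl | hx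
          · subst hxg
            exact ⟨f, hmemf, red_mono heqv hsub2⟩
          · exact hold _ (Or.inl (Or.inr ⟨g', Or.inr ⟨x, hx, hxg⟩, rfl⟩))
        · exact hold g (Or.inr hg)
    · refine ⟨F', β :: Bs, hF', ?_, ?_, ?_⟩
      · intro x hx
        rcases List.mem_cons.1 hx with rfl | hx
        · exact hβ
        · exact hBs x hx
      · ext z
        constructor
        · intro hz
          have h1 : z ∈ ZX r Z0 F' Bs := hZ ▸ hsub hz
          have h2 : z.v (X - C β) = r := (hiff z hz.1).1 (hz.2 (f, s) List.mem_cons_self)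
          refine ⟨h1.1, h1.2.1, ?_⟩
          intro x hx
          rcases List.mem_cons.1 hx with rfl | hx
          · exact h2
          · exact h1.2.2 x hx
        · intro hz
          have h1 : z ∈ ZX r Z0 F' Bs :=
            ⟨hz.1, hz.2.1, fun x hx => hz.2.2 x (List.mem_cons_of_mem _ hx)⟩
          have h2 : z.v (X - C β) = r := hz.2.2 β List.mem_cons_self
          rw [← hZ] at h1
          refine ⟨h1.1, ?_⟩
          intro x hx
          rcases List.mem_cons.1 hx with rfl | hx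
          · exact (hiff z h1.1).2 h2
          · exact h1.2 x hx
      · rintro g (hg | ⟨β', hβ', rfl⟩)
        · exact hold g (Or.inl hg)
        · rcases List.mem_cons.1 hβ' with rfl | hβ'
          · exact ⟨f, hmemf, red_mono heqv hsub2⟩
          · exact hold _ (Or.inr ⟨β', hβ', rfl⟩)

end

end Pool.Agent.TD


end

section

/-! Section AR: the step from `A` to `A[X]`. -/

open scoped ContDiff Topology
open Polynomial

namespace Pool.Agent.TD

theorem ArrB.step {K A : Type} [NormedField K] [IsUltrametricDist K] [CommRing A] [Algebra K A]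
    {r : ℝ} {Z0 : Set (Ber K A)} {S0 : Set A} {N : ℝ → Set A} (gA : Good K A)
    (gX : Good K A[X]) (hU : ∀ r, 0 < r → CircU K A r) (hr : 0 < r) (hN : ArrB K Z0 S0 N) :
    ArrB K (upZ r Z0) (upS S0) (upN K r N) where
  toNOk := up_nok hr hN.toNOk
  ex F hF := by
    obtain ⟨F', Bs, h1, h2, h3, -⟩ := red_list hr hN.toNOk hF
    rw [h3]
    exact zx_ex gA gX hU hr hN h1 Bs h2
  cst F hF := by
    obtain ⟨F', Bs, h1, h2, h3, h4⟩ := red_list hr hN.toNOk hF
    intro p c hc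
    have h5 := zx_cs gA gX hU hr hN h1 Bs h2
    rw [← h3] at h5
    exact (h5 p c hc).subst h4

end Pool.Agent.TD


end

section

/-! Section AR: the case of a point. -/

open scoped ContDiff Topology

namespace Pool.Agent.TD

theorem arrB_self (K : Type) [NormedField K] [IsUltrametricDist K] (hG : Good K K) :
    ArrB K (Set.univ : Set (Ber K K)) (∅ : Set K) (fun s => {γ : K | ‖γ‖ ≤ s}) := by
  have hlc := hG.lc
  refine ⟨⟨?_, ?_, ?_, ?_, ?_⟩, ?_, ?_⟩
  · exact Set.Subsingleton.isCompact fun z _ w _ => ber_self_eq K z w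
  · intro f hf
    exact absurd hf (Set.notMem_empty f)
  · intro s γ h γ' h'
    show ‖γ - γ'‖ ≤ s
    rw [sub_eq_add_neg]
    refine (IsUltrametricDist.norm_add_le_max γ (-γ')).trans (max_le h ?_)
    rw [norm_neg]
    exact h'
  · intro s γ h a _
    show ‖a • γ‖ ≤ ‖a‖ * s
    rw [norm_smul]
    exact mul_le_mul_of_nonneg_left h (norm_nonneg a)
  · intro s γ h y _
    exact (y.ext γ).trans_le h
  · intro F _ p q c hc
    by_cases hne : (ZF (Set.univ : Set (Ber K K)) F).Nonempty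
    · obtain ⟨z, hz⟩ := hne
      obtain ⟨e, he⟩ := (berLS K K).poincare (hG.star z) (c.1 z) (hc z hz)
      obtain ⟨θ, h, rfl⟩ := (berLS K K).exists_germ e
      obtain ⟨c0, hc0⟩ := (berLS K K).extend_germ hG.cut h
      obtain ⟨h', e'⟩ := hc0.self_of_nhds
      refine ⟨c0, fun z' _ => ?_⟩
      obtain rfl := ber_self_eq K z' z
      rw [e']
      exact he.symm
    · exact ⟨0, fun z hz => absurd ⟨z, hz⟩ hne⟩
  · intro F _ p c hc
    by_cases hne : (ZF (Set.univ : Set (Ber K K)) F).Nonempty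
    · obtain ⟨z, hz⟩ := hne
      have h1 := (berLS K K).poincare0 (hG.star z) (c.1 z) (hc z hz)
      cases p with
      | zero =>
        rw [(berLS K K).Lp_zero] at h1
        obtain ⟨a, ha⟩ := Submodule.mem_span_singleton.1 h1
        refine ⟨0, Fin.elim0, a • one0, fun i => i.elim0, fun _ _ _ _ => rfl,
          (isSF_one0 _).smul a, fun z' _ => ?_⟩
        obtain rfl := ber_self_eq K z' z
        have h2 : (berLS K K).SFat z' (a • (one0 : Raw K 0 0)) :=
          LogSpace.SFat.smul a ⟨∅, isSF_one0 ∅, by simp⟩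
        refine ⟨h2, ?_⟩
        rw [← ha]
        exact ((berLS K K).germ_smul a _).symm
      | succ p =>
        have h2 : c.1 z = 0 := by
          rw [(berLS K K).Lp_succ] at h1
          have h3 : Submodule.span ℝ {x | ∃ f, ∃ h : z ∈ (berLS K K).dom f,
              ∃ c ∈ (berLS K K).Lp p z, x = (berLS K K).wdS p 0 z ((berLS K K).dlS f h) c} ≤ ⊥ := by
            rw [Submodule.span_le]
            rintro x ⟨f, h, c, -, rfl⟩
            rw [fz_dlS, map_zero, LinearMap.zero_apply]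
            exact Submodule.zero_mem _
          exact (Submodule.mem_bot ℝ).1 (h3 h1)
        refine ⟨0, Fin.elim0, 0, fun i => i.elim0, fun _ _ _ _ => rfl, IsSF.zero _,
          fun z' _ => ?_⟩
        obtain rfl := ber_self_eq K z' z
        refine ⟨LogSpace.SFat.zero _, ?_⟩
        rw [h2, ← (berLS K K).germ_zero]
        rfl
    · exact ⟨0, Fin.elim0, 0, fun i => i.elim0, fun _ _ _ _ => rfl, IsSF.zero _,
        fun z hz => absurd ⟨z, hz⟩ hne⟩

end Pool.Agent.TD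


end

section

/-! Section AR: transport along isomorphisms. -/

open scoped ContDiff Topology

namespace Pool.Agent.TD

/-- The conditions transported by the inverse of an isomorphism. -/
def isoF {K B B' : Type} [NormedField K] [CommRing B] [Algebra K B] [CommRing B']
    [Algebra K B'] (e : B ≃ₐ[K] B') (F : List (B' × ℝ)) : List (B × ℝ) :=
  F.map (fun x => (e.symm x.1, x.2))

theorem isoF_FOk {K B B' : Type} [NormedField K] [CommRing B] [Algebra K B] [CommRing B']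
    [Algebra K B'] {N : ℝ → Set B} (e : B ≃ₐ[K] B') {F : List (B' × ℝ)}
    (hF : FOk (fun s => e '' N s) F) : FOk N (isoF e F) := by
  intro x hx
  obtain ⟨y, hy, rfl⟩ := List.mem_map.1 hx
  obtain ⟨h1, γ, hγ, h2⟩ := hF y hy
  refine ⟨h1, ?_⟩
  show e.symm y.1 ∈ N y.2
  rw [← h2, e.symm_apply_apply]
  exact hγ

theorem isoF_ZF {K B B' : Type} [NormedField K] [CommRing B] [Algebra K B] [CommRing B']
    [Algebra K B'] (e : B ≃ₐ[K] B') (Z0 : Set (Ber K B)) (F : List (B' × ℝ)) :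
    ZF ((berM (e : B →ₐ[K] B')).toFun ⁻¹' Z0) F =
      (berM (e : B →ₐ[K] B')).toFun ⁻¹' ZF Z0 (isoF e F) := by
  ext z
  constructor
  · rintro ⟨h1, h2⟩
    refine ⟨h1, ?_⟩
    intro x hx
    obtain ⟨y, hy, rfl⟩ := List.mem_map.1 hx
    show z.v (e (e.symm y.1)) = y.2
    rw [e.apply_symm_apply]
    exact h2 y hy
  · rintro ⟨h1, h2⟩
    refine ⟨h1, ?_⟩
    intro y hy
    have h3 : z.v (e (e.symm y.1)) = y.2 := h2 (e.symm y.1, y.2) (List.mem_map.2 ⟨y, hy, rfl⟩)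
    rw [e.apply_symm_apply] at h3
    exact h3

theorem isoF_SFn {K B B' : Type} [NormedField K] [CommRing B] [Algebra K B] [CommRing B']
    [Algebra K B'] (e : B ≃ₐ[K] B') (S0 : Set B) (F : List (B' × ℝ)) :
    (berM (e : B →ₐ[K] B')).ix '' SFn S0 (isoF e F) ⊆ SFn (e '' S0) F := by
  rintro _ ⟨f, hf, rfl⟩
  rcases hf with hf | ⟨x, hx, rfl⟩
  · exact Or.inl ⟨f, hf, rfl⟩
  · obtain ⟨y, hy, rfl⟩ := List.mem_map.1 hx
    refine Or.inr ⟨y, hy, ?_⟩
    exact (e.apply_symm_apply y.1).symm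

theorem iso_ClOn {K B B' : Type} [NormedField K] [CommRing B] [Algebra K B] [CommRing B']
    [Algebra K B'] (e : B ≃ₐ[K] B') {p q : ℕ} {c : (berLS K B').G p q} {Z : Set (Ber K B)}
    (hc : ClOn (berLS K B') c ((berM (e : B →ₐ[K] B')).toFun ⁻¹' Z)) :
    ClOn (berLS K B) ((berM (e.symm : B' →ₐ[K] B)).pullG p q c) Z := by
  have h1 := ClOn.pull (berM (e.symm : B' →ₐ[K] B)) hc
  intro y hy
  refine h1 y ?_
  show (berM (e : B →ₐ[K] B')).toFun ((berM (e.symm : B' →ₐ[K] B)).toFun y) ∈ Z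
  have h2 : (berM (e : B →ₐ[K] B')).toFun ((berM (e.symm : B' →ₐ[K] B)).toFun y) = y :=
    berM_inv_toFun e.symm y
  rw [h2]
  exact hy

theorem ArrB.iso {K B B' : Type} [NormedField K] [CommRing B] [Algebra K B] [CommRing B']
    [Algebra K B'] {Z0 : Set (Ber K B)} {S0 : Set B} {N : ℝ → Set B} (h : ArrB K Z0 S0 N)
    (e : B ≃ₐ[K] B') :
    ArrB K ((berM (e : B →ₐ[K] B')).toFun ⁻¹' Z0) (e '' S0) (fun s => e '' N s) := by
  refine ⟨⟨?_, ?_, ?_, ?_, ?_⟩, ?_, ?_⟩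
  · exact ((berM_homeo e).homeomorph.isCompact_preimage).2 h.compact
  · rintro _ ⟨f, hf, rfl⟩ y hy
    exact h.dom f hf _ hy
  · rintro s _ ⟨γ, hγ, rfl⟩ _ ⟨γ', hγ', rfl⟩
    exact ⟨γ - γ', h.sub s γ hγ γ' hγ', map_sub e γ γ'⟩
  · rintro s _ ⟨γ, hγ, rfl⟩ a ha
    exact ⟨a • γ, h.smul s γ hγ a ha, map_smul e a γ⟩
  · rintro s _ ⟨γ, hγ, rfl⟩ y hy
    exact h.bound s γ hγ _ hy
  · intro F hF p q c hc
    rw [isoF_ZF] at hc ⊢
    obtain ⟨f, hf⟩ := h.ex (isoF e F) (isoF_FOk e hF) p q _ (iso_ClOn e hc)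
    refine ⟨(berM (e : B →ₐ[K] B')).pullG p q f, ?_⟩
    intro z hz
    have h1 := hf _ hz
    have h2 : c.1 z = (berM (e : B →ₐ[K] B')).pullS p (q + 1) z
        (((berM (e.symm : B' →ₐ[K] B)).pullG p (q + 1) c).1
          ((berM (e : B →ₐ[K] B')).toFun z)) := by
      rw [← Mor.pullG_val, berM_pull_inv]
    rw [h2, h1, Mor.pullG_val]
    exact (berM (e : B →ₐ[K] B')).pullS_ddS (z := z) (f.1 ((berM (e : B →ₐ[K] B')).toFun z))
  · intro F hF p c hc
    rw [isoF_ZF] at hc ⊢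
    have h1 := h.cst (isoF e F) (isoF_FOk e hF) p _ (iso_ClOn e hc)
    have h2 := CstOn.pull (berM (e : B →ₐ[K] B')) h1
    rw [berM_pull_inv] at h2
    exact h2.mono (isoF_SFn e S0 F) (le_refl _)

end Pool.Agent.TD


end

section

/-!
# The logarithmic space of a smooth tropicalization is locally star-shaped
-/

open scoped ContDiff Topology

namespace Pool.Agent.TD

theorem bergM_mul {E : Type} {M : Matroid E} {y : E → ℝ} (hy : BergM M y) {s : ℝ}
    (hs : 0 ≤ s) : BergM M (fun e => s * y e) := by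
  intro C hC e he
  obtain ⟨f, hf, hfe, h⟩ := hy C hC e he
  exact ⟨f, hf, hfe, mul_le_mul_of_nonneg_left h hs⟩

/-- The Bergman fan is locally star-shaped. -/
theorem bergM_seg {E : Type} [Finite E] {M : Matroid E} (hE : M.E = Set.univ)
    (hl : ∀ e, M.Indep {e}) {v : E → ℝ} (hv : BergM M v) : ∃ δ : ℝ, 0 < δ ∧ ∀ y : E → ℝ,
      (∀ e, |y e - v e| < δ) → BergM M y → ∀ s t : ℝ, 0 ≤ s → 0 ≤ t → s + t = 1 →
        BergM M (fun e => s * v e + t * y e) := by
  obtain ⟨M', -, -, δ, hδ, h⟩ := exists_star hE hl hv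
  refine ⟨δ, hδ, fun y hy hyM s t hs ht hst => ?_⟩
  have h1 : BergM M' (fun e => y e - v e) := by
    rw [← h _ hy]
    have e1 : v + (fun e => y e - v e) = y := by
      funext e
      simp
    rw [e1]
    exact hyM
  have h2 := bergM_mul h1 ht
  have ht1 : t ≤ 1 := by linarith
  have h3 : ∀ e, |t * (y e - v e)| < δ := by
    intro e
    rw [abs_mul, abs_of_nonneg ht]
    exact lt_of_le_of_lt (mul_le_of_le_one_left (abs_nonneg _) ht1) (hy e)
  have h4 := (h _ h3).2 h2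
  have e2 : (fun e => s * v e + t * y e) = v + fun e => t * (y e - v e) := by
    funext e
    have : s = 1 - t := by linarith
    rw [this, Pi.add_apply]
    ring
  rw [e2]
  exact h4

namespace TChart

variable {n : ℕ} {F : Fan n} {S : Set (TropPt F)} {C : TChart F}

theorem starAt (hC : C.Ok S) {w : TropPt F} (hw : w ∈ S) (hwU : w ∈ C.U) :
    ((tropLS F).restr S).StarAt ⟨w, hw⟩ := by
  classical
  intro u hu V hV
  have hu' : ∀ m ∈ u, m ∈ perpM w.cone.1 := hu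
  have hwSU : w ∈ S ∩ C.U := ⟨hw, hwU⟩
  -- the neighbourhood
  have key : ∀ p : TropPt F → Prop, (∀ᶠ b in 𝓝[S] w, p b) ↔ ∀ᶠ b : S in 𝓝 ⟨w, hw⟩, p b := by
    intro p
    rw [nhdsWithin_eq_map_subtype_coe hw, Filter.eventually_map]
  have hV' : ∀ᶠ b in 𝓝[S] w, ∃ h : b ∈ S, (⟨b, h⟩ : S) ∈ V := by
    rw [key]
    exact Filter.mem_of_superset hV fun b hb => ⟨b.2, hb⟩
  have hgen : ∀ m : u, ∃ (a : Fin C.k → ℤ) (c : Fin (C.r + 1) → ℤ) (d : ℝ),
      (∀ i, (C.f w).1 i = 0 → a i = 0) ∧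
    ∀ᶠ b' in 𝓝[S] w,
      lgT m.1 b' = d + ∑ i, a i * Real.log ((C.f b').1 i) + ∑ e, c e * (C.f b').2 e := fun m =>
    hC.gen w hwSU m.1 (hu' m.1 m.2)
  choose a c d ha hform using hgen
  have hform' : ∀ᶠ b' in 𝓝[S] w, ∀ m : u, lgT m.1 b' = d m +
      ∑ i, a m i * Real.log ((C.f b').1 i) + ∑ e, c m e * (C.f b').2 e :=
    Filter.eventually_all.2 hform
  have hdom : ∀ᶠ b' in 𝓝[S] w, ∀ m ∈ u, m ∈ perpM b'.cone.1 := by
    rw [Filter.eventually_all_finset]
    intro m hm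
    exact mem_nhdsWithin_of_mem_nhds (((tropLS F).isOpen_dom m).mem_nhds (hu' m hm))
  obtain ⟨hx0, hvM, hv0⟩ : C.f w ∈ TMod C.k C.r C.M := (hC.homeo.mapf w hwSU).1
  have hwV : C.f w ∈ C.V := (hC.homeo.mapf w hwSU).2
  have hIm : C.Im ∈ 𝓝[TMod C.k C.r C.M] (C.f w) :=
    Filter.inter_mem self_mem_nhdsWithin
      (mem_nhdsWithin_of_mem_nhds (hC.homeo.openV.mem_nhds hwV))
  have hgw : C.g (C.f w) = w := hC.homeo.gf w hwSU
  have hgt : Filter.Tendsto C.g (𝓝[TMod C.k C.r C.M] (C.f w)) (𝓝[S] w) := by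
    have h1 : ContinuousWithinAt C.g C.Im (C.f w) := hC.homeo.contg _ (hC.homeo.mapf w hwSU)
    have h2 : Filter.Tendsto C.g (𝓝[C.Im] (C.f w)) (𝓝[S] w) := by
      refine tendsto_nhdsWithin_iff.2 ⟨?_, ?_⟩
      · have h3 : Filter.Tendsto C.g (𝓝[C.Im] (C.f w)) (𝓝 (C.g (C.f w))) := h1
        rwa [hgw] at h3
      · filter_upwards [self_mem_nhdsWithin] with v hv
        exact (hC.homeo.mapg v hv).1
    refine h2.mono_left ?_
    exact nhdsWithin_le_of_mem hIm
  -- a box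
  obtain ⟨δ1, hδ1, hseg⟩ := bergM_seg hC.ground hC.loopless hvM
  have hall := hgt.eventually (hV'.and (hform'.and hdom))
  have hboth : ∀ᶠ p in 𝓝[TMod C.k C.r C.M] (C.f w), p ∈ C.Im ∧
      (∃ h : C.g p ∈ S, (⟨C.g p, h⟩ : S) ∈ V) ∧ (∀ m : u, lgT m.1 (C.g p) = d m +
      ∑ i, a m i * Real.log ((C.f (C.g p)).1 i) + ∑ e, c m e * (C.f (C.g p)).2 e) ∧
      ∀ m ∈ u, m ∈ perpM (C.g p).cone.1 := by
    filter_upwards [hIm, hall] with p h1 h2
    exact ⟨h1, h2.1, h2.2.1, h2.2.2⟩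
  obtain ⟨O, hO, hwO, hOs⟩ := mem_nhdsWithin.1 hboth
  obtain ⟨η, hη, hball⟩ := Metric.isOpen_iff.1 hO _ hwO
  obtain ⟨ε, hε, hεδ, hεη, hexp⟩ : ∃ ε : ℝ, 0 < ε ∧ ε < δ1 ∧ ε < η ∧ ∀ i : Fin C.k, ∀ x : ℝ,
      |x - Real.log ((C.f w).1 i)| < ε →
        |Real.exp x - Real.exp (Real.log ((C.f w).1 i))| < η := by
    have h2 : ∀ᶠ ε in 𝓝[>] (0 : ℝ), ∀ i : Fin C.k, ∀ x : ℝ,
        |x - Real.log ((C.f w).1 i)| < ε →
          |Real.exp x - Real.exp (Real.log ((C.f w).1 i))| < η := by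
      rw [Filter.eventually_all]
      intro i
      obtain ⟨η', hη', h3⟩ := Metric.continuousAt_iff.1
        (Real.continuous_exp.continuousAt (x := Real.log ((C.f w).1 i))) η hη
      refine Filter.mem_of_superset (Ioo_mem_nhdsGT hη') ?_
      intro ε hε x hx
      have h4 := h3 (x := x) (by rw [Real.dist_eq]; exact hx.trans hε.2)
      rwa [Real.dist_eq] at h4
    have h5 : ∀ᶠ ε in 𝓝[>] (0 : ℝ), ε ∈ Set.Ioo 0 (min δ1 η) :=
      Ioo_mem_nhdsGT (lt_min hδ1 hη)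
    obtain ⟨ε, h2, h5⟩ := (h2.and h5).exists
    exact ⟨ε, h5.1, lt_of_lt_of_le h5.2 (min_le_left _ _), lt_of_lt_of_le h5.2 (min_le_right _ _),
      h2⟩
  set B : Set (TSp C.k C.r) := {p | (∀ i, (C.f w).1 i = 0 → p.1 i < ε) ∧
    (∀ i, (C.f w).1 i ≠ 0 → 0 < p.1 i ∧ |Real.log (p.1 i) - Real.log ((C.f w).1 i)| < ε) ∧
    ∀ e, |p.2 e - (C.f w).2 e| < ε} with hBdef
  have hBO : ∀ p ∈ B, p ∈ TMod C.k C.r C.M → p ∈ O := by
    rintro p ⟨hp1, hp2, hp3⟩ hpM
    apply hball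
    rw [Metric.mem_ball, Prod.dist_eq, max_lt_iff, dist_pi_lt_iff hη, dist_pi_lt_iff hη]
    refine ⟨fun i => ?_, fun e => ?_⟩
    · rw [Real.dist_eq]
      by_cases hi : (C.f w).1 i = 0
      · rw [hi, sub_zero, abs_of_nonneg (hpM.1 i)]
        exact (hp1 i hi).trans hεη
      · have h1 := hexp i (Real.log (p.1 i)) (hp2 i hi).2
        have h2 : 0 < (C.f w).1 i := lt_of_le_of_ne (hx0 i) (Ne.symm hi)
        rwa [Real.exp_log (hp2 i hi).1, Real.exp_log h2] at h1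
    · rw [Real.dist_eq]
      exact (hp3 e).trans hεη
  have hB : B ∈ 𝓝 (C.f w) := by
    have hc1 : ∀ i, Continuous fun q : TSp C.k C.r => q.1 i := fun i =>
      (continuous_apply _).comp continuous_fst
    have hc2 : ∀ e, Continuous fun q : TSp C.k C.r => q.2 e := fun e =>
      (continuous_apply _).comp continuous_snd
    have h1 : ∀ᶠ p : TSp C.k C.r in 𝓝 (C.f w), ∀ i, (C.f w).1 i = 0 → p.1 i < ε := by
      rw [Filter.eventually_all]
      intro i
      by_cases hi : (C.f w).1 i = 0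
      · have h2 := (hc1 i).tendsto (C.f w)
        simp only [hi] at h2
        exact (h2.eventually (gt_mem_nhds hε)).mono fun p hp _ => hp
      · exact Filter.Eventually.of_forall fun p h => absurd h hi
    have h2 : ∀ᶠ p : TSp C.k C.r in 𝓝 (C.f w), ∀ i, (C.f w).1 i ≠ 0 →
        0 < p.1 i ∧ |Real.log (p.1 i) - Real.log ((C.f w).1 i)| < ε := by
      rw [Filter.eventually_all]
      intro i
      by_cases hi : (C.f w).1 i = 0
      · exact Filter.Eventually.of_forall fun p h => absurd hi h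
      · have h2 : 0 < (C.f w).1 i := lt_of_le_of_ne (hx0 i) (Ne.symm hi)
        have h3 := (hc1 i).tendsto (C.f w)
        have h4 : ContinuousAt (fun q : TSp C.k C.r => Real.log (q.1 i)) (C.f w) :=
          (hc1 i).continuousAt.log hi
        have h5 := Metric.tendsto_nhds.1 h4.tendsto ε hε
        filter_upwards [h3.eventually (lt_mem_nhds h2), h5] with p k1 k2 _
        rw [Real.dist_eq] at k2
        exact ⟨k1, k2⟩
    have h3 : ∀ᶠ p : TSp C.k C.r in 𝓝 (C.f w), ∀ e, |p.2 e - (C.f w).2 e| < ε := by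
      rw [Filter.eventually_all]
      intro e
      have h5 := Metric.tendsto_nhds.1 ((hc2 e).tendsto (C.f w)) ε hε
      filter_upwards [h5] with p k2
      rwa [Real.dist_eq] at k2
    filter_upwards [h1, h2, h3] with p k1 k2 k3
    exact ⟨k1, k2, k3⟩
  -- the neighbourhood
  set V' : Set S := {b | b.1 ∈ C.U ∧ C.f b.1 ∈ B} with hV'def
  have hV'm : V' ∈ 𝓝 (⟨w, hw⟩ : S) := by
    have h1 : ∀ᶠ b in 𝓝[S] w, b ∈ C.U ∧ C.f b ∈ B := by
      have h2 : Filter.Tendsto C.f (𝓝[S ∩ C.U] w) (𝓝 (C.f w)) := hC.homeo.contf w hwSU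
      have h3 : S ∩ C.U ∈ 𝓝[S] w := Filter.inter_mem self_mem_nhdsWithin
        (mem_nhdsWithin_of_mem_nhds (hC.homeo.openU.mem_nhds hwU))
      have h4 : 𝓝[S] w ≤ 𝓝[S ∩ C.U] w := nhdsWithin_le_of_mem h3
      filter_upwards [h4 (h2 hB), h3] with b k1 k2
      exact ⟨k2.2, k1⟩
    exact (key _).1 h1
  have hgood : ∀ b ∈ V', C.f b.1 ∈ O ∩ TMod C.k C.r C.M := by
    rintro b ⟨hbU, hbB⟩
    have h1 := (hC.homeo.mapf b.1 ⟨b.2, hbU⟩).1
    exact ⟨hBO _ hbB h1, h1⟩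
  have hgf : ∀ b ∈ V', C.g (C.f b.1) = b.1 := fun b hb => hC.homeo.gf b.1 ⟨b.2, hb.1⟩
  have hwV' : (⟨w, hw⟩ : S) ∈ V' := mem_of_mem_nhds hV'm
  have hval : ∀ b ∈ V', ∀ m : u, ((tropLS F).restr S).trop u b m = d m +
      ∑ i, a m i * Real.log ((C.f b.1).1 i) + ∑ e, c m e * (C.f b.1).2 e := by
    intro b hb m
    have h1 := (hOs (hgood b hb)).2.2.1 m
    rw [hgf b hb] at h1
    exact h1
  refine ⟨V', hV'm, ?_, ?_, ?_⟩
  · intro b hb
    obtain ⟨h, h1⟩ := (hOs (hgood b hb)).2.1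
    have e : (⟨C.g (C.f b.1), h⟩ : S) = b := Subtype.ext (hgf b hb)
    rwa [e] at h1
  · intro m hm b hb
    have h1 := (hOs (hgood b hb)).2.2.2 m hm
    rw [hgf b hb] at h1
    exact h1
  · rintro _ ⟨b, hb, rfl⟩ s t hs ht hst
    have hbM := (hgood b hb).2
    obtain ⟨hb1, hb2, hb3⟩ := hb.2
    have hs1 : s = 1 - t := by linarith
    have ht1 : t ≤ 1 := by linarith
    let p : TSp C.k C.r := (fun i => if (C.f w).1 i = 0 then 0 else
        Real.exp (s * Real.log ((C.f w).1 i) + t * Real.log ((C.f b.1).1 i)),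
      fun e => s * (C.f w).2 e + t * (C.f b.1).2 e)
    have hpM : p ∈ TMod C.k C.r C.M := by
      refine ⟨fun i => ?_, ?_, ?_⟩
      · show 0 ≤ (if (C.f w).1 i = 0 then (0 : ℝ) else
          Real.exp (s * Real.log ((C.f w).1 i) + t * Real.log ((C.f b.1).1 i)))
        split_ifs
        · exact le_rfl
        · exact (Real.exp_pos _).le
      · exact hseg _ (fun e => (hb3 e).trans hεδ) hbM.2.1 s t hs ht hst
      · show s * (C.f w).2 0 + t * (C.f b.1).2 0 = 0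
        rw [hv0, hbM.2.2]
        ring
    have hp1 : ∀ i, (C.f w).1 i ≠ 0 → Real.log (p.1 i) =
        s * Real.log ((C.f w).1 i) + t * Real.log ((C.f b.1).1 i) := by
      intro i hi
      show Real.log (if (C.f w).1 i = 0 then (0 : ℝ) else
          Real.exp (s * Real.log ((C.f w).1 i) + t * Real.log ((C.f b.1).1 i))) = _
      rw [if_neg hi, Real.log_exp]
    have habs : ∀ x y : ℝ, |y - x| < ε → |s * x + t * y - x| < ε := by
      intro x y h
      have e : s * x + t * y - x = t * (y - x) := by rw [hs1]; ring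
      rw [e, abs_mul, abs_of_nonneg ht]
      exact lt_of_le_of_lt (mul_le_of_le_one_left (abs_nonneg _) ht1) h
    have hpB : p ∈ B := by
      refine ⟨fun i hi => ?_, fun i hi => ⟨?_, ?_⟩, fun e => ?_⟩
      · show (if (C.f w).1 i = 0 then (0 : ℝ) else
          Real.exp (s * Real.log ((C.f w).1 i) + t * Real.log ((C.f b.1).1 i))) < ε
        rw [if_pos hi]
        exact hε
      · show 0 < (if (C.f w).1 i = 0 then (0 : ℝ) else
          Real.exp (s * Real.log ((C.f w).1 i) + t * Real.log ((C.f b.1).1 i)))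
        rw [if_neg hi]
        exact Real.exp_pos _
      · rw [hp1 i hi]
        exact habs _ _ (hb2 i hi).2
      · exact habs _ _ (hb3 e)
    have hpO := hOs ⟨hBO p hpB hpM, hpM⟩
    have hgp := hC.homeo.mapg p hpO.1
    have hfg : C.f (C.g p) = p := hC.homeo.fg p hpO.1
    have hpV' : (⟨C.g p, hgp.1⟩ : S) ∈ V' := by
      refine ⟨hgp.2, ?_⟩
      show C.f (C.g p) ∈ B
      rw [hfg]
      exact hpB
    refine ⟨⟨C.g p, hgp.1⟩, hpV', ?_⟩
    funext m
    rw [Pi.add_apply, Pi.smul_apply, Pi.smul_apply, hval _ hpV' m, hval _ hb m, hval _ hwV' m]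
    show d m + ∑ i, a m i * Real.log ((C.f (C.g p)).1 i) + ∑ e, c m e * (C.f (C.g p)).2 e = _
    rw [hfg]
    have e1 : ∑ i, (a m i : ℝ) * Real.log (p.1 i) =
        s * ∑ i, (a m i : ℝ) * Real.log ((C.f w).1 i) +
          t * ∑ i, (a m i : ℝ) * Real.log ((C.f b.1).1 i) := by
      rw [Finset.mul_sum, Finset.mul_sum, ← Finset.sum_add_distrib]
      refine Finset.sum_congr rfl fun i _ => ?_
      by_cases hi : (C.f w).1 i = 0
      · rw [ha m i hi]
        simp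
      · rw [hp1 i hi]
        ring
    have e2 : ∑ e, (c m e : ℝ) * p.2 e =
        s * ∑ e, (c m e : ℝ) * (C.f w).2 e + t * ∑ e, (c m e : ℝ) * (C.f b.1).2 e := by
      rw [Finset.mul_sum, Finset.mul_sum, ← Finset.sum_add_distrib]
      refine Finset.sum_congr rfl fun e _ => ?_
      show (c m e : ℝ) * (s * (C.f w).2 e + t * (C.f b.1).2 e) = _
      ring
    rw [e1, e2, smul_eq_mul, smul_eq_mul]
    have e3 : d m = s * d m + t * d m := by rw [hs1]; ring
    linear_combination e3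

end TChart

/-- The forms on a smooth tropicalization: the space is locally star-shaped at every point. -/
theorem Toric.SmoothX.starAt {K : Type} [NormedField K] {X Y : AlgebraicGeometry.Scheme.{0}}
    {n : ℕ} {F : Fan n} {ι : Str K Y} {T : Toric F Y ι} {φ : X ⟶ Y} (h : T.SmoothX φ)
    (w : T.TropX φ) : (T.lsX φ).StarAt w := by
  obtain ⟨C, hwU, hC⟩ := h.chart w.1 w.2
  exact TChart.starAt hC w.2 hwU

end Pool.Agent.TD


end
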