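import Mathlib
import Pool.Agent.DolbM.C18

/-! Parts: TD.N.Lc, TD.N.Alg, TD.N.Rk, TD.N.Mp, TD.N.Ob, TD.N.Z1, TD.N.Dz, TD.N.Lin, TD.N.St, TD.X3.ArrFib -/

section

/-! Local data ND0: maximal Gauss families, local constancy (PAPER2.md, ND2; module
TD_N_LC). -/

open scoped Topology NNReal

namespace Pool.Agent.TD

namespace NLC

variable {K A σ : Type} [NormedField K] [CommRing A] [Algebra K A]

theorem sum_lt {ι : Type} (z : Ber K A) (s : Finset ι) (f : ι → A) {M : ℝ} (hM : 0 < M)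
    (h : ∀ i ∈ s, z.v (f i) < M) : z.v (∑ i ∈ s, f i) < M := by
  classical
  induction s using Finset.induction_on with
  | empty => simpa [z.zero] using hM
  | insert i s hi ih =>
    rw [Finset.sum_insert hi]
    exact (z.add _ _).trans_lt (max_lt (h i (Finset.mem_insert_self i s))
      (ih fun j hj => h j (Finset.mem_insert_of_mem hj)))

/-- A sum with a strictly dominant term. -/
theorem sum_dom {ι : Type} (z : Ber K A) (s : Finset ι) (f : ι → A) {i : ι} (hi : i ∈ s)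
    (h0 : 0 < z.v (f i)) (h : ∀ j ∈ s, j ≠ i → z.v (f j) < z.v (f i)) :
    z.v (∑ j ∈ s, f j) = z.v (f i) := by
  classical
  rw [← Finset.add_sum_erase s f hi]
  exact z.add_eq (sum_lt z _ _ h0 fun j hj =>
    h j (Finset.mem_of_mem_erase hj) (Finset.ne_of_mem_erase hj))

theorem v_monomial (a : σ → A) (ρ : σ → ℝ≥0) (z : Ber K A) (h : ∀ i, z.v (a i) = ρ i)
    (u : σ →₀ ℕ) (c : K) : z.v (MvPolynomial.aeval a (MvPolynomial.monomial u c)) =
      ((‖c‖₊ * u.prod fun i n => ρ i ^ n : ℝ≥0) : ℝ) := by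
  rw [MvPolynomial.aeval_monomial, z.mul, z.ext, Finsupp.prod, Ber.prod, Finsupp.prod]
  push_cast
  congr 1
  refine Finset.prod_congr rfl fun i _ => ?_
  rw [z.pow, h]

theorem v_le_gn (a : σ → A) (ρ : σ → ℝ≥0) (z : Ber K A) (h : ∀ i, z.v (a i) = ρ i)
    (P : MvPolynomial σ K) : z.v (MvPolynomial.aeval a P) ≤ gn ρ P := by
  conv_lhs => rw [P.as_sum]
  rw [map_sum]
  refine Ber.sum_le z _ _ (NNReal.coe_nonneg _) fun u hu => ?_
  rw [v_monomial a ρ z h]
  exact_mod_cast Finset.le_sup (f := fun u : σ →₀ ℕ => ‖P.coeff u‖₊ * u.prod fun i n => ρ i ^ n) hu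

theorem gn_option (ρ : σ → ℝ≥0) (γ : ℝ≥0) (P : MvPolynomial (Option σ) K) :
    gn (fun o : Option σ => o.elim γ ρ) P ≤ (MvPolynomial.optionEquivLeft K σ P).support.sup
      fun i => gn ρ ((MvPolynomial.optionEquivLeft K σ P).coeff i) * γ ^ i := by
  refine Finset.sup_le fun u hu => ?_
  set Q := MvPolynomial.optionEquivLeft K σ P with hQ
  have hc : MvPolynomial.coeff u.some (Q.coeff (u none)) = MvPolynomial.coeff u P :=
    MvPolynomial.optionEquivLeft_coeff_some_coeff_none K σ u P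
  have hne : MvPolynomial.coeff u.some (Q.coeff (u none)) ≠ 0 := by
    rw [hc]
    exact MvPolynomial.mem_support_iff.1 hu
  have hi : u none ∈ Q.support := by
    rw [Polynomial.mem_support_iff]
    intro h
    rw [h] at hne
    exact hne (MvPolynomial.coeff_zero _)
  refine le_trans ?_ (Finset.le_sup (f := fun i => gn ρ (Q.coeff i) * γ ^ i) hi)
  have h1 : ‖MvPolynomial.coeff u.some (Q.coeff (u none))‖₊ *
      (u.some.prod fun i n => ρ i ^ n) ≤ gn ρ (Q.coeff (u none)) :=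
    Finset.le_sup (f := fun v : σ →₀ ℕ => ‖(Q.coeff (u none)).coeff v‖₊ *
      v.prod fun i n => ρ i ^ n) (MvPolynomial.mem_support_iff.2 hne)
  have h2 : (u.prod fun o n => (o.elim γ ρ) ^ n) =
      γ ^ (u none) * u.some.prod (fun i n => ρ i ^ n) :=
    Finsupp.prod_option_index u (fun o n => (o.elim γ ρ) ^ n) (fun o => pow_zero _)
      (fun o m n => pow_add _ _ _)
  rw [h2, ← hc]
  calc ‖MvPolynomial.coeff u.some (Q.coeff (u none))‖₊ *
        (γ ^ (u none) * u.some.prod (fun i n => ρ i ^ n))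
      = ‖MvPolynomial.coeff u.some (Q.coeff (u none))‖₊ *
        (u.some.prod (fun i n => ρ i ^ n)) * γ ^ (u none) := by ring
    _ ≤ gn ρ (Q.coeff (u none)) * γ ^ (u none) := by gcongr

theorem aeval_option (a : σ → A) (b : A) (P : MvPolynomial (Option σ) K) :
    MvPolynomial.aeval (fun o : Option σ => o.elim b a) P =
      ∑ i ∈ (MvPolynomial.optionEquivLeft K σ P).support,
        MvPolynomial.aeval a ((MvPolynomial.optionEquivLeft K σ P).coeff i) * b ^ i := by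
  have h : MvPolynomial.aeval (fun o : Option σ => o.elim b a) P =
      Polynomial.eval₂ (MvPolynomial.aeval a : MvPolynomial σ K →ₐ[K] A).toRingHom b
        (MvPolynomial.optionEquivLeft K σ P) := by
    induction P using MvPolynomial.induction_on with
    | C c =>
      rw [MvPolynomial.optionEquivLeft_C, Polynomial.eval₂_C, MvPolynomial.aeval_C]
      exact (MvPolynomial.aeval_C a c).symm
    | add p q hp hq => rw [map_add, map_add, Polynomial.eval₂_add, hp, hq]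
    | mul_X p o hp =>
      rw [map_mul, map_mul, Polynomial.eval₂_mul, hp, MvPolynomial.aeval_X]
      congr 1
      rcases o with _ | i
      · rw [MvPolynomial.optionEquivLeft_X_none, Polynomial.eval₂_X]
        rfl
      · rw [MvPolynomial.optionEquivLeft_X_some, Polynomial.eval₂_C]
        exact (MvPolynomial.aeval_X a i).symm
  rw [h, Polynomial.eval₂_eq_sum, Polynomial.sum]
  rfl

/-- The local statement: at a point where the family with `b` added is not Gauss, the value of `b`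
is locally constant on the fibre. -/
theorem core (a : σ → A) (b : A) (ρ : σ → ℝ≥0) (γ : ℝ≥0) (hγ : 0 < γ) (z2 : Ber K A)
    (ha : GaussAt a ρ z2) (hb : z2.v b = γ)
    (hn : ¬ GaussAt (fun o : Option σ => o.elim b a) (fun o : Option σ => o.elim γ ρ) z2) :
    ∃ W : Set (Ber K A), IsOpen W ∧ z2 ∈ W ∧ ∀ z' ∈ W, GaussAt a ρ z' → z'.v b = γ := by
  classical
  unfold GaussAt at hn
  push Not at hn
  obtain ⟨P, hP⟩ := hn
  have hle : z2.v (MvPolynomial.aeval (fun o : Option σ => o.elim b a) P) ≤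
      gn (fun o : Option σ => o.elim γ ρ) P := by
    refine v_le_gn _ _ z2 ?_ P
    rintro (_ | i)
    · exact hb
    · exact ha.v_eq i
  have hlt := lt_of_le_of_ne hle hP
  set Q := MvPolynomial.optionEquivLeft K σ P with hQ
  obtain ⟨N, hN⟩ : ∃ N : ℝ≥0, N = Q.support.sup fun i => gn ρ (Q.coeff i) * γ ^ i := ⟨_, rfl⟩
  have hltN : z2.v (MvPolynomial.aeval (fun o : Option σ => o.elim b a) P) < N := by
    refine hlt.trans_le ?_
    rw [hN]
    exact_mod_cast gn_option ρ γ P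
  have hN0 : 0 < (N : ℝ) := (z2.nonneg _).trans_lt hltN
  have hle2 : ∀ i ∈ Q.support, gn ρ (Q.coeff i) * γ ^ i ≤ N := by
    intro i hi
    rw [hN]
    exact Finset.le_sup (f := fun i => gn ρ (Q.coeff i) * γ ^ i) hi
  set S := Q.support.filter fun i => gn ρ (Q.coeff i) * γ ^ i = N with hSd
  obtain ⟨g, hg⟩ : ∃ g : ℕ → A, g = fun i => MvPolynomial.aeval a (Q.coeff i) * b ^ i := ⟨_, rfl⟩
  have hterm : ∀ z' : Ber K A, GaussAt a ρ z' → ∀ i,
      z'.v (g i) = gn ρ (Q.coeff i) * z'.v b ^ i := by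
    intro z' hz' i
    rw [hg]
    show z'.v (_ * _) = _
    rw [z'.mul, hz', z'.pow]
  have hS : z2.v (∑ i ∈ S, g i) < N := by
    have h1 : ∑ i ∈ S, g i = ∑ i ∈ Q.support, g i -
        ∑ i ∈ Q.support.filter (fun i => ¬ gn ρ (Q.coeff i) * γ ^ i = N), g i := by
      rw [eq_sub_iff_add_eq, Finset.sum_filter_add_sum_filter_not]
    rw [h1]
    refine (z2.sub _ _).trans_lt (max_lt ?_ (sum_lt z2 _ _ hN0 fun i hi => ?_))
    · have h2 := aeval_option a b P
      rw [hg, ← h2]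
      exact hltN
    · rw [Finset.mem_filter] at hi
      rw [hterm z2 ha, hb]
      exact_mod_cast lt_of_le_of_ne (hle2 i hi.1) hi.2
  obtain ⟨θ, hθ1, hθ2⟩ := exists_between hS
  have hθ0 : 0 < θ := (z2.nonneg _).trans_lt hθ1
  have hSne : S.Nonempty := by
    have hne : Q.support.Nonempty := by
      by_contra h
      rw [Finset.not_nonempty_iff_eq_empty] at h
      rw [h, Finset.sup_empty] at hN
      rw [hN] at hN0
      exact lt_irrefl _ hN0
    obtain ⟨i, hi, hi2⟩ := Finset.exists_mem_eq_sup Q.support hne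
      (fun i => gn ρ (Q.coeff i) * γ ^ i)
    exact ⟨i, Finset.mem_filter.2 ⟨hi, by rw [hN, hi2]⟩⟩
  have hγ' : (0 : ℝ) < γ := hγ
  obtain ⟨m, hm⟩ : ∃ m, m = S.max' hSne := ⟨_, rfl⟩
  have hmS : m ∈ S := hm ▸ S.max'_mem hSne
  have hmle : ∀ i ∈ S, i ≤ m := fun i hi => hm ▸ S.le_max' i hi
  refine ⟨{z' | z'.v (∑ i ∈ S, g i) < θ} ∩ {z' | θ * γ ^ m < N * z'.v b ^ m},
    IsOpen.inter (isOpen_lt (Ber.continuous_v _) continuous_const)
      (isOpen_lt continuous_const (continuous_const.mul ((Ber.continuous_v b).pow m))),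
    ⟨hθ1, ?_⟩, ?_⟩
  · show θ * (γ : ℝ) ^ m < N * z2.v b ^ m
    rw [hb]
    exact mul_lt_mul_of_pos_right hθ2 (by positivity)
  rintro z' ⟨h1, h2⟩ hz'
  have h1' : z'.v (∑ i ∈ S, g i) < θ := h1
  have h2' : θ * (γ : ℝ) ^ m < N * z'.v b ^ m := h2
  obtain ⟨r, hr⟩ : ∃ r : ℝ, r = z'.v b / γ := ⟨_, rfl⟩
  have hr0 : 0 ≤ r := by
    rw [hr]
    exact div_nonneg (z'.nonneg _) hγ'.le
  have hbr : z'.v b = r * γ := by
    rw [hr]
    field_simp
  -- the values of the terms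
  have hval : ∀ i ∈ S, z'.v (g i) = N * r ^ i := by
    intro i hi
    have hi2 : (gn ρ (Q.coeff i) : ℝ) * γ ^ i = N := by
      exact_mod_cast (Finset.mem_filter.1 hi).2
    rw [hterm z' hz', hbr, mul_pow, ← hi2]
    ring
  have h3 : θ < N * r ^ m := by
    rw [hbr, mul_pow] at h2'
    have h4 : N * (r ^ m * (γ : ℝ) ^ m) = N * r ^ m * γ ^ m := by ring
    rw [h4] at h2'
    exact lt_of_mul_lt_mul_right h2' (by positivity)
  have hrm : 0 < r ^ m := by
    by_contra h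
    have h4 : r ^ m = 0 := le_antisymm (not_lt.1 h) (by positivity)
    rw [h4, mul_zero] at h3
    exact absurd h3 (not_lt.2 hθ0.le)
  by_contra hne
  have hr1 : r ≠ 1 := by
    intro h
    rw [h, one_mul] at hbr
    exact hne hbr
  rcases lt_or_gt_of_ne hr1 with hr2 | hr2
  · -- the lowest term
    have hi0 := S.min'_mem hSne
    have h5 : z'.v (∑ i ∈ S, g i) = z'.v (g (S.min' hSne)) := by
      refine sum_dom z' S g hi0 ?_ ?_
      · rw [hval _ hi0]
        have h6 : r ^ m ≤ r ^ (S.min' hSne) :=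
          pow_le_pow_of_le_one hr0 hr2.le (hmle _ hi0)
        have h7 := hrm.trans_le h6
        positivity
      · intro j hj hji
        rw [hval _ hi0, hval _ hj]
        have h6 : S.min' hSne < j := lt_of_le_of_ne (S.min'_le j hj) (Ne.symm hji)
        have hr3 : 0 < r := by
          rcases hr0.eq_or_lt with h7 | h7
          · rw [← h7, zero_pow (by have := hmle j hj; omega)] at hrm
            exact absurd hrm (lt_irrefl _)
          · exact h7
        exact mul_lt_mul_of_pos_left (pow_lt_pow_right_of_lt_one₀ hr3 hr2 h6) hN0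
    rw [h5, hval _ hi0] at h1'
    have h6 : r ^ m ≤ r ^ (S.min' hSne) := pow_le_pow_of_le_one hr0 hr2.le (hmle _ hi0)
    have h7 : (N : ℝ) * r ^ m ≤ N * r ^ (S.min' hSne) := mul_le_mul_of_nonneg_left h6 hN0.le
    linarith
  · -- the highest term
    have h5 : z'.v (∑ i ∈ S, g i) = z'.v (g m) := by
      refine sum_dom z' S g hmS ?_ ?_
      · rw [hval _ hmS]
        positivity
      · intro j hj hji
        rw [hval _ hmS, hval _ hj]
        have h6 : j < m := lt_of_le_of_ne (hmle j hj) hji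
        exact mul_lt_mul_of_pos_left (pow_lt_pow_right₀ hr2 h6) hN0
    rw [h5, hval _ hmS] at h1'
    linarith

end NLC

namespace NDat

variable {K A I E : Type} [NormedField K] [CommRing A] [Algebra K A] (D : NDat K A I E)

/-- The elements of `E` different from `e0`. -/
abbrev E' : Type := {e : E // e ≠ D.e0}

/-- The family `a0`, `T_e` (`e ≠ e0`). -/
def xa (a0 : A) (o : Option D.E') : A := o.elim a0 fun e => D.T e.1

/-- The radii of the family `a0`, `T_e`. -/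
def xg (γ0 : ℝ≥0) (o : Option D.E') : ℝ≥0 := o.elim γ0 fun e => D.ρ e.1

/-- The part of `F_w` where `|a0| = γ0`. -/
def Fs (a0 : A) (γ0 : ℝ≥0) : Set (Ber K A) := {z | z ∈ D.Fw ∧ z.v a0 = γ0}

/-- `z` is a point of `Fs` at which the part `J` of the family is Gauss. -/
structure IsG (a0 : A) (γ0 : ℝ≥0) (J : Set (Option D.E')) (z : Ber K A) : Prop where
  mem : z ∈ D.Fs a0 γ0
  gauss : GaussAt (fun j : J => D.xa a0 j.1) (fun j : J => D.xg γ0 j.1) z

/-- `J` has the maximal number of elements among all Gauss families at points of `Fs`. -/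
structure IsMaxG (a0 : A) (γ0 : ℝ≥0) (J : Set (Option D.E')) (z : Ber K A) : Prop
    extends D.IsG a0 γ0 J z where
  max : ∀ z' J', D.IsG a0 γ0 J' z' → J'.ncard ≤ J.ncard

/-- The functions `t` and the family `J`. -/
def tx (a0 : A) (J : Set (Option D.E')) : I ⊕ J → A := Sum.elim D.t fun j => D.xa a0 j.1

variable {D} [IsUltrametricDist K] [Finite I] [Finite E]

/-- (ND2) `Fs` is open in the fibre. -/
theorem IsMaxG.fibre (hD : D.Ok) {a0 : A} {γ0 : ℝ≥0} (hγ : 0 < γ0) {J : Set (Option D.E')}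
    {z : Ber K A} (h : D.IsMaxG a0 γ0 J z) : ∃ V : Set (Ber K A), IsOpen V ∧
      D.Fs a0 γ0 ∩ {z' | fam (D.tx a0 J) z' = fam (D.tx a0 J) z} =
        V ∩ {z' | fam (D.tx a0 J) z' = fam (D.tx a0 J) z} := by
  classical
  have hxg : ∀ o, 0 < D.xg γ0 o := by
    rintro (_ | e)
    · exact hγ
    · exact hD.ρpos e.1
  have hv : ∀ z' ∈ D.Fs a0 γ0, ∀ o, z'.v (D.xa a0 o) = D.xg γ0 o := by
    rintro z' hz' (_ | e)
    · exact hz'.2
    · exact v_T_Fw hD hz'.1 e.1
  have hg : ∀ z', fam (D.tx a0 J) z' = fam (D.tx a0 J) z →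
      GaussAt (fun j : J => D.xa a0 j.1) (fun j : J => D.xg γ0 j.1) z' := by
    intro z' hz' P
    have h1 : (fam (D.tx a0 J) z').v (MvPolynomial.rename Sum.inr P) =
        (fam (D.tx a0 J) z).v (MvPolynomial.rename Sum.inr P) := by rw [hz']
    rw [fam_v, fam_v, MvPolynomial.aeval_rename] at h1
    exact h1.trans (h.gauss P)
  have key : ∀ z2 ∈ D.Fs a0 γ0 ∩ {z' | fam (D.tx a0 J) z' = fam (D.tx a0 J) z},
      ∃ W : Set (Ber K A), IsOpen W ∧ z2 ∈ W ∧
        W ∩ {z' | fam (D.tx a0 J) z' = fam (D.tx a0 J) z} ⊆ D.Fs a0 γ0 := by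
    rintro z2 ⟨hz2, hf2⟩
    have hloc : ∀ j : {j : Option D.E' // j ∉ J}, ∃ W : Set (Ber K A), IsOpen W ∧ z2 ∈ W ∧
        ∀ z' ∈ W, GaussAt (fun j : J => D.xa a0 j.1) (fun j : J => D.xg γ0 j.1) z' →
          z'.v (D.xa a0 j.1) = D.xg γ0 j.1 := by
      rintro ⟨j, hj⟩
      refine NLC.core _ _ _ _ (hxg j) z2 (hg z2 hf2) (hv z2 hz2 j) fun hG => ?_
      let f : ↥(insert j J : Set (Option D.E')) → Option J :=
        fun x => if hx : x.1 ∈ J then some ⟨x.1, hx⟩ else none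
      have hf1 : ∀ x : (insert j J : Set (Option D.E')), x.1 ∉ J → x.1 = j := by
        intro x hx
        rcases x.2 with h1 | h1
        · exact h1
        · exact absurd h1 hx
      have hfi : Function.Injective f := by
        intro x y hxy
        by_cases hx : x.1 ∈ J <;> by_cases hy : y.1 ∈ J
        · simp only [f, dif_pos hx, dif_pos hy, Option.some.injEq, Subtype.mk.injEq] at hxy
          exact Subtype.ext hxy
        · simp only [f, dif_pos hx, dif_neg hy] at hxy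
          exact absurd hxy (by simp)
        · simp only [f, dif_neg hx, dif_pos hy] at hxy
          exact absurd hxy (by simp)
        · exact Subtype.ext ((hf1 x hx).trans (hf1 y hy).symm)
      have h2 := hG.comp f hfi
      have h3 : (fun i : (insert j J : Set (Option D.E')) =>
          (f i).elim (D.xa a0 j) (fun j : J => D.xa a0 j.1)) = fun i => D.xa a0 i.1 := by
        funext x
        by_cases hx : x.1 ∈ J
        · simp only [f, dif_pos hx, Option.elim_some]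
        · simp only [f, dif_neg hx, Option.elim_none]
          rw [hf1 x hx]
      have h4 : (fun i : (insert j J : Set (Option D.E')) =>
          (f i).elim (D.xg γ0 j) (fun j : J => D.xg γ0 j.1)) = fun i => D.xg γ0 i.1 := by
        funext x
        by_cases hx : x.1 ∈ J
        · simp only [f, dif_pos hx, Option.elim_some]
        · simp only [f, dif_neg hx, Option.elim_none]
          rw [hf1 x hx]
      rw [h3, h4] at h2
      have h5 := h.max z2 (insert j J) ⟨hz2, h2⟩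
      rw [Set.ncard_insert_of_notMem hj (Set.toFinite J)] at h5
      omega
    choose W hWo hWm hW using hloc
    refine ⟨interior D.V0 ∩ ⋂ j, W j, isOpen_interior.inter (isOpen_iInter_of_finite hWo),
      ⟨mem_interior_iff_mem_nhds.2 (hD.nhd z2 hz2.1), Set.mem_iInter.2 hWm⟩, ?_⟩
    rintro z' ⟨⟨hz'1, hz'2⟩, hz'3⟩
    have hval : ∀ o, z'.v (D.xa a0 o) = D.xg γ0 o := by
      intro o
      by_cases ho : o ∈ J
      · exact (hg z' hz'3).v_eq ⟨o, ho⟩
      · exact hW ⟨o, ho⟩ z' (Set.mem_iInter.1 hz'2 ⟨o, ho⟩) (hg z' hz'3)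
    refine ⟨⟨interior_subset hz'1, fun i => ?_, fun e => ?_⟩, hval none⟩
    · have h1 : (fam (D.tx a0 J) z').v (MvPolynomial.X (Sum.inl i)) =
          (fam (D.tx a0 J) z).v (MvPolynomial.X (Sum.inl i)) := by rw [hz'3]
      rw [fam_v, fam_v, MvPolynomial.aeval_X] at h1
      exact h1.trans (h.mem.1.2.1 i)
    · by_cases he : e = D.e0
      · rw [he]
        exact yc_e0 hD z'
      · have h1 : z'.v (D.T e) = D.ρ e := hval (some ⟨e, he⟩)
        unfold yc
        rw [h1, sub_self]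
  refine ⟨⋃₀ {W | IsOpen W ∧ W ∩ {z' | fam (D.tx a0 J) z' = fam (D.tx a0 J) z} ⊆ D.Fs a0 γ0},
    isOpen_sUnion fun W hW => hW.1, ?_⟩
  apply Set.Subset.antisymm
  · intro z2 hz2
    obtain ⟨W, hW1, hW2, hW3⟩ := key z2 hz2
    exact ⟨⟨W, ⟨hW1, hW3⟩, hW2⟩, hz2.2⟩
  · rintro z2 ⟨⟨W, ⟨hW1, hW3⟩, hW2⟩, hz2⟩
    exact ⟨hW3 ⟨hW2, hz2⟩, hz2⟩

/-- (ND2) -/
theorem IsMaxG.zmp [Algebra.FiniteType K A] (h6 : StmtQ6) (hD : D.Ok) {a0 : A} {γ0 : ℝ≥0}
    (hγ : 0 < γ0) {J : Set (Option D.E')} {z : Ber K A} (h : D.IsMaxG a0 γ0 J z) :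
    Zmp (MvPolynomial.aeval (D.tx a0 J) : MvPolynomial (I ⊕ J) K →ₐ[K] A) z := by
  obtain ⟨V, hV, hVe⟩ := h.fibre hD hγ
  have hcl : IsClosed {z' : Ber K A | fam (D.tx a0 J) z' = fam (D.tx a0 J) z} :=
    isClosed_singleton.preimage (Ber.res_continuous _)
  have hFs : IsCompact (D.Fs a0 γ0) := by
    have h1 : D.Fs a0 γ0 = D.Fw ∩ {z' : Ber K A | z'.v a0 = γ0} := rfl
    rw [h1]
    exact (isCompact_Fw hD).inter_right (isClosed_eq (Ber.continuous_v a0) continuous_const)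
  have hft : (MvPolynomial.aeval (D.tx a0 J) : MvPolynomial (I ⊕ J) K →ₐ[K] A).toRingHom.FiniteType :=
    by
    have h1 : (algebraMap K A).FiniteType := RingHom.finiteType_algebraMap.2 inferInstance
    refine RingHom.FiniteType.of_comp_finiteType (f := algebraMap K (MvPolynomial (I ⊕ J) K)) ?_
    have h2 : ((MvPolynomial.aeval (D.tx a0 J) : MvPolynomial (I ⊕ J) K →ₐ[K] A).toRingHom.comp
        (algebraMap K (MvPolynomial (I ⊕ J) K))) = algebraMap K A :=
      RingHom.ext fun c => (MvPolynomial.aeval (D.tx a0 J)).commutes c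
    rw [h2]
    exact h1
  exact h6 K (MvPolynomial (I ⊕ J) K) A _ hft z
    (D.Fs a0 γ0 ∩ {z' | fam (D.tx a0 J) z' = fam (D.tx a0 J) z}) V (hFs.inter_right hcl) hV hVe
    ⟨h.mem, rfl⟩

/-- Maximal families exist. -/
theorem exists_isMaxG {a0 : A} {γ0 : ℝ≥0} (h : (D.Fs a0 γ0).Nonempty) :
    ∃ J z, D.IsMaxG a0 γ0 J z := by
  classical
  obtain ⟨z0, hz0⟩ := h
  have h0 : D.IsG a0 γ0 ∅ z0 := by
    refine ⟨hz0, fun P => ?_⟩
    obtain ⟨c, rfl⟩ := MvPolynomial.C_surjective (↥(∅ : Set (Option D.E'))) P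
    rw [gn_C, MvPolynomial.aeval_C, z0.ext]
    rfl
  have hne : {n : ℕ | ∃ J z, D.IsG a0 γ0 J z ∧ J.ncard = n}.Nonempty := ⟨_, ∅, z0, h0, rfl⟩
  have hb : BddAbove {n : ℕ | ∃ J z, D.IsG a0 γ0 J z ∧ J.ncard = n} := by
    refine ⟨(Set.univ : Set (Option D.E')).ncard, ?_⟩
    rintro _ ⟨J, z, -, rfl⟩
    exact Set.ncard_le_ncard (Set.subset_univ J) (Set.toFinite _)
  obtain ⟨J, z, hJ, hn⟩ := Nat.sSup_mem hne hb
  exact ⟨J, z, hJ, fun z' J' hJ' => hn ▸ le_csSup hb ⟨J', z', hJ', rfl⟩⟩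

end NDat

end Pool.Agent.TD


end

section

/-! Local data ND0: degrees (PAPER2.md, ND1; module TD_N_ALG). -/

open scoped Topology NNReal

namespace Pool.Agent.TD

namespace NDat

variable {K A I E : Type} [NormedField K] [IsUltrametricDist K] [CommRing A] [IsDomain A]
  [Algebra K A] {D : NDat K A I E}

/-- A nonzero constant coefficient: a nonzero `x` which is a root of a nonzero polynomial divides a
nonzero element of the base. -/
theorem exists_const_dvd {R A : Type} [CommRing R] [CommRing A] [IsDomain A] (φ : R →+* A) {x : A}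
    (hx : x ≠ 0) {P : Polynomial R} (hP : P ≠ 0) (h : P.eval₂ φ x = 0) :
    ∃ c : R, c ≠ 0 ∧ x ∣ φ c := by
  obtain ⟨Q, hQ, hnd⟩ := Polynomial.exists_eq_pow_rootMultiplicity_mul_and_not_dvd P hP 0
  rw [Polynomial.C_0, sub_zero] at hQ hnd
  refine ⟨Q.coeff 0, fun h0 => hnd (Polynomial.X_dvd_iff.mpr h0), ?_⟩
  have h1 : Q.eval₂ φ x = 0 := by
    rw [hQ, Polynomial.eval₂_mul, Polynomial.eval₂_pow, Polynomial.eval₂_X] at h
    rcases mul_eq_zero.mp h with h2 | h2
    · exact absurd h2 (pow_ne_zero _ hx)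
    · exact h2
  rw [← Polynomial.divX_mul_X_add Q, Polynomial.eval₂_add, Polynomial.eval₂_mul,
    Polynomial.eval₂_X, Polynomial.eval₂_C] at h1
  refine ⟨-(Q.divX.eval₂ φ x), ?_⟩
  linear_combination h1

omit [IsUltrametricDist K] [IsDomain A] in
theorem rad_pos (hD : D.Ok) {B : Set E} {r : I → ℝ≥0} {y : E → ℝ} {δ : ℝ} (hg : D.Gen δ B r y)
    (J : Set E) : ∀ i : I ⊕ J, 0 < (Sum.elim r fun e : J => D.rd y e.1) i := by
  rintro (i | e)
  · exact hg.rpos i
  · show 0 < D.ρ e.1 * (Real.exp (y e.1)).toNNReal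
    exact mul_pos (hD.ρpos _) (Real.toNNReal_pos.mpr (Real.exp_pos _))

/-- (ND1) the top points of facets are isolated in their fibres. -/
theorem zmp_top [Finite I] [Finite E] [Algebra.FiniteType K A] (h6 : StmtQ6) (hD : D.Ok)
    {B : Set E} {r : I → ℝ≥0} {y : E → ℝ} (hB : D.M.IsBase B) (he0 : D.e0 ∈ B)
    (hg : D.Gen D.δ0 B r y) {z : Ber K A} (hz : D.IsTop B r y z) (hn : z ∈ interior D.V0) :
    Zmp (D.ph (B \ {D.e0})) z ∧ z.ker = ⊥ := by
  have hft : (D.ph (B \ {D.e0})).toRingHom.FiniteType := by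
    have h1 : (algebraMap K A).FiniteType :=
      (RingHom.finiteType_algebraMap).mpr inferInstance
    have h2 : ((D.ph (B \ {D.e0})).toRingHom.comp (algebraMap K _)).FiniteType := by
      have h3 : (D.ph (B \ {D.e0})).toRingHom.comp (algebraMap K _) = algebraMap K A := by
        ext c
        exact (D.ph (B \ {D.e0})).commutes c
      rw [h3]
      exact h1
    exact RingHom.FiniteType.of_comp_finiteType h2
  have hzm : Zmp (D.ph (B \ {D.e0})) z := by
    refine h6 K _ A (D.ph (B \ {D.e0})) hft z {z} (interior D.V0) isCompact_singleton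
      isOpen_interior ?_ rfl
    ext z'
    constructor
    · rintro rfl
      exact ⟨hn, rfl⟩
    · rintro ⟨h1, h2⟩
      have h3 : fam (D.vr (B \ {D.e0})) z' = fam (D.vr (B \ {D.e0})) z := h2
      have h4 : GaussAt (D.vr (B \ {D.e0})) (Sum.elim r fun e => D.rd y e.1) z' := by
        rw [gaussAt_iff, h3, ← gaussAt_iff]
        exact hz.gauss
      have h5 : z' ∈ D.Fry r y := mem_Fry' hD hB hg (interior_subset h1) h4
      exact hD.uniq B r y hB he0 hg z' h5 z hz.mem h3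
  refine ⟨hzm, ?_⟩
  rw [eq_bot_iff]
  intro x hx
  rw [Ideal.mem_bot]
  by_contra hx0
  obtain ⟨g, hgz, -, hall⟩ := hzm
  obtain ⟨m, P, hPm, hP⟩ := hall x
  have hg0 : g ≠ 0 := by
    rintro rfl
    exact hgz z.zero
  have hx' : g ^ m * x ≠ 0 := mul_ne_zero (pow_ne_zero m hg0) hx0
  obtain ⟨c, hc, w, hw⟩ := exists_const_dvd _ hx' hPm.ne_zero hP
  have h1 : z.v (D.ph (B \ {D.e0}) c) = 0 := by
    have h2 : (D.ph (B \ {D.e0})) c = g ^ m * x * w := hw
    rw [h2, z.mul, z.mul, (Ber.mem_ker z x).mp hx, mul_zero, zero_mul]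
  have h2 : z.v (D.ph (B \ {D.e0}) c) = gn (Sum.elim r fun e => D.rd y e.1) c := hz.gauss c
  have h3 := gn_pos (rad_pos hD hg (B \ {D.e0})) hc
  rw [h1] at h2
  have h4 : (0 : ℝ) < gn (Sum.elim r fun e : (B \ {D.e0} : Set E) => D.rd y e.1) c :=
    NNReal.coe_pos.mpr h3
  exact absurd h2 h4.ne

theorem ph_injective [Finite I] [Finite E] (hD : D.Ok) {B : Set E} (hB : D.M.IsBase B)
    (he0 : D.e0 ∈ B) : Function.Injective (D.ph (B \ {D.e0})) := by
  obtain ⟨r, y, hg⟩ := exists_Gen hD hB he0 hD.δpos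
  obtain ⟨z, hz⟩ := hD.top B r y hB he0 hg
  rw [injective_iff_map_eq_zero]
  intro P hP
  by_contra hP0
  have h2 : z.v (D.ph (B \ {D.e0}) P) = gn (Sum.elim r fun e => D.rd y e.1) P := hz.gauss P
  have h3 := gn_pos (rad_pos hD hg (B \ {D.e0})) hP0
  rw [hP, z.zero] at h2
  have h4 : (0 : ℝ) < gn (Sum.elim r fun e : (B \ {D.e0} : Set E) => D.rd y e.1) P :=
    NNReal.coe_pos.mpr h3
  exact absurd h2 h4.ne

omit [IsUltrametricDist K] [IsDomain A] in
/-- A top point in the interior of `V0`. -/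
theorem exists_top [Finite I] [Finite E] (hD : D.Ok) {B : Set E} (hB : D.M.IsBase B)
    (he0 : D.e0 ∈ B) : ∃ r y z, D.Gen D.δ0 B r y ∧ D.IsTop B r y z ∧ z ∈ interior D.V0 := by
  obtain ⟨δ, hδ, hδ0, hsm⟩ := small hD (isOpen_interior (s := D.V0))
    (fun z hz => mem_interior_iff_mem_nhds.mpr (hD.nhd z hz))
  obtain ⟨r, y, hg⟩ := exists_Gen hD hB he0 hδ
  have hg' := hg.mono hδ0
  obtain ⟨z, hz⟩ := hD.top B r y hB he0 hg'
  refine ⟨r, y, z, hg', hz, hsm z hz.mem.1 ?_ ?_⟩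
  · intro i
    rw [hz.mem.2.1 i]
    exact hg.rlt i
  · intro e
    rw [hz.mem.2.2 e]
    exact hg.ylt e

theorem isAlg_of_int {R A : Type} [CommRing R] [IsDomain R] [CommRing A] [IsDomain A]
    [Algebra R A] {g : A} (hg : g ≠ 0) (hgi : IsIntegral R g)
    (hx : ∀ x : A, ∃ m : ℕ, IsIntegral R (g ^ m * x)) : Algebra.IsAlgebraic R A := by
  refine ⟨fun x => ?_⟩
  obtain ⟨m, hm⟩ := hx x
  exact IsAlgebraic.of_mul (mem_nonZeroDivisors_of_ne_zero (pow_ne_zero m hg))
    (hgi.pow m).isAlgebraic hm.isAlgebraic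

omit [IsUltrametricDist K] in
/-- `A` is algebraic over the subalgebra generated by the family. -/
theorem adjoin_alg {σ : Type} (a : σ → A) (z : Ber K A)
    (hz : Zmp (MvPolynomial.aeval a : MvPolynomial σ K →ₐ[K] A) z) :
    Algebra.IsAlgebraic (Algebra.adjoin K (Set.range a)) A := by
  let S := Algebra.adjoin K (Set.range a)
  let ψ : MvPolynomial σ K →ₐ[K] S :=
    MvPolynomial.aeval fun i => (⟨a i, Algebra.subset_adjoin ⟨i, rfl⟩⟩ : S)
  have hψ : (algebraMap S A).comp ψ.toRingHom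
      = (MvPolynomial.aeval a : MvPolynomial σ K →ₐ[K] A).toRingHom := by
    have h1 : (S.val.comp ψ) = MvPolynomial.aeval a := by
      apply MvPolynomial.algHom_ext
      intro i
      rw [AlgHom.comp_apply, MvPolynomial.aeval_X, MvPolynomial.aeval_X]
      rfl
    rw [← h1]
    rfl
  have key : ∀ x : A, (MvPolynomial.aeval a : MvPolynomial σ K →ₐ[K] A).toRingHom.IsIntegralElem x
      → IsIntegral S x := by
    rintro x ⟨P, hP, hPx⟩
    refine ⟨P.map ψ.toRingHom, hP.map _, ?_⟩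
    rw [Polynomial.eval₂_map, hψ]
    exact hPx
  obtain ⟨g, hgz, hgi, hall⟩ := hz
  have hg0 : g ≠ 0 := by
    rintro rfl
    exact hgz z.zero
  refine isAlg_of_int hg0 (key g hgi) fun x => ?_
  obtain ⟨m, hm⟩ := hall x
  exact ⟨m, key _ hm⟩

/-- The functions `t`, `T_b` form a transcendence basis. -/
theorem isTrBasis [Finite I] [Finite E] [Algebra.FiniteType K A] (h6 : StmtQ6) (hD : D.Ok)
    {B : Set E} (hB : D.M.IsBase B) (he0 : D.e0 ∈ B) :
    IsTranscendenceBasis K (D.vr (B \ {D.e0})) := by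
  obtain ⟨r, y, z, hg, hz, hn⟩ := exists_top hD hB he0
  rw [isTranscendenceBasis_iff_algebraicIndependent_isAlgebraic]
  exact ⟨ph_injective hD hB he0, adjoin_alg _ z (zmp_top h6 hD hB he0 hg hz hn).1⟩

/-- (ND1) `A` is algebraic over `K[t, T_b : b ∈ B - e0]`, hence its transcendence degree. -/
theorem card_le [Finite I] [Finite E] [Algebra.FiniteType K A] (h6 : StmtQ6) (hD : D.Ok)
    {B : Set E} (hB : D.M.IsBase B) (he0 : D.e0 ∈ B) {σ : Type} [Finite σ] (a : σ → A)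
    (z : Ber K A) (hz : Zmp (MvPolynomial.aeval a : MvPolynomial σ K →ₐ[K] A) z) :
    Nat.card I + (B \ {D.e0}).ncard ≤ Nat.card σ ∧
      (Nat.card I + (B \ {D.e0}).ncard = Nat.card σ →
        Function.Injective (MvPolynomial.aeval a : MvPolynomial σ K →ₐ[K] A)) := by
  have hcard : Nat.card (I ⊕ (B \ {D.e0} : Set E)) = Nat.card I + (B \ {D.e0}).ncard := by
    rw [Nat.card_sum, Nat.card_coe_set_eq]
  have htr := (isTrBasis h6 hD hB he0).cardinalMk_eq_trdeg
  have halg := adjoin_alg a z hz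
  have hle : Algebra.trdeg K A ≤ Cardinal.mk σ :=
    (Algebra.IsAlgebraic.trdeg_le_cardinalMk K (Set.range a)).trans Cardinal.mk_range_le
  rw [← hcard]
  constructor
  · rw [← htr, ← Nat.cast_card, ← Nat.cast_card] at hle
    exact Nat.cast_le.mp hle
  · intro h
    have h1 : Cardinal.mk σ ≤ Algebra.trdeg K A := by
      rw [← htr, ← Nat.cast_card, ← Nat.cast_card, h]
    exact (Algebra.IsAlgebraic.isTranscendenceBasis_of_le_trdeg_of_finite K a h1).1

/-- (ND1) `A` is separable over `K[t, T_b : b ∈ B - e0]`. -/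
theorem sep [Finite I] [Finite E] [Algebra.FiniteType K A] [CompleteSpace K] (h6 : StmtQ6)
    (hS : StmtSep) (hD : D.Ok) {B : Set E} (hB : D.M.IsBase B) (he0 : D.e0 ∈ B) (a : A) :
    ∃ P : Polynomial (MvPolynomial (I ⊕ (B \ {D.e0} : Set E)) K),
      (P.map (algebraMap _ (FractionRing (MvPolynomial (I ⊕ (B \ {D.e0} : Set E)) K)))).Separable ∧
        P.eval₂ (D.ph (B \ {D.e0})).toRingHom a = 0 := by
  obtain ⟨r, y, z, hg, hz, hn⟩ := exists_top hD hB he0
  obtain ⟨hzm, hker⟩ := zmp_top h6 hD hB he0 hg hz hn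
  refine hS K _ A (D.ph (B \ {D.e0})) z (Sum.elim r fun e => D.rd y e.1)
    (rad_pos hD hg (B \ {D.e0})) hz.gauss hker (hD.dens B r y hB he0 hg z hz.mem) a ?_
  obtain ⟨g, hgz, hgi, hall⟩ := hzm
  have hg0 : g ≠ 0 := by
    rintro rfl
    exact hgz z.zero
  let _ : Algebra (MvPolynomial (I ⊕ (B \ {D.e0} : Set E)) K) A :=
    (D.ph (B \ {D.e0})).toRingHom.toAlgebra
  have halg : Algebra.IsAlgebraic (MvPolynomial (I ⊕ (B \ {D.e0} : Set E)) K) A :=
    isAlg_of_int hg0 hgi hall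
  obtain ⟨P, hP, hPa⟩ := halg.isAlgebraic a
  exact ⟨P, hP, hPa⟩

end NDat

end Pool.Agent.TD


end

section

/-! Local data ND0: rank bound (PAPER2.md, ND3; module TD_N_RK). -/

open scoped Topology NNReal

namespace Pool.Agent.TD

namespace NDat

variable {K A I E : Type} [NormedField K] [IsUltrametricDist K] [Finite I] [Finite E]
  [CommRing A] [IsDomain A] [Algebra K A] [Algebra.FiniteType K A] {D : NDat K A I E}

/-- The elements of the matroid in `J`, together with `e0`. -/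
def JE (D : NDat K A I E) (J : Set (Option D.E')) : Set E :=
  {e | e = D.e0 ∨ ∃ h : e ≠ D.e0, some (⟨e, h⟩ : D.E') ∈ J}

/-! ### Quotients by the kernel -/

namespace Rk

section
omit [IsUltrametricDist K] [Finite I] [Finite E] [IsDomain A] [Algebra.FiniteType K A]

theorem v_eq_of_sub (z : Ber K A) {a b : A} (h : z.v (a - b) = 0) : z.v a = z.v b := by
  apply le_antisymm
  · have h1 := z.add (a - b) b
    rwa [sub_add_cancel, h, max_eq_right (z.nonneg b)] at h1
  · have h1 := z.add (b - a) a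
    rwa [sub_add_cancel, z.sub_comm, h, max_eq_right (z.nonneg a)] at h1

/-- The representative of an element of the quotient. -/
noncomputable def rep (z : Ber K A) (q : A ⧸ z.ker) : A :=
  Function.surjInv Ideal.Quotient.mk_surjective q

theorem mk_rep (z : Ber K A) (q : A ⧸ z.ker) : Ideal.Quotient.mk z.ker (rep z q) = q :=
  Function.surjInv_eq Ideal.Quotient.mk_surjective q

theorem v_rep (z : Ber K A) {q : A ⧸ z.ker} {a : A} (h : Ideal.Quotient.mk z.ker a = q) :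
    z.v (rep z q) = z.v a := by
  apply v_eq_of_sub
  have h1 : rep z q - a ∈ z.ker := by
    rw [← Ideal.Quotient.eq, mk_rep, h]
  exact h1

/-- The point of the spectrum of the quotient by the kernel. -/
noncomputable def quo (z : Ber K A) : Ber K (A ⧸ z.ker) where
  v q := z.v (rep z q)
  nonneg _ := z.nonneg _
  one := by rw [v_rep z (map_one _), z.one]
  mul p q := by
    rw [← z.mul]
    apply v_rep
    rw [map_mul, mk_rep, mk_rep]
  add p q := by
    refine le_trans (le_of_eq ?_) (z.add _ _)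
    apply v_rep
    rw [map_add, mk_rep, mk_rep]
  ext c := by
    rw [← z.ext c]
    exact v_rep z rfl

theorem quo_v (z : Ber K A) (a : A) : (quo z).v (Ideal.Quotient.mk z.ker a) = z.v a :=
  v_rep z rfl

theorem res_quo (z : Ber K A) : Ber.res (Ideal.Quotient.mkₐ K z.ker) (quo z) = z := by
  apply Ber.ext_v
  intro a
  exact quo_v z a

end

omit [IsUltrametricDist K] [Finite I] [IsDomain A] [Algebra.FiniteType K A] in
open Classical in
theorem ncard_JE (D : NDat K A I E) (J : Set (Option D.E')) :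
    J.ncard + 1 = (D.JE J).ncard + (if none ∈ J then 1 else 0) := by
  set J' : Set E := {e | ∃ h : e ≠ D.e0, some (⟨e, h⟩ : D.E') ∈ J} with hJ'
  have h1 : (D.JE J).ncard = J'.ncard + 1 := by
    have h2 : D.JE J = insert D.e0 J' := by
      ext e
      rfl
    rw [h2, Set.ncard_insert_of_notMem _ (Set.toFinite _)]
    rintro ⟨h3, -⟩
    exact h3 rfl
  have h2 : (J \ {none}).ncard = J'.ncard := by
    symm
    refine Set.ncard_congr (fun e he => some (⟨e, he.1⟩ : D.E')) ?_ ?_ ?_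
    · rintro e ⟨he1, he2⟩
      exact ⟨he2, by simp⟩
    · intro e e' he he' hee
      have h3 := Option.some_inj.1 hee
      exact congrArg Subtype.val h3
    · rintro (_ | e) ⟨h3, h4⟩
      · exact absurd rfl h4
      · exact ⟨e.1, ⟨e.2, h3⟩, rfl⟩
  rw [h1, ← h2]
  by_cases hn : none ∈ J
  · rw [if_pos hn, Set.ncard_sdiff_singleton_add_one hn (Set.toFinite _)]
  · rw [if_neg hn, Set.sdiff_singleton_eq_self hn, add_zero]

end Rk

/-- (ND3) openness over the family `J`, inside `{t = 0}`. -/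
theorem IsMaxG.open0 (h6 : StmtQ6) (h7 : StmtQ7) (hg : StmtGp) (hD : D.Ok) {a0 : A} {γ0 : ℝ≥0}
    (hγ : 0 < γ0) {J : Set (Option D.E')} {z : Ber K A} (h : D.IsMaxG a0 γ0 J z)
    {V : Set (Ber K A)} (hV : V ∈ 𝓝 z) :
    ∀ᶠ ρ' in 𝓝 (fun j : J => D.xg γ0 j.1), ∃ z' ∈ V, (∀ i, z'.v (D.t i) = 0) ∧
      GaussAt (fun j : J => D.xa a0 j.1) ρ' z' := by
  classical
  obtain ⟨g, hg1, hg2⟩ := hg K J
  set mk := Ideal.Quotient.mkₐ K z.ker with hmk
  set x : J → A := fun j => D.xa a0 j.1 with hx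
  set ρ0 : J → ℝ≥0 := fun j => D.xg γ0 j.1 with hρ0
  set ψ : MvPolynomial J K →ₐ[K] (A ⧸ z.ker) := MvPolynomial.aeval (fun j => mk (x j)) with hψ
  have hψx : ∀ P : MvPolynomial J K, ψ P = mk (MvPolynomial.aeval x P) := by
    intro P
    have h1 : ψ = mk.comp (MvPolynomial.aeval x) := by
      apply MvPolynomial.algHom_ext
      intro i
      simp [hψ]
    rw [h1]
    rfl
  have hpos : ∀ j, 0 < ρ0 j := by
    rintro ⟨j, hj⟩
    rcases j with _ | e
    · exact hγ
    · exact hD.ρpos e.1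
  have hz1 : ∀ P : MvPolynomial J K, (Rk.quo z).v (ψ P) = gn ρ0 P := by
    intro P
    rw [hψx]
    exact (Rk.quo_v z _).trans (h.gauss P)
  have hinj : Function.Injective ψ := by
    rw [injective_iff_map_eq_zero]
    intro P hP
    by_contra hne
    have h1 := hz1 P
    rw [hP, Ber.zero] at h1
    have h2 : (0 : ℝ) < gn ρ0 P := by exact_mod_cast gn_pos hpos hne
    rw [← h1] at h2
    exact lt_irrefl _ h2
  have ht : ∀ i, z.v (D.t i) = 0 := h.mem.1.2.1
  have hint : ∀ a : A, (MvPolynomial.aeval (D.tx a0 J) :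
      MvPolynomial (I ⊕ J) K →ₐ[K] A).toRingHom.IsIntegralElem a →
      ψ.toRingHom.IsIntegralElem (mk a) := by
    rintro a ⟨p, hp1, hp2⟩
    set τ : MvPolynomial (I ⊕ J) K →ₐ[K] MvPolynomial J K :=
      MvPolynomial.aeval (Sum.elim (fun _ => 0) MvPolynomial.X) with hτ
    have hcomp : ψ.comp τ = mk.comp (MvPolynomial.aeval (D.tx a0 J)) := by
      apply MvPolynomial.algHom_ext
      rintro (i | j)
      · have h1 : mk (D.t i) = 0 := by
          rw [hmk, Ideal.Quotient.mkₐ_eq_mk, Ideal.Quotient.eq_zero_iff_mem]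
          exact ht i
        simp [hτ, tx, h1]
      · simp [hτ, hψ, tx, hx]
    refine ⟨p.map τ.toRingHom, hp1.map _, ?_⟩
    rw [Polynomial.eval₂_map]
    have h1 : ψ.toRingHom.comp τ.toRingHom = mk.toRingHom.comp
        (MvPolynomial.aeval (D.tx a0 J) : MvPolynomial (I ⊕ J) K →ₐ[K] A).toRingHom :=
      congrArg (fun f : MvPolynomial (I ⊕ J) K →ₐ[K] (A ⧸ z.ker) => f.toRingHom) hcomp
    rw [h1]
    have h2 := Polynomial.hom_eval₂ p (MvPolynomial.aeval (D.tx a0 J) :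
      MvPolynomial (I ⊕ J) K →ₐ[K] A).toRingHom mk.toRingHom a
    rw [hp2, map_zero] at h2
    exact h2.symm
  have hzmp : Zmp ψ (Rk.quo z) := by
    obtain ⟨g0, hg0, hg3, hg4⟩ := h.zmp h6 hD hγ
    refine ⟨mk g0, ?_, hint g0 hg3, fun q => ?_⟩
    · intro h0
      exact hg0 ((Rk.quo_v z g0).symm.trans h0)
    · obtain ⟨a, rfl⟩ := Ideal.Quotient.mk_surjective q
      obtain ⟨m, hm⟩ := hg4 a
      refine ⟨m, ?_⟩
      have h1 := hint _ hm
      rwa [map_mul, map_pow] at h1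
  have hV' : (Ber.res mk) ⁻¹' V ∈ 𝓝 (Rk.quo z) := by
    apply (Ber.res_continuous mk).continuousAt.preimage_mem_nhds
    rw [Rk.res_quo]
    exact hV
  have h1 := h7 K (MvPolynomial J K) (A ⧸ z.ker) ψ hinj (Rk.quo z) hzmp _ hV'
  have h2 : Ber.res ψ (Rk.quo z) = g ρ0 := by
    apply Ber.ext_v
    intro P
    rw [hg2 ρ0 P]
    exact hz1 P
  rw [h2] at h1
  have h3 : ∀ᶠ ρ' in 𝓝 ρ0, g ρ' ∈ Ber.res ψ '' ((Ber.res mk) ⁻¹' V) :=
    hg1.continuousAt.eventually h1
  filter_upwards [h3] with ρ' hρ'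
  obtain ⟨z1, hz1V, hz1g⟩ := hρ'
  refine ⟨Ber.res mk z1, hz1V, fun i => ?_, fun P => ?_⟩
  · have h4 : mk (D.t i) = 0 := by
      rw [hmk, Ideal.Quotient.mkₐ_eq_mk, Ideal.Quotient.eq_zero_iff_mem]
      exact ht i
    rw [Ber.res_v, h4, Ber.zero]
  · rw [Ber.res_v, ← hψx, ← Ber.res_v, hz1g]
    exact hg2 ρ' P

/-- (ND3 i) -/
theorem IsMaxG.indep (h6 : StmtQ6) (h7 : StmtQ7) (hg : StmtGp) (hD : D.Ok) {a0 : A} {γ0 : ℝ≥0}
    (hγ : 0 < γ0) {J : Set (Option D.E')} {z : Ber K A} (h : D.IsMaxG a0 γ0 J z) :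
    D.M.Indep (D.JE J) := by
  classical
  by_contra hni
  have hdep : D.M.Dep (D.JE J) := ⟨hni, by rw [hD.ground]; exact Set.subset_univ _⟩
  obtain ⟨C, hCJ, hC⟩ := hdep.exists_isCircuit_subset
  have hex : ∃ e ∈ C, e ≠ D.e0 := by
    by_contra hc
    push Not at hc
    exact hC.not_indep ((hD.loopless D.e0).subset fun x hx => hc x hx)
  obtain ⟨e, heC, hee⟩ := hex
  have heJ : some (⟨e, hee⟩ : D.E') ∈ J := by
    rcases hCJ heC with h1 | ⟨h1, h2⟩
    · exact absurd h1 hee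
    · exact h2
  -- the radii
  set R : ℝ → J → ℝ≥0 := fun s j =>
    D.xg γ0 j.1 * (Real.exp (if j.1 = some ⟨e, hee⟩ then s else 0)).toNNReal with hR
  have hRc : Continuous R := by
    apply continuous_pi
    intro j
    apply Continuous.mul continuous_const
    apply continuous_real_toNNReal.comp
    apply Real.continuous_exp.comp
    split_ifs
    · exact continuous_id
    · exact continuous_const
  have hR0 : R 0 = fun j : J => D.xg γ0 j.1 := by
    funext j
    simp [hR]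
  have h1 : ∀ᶠ s in 𝓝 (0 : ℝ), ∃ z' ∈ D.V0, (∀ i, z'.v (D.t i) = 0) ∧
      GaussAt (fun j : J => D.xa a0 j.1) (R s) z' := by
    have h2 := hRc.continuousAt (x := (0 : ℝ))
    unfold ContinuousAt at h2
    rw [hR0] at h2
    exact h2.eventually (h.open0 h6 h7 hg hD hγ (hD.nhd z h.mem.1))
  have h2 : ∀ᶠ s in 𝓝[>] (0 : ℝ), ∃ z' ∈ D.V0, (∀ i, z'.v (D.t i) = 0) ∧
      GaussAt (fun j : J => D.xa a0 j.1) (R s) z' := h1.filter_mono nhdsWithin_le_nhds
  obtain ⟨s, ⟨z', hz'V, -, hz'G⟩, hs⟩ := (h2.and self_mem_nhdsWithin).exists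
  have hs' : 0 < s := hs
  have hy : ∀ f ∈ C, D.yc z' f = if f = e then s else 0 := by
    intro f hf
    by_cases hf0 : f = D.e0
    · rw [hf0, yc_e0 hD, if_neg (fun h => hee h.symm)]
    · have hfJ : some (⟨f, hf0⟩ : D.E') ∈ J := by
        rcases hCJ hf with h3 | ⟨h3, h4⟩
        · exact absurd h3 hf0
        · exact h4
      have h5 := hz'G.v_eq ⟨some ⟨f, hf0⟩, hfJ⟩
      apply yc_of_v hD (y := fun f => if f = e then s else 0)
      refine Eq.trans h5 ?_
      have h6 : (some (⟨f, hf0⟩ : D.E') = some ⟨e, hee⟩) ↔ f = e := by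
        rw [Option.some_inj, Subtype.mk.injEq]
      simp only [hR, xg, rd, h6]
      rfl
  obtain ⟨f, hfC, hfe, hle⟩ := hD.berg z' hz'V C hC e heC
  rw [hy e heC, hy f hfC, if_pos rfl, if_neg hfe] at hle
  linarith

/-- (ND3 ii) -/
theorem IsMaxG.not_base (h6 : StmtQ6) (h7 : StmtQ7) (hg : StmtGp) (hD : D.Ok) {a0 : A} {γ0 : ℝ≥0}
    (hγ : 0 < γ0) (hmax : ∀ z ∈ D.Fw, z.v a0 ≤ γ0) {J : Set (Option D.E')} {z : Ber K A}
    (h : D.IsMaxG a0 γ0 J z) (hn : none ∈ J) : ¬ D.M.IsBase (D.JE J) := by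
  classical
  intro hB
  -- the radii
  set R : ℝ × (E → ℝ) → J → ℝ≥0 := fun p j =>
    D.xg γ0 j.1 * (Real.exp (j.1.elim p.1 fun e => p.2 e.1)).toNNReal with hR
  have hRc : Continuous R := by
    apply continuous_pi
    rintro ⟨j, hj⟩
    apply Continuous.mul continuous_const
    apply continuous_real_toNNReal.comp
    apply Real.continuous_exp.comp
    rcases j with _ | e
    · exact continuous_fst
    · exact (continuous_apply e.1).comp continuous_snd
  have hR0 : R (0, fun _ => 0) = fun j : J => D.xg γ0 j.1 := by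
    funext ⟨j, hj⟩
    rcases j with _ | e <;> simp [hR]
  have h1 : ∀ᶠ p in 𝓝 ((0, fun _ => 0) : ℝ × (E → ℝ)), ∃ z' ∈ D.V0, (∀ i, z'.v (D.t i) = 0) ∧
      GaussAt (fun j : J => D.xa a0 j.1) (R p) z' := by
    have h2 := hRc.continuousAt (x := ((0, fun _ => 0) : ℝ × (E → ℝ)))
    unfold ContinuousAt at h2
    rw [hR0] at h2
    exact h2.eventually (h.open0 h6 h7 hg hD hγ (hD.nhd z h.mem.1))
  have := Fintype.ofFinite E
  obtain ⟨η, hη, hball⟩ := Metric.eventually_nhds_iff.1 h1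
  have hkey : ∀ k : ℕ, ∃ (y : E → ℝ) (z' : Ber K A), (∀ e, |y e| < η / (k + 2)) ∧ z' ∈ D.V0 ∧
      (∀ i, z'.v (D.t i) = 0) ∧ D.yc z' = y ∧ z'.v a0 = γ0 * Real.exp (η / 2) := by
    intro k
    have hk : (0 : ℝ) < η / (k + 2) := by positivity
    have hk' : η / (k + 2) ≤ η / 2 := by
      gcongr
      linarith [Nat.cast_nonneg (α := ℝ) k]
    obtain ⟨y, hy1, hy2, hy3, hy4⟩ := exists_gen hD.ground hD.loopless (e0 := D.e0) hB
      (Or.inl rfl) hk
    have hdist : dist ((η / 2, y) : ℝ × (E → ℝ)) (0, fun _ => 0) < η := by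
      rw [Prod.dist_eq, max_lt_iff]
      constructor
      · rw [Real.dist_eq, sub_zero, abs_of_pos (by positivity)]
        linarith
      · refine lt_of_le_of_lt ((dist_pi_le_iff (by positivity : (0 : ℝ) ≤ η / 2)).2 fun e => ?_)
          (by linarith)
        rw [Real.dist_eq, sub_zero]
        exact (hy3 e).le.trans hk'
    obtain ⟨z', hz'V, hz't, hz'G⟩ := hball hdist
    refine ⟨y, z', hy3, hz'V, hz't, ?_, ?_⟩
    · refine (hD.berg z' hz'V).eq_of_base hy1 hD.ground hB (fun b hb => ?_) ?_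
      · rcases hb with hb | ⟨hb1, hb2⟩
        · rw [hb, yc_e0 hD, hy2]
        · have h5 := hz'G.v_eq ⟨some ⟨b, hb1⟩, hb2⟩
          apply yc_of_v hD (y := y)
          exact h5
      · have hyc : ∀ b ∈ D.JE J, D.yc z' b = y b := by
          intro b hb
          rcases hb with hb | ⟨hb1, hb2⟩
          · rw [hb, yc_e0 hD, hy2]
          · exact yc_of_v hD (y := y) (hz'G.v_eq ⟨some ⟨b, hb1⟩, hb2⟩)
        intro b hb b' hb' hbb
        rw [hyc b hb, hyc b' hb'] at hbb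
        exact hy4 hb hb' hbb
    · have h5 := hz'G.v_eq ⟨none, hn⟩
      refine Eq.trans h5 ?_
      simp only [hR, xg, Option.elim]
      rw [NNReal.coe_mul, Real.coe_toNNReal _ (Real.exp_pos _).le]
  choose y zs hy hzV hzt hyc ha0 using hkey
  -- a limit point
  set u : Ultrafilter ℕ := Filter.hyperfilter ℕ with hu
  have huf : (u : Filter ℕ) ≤ Filter.atTop := by
    rw [← Nat.cofinite_eq_atTop]
    exact Filter.hyperfilter_le_cofinite
  have h2 : ((u.map zs : Ultrafilter (Ber K A)) : Filter (Ber K A)) ≤ Filter.principal D.V0 := by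
    rw [Filter.le_principal_iff]
    exact Filter.mem_map.2 (Filter.Eventually.of_forall hzV)
  obtain ⟨w, hwV, hw⟩ := hD.comp.ultrafilter_le_nhds (u.map zs) h2
  have hlim : Filter.Tendsto zs u (𝓝 w) := hw
  have hv : ∀ a : A, Filter.Tendsto (fun k => (zs k).v a) u (𝓝 (w.v a)) := fun a =>
    ((Ber.continuous_v a).tendsto w).comp hlim
  have hwt : ∀ i, w.v (D.t i) = 0 := by
    intro i
    refine tendsto_nhds_unique (hv (D.t i)) ?_
    simp only [hzt]
    exact tendsto_const_nhds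
  have hwa : w.v a0 = γ0 * Real.exp (η / 2) := by
    refine tendsto_nhds_unique (hv a0) ?_
    simp only [ha0]
    exact tendsto_const_nhds
  have hwy : ∀ e, D.yc w e = 0 := by
    intro e
    have h3 : Filter.Tendsto (fun k => D.yc (zs k) e) u (𝓝 (D.yc w e)) := by
      have h4 : Filter.Tendsto zs u (𝓝[D.V0] w) :=
        tendsto_nhdsWithin_iff.2 ⟨hlim, Filter.Eventually.of_forall hzV⟩
      exact ((yc_cont hD e) w hwV).tendsto.comp h4
    refine tendsto_nhds_unique h3 ?_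
    have h5 : Filter.Tendsto (fun k => D.yc (zs k) e) Filter.atTop (𝓝 0) := by
      have h6 : Filter.Tendsto (fun k : ℕ => η / ((k : ℝ) + 2)) Filter.atTop (𝓝 0) := by
        apply Filter.Tendsto.div_atTop tendsto_const_nhds
        exact Filter.tendsto_atTop_add_const_right _ _ tendsto_natCast_atTop_atTop
      refine squeeze_zero_norm (fun k => ?_) h6
      rw [hyc k, Real.norm_eq_abs]
      exact (hy k e).le
    exact h5.mono_left huf
  have h8 := hmax w ⟨hwV, hwt, hwy⟩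
  rw [hwa] at h8
  have h9 : (1 : ℝ) < Real.exp (η / 2) := Real.one_lt_exp_iff.2 (by positivity)
  have h10 : (0 : ℝ) < γ0 := by exact_mod_cast hγ
  nlinarith

/-- (ND3) -/
theorem IsMaxG.card_eq (h6 : StmtQ6) (h7 : StmtQ7) (hg : StmtGp) (hD : D.Ok) {a0 : A} {γ0 : ℝ≥0}
    (hγ : 0 < γ0) (hmax : ∀ z ∈ D.Fw, z.v a0 ≤ γ0) {J : Set (Option D.E')} {z : Ber K A}
    (h : D.IsMaxG a0 γ0 J z) {B : Set E} (hB : D.M.IsBase B) (he0 : D.e0 ∈ B) :
    J.ncard = (B \ {D.e0}).ncard ∧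
      Function.Injective (MvPolynomial.aeval (D.tx a0 J) : MvPolynomial (I ⊕ J) K →ₐ[K] A) ∧
      (none ∉ J → D.M.IsBase (D.JE J)) ∧ (none ∈ J → (D.JE J).ncard + 1 = B.ncard) := by
  classical
  have h1 := h.indep h6 h7 hg hD hγ
  obtain ⟨h2, h3⟩ := ncard_indep hB h1
  obtain ⟨h4, h5⟩ := card_le h6 hD hB he0 (D.tx a0 J) z (h.zmp h6 hD hγ)
  have hBc : (B \ {D.e0}).ncard + 1 = B.ncard :=
    Set.ncard_sdiff_singleton_add_one he0 (Set.toFinite _)
  have hσ : Nat.card (I ⊕ J) = Nat.card I + J.ncard := by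
    rw [Nat.card_sum, Nat.card_coe_set_eq]
  rw [hσ] at h4 h5
  have hJ : J.ncard + 1 = (D.JE J).ncard + (if none ∈ J then 1 else 0) := Rk.ncard_JE D J
  have h6' : J.ncard ≤ (B \ {D.e0}).ncard := by
    by_cases hn : none ∈ J
    · have h7' := h.not_base h6 h7 hg hD hγ hmax hn
      rw [if_pos hn] at hJ
      have h8 : (D.JE J).ncard ≠ B.ncard := fun h9 => h7' (h3 h9)
      omega
    · rw [if_neg hn] at hJ
      omega
  have h7' : J.ncard = (B \ {D.e0}).ncard := by omega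
  refine ⟨h7', h5 (by omega), fun hn => h3 ?_, fun hn => ?_⟩
  · rw [if_neg hn] at hJ
    omega
  · rw [if_pos hn] at hJ
    omega

/-- (ND3) openness over `t` and the family `J`. -/
theorem IsMaxG.open1 (h6 : StmtQ6) (h7 : StmtQ7) (hg : StmtGp) (hD : D.Ok) {a0 : A} {γ0 : ℝ≥0}
    (hγ : 0 < γ0) (hmax : ∀ z ∈ D.Fw, z.v a0 ≤ γ0) {J : Set (Option D.E')} {z : Ber K A}
    (h : D.IsMaxG a0 γ0 J z) {V : Set (Ber K A)} (hV : V ∈ 𝓝 z) :
    ∀ᶠ p in 𝓝 (Sum.elim (fun _ => 0) (fun j => D.xg γ0 j.1) : I ⊕ J → ℝ≥0), ∃ z' ∈ V,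
      GaussAt (D.tx a0 J) p z' := by
  obtain ⟨B, hB, he0⟩ := exists_base hD
  obtain ⟨-, hinj, -⟩ := h.card_eq h6 h7 hg hD hγ hmax hB he0
  obtain ⟨g, hg1, hg2⟩ := hg K (I ⊕ J)
  have h1 := h7 K (MvPolynomial (I ⊕ J) K) A (MvPolynomial.aeval (D.tx a0 J)) hinj z
    (h.zmp h6 hD hγ) V hV
  have h2 : GaussAt (D.tx a0 J) (Sum.elim (fun _ => 0) (fun j => D.xg γ0 j.1)) z :=
    h.gauss.sum_zero h.mem.1.2.1
  have h3 : Ber.res (MvPolynomial.aeval (D.tx a0 J)) z =
      g (Sum.elim (fun _ => 0) (fun j => D.xg γ0 j.1)) := by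
    apply Ber.ext_v
    intro P
    rw [hg2 _ P]
    exact h2 P
  rw [h3] at h1
  filter_upwards [hg1.continuousAt.eventually h1] with p hp
  obtain ⟨z', hz'V, hz'g⟩ := hp
  refine ⟨z', hz'V, fun P => ?_⟩
  rw [← hg2 p P, ← hz'g]
  rfl

end NDat

end Pool.Agent.TD


end

section

/-! Local data ND0: the maximum principle (PAPER2.md, ND4; module TD_N_MP). -/

open scoped Topology NNReal

namespace Pool.Agent.TD

namespace NDat

section Mp

variable {K A I E : Type} [NormedField K] [CommRing A] [Algebra K A] {D : NDat K A I E}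

/-- The radii of the family `J` at a point of `F_(r,y)`, the radius of `a0` is `g`. -/
noncomputable def mpR (D : NDat K A I E) (J : Set (Option D.E')) (g : ℝ≥0) (r : I → ℝ≥0)
    (y : E → ℝ) : I ⊕ J → ℝ≥0 :=
  Sum.elim r fun j => j.1.elim g fun e => D.rd y e.1

theorem mpR_tendsto (J : Set (Option D.E')) (g : ℝ≥0) {r : ℕ → I → ℝ≥0} {y : ℕ → E → ℝ}
    (hr : ∀ i, Filter.Tendsto (fun k => r k i) Filter.atTop (𝓝 0))
    (hy : ∀ e, Filter.Tendsto (fun k => y k e) Filter.atTop (𝓝 0)) :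
    Filter.Tendsto (fun k => mpR D J g (r k) (y k)) Filter.atTop
      (𝓝 (Sum.elim (fun _ => 0) (fun j => D.xg g j.1) : I ⊕ J → ℝ≥0)) := by
  rw [tendsto_pi_nhds]
  rintro (i | ⟨o, ho⟩)
  · exact hr i
  · rcases o with _ | e
    · exact tendsto_const_nhds
    · show Filter.Tendsto (fun k => D.ρ e.1 * (Real.exp (y k e.1)).toNNReal) Filter.atTop
        (𝓝 (D.ρ e.1))
      have h1 : Filter.Tendsto (fun k => (Real.exp (y k e.1)).toNNReal) Filter.atTop
          (𝓝 (Real.exp 0).toNNReal) :=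
        (continuous_real_toNNReal.tendsto _).comp
          ((Real.continuous_exp.tendsto _).comp (hy e.1))
      rw [Real.exp_zero, Real.toNNReal_one] at h1
      have h2 := h1.const_mul (D.ρ e.1)
      rwa [mul_one] at h2

theorem tendsto_r {B : Set E} {r : ℕ → I → ℝ≥0} {y : ℕ → E → ℝ}
    (hg : ∀ k : ℕ, D.Gen (1 / ((k : ℝ) + 1)) B (r k) (y k)) (i : I) :
    Filter.Tendsto (fun k => r k i) Filter.atTop (𝓝 0) := by
  rw [← NNReal.tendsto_coe, NNReal.coe_zero]
  exact squeeze_zero (fun k => NNReal.coe_nonneg _) (fun k => ((hg k).rlt i).le)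
    tendsto_one_div_add_atTop_nhds_zero_nat

theorem tendsto_y {B : Set E} {r : ℕ → I → ℝ≥0} {y : ℕ → E → ℝ}
    (hg : ∀ k : ℕ, D.Gen (1 / ((k : ℝ) + 1)) B (r k) (y k)) (e : E) :
    Filter.Tendsto (fun k => y k e) Filter.atTop (𝓝 0) :=
  squeeze_zero_norm (fun k => by rw [Real.norm_eq_abs]; exact ((hg k).ylt e).le)
    tendsto_one_div_add_atTop_nhds_zero_nat

end Mp

variable {K A I E : Type} [NormedField K] [IsUltrametricDist K] [Finite I] [Finite E]
  [CommRing A] [IsDomain A] [Algebra K A] [Algebra.FiniteType K A] {D : NDat K A I E}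

/-- (ND4), first case: `a0` is not in the family. -/
theorem mp_case1 (h6 : StmtQ6) (h7 : StmtQ7) (hg : StmtGp) (hD : D.Ok) {a0 : A} {γ0 : ℝ≥0}
    (hγ : 0 < γ0) (hmax : ∀ z ∈ D.Fw, z.v a0 ≤ γ0) {J : Set (Option D.E')} {z : Ber K A}
    (h : D.IsMaxG a0 γ0 J z) (hn : none ∉ J) {ε δ : ℝ} (hε : 0 < ε) (hδ : 0 < δ) :
    ∃ B r y z', D.M.IsBase B ∧ D.e0 ∈ B ∧ D.Gen δ B r y ∧ D.IsTop B r y z' ∧
      γ0 - ε < z'.v a0 := by
  obtain ⟨B0, hB0, he00⟩ := exists_base hD
  have hB : D.M.IsBase (D.JE J) := (h.card_eq h6 h7 hg hD hγ hmax hB0 he00).2.2.1 hn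
  have he0 : D.e0 ∈ D.JE J := Or.inl rfl
  have hzF : z ∈ D.Fw := h.mem.1
  have hza : z.v a0 = γ0 := h.mem.2
  have hV : D.V0 ∩ {z' | (γ0 : ℝ) - ε < z'.v a0} ∈ 𝓝 z := by
    apply Filter.inter_mem (hD.nhd z hzF)
    have ho : IsOpen {z' : Ber K A | (γ0 : ℝ) - ε < z'.v a0} :=
      isOpen_lt continuous_const (Ber.continuous_v a0)
    apply ho.mem_nhds
    show (γ0 : ℝ) - ε < z.v a0
    rw [hza]
    linarith
  have hop := h.open1 h6 h7 hg hD hγ hmax hV
  have hk : ∀ k : ℕ, ∃ (r : I → ℝ≥0) (y : E → ℝ), D.Gen (1 / ((k : ℝ) + 1)) (D.JE J) r y :=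
    fun k => exists_Gen hD hB he0 (by positivity)
  choose r y hgk using hk
  have ht := (mpR_tendsto (D := D) J γ0 (tendsto_r hgk) (tendsto_y hgk)).eventually hop
  have hsm : ∀ᶠ k : ℕ in Filter.atTop, 1 / ((k : ℝ) + 1) < min δ D.δ0 :=
    tendsto_one_div_add_atTop_nhds_zero_nat.eventually_lt_const (lt_min hδ hD.δpos)
  obtain ⟨k, ⟨z'', ⟨hzV, hza''⟩, hG⟩, hk⟩ := (ht.and hsm).exists
  have hg1 : D.Gen δ (D.JE J) (r k) (y k) := (hgk k).mono (hk.le.trans (min_le_left _ _))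
  have hg2 : D.Gen D.δ0 (D.JE J) (r k) (y k) := (hgk k).mono (hk.le.trans (min_le_right _ _))
  have hmem : ∀ e : (D.JE J \ {D.e0} : Set E), ∃ h : e.1 ≠ D.e0,
      some (⟨e.1, h⟩ : D.E') ∈ J := by
    rintro ⟨e, he1, he2⟩
    rcases he1 with he1 | he1
    · exact absurd he1 he2
    · exact he1
  choose hne hJ using hmem
  let f : I ⊕ (D.JE J \ {D.e0} : Set E) → I ⊕ J :=
    Sum.map id (fun e => (⟨some ⟨e.1, hne e⟩, hJ e⟩ : J))
  have hf : Function.Injective f := by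
    apply Function.Injective.sumMap Function.injective_id
    intro e e' hee
    have h1 := congrArg Subtype.val hee
    have h2 := Option.some.inj h1
    exact Subtype.ext (congrArg (fun x : D.E' => x.1) h2)
  have hG2 := hG.comp f hf
  have e1 : (fun i => D.tx a0 J (f i)) = D.vr (D.JE J \ {D.e0}) := by
    funext i
    rcases i with i | e
    · rfl
    · rfl
  have e2 : (fun i => mpR D J γ0 (r k) (y k) (f i)) =
      Sum.elim (r k) fun e : (D.JE J \ {D.e0} : Set E) => D.rd (y k) e.1 := by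
    funext i
    rcases i with i | e
    · rfl
    · rfl
  rw [e1, e2] at hG2
  have hFry : z'' ∈ D.Fry (r k) (y k) := mem_Fry' hD hB hg2 hzV hG2
  obtain ⟨z', hz'⟩ := hD.top (D.JE J) (r k) (y k) hB he0 hg2
  refine ⟨D.JE J, r k, y k, z', hB, he0, hg1, hz', ?_⟩
  exact lt_of_lt_of_le hza'' (hz'.max z'' hFry a0)

/-- (ND4), second case: `a0` is in the family. -/
theorem mp_case2 (h6 : StmtQ6) (h7 : StmtQ7) (hg : StmtGp) (hD : D.Ok) {a0 : A} {γ0 : ℝ≥0}
    (hγ : 0 < γ0) (hmax : ∀ z ∈ D.Fw, z.v a0 ≤ γ0) {J : Set (Option D.E')} {z : Ber K A}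
    (h : D.IsMaxG a0 γ0 J z) (hn : none ∈ J) {δ : ℝ} (hδ : 0 < δ) :
    ∃ B r y z', D.M.IsBase B ∧ D.e0 ∈ B ∧ D.Gen δ B r y ∧ D.IsTop B r y z' ∧
      γ0 ≤ z'.v a0 := by
  by_contra hcon
  push Not at hcon
  obtain ⟨B0, hB0, he00⟩ := exists_base hD
  have hI : D.M.Indep (D.JE J) := h.indep h6 h7 hg hD hγ
  have hcard : (D.JE J).ncard + 1 = B0.ncard := (h.card_eq h6 h7 hg hD hγ hmax hB0 he00).2.2.2 hn
  have he0 : D.e0 ∈ D.JE J := Or.inl rfl
  obtain ⟨B1, hB1, hIB⟩ := hI.exists_isBase_superset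
  have hzF : z ∈ D.Fw := h.mem.1
  set δ1 : ℝ := min δ D.δ0 with hδ1
  have hδ1pos : 0 < δ1 := lt_min hδ hD.δpos
  -- the neighbourhood
  have hV : {z' | z' ∈ D.V0 ∧ (∀ i, z'.v (D.t i) < δ1) ∧ ∀ e, |D.yc z' e| < δ1} ∈ 𝓝 z := by
    have h1 : ∀ᶠ z' in 𝓝 z, z' ∈ D.V0 := hD.nhd z hzF
    have h2 : ∀ᶠ z' in 𝓝 z, ∀ i, z'.v (D.t i) < δ1 := by
      rw [Filter.eventually_all]
      intro i
      have h3 : Filter.Tendsto (fun z' : Ber K A => z'.v (D.t i)) (𝓝 z) (𝓝 (z.v (D.t i))) :=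
        (Ber.continuous_v (D.t i)).tendsto z
      rw [hzF.2.1 i] at h3
      exact h3.eventually_lt_const hδ1pos
    have h3 : ∀ᶠ z' in 𝓝 z, ∀ e, |D.yc z' e| < δ1 := by
      rw [Filter.eventually_all]
      intro e
      have h4 : Filter.Tendsto (fun z' : Ber K A => D.yc z' e) (𝓝 z) (𝓝 (D.yc z e)) :=
        (yc_cont hD e).continuousAt (hD.nhd z hzF)
      have h5 := h4.abs
      rw [hzF.2.2 e, abs_zero] at h5
      exact h5.eventually_lt_const hδ1pos
    filter_upwards [h1, h2, h3] with z' a1 a2 a3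
    exact ⟨a1, a2, a3⟩
  have hop := h.open1 h6 h7 hg hD hγ hmax hV
  -- a radius larger than `γ0`
  have hcont : Continuous (fun g : ℝ≥0 =>
      (Sum.elim (fun _ => 0) (fun j => D.xg g j.1) : I ⊕ J → ℝ≥0)) := by
    apply continuous_pi
    rintro (i | ⟨o, ho⟩)
    · exact continuous_const
    · rcases o with _ | e
      · exact continuous_id
      · exact continuous_const
  have hop2 := (hcont.tendsto γ0).eventually hop.eventually_nhds
  have hγ' : ∃ γ' : ℝ≥0, (∀ᶠ p in 𝓝 (Sum.elim (fun _ => 0) (fun j => D.xg γ' j.1) :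
      I ⊕ J → ℝ≥0), ∃ z' ∈ {z' | z' ∈ D.V0 ∧ (∀ i, z'.v (D.t i) < δ1) ∧
        ∀ e, |D.yc z' e| < δ1}, GaussAt (D.tx a0 J) p z') ∧ γ0 < γ' := by
    have h1 : ∀ᶠ g in 𝓝[>] γ0, γ0 < g := self_mem_nhdsWithin
    exact ((hop2.filter_mono nhdsWithin_le_nhds).and h1).exists
  obtain ⟨γ', hop3, hlt⟩ := hγ'
  -- the sequence
  have hk : ∀ k : ℕ, ∃ (r : I → ℝ≥0) (y : E → ℝ), D.Gen (1 / ((k : ℝ) + 1)) B1 r y :=
    fun k => exists_Gen hD hB1 (hIB he0) (by positivity)
  choose r y hgk using hk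
  have ht := (mpR_tendsto (D := D) J γ' (tendsto_r hgk) (tendsto_y hgk)).eventually hop3
  have hex : ∀ k : ℕ, ∃ z' : Ber K A, (∃ z'' ∈ {z' | z' ∈ D.V0 ∧ (∀ i, z'.v (D.t i) < δ1) ∧
      ∀ e, |D.yc z' e| < δ1}, GaussAt (D.tx a0 J) (mpR D J γ' (r k) (y k)) z'') →
      z' ∈ D.V0 ∧ (∀ i, z'.v (D.t i) < δ1) ∧ (∀ e, |D.yc z' e| < δ1) ∧
        GaussAt (D.tx a0 J) (mpR D J γ' (r k) (y k)) z' := by
    intro k
    by_cases hc : ∃ z'' ∈ {z' | z' ∈ D.V0 ∧ (∀ i, z'.v (D.t i) < δ1) ∧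
      ∀ e, |D.yc z' e| < δ1}, GaussAt (D.tx a0 J) (mpR D J γ' (r k) (y k)) z''
    · obtain ⟨z'', ⟨h1, h2, h3⟩, h4⟩ := hc
      exact ⟨z'', fun _ => ⟨h1, h2, h3, h4⟩⟩
    · exact ⟨z, fun hc' => absurd hc' hc⟩
  choose w hw using hex
  have hev : ∀ᶠ k : ℕ in Filter.atTop, w k ∈ D.V0 ∧ (∀ i, (w k).v (D.t i) < δ1) ∧
      (∀ e, |D.yc (w k) e| < δ1) ∧ GaussAt (D.tx a0 J) (mpR D J γ' (r k) (y k)) (w k) :=
    ht.mono fun k hk => hw k hk
  -- values
  have hvt : ∀ k, GaussAt (D.tx a0 J) (mpR D J γ' (r k) (y k)) (w k) →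
      ∀ i, (w k).v (D.t i) = r k i := fun k hk i => hk.v_eq (Sum.inl i)
  have hva : ∀ k, GaussAt (D.tx a0 J) (mpR D J γ' (r k) (y k)) (w k) →
      (w k).v a0 = γ' := fun k hk => hk.v_eq (Sum.inr ⟨none, hn⟩)
  have hvy : ∀ k, GaussAt (D.tx a0 J) (mpR D J γ' (r k) (y k)) (w k) → ∀ e ∈ D.JE J,
      D.yc (w k) e = y k e := by
    intro k hk e he
    rcases he with rfl | ⟨hne, heJ⟩
    · rw [yc_e0 hD, (hgk k).y0]
    · exact yc_of_v hD (hk.v_eq (Sum.inr ⟨some ⟨e, hne⟩, heJ⟩))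
  have hyc : ∀ᶠ k : ℕ in Filter.atTop, ∀ e, |D.yc (w k) e| ≤ 1 / ((k : ℝ) + 1) := by
    filter_upwards [hev] with k hk e
    obtain ⟨hk1, hk2, hk3, hk4⟩ := hk
    have hinj : Set.InjOn (D.yc (w k)) (D.JE J) := by
      intro a ha b hb hab
      rw [hvy k hk4 a ha, hvy k hk4 b hb] at hab
      exact (hgk k).inj (hIB ha) (hIB hb) hab
    have hval : (∃ b ∈ D.JE J, D.yc (w k) e = D.yc (w k) b) →
        |D.yc (w k) e| ≤ 1 / ((k : ℝ) + 1) := by
      rintro ⟨b, hb, hbe⟩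
      rw [hbe, hvy k hk4 b hb]
      exact ((hgk k).ylt b).le
    by_contra hnot
    have hnv : ¬ ∃ b ∈ D.JE J, D.yc (w k) e = D.yc (w k) b := fun hc => hnot (hval hc)
    push Not at hnv
    obtain ⟨hI2, hinj2⟩ := (hD.berg (w k) hk1).insert_indep hD.ground hI hinj hnv
    have heI : e ∉ D.JE J := fun hc => hnv e hc rfl
    have hB2 : D.M.IsBase (insert e (D.JE J)) := by
      apply (ncard_indep hB0 hI2).2
      rw [Set.ncard_insert_of_notMem heI (Set.toFinite _)]
      exact hcard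
    have hgen : D.Gen δ1 (insert e (D.JE J)) (r k) (D.yc (w k)) := by
      refine ⟨(hgk k).rpos, fun i => ?_, hD.berg (w k) hk1, yc_e0 hD _, hk3, hinj2⟩
      have h1 := hk2 i
      rwa [hvt k hk4 i] at h1
    have he0' : D.e0 ∈ insert e (D.JE J) := Or.inr he0
    obtain ⟨z', hz'⟩ := hD.top _ _ _ hB2 he0' (hgen.mono (min_le_right _ _))
    have h1 := hcon _ _ _ z' hB2 he0' (hgen.mono (min_le_left _ _)) hz'
    have h2 : (w k).v a0 ≤ z'.v a0 := hz'.max (w k) ⟨hk1, hvt k hk4, fun _ => rfl⟩ a0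
    rw [hva k hk4] at h2
    have h3 : (γ0 : ℝ) < γ' := by exact_mod_cast hlt
    linarith
  -- a cluster point
  obtain ⟨x, hxV, hx⟩ := hD.comp.exists_mapClusterPt_of_frequently
    (l := Filter.atTop) (f := w) (hev.mono fun k hk => hk.1).frequently
  rw [mapClusterPt_iff_ultrafilter] at hx
  obtain ⟨U, hU, hUx⟩ := hx
  have hvx : ∀ b : A, Filter.Tendsto (fun k => (w k).v b) U (𝓝 (x.v b)) := fun b =>
    ((Ber.continuous_v b).tendsto x).comp hUx
  have hxt : ∀ i, x.v (D.t i) = 0 := by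
    intro i
    apply tendsto_nhds_unique (hvx (D.t i))
    have h1 : Filter.Tendsto (fun k => ((r k i : ℝ≥0) : ℝ)) U (𝓝 0) := by
      have h2 := tendsto_r hgk i
      rw [← NNReal.tendsto_coe, NNReal.coe_zero] at h2
      exact h2.mono_left hU
    refine h1.congr' ?_
    filter_upwards [hU hev] with k hk
    exact (hvt k hk.2.2.2 i).symm
  have hxa : x.v a0 = γ' := by
    apply tendsto_nhds_unique (hvx a0)
    refine Filter.Tendsto.congr' ?_ tendsto_const_nhds
    filter_upwards [hU hev] with k hk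
    exact (hva k hk.2.2.2).symm
  have hxy : ∀ e, D.yc x e = 0 := by
    intro e
    have h1 : Filter.Tendsto (fun k => D.yc (w k) e) U (𝓝 (D.yc x e)) := by
      have h2 : ContinuousWithinAt (fun z => D.yc z e) D.V0 x := yc_cont hD e x hxV
      have h3 : Filter.Tendsto w U (𝓝[D.V0] x) := by
        rw [tendsto_nhdsWithin_iff]
        exact ⟨hUx, Filter.mem_of_superset (hU hev) fun k hk => hk.1⟩
      exact h2.tendsto.comp h3
    apply tendsto_nhds_unique h1
    have h4 : Filter.Tendsto (fun k : ℕ => 1 / ((k : ℝ) + 1)) U (𝓝 0) :=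
      tendsto_one_div_add_atTop_nhds_zero_nat.mono_left hU
    apply squeeze_zero_norm' _ h4
    filter_upwards [hU hyc] with k hk
    rw [Real.norm_eq_abs]
    exact hk e
  have hxF : x ∈ D.Fw := ⟨hxV, hxt, hxy⟩
  have h1 := hmax x hxF
  rw [hxa] at h1
  exact absurd h1 (not_le.2 (by exact_mod_cast hlt))

/-- (ND4) the maximum principle. -/
theorem max_principle (h6 : StmtQ6) (h7 : StmtQ7) (hg : StmtGp) (hD : D.Ok) (a : A)
    {z : Ber K A} (hz : z ∈ D.Fw) {ε δ : ℝ} (hε : 0 < ε) (hδ : 0 < δ) :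
    ∃ B r y z', D.M.IsBase B ∧ D.e0 ∈ B ∧ D.Gen δ B r y ∧ D.IsTop B r y z' ∧
      z.v a - ε < z'.v a := by
  rcases (z.nonneg a).eq_or_lt with h0 | h0
  · obtain ⟨B, hB, he0⟩ := exists_base hD
    obtain ⟨r, y, hgen⟩ := exists_Gen hD hB he0 (lt_min hδ hD.δpos)
    obtain ⟨z', hz'⟩ := hD.top B r y hB he0 (hgen.mono (min_le_right _ _))
    refine ⟨B, r, y, z', hB, he0, hgen.mono (min_le_left _ _), hz', ?_⟩
    rw [← h0]
    have := z'.nonneg a
    linarith
  · obtain ⟨z1, hz1, hmax⟩ := (isCompact_Fw hD).exists_isMaxOn hD.ne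
      (Ber.continuous_v a).continuousOn
    have hmax' : ∀ w ∈ D.Fw, w.v a ≤ z1.v a := fun w hw => hmax hw
    let γ0 : ℝ≥0 := ⟨z1.v a, z1.nonneg a⟩
    have hγc : (γ0 : ℝ) = z1.v a := rfl
    have hγ : 0 < γ0 := by
      rw [← NNReal.coe_lt_coe, hγc, NNReal.coe_zero]
      exact lt_of_lt_of_le h0 (hmax' z hz)
    obtain ⟨J, z2, hJ⟩ := exists_isMaxG (D := D) (a0 := a) (γ0 := γ0) ⟨z1, hz1, rfl⟩
    have hle := hmax' z hz
    by_cases hn : none ∈ J
    · obtain ⟨B, r, y, z', h1, h2, h3, h4, h5⟩ :=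
        mp_case2 h6 h7 hg hD hγ (fun w hw => hmax' w hw) hJ hn hδ
      refine ⟨B, r, y, z', h1, h2, h3, h4, ?_⟩
      rw [hγc] at h5
      linarith
    · obtain ⟨B, r, y, z', h1, h2, h3, h4, h5⟩ :=
        mp_case1 h6 h7 hg hD hγ (fun w hw => hmax' w hw) hJ hn hε hδ
      refine ⟨B, r, y, z', h1, h2, h3, h4, ?_⟩
      rw [hγc] at h5
      linarith

end NDat

end Pool.Agent.TD


end

section

/-! Local data ND0: the points over the Gauss point of a basis (PAPER2.md, ND5 i, ii; module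
TD_N_OB). -/

open scoped Topology NNReal

namespace Pool.Agent.TD

/-- Quasi-finiteness over a smaller ring. -/
theorem Ob_zmp_of_comp {K A R R' : Type} [NormedField K] [CommRing A] [Algebra K A] [CommRing R]
    [Algebra K R] [CommRing R'] [Algebra K R'] {φ : R →ₐ[K] A} {ψ : R' →ₐ[K] R} {z : Ber K A}
    (h : Zmp (φ.comp ψ) z) : Zmp φ z := by
  have key : ∀ x : A, (φ.comp ψ).toRingHom.IsIntegralElem x → φ.toRingHom.IsIntegralElem x := by
    rintro x ⟨p, hp, hp0⟩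
    refine ⟨p.map ψ.toRingHom, hp.map _, ?_⟩
    rw [Polynomial.eval₂_map]
    exact hp0
  obtain ⟨g, hg, hgi, hgx⟩ := h
  refine ⟨g, hg, key g hgi, fun x => ?_⟩
  obtain ⟨m, hm⟩ := hgx x
  exact ⟨m, key _ hm⟩

namespace NDat

set_option linter.unusedSectionVars false
set_option linter.unusedVariables false

variable {K A I E : Type} [NormedField K] [IsUltrametricDist K] [Finite I] [Finite E]
  [CommRing A] [IsDomain A] [Algebra K A] [Algebra.FiniteType K A] {D : NDat K A I E}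

/-- The points of `F_w` over the Gauss point of the basis `B`. -/
def Om (D : NDat K A I E) (B : Set E) : Set (Ber K A) :=
  {z | z ∈ D.Fw ∧ GaussAt (fun e : (B \ {D.e0} : Set E) => D.T e.1) (fun e => D.ρ e.1) z}

/-- The radii of the Gauss point of the basis `B`. -/
def eta (D : NDat K A I E) (B : Set E) : I ⊕ (B \ {D.e0} : Set E) → ℝ≥0 :=
  Sum.elim (fun _ => 0) fun e => D.ρ e.1

theorem mem_Om_iff (hD : D.Ok) {B : Set E} {z : Ber K A} : z ∈ D.Om B ↔
    z ∈ D.Fw ∧ GaussAt (D.vr (B \ {D.e0})) (D.eta B) z := by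
  constructor
  · rintro ⟨h1, h2⟩
    exact ⟨h1, h2.sum_zero h1.2.1⟩
  · rintro ⟨h1, h2⟩
    exact ⟨h1, h2.comp Sum.inr Sum.inr_injective⟩

/-- The indices of the basis `B` in the family of `Lc.lean`. -/
def obJ (D : NDat K A I E) (B : Set E) : Set (Option D.E') := {o | ∃ e : D.E', e.1 ∈ B ∧ o = some e}

/-- The reindexing `B - e0 → obJ`. -/
def obR (D : NDat K A I E) (B : Set E) (e : (B \ {D.e0} : Set E)) : D.obJ B :=
  ⟨some ⟨e.1, e.2.2⟩, ⟨e.1, e.2.2⟩, e.2.1, rfl⟩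

omit [IsUltrametricDist K] [Finite I] [Finite E] [IsDomain A] [Algebra.FiniteType K A] in
theorem obR_bijective (B : Set E) : Function.Bijective (D.obR B) := by
  constructor
  · rintro ⟨e, he⟩ ⟨e', he'⟩ h
    have h1 := congrArg Subtype.val h
    have h2 : (⟨e, he.2⟩ : D.E') = ⟨e', he'.2⟩ := Option.some_injective _ h1
    have h3 : e = e' := Subtype.mk.inj h2
    exact Subtype.ext h3
  · rintro ⟨o, e, he, rfl⟩
    exact ⟨⟨e.1, he, e.2⟩, rfl⟩

/-- The reindexing of the family `t`, `T_b`. -/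
def obS (D : NDat K A I E) (B : Set E) : I ⊕ (B \ {D.e0} : Set E) → I ⊕ D.obJ B :=
  Sum.map id (D.obR B)

omit [IsUltrametricDist K] [Finite I] [Finite E] [IsDomain A] [Algebra.FiniteType K A] in
theorem obS_bijective (B : Set E) : Function.Bijective (D.obS B) :=
  ⟨Function.Injective.sumMap Function.injective_id (obR_bijective B).1,
    Function.Surjective.sumMap Function.surjective_id (obR_bijective B).2⟩

omit [IsUltrametricDist K] [Finite I] [Finite E] [IsDomain A] [Algebra.FiniteType K A] in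
theorem ob_tx (B : Set E) : (fun s => D.tx 1 (D.obJ B) (D.obS B s)) = D.vr (B \ {D.e0}) := by
  funext s
  rcases s with i | e
  · rfl
  · rfl

/-- A family with radii, in both indexings. -/
theorem ob_gaussAt_iff (B : Set E) (p : I ⊕ (D.obJ B) → ℝ≥0) {z : Ber K A} :
    GaussAt (D.tx 1 (D.obJ B)) p z ↔
      GaussAt (D.vr (B \ {D.e0})) (fun s => p (D.obS B s)) z := by
  constructor
  · intro h
    have h1 := h.comp (D.obS B) (obS_bijective B).1
    rwa [ob_tx] at h1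
  · intro h
    obtain ⟨g, hg1, hg2⟩ := Function.bijective_iff_has_inverse.1 (obS_bijective (D := D) B)
    have h1 := h.comp g (Function.RightInverse.injective hg2)
    have e1 : (fun i => D.vr (B \ {D.e0}) (g i)) = D.tx 1 (D.obJ B) := by
      rw [← ob_tx]
      funext i
      show D.tx 1 (D.obJ B) (D.obS B (g i)) = _
      rw [hg2 i]
    have e2 : (fun i => p (D.obS B (g i))) = p := by
      funext i
      rw [hg2 i]
    rwa [e1, e2] at h1

/-- The radii of the family `obJ`. -/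
theorem ob_xg (B : Set E) : (fun s => (Sum.elim (fun _ => 0) (fun j => D.xg 1 j.1) :
    I ⊕ D.obJ B → ℝ≥0) (D.obS B s)) = D.eta B := by
  funext s
  rcases s with i | e
  · rfl
  · rfl

/-- (ND5 i) a basis is a maximal Gauss family at the points of `Om`. -/
theorem Om_isMaxG (h6 : StmtQ6) (h7 : StmtQ7) (hg : StmtGp) (hD : D.Ok) {B : Set E}
    (hB : D.M.IsBase B) (he0 : D.e0 ∈ B) {z : Ber K A} (hz : z ∈ D.Om B) :
    D.IsMaxG 1 1 {o | ∃ e : D.E', e.1 ∈ B ∧ o = some e} z := by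
  have hz' := (mem_Om_iff hD).1 hz
  refine ⟨⟨⟨hz.1, ?_⟩, ?_⟩, ?_⟩
  · rw [z.one, NNReal.coe_one]
  · have h1 : GaussAt (D.tx 1 (D.obJ B)) (Sum.elim (fun _ => 0) (fun j => D.xg 1 j.1)) z := by
      rw [ob_gaussAt_iff, ob_xg]
      exact hz'.2
    exact h1.comp Sum.inr Sum.inr_injective
  · intro z' J' hJ'
    obtain ⟨J'', z'', h''⟩ := exists_isMaxG (D := D) (a0 := 1) (γ0 := 1) ⟨z', hJ'.mem⟩
    have h1 := (IsMaxG.card_eq h6 h7 hg hD one_pos
      (fun w _ => by rw [w.one, NNReal.coe_one]) h'' hB he0).1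
    have h2 : (B \ {D.e0}).ncard = (D.obJ B).ncard := by
      rw [← Nat.card_coe_set_eq, ← Nat.card_coe_set_eq]
      exact Nat.card_eq_of_bijective _ (obR_bijective B)
    exact (h''.max z' J' hJ').trans (by rw [h1, h2]; exact le_rfl)

theorem Om_zmp (h6 : StmtQ6) (h7 : StmtQ7) (hg : StmtGp) (hD : D.Ok) {B : Set E}
    (hB : D.M.IsBase B) (he0 : D.e0 ∈ B) {z : Ber K A} (hz : z ∈ D.Om B) :
    Zmp (D.ph (B \ {D.e0})) z := by
  have h1 := IsMaxG.zmp h6 hD one_pos (Om_isMaxG h6 h7 hg hD hB he0 hz)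
  obtain ⟨g, hg1, hg2⟩ := Function.bijective_iff_has_inverse.1 (obS_bijective (D := D) B)
  have e1 : (MvPolynomial.aeval (D.tx 1 (D.obJ B)) : MvPolynomial (I ⊕ D.obJ B) K →ₐ[K] A) =
      (D.ph (B \ {D.e0})).comp (MvPolynomial.rename g) := by
    apply MvPolynomial.algHom_ext
    intro i
    rw [AlgHom.comp_apply, MvPolynomial.aeval_X, MvPolynomial.rename_X]
    unfold ph
    rw [MvPolynomial.aeval_X, ← ob_tx]
    show _ = D.tx 1 (D.obJ B) (D.obS B (g i))
    rw [hg2 i]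
  have h2 : Zmp (MvPolynomial.aeval (D.tx 1 (D.obJ B)) :
    MvPolynomial (I ⊕ D.obJ B) K →ₐ[K] A) z := h1
  rw [e1] at h2
  exact Ob_zmp_of_comp h2

/-- `Om` is open in the fibre over the Gauss point. -/
theorem Om_open (h6 : StmtQ6) (h7 : StmtQ7) (hg : StmtGp) (hD : D.Ok) {B : Set E}
    (hB : D.M.IsBase B) (he0 : D.e0 ∈ B) : ∃ V : Set (Ber K A), IsOpen V ∧
      D.Om B = V ∩ {z | GaussAt (D.vr (B \ {D.e0})) (D.eta B) z} := by
  rcases (D.Om B).eq_empty_or_nonempty with h | ⟨z, hz⟩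
  · exact ⟨∅, isOpen_empty, by rw [h, Set.empty_inter]⟩
  have hz' := (mem_Om_iff hD).1 hz
  obtain ⟨V, hV, h1⟩ := IsMaxG.fibre hD one_pos (Om_isMaxG h6 h7 hg hD hB he0 hz)
  refine ⟨V, hV, ?_⟩
  have key : ∀ z' : Ber K A, GaussAt (D.vr (B \ {D.e0})) (D.eta B) z' ↔
      fam (D.tx 1 (D.obJ B)) z' = fam (D.tx 1 (D.obJ B)) z := by
    intro z'
    have hz2 := hz'.2
    rw [← ob_xg, ← ob_gaussAt_iff] at hz2 ⊢
    constructor
    · intro h
      exact h.fam_eq hz2
    · intro h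
      rw [gaussAt_iff] at hz2 ⊢
      rw [h]
      exact hz2
  ext z'
  have h2 := Set.ext_iff.1 h1 z'
  rw [mem_Om_iff hD]
  simp only [Set.mem_inter_iff, Set.mem_ofPred_eq] at h2 ⊢
  rw [key z']
  constructor
  · rintro ⟨h3, h4⟩
    exact h2.1 ⟨⟨h3, by rw [z'.one, NNReal.coe_one]⟩, h4⟩
  · intro h3
    have h4 := h2.2 h3
    exact ⟨h4.1.1, h4.2⟩

/-- The radii of generic points tending to `0` tend to the radii of the Gauss point. -/
theorem ob_tendsto_radii {ι : Type} {l : Filter ι} {B : Set E} {δ : ι → ℝ}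
    (hδ : Filter.Tendsto δ l (𝓝 0)) {r : ι → I → ℝ≥0} {y : ι → E → ℝ}
    (hg : ∀ k, D.Gen (δ k) B (r k) (y k)) :
    (∀ i, Filter.Tendsto (fun k => ((r k i : ℝ≥0) : ℝ)) l (𝓝 0)) ∧
    (∀ e, Filter.Tendsto (fun k => y k e) l (𝓝 0)) ∧
    Filter.Tendsto (fun k => (Sum.elim (r k) fun e => D.rd (y k) e.1 :
      I ⊕ (B \ {D.e0} : Set E) → ℝ≥0)) l (𝓝 (D.eta B)) := by
  have h1 : ∀ i, Filter.Tendsto (fun k => ((r k i : ℝ≥0) : ℝ)) l (𝓝 0) := fun i =>
    squeeze_zero (fun k => (r k i).2) (fun k => ((hg k).rlt i).le) hδ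
  have h2 : ∀ e, Filter.Tendsto (fun k => y k e) l (𝓝 0) := fun e =>
    squeeze_zero_norm (fun k => ((hg k).ylt e).le) hδ
  refine ⟨h1, h2, ?_⟩
  rw [tendsto_pi_nhds]
  rintro (i | e)
  · show Filter.Tendsto (fun k => r k i) l (𝓝 0)
    rw [← NNReal.tendsto_coe]
    exact h1 i
  · show Filter.Tendsto (fun k => D.rd (y k) e.1) l (𝓝 (D.ρ e.1))
    have h3 : Filter.Tendsto (fun k => D.ρ e.1 * (Real.exp (y k e.1)).toNNReal) l
        (𝓝 (D.ρ e.1 * (Real.exp 0).toNNReal)) := by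
      refine Filter.Tendsto.const_mul _ ?_
      exact (continuous_real_toNNReal.tendsto _).comp
        ((Real.continuous_exp.tendsto 0).comp (h2 e.1))
    rw [Real.exp_zero, Real.toNNReal_one, mul_one] at h3
    exact h3

/-- Cluster points of top points: if `z k` are top points of generic points tending to `0`, for
the basis `B`, every cluster point is in `Om B`. -/
theorem cluster_mem_Om (hD : D.Ok) {B : Set E} (hB : D.M.IsBase B) (he0 : D.e0 ∈ B)
    {δ : ℕ → ℝ} (hδ : Filter.Tendsto δ Filter.atTop (𝓝 0)) {r : ℕ → I → ℝ≥0} {y : ℕ → E → ℝ}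
    (hg : ∀ k, D.Gen (δ k) B (r k) (y k)) {z : ℕ → Ber K A}
    (hz : ∀ k, z k ∈ D.Fry (r k) (y k))
    (hz' : ∀ k, GaussAt (D.vr (B \ {D.e0})) (Sum.elim (r k) fun e => D.rd (y k) e.1) (z k))
    {z0 : Ber K A} (hz0 : MapClusterPt z0 Filter.atTop z) : z0 ∈ D.Om B := by
  obtain ⟨U, hU, hUz⟩ := mapClusterPt_iff_ultrafilter.1 hz0
  obtain ⟨t1, t2, t3⟩ := ob_tendsto_radii (D := D) (hδ.mono_left hU) hg
  have hV0 : z0 ∈ D.V0 := hD.comp.isClosed.mem_of_tendsto hUz
    (Filter.Eventually.of_forall fun k => (hz k).1)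
  have hUz' : Filter.Tendsto z U (𝓝[D.V0] z0) :=
    tendsto_nhdsWithin_iff.2 ⟨hUz, Filter.Eventually.of_forall fun k => (hz k).1⟩
  rw [mem_Om_iff hD]
  refine ⟨⟨hV0, fun i => ?_, fun e => ?_⟩, ?_⟩
  · have h1 : Filter.Tendsto (fun k => (z k).v (D.t i)) U (𝓝 (z0.v (D.t i))) :=
      ((Ber.continuous_v (D.t i)).tendsto z0).comp hUz
    have h2 : (fun k => (z k).v (D.t i)) = fun k => ((r k i : ℝ≥0) : ℝ) :=
      funext fun k => (hz k).2.1 i
    rw [h2] at h1
    exact tendsto_nhds_unique h1 (t1 i)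
  · have h1 : Filter.Tendsto (fun k => D.yc (z k) e) U (𝓝 (D.yc z0 e)) :=
      (yc_cont hD e z0 hV0).tendsto.comp hUz'
    have h2 : (fun k => D.yc (z k) e) = fun k => y k e := funext fun k => (hz k).2.2 e
    rw [h2] at h1
    exact tendsto_nhds_unique h1 (t2 e)
  · exact GaussAt.of_tendsto t3 hUz (Filter.Eventually.of_forall hz')

theorem Om_nonempty (hD : D.Ok) {B : Set E} (hB : D.M.IsBase B) (he0 : D.e0 ∈ B) :
    (D.Om B).Nonempty := by
  have hδ0 := hD.δpos
  have hδ : ∀ k : ℕ, 0 < min (1 / ((k : ℝ) + 1)) D.δ0 := fun k =>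
    lt_min (by positivity) hδ0
  choose r y hg using fun k : ℕ => exists_Gen hD hB he0 (hδ k)
  choose z hz using fun k : ℕ => hD.top B (r k) (y k) hB he0 ((hg k).mono (min_le_right _ _))
  have hlim : Filter.Tendsto (fun k : ℕ => min (1 / ((k : ℝ) + 1)) D.δ0) Filter.atTop (𝓝 0) :=
    squeeze_zero (fun k => (hδ k).le) (fun k => min_le_left _ _)
      tendsto_one_div_add_atTop_nhds_zero_nat
  obtain ⟨z0, -, hz0⟩ := hD.comp.exists_mapClusterPt (f := Filter.atTop) (u := z)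
    (Filter.tendsto_principal.2 (Filter.Eventually.of_forall fun k => (hz k).mem.1))
  exact ⟨z0, cluster_mem_Om hD hB he0 hlim hg (fun k => (hz k).mem) (fun k => (hz k).gauss) hz0⟩

/-- (ND5 ii) -/
theorem Om_subsingleton (h6 : StmtQ6) (h7 : StmtQ7) (hg : StmtGp) (hD : D.Ok) {B : Set E}
    (hB : D.M.IsBase B) (he0 : D.e0 ∈ B) : (D.Om B).Subsingleton := by
  intro z hz z' hz'
  by_contra hne
  obtain ⟨U, U', hU, hU', hzU, hzU', hdis⟩ := t2_separation hne
  have hδ0 := hD.δpos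
  have hδ : ∀ k : ℕ, 0 < min (1 / ((k : ℝ) + 1)) D.δ0 := fun k =>
    lt_min (by positivity) hδ0
  choose r y hgen using fun k : ℕ => exists_Gen hD hB he0 (hδ k)
  have hlim : Filter.Tendsto (fun k : ℕ => min (1 / ((k : ℝ) + 1)) D.δ0) Filter.atTop (𝓝 0) :=
    squeeze_zero (fun k => (hδ k).le) (fun k => min_le_left _ _)
      tendsto_one_div_add_atTop_nhds_zero_nat
  obtain ⟨-, -, t3⟩ := ob_tendsto_radii (D := D) hlim hgen
  obtain ⟨g, hg1, hg2⟩ := Function.bijective_iff_has_inverse.1 (obS_bijective (D := D) B)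
  have t4 : Filter.Tendsto (fun k => fun s => (Sum.elim (r k) fun e => D.rd (y k) e.1 :
      I ⊕ (B \ {D.e0} : Set E) → ℝ≥0) (g s)) Filter.atTop
      (𝓝 (Sum.elim (fun _ => 0) (fun j => D.xg 1 j.1) : I ⊕ D.obJ B → ℝ≥0)) := by
    rw [tendsto_pi_nhds] at t3 ⊢
    intro s
    have h1 := t3 (g s)
    have h2 : D.obS B (g s) = s := hg2 s
    have h3 : D.eta B (g s) = (Sum.elim (fun _ => 0) (fun j => D.xg 1 j.1) :
        I ⊕ D.obJ B → ℝ≥0) s := by
      rw [← ob_xg]
      show (Sum.elim (fun _ => 0) (fun j => D.xg 1 j.1) : I ⊕ D.obJ B → ℝ≥0) (D.obS B (g s)) = _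
      rw [h2]
    rw [h3] at h1
    exact h1
  have hm := Om_isMaxG h6 h7 hg hD hB he0 hz
  have hm' := Om_isMaxG h6 h7 hg hD hB he0 hz'
  have hmax : ∀ w ∈ D.Fw, w.v (1 : A) ≤ ((1 : ℝ≥0) : ℝ) := fun w _ => by
    rw [w.one, NNReal.coe_one]
  have o1 := t4.eventually (hm.open1 h6 h7 hg hD one_pos hmax
    (Filter.inter_mem (hU.mem_nhds hzU) (hD.nhd z hz.1)))
  have o2 := t4.eventually (hm'.open1 h6 h7 hg hD one_pos hmax
    (Filter.inter_mem (hU'.mem_nhds hzU') (hD.nhd z' hz'.1)))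
  obtain ⟨k, ⟨w, hw, hwg⟩, ⟨w', hw', hwg'⟩⟩ := (o1.and o2).exists
  have conv : ∀ v : Ber K A, GaussAt (D.tx 1 (D.obJ B))
      (fun s => (Sum.elim (r k) fun e => D.rd (y k) e.1 :
        I ⊕ (B \ {D.e0} : Set E) → ℝ≥0) (g s)) v →
      GaussAt (D.vr (B \ {D.e0})) (Sum.elim (r k) fun e => D.rd (y k) e.1) v := by
    intro v hv
    rw [ob_gaussAt_iff] at hv
    have e1 : (fun s => (Sum.elim (r k) fun e => D.rd (y k) e.1 :
        I ⊕ (B \ {D.e0} : Set E) → ℝ≥0) (g (D.obS B s))) =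
        Sum.elim (r k) fun e => D.rd (y k) e.1 := by
      funext s
      have h2 : g (D.obS B s) = s := hg1 s
      rw [h2]
    rwa [e1] at hv
  have c1 := conv w hwg
  have c2 := conv w' hwg'
  have f1 := mem_Fry' hD hB (hgen k) hw.2 c1
  have f2 := mem_Fry' hD hB (hgen k) hw'.2 c2
  have e := hD.uniq B (r k) (y k) hB he0 ((hgen k).mono (min_le_right _ _)) w f1 w' f2
    (c1.fam_eq c2)
  have hw1 := hw.1
  rw [e] at hw1
  exact Set.disjoint_left.1 hdis hw1 hw'.1

end NDat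

end Pool.Agent.TD


end

section

/-! Local data ND0: the maximal point of `F_w` (PAPER2.md, ND5 iii, iv; module TD_N_Z1). -/

open scoped Topology NNReal

namespace Pool.Agent.TD

namespace NDat

variable {K A I E : Type} [NormedField K] [IsUltrametricDist K] [Finite I] [Finite E]
  [CommRing A] [IsDomain A] [Algebra K A] [Algebra.FiniteType K A] {D : NDat K A I E}

/-- Small numbers. -/
theorem Z1.exists_delta {δ0 : ℝ} (h : 0 < δ0) : ∃ δ : ℕ → ℝ, (∀ k, 0 < δ k) ∧ (∀ k, δ k ≤ δ0) ∧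
    Filter.Tendsto δ Filter.atTop (𝓝 0) := by
  refine ⟨fun k => min δ0 (1 / ((k : ℝ) + 1)), fun k => lt_min h Nat.one_div_pos_of_nat,
    fun k => min_le_left _ _, ?_⟩
  refine squeeze_zero (fun k => (lt_min h Nat.one_div_pos_of_nat).le) (fun k => min_le_right _ _) ?_
  exact tendsto_one_div_add_atTop_nhds_zero_nat

/-- Small radii. -/
theorem Z1.exists_radii {I : Type} {δ : ℕ → ℝ} (h : ∀ k, 0 < δ k) : ∃ r : ℕ → I → ℝ≥0,
    (∀ k i, 0 < r k i) ∧ ∀ k i, (r k i : ℝ) < δ k := by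
  refine ⟨fun k _ => (δ k / 2).toNNReal, fun k i => Real.toNNReal_pos.2 (half_pos (h k)),
    fun k i => ?_⟩
  rw [Real.coe_toNNReal _ (half_pos (h k)).le]
  exact half_lt_self (h k)

/-- Pigeonhole principle. -/
theorem Z1.exists_frequently {α : Type} [Finite α] (f : ℕ → α) :
    ∃ a, ∃ᶠ k in Filter.atTop, f k = a := by
  by_contra hcon
  push Not at hcon
  have h2 : ∀ᶠ k in Filter.atTop, ∀ a, f k ≠ a := Filter.eventually_all.2 hcon
  obtain ⟨k, hk⟩ := h2.exists
  exact hk (f k) rfl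

/-- (ND5 iii) two neighbouring bases have a common point. -/
theorem Om_inter (hD : D.Ok) {B : Set E} (hB : D.M.IsBase B) (he0 : D.e0 ∈ B) {b e : E}
    (hb : b ∈ B) (hbe : b ≠ D.e0) (he : e ∉ B) (hB' : D.M.IsBase (insert e (B \ {b}))) :
    (D.Om B ∩ D.Om (insert e (B \ {b}))).Nonempty := by
  have he0' : D.e0 ∈ insert e (B \ {b}) := Set.mem_insert_of_mem _ ⟨he0, fun h => hbe h.symm⟩
  -- the sizes
  obtain ⟨δ, hδ0, hδ1, hδ2⟩ := Z1.exists_delta hD.δpos
  have hy : ∀ k, ∃ y : E → ℝ, BergM D.M y ∧ y D.e0 = 0 ∧ (∀ e, |y e| < δ k) ∧ Set.InjOn y B ∧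
      Set.InjOn y (insert e (B \ {b})) := fun k =>
    exists_gen2 hD.ground hD.loopless hB he0 hb hbe he hB' (hδ0 k)
  choose y hy1 hy2 hy3 hy4 hy5 using hy
  obtain ⟨r, hr0, hr1⟩ := Z1.exists_radii (I := I) hδ0
  have hg : ∀ k, D.Gen (δ k) B (r k) (y k) := fun k => ⟨hr0 k, hr1 k, hy1 k, hy2 k, hy3 k, hy4 k⟩
  have hg' : ∀ k, D.Gen (δ k) (insert e (B \ {b})) (r k) (y k) := fun k =>
    ⟨hr0 k, hr1 k, hy1 k, hy2 k, hy3 k, hy5 k⟩
  have ht : ∀ k, ∃ z, D.IsTop B (r k) (y k) z := fun k =>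
    hD.top B (r k) (y k) hB he0 ((hg k).mono (hδ1 k))
  have ht' : ∀ k, ∃ z, D.IsTop (insert e (B \ {b})) (r k) (y k) z := fun k =>
    hD.top _ (r k) (y k) hB' he0' ((hg' k).mono (hδ1 k))
  choose z hz using ht
  choose z' hz' using ht'
  have hzz : ∀ k, z' k = z k := fun k =>
    le_antisymm ((hz k).max _ (hz' k).mem) ((hz' k).max _ (hz k).mem)
  obtain ⟨z0, -, hz0⟩ := hD.comp.exists_mapClusterPt_of_frequently (l := Filter.atTop) (f := z)
    (Filter.Frequently.of_forall fun k => (hz k).mem.1)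
  refine ⟨z0, ?_, ?_⟩
  · exact cluster_mem_Om hD hB he0 hδ2 hg (fun k => (hz k).mem) (fun k => (hz k).gauss) hz0
  · refine cluster_mem_Om hD hB' he0' hδ2 hg' (z := z) (fun k => ?_) (fun k => ?_) hz0
    · rw [← hzz k]
      exact (hz' k).mem
    · rw [← hzz k]
      exact (hz' k).gauss

/-- The properties of the maximal point of `F_w`. -/
structure IsZ1 (D : NDat K A I E) (z1 : Ber K A) : Prop where
  mem : ∀ B, D.M.IsBase B → D.e0 ∈ B → D.Om B = {z1}
  max : ∀ z ∈ D.Fw, z ≤ z1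
  lim : ∀ U ∈ 𝓝 z1, ∃ δ : ℝ, 0 < δ ∧ ∀ B r y z, D.M.IsBase B → D.e0 ∈ B → D.Gen δ B r y →
    D.IsTop B r y z → z ∈ U

/-- Top points of generic points tending to `0`, for arbitrary bases, have the cluster point
`z1`. -/
theorem Z1.cluster (hD : D.Ok) {z1 : Ber K A}
    (hz1 : ∀ B, D.M.IsBase B → D.e0 ∈ B → D.Om B = {z1}) {δ : ℕ → ℝ}
    (hδ : Filter.Tendsto δ Filter.atTop (𝓝 0)) {B : ℕ → Set E} {r : ℕ → I → ℝ≥0}
    {y : ℕ → E → ℝ} {z : ℕ → Ber K A} (hB : ∀ k, D.M.IsBase (B k)) (he0 : ∀ k, D.e0 ∈ B k)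
    (hg : ∀ k, D.Gen (δ k) (B k) (r k) (y k)) (hz : ∀ k, D.IsTop (B k) (r k) (y k) (z k)) :
    MapClusterPt z1 Filter.atTop z := by
  obtain ⟨B0, hB0⟩ := Z1.exists_frequently B
  obtain ⟨φ, hφ, hφB⟩ := Filter.extraction_of_frequently_atTop hB0
  have hg' : ∀ k, D.Gen (δ (φ k)) B0 (r (φ k)) (y (φ k)) := by
    intro k
    have h := hg (φ k)
    rw [hφB k] at h
    exact h
  have hz' : ∀ k, D.IsTop B0 (r (φ k)) (y (φ k)) (z (φ k)) := by
    intro k
    have h := hz (φ k)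
    rw [hφB k] at h
    exact h
  have hBB : D.M.IsBase B0 := by
    have h := hB (φ 0)
    rw [hφB 0] at h
    exact h
  have hBe : D.e0 ∈ B0 := by
    have h := he0 (φ 0)
    rw [hφB 0] at h
    exact h
  obtain ⟨z0, -, hz0⟩ := hD.comp.exists_mapClusterPt_of_frequently (l := Filter.atTop)
    (f := fun k => z (φ k)) (Filter.Frequently.of_forall fun k => (hz' k).mem.1)
  have h1 : z0 ∈ D.Om B0 := cluster_mem_Om hD hBB hBe (δ := fun k => δ (φ k))
    (hδ.comp hφ.tendsto_atTop) hg' (fun k => (hz' k).mem) (fun k => (hz' k).gauss) hz0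
  rw [hz1 B0 hBB hBe] at h1
  rw [← show z0 = z1 from h1]
  exact MapClusterPt.of_comp hφ.tendsto_atTop hz0

/-- (ND5) -/
theorem exists_z1 (h6 : StmtQ6) (h7 : StmtQ7) (hg : StmtGp) (hD : D.Ok) :
    ∃ z1, IsZ1 D z1 := by
  obtain ⟨B0, hB0, he0⟩ := exists_base hD
  obtain ⟨z1, hz1⟩ := Om_nonempty hD hB0 he0
  have hmem : ∀ B, D.M.IsBase B → D.e0 ∈ B → D.Om B = {z1} := by
    intro B hB he
    refine base_induction (P := fun B => D.Om B = {z1}) hB0 he0 ?_ ?_ hB he
    · exact Set.Subsingleton.eq_singleton_of_mem (Om_subsingleton h6 h7 hg hD hB0 he0) hz1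
    · intro B b e hB he hb hbe heB hB' hP
      obtain ⟨z, hz, hz'⟩ := Om_inter hD hB he hb hbe heB hB'
      have h1 : z = z1 := by
        have h2 : z ∈ ({z1} : Set (Ber K A)) := by rw [← hP]; exact hz
        exact h2
      rw [h1] at hz'
      exact Set.Subsingleton.eq_singleton_of_mem (Om_subsingleton h6 h7 hg hD hB'
        (Set.mem_insert_of_mem _ ⟨he, fun h => hbe h.symm⟩)) hz'
  refine ⟨z1, hmem, ?_, ?_⟩
  · intro z hz a
    have hs : ∀ k : ℕ, ∃ B r y z', D.M.IsBase B ∧ D.e0 ∈ B ∧ D.Gen (1 / ((k : ℝ) + 1)) B r y ∧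
        D.IsTop B r y z' ∧ z.v a - 1 / ((k : ℝ) + 1) < z'.v a := fun k =>
      max_principle h6 h7 hg hD a hz Nat.one_div_pos_of_nat Nat.one_div_pos_of_nat
    choose B r y z' hB he hgen htop hlt using hs
    have hcl := Z1.cluster hD hmem tendsto_one_div_add_atTop_nhds_zero_nat hB he hgen htop
    by_contra hcon
    push Not at hcon
    have hc : 0 < (z.v a - z1.v a) / 2 := by linarith
    have hU : {w : Ber K A | w.v a < z1.v a + (z.v a - z1.v a) / 2} ∈ 𝓝 z1 := by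
      refine (isOpen_lt (Ber.continuous_v a) continuous_const).mem_nhds ?_
      show z1.v a < _
      linarith
    have h1 := hcl.frequently hU
    have h2 : ∀ᶠ k : ℕ in Filter.atTop, 1 / ((k : ℝ) + 1) < (z.v a - z1.v a) / 2 :=
      tendsto_one_div_add_atTop_nhds_zero_nat.eventually (gt_mem_nhds hc)
    obtain ⟨k, hk1, hk2⟩ := (h1.and_eventually h2).exists
    have hk1' : (z' k).v a < z1.v a + (z.v a - z1.v a) / 2 := hk1
    have := hlt k
    linarith
  · intro U hU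
    by_contra hcon
    push Not at hcon
    have hs : ∀ k : ℕ, ∃ B r y z', D.M.IsBase B ∧ D.e0 ∈ B ∧ D.Gen (1 / ((k : ℝ) + 1)) B r y ∧
        D.IsTop B r y z' ∧ z' ∉ U := fun k => by
      obtain ⟨B, r, y, z', h1, h2, h3, h4, h5⟩ := hcon (1 / ((k : ℝ) + 1)) Nat.one_div_pos_of_nat
      exact ⟨B, r, y, z', h1, h2, h3, h4, h5⟩
    choose B r y z' hB he hgen htop hlt using hs
    have hcl := Z1.cluster hD hmem tendsto_one_div_add_atTop_nhds_zero_nat hB he hgen htop
    obtain ⟨k, hk⟩ := (hcl.frequently hU).exists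
    exact hlt k hk

end NDat

end Pool.Agent.TD


end

section

/-! Local data ND0: degree one at the maximal point (PAPER2.md, ND5 v; module TD_N_DZ). -/

open scoped Topology NNReal

namespace Pool.Agent.TD

namespace NDat

set_option linter.unusedSectionVars false

variable {K A I E : Type} [NormedField K] [IsUltrametricDist K] [Finite I] [Finite E]
  [CommRing A] [IsDomain A] [Algebra K A] [Algebra.FiniteType K A] {D : NDat K A I E}

/-- The Gauss points of generic points, for the basis `B`. -/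
def Y1 (D : NDat K A I E) (B : Set E) (δ : ℝ) :
    Set (Ber K (MvPolynomial (I ⊕ (B \ {D.e0} : Set E)) K)) :=
  {w | ∃ r y, D.Gen δ B r y ∧ IsGp (Sum.elim r fun e => D.rd y e.1) w}

theorem rd_pos (hD : D.Ok) (y : E → ℝ) (e : E) : 0 < D.rd y e := by
  unfold rd
  exact mul_pos (hD.ρpos e) (Real.toNNReal_pos.2 (Real.exp_pos _))

theorem gaussAt_of_res {B : Set E} {ρ : I ⊕ (B \ {D.e0} : Set E) → ℝ≥0}
    {w : Ber K (MvPolynomial (I ⊕ (B \ {D.e0} : Set E)) K)} (hw : IsGp ρ w) {z : Ber K A}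
    (h : Ber.res (D.ph (B \ {D.e0})) z = w) : GaussAt (D.vr (B \ {D.e0})) ρ z := by
  intro P
  have h1 := hw P
  rw [← h] at h1
  exact h1

/-- The hypotheses of (Q9) at the points of `Y1`. -/
theorem Y1_spec (hD : D.Ok) {B : Set E} (hB : D.M.IsBase B) (he0 : D.e0 ∈ B) :
    ∀ w ∈ D.Y1 B D.δ0, w.ker = ⊥ ∧
      (∀ z ∈ D.V0, ∀ z' ∈ D.V0, Ber.res (D.ph (B \ {D.e0})) z = w →
        Ber.res (D.ph (B \ {D.e0})) z' = w → z = z') ∧
      ∀ z ∈ D.V0, Ber.res (D.ph (B \ {D.e0})) z = w → Dens (D.ph (B \ {D.e0})) z := by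
  rintro w ⟨r, y, hg, hw⟩
  refine ⟨?_, ?_, ?_⟩
  · rw [eq_bot_iff]
    intro P hP
    rw [Ber.mem_ker] at hP
    rw [Ideal.mem_bot]
    by_contra hne
    have h1 : 0 < gn (Sum.elim r fun e : (B \ {D.e0} : Set E) => D.rd y e.1) P := by
      refine gn_pos (fun i => ?_) hne
      rcases i with i | e
      · exact hg.rpos i
      · exact rd_pos hD y e.1
    have h2 := hw P
    rw [hP] at h2
    have h3 : (0 : ℝ) < ((gn (Sum.elim r fun e : (B \ {D.e0} : Set E) => D.rd y e.1) P : ℝ≥0) : ℝ) := by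
      exact_mod_cast h1
    exact absurd h2 h3.ne
  · intro z hz z' hz' h h'
    have hF := mem_Fry' hD hB hg hz (gaussAt_of_res hw h)
    have hF' := mem_Fry' hD hB hg hz' (gaussAt_of_res hw h')
    exact hD.uniq B r y hB he0 hg z hF z' hF' (h.trans h'.symm)
  · intro z hz h
    exact hD.dens B r y hB he0 hg z (mem_Fry' hD hB hg hz (gaussAt_of_res hw h))

/-- The Gauss point of `B` is a limit of points of `Y1`. -/
theorem closure_Y1 (hg : StmtGp) (hD : D.Ok) {B : Set E} (hB : D.M.IsBase B) (he0 : D.e0 ∈ B)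
    {w : Ber K (MvPolynomial (I ⊕ (B \ {D.e0} : Set E)) K)} (hw : IsGp (D.eta B) w) :
    w ∈ closure (D.Y1 B D.δ0) := by
  obtain ⟨g, hgc, hgp⟩ := hg K (I ⊕ (B \ {D.e0} : Set E))
  have hwg : w = g (D.eta B) := Ber.ext_v fun P => (hw P).trans (hgp (D.eta B) P).symm
  have hpos : ∀ k : ℕ, (0 : ℝ) < min (1 / ((k : ℝ) + 1)) D.δ0 := fun k =>
    lt_min (by positivity) hD.δpos
  choose r y hgen using fun k : ℕ => exists_Gen hD hB he0 (hpos k)
  have hlim : Filter.Tendsto (fun k : ℕ => min (1 / ((k : ℝ) + 1)) D.δ0) Filter.atTop (𝓝 0) := by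
    have h1 : Filter.Tendsto (fun k : ℕ => 1 / ((k : ℝ) + 1)) Filter.atTop (𝓝 0) :=
      tendsto_one_div_add_atTop_nhds_zero_nat
    have h2 := h1.min (tendsto_const_nhds (x := D.δ0))
    rwa [min_eq_left hD.δpos.le] at h2
  have hrad : Filter.Tendsto (fun k : ℕ => (Sum.elim (r k) fun e => D.rd (y k) e.1 :
      I ⊕ (B \ {D.e0} : Set E) → ℝ≥0)) Filter.atTop (𝓝 (D.eta B)) := by
    rw [tendsto_pi_nhds]
    rintro (i | e)
    · show Filter.Tendsto (fun k : ℕ => r k i) Filter.atTop (𝓝 0)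
      rw [← NNReal.tendsto_coe]
      refine squeeze_zero (fun k => NNReal.coe_nonneg _) (fun k => ((hgen k).rlt i).le) hlim
    · show Filter.Tendsto (fun k : ℕ => D.rd (y k) e.1) Filter.atTop (𝓝 (D.ρ e.1))
      have h1 : Filter.Tendsto (fun k : ℕ => y k e.1) Filter.atTop (𝓝 0) :=
        squeeze_zero_norm (fun k => ((hgen k).ylt e.1).le) hlim
      have h2 : Filter.Tendsto (fun k : ℕ => D.ρ e.1 * (Real.exp (y k e.1)).toNNReal)
          Filter.atTop (𝓝 (D.ρ e.1 * (Real.exp 0).toNNReal)) :=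
        ((continuous_real_toNNReal.tendsto _).comp ((Real.continuous_exp.tendsto 0).comp h1)).const_mul _
      rw [Real.exp_zero, Real.toNNReal_one, mul_one] at h2
      exact h2
  rw [hwg]
  refine mem_closure_of_tendsto ((hgc.tendsto _).comp hrad) (Filter.Eventually.of_forall fun k => ?_)
  exact ⟨r k, y k, (hgen k).mono (min_le_right _ _), hgp _⟩

/-- (ND5 v) -/
theorem dens_z1 [CompleteSpace K] (h6 : StmtQ6) (h7 : StmtQ7) (h9 : StmtQ9) (hS : StmtSep)
    (hg : StmtGp) (hD : D.Ok) {z1 : Ber K A} (h1 : IsZ1 D z1) {B : Set E} (hB : D.M.IsBase B)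
    (he0 : D.e0 ∈ B) : Dens (D.ph (B \ {D.e0})) z1 := by
  obtain ⟨V, hV, hOm⟩ := Om_open h6 h7 hg hD hB he0
  have hmem := h1.mem B hB he0
  have hz1 : z1 ∈ D.Om B := by rw [hmem]; exact rfl
  have hz1' := (mem_Om_iff hD).1 hz1
  have hft : (D.ph (B \ {D.e0})).toRingHom.FiniteType := by
    refine RingHom.FiniteType.of_comp_finiteType (f := algebraMap K _) ?_
    have h2 : (D.ph (B \ {D.e0})).toRingHom.comp (algebraMap K _) = algebraMap K A := by
      ext c
      exact (D.ph (B \ {D.e0})).commutes c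
    rw [h2]
    exact RingHom.finiteType_algebraMap.2 inferInstance
  have key := h9 K (MvPolynomial (I ⊕ (B \ {D.e0} : Set E)) K) A (D.ph (B \ {D.e0}))
    (ph_injective hD hB he0) hft (fun a => sep h6 hS hD hB he0 a)
    {Ber.res (D.ph (B \ {D.e0})) z1} {z1} V D.V0 (Ber.res (D.ph (B \ {D.e0})) z1)
    (D.Y1 B D.δ0) isClosed_singleton isPreconnected_singleton isCompact_singleton hV ?_ ?_ ?_ ?_ ?_
    (Y1_spec hD hB he0)
  · exact key.2.2 z1 rfl
  · rw [← hmem, hOm]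
    ext z
    simp only [Set.mem_inter_iff, Set.mem_ofPred_eq, Set.mem_preimage, Set.mem_singleton_iff]
    refine and_congr_right fun _ => ?_
    constructor
    · intro h
      exact h.fam_eq hz1'.2
    · intro h P
      have h3 := hz1'.2 P
      have h4 : (Ber.res (D.ph (B \ {D.e0})) z).v P = (Ber.res (D.ph (B \ {D.e0})) z1).v P := by
        rw [h]
      exact h4.trans h3
  · intro z hz
    rw [Set.mem_singleton_iff.1 hz]
    exact Om_zmp h6 h7 hg hD hB he0 hz1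
  · exact ⟨z1, rfl, rfl⟩
  · exact closure_Y1 hg hD hB he0 hz1'.2
  · intro z hz
    rw [Set.mem_singleton_iff.1 hz]
    exact hD.nhd z1 hz1'.1

theorem v_eq_of_sub {z : Ber K A} {a b : A} (h : z.v (a - b) = 0) : z.v a = z.v b := by
  have h1 : z.v a ≤ z.v b := by
    calc z.v a = z.v ((a - b) + b) := by rw [sub_add_cancel]
      _ ≤ max (z.v (a - b)) (z.v b) := z.add _ _
      _ = z.v b := by rw [h, max_eq_right (z.nonneg _)]
  have h2 : z.v b ≤ z.v a := by
    calc z.v b = z.v ((b - a) + a) := by rw [sub_add_cancel]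
      _ ≤ max (z.v (b - a)) (z.v a) := z.add _ _
      _ = z.v a := by rw [z.sub_comm, h, max_eq_right (z.nonneg _)]
  exact le_antisymm h1 h2

/-- Dropping the variables `t`. -/
noncomputable def drp (J : Set E) : MvPolynomial (I ⊕ J) K →ₐ[K] MvPolynomial J K :=
  MvPolynomial.aeval (Sum.elim (fun _ => 0) MvPolynomial.X)

theorem sub_drp {J : Set E} {z : Ber K A} (hz : ∀ i, z.v (D.t i) = 0)
    (b : MvPolynomial (I ⊕ J) K) : z.v (D.ph J b - D.ph0 J (drp (K := K) (I := I) J b)) = 0 := by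
  have h1 : (Ideal.Quotient.mkₐ K z.ker).comp (D.ph J) =
      (Ideal.Quotient.mkₐ K z.ker).comp ((D.ph0 J).comp (drp (K := K) (I := I) J)) := by
    refine MvPolynomial.algHom_ext fun i => ?_
    rcases i with i | e
    · simp only [AlgHom.comp_apply, ph, drp, vr, MvPolynomial.aeval_X, Sum.elim_inl, map_zero]
      exact Ideal.Quotient.eq_zero_iff_mem.2 (hz i)
    · simp only [AlgHom.comp_apply, ph, ph0, drp, vr, MvPolynomial.aeval_X, Sum.elim_inr]
  have h2 := DFunLike.congr_fun h1 b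
  exact Ideal.Quotient.eq.1 h2

/-- At points where `t = 0` the variables `t` can be dropped. -/
theorem dens_ph0 {B : Set E} {z : Ber K A} (hz : ∀ i, z.v (D.t i) = 0)
    (h : Dens (D.ph (B \ {D.e0})) z) : Dens (D.ph0 (B \ {D.e0})) z := by
  intro a ε hε
  obtain ⟨b, c, hc, hbc⟩ := h a ε hε
  have hb := sub_drp hz b
  have hc' := sub_drp hz c
  have h1 : z.v (D.ph (B \ {D.e0}) c) =
      z.v (D.ph0 (B \ {D.e0}) (drp (K := K) (I := I) (B \ {D.e0}) c)) := v_eq_of_sub hc'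
  refine ⟨drp (K := K) (I := I) _ b, drp (K := K) (I := I) _ c, ?_, ?_⟩
  · rw [← h1]; exact hc
  · rw [← h1]
    refine lt_of_eq_of_lt ?_ hbc
    refine (v_eq_of_sub ?_).symm
    have h2 : (D.ph (B \ {D.e0}) c * a - D.ph (B \ {D.e0}) b) -
        (D.ph0 (B \ {D.e0}) (drp (K := K) (I := I) (B \ {D.e0}) c) * a -
          D.ph0 (B \ {D.e0}) (drp (K := K) (I := I) (B \ {D.e0}) b)) =
        a * (D.ph (B \ {D.e0}) c - D.ph0 (B \ {D.e0}) (drp (K := K) (I := I) (B \ {D.e0}) c)) -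
        (D.ph (B \ {D.e0}) b - D.ph0 (B \ {D.e0}) (drp (K := K) (I := I) (B \ {D.e0}) b)) := by
      ring
    rw [h2]
    exact z.ker.sub_mem (z.ker.mul_mem_left a hc') hb

end NDat

end Pool.Agent.TD


end

section

/-! Local data ND0: linear forms (PAPER2.md, ND7; module TD_N_LIN). -/

open scoped Topology NNReal

namespace Pool.Agent.TD

namespace NLin

/-- generic perturbation -/
theorem ev_generic {σ : Type} [Fintype σ] (y w : σ → ℝ) (hw : Function.Injective w)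
    (hw0 : ∀ i, w i ≠ 0) {δ : ℝ} (hy : ∀ i, |y i| < δ) :
    ∀ᶠ t : ℝ in 𝓝[≠] 0, (∀ i, |y i + t * w i| < δ) ∧ Function.Injective (fun i => y i + t * w i) ∧
      ∀ i, y i + t * w i ≠ 0 := by
  have hne : ∀ᶠ t : ℝ in 𝓝[≠] 0, t ≠ 0 := self_mem_nhdsWithin
  have hlim : ∀ (a b : ℝ), Filter.Tendsto (fun t : ℝ => a + t * b) (𝓝[≠] 0) (𝓝 a) := by
    intro a b
    have h1 : Filter.Tendsto (fun t : ℝ => a + t * b) (𝓝 0) (𝓝 (a + 0 * b)) :=
      Continuous.tendsto (by fun_prop) 0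
    rw [zero_mul, add_zero] at h1
    exact h1.mono_left nhdsWithin_le_nhds
  have hnz : ∀ (a b : ℝ), b ≠ 0 → ∀ᶠ t : ℝ in 𝓝[≠] 0, a + t * b ≠ 0 := by
    intro a b hb
    by_cases ha : a = 0
    · filter_upwards [hne] with t ht
      rw [ha, zero_add]
      exact mul_ne_zero ht hb
    · exact (hlim a b).eventually_ne ha
  have h1 : ∀ᶠ t : ℝ in 𝓝[≠] 0, ∀ i, |y i + t * w i| < δ := by
    rw [Filter.eventually_all]
    intro i
    exact ((hlim (y i) (w i)).abs).eventually (gt_mem_nhds (hy i))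
  have h2 : ∀ᶠ t : ℝ in 𝓝[≠] 0, ∀ i j, i ≠ j → (y i - y j) + t * (w i - w j) ≠ 0 := by
    rw [Filter.eventually_all]
    intro i
    rw [Filter.eventually_all]
    intro j
    by_cases hij : i = j
    · exact Filter.Eventually.of_forall fun t h => absurd hij h
    · filter_upwards [hnz (y i - y j) (w i - w j) (sub_ne_zero.2 fun h => hij (hw h))] with t ht _
      exact ht
  have h3 : ∀ᶠ t : ℝ in 𝓝[≠] 0, ∀ i, y i + t * w i ≠ 0 := by
    rw [Filter.eventually_all]
    intro i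
    exact hnz _ _ (hw0 i)
  filter_upwards [h1, h2, h3] with t ht1 ht2 ht3
  refine ⟨ht1, ?_, ht3⟩
  intro i j hij
  by_contra hne
  apply ht2 i j hne
  have : y i + t * w i = y j + t * w j := hij
  linarith

/-- the property at all small points -/
theorem all_small {σ : Type} [Fintype σ] [DecidableEq σ] (S : Finset (σ → ℤ)) (hS : S.Nonempty)
    (C : Set σ) (z0 : Prop) (hC : z0 ∨ C.Nonempty) (δ : ℝ)
    (h : ∀ y : σ → ℝ, (∀ i, |y i| < δ) → Function.Injective y → (∀ i, y i ≠ 0) →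
      ∃ m : ℝ, (∀ u ∈ S, ∑ i, (u i : ℝ) * y i ≤ m) ∧ (∃ u ∈ S, ∑ i, (u i : ℝ) * y i = m) ∧
        (∀ i ∈ C, y i ≤ m) ∧ (z0 → 0 ≤ m) ∧ ((∃ i ∈ C, y i = m) ∨ (z0 ∧ m = 0)))
    (y : σ → ℝ) (hy : ∀ i, |y i| < δ) :
      ∃ m : ℝ, (∀ u ∈ S, ∑ i, (u i : ℝ) * y i ≤ m) ∧ (∃ u ∈ S, ∑ i, (u i : ℝ) * y i = m) ∧
        (∀ i ∈ C, y i ≤ m) ∧ (z0 → 0 ≤ m) ∧ ((∃ i ∈ C, y i = m) ∨ (z0 ∧ m = 0)) := by
  classical
  -- the two functions
  let T : Finset (Option σ) := Finset.univ.filter fun o => o.elim z0 (· ∈ C)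
  have hT : T.Nonempty := by
    rcases hC with h0 | ⟨i, hi⟩
    · exact ⟨none, by simp [T, h0]⟩
    · exact ⟨some i, by simp [T, hi]⟩
  let f : (σ → ℝ) → ℝ := fun y => S.sup' hS fun u => ∑ i, (u i : ℝ) * y i
  let g : (σ → ℝ) → ℝ := fun y => T.sup' hT fun o => o.elim 0 y
  have hfc : Continuous f := by
    refine Continuous.finset_sup'_apply hS fun u _ => ?_
    fun_prop
  have hgc : Continuous g := by
    refine Continuous.finset_sup'_apply hT fun o _ => ?_
    cases o with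
    | none => exact continuous_const
    | some i => exact continuous_apply i
  have hfg : ∀ y : σ → ℝ, (∀ i, |y i| < δ) → Function.Injective y → (∀ i, y i ≠ 0) →
      f y = g y := by
    intro y h1 h2 h3
    obtain ⟨m, a1, ⟨u, hu, a2⟩, a3, a4, a5⟩ := h y h1 h2 h3
    have hf : f y = m := by
      apply le_antisymm
      · exact Finset.sup'_le _ _ a1
      · rw [← a2]
        exact Finset.le_sup' (fun u : σ → ℤ => ∑ i, (u i : ℝ) * y i) hu
    have hg : g y = m := by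
      apply le_antisymm
      · refine Finset.sup'_le _ _ ?_
        intro o ho
        cases o with
        | none => exact a4 (by simpa [T] using ho)
        | some i => exact a3 i (by simpa [T] using ho)
      · rcases a5 with ⟨i, hi, a5⟩ | ⟨h0, a5⟩
        · rw [← a5]
          exact Finset.le_sup' (fun o : Option σ => o.elim 0 y)
            (show some i ∈ T by simp [T, hi])
        · rw [a5]
          exact Finset.le_sup' (fun o : Option σ => o.elim 0 y)
            (show none ∈ T by simp [T, h0])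
    rw [hf, hg]
  have key : f y = g y := by
    obtain ⟨N, ⟨φ⟩⟩ := Finite.exists_equiv_fin σ
    let w : σ → ℝ := fun i => ((φ i : ℕ) : ℝ) + 1
    have hw : Function.Injective w := by
      intro i j hij
      have : ((φ i : ℕ) : ℝ) + 1 = ((φ j : ℕ) : ℝ) + 1 := hij
      have h2 : ((φ i : ℕ) : ℝ) = ((φ j : ℕ) : ℝ) := by linarith
      exact φ.injective (Fin.ext (by exact_mod_cast h2))
    have hw0 : ∀ i, w i ≠ 0 := by
      intro i
      have : (0 : ℝ) < ((φ i : ℕ) : ℝ) + 1 := by positivity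
      exact this.ne'
    have hc : Filter.Tendsto (fun t : ℝ => fun i => y i + t * w i) (𝓝[≠] 0) (𝓝 y) := by
      have h1 : Filter.Tendsto (fun t : ℝ => fun i => y i + t * w i) (𝓝 0)
          (𝓝 (fun i => y i + 0 * w i)) := Continuous.tendsto (by fun_prop) 0
      have h2 : (fun i => y i + 0 * w i) = y := by
        funext i; rw [zero_mul, add_zero]
      rw [h2] at h1
      exact h1.mono_left nhdsWithin_le_nhds
    have h1 := (hfc.tendsto y).comp hc
    have h2 := (hgc.tendsto y).comp hc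
    refine tendsto_nhds_unique_of_eventuallyEq h1 h2 ?_
    filter_upwards [ev_generic y w hw hw0 hy] with t ht
    exact hfg _ ht.1 ht.2.1 ht.2.2
  refine ⟨f y, fun u hu => Finset.le_sup' (fun u : σ → ℤ => ∑ i, (u i : ℝ) * y i) hu, ?_, ?_, ?_, ?_⟩
  · obtain ⟨u, hu, h1⟩ := Finset.exists_mem_eq_sup' hS (fun u : σ → ℤ => ∑ i, (u i : ℝ) * y i)
    exact ⟨u, hu, h1.symm⟩
  · intro i hi
    rw [key]
    exact Finset.le_sup' (fun o : Option σ => o.elim 0 y) (show some i ∈ T by simp [T, hi])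
  · intro h0
    rw [key]
    exact Finset.le_sup' (fun o : Option σ => o.elim 0 y) (show none ∈ T by simp [T, h0])
  · rw [key]
    obtain ⟨o, ho, h1⟩ := Finset.exists_mem_eq_sup' hT (fun o : Option σ => o.elim 0 y)
    cases o with
    | none => exact Or.inr ⟨by simpa [T] using ho, h1⟩
    | some i => exact Or.inl ⟨i, by simpa [T] using ho, h1.symm⟩

end NLin

/-- A set of exponents whose support function is the maximum of some coordinates (and `0`) consists
of unit vectors (and `0`).  `S` = finite set of exponents in `ℤ^σ`, `C` = set of coordinates,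
`z0` = whether `0` is allowed. -/
theorem supp_simplex {σ : Type} [Fintype σ] [DecidableEq σ] (S : Finset (σ → ℤ)) (hS : S.Nonempty) (C : Set σ)
    (z0 : Prop) (hC : z0 ∨ C.Nonempty) (δ : ℝ) (hδ : 0 < δ)
    (h : ∀ y : σ → ℝ, (∀ i, |y i| < δ) → Function.Injective y → (∀ i, y i ≠ 0) →
      ∃ m : ℝ, (∀ u ∈ S, ∑ i, (u i : ℝ) * y i ≤ m) ∧ (∃ u ∈ S, ∑ i, (u i : ℝ) * y i = m) ∧
        (∀ i ∈ C, y i ≤ m) ∧ (z0 → 0 ≤ m) ∧ ((∃ i ∈ C, y i = m) ∨ (z0 ∧ m = 0))) :
    (∀ u ∈ S, (u = 0 ∧ z0) ∨ ∃ i ∈ C, u = Pi.single i 1) ∧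
      ∀ i ∈ C, (Pi.single i 1 : σ → ℤ) ∈ S := by
  have H := NLin.all_small S hS C z0 hC δ h
  have ht : 0 < δ / 2 := half_pos hδ
  set t : ℝ := δ / 2 with htd
  have htδ : t < δ := by rw [htd]; linarith
  have hsingle : ∀ (u : σ → ℤ) (i : σ) (s : ℝ),
      ∑ j, (u j : ℝ) * (if j = i then s else 0) = (u i : ℝ) * s := by
    intro u i s
    simp
  -- nonnegativity
  have n1 : ∀ u ∈ S, ∀ i, 0 ≤ u i := by
    intro u hu i
    obtain ⟨m, a1, -, a3, a4, a5⟩ := H (fun j => if j = i then -t else 0) (by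
      intro j
      by_cases hj : j = i
      · simp only [hj, if_true]; rw [abs_neg, abs_of_pos ht]; exact htδ
      · simp only [hj, if_false]; rw [abs_zero]; exact hδ)
    have hm : m ≤ 0 := by
      rcases a5 with ⟨j, -, a5⟩ | ⟨-, a5⟩
      · rw [← a5]
        by_cases hj : j = i
        · simp only [hj, if_true]; linarith
        · simp only [hj, if_false]; exact le_rfl
      · exact a5.le
    have h1 := a1 u hu
    rw [hsingle] at h1
    have h2 : (0 : ℝ) ≤ u i := by nlinarith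
    exact_mod_cast h2
  -- coordinates outside `C`
  have n2 : ∀ u ∈ S, ∀ i, i ∉ C → u i ≤ 0 := by
    intro u hu i hi
    obtain ⟨m, a1, -, a3, a4, a5⟩ := H (fun j => if j = i then t else 0) (by
      intro j
      by_cases hj : j = i
      · simp only [hj, if_true]; rw [abs_of_pos ht]; exact htδ
      · simp only [hj, if_false]; rw [abs_zero]; exact hδ)
    have hm : m ≤ 0 := by
      rcases a5 with ⟨j, hj, a5⟩ | ⟨-, a5⟩
      · rw [← a5]
        have hji : j ≠ i := fun h => hi (h ▸ hj)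
        simp only [hji, if_false]
        exact le_rfl
      · exact a5.le
    have h1 := a1 u hu
    rw [hsingle] at h1
    have h2 : (u i : ℝ) ≤ 0 := by nlinarith
    exact_mod_cast h2
  -- the sum is at most one
  have n3 : ∀ u ∈ S, ∑ i, u i ≤ 1 := by
    intro u hu
    obtain ⟨m, a1, -, a3, a4, a5⟩ := H (fun _ => t) (by
      intro j
      rw [abs_of_pos ht]; exact htδ)
    have hm : m ≤ t := by
      rcases a5 with ⟨j, hj, a5⟩ | ⟨-, a5⟩
      · exact a5.ge
      · rw [a5]; exact ht.le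
    have h1 := a1 u hu
    rw [← Finset.sum_mul] at h1
    have h2 : (∑ i, (u i : ℝ)) ≤ 1 := by
      by_contra hc
      push Not at hc
      have : t < (∑ i, (u i : ℝ)) * t := by nlinarith
      linarith
    exact_mod_cast h2
  -- the sum is at least one
  have n4 : ¬ z0 → ∀ u ∈ S, 1 ≤ ∑ i, u i := by
    intro h0 u hu
    obtain ⟨m, a1, -, a3, a4, a5⟩ := H (fun _ => -t) (by
      intro j
      rw [abs_neg, abs_of_pos ht]; exact htδ)
    have hm : m = -t := by
      rcases a5 with ⟨j, hj, a5⟩ | ⟨a5, -⟩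
      · exact a5.symm
      · exact absurd a5 h0
    have h1 := a1 u hu
    rw [← Finset.sum_mul, hm] at h1
    have h2 : 1 ≤ (∑ i, (u i : ℝ)) := by
      by_contra hc
      push Not at hc
      have : -t < (∑ i, (u i : ℝ)) * (-t) := by nlinarith
      linarith
    exact_mod_cast h2
  have n5 : ∀ u ∈ S, (u = 0 ∧ z0) ∨ ∃ i ∈ C, u = Pi.single i 1 := by
    intro u hu
    by_cases hu0 : u = 0
    · left
      refine ⟨hu0, ?_⟩
      by_contra h0
      have h1 := n4 h0 u hu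
      rw [hu0] at h1
      simp at h1
    · right
      obtain ⟨i, hi⟩ : ∃ i, u i ≠ 0 := by
        by_contra hc
        push Not at hc
        exact hu0 (funext hc)
      have hi1 : 1 ≤ u i := by
        have := n1 u hu i
        omega
      have hiC : i ∈ C := by
        by_contra hc
        have := n2 u hu i hc
        omega
      refine ⟨i, hiC, ?_⟩
      have hsum := n3 u hu
      rw [← Finset.add_sum_erase Finset.univ u (Finset.mem_univ i)] at hsum
      have hr : 0 ≤ ∑ j ∈ Finset.univ.erase i, u j :=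
        Finset.sum_nonneg fun j _ => n1 u hu j
      have hr0 : ∑ j ∈ Finset.univ.erase i, u j = 0 := by omega
      have hall := (Finset.sum_eq_zero_iff_of_nonneg fun j _ => n1 u hu j).1 hr0
      funext j
      by_cases hj : j = i
      · rw [hj, Pi.single_eq_same]
        omega
      · rw [Pi.single_eq_of_ne hj]
        exact hall j (Finset.mem_erase.2 ⟨hj, Finset.mem_univ j⟩)
  refine ⟨n5, ?_⟩
  intro i hi
  obtain ⟨m, a1, ⟨u, hu, a2⟩, a3, a4, a5⟩ := H (fun j => if j = i then t else 0) (by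
    intro j
    by_cases hj : j = i
    · simp only [hj, if_true]; rw [abs_of_pos ht]; exact htδ
    · simp only [hj, if_false]; rw [abs_zero]; exact hδ)
  rw [hsingle] at a2
  have h1 : t ≤ m := by
    have := a3 i hi
    simpa using this
  have h2 : (1 : ℝ) ≤ u i := by
    by_contra hc
    push Not at hc
    nlinarith
  have h3 : 1 ≤ u i := by exact_mod_cast h2
  rcases n5 u hu with ⟨h4, -⟩ | ⟨j, hj, h4⟩
  · rw [h4] at h3
    simp at h3
  · have hji : i = j := by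
      by_contra hne
      rw [h4, Pi.single_eq_of_ne hne] at h3
      omega
    rw [hji, ← h4]
    exact hu

namespace NLin

/-- the part of a polynomial where the Gauss norm is attained -/
theorem strip {K σ : Type} [NormedField K] (ρ : σ → ℝ≥0) (P : MvPolynomial σ K)
    (hP : 0 < gn ρ P) : ∃ Q : MvPolynomial σ K,
      (∀ v ∈ Q.support, ‖Q.coeff v‖₊ * v.prod (fun i n => ρ i ^ n) = gn ρ P) ∧
        gn ρ (P - Q) < gn ρ P := by
  classical
  set F : Finset (σ →₀ ℕ) :=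
    P.support.filter fun v => ‖P.coeff v‖₊ * v.prod (fun i n => ρ i ^ n) = gn ρ P with hF
  set Q : MvPolynomial σ K := ∑ v ∈ F, MvPolynomial.monomial v (P.coeff v) with hQ
  have hco : ∀ v, Q.coeff v = if v ∈ F then P.coeff v else 0 := by
    intro v
    rw [hQ, MvPolynomial.coeff_sum]
    simp only [MvPolynomial.coeff_monomial]
    rw [Finset.sum_ite_eq' F v (fun w => P.coeff w)]
  refine ⟨Q, ?_, ?_⟩
  · intro v hv
    have h1 : Q.coeff v ≠ 0 := MvPolynomial.mem_support_iff.1 hv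
    rw [hco] at h1
    have h2 : v ∈ F := by
      by_contra hc
      rw [if_neg hc] at h1
      exact h1 rfl
    rw [hco, if_pos h2]
    exact (Finset.mem_filter.1 h2).2
  · unfold gn
    rw [Finset.sup_lt_iff (by exact hP)]
    intro v hv
    have h1 : (P - Q).coeff v ≠ 0 := MvPolynomial.mem_support_iff.1 hv
    rw [MvPolynomial.coeff_sub, hco] at h1
    have h2 : v ∉ F := by
      intro hc
      rw [if_pos hc, sub_self] at h1
      exact h1 rfl
    rw [if_neg h2, sub_zero] at h1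
    rw [MvPolynomial.coeff_sub, hco, if_neg h2, sub_zero]
    have h3 : v ∈ P.support := MvPolynomial.mem_support_iff.2 h1
    have h4 : ‖P.coeff v‖₊ * v.prod (fun i n => ρ i ^ n) ≤ gn ρ P :=
      Finset.le_sup (f := fun u => ‖P.coeff u‖₊ * u.prod fun i n => ρ i ^ n) h3
    refine lt_of_le_of_ne h4 ?_
    intro h5
    exact h2 (Finset.mem_filter.2 ⟨h3, h5⟩)

/-- the value of a monomial of radii `ρ exp y` -/
theorem prod_rd {σ : Type} [Fintype σ] (ρ : σ → ℝ≥0) (y : σ → ℝ) (v : σ →₀ ℕ) :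
    ((v.prod fun i n => (ρ i * (Real.exp (y i)).toNNReal) ^ n : ℝ≥0) : ℝ) =
      ((v.prod fun i n => ρ i ^ n : ℝ≥0) : ℝ) * Real.exp (∑ i, (v i : ℝ) * y i) := by
  rw [Finsupp.prod_fintype _ _ (fun i => pow_zero _), Finsupp.prod_fintype _ _ (fun i => pow_zero _),
    NNReal.coe_prod, NNReal.coe_prod, Real.exp_sum, ← Finset.prod_mul_distrib]
  refine Finset.prod_congr rfl fun i _ => ?_
  rw [NNReal.coe_pow, NNReal.coe_mul, Real.coe_toNNReal _ (Real.exp_pos _).le, NNReal.coe_pow,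
    mul_pow, ← Real.exp_nat_mul]

/-- the values of a stripped polynomial at the radii `ρ exp y` -/
theorem gn_rd {K σ : Type} [NormedField K] [Fintype σ] (ρ : σ → ℝ≥0) (N : ℝ≥0)
    (Q : MvPolynomial σ K)
    (hQ : ∀ v ∈ Q.support, ‖Q.coeff v‖₊ * v.prod (fun i n => ρ i ^ n) = N)
    (y : σ → ℝ) (v : σ →₀ ℕ) (hv : v ∈ Q.support) :
    ((‖Q.coeff v‖₊ * v.prod (fun i n => (ρ i * (Real.exp (y i)).toNNReal) ^ n) : ℝ≥0) : ℝ) =
      N * Real.exp (∑ i, (v i : ℝ) * y i) := by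
  rw [NNReal.coe_mul, prod_rd, ← mul_assoc, ← NNReal.coe_mul, hQ v hv]

/-- a polynomial whose monomials are `X^u` and `X^u X_b` -/
theorem eq_mul_linf {K σ : Type} [NormedField K] [Fintype σ] (Q : MvPolynomial σ K) (u : σ →₀ ℕ)
    (h : ∀ v ∈ Q.support, v = u ∨ ∃ i, v = u + Finsupp.single i 1) :
    Q = MvPolynomial.monomial u 1 *
      linf (Q.coeff u) (fun i => Q.coeff (u + Finsupp.single i 1)) := by
  classical
  have hinj : ∀ i j : σ, u + Finsupp.single i 1 = u + Finsupp.single j 1 → i = j := by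
    intro i j hij
    have h1 : Finsupp.single i 1 = Finsupp.single j (1 : ℕ) := add_left_cancel hij
    exact Finsupp.single_left_injective one_ne_zero h1
  have hne : ∀ i : σ, u + Finsupp.single i 1 ≠ u := by
    intro i hi
    have h1 : Finsupp.single i (1 : ℕ) = 0 := by
      have : u + Finsupp.single i 1 = u + 0 := by rw [add_zero]; exact hi
      exact add_left_cancel this
    rw [Finsupp.single_eq_zero] at h1
    exact one_ne_zero h1
  have h1 : MvPolynomial.monomial u 1 *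
      linf (Q.coeff u) (fun i => Q.coeff (u + Finsupp.single i 1)) =
      MvPolynomial.monomial u (Q.coeff u) +
        ∑ i, MvPolynomial.monomial (u + Finsupp.single i 1) (Q.coeff (u + Finsupp.single i 1)) := by
    unfold linf
    rw [finsum_eq_sum_of_fintype, mul_add, Finset.mul_sum]
    congr 1
    · rw [MvPolynomial.C_apply, MvPolynomial.monomial_mul, add_zero, one_mul]
    · refine Finset.sum_congr rfl fun i _ => ?_
      rw [MvPolynomial.X, MvPolynomial.C_mul_monomial, MvPolynomial.monomial_mul, mul_one, one_mul]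
  rw [h1]
  ext v
  rw [MvPolynomial.coeff_add, MvPolynomial.coeff_sum, MvPolynomial.coeff_monomial]
  simp only [MvPolynomial.coeff_monomial]
  by_cases hv : v ∈ Q.support
  · rcases h v hv with h2 | ⟨i, h2⟩
    · rw [h2, if_pos rfl, Finset.sum_eq_zero, add_zero]
      intro i _
      rw [if_neg (hne i)]
    · rw [h2, if_neg (fun h3 => hne i h3.symm), zero_add, Finset.sum_eq_single i, if_pos rfl]
      · intro j _ hj
        rw [if_neg (fun h3 => hj (hinj j i h3))]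
      · intro h3
        exact absurd (Finset.mem_univ i) h3
  · have h2 : Q.coeff v = 0 := MvPolynomial.notMem_support_iff.1 hv
    rw [h2]
    have h3 : (if u = v then Q.coeff u else 0) = 0 := by
      by_cases h4 : u = v
      · rw [if_pos h4, h4, h2]
      · rw [if_neg h4]
    rw [h3, zero_add, Finset.sum_eq_zero]
    intro i _
    by_cases h4 : u + Finsupp.single i 1 = v
    · rw [if_pos h4, h4, h2]
    · rw [if_neg h4]

end NLin

namespace NDat

variable {K A I E : Type} [NormedField K] [IsUltrametricDist K] [Finite I] [Finite E]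
  [CommRing A] [IsDomain A] [Algebra K A] [Algebra.FiniteType K A] {D : NDat K A I E}

/-- (ND7), first step: `T_e` is close to a Laurent polynomial at `z1`. -/
theorem exists_laurent (h6 : StmtQ6) (h7 : StmtQ7) (hg : StmtGp) (hL : StmtLP) (hD : D.Ok)
    {z1 : Ber K A} (h1 : IsZ1 D z1) {B : Set E} (hB : D.M.IsBase B) (he0 : D.e0 ∈ B)
    (hd : Dens (D.ph0 (B \ {D.e0})) z1) (e : E) :
    ∃ (P : MvPolynomial (B \ {D.e0} : Set E) K) (u : (B \ {D.e0} : Set E) →₀ ℕ),
      z1.v (D.ph0 (B \ {D.e0}) (MvPolynomial.monomial u 1) * D.T e - D.ph0 (B \ {D.e0}) P) <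
        z1.v (D.ph0 (B \ {D.e0}) (MvPolynomial.monomial u 1) * D.T e) := by
  have hOm : z1 ∈ D.Om B := by
    rw [h1.mem B hB he0]
    exact rfl
  have hFw : z1 ∈ D.Fw := hOm.1
  have hgs : GaussAt (fun e : (B \ {D.e0} : Set E) => D.T e.1) (fun e => D.ρ e.1) z1 := hOm.2
  have hte : z1.v (D.T e) = D.ρ e := v_T_Fw hD hFw e
  have hρe : (0 : ℝ) < D.ρ e := by exact_mod_cast hD.ρpos e
  set B' : Set E := B \ {D.e0} with hB'
  set q0 : MvPolynomial B' K →ₐ[K] A := D.ph0 B' with hq0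
  obtain ⟨b, c, hc0, hbc⟩ := hd (D.T e) (D.ρ e) hρe
  have hcpos : 0 < z1.v (q0 c) := lt_of_le_of_ne (z1.nonneg _) (Ne.symm hc0)
  have hbc' : z1.v (q0 c * D.T e - q0 b) < z1.v (q0 c * D.T e) := by
    rw [z1.mul, hte, mul_comm (z1.v (q0 c))]
    exact hbc
  have hbv : z1.v (q0 b) = z1.v (q0 c) * D.ρ e := by
    rw [z1.sub_eq hbc', z1.mul, hte]
  have hbpos : 0 < z1.v (q0 b) := by
    rw [hbv]
    exact mul_pos hcpos hρe
  have hc : c ≠ 0 := by
    intro h
    rw [h, map_zero, z1.zero] at hcpos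
    exact lt_irrefl _ hcpos
  have hb : b ≠ 0 := by
    intro h
    rw [h, map_zero, z1.zero] at hbpos
    exact lt_irrefl _ hbpos
  -- the Gauss point
  set η0 : Ber K (MvPolynomial B' K) := Ber.res q0 z1 with hη0
  have hη : IsGp (fun e : B' => D.ρ e.1) η0 := hgs
  -- the map `y ↦ (0, y)`
  set s : MvPolynomial (I ⊕ B') K →ₐ[K] MvPolynomial B' K :=
    MvPolynomial.aeval (Sum.elim (fun _ => 0) MvPolynomial.X) with hs
  have hsη : Ber.res s η0 = Ber.res (D.ph B') z1 := by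
    have e1 : GaussAt (D.vr B') (D.eta B) z1 := ((mem_Om_iff hD).1 hOm).2
    have e2 : GaussAt (MvPolynomial.X : B' → MvPolynomial B' K) (fun e : B' => D.ρ e.1) η0 := by
      intro P
      rw [MvPolynomial.aeval_X_left, AlgHom.id_apply]
      exact hη P
    have e3 := e2.sum_zero (t := fun _ : I => (0 : MvPolynomial B' K)) (fun _ => η0.zero)
    apply Ber.ext_v
    intro P
    have e4 : (Ber.res s η0).v P = gn (D.eta B) P := e3 P
    have e5 : (Ber.res (D.ph B') z1).v P = gn (D.eta B) P := e1 P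
    rw [e4, e5]
  -- the neighbourhood
  have hU : {z' : Ber K A | z' ∈ D.V0 ∧ z'.v (q0 c * D.T e - q0 b) < z'.v (q0 c * D.T e)} ∈ 𝓝 z1 := by
    refine Filter.inter_mem (hD.nhd z1 hFw) ?_
    exact (isOpen_lt (Ber.continuous_v _) (Ber.continuous_v _)).mem_nhds hbc'
  have hopen := h7 K (MvPolynomial (I ⊕ B') K) A (D.ph B') (ph_injective hD hB he0) z1
    (Om_zmp h6 h7 hg hD hB he0 hOm) _ hU
  rw [← hsη] at hopen
  have hev := (Ber.res_continuous s).continuousAt.preimage_mem_nhds hopen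
  have hmain : ∀ᶠ y : Ber K (MvPolynomial B' K) in 𝓝 η0,
      (∀ i : B', y.v (MvPolynomial.X i) = (D.ρ i.1 : ℝ)) → y.v b * η0.v c ≤ η0.v b * y.v c := by
    filter_upwards [hev] with y hy hyr
    obtain ⟨z', ⟨hz'V, hz'U⟩, hz'⟩ := hy
    have hval : ∀ P : MvPolynomial B' K, y.v P = z'.v (q0 P) := by
      intro P
      have e1 : (Ber.res (D.ph B') z').v (MvPolynomial.rename Sum.inr P) =
          (Ber.res s y).v (MvPolynomial.rename Sum.inr P) := by rw [hz']
      rw [Ber.res_v, Ber.res_v] at e1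
      have e2 : D.ph B' (MvPolynomial.rename Sum.inr P) = q0 P := by
        rw [hq0]
        unfold NDat.ph NDat.ph0 NDat.vr
        rw [MvPolynomial.aeval_rename]
        rfl
      have e3 : s (MvPolynomial.rename Sum.inr P) = P := by
        rw [hs, MvPolynomial.aeval_rename]
        have : (Sum.elim (fun _ : I => (0 : MvPolynomial B' K)) MvPolynomial.X) ∘
          (Sum.inr : B' → I ⊕ B') = MvPolynomial.X := rfl
        rw [this, MvPolynomial.aeval_X_left, AlgHom.id_apply]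
      rw [e2, e3] at e1
      exact e1.symm
    have hyc : ∀ b' ∈ B, D.yc z' b' ≤ 0 := by
      intro b' hb'
      by_cases h0 : b' = D.e0
      · rw [h0, yc_e0 hD]
      · have e1 : z'.v (D.T b') = D.ρ b' := by
          have e2 := hyr ⟨b', hb', h0⟩
          rw [hval] at e2
          have e3 : q0 (MvPolynomial.X ⟨b', hb', h0⟩) = D.T b' := by
            rw [hq0]
            unfold NDat.ph0
            rw [MvPolynomial.aeval_X]
          rw [e3] at e2
          exact e2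
        unfold NDat.yc
        rw [e1, sub_self]
    have hye : D.yc z' e ≤ 0 := (hD.berg z' hz'V).nonpos hD.ground hB hyc e
    have hTe : z'.v (D.T e) ≤ D.ρ e := by
      rw [v_T hD hz'V e]
      unfold NDat.rd
      rw [NNReal.coe_mul, Real.coe_toNNReal _ (Real.exp_pos _).le]
      exact mul_le_of_le_one_right hρe.le (Real.exp_le_one_iff.2 hye)
    have e1 : y.v b = z'.v (q0 c) * z'.v (D.T e) := by
      rw [hval, z'.sub_eq hz'U, z'.mul]
    have e2 : η0.v b = η0.v c * D.ρ e := hbv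
    have e3 : y.v c = z'.v (q0 c) := hval c
    rw [e1, e2, e3]
    have h4 : z'.v (q0 c) * z'.v (D.T e) ≤ z'.v (q0 c) * D.ρ e :=
      mul_le_mul_of_nonneg_left hTe (z'.nonneg _)
    calc z'.v (q0 c) * z'.v (D.T e) * η0.v c ≤ z'.v (q0 c) * D.ρ e * η0.v c :=
          mul_le_mul_of_nonneg_right h4 (η0.nonneg _)
      _ = η0.v c * D.ρ e * z'.v (q0 c) := by ring
  obtain ⟨P, u, hPu⟩ := hL K B' (fun e : B' => D.ρ e.1) (fun i => hD.ρpos _) η0 hη b c hb hc hmain
  refine ⟨P, u, ?_⟩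
  -- `X^u`
  have hu : 0 < z1.v (q0 (MvPolynomial.monomial u 1)) := by
    have e1 : z1.v (q0 (MvPolynomial.monomial u 1)) = gn (fun e : B' => D.ρ e.1)
      (MvPolynomial.monomial u (1 : K)) := hgs _
    rw [e1]
    have e2 : (0 : ℝ≥0) < gn (fun e : B' => D.ρ e.1) (MvPolynomial.monomial u (1 : K)) :=
      gn_pos (fun i => hD.ρpos _) (by
        intro h
        rw [MvPolynomial.monomial_eq_zero] at h
        exact one_ne_zero h)
    exact_mod_cast e2
  have hPu' : z1.v (q0 (MvPolynomial.monomial u 1) * q0 b - q0 P * q0 c) <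
      z1.v (q0 (MvPolynomial.monomial u 1) * q0 b) := by
    have e1 : η0.v (MvPolynomial.monomial u 1 * b - P * c) =
        z1.v (q0 (MvPolynomial.monomial u 1) * q0 b - q0 P * q0 c) := by
      rw [hη0, Ber.res_v, map_sub, map_mul, map_mul]
    have e2 : η0.v (MvPolynomial.monomial u 1 * b) =
        z1.v (q0 (MvPolynomial.monomial u 1) * q0 b) := by
      rw [hη0, Ber.res_v, map_mul]
    rw [e1, e2] at hPu
    exact hPu
  have hfin : z1.v (q0 c) * z1.v (q0 (MvPolynomial.monomial u 1) * D.T e - q0 P) <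
      z1.v (q0 c) * z1.v (q0 (MvPolynomial.monomial u 1) * D.T e) := by
    rw [← z1.mul, ← z1.mul]
    have e1 : q0 c * (q0 (MvPolynomial.monomial u 1) * D.T e - q0 P) =
        q0 (MvPolynomial.monomial u 1) * (q0 c * D.T e - q0 b) +
          (q0 (MvPolynomial.monomial u 1) * q0 b - q0 P * q0 c) := by ring
    have e2 : z1.v (q0 c * (q0 (MvPolynomial.monomial u 1) * D.T e)) =
        z1.v (q0 (MvPolynomial.monomial u 1)) * z1.v (q0 c * D.T e) := by
      rw [← z1.mul]; congr 1; ring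
    rw [e1, e2]
    refine (z1.add _ _).trans_lt (max_lt ?_ ?_)
    · rw [z1.mul]
      exact mul_lt_mul_of_pos_left hbc' hu
    · refine hPu'.trans_le ?_
      rw [z1.mul, hbv, z1.mul, hte]
  exact lt_of_mul_lt_mul_left hfin hcpos.le

/-- (ND7) -/
theorem exists_linear (hD : D.Ok) {z1 : Ber K A} (h1 : IsZ1 D z1) {B : Set E}
    (hB : D.M.IsBase B) (he0 : D.e0 ∈ B) {e : E} (he : e ∉ B)
    (h : ∃ (P : MvPolynomial (B \ {D.e0} : Set E) K) (u : (B \ {D.e0} : Set E) →₀ ℕ),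
      z1.v (D.ph0 (B \ {D.e0}) (MvPolynomial.monomial u 1) * D.T e - D.ph0 (B \ {D.e0}) P) <
        z1.v (D.ph0 (B \ {D.e0}) (MvPolynomial.monomial u 1) * D.T e)) :
    ∃ (c0 : K) (c : (B \ {D.e0} : Set E) → K), ‖c0‖₊ ≤ D.ρ e ∧ (∀ b, ‖c b‖₊ * D.ρ b.1 ≤ D.ρ e) ∧
      z1.v (D.T e - D.ph0 (B \ {D.e0}) (linf c0 c)) < D.ρ e := by
  classical
  have hOm : z1 ∈ D.Om B := by
    rw [h1.mem B hB he0]
    exact rfl
  have hFw : z1 ∈ D.Fw := hOm.1
  have hgs : GaussAt (fun e : (B \ {D.e0} : Set E) => D.T e.1) (fun e => D.ρ e.1) z1 := hOm.2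
  have hte : z1.v (D.T e) = D.ρ e := v_T_Fw hD hFw e
  have hρe : (0 : ℝ) < D.ρ e := by exact_mod_cast hD.ρpos e
  set B' : Set E := B \ {D.e0} with hB'
  let _ : Fintype B' := Fintype.ofFinite B'
  set q0 : MvPolynomial B' K →ₐ[K] A := D.ph0 B' with hq0
  obtain ⟨P, u, hPu⟩ := h
  set ρ : B' → ℝ≥0 := fun b => D.ρ b.1 with hρ
  have hgsv : ∀ Q : MvPolynomial B' K, z1.v (q0 Q) = gn ρ Q := hgs
  -- the monomial
  have hmon : ∀ (z : Ber K A) (ρ' : B' → ℝ≥0),
      (∀ b : B', z.v (D.T b.1) = ρ' b) →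
        z.v (q0 (MvPolynomial.monomial u 1)) = (u.prod fun i n => ρ' i ^ n : ℝ≥0) := by
    intro z ρ' hz
    rw [hq0]
    unfold NDat.ph0
    rw [MvPolynomial.aeval_monomial, map_one, one_mul, Finsupp.prod_fintype _ _ (fun i => pow_zero _),
      Finsupp.prod_fintype _ _ (fun i => pow_zero _), Ber.prod, NNReal.coe_prod]
    refine Finset.prod_congr rfl fun i _ => ?_
    rw [Ber.pow, hz i, NNReal.coe_pow]
  set Ru : ℝ≥0 := u.prod fun i n => ρ i ^ n with hRu
  have hRupos : 0 < Ru := by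
    rw [hRu, Finsupp.prod_fintype _ _ (fun i => pow_zero _)]
    exact Finset.prod_pos fun i _ => pow_pos (hD.ρpos _) _
  have hRupos' : (0 : ℝ) < Ru := by exact_mod_cast hRupos
  have hz1u : z1.v (q0 (MvPolynomial.monomial u 1)) = Ru :=
    hmon z1 ρ fun b => v_T_Fw hD hFw b.1
  set N : ℝ≥0 := Ru * D.ρ e with hN
  have hNpos : 0 < N := mul_pos hRupos (hD.ρpos e)
  have hNpos' : (0 : ℝ) < N := by exact_mod_cast hNpos
  have hN1 : z1.v (q0 (MvPolynomial.monomial u 1) * D.T e) = N := by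
    rw [z1.mul, hz1u, hte, hN, NNReal.coe_mul]
  have hNP : gn ρ P = N := by
    have e1 := z1.sub_eq hPu
    rw [hgsv P, hN1] at e1
    exact_mod_cast e1
  -- strip
  obtain ⟨Q, hQ1, hQ2⟩ := NLin.strip ρ P (by rw [hNP]; exact hNpos)
  rw [hNP] at hQ1 hQ2
  have hQu : z1.v (q0 (MvPolynomial.monomial u 1) * D.T e - q0 Q) <
      z1.v (q0 (MvPolynomial.monomial u 1) * D.T e) := by
    have e1 : q0 (MvPolynomial.monomial u 1) * D.T e - q0 Q =
        (q0 (MvPolynomial.monomial u 1) * D.T e - q0 P) + q0 (P - Q) := by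
      rw [map_sub]; ring
    rw [e1]
    refine (z1.add _ _).trans_lt (max_lt hPu ?_)
    rw [hgsv, hN1]
    exact_mod_cast hQ2
  have hQne : Q.support.Nonempty := by
    rw [Finset.nonempty_iff_ne_empty]
    intro h0
    rw [MvPolynomial.support_eq_empty] at h0
    rw [h0, map_zero, sub_zero] at hQu
    exact lt_irrefl _ hQu
  -- generic points
  obtain ⟨δ, hδ, hlim⟩ := h1.lim _
    ((isOpen_lt (Ber.continuous_v _) (Ber.continuous_v _)).mem_nhds hQu)
  set δ' : ℝ := min δ D.δ0 with hδ'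
  have hδ'pos : 0 < δ' := lt_min hδ hD.δpos
  set C : Set B' := {b | b.1 ∈ D.M.fundCircuit e B} with hC
  have hcirc : D.e0 ∈ D.M.fundCircuit e B ∨ C.Nonempty := by
    obtain ⟨b, hb1, hb2⟩ := MTC2.nonempty_D hD.ground hD.loopless hB e
    by_cases h0 : b = D.e0
    · left; rw [← h0]; exact hb1
    · right; exact ⟨⟨b, hb2, h0⟩, hb1⟩
  have hS := supp_simplex (Q.support.image fun (v : B' →₀ ℕ) => fun i => (v i : ℤ) - (u i : ℤ))
    (hQne.image _) C (D.e0 ∈ D.M.fundCircuit e B) hcirc δ' hδ'pos (by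
    intro y hy1 hy2 hy3
    -- extension by zero
    set w : E → ℝ := fun x => if hx : x ∈ B' then y ⟨x, hx⟩ else 0 with hw
    have hw1 : ∀ b : B', w b.1 = y b := by
      intro b
      rw [hw]
      simp only [b.2, dif_pos]
    have hw0 : w D.e0 = 0 := by
      rw [hw]
      have : D.e0 ∉ B' := fun hx => hx.2 rfl
      simp only [this, dif_neg, not_false_iff]
    have hBsub : ∀ b ∈ B, b = D.e0 ∨ b ∈ B' := by
      intro b hb
      by_cases h0 : b = D.e0
      · exact Or.inl h0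
      · exact Or.inr ⟨hb, h0⟩
    have hinj : Set.InjOn w B := by
      intro b hb b' hb' hbb
      rcases hBsub b hb with h2 | h2 <;> rcases hBsub b' hb' with h3 | h3
      · rw [h2, h3]
      · rw [h2, hw0, hw1 ⟨b', h3⟩] at hbb
        exact absurd hbb.symm (hy3 _)
      · rw [h3, hw0, hw1 ⟨b, h2⟩] at hbb
        exact absurd hbb (hy3 _)
      · rw [hw1 ⟨b, h2⟩, hw1 ⟨b', h3⟩] at hbb
        exact congrArg Subtype.val (hy2 hbb)
    have hsm : ∀ b ∈ B, |w b| < δ' := by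
      intro b hb
      rcases hBsub b hb with h2 | h2
      · rw [h2, hw0, abs_zero]; exact hδ'pos
      · rw [hw1 ⟨b, h2⟩]; exact hy1 _
    obtain ⟨Y, Y1, Y2, Y3, Y4, Y5, Y6⟩ := exists_gen3 hD.ground hD.loopless hB he0 w hw0 hinj hsm
    have hgen : D.Gen δ' B (fun _ => (δ' / 2).toNNReal) Y := by
      refine ⟨fun i => Real.toNNReal_pos.2 (half_pos hδ'pos), fun i => ?_, Y1, Y2, Y3, Y4⟩
      rw [Real.coe_toNNReal _ (half_pos hδ'pos).le]
      exact half_lt_self hδ'pos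
    obtain ⟨z, hz⟩ := hD.top B _ Y hB he0 (hgen.mono (min_le_right _ _))
    have hzU : z.v (q0 (MvPolynomial.monomial u 1) * D.T e - q0 Q) <
        z.v (q0 (MvPolynomial.monomial u 1) * D.T e) :=
      hlim B _ Y z hB he0 (hgen.mono (min_le_left _ _)) hz
    -- the values at `z`
    set ρ' : B' → ℝ≥0 := fun b => ρ b * (Real.exp (y b)).toNNReal with hρ'
    have hrd : ∀ b : B', D.rd Y b.1 = ρ' b := by
      intro b
      rw [hρ']
      unfold NDat.rd
      rw [Y5 b.1 b.2.1, hw1]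
    have hgz : GaussAt (fun b : B' => D.T b.1) ρ' z := by
      have e1 := hz.gauss.comp (Sum.inr : B' → I ⊕ B') Sum.inr_injective
      have e2 : (fun b : B' => (Sum.elim (fun _ : I => (δ' / 2).toNNReal)
        (fun e : B' => D.rd Y e.1) (Sum.inr b) : ℝ≥0)) = ρ' := by
        funext b
        exact hrd b
      rw [e2] at e1
      exact e1
    have hzT : ∀ b : B', z.v (D.T b.1) = ρ' b := fun b => hgz.v_eq b
    have hzF := hz.mem
    have hzte : z.v (D.T e) = D.ρ e * Real.exp (Y e) := by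
      rw [v_T hD hzF.1 e]
      unfold NDat.rd
      rw [NNReal.coe_mul, Real.coe_toNNReal _ (Real.exp_pos _).le, hzF.2.2 e]
    have hzu : z.v (q0 (MvPolynomial.monomial u 1)) = Ru * Real.exp (∑ i, (u i : ℝ) * y i) := by
      rw [hmon z ρ' hzT, hρ', NLin.prod_rd]
    have hzeq : (gn ρ' Q : ℝ) = N * Real.exp (∑ i, (u i : ℝ) * y i + Y e) := by
      have e1 : z.v (q0 Q) = gn ρ' Q := hgz Q
      rw [← e1, z.sub_eq hzU, z.mul, hzu, hzte, Real.exp_add, hN, NNReal.coe_mul]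
      ring
    have hsum : ∀ v : B' →₀ ℕ, ∑ i, (((v i : ℤ) - (u i : ℤ) : ℤ) : ℝ) * y i =
        ∑ i, (v i : ℝ) * y i - ∑ i, (u i : ℝ) * y i := by
      intro v
      rw [← Finset.sum_sub_distrib]
      refine Finset.sum_congr rfl fun i _ => ?_
      push_cast
      ring
    obtain ⟨b, hb1, hb2, hb3, hb4⟩ := Y6 e he
    refine ⟨Y e, ?_, ?_, ?_, ?_, ?_⟩
    · intro s hs
      obtain ⟨v, hv, rfl⟩ := Finset.mem_image.1 hs
      rw [hsum]
      have e1 : ‖Q.coeff v‖₊ * v.prod (fun i n => ρ' i ^ n) ≤ gn ρ' Q :=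
        Finset.le_sup (f := fun u => ‖Q.coeff u‖₊ * u.prod fun i n => ρ' i ^ n) hv
      have e2 : ((‖Q.coeff v‖₊ * v.prod (fun i n => ρ' i ^ n) : ℝ≥0) : ℝ) ≤ gn ρ' Q := by
        exact_mod_cast e1
      rw [hzeq, hρ', NLin.gn_rd ρ N Q hQ1 y v hv] at e2
      have e3 := Real.exp_le_exp.1 (le_of_mul_le_mul_left e2 hNpos')
      linarith
    · obtain ⟨v, hv, hvm⟩ := Finset.exists_mem_eq_sup Q.support hQne
        (fun u => ‖Q.coeff u‖₊ * u.prod fun i n => ρ' i ^ n)
      refine ⟨_, Finset.mem_image_of_mem _ hv, ?_⟩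
      rw [hsum]
      have e2 : ((‖Q.coeff v‖₊ * v.prod (fun i n => ρ' i ^ n) : ℝ≥0) : ℝ) = gn ρ' Q := by
        unfold gn
        rw [hvm]
      rw [hzeq, hρ', NLin.gn_rd ρ N Q hQ1 y v hv] at e2
      have e3 := Real.exp_injective (mul_left_cancel₀ hNpos'.ne' e2)
      linarith
    · intro i hi
      rw [hb3, ← hw1 i]
      exact hb4 i.1 hi i.2.1
    · intro h0
      rw [hb3, ← hw0]
      exact hb4 _ h0 he0
    · rcases hBsub b hb2 with h2 | h2
      · right
        refine ⟨by rw [← h2]; exact hb1, ?_⟩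
        rw [hb3, h2, hw0]
      · left
        exact ⟨⟨b, h2⟩, hb1, by rw [hb3, hw1 ⟨b, h2⟩]⟩)
  -- the monomials of `Q`
  have hsupp : ∀ v ∈ Q.support, v = u ∨ ∃ i, v = u + Finsupp.single i 1 := by
    intro v hv
    rcases hS.1 _ (Finset.mem_image_of_mem _ hv) with ⟨h2, -⟩ | ⟨i, -, h2⟩
    · left
      ext j
      have := congrFun h2 j
      simp only [Pi.zero_apply] at this
      omega
    · right
      refine ⟨i, ?_⟩
      ext j
      have h3 := congrFun h2 j
      rw [Finsupp.add_apply]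
      by_cases hj : j = i
      · rw [hj, Pi.single_eq_same] at h3
        rw [hj, Finsupp.single_eq_same]
        omega
      · rw [Pi.single_eq_of_ne hj] at h3
        rw [Finsupp.single_eq_of_ne hj]
        omega
  have hQl := NLin.eq_mul_linf Q u hsupp
  refine ⟨Q.coeff u, fun i => Q.coeff (u + Finsupp.single i 1), ?_, ?_, ?_⟩
  · by_cases h0 : u ∈ Q.support
    · have e1 := hQ1 u h0
      rw [← hRu, hN, mul_comm] at e1
      exact (mul_left_cancel₀ hRupos.ne' e1).le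
    · rw [MvPolynomial.notMem_support_iff.1 h0, nnnorm_zero]
      exact zero_le
  · intro b
    show ‖Q.coeff (u + Finsupp.single b 1)‖₊ * ρ b ≤ D.ρ e
    by_cases h0 : u + Finsupp.single b 1 ∈ Q.support
    · have e1 := hQ1 _ h0
      have e0 : (u + Finsupp.single b 1).prod (fun i n => ρ i ^ n) = Ru * ρ b := by
        rw [hRu, Finsupp.prod_fintype _ _ (fun i => pow_zero _),
          Finsupp.prod_fintype _ _ (fun i => pow_zero _)]
        simp only [Finsupp.add_apply, pow_add]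
        rw [Finset.prod_mul_distrib]
        congr 1
        rw [Finset.prod_eq_single b]
        · rw [Finsupp.single_eq_same, pow_one]
        · intro j _ hj
          rw [Finsupp.single_eq_of_ne hj, pow_zero]
        · intro h3
          exact absurd (Finset.mem_univ b) h3
      rw [e0, hN] at e1
      have e2 : Ru * (‖Q.coeff (u + Finsupp.single b 1)‖₊ * ρ b) = Ru * D.ρ e := by
        rw [← e1]; ring
      exact (mul_left_cancel₀ hRupos.ne' e2).le
    · rw [MvPolynomial.notMem_support_iff.1 h0, nnnorm_zero, zero_mul]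
      exact zero_le
  · rw [hQl, map_mul, ← mul_sub, z1.mul, z1.mul, hz1u, hte] at hQu
    exact lt_of_mul_lt_mul_left hQu hRupos'.le

end NDat

end Pool.Agent.TD


end

section

/-! Local data ND0: the structure theorem (PAPER2.md, ND8; module TD_N_ST). -/

open scoped Topology NNReal

namespace Pool.Agent.TD

namespace NDat

variable {K A I E : Type} [NormedField K] [IsUltrametricDist K] [Finite I] [Finite E]
  [CommRing A] [IsDomain A] [Algebra K A] [Algebra.FiniteType K A]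

/-- The output of section ND: the fibre `F_w` is an arrangement fibre. -/
structure Str (D : NDat K A I E) (B : Set E) (c0 : (Bᶜ : Set E) → K)
    (c : (Bᶜ : Set E) → (B \ {D.e0} : Set E) → K) : Prop where
  base : D.M.IsBase B
  e0_mem : D.e0 ∈ B
  bd0 : ∀ e, ‖c0 e‖₊ ≤ D.ρ e.1
  bd : ∀ e b, ‖c e b‖₊ * D.ρ b.1 ≤ D.ρ e.1
  image : Ber.res (D.ph0 (B \ {D.e0})) '' D.Fw =
    ArrSet (fun b : (B \ {D.e0} : Set E) => D.ρ b.1) c0 c fun e => D.ρ e.1
  inj : Set.InjOn (Ber.res (D.ph0 (B \ {D.e0}))) D.Fw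
  opn : ∀ z ∈ D.Fw, ∀ V ∈ 𝓝 z, Ber.res (D.ph0 (B \ {D.e0})) '' V ∈
    𝓝 (Ber.res (D.ph0 (B \ {D.e0})) z)
  dens : ∀ z ∈ D.Fw, Dens (D.ph0 (B \ {D.e0})) z
  close : ∀ z ∈ D.Fw, ∀ e : (Bᶜ : Set E),
    z.v (D.T e.1 - D.ph0 (B \ {D.e0}) (linf (c0 e) (c e))) < D.ρ e.1

variable {D : NDat K A I E}

/-- (ND8 0) `F_w` is open in the inverse image of `{0} × Arr`. -/
theorem Fw_eq (hD : D.Ok) {B : Set E} (hB : D.M.IsBase B) (he0 : D.e0 ∈ B)
    {c0 : (Bᶜ : Set E) → K} {c : (Bᶜ : Set E) → (B \ {D.e0} : Set E) → K}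
    (hc : ∀ z ∈ D.Fw, ∀ e : (Bᶜ : Set E),
      z.v (D.T e.1 - D.ph0 (B \ {D.e0}) (linf (c0 e) (c e))) < D.ρ e.1) :
    ∃ V : Set (Ber K A), IsOpen V ∧ D.Fw = V ∩ {z | (∀ i, z.v (D.t i) = 0) ∧
      Ber.res (D.ph0 (B \ {D.e0})) z ∈
        ArrSet (fun b : (B \ {D.e0} : Set E) => D.ρ b.1) c0 c fun e => D.ρ e.1} := by
  refine ⟨interior D.V0 ∩ ⋂ e : (Bᶜ : Set E),
    {z | z.v (D.T e.1 - D.ph0 (B \ {D.e0}) (linf (c0 e) (c e))) < D.ρ e.1}, ?_, ?_⟩
  · refine isOpen_interior.inter (isOpen_iInter_of_finite fun e => ?_)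
    exact isOpen_lt (Ber.continuous_v _) continuous_const
  · ext z
    constructor
    · intro hz
      refine ⟨⟨mem_interior_iff_mem_nhds.2 (hD.nhd z hz), Set.mem_iInter.2 fun e => hc z hz e⟩,
        hz.2.1, ?_, ?_⟩
      · intro b
        rw [Ber.res_v, ph0, MvPolynomial.aeval_X]
        exact v_T_Fw hD hz b.1
      · intro e
        rw [Ber.res_v]
        have h1 := v_T_Fw hD hz e.1
        have h2 : z.v (D.T e.1 - D.ph0 (B \ {D.e0}) (linf (c0 e) (c e))) < z.v (D.T e.1) := by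
          rw [h1]; exact hc z hz e
        rw [z.sub_eq h2, h1]
    · rintro ⟨⟨h0, h1⟩, h2, h3, h4⟩
      refine ⟨interior_subset h0, h2, fun e => ?_⟩
      have key : ∀ e, z.v (D.T e) = D.ρ e → D.yc z e = 0 := fun e h => by
        rw [yc, h, sub_self]
      by_cases he : e = D.e0
      · rw [he]; exact yc_e0 hD z
      · by_cases heB : e ∈ B
        · apply key
          have h := h3 ⟨e, heB, he⟩
          rw [Ber.res_v, ph0, MvPolynomial.aeval_X] at h
          exact h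
        · apply key
          have h := h4 ⟨e, heB⟩
          rw [Ber.res_v] at h
          have h5 : z.v (D.T e - D.ph0 (B \ {D.e0}) (linf (c0 ⟨e, heB⟩) (c ⟨e, heB⟩))) < D.ρ e :=
            Set.mem_iInter.1 h1 ⟨e, heB⟩
          have h6 : z.v (D.ph0 (B \ {D.e0}) (linf (c0 ⟨e, heB⟩) (c ⟨e, heB⟩)) - D.T e) <
              z.v (D.ph0 (B \ {D.e0}) (linf (c0 ⟨e, heB⟩) (c ⟨e, heB⟩))) := by
            rw [z.sub_comm, h]; exact h5
          rw [z.sub_eq h6, h]

/-- The value of a linear form. -/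
theorem linf_v_le {σ : Type} [Finite σ] (y : Ber K (MvPolynomial σ K)) {ρ : σ → ℝ≥0}
    (hy : ∀ b, y.v (MvPolynomial.X b) = ρ b) {a0 : K} {a : σ → K} {r : ℝ≥0} (h0 : ‖a0‖₊ ≤ r)
    (h1 : ∀ b, ‖a b‖₊ * ρ b ≤ r) : y.v (linf a0 a) ≤ r := by
  classical
  haveI := Fintype.ofFinite σ
  have hC : ∀ c : K, y.v (MvPolynomial.C c) = ‖c‖ := fun c => y.ext c
  rw [linf, finsum_eq_sum_of_fintype]
  refine (y.add _ _).trans (max_le ?_ ?_)
  · rw [hC]; exact_mod_cast h0
  · refine y.sum_le _ _ r.2 fun b _ => ?_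
    rw [y.mul, hC, hy]
    exact_mod_cast h1 b

omit [IsUltrametricDist K] in
theorem isClosed_ArrSet {σ ι : Type} (ρ : σ → ℝ≥0) (a0 : ι → K) (a : ι → σ → K) (r : ι → ℝ≥0) :
    IsClosed (ArrSet ρ a0 a r) := by
  have : ArrSet ρ a0 a r = (⋂ b, {y : Ber K (MvPolynomial σ K) | y.v (MvPolynomial.X b) = ρ b}) ∩
      ⋂ i, {y | y.v (linf (a0 i) (a i)) = r i} := by
    ext y
    simp only [ArrSet, Set.mem_inter_iff, Set.mem_iInter, Set.mem_ofPred_eq]
  rw [this]
  exact (isClosed_iInter fun b => isClosed_eq (Ber.continuous_v _) continuous_const).inter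
    (isClosed_iInter fun i => isClosed_eq (Ber.continuous_v _) continuous_const)

/-- (ND8 2) arrangement sets are connected. -/
theorem arr_connected {σ ι : Type} [Finite σ] (hP : StmtPath) (hg : StmtGp) (ρ : σ → ℝ≥0)
    (hρ : ∀ i, 0 < ρ i) (a0 : ι → K) (a : ι → σ → K) (r : ι → ℝ≥0) (h0 : ∀ i, ‖a0 i‖₊ ≤ r i)
    (h1 : ∀ i b, ‖a i b‖₊ * ρ b ≤ r i) : IsPreconnected (ArrSet ρ a0 a r) := by
  obtain ⟨g, -, hgp⟩ := hg K σ
  have hη := hgp ρ
  have hX : ∀ b, (g ρ).v (MvPolynomial.X b) = ρ b := fun b => by rw [hη, gn_X]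
  refine isPreconnected_of_forall (g ρ) fun w hw => ?_
  obtain ⟨γ, hγ, hγ0, hγ1, hγs⟩ := hP K σ ρ (g ρ) hη w fun i => (hw.1 i).le
  refine ⟨γ '' Set.Icc 0 1, ?_, ⟨1, ⟨zero_le_one, le_rfl⟩, hγ1⟩, ⟨0, ⟨le_rfl, zero_le_one⟩, hγ0⟩,
    isPreconnected_Icc.image _ hγ⟩
  rintro _ ⟨s, hs, rfl⟩
  obtain ⟨h2, h3⟩ := hγs s hs
  refine ⟨fun b => le_antisymm ?_ ?_, fun i => le_antisymm ?_ ?_⟩
  · exact (h3 _).trans_eq (hX b)
  · exact (hw.1 b).symm.le.trans (h2 _)
  · exact (h3 _).trans (linf_v_le _ hX (h0 i) (h1 i))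
  · exact (hw.2 i).symm.le.trans (h2 _)

section Sec

variable {J : Type}

/-- The homomorphism `t ↦ 0`. -/
noncomputable def sec0 (K I J : Type) [NormedField K] :
    MvPolynomial (I ⊕ J) K →ₐ[K] MvPolynomial J K :=
  MvPolynomial.aeval (Sum.elim (fun _ => 0) MvPolynomial.X)

/-- The inclusion. -/
noncomputable def inc0 (K I J : Type) [NormedField K] :
    MvPolynomial J K →ₐ[K] MvPolynomial (I ⊕ J) K := MvPolynomial.rename Sum.inr

theorem sec0_inc0 {K I J : Type} [NormedField K] (P : MvPolynomial J K) :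
    sec0 K I J (inc0 K I J P) = P := by
  have h : (sec0 K I J).comp (inc0 K I J) = AlgHom.id K _ := by
    apply MvPolynomial.algHom_ext
    intro j
    simp [sec0, inc0]
  exact congrArg (fun f : MvPolynomial J K →ₐ[K] MvPolynomial J K => f P) h

theorem res_sec0 {K I J : Type} [NormedField K] (y : Ber K (MvPolynomial J K)) :
    Ber.res (inc0 K I J) (Ber.res (sec0 K I J) y) = y := by
  apply Ber.ext_v
  intro P
  rw [Ber.res_v, Ber.res_v, sec0_inc0]

theorem res_inc0 {K I J : Type} [NormedField K] (w : Ber K (MvPolynomial (I ⊕ J) K))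
    (hw : ∀ i, w.v (MvPolynomial.X (Sum.inl i)) = 0) :
    Ber.res (sec0 K I J) (Ber.res (inc0 K I J) w) = w := by
  apply Ber.ext_v
  intro P
  rw [Ber.res_v, Ber.res_v]
  have h : ((Ideal.Quotient.mkₐ K w.ker).comp ((inc0 K I J).comp (sec0 K I J))) =
      Ideal.Quotient.mkₐ K w.ker := by
    apply MvPolynomial.algHom_ext
    rintro (i | j)
    · have : (MvPolynomial.X (Sum.inl i) : MvPolynomial (I ⊕ J) K) ∈ w.ker := hw i
      simp only [AlgHom.comp_apply, sec0, MvPolynomial.aeval_X, Sum.elim_inl, map_zero]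
      rw [eq_comm]
      exact Ideal.Quotient.eq_zero_iff_mem.2 this
    · simp [sec0, inc0]
  have h1 : inc0 K I J (sec0 K I J P) - P ∈ w.ker :=
    Ideal.Quotient.eq.1 (congrArg (fun f : MvPolynomial (I ⊕ J) K →ₐ[K]
      (MvPolynomial (I ⊕ J) K ⧸ w.ker) => f P) h)
  have h2 : w.v (inc0 K I J (sec0 K I J P) - P) = 0 := h1
  apply le_antisymm
  · calc w.v (inc0 K I J (sec0 K I J P)) = w.v ((inc0 K I J (sec0 K I J P) - P) + P) := by
          rw [sub_add_cancel]
      _ ≤ max (w.v (inc0 K I J (sec0 K I J P) - P)) (w.v P) := w.add _ _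
      _ ≤ w.v P := by rw [h2]; exact max_le (w.nonneg _) le_rfl
  · calc w.v P = w.v (inc0 K I J (sec0 K I J P) - (inc0 K I J (sec0 K I J P) - P)) := by
          rw [sub_sub_cancel]
      _ ≤ max (w.v (inc0 K I J (sec0 K I J P))) (w.v (inc0 K I J (sec0 K I J P) - P)) :=
          w.sub _ _
      _ ≤ _ := by rw [h2]; exact max_le le_rfl (w.nonneg _)

theorem nhds_inc0 {K I J : Type} [NormedField K] (y : Ber K (MvPolynomial J K))
    {W : Set (Ber K (MvPolynomial (I ⊕ J) K))} (hW : W ∈ 𝓝 (Ber.res (sec0 K I J) y)) :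
    Ber.res (inc0 K I J) '' W ∈ 𝓝 y := by
  have h1 : (Ber.res (sec0 K I J)) ⁻¹' W ∈ 𝓝 y :=
    (Ber.res_continuous (sec0 K I J)).continuousAt.preimage_mem_nhds hW
  refine Filter.mem_of_superset h1 fun y' hy' => ⟨_, hy', res_sec0 y'⟩

theorem ph_inc0 {K A I E : Type} [NormedField K] [CommRing A] [Algebra K A] (D : NDat K A I E)
    (J : Set E) (P : MvPolynomial J K) : D.ph J (inc0 K I J P) = D.ph0 J P := by
  rw [ph, inc0, MvPolynomial.aeval_rename]
  rfl

theorem res_ph {K A I E : Type} [NormedField K] [CommRing A] [Algebra K A] (D : NDat K A I E)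
    (J : Set E) (z : Ber K A) : Ber.res (inc0 K I J) (Ber.res (D.ph J) z) =
      Ber.res (D.ph0 J) z := by
  apply Ber.ext_v
  intro P
  rw [Ber.res_v, Ber.res_v, Ber.res_v, ph_inc0]

theorem res_ph_sec {K A I E : Type} [NormedField K] [CommRing A] [Algebra K A]
    (D : NDat K A I E) (J : Set E) (z : Ber K A) (hz : ∀ i, z.v (D.t i) = 0) :
    Ber.res (D.ph J) z = Ber.res (sec0 K I J) (Ber.res (D.ph0 J) z) := by
  rw [← res_ph, res_inc0]
  intro i
  rw [Ber.res_v, ph, MvPolynomial.aeval_X]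
  exact hz i

theorem ph_finiteType {K A I E : Type} [NormedField K] [CommRing A] [Algebra K A]
    [Algebra.FiniteType K A] (D : NDat K A I E) (J : Set E) :
    (D.ph J).toRingHom.FiniteType := by
  have h : ((D.ph J).toRingHom.comp (algebraMap K (MvPolynomial (I ⊕ J) K))).FiniteType := by
    have h1 : (D.ph J).toRingHom.comp (algebraMap K (MvPolynomial (I ⊕ J) K)) =
        algebraMap K A := by
      ext x
      exact (D.ph J).commutes x
    rw [h1]
    exact RingHom.finiteType_algebraMap.2 inferInstance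
  exact h.of_comp_finiteType

end Sec

/-- (ND8) the structure theorem. -/
theorem exists_str [CompleteSpace K] (h6 : StmtQ6) (h7 : StmtQ7) (h9 : StmtQ9) (hS : StmtSep)
    (hg : StmtGp) (hL : StmtLP) (hP : StmtPath) (hD : D.Ok) : ∃ B c0 c, Str D B c0 c := by
  obtain ⟨z1, h1⟩ := exists_z1 h6 h7 hg hD
  obtain ⟨B, hB, he0⟩ := exists_base hD
  have hz1O : z1 ∈ D.Om B := by rw [h1.mem B hB he0]; exact rfl
  have hz1 : z1 ∈ D.Fw := hz1O.1
  have hdz := dens_z1 h6 h7 h9 hS hg hD h1 hB he0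
  have hd0 := dens_ph0 (D := D) (B := B) hz1.2.1 hdz
  have hex : ∀ e : (Bᶜ : Set E), ∃ (c0 : K) (c : (B \ {D.e0} : Set E) → K), ‖c0‖₊ ≤ D.ρ e.1 ∧
      (∀ b, ‖c b‖₊ * D.ρ b.1 ≤ D.ρ e.1) ∧
      z1.v (D.T e.1 - D.ph0 (B \ {D.e0}) (linf c0 c)) < D.ρ e.1 := fun e =>
    exists_linear hD h1 hB he0 e.2 (exists_laurent h6 h7 hg hL hD h1 hB he0 hd0 e.1)
  choose c0 c hc0 hc hlt using hex
  have hclose : ∀ z ∈ D.Fw, ∀ e : (Bᶜ : Set E),
      z.v (D.T e.1 - D.ph0 (B \ {D.e0}) (linf (c0 e) (c e))) < D.ρ e.1 := fun z hz e =>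
    (h1.max z hz _).trans_lt (hlt e)
  obtain ⟨V, hV, hFV⟩ := Fw_eq hD hB he0 hclose
  have hinj := ph_injective hD hB he0
  have hft := ph_finiteType D (B \ {D.e0})
  have hsep := fun a => sep h6 hS hD hB he0 a
  set Z : Set (Ber K (MvPolynomial (I ⊕ (B \ {D.e0} : Set E)) K)) :=
    {w | (∀ i, w.v (MvPolynomial.X (Sum.inl i)) = 0) ∧ Ber.res (inc0 K I (B \ {D.e0} : Set E)) w ∈ (ArrSet (fun b : (B \ {D.e0} : Set E) => D.ρ b.1) c0 c fun e => D.ρ e.1)} with hZ
  have hZ' : Z = Ber.res (sec0 K I (B \ {D.e0} : Set E)) '' (ArrSet (fun b : (B \ {D.e0} : Set E) => D.ρ b.1) c0 c fun e => D.ρ e.1) := by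
    ext w
    constructor
    · rintro ⟨h2, h3⟩
      exact ⟨_, h3, res_inc0 w h2⟩
    · rintro ⟨y, hy, rfl⟩
      refine ⟨fun i => ?_, ?_⟩
      · rw [Ber.res_v, sec0, MvPolynomial.aeval_X]
        exact y.zero
      · rw [res_sec0]; exact hy
  have hZc : IsClosed Z := by
    have : Z = (⋂ i, {w : Ber K (MvPolynomial (I ⊕ (B \ {D.e0} : Set E)) K) |
        w.v (MvPolynomial.X (Sum.inl i)) = 0}) ∩ Ber.res (inc0 K I (B \ {D.e0} : Set E)) ⁻¹' (ArrSet (fun b : (B \ {D.e0} : Set E) => D.ρ b.1) c0 c fun e => D.ρ e.1) := by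
      ext w
      simp only [hZ, Set.mem_inter_iff, Set.mem_iInter, Set.mem_ofPred_eq, Set.mem_preimage]
    rw [this]
    exact (isClosed_iInter fun i => isClosed_eq (Ber.continuous_v _) continuous_const).inter
      ((isClosed_ArrSet _ _ _ _).preimage (Ber.res_continuous _))
  have hZp : IsPreconnected Z := by
    rw [hZ']
    exact (arr_connected hP hg (fun b : (B \ {D.e0} : Set E) => D.ρ b.1)
      (fun b => hD.ρpos b.1) c0 c (fun e => D.ρ e.1) hc0 hc).image _
      (Ber.res_continuous (sec0 K I (B \ {D.e0} : Set E))).continuousOn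
  have hpre : ∀ z : Ber K A, Ber.res (D.ph (B \ {D.e0})) z ∈ Z ↔
      (∀ i, z.v (D.t i) = 0) ∧ Ber.res (D.ph0 (B \ {D.e0})) z ∈ (ArrSet (fun b : (B \ {D.e0} : Set E) => D.ρ b.1) c0 c fun e => D.ρ e.1) := by
    intro z
    have h2 : ∀ i, (Ber.res (D.ph (B \ {D.e0})) z).v (MvPolynomial.X (Sum.inl i)) = z.v (D.t i) := by
      intro i
      rw [Ber.res_v, ph, MvPolynomial.aeval_X]
      rfl
    constructor
    · rintro ⟨h3, h4⟩
      exact ⟨fun i => by rw [← h2]; exact h3 i, by rw [← res_ph]; exact h4⟩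
    · rintro ⟨h3, h4⟩
      exact ⟨fun i => by rw [h2]; exact h3 i, by rw [res_ph]; exact h4⟩
  have hFZ : D.Fw = V ∩ Ber.res (D.ph (B \ {D.e0})) ⁻¹' Z := by
    rw [hFV]
    ext z
    simp only [Set.mem_inter_iff, Set.mem_preimage, hpre, Set.mem_ofPred_eq]
  have hZmp : ∀ z ∈ D.Fw, Zmp (D.ph (B \ {D.e0})) z := by
    intro z hz
    refine h6 K (MvPolynomial (I ⊕ (B \ {D.e0} : Set E)) K) A (D.ph (B \ {D.e0})) hft z
      (D.Fw ∩ {z' | Ber.res (D.ph (B \ {D.e0})) z' = Ber.res (D.ph (B \ {D.e0})) z}) V ?_ hV ?_ ⟨hz, rfl⟩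
    · exact (isCompact_Fw hD).inter_right
        (isClosed_eq (Ber.res_continuous _) continuous_const)
    · ext z'
      constructor
      · rintro ⟨h2, h3⟩
        rw [hFZ] at h2
        exact ⟨h2.1, h3⟩
      · rintro ⟨h2, h3⟩
        refine ⟨?_, h3⟩
        rw [hFZ]
        refine ⟨h2, ?_⟩
        show Ber.res (D.ph (B \ {D.e0})) z' ∈ Z
        rw [show Ber.res (D.ph (B \ {D.e0})) z' = Ber.res (D.ph (B \ {D.e0})) z from h3]
        rw [hFZ] at hz
        exact hz.2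
  have hq := h9 K (MvPolynomial (I ⊕ (B \ {D.e0} : Set E)) K) A (D.ph (B \ {D.e0})) hinj hft hsep Z D.Fw V D.V0
    (Ber.res (D.ph (B \ {D.e0})) z1) (D.Y1 B D.δ0) hZc hZp (isCompact_Fw hD) hV hFZ hZmp ⟨z1, hz1, rfl⟩
    (closure_Y1 hg hD hB he0 ((mem_Om_iff hD).1 hz1O).2) (fun z hz => hD.nhd z hz)
    (Y1_spec hD hB he0)
  obtain ⟨hq1, hq2, hq3⟩ := hq
  refine ⟨B, c0, c, hB, he0, hc0, hc, ?_, ?_, ?_, ?_, hclose⟩
  · apply Set.eq_of_subset_of_subset
    · rintro _ ⟨z, hz, rfl⟩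
      rw [hFV] at hz
      exact hz.2.2
    · intro y hy
      have hy' : Ber.res (sec0 K I (B \ {D.e0} : Set E)) y ∈ Z := by rw [hZ']; exact ⟨y, hy, rfl⟩
      rw [← hq2] at hy'
      obtain ⟨z, hz, hz'⟩ := hy'
      refine ⟨z, hz, ?_⟩
      rw [← res_ph, hz', res_sec0]
  · intro z hz z' hz' h
    apply hq1 hz hz'
    rw [res_ph_sec D (B \ {D.e0}) z hz.2.1, res_ph_sec D (B \ {D.e0}) z' hz'.2.1, h]
  · intro z hz V' hV'
    have h2 := h7 K (MvPolynomial (I ⊕ (B \ {D.e0} : Set E)) K) A (D.ph (B \ {D.e0})) hinj z (hZmp z hz) V' hV'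
    rw [res_ph_sec D (B \ {D.e0}) z hz.2.1] at h2
    have h3 := nhds_inc0 _ h2
    rw [Set.image_image] at h3
    simpa only [res_ph] using h3
  · intro z hz
    exact dens_ph0 hz.2.1 (hq3 z hz)

end NDat

end Pool.Agent.TD


end

section

/-!
# Arrangement fibres: the output of the structure theorem, independent of the data ND0
-/

open scoped Topology NNReal

namespace Pool.Agent.TD

/-- The homomorphism `K[X_e : e ∈ B - e0] → A`, `X_e ↦ T e`. -/
noncomputable def phT {K A E : Type} [NormedField K] [CommRing A] [Algebra K A] (T : E → A)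
    (J : Set E) : MvPolynomial J K →ₐ[K] A := MvPolynomial.aeval fun e : J => T e.1

/-- `F` is an arrangement fibre with the functions `T e`. -/
structure ArrFib (K : Type) {A E : Type} [NormedField K] [CommRing A] [Algebra K A]
    (T : E → A) (ρ : E → ℝ≥0) (e0 : E) (B : Set E) (c0 : (Bᶜ : Set E) → K)
    (c : (Bᶜ : Set E) → (B \ {e0} : Set E) → K) (F : Set (Ber K A)) : Prop where
  cpt : IsCompact F
  ρpos : ∀ e, 0 < ρ e
  e0_mem : e0 ∈ B
  val : ∀ z ∈ F, ∀ e, z.v (T e) = ρ e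
  bd0 : ∀ e, ‖c0 e‖₊ ≤ ρ e.1
  bd : ∀ e b, ‖c e b‖₊ * ρ b.1 ≤ ρ e.1
  image : Ber.res (phT T (B \ {e0})) '' F =
    ArrSet (fun b : (B \ {e0} : Set E) => ρ b.1) c0 c fun e => ρ e.1
  inj : Set.InjOn (Ber.res (phT T (B \ {e0}))) F
  opn : ∀ z ∈ F, ∀ V ∈ 𝓝 z, Ber.res (phT T (B \ {e0})) '' V ∈ 𝓝 (Ber.res (phT T (B \ {e0})) z)
  dens : ∀ z ∈ F, Dens (phT T (B \ {e0})) z
  close : ∀ z ∈ F, ∀ e : (Bᶜ : Set E),
    z.v (T e.1 - phT T (B \ {e0}) (linf (c0 e) (c e))) < ρ e.1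

variable {K A A2 I E : Type} [NormedField K] [CommRing A] [Algebra K A] [CommRing A2]
  [Algebra K A2]

theorem arrFib_of_str {D : NDat K A I E} (hD : D.Ok) {B : Set E} {c0 : (Bᶜ : Set E) → K}
    {c : (Bᶜ : Set E) → (B \ {D.e0} : Set E) → K} (S : NDat.Str D B c0 c) :
    ArrFib K D.T D.ρ D.e0 B c0 c D.Fw where
  cpt := NDat.isCompact_Fw hD
  ρpos := hD.ρpos
  e0_mem := S.e0_mem
  val := fun _ hz e => NDat.v_T_Fw hD hz e
  bd0 := S.bd0
  bd := S.bd
  image := S.image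
  inj := S.inj
  opn := S.opn
  dens := S.dens
  close := S.close

theorem phT_comp (g : A →ₐ[K] A2) (T : E → A) (J : Set E) (P : MvPolynomial J K) :
    phT (K := K) (fun e => g (T e)) J P = g (phT T J P) := by
  unfold phT
  rw [← AlgHom.comp_apply]
  congr 1
  apply MvPolynomial.algHom_ext
  intro i
  simp

theorem res_phT (g : A →ₐ[K] A2) (T : E → A) (J : Set E) (z : Ber K A2) :
    Ber.res (phT (K := K) (fun e => g (T e)) J) z = Ber.res (phT T J) (Ber.res g z) := by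
  apply Ber.ext_v
  intro P
  show z.v (phT (K := K) (fun e => g (T e)) J P) = z.v (g (phT T J P))
  rw [phT_comp]

/-- Arrangement fibres go down along `M(A2) → M(A)`. -/
theorem ArrFib.descend (g : A →ₐ[K] A2) {T : E → A} {ρ : E → ℝ≥0} {e0 : E} {B : Set E}
    {c0 : (Bᶜ : Set E) → K} {c : (Bᶜ : Set E) → (B \ {e0} : Set E) → K} {F2 : Set (Ber K A2)}
    (h : ArrFib K (fun e => g (T e)) ρ e0 B c0 c F2) :
    ArrFib K T ρ e0 B c0 c (Ber.res g '' F2) where
  cpt := h.cpt.image (Ber.res_continuous g)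
  ρpos := h.ρpos
  e0_mem := h.e0_mem
  val := by
    rintro _ ⟨z, hz, rfl⟩ e
    exact h.val z hz e
  bd0 := h.bd0
  bd := h.bd
  image := by
    rw [Set.image_image, ← h.image]
    exact Set.image_congr fun z _ => (res_phT g T _ z).symm
  inj := by
    rintro _ ⟨z, hz, rfl⟩ _ ⟨z', hz', rfl⟩ e
    rw [← res_phT, ← res_phT] at e
    rw [h.inj hz hz' e]
  opn := by
    rintro _ ⟨z, hz, rfl⟩ V hV
    have h1 := h.opn z hz _ ((Ber.res_continuous g).continuousAt hV)
    rw [res_phT] at h1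
    refine Filter.mem_of_superset h1 ?_
    rintro _ ⟨z', hz', rfl⟩
    exact ⟨_, hz', (res_phT g T _ z').symm⟩
  dens := by
    rintro _ ⟨z, hz, rfl⟩ a ε hε
    obtain ⟨b, d, hd, hlt⟩ := h.dens z hz (g a) ε hε
    rw [phT_comp] at hd hlt
    rw [phT_comp] at hlt
    refine ⟨b, d, hd, ?_⟩
    show z.v (g (phT T (B \ {e0}) d * a - phT T (B \ {e0}) b)) < ε * z.v (g (phT T (B \ {e0}) d))
    rw [map_sub, map_mul]
    exact hlt
  close := by
    rintro _ ⟨z, hz, rfl⟩ e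
    have h1 := h.close z hz e
    rw [phT_comp, ← map_sub] at h1
    exact h1

end Pool.Agent.TD


end
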