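import Mathlib
import Pool.Agent.DolbM.C05
import Pool.Agent.DolbM.C08
import Pool.Agent.DolbM.C09
import Pool.Agent.DolbM.C10
import Pool.Agent.DolbM.C15
import Pool.Agent.DolbM.C21
import Pool.Agent.DolbM.C22
import Pool.Agent.DolbM.C23
import Pool.Agent.TD.N.Defs
import Pool.Agent.TD.Y.Restr

/-! Parts: TD.X3.Arr, TD.X3.Transfer, TD.X3.Zero, TD.X3.Chart, TD.AR.Mv, TD.AR.Final, TD.AR.Adapt, TD.X3.Main -/

section

/-!
# The statement of section AR (PAPER2.md) used by X3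
-/

open scoped ContDiff Topology NNReal

namespace Pool.Agent.TD

/-- (AR) forms near the arrangement fibres. -/
def StmtAR : Prop := ∀ (K σ ι : Type) [NormedField K] [IsUltrametricDist K] [Finite σ] [Finite ι]
  (ρ : σ → ℝ≥0) (a0 : ι → K) (a : ι → σ → K) (r : ι → ℝ≥0), (∀ b, 0 < ρ b) → (∀ i, 0 < r i) →
  (∀ i b, ‖a i b‖₊ * ρ b ≤ r i) → (∀ i, ‖a0 i‖₊ ≤ r i) →
  (∀ (p q : ℕ) (c : (berLS K (MvPolynomial σ K)).G p (q + 1)),
    (∀ y ∈ ArrSet ρ a0 a r, (berLS K (MvPolynomial σ K)).ddS p (q + 1) y (c.1 y) = 0) →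
    ∃ e : (berLS K (MvPolynomial σ K)).G p q, ∀ y ∈ ArrSet ρ a0 a r,
      c.1 y = (berLS K (MvPolynomial σ K)).ddS p q y (e.1 y)) ∧
  ∀ (N : ℕ) (g : Fin N → MvPolynomial σ K),
    Set.range g = Set.range MvPolynomial.X ∪ Set.range (fun i => linf (a0 i) (a i)) →
    ∀ (p : ℕ) (c : (berLS K (MvPolynomial σ K)).G p 0),
      (∀ y ∈ ArrSet ρ a0 a r, (berLS K (MvPolynomial σ K)).ddS p 0 y (c.1 y) = 0) →
      ∃ α : (Fin N → ℝ) [⋀^Fin p]→L[ℝ] ℝ, ∀ y ∈ ArrSet ρ a0 a r,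
        ∃ h : (berLS K (MvPolynomial σ K)).SFat y (cstR g α),
          c.1 y = (berLS K (MvPolynomial σ K)).germ (cstR g α) h

end Pool.Agent.TD


end

section

/-!
# X3: transfer of forms along a compact fibre (PAPER2, section X, step X3)

`m : Mor (L.restr W) L'` a morphism defined on the open subset `W`, `F ⊆ W` compact, `m` injective
on `F`, open and affine at the points of `F`.  Sections of `L` near `F` correspond to sections of
`L'` near `m(F)`.
-/

open scoped ContDiff Topology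

namespace Pool.Agent.TD

namespace X3

variable {X Φ X' Φ' : Type} [TopologicalSpace X] [TopologicalSpace X'] {L : LogSpace X Φ}
  {L' : LogSpace X' Φ'}

/-- The hypotheses on the fibre `F`. -/
structure Fib {W : Set X} (m : Mor (L.restr W) L') (F : Set X) : Prop where
  isOpen : IsOpen W
  sub : F ⊆ W
  cpt : IsCompact F
  aff : ∀ z : W, z.1 ∈ F → m.AffAt z
  opn : ∀ z : W, z.1 ∈ F → ∀ V ∈ 𝓝 z, m.toFun '' V ∈ 𝓝 (m.toFun z)
  inj : ∀ z z' : W, z.1 ∈ F → z'.1 ∈ F → m.toFun z = m.toFun z' → z = z'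

/-- `c` and `c'` correspond to each other on `F`. -/
def Rel {W : Set X} (m : Mor (L.restr W) L') (F : Set X) {p q : ℕ} (c : L.G p q)
    (c' : L'.G p q) : Prop :=
  ∀ z : W, z.1 ∈ F → m.pullS p q z (c'.1 (m.toFun z)) = (L.incl W).pullS p q z (c.1 z.1)

variable {W : Set X} {m : Mor (L.restr W) L'} {F : Set X} (h : Fib m F) {p q : ℕ}

include h

theorem Fib.pullS_inj (z : W) (hz : z.1 ∈ F) : Function.Injective (m.pullS p q z) :=
  Mor.pullS_injective _ (h.aff z hz) (h.opn z hz)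

theorem Fib.pullS_surj (z : W) (hz : z.1 ∈ F) : Function.Surjective (m.pullS p q z) :=
  Mor.pullS_surjective _ (h.aff z hz)

/-- The fibre as a subset of `W`. -/
theorem Fib.isCompact_pre : IsCompact (Subtype.val ⁻¹' F : Set W) := by
  rw [Subtype.isCompact_iff]
  have : (Subtype.val '' (Subtype.val ⁻¹' F : Set W)) = F := by
    rw [Subtype.image_preimage_coe]
    exact Set.inter_eq_right.2 h.sub
  rw [this]
  exact h.cpt

theorem Fib.isCompact_image : IsCompact (m.toFun '' (Subtype.val ⁻¹' F)) :=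
  h.isCompact_pre.image m.cont

/-- Continuity of the inverse of `F → m(F)`. -/
theorem Fib.inv_cont [T2Space X'] (z0 : W) (hz0 : z0.1 ∈ F) {V : Set W} (hV : V ∈ 𝓝 z0) :
    ∀ᶠ y in 𝓝 (m.toFun z0), ∀ z : W, z.1 ∈ F → m.toFun z = y → z ∈ V := by
  obtain ⟨V', hV'V, hV'o, hz0V'⟩ := mem_nhds_iff.1 hV
  have hK : IsCompact (m.toFun '' ((Subtype.val ⁻¹' F) \ V')) :=
    (h.isCompact_pre.diff hV'o).image m.cont
  have hn : m.toFun z0 ∉ m.toFun '' ((Subtype.val ⁻¹' F) \ V') := by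
    rintro ⟨z, ⟨hzF, hzV⟩, hz⟩
    have e := h.inj z z0 hzF hz0 hz
    subst e
    exact hzV hz0V'
  filter_upwards [hK.isClosed.isOpen_compl.mem_nhds hn] with y hy z hz hzy
  by_contra hzV
  exact hy ⟨z, ⟨hz, fun h' => hzV (hV'V h')⟩, hzy⟩

/-- Every section near `F` comes from a section near `m(F)`. -/
theorem Fib.push [T2Space X'] [LocallyCompactSpace X'] (hC : L'.CutOff) (c : L.G p q) :
    ∃ c' : L'.G p q, Rel m F c c' := by
  classical
  have hex : ∀ y : X', ∃ x : L'.Stalk p q y, ∀ z : W, z.1 ∈ F → ∀ e : m.toFun z = y,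
      m.pullY e p q x = (L.incl W).pullS p q z (c.1 z.1) := by
    intro y
    by_cases hy : ∃ z : W, z.1 ∈ F ∧ m.toFun z = y
    · obtain ⟨z, hz, rfl⟩ := hy
      obtain ⟨x, hx⟩ := h.pullS_surj (p := p) (q := q) z hz ((L.incl W).pullS p q z (c.1 z.1))
      refine ⟨x, fun z' hz' e => ?_⟩
      obtain rfl := h.inj z' z hz' hz e
      exact hx
    · exact ⟨0, fun z hz e => absurd ⟨z, hz, e⟩ hy⟩
  choose sy hsy using hex
  obtain ⟨c', hc'⟩ := L'.extend hC h.isCompact_image sy (by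
    rintro _ ⟨z0, hz0', rfl⟩
    have hz0 : z0.1 ∈ F := hz0'
    obtain ⟨θ1, hθ1⟩ := c.2 z0.1
    obtain ⟨k1, e1⟩ := hθ1.self_of_nhds
    obtain ⟨x, hx⟩ := h.pullS_surj (p := p) (q := q) z0 hz0 ((L.incl W).pullS p q z0 (c.1 z0.1))
    obtain ⟨θ, k, rfl⟩ := L'.exists_germ x
    rw [Mor.pullS_germ, e1] at hx
    have hx2 : (L.restr W).germ (pullR m.ix θ) (m.sfat k) =
        (L.restr W).germ (pullR (L.incl W).ix θ1) ((L.incl W).sfat (z := z0) k1) := hx
    rw [LogSpace.germ_eq_iff] at hx2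
    have hθ1' : ∀ᶠ z : W in 𝓝 z0, ∃ h : L.SFat z.1 θ1, c.1 z.1 = L.germ θ1 h :=
      continuous_subtype_val.continuousAt.eventually hθ1
    have hinv := h.inv_cont z0 hz0 (hx2.nhds.and hθ1')
    refine ⟨θ, (hinv.and k.nhds).mono ?_⟩
    rintro y ⟨hy, ky⟩ ⟨z, hz, rfl⟩
    obtain ⟨hv, h', e'⟩ := hy z hz rfl
    refine ⟨ky, ?_⟩
    apply h.pullS_inj z hz
    have e2 := hsy _ z hz rfl
    rw [Mor.pullY_rfl] at e2
    rw [e2, e', Mor.pullS_germ]
    exact ((LogSpace.germ_eq_iff _ _ _).2 hv).symm)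
  refine ⟨c', fun z hz => ?_⟩
  rw [hc' _ ⟨z, hz, rfl⟩, ← Mor.pullY_rfl]
  exact hsy _ z hz rfl

/-- Every section near `m(F)` gives a section near `F`. -/
theorem Fib.pull [T2Space X] [LocallyCompactSpace X] (hC : L.CutOff) (c' : L'.G p q) :
    ∃ c : L.G p q, Rel m F c c' := by
  classical
  have hex : ∀ z : X, ∃ x : L.Stalk p q z, ∀ hz : z ∈ W,
      m.pullS p q ⟨z, hz⟩ (c'.1 (m.toFun ⟨z, hz⟩)) = (L.incl W).pullS p q ⟨z, hz⟩ x := by
    intro z
    by_cases hz : z ∈ W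
    · obtain ⟨x, hx⟩ := (L.incl_bij (p := p) (q := q) h.isOpen ⟨z, hz⟩).2
        (m.pullS p q ⟨z, hz⟩ (c'.1 (m.toFun ⟨z, hz⟩)))
      exact ⟨x, fun _ => hx.symm⟩
    · exact ⟨0, fun h' => absurd h' hz⟩
  choose sz hsz using hex
  obtain ⟨c, hc⟩ := L.extend hC h.cpt sz (by
    intro z0 hz0
    have hzW : z0 ∈ W := h.sub hz0
    obtain ⟨θ, hθ⟩ := c'.2 (m.toFun ⟨z0, hzW⟩)
    have hev := (m.cont.continuousAt (x := ⟨z0, hzW⟩)).eventually hθ
    have hev2 : ∀ᶠ z in 𝓝 z0, ∃ hz : z ∈ W, ∃ h' : L'.SFat (m.toFun ⟨z, hz⟩) θ,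
        c'.1 (m.toFun ⟨z, hz⟩) = L'.germ θ h' := by
      rw [← map_nhds_subtype_coe_eq_nhds (p := fun z : X => z ∈ W) hzW
        (h.isOpen.mem_nhds hzW), Filter.eventually_map]
      exact hev.mono fun z hz => ⟨z.2, hz⟩
    refine ⟨pullR m.ix θ, hev2.mono ?_⟩
    rintro z ⟨hz, h', e'⟩ -
    have k : L.SFat z (pullR m.ix θ) := m.sfat h'
    refine ⟨k, ?_⟩
    apply (L.incl_bij (p := p) (q := q) h.isOpen ⟨z, hz⟩).1
    rw [← hsz z hz, e']
    rfl)
  refine ⟨c, fun z hz => ?_⟩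
  rw [hc z.1 hz]
  exact hsz z.1 z.2

/-- Closedness is transferred. -/
theorem Fib.closed {c : L.G p q} {c' : L'.G p q} (hcc : Rel m F c c')
    (hc : ∀ z ∈ F, L.ddS p q z (c.1 z) = 0) (z : W) (hz : z.1 ∈ F) :
    L'.ddS p q (m.toFun z) (c'.1 (m.toFun z)) = 0 := by
  apply h.pullS_inj z hz (p := p) (q := q + 1)
  rw [Mor.pullS_ddS, hcc z hz, map_zero]
  have h1 := (L.incl W).pullS_ddS (z := z) (c.1 z.1)
  have h2 : L.ddS p q ((L.incl W).toFun z) (c.1 z.1) = 0 := hc z.1 hz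
  rw [h2, map_zero] at h1
  exact h1.symm

/-- Exactness near `F` from exactness near `m(F)`. -/
theorem Fib.exact [T2Space X] [LocallyCompactSpace X] [T2Space X'] [LocallyCompactSpace X']
    (hC : L.CutOff) (hC' : L'.CutOff) (Z : Set X')
    (hZ : ∀ y, y ∈ Z ↔ ∃ z : W, z.1 ∈ F ∧ m.toFun z = y)
    (hex : ∀ c' : L'.G p (q + 1), (∀ y ∈ Z, L'.ddS p (q + 1) y (c'.1 y) = 0) →
      ∃ e' : L'.G p q, ∀ y ∈ Z, c'.1 y = L'.ddS p q y (e'.1 y))
    (c : L.G p (q + 1)) (hc : ∀ z ∈ F, L.ddS p (q + 1) z (c.1 z) = 0) :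
    ∃ e : L.G p q, ∀ z ∈ F, c.1 z = L.ddS p q z (e.1 z) := by
  obtain ⟨c', hcc⟩ := h.push hC' c
  obtain ⟨e', he'⟩ := hex c' (fun y hy => by
    obtain ⟨z, hz, rfl⟩ := (hZ y).1 hy
    exact h.closed hcc hc z hz)
  obtain ⟨e, he⟩ := h.pull hC e'
  refine ⟨e, fun z hz => ?_⟩
  have hzW : z ∈ W := h.sub hz
  apply (L.incl_bij (p := p) (q := q + 1) h.isOpen ⟨z, hzW⟩).1
  rw [← hcc ⟨z, hzW⟩ hz, he' _ ((hZ _).2 ⟨⟨z, hzW⟩, hz, rfl⟩), Mor.pullS_ddS, he ⟨z, hzW⟩ hz]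
  exact ((L.incl W).pullS_ddS (z := ⟨z, hzW⟩) (e.1 z)).symm

end X3

end Pool.Agent.TD


end

section

/-!
# X3: closed forms of type `(p,0)` near a fibre
-/

open scoped ContDiff Topology

namespace Pool.Agent.TD

namespace X3

variable {X Φ X' Φ' : Type} [TopologicalSpace X] [TopologicalSpace X'] {L : LogSpace X Φ}
  {L' : LogSpace X' Φ'}

/-- The germ of a constant form only depends on the functions near the point. -/
theorem germ_cstR_congr (L : LogSpace X Φ) {N p : ℕ} {z : X} (g g' : Fin N → Φ)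
    (hg : ∀ i, z ∈ L.dom (g i)) (hg' : ∀ i, z ∈ L.dom (g' i))
    (e : ∀ i, ∀ᶠ z' in 𝓝 z, L.lf (g i) z' = L.lf (g' i) z')
    (α : (Fin N → ℝ) [⋀^Fin p]→L[ℝ] ℝ) (h : L.SFat z (cstR g α)) (h' : L.SFat z (cstR g' α)) :
    L.germ (cstR g α) h = L.germ (cstR g' α) h' := by
  classical
  have hs : IsSF (Finset.univ : Finset (Fin N)) (cstR (id : Fin N → Fin N) α) := by
    have := isSF_cstR (id : Fin N → Fin N) α
    rwa [Finset.image_id] at this
  exact L.germ_pullR_congr g g' hs (fun i _ => hg i) (fun i _ => hg' i) (fun i _ => e i) h h'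

variable {W : Set X} {m : Mor (L.restr W) L'} {F : Set X} (h : Fib m F) {p : ℕ}

include h

/-- Closed forms of type `(p,0)` near `F` from those near `m(F)`. -/
theorem Fib.zero [T2Space X'] [LocallyCompactSpace X'] (hC' : L'.CutOff) (Z : Set X')
    (hZ : ∀ y, y ∈ Z ↔ ∃ z : W, z.1 ∈ F ∧ m.toFun z = y) {N : ℕ} (g' : Fin N → Φ')
    (g : Fin N → Φ) (hd' : ∀ y ∈ Z, ∀ i, y ∈ L'.dom (g' i)) (hd : ∀ z ∈ F, ∀ i, z ∈ L.dom (g i))
    (hlf : ∀ z ∈ F, ∀ i, ∀ᶠ z' in 𝓝 z, ∀ hz' : z' ∈ W, L.lf (g i) z' = L'.lf (g' i) (m.toFun ⟨z', hz'⟩))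
    (hcst : ∀ c' : L'.G p 0, (∀ y ∈ Z, L'.ddS p 0 y (c'.1 y) = 0) →
      ∃ α : (Fin N → ℝ) [⋀^Fin p]→L[ℝ] ℝ, ∀ y ∈ Z, ∃ k : L'.SFat y (cstR g' α),
        c'.1 y = L'.germ (cstR g' α) k)
    (c : L.G p 0) (hc : ∀ z ∈ F, L.ddS p 0 z (c.1 z) = 0) :
    ∃ α : (Fin N → ℝ) [⋀^Fin p]→L[ℝ] ℝ, ∀ z ∈ F, ∃ k : L.SFat z (cstR g α),
      c.1 z = L.germ (cstR g α) k := by
  classical
  obtain ⟨c', hcc⟩ := h.push hC' c
  obtain ⟨α, hα⟩ := hcst c' (fun y hy => by
    obtain ⟨z, hz, rfl⟩ := (hZ y).1 hy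
    exact h.closed hcc hc z hz)
  refine ⟨α, fun z hz => ?_⟩
  have hzW : z ∈ W := h.sub hz
  have hy : m.toFun ⟨z, hzW⟩ ∈ Z := (hZ _).2 ⟨⟨z, hzW⟩, hz, rfl⟩
  obtain ⟨k', e'⟩ := hα _ hy
  have k : L.SFat z (cstR g α) := L.sfat_cstR (hd z hz) α
  refine ⟨k, ?_⟩
  apply (L.incl_bij (p := p) (q := 0) h.isOpen ⟨z, hzW⟩).1
  rw [← hcc ⟨z, hzW⟩ hz, e', Mor.pullS_germ]
  have k2 : (L.restr W).SFat ⟨z, hzW⟩ (cstR g α) := k
  refine Eq.trans ?_ (show (L.restr W).germ (cstR g α) k2 = _ from rfl)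
  refine germ_cstR_congr (L.restr W) (fun i => m.ix (g' i)) g (fun i => m.dom_sub _ _ (hd' _ hy i))
    (fun i => hd z hz i) (fun i => ?_) α (m.sfat k') k2
  have h1 : ∀ᶠ z' : W in 𝓝 ⟨z, hzW⟩, ∀ hz' : z'.1 ∈ W,
      L.lf (g i) z'.1 = L'.lf (g' i) (m.toFun ⟨z'.1, hz'⟩) :=
    (continuous_subtype_val.continuousAt (x := (⟨z, hzW⟩ : W))).eventually
      (p := fun z' : X => ∀ hz' : z' ∈ W, L.lf (g i) z' = L'.lf (g' i) (m.toFun ⟨z', hz'⟩))
      (hlf z hz i)
  have h2 : ∀ᶠ z' : W in 𝓝 ⟨z, hzW⟩, m.toFun z' ∈ L'.dom (g' i) :=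
    m.cont.continuousAt.eventually ((L'.isOpen_dom (g' i)).mem_nhds (hd' _ hy i))
  filter_upwards [h1, h2] with z' h3 h4
  rw [m.lf_eq _ _ h4]
  exact (h3 z'.2).symm

end X3

end Pool.Agent.TD


end

section

/-!
# X3: the morphism from a chart of `X^an` to `M(R)`; density of fractions gives `AffAt`
-/

open scoped ContDiff Topology
open AlgebraicGeometry CategoryTheory

namespace Pool.Agent.TD

namespace X3

variable {K : Type} [NormedField K] {X : Scheme.{0}} {ι : K →+* Γ(X, ⊤)} {U : X.Opens}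
  {R : Type} [CommRing R] [Algebra K R]

/-- The morphism `U^an → M(R)` given by a homomorphism `R → Γ(X, U)`. -/
noncomputable def chMor (φ : R →+* Γ(X, U)) (hφ : ∀ c, φ (algebraMap K R c) = stK ι U c) :
    Mor ((anLS X ι).restr (An.opn ι U)) (berLS K R) where
  toFun := An.toBer φ hφ
  cont := An.toBer_continuous φ hφ
  ix f := ⟨U, φ f⟩
  dom_sub _ z h := ⟨z.2, h⟩
  lf_eq _ _ _ := rfl

theorem chMor_v (φ : R →+* Γ(X, U)) (hφ : ∀ c, φ (algebraMap K R c) = stK ι U c)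
    (z : An.opn ι U) (f : R) : ((chMor φ hφ).toFun z).v f = An.absv U (φ f) z.1 := rfl

/-- Fractions of `R` are dense in the functions on `U` at `z`. -/
def DensAt (φ : R →+* Γ(X, U)) (z : An.opn ι U) : Prop :=
  ∀ (a : Γ(X, U)) (ε : ℝ), 0 < ε → ∃ b c : R, An.absv U (φ c) z.1 ≠ 0 ∧
    An.absv U (φ c * a - φ b) z.1 < ε * An.absv U (φ c) z.1

theorem exists_frac_of_dens (φ : R →+* Γ(X, U)) (z : An.opn ι U) (h : DensAt φ z)
    (g : Γ(X, U)) (hg : An.absv U g z.1 ≠ 0) : ∃ P Q : R, An.absv U (φ P) z.1 ≠ 0 ∧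
      An.absv U (φ Q) z.1 ≠ 0 ∧ ∀ᶠ z' : An.opn ι U in 𝓝 z, Real.log (An.absv U g z'.1) =
        Real.log (An.absv U (φ P) z'.1) - Real.log (An.absv U (φ Q) z'.1) := by
  have hg0 : 0 < An.absv U g z.1 := lt_of_le_of_ne (An.absv_nonneg _ _ _) hg.symm
  obtain ⟨P, Q, hQ, hlt⟩ := h g _ hg0
  have hlt' : An.absv U (φ Q * g - φ P) z.1 < An.absv U (φ Q * g) z.1 := by
    rw [An.absv_mul, mul_comm (An.absv U (φ Q) z.1)]
    exact hlt
  have hcont : ∀ g : Γ(X, U), Continuous fun z' : An.opn ι U => An.absv U g z'.1 := fun g =>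
    (An.continuousOn_absv (ι := ι) U g).domRestrict
  have hP : An.absv U (φ P) z.1 ≠ 0 := by
    rw [← Toric.absv_eq_of_sub_lt hlt', An.absv_mul]
    exact mul_ne_zero hQ hg
  refine ⟨P, Q, hP, hQ, ?_⟩
  have h1 : ∀ᶠ z' : An.opn ι U in 𝓝 z,
      An.absv U (φ Q * g - φ P) z'.1 < An.absv U (φ Q * g) z'.1 :=
    (hcont _).continuousAt.eventually_lt (hcont _).continuousAt hlt'
  have h2 : ∀ᶠ z' : An.opn ι U in 𝓝 z, An.absv U g z'.1 ≠ 0 :=
    (hcont _).continuousAt.eventually_ne hg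
  have h3 : ∀ᶠ z' : An.opn ι U in 𝓝 z, An.absv U (φ Q) z'.1 ≠ 0 :=
    (hcont _).continuousAt.eventually_ne hQ
  filter_upwards [h1, h2, h3] with z' h1 h2 h3
  rw [← Toric.absv_eq_of_sub_lt h1, An.absv_mul, Real.log_mul h3 h2]
  ring

/-- Density of the fractions of `R` gives `AffAt`. -/
theorem chMor_affAt (hU : IsAffineOpen U) (φ : R →+* Γ(X, U))
    (hφ : ∀ c, φ (algebraMap K R c) = stK ι U c) (z : An.opn ι U) (hD : DensAt φ z) :
    (chMor φ hφ).AffAt z := by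
  rintro ⟨V, f⟩ ⟨hV, hf⟩
  obtain ⟨g, h, hh, hgh⟩ := An.exists_frac hU V f z.2 hV
  have hf' : An.absv V f z.1 ≠ 0 := hf
  have hg : An.absv U g z.1 ≠ 0 := by
    intro h0
    rw [(hgh z.1 z.2 hh).2, h0, zero_div] at hf'
    exact hf' rfl
  obtain ⟨P₁, Q₁, hP₁, hQ₁, he₁⟩ := exists_frac_of_dens φ z hD g hg
  obtain ⟨P₂, Q₂, hP₂, hQ₂, he₂⟩ := exists_frac_of_dens φ z hD h hh
  have hcont : ∀ g : Γ(X, U), Continuous fun z' : An.opn ι U => An.absv U g z'.1 := fun g =>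
    (An.continuousOn_absv (ι := ι) U g).domRestrict
  have h1 : ∀ᶠ z' : An.opn ι U in 𝓝 z, An.absv U g z'.1 ≠ 0 :=
    (hcont _).continuousAt.eventually_ne hg
  have h2 : ∀ᶠ z' : An.opn ι U in 𝓝 z, An.absv U h z'.1 ≠ 0 :=
    (hcont _).continuousAt.eventually_ne hh
  refine ⟨4, ![P₁, Q₁, P₂, Q₂], ![1, -1, -1, 1], 0, ?_, ?_⟩
  · intro i
    fin_cases i
    · exact hP₁
    · exact hQ₁
    · exact hP₂
    · exact hQ₂
  · filter_upwards [he₁, he₂, h1, h2] with z' he₁ he₂ h1 h2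
    show Real.log (An.absv V f z'.1) = 0 + ∑ i : Fin 4, (![1, -1, -1, 1] : Fin 4 → ℝ) i *
      Real.log (An.absv U (φ ((![P₁, Q₁, P₂, Q₂] : Fin 4 → R) i)) z'.1)
    rw [(hgh z'.1 z'.2 h2).2, Real.log_div h1 h2, he₁, he₂, Fin.sum_univ_four]
    simp only [Matrix.cons_val]
    ring

/-- The ring of an affine chart is dense in itself. -/
theorem densAt_iso (φ : R ≃+* Γ(X, U)) (z : An.opn ι U) :
    DensAt (R := R) φ.toRingHom z := by
  intro a ε hε
  refine ⟨φ.symm a, 1, ?_, ?_⟩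
  · show An.absv U (φ 1) z.1 ≠ 0
    rw [map_one, An.absv_one z.2]
    exact one_ne_zero
  · show An.absv U (φ 1 * a - φ (φ.symm a)) z.1 < ε * An.absv U (φ 1) z.1
    rw [map_one, one_mul, φ.apply_symm_apply, sub_self, An.absv_zero, An.absv_one z.2, mul_one]
    exact hε

/-- Local polyhedrality of `X^an` at the points of an affine chart of finite type. -/
theorem an_finConv [IsUltrametricDist K] (hU : IsAffineOpen U)
    (hft : (stK ι U).FiniteType) (z : An X ι) (hz : z.pt ∈ U) : (anLS X ι).FinConv z := by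
  letI : Algebra K Γ(X, U) := (stK ι U).toAlgebra
  haveI : Algebra.FiniteType K Γ(X, U) := hft
  have hφ : ∀ c, (RingEquiv.refl Γ(X, U)).toRingHom (algebraMap K Γ(X, U) c) = stK ι U c :=
    fun _ => rfl
  have ho := (An.toBer_homeo (ι := ι) hU (RingEquiv.refl Γ(X, U)) hφ).isOpenMap
  exact finConv_of_restr (An.isOpen_opn U) ⟨z, hz⟩ (finConv_of_aff
    (chMor (RingEquiv.refl Γ(X, U)).toRingHom hφ)
    (chMor_affAt hU _ hφ ⟨z, hz⟩ (densAt_iso (RingEquiv.refl Γ(X, U)) ⟨z, hz⟩))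
    (fun V hV => ho.image_mem_nhds hV) (BG.sta K Γ(X, U) _).2)

end X3

end Pool.Agent.TD


end

section

/-! Section AR: polynomial rings. -/

open scoped ContDiff Topology NNReal

namespace Pool.Agent.TD

section
variable {K σ : Type} [NormedField K]

/-- The set `{|X_b| = ρ_b}`. -/
def mvZ (K : Type) [NormedField K] {σ : Type} (ρ : σ → ℝ) : Set (Ber K (MvPolynomial σ K)) :=
  {y | ∀ b, y.v (MvPolynomial.X b) = ρ b}

/-- The variables. -/
def mvS (K σ : Type) [NormedField K] : Set (MvPolynomial σ K) := Set.range MvPolynomial.X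

/-- The linear forms with coefficients bounded by `s`. -/
def mvN (K : Type) [NormedField K] {σ : Type} (ρ : σ → ℝ) (s : ℝ) : Set (MvPolynomial σ K) :=
  {f | ∃ (a0 : K) (a : σ → K), ‖a0‖ ≤ s ∧ (∀ b, ‖a b‖ * ρ b ≤ s) ∧ f = linf a0 a}

theorem linf_zero (a0 : K) (a : Fin 0 → K) : linf a0 a = MvPolynomial.C a0 := by
  unfold linf
  rw [finsum_of_isEmpty, add_zero]

theorem linf_finSucc {n : ℕ} (a0 : K) (a : Fin (n + 1) → K) :
    MvPolynomial.finSuccEquiv K n (linf a0 a) =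
      Polynomial.C (MvPolynomial.C (a 0)) * Polynomial.X +
        Polynomial.C (linf a0 fun i => a i.succ) := by
  unfold linf
  rw [finsum_eq_sum_of_fintype, finsum_eq_sum_of_fintype, Fin.sum_univ_succ]
  have hC : ∀ c : K, MvPolynomial.finSuccEquiv K n (MvPolynomial.C c) =
      Polynomial.C (MvPolynomial.C c) := fun c => (MvPolynomial.finSuccEquiv K n).commutes c
  simp only [map_add, map_sum, map_mul, hC, MvPolynomial.finSuccEquiv_X_zero,
    MvPolynomial.finSuccEquiv_X_succ]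
  ring

theorem linf_rename {τ : Type} [Finite σ] (e : σ ≃ τ) (a0 : K) (a : σ → K) :
    MvPolynomial.rename e (linf a0 a) = linf a0 fun t => a (e.symm t) := by
  have := Fintype.ofFinite σ
  have := Fintype.ofEquiv σ e
  unfold linf
  rw [finsum_eq_sum_of_fintype, finsum_eq_sum_of_fintype]
  simp only [map_add, map_sum, map_mul, MvPolynomial.rename_C, MvPolynomial.rename_X]
  congr 1
  exact Fintype.sum_equiv e _ _ fun b => by rw [e.symm_apply_apply]

theorem mv_ArrB_congr {A : Type} [CommRing A] [Algebra K A] {Z0 Z0' : Set (Ber K A)}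
    {S0 S0' : Set A} {N N' : ℝ → Set A} (h : ArrB K Z0 S0 N) (h1 : Z0 = Z0') (h2 : S0 = S0')
    (h3 : N = N') : ArrB K Z0' S0' N' := by
  subst h1 h2 h3
  exact h

/-- (AR) for `Fin n`. -/
theorem arrB_mv_fin [IsUltrametricDist K] : ∀ (n : ℕ) (ρ : Fin n → ℝ), (∀ b, 0 < ρ b) →
    ArrB K (mvZ K ρ) (mvS K (Fin n)) (mvN K ρ) := by
  intro n
  induction n with
  | zero =>
    intro ρ hρ
    have e : MvPolynomial (Fin 0) K ≃ₐ[K] K := MvPolynomial.isEmptyAlgEquiv K (Fin 0)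
    refine mv_ArrB_congr ((arrB_self K (good_of_finiteType K K)).iso e.symm) ?_ ?_ ?_
    · ext y
      exact ⟨fun _ b => b.elim0, fun _ => trivial⟩
    · ext y
      constructor
      · rintro ⟨x, hx, -⟩
        exact hx.elim
      · rintro ⟨b, -⟩
        exact b.elim0
    · funext s
      ext f
      constructor
      · rintro ⟨γ, hγ, rfl⟩
        refine ⟨γ, fun b => b.elim0, hγ, fun b => b.elim0, ?_⟩
        rw [linf_zero]
        exact e.symm.commutes γ
      · rintro ⟨a0, a, h1, -, rfl⟩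
        refine ⟨a0, h1, ?_⟩
        rw [linf_zero]
        exact e.symm.commutes a0
  | succ n ih =>
    intro ρ hρ
    have h0 := ih (fun i => ρ i.succ) fun b => hρ b.succ
    have h1 := h0.step (good_of_finiteType K _) (good_of_finiteType K _)
      (fun r hr => circU K _ r hr) (hρ 0)
    have hX : ∀ i : Fin n, (MvPolynomial.finSuccEquiv K n).symm
        (Polynomial.C (MvPolynomial.X i)) = MvPolynomial.X i.succ := by
      intro i
      rw [AlgEquiv.symm_apply_eq, MvPolynomial.finSuccEquiv_X_succ]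
    have hX0 : (MvPolynomial.finSuccEquiv K n).symm Polynomial.X = MvPolynomial.X 0 := by
      rw [AlgEquiv.symm_apply_eq, MvPolynomial.finSuccEquiv_X_zero]
    refine mv_ArrB_congr (h1.iso (MvPolynomial.finSuccEquiv K n).symm) ?_ ?_ ?_
    · ext y
      constructor
      · rintro ⟨h2, h3⟩ b
        have h3' : y.v ((MvPolynomial.finSuccEquiv K n).symm Polynomial.X) = ρ 0 := h3
        rw [hX0] at h3'
        refine Fin.cases h3' (fun i => ?_) b
        have h4 : y.v ((MvPolynomial.finSuccEquiv K n).symm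
          (Polynomial.C (MvPolynomial.X i))) = ρ i.succ := h2 i
        rw [hX] at h4
        exact h4
      · intro h
        refine ⟨fun i => ?_, ?_⟩
        · show y.v ((MvPolynomial.finSuccEquiv K n).symm
            (Polynomial.C (MvPolynomial.X i))) = ρ i.succ
          rw [hX]
          exact h i.succ
        · show y.v ((MvPolynomial.finSuccEquiv K n).symm Polynomial.X) = ρ 0
          rw [hX0]
          exact h 0
    · ext f
      constructor
      · rintro ⟨g, hg, rfl⟩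
        rcases hg with hg | ⟨_, ⟨i, rfl⟩, rfl⟩
        · rw [Set.mem_singleton_iff.1 hg]
          exact ⟨0, hX0.symm⟩
        · exact ⟨i.succ, (hX i).symm⟩
      · rintro ⟨b, rfl⟩
        refine Fin.cases ?_ (fun i => ?_) b
        · exact ⟨Polynomial.X, Or.inl rfl, hX0⟩
        · exact ⟨Polynomial.C (MvPolynomial.X i), Or.inr ⟨_, ⟨i, rfl⟩, rfl⟩, hX i⟩
    · funext s
      ext f
      constructor
      · rintro ⟨_, ⟨a, γ, h2, ⟨a0, a', h3, h4, rfl⟩, rfl⟩, rfl⟩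
        refine ⟨a0, Fin.cons a a', h3, fun b => ?_, ?_⟩
        · refine Fin.cases ?_ (fun i => ?_) b
          · exact h2
          · exact h4 i
        · show (MvPolynomial.finSuccEquiv K n).symm _ = _
          rw [AlgEquiv.symm_apply_eq, linf_finSucc]
          rfl
      · rintro ⟨a0, a, h2, h3, rfl⟩
        have h4 : linf a0 (fun i => a i.succ) ∈ mvN K (fun i : Fin n => ρ i.succ) s :=
          ⟨a0, fun i => a i.succ, h2, fun b => h3 b.succ, rfl⟩
        have h5 : Polynomial.C (algebraMap K (MvPolynomial (Fin n) K) (a 0)) * Polynomial.X +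
            Polynomial.C (linf a0 fun i => a i.succ) ∈
              upN K (ρ 0) (mvN K fun i : Fin n => ρ i.succ) s :=
          ⟨a 0, linf a0 fun i => a i.succ, h3 0, h4, rfl⟩
        refine ⟨_, h5, ?_⟩
        show (MvPolynomial.finSuccEquiv K n).symm _ = _
        rw [AlgEquiv.symm_apply_eq, linf_finSucc]
        rfl

/-- (AR) for finitely many variables. -/
theorem arrB_mv [IsUltrametricDist K] [Finite σ] (ρ : σ → ℝ) (hρ : ∀ b, 0 < ρ b) :
    ArrB K (mvZ K ρ) (mvS K σ) (mvN K ρ) := by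
  have := Fintype.ofFinite σ
  have e : Fin (Fintype.card σ) ≃ σ := (Fintype.equivFin σ).symm
  have h1 := arrB_mv_fin (K := K) _ (fun i => ρ (e i)) fun b => hρ (e b)
  have hX : ∀ i, MvPolynomial.renameEquiv K e (MvPolynomial.X i) = MvPolynomial.X (e i) := by
    intro i
    exact MvPolynomial.rename_X e i
  refine mv_ArrB_congr (h1.iso (MvPolynomial.renameEquiv K e)) ?_ ?_ ?_
  · ext y
    constructor
    · intro h b
      have h2 : y.v (MvPolynomial.renameEquiv K e (MvPolynomial.X (e.symm b))) =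
        ρ (e (e.symm b)) := h (e.symm b)
      rw [hX, e.apply_symm_apply] at h2
      exact h2
    · intro h i
      show y.v (MvPolynomial.renameEquiv K e (MvPolynomial.X i)) = ρ (e i)
      rw [hX]
      exact h (e i)
  · ext f
    constructor
    · rintro ⟨_, ⟨i, rfl⟩, rfl⟩
      exact ⟨e i, (hX i).symm⟩
    · rintro ⟨b, rfl⟩
      exact ⟨MvPolynomial.X (e.symm b), ⟨_, rfl⟩, by rw [hX, e.apply_symm_apply]⟩
  · funext s
    ext f
    constructor
    · rintro ⟨_, ⟨a0, a, h2, h3, rfl⟩, rfl⟩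
      refine ⟨a0, fun t => a (e.symm t), h2, fun b => ?_, linf_rename e a0 a⟩
      have h4 : ‖a (e.symm b)‖ * ρ (e (e.symm b)) ≤ s := h3 (e.symm b)
      rw [e.apply_symm_apply] at h4
      exact h4
    · rintro ⟨a0, a, h2, h3, rfl⟩
      refine ⟨_, ⟨a0, fun i => a (e i), h2, fun i => h3 (e i), rfl⟩, ?_⟩
      refine (linf_rename e a0 _).trans ?_
      congr 1
      funext t
      rw [e.apply_symm_apply]

end

end Pool.Agent.TD


end

section

/-! Section AR: theorem AR for arrangement sets. -/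

open scoped ContDiff Topology NNReal

namespace Pool.Agent.TD

section
variable {K σ ι : Type} [NormedField K] [IsUltrametricDist K] [Finite σ] [Finite ι]
  (ρ : σ → ℝ≥0) (a0 : ι → K) (a : ι → σ → K) (r : ι → ℝ≥0)

theorem arrSet_eq : ∃ F : List (MvPolynomial σ K × ℝ),
    (∀ x, x ∈ F ↔ ∃ i, x = (linf (a0 i) (a i), (r i : ℝ))) ∧
      ArrSet ρ a0 a r = ZF (mvZ K fun b => (ρ b : ℝ)) F := by
  have := Fintype.ofFinite ι
  refine ⟨(Finset.univ : Finset ι).toList.map (fun i => (linf (a0 i) (a i), (r i : ℝ))), ?_, ?_⟩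
  · intro x
    rw [List.mem_map]
    constructor
    · rintro ⟨i, -, rfl⟩
      exact ⟨i, rfl⟩
    · rintro ⟨i, rfl⟩
      exact ⟨i, Finset.mem_toList.2 (Finset.mem_univ i), rfl⟩
  · ext y
    constructor
    · rintro ⟨h1, h2⟩
      refine ⟨h1, fun x hx => ?_⟩
      rw [List.mem_map] at hx
      obtain ⟨i, -, rfl⟩ := hx
      exact h2 i
    · rintro ⟨h1, h2⟩
      refine ⟨h1, fun i => ?_⟩
      exact h2 (linf (a0 i) (a i), (r i : ℝ))
        (List.mem_map.2 ⟨i, Finset.mem_toList.2 (Finset.mem_univ i), rfl⟩)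

omit [IsUltrametricDist K] [Finite σ] [Finite ι] in
theorem AR_fin_fok (hr : ∀ i, 0 < r i) (h0 : ∀ i, ‖a0 i‖ ≤ r i)
    (h1 : ∀ i b, ‖a i b‖ * ρ b ≤ r i) (F : List (MvPolynomial σ K × ℝ))
    (hF : ∀ x, x ∈ F ↔ ∃ i, x = (linf (a0 i) (a i), (r i : ℝ))) :
    FOk (mvN K fun b => (ρ b : ℝ)) F := by
  intro x hx
  obtain ⟨i, rfl⟩ := (hF x).1 hx
  exact ⟨NNReal.coe_pos.2 (hr i), a0 i, a i, h0 i, h1 i, rfl⟩

/-- (AR) (a): closed forms of type `(p,q+1)` near the arrangement set are exact near it. -/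
theorem ar_ex (hρ : ∀ b, 0 < ρ b) (hr : ∀ i, 0 < r i) (h0 : ∀ i, ‖a0 i‖ ≤ r i)
    (h1 : ∀ i b, ‖a i b‖ * ρ b ≤ r i) :
    ExOn (berLS K (MvPolynomial σ K)) (ArrSet ρ a0 a r) := by
  obtain ⟨F, hF, hE⟩ := arrSet_eq ρ a0 a r
  rw [hE]
  exact (arrB_mv (K := K) (fun b => (ρ b : ℝ)) (fun b => NNReal.coe_pos.2 (hρ b))).ex F
    (AR_fin_fok ρ a0 a r hr h0 h1 F hF)

/-- (AR) (b): closed forms of type `(p,0)` near the arrangement set are constant forms in the
coordinates and the linear forms. -/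
theorem ar_cst (hρ : ∀ b, 0 < ρ b) (hr : ∀ i, 0 < r i) (h0 : ∀ i, ‖a0 i‖ ≤ r i)
    (h1 : ∀ i b, ‖a i b‖ * ρ b ≤ r i) {p : ℕ} (c : (berLS K (MvPolynomial σ K)).G p 0)
    (hc : ClOn (berLS K (MvPolynomial σ K)) c (ArrSet ρ a0 a r)) :
    ∃ (θ : Raw (σ ⊕ ι) p 0) (s : Finset (σ ⊕ ι)), IsCst θ ∧ IsSF s θ ∧
      ∀ y ∈ ArrSet ρ a0 a r, ∃ h : (berLS K (MvPolynomial σ K)).SFat y
        (pullR (Sum.elim MvPolynomial.X fun i => linf (a0 i) (a i)) θ),
        c.1 y = (berLS K (MvPolynomial σ K)).germ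
          (pullR (Sum.elim MvPolynomial.X fun i => linf (a0 i) (a i)) θ) h := by
  classical
  obtain ⟨F, hF, hE⟩ := arrSet_eq ρ a0 a r
  rw [hE] at hc ⊢
  obtain ⟨m, u, θ, hu, hθ1, hθ2, hθ3⟩ :=
    (arrB_mv (K := K) (fun b => (ρ b : ℝ)) (fun b => NNReal.coe_pos.2 (hρ b))).cst F
      (AR_fin_fok ρ a0 a r hr h0 h1 F hF) p c hc
  have hidx : ∀ i : Fin m, ∃ x : σ ⊕ ι,
      Sum.elim MvPolynomial.X (fun i => linf (a0 i) (a i)) x = u i := by
    intro i
    rcases hu i with h | ⟨x, hx, hx2⟩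
    · obtain ⟨b, hb⟩ := h
      exact ⟨Sum.inl b, hb⟩
    · obtain ⟨j, rfl⟩ := (hF x).1 hx
      exact ⟨Sum.inr j, hx2⟩
  choose idx hidx using hidx
  have e : pullR (Sum.elim MvPolynomial.X fun i => linf (a0 i) (a i)) (pullR idx θ) =
      pullR u θ := by
    have h2 : u = (Sum.elim MvPolynomial.X fun i => linf (a0 i) (a i)) ∘ idx :=
      funext fun i => (hidx i).symm
    rw [h2]
    rfl
  refine ⟨pullR idx θ, Finset.univ.image idx, fun x x' w v => hθ1 _ _ _ _, hθ2.pullR,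
    fun y hy => ?_⟩
  rw [e]
  exact hθ3 y hy

end

end Pool.Agent.TD


end

section

/-! Section AR: the form of theorem AR which section X3 uses. -/

open scoped ContDiff Topology NNReal

namespace Pool.Agent.TD

/-- Constant forms in the coordinates `h` are constant forms in the coordinates `g` if every `h i`
is one of the `g j`. -/
theorem cstR_reindex {Φ : Type} {m n p : ℕ} (h : Fin m → Φ) (g : Fin n → Φ)
    (hg : ∀ i, ∃ j, g j = h i) (α : (Fin m → ℝ) [⋀^Fin p]→L[ℝ] ℝ) :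
    ∃ β : (Fin n → ℝ) [⋀^Fin p]→L[ℝ] ℝ, cstR h α = cstR g β := by
  choose ix hix using hg
  refine ⟨α.compContinuousLinearMap (ContinuousLinearMap.pi fun i =>
    ContinuousLinearMap.proj (ix i)), ?_⟩
  funext x w v
  change α (fun j i => v j (h i)) = α (fun j i => v j (g (ix i)))
  congr 1
  funext j i
  rw [hix]

/-- A constant form on a finite index type. -/
theorem exists_cstR_fin {Ψ Φ : Type} [Finite Ψ] {p : ℕ} {θ : Raw Ψ p 0} (hc : IsCst θ)
    {s : Finset Ψ} (hs : IsSF s θ) (u : Ψ → Φ) {n : ℕ} (g : Fin n → Φ)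
    (hg : ∀ i, ∃ j, g j = u i) : ∃ β : (Fin n → ℝ) [⋀^Fin p]→L[ℝ] ℝ, pullR u θ = cstR g β := by
  classical
  obtain ⟨m, ⟨e⟩⟩ := Finite.exists_equiv_fin Ψ
  have hs' : IsSF (Finset.univ.image e.symm) θ := by
    refine hs.mono ?_
    intro x _
    exact Finset.mem_image.2 ⟨e x, Finset.mem_univ _, e.symm_apply_apply x⟩
  obtain ⟨α, rfl⟩ := exists_cstR hc hs'
  rw [pullR_cstR]
  exact cstR_reindex _ g (fun i => hg _) α

theorem ar_all (K σ ι : Type) [NormedField K] [IsUltrametricDist K] [Finite σ] [Finite ι]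
    (ρ : σ → ℝ≥0) (a0 : ι → K) (a : ι → σ → K) (r : ι → ℝ≥0) (hρ : ∀ b, 0 < ρ b)
    (hr : ∀ i, 0 < r i) (h1 : ∀ i b, ‖a i b‖₊ * ρ b ≤ r i) (h0 : ∀ i, ‖a0 i‖₊ ≤ r i) :
    (∀ (p q : ℕ) (c : (berLS K (MvPolynomial σ K)).G p (q + 1)),
      (∀ y ∈ ArrSet ρ a0 a r, (berLS K (MvPolynomial σ K)).ddS p (q + 1) y (c.1 y) = 0) →
      ∃ e : (berLS K (MvPolynomial σ K)).G p q, ∀ y ∈ ArrSet ρ a0 a r,
        c.1 y = (berLS K (MvPolynomial σ K)).ddS p q y (e.1 y)) ∧
    (∀ (N : ℕ) (g : Fin N → MvPolynomial σ K),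
      Set.range g = Set.range MvPolynomial.X ∪ Set.range (fun i => linf (a0 i) (a i)) →
      ∀ (p : ℕ) (c : (berLS K (MvPolynomial σ K)).G p 0),
      (∀ y ∈ ArrSet ρ a0 a r, (berLS K (MvPolynomial σ K)).ddS p 0 y (c.1 y) = 0) →
      ∃ α : (Fin N → ℝ) [⋀^Fin p]→L[ℝ] ℝ, ∀ y ∈ ArrSet ρ a0 a r,
        ∃ h : (berLS K (MvPolynomial σ K)).SFat y (cstR g α),
          c.1 y = (berLS K (MvPolynomial σ K)).germ (cstR g α) h) := by
  have h0' : ∀ i, ‖a0 i‖ ≤ r i := fun i => h0 i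
  have h1' : ∀ i b, ‖a i b‖ * ρ b ≤ r i := fun i b => by exact_mod_cast h1 i b
  refine ⟨fun p q c hc => ar_ex ρ a0 a r hρ hr h0' h1' p q c hc, ?_⟩
  intro N g hg p c hc
  obtain ⟨θ, s, hθ, hs, H⟩ := ar_cst ρ a0 a r hρ hr h0' h1' c hc
  obtain ⟨β, hβ⟩ := exists_cstR_fin hθ hs (Sum.elim MvPolynomial.X fun i => linf (a0 i) (a i)) g
    (by
      intro i
      have : Sum.elim MvPolynomial.X (fun i => linf (a0 i) (a i)) i ∈ Set.range g := by
        rw [hg]
        rcases i with b | i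
        · exact Or.inl ⟨b, rfl⟩
        · exact Or.inr ⟨i, rfl⟩
      exact this)
  rw [hβ] at H
  exact ⟨β, H⟩

end Pool.Agent.TD


end

section

/-!
# X3: forms near the fibres of the tropicalization of a scheme

`φ : A ≃ Γ(X, U)` an affine chart, `F ⊆ M(A)` an arrangement fibre with the functions `T e`
(`ArrFib`), `Fset φ F` the corresponding subset of `X^an`.
-/

open scoped ContDiff Topology NNReal
open AlgebraicGeometry CategoryTheory

namespace Pool.Agent.TD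

namespace X3

variable {K A E : Type} [NormedField K] [CommRing A] [Algebra K A]
  {X : Scheme.{0}} {ι : K →+* Γ(X, ⊤)} {U : X.Opens}

/-- The points of `X^an` which correspond to the points of a subset of `M(A)`. -/
def Fset (φ : A →+* Γ(X, U)) (hφ : ∀ c, φ (algebraMap K A c) = stK ι U c) (S : Set (Ber K A)) :
    Set (An X ι) := {z | ∃ h : z ∈ An.opn ι U, An.toBer φ hφ ⟨z, h⟩ ∈ S}

theorem isCompact_Fset (hU : IsAffineOpen U) (φ : A ≃+* Γ(X, U))
    (hφ : ∀ c, φ (algebraMap K A c) = stK ι U c) {S : Set (Ber K A)} (hS : IsCompact S) :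
    IsCompact (Fset φ.toRingHom hφ S) := by
  have h1 := ((An.toBer_homeo (ι := ι) hU φ hφ).homeomorph).isCompact_preimage.2 hS
  have h2 := h1.image (continuous_subtype_val (p := fun z => z ∈ An.opn ι U))
  convert h2 using 1
  ext z
  constructor
  · rintro ⟨h, hz⟩
    exact ⟨⟨z, h⟩, hz, rfl⟩
  · rintro ⟨⟨z', h⟩, hz, rfl⟩
    exact ⟨h, hz⟩

section arr

variable {T : E → A} {ρ : E → ℝ≥0} {e0 : E} {B : Set E} {c0 : (Bᶜ : Set E) → K}
  {c : (Bᶜ : Set E) → (B \ {e0} : Set E) → K} {F : Set (Ber K A)}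

/-- The homomorphism `K[T_b : b ∈ J] → Γ(X, U)`. -/
noncomputable def phX (K : Type) {A E : Type} [NormedField K] [CommRing A] [Algebra K A]
    {X : Scheme.{0}} {U : X.Opens} (T : E → A) (J : Set E) (φ : A →+* Γ(X, U)) :
    MvPolynomial J K →+* Γ(X, U) :=
  φ.comp (phT T J).toRingHom

theorem phX_alg (T : E → A) (J : Set E) (φ : A →+* Γ(X, U))
    (hφ : ∀ c, φ (algebraMap K A c) = stK ι U c) (a : K) :
    phX K T J φ (algebraMap K _ a) = stK ι U a := by
  show φ ((phT T J) (algebraMap K _ a)) = _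
  rw [AlgHom.commutes, hφ]

/-- The morphism `U^an → M(K[T_b : b ∈ J])`. -/
noncomputable def mX (T : E → A) (J : Set E) (φ : A →+* Γ(X, U))
    (hφ : ∀ c, φ (algebraMap K A c) = stK ι U c) :
    Mor ((anLS X ι).restr (An.opn ι U)) (berLS K (MvPolynomial J K)) :=
  chMor (phX K T J φ) (phX_alg T J φ hφ)

theorem mX_toFun (J : Set E) (φ : A →+* Γ(X, U)) (hφ : ∀ c, φ (algebraMap K A c) = stK ι U c)
    (z : An.opn ι U) : (mX T J φ hφ).toFun z =
      Ber.res (phT T J) (An.toBer φ hφ z) := rfl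

theorem fib_of_arr (S : ArrFib K T ρ e0 B c0 c F) (hU : IsAffineOpen U)
    (φ : A ≃+* Γ(X, U)) (hφ : ∀ c, φ (algebraMap K A c) = stK ι U c) :
    Fib (mX T (B \ {e0}) φ.toRingHom hφ) (Fset φ.toRingHom hφ F) where
  isOpen := An.isOpen_opn U
  sub := fun z ⟨h, _⟩ => h
  cpt := isCompact_Fset hU φ hφ S.cpt
  aff := by
    rintro z ⟨h, hz⟩
    refine chMor_affAt hU _ _ z ?_
    intro a ε hε
    obtain ⟨b, d, hd, hlt⟩ := S.dens _ hz (φ.symm a) ε hε
    refine ⟨b, d, hd, ?_⟩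
    have e1 : An.absv U (phX K T (B \ {e0}) φ.toRingHom d * a -
        phX K T (B \ {e0}) φ.toRingHom b) z.1 =
        (An.toBer φ.toRingHom hφ z).v (phT T (B \ {e0}) d * φ.symm a - phT T (B \ {e0}) b) := by
      show _ = An.absv U (φ (phT T (B \ {e0}) d * φ.symm a - phT T (B \ {e0}) b)) z.1
      rw [map_sub, map_mul, φ.apply_symm_apply]
      rfl
    rw [e1]
    exact hlt
  opn := by
    rintro z ⟨h, hz⟩ V hV
    have h1 : An.toBer φ.toRingHom hφ '' V ∈ 𝓝 (An.toBer φ.toRingHom hφ z) :=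
      ((An.toBer_homeo (ι := ι) hU φ hφ).isOpenMap).image_mem_nhds hV
    have h2 := S.opn _ hz _ h1
    rw [Set.image_image] at h2
    exact h2
  inj := by
    rintro z z' ⟨h, hz⟩ ⟨h', hz'⟩ e
    exact (An.toBer_homeo (ι := ι) hU φ hφ).injective (S.inj hz hz' e)

theorem image_iff (S : ArrFib K T ρ e0 B c0 c F) (φ : A ≃+* Γ(X, U))
    (hφ : ∀ c, φ (algebraMap K A c) = stK ι U c) (hU : IsAffineOpen U)
    (y : Ber K (MvPolynomial (B \ {e0} : Set E) K)) :
    y ∈ ArrSet (fun b : (B \ {e0} : Set E) => ρ b.1) c0 c (fun e => ρ e.1) ↔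
      ∃ z : An.opn ι U, z.1 ∈ Fset φ.toRingHom hφ F ∧
        (mX T (B \ {e0}) φ.toRingHom hφ).toFun z = y := by
  rw [← S.image]
  constructor
  · rintro ⟨z, hz, rfl⟩
    obtain ⟨z', rfl⟩ := (An.toBer_homeo (ι := ι) hU φ hφ).surjective z
    exact ⟨z', ⟨z'.2, hz⟩, rfl⟩
  · rintro ⟨z, ⟨h, hz⟩, rfl⟩
    exact ⟨_, hz, rfl⟩

variable [IsUltrametricDist K] [Finite E]

/-- The statement of section AR holds. -/
theorem stmtAR : StmtAR := fun K σ ι => ar_all K σ ι

/-- Exactness near `F`. -/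
theorem an_exact (S : ArrFib K T ρ e0 B c0 c F) (hU : IsAffineOpen U)
    (φ : A ≃+* Γ(X, U)) (hφ : ∀ c, φ (algebraMap K A c) = stK ι U c) [T2Space (An X ι)]
    [LocallyCompactSpace (An X ι)] (hC : (anLS X ι).CutOff) {p q : ℕ}
    (w : (anLS X ι).G p (q + 1))
    (hw : ∀ z ∈ Fset φ.toRingHom hφ F, (anLS X ι).ddS p (q + 1) z (w.1 z) = 0) :
    ∃ e : (anLS X ι).G p q, ∀ z ∈ Fset φ.toRingHom hφ F,
      w.1 z = (anLS X ι).ddS p q z (e.1 z) := by
  have : T2Space (Ber K (MvPolynomial (B \ {e0} : Set E) K)) := (BG.top K _).1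
  have : LocallyCompactSpace (Ber K (MvPolynomial (B \ {e0} : Set E) K)) :=
    ber_locallyCompact inferInstance
  exact (fib_of_arr S hU φ hφ).exact hC (ber_cutOff inferInstance) _
    (image_iff S φ hφ hU) (fun c' hc' => ((stmtAR K _ _ _ c0 c _ (fun b => S.ρpos _)
      (fun e => S.ρpos _) S.bd S.bd0).1 p q c' hc')) w hw

/-- Closed forms of type `(p,0)` near `F` are constant forms in the `log |T_e|`, `e ≠ e0`. -/
theorem an_zero (S : ArrFib K T ρ e0 B c0 c F) (hU : IsAffineOpen U)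
    (φ : A ≃+* Γ(X, U)) (hφ : ∀ c, φ (algebraMap K A c) = stK ι U c) {N : ℕ} (en : Fin N → E)
    (hen : Set.range en = {e | e ≠ e0}) (g : Fin N → Σ V : X.Opens, Γ(X, V))
    (hg : ∀ z ∈ Fset φ.toRingHom hφ F, ∀ j, z ∈ (anLS X ι).dom (g j))
    (hlf : ∀ z ∈ Fset φ.toRingHom hφ F, ∀ j, ∀ᶠ z' in 𝓝 z,
      An.absv (g j).1 (g j).2 z' = An.absv U (φ (T (en j))) z') {p : ℕ}
    (w : (anLS X ι).G p 0)
    (hw : ∀ z ∈ Fset φ.toRingHom hφ F, (anLS X ι).ddS p 0 z (w.1 z) = 0) :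
    ∃ α : (Fin N → ℝ) [⋀^Fin p]→L[ℝ] ℝ, ∀ z ∈ Fset φ.toRingHom hφ F,
      ∃ k : (anLS X ι).SFat z (cstR g α), w.1 z = (anLS X ι).germ (cstR g α) k := by
  classical
  have : T2Space (Ber K (MvPolynomial (B \ {e0} : Set E) K)) := (BG.top K _).1
  have : LocallyCompactSpace (Ber K (MvPolynomial (B \ {e0} : Set E) K)) :=
    ber_locallyCompact inferInstance
  have hne : ∀ j, en j ≠ e0 := fun j => by
    have : en j ∈ Set.range en := ⟨j, rfl⟩
    rw [hen] at this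
    exact this
  let g' : Fin N → MvPolynomial (B \ {e0} : Set E) K := fun j =>
    if hj : en j ∈ B then MvPolynomial.X ⟨en j, hj, hne j⟩ else
      linf (c0 ⟨en j, hj⟩) (c ⟨en j, hj⟩)
  have hg'1 : ∀ j (hj : en j ∈ B), g' j = MvPolynomial.X ⟨en j, hj, hne j⟩ := fun j hj => dif_pos hj
  have hg'2 : ∀ j (hj : en j ∉ B), g' j = linf (c0 ⟨en j, hj⟩) (c ⟨en j, hj⟩) := fun j hj =>
    dif_neg hj
  have hrange : Set.range g' = Set.range MvPolynomial.X ∪
      Set.range (fun i => linf (c0 i) (c i)) := by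
    ext f
    constructor
    · rintro ⟨j, rfl⟩
      by_cases hj : en j ∈ B
      · exact Or.inl ⟨_, (hg'1 j hj).symm⟩
      · exact Or.inr ⟨_, (hg'2 j hj).symm⟩
    · rintro (⟨b, rfl⟩ | ⟨e, rfl⟩)
      · obtain ⟨j, hj⟩ : b.1 ∈ Set.range en := by
          rw [hen]
          exact b.2.2
        refine ⟨j, ?_⟩
        have hjB : en j ∈ B := by rw [hj]; exact b.2.1
        rw [hg'1 j hjB]
        congr 1
        exact Subtype.ext hj
      · obtain ⟨j, hj⟩ : e.1 ∈ Set.range en := by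
          rw [hen]
          intro h0
          apply e.2
          rw [h0]
          exact S.e0_mem
        refine ⟨j, ?_⟩
        have hjB : en j ∉ B := by rw [hj]; exact e.2
        rw [hg'2 j hjB]
        have he : (⟨en j, hjB⟩ : (Bᶜ : Set E)) = e := Subtype.ext hj
        rw [he]
  have hfib := fib_of_arr S hU φ hφ
  have hy : ∀ y ∈ ArrSet (fun b : (B \ {e0} : Set E) => ρ b.1) c0 c (fun e => ρ e.1),
      ∀ j, y.v (g' j) = ρ (en j) := by
    intro y hy j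
    by_cases hj : en j ∈ B
    · rw [hg'1 j hj]
      exact hy.1 _
    · rw [hg'2 j hj]
      exact hy.2 _
  refine hfib.zero (ber_cutOff inferInstance) _ (image_iff S φ hφ hU) g' g ?_ hg ?_
    (fun c' hc' => ((stmtAR K _ _ _ c0 c _ (fun b => S.ρpos _)
      (fun e => S.ρpos _) S.bd S.bd0).2 N g' hrange p c' hc')) w hw
  · intro y hyA j
    show y.v (g' j) ≠ 0
    rw [hy y hyA j]
    exact (NNReal.coe_pos.2 (S.ρpos _)).ne'
  · intro z hz j
    have hzU : z ∈ An.opn ι U := hfib.sub hz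
    have hzF : An.toBer φ.toRingHom hφ ⟨z, hzU⟩ ∈ F := by
      obtain ⟨h, hz⟩ := hz
      exact hz
    -- near `z` the absolute values of `T_e` and of the form agree
    have key : ∀ᶠ z' : An.opn ι U in 𝓝 ⟨z, hzU⟩,
        An.absv U (φ (T (en j))) z'.1 =
          An.absv U (phX K T (B \ {e0}) φ.toRingHom (g' j)) z'.1 := by
      by_cases hj : en j ∈ B
      · refine Filter.Eventually.of_forall fun z' => ?_
        rw [hg'1 j hj]
        have e1 : phT (K := K) T (B \ {e0}) (MvPolynomial.X ⟨en j, hj, hne j⟩) = T (en j) := by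
          unfold phT
          rw [MvPolynomial.aeval_X]
        have e2 : phX K T (B \ {e0}) φ.toRingHom (MvPolynomial.X ⟨en j, hj, hne j⟩) =
            φ (T (en j)) := by
          rw [← e1]
          rfl
        rw [e2]
      · rw [hg'2 j hj]
        have hcl := S.close _ hzF ⟨en j, hj⟩
        have hT : (An.toBer φ.toRingHom hφ ⟨z, hzU⟩).v (T (en j)) = ρ (en j) :=
          S.val _ hzF (en j)
        have hlt : An.absv U (φ (T (en j)) - phX K T (B \ {e0}) φ.toRingHom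
            (linf (c0 ⟨en j, hj⟩) (c ⟨en j, hj⟩))) z < An.absv U (φ (T (en j))) z := by
          have e1 : An.absv U (φ (T (en j))) z = ρ (en j) := hT
          rw [e1]
          have e2 : φ (T (en j)) - phX K T (B \ {e0}) φ.toRingHom
              (linf (c0 ⟨en j, hj⟩) (c ⟨en j, hj⟩)) = φ (T (en j) -
                phT T (B \ {e0}) (linf (c0 ⟨en j, hj⟩) (c ⟨en j, hj⟩))) := by
            rw [map_sub]
            rfl
          rw [e2]
          exact hcl
        have hcont : ∀ f : Γ(X, U), Continuous fun z' : An.opn ι U => An.absv U f z'.1 :=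
          fun f => (An.continuousOn_absv (ι := ι) U f).domRestrict
        have h1 : ∀ᶠ z' : An.opn ι U in 𝓝 ⟨z, hzU⟩, An.absv U (φ (T (en j)) -
            phX K T (B \ {e0}) φ.toRingHom (linf (c0 ⟨en j, hj⟩) (c ⟨en j, hj⟩))) z'.1 <
              An.absv U (φ (T (en j))) z'.1 :=
          (hcont _).continuousAt.eventually_lt (hcont _).continuousAt hlt
        filter_upwards [h1] with z' h1
        exact Toric.absv_eq_of_sub_lt h1
    have key2 : ∀ᶠ z' in 𝓝 z, ∀ hz' : z' ∈ An.opn ι U, An.absv U (φ (T (en j))) z' =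
        An.absv U (phX K T (B \ {e0}) φ.toRingHom (g' j)) z' := by
      rw [← map_nhds_subtype_coe_eq_nhds (p := fun z' => z' ∈ An.opn ι U) hzU
        ((An.isOpen_opn U).mem_nhds hzU), Filter.eventually_map]
      exact key.mono fun z' h _ => h
    filter_upwards [hlf z hz j, key2] with z' h1 h2 hz'
    show Real.log (An.absv (g j).1 (g j).2 z') =
      Real.log (An.absv U (phX K T (B \ {e0}) φ.toRingHom (g' j)) z')
    rw [h1, h2 hz']

end arr

end X3

end Pool.Agent.TD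


end
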