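import Mathlib
import Pool.Agent.DolbM.C05
import Pool.Agent.DolbM.C09
import Pool.Agent.DolbM.C11
import Pool.Agent.DolbM.C16
import Pool.Agent.TD.X.Map

/-! Parts: TD.X.Gen, TD.X.An, TD.X.Top, TD.X.Reps, TD.X.Chart, TD.X3.Inj -/

section

/-!
# Section X: the comparison theorem for a proper morphism, from the statements on the fibres
-/

open scoped ContDiff Topology

namespace Pool.Agent.TD

variable {X Φ B Φ' : Type} [TopologicalSpace X] [TopologicalSpace B] {L : LogSpace X Φ}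
  {L' : LogSpace B Φ'}

/-- The hypotheses of the comparison theorem. -/
structure Comp (m : Mor L L') : Prop where
  cut : L.CutOff
  cut' : L'.CutOff
  prop : m.IsProp
  star : ∀ b, L'.StarAt b
  inj : ∀ b p (a : L'.G p 0), L'.ddS p 0 b (a.1 b) = 0 →
    (∀ z, m.toFun z = b → (m.pullG p 0 a).1 z = 0) → a.1 b = 0
  zero : ∀ b p (c : L.G p 0), (∀ z, m.toFun z = b → L.ddS p 0 z (c.1 z) = 0) →
    ∃ a : L'.G p 0, L'.ddS p 0 b (a.1 b) = 0 ∧
      ∀ z, m.toFun z = b → c.1 z = (m.pullG p 0 a).1 z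
  exact : ∀ b p q (c : L.G p (q + 1)), (∀ z, m.toFun z = b → L.ddS p (q + 1) z (c.1 z) = 0) →
    ∃ e : L.G p q, ∀ z, m.toFun z = b → c.1 z = L.ddS p q z (e.1 z)

namespace Comp

variable {m : Mor L L'} [T2Space X] [LocallyCompactSpace X] [T2Space B] [LocallyCompactSpace B]
  (h : Comp m)

include h

theorem properOn : ProperOn Set.univ m.toFun := by
  refine properOn_of_comp m.cont isClosed_univ fun Z hZ => ?_
  rw [Set.univ_inter]
  exact h.prop _ hZ

omit h [T2Space X] [LocallyCompactSpace X] [T2Space B] [LocallyCompactSpace B] in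
theorem supp_pullG {p q : ℕ} (c : L'.G p q) {z : X} (hz : z ∈ L.supp (m.pullG p q c)) :
    m.toFun z ∈ L'.supp c := by
  intro h0
  apply hz
  rw [Mor.pullG_val]
  have h1 : c.1 (m.toFun z) = 0 := h0
  rw [h1, map_zero]

/-- The complex of forms on `X`, pushed forward to `B`. -/
noncomputable def cxP (p : ℕ) : SCx B := (L.cx h.cut p).push h.properOn

/-- The class of a form. -/
noncomputable def clsP (p q : ℕ) : L.G p q →+ (h.cxP p).G q := (L.cx h.cut p).cls Set.univ q

theorem clsP_surj (p q : ℕ) : Function.Surjective (h.clsP p q) :=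
  (L.cx h.cut p).cls_surjective q

theorem clsP_eq_zero {p q : ℕ} {c : L.G p q} : h.clsP p q c = 0 ↔ c = 0 := by
  have h1 := (L.cx h.cut p).cls_eq_zero (S := Set.univ) (q := q) (c := c)
  refine Iff.trans h1 ?_
  constructor
  · intro h
    apply Subtype.ext
    funext z
    exact (L.disjoint_supp_iff p c Set.univ).1 h z trivial
  · rintro rfl
    exact (L.disjoint_supp_iff p 0 Set.univ).2 fun z _ => rfl

theorem clsP_inj {p q : ℕ} {c c' : L.G p q} (k : h.clsP p q c = h.clsP p q c') : c = c' := by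
  rw [← sub_eq_zero] at k ⊢
  rw [← map_sub] at k
  exact h.clsP_eq_zero.1 k

theorem clsP_d (p q : ℕ) (c : L.G p q) :
    (h.cxP p).d q (h.clsP p q c) = h.clsP p (q + 1) (L.ddG p q c) := rfl

theorem supp_clsP {p q : ℕ} (c : L.G p q) :
    (h.cxP p).supp (h.clsP p q c) = m.toFun '' (L.supp c) := by
  have k := (L.cx h.cut p).push_supp h.properOn c
  rw [Set.inter_univ] at k
  exact k

/-- The morphism of complexes with supports. -/
noncomputable def shom (p : ℕ) : SHom (L'.cx h.cut' p) (h.cxP p) where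
  f q := (h.clsP p q).comp (m.pullG p q).toAddMonoidHom
  comm q c := congrArg (h.clsP p (q + 1)) (m.pullG_dd p q c)
  supp q c := by
    refine (h.supp_clsP (m.pullG p q c)).trans_subset ?_
    rintro _ ⟨z, hz, rfl⟩
    exact supp_pullG c hz

theorem shom_f (p q : ℕ) (c : L'.G p q) :
    (h.shom p).f q c = h.clsP p q (m.pullG p q c) := rfl

theorem qiso (p : ℕ) (b : B) : (h.shom p).QIso {b} := by
  have hst := h.star b
  have key : ∀ (P : X → Prop),
      (∀ z ∈ (Set.univ : Set X) ∩ m.toFun ⁻¹' {b}, P z) ↔ ∀ z, m.toFun z = b → P z := by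
    intro P
    constructor
    · intro h z hz
      exact h z ⟨trivial, hz⟩
    · rintro h z ⟨-, hz⟩
      exact h z hz
  refine ⟨?_, ?_⟩
  · intro q c hc hb
    rcases q with _ | q
    · have h1 : (L.cx h.cut p).Bd (Set.univ ∩ m.toFun ⁻¹' {b}) 0 (m.pullG p 0 c) :=
        ((L.cx h.cut p).push_Bd h.properOn {b} (m.pullG p 0 c)).1 hb
      rw [L.cx_Bd_zero_iff h.cut, key] at h1
      have h2 := (L'.cx_Cl_iff h.cut' p {b} 0 c).1 hc b rfl
      rw [L'.cx_Bd_zero_iff h.cut']
      intro z hz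
      rw [Set.mem_singleton_iff.1 hz]
      exact h.inj b p c h2 h1
    · exact L'.cx_Bd_of_star h.cut' p hst q c hc
  · intro q e he
    obtain ⟨c, rfl⟩ := h.clsP_surj p q e
    have h1 : (L.cx h.cut p).Cl (Set.univ ∩ m.toFun ⁻¹' {b}) q c :=
      ((L.cx h.cut p).push_Cl h.properOn {b} c).1 he
    rw [L.cx_Cl_iff h.cut, key] at h1
    rcases q with _ | q
    · obtain ⟨a, ha, hac⟩ := h.zero b p c h1
      refine ⟨a, ?_, ?_⟩
      · exact (L'.cx_Cl_iff h.cut' p {b} 0 a).2 (by rintro _ rfl; exact ha)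
      · have h2 : (L.cx h.cut p).Bd (Set.univ ∩ m.toFun ⁻¹' {b}) 0
            (c - m.pullG p 0 a) := by
          rw [L.cx_Bd_zero_iff h.cut, key]
          intro z hz
          have h3 := hac z hz
          show c.1 z - (m.pullG p 0 a).1 z = 0
          rw [h3, sub_self]
        have h3 := ((L.cx h.cut p).push_Bd h.properOn {b} (c - m.pullG p 0 a)).2 h2
        have h4 : h.clsP p 0 (c - m.pullG p 0 a) =
            h.clsP p 0 c - (h.shom p).f 0 a := map_sub (h.clsP p 0) _ _
        rw [← h4]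
        exact h3
    · obtain ⟨e, he'⟩ := h.exact b p q c h1
      refine ⟨(0 : L'.G p (q + 1)), ?_, ?_⟩
      · refine (L'.cx_Cl_iff h.cut' p {b} (q + 1) 0).2 ?_
        rintro z -
        exact map_zero _
      · have h2 : (L.cx h.cut p).Bd (Set.univ ∩ m.toFun ⁻¹' {b}) (q + 1) c := by
          rw [L.cx_Bd_succ_iff h.cut]
          exact ⟨e, (key _).2 fun z hz => he' z hz⟩
        have h3 := ((L.cx h.cut p).push_Bd h.properOn {b} c).2 h2
        have h4 : h.clsP p (q + 1) c - (h.shom p).f (q + 1) (0 : L'.G p (q + 1)) =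
            h.clsP p (q + 1) c := by
          rw [shom_f, map_zero, map_zero, sub_zero]
        rw [h4]
        exact h3

theorem cxP_complete (p : ℕ) : (h.cxP p).Complete :=
  SCx.push_complete _ h.properOn (L.cx_complete h.cut p)

theorem bdG_iff {p q : ℕ} (c : L.G p q) : (h.cxP p).BdG q (h.clsP p q c) ↔ c ∈ L.Bf p q := by
  rcases q with _ | q
  · exact h.clsP_eq_zero
  · constructor
    · rintro ⟨e, he⟩
      obtain ⟨e, rfl⟩ := h.clsP_surj p q e
      rw [h.clsP_d] at he
      exact ⟨e, (h.clsP_inj he).symm⟩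
    · rintro ⟨e, rfl⟩
      exact ⟨h.clsP p q e, rfl⟩

omit h [T2Space X] [LocallyCompactSpace X] [T2Space B] [LocallyCompactSpace B] in
theorem gc_iff {p q : ℕ} (c : L.G p q) : c ∈ L.Gc p q ↔ IsCompact (L.supp c) := by
  constructor
  · rintro ⟨K, hK, h⟩
    refine hK.of_isClosed_subset (L.isClosed_supp c) fun z hz => ?_
    by_contra hz'
    exact hz (h z hz')
  · intro h
    refine ⟨_, h, fun z hz => ?_⟩
    by_contra h'
    exact hz h'

theorem gcY_iff {p q : ℕ} (c : L.G p q) : c ∈ L.Gc p q ↔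
    IsCompact ((h.cxP p).supp (h.clsP p q c)) := by
  rw [h.supp_clsP]
  constructor
  · intro hc
    exact ((gc_iff c).1 hc).image m.cont
  · intro hc
    refine ⟨_, h.prop _ hc, fun z hz => ?_⟩
    by_contra h'
    exact hz ⟨z, h', rfl⟩

theorem bdC_iff {p q : ℕ} (c : L.G p q) : (h.cxP p).BdC q (h.clsP p q c) ↔ c ∈ L.Bc p q := by
  rcases q with _ | q
  · exact h.clsP_eq_zero
  · constructor
    · rintro ⟨e, he1, he⟩
      obtain ⟨e, rfl⟩ := h.clsP_surj p q e
      rw [h.clsP_d] at he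
      exact ⟨e, (h.gcY_iff e).2 he1, (h.clsP_inj he).symm⟩
    · rintro ⟨e, he1, rfl⟩
      exact ⟨h.clsP p q e, (h.gcY_iff e).1 he1, rfl⟩

/-- The comparison theorem, in terms of forms. -/
theorem forms (E : CompactExhaustion B) (p q : ℕ) :
    ((∀ c ∈ L.Zf p q, ∃ a ∈ L'.Zf p q, c - m.pullG p q a ∈ L.Bf p q) ∧
    (∀ a ∈ L'.Zf p q, m.pullG p q a ∈ L.Bf p q → a ∈ L'.Bf p q)) ∧
    (∀ c ∈ L.Zc p q, ∃ a ∈ L'.Zc p q, c - m.pullG p q a ∈ L.Bc p q) ∧
    (∀ a ∈ L'.Zc p q, m.pullG p q a ∈ L.Bc p q → a ∈ L'.Bc p q) := by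
  have hG := (h.shom p).qiso_global (L'.cx_complete h.cut' p) (h.cxP_complete p) E
    fun b => h.qiso p b
  have hC := (h.shom p).qiso_compact (L'.cx_complete h.cut' p) (h.cxP_complete p) E
    fun b => h.qiso p b
  refine ⟨⟨?_, ?_⟩, ?_, ?_⟩
  · intro c hc
    have hc' : L.ddG p q c = 0 := hc
    obtain ⟨a, ha, hb⟩ := hG.2 q (h.clsP p q c) (by rw [h.clsP_d, hc', map_zero])
    refine ⟨a, ha, ?_⟩
    rw [shom_f, ← map_sub, h.bdG_iff] at hb
    exact hb
  · intro a ha hb
    have h1 := hG.1 q a ha (by rw [shom_f]; exact (h.bdG_iff _).2 hb)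
    rcases q with _ | q
    · exact h1
    · obtain ⟨e, he⟩ := h1
      exact ⟨e, he.symm⟩
  · intro c hc
    have hc' : L.ddG p q c = 0 := hc.1
    obtain ⟨a, ha1, ha, hb⟩ := hC.2 q (h.clsP p q c) ((h.gcY_iff c).1 hc.2)
      (by rw [h.clsP_d, hc', map_zero])
    refine ⟨a, ⟨ha, (gc_iff a).2 ha1⟩, ?_⟩
    rw [shom_f, ← map_sub, h.bdC_iff] at hb
    exact hb
  · intro a ha hb
    have h1 := hC.1 q a ((gc_iff a).1 ha.2) ha.1 (by rw [shom_f]; exact (h.bdC_iff _).2 hb)
    rcases q with _ | q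
    · exact h1
    · obtain ⟨e, he1, he⟩ := h1
      exact ⟨e, (gc_iff e).2 he1, he.symm⟩

end Comp

end Pool.Agent.TD


end

section

/-!
# Section X: `X^an → Y^an` for a morphism of schemes; closed immersions give closed embeddings
-/

open scoped ContDiff Topology
open AlgebraicGeometry CategoryTheory

namespace Pool.Agent.TD

namespace An

variable {K : Type} [NormedField K] {X Y : Scheme.{0}} {φ : X ⟶ Y} {ι : Str K Y}

theorem germ_stX (U : Op Y) (x : Pt X) (h : ptX φ x ∈ U) (f : Fn Y U) :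
    stX φ x (gm U (ptX φ x) h f) = gm (opX φ U) x h (fnX φ f) := by
  have e := congrArg (fun g => g f) (congrArg CommRingCat.Hom.hom
    (Scheme.Hom.germ_stalkMap φ U x h))
  exact e

theorem map_pt (z : An X (Str.pb φ ι)) : (map φ ι z).pt = ptX φ z.pt := rfl

theorem map_v (z : An X (Str.pb φ ι)) (a : Lr Y (ptX φ z.pt)) :
    (map φ ι z).v a = z.v (stX φ z.pt a) := rfl

theorem absv_map (U : Op Y) (f : Fn Y U) (z : An X (Str.pb φ ι)) :
    absv U f (map φ ι z) = absv (opX φ U) (fnX φ f) z := by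
  by_cases h : ptX φ z.pt ∈ U
  · have h' : z.pt ∈ opX φ U := h
    rw [absv_of_mem f (z := map φ ι z) h, absv_of_mem (fnX φ f) h']
    show z.v (stX φ z.pt (gm U (ptX φ z.pt) h f)) = _
    rw [germ_stX]
  · have h' : z.pt ∉ opX φ U := h
    unfold absv
    rw [dif_neg h', dif_neg (show (map φ ι z).pt ∉ U from h)]

theorem continuous_map : Continuous (map φ ι) := by
  rw [continuous_generateFrom_iff]
  rintro _ ⟨U, f, V, hV, rfl⟩
  have e : map φ ι ⁻¹' {z : An Y ι | z.pt ∈ U ∧ absv U f z ∈ V} =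
      {z : An X (Str.pb φ ι) | z.pt ∈ opX φ U ∧ absv (opX φ U) (fnX φ f) z ∈ V} := by
    ext z
    simp only [Set.mem_preimage, Set.mem_setOf_eq, absv_map]
    exact Iff.rfl
  rw [e]
  exact isOpen_basic _ _ hV

/-- Points of `X^an` are equal if all absolute values are equal. -/
theorem ext_all {κ : Str K X} {z z' : An X κ} (h1 : ∀ U : Op X, z.pt ∈ U ↔ z'.pt ∈ U)
    (h2 : ∀ (U : Op X) (f : Fn X U), absv U f z = absv U f z') : z = z' := by
  obtain ⟨x, v, k1, k2, k3, k4, k5, k6⟩ := z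
  obtain ⟨x', v', k1', k2', k3', k4', k5', k6'⟩ := z'
  have hx : x = x' := by
    have : Inseparable x x' := by
      rw [inseparable_iff_forall_isOpen]
      intro s hs
      exact h1 ⟨s, hs⟩
    exact this.eq
  subst hx
  have hv : v = v' := by
    funext a
    obtain ⟨U, hU, f, rfl⟩ := X.presheaf.exists_germ_eq a
    have := h2 U f
    rw [absv_of_mem f (z := ⟨x, v, k1, k2, k3, k4, k5, k6⟩) hU,
      absv_of_mem f (z := ⟨x, v', k1', k2', k3', k4', k5', k6'⟩) hU] at this
    exact this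
  subst hv
  rfl

section Closed

variable [IsClosedImmersion φ]

theorem ptX_injective : Function.Injective (ptX φ) :=
  (IsClosedImmersion.isClosedEmbedding φ).injective

/-- Functions on open subsets of `X` come locally from `Y`. -/
theorem exists_lift (V : Op X) (f : Fn X V) {x : Pt X} (hx : x ∈ V) :
    ∃ (W : Op Y) (g : Fn Y W), ptX φ x ∈ W ∧ IsAffineOpen W ∧ opX φ W ≤ V ∧
      ∀ z : An X (Str.pb φ ι), z.pt ∈ opX φ W → absv V f z = absv W g (map φ ι z) := by
  obtain ⟨W', hW', hW'e⟩ := (IsClosedImmersion.isClosedEmbedding φ).isInducing.isOpen_iff.1 V.2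
  have hxW' : ptX φ x ∈ W' := by
    have : x ∈ (φ : Pt X → Pt Y) ⁻¹' W' := by
      rw [hW'e]
      exact hx
    exact this
  obtain ⟨_, ⟨W, hWa, rfl⟩, hxW, hWW'⟩ := Y.isBasis_affineOpens.exists_subset_of_mem_open hxW' hW'
  have hle : opX φ W ≤ V := by
    intro y hy
    have : y ∈ (φ : Pt X → Pt Y) ⁻¹' W' := hWW' hy
    rw [hW'e] at this
    exact this
  obtain ⟨g, hg⟩ := φ.app_surjective W hWa (resF hle f)
  refine ⟨W, g, hxW, hWa, hle, fun z hz => ?_⟩
  rw [absv_map]
  have e : fnX φ g = resF hle f := hg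
  rw [e]
  exact (absv_res hle f hz).symm

theorem map_injective : Function.Injective (map φ ι) := by
  intro z z' h
  have hpt : z.pt = z'.pt := ptX_injective (φ := φ) (congrArg An.pt h)
  refine ext_all (fun U => by rw [hpt]) fun U f => ?_
  by_cases hU : z.pt ∈ U
  · obtain ⟨W, g, h1, -, h2, h3⟩ := exists_lift (ι := ι) (φ := φ) U f hU
    have h1' : z'.pt ∈ opX φ W := by
      rw [← hpt]
      exact h1
    rw [h3 z h1, h3 z' h1', h]
  · have hU' : z'.pt ∉ U := by rwa [← hpt]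
    unfold absv
    rw [dif_neg hU, dif_neg hU']

theorem isInducing_map : Topology.IsInducing (map φ ι) := by
  constructor
  refine le_antisymm (continuous_iff_le_induced.1 continuous_map) ?_
  refine le_generateFrom ?_
  rintro _ ⟨U, f, V, hV, rfl⟩
  letI : TopologicalSpace (An X (Str.pb φ ι)) :=
    TopologicalSpace.induced (map φ ι) inferInstance
  show IsOpen {z : An X (Str.pb φ ι) | z.pt ∈ U ∧ absv U f z ∈ V}
  rw [isOpen_iff_mem_nhds]
  rintro z ⟨hz, hzV⟩
  obtain ⟨W, g, h1, -, h2, h3⟩ := exists_lift (ι := ι) (φ := φ) U f hz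
  have hO : IsOpen {y : An Y ι | y.pt ∈ W ∧ absv W g y ∈ V} := isOpen_basic W g hV
  have hO' : IsOpen (map φ ι ⁻¹' {y : An Y ι | y.pt ∈ W ∧ absv W g y ∈ V}) :=
    isOpen_induced hO
  refine Filter.mem_of_superset (hO'.mem_nhds ⟨h1, ?_⟩) ?_
  · rw [← h3 z h1]
    exact hzV
  · rintro z' ⟨k1, k2⟩
    refine ⟨h2 k1, ?_⟩
    show absv U f z' ∈ V
    rw [h3 z' k1]
    exact k2

/-- The points of `Y^an` above points of `X` come from `X^an`. -/
theorem range_map : Set.range (map φ ι) = {y | y.pt ∈ Set.range (ptX φ)} := by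
  ext y
  constructor
  · rintro ⟨z, rfl⟩
    exact ⟨z.pt, rfl⟩
  · obtain ⟨x0, v, k1, k2, k3, k4, k5, k6⟩ := y
    rintro ⟨x, hx⟩
    change ptX φ x = x0 at hx
    subst hx
    have hsurj : Function.Surjective (stX φ x) := φ.stalkMap_surjective x
    have hv : ∀ a b, stX φ x a = stX φ x b → v a = v b := by
      have key : ∀ a b, stX φ x a = stX φ x b → v a ≤ v b := by
        intro a b hab
        have h0 : v (a - b) = 0 := by
          rw [k6]
          intro hu
          have h1 := hu.map (stX φ x)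
          rw [map_sub, hab, sub_self] at h1
          exact not_isUnit_zero h1
        have h1 := k4 (a - b) b
        rw [sub_add_cancel, h0] at h1
        exact h1.trans (max_le (k1 b) le_rfl)
      intro a b hab
      exact le_antisymm (key a b hab) (key b a hab.symm)
    choose s hs using hsurj
    have hvs : ∀ a, v (s (stX φ x a)) = v a := fun a => hv _ _ (hs _)
    refine ⟨⟨x, fun a => v (s a), fun a => k1 _, ?_, ?_, ?_, ?_, ?_⟩, ?_⟩
    · rw [← k2]
      exact hv _ _ (by rw [hs, map_one])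
    · intro a b
      rw [← k3]
      exact hv _ _ (by rw [hs, map_mul, hs, hs])
    · intro a b
      rw [hv (s (a + b)) (s a + s b) (by rw [hs, map_add, hs, hs])]
      exact k4 _ _
    · intro c
      rw [← k5 c]
      refine hv _ _ ?_
      rw [hs, germ_stX]
      rfl
    · intro a
      rw [k6]
      refine not_congr ?_
      constructor
      · intro h
        have := h.map (stX φ x)
        rwa [hs] at this
      · intro h
        rw [← hs a] at h
        exact (isUnit_map_iff (φ.stalkMap x).hom _).1 h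
    · unfold map
      congr 1
      funext a
      exact hvs a

theorem isClosedEmbedding_map : Topology.IsClosedEmbedding (map φ ι) := by
  refine ⟨⟨isInducing_map, map_injective⟩, ?_⟩
  rw [range_map, ← isOpen_compl_iff]
  have hc : IsClosed (Set.range (ptX φ)) := (IsClosedImmersion.isClosedEmbedding φ).isClosed_range
  exact isOpen_opn (ι := ι) (⟨(Set.range (ptX φ))ᶜ, hc.isOpen_compl⟩ : Op Y)

end Closed

end An

end Pool.Agent.TD


end

section

/-!
# Section X: topology of `X^an` and `Trop(X)`, the tropicalization morphism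
-/

open scoped ContDiff Topology
open AlgebraicGeometry CategoryTheory

namespace Pool.Agent.TD

section cut

variable {X Φ X' Φ' : Type} [TopologicalSpace X] [TopologicalSpace X'] {L : LogSpace X Φ}
  {L' : LogSpace X' Φ'}

theorem Mor.smooth (m : Mor L L') {g : X' → ℝ} (hg : L'.Smooth g) :
    L.Smooth (fun x => g (m.toFun x)) := by
  classical
  intro x
  obtain ⟨s, hs, a, ha, he⟩ := hg (m.toFun x)
  refine ⟨s.image m.ix, ?_, fun y => a (fun f => y ⟨m.ix f.1, Finset.mem_image_of_mem m.ix f.2⟩),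
    ?_, ?_⟩
  · intro f' hf'
    obtain ⟨f, hf, rfl⟩ := Finset.mem_image.1 hf'
    exact m.dom_sub f x (hs f hf)
  · exact ha.comp (contDiff_pi.2 fun f => contDiff_apply ℝ ℝ _)
  · have hd : ∀ᶠ w in 𝓝 (m.toFun x), ∀ f ∈ s, w ∈ L'.dom f := by
      rw [Filter.eventually_all_finset]
      exact fun f hf => (L'.isOpen_dom f).mem_nhds (hs f hf)
    filter_upwards [m.cont.continuousAt.eventually he, m.cont.continuousAt.eventually hd] with w h2 h3
    refine Eq.trans h2 ?_
    congr 1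
    funext f
    exact (m.lf_eq f.1 w (h3 f.1 f.2)).symm

/-- Cut-off functions restrict to subspaces. -/
theorem Mor.cutOff (m : Mor L L') (hm : Topology.IsInducing m.toFun) (h : L'.CutOff) :
    L.CutOff := by
  intro A V hA hV hAV
  obtain ⟨V', hV', rfl⟩ := hm.isOpen_iff.1 hV
  obtain ⟨g, hg, h1, C, hC, hCV, h0⟩ := h (m.toFun '' A) V' (hA.image m.cont) hV'
    (Set.image_subset_iff.2 hAV)
  refine ⟨fun x => g (m.toFun x), m.smooth hg, ?_, m.toFun ⁻¹' C, hC.preimage m.cont,
    Set.preimage_mono hCV, fun z hz => h0 _ hz⟩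
  exact (m.cont.tendsto_nhdsSet (Set.mapsTo_image _ _)).eventually h1

end cut

variable {K : Type} [NormedField K] {X Y : Scheme.{0}}

/-- The morphism `X^an → Y^an`. -/
noncomputable def anMor (φ : X ⟶ Y) (ι : Str K Y) : Mor (anLS X (Str.pb φ ι)) (anLS Y ι) where
  toFun := An.map φ ι
  cont := An.continuous_map
  ix := Fns.pb φ
  dom_sub f z h := ⟨h.1, by
    have h2 : An.absv f.1 f.2 (An.map φ ι z) ≠ 0 := h.2
    rw [An.absv_map] at h2
    exact h2⟩
  lf_eq f z _ := by
    show Real.log (An.absv (opX φ f.1) (fnX φ f.2) z) = Real.log (An.absv f.1 f.2 (An.map φ ι z))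
    rw [An.absv_map]

namespace Toric

variable {n : ℕ} {F : Fan n} {ι : Str K Y} (T : Toric F Y ι) (φ : X ⟶ Y)

theorem mem_TropX (z : An X (Str.pb φ ι)) : T.tropX φ z ∈ T.TropX φ := ⟨z, rfl⟩

theorem continuous_tropX : Continuous (T.tropX φ) := T.continuous_trop.comp An.continuous_map

/-- The tropicalization morphism `X^an → Trop(X)`. -/
noncomputable def morX : Mor (anLS X (Str.pb φ ι)) (T.lsX φ) where
  toFun z := ⟨T.tropX φ z, z, rfl⟩
  cont := (T.continuous_tropX φ).subtype_mk _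
  ix m := Fns.pb φ ⟨T.Um m, T.chiU m⟩
  dom_sub m z h := (anMor φ ι).dom_sub _ z (T.tropMor.dom_sub m (An.map φ ι z) h)
  lf_eq m z h := ((anMor φ ι).lf_eq _ z (T.tropMor.dom_sub m (An.map φ ι z) h)).trans
    (T.tropMor.lf_eq m (An.map φ ι z) h)

theorem surjective_morX : Function.Surjective (T.morX φ).toFun := by
  rintro ⟨_, z, rfl⟩
  exact ⟨z, rfl⟩

section closed

variable [IsUltrametricDist K] [IsClosedImmersion φ]

include T

theorem t2X : T2Space (An X (Str.pb φ ι)) := by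
  have := T.t2
  exact (An.isClosedEmbedding_map (φ := φ) (ι := ι)).isEmbedding.t2Space

theorem locallyCompactX : LocallyCompactSpace (An X (Str.pb φ ι)) := by
  have := T.locallyCompact
  exact (An.isClosedEmbedding_map (φ := φ) (ι := ι)).locallyCompactSpace

theorem cutOffX : (anLS X (Str.pb φ ι)).CutOff :=
  (anMor φ ι).cutOff (An.isInducing_map (φ := φ) (ι := ι)) T.cutOff

theorem cutOff_lsX : (T.lsX φ).CutOff :=
  ((tropLS F).incl (T.TropX φ)).cutOff Topology.IsInducing.subtypeVal cutOff_trop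

theorem isCompact_preimage_tropX {C : Set (TropPt F)} (hC : IsCompact C) :
    IsCompact (T.tropX φ ⁻¹' C) :=
  (An.isClosedEmbedding_map (φ := φ) (ι := ι)).isCompact_preimage (T.isCompact_preimage hC)

theorem isClosed_TropX : IsClosed (T.TropX φ) := by
  have h : IsProperMap (T.tropX φ) := isProperMap_iff_isCompact_preimage.2
    ⟨T.continuous_tropX φ, fun {C} hC => T.isCompact_preimage_tropX φ hC⟩
  exact h.isClosedMap.isClosed_range

theorem isClosedEmbedding_val : Topology.IsClosedEmbedding (Subtype.val : T.TropX φ → TropPt F) :=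
  (T.isClosed_TropX φ).isClosedEmbedding_subtypeVal

theorem locallyCompact_TropX : LocallyCompactSpace (T.TropX φ) :=
  (T.isClosedEmbedding_val φ).locallyCompactSpace

theorem exhaustion_TropX : Nonempty (CompactExhaustion (T.TropX φ)) := by
  have := T.locallyCompact_TropX φ
  obtain ⟨E⟩ := exists_exhaustion F
  have h1 : SigmaCompactSpace (TropPt F) := ⟨⟨E, E.isCompact, E.iUnion_eq⟩⟩
  have h2 : SigmaCompactSpace (T.TropX φ) := (T.isClosedEmbedding_val φ).sigmaCompactSpace
  exact ⟨CompactExhaustion.choice _⟩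

theorem isProp_morX : (T.morX φ).IsProp := by
  intro C hC
  have h1 : IsCompact (Subtype.val '' C) := hC.image continuous_subtype_val
  have h2 := T.isCompact_preimage_tropX φ h1
  convert h2 using 1
  ext z
  constructor
  · intro h
    exact ⟨_, h, rfl⟩
  · rintro ⟨b, hb, e⟩
    have : b = (T.morX φ).toFun z := Subtype.ext e
    rw [this] at hb
    exact hb

end closed

end Toric

end Pool.Agent.TD


end

section

/-!
# Section X: the statement layer for `Trop(X)`
-/

open scoped ContDiff Topology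
open AlgebraicGeometry CategoryTheory

namespace Pool.Agent.TD

namespace Toric

variable {K : Type} [NormedField K] {n : ℕ} {F : Fan n} {X Y : Scheme.{0}} {ι : Str K Y}
  (T : Toric F Y ι)

theorem cix_dom (z : An Y ι) {f : Fin n → ℤ} (h : f ∈ perpM (T.minCone z.pt).1) :
    z ∈ (anLS Y ι).dom (T.cix z f) := by
  classical
  have hzU := T.mem_minCone z.pt
  refine ⟨hzU, ?_⟩
  unfold cix
  simp only [dif_pos h]
  exact T.absv_chi_ne_zero h hzU

theorem cix_lf (z : An Y ι) {f : Fin n → ℤ} (h : f ∈ perpM (T.minCone z.pt).1) :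
    ∀ᶠ z' in 𝓝 z, (anLS Y ι).lf (T.cix z f) z' = (anLS Y ι).lf (T.tropMor.ix f) z' := by
  classical
  have hzU := T.mem_minCone z.pt
  filter_upwards [(An.isOpen_opn (T.U (T.minCone z.pt))).mem_nhds hzU] with z' hz'
  show Real.log (An.absv _ (T.cix z f).2 z') =
    Real.log (An.absv (T.Um f) (T.chiU f) z')
  unfold cix
  simp only [dif_pos h]
  rw [T.absv_chiU h hz']

variable (φ : X ⟶ Y)

theorem reps_pbX {p q : ℕ} : Reps (T.morX φ) (T.pbX φ (p := p) (q := q)) := by
  classical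
  intro a ha z
  obtain ⟨s, hs, hd⟩ := ha.1 ((T.morX φ).toFun z)
  have hs' : IsSF s (a ((T.morX φ).toFun z)) := hs
  have hd' : ∀ f ∈ s, f ∈ perpM (T.minCone (An.map φ ι z).pt).1 := fun f hf => hd f hf
  have h1 : ∀ f ∈ s, z ∈ (anLS X (Str.pb φ ι)).dom (Fns.pb φ (T.cix (An.map φ ι z) f)) :=
    fun f hf => (anMor φ ι).dom_sub _ z (T.cix_dom (An.map φ ι z) (hd' f hf))
  have h2 : ∀ f ∈ s, z ∈ (anLS X (Str.pb φ ι)).dom ((T.morX φ).ix f) := fun f hf =>
    (T.morX φ).dom_sub f z (hd f hf)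
  have h3 : ∀ f ∈ s, ∀ᶠ z' in 𝓝 z,
      (anLS X (Str.pb φ ι)).lf (Fns.pb φ (T.cix (An.map φ ι z) f)) z' =
      (anLS X (Str.pb φ ι)).lf ((T.morX φ).ix f) z' := by
    intro f hf
    filter_upwards [(An.continuous_map (φ := φ) (ι := ι)).continuousAt.eventually
      (T.cix_lf (An.map φ ι z) (hd' f hf))] with z' hz'
    have e : ∀ g : Fns Y, (anLS X (Str.pb φ ι)).lf (Fns.pb φ g) z' =
        (anLS Y ι).lf g (An.map φ ι z') := by
      intro g
      show Real.log (An.absv (opX φ g.1) (fnX φ g.2) z') =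
        Real.log (An.absv g.1 g.2 (An.map φ ι z'))
      rw [An.absv_map]
    rw [e, hz']
    exact (e _).symm
  have k1 : (anLS X (Str.pb φ ι)).SFat z (pullR (fun m => Fns.pb φ (T.cix (An.map φ ι z) m))
      (a ((T.morX φ).toFun z))) := by
    refine ⟨s.image _, hs'.pullR, ?_⟩
    intro f hf
    obtain ⟨g, hg, rfl⟩ := Finset.mem_image.1 hf
    exact h1 g hg
  have k2 : (anLS X (Str.pb φ ι)).SFat z (pullR (T.morX φ).ix (a ((T.morX φ).toFun z))) :=
    (T.morX φ).sfat (ha.1 _)
  exact ((anLS X (Str.pb φ ι)).germ_eq_iff k1 k2).1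
    ((anLS X (Str.pb φ ι)).germ_pullR_congr _ (T.morX φ).ix hs' h1 h2 h3 k1 k2)

/-- The final statement from the hypotheses on the fibres. -/
theorem isoX [IsUltrametricDist K] [IsClosedImmersion φ] (h : Comp (T.morX φ)) (p q : ℕ) :
    IsoH (T.lsX φ) (anLS X (Str.pb φ ι)) (T.pbX φ (p := p) (q := q)) ∧
      IsoHc (T.lsX φ) (anLS X (Str.pb φ ι)) (T.pbX φ (p := p) (q := q)) := by
  have := T.t2X φ
  have := T.locallyCompactX φ
  have := T.locallyCompact_TropX φ
  obtain ⟨E⟩ := T.exhaustion_TropX φ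
  obtain ⟨⟨h1, h2⟩, h3, h4⟩ := h.forms E p q
  exact ⟨isoH_of (T.reps_pbX φ) h1 h2, isoHc_of (T.reps_pbX φ) h.prop h3 h4⟩

end Toric

end Pool.Agent.TD


end

section

/-!
# Section X: the rings of the charts `φ⁻¹(U_σ)`
-/

open scoped ContDiff Topology
open AlgebraicGeometry CategoryTheory

namespace Pool.Agent.TD

namespace Toric

variable {K : Type} [NormedField K] {X Y : Scheme.{0}} {n : ℕ} {F : Fan n} {ι : Str K Y}
  (T : Toric F Y ι) (φ : X ⟶ Y)

/-- The open subset `φ⁻¹(U_σ)`. -/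
noncomputable abbrev UX (σ : F.cones) : X.Opens := opX φ (T.U σ)

/-- The character `χ^m` on `φ⁻¹(U_σ)`. -/
noncomputable def chX (σ : F.cones) (m : dualM σ.1) : Γ(X, T.UX φ σ) := fnX φ (T.chi σ m)

theorem chX_zero (σ : F.cones) : T.chX φ σ 0 = 1 := by
  show fnH φ (T.U σ) (T.chi σ 0) = 1
  rw [T.chi_zero, map_one]

theorem chX_add (σ : F.cones) (m m' : dualM σ.1) :
    T.chX φ σ (m + m') = T.chX φ σ m * T.chX φ σ m' := by
  show fnH φ (T.U σ) (T.chi σ (m + m')) = _
  rw [T.chi_add, map_mul]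
  rfl

theorem UX_mono {σ τ : F.cones} (h : τ.1 ⊆ σ.1) : T.UX φ τ ≤ T.UX φ σ :=
  fun _ hx => T.U_mono h hx

theorem chX_res {σ τ : F.cones} (h : τ.1 ⊆ σ.1) (m : dualM σ.1) (m' : dualM τ.1)
    (e : m'.1 = m.1) :
    X.presheaf.map (homOfLE (T.UX_mono φ h)).op (T.chX φ σ m) = T.chX φ τ m' := by
  have h1 := T.chi_res σ τ (T.U_mono h) m m' h e
  have h2 := congrArg (fun f => f (T.chi σ m)) (congrArg CommRingCat.Hom.hom
    (φ.naturality (homOfLE (T.U_mono h)).op))
  show X.presheaf.map (homOfLE (T.UX_mono φ h)).op (φ.app (T.U σ) (T.chi σ m)) =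
    φ.app (T.U τ) (T.chi τ m')
  rw [← h1]
  exact h2.symm

theorem fnX_stK (U : Y.Opens) (c : K) : fnX φ (stK ι U c) = stK (Str.pb φ ι) (opX φ U) c := by
  have h2 := congrArg (fun f => f (ι c)) (congrArg CommRingCat.Hom.hom
    (φ.naturality (homOfLE (le_top : U ≤ ⊤)).op))
  exact h2

theorem mem_UX_iff {σ : F.cones} {z : An X (Str.pb φ ι)} :
    z.pt ∈ T.UX φ σ ↔ T.tropX φ z ∈ TropPt.opn σ := T.mem_U_iff

theorem tropX_cone (z : An X (Str.pb φ ι)) : (T.tropX φ z).cone = T.minCone (ptX φ z.pt) := rfl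

/-- Compatibility of the tropicalization map with the characters. -/
theorem absv_tropX {z : An X (Str.pb φ ι)} {σ : F.cones} (hσ : z.pt ∈ T.UX φ σ) (m : dualM σ.1) :
    TropPt.absv m.1 (T.tropX φ z) = An.absv (T.UX φ σ) (T.chX φ σ m) z := by
  have h := T.absv_trop (z := An.map φ ι z) hσ m
  rw [An.absv_map] at h
  exact h

theorem isUnit_chX (σ : F.cones) {m : dualM σ.1} (hm : m.1 ∈ perpM σ.1) :
    IsUnit (T.chX φ σ m) := by
  have hm' : -m.1 ∈ dualM σ.1 := TropPt.perp_dual ((perpM σ.1).neg_mem hm)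
  refine IsUnit.of_mul_eq_one (T.chX φ σ ⟨-m.1, hm'⟩) ?_
  rw [← T.chX_add, ← T.chX_zero φ σ]
  congr 1
  apply Subtype.ext
  show m.1 + -m.1 = 0
  exact add_neg_cancel _

section closed

variable [IsClosedImmersion φ]

theorem affine_UX (σ : F.cones) : IsAffineOpen (T.UX φ σ) := (T.affine σ).preimage φ

theorem exists_sum (σ : F.cones) (f : Γ(X, T.UX φ σ)) : ∃ a : dualM σ.1 →₀ K,
    (a.sum fun m c => stK (Str.pb φ ι) (T.UX φ σ) c * T.chX φ σ m) = f := by
  obtain ⟨g, rfl⟩ := φ.app_surjective (T.U σ) (T.affine σ) f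
  obtain ⟨a, rfl⟩ := (T.basis σ).2 g
  refine ⟨a, ?_⟩
  show _ = fnH φ (T.U σ) (a.sum fun m c => stK ι (T.U σ) c * T.chi σ m)
  rw [map_finsuppSum]
  refine Finset.sum_congr rfl fun m _ => ?_
  show _ = fnH φ (T.U σ) (stK ι (T.U σ) (a m) * T.chi σ m)
  rw [map_mul]
  show _ = fnX φ (stK ι (T.U σ) (a m)) * T.chX φ σ m
  rw [fnX_stK]

theorem finiteTypeX (σ : F.cones) : (stK (Str.pb φ ι) (T.UX φ σ)).FiniteType := by
  have h1 : (stK ι (T.U σ)).FiniteType := by
    letI : Algebra K Γ(Y, T.U σ) := (stK ι (T.U σ)).toAlgebra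
    have : Algebra.FiniteType K (AddMonoidAlgebra K (dualM σ.1)) := finiteType σ
    let e : AddMonoidAlgebra K (dualM σ.1) →ₐ[K] Γ(Y, T.U σ) :=
      { (T.ringIso σ).toRingHom with
        commutes' := by
          intro c
          show T.evHom σ (algebraMap K _ c) = _
          have e : algebraMap K (AddMonoidAlgebra K (dualM σ.1)) c = AddMonoidAlgebra.single 0 c :=
            rfl
          rw [e, evHom_single, T.chi_zero, mul_one]
          rfl }
    exact Algebra.FiniteType.of_surjective e (T.ringIso σ).surjective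
  have h2 : (fnH φ (T.U σ)).FiniteType :=
    RingHom.FiniteType.of_surjective _ (φ.app_surjective (T.U σ) (T.affine σ))
  have h3 := h2.comp h1
  convert h3 using 1
  ext c
  exact (fnX_stK φ (T.U σ) c).symm

end closed

section generic

variable [IsIntegral X]

/-- The cone of the generic point of `X`. -/
noncomputable def tau : F.cones := T.minCone (ptX φ (genericPoint X))

theorem gen_mem (U : X.Opens) (h : (U : Set X).Nonempty) : genericPoint X ∈ U :=
  (genericPoint_spec X).mem_open_set_iff U.2 |>.2 (by simpa using h)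

theorem tau_le (z : An X (Str.pb φ ι)) : (T.tau φ).1 ⊆ (T.tropX φ z).cone.1 := by
  refine T.minCone_le ?_
  have h : z.pt ∈ T.UX φ (T.tropX φ z).cone := (T.mem_UX_iff φ).2 (Set.Subset.refl _)
  exact gen_mem (T.UX φ (T.tropX φ z).cone) ⟨z.pt, h⟩

theorem tau_le' {b : TropPt F} (hb : b ∈ T.TropX φ) : (T.tau φ).1 ⊆ b.cone.1 := by
  obtain ⟨z, rfl⟩ := hb
  exact T.tau_le φ z

/-- `χ^m` is not zero on `X` if and only if `m` vanishes on the cone of the generic point. -/
theorem chX_ne_zero_iff {σ : F.cones} (h : (T.tau φ).1 ⊆ σ.1) (m : dualM σ.1) :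
    T.chX φ σ m ≠ 0 ↔ m.1 ∈ perpM (T.tau φ).1 := by
  have hη : genericPoint X ∈ T.UX φ σ := T.mem_U_iff.2 h
  have h1 : T.chX φ σ m ≠ 0 ↔ genericPoint X ∈ X.basicOpen (T.chX φ σ m) := by
    rw [Ne, ← AlgebraicGeometry.basicOpen_eq_bot_iff]
    constructor
    · intro hb
      refine gen_mem _ ?_
      rw [← TopologicalSpace.Opens.ne_bot_iff_nonempty]
      exact hb
    · intro hb e
      rw [e] at hb
      exact hb
  rw [h1]
  have h2 : X.basicOpen (T.chX φ σ m) = opX φ (Y.basicOpen (T.chi σ m)) :=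
    (Scheme.preimage_basicOpen φ (T.chi σ m)).symm
  rw [h2, T.basicOpen_chi]
  show ptX φ (genericPoint X) ∈ T.U (F.faceC σ m) ↔ _
  rw [T.mem_U_iff]
  constructor
  · intro k x hx
    exact (k hx).2
  · intro k x hx
    exact ⟨h hx, k x hx⟩

theorem isDomain_UX {σ : F.cones} (h : (T.tau φ).1 ⊆ σ.1) : IsDomain Γ(X, T.UX φ σ) := by
  have hη : genericPoint X ∈ T.UX φ σ := T.mem_U_iff.2 h
  haveI : Nonempty (T.UX φ σ) := ⟨⟨_, hη⟩⟩
  infer_instance

theorem resX_injective {σ τ : F.cones} (h : (T.tau φ).1 ⊆ τ.1) (h' : τ.1 ⊆ σ.1) :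
    Function.Injective (X.presheaf.map (homOfLE (T.UX_mono φ h')).op) := by
  have hη : genericPoint X ∈ T.UX φ τ := T.mem_U_iff.2 h
  haveI : Nonempty (T.UX φ τ) := ⟨⟨_, hη⟩⟩
  exact AlgebraicGeometry.map_injective_of_isIntegral X (homOfLE (T.UX_mono φ h'))

end generic

end Toric

end Pool.Agent.TD


end

section

/-!
# X4: injectivity of the pull back of closed forms of type `(p,0)`
-/

open scoped ContDiff Topology

namespace Pool.Agent.TD

namespace X3

variable {X Φ X' Φ' : Type} [TopologicalSpace X] [TopologicalSpace X'] {L : LogSpace X Φ}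
  {L' : LogSpace X' Φ'}

/-- Constant germs are germs of constant forms. -/
theorem Lp_cst (L : LogSpace X Φ) {z : X} {p : ℕ} {c : L.Stalk p 0 z} (hc : c ∈ L.Lp p z) :
    ∃ θ : Raw Φ p 0, IsCst θ ∧ ∃ h : L.SFat z θ, c = L.germ θ h := by
  classical
  unfold LogSpace.Lp at hc
  induction hc using Submodule.span_induction with
  | mem x hx =>
    obtain ⟨f, hf, rfl⟩ := hx
    have h1 := L.symS_cstM (Finset.univ.image f) p (fun i => L.dlS (f i) (hf i)) (fun i =>
      ⟨dlg (f i), isCst_dlg (f i), isSF_dlg (Finset.mem_image_of_mem f (Finset.mem_univ i)),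
        ⟨{f i}, isSF_dlg (Finset.mem_singleton_self (f i)), by simpa using hf i⟩, rfl⟩)
    obtain ⟨θ, h2, -, h3, h4⟩ := h1
    exact ⟨θ, h2, h3, h4⟩
  | zero => exact ⟨0, isCst_zero, LogSpace.SFat.zero L, L.germ_zero.symm⟩
  | add x y _ _ hx hy =>
    obtain ⟨θ, h1, h2, rfl⟩ := hx
    obtain ⟨η, k1, k2, rfl⟩ := hy
    exact ⟨θ + η, h1.add k1, h2.add k2, (L.germ_add h2 k2).symm⟩
  | smul c x _ hx =>
    obtain ⟨θ, h1, h2, rfl⟩ := hx
    exact ⟨c • θ, h1.smul c, h2.smul c, (L.germ_smul c h2).symm⟩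

/-- Injectivity of the pull back of closed forms of type `(p,0)` along a proper surjective
morphism. -/
theorem inj_of_descend (m : Mor L' L) {z : X} (hst : L.StarAt z)
    (hsur : ∃ V ∈ 𝓝 z, V ⊆ Set.range m.toFun) (hc : IsCompact (m.toFun ⁻¹' {z}))
    (hp : ∀ W : Set X', IsOpen W → m.toFun ⁻¹' {z} ⊆ W → ∃ V ∈ 𝓝 z, m.toFun ⁻¹' V ⊆ W)
    (hF : ∀ z', m.toFun z' = z → L'.FinConv z') {p : ℕ} (a : L.Stalk p 0 z)
    (ha : L.ddS p 0 z a = 0) (h : ∀ z' (e : m.toFun z' = z), m.pullY e p 0 a = 0) : a = 0 := by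
  obtain ⟨θ, hθ, hs, rfl⟩ := Lp_cst L (L.poincare0 hst a ha)
  rw [L.germ_eq_zero]
  refine m.descend hsur hc hp hF hθ hs fun z' hz' => ?_
  have h1 := h z' hz'
  rw [Mor.pullY_germ, L'.germ_eq_zero] at h1
  exact h1

end X3

end Pool.Agent.TD


end
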