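import Mathlib
import Pool.Agent.DolbM.C18
import Pool.Agent.DolbM.C19
import Pool.Agent.DolbM.C20

/-! Parts: TD.X2.Coef, TD.X2.Fac, TD.X2.Ok -/

section

/-! Charts of tropicalizations near generic points (module TD_X2_COEF). -/

open scoped Topology NNReal

namespace Pool.Agent.TD.X2

/-- The characters of the coordinates near a point which is generic for the basis `B`. -/
def fu {N I E : Type} [AddCommGroup N] {P : AddSubmonoid N} (mt : I → P) (ch : E → P) (B : Set E)
    (e0 : E) : I ⊕ (B \ {e0} : Set E) → P := Sum.elim mt fun e => ch e.1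

variable {K A A' N I E : Type} [NormedField K] [CommRing A] [Algebra K A] [CommRing A']
  [Algebra K A'] [AddCommGroup N] {P : AddSubmonoid N} {r : A →ₐ[K] A'} {χ : P → A} {χ' : N → A'}
  [Fintype I] [Fintype E] {w : P → ℝ} {mt : I → P} {ch : E → P} {M : Matroid E} {e0 : E}
  {U : Set (P → ℝ)} {δ : ℝ}

/-- All characters are nonzero if the coordinates `t_i` are nonzero. -/
theorem CChart.v_ne (hX : CChart K χ w mt ch M e0 U δ) {z : Ber K A} (hz : tr χ z ∈ U)
    (ht : ∀ i, z.v (χ (mt i)) ≠ 0) (m : P) : z.v (χ m) ≠ 0 := by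
  obtain ⟨α, n, d, h⟩ := hX.aff m
  rw [h z hz]
  exact mul_ne_zero (mul_ne_zero (Real.exp_ne_zero _)
    (Finset.prod_ne_zero_iff.2 fun i _ => pow_ne_zero _ (ht i))) (Real.exp_ne_zero _)

/-- The points are determined by the coordinates. -/
theorem CChart.ext (hX : CChart K χ w mt ch M e0 U δ) {z z' : Ber K A} (hz : tr χ z ∈ U)
    (hz' : tr χ z' ∈ U) (ht : ∀ i, z.v (χ (mt i)) = z'.v (χ (mt i)))
    (hy : ∀ e, ye χ w ch z e = ye χ w ch z' e) : tr χ z = tr χ z' := by
  funext m
  obtain ⟨α, n, d, h⟩ := hX.aff m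
  show z.v (χ m) = z'.v (χ m)
  rw [h z hz, h z' hz']
  simp only [ht, hy]

/-- Additive maps extend from `P` to the group `N` generated by `P`. -/
theorem exists_extend {N G : Type} [AddCommGroup N] [AddCommGroup G] {P : AddSubmonoid N}
    (gen : ∀ m : N, ∃ a b : P, m = (a : N) - b) (h : P → G)
    (hadd : ∀ m m', h (m + m') = h m + h m') : ∃ g : N →+ G, ∀ m : P, g m = h m := by
  choose a b hab using gen
  have key : ∀ p q p' q' : P, (p : N) - q = p' - q' → h p - h q = h p' - h q' := by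
    intro p q p' q' e
    have h1 : p + q' = p' + q := by
      apply Subtype.ext
      show (p : N) + q' = p' + q
      have h2 : (p : N) = p' - q' + q := by rw [← e]; abel
      rw [h2]; abel
    have h2 := congrArg h h1
    rw [hadd, hadd] at h2
    have h3 : h p = h p' + h q - h q' := by rw [← h2]; abel
    rw [h3]; abel
  refine ⟨AddMonoidHom.mk' (fun m => h (a m) - h (b m)) ?_, ?_⟩
  · intro m m'
    have h1 := key (a (m + m')) (b (m + m')) (a m + a m') (b m + b m') (by
      rw [← hab (m + m')]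
      show m + m' = ((a m : N) + a m') - (b m + b m')
      have h2 := hab m
      have h3 := hab m'
      calc m + m' = ((a m : N) - b m) + (a m' - b m') := by rw [← h2, ← h3]
        _ = _ := by abel)
    show h (a (m + m')) - h (b (m + m')) = (h (a m) - h (b m)) + (h (a m') - h (b m'))
    rw [h1, hadd, hadd]
    abel
  · intro m
    show h (a m) - h (b m) = h m
    have h1 := key (a m) (b m) (m + b m) (b m) (by
      rw [← hab (m : N)]
      show (m : N) = (m : N) + b m - b m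
      abel)
    rw [h1, hadd]
    abel

section

variable {B : Set E} [Fintype (B \ {e0} : Set E)]

/-- The sum over `E` of a function factoring through `B` as a sum over `B` minus `e0`. -/
theorem sum_fiber [DecidableEq E] (n : E → ℤ) (β : E → E) (hβ : ∀ e, β e ∈ B) (y : E → ℝ) (hy : y e0 = 0) :
    ∑ e, (n e : ℝ) * y (β e) =
      ∑ j : (B \ {e0} : Set E), (((∑ e with β e = j.1, n e : ℤ)) : ℝ) * y j.1 := by
  classical
  have h1 : ∑ e, (n e : ℝ) * y (β e) =
      ∑ e with β e ∈ (B \ {e0} : Set E), (n e : ℝ) * y (β e) := by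
    rw [Finset.sum_filter]
    refine Finset.sum_congr rfl fun e _ => ?_
    split_ifs with h
    · rfl
    · have h2 : β e = e0 := by
        by_contra hc
        exact h ⟨hβ e, hc⟩
      rw [h2, hy, mul_zero]
  rw [h1]
  have h3 : ∀ j : (B \ {e0} : Set E), (((∑ e with β e = j.1, n e : ℤ)) : ℝ) * y j.1 =
      ∑ e with β e = j.1, (n e : ℝ) * y (β e) := by
    intro j
    rw [Int.cast_sum, Finset.sum_mul]
    refine Finset.sum_congr rfl fun e he => ?_
    rw [(Finset.mem_filter.1 he).2]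
  simp only [h3]
  rw [← Finset.sum_biUnion]
  · refine Finset.sum_congr ?_ fun _ _ => rfl
    ext e
    simp only [Finset.mem_filter, Finset.mem_univ, true_and, Finset.mem_biUnion]
    constructor
    · intro h
      exact ⟨⟨β e, h⟩, rfl⟩
    · rintro ⟨j, hj⟩
      rw [hj]
      exact j.2
  · intro j _ j' _ hjj
    rw [Function.onFun, Finset.disjoint_left]
    intro e he he'
    apply hjj
    apply Subtype.ext
    rw [← (Finset.mem_filter.1 he).2, (Finset.mem_filter.1 he').2]

end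

/-- Near a generic point the logarithms of the characters are linear functions of the logarithms
of the coordinates `fu`. -/
theorem CChart.exists_coef (hC : Chars K P r χ χ') (hX : CChart K χ w mt ch M e0 U δ)
    {B : Set E} [Fintype (B \ {e0} : Set E)] (hB : M.IsBase B) (he0 : e0 ∈ B) {z0 : Ber K A}
    (hz0 : tr χ z0 ∈ U) (ht0 : ∀ i, z0.v (χ (mt i)) ≠ 0) (ht1 : ∀ i, z0.v (χ (mt i)) < δ)
    (hy : ∀ e, |ye χ w ch z0 e| < δ) (hinj : Set.InjOn (ye χ w ch z0) B) :
    ∃ (coef : N →+ (I ⊕ (B \ {e0} : Set E) → ℤ)) (b : N →+ ℝ) (η : ℝ), 0 < η ∧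
      (∀ m : P, z0.v (χ m) = Real.exp (b m)) ∧
      (∀ j, coef (fu mt ch B e0 j) j = 1) ∧ (∀ i j, i ≠ j → coef (fu mt ch B e0 i) j = 0) ∧
      (∀ v : I ⊕ (B \ {e0} : Set E) → ℝ, (∀ j, |v j| < η) → ∃ z : Ber K A, tr χ z ∈ U ∧
        ∀ m : P, z.v (χ m) = Real.exp (b m + ∑ j, (coef m j : ℝ) * v j)) ∧
      ∀ z : Ber K A, tr χ z ∈ U → (∀ i, z.v (χ (mt i)) ≠ 0) →
        (∀ j, |Real.log (z.v (χ (fu mt ch B e0 j))) - b (fu mt ch B e0 j)| < η) →
        (∀ e, |ye χ w ch z e - ye χ w ch z0 e| < η) → ∀ m : P, z.v (χ m) =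
          Real.exp (b m + ∑ j, (coef m j : ℝ) *
            (Real.log (z.v (χ (fu mt ch B e0 j))) - b (fu mt ch B e0 j))) := by
  classical
  obtain ⟨β, hβB, hββ, d1, hd1, hloc⟩ :=
    BergM.locally_linear hX.ground hX.loopless (hX.berg z0 hz0) hB hinj
  obtain ⟨b, hb⟩ := hC.exists_log z0 (hX.v_ne hz0 ht0)
  choose α n d haff using hX.aff
  -- the coordinate of `e0` is zero
  have hw0 : w 0 = 1 := by
    obtain ⟨z, hz⟩ := hX.hw
    rw [← hz]
    exact hC.tr_zero z
  have hye0 : ∀ z : Ber K A, ye χ w ch z e0 = 0 := by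
    intro z
    have h1 : z.v (χ 0) = 1 := hC.tr_zero z
    rw [ye, hX.ch0, h1, hw0, sub_self]
  have hw : ∀ e, w (ch e) ≠ 0 := hX.wch
  -- the logarithmic form of the affine functions
  have hlog : ∀ z : Ber K A, tr χ z ∈ U → (∀ i, z.v (χ (mt i)) ≠ 0) → ∀ m : P,
      Real.log (z.v (χ m)) = d m + ∑ i, (α m i : ℝ) * Real.log (z.v (χ (mt i))) +
        ∑ e, (n m e : ℝ) * ye χ w ch z e := by
    intro z hz ht m
    rw [haff m z hz, Real.log_mul (mul_ne_zero (Real.exp_ne_zero _)
      (Finset.prod_ne_zero_iff.2 fun i _ => pow_ne_zero _ (ht i))) (Real.exp_ne_zero _),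
      Real.log_mul (Real.exp_ne_zero _)
      (Finset.prod_ne_zero_iff.2 fun i _ => pow_ne_zero _ (ht i)), Real.log_exp, Real.log_exp,
      Real.log_prod fun i _ => pow_ne_zero _ (ht i)]
    simp only [Real.log_pow]
  set y0 := ye χ w ch z0 with hy0
  have hb0 : BergM M y0 := hX.berg z0 hz0
  have hy0β : ∀ e, y0 e = y0 (β e) := (hloc y0 fun e => by simpa using hd1).1 hb0
  set cP : P → (I ⊕ (B \ {e0} : Set E)) → ℤ :=
    fun m => Sum.elim (fun i => (α m i : ℤ)) (fun j => ∑ e with β e = j.1, n m e) with hcP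
  -- the coordinates
  set Δ : Ber K A → (I ⊕ (B \ {e0} : Set E)) → ℝ :=
    fun z j => Real.log (z.v (χ (fu mt ch B e0 j))) - b (fu mt ch B e0 j) with hΔ
  have hb' : ∀ m : P, b m = Real.log (z0.v (χ m)) := fun m => by rw [hb m, Real.log_exp]
  have hΔl : ∀ z i, Δ z (Sum.inl i) = Real.log (z.v (χ (mt i))) - Real.log (z0.v (χ (mt i))) := by
    intro z i
    simp only [hΔ, fu, Sum.elim_inl]
    rw [hb']
  have hΔr : ∀ z (j : (B \ {e0} : Set E)), Δ z (Sum.inr j) = ye χ w ch z j.1 - y0 j.1 := by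
    intro z j
    simp only [hΔ, fu, Sum.elim_inr]
    rw [hb', hy0, ye, ye]
    ring
  have key : ∀ z : Ber K A, tr χ z ∈ U → (∀ i, z.v (χ (mt i)) ≠ 0) →
      (∀ e, |ye χ w ch z e - y0 e| < d1) → ∀ m : P,
      z.v (χ m) = Real.exp (b m + ∑ j, (cP m j : ℝ) * Δ z j) := by
    intro z hz ht hzy m
    have hβz : ∀ e, ye χ w ch z e = ye χ w ch z (β e) := (hloc _ hzy).1 (hX.berg z hz)
    have hpos : 0 < z.v (χ m) := lt_of_le_of_ne (z.nonneg _) (hX.v_ne hz ht m).symm
    rw [← Real.exp_log hpos]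
    congr 1
    have h1 := hlog z hz ht m
    have h2 := hlog z0 hz0 ht0 m
    have h3 : ∑ e, (n m e : ℝ) * ye χ w ch z e =
        ∑ j : (B \ {e0} : Set E), (((∑ e with β e = j.1, n m e : ℤ)) : ℝ) * ye χ w ch z j.1 := by
      rw [← sum_fiber (n m) β hβB _ (hye0 z)]
      exact Finset.sum_congr rfl fun e _ => by rw [← hβz e]
    have h4 : ∑ e, (n m e : ℝ) * ye χ w ch z0 e =
        ∑ j : (B \ {e0} : Set E), (((∑ e with β e = j.1, n m e : ℤ)) : ℝ) * y0 j.1 := by
      rw [← sum_fiber (n m) β hβB _ (hye0 z0)]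
      exact Finset.sum_congr rfl fun e _ => by rw [← hy0, ← hy0β e]
    rw [hb' m, h1, h2, h3, h4, Fintype.sum_sum_type]
    simp only [hΔl, hΔr, hcP, Sum.elim_inl, Sum.elim_inr, mul_sub, Finset.sum_sub_distrib,
      Int.cast_natCast]
    ring
  -- the choice of eta
  obtain ⟨η, hη0, hη1, hη2, hη3⟩ : ∃ η : ℝ, 0 < η ∧ η ≤ d1 ∧
      (∀ i, z0.v (χ (mt i)) * Real.exp η < δ) ∧ ∀ e, |y0 e| + η < δ := by
    have e1 : ∀ᶠ η in 𝓝 (0 : ℝ), ∀ i, z0.v (χ (mt i)) * Real.exp η < δ := by
      rw [Filter.eventually_all]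
      intro i
      have hc : Continuous fun η : ℝ => z0.v (χ (mt i)) * Real.exp η := by fun_prop
      exact hc.continuousAt.eventually_lt continuousAt_const (by simpa using ht1 i)
    have e2 : ∀ᶠ η in 𝓝 (0 : ℝ), ∀ e, |y0 e| + η < δ := by
      rw [Filter.eventually_all]
      intro e
      have hc : Continuous fun η : ℝ => |y0 e| + η := by fun_prop
      exact hc.continuousAt.eventually_lt continuousAt_const (by simpa using hy e)
    have e3 : ∀ᶠ η in 𝓝 (0 : ℝ), η ≤ d1 := (eventually_lt_nhds hd1).mono fun _ h => h.le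
    obtain ⟨η, h, h0⟩ := (((e1.and (e2.and e3)).filter_mono
      (nhdsWithin_le_nhds (s := Set.Ioi 0))).and self_mem_nhdsWithin).exists
    exact ⟨η, h0, h.2.2, h.1, h.2.1⟩
  -- the points near `z0`
  have near : ∀ v : I ⊕ (B \ {e0} : Set E) → ℝ, (∀ j, |v j| < η) → ∃ z : Ber K A, tr χ z ∈ U ∧
      (∀ m : P, z.v (χ m) = Real.exp (b m + ∑ j, (cP m j : ℝ) * v j)) ∧
      ∀ j, z.v (χ (fu mt ch B e0 j)) = Real.exp (b (fu mt ch B e0 j) + v j) := by
    intro v hv
    set vx : E → ℝ := fun e => if h : e ∈ (B \ {e0} : Set E) then v (Sum.inr ⟨e, h⟩) else 0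
      with hvx
    have hvx0 : vx e0 = 0 := by
      rw [hvx]
      exact dif_neg fun h => h.2 rfl
    have hvxj : ∀ j : (B \ {e0} : Set E), vx j.1 = v (Sum.inr j) := by
      intro j
      rw [hvx]
      exact dif_pos j.2
    have hvxb : ∀ e, |vx e| < η := by
      intro e
      by_cases h : e ∈ (B \ {e0} : Set E)
      · have h1 := hvxj ⟨e, h⟩
        simp only at h1
        rw [h1]
        exact hv _
      · have h1 : vx e = 0 := dif_neg h
        rw [h1, abs_zero]
        exact hη0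
    set yv : E → ℝ := fun e => y0 e + vx (β e) with hyv
    have hyvd : ∀ e, |yv e - y0 e| < η := fun e => by
      have h1 : yv e - y0 e = vx (β e) := by rw [hyv]; ring
      rw [h1]
      exact hvxb _
    have hberg : BergM M yv := by
      refine (hloc yv fun e => (hyvd e).trans_le hη1).2 fun e => ?_
      show y0 e + vx (β e) = y0 (β e) + vx (β (β e))
      rw [hββ (β e) (hβB e), ← hy0β e]
    have hyv0 : yv e0 = 0 := by
      show y0 e0 + vx (β e0) = 0
      rw [hββ e0 he0, hvx0, hy0, hye0 z0, add_zero]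
    obtain ⟨z, hzU, hzt, hzy⟩ := hX.ex
      (fun i => ⟨z0.v (χ (mt i)) * Real.exp (v (Sum.inl i)),
        mul_nonneg (z0.nonneg _) (Real.exp_pos _).le⟩) yv
      (fun i => by
        refine lt_of_le_of_lt ?_ (hη2 i)
        exact mul_le_mul_of_nonneg_left
          (Real.exp_le_exp.2 (le_of_lt (lt_of_le_of_lt (le_abs_self _) (hv _)))) (z0.nonneg _))
      (fun e => by
        have h1 : |yv e| ≤ |y0 e| + |vx (β e)| := abs_add_le _ _
        exact lt_of_le_of_lt h1 (lt_trans (add_lt_add_right (hvxb _) _) (hη3 e)))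
      hyv0 hberg
    have hzt' : ∀ i, z.v (χ (mt i)) = z0.v (χ (mt i)) * Real.exp (v (Sum.inl i)) := hzt
    have hzne : ∀ i, z.v (χ (mt i)) ≠ 0 := fun i => by
      rw [hzt' i]
      exact mul_ne_zero (ht0 i) (Real.exp_ne_zero _)
    have hD : ∀ j, Δ z j = v j := by
      rintro (i | j)
      · rw [hΔl, hzt' i, Real.log_mul (ht0 i) (Real.exp_ne_zero _), Real.log_exp]
        ring
      · rw [hΔr, hzy]
        show y0 j.1 + vx (β j.1) - y0 j.1 = _
        rw [hββ j.1 j.2.1, hvxj j]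
        ring
    refine ⟨z, hzU, fun m => ?_, fun j => ?_⟩
    · rw [key z hzU hzne (fun e => by rw [hzy]; exact (hyvd e).trans_le hη1) m]
      simp only [hD]
    · have hpos : 0 < z.v (χ (fu mt ch B e0 j)) :=
        lt_of_le_of_ne (z.nonneg _) (hX.v_ne hzU hzne _).symm
      rw [← Real.exp_log hpos]
      congr 1
      rw [← hD j]
      simp only [hΔ]
      ring
  -- one coordinate
  have one : ∀ j0, ∃ z : Ber K A, (∀ m : P, z.v (χ m) = Real.exp (b m + (cP m j0 : ℝ) * (η / 2)))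
      ∧ ∀ j, z.v (χ (fu mt ch B e0 j)) = Real.exp (b (fu mt ch B e0 j) +
        if j = j0 then η / 2 else 0) := by
    intro j0
    obtain ⟨z, -, h1, h2⟩ := near (fun j => if j = j0 then η / 2 else 0) (fun j => by
      split_ifs
      · rw [abs_of_pos (by positivity)]
        linarith
      · simpa using hη0)
    refine ⟨z, fun m => ?_, h2⟩
    rw [h1 m]
    simp
  have hη2' : η / 2 ≠ 0 := by positivity
  have cadd : ∀ m m' : P, cP (m + m') = cP m + cP m' := by
    intro m m'
    funext j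
    obtain ⟨z, h1, -⟩ := one j
    have h2 : z.v (χ (m + m')) = z.v (χ m) * z.v (χ m') := hC.tr_add z m m'
    rw [h1, h1, h1, ← Real.exp_add] at h2
    have h3 := Real.exp_injective h2
    have h4 : b ((m + m' : P) : N) = b m + b m' := by
      rw [← map_add]
      rfl
    have h5 : (cP (m + m') j : ℝ) * (η / 2) = (cP m j + cP m' j) * (η / 2) := by
      rw [h4] at h3
      linarith
    have h6 := mul_right_cancel₀ hη2' h5
    show cP (m + m') j = cP m j + cP m' j
    exact_mod_cast h6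
  obtain ⟨coef, hcoef⟩ := exists_extend hC.gen cP cadd
  refine ⟨coef, b, η, hη0, hb, ?_, ?_, ?_, ?_⟩
  · intro j
    rw [hcoef]
    obtain ⟨z, h1, h2⟩ := one j
    have h3 := h2 j
    rw [h1, if_pos rfl] at h3
    have h4 := Real.exp_injective h3
    have h5 : (cP (fu mt ch B e0 j) j : ℝ) * (η / 2) = 1 * (η / 2) := by linarith
    exact_mod_cast mul_right_cancel₀ hη2' h5
  · intro i j hij
    rw [hcoef]
    obtain ⟨z, h1, h2⟩ := one j
    have h3 := h2 i
    rw [h1, if_neg hij] at h3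
    have h4 := Real.exp_injective h3
    have h5 : (cP (fu mt ch B e0 i) j : ℝ) * (η / 2) = 0 * (η / 2) := by linarith
    exact_mod_cast mul_right_cancel₀ hη2' h5
  · intro v hv
    obtain ⟨z, hz, h1, -⟩ := near v hv
    refine ⟨z, hz, fun m => ?_⟩
    rw [h1 m, hcoef]
  · intro z hz ht _ hzy m
    rw [hcoef]
    exact key z hz ht (fun e => (hzy e).trans_le hη1) m

end Pool.Agent.TD.X2


end

section

/-! Generic points of charts are facets (module TD_X2_FAC). -/

open scoped Topology NNReal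

namespace Pool.Agent.TD.X2

variable {K A A' N I E : Type} [NormedField K] [CommRing A] [Algebra K A] [CommRing A']
  [Algebra K A'] [AddCommGroup N] {P : AddSubmonoid N} {r : A →ₐ[K] A'} {χ : P → A} {χ' : N → A'}
  [Fintype I] [Fintype E] {w : P → ℝ} {mt : I → P} {ch : E → P} {M : Matroid E} {e0 : E}
  {U : Set (P → ℝ)} {δ : ℝ}

/-- The linear functions of the logarithms of the coordinates. -/
noncomputable def clin {σ : Type} [Fintype σ] (coef : N →+ (σ → ℤ)) : (σ → ℝ) →ₗ[ℝ] (N →+ ℝ) where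
  toFun v :=
    { toFun := fun m => ∑ j, (coef m j : ℝ) * v j
      map_zero' := by simp
      map_add' := by
        intro m m'
        simp [add_mul, Finset.sum_add_distrib] }
  map_add' v v' := by
    ext m
    show ∑ j, (coef m j : ℝ) * (v j + v' j) = ∑ j, (coef m j : ℝ) * v j + ∑ j, (coef m j : ℝ) * v' j
    rw [← Finset.sum_add_distrib]
    exact Finset.sum_congr rfl fun j _ => by ring
  map_smul' c v := by
    ext m
    show ∑ j, (coef m j : ℝ) * (c * v j) = c * ∑ j, (coef m j : ℝ) * v j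
    rw [Finset.mul_sum]
    exact Finset.sum_congr rfl fun j _ => by ring

theorem clin_apply {σ : Type} [Fintype σ] (coef : N →+ (σ → ℤ)) (v : σ → ℝ) (m : N) :
    clin coef v m = ∑ j, (coef m j : ℝ) * v j := rfl

/-- Generic points of a chart give facets. -/
theorem CChart.facet (hC : Chars K P r χ χ') (hX : CChart K χ w mt ch M e0 U δ)
    (hW : Wt K χ χ') {B : Set E} [Fintype (B \ {e0} : Set E)] (hB : M.IsBase B) (he0 : e0 ∈ B)
    {z0 : Ber K A} (hz0 : tr χ z0 ∈ U) (ht0 : ∀ i, z0.v (χ (mt i)) ≠ 0)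
    (ht1 : ∀ i, z0.v (χ (mt i)) < δ) (hy : ∀ e, |ye χ w ch z0 e| < δ)
    (hinj : Set.InjOn (ye χ w ch z0) B) :
    ∃ (coef : N →+ (I ⊕ (B \ {e0} : Set E) → ℤ)) (b : N →+ ℝ),
      FA.Facet K χ' (fun j => (fu mt ch B e0 j : N)) coef b ∧
        ∀ m : P, z0.v (χ m) = Real.exp (b m) := by
  obtain ⟨coef, b, η, hη, hb, hs, hn, hex, hall⟩ :=
    hX.exists_coef hC hB he0 hz0 ht0 ht1 hy hinj
  have htr0 : (fun m : P => Real.exp (b m)) = tr χ z0 := funext fun m => (hb m).symm
  have hval : ∀ (v : I ⊕ (B \ {e0} : Set E) → ℝ) j, clin coef v (fu mt ch B e0 j : N) = v j := by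
    intro v j
    rw [clin_apply, Finset.sum_eq_single j]
    · rw [hs j]; simp
    · intro i _ hij
      rw [hn j i (Ne.symm hij)]; simp
    · intro h; exact absurd (Finset.mem_univ j) h
  refine ⟨coef, b, ⟨hC.zero', hC.add', hC.span', hC.fgN, hs, hn, ⟨η, hη, ?_⟩, ?_⟩, hb⟩
  · intro v hv
    obtain ⟨z, -, hz⟩ := hex v hv
    obtain ⟨z', hz'⟩ := hC.exists_ext z (fun m => by rw [hz m]; exact (Real.exp_pos _).ne')
    refine ⟨z', ?_⟩
    have h1 : z' ∈ FA.Fib K χ' ((b + clin coef v : N →+ ℝ) : N → ℝ) := by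
      rw [hC.mem_Fib_iff]
      intro m
      rw [hz', hz m]
      rfl
    exact h1
  · intro m hm
    refine hW b ⟨z0, htr0.symm⟩ (LinearMap.range (clin coef)) ?_ m ?_
    · let O : Set (P → ℝ) := {b' | b' ∈ U ∧ (∀ i, 0 < b' (mt i)) ∧ (∀ e, 0 < b' (ch e)) ∧
        (∀ j, |Real.log (b' (fu mt ch B e0 j)) - b (fu mt ch B e0 j)| < η) ∧
        ∀ e, |(Real.log (b' (ch e)) - Real.log (w (ch e))) - ye χ w ch z0 e| < η}
      have hfu : ∀ b' ∈ O, ∀ j, 0 < b' (fu mt ch B e0 j) := by
        rintro b' ⟨-, h1, h2, -, -⟩ (i | e)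
        · exact h1 i
        · exact h2 e.1
      refine ⟨O, ?_, ?_, ?_⟩
      · rw [isOpen_iff_eventually]
        intro x hx
        have hxf := hfu x hx
        obtain ⟨h0, h1, h2, h3, h4⟩ := hx
        have hc : ∀ m : P, ContinuousAt (fun b' : P → ℝ => b' m) x := fun m =>
          (continuous_apply m).continuousAt
        refine (hX.isOpen.eventually_mem h0).and (Filter.Eventually.and ?_
          (Filter.Eventually.and ?_ (Filter.Eventually.and ?_ ?_)))
        · exact Filter.eventually_all.2 fun i => (hc _).tendsto.eventually_const_lt (h1 i)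
        · exact Filter.eventually_all.2 fun e => (hc _).tendsto.eventually_const_lt (h2 e)
        · refine Filter.eventually_all.2 fun j => ?_
          have h5 : ContinuousAt (fun b' : P → ℝ =>
              |Real.log (b' (fu mt ch B e0 j)) - b (fu mt ch B e0 j)|) x :=
            (((hc _).log (hxf j).ne').sub continuousAt_const).abs
          exact h5.tendsto.eventually_lt_const (h3 j)
        · refine Filter.eventually_all.2 fun e => ?_
          have h5 : ContinuousAt (fun b' : P → ℝ =>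
              |(Real.log (b' (ch e)) - Real.log (w (ch e))) - ye χ w ch z0 e|) x :=
            ((((hc _).log (h2 e).ne').sub continuousAt_const).sub continuousAt_const).abs
          exact h5.tendsto.eventually_lt_const (h4 e)
      · refine ⟨by rw [htr0]; exact hz0, fun i => Real.exp_pos _, fun e => Real.exp_pos _,
          fun j => ?_, fun e => ?_⟩
        · show |Real.log (Real.exp (b (fu mt ch B e0 j))) - b (fu mt ch B e0 j)| < η
          rw [Real.log_exp, sub_self, abs_zero]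
          exact hη
        · show |(Real.log (Real.exp (b (ch e))) - Real.log (w (ch e))) - ye χ w ch z0 e| < η
          unfold ye
          rw [hb (ch e), sub_self, abs_zero]
          exact hη
      · intro b' hb'
        have hbf := hfu b' hb'
        constructor
        · rintro ⟨z, rfl⟩
          obtain ⟨h0, h1, h2, h3, h4⟩ := hb'
          have h5 := hall z h0 (fun i => (h1 i).ne') h3 h4
          refine ⟨clin coef fun j => Real.log (z.v (χ (fu mt ch B e0 j))) - b (fu mt ch B e0 j),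
            ⟨_, rfl⟩, fun m => ?_⟩
          rw [← Real.exp_add]
          exact h5 m
        · rintro ⟨l, ⟨v, rfl⟩, hl⟩
          obtain ⟨h0, h1, h2, h3, h4⟩ := hb'
          have hv : ∀ j, |v j| < η := by
            intro j
            have h5 := h3 j
            rw [hl, ← Real.exp_add, Real.log_exp, add_sub_cancel_left, hval v j] at h5
            exact h5
          obtain ⟨z, -, hz⟩ := hex v hv
          refine ⟨z, funext fun m => ?_⟩
          rw [hl m, ← Real.exp_add]
          exact hz m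
    · rintro l ⟨v, rfl⟩
      rw [clin_apply, hm]
      simp

end Pool.Agent.TD.X2


end

section

/-! Smooth points with weights one give data ND0 (module TD_X2_OK). -/

open scoped Topology NNReal

namespace Pool.Agent.TD.X2

variable {K A A' N I E : Type} [NormedField K] [IsUltrametricDist K] [CommRing A] [Algebra K A]
  [CommRing A'] [Algebra K A'] [AddCommGroup N] {P : AddSubmonoid N} {r : A →ₐ[K] A'} {χ : P → A}
  {χ' : N → A'} [Fintype I] [Fintype E] {w : P → ℝ} {mt : I → P} {ch : E → P} {M : Matroid E}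
  {e0 : E} {U : Set (P → ℝ)} {δ : ℝ}

namespace OkP

omit [IsUltrametricDist K] [CommRing A] [Algebra K A] [CommRing A'] [Algebra K A']
  [Fintype I] [Fintype E] in
/-- An open set of functions contains a basic neighbourhood. -/
theorem exists_basic {P : Type} {U : Set (P → ℝ)} {w : P → ℝ} (hU : IsOpen U) (hw : w ∈ U) :
    ∃ (G : Finset P) (ε : ℝ), 0 < ε ∧ ∀ b : P → ℝ, (∀ m ∈ G, |b m - w m| ≤ ε) → b ∈ U := by
  classical
  obtain ⟨G, u, hu, hsub⟩ := isOpen_pi_iff.1 hU w hw
  have h1 : ∀ m : P, ∃ ε : ℝ, 0 < ε ∧ (m ∈ G → ∀ x : ℝ, |x - w m| ≤ ε → x ∈ u m) := by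
    intro m
    by_cases hm : m ∈ G
    · obtain ⟨ε, hε, hball⟩ := Metric.isOpen_iff.1 (hu m hm).1 (w m) (hu m hm).2
      refine ⟨ε / 2, by positivity, fun _ x hx => hball ?_⟩
      rw [Metric.mem_ball, Real.dist_eq]
      linarith
    · exact ⟨1, one_pos, fun h => absurd h hm⟩
  choose ε hε hball using h1
  by_cases hG : G.Nonempty
  · refine ⟨G, G.inf' hG ε, ?_, fun b hb => hsub ?_⟩
    · rw [Finset.lt_inf'_iff]
      exact fun m _ => hε m
    · intro m hm
      exact hball m hm (b m) ((hb m hm).trans (Finset.inf'_le _ hm))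
  · refine ⟨G, 1, one_pos, fun b _ => hsub ?_⟩
    intro m hm
    exact absurd ⟨m, hm⟩ hG

omit [IsUltrametricDist K] [CommRing A] [Algebra K A] [CommRing A'] [Algebra K A'] in
/-- Continuity of the chart functions at the origin. -/
theorem exists_cont (α : I → ℕ) (n : E → ℤ) (d : ℝ) {ε : ℝ} (hε : 0 < ε) :
    ∃ η : ℝ, 0 < η ∧ ∀ (s : I → ℝ) (y : E → ℝ), (∀ i, |s i| < η) → (∀ e, |y e| < η) →
      |Real.exp d * (∏ i, s i ^ α i) * Real.exp (∑ e, n e * y e) -
        Real.exp d * (∏ i, (0 : ℝ) ^ α i) * Real.exp (∑ e, n e * (0 : ℝ))| < ε := by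
  let f : (I → ℝ) × (E → ℝ) → ℝ := fun p =>
    Real.exp d * (∏ i, p.1 i ^ α i) * Real.exp (∑ e, n e * p.2 e)
  have hf : Continuous f := by fun_prop
  have h1 := Metric.continuous_iff.1 hf 0 ε hε
  obtain ⟨η, hη, h2⟩ := h1
  refine ⟨η, hη, fun s y hs hy => ?_⟩
  have h3 := h2 (s, y) (by
    rw [dist_zero_right, Prod.norm_def, max_lt_iff]
    exact ⟨(pi_norm_lt_iff hη).2 hs, (pi_norm_lt_iff hη).2 hy⟩)
  rw [Real.dist_eq] at h3
  exact h3

theorem w_eq {zw : Ber K A} (hzw : tr χ zw = w) (m : P) : zw.v (χ m) = w m := congrFun hzw m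

theorem exists_delta (hX : CChart K χ w mt ch M e0 U δ) (G : Finset P) {ε : ℝ} (hε : 0 < ε) :
    ∃ δ0 : ℝ, 0 < δ0 ∧ δ0 ≤ δ ∧ ∀ z : Ber K A, tr χ z ∈ U → (∀ i, z.v (χ (mt i)) < δ0) →
      (∀ e, |ye χ w ch z e| < δ0) → ∀ m ∈ G, |z.v (χ m) - w m| ≤ ε := by
  classical
  obtain ⟨zw, hzw⟩ := hX.hw
  have hzU : tr χ zw ∈ U := hzw ▸ hX.w_mem
  have h1 : ∀ m : P, ∃ η : ℝ, 0 < η ∧ ∀ z : Ber K A, tr χ z ∈ U →
      (∀ i, z.v (χ (mt i)) < η) → (∀ e, |ye χ w ch z e| < η) → |z.v (χ m) - w m| ≤ ε := by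
    intro m
    obtain ⟨α, n, d, haff⟩ := hX.aff m
    obtain ⟨η, hη, hc⟩ := exists_cont α n d hε
    refine ⟨η, hη, fun z hz hs hy => ?_⟩
    have h2 := hc (fun i => z.v (χ (mt i))) (ye χ w ch z) (fun i => by
      rw [abs_of_nonneg (z.nonneg _)]
      exact hs i) hy
    rw [← haff z hz] at h2
    have h3 : w m = Real.exp d * (∏ i, (0 : ℝ) ^ α i) * Real.exp (∑ e, n e * (0 : ℝ)) := by
      rw [← w_eq hzw m, haff zw hzU]
      have h4 : ∀ i, zw.v (χ (mt i)) = 0 := fun i => (w_eq hzw _).trans (hX.wt i)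
      have h5 : ∀ e, ye χ w ch zw e = 0 := by
        intro e
        unfold ye
        rw [w_eq hzw, sub_self]
      simp only [h4, h5]
    rw [← h3] at h2
    exact h2.le
  choose η hη hz using h1
  by_cases hG : G.Nonempty
  · refine ⟨min δ (G.inf' hG η), lt_min hX.δpos ?_, min_le_left _ _, ?_⟩
    · rw [Finset.lt_inf'_iff]
      exact fun m _ => hη m
    · intro z hzU hs hy m hm
      have h2 : min δ (G.inf' hG η) ≤ η m := (min_le_right _ _).trans (Finset.inf'_le _ hm)
      exact hz m z hzU (fun i => (hs i).trans_le h2) fun e => (hy e).trans_le h2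
  · exact ⟨δ, hX.δpos, le_rfl, fun z _ _ _ m hm => absurd ⟨m, hm⟩ hG⟩

/-- The data. -/
noncomputable def dat (K : Type) {A N I E : Type} [NormedField K] [CommRing A] [Algebra K A]
    [AddCommGroup N] {P : AddSubmonoid N} (χ : P → A) (w : P → ℝ) (mt : I → P) (ch : E → P)
    (M : Matroid E) (e0 : E) (G : Finset P) (ε δ0 : ℝ) : NDat K A I E where
  t i := χ (mt i)
  T e := χ (ch e)
  ρ e := (w (ch e)).toNNReal
  e0 := e0
  M := M
  V0 := {z | ∀ m ∈ G, |z.v (χ m) - w m| ≤ ε}
  δ0 := δ0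

theorem w_nonneg (hX : CChart K χ w mt ch M e0 U δ) (m : P) : 0 ≤ w m := by
  obtain ⟨zw, hzw⟩ := hX.hw
  rw [← w_eq hzw]
  exact zw.nonneg _

theorem w_pos (hX : CChart K χ w mt ch M e0 U δ) (e : E) : 0 < w (ch e) :=
  lt_of_le_of_ne (w_nonneg hX _) (hX.wch e).symm

theorem yc_eq (hX : CChart K χ w mt ch M e0 U δ) (G : Finset P) (ε δ0 : ℝ) (z : Ber K A)
    (e : E) : (dat K χ w mt ch M e0 G ε δ0).yc z e = ye χ w ch z e := by
  show Real.log (z.v (χ (ch e))) - Real.log ((w (ch e)).toNNReal : ℝ) = _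
  rw [Real.coe_toNNReal _ (w_nonneg hX _)]
  rfl

end OkP

/-- (X2) -/
theorem exists_ok (hC : Chars K P r χ χ') (hX : CChart K χ w mt ch M e0 U δ)
    (hW : Wt K χ χ') : ∃ D : NDat K A I E, D.Ok ∧ D.t = (fun i => χ (mt i)) ∧
      D.T = (fun e => χ (ch e)) ∧ D.e0 = e0 ∧ D.M = M ∧ (∀ e, (D.ρ e : ℝ) = w (ch e)) ∧
      D.Fw = {z | tr χ z = w} := by
  classical
  obtain ⟨G0, hG0⟩ := hC.exists_gens
  obtain ⟨G1, ε, hε, hG1⟩ := OkP.exists_basic hX.isOpen hX.w_mem
  set G := G0 ∪ G1 with hG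
  obtain ⟨δ0, hδ0, hδ0', hδ⟩ := OkP.exists_delta hX G hε
  obtain ⟨zw, hzw⟩ := hX.hw
  have hzwU : tr χ zw ∈ U := hzw ▸ hX.w_mem
  set D := OkP.dat K χ w mt ch M e0 G ε δ0 with hD
  have hyc : ∀ z e, D.yc z e = ye χ w ch z e := OkP.yc_eq hX G ε δ0
  have hVU : ∀ z ∈ D.V0, tr χ z ∈ U := by
    intro z hz
    refine hG1 _ fun m hm => ?_
    exact hz m (Finset.mem_union_right _ hm)
  have hclos : AddSubmonoid.closure (G : Set P) = ⊤ := by
    rw [eq_top_iff, ← hG0]
    apply AddSubmonoid.closure_mono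
    rw [hG, Finset.coe_union]
    exact Set.subset_union_left
  -- points with the same coordinates
  have hsame : ∀ z z' : Ber K A, tr χ z = tr χ z' → z ∈ D.V0 → z' ∈ D.V0 := by
    intro z z' h hz m hm
    have h1 : z'.v (χ m) = z.v (χ m) := (congrFun h m).symm
    rw [h1]
    exact hz m hm
  have hyew : ∀ z : Ber K A, tr χ z = w → (∀ i, z.v (χ (mt i)) = 0) ∧
      ∀ e, ye χ w ch z e = 0 := by
    intro z hz
    refine ⟨fun i => (OkP.w_eq hz _).trans (hX.wt i), fun e => ?_⟩
    unfold ye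
    rw [OkP.w_eq hz, sub_self]
  have hFw : D.Fw = {z | tr χ z = w} := by
    ext z
    constructor
    · rintro ⟨hz, ht, hy⟩
      show tr χ z = w
      rw [← hzw]
      refine hX.ext (hVU z hz) hzwU (fun i => ?_) fun e => ?_
      · rw [(hyew zw hzw).1 i]
        exact ht i
      · rw [(hyew zw hzw).2 e, ← hyc]
        exact hy e
    · intro hz
      have hz' : tr χ z = w := hz
      refine ⟨fun m _ => ?_, (hyew z hz').1, fun e => ?_⟩
      · rw [OkP.w_eq hz', sub_self, abs_zero]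
        exact hε.le
      · rw [hyc]
        exact (hyew z hz').2 e
  -- the facets
  have hfac : ∀ (B : Set E) (s : I → ℝ≥0) (y : E → ℝ), M.IsBase B → e0 ∈ B →
      D.Gen δ0 B s y → ∃ (_ : Fintype (B \ {e0} : Set E)) (z0 : Ber K A)
        (coef : N →+ (I ⊕ (B \ {e0} : Set E) → ℤ)) (b : N →+ ℝ),
        FA.Facet K χ' (fun j => (fu mt ch B e0 j : N)) coef b ∧
        (∀ m : P, z0.v (χ m) = Real.exp (b m)) ∧ z0 ∈ D.Fry s y ∧
        (∀ z ∈ D.Fry s y, tr χ z = tr χ z0) ∧ ∀ j, FA.wt b (fu mt ch B e0 j : N) =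
          Sum.elim s (fun e : (B \ {e0} : Set E) => D.rd y e.1) j := by
    intro B s y hB he0 hg
    have : Fintype (B \ {e0} : Set E) := Fintype.ofFinite _
    obtain ⟨z0, hz0U, hz0t, hz0y⟩ := hX.ex s y (fun i => (hg.rlt i).trans_le hδ0')
      (fun e => (hg.ylt e).trans_le hδ0') hg.y0 hg.berg
    have hye : ye χ w ch z0 = y := funext hz0y
    obtain ⟨coef, b, hfa, hb⟩ := hX.facet hC hW hB he0 (z0 := z0) hz0U (fun i => by
      rw [hz0t i]
      exact (NNReal.coe_pos.2 (hg.rpos i)).ne') (fun i => by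
      rw [hz0t i]
      exact (hg.rlt i).trans_le hδ0') (fun e => by
      rw [hz0y e]
      exact (hg.ylt e).trans_le hδ0') (by
      rw [hye]
      exact hg.inj)
    have hz0V : z0 ∈ D.V0 := hδ z0 hz0U (fun i => by
      rw [hz0t i]
      exact hg.rlt i) fun e => by
      rw [hz0y e]
      exact hg.ylt e
    refine ⟨this, z0, coef, b, hfa, hb, ⟨hz0V, hz0t, fun e => by rw [hyc, hz0y]⟩, ?_, ?_⟩
    · rintro z ⟨hzV, hzt, hzy⟩
      refine hX.ext (hVU z hzV) hz0U (fun i => ?_) fun e => ?_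
      · rw [hz0t i]
        exact hzt i
      · rw [hz0y e, ← hyc]
        exact hzy e
    · intro j
      apply NNReal.eq
      rw [FA.TopP.coe_wt, ← hb]
      rcases j with i | e
      · exact hz0t i
      · show z0.v (χ (ch e.1)) = ((w (ch e.1)).toNNReal : ℝ) * ((Real.exp (y e.1)).toNNReal : ℝ)
        have hpos := OkP.w_pos hX e.1
        have h0 : z0.v (χ (ch e.1)) ≠ 0 := hX.ne z0 hz0U e.1
        have h0' : 0 < z0.v (χ (ch e.1)) := lt_of_le_of_ne (z0.nonneg _) h0.symm
        rw [Real.coe_toNNReal _ hpos.le, Real.coe_toNNReal _ (Real.exp_pos _).le, ← hz0y e.1]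
        unfold ye
        rw [Real.exp_sub, Real.exp_log h0', Real.exp_log hpos]
        field_simp
  -- the family `vr`
  have hvr : ∀ B : Set E, D.vr (B \ {e0}) = fun j => χ (fu mt ch B e0 j) := by
    intro B
    funext j
    rcases j with i | e <;> rfl
  -- the points of `Fry s y` come from the fibre
  have hlift : ∀ (z0 : Ber K A) (b : N →+ ℝ), (∀ m : P, z0.v (χ m) = Real.exp (b m)) →
      ∀ z, tr χ z = tr χ z0 → ∃ z' ∈ FA.Fib K χ' b, Ber.res r z' = z := by
    intro z0 b hb z hz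
    have h1 : ∀ m, z.v (χ m) = Real.exp (b m) := fun m => (congrFun hz m).trans (hb m)
    obtain ⟨z', hz'⟩ := hC.exists_ext z fun m => by
      rw [h1]
      exact (Real.exp_pos _).ne'
    refine ⟨z', hC.mem_Fib_iff.2 fun m => ?_, hz'⟩
    rw [hz', h1]
  refine ⟨D, ?_, rfl, rfl, rfl, rfl, fun e => Real.coe_toNNReal _ (OkP.w_nonneg hX _), hFw⟩
  refine
    { ρpos := fun e => Real.toNNReal_pos.2 (OkP.w_pos hX e)
      ρ0 := ?_
      T0 := ?_
      ground := hX.ground
      loopless := hX.loopless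
      δpos := hδ0
      comp := hC.isCompact hclos w ε
      Tne := fun z hz e => hX.ne z (hVU z hz) e
      ne := ?_
      nhd := ?_
      berg := ?_
      top := ?_
      uniq := ?_
      dens := ?_ }
  · show (w (ch e0)).toNNReal = 1
    have h1 : w (ch e0) = 1 := by
      rw [← OkP.w_eq hzw, hX.ch0, hC.zero, zw.one]
    rw [h1, Real.toNNReal_one]
  · show χ (ch e0) = 1
    rw [hX.ch0, hC.zero]
  · rw [hFw]
    exact ⟨zw, hzw⟩
  · intro z hz
    rw [hFw] at hz
    have hz' : tr χ z = w := hz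
    have hopen : IsOpen {z : Ber K A | ∀ m ∈ G, |z.v (χ m) - w m| < ε} := by
      have h1 : {z : Ber K A | ∀ m ∈ G, |z.v (χ m) - w m| < ε} =
          ⋂ m ∈ G, {z : Ber K A | |z.v (χ m) - w m| < ε} := by
        ext z
        simp
      rw [h1]
      refine isOpen_biInter_finset fun m _ => ?_
      exact isOpen_lt (((Ber.continuous_v (χ m)).sub continuous_const).abs) continuous_const
    refine Filter.mem_of_superset (hopen.mem_nhds ?_) ?_
    · intro m _
      rw [OkP.w_eq hz', sub_self, abs_zero]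
      exact hε
    · intro z1 hz1 m hm
      exact (hz1 m hm).le
  · intro z hz
    have h1 : D.yc z = ye χ w ch z := funext fun e => hyc z e
    show BergM M (D.yc z)
    rw [h1]
    exact hX.berg z (hVU z hz)
  · intro B s y hB he0 hg
    obtain ⟨_, z0, coef, b, hfa, hb, hz0, hF, hwt⟩ := hfac B s y hB he0 hg
    obtain ⟨z', hz'F, hz'max, hz'g⟩ := FA.exists_top hfa
    have htr : tr χ z0 = tr χ (Ber.res r z') := by
      funext m
      show z0.v (χ m) = (Ber.res r z').v (χ m)
      rw [hb, hC.mem_Fib_iff.1 hz'F]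
    refine ⟨Ber.res r z', ⟨hsame _ _ htr hz0.1, fun i => ?_, fun e => ?_⟩, ?_, ?_⟩
    · exact (congrFun htr (mt i)).symm.trans (hz0.2.1 i)
    · rw [← hz0.2.2 e]
      show Real.log ((Ber.res r z').v (χ (ch e))) - _ = Real.log (z0.v (χ (ch e))) - _
      rw [show z0.v (χ (ch e)) = (Ber.res r z').v (χ (ch e)) from congrFun htr (ch e)]
    · intro z1 hz1
      obtain ⟨z1', hz1', rfl⟩ := hlift z0 b hb z1 (hF z1 hz1)
      exact Ber.res_mono r (hz'max z1' hz1')
    · show GaussAt (D.vr (B \ {e0})) _ _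
      rw [hvr, gaussAt_iff, hC.fam_res (fu mt ch B e0) z']
      have h1 : (Sum.elim s fun e : (B \ {D.e0} : Set E) => D.rd y e.1) =
          fun j => FA.wt b (fu mt ch B e0 j : N) := by
        funext j
        exact (hwt j).symm
      rw [h1]
      exact hz'g
  · intro B s y hB he0 hg z hz z' hz' hfam
    obtain ⟨_, z0, coef, b, hfa, hb, hz0, hF, -⟩ := hfac B s y hB he0 hg
    obtain ⟨z1, hz1, rfl⟩ := hlift z0 b hb z (hF z hz)
    obtain ⟨z2, hz2, rfl⟩ := hlift z0 b hb z' (hF z' hz')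
    congr 1
    have h1 : fam (D.vr (B \ {e0})) (Ber.res r z1) = fam (D.vr (B \ {e0})) (Ber.res r z2) := hfam
    rw [hvr, hC.fam_res (fu mt ch B e0) z1, hC.fam_res (fu mt ch B e0) z2] at h1
    exact FA.fib_uniq hfa hz1 hz2 h1
  · intro B s y hB he0 hg z hz
    obtain ⟨_, z0, coef, b, hfa, hb, hz0, hF, -⟩ := hfac B s y hB he0 hg
    obtain ⟨z1, hz1, rfl⟩ := hlift z0 b hb z (hF z hz)
    have h1 := hC.dens (fu mt ch B e0) (FA.fib_dens hfa hz1)
    show Dens (MvPolynomial.aeval (D.vr (B \ {e0}))) (Ber.res r z1)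
    rw [hvr]
    exact h1

end Pool.Agent.TD.X2


end
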