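import Mathlib
import Pool.Agent.DolbM.C01
import Pool.Agent.DolbM.C02
import Pool.Agent.DolbM.C17
import Pool.Agent.TD.N.Defs

/-! Parts: TD.Q.Basic, TD.Q.Stmts, TD.Q.Q2, TD.Q.Q2o, TD.Q.Q3c, TD.Q.Q3a, TD.Q.Q4, TD.Q.QE, TD.Q.Q5a, TD.Q.Q7, TD.Q.Q9w, TD.Q.Q9d -/

section

/-!
# Section Q of PAPER2.md (MP_90358a_ag): basic facts

Finite group actions on Berkovich spectra, rings of invariants, integral homomorphisms.
-/

open scoped Topology NNReal

namespace Pool.Agent.TD.Q

section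
variable {K R C G : Type} [NormedField K] [CommRing R] [CommRing C] [Algebra K R] [Algebra K C]
  [Group G]

/-- `R` (with `i : R → C`) is the ring of invariants of the group `G` acting on `C` through
`ρ`. -/
structure IsInv (i : R →ₐ[K] C) (ρ : G →* (C ≃ₐ[K] C)) : Prop where
  inj : Function.Injective i
  fix : ∀ g r, ρ g (i r) = i r
  inv : ∀ c, (∀ g, ρ g c = c) → ∃ r, i r = c

/-- The action of `G` on the points: `|c|_{act ρ g z} = |g c|_z`. -/
def act (ρ : G →* (C ≃ₐ[K] C)) (g : G) (z : Ber K C) : Ber K C :=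
  Ber.res (ρ g).toAlgHom z

@[simp] theorem act_v (ρ : G →* (C ≃ₐ[K] C)) (g : G) (z : Ber K C) (c : C) :
    (act ρ g z).v c = z.v (ρ g c) := rfl

theorem act_one (ρ : G →* (C ≃ₐ[K] C)) (z : Ber K C) : act ρ 1 z = z := by
  apply Ber.ext_v
  intro c
  rw [act_v, map_one]
  rfl

theorem act_mul (ρ : G →* (C ≃ₐ[K] C)) (g h : G) (z : Ber K C) :
    act ρ (g * h) z = act ρ h (act ρ g z) := by
  apply Ber.ext_v
  intro c
  rw [act_v, act_v, act_v, map_mul]
  rfl

theorem act_inv_act (ρ : G →* (C ≃ₐ[K] C)) (g : G) (z : Ber K C) :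
    act ρ g⁻¹ (act ρ g z) = z := by
  rw [← act_mul, mul_inv_cancel, act_one]

theorem act_act_inv (ρ : G →* (C ≃ₐ[K] C)) (g : G) (z : Ber K C) :
    act ρ g (act ρ g⁻¹ z) = z := by
  rw [← act_mul, inv_mul_cancel, act_one]

theorem act_continuous (ρ : G →* (C ≃ₐ[K] C)) (g : G) : Continuous (act ρ g) :=
  Ber.res_continuous _

/-- The action as homeomorphisms. -/
def actHomeo (ρ : G →* (C ≃ₐ[K] C)) (g : G) : Ber K C ≃ₜ Ber K C where
  toFun := act ρ g
  invFun := act ρ g⁻¹
  left_inv := act_inv_act ρ g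
  right_inv := act_act_inv ρ g
  continuous_toFun := act_continuous ρ g
  continuous_invFun := act_continuous ρ g⁻¹

@[simp] theorem actHomeo_apply (ρ : G →* (C ≃ₐ[K] C)) (g : G) (z : Ber K C) :
    actHomeo ρ g z = act ρ g z := rfl

theorem IsInv.res_act {i : R →ₐ[K] C} {ρ : G →* (C ≃ₐ[K] C)} (h : IsInv i ρ) (g : G)
    (z : Ber K C) : Ber.res i (act ρ g z) = Ber.res i z := by
  apply Ber.ext_v
  intro r
  rw [Ber.res_v, Ber.res_v, act_v, h.fix]

/-- The ring of invariants. -/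
def inva (ρ : G →* (C ≃ₐ[K] C)) : Subalgebra K C where
  carrier := {c | ∀ g, ρ g c = c}
  mul_mem' := by
    intro a b ha hb g
    rw [map_mul, ha g, hb g]
  one_mem' := fun g => map_one _
  add_mem' := by
    intro a b ha hb g
    rw [map_add, ha g, hb g]
  zero_mem' := fun g => map_zero _
  algebraMap_mem' := fun c g => (ρ g).commutes c

theorem mem_inva (ρ : G →* (C ≃ₐ[K] C)) (c : C) : c ∈ inva ρ ↔ ∀ g, ρ g c = c := Iff.rfl

theorem isInv_inva (ρ : G →* (C ≃ₐ[K] C)) : IsInv (inva ρ).val ρ where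
  inj := Subtype.val_injective
  fix := fun g r => r.2 g
  inv := fun c hc => ⟨⟨c, hc⟩, rfl⟩

/-- `C` is integral over the ring of invariants of a finite group. -/
theorem IsInv.isIntegral [Finite G] {i : R →ₐ[K] C} {ρ : G →* (C ≃ₐ[K] C)} (h : IsInv i ρ) :
    i.toRingHom.IsIntegral := by
  classical
  have := Fintype.ofFinite G
  intro c
  rcases subsingleton_or_nontrivial C with hC | hC
  · exact ⟨1, Polynomial.monic_one, Subsingleton.elim _ _⟩
  -- the polynomial `∏ (X - g c)` has invariant coefficients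
  let P : Polynomial C := ∏ g : G, (Polynomial.X - Polynomial.C (ρ g c))
  have hP : P.Monic := Polynomial.monic_prod_of_monic _ _ fun g _ => Polynomial.monic_X_sub_C _
  have hinv : ∀ g : G, P.map (ρ g : C →+* C) = P := by
    intro g
    show Polynomial.map _ (∏ h : G, (Polynomial.X - Polynomial.C (ρ h c))) = _
    rw [Polynomial.map_prod]
    simp only [Polynomial.map_sub, Polynomial.map_X, Polynomial.map_C]
    refine Fintype.prod_equiv (Equiv.mulLeft g) _ _ fun h => ?_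
    congr 2
    rw [Equiv.coe_mulLeft, map_mul]
    rfl
  have hcoef : ∀ n, ∃ r, i r = P.coeff n := by
    intro n
    apply h.inv
    intro g
    have := congrArg (fun Q => Polynomial.coeff Q n) (hinv g)
    rw [Polynomial.coeff_map] at this
    exact this
  have hlift : P ∈ Polynomial.lifts i.toRingHom := by
    rw [Polynomial.lifts_iff_coeff_lifts]
    intro n
    obtain ⟨r, hr⟩ := hcoef n
    exact ⟨r, hr⟩
  obtain ⟨Q, hQ, -, hQm⟩ := Polynomial.lifts_and_degree_eq_and_monic hlift hP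
  refine ⟨Q, hQm, ?_⟩
  rw [← Polynomial.eval_map, hQ]
  show Polynomial.eval c (∏ g : G, (Polynomial.X - Polynomial.C (ρ g c))) = 0
  rw [Polynomial.eval_prod]
  refine Finset.prod_eq_zero (Finset.mem_univ (1 : G)) ?_
  rw [map_one]
  simp

end

section
variable {K R C : Type} [NormedField K] [IsUltrametricDist K] [CommRing R] [CommRing C]
  [Algebra K R] [Algebra K C]

/-- (INT) `M(C) → M(R)` is surjective for an injective integral homomorphism. -/
theorem int_surj (φ : R →ₐ[K] C) (hφ : Function.Injective φ) (hi : φ.toRingHom.IsIntegral) :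
    Function.Surjective (Ber.res φ : Ber K C → Ber K R) :=
  (BG.INT_thm BG.M3_thm BG.TOP_thm K R C φ hφ hi).2.1

omit [IsUltrametricDist K] in
/-- (INT) `M(C) → M(R)` is proper for an integral homomorphism. -/
theorem int_proper (φ : R →ₐ[K] C) (hi : φ.toRingHom.IsIntegral) :
    IsProperMap (Ber.res φ : Ber K C → Ber K R) :=
  BG.INT.proper BG.TOP_thm φ hi

omit [IsUltrametricDist K] in
theorem int_closed (φ : R →ₐ[K] C) (hi : φ.toRingHom.IsIntegral) :
    IsClosedMap (Ber.res φ : Ber K C → Ber K R) :=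
  (int_proper φ hi).isClosedMap

end

end Pool.Agent.TD.Q


end

section

/-!
# Section Q of PAPER2.md (MP_90358a_ag): statements

Finite and quasi-finite maps of Berkovich spectra: separation of points (Q1), transitivity of
finite groups (Q2), openness for normal rings (Q3), compact open sets (Q4)-(Q6), openness of
quasi-finite maps (Q7), the trace argument (Q8), maps of degree one (Q9).
-/

open scoped Topology NNReal
open Polynomial

namespace Pool.Agent.TD.Q

/-- (Q0) the fibre of `M(C) → M(R)` over `y` is `M_H(B)`, `H` the completed residue field of `y`,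
`B = H ⊗_R C`. -/
def Q0_Stmt : Prop := ∀ (K R C : Type) [NormedField K] [CommRing R] [CommRing C] [Algebra K R]
  [Algebra K C] (φ : R →ₐ[K] C) (y : Ber K R),
  ∃ (H B : Type) (_ : NormedField H) (_ : IsUltrametricDist H) (_ : CompleteSpace H)
    (_ : CommRing B) (_ : Algebra H B) (ι : R →+* H) (j : C →+* B),
    IsRes y ι ∧ (∀ r, j (φ r) = algebraMap H B (ι r)) ∧
    Submodule.span H (Set.range j) = ⊤ ∧
    (φ.toRingHom.IsIntegral → Algebra.IsIntegral H B) ∧
    (φ.toRingHom.Finite → Module.Finite H B) ∧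
    ∀ z : Ber K C, Ber.res φ z = y → ∃ w : Ber H B, ∀ c, w.v (j c) = z.v c

/-- (QU) points of `M_H(B)`, `B` integral over the complete field `H`, are determined by their
kernels, which are maximal ideals. -/
def QU_Stmt : Prop := ∀ (H B : Type) [NormedField H] [IsUltrametricDist H] [CompleteSpace H]
  [CommRing B] [Algebra H B] [Algebra.IsIntegral H B],
  (∀ w : Ber H B, w.ker.IsMaximal) ∧ ∀ w w' : Ber H B, w.ker = w'.ker → w = w'

/-- (Q1) separation of points. -/
def Q1_Stmt : Prop := ∀ (K R C : Type) [NormedField K] [CommRing R] [CommRing C] [Algebra K R]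
  [Algebra K C] (φ : R →ₐ[K] C), φ.toRingHom.IsIntegral → ∀ (y : Ber K R)
  (S₀ S₁ : Finset (Ber K C)), (∀ z ∈ S₀, Ber.res φ z = y) → (∀ z ∈ S₁, Ber.res φ z = y) →
  Disjoint S₀ S₁ → ∀ ε : ℝ, 0 < ε → ∃ (b : C) (r : R), y.v r ≠ 0 ∧
    (∀ z ∈ S₀, z.v (b - φ r) ≤ ε * y.v r) ∧ ∀ z ∈ S₁, z.v b ≤ ε * y.v r

/-- (QF) finite homomorphisms have finite fibres. -/
def QF_Stmt : Prop := ∀ (K R C : Type) [NormedField K] [CommRing R] [CommRing C] [Algebra K R]
  [Algebra K C] (φ : R →ₐ[K] C), φ.toRingHom.Finite → ∀ y : Ber K R,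
  {z : Ber K C | Ber.res φ z = y}.Finite

/-- (Q2) transitivity. -/
def Q2_Stmt : Prop := ∀ (K R C G : Type) [NormedField K] [CommRing R] [CommRing C] [Algebra K R]
  [Algebra K C] [Group G] [Finite G] (i : R →ₐ[K] C) (ρ : G →* (C ≃ₐ[K] C)), IsInv i ρ →
  ∀ z₁ z₂ : Ber K C, Ber.res i z₁ = Ber.res i z₂ → ∃ g, z₂ = act ρ g z₁

/-- (Q2') openness for rings of invariants. -/
def Q2o_Stmt : Prop := ∀ (K R C G : Type) [NormedField K] [IsUltrametricDist K] [CommRing R]
  [CommRing C] [Algebra K R] [Algebra K C] [Group G] [Finite G] (i : R →ₐ[K] C)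
  (ρ : G →* (C ≃ₐ[K] C)), IsInv i ρ → IsOpenMap (Ber.res i : Ber K C → Ber K R)

/-- (Q3c) the coefficients of a polynomial with small roots are small. -/
def Q3c_Stmt : Prop := ∀ (H L : Type) [NormedField H] [Field L] [Algebra H L] [IsAlgClosed L]
  (N : Ber H L) (P : L[X]) (t : ℝ), P.Monic → 0 ≤ t → (∀ a, P.eval a = 0 → N.v a ≤ t) →
  ∀ k ≤ P.natDegree, N.v (P.coeff (P.natDegree - k)) ≤ t ^ k

/-- (Q3b) if `|b| ≤ t` at all points over `y`, then the coefficients of the minimal polynomial of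
`b` are small at `y`. -/
def Q3b_Stmt : Prop := ∀ (K R C : Type) [NormedField K] [IsUltrametricDist K] [CommRing R]
  [CommRing C] [Algebra K R] [Algebra K C] [IsDomain R] [IsIntegrallyClosed R] [IsDomain C]
  (φ : R →ₐ[K] C), Function.Injective φ → φ.toRingHom.IsIntegral → ∀ b : C,
  ∃ P : R[X], P.Monic ∧ P.eval₂ φ.toRingHom b = 0 ∧ ∀ (y : Ber K R) (t : ℝ), 0 ≤ t →
    (∀ z : Ber K C, Ber.res φ z = y → z.v b ≤ t) →
    ∀ k ≤ P.natDegree, y.v (P.coeff (P.natDegree - k)) ≤ t ^ k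

/-- (Q3) openness, finite case. -/
def Q3a_Stmt : Prop := ∀ (K R C : Type) [NormedField K] [IsUltrametricDist K] [CommRing R]
  [CommRing C] [Algebra K R] [Algebra K C] [IsDomain R] [IsIntegrallyClosed R] [IsDomain C]
  (φ : R →ₐ[K] C), Function.Injective φ → φ.toRingHom.Finite →
  IsOpenMap (Ber.res φ : Ber K C → Ber K R)

/-- (Q3) openness. -/
def Q3_Stmt : Prop := ∀ (K R C : Type) [NormedField K] [IsUltrametricDist K] [CommRing R]
  [CommRing C] [Algebra K R] [Algebra K C] [IsDomain R] [IsIntegrallyClosed R] [IsDomain C]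
  (φ : R →ₐ[K] C), Function.Injective φ → φ.toRingHom.IsIntegral →
  IsOpenMap (Ber.res φ : Ber K C → Ber K R)

/-- (Q4)(iii) `M(A[X])` has no non-empty compact open subset. -/
def Q4_Stmt : Prop := ∀ (K A : Type) [NormedField K] [IsUltrametricDist K] [CommRing A]
  [Algebra K A] (Ω : Set (Ber K A[X])), IsCompact Ω → IsOpen Ω → Ω = ∅

/-- (QE) embeddings: every element of `B` is a multiple by an element of the base field `κ` of an
element of `A`. -/
def QE_Stmt : Prop := ∀ (K κ A B : Type) [NormedField K] [NormedField κ] [CommRing A]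
  [CommRing B] [Algebra K A] [Algebra κ B] (j : A →+* B)
  (hj : ∀ (w : Ber κ B) (c : K), w.v (j (algebraMap K A c)) = ‖c‖),
  (∀ b : B, ∃ (s : κ) (a : A), b = s • j a) →
  Topology.IsEmbedding (Ber.comap j hj : Ber κ B → Ber K A)

/-- (QS) closed embeddings. -/
def QS_Stmt : Prop := ∀ (K A B : Type) [NormedField K] [CommRing A] [CommRing B] [Algebra K A]
  [Algebra K B] (φ : A →ₐ[K] B), Function.Surjective φ →
  Topology.IsClosedEmbedding (Ber.res φ : Ber K B → Ber K A) ∧
    Set.range (Ber.res φ : Ber K B → Ber K A) = {z | ∀ a, φ a = 0 → z.v a = 0}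

/-- (Q5a) compact open sets, domains. -/
def Q5a_Stmt : Prop := ∀ (κ B : Type) [NormedField κ] [IsUltrametricDist κ] [CommRing B]
  [IsDomain B] [Algebra κ B] [Algebra.FiniteType κ B] (Ω : Set (Ber κ B)), IsCompact Ω →
  IsOpen Ω → Ω.Nonempty → IsField B

/-- (Q5) compact open sets. -/
def Q5_Stmt : Prop := ∀ (κ B : Type) [NormedField κ] [IsUltrametricDist κ] [CommRing B]
  [Algebra κ B] [Algebra.FiniteType κ B] (Ω : Set (Ber κ B)), IsCompact Ω → IsOpen Ω →
  ∀ z ∈ Ω, Algebra.QuasiFiniteAt κ z.ker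

/-- (Q6a) the fibre over `y` is the spectrum of the algebra `B = κ ⊗_R A`, `κ` the residue field of
the kernel of `y`. -/
def Q6a_Stmt : Prop := ∀ (K R A κ B : Type) [NormedField K] [CommRing R] [CommRing A]
  [Algebra K R] [Algebra K A] [NormedField κ] [CommRing B] [Algebra κ B] (φ : R →ₐ[K] A)
  (y : Ber K R) (ι : R →+* κ) (j : A →+* B), (∀ r, ‖ι r‖ = y.v r) →
  (∀ x : κ, ∃ a b : R, ι b ≠ 0 ∧ x * ι b = ι a) → (∀ r, j (φ r) = algebraMap κ B (ι r)) →
  Submodule.span κ (Set.range j) = ⊤ →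
  (∀ (E : Type) [Field E] (e : κ →+* E) (f : A →+* E), (∀ r, e (ι r) = f (φ r)) →
    ∃ F : B →+* E, (∀ x, F (algebraMap κ B x) = e x) ∧ ∀ a, F (j a) = f a) →
  ∃ hj : ∀ (w : Ber κ B) (c : K), w.v (j (algebraMap K A c)) = ‖c‖,
    Topology.IsClosedEmbedding (Ber.comap j hj : Ber κ B → Ber K A) ∧
      Set.range (Ber.comap j hj : Ber κ B → Ber K A) = {z | Ber.res φ z = y}

/-- (Q6) compact open subsets of fibres. -/
def Q6_Stmt : Prop := ∀ (K R A : Type) [NormedField K] [IsUltrametricDist K] [CommRing R]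
  [CommRing A] [Algebra K R] [Algebra K A] (φ : R →ₐ[K] A), φ.toRingHom.FiniteType →
  ∀ (y : Ber K R) (U : Set (Ber K A)), IsOpen U → IsCompact (U ∩ {z | Ber.res φ z = y}) →
  ∀ z ∈ U, Ber.res φ z = y → Zmp φ z

/-- (Q7a) `ψ : C → A` with `C[1/g] = A[1/g]`. -/
def Q7a_Stmt : Prop := ∀ (K C A : Type) [NormedField K] [CommRing C] [CommRing A] [Algebra K C]
  [Algebra K A] (ψ : C →ₐ[K] A) (g : C), Function.Injective ψ →
  (∀ x : A, ∃ (m : ℕ) (c : C), ψ g ^ m * x = ψ c) →
  (∀ w : Ber K C, w.v g ≠ 0 → ∃ z : Ber K A, Ber.res ψ z = w) ∧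
  (∀ z z' : Ber K A, z.v (ψ g) ≠ 0 → Ber.res ψ z = Ber.res ψ z' → z = z') ∧
  ∀ z : Ber K A, z.v (ψ g) ≠ 0 → ∀ V ∈ 𝓝 z, Ber.res ψ '' V ∈ 𝓝 (Ber.res ψ z)

/-- (Q7) quasi-finite maps to normal spaces are open. -/
def Q7_Stmt : Prop := ∀ (K R A : Type) [NormedField K] [IsUltrametricDist K] [CommRing R]
  [CommRing A] [Algebra K R] [Algebra K A] [IsDomain R] [IsIntegrallyClosed R] [IsDomain A]
  (φ : R →ₐ[K] A), Function.Injective φ → ∀ z : Ber K A, Zmp φ z →
  ∀ V ∈ 𝓝 z, Ber.res φ '' V ∈ 𝓝 (Ber.res φ z)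

/-- (Q8) the trace argument. -/
def Q8_Stmt : Prop := ∀ (K R C G : Type) [NormedField K] [CommRing R] [CommRing C] [Algebra K R]
  [Algebra K C] [Group G] [Finite G] (i : R →ₐ[K] C) (ρ : G →* (C ≃ₐ[K] C)), IsInv i ρ →
  ∀ (z : Ber K C) (a : C), (∀ g, act ρ g z = z → ρ g a = a) → ∀ ε : ℝ, 0 < ε →
  ∃ b r : R, z.v (i r) ≠ 0 ∧ z.v (i r * a - i b) < ε * z.v (i r)

/-! ### Degree one -/

/-- `A` is algebraic and separable over `R`. -/
def SepAlg {K R A : Type} [NormedField K] [CommRing R] [CommRing A] [Algebra K R] [Algebra K A]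
    (φ : R →ₐ[K] A) : Prop :=
  ∀ a : A, ∃ P : R[X], (P.map (algebraMap R (FractionRing R))).Separable ∧
    P.eval₂ φ.toRingHom a = 0

/-- The algebraic data of (Q9): `C` is the integral closure of `R` in a Galois extension `L` of
`Frac R` containing `A`, with group `G`; `B = A·C ⊆ L`, `H = Gal(L/Frac A)`. -/
structure DegData {K R A C B G : Type} [NormedField K] [CommRing R] [CommRing A] [CommRing C]
    [CommRing B] [Algebra K R] [Algebra K A] [Algebra K C] [Algebra K B] [Group G]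
    (φ : R →ₐ[K] A) (i : R →ₐ[K] C) (α : A →ₐ[K] B) (γ : C →ₐ[K] B) (ρ : G →* (C ≃ₐ[K] C))
    (H : Subgroup G) (σ : H →* (B ≃ₐ[K] B)) : Prop where
  comm : ∀ r, α (φ r) = γ (i r)
  inv : IsInv i ρ
  inja : Function.Injective α
  injc : Function.Injective γ
  int : α.toRingHom.IsIntegral
  gen : Algebra.adjoin K (Set.range α ∪ Set.range γ) = ⊤
  actc : ∀ (h : H) c, σ h (γ c) = γ (ρ h c)
  acta : ∀ (h : H) a, σ h (α a) = α a
  fix : ∀ c, (∀ h : H, ρ h c = c) → ∃ a₁ a₂ : A, a₂ ≠ 0 ∧ γ c * α a₂ = α a₁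
  elt : ∀ a : A, φ.toRingHom.IsIntegralElem a → ∃ c, γ c = α a
  gal : ∀ t : G, (∀ c, (∀ h : H, ρ h c = c) → ρ t c = c) → t ∈ H
  alga : ∀ a : A, a ≠ 0 → ∃ (a' : A) (r : R), r ≠ 0 ∧ a * a' = φ r
  algc : ∀ c : C, c ≠ 0 → ∃ (c' : C) (r : R), r ≠ 0 ∧ c * c' = i r

/-- The data of (Q9): `F` compact, open in the part of `M(A)` over `Z`. -/
structure FData {K R A : Type} [NormedField K] [CommRing R] [CommRing A] [Algebra K R]
    [Algebra K A] (φ : R →ₐ[K] A) (Z : Set (Ber K R)) (F : Set (Ber K A)) : Prop where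
  closed : IsClosed Z
  comp : IsCompact F
  maps : ∀ z ∈ F, Ber.res φ z ∈ Z
  opn : ∀ z ∈ F, ∀ᶠ z' in 𝓝 z, Ber.res φ z' ∈ Z → z' ∈ F
  zmp : ∀ z ∈ F, Zmp φ z

/-- The data of (Q9) near the point `y₀`. -/
structure YData {K R A : Type} [NormedField K] [CommRing R] [CommRing A] [Algebra K R]
    [Algebra K A] (φ : R →ₐ[K] A) (F V : Set (Ber K A)) (Y : Set (Ber K R)) (y₀ : Ber K R) :
    Prop where
  nhd : ∀ z ∈ F, V ∈ 𝓝 z
  cls : y₀ ∈ closure Y
  ker : ∀ y ∈ Y, ∀ r, y.v r = 0 → r = 0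
  uniq : ∀ z ∈ V, ∀ z' ∈ V, Ber.res φ z ∈ Y → Ber.res φ z = Ber.res φ z' → z = z'
  dens : ∀ z ∈ V, Ber.res φ z ∈ Y → Dens φ z

/-- The set `W` of the proof of (Q9). -/
def WW {K A C B : Type} [NormedField K] [CommRing A] [CommRing C] [CommRing B] [Algebra K A]
    [Algebra K C] [Algebra K B] (α : A →ₐ[K] B) (γ : C →ₐ[K] B) (F : Set (Ber K A)) :
    Set (Ber K C) :=
  {w | ∃ b : Ber K B, Ber.res α b ∈ F ∧ Ber.res γ b = w}

/-- (Q9g) the Galois extension. -/
def Q9g_Stmt : Prop := ∀ (K R A : Type) [NormedField K] [CommRing R] [CommRing A] [Algebra K R]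
  [Algebra K A] [IsDomain R] [IsDomain A] (φ : R →ₐ[K] A), Function.Injective φ →
  φ.toRingHom.FiniteType → SepAlg φ → ∃ (L : Type) (_ : Field L)
    (_ : Algebra (FractionRing R) L) (j : A →+* L), IsGalois (FractionRing R) L ∧
    FiniteDimensional (FractionRing R) L ∧ Function.Injective j ∧
    ∀ r, j (φ r) = algebraMap (FractionRing R) L (algebraMap R (FractionRing R) r)

/-- (Q9b) the algebraic data. -/
def Q9b_Stmt : Prop := ∀ (K R A : Type) [NormedField K] [CommRing R] [CommRing A] [Algebra K R]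
  [Algebra K A] [IsDomain R] [IsIntegrallyClosed R] [IsDomain A] (φ : R →ₐ[K] A),
  Function.Injective φ → φ.toRingHom.FiniteType → SepAlg φ →
  ∃ (C B G : Type) (_ : CommRing C) (_ : Algebra K C) (_ : CommRing B) (_ : Algebra K B)
    (_ : IsDomain B) (_ : Group G) (_ : Finite G) (i : R →ₐ[K] C) (α : A →ₐ[K] B)
    (γ : C →ₐ[K] B) (ρ : G →* (C ≃ₐ[K] C)) (H : Subgroup G) (σ : H →* (B ≃ₐ[K] B)),
    DegData φ i α γ ρ H σ

/-- (Q9k) the map `M(B) → M(C)` near the points over `F`. -/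
def Q9k_Stmt : Prop := ∀ (K R A C B G : Type) [NormedField K] [CommRing R] [CommRing A]
  [CommRing C] [CommRing B] [Algebra K R] [Algebra K A] [Algebra K C] [Algebra K B] [Group G]
  (φ : R →ₐ[K] A) (i : R →ₐ[K] C) (α : A →ₐ[K] B) (γ : C →ₐ[K] B) (ρ : G →* (C ≃ₐ[K] C))
  (H : Subgroup G) (σ : H →* (B ≃ₐ[K] B)), DegData φ i α γ ρ H σ → ∀ b : Ber K B,
  Zmp φ (Ber.res α b) → (∀ b' : Ber K B, Ber.res γ b = Ber.res γ b' → b = b') ∧
    (∀ V ∈ 𝓝 b, Ber.res γ '' V ∈ 𝓝 (Ber.res γ b)) ∧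
    ∀ a : A, ∃ c₁ c₂ : C, (∀ h : H, ρ h c₁ = c₁) ∧ (∀ h : H, ρ h c₂ = c₂) ∧
      (Ber.res γ b).v c₂ ≠ 0 ∧ γ c₁ = γ c₂ * α a

/-- (Q9w) the set `W` is compact, open over `Z` and stable under `H`. -/
def Q9w_Stmt : Prop := ∀ (K R A C B G : Type) [NormedField K] [IsUltrametricDist K] [CommRing R]
  [CommRing A] [CommRing C] [CommRing B] [Algebra K R] [Algebra K A] [Algebra K C] [Algebra K B]
  [Group G] (φ : R →ₐ[K] A) (i : R →ₐ[K] C) (α : A →ₐ[K] B) (γ : C →ₐ[K] B)
  (ρ : G →* (C ≃ₐ[K] C)) (H : Subgroup G) (σ : H →* (B ≃ₐ[K] B)), DegData φ i α γ ρ H σ →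
  ∀ (Z : Set (Ber K R)) (F : Set (Ber K A)), FData φ Z F →
  IsCompact (WW α γ F) ∧ (∀ w ∈ WW α γ F, Ber.res i w ∈ Z) ∧
    (∀ w ∈ WW α γ F, ∀ᶠ w' in 𝓝 w, Ber.res i w' ∈ Z → w' ∈ WW α γ F) ∧
    ∀ w ∈ WW α γ F, ∀ h ∈ H, act ρ h w ∈ WW α γ F

/-- (Q9d) the degree is constant. -/
def Q9d_Stmt : Prop := ∀ (K R C G : Type) [NormedField K] [IsUltrametricDist K] [CommRing R]
  [CommRing C] [Algebra K R] [Algebra K C] [Group G] [Finite G] (i : R →ₐ[K] C)
  (ρ : G →* (C ≃ₐ[K] C)), IsInv i ρ → ∀ Z : Set (Ber K R), IsPreconnected Z →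
  ∀ W : Set (Ber K C), IsClosed W →
  (∀ w ∈ W, ∀ᶠ w' in 𝓝 w, Ber.res i w' ∈ Z → w' ∈ W) → ∀ w w' : Ber K C,
  Ber.res i w ∈ Z → Ber.res i w' ∈ Z →
  {g : G | act ρ g w ∈ W}.ncard = {g : G | act ρ g w' ∈ W}.ncard

/-- (Q9e) the degree at `y₀`. -/
def Q9e_Stmt : Prop := ∀ (K R A C B G : Type) [NormedField K] [IsUltrametricDist K] [CommRing R]
  [CommRing A] [CommRing C] [CommRing B] [Algebra K R] [Algebra K A] [Algebra K C] [Algebra K B]
  [IsDomain B] [Group G] [Finite G] (φ : R →ₐ[K] A) (i : R →ₐ[K] C) (α : A →ₐ[K] B)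
  (γ : C →ₐ[K] B) (ρ : G →* (C ≃ₐ[K] C)) (H : Subgroup G) (σ : H →* (B ≃ₐ[K] B)),
  DegData φ i α γ ρ H σ → ∀ (Z : Set (Ber K R)) (F V : Set (Ber K A)) (Y : Set (Ber K R))
  (y₀ : Ber K R), FData φ Z F → YData φ F V Y y₀ → ∀ w ∈ WW α γ F, Ber.res i w = y₀ →
  {g : G | act ρ g w ∈ WW α γ F} = (H : Set G)

/-- (Q9f) the conclusion for given algebraic data. -/
def Q9f_Stmt : Prop := ∀ (K R A C B G : Type) [NormedField K] [IsUltrametricDist K] [CommRing R]
  [CommRing A] [CommRing C] [CommRing B] [Algebra K R] [Algebra K A] [Algebra K C] [Algebra K B]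
  [IsDomain B] [Group G] [Finite G] (φ : R →ₐ[K] A) (i : R →ₐ[K] C) (α : A →ₐ[K] B)
  (γ : C →ₐ[K] B) (ρ : G →* (C ≃ₐ[K] C)) (H : Subgroup G) (σ : H →* (B ≃ₐ[K] B)),
  DegData φ i α γ ρ H σ → ∀ (Z : Set (Ber K R)) (F V : Set (Ber K A)) (Y : Set (Ber K R))
  (y₀ : Ber K R), FData φ Z F → IsPreconnected Z → YData φ F V Y y₀ →
  y₀ ∈ Ber.res φ '' F → Set.InjOn (Ber.res φ : Ber K A → Ber K R) F ∧ Ber.res φ '' F = Z ∧
    ∀ z ∈ F, Dens φ z

/-- (Q9) maps of degree one. -/
def Q9_Stmt : Prop := ∀ (K R A : Type) [NormedField K] [IsUltrametricDist K] [CommRing R]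
  [CommRing A] [Algebra K R] [Algebra K A] [IsDomain R] [IsIntegrallyClosed R] [IsDomain A]
  (φ : R →ₐ[K] A), Function.Injective φ → φ.toRingHom.FiniteType → SepAlg φ →
  ∀ (Z : Set (Ber K R)) (F V : Set (Ber K A)) (Y : Set (Ber K R)) (y₀ : Ber K R),
  FData φ Z F → IsPreconnected Z → YData φ F V Y y₀ → y₀ ∈ Ber.res φ '' F →
  Set.InjOn (Ber.res φ : Ber K A → Ber K R) F ∧ Ber.res φ '' F = Z ∧ ∀ z ∈ F, Dens φ z

end Pool.Agent.TD.Q


end

section

/-!
# (Q2) transitivity of a finite group on the fibres of `M(C) → M(C^G)` (MP_90358a_ag)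
-/

open scoped Topology NNReal

namespace Pool.Agent.TD.Q.Q2

/-- (Q2) from (Q1). -/
theorem main (h1 : Q1_Stmt) {K R C G : Type} [NormedField K] [CommRing R] [CommRing C]
    [Algebra K R] [Algebra K C] [Group G] [Finite G] (i : R →ₐ[K] C) (ρ : G →* (C ≃ₐ[K] C))
    (h : IsInv i ρ) (z₁ z₂ : Ber K C) (hz : Ber.res i z₁ = Ber.res i z₂) :
    ∃ g, z₂ = act ρ g z₁ := by
  classical
  have := Fintype.ofFinite G
  by_contra hc
  push Not at hc
  let S₀ : Finset (Ber K C) := Finset.univ.image fun g : G => act ρ g z₁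
  let S₁ : Finset (Ber K C) := Finset.univ.image fun g : G => act ρ g z₂
  have hS₀ : ∀ z ∈ S₀, Ber.res i z = Ber.res i z₁ := by
    intro z hzS
    obtain ⟨g, -, rfl⟩ := Finset.mem_image.1 hzS
    exact h.res_act g z₁
  have hS₁ : ∀ z ∈ S₁, Ber.res i z = Ber.res i z₁ := by
    intro z hzS
    obtain ⟨g, -, rfl⟩ := Finset.mem_image.1 hzS
    rw [h.res_act g z₂, hz]
  have hdis : Disjoint S₀ S₁ := by
    rw [Finset.disjoint_left]
    intro z hz0 hz1
    obtain ⟨g, -, hg⟩ := Finset.mem_image.1 hz0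
    obtain ⟨g', -, hg'⟩ := Finset.mem_image.1 hz1
    apply hc (g * g'⁻¹)
    rw [act_mul, hg, ← hg', act_inv_act]
  obtain ⟨b, r, hr, hb0, hb1⟩ := h1 K R C i h.isIntegral (Ber.res i z₁) S₀ S₁ hS₀ hS₁ hdis
    (1 / 2) (by norm_num)
  have hrpos : 0 < (Ber.res i z₁).v r := lt_of_le_of_ne ((Ber.res i z₁).nonneg r) (Ne.symm hr)
  set t := (Ber.res i z₁).v r with ht
  -- on the orbit of `z₁`, `|b| = t`
  have hv0 : ∀ g : G, z₁.v (ρ g b) = t := by
    intro g
    have hmem : act ρ g z₁ ∈ S₀ := Finset.mem_image_of_mem _ (Finset.mem_univ g)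
    have hres := hS₀ _ hmem
    have hval : (act ρ g z₁).v (i r) = t := by
      rw [ht, ← hres, Ber.res_v]
    have hlt : (act ρ g z₁).v (i r - b) < (act ρ g z₁).v (i r) := by
      rw [Ber.sub_comm, hval]
      have := hb0 _ hmem
      linarith
    have := Ber.sub_eq _ hlt
    rw [hval] at this
    exact this
  have hv1 : ∀ g : G, z₂.v (ρ g b) ≤ t / 2 := by
    intro g
    have hmem : act ρ g z₂ ∈ S₁ := Finset.mem_image_of_mem _ (Finset.mem_univ g)
    have := hb1 _ hmem
    rw [act_v] at this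
    linarith
  -- the norm of `b`
  have hinv : ∀ g : G, ρ g (∏ g' : G, ρ g' b) = ∏ g' : G, ρ g' b := by
    intro g
    rw [map_prod]
    refine Fintype.prod_equiv (Equiv.mulLeft g) _ _ fun g' => ?_
    rw [Equiv.coe_mulLeft, map_mul]
    rfl
  obtain ⟨r', hr'⟩ := h.inv _ hinv
  have e0 : z₁.v (i r') = t ^ Fintype.card G := by
    rw [hr', Ber.prod, Finset.prod_congr rfl fun g _ => hv0 g, Finset.prod_const,
      Finset.card_univ]
  have e1 : z₂.v (i r') ≤ (t / 2) ^ Fintype.card G := by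
    rw [hr', Ber.prod]
    calc ∏ g : G, z₂.v (ρ g b) ≤ ∏ _g : G, t / 2 :=
          Finset.prod_le_prod (fun g _ => z₂.nonneg _) fun g _ => hv1 g
      _ = _ := by rw [Finset.prod_const, Finset.card_univ]
  have e2 : z₁.v (i r') = z₂.v (i r') := by
    rw [← Ber.res_v, ← Ber.res_v, hz]
  have hcard : Fintype.card G ≠ 0 := Fintype.card_ne_zero
  have e3 : (t / 2) ^ Fintype.card G < t ^ Fintype.card G :=
    pow_lt_pow_left₀ (by linarith) (by linarith) hcard
  rw [e0] at e2
  linarith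

end Pool.Agent.TD.Q.Q2

theorem Pool.Agent.TD.Q.Q2_thm (h1 : Pool.Agent.TD.Q.Q1_Stmt) : Pool.Agent.TD.Q.Q2_Stmt :=
  fun _ _ _ _ _ _ _ _ _ _ _ i ρ h z₁ z₂ hz => Pool.Agent.TD.Q.Q2.main h1 i ρ h z₁ z₂ hz


end

section

/-!
# (Q2') openness for rings of invariants of finite groups
-/

open scoped Topology NNReal

namespace Pool.Agent.TD.Q

theorem Q2o_thm (h2 : Q2_Stmt) : Q2o_Stmt := by
  intro K R C G _ _ _ _ _ _ _ _ i ρ hi U hU
  have hsurj : Function.Surjective (Ber.res i : Ber K C → Ber K R) :=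
    int_surj i hi.inj hi.isIntegral
  have hclosed : IsClosedMap (Ber.res i : Ber K C → Ber K R) := int_closed i hi.isIntegral
  -- the saturation of `U` is open
  have hsat : IsOpen (⋃ g : G, act ρ g ⁻¹' U) :=
    isOpen_iUnion fun g => hU.preimage (act_continuous ρ g)
  have him : (Ber.res i '' U)ᶜ = Ber.res i '' (⋃ g : G, act ρ g ⁻¹' U)ᶜ := by
    ext y
    constructor
    · intro hy
      obtain ⟨z, rfl⟩ := hsurj y
      refine ⟨z, ?_, rfl⟩
      intro hz
      rw [Set.mem_iUnion] at hz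
      obtain ⟨g, hg⟩ := hz
      exact hy ⟨act ρ g z, hg, hi.res_act g z⟩
    · rintro ⟨z, hz, rfl⟩ ⟨u, hu, huz⟩
      apply hz
      rw [Set.mem_iUnion]
      obtain ⟨g, hg⟩ := h2 K R C G i ρ hi z u huz.symm
      refine ⟨g, ?_⟩
      show act ρ g z ∈ U
      rw [← hg]
      exact hu
  rw [← isClosed_compl_iff, him]
  exact hclosed _ hsat.isClosed_compl

end Pool.Agent.TD.Q


end

section

/-!
# (Q3c): the coefficients of a polynomial with small roots are small (MP_90358a_ag)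
-/

open scoped Topology NNReal
open Polynomial

namespace Pool.Agent.TD.Q

namespace Q3c

theorem aux {H L : Type} [NormedField H] [Field L] [Algebra H L] (N : Ber H L) (t : ℝ)
    (ht : 0 ≤ t) (s : Multiset L) (hs : ∀ a ∈ s, N.v a ≤ t) :
    ∀ k ≤ Multiset.card s,
      N.v ((s.map fun a => X - C a).prod.coeff (Multiset.card s - k)) ≤ t ^ k := by
  induction s using Multiset.induction_on with
  | empty =>
    intro k hk
    have hk0 : k = 0 := by simpa using hk
    subst hk0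
    simp [N.one]
  | cons a s ih =>
    intro k hk
    have hs' : ∀ b ∈ s, N.v b ≤ t := fun b hb => hs b (Multiset.mem_cons_of_mem hb)
    have ha : N.v a ≤ t := hs a (Multiset.mem_cons_self a s)
    have ih' := ih hs'
    rw [Multiset.card_cons] at hk ⊢
    rw [Multiset.map_cons, Multiset.prod_cons]
    set Q : L[X] := (s.map fun a => X - C a).prod with hQ
    have hQm : Q.Monic := monic_multiset_prod_of_monic _ _ fun b _ => monic_X_sub_C b
    have hQd : Q.natDegree = Multiset.card s := natDegree_multiset_prod_X_sub_C_eq_card s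
    rcases k with _ | j
    · rw [Nat.sub_zero, pow_zero, sub_mul, coeff_sub, coeff_X_mul, coeff_C_mul,
        coeff_eq_zero_of_natDegree_lt (p := Q) (n := Multiset.card s + 1) (by omega), mul_zero,
        sub_zero]
      have h1 : Q.coeff (Multiset.card s) = 1 := by
        rw [← hQd]
        exact hQm.coeff_natDegree
      rw [h1, N.one]
    · have hj : j ≤ Multiset.card s := by omega
      have hm : Multiset.card s + 1 - (j + 1) = Multiset.card s - j := by omega
      rw [hm, sub_mul, coeff_sub, coeff_C_mul]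
      refine (N.sub _ _).trans (max_le ?_ ?_)
      · rcases Nat.eq_zero_or_pos (Multiset.card s - j) with h0 | h0
        · rw [h0, coeff_X_mul_zero, N.zero]
          positivity
        · obtain ⟨m, hm'⟩ : ∃ m, Multiset.card s - j = m + 1 :=
            ⟨Multiset.card s - j - 1, by omega⟩
          rw [hm', coeff_X_mul]
          have h2 := ih' (j + 1) (by omega)
          rwa [show Multiset.card s - (j + 1) = m by omega] at h2
      · rw [N.mul, pow_succ']
        exact mul_le_mul ha (ih' j hj) (N.nonneg _) ht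

end Q3c

theorem Q3c_thm : Q3c_Stmt := by
  intro H L _ _ _ _ N P t hP ht hr k hk
  have hs : P.Splits := IsAlgClosed.splits P
  have h1 := hs.eq_prod_roots_of_monic hP
  have h2 : Multiset.card P.roots = P.natDegree := (splits_iff_card_roots.1 hs)
  have h3 := Q3c.aux N t ht P.roots (fun a ha => hr a (by
    have := (mem_roots'.1 ha).2
    exact this)) k (by omega)
  rw [h2, ← h1] at h3
  exact h3

end Pool.Agent.TD.Q


end

section

/-!
# (Q3) openness of finite maps to normal spaces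
-/

open scoped Topology NNReal
open Polynomial

namespace Pool.Agent.TD.Q

theorem Q3a_thm (h1 : Q1_Stmt) (hF : QF_Stmt) (h3 : Q3b_Stmt) : Q3a_Stmt := by
  intro K R C _ _ _ _ _ _ _ _ _ φ hinj hfin V hV
  have hint : φ.toRingHom.IsIntegral := RingHom.Finite.to_isIntegral hfin
  rw [isOpen_iff_mem_nhds]
  rintro _ ⟨z, hz, rfl⟩
  by_contra hn
  set y : Ber K R := Ber.res φ z with hy
  have hfS : {z' : Ber K C | Ber.res φ z' = y ∧ z' ∉ V}.Finite :=
    (hF K R C φ hfin y).subset fun z' h => h.1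
  obtain ⟨b, r, hr, hb0, hb1⟩ := h1 K R C φ hint y {z} hfS.toFinset
    (fun z' hz' => by rw [Finset.mem_singleton.1 hz'])
    (fun z' hz' => ((Set.Finite.mem_toFinset hfS).1 hz').1)
    (by
      rw [Finset.disjoint_singleton_left]
      intro h
      exact ((Set.Finite.mem_toFinset hfS).1 h).2 hz) (1 / 2) (by norm_num)
  have hρ : 0 < y.v r := lt_of_le_of_ne (y.nonneg r) (Ne.symm hr)
  have hzr : z.v (φ r) = y.v r := rfl
  have hzb : z.v b = y.v r := by
    rw [← hzr]
    apply z.sub_eq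
    rw [z.sub_comm]
    have := hb0 z (Finset.mem_singleton_self z)
    rw [hzr]
    linarith
  obtain ⟨P, hPm, hP0, hP⟩ := h3 K R C φ hinj hint b
  set U : Set (Ber K C) := V ∪ {z' | z'.v b < 3 / 4 * z'.v (φ r)} with hU
  have hUo : IsOpen U := hV.union (isOpen_lt (Ber.continuous_v b)
    (continuous_const.mul (Ber.continuous_v (φ r))))
  have hcl : IsClosed (Ber.res φ '' Uᶜ) := int_closed φ hint _ hUo.isClosed_compl
  have hyN : y ∉ Ber.res φ '' Uᶜ := by
    rintro ⟨z', hz', hzy⟩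
    apply hz'
    by_cases hzV : z' ∈ V
    · exact Or.inl hzV
    · right
      have h4 := hb1 z' ((Set.Finite.mem_toFinset hfS).2 ⟨hzy, hzV⟩)
      have h5 : z'.v (φ r) = y.v r := congrArg (fun w : Ber K R => w.v r) hzy
      show z'.v b < 3 / 4 * z'.v (φ r)
      rw [h5]
      linarith
  have hN : (Ber.res φ '' Uᶜ)ᶜ ∈ 𝓝 y := hcl.isOpen_compl.mem_nhds hyN
  have hcy : y ∈ closure ((Ber.res φ '' Uᶜ)ᶜ \ (Ber.res φ '' V)) := by
    rw [mem_closure_iff_nhds]
    intro t ht
    by_contra he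
    rw [Set.not_nonempty_iff_eq_empty] at he
    apply hn
    refine Filter.mem_of_superset (Filter.inter_mem ht hN) ?_
    intro w hw
    by_contra hwV
    have : w ∈ t ∩ ((Ber.res φ '' Uᶜ)ᶜ \ (Ber.res φ '' V)) := ⟨hw.1, hw.2, hwV⟩
    rw [he] at this
    exact this
  have hk : ∀ k ≤ P.natDegree, y.v (P.coeff (P.natDegree - k)) ≤ (3 / 4 * y.v r) ^ k := by
    intro k hk
    have hc : IsClosed {w : Ber K R | w.v (P.coeff (P.natDegree - k)) ≤ (3 / 4 * w.v r) ^ k} :=
      isClosed_le (Ber.continuous_v _) ((continuous_const.mul (Ber.continuous_v r)).pow k)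
    refine closure_minimal ?_ hc hcy
    rintro w ⟨hw1, hw2⟩
    refine hP w (3 / 4 * w.v r) (mul_nonneg (by norm_num) (w.nonneg r)) ?_ k hk
    intro z' hz'
    have hzU : z' ∈ U := by
      by_contra hzU
      exact hw1 ⟨z', hzU, hz'⟩
    have hzV : z' ∉ V := fun hzV => hw2 ⟨z', hzV, hz'⟩
    rcases hzU with h | h
    · exact absurd h hzV
    · have h5 : z'.v (φ r) = w.v r := congrArg (fun w : Ber K R => w.v r) hz'
      have h6 : z'.v b < 3 / 4 * z'.v (φ r) := h
      rw [h5] at h6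
      exact h6.le
  rw [Polynomial.eval₂_eq_sum_range, Finset.sum_range_succ, hPm.coeff_natDegree, map_one,
    one_mul] at hP0
  have hbn : b ^ P.natDegree =
      -(∑ i ∈ Finset.range P.natDegree, φ.toRingHom (P.coeff i) * b ^ i) := by
    linear_combination hP0
  have hle : z.v (b ^ P.natDegree) ≤ 3 / 4 * y.v r ^ P.natDegree := by
    rw [hbn, z.neg]
    apply z.sum_le
    · positivity
    · intro i hi
      have hi' : i < P.natDegree := Finset.mem_range.1 hi
      rw [z.mul, z.pow, hzb]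
      have h7 : z.v (φ.toRingHom (P.coeff i)) = y.v (P.coeff i) := rfl
      rw [h7]
      have h8 := hk (P.natDegree - i) (Nat.sub_le _ _)
      rw [Nat.sub_sub_self hi'.le, mul_pow] at h8
      have h9 : ((3 : ℝ) / 4) ^ (P.natDegree - i) ≤ 3 / 4 := by
        calc ((3 : ℝ) / 4) ^ (P.natDegree - i) ≤ (3 / 4) ^ 1 :=
              pow_le_pow_of_le_one (by norm_num) (by norm_num) (by omega)
          _ = 3 / 4 := pow_one _
      have h10 : 0 < y.v r ^ (P.natDegree - i) := pow_pos hρ _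
      have h11 : 0 < y.v r ^ i := pow_pos hρ _
      calc y.v (P.coeff i) * y.v r ^ i ≤
            ((3 / 4) ^ (P.natDegree - i) * y.v r ^ (P.natDegree - i)) * y.v r ^ i :=
              mul_le_mul_of_nonneg_right h8 h11.le
        _ ≤ (3 / 4 * y.v r ^ (P.natDegree - i)) * y.v r ^ i :=
              mul_le_mul_of_nonneg_right (mul_le_mul_of_nonneg_right h9 h10.le) h11.le
        _ = 3 / 4 * y.v r ^ P.natDegree := by
              rw [mul_assoc, ← pow_add, Nat.sub_add_cancel hi'.le]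
  rw [z.pow, hzb] at hle
  have h12 : 0 < y.v r ^ P.natDegree := pow_pos hρ _
  linarith

end Pool.Agent.TD.Q


end

section

/-!
# (Q4)(iii) of PAPER2.md: the spectrum of `A[X]` has no non-empty compact open subset
-/

open scoped Topology NNReal
open Polynomial

namespace Pool.Agent.TD.Q

theorem Q4_thm : Q4_Stmt := by
  intro K A _ _ _ _ Ω hc ho
  rw [Set.eq_empty_iff_forall_notMem]
  intro z hz
  have hcont : Continuous fun s : ℝ≥0 => tr (shX K A) z s :=
    (continuous_tr (shX K A)).comp (continuous_const.prodMk continuous_id)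
  have h0 : (0 : ℝ≥0) ∈ (fun s : ℝ≥0 => tr (shX K A) z s) ⁻¹' Ω := by
    rw [Set.mem_preimage, tr_zero (shX_coeff_zero A)]
    exact hz
  have hT : (fun s : ℝ≥0 => tr (shX K A) z s) ⁻¹' Ω = Set.univ :=
    IsClopen.eq_univ ⟨hc.isClosed.preimage hcont, ho.preimage hcont⟩ ⟨0, h0⟩
  obtain ⟨M, hM⟩ := (hc.image (Ber.continuous_v (K := K) (X : A[X]))).bddAbove
  have h1 : ∀ s : ℝ≥0, (s : ℝ) ≤ M := by
    intro s
    have h2 : tr (shX K A) z s ∈ Ω := by
      have h3 : s ∈ (fun s : ℝ≥0 => tr (shX K A) z s) ⁻¹' Ω := by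
        rw [hT]
        exact Set.mem_univ s
      exact h3
    have h3 := hM (Set.mem_image_of_mem (fun w : Ber K A[X] => w.v X) h2)
    rw [tr_X z s (shX_X A)] at h3
    exact (le_max_right _ _).trans h3
  obtain ⟨n, hn⟩ := exists_nat_gt M
  have h2 := h1 (n : ℝ≥0)
  rw [NNReal.coe_natCast] at h2
  exact absurd h2 (not_le.2 hn)

end Pool.Agent.TD.Q


end

section

/-! Section Q of PAPER2.md: embeddings (module TD_Q_QE). -/

open scoped Topology NNReal

namespace Pool.Agent.TD.Q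

namespace QE

theorem v_smul {κ B : Type} [NormedField κ] [CommRing B] [Algebra κ B] (w : Ber κ B) (s : κ)
    (b : B) : w.v (s • b) = ‖s‖ * w.v b := by
  rw [Algebra.smul_def, w.mul, w.ext]

end QE

theorem QE_thm : QE_Stmt := by
  intro K κ A B _ _ _ _ _ _ j hj hs
  have key : ∀ b : B, ∃ (c : ℝ) (a : A), ∀ w : Ber κ B, w.v b = c * (Ber.comap j hj w).v a := by
    intro b
    obtain ⟨s, a, rfl⟩ := hs b
    exact ⟨‖s‖, a, fun w => QE.v_smul w s _⟩
  have hinj : Function.Injective (Ber.comap j hj : Ber κ B → Ber K A) := by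
    intro w w' h
    apply Ber.ext_v
    intro b
    obtain ⟨c, a, hb⟩ := key b
    rw [hb w, hb w', h]
  refine ⟨⟨le_antisymm (Ber.comap_continuous j hj).le_induced ?_⟩, hinj⟩
  have h1 : @Continuous (Ber κ B) (B → ℝ)
      (TopologicalSpace.induced (Ber.comap j hj : Ber κ B → Ber K A) inferInstance) _ Ber.v := by
    refine @continuous_pi _ _ _ (_) _ _ fun b => ?_
    obtain ⟨c, a, hb⟩ := key b
    have h2 : (fun w : Ber κ B => w.v b) = fun w => c * (Ber.comap j hj w).v a := funext hb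
    rw [h2]
    have h3 : Continuous fun z : Ber K A => c * z.v a :=
      continuous_const.mul (Ber.continuous_v a)
    exact @Continuous.comp (Ber κ B) (Ber K A) ℝ (_) _ _ (Ber.comap j hj)
      (fun z => c * z.v a) h3 continuous_induced_dom
  exact continuous_iff_le_induced.mp h1

end Pool.Agent.TD.Q


end

section

/-!
# (Q5a) of PAPER2.md: compact open sets, domains (MP_90358a_ag)
-/

open scoped Topology NNReal
open Polynomial

namespace Pool.Agent.TD.Q

namespace Q5a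

/-- The spectrum of a polynomial ring in at least one variable has no non-empty compact open
subset. -/
theorem no_compact_open (h4 : Q4_Stmt) {κ : Type} [NormedField κ] [IsUltrametricDist κ] (n : ℕ)
    (Ω : Set (Ber κ (MvPolynomial (Fin (n + 1)) κ))) (hc : IsCompact Ω) (ho : IsOpen Ω) :
    Ω = ∅ := by
  have e : MvPolynomial (Fin (n + 1)) κ ≃ₐ[κ] (MvPolynomial (Fin n) κ)[X] :=
    MvPolynomial.finSuccEquiv κ n
  have hco : IsCompact (Ber.res e.symm.toAlgHom '' Ω) := hc.image (Ber.res_continuous _)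
  have him : Ber.res e.symm.toAlgHom '' Ω = (Ber.res e.toAlgHom) ⁻¹' Ω := by
    ext z
    constructor
    · rintro ⟨w, hw, rfl⟩
      have h : Ber.res e.toAlgHom (Ber.res e.symm.toAlgHom w) = w := by
        apply Ber.ext_v
        intro a
        rw [Ber.res_v, Ber.res_v]
        exact congrArg w.v (e.symm_apply_apply a)
      rw [Set.mem_preimage, h]
      exact hw
    · intro hz
      refine ⟨_, hz, ?_⟩
      apply Ber.ext_v
      intro a
      rw [Ber.res_v, Ber.res_v]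
      exact congrArg z.v (e.apply_symm_apply a)
  have hop : IsOpen (Ber.res e.symm.toAlgHom '' Ω) := by
    rw [him]
    exact ho.preimage (Ber.res_continuous _)
  have := h4 κ (MvPolynomial (Fin n) κ) _ hco hop
  exact Set.image_eq_empty.1 this

end Q5a

theorem Q5a_thm (h3 : Q3_Stmt) (h4 : Q4_Stmt) : Q5a_Stmt := by
  intro κ B _ _ _ _ _ _ Ω hc ho hne
  obtain ⟨s, g, hinj, hfin⟩ := exists_finite_inj_algHom_of_fg κ B
  have hopen := h3 κ (MvPolynomial (Fin s) κ) B g hinj hfin.to_isIntegral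
  have hc' : IsCompact (Ber.res g '' Ω) := hc.image (Ber.res_continuous _)
  have ho' : IsOpen (Ber.res g '' Ω) := hopen _ ho
  rcases s with _ | n
  · letI := g.toRingHom.toAlgebra
    haveI : Module.Finite (MvPolynomial (Fin 0) κ) B := hfin
    have hF : IsField (MvPolynomial (Fin 0) κ) :=
      MulEquiv.isField (Field.toIsField κ) (MvPolynomial.isEmptyAlgEquiv κ (Fin 0)).toMulEquiv
    exact isField_of_isIntegral_of_isField' hF
  · exact absurd (Q5a.no_compact_open h4 n _ hc' ho') (hne.image _).ne_empty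

end Pool.Agent.TD.Q


end

section

/-!
# (Q7): quasi-finite maps to normal spaces are open (MP_90358a_ag)
-/

open scoped Topology NNReal
open Polynomial

namespace Pool.Agent.TD.Q

/-- (Q7) quasi-finite maps to normal spaces are open, from the finite case (Q3) and (Q7a). -/
theorem Q7_thm (h3 : Q3_Stmt) (h7 : Q7a_Stmt) : Q7_Stmt := by
  intro K R A _ _ _ _ _ _ _ _ _ φ hφ z hz V hV
  letI : Algebra R A := φ.toRingHom.toAlgebra
  haveI : IsScalarTower K R A := IsScalarTower.of_algebraMap_eq fun c => (φ.commutes c).symm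
  let ψ : integralClosure R A →ₐ[K] A :=
    { (integralClosure R A).val.toRingHom with
      commutes' := fun c => rfl }
  let φ' : R →ₐ[K] integralClosure R A :=
    { algebraMap R (integralClosure R A) with
      commutes' := fun c => Subtype.ext (φ.commutes c) }
  have hψv : ∀ x, ψ x = x.1 := fun _ => rfl
  have hφv : ∀ r, (φ' r).1 = φ r := fun _ => rfl
  obtain ⟨g, hg0, hgi, hgx⟩ := hz
  have hψ : Function.Injective ψ := Subtype.val_injective
  have hφ' : Function.Injective φ' := fun a b h => hφ (by rw [← hφv, ← hφv, h])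
  have hint : φ'.toRingHom.IsIntegral := by
    intro x
    have h1 : IsIntegral R x := Algebra.IsIntegral.isIntegral x
    exact h1
  have h1 := (h7 K (integralClosure R A) A ψ ⟨g, hgi⟩ hψ (fun x => by
    obtain ⟨m, hm⟩ := hgx x
    exact ⟨m, ⟨g ^ m * x, hm⟩, rfl⟩)).2.2 z hg0 V hV
  have h2 := (h3 K R (integralClosure R A) φ' hφ' hint).image_mem_nhds h1
  have h3 : ∀ w, Ber.res φ' (Ber.res ψ w) = Ber.res φ w := fun w => Ber.ext_v fun r => rfl
  rw [Set.image_image] at h2
  simp only [h3] at h2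
  exact h2

end Pool.Agent.TD.Q


end

section

/-!
# (Q9w): the set `W` is compact, open over `Z` and stable under `H`
-/

open scoped Topology NNReal
open Polynomial

namespace Pool.Agent.TD.Q

theorem Q9w_thm (h9 : Q9k_Stmt) : Q9w_Stmt := by
  intro K R A C B G _ _ _ _ _ _ _ _ _ _ _ φ i α γ ρ H σ hd Z F hF
  have hcα : Continuous (Ber.res α : Ber K B → Ber K A) := Ber.res_continuous α
  have hcγ : Continuous (Ber.res γ : Ber K B → Ber K C) := Ber.res_continuous γ
  have hWW : WW α γ F = Ber.res γ '' (Ber.res α ⁻¹' F) := rfl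
  have hcomm : ∀ b : Ber K B, Ber.res i (Ber.res γ b) = Ber.res φ (Ber.res α b) := by
    intro b
    apply Ber.ext_v
    intro r
    rw [Ber.res_v, Ber.res_v, Ber.res_v, Ber.res_v, hd.comm]
  refine ⟨?_, ?_, ?_, ?_⟩
  · rw [hWW]
    exact ((int_proper α hd.int).isCompact_preimage hF.comp).image hcγ
  · rintro w ⟨b, hb, rfl⟩
    rw [hcomm]
    exact hF.maps _ hb
  · rintro w ⟨b, hb, rfl⟩
    have h1 : ∀ᶠ b' in 𝓝 b, Ber.res φ (Ber.res α b') ∈ Z → Ber.res α b' ∈ F :=
      hcα.continuousAt.eventually (hF.opn _ hb)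
    have h2 := (h9 K R A C B G φ i α γ ρ H σ hd b (hF.zmp _ hb)).2.1 _ h1
    filter_upwards [h2] with w' hw' hZ
    obtain ⟨b', hb', rfl⟩ := hw'
    rw [hcomm] at hZ
    exact ⟨b', hb' hZ, rfl⟩
  · rintro w ⟨b, hb, rfl⟩ h hh
    refine ⟨act σ ⟨h, hh⟩ b, ?_, ?_⟩
    · have h3 : Ber.res α (act σ ⟨h, hh⟩ b) = Ber.res α b := by
        apply Ber.ext_v
        intro a
        rw [Ber.res_v, act_v, hd.acta, Ber.res_v]
      rw [h3]
      exact hb
    · apply Ber.ext_v
      intro c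
      rw [Ber.res_v, act_v, hd.actc, act_v, Ber.res_v]

end Pool.Agent.TD.Q


end

section

/-!
# (Q9d) the degree is constant (MP_90358a_ag, section Q of PAPER2.md)
-/

open scoped Topology NNReal

namespace Pool.Agent.TD.Q

namespace Q9d

variable {K R C G : Type} [NormedField K] [CommRing R] [CommRing C] [Algebra K R] [Algebra K C]
  [Group G]

/-- the number of translates of `w` in `W` does not change if `w` is moved by the group. -/
theorem ncard_act (ρ : G →* (C ≃ₐ[K] C)) (W : Set (Ber K C)) (s : G) (w : Ber K C) :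
    {g : G | act ρ g (act ρ s w) ∈ W}.ncard = {g : G | act ρ g w ∈ W}.ncard := by
  have h : (fun g : G => s * g) '' {g : G | act ρ g (act ρ s w) ∈ W} =
      {g : G | act ρ g w ∈ W} := by
    ext g
    constructor
    · rintro ⟨g', hg', rfl⟩
      show act ρ (s * g') w ∈ W
      rw [act_mul]
      exact hg'
    · intro hg
      refine ⟨s⁻¹ * g, ?_, by simp⟩
      show act ρ (s⁻¹ * g) (act ρ s w) ∈ W
      rw [← act_mul]
      simpa using hg
  rw [← h, Set.ncard_image_of_injective _ (mul_right_injective s)]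

/-- the set of the translates in `W` is locally constant over `Z`. -/
theorem eventually_eq [Finite G] {i : R →ₐ[K] C} {ρ : G →* (C ≃ₐ[K] C)} (h : IsInv i ρ)
    (Z : Set (Ber K R)) (W : Set (Ber K C)) (hW : IsClosed W)
    (hZ : ∀ w ∈ W, ∀ᶠ w' in 𝓝 w, Ber.res i w' ∈ Z → w' ∈ W) (w : Ber K C) :
    ∀ᶠ w' in 𝓝 w, Ber.res i w' ∈ Z → {g : G | act ρ g w' ∈ W} = {g : G | act ρ g w ∈ W} := by
  have h1 : ∀ g : G, ∀ᶠ w' in 𝓝 w, Ber.res i w' ∈ Z → (act ρ g w' ∈ W ↔ act ρ g w ∈ W) := by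
    intro g
    by_cases hg : act ρ g w ∈ W
    · have h2 := (act_continuous ρ g).continuousAt.eventually (hZ _ hg)
      filter_upwards [h2] with w' hw' hz
      refine ⟨fun _ => hg, fun _ => hw' ?_⟩
      rw [h.res_act]
      exact hz
    · have h2 : ∀ᶠ u in 𝓝 (act ρ g w), u ∉ W := hW.isOpen_compl.mem_nhds hg
      have h3 := (act_continuous ρ g).continuousAt.eventually h2
      filter_upwards [h3] with w' hw' _
      exact ⟨fun hc => absurd hc hw', fun hc => absurd hc hg⟩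
  filter_upwards [Filter.eventually_all.2 h1] with w' hw' hz
  ext g
  exact hw' g hz

end Q9d

/-- (Q9d) the degree is constant. -/
theorem Q9d_thm (h2 : Q2_Stmt) (h3 : Q2o_Stmt) : Q9d_Stmt := by
  intro K R C G _ _ _ _ _ _ _ _ i ρ hinv Z hZ W hW hl w w' hw hw'
  classical
  have hsurj : Function.Surjective (Ber.res i : Ber K C → Ber K R) :=
    int_surj i hinv.inj hinv.isIntegral
  -- the degree as a function on the base
  choose sec hsec using hsurj
  have hn : ∀ u : Ber K C, {g : G | act ρ g (sec (Ber.res i u)) ∈ W}.ncard =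
      {g : G | act ρ g u ∈ W}.ncard := by
    intro u
    obtain ⟨s, hs⟩ := h2 K R C G i ρ hinv u (sec (Ber.res i u)) (hsec _).symm
    rw [hs, Q9d.ncard_act]
  have hc : ContinuousOn (fun y : Ber K R => {g : G | act ρ g (sec y) ∈ W}.ncard) Z := by
    intro y hy
    have h4 := Q9d.eventually_eq hinv Z W hW hl (sec y)
    have h5 : Ber.res i '' {w' | Ber.res i w' ∈ Z →
        {g : G | act ρ g w' ∈ W} = {g : G | act ρ g (sec y) ∈ W}} ∈ 𝓝 y := by
      have h6 := (h3 K R C G i ρ hinv).image_mem_nhds h4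
      rwa [hsec] at h6
    have h7 : ∀ᶠ y' in 𝓝[Z] y, {g : G | act ρ g (sec y') ∈ W}.ncard =
        {g : G | act ρ g (sec y) ∈ W}.ncard := by
      filter_upwards [mem_nhdsWithin_of_mem_nhds h5, self_mem_nhdsWithin] with y' hy' hz
      obtain ⟨u, hu, rfl⟩ := hy'
      rw [hn u, hu hz]
    exact (continuousWithinAt_const (b := {g : G | act ρ g (sec y) ∈ W}.ncard)).congr_of_eventuallyEq
      h7 rfl
  have h8 := hZ.constant hc hw hw'
  simpa only [hn] using h8

end Pool.Agent.TD.Q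


end
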