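import Mathlib
import Pool.Agent.DolbM.C01
import Pool.Agent.DolbM.C27

/-! Parts: TD.Q.QS, TD.Q.Q6, TD.Q.Q7a, TD.Q.Q9g, TD.Q.Q9 -/

section

/-!
# (QS) closed embeddings (MP_90358a_ag, PAPER2.md, section Q; module TD_Q_QS)
-/

open scoped Topology NNReal

namespace Pool.Agent.TD.Q

namespace QS

section
variable {K A B : Type} [NormedField K] [CommRing A] [CommRing B] [Algebra K A] [Algebra K B]

/-- Two elements which differ by an element of the kernel have the same absolute value. -/
theorem v_eq {z : Ber K A} {a b : A} (h : z.v (a - b) = 0) : z.v a = z.v b := by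
  have h1 : ∀ a b : A, z.v (a - b) = 0 → z.v a ≤ z.v b := by
    intro a b h
    calc z.v a = z.v ((a - b) + b) := by rw [sub_add_cancel]
      _ ≤ max (z.v (a - b)) (z.v b) := z.add _ _
      _ ≤ z.v b := by rw [h]; exact max_le (z.nonneg _) le_rfl
  exact le_antisymm (h1 a b h) (h1 b a (by rw [z.sub_comm, h]))

theorem range_eq (φ : A →ₐ[K] B) (hφ : Function.Surjective φ) :
    Set.range (Ber.res φ : Ber K B → Ber K A) = {z | ∀ a, φ a = 0 → z.v a = 0} := by
  ext z
  constructor
  · rintro ⟨w, rfl⟩ a ha
    rw [Ber.res_v, ha]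
    exact w.zero
  · intro hz
    choose s hs using hφ
    have key : ∀ a a' : A, φ a = φ a' → z.v a = z.v a' := fun a a' h =>
      v_eq (hz (a - a') (by rw [map_sub, h, sub_self]))
    refine ⟨{ v := fun b => z.v (s b)
              nonneg := fun b => z.nonneg _
              one := ?_
              mul := ?_
              add := ?_
              ext := ?_ }, ?_⟩
    · rw [key (s 1) 1 (by rw [hs, map_one]), z.one]
    · intro a b
      rw [← z.mul]
      exact key _ _ (by rw [hs, map_mul, hs, hs])
    · intro a b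
      refine le_trans (le_of_eq ?_) (z.add (s a) (s b))
      exact key _ _ (by rw [hs, map_add, hs, hs])
    · intro c
      rw [← z.ext c]
      exact key _ _ (by rw [hs, φ.commutes])
    · apply Ber.ext_v
      intro a
      rw [Ber.res_v]
      exact key _ _ (by rw [hs])

theorem closed_range (φ : A →ₐ[K] B) :
    IsClosed {z : Ber K A | ∀ a, φ a = 0 → z.v a = 0} := by
  have : {z : Ber K A | ∀ a, φ a = 0 → z.v a = 0} =
      ⋂ a : {a : A // φ a = 0}, {z : Ber K A | z.v a.1 = 0} := by
    ext z
    constructor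
    · intro h
      exact Set.mem_iInter.2 fun a => h a.1 a.2
    · intro h a ha
      exact Set.mem_iInter.1 h ⟨a, ha⟩
  rw [this]
  exact isClosed_iInter fun a => isClosed_eq (Ber.continuous_v _) continuous_const

end

end QS

/-- (QS) -/
theorem QS_thm (hE : QE_Stmt) : QS_Stmt := by
  intro K A B _ _ _ _ _ φ hφ
  have h1 : Topology.IsEmbedding (Ber.res φ : Ber K B → Ber K A) := by
    refine hE K K A B φ.toRingHom _ fun b => ?_
    obtain ⟨a, ha⟩ := hφ b
    exact ⟨1, a, by rw [one_smul]; exact ha.symm⟩
  have h2 := QS.range_eq φ hφ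
  refine ⟨⟨h1, ?_⟩, h2⟩
  rw [h2]
  exact QS.closed_range φ

end Pool.Agent.TD.Q


end

section

/-!
# (Q6): compact open subsets of fibres (MP_90358a_ag)
-/

open scoped Topology NNReal TensorProduct

namespace Pool.Agent.TD.Q

namespace Q6

open T_RES

section
variable {K R : Type} [NormedField K] [CommRing R] [Algebra K R]

/-- The valuation of the residue field of the kernel of a point. -/
theorem exists_val (y : Ber K R) : ∃ v : Valuation y.ker.ResidueField ℝ≥0,
    ∀ r : R, ((v (algebraMap R y.ker.ResidueField r) : ℝ≥0) : ℝ) = y.v r := by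
  let p : Ideal R := y.ker
  have hle : p ≤ (val y).supp := by
    intro a ha
    rw [Valuation.mem_supp_iff]
    exact Subtype.ext ha
  have hge : (val y).supp ≤ p := by
    intro a ha
    rw [Valuation.mem_supp_iff] at ha
    show y.v a = 0
    rw [← val_apply, ha, NNReal.coe_zero]
  let vR : Valuation (R ⧸ p) ℝ≥0 := (val y).onQuot hle
  have hvR : ∀ a : R, (vR (Ideal.Quotient.mk p a) : ℝ) = y.v a := fun a => rfl
  have hS : nonZeroDivisors (R ⧸ p) ≤ vR.supp.primeCompl := by
    intro s hs
    rw [Ideal.mem_primeCompl_iff, Valuation.mem_supp_iff]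
    intro h0
    obtain ⟨a, rfl⟩ := Ideal.Quotient.mk_surjective s
    have h1 : y.v a = 0 := by rw [← hvR a, h0, NNReal.coe_zero]
    exact nonZeroDivisors.ne_zero hs (Ideal.Quotient.eq_zero_iff_mem.2 h1)
  let vL : Valuation p.ResidueField ℝ≥0 := vR.extendToLocalization hS p.ResidueField
  refine ⟨vL, fun r => ?_⟩
  have h1 : algebraMap R p.ResidueField r =
      algebraMap (R ⧸ p) p.ResidueField (Ideal.Quotient.mk p r) := rfl
  rw [h1, vR.extendToLocalization_apply_map_apply hS p.ResidueField]
  exact hvR r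

theorem exists_frac (y : Ber K R) (x : y.ker.ResidueField) : ∃ a b : R,
    algebraMap R y.ker.ResidueField b ≠ 0 ∧
      x * algebraMap R y.ker.ResidueField b = algebraMap R y.ker.ResidueField a := by
  obtain ⟨a', b', hb', hab⟩ := IsFractionRing.div_surjective (A := R ⧸ y.ker) x
  obtain ⟨a, rfl⟩ := Ideal.Quotient.mk_surjective a'
  obtain ⟨b, rfl⟩ := Ideal.Quotient.mk_surjective b'
  have hb : algebraMap R y.ker.ResidueField b ≠ 0 := by
    have h1 : algebraMap R y.ker.ResidueField b =
      algebraMap (R ⧸ y.ker) y.ker.ResidueField (Ideal.Quotient.mk y.ker b) := rfl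
    rw [h1]
    exact IsFractionRing.to_map_ne_zero_of_mem_nonZeroDivisors hb'
  refine ⟨a, b, hb, ?_⟩
  rw [← hab]
  exact div_mul_cancel₀ _ hb

end

end Q6

open Q6 T_RES in
theorem Q6_thm (h5 : Q5_Stmt) (h6 : Q6a_Stmt) : Q6_Stmt := by
  intro K R A _ _ _ _ _ _ φ hφ y U hU hc z hz hzy
  let _ : Algebra R A := φ.toRingHom.toAlgebra
  have : Algebra.FiniteType R A := hφ
  obtain ⟨vL, hvL⟩ := exists_val y
  have hfr := exists_frac y
  let nf : NormedField y.ker.ResidueField := (absOf vL).toNormedField
  have hnorm : ∀ x : y.ker.ResidueField, ‖x‖ = ((vL x : ℝ≥0) : ℝ) := fun x => rfl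
  have : IsUltrametricDist y.ker.ResidueField := by
    apply IsUltrametricDist.isUltrametricDist_of_forall_norm_add_le_max_norm
    intro a b
    exact absOf_add vL a b
  let ι : R →+* y.ker.ResidueField := algebraMap R y.ker.ResidueField
  let j : A →+* y.ker.Fiber A :=
    (Algebra.TensorProduct.includeRight : A →ₐ[R] y.ker.ResidueField ⊗[R] A).toRingHom
  have hj0 : ∀ r, j (φ r) = algebraMap y.ker.ResidueField (y.ker.Fiber A) (ι r) := by
    intro r
    exact (Algebra.TensorProduct.includeRight : A →ₐ[R] y.ker.ResidueField ⊗[R] A).commutes r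
  have hspan : Submodule.span y.ker.ResidueField (Set.range j) = ⊤ := by
    rw [eq_top_iff]
    rintro x -
    induction x using TensorProduct.induction_on with
    | zero => exact Submodule.zero_mem _
    | tmul s a =>
      have h1 : s ⊗ₜ[R] a = s • (j a : y.ker.Fiber A) := by
        show s ⊗ₜ[R] a = s • ((1 : y.ker.ResidueField) ⊗ₜ[R] a)
        rw [TensorProduct.smul_tmul', smul_eq_mul, mul_one]
      rw [h1]
      exact Submodule.smul_mem _ _ (Submodule.subset_span ⟨a, rfl⟩)
    | add a b ha hb => exact Submodule.add_mem _ ha hb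
  have hup : ∀ (E : Type) [Field E] (e : y.ker.ResidueField →+* E) (f : A →+* E),
      (∀ r, e (ι r) = f (φ r)) → ∃ F : y.ker.Fiber A →+* E,
      (∀ x, F (algebraMap y.ker.ResidueField (y.ker.Fiber A) x) = e x) ∧ ∀ a, F (j a) = f a := by
    intro E _ e f hef
    let _ : Algebra R E := (e.comp ι).toAlgebra
    let e' : y.ker.ResidueField →ₐ[R] E := { e with commutes' := fun r => rfl }
    let f' : A →ₐ[R] E := { f with commutes' := fun r => (hef r).symm }
    let F := Algebra.TensorProduct.productMap e' f'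
    refine ⟨F.toRingHom, fun x => ?_, fun a => ?_⟩
    · exact Algebra.TensorProduct.productMap_left_apply e' f' x
    · exact Algebra.TensorProduct.productMap_right_apply e' f' a
  obtain ⟨hj, hemb, hrange⟩ := h6 K R A y.ker.ResidueField (y.ker.Fiber A) φ y ι j hvL hfr hj0
    hspan hup
  have hcont : Continuous (Ber.comap j hj : Ber y.ker.ResidueField (y.ker.Fiber A) → Ber K A) :=
    Ber.comap_continuous j hj
  have hzr : z ∈ Set.range (Ber.comap j hj :
      Ber y.ker.ResidueField (y.ker.Fiber A) → Ber K A) := by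
    rw [hrange]
    exact hzy
  obtain ⟨w, hw⟩ := hzr
  have hΩ : IsCompact ((Ber.comap j hj :
      Ber y.ker.ResidueField (y.ker.Fiber A) → Ber K A) ⁻¹' U) := by
    have h1 := hemb.isCompact_preimage hc
    rwa [← hrange, Set.preimage_inter_range] at h1
  have hqf := h5 y.ker.ResidueField (y.ker.Fiber A) _ hΩ (hU.preimage hcont) w
    (show Ber.comap j hj w ∈ U by rw [hw]; exact hz)
  have hover : z.ker.LiesOver y.ker := by
    constructor
    ext r
    show y.v r = 0 ↔ z.v (φ r) = 0
    have h1 : y.v r = z.v (φ r) := by rw [← hzy, Ber.res_v]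
    rw [h1]
  have hQ : w.ker.comap (Algebra.TensorProduct.includeRight :
      A →ₐ[R] y.ker.ResidueField ⊗[R] A).toRingHom = z.ker := by
    ext a
    show w.v (j a) = 0 ↔ z.v a = 0
    rw [← hw, Ber.comap_v]
  have hq2 : Algebra.QuasiFiniteAt R z.ker :=
    Algebra.QuasiFiniteAt.of_quasiFiniteAt_residueField y.ker z.ker w.ker hQ
  obtain ⟨g, hg, hgi, hgx⟩ := Algebra.zariskisMainProperty_iff.1
    (Algebra.ZariskisMainProperty.of_finiteType (R := R) z.ker)
  exact ⟨g, hg, hgi, hgx⟩

end Pool.Agent.TD.Q


end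

section

/-!
# Section Q of PAPER2.md (MP_90358a_ag): (Q7a)
-/

set_option autoImplicit false

open scoped Topology NNReal

namespace Pool.Agent.TD.Q

namespace Q7a

variable {K C A : Type} [NormedField K] [CommRing C] [CommRing A] [Algebra K C] [Algebra K A]

theorem val_eq {ψ : C →ₐ[K] A} {g : C} (hψ : Function.Injective ψ) {w : Ber K C}
    (hw : w.v g ≠ 0) {x : A} {m m' : ℕ} {c c' : C} (h : ψ g ^ m * x = ψ c)
    (h' : ψ g ^ m' * x = ψ c') : w.v c / w.v g ^ m = w.v c' / w.v g ^ m' := by
  have h1 : g ^ m' * c = g ^ m * c' := by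
    apply hψ
    rw [map_mul, map_mul, map_pow, map_pow, ← h, ← h']
    ring
  have h2 := congrArg w.v h1
  rw [w.mul, w.mul, w.pow, w.pow] at h2
  rw [div_eq_div_iff (pow_ne_zero _ hw) (pow_ne_zero _ hw)]
  linarith

/-- The point over `w`. -/
noncomputable def pt (ψ : C →ₐ[K] A) (g : C) (hψ : Function.Injective ψ)
    (h : ∀ x : A, ∃ (m : ℕ) (c : C), ψ g ^ m * x = ψ c) (w : Ber K C) (hw : w.v g ≠ 0) :
    Ber K A where
  v x := w.v (h x).choose_spec.choose / w.v g ^ (h x).choose
  nonneg x := div_nonneg (w.nonneg _) (pow_nonneg (w.nonneg _) _)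
  one := by
    have h1 : ψ g ^ 0 * 1 = ψ 1 := by rw [pow_zero, one_mul, map_one]
    rw [val_eq hψ hw (h 1).choose_spec.choose_spec h1, w.one, pow_zero, div_one]
  mul x y := by
    have h1 : ψ g ^ ((h x).choose + (h y).choose) * (x * y) =
        ψ ((h x).choose_spec.choose * (h y).choose_spec.choose) := by
      rw [map_mul, ← (h x).choose_spec.choose_spec, ← (h y).choose_spec.choose_spec]
      ring
    rw [val_eq hψ hw (h (x * y)).choose_spec.choose_spec h1, w.mul, pow_add, mul_div_mul_comm]
  add x y := by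
    have hx : ψ g ^ ((h x).choose + (h y).choose) * x =
        ψ (g ^ (h y).choose * (h x).choose_spec.choose) := by
      rw [map_mul, map_pow, ← (h x).choose_spec.choose_spec]
      ring
    have hy : ψ g ^ ((h x).choose + (h y).choose) * y =
        ψ (g ^ (h x).choose * (h y).choose_spec.choose) := by
      rw [map_mul, map_pow, ← (h y).choose_spec.choose_spec]
      ring
    have hxy : ψ g ^ ((h x).choose + (h y).choose) * (x + y) =
        ψ (g ^ (h y).choose * (h x).choose_spec.choose +
          g ^ (h x).choose * (h y).choose_spec.choose) := by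
      rw [map_add, ← hx, ← hy, mul_add]
    rw [val_eq hψ hw (h (x + y)).choose_spec.choose_spec hxy,
      val_eq hψ hw (h x).choose_spec.choose_spec hx,
      val_eq hψ hw (h y).choose_spec.choose_spec hy,
      max_div_div_right (pow_nonneg (w.nonneg _) _)]
    exact div_le_div_of_nonneg_right (w.add _ _) (pow_nonneg (w.nonneg _) _)
  ext c := by
    have h1 : ψ g ^ 0 * algebraMap K A c = ψ (algebraMap K C c) := by
      rw [pow_zero, one_mul, ψ.commutes]
    rw [val_eq hψ hw (h _).choose_spec.choose_spec h1, w.ext, pow_zero, div_one]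

theorem pt_v {ψ : C →ₐ[K] A} {g : C} (hψ : Function.Injective ψ)
    (h : ∀ x : A, ∃ (m : ℕ) (c : C), ψ g ^ m * x = ψ c) {w : Ber K C} (hw : w.v g ≠ 0) {x : A}
    {m : ℕ} {c : C} (hx : ψ g ^ m * x = ψ c) : (pt ψ g hψ h w hw).v x = w.v c / w.v g ^ m :=
  val_eq hψ hw (h x).choose_spec.choose_spec hx

theorem res_pt {ψ : C →ₐ[K] A} {g : C} (hψ : Function.Injective ψ)
    (h : ∀ x : A, ∃ (m : ℕ) (c : C), ψ g ^ m * x = ψ c) {w : Ber K C} (hw : w.v g ≠ 0) :
    Ber.res ψ (pt ψ g hψ h w hw) = w := by
  apply Ber.ext_v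
  intro c
  have h1 : ψ g ^ 0 * ψ c = ψ c := by rw [pow_zero, one_mul]
  rw [Ber.res_v, pt_v hψ h hw h1, pow_zero, div_one]

theorem uniq {ψ : C →ₐ[K] A} {g : C} (h : ∀ x : A, ∃ (m : ℕ) (c : C), ψ g ^ m * x = ψ c)
    (z z' : Ber K A) (hz : z.v (ψ g) ≠ 0) (hzz : Ber.res ψ z = Ber.res ψ z') : z = z' := by
  have h1 : ∀ c, z.v (ψ c) = z'.v (ψ c) := by
    intro c
    rw [← Ber.res_v, ← Ber.res_v, hzz]
  apply Ber.ext_v
  intro x
  obtain ⟨m, c, hx⟩ := h x
  have h2 : z.v (ψ g) ^ m * z.v x = z.v (ψ c) := by rw [← hx, z.mul, z.pow]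
  have h3 : z'.v (ψ g) ^ m * z'.v x = z'.v (ψ c) := by rw [← hx, z'.mul, z'.pow]
  rw [← h1, ← h1, ← h2] at h3
  exact (mul_left_cancel₀ (pow_ne_zero m hz) h3).symm

end Q7a

open Q7a in
/-- (Q7a) -/
theorem Q7a_thm : Q7a_Stmt := by
  intro K C A _ _ _ _ _ ψ g hψ h
  classical
  refine ⟨fun w hw => ⟨pt ψ g hψ h w hw, res_pt hψ h hw⟩, fun z z' hz hzz => uniq h z z' hz hzz,
    fun z hz V hV => ?_⟩
  have hz' : (Ber.res ψ z).v g ≠ 0 := hz
  let S : Ber K C → Ber K A := fun w => if hw : w.v g ≠ 0 then pt ψ g hψ h w hw else z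
  have hS : ∀ w (hw : w.v g ≠ 0), S w = pt ψ g hψ h w hw := fun w hw => dif_pos hw
  have hSz : S (Ber.res ψ z) = z := by
    rw [hS _ hz']
    exact (uniq h z _ hz (res_pt hψ h hz').symm).symm
  have hopen : {w : Ber K C | w.v g ≠ 0} ∈ 𝓝 (Ber.res ψ z) :=
    (isOpen_ne_fun (Ber.continuous_v g) continuous_const).mem_nhds hz'
  have hcont : Filter.Tendsto S (𝓝 (Ber.res ψ z)) (𝓝 z) := by
    rw [Ber.isEmbedding_v.isInducing.tendsto_nhds_iff, tendsto_pi_nhds]
    intro x
    obtain ⟨m, c, hx⟩ := h x
    have h1 : z.v x = (Ber.res ψ z).v c / (Ber.res ψ z).v g ^ m := by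
      rw [← pt_v hψ h hz' hx, ← hS _ hz', hSz]
    have h2 : Filter.Tendsto (fun w : Ber K C => w.v c / w.v g ^ m) (𝓝 (Ber.res ψ z))
        (𝓝 ((Ber.res ψ z).v c / (Ber.res ψ z).v g ^ m)) :=
      ((Ber.continuous_v c).tendsto _).div (((Ber.continuous_v g).pow m).tendsto _)
        (pow_ne_zero _ hz')
    rw [h1]
    refine h2.congr' ?_
    filter_upwards [hopen] with w hw
    rw [Function.comp_apply, hS w hw, pt_v hψ h hw hx]
  filter_upwards [hopen, hcont hV] with w hw hwV
  refine ⟨S w, hwV, ?_⟩
  rw [hS w hw]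
  exact res_pt hψ h hw

end Pool.Agent.TD.Q


end

section

/-!
# (Q9g) The Galois extension

The fraction field of `A` is a finite separable extension of the fraction field of `R`; it is
contained in a finite Galois extension.
-/

set_option autoImplicit false

open Polynomial

namespace Pool.Agent.TD.Q

namespace Q9g

/-- A finite separable extension is contained in a finite Galois extension. -/
theorem exists_galois (F E : Type) [Field F] [Field E] [Algebra F E] [FiniteDimensional F E]
    [Algebra.IsSeparable F E] : ∃ (L : Type) (_ : Field L) (_ : Algebra F L) (_ : E →ₐ[F] L),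
      IsGalois F L ∧ FiniteDimensional F L := by
  have h1 : Algebra.IsSeparable F (SeparableClosure E) :=
    Algebra.IsSeparable.trans F E (SeparableClosure E)
  have h2 : IsSepClosure F (SeparableClosure E) := ⟨inferInstance, h1⟩
  have h3 : IsGalois F (SeparableClosure E) := inferInstance
  exact ⟨IntermediateField.normalClosure F E (SeparableClosure E), inferInstance, inferInstance,
    IsScalarTower.toAlgHom F E _, IsGalois.normalClosure F E (SeparableClosure E), inferInstance⟩

/-- If a field is generated by fractions of elements of a subring, and the subring is generated by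
finitely many separable elements, the field is finite and separable. -/
theorem fin_sep (F E : Type) [Field F] [Field E] [Algebra F E] (T : Set E) (hT : T.Finite)
    (hs : ∀ x ∈ T, IsSeparable F x) (htop : IntermediateField.adjoin F T = ⊤) :
    FiniteDimensional F E ∧ Algebra.IsSeparable F E := by
  have h1 : FiniteDimensional F (IntermediateField.adjoin F T) := by
    have := hT.to_subtype
    exact IntermediateField.finiteDimensional_adjoin fun x hx => (hs x hx).isIntegral
  have h2 : Algebra.IsSeparable F (IntermediateField.adjoin F T) :=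
    (IntermediateField.isSeparable_adjoin_iff_isSeparable F E).2 hs
  rw [htop] at h1 h2
  constructor
  · exact LinearEquiv.finiteDimensional
      (IntermediateField.topEquiv (F := F) (E := E)).toLinearEquiv
  · exact AlgEquiv.Algebra.isSeparable (IntermediateField.topEquiv (F := F) (E := E))

end Q9g

/-- **(Q9g) The Galois extension.** -/
theorem Q9g_thm : Q9g_Stmt := by
  intro K R A _ _ _ _ _ _ _ φ hφ hft hsep
  have hinj : Function.Injective ((algebraMap A (FractionRing A)).comp φ.toRingHom) :=
    (IsFractionRing.injective A (FractionRing A)).comp hφ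
  let _ : Algebra (FractionRing R) (FractionRing A) := (IsFractionRing.lift hinj).toAlgebra
  have hmap : ∀ r, algebraMap (FractionRing R) (FractionRing A) (algebraMap R (FractionRing R) r) =
      algebraMap A (FractionRing A) (φ r) := fun r => IsFractionRing.lift_algebraMap hinj r
  -- all elements of `A` are separable
  have hA : ∀ a : A, IsSeparable (FractionRing R) (algebraMap A (FractionRing A) a) := by
    intro a
    obtain ⟨P, hP, hPa⟩ := hsep a
    have h0 : aeval (algebraMap A (FractionRing A) a) (P.map (algebraMap R (FractionRing R))) =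
        0 := by
      rw [aeval_def, eval₂_map]
      have e1 : (algebraMap (FractionRing R) (FractionRing A)).comp
          (algebraMap R (FractionRing R)) = (algebraMap A (FractionRing A)).comp φ.toRingHom :=
        RingHom.ext hmap
      rw [e1, ← Polynomial.hom_eval₂, hPa, map_zero]
    exact hP.of_dvd (minpoly.dvd _ _ h0)
  -- the generators
  obtain ⟨S, hS⟩ : ∃ S : Finset A, ∀ a : A, a ∈ (Subring.closure
      (Set.range φ.toRingHom ∪ (S : Set A)) : Subring A) := by
    let _ : Algebra R A := φ.toRingHom.toAlgebra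
    have hft' : Algebra.FiniteType R A := hft
    obtain ⟨S, hS⟩ := hft'.out
    refine ⟨S, fun a => ?_⟩
    have ha : a ∈ Algebra.adjoin R (S : Set A) := hS ▸ Algebra.mem_top
    rw [← Subalgebra.mem_toSubring, Algebra.adjoin_eq_ring_closure] at ha
    exact ha
  obtain ⟨h1, h2⟩ := Q9g.fin_sep (FractionRing R) (FractionRing A)
    (algebraMap A (FractionRing A) '' (S : Set A)) (S.finite_toSet.image _) (by
      rintro _ ⟨a, -, rfl⟩
      exact hA a) (by
      rw [eq_top_iff]
      intro x _
      have hA' : ∀ a : A, algebraMap A (FractionRing A) a ∈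
          IntermediateField.adjoin (FractionRing R) (algebraMap A (FractionRing A) '' (S : Set A)) := by
        intro a
        have ha := hS a
        induction ha using Subring.closure_induction with
        | mem b hb =>
          rcases hb with ⟨r, rfl⟩ | hb
          · show algebraMap A (FractionRing A) (φ r) ∈ _
            rw [← hmap]
            exact IntermediateField.algebraMap_mem _ _
          · exact IntermediateField.subset_adjoin _ _ ⟨b, hb, rfl⟩
        | zero => rw [map_zero]; exact zero_mem _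
        | one => rw [map_one]; exact one_mem _
        | add b c _ _ hb hc => rw [map_add]; exact add_mem hb hc
        | neg b _ hb => rw [map_neg]; exact neg_mem hb
        | mul b c _ _ hb hc => rw [map_mul]; exact mul_mem hb hc
      obtain ⟨a, b, _, rfl⟩ := IsFractionRing.div_surjective (A := A) x
      exact div_mem (hA' a) (hA' b))
  obtain ⟨L, hL1, hL2, i, hL3, hL4⟩ := Q9g.exists_galois (FractionRing R) (FractionRing A)
  refine ⟨L, hL1, hL2, i.toRingHom.comp (algebraMap A (FractionRing A)), hL3, hL4,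
    i.toRingHom.injective.comp (IsFractionRing.injective A (FractionRing A)), fun r => ?_⟩
  show i (algebraMap A (FractionRing A) (φ r)) = _
  rw [← hmap, i.commutes]

end Pool.Agent.TD.Q


end

section

/-!
# (Q9) maps of degree one (MP_90358a_ag)
-/

open scoped Topology NNReal

theorem Pool.Agent.TD.Q.Q9_thm (hb : Pool.Agent.TD.Q.Q9b_Stmt) (hf : Pool.Agent.TD.Q.Q9f_Stmt) :
    Pool.Agent.TD.Q.Q9_Stmt := by
  intro K R A _ _ _ _ _ _ _ _ _ φ hφ hft hsep Z F V Y y₀ hF hZ hY hy₀
  obtain ⟨C, B, G, _, _, _, _, _, _, _, i, α, γ, ρ, H, σ, hd⟩ := hb K R A φ hφ hft hsep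
  exact hf K R A C B G φ i α γ ρ H σ hd Z F V Y y₀ hF hZ hY hy₀


end
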