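import Mathlib
import Pool.Agent.DolbM.C01
import Pool.Agent.DolbM.C27

/-! Parts: TD.Q.Q1, TD.Q.Q3b, TD.Q.Q8, TD.Q.Q9e -/

section

/-!
# (Q1) Separation of the points of a fibre of an integral homomorphism (MP_90358a_ag)
-/

open scoped Topology NNReal
open Polynomial

namespace Pool.Agent.TD.Q

namespace Q1

section
variable {H B : Type} [NormedField H] [CommRing B] [Algebra H B]

theorem v_smul (w : Ber H B) (h : H) (x : B) : w.v (h • x) = ‖h‖ * w.v x := by
  rw [Algebra.smul_def, w.mul, w.ext]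

/-- Approximation by fractions of `R` with coefficients in `C`. -/
theorem approx {K R C : Type} [NormedField K] [CommRing R] [CommRing C] [Algebra K R]
    [Algebra K C] (φ : R →ₐ[K] C) (y : Ber K R) (ι : R →+* H) (j : C →+* B) (hres : IsRes y ι)
    (hj : ∀ r, j (φ r) = algebraMap H B (ι r)) (hspan : Submodule.span H (Set.range j) = ⊤)
    (T : Finset (Ber H B)) (b₀ : B) : ∀ ε : ℝ, 0 < ε → ∃ (b : C) (r : R), ι r ≠ 0 ∧
      ∀ w ∈ T, w.v (b₀ - (ι r)⁻¹ • j b) ≤ ε := by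
  have hmem : b₀ ∈ Submodule.span H (Set.range j) := hspan ▸ Submodule.mem_top
  induction hmem using Submodule.span_induction with
  | mem x hx =>
    obtain ⟨c, rfl⟩ := hx
    intro ε hε
    refine ⟨c, 1, ?_, fun w _ => ?_⟩
    · rw [map_one]
      exact one_ne_zero
    · rw [map_one, inv_one, one_smul, sub_self, w.zero]
      exact hε.le
  | zero =>
    intro ε hε
    refine ⟨0, 1, ?_, fun w _ => ?_⟩
    · rw [map_one]
      exact one_ne_zero
    · rw [map_zero, smul_zero, sub_self, w.zero]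
      exact hε.le
  | add x₁ x₂ _ _ h₁ h₂ =>
    intro ε hε
    obtain ⟨b₁, r₁, hr₁, hb₁⟩ := h₁ ε hε
    obtain ⟨b₂, r₂, hr₂, hb₂⟩ := h₂ ε hε
    refine ⟨φ r₂ * b₁ + φ r₁ * b₂, r₁ * r₂, ?_, fun w hw => ?_⟩
    · rw [map_mul]
      exact mul_ne_zero hr₁ hr₂
    · have e : x₁ + x₂ - (ι (r₁ * r₂))⁻¹ • j (φ r₂ * b₁ + φ r₁ * b₂) =
          (x₁ - (ι r₁)⁻¹ • j b₁) + (x₂ - (ι r₂)⁻¹ • j b₂) := by
        have e1 : (ι (r₁ * r₂))⁻¹ • j (φ r₂ * b₁ + φ r₁ * b₂) =
            (ι r₁)⁻¹ • j b₁ + (ι r₂)⁻¹ • j b₂ := by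
          rw [map_mul, map_add, map_mul, map_mul, hj, hj, ← Algebra.smul_def, ← Algebra.smul_def,
            smul_add, smul_smul, smul_smul]
          congr 2
          · rw [mul_inv, mul_assoc, inv_mul_cancel₀ hr₂, mul_one]
          · rw [mul_inv, mul_right_comm, inv_mul_cancel₀ hr₁, one_mul]
        rw [e1]
        abel
      rw [e]
      exact (w.add _ _).trans (max_le (hb₁ w hw) (hb₂ w hw))
  | smul h x _ hx =>
    intro ε hε
    have hn : 0 < ‖h‖ + 1 := by positivity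
    obtain ⟨b, r, hr, hb⟩ := hx (ε / (‖h‖ + 1)) (by positivity)
    obtain ⟨M, hM⟩ : ∃ M, M = ∑ w ∈ T, w.v ((ι r)⁻¹ • j b) := ⟨_, rfl⟩
    have hM0 : 0 ≤ M := by
      rw [hM]
      exact Finset.sum_nonneg fun w _ => w.nonneg _
    have hMw : ∀ w ∈ T, w.v ((ι r)⁻¹ • j b) ≤ M := by
      intro w hw
      rw [hM]
      exact Finset.single_le_sum (f := fun w : Ber H B => w.v ((ι r)⁻¹ • j b))
        (fun w _ => w.nonneg _) hw
    obtain ⟨a, s, hs, has⟩ := hres.dense h (ε / (M + 1)) (by positivity)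
    refine ⟨φ a * b, s * r, ?_, fun w hw => ?_⟩
    · rw [map_mul]
      exact mul_ne_zero hs hr
    · have e : h • x - (ι (s * r))⁻¹ • j (φ a * b) =
          h • (x - (ι r)⁻¹ • j b) + (h - ι a / ι s) • ((ι r)⁻¹ • j b) := by
        have e1 : (ι (s * r))⁻¹ • j (φ a * b) = (ι a / ι s) • ((ι r)⁻¹ • j b) := by
          rw [map_mul, map_mul, hj, ← Algebra.smul_def, smul_smul, smul_smul]
          congr 1
          rw [mul_inv, div_eq_mul_inv]
          ring
        rw [e1, smul_sub, sub_smul]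
        abel
      rw [e]
      refine (w.add _ _).trans (max_le ?_ ?_)
      · rw [v_smul]
        calc ‖h‖ * w.v (x - (ι r)⁻¹ • j b) ≤ ‖h‖ * (ε / (‖h‖ + 1)) :=
              mul_le_mul_of_nonneg_left (hb w hw) (norm_nonneg h)
          _ ≤ (‖h‖ + 1) * (ε / (‖h‖ + 1)) := by
              have : 0 ≤ ε / (‖h‖ + 1) := by positivity
              nlinarith
          _ = ε := by field_simp
      · rw [v_smul]
        calc ‖h - ι a / ι s‖ * w.v ((ι r)⁻¹ • j b) ≤ (ε / (M + 1)) * M :=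
              mul_le_mul has.le (hMw w hw) (w.nonneg _) (by positivity)
          _ ≤ (ε / (M + 1)) * (M + 1) := by
              have : 0 ≤ ε / (M + 1) := by positivity
              nlinarith
          _ = ε := by field_simp

end

end Q1

open Q1 in
/-- (Q1) separation of points. -/
theorem Q1_thm (h0 : Q0_Stmt) (hU : QU_Stmt) : Q1_Stmt := by
  classical
  intro K R C _ _ _ _ _ φ hint y S₀ S₁ hS₀ hS₁ hdisj ε hε
  obtain ⟨H, B, iNF, iU, iC, iCR, iA, ι, j, hres, hj, hspan, hInt, -, hpt⟩ := h0 K R C φ y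
  have hIntB : Algebra.IsIntegral H B := hInt hint
  obtain ⟨hmax, hker⟩ := hU H B
  have hall : ∀ z : {z // z ∈ S₀ ∪ S₁}, ∃ w : Ber H B, ∀ c, w.v (j c) = z.1.v c := by
    rintro ⟨z, hz⟩
    rcases Finset.mem_union.mp hz with hz | hz
    · exact hpt z (hS₀ z hz)
    · exact hpt z (hS₁ z hz)
  choose W hW using hall
  have hWinj : ∀ z z', W z = W z' → z = z' := by
    intro z z' h
    apply Subtype.ext
    apply Ber.ext_v
    intro c
    rw [← hW z, ← hW z', h]
  -- the Chinese remainder theorem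
  have hcop : Pairwise (Function.onFun IsCoprime fun z : {z // z ∈ S₀ ∪ S₁} => (W z).ker) := by
    intro z z' hne
    have h1 : (W z).ker ≠ (W z').ker := fun h => hne (hWinj z z' (hker _ _ h))
    change IsCoprime (W z).ker (W z').ker
    rw [Ideal.isCoprime_iff_sup_eq]
    exact Ideal.IsMaximal.coprime_of_ne (hmax _) (hmax _) h1
  obtain ⟨b₀, hb₀⟩ := Ideal.exists_forall_sub_mem_ideal hcop
    (fun z : {z // z ∈ S₀ ∪ S₁} => if z.1 ∈ S₀ then (1 : B) else 0)
  obtain ⟨b, r, hr, hb⟩ := approx φ y ι j hres hj hspan (Finset.univ.image W) b₀ ε hε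
  have hyr : y.v r = ‖ι r‖ := (hres.norm r).symm
  have hb' : ∀ z, (W z).v (b₀ - (ι r)⁻¹ • j b) ≤ ε := fun z =>
    hb (W z) (Finset.mem_image_of_mem W (Finset.mem_univ z))
  have hjb : j b = ι r • ((ι r)⁻¹ • j b) := by
    rw [smul_smul, mul_inv_cancel₀ hr, one_smul]
  refine ⟨b, r, ?_, ?_, ?_⟩
  · rw [hyr]
    exact norm_ne_zero_iff.mpr hr
  · intro z hz
    have hzm : z ∈ S₀ ∪ S₁ := Finset.mem_union_left _ hz
    have h1 := hb₀ ⟨z, hzm⟩
    rw [Ber.mem_ker] at h1
    simp only [if_pos hz] at h1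
    have h2 : z.v (b - φ r) = (W ⟨z, hzm⟩).v (j (b - φ r)) := (hW ⟨z, hzm⟩ _).symm
    have h3 : j (b - φ r) = ι r • (-(b₀ - (ι r)⁻¹ • j b) + (b₀ - 1)) := by
      rw [map_sub, hj, Algebra.algebraMap_eq_smul_one]
      have h4 : -(b₀ - (ι r)⁻¹ • j b) + (b₀ - 1) = (ι r)⁻¹ • j b - 1 := by abel
      rw [h4, smul_sub, ← hjb]
    rw [h2, h3, v_smul, ← hyr, mul_comm]
    refine mul_le_mul_of_nonneg_right ?_ (y.nonneg r)
    refine ((W ⟨z, hzm⟩).add _ _).trans (max_le ?_ ?_)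
    · rw [(W ⟨z, hzm⟩).neg]
      exact hb' _
    · rw [h1]
      exact hε.le
  · intro z hz
    have hzm : z ∈ S₀ ∪ S₁ := Finset.mem_union_right _ hz
    have hz0 : z ∉ S₀ := fun h => Finset.disjoint_left.mp hdisj h hz
    have h1 := hb₀ ⟨z, hzm⟩
    rw [Ber.mem_ker] at h1
    simp only [if_neg hz0, sub_zero] at h1
    have h2 : z.v b = (W ⟨z, hzm⟩).v (j b) := (hW ⟨z, hzm⟩ _).symm
    have h3 : j b = ι r • (-(b₀ - (ι r)⁻¹ • j b) + b₀) := by
      have h4 : -(b₀ - (ι r)⁻¹ • j b) + b₀ = (ι r)⁻¹ • j b := by abel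
      rw [h4, ← hjb]
    rw [h2, h3, v_smul, ← hyr, mul_comm]
    refine mul_le_mul_of_nonneg_right ?_ (y.nonneg r)
    refine ((W ⟨z, hzm⟩).add _ _).trans (max_le ?_ ?_)
    · rw [(W ⟨z, hzm⟩).neg]
      exact hb' _
    · rw [h1]
      exact hε.le

end Pool.Agent.TD.Q


end

section

/-!
# (Q3b): the coefficients of the minimal polynomial (PAPER2.md, section Q, module TD_Q_Q3b)
-/

open scoped Topology NNReal
open Polynomial

namespace Pool.Agent.TD.Q

namespace Q3b

/-- Homomorphisms from `C` to an algebraically closed field with given values on `R` and at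
`b`. -/
theorem exists_hom {R C Ω : Type} [CommRing R] [CommRing C] [Algebra R C] [IsDomain R]
    [IsIntegrallyClosed R] [IsDomain C] [Algebra.IsIntegral R C] [Module.IsTorsionFree R C]
    [Field Ω] [IsAlgClosed Ω] (f : R →+* Ω) (b : C) (a : Ω)
    (ha : ((minpoly R b).map f).eval a = 0) :
    ∃ τ : C →+* Ω, (∀ r, τ (algebraMap R C r) = f r) ∧ τ b = a := by
  have hb : IsIntegral R b := Algebra.IsIntegral.isIntegral b
  have hA : Algebra.IsIntegral (Algebra.adjoin R ({b} : Set C)) C :=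
    Algebra.IsIntegral.tower_top (R := R)
  have hinj : Function.Injective (algebraMap (Algebra.adjoin R ({b} : Set C)) C) :=
    Subtype.val_injective
  have ha' : (minpoly R b).eval₂ f a = 0 := by rwa [Polynomial.eval_map] at ha
  let e := minpoly.equivAdjoin hb
  let g : Algebra.adjoin R ({b} : Set C) →+* Ω :=
    (AdjoinRoot.lift f a ha').comp (e.symm : Algebra.adjoin R ({b} : Set C) →+* _)
  obtain ⟨τ, hτ⟩ := T_LIFT.exists_extension (B := C) hinj g
  refine ⟨τ, fun r => ?_, ?_⟩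
  · have h1 := hτ (algebraMap R (Algebra.adjoin R ({b} : Set C)) r)
    rw [← IsScalarTower.algebraMap_apply] at h1
    rw [h1]
    show AdjoinRoot.lift f a ha' (e.symm (algebraMap R _ r)) = f r
    rw [AlgEquiv.commutes, AdjoinRoot.algebraMap_eq, AdjoinRoot.lift_of]
  · have h2 : e (AdjoinRoot.root (minpoly R b)) =
        ⟨b, Algebra.self_mem_adjoin_singleton R b⟩ := by
      apply Subtype.ext
      show ((AdjoinRoot.Minpoly.toAdjoin R b) (AdjoinRoot.root (minpoly R b)) : C) = b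
      exact AdjoinRoot.Minpoly.coe_toAdjoin_mk_X
    have h1 := hτ (e (AdjoinRoot.root (minpoly R b)))
    rw [h2] at h1
    have h3 : τ b = g ⟨b, Algebra.self_mem_adjoin_singleton R b⟩ := h1
    rw [h3, ← h2]
    show AdjoinRoot.lift f a ha' (e.symm (e (AdjoinRoot.root (minpoly R b)))) = a
    rw [AlgEquiv.symm_apply_apply, AdjoinRoot.lift_root]

end Q3b

/-- (Q3b) -/
theorem Q3b_thm (h3 : Q3c_Stmt) : Q3b_Stmt := by
  intro K R C _ _ _ _ _ _ _ _ _ φ hinj hint b
  let _ : Algebra R C := φ.toRingHom.toAlgebra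
  have hinj' : Function.Injective (algebraMap R C) := hinj
  have : Algebra.IsIntegral R C := ⟨hint⟩
  have : FaithfulSMul R C := (faithfulSMul_iff_algebraMap_injective R C).2 hinj'
  have : Module.IsTorsionFree R C := inferInstance
  have hb : IsIntegral R b := Algebra.IsIntegral.isIntegral b
  refine ⟨minpoly R b, minpoly.monic hb, minpoly.aeval R b, ?_⟩
  intro y t ht hz k hk
  obtain ⟨H, _, _, _, ι, hι⟩ := td_res K R y
  obtain ⟨N, -⟩ := td_ext H (AlgebraicClosure H)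
  have hN : ∀ r, N.v (((algebraMap H (AlgebraicClosure H)).comp ι) r) = y.v r := by
    intro r
    rw [RingHom.comp_apply, N.ext, hι.norm]
  have hm := minpoly.monic hb
  have key := h3 H (AlgebraicClosure H) N
    ((minpoly R b).map ((algebraMap H (AlgebraicClosure H)).comp ι)) t (hm.map _) ht ?_ k
    (by rwa [hm.natDegree_map])
  · rw [hm.natDegree_map, Polynomial.coeff_map, hN] at key
    exact key
  · intro a ha
    obtain ⟨τ, hτ1, hτ2⟩ := Q3b.exists_hom _ b a ha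
    have hτ : ∀ r : R, N.v (τ (φ r)) = y.v r := by
      intro r
      have h1 : τ (φ r) = ((algebraMap H (AlgebraicClosure H)).comp ι) r := hτ1 r
      rw [h1, hN]
    let z : Ber K C :=
      { v := fun c => N.v (τ c)
        nonneg := fun c => N.nonneg _
        one := by rw [map_one, N.one]
        mul := fun a b => by rw [map_mul, N.mul]
        add := fun a b => by rw [map_add]; exact N.add _ _
        ext := fun c => by
          have h1 : algebraMap K C c = φ (algebraMap K R c) := (φ.commutes c).symm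
          rw [h1, hτ, y.ext] }
    have hz1 : Ber.res φ z = y := Ber.ext_v fun r => hτ r
    have h4 := hz z hz1
    have h5 : z.v b = N.v a := by
      show N.v (τ b) = N.v a
      rw [hτ2]
    rwa [h5] at h4

end Pool.Agent.TD.Q


end

section

/-!
# (Q8) the trace argument (MP_90358a_ag)
-/

open scoped Topology NNReal

namespace Pool.Agent.TD.Q.Q8

section
variable {K R C G : Type} [NormedField K] [CommRing R] [CommRing C] [Algebra K R] [Algebra K C]
  [Group G]

/-- The decomposition group of `z`. -/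
def dec (ρ : G →* (C ≃ₐ[K] C)) (z : Ber K C) : Subgroup G where
  carrier := {g | act ρ g z = z}
  one_mem' := act_one ρ z
  mul_mem' := by
    intro a b ha hb
    show act ρ (a * b) z = z
    rw [act_mul, show act ρ a z = z from ha, show act ρ b z = z from hb]
  inv_mem' := by
    intro a ha
    show act ρ a⁻¹ z = z
    have h := act_inv_act ρ a z
    rwa [show act ρ a z = z from ha] at h

theorem mem_dec (ρ : G →* (C ≃ₐ[K] C)) (z : Ber K C) (g : G) :
    g ∈ dec ρ z ↔ act ρ g z = z := Iff.rfl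

/-- The restriction of the action to a subgroup. -/
abbrev rst (ρ : G →* (C ≃ₐ[K] C)) (D : Subgroup G) : D →* (C ≃ₐ[K] C) := ρ.comp D.subtype

/-- `R → C^D`. -/
def toInva (i : R →ₐ[K] C) (ρ : G →* (C ≃ₐ[K] C)) (h : IsInv i ρ) (D : Subgroup G) :
    R →ₐ[K] inva (rst ρ D) :=
  i.codRestrict (inva (rst ρ D)) fun r d => h.fix d r

theorem toInva_coe (i : R →ₐ[K] C) (ρ : G →* (C ≃ₐ[K] C)) (h : IsInv i ρ) (D : Subgroup G)
    (r : R) : ((toInva i ρ h D r : inva (rst ρ D)) : C) = i r := rfl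

theorem toInva_int [Finite G] (i : R →ₐ[K] C) (ρ : G →* (C ≃ₐ[K] C)) (h : IsInv i ρ)
    (D : Subgroup G) : (toInva i ρ h D).toRingHom.IsIntegral := by
  intro x
  obtain ⟨p, hp, hx⟩ := h.isIntegral (x : C)
  refine ⟨p, hp, ?_⟩
  apply Subtype.val_injective
  have h1 := Polynomial.hom_eval₂ p (toInva i ρ h D).toRingHom (inva (rst ρ D)).val.toRingHom x
  exact h1.trans hx

/-- The conjugates of an element of `C^D`. -/
def cnj (ρ : G →* (C ≃ₐ[K] C)) (D : Subgroup G) (x : C) (hx : ∀ d ∈ D, ρ d x = x) :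
    G ⧸ D → C :=
  Quotient.lift (fun g => ρ g x) (by
    intro g g' hg
    have h1 : g⁻¹ * g' ∈ D := QuotientGroup.leftRel_apply.1 hg
    have h2 : ρ (g * (g⁻¹ * g')) x = ρ g x := by
      rw [map_mul]
      show ρ g (ρ (g⁻¹ * g') x) = ρ g x
      rw [hx _ h1]
    rw [mul_inv_cancel_left] at h2
    exact h2.symm)

theorem cnj_mk (ρ : G →* (C ≃ₐ[K] C)) (D : Subgroup G) (x : C) (hx : ∀ d ∈ D, ρ d x = x)
    (g : G) : cnj ρ D x hx (g : G ⧸ D) = ρ g x := rfl

theorem cnj_smul (ρ : G →* (C ≃ₐ[K] C)) (D : Subgroup G) (x : C) (hx : ∀ d ∈ D, ρ d x = x)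
    (g : G) (q : G ⧸ D) : ρ g (cnj ρ D x hx q) = cnj ρ D x hx (g • q) := by
  induction q using QuotientGroup.induction_on with
  | H g' =>
    rw [MulAction.Quotient.smul_coe, cnj_mk, cnj_mk, smul_eq_mul, map_mul]
    rfl

theorem main (h1 : Q1_Stmt) (h2 : Q2_Stmt) [Finite G] (i : R →ₐ[K] C) (ρ : G →* (C ≃ₐ[K] C))
    (h : IsInv i ρ) (z : Ber K C) (a : C) (ha : ∀ g, act ρ g z = z → ρ g a = a) (ε : ℝ)
    (hε : 0 < ε) : ∃ b r : R, z.v (i r) ≠ 0 ∧ z.v (i r * a - i b) < ε * z.v (i r) := by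
  classical
  have := Fintype.ofFinite G
  set D := dec ρ z with hD
  have := Fintype.ofFinite (G ⧸ D)
  let ρ' := rst ρ D
  have hI := isInv_inva ρ'
  -- the points `act s z`, `s ∉ D`, restricted to `C^D`
  let rs : Ber K C → Ber K (inva ρ') := Ber.res (inva ρ').val
  have hne : ∀ s, s ∉ D → rs (act ρ s z) ≠ rs z := by
    intro s hs heq
    obtain ⟨d, hd⟩ := h2 K (inva ρ') C D (inva ρ').val ρ' hI z (act ρ s z) heq.symm
    apply hs
    rw [hD, mem_dec, hd]
    exact d.2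
  let S₁ : Finset (Ber K (inva ρ')) :=
    (Finset.univ.filter fun s : G => s ∉ D).image fun s => rs (act ρ s z)
  let φ' := toInva i ρ h D
  have hy0 : Ber.res φ' (rs z) = Ber.res i z := rfl
  have hS₁ : ∀ w ∈ S₁, Ber.res φ' w = Ber.res i z := by
    intro w hw
    obtain ⟨s, -, rfl⟩ := Finset.mem_image.1 hw
    exact h.res_act s z
  set M : ℝ := ∑ g : G, z.v (ρ g a) + 1 with hM
  have hMg : ∀ g : G, z.v (ρ g a) ≤ M := by
    intro g
    have h3 : z.v (ρ g a) ≤ ∑ g : G, z.v (ρ g a) :=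
      Finset.single_le_sum (f := fun g : G => z.v (ρ g a)) (fun g _ => z.nonneg _)
        (Finset.mem_univ g)
    linarith
  have hMa : z.v a ≤ M := by
    have := hMg 1
    rwa [map_one] at this
  have hMpos : 0 < M := by
    have h3 : 0 ≤ ∑ g : G, z.v (ρ g a) := Finset.sum_nonneg fun g _ => z.nonneg _
    linarith
  have hε' : 0 < ε / (2 * M) := by positivity
  obtain ⟨e, r, hr, he0, he1⟩ := h1 K R (inva ρ') φ' (toInva_int i ρ h D) (Ber.res i z) {rs z}
    S₁ (by
      intro w hw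
      rw [Finset.mem_singleton] at hw
      rw [hw, hy0]) hS₁ (by
      rw [Finset.disjoint_singleton_left]
      intro hmem
      obtain ⟨s, hs, hs'⟩ := Finset.mem_image.1 hmem
      exact hne s (Finset.mem_filter.1 hs).2 hs') (ε / (2 * M)) hε'
  have hr' : (Ber.res i z).v r = z.v (i r) := rfl
  rw [hr'] at hr
  have hrpos : 0 < z.v (i r) := lt_of_le_of_ne (z.nonneg _) (Ne.symm hr)
  have hMe : M * (ε / (2 * M) * z.v (i r)) = ε / 2 * z.v (i r) := by
    field_simp
  have hq0 : z.v ((e : C) - i r) ≤ ε / (2 * M) * z.v (i r) := he0 _ (Finset.mem_singleton_self _)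
  have hq1 : ∀ s, s ∉ D → z.v (ρ s (e : C)) ≤ ε / (2 * M) * z.v (i r) := by
    intro s hs
    exact he1 (rs (act ρ s z))
      (Finset.mem_image_of_mem _ (Finset.mem_filter.2 ⟨Finset.mem_univ s, hs⟩))
  have hx : ∀ d ∈ D, ρ d (a * (e : C)) = a * (e : C) := by
    intro d hd
    rw [map_mul, ha d hd]
    congr 1
    exact e.2 ⟨d, hd⟩
  let f := cnj ρ D (a * (e : C)) hx
  have hinv : ∀ g : G, ρ g (∑ q : G ⧸ D, f q) = ∑ q : G ⧸ D, f q := by
    intro g
    rw [map_sum]
    refine Fintype.sum_equiv (MulAction.toPerm g) _ _ fun q => ?_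
    rw [MulAction.toPerm_apply]
    exact cnj_smul ρ D _ hx g q
  obtain ⟨b, hb⟩ := h.inv _ hinv
  refine ⟨b, r, hr, ?_⟩
  have hsplit : i r * a - i b = a * (i r - (e : C)) -
      ∑ q ∈ Finset.univ.erase ((1 : G) : G ⧸ D), f q := by
    rw [hb, ← Finset.add_sum_erase Finset.univ f (Finset.mem_univ ((1 : G) : G ⧸ D))]
    have : f ((1 : G) : G ⧸ D) = a * (e : C) := by
      show ρ 1 (a * (e : C)) = _
      rw [map_one]
      rfl
    rw [this]
    ring
  have hb0 : 0 ≤ ε / 2 * z.v (i r) := by positivity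
  have hle : z.v (i r * a - i b) ≤ ε / 2 * z.v (i r) := by
    rw [hsplit]
    refine (z.sub _ _).trans (max_le ?_ (z.sum_le _ _ hb0 fun q hq => ?_))
    · rw [z.mul, z.sub_comm, ← hMe]
      exact mul_le_mul hMa hq0 (z.nonneg _) hMpos.le
    · induction q using QuotientGroup.induction_on with
      | H s =>
        have hs : s ∉ D := by
          intro hs
          apply (Finset.mem_erase.1 hq).1
          rw [QuotientGroup.eq, mul_one]
          exact D.inv_mem hs
        show z.v (ρ s (a * (e : C))) ≤ _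
        rw [map_mul, z.mul, ← hMe]
        exact mul_le_mul (hMg s) (hq1 s hs) (z.nonneg _) hMpos.le
  have : ε / 2 * z.v (i r) < ε * z.v (i r) := by
    apply mul_lt_mul_of_pos_right _ hrpos
    linarith
  linarith

end

end Pool.Agent.TD.Q.Q8

theorem Pool.Agent.TD.Q.Q8_thm (h1 : Pool.Agent.TD.Q.Q1_Stmt) (h2 : Pool.Agent.TD.Q.Q2_Stmt) :
    Pool.Agent.TD.Q.Q8_Stmt :=
  fun _ _ _ _ _ _ _ _ _ _ _ i ρ h z a ha ε hε => Pool.Agent.TD.Q.Q8.main h1 h2 i ρ h z a ha ε hε


end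

section

/-!
# (Q9e) the degree at `y₀` (MP_90358a_ag, PAPER2.md, section Q)
-/

open scoped Topology NNReal

namespace Pool.Agent.TD.Q.Q9e

section approx
variable {K R A : Type} [NormedField K] [CommRing R] [CommRing A] [Algebra K R] [Algebra K A]

/-- quotients of approximable elements are approximable -/
theorem quot {φ : R →ₐ[K] A} {z : Ber K A} (hd : Dens φ z) {a₁ a₂ : A} (h2 : z.v a₂ ≠ 0)
    {ε : ℝ} (hε : 0 < ε) : ∃ b r : R, z.v (φ r) ≠ 0 ∧
      z.v (φ r * a₁ - φ b * a₂) < ε * z.v (φ r) * z.v a₂ := by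
  have p2 : 0 < z.v a₂ := lt_of_le_of_ne (z.nonneg _) (Ne.symm h2)
  have p1 : 0 ≤ z.v a₁ := z.nonneg _
  set s := z.v a₂ with hs
  set u := z.v a₁ with hu
  set δ := min (s / 2) (ε * s ^ 2 / (2 * (u + s))) with hδ
  have hδ0 : 0 < δ := lt_min (by positivity) (by positivity)
  have hδ1 : δ < s := (min_le_left _ _).trans_lt (by linarith)
  have hδ2 : δ * (u + s) < ε * s ^ 2 := by
    have h : δ ≤ ε * s ^ 2 / (2 * (u + s)) := min_le_right _ _
    rw [le_div_iff₀ (by positivity)] at h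
    have : 0 < ε * s ^ 2 := by positivity
    nlinarith
  obtain ⟨b1, c1, hc1, e1⟩ := hd a₁ δ hδ0
  obtain ⟨b2, c2, hc2, e2⟩ := hd a₂ δ hδ0
  have q1 : 0 < z.v (φ c1) := lt_of_le_of_ne (z.nonneg _) (Ne.symm hc1)
  have q2 : 0 < z.v (φ c2) := lt_of_le_of_ne (z.nonneg _) (Ne.symm hc2)
  -- `|b2| = |c2| |a2|`
  have hb2 : z.v (φ b2) = z.v (φ c2) * s := by
    rw [hs, ← z.mul]
    apply z.sub_eq
    rw [z.mul]
    calc z.v (φ c2 * a₂ - φ b2) < δ * z.v (φ c2) := e2
      _ ≤ z.v (φ c2) * z.v a₂ := by rw [mul_comm]; gcongr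
  -- `|b1| ≤ |c1| (|a1| + |a2|)`
  have hb1 : z.v (φ b1) ≤ z.v (φ c1) * (u + s) := by
    calc z.v (φ b1) = z.v (φ c1 * a₁ - (φ c1 * a₁ - φ b1)) := by congr 1; ring
      _ ≤ max (z.v (φ c1 * a₁)) (z.v (φ c1 * a₁ - φ b1)) := z.sub _ _
      _ ≤ z.v (φ c1) * (u + s) := by
          apply max_le
          · rw [z.mul]
            gcongr
            linarith
          · calc z.v (φ c1 * a₁ - φ b1) ≤ δ * z.v (φ c1) := e1.le
              _ ≤ z.v (φ c1) * (u + s) := by
                  rw [mul_comm]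
                  gcongr
                  linarith
  refine ⟨b1 * c2, c1 * b2, ?_, ?_⟩
  · rw [map_mul, z.mul, hb2]
    positivity
  · have key : φ (c1 * b2) * a₁ - φ (b1 * c2) * a₂ =
        φ b2 * (φ c1 * a₁ - φ b1) - φ b1 * (φ c2 * a₂ - φ b2) := by
      rw [map_mul, map_mul]
      ring
    have hgoal : ε * z.v (φ (c1 * b2)) * s = ε * s ^ 2 * (z.v (φ c1) * z.v (φ c2)) := by
      rw [map_mul, z.mul, hb2]
      ring
    rw [key, hgoal]
    have m1 : z.v (φ b2 * (φ c1 * a₁ - φ b1)) ≤ δ * (u + s) * (z.v (φ c1) * z.v (φ c2)) := by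
      rw [z.mul, hb2]
      calc z.v (φ c2) * s * z.v (φ c1 * a₁ - φ b1) ≤ z.v (φ c2) * s * (δ * z.v (φ c1)) := by
            gcongr
        _ = δ * s * (z.v (φ c1) * z.v (φ c2)) := by ring
        _ ≤ δ * (u + s) * (z.v (φ c1) * z.v (φ c2)) := by
            gcongr
            linarith
    have m2 : z.v (φ b1 * (φ c2 * a₂ - φ b2)) ≤ δ * (u + s) * (z.v (φ c1) * z.v (φ c2)) := by
      rw [z.mul]
      calc z.v (φ b1) * z.v (φ c2 * a₂ - φ b2) ≤ z.v (φ c1) * (u + s) * (δ * z.v (φ c2)) := by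
            apply mul_le_mul hb1 e2.le (z.nonneg _) (by positivity)
        _ = δ * (u + s) * (z.v (φ c1) * z.v (φ c2)) := by ring
    calc z.v (φ b2 * (φ c1 * a₁ - φ b1) - φ b1 * (φ c2 * a₂ - φ b2))
        ≤ max (z.v (φ b2 * (φ c1 * a₁ - φ b1))) (z.v (φ b1 * (φ c2 * a₂ - φ b2))) := z.sub _ _
      _ ≤ δ * (u + s) * (z.v (φ c1) * z.v (φ c2)) := max_le m1 m2
      _ < ε * s ^ 2 * (z.v (φ c1) * z.v (φ c2)) := by gcongr

end approx

/-- (Q9e) -/
theorem main (h2 : Q2_Stmt) (h3 : Q2o_Stmt) (h9 : Q9k_Stmt) (hw : Q9w_Stmt) : Q9e_Stmt := by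
  intro K R A C B G _ _ _ _ _ _ _ _ _ _ _ _ _ φ i α γ ρ H σ hD Z F V Y y₀ hF hY w₀ hw₀ hy₀
  have hW := hw K R A C B G φ i α γ ρ H σ hD Z F hF
  apply Set.Subset.antisymm
  swap
  · intro s hs
    exact hW.2.2.2 w₀ hw₀ s hs
  intro s hs
  have hs' : act ρ s w₀ ∈ WW α γ F := hs
  -- a neighbourhood of the points of `WW`
  set N₁ : Set (Ber K C) := Ber.res γ '' (Ber.res α ⁻¹' V) with hN₁
  have hN : ∀ w ∈ WW α γ F, N₁ ∈ 𝓝 w := by
    rintro w ⟨b, hb, rfl⟩
    apply (h9 K R A C B G φ i α γ ρ H σ hD b (hF.zmp _ hb)).2.1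
    exact (Ber.res_continuous α).continuousAt (hY.nhd _ hb)
  have hN2 : N₁ ∩ act ρ s ⁻¹' N₁ ∈ 𝓝 w₀ :=
    Filter.inter_mem (hN _ hw₀) ((act_continuous ρ s).continuousAt (hN _ hs'))
  have hN3 : Ber.res i '' (N₁ ∩ act ρ s ⁻¹' N₁) ∈ 𝓝 y₀ := by
    rw [← hy₀]
    exact (h3 K R C G i ρ hD.inv).image_mem_nhds hN2
  obtain ⟨y, ⟨w, ⟨⟨b1, hb1, hwb1⟩, ⟨b2, hb2, hwb2⟩⟩, hyw⟩, hyY⟩ :=
    mem_closure_iff_nhds.1 hY.cls _ hN3
  -- the points of `M(A)` under `b1`, `b2` are equal
  have hcomm : ∀ b : Ber K B, Ber.res φ (Ber.res α b) = Ber.res i (Ber.res γ b) := by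
    intro b
    apply Ber.ext_v
    intro r
    rw [Ber.res_v, Ber.res_v, Ber.res_v, Ber.res_v, hD.comm]
  have hy1 : Ber.res φ (Ber.res α b1) = y := by rw [hcomm, hwb1, hyw]
  have hy2 : Ber.res φ (Ber.res α b2) = y := by
    rw [hcomm, hwb2, hD.inv.res_act, hyw]
  have hz : Ber.res α b1 = Ber.res α b2 :=
    hY.uniq _ hb1 _ hb2 (by rw [hy1]; exact hyY) (by rw [hy1, hy2])
  set z := Ber.res α b1 with hzdef
  have hker := hY.ker y hyY
  have hzker : ∀ a : A, a ≠ 0 → z.v a ≠ 0 := by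
    intro a ha h0
    obtain ⟨a', r, hr, har⟩ := hD.alga a ha
    apply hr
    apply hker
    rw [← hy1, Ber.res_v, ← har, z.mul, h0, zero_mul]
  have hwker : ∀ c : C, w.v c = 0 → c = 0 := by
    intro c h0
    by_contra hc
    obtain ⟨c', r, hr, har⟩ := hD.algc c hc
    apply hr
    apply hker
    rw [← hyw, Ber.res_v, ← har, w.mul, h0, zero_mul]
  have hv1 : ∀ c, w.v c = b1.v (γ c) := by
    intro c
    rw [← hwb1, Ber.res_v]
  have hv2 : ∀ c, (act ρ s w).v c = b2.v (γ c) := by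
    intro c
    rw [← hwb2, Ber.res_v]
  have hz1 : ∀ a, b1.v (α a) = z.v a := fun a => rfl
  have hz2 : ∀ a, b2.v (α a) = z.v a := by
    intro a
    rw [hz, Ber.res_v]
  -- `w` and `act s w` agree on `C^H`
  have hagree : ∀ c, (∀ h : H, ρ h c = c) → w.v c = (act ρ s w).v c := by
    intro c hc
    obtain ⟨a₁, a₂, ha₂, hac⟩ := hD.fix c hc
    have e1 : w.v c * z.v a₂ = z.v a₁ := by
      rw [hv1, ← hz1, ← hz1, ← b1.mul, hac]
    have e2 : (act ρ s w).v c * z.v a₂ = z.v a₁ := by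
      rw [hv2, ← hz2, ← hz2, ← b2.mul, hac]
    exact mul_right_cancel₀ (hzker a₂ ha₂) (e1.trans e2.symm)
  obtain ⟨h, hh⟩ := h2 K (inva (ρ.comp H.subtype)) C H (inva (ρ.comp H.subtype)).val
    (ρ.comp H.subtype) (isInv_inva _) w (act ρ s w) (by
      apply Ber.ext_v
      intro c
      exact hagree c c.2)
  have hh' : act ρ s w = act ρ (h : G) w := hh
  -- `t = s h⁻¹` fixes `w`
  have ht : act ρ (s * (h : G)⁻¹) w = w := by
    rw [act_mul, hh', act_inv_act]
  have htH : s * (h : G)⁻¹ ∈ H := by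
    apply hD.gal
    intro c hc
    obtain ⟨a₁, a₂, ha₂, hac⟩ := hD.fix c hc
    generalize s * (h : G)⁻¹ = t at ht ⊢
    have hpos : 0 < z.v a₂ := lt_of_le_of_ne (z.nonneg _) (Ne.symm (hzker a₂ ha₂))
    have hsmall : ∀ ε : ℝ, 0 < ε → w.v (ρ t c - c) < ε := by
      intro ε hε
      obtain ⟨b, r, hr, hbr⟩ := quot (hY.dens z hb1 (by rw [hy1]; exact hyY)) (a₁ := a₁)
        (hzker a₂ ha₂) hε
      have hir : w.v (i r) = z.v (φ r) := by
        rw [hv1, ← hD.comm, hz1]
      have hposr : 0 < w.v (i r) := by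
        rw [hir]
        exact lt_of_le_of_ne (z.nonneg _) (Ne.symm hr)
      -- `|r c - b|_w < ε |r|_w`
      have hap : w.v (i r * c - i b) < ε * w.v (i r) := by
        have e : w.v (i r * c - i b) * z.v a₂ = z.v (φ r * a₁ - φ b * a₂) := by
          rw [hv1, ← hz1, ← hz1, ← b1.mul]
          congr 1
          rw [map_sub, map_mul, map_sub, map_mul, map_mul, ← hac, hD.comm, hD.comm]
          ring
        rw [← e, ← hir] at hbr
        exact lt_of_mul_lt_mul_right hbr hpos.le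
      have hap' : w.v (i r * ρ t c - i b) < ε * w.v (i r) := by
        have e : w.v (i r * ρ t c - i b) = w.v (i r * c - i b) := by
          have e0 : ρ t (i r * c - i b) = i r * ρ t c - i b := by
            rw [map_sub, map_mul (ρ t), hD.inv.fix, hD.inv.fix]
          conv_rhs => rw [← ht]
          rw [act_v, e0]
        rw [e]
        exact hap
      have hmul : w.v (i r) * w.v (ρ t c - c) < w.v (i r) * ε := by
        rw [← w.mul]
        calc w.v (i r * (ρ t c - c)) = w.v ((i r * ρ t c - i b) - (i r * c - i b)) := by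
              congr 1
              ring
          _ ≤ max (w.v (i r * ρ t c - i b)) (w.v (i r * c - i b)) := w.sub _ _
          _ < ε * w.v (i r) := max_lt hap' hap
          _ = w.v (i r) * ε := mul_comm _ _
      exact lt_of_mul_lt_mul_left hmul hposr.le
    have hzero : w.v (ρ t c - c) = 0 := by
      apply le_antisymm _ (w.nonneg _)
      by_contra hc'
      push Not at hc'
      exact lt_irrefl _ (hsmall _ hc')
    exact sub_eq_zero.1 (hwker _ hzero)
  have : s = s * (h : G)⁻¹ * h := by group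
  show s ∈ (H : Set G)
  rw [this]
  exact H.mul_mem htH h.2

end Pool.Agent.TD.Q.Q9e

theorem Pool.Agent.TD.Q.Q9e_thm (h2 : Pool.Agent.TD.Q.Q2_Stmt) (h3 : Pool.Agent.TD.Q.Q2o_Stmt)
    (h9 : Pool.Agent.TD.Q.Q9k_Stmt) (hw : Pool.Agent.TD.Q.Q9w_Stmt) : Pool.Agent.TD.Q.Q9e_Stmt :=
  Pool.Agent.TD.Q.Q9e.main h2 h3 h9 hw


end
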