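import Mathlib
import Pool.Agent.DolbM.C01
import Pool.Agent.DolbM.C04
import Pool.Agent.DolbM.C27

/-! Parts: TD.Q.Q0, TD.Q.QU, TD.Q.Q3, TD.Q.Q9b -/

section

/-!
# Section Q, (Q0): the fibre over `y` is the spectrum of `H ⊗_R C` (MP_90358a_ag)
-/

open scoped Topology NNReal TensorProduct
open Polynomial

namespace Pool.Agent.TD.Q

theorem Q0_thm : Q0_Stmt := by
  intro K R C _ _ _ _ _ φ y
  obtain ⟨H, iN, iU, iC, ι, hι⟩ := td_res K R y
  let aC : Algebra R C := φ.toRingHom.toAlgebra
  let aH : Algebra R H := ι.toAlgebra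
  have hspan : Submodule.span H (Set.range
      ((Algebra.TensorProduct.includeRight : C →ₐ[R] H ⊗[R] C).toRingHom)) = ⊤ := by
    rw [eq_top_iff]
    rintro x -
    induction x using TensorProduct.induction_on with
    | zero => exact Submodule.zero_mem _
    | tmul h c =>
      have e : h ⊗ₜ[R] c = h • ((1 : H) ⊗ₜ[R] c) := by
        rw [TensorProduct.smul_tmul', smul_eq_mul, mul_one]
      rw [e]
      exact Submodule.smul_mem _ _ (Submodule.subset_span ⟨c, rfl⟩)
    | add a b ha hb => exact Submodule.add_mem _ ha hb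
  refine ⟨H, H ⊗[R] C, iN, iU, iC, inferInstance, Algebra.TensorProduct.leftAlgebra, ι,
    (Algebra.TensorProduct.includeRight : C →ₐ[R] H ⊗[R] C).toRingHom, hι, ?_, hspan, ?_, ?_, ?_⟩
  · intro r
    have h1 : (Algebra.TensorProduct.includeRight : C →ₐ[R] H ⊗[R] C) (algebraMap R C r) =
        algebraMap R (H ⊗[R] C) r := AlgHom.commutes _ r
    have h2 : algebraMap R (H ⊗[R] C) r = algebraMap H (H ⊗[R] C) (algebraMap R H r) := by
      rw [Algebra.TensorProduct.algebraMap_apply, Algebra.TensorProduct.algebraMap_apply]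
      rfl
    exact h1.trans h2
  · intro hi
    refine ⟨fun x => ?_⟩
    induction x using TensorProduct.induction_on with
    | zero => exact isIntegral_zero
    | tmul h c => exact IsIntegral.tmul h (hi c)
    | add a b ha hb => exact ha.add hb
  · intro hf
    have : Module.Finite R C := hf
    exact Module.Finite.base_change R H C
  · intro z hz
    obtain ⟨H', iN', iU', iC', ι', hι'⟩ := td_res K C z
    have hn : ∀ a, ‖(ι'.comp φ.toRingHom) a‖ = ‖ι a‖ := by
      intro a
      rw [hι.norm, ← hz, Ber.res_v, RingHom.comp_apply, hι'.norm]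
      rfl
    obtain ⟨τ, hτn, hτ⟩ := exists_ext_completion ι (ι'.comp φ.toRingHom) hn hι.dense
    let aH' : Algebra R H' := (ι'.comp φ.toRingHom).toAlgebra
    let τa : H →ₐ[R] H' := { τ with commutes' := fun r => hτ r }
    let ιa : C →ₐ[R] H' := { ι' with commutes' := fun r => rfl }
    let F : H ⊗[R] C →ₐ[R] H' := Algebra.TensorProduct.productMap τa ιa
    have hF1 : ∀ h : H, F (algebraMap H (H ⊗[R] C) h) = τ h := by
      intro h
      have h1 : algebraMap H (H ⊗[R] C) h = h ⊗ₜ[R] (1 : C) := by
        rw [Algebra.TensorProduct.algebraMap_apply]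
        rfl
      rw [h1, Algebra.TensorProduct.productMap_apply_tmul, map_one, mul_one]
      rfl
    have hF2 : ∀ c : C, F ((1 : H) ⊗ₜ[R] c) = ι' c := by
      intro c
      rw [Algebra.TensorProduct.productMap_apply_tmul, map_one, one_mul]
      rfl
    refine ⟨{ v := fun b => ‖F b‖
              nonneg := fun b => norm_nonneg _
              one := by rw [map_one, norm_one]
              mul := fun a b => by rw [map_mul, norm_mul]
              add := fun a b => by rw [map_add]; exact IsUltrametricDist.norm_add_le_max _ _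
              ext := fun c => by rw [hF1, hτn] }, fun c => ?_⟩
    show ‖F ((1 : H) ⊗ₜ[R] c)‖ = z.v c
    rw [hF2, hι'.norm]

end Pool.Agent.TD.Q


end

section

/-!
# (QU) Points of the spectrum of an integral algebra over a complete field (MP_90358a_ag)

A point of `M_H(B)`, `B` integral over the complete field `H`, is determined by its kernel, which is
a maximal ideal.
-/

open scoped Topology

namespace Pool.Agent.TD.Q

namespace QU

variable {H B : Type} [NormedField H] [CommRing B] [Algebra H B]

/-- If `|a - b| = 0` then `|a| = |b|`. -/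
theorem v_congr (w : Ber H B) {a b : B} (h : a - b ∈ w.ker) : w.v a = w.v b := by
  have h0 : w.v (a - b) = 0 := h
  have h0' : w.v (b - a) = 0 := by
    have h1 : b - a ∈ w.ker := by
      rw [← neg_sub]
      exact w.ker.neg_mem h
    exact h1
  apply le_antisymm
  · have h1 := w.add b (a - b)
    rw [add_sub_cancel, h0, max_eq_left (w.nonneg b)] at h1
    exact h1
  · have h1 := w.add a (b - a)
    rw [add_sub_cancel, h0', max_eq_left (w.nonneg a)] at h1
    exact h1

/-- A representative. -/
noncomputable def rep (I : Ideal B) (x : B ⧸ I) : B :=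
  Function.surjInv (Ideal.Quotient.mk_surjective (I := I)) x

theorem mk_rep (I : Ideal B) (x : B ⧸ I) : Ideal.Quotient.mk I (rep I x) = x :=
  Function.surjInv_eq (Ideal.Quotient.mk_surjective (I := I)) x

theorem v_mk_congr (w : Ber H B) (I : Ideal B) (hI : w.ker = I) {a b : B}
    (h : Ideal.Quotient.mk I a = Ideal.Quotient.mk I b) : w.v a = w.v b := by
  subst hI
  exact v_congr w (Ideal.Quotient.eq.mp h)

/-- The point of the spectrum of `B / I` given by a point with kernel `I`. -/
noncomputable def desc (w : Ber H B) (I : Ideal B) (hI : w.ker = I) : Ber H (B ⧸ I) where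
  v x := w.v (rep I x)
  nonneg x := w.nonneg _
  one := by
    rw [← w.one]
    refine v_mk_congr w I hI ?_
    rw [mk_rep, map_one]
  mul x y := by
    rw [← w.mul]
    refine v_mk_congr w I hI ?_
    rw [mk_rep, map_mul, mk_rep, mk_rep]
  add x y := by
    have h1 := w.add (rep I x) (rep I y)
    refine le_trans (le_of_eq (v_mk_congr w I hI ?_)) h1
    rw [mk_rep, map_add, mk_rep, mk_rep]
  ext c := by
    rw [← w.ext c]
    refine v_mk_congr w I hI ?_
    rw [mk_rep]
    rfl

theorem desc_mk (w : Ber H B) (I : Ideal B) (hI : w.ker = I) (b : B) :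
    (desc w I hI).v (Ideal.Quotient.mk I b) = w.v b := by
  refine v_mk_congr w I hI ?_
  rw [mk_rep]

/-- The kernel of a point is maximal. -/
theorem ker_isMaximal [Algebra.IsIntegral H B] (w : Ber H B) : w.ker.IsMaximal := by
  have h0 : Ideal.comap (algebraMap H B) w.ker = ⊥ := by
    rw [eq_bot_iff]
    intro c hc
    have h1 : w.v (algebraMap H B c) = 0 := hc
    rw [w.ext] at h1
    simpa using h1
  apply Ideal.isMaximal_of_isIntegral_of_isMaximal_comap (R := H) w.ker
  rw [h0]
  exact Ideal.bot_isMaximal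

end QU

open QU in
/-- (QU) points of `M_H(B)`, `B` integral over the complete field `H`, are determined by their
kernels, which are maximal ideals. -/
theorem QU_thm : QU_Stmt := by
  intro H B _ _ _ _ _ _
  refine ⟨fun w => ker_isMaximal w, ?_⟩
  intro w w' hw
  have hmax : w'.ker.IsMaximal := ker_isMaximal w'
  letI : Field (B ⧸ w'.ker) := Ideal.Quotient.field w'.ker
  haveI : Algebra.IsAlgebraic H (B ⧸ w'.ker) := inferInstance
  obtain ⟨N, hN⟩ := td_ext H (B ⧸ w'.ker)
  have h1 : desc w w'.ker hw = desc w' w'.ker rfl := by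
    rw [hN (desc w w'.ker hw), hN (desc w' w'.ker rfl)]
  apply Ber.ext_v
  intro b
  have h2 := congrArg (fun n : Ber H (B ⧸ w'.ker) => n.v (Ideal.Quotient.mk w'.ker b)) h1
  simp only [desc_mk] at h2
  exact h2

end Pool.Agent.TD.Q


end

section

/-!
# (Q3) of PAPER2.md (MP_90358a_ag): openness of integral maps to normal spaces
-/

open scoped Topology NNReal

namespace Pool.Agent.TD.Q.Q3

/-- Neighbourhoods of a point of `M(C)`. -/
theorem exists_basic {K C : Type} [NormedField K] [CommRing C] [Algebra K C] {V : Set (Ber K C)}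
    {z : Ber K C} (hV : V ∈ 𝓝 z) :
    ∃ (s : Finset C) (ε : ℝ), 0 < ε ∧ ∀ z' : Ber K C, (∀ c ∈ s, |z'.v c - z.v c| < ε) → z' ∈ V := by
  classical
  rw [nhds_induced, Filter.mem_comap] at hV
  obtain ⟨U, hU, hUV⟩ := hV
  rw [nhds_pi, Filter.mem_pi] at hU
  obtain ⟨I, hI, t, ht, htU⟩ := hU
  have h1 : ∀ c : C, ∃ δ : ℝ, 0 < δ ∧ Metric.ball (z.v c) δ ⊆ t c := by
    intro c
    obtain ⟨δ, hδ, h⟩ := Metric.mem_nhds_iff.1 (ht c)
    exact ⟨δ, hδ, h⟩
  choose δ hδ hδt using h1
  rcases hI.toFinset.eq_empty_or_nonempty with he | hne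
  · refine ⟨∅, 1, one_pos, fun z' _ => hUV (htU fun c hc => ?_)⟩
    have : c ∈ hI.toFinset := hI.mem_toFinset.2 hc
    rw [he] at this
    exact absurd this (by simp)
  · refine ⟨hI.toFinset, hI.toFinset.inf' hne δ, ?_, fun z' h => hUV (htU fun c hc => ?_)⟩
    · rw [Finset.lt_inf'_iff]
      exact fun c _ => hδ c
    · have hc' : c ∈ hI.toFinset := hI.mem_toFinset.2 hc
      apply hδt c
      rw [Metric.mem_ball, Real.dist_eq]
      exact (h c hc').trans_le (Finset.inf'_le _ hc')

theorem main (h3 : Q3a_Stmt) (K R C : Type) [NormedField K] [IsUltrametricDist K] [CommRing R]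
    [CommRing C] [Algebra K R] [Algebra K C] [IsDomain R] [IsIntegrallyClosed R] [IsDomain C]
    (φ : R →ₐ[K] C) (hφ : Function.Injective φ) (hint : φ.toRingHom.IsIntegral)
    (V : Set (Ber K C)) (z : Ber K C) (hV : V ∈ 𝓝 z) : Ber.res φ '' V ∈ 𝓝 (Ber.res φ z) := by
  classical
  obtain ⟨s, ε, hε, hs⟩ := exists_basic hV
  let _ : Algebra R C := φ.toRingHom.toAlgebra
  have hal : ∀ r : R, algebraMap R C r = φ r := fun r => rfl
  have : IsScalarTower K R C := IsScalarTower.of_algebraMap_eq fun k => by
    rw [hal, φ.commutes]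
  let C1 : Subalgebra R C := Algebra.adjoin R (s : Set C)
  have hsC : ∀ c ∈ s, c ∈ C1 := fun c hc => Algebra.subset_adjoin hc
  let φ1 : R →ₐ[K] C1 := IsScalarTower.toAlgHom K R C1
  let ψ : C1 →ₐ[K] C := C1.val.restrictScalars K
  have hψφ : ∀ r, ψ (φ1 r) = φ r := fun r => rfl
  have hψ : Function.Injective ψ := Subtype.val_injective
  have hφ1 : Function.Injective φ1 := by
    intro a b h
    apply hφ
    rw [← hψφ, ← hψφ, h]
  have hfin : φ1.toRingHom.Finite := by
    have h1 : (Algebra.adjoin R (s : Set C)).toSubmodule.FG :=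
      fg_adjoin_of_finite s.finite_toSet fun c _ => hint c
    have h2 : Module.Finite R C1 := Module.Finite.iff_fg.2 h1
    exact h2
  have hψi : ψ.toRingHom.IsIntegral := by
    intro c
    obtain ⟨p, hp, hpc⟩ := hint c
    refine ⟨p.map φ1.toRingHom, hp.map _, ?_⟩
    rw [Polynomial.eval₂_map]
    exact hpc
  have hopen := h3 K R C1 φ1 hφ1 hfin
  have hsurj := int_surj ψ hψ hψi
  -- the open set
  let T : Set C1 := ψ ⁻¹' (s : Set C)
  have hT : T.Finite := s.finite_toSet.preimage hψ.injOn
  let V1 : Set (Ber K C1) := ⋂ c ∈ T, {w | |w.v c - z.v (ψ c)| < ε}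
  have hV1 : IsOpen V1 := by
    refine hT.isOpen_biInter fun c _ => ?_
    exact isOpen_lt (((Ber.continuous_v c).sub continuous_const).abs) continuous_const
  have hz1 : Ber.res ψ z ∈ V1 := by
    refine Set.mem_iInter₂.2 fun c _ => ?_
    show |(Ber.res ψ z).v c - z.v (ψ c)| < ε
    rw [Ber.res_v, sub_self, abs_zero]
    exact hε
  have hmem : Ber.res φ1 '' V1 ∈ 𝓝 (Ber.res φ1 (Ber.res ψ z)) :=
    (hopen V1 hV1).mem_nhds ⟨_, hz1, rfl⟩
  have hcomp : ∀ z' : Ber K C, Ber.res φ1 (Ber.res ψ z') = Ber.res φ z' := by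
    intro z'
    apply Ber.ext_v
    intro r
    rw [Ber.res_v, Ber.res_v, Ber.res_v, hψφ]
  rw [hcomp] at hmem
  refine Filter.mem_of_superset hmem ?_
  rintro _ ⟨w, hw, rfl⟩
  obtain ⟨z', rfl⟩ := hsurj w
  refine ⟨z', hs z' fun c hc => ?_, (hcomp z').symm⟩
  exact Set.mem_iInter₂.1 hw ⟨c, hsC c hc⟩ hc

end Pool.Agent.TD.Q.Q3

namespace Pool.Agent.TD.Q

theorem Q3_thm (h3 : Q3a_Stmt) : Q3_Stmt := by
  intro K R C _ _ _ _ _ _ _ _ _ φ hφ hint
  rw [isOpenMap_iff_nhds_le]
  intro z
  rw [Filter.le_def]
  intro S hS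
  rw [Filter.mem_map] at hS
  exact Filter.mem_of_superset (Q3.main h3 K R C φ hφ hint _ z hS) (Set.image_preimage_subset _ _)

end Pool.Agent.TD.Q


end

section

/-!
# Section Q of PAPER2.md (MP_90358a_ag): (Q9b) the algebraic data
-/

open Polynomial

namespace Pool.Agent.TD.Q.Q9b

section
variable {K R A F L : Type} [NormedField K] [CommRing R] [CommRing A] [Algebra K R] [Algebra K A]
  [Field F] [Algebra R F] [Field L] [Algebra F L] [Algebra R L] [IsScalarTower R F L]
  [Algebra K L] [IsScalarTower K R L]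

/-- The restriction of an automorphism of `L` over `F` to the integral closure of `R`. -/
def rhoFun (g : L ≃ₐ[F] L) (c : integralClosure R L) : integralClosure R L :=
  ⟨g c.1, (show IsIntegral R c.1 from c.2).map ((g : L →ₐ[F] L).restrictScalars R)⟩

omit [Algebra R F] [Algebra R L] [IsScalarTower R F L] [IsScalarTower K R L] [CommRing R]
  [Algebra K R] in
theorem fix_K (R : Type) [CommRing R] [Algebra K R] [Algebra R F] [Algebra R L]
    [IsScalarTower R F L] [IsScalarTower K R L] (g : L ≃ₐ[F] L) (k : K) :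
    g (algebraMap K L k) = algebraMap K L k := by
  rw [IsScalarTower.algebraMap_apply K R L, IsScalarTower.algebraMap_apply R F L]
  exact g.commutes _

theorem fix_R (g : L ≃ₐ[F] L) (r : R) : g (algebraMap R L r) = algebraMap R L r := by
  rw [IsScalarTower.algebraMap_apply R F L]
  exact g.commutes _

/-- The action on the integral closure. -/
def rho : (L ≃ₐ[F] L) →* (integralClosure R L ≃ₐ[K] integralClosure R L) where
  toFun g :=
    { toFun := rhoFun g
      invFun := rhoFun g.symm
      left_inv := fun c => Subtype.ext (g.symm_apply_apply c.1)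
      right_inv := fun c => Subtype.ext (g.apply_symm_apply c.1)
      map_mul' := fun a b => Subtype.ext (map_mul g a.1 b.1)
      map_add' := fun a b => Subtype.ext (map_add g a.1 b.1)
      commutes' := fun k => Subtype.ext (fix_K R g k) }
  map_one' := by
    ext c
    rfl
  map_mul' := by
    intro g h
    ext c
    rfl

theorem rho_coe (g : L ≃ₐ[F] L) (c : integralClosure R L) :
    ((rho (K := K) g c : integralClosure R L) : L) = g c.1 := rfl

/-- The inclusion of `R`. -/
def ii : R →ₐ[K] integralClosure R L where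
  toFun r := algebraMap R (integralClosure R L) r
  map_one' := map_one _
  map_mul' := map_mul _
  map_zero' := map_zero _
  map_add' := map_add _
  commutes' := fun k => Subtype.ext (IsScalarTower.algebraMap_apply K R L k).symm

theorem ii_coe (r : R) : ((ii (K := K) (L := L) r : integralClosure R L) : L) = algebraMap R L r :=
  rfl

theorem isInv [IsDomain R] [IsFractionRing R F] [IsIntegrallyClosed R] [IsGalois F L]
    [FiniteDimensional F L] : IsInv (ii (K := K) (R := R) (L := L)) (rho (F := F)) where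
  inj := by
    intro r s h
    have h1 : algebraMap R L r = algebraMap R L s := congrArg Subtype.val h
    rw [IsScalarTower.algebraMap_apply R F L, IsScalarTower.algebraMap_apply R F L] at h1
    exact IsFractionRing.injective R F ((algebraMap F L).injective h1)
  fix := fun g r => Subtype.ext (fix_R g r)
  inv := by
    intro c hc
    have h1 : c.1 ∈ Set.range (algebraMap F L) := by
      rw [IsGalois.mem_range_algebraMap_iff_fixed]
      intro g
      exact congrArg Subtype.val (hc g)
    obtain ⟨x, hx⟩ := h1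
    have h2 : IsIntegral R x := by
      have h3 : IsIntegral R (algebraMap F L x) := by rw [hx]; exact c.2
      exact (isIntegral_algebraMap_iff (algebraMap F L).injective).1 h3
    obtain ⟨r, hr⟩ := IsIntegrallyClosed.isIntegral_iff.1 h2
    refine ⟨r, Subtype.ext ?_⟩
    rw [ii_coe, ← hx, ← hr, ← IsScalarTower.algebraMap_apply R F L]

variable (j : A →ₐ[K] L)

/-- The ring `A · C`. -/
abbrev BB (R : Type) [CommRing R] [Algebra R L] : Subalgebra K L :=
  Algebra.adjoin K (Set.range j ∪ (integralClosure R L : Set L))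

/-- The inclusion of `A`. -/
def al (R : Type) [CommRing R] [Algebra R L] : A →ₐ[K] BB j R :=
  j.codRestrict (BB j R) fun a => Algebra.subset_adjoin (Or.inl ⟨a, rfl⟩)

/-- The inclusion of `C`. -/
def ga : integralClosure R L →ₐ[K] BB j R where
  toFun c := ⟨c.1, Algebra.subset_adjoin (Or.inr c.2)⟩
  map_one' := rfl
  map_mul' := fun _ _ => rfl
  map_zero' := rfl
  map_add' := fun _ _ => rfl
  commutes' := fun _ => rfl

omit [Algebra K R] [IsScalarTower K R L] in
theorem al_coe (a : A) : ((al j R a : BB j R) : L) = j a := rfl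

theorem ga_coe (c : integralClosure R L) : ((ga j c : BB j R) : L) = c.1 := rfl

theorem gen : Algebra.adjoin K (Set.range (al j R) ∪ Set.range (ga (R := R) j)) = ⊤ := by
  have h : Set.range (al j R) ∪ Set.range (ga (R := R) j) =
      ((↑) : BB j R → L) ⁻¹' (Set.range j ∪ (integralClosure R L : Set L)) := by
    ext b
    constructor
    · rintro (⟨a, rfl⟩ | ⟨c, rfl⟩)
      · exact Or.inl ⟨a, rfl⟩
      · exact Or.inr c.2
    · rintro (⟨a, ha⟩ | hc)
      · exact Or.inl ⟨a, Subtype.ext ha⟩
      · exact Or.inr ⟨⟨b.1, hc⟩, rfl⟩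
  rw [h]
  exact Algebra.adjoin_adjoin_coe_preimage

theorem int (φ : R →ₐ[K] A) (hj : ∀ r, j (φ r) = algebraMap R L r) :
    (al j R).toRingHom.IsIntegral := by
  have key : ∀ b : BB j R, b ∈ Algebra.adjoin K (Set.range (al j R) ∪ Set.range (ga (R := R) j)) →
      (al j R).toRingHom.IsIntegralElem b := by
    intro b hb
    induction hb using Algebra.adjoin_induction with
    | mem x hx =>
      rcases hx with ⟨a, rfl⟩ | ⟨c, rfl⟩
      · exact (al j R).toRingHom.isIntegralElem_map
      · obtain ⟨P, hP, hP0⟩ := c.2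
        refine ⟨P.map φ.toRingHom, hP.map _, ?_⟩
        rw [eval₂_map]
        apply Subtype.val_injective
        have h1 := hom_eval₂ P ((al j R).toRingHom.comp φ.toRingHom) (BB j R).val.toRingHom
          (ga (R := R) j c)
        have h2 : (BB j R).val.toRingHom.comp ((al j R).toRingHom.comp φ.toRingHom) =
            algebraMap R L := by
          ext r
          exact hj r
        rw [h2] at h1
        refine h1.trans ?_
        exact hP0
    | algebraMap k =>
      have h1 : algebraMap K (BB j R) k = al j R (algebraMap K A k) := ((al j R).commutes k).symm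
      rw [h1]
      exact (al j R).toRingHom.isIntegralElem_map
    | add x y _ _ hx hy => exact hx.add _ hy
    | mul x y _ _ hx hy => exact hx.mul _ hy
  intro b
  exact key b (by rw [gen]; trivial)

/-- The field of fractions of `A` in `L`. -/
def EE [IsDomain R] [IsFractionRing R F] [IsDomain A] (φ : R →ₐ[K] A)
    (hφ : Function.Injective φ) (hj : Function.Injective j)
    (hjφ : ∀ r, j (φ r) = algebraMap R L r) : IntermediateField F L where
  carrier := {x | ∃ a₁ a₂ : A, a₂ ≠ 0 ∧ x * j a₂ = j a₁}
  mul_mem' := by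
    rintro x y ⟨a, b, hb, h⟩ ⟨a', b', hb', h'⟩
    refine ⟨a * a', b * b', mul_ne_zero hb hb', ?_⟩
    rw [map_mul, map_mul, ← h, ← h']
    ring
  add_mem' := by
    rintro x y ⟨a, b, hb, h⟩ ⟨a', b', hb', h'⟩
    refine ⟨a * b' + a' * b, b * b', mul_ne_zero hb hb', ?_⟩
    rw [map_mul, map_add, map_mul, map_mul, ← h, ← h']
    ring
  algebraMap_mem' := by
    intro f
    obtain ⟨r, s, hs, rfl⟩ := IsFractionRing.div_surjective (A := R) f
    have hs0 : s ≠ 0 := nonZeroDivisors.ne_zero hs
    refine ⟨φ r, φ s, fun h => hs0 (hφ (h.trans (map_zero φ).symm)), ?_⟩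
    have h1 : algebraMap R F s ≠ 0 := fun h => hs0 (IsFractionRing.injective R F
      (h.trans (map_zero _).symm))
    rw [hjφ, hjφ, IsScalarTower.algebraMap_apply R F L, IsScalarTower.algebraMap_apply R F L r,
      ← map_mul, div_mul_cancel₀ _ h1]
  inv_mem' := by
    rintro x ⟨a, b, hb, h⟩
    by_cases hx : x = 0
    · subst hx
      exact ⟨0, 1, one_ne_zero, by simp⟩
    · have ha : a ≠ 0 := by
        rintro rfl
        rw [map_zero] at h
        rcases mul_eq_zero.1 h with h1 | h1
        · exact hx h1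
        · exact hb (hj (h1.trans (map_zero j).symm))
      refine ⟨b, a, ha, ?_⟩
      rw [← h, ← mul_assoc, inv_mul_cancel₀ hx, one_mul]

/-- The action of the automorphisms which fix `A` on `A · C`. -/
theorem sig_mem (g : L ≃ₐ[F] L) (hg : ∀ a, g (j a) = j a) {b : L} (hb : b ∈ BB j R) :
    g b ∈ BB j R := by
  induction hb using Algebra.adjoin_induction with
  | mem x hx =>
    rcases hx with ⟨a, rfl⟩ | hc
    · have h1 : g (j a) = j a := hg a
      show g (j a) ∈ BB j R
      rw [h1]
      exact Algebra.subset_adjoin (Or.inl ⟨a, rfl⟩)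
    · exact Algebra.subset_adjoin (Or.inr (rhoFun g ⟨x, hc⟩).2)
  | algebraMap k =>
    rw [fix_K R g k]
    exact (BB j R).algebraMap_mem k
  | add x y _ _ hx hy =>
    rw [map_add]
    exact (BB j R).add_mem hx hy
  | mul x y _ _ hx hy =>
    rw [map_mul]
    exact (BB j R).mul_mem hx hy

/-- The group of the automorphisms which fix `A`. -/
def HH : Subgroup (L ≃ₐ[F] L) where
  carrier := {g | ∀ a, g (j a) = j a}
  mul_mem' := by
    intro g h hg hh a
    show g (h (j a)) = j a
    rw [hh a, hg a]
  one_mem' := fun a => rfl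
  inv_mem' := by
    intro g hg a
    show g.symm (j a) = j a
    rw [AlgEquiv.symm_apply_eq]
    exact (hg a).symm

/-- The action of `H` on `B`. -/
def sig (R : Type) [CommRing R] [Algebra K R] [Algebra R F] [Algebra R L] [IsScalarTower R F L]
    [IsScalarTower K R L] : HH (F := F) j →* (BB j R ≃ₐ[K] BB j R) where
  toFun g :=
    { toFun := fun b => ⟨g.1 b.1, sig_mem j g.1 g.2 b.2⟩
      invFun := fun b => ⟨g.1.symm b.1, sig_mem j g.1.symm (g⁻¹).2 b.2⟩
      left_inv := fun b => Subtype.ext (g.1.symm_apply_apply b.1)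
      right_inv := fun b => Subtype.ext (g.1.apply_symm_apply b.1)
      map_mul' := fun a b => Subtype.ext (map_mul g.1 a.1 b.1)
      map_add' := fun a b => Subtype.ext (map_add g.1 a.1 b.1)
      commutes' := fun k => Subtype.ext (fix_K R g.1 k) }
  map_one' := by
    ext b
    rfl
  map_mul' := by
    intro g h
    ext b
    rfl

theorem degData [IsDomain R] [IsFractionRing R F] [IsIntegrallyClosed R] [IsGalois F L]
    [FiniteDimensional F L] [IsDomain A] (φ : R →ₐ[K] A)
    (hφ : Function.Injective φ) (hj : Function.Injective j)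
    (hjφ : ∀ r, j (φ r) = algebraMap R L r)
    (halg : ∀ a : A, a ≠ 0 → ∃ (a' : A) (r : R), r ≠ 0 ∧ a * a' = φ r) :
    DegData φ (ii (K := K) (R := R) (L := L)) (al j R) (ga j) (rho (F := F)) (HH j)
      (sig j R) where
  comm := fun r => Subtype.ext (hjφ r)
  inv := isInv
  inja := fun a b h => hj (congrArg Subtype.val h)
  injc := fun a b h => Subtype.ext (congrArg (Subtype.val : BB j R → L) h)
  int := int j φ hjφ
  gen := gen j
  actc := fun _ _ => rfl
  acta := fun h a => Subtype.ext (h.2 a)
  fix := by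
    intro c hc
    have h1 : c.1 ∈ EE (F := F) j φ hφ hj hjφ := by
      rw [← IsGalois.fixedField_fixingSubgroup (EE (F := F) j φ hφ hj hjφ),
        IntermediateField.mem_fixedField_iff]
      intro g hg
      have hg' : g ∈ HH (F := F) j := by
        intro a
        exact (IntermediateField.mem_fixingSubgroup_iff _ _).1 hg (j a)
          ⟨a, 1, one_ne_zero, by rw [map_one, mul_one]⟩
      exact congrArg Subtype.val (hc ⟨g, hg'⟩)
    obtain ⟨a₁, a₂, h2, h3⟩ := h1
    exact ⟨a₁, a₂, h2, Subtype.ext h3⟩
  elt := by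
    rintro a ⟨P, hP, hP0⟩
    have h1 : IsIntegral R (j a) := by
      refine ⟨P, hP, ?_⟩
      have h2 := hom_eval₂ P φ.toRingHom j.toRingHom a
      have h3 : j.toRingHom.comp φ.toRingHom = algebraMap R L := by
        ext r
        exact hjφ r
      rw [h3, hP0, map_zero] at h2
      exact h2.symm
    exact ⟨⟨j a, h1⟩, rfl⟩
  gal := by
    intro t ht a
    have hal : Algebra.IsAlgebraic R L := by
      have := IsLocalization.isAlgebraic F (nonZeroDivisors R)
      exact Algebra.IsAlgebraic.trans R F L
    obtain ⟨r, hr, hra⟩ := (hal.isAlgebraic (j a)).exists_integral_multiple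
    have h1 := ht ⟨r • j a, hra⟩ (by
      rintro ⟨h, hh⟩
      apply Subtype.ext
      show h (r • j a) = r • j a
      rw [Algebra.smul_def, map_mul, fix_R, hh a])
    have h2 : t (r • j a) = r • j a := congrArg Subtype.val h1
    rw [Algebra.smul_def, map_mul, fix_R] at h2
    refine mul_left_cancel₀ ?_ h2
    rw [IsScalarTower.algebraMap_apply R F L]
    exact fun h => hr (IsFractionRing.injective R F (((algebraMap F L).injective
      (h.trans (map_zero _).symm)).trans (map_zero _).symm))
  alga := halg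
  algc := by
    intro c hc
    have h1 : IsAlgebraic R c := (integralClosure.isIntegral c).isAlgebraic
    obtain ⟨r, hr, c', h2⟩ := h1.exists_nonzero_dvd (mem_nonZeroDivisors_of_ne_zero hc)
    exact ⟨c', r, hr, h2.symm⟩

end

theorem alg_of_sep {K R A : Type} [NormedField K] [CommRing R] [CommRing A] [Algebra K R]
    [Algebra K A] [IsDomain R] [IsDomain A] (φ : R →ₐ[K] A) (h : SepAlg φ) (a : A) (ha : a ≠ 0) : ∃ (a' : A) (r : R), r ≠ 0 ∧ a * a' = φ r := by
  let := φ.toRingHom.toAlgebra
  obtain ⟨P, hP, hP0⟩ := h a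
  have h1 : IsAlgebraic R a := by
    refine ⟨P, ?_, hP0⟩
    rintro rfl
    rw [Polynomial.map_zero] at hP
    exact hP.ne_zero rfl
  obtain ⟨r, hr, a', h2⟩ := h1.exists_nonzero_dvd (mem_nonZeroDivisors_of_ne_zero ha)
  exact ⟨a', r, hr, h2.symm⟩

end Pool.Agent.TD.Q.Q9b

namespace Pool.Agent.TD.Q

theorem Q9b_thm (hg : Q9g_Stmt) : Q9b_Stmt := by
  intro K R A _ _ _ _ _ _ _ _ φ hφ hft hs
  obtain ⟨L, _, _, j, h1, h2, h3, h4⟩ := hg K R A φ hφ hft hs
  let : Algebra R L := ((algebraMap (FractionRing R) L).comp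
    (algebraMap R (FractionRing R))).toAlgebra
  have : IsScalarTower R (FractionRing R) L := IsScalarTower.of_algebraMap_eq' rfl
  let : Algebra K L := ((algebraMap R L).comp (algebraMap K R)).toAlgebra
  have : IsScalarTower K R L := IsScalarTower.of_algebraMap_eq' rfl
  let j' : A →ₐ[K] L := { j with
    commutes' := fun k => by
      show j (algebraMap K A k) = algebraMap K L k
      rw [← φ.commutes k, h4]
      rfl }
  exact ⟨integralClosure R L, Q9b.BB j' R, L ≃ₐ[FractionRing R] L, inferInstance, inferInstance,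
    inferInstance, inferInstance, inferInstance, inferInstance, inferInstance, _, _, _, _, _, _,
    Q9b.degData j' φ hφ h3 h4 (Q9b.alg_of_sep φ hs)⟩

end Pool.Agent.TD.Q


end
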