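import Mathlib
import Pool.Agent.DolbM.C01
import Pool.Agent.DolbM.C04
import Pool.Agent.DolbM.C19
import Pool.Agent.DolbM.C20
import Pool.Agent.DolbM.C27
import Pool.Agent.DolbM.C28
import Pool.Agent.DolbM.C29
import Pool.Agent.DolbM.C30
import Pool.Agent.DolbM.C31

/-! Parts: TD.Q.Q5, TD.Q.Q6a, TD.Q.Q9k, TD.Q.All, TD.X2.Rec -/

section

/-!
# (Q5) compact open subsets of the spectrum of an algebra of finite type (MP_90358a_ag)

The points of a compact open subset have kernels which are maximal and minimal primes: the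
algebra is quasi-finite there.
-/

open scoped Topology NNReal

namespace Pool.Agent.TD.Q

namespace Q5

/-- Every prime ideal contained in the kernel of a point of a compact open set is maximal. -/
theorem isMaximal_of_le (h5 : Q5a_Stmt) (hS : QS_Stmt) (κ B : Type) [NormedField κ]
    [IsUltrametricDist κ] [CommRing B] [Algebra κ B] [Algebra.FiniteType κ B] (Ω : Set (Ber κ B))
    (hc : IsCompact Ω) (ho : IsOpen Ω) (z : Ber κ B) (hz : z ∈ Ω) (P : Ideal B)
    (hP : P.IsPrime) (hle : P ≤ z.ker) : P.IsMaximal := by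
  have h1 : IsDomain (B ⧸ P) := Ideal.Quotient.isDomain P
  let φ : B →ₐ[κ] B ⧸ P := Ideal.Quotient.mkₐ κ P
  have hφ : Function.Surjective φ := Ideal.Quotient.mkₐ_surjective κ P
  have h2 : Algebra.FiniteType κ (B ⧸ P) := Algebra.FiniteType.of_surjective φ hφ
  obtain ⟨he, hr⟩ := hS κ B (B ⧸ P) φ hφ
  have hzr : z ∈ Set.range (Ber.res φ : Ber κ (B ⧸ P) → Ber κ B) := by
    rw [hr]
    intro a ha
    exact hle (Ideal.Quotient.eq_zero_iff_mem.1 ha)
  obtain ⟨w, hw⟩ := hzr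
  have hF : IsField (B ⧸ P) := h5 κ (B ⧸ P) (Ber.res φ ⁻¹' Ω) (he.isCompact_preimage hc)
    (ho.preimage (Ber.res_continuous φ)) ⟨w, by
      show Ber.res φ w ∈ Ω
      rw [hw]
      exact hz⟩
  exact Ideal.Quotient.maximal_of_isField P hF

end Q5

/-- (Q5). -/
theorem Q5_thm (h5 : Q5a_Stmt) (hS : QS_Stmt) : Q5_Stmt := by
  intro κ B _ _ _ _ _ Ω hc ho z hz
  have key := Q5.isMaximal_of_le h5 hS κ B Ω hc ho z hz
  have hmax : z.ker.IsMaximal := key z.ker inferInstance le_rfl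
  let p : PrimeSpectrum B := ⟨z.ker, inferInstance⟩
  have h1 : IsNoetherianRing B := Algebra.FiniteType.isNoetherianRing κ B
  have h2 : IsJacobsonRing B := isJacobsonRing_of_finiteType (A := κ)
  have hopen : IsOpen {p} := by
    refine ((PrimeSpectrum.isOpen_singleton_tfae_of_isNoetherian_of_isJacobsonRing p).out 0 2
      rfl rfl).mpr ⟨(PrimeSpectrum.isClosed_singleton_iff_isMaximal p).2 hmax, ?_⟩
    intro x y hyx hx
    rw [Set.mem_singleton_iff] at hx
    subst hx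
    have hle : y.asIdeal ≤ z.ker := by
      have h := (PrimeSpectrum.le_iff_specializes y p).2 hyx
      exact h
    have hy : y.asIdeal.IsMaximal := key y.asIdeal y.2 hle
    rw [Set.mem_singleton_iff]
    apply PrimeSpectrum.ext
    exact hy.eq_of_le hmax.ne_top hle
  exact Algebra.QuasiFiniteAt.of_isOpen_singleton p hopen

end Pool.Agent.TD.Q


end

section

/-!
# Q6a: the fibre of `M(A) → M(R)` over `y` is the spectrum of `κ ⊗_R A` (MP_90358a_ag)
-/

open scoped Topology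

namespace Pool.Agent.TD.Q

namespace Q6a

variable {K R A κ B : Type} [NormedField K] [CommRing R] [CommRing A]
    [Algebra K R] [Algebra K A] [NormedField κ] [CommRing B] [Algebra κ B] (φ : R →ₐ[K] A)
    (y : Ber K R) (ι : R →+* κ) (j : A →+* B)

include y in
theorem hj_aux (h1 : ∀ r, ‖ι r‖ = y.v r) (h3 : ∀ r, j (φ r) = algebraMap κ B (ι r))
    (w : Ber κ B) (c : K) : w.v (j (algebraMap K A c)) = ‖c‖ := by
  rw [← φ.commutes c, h3, w.ext, h1, y.ext]

/-- Elements of `B` are multiples of elements of `A`. -/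
theorem smul_form (h2 : ∀ x : κ, ∃ a b : R, ι b ≠ 0 ∧ x * ι b = ι a)
    (h3 : ∀ r, j (φ r) = algebraMap κ B (ι r)) (h4 : Submodule.span κ (Set.range j) = ⊤)
    (b : B) : ∃ (q : R) (a : A), ι q ≠ 0 ∧ b = (ι q)⁻¹ • j a := by
  have hb : b ∈ Submodule.span κ (Set.range j) := by
    rw [h4]
    exact Submodule.mem_top
  induction hb using Submodule.span_induction with
  | mem x hx =>
    obtain ⟨a, rfl⟩ := hx
    refine ⟨1, a, by rw [map_one]; exact one_ne_zero, ?_⟩
    rw [map_one, inv_one, one_smul]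
  | zero =>
    refine ⟨1, 0, by rw [map_one]; exact one_ne_zero, ?_⟩
    rw [map_zero, smul_zero]
  | add x z _ _ hx hz =>
    obtain ⟨q, a, hq, rfl⟩ := hx
    obtain ⟨q', a', hq', rfl⟩ := hz
    refine ⟨q * q', φ q' * a + φ q * a', by rw [map_mul]; exact mul_ne_zero hq hq', ?_⟩
    rw [map_add, map_mul j, map_mul j, h3, h3, smul_add, ← Algebra.smul_def, ← Algebra.smul_def,
      smul_smul, smul_smul, map_mul]
    congr 2
    · field_simp
    · field_simp
  | smul x z _ hz =>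
    obtain ⟨q, a, hq, rfl⟩ := hz
    obtain ⟨p, s, hs, hx⟩ := h2 x
    refine ⟨s * q, φ p * a, by rw [map_mul]; exact mul_ne_zero hs hq, ?_⟩
    have hx' : x = ι p / ι s := by rw [eq_div_iff hs, hx]
    rw [map_mul j, h3, ← Algebra.smul_def, smul_smul, smul_smul, map_mul, hx']
    congr 1
    field_simp

end Q6a

open Q6a in
/-- (Q6a) the fibre over `y` is the spectrum of the algebra `B = κ ⊗_R A`. -/
theorem Q6a_thm (hE : QE_Stmt) : Q6a_Stmt := by
  intro K R A κ B _ _ _ _ _ _ _ _ φ y ι j h1 h2 h3 h4 h5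
  have hj : ∀ (w : Ber κ B) (c : K), w.v (j (algebraMap K A c)) = ‖c‖ :=
    hj_aux φ y ι j h1 h3
  have hemb : Topology.IsEmbedding (Ber.comap j hj : Ber κ B → Ber K A) := by
    refine hE K κ A B j hj ?_
    intro b
    obtain ⟨q, a, _, hb⟩ := smul_form φ ι j h2 h3 h4 b
    exact ⟨_, a, hb⟩
  have hrange : Set.range (Ber.comap j hj : Ber κ B → Ber K A) = {z | Ber.res φ z = y} := by
    ext z
    constructor
    · rintro ⟨w, rfl⟩
      apply Ber.ext_v
      intro r
      rw [Ber.res_v, Ber.comap_v, h3, w.ext, h1]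
    · intro hz
      obtain ⟨H, _, _, _, ι', hι'⟩ := td_res K A z
      have hn : ∀ r, ‖(ι'.comp φ.toRingHom) r‖ = ‖ι r‖ := by
        intro r
        have e1 : ‖ι' (φ r)‖ = z.v (φ r) := hι'.1 _
        have e2 : y.v r = z.v (φ r) := by
          rw [← (show Ber.res φ z = y from hz), Ber.res_v]
        rw [h1, e2, ← e1]
        rfl
      obtain ⟨e, he1, he2⟩ := exists_ext_completion ι (ι'.comp φ.toRingHom) hn (by
        intro h ε hε
        obtain ⟨a, b, hb, hab⟩ := h2 h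
        refine ⟨a, b, hb, ?_⟩
        rw [← hab, mul_div_assoc, div_self hb, mul_one, sub_self, norm_zero]
        exact hε)
      obtain ⟨F, hF1, hF2⟩ := h5 H e ι' (fun r => he2 r)
      refine ⟨⟨fun b => ‖F b‖, fun b => norm_nonneg _, ?_, ?_, ?_, ?_⟩, ?_⟩
      · show ‖F 1‖ = 1
        rw [map_one, norm_one]
      · intro a b
        show ‖F (a * b)‖ = _
        rw [map_mul, norm_mul]
      · intro a b
        show ‖F (a + b)‖ ≤ _
        rw [map_add]
        exact IsUltrametricDist.norm_add_le_max _ _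
      · intro c
        show ‖F (algebraMap κ B c)‖ = ‖c‖
        rw [hF1, he1]
      · apply Ber.ext_v
        intro a
        rw [Ber.comap_v]
        show ‖F (j a)‖ = _
        rw [hF2]
        exact hι'.1 a
  refine ⟨hj, ⟨hemb, ?_⟩, hrange⟩
  rw [hrange]
  exact isClosed_singleton.preimage (Ber.res_continuous φ)

end Pool.Agent.TD.Q


end

section

/-! (Q9k) The map `M(B) → M(C)` near the points over `F`. -/

open scoped Topology NNReal
open Polynomial

namespace Pool.Agent.TD.Q.Q9k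

section
variable {K R A C B G : Type} [NormedField K] [CommRing R] [CommRing A] [CommRing C] [CommRing B]
  [Algebra K R] [Algebra K A] [Algebra K C] [Algebra K B] [Group G]
  {φ : R →ₐ[K] A} {i : R →ₐ[K] C} {α : A →ₐ[K] B} {γ : C →ₐ[K] B} {ρ : G →* (C ≃ₐ[K] C)}
  {H : Subgroup G} {σ : H →* (B ≃ₐ[K] B)}

/-- `B[1/g] = C[1/g]`. -/
theorem claim (d : DegData φ i α γ ρ H σ) {g : A} {g' : C} (hg' : γ g' = α g)
    (hg : ∀ x : A, ∃ m : ℕ, φ.toRingHom.IsIntegralElem (g ^ m * x)) (x : B) :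
    ∃ (m : ℕ) (c : C), γ g' ^ m * x = γ c := by
  have hx : x ∈ Algebra.adjoin K (Set.range α ∪ Set.range γ) := by
    rw [d.gen]
    exact Algebra.mem_top
  induction hx using Algebra.adjoin_induction with
  | mem x hx =>
    rcases hx with ⟨a, rfl⟩ | ⟨c, rfl⟩
    · obtain ⟨m, hm⟩ := hg a
      obtain ⟨c, hc⟩ := d.elt _ hm
      refine ⟨m, c, ?_⟩
      rw [hc, map_mul, map_pow, hg']
    · exact ⟨0, c, by rw [pow_zero, one_mul]⟩
  | algebraMap r => exact ⟨0, algebraMap K C r, by rw [pow_zero, one_mul, AlgHom.commutes]⟩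
  | add x y _ _ hx hy =>
    obtain ⟨m, c, hc⟩ := hx
    obtain ⟨n, c', hc'⟩ := hy
    refine ⟨m + n, g' ^ n * c + g' ^ m * c', ?_⟩
    rw [map_add, map_mul, map_mul, map_pow, map_pow, ← hc, ← hc', pow_add]
    ring
  | mul x y _ _ hx hy =>
    obtain ⟨m, c, hc⟩ := hx
    obtain ⟨n, c', hc'⟩ := hy
    refine ⟨m + n, c * c', ?_⟩
    rw [map_mul, ← hc, ← hc', pow_add]
    ring

theorem inv (d : DegData φ i α γ ρ H σ) {c : C} {a : A} (h : γ c = α a) (t : H) :
    ρ t c = c := by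
  apply d.injc
  rw [← d.actc, h, d.acta]

end

end Pool.Agent.TD.Q.Q9k

namespace Pool.Agent.TD.Q

theorem Q9k_thm (h7 : Q7a_Stmt) : Q9k_Stmt := by
  intro K R A C B G _ _ _ _ _ _ _ _ _ _ φ i α γ ρ H σ d b hz
  obtain ⟨g, hg0, hgi, hg⟩ := hz
  obtain ⟨g', hg'⟩ := d.elt g hgi
  have hb : b.v (γ g') ≠ 0 := by
    rw [hg']
    exact hg0
  obtain ⟨-, h2, h3⟩ := h7 K C B γ g' d.injc (Q9k.claim d hg' hg)
  refine ⟨fun b' => h2 b b' hb, fun V hV => h3 b hb V hV, ?_⟩
  intro a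
  obtain ⟨m, hm⟩ := hg a
  obtain ⟨c, hc⟩ := d.elt _ hm
  refine ⟨c, g' ^ m, fun t => Q9k.inv d hc t, fun t => ?_, ?_, ?_⟩
  · refine Q9k.inv d (a := g ^ m) ?_ t
    rw [map_pow, map_pow, hg']
  · rw [Ber.res_v, map_pow, Ber.pow]
    exact pow_ne_zero _ hb
  · rw [hc, map_mul, map_pow, map_pow, hg']

end Pool.Agent.TD.Q


end

section

/-!
# Section Q: the theorems without hypotheses
-/

namespace Pool.Agent.TD.Q

theorem q0 : Q0_Stmt := Q0_thm
theorem qu : QU_Stmt := QU_thm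
theorem q1 : Q1_Stmt := Q1_thm q0 qu
theorem qf : QF_Stmt := QF_thm q0 qu
theorem q2 : Q2_Stmt := Q2_thm q1
theorem q2o : Q2o_Stmt := Q2o_thm q2
theorem q3b : Q3b_Stmt := Q3b_thm Q3c_thm
theorem q3a : Q3a_Stmt := Q3a_thm q1 qf q3b
theorem q3 : Q3_Stmt := Q3_thm q3a
theorem q4 : Q4_Stmt := Q4_thm
theorem qe : QE_Stmt := QE_thm
theorem qs : QS_Stmt := QS_thm qe
theorem q5a : Q5a_Stmt := Q5a_thm q3 q4
theorem q5 : Q5_Stmt := Q5_thm q5a qs
theorem q6a : Q6a_Stmt := Q6a_thm qe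
theorem q6 : Q6_Stmt := Q6_thm q5 q6a
theorem q7a : Q7a_Stmt := Q7a_thm
theorem q7 : Q7_Stmt := Q7_thm q3 q7a
theorem q8 : Q8_Stmt := Q8_thm q1 q2
theorem q9b : Q9b_Stmt := Q9b_thm Q9g_thm
theorem q9k : Q9k_Stmt := Q9k_thm q7a
theorem q9w : Q9w_Stmt := Q9w_thm q9k
theorem q9d : Q9d_Stmt := Q9d_thm q2 q2o
theorem q9e : Q9e_Stmt := Q9e_thm q2 q2o q9k q9w
theorem q9f : Q9f_Stmt := Q9f_thm q2 q8 q9k q9w q9d q9e
theorem q9 : Q9_Stmt := Q9_thm q9b q9f

end Pool.Agent.TD.Q


end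

section

/-! Charts of tropicalizations can be centred (module TD_X2_REC). -/

open scoped Topology NNReal

namespace Pool.Agent.TD.X2

variable {K A A' N k E : Type} [NormedField K] [CommRing A] [Algebra K A] [CommRing A']
  [Algebra K A'] [AddCommGroup N] {P : AddSubmonoid N} {r : A →ₐ[K] A'} {χ : P → A} {χ' : N → A'}
  [Fintype k] [Fintype E] {w : P → ℝ} {mm : k → P} {μ : E → P} {a : k → ℝ} {c : E → ℝ}
  {M : Matroid E} {e0 : E} {U : Set (P → ℝ)} {U' : Set ((k → ℝ) × (E → ℝ))}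

namespace Rec

/-- The neighbourhood `U1`. -/
def U1 (w : P → ℝ) (mm : k → P) (μ : E → P) (U : Set (P → ℝ)) (ds : ℝ) : Set (P → ℝ) :=
  {b | b ∈ U ∧ (∀ j : {i : k // w (mm i) ≠ 0}, 0 < b (mm j.1)) ∧
    ∀ e, 0 < b (μ e) ∧ |Real.log (b (μ e)) - Real.log (w (μ e))| < ds}

/-- Independence of the instance. -/
theorem prod_inst {α : Type} (i1 i2 : Fintype α) (f : α → ℝ) :
    (@Finset.univ α i1).prod f = (@Finset.univ α i2).prod f := by
  rw [Subsingleton.elim i1 i2]

theorem isOpen_log (l ds : ℝ) : IsOpen {x : ℝ | 0 < x ∧ |Real.log x - l| < ds} := by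
  have h1 : ContinuousOn (fun x : ℝ => |Real.log x - l|) (Set.Ioi 0) := by
    have h2 : ContinuousOn Real.log (Set.Ioi 0) :=
      Real.continuousOn_log.mono fun x hx => (ne_of_gt hx : x ≠ 0)
    exact (h2.sub continuousOn_const).abs
  exact h1.isOpen_inter_preimage isOpen_Ioi (isOpen_Iio (a := ds))

theorem isOpen_U1 (w : P → ℝ) (mm : k → P) (μ : E → P) {U : Set (P → ℝ)} (hU : IsOpen U)
    (ds : ℝ) : IsOpen (U1 w mm μ U ds) := by
  have : Finite {i : k // w (mm i) ≠ 0} := inferInstance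
  have h1 : IsOpen {b : P → ℝ | ∀ j : {i : k // w (mm i) ≠ 0}, 0 < b (mm j.1)} := by
    have : {b : P → ℝ | ∀ j : {i : k // w (mm i) ≠ 0}, 0 < b (mm j.1)} =
        ⋂ j : {i : k // w (mm i) ≠ 0}, {b : P → ℝ | 0 < b (mm j.1)} := by
      ext b
      simp only [Set.mem_setOf_eq, Set.mem_iInter]
    rw [this]
    exact isOpen_iInter_of_finite fun j => isOpen_lt continuous_const (continuous_apply _)
  have h2 : IsOpen {b : P → ℝ |
      ∀ e, 0 < b (μ e) ∧ |Real.log (b (μ e)) - Real.log (w (μ e))| < ds} := by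
    have : {b : P → ℝ | ∀ e, 0 < b (μ e) ∧ |Real.log (b (μ e)) - Real.log (w (μ e))| < ds} =
        ⋂ e : E, (fun b : P → ℝ => b (μ e)) ⁻¹'
          {x : ℝ | 0 < x ∧ |Real.log x - Real.log (w (μ e))| < ds} := by
      ext b
      simp only [Set.mem_setOf_eq, Set.mem_iInter, Set.mem_preimage]
    rw [this]
    exact isOpen_iInter_of_finite fun e => (isOpen_log _ _).preimage (continuous_apply _)
  exact hU.inter (h1.inter h2)

theorem exp_zmul (x : ℝ) (n : ℤ) : Real.exp ((n : ℝ) * x) = Real.exp x ^ n := by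
  rw [mul_comm, Real.exp_mul, Real.rpow_intCast]

/-- Smallness. -/
theorem exists_delta (a xw : k → ℝ) (hxw : ∀ i, 0 ≤ xw i) {ds d' : ℝ} (hds : 0 < ds)
    (hd : 0 < d') : ∃ δ : ℝ, 0 < δ ∧ δ ≤ ds ∧ δ ≤ d' ∧
      (∀ i, ∀ t : ℝ, t < δ → Real.exp (a i) * t < d') ∧
      ∀ i, ∀ s : ℝ, |s| < δ → |xw i * Real.exp s - xw i| < d' := by
  have hT : ∀ i, 0 ≤ Real.exp (a i) + 2 * xw i := fun i =>
    add_nonneg (Real.exp_pos _).le (mul_nonneg zero_le_two (hxw i))
  obtain ⟨T, hTdef⟩ : ∃ T : ℝ, T = 1 + ∑ i, (Real.exp (a i) + 2 * xw i) := ⟨_, rfl⟩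
  have hle : ∀ i, Real.exp (a i) + 2 * xw i ≤ ∑ i, (Real.exp (a i) + 2 * xw i) := fun i =>
    Finset.single_le_sum (f := fun i => Real.exp (a i) + 2 * xw i) (fun j _ => hT j)
      (Finset.mem_univ i)
  have hT1 : 1 ≤ T := by
    rw [hTdef]
    have := Finset.sum_nonneg fun i (_ : i ∈ Finset.univ) => hT i
    linarith
  have hT0 : 0 < T := lt_of_lt_of_le one_pos hT1
  have hdT : 0 < d' / T := div_pos hd hT0
  have hdTT : T * (d' / T) = d' := mul_div_cancel₀ d' hT0.ne'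
  refine ⟨min (min ds 1) (d' / T), lt_min (lt_min hds one_pos) hdT,
    (min_le_left _ _).trans (min_le_left _ _), ?_, ?_, ?_⟩
  · refine (min_le_right _ _).trans ?_
    rw [div_le_iff₀ hT0]
    nlinarith
  · intro i t ht
    have h1 : t < d' / T := lt_of_lt_of_le ht (min_le_right _ _)
    have h2 : Real.exp (a i) ≤ T := by
      rw [hTdef]
      have := hle i
      have := hxw i
      linarith
    have h3 := Real.exp_pos (a i)
    calc Real.exp (a i) * t < Real.exp (a i) * (d' / T) := by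
          exact mul_lt_mul_of_pos_left h1 h3
      _ ≤ T * (d' / T) := mul_le_mul_of_nonneg_right h2 hdT.le
      _ = d' := hdTT
  · intro i s hs
    have h1 : |s| < d' / T := lt_of_lt_of_le hs (min_le_right _ _)
    have h2 : |s| ≤ 1 := (lt_of_lt_of_le hs ((min_le_left _ _).trans (min_le_right _ _))).le
    have h3 := Real.abs_exp_sub_one_le h2
    have h4 : 2 * xw i ≤ T := by
      rw [hTdef]
      have := hle i
      have := Real.exp_pos (a i)
      linarith
    have h5 : xw i * Real.exp s - xw i = xw i * (Real.exp s - 1) := by ring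
    rw [h5, abs_mul, abs_of_nonneg (hxw i)]
    calc xw i * |Real.exp s - 1| ≤ xw i * (2 * |s|) := mul_le_mul_of_nonneg_left h3 (hxw i)
      _ = (2 * xw i) * |s| := by ring
      _ ≤ T * |s| := mul_le_mul_of_nonneg_right h4 (abs_nonneg _)
      _ < T * (d' / T) := mul_lt_mul_of_pos_left h1 hT0
      _ = d' := hdTT

end Rec

/-- The coordinates `x_i` with `x_i(w) = -∞` are the characters `t_i`; the others and the `y_e` are
centred at `w`. -/
theorem Chart.exists_cchart [Fintype {i : k // w (mm i) = 0}] [Fintype {i : k // w (mm i) ≠ 0}]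
    (hC : Chars K P r χ χ') (hX : Chart K χ w mm μ a c M e0 U U') :
    ∃ (M' : Matroid (E ⊕ {i : k // w (mm i) ≠ 0})) (U1 : Set (P → ℝ)) (δ : ℝ), U1 ⊆ U ∧
      CChart K χ w (fun i : {i : k // w (mm i) = 0} => mm i.1)
        (Sum.elim μ fun i : {i : k // w (mm i) ≠ 0} => mm i.1) M' (Sum.inl e0) U1 δ := by
  classical
  obtain ⟨zw, hzw⟩ := hX.hw
  have hw0 : ∀ m, 0 ≤ w m := by
    intro m
    rw [← hzw]
    exact zw.nonneg _
  have hwμ : ∀ e, 0 < w (μ e) := by
    intro e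
    refine lt_of_le_of_ne (hw0 _) (Ne.symm ?_)
    have h1 := hX.ne zw (by rw [hzw]; exact hX.w_mem) e
    have h2 : w (μ e) = zw.v (χ (μ e)) := by rw [← hzw]; rfl
    rw [h2]
    exact h1
  -- the image of `w`
  have hpw : ((cx mm a w, cy μ c w) : (k → ℝ) × (E → ℝ)) ∈
      {p : (k → ℝ) × (E → ℝ) | p ∈ U' ∧ (∀ i, 0 ≤ p.1 i) ∧ p.2 e0 = 0 ∧ BergM M p.2} := by
    rw [← hX.img]
    exact ⟨w, ⟨hX.hw, hX.w_mem⟩, rfl⟩
  obtain ⟨hU'w, hxw, hve0, hvM⟩ := hpw
  obtain ⟨M1, hE1, hl1, ds, hds, hM1⟩ := exists_star hX.ground hX.loopless hvM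
  have hM1' : ∀ y : E → ℝ, (∀ e, |y e| < ds) → (BergM M (cy μ c w + y) ↔ BergM M1 y) := hM1
  obtain ⟨M', hE', hl', hM'⟩ := exists_coloops (J := {i : k // w (mm i) ≠ 0}) M1 hE1 hl1
  obtain ⟨d', hd', hball⟩ := Metric.isOpen_iff.1 hX.isOpen' _ hU'w
  obtain ⟨δ, hδ, hδs, hδd, hδa, hδx⟩ := Rec.exists_delta a (cx mm a w) hxw hds hd'
  have hin : ∀ (x : k → ℝ) (y : E → ℝ), (∀ i, |x i - cx mm a w i| < d') →
      (∀ e, |y e - cy μ c w e| < d') → (x, y) ∈ U' := by
    intro x y hx hy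
    apply hball
    rw [Metric.mem_ball, Prod.dist_eq, max_lt_iff, dist_pi_lt_iff hd', dist_pi_lt_iff hd']
    exact ⟨fun i => by rw [Real.dist_eq]; exact hx i, fun e => by rw [Real.dist_eq]; exact hy e⟩
  -- the coordinates of a point
  have hcy : ∀ (z : Ber K A) (e : E), cy μ c (tr χ z) e = cy μ c w e +
      ye χ w (Sum.elim μ fun i : {i : k // w (mm i) ≠ 0} => mm i.1) z (Sum.inl e) := by
    intro z e
    show c e + Real.log (z.v (χ (μ e))) =
      c e + Real.log (w (μ e)) + (Real.log (z.v (χ (μ e))) - Real.log (w (μ e)))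
    ring
  refine ⟨M', Rec.U1 w mm μ U ds, δ, fun b hb => hb.1, ?_⟩
  refine ⟨hE', hl', hX.μ0, hX.hw, fun i => i.2, ?_, Rec.isOpen_U1 w mm μ hX.isOpen ds, ?_, hδ,
    ?_, ?_, ?_, ?_⟩
  · rintro (e | j)
    · exact (hwμ e).ne'
    · exact j.2
  · refine ⟨hX.w_mem, fun j => lt_of_le_of_ne (hw0 _) (Ne.symm j.2), fun e => ⟨hwμ e, ?_⟩⟩
    rw [sub_self, abs_zero]
    exact hds
  · rintro z hz (e | j)
    · exact (hz.2.2 e).1.ne'
    · exact (hz.2.1 j).ne'
  · intro z hz
    refine (hM' _).2 ((hM1' _ fun e => (hz.2.2 e).2).1 ?_)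
    have h1 : ((cx mm a (tr χ z), cy μ c (tr χ z)) : (k → ℝ) × (E → ℝ)) ∈
        {p : (k → ℝ) × (E → ℝ) | p ∈ U' ∧ (∀ i, 0 ≤ p.1 i) ∧ p.2 e0 = 0 ∧ BergM M p.2} := by
      rw [← hX.img]
      exact ⟨tr χ z, ⟨⟨z, rfl⟩, hz.1⟩, rfl⟩
    have h2 : BergM M (cy μ c (tr χ z)) := h1.2.2.2
    have h3 : cy μ c (tr χ z) = cy μ c w + fun e =>
        ye χ w (Sum.elim μ fun i : {i : k // w (mm i) ≠ 0} => mm i.1) z (Sum.inl e) := by
      funext e
      exact hcy z e
    rw [h3] at h2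
    exact h2
  · intro rr y hr hy hy0 hyM
    -- the point
    have hmem : ((fun i => if h : w (mm i) = 0 then Real.exp (a i) * (rr ⟨i, h⟩ : ℝ) else
        cx mm a w i * Real.exp (y (Sum.inr ⟨i, h⟩)),
        fun e => cy μ c w e + y (Sum.inl e)) : (k → ℝ) × (E → ℝ)) ∈
        {p : (k → ℝ) × (E → ℝ) | p ∈ U' ∧ (∀ i, 0 ≤ p.1 i) ∧ p.2 e0 = 0 ∧ BergM M p.2} := by
      refine ⟨hin _ _ ?_ ?_, ?_, ?_, ?_⟩
      · intro i
        by_cases h : w (mm i) = 0
        · have h1 : cx mm a w i = 0 := by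
            show Real.exp (a i) * w (mm i) = 0
            rw [h, mul_zero]
          have h2 : 0 ≤ Real.exp (a i) * (rr ⟨i, h⟩ : ℝ) :=
            mul_nonneg (Real.exp_pos _).le (rr ⟨i, h⟩).2
          rw [dif_pos h, h1, sub_zero, abs_of_nonneg h2]
          exact hδa i _ (hr _)
        · rw [dif_neg h]
          exact hδx i _ (hy _)
      · intro e
        rw [add_sub_cancel_left]
        exact lt_of_lt_of_le (hy _) hδd
      · intro i
        show 0 ≤ dite _ _ _
        by_cases h : w (mm i) = 0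
        · rw [dif_pos h]
          exact mul_nonneg (Real.exp_pos _).le (rr _).2
        · rw [dif_neg h]
          exact mul_nonneg (hxw i) (Real.exp_pos _).le
      · show cy μ c w e0 + y (Sum.inl e0) = 0
        rw [hy0, add_zero]
        exact hve0
      · show BergM M (cy μ c w + fun e => y (Sum.inl e))
        exact (hM1' _ fun e => lt_of_lt_of_le (hy _) hδs).2 ((hM' y).1 hyM)
    rw [← hX.img] at hmem
    obtain ⟨b, ⟨⟨z, rfl⟩, hzU⟩, hb⟩ := hmem
    have hb1 : ∀ i, cx mm a (tr χ z) i = if h : w (mm i) = 0 then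
        Real.exp (a i) * (rr ⟨i, h⟩ : ℝ) else cx mm a w i * Real.exp (y (Sum.inr ⟨i, h⟩)) :=
      fun i => congrFun (congrArg Prod.fst hb) i
    have hb2 : ∀ e, cy μ c (tr χ z) e = cy μ c w e + y (Sum.inl e) :=
      fun e => congrFun (congrArg Prod.snd hb) e
    have hzI : ∀ i : {i : k // w (mm i) = 0}, z.v (χ (mm i.1)) = rr i := by
      intro i
      have h1 := hb1 i.1
      rw [dif_pos i.2] at h1
      exact mul_left_cancel₀ (Real.exp_pos (a i.1)).ne' h1
    have hzJ : ∀ j : {i : k // w (mm i) ≠ 0},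
        z.v (χ (mm j.1)) = w (mm j.1) * Real.exp (y (Sum.inr j)) := by
      intro j
      have h1 := hb1 j.1
      rw [dif_neg j.2] at h1
      have h2 : Real.exp (a j.1) * z.v (χ (mm j.1)) =
          Real.exp (a j.1) * (w (mm j.1) * Real.exp (y (Sum.inr j))) := by
        rw [← mul_assoc]
        exact h1
      exact mul_left_cancel₀ (Real.exp_pos (a j.1)).ne' h2
    have hye : ∀ e, ye χ w (Sum.elim μ fun i : {i : k // w (mm i) ≠ 0} => mm i.1) z e = y e := by
      rintro (e | j)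
      · have h1 := hb2 e
        rw [hcy z e] at h1
        exact add_left_cancel h1
      · have hj : 0 < w (mm j.1) := lt_of_le_of_ne (hw0 _) (Ne.symm j.2)
        show Real.log (z.v (χ (mm j.1))) - Real.log (w (mm j.1)) = y (Sum.inr j)
        rw [hzJ j, Real.log_mul hj.ne' (Real.exp_pos _).ne', Real.log_exp]
        ring
    refine ⟨z, ⟨hzU, ?_, ?_⟩, hzI, hye⟩
    · intro j
      show 0 < z.v (χ (mm j.1))
      rw [hzJ j]
      exact mul_pos (lt_of_le_of_ne (hw0 _) (Ne.symm j.2)) (Real.exp_pos _)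
    · intro e
      refine ⟨lt_of_le_of_ne (z.nonneg _) (Ne.symm (hX.ne z hzU e)), ?_⟩
      have h1 := hye (Sum.inl e)
      show |ye χ w (Sum.elim μ fun i : {i : k // w (mm i) ≠ 0} => mm i.1) z (Sum.inl e)| < ds
      rw [h1]
      exact lt_of_lt_of_le (hy _) hδs
  · intro m
    obtain ⟨α, n, d, hα, hf⟩ := hX.aff m
    refine ⟨fun i => (α i.1).toNat, Sum.elim n fun j => α j.1,
      d + (∑ i : {i : k // w (mm i) = 0}, (α i.1 : ℝ) * a i.1) +
        (∑ j : {i : k // w (mm i) ≠ 0}, (α j.1 : ℝ) * (a j.1 + Real.log (w (mm j.1)))) +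
        ∑ e, (n e : ℝ) * cy μ c w e, ?_⟩
    intro z hz
    have hI : ∀ i : {i : k // w (mm i) = 0}, cx mm a (tr χ z) i.1 ^ α i.1 =
        Real.exp ((α i.1 : ℝ) * a i.1) * z.v (χ (mm i.1)) ^ (α i.1).toNat := by
      intro i
      show (Real.exp (a i.1) * z.v (χ (mm i.1))) ^ α i.1 = _
      rw [mul_zpow, ← Rec.exp_zmul]
      congr 1
      conv_lhs => rw [← Int.toNat_of_nonneg (hα i.1 i.2)]
      rw [zpow_natCast]
    have hJ : ∀ j : {i : k // w (mm i) ≠ 0}, cx mm a (tr χ z) j.1 ^ α j.1 =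
        Real.exp ((α j.1 : ℝ) * (a j.1 + Real.log (w (mm j.1)))) *
        Real.exp ((α j.1 : ℝ) *
          ye χ w (Sum.elim μ fun i : {i : k // w (mm i) ≠ 0} => mm i.1) z (Sum.inr j)) := by
      intro j
      have hj : 0 < z.v (χ (mm j.1)) := hz.2.1 j
      have h1 : cx mm a (tr χ z) j.1 = Real.exp (a j.1 + Real.log (w (mm j.1)) +
          ye χ w (Sum.elim μ fun i : {i : k // w (mm i) ≠ 0} => mm i.1) z (Sum.inr j)) := by
        show Real.exp (a j.1) * z.v (χ (mm j.1)) = Real.exp (a j.1 + Real.log (w (mm j.1)) +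
          (Real.log (z.v (χ (mm j.1))) - Real.log (w (mm j.1))))
        have h2 : a j.1 + Real.log (w (mm j.1)) +
          (Real.log (z.v (χ (mm j.1))) - Real.log (w (mm j.1))) =
            a j.1 + Real.log (z.v (χ (mm j.1))) := by ring
        rw [h2, Real.exp_add, Real.exp_log hj]
      rw [h1, ← Rec.exp_zmul, ← Real.exp_add]
      congr 1
      ring
    have hprod : ∏ i, cx mm a (tr χ z) i ^ α i =
        (∏ i : {i : k // w (mm i) = 0}, cx mm a (tr χ z) i.1 ^ α i.1) *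
        ∏ j : {i : k // w (mm i) ≠ 0}, cx mm a (tr χ z) j.1 ^ α j.1 := by
      rw [← Fintype.prod_subtype_mul_prod_subtype (fun i : k => w (mm i) = 0)]
      exact congrArg₂ (fun a b : ℝ => a * b) (Rec.prod_inst _ _ _) (Rec.prod_inst _ _ _)
    have hsum : ∑ e, (n e : ℝ) * cy μ c (tr χ z) e = (∑ e, (n e : ℝ) * cy μ c w e) +
        ∑ e, (n e : ℝ) *
          ye χ w (Sum.elim μ fun i : {i : k // w (mm i) ≠ 0} => mm i.1) z (Sum.inl e) := by
      rw [← Finset.sum_add_distrib]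
      refine Finset.sum_congr rfl fun e _ => ?_
      rw [hcy z e, mul_add]
    rw [hf z hz.1, hprod, hsum, Finset.prod_congr rfl fun i _ => hI i,
      Finset.prod_congr rfl fun j _ => hJ j, Finset.prod_mul_distrib, Finset.prod_mul_distrib,
      ← Real.exp_sum, ← Real.exp_sum, ← Real.exp_sum, Fintype.sum_sum_type]
    simp only [Sum.elim_inl, Sum.elim_inr]
    rw [Real.exp_add, Real.exp_add, Real.exp_add, Real.exp_add, Real.exp_add]
    ring

end Pool.Agent.TD.X2


end
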