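import Mathlib
import Pool.Agent.DolbM.C12
import Pool.Agent.DolbM.C14
import Pool.Agent.DolbM.C28

/-! Parts: TD.OV.LP -/

section

/-!
# Bounded fractions are Laurent polynomials (MP_90358a_ag, PAPER2.md ND6, LP)
-/

open scoped Topology NNReal Polynomial

namespace Pool.Agent.TD

open MvPolynomial in
/-- Gauss points by induction on the number of variables. -/
theorem gp_succ {K : Type} [NormedField K] [IsUltrametricDist K] {n : ℕ}
    (ρ : Fin (n + 1) → ℝ≥0) :
    Ber.res (finSuccEquiv K n).toAlgHom (gx (gp fun i : Fin n => ρ i.succ) (ρ 0)) = gp ρ := by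
  apply le_antisymm
  · apply le_gp
    intro i
    refine Fin.cases ?_ (fun j => ?_) i
    · show (gx _ (ρ 0)).v (finSuccEquiv K n (X 0)) ≤ _
      rw [finSuccEquiv_X_zero, gx_X]
    · show (gx _ (ρ 0)).v (finSuccEquiv K n (X j.succ)) ≤ _
      rw [finSuccEquiv_X_succ, gx_C, gp_X]
  · intro P
    refine gp_v_le _ _ (Ber.nonneg _ _) fun u => ?_
    have h1 := gx_le (gp fun i : Fin n => ρ i.succ) (ρ 0) (finSuccEquiv K n P) (u 0)
    refine le_trans ?_ h1
    have h2 := gp_le (fun i : Fin n => ρ i.succ) ((finSuccEquiv K n P).coeff (u 0)) u.tail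
    rw [finSuccEquiv_coeff_coeff, Finsupp.cons_tail] at h2
    have h3 : (mw ρ u : ℝ) = (mw (fun i : Fin n => ρ i.succ) u.tail : ℝ) * (ρ 0 : ℝ) ^ (u 0) := by
      rw [← NNReal.coe_pow, ← NNReal.coe_mul]
      congr 1
      rw [mw, mw, Finsupp.prod_fintype _ _ (fun i => pow_zero _),
        Finsupp.prod_fintype _ _ (fun i => pow_zero _), Fin.prod_univ_succ, mul_comm]
      rfl
    rw [h3, ← mul_assoc]
    exact mul_le_mul_of_nonneg_right h2 (by positivity)

/-- The statement of LP. -/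
def LpFor (K σ : Type) [NormedField K] [IsUltrametricDist K] [Finite σ] : Prop :=
  ∀ (ρ : σ → ℝ≥0), (∀ i, 0 < ρ i) → ∀ b c : MvPolynomial σ K, b ≠ 0 → c ≠ 0 →
    (∀ᶠ y in 𝓝 (gp ρ : Ber K (MvPolynomial σ K)), (∀ i, y.v (MvPolynomial.X i) = (ρ i : ℝ)) →
      y.v b * (gp ρ).v c ≤ (gp ρ).v b * y.v c) →
    ∃ (u : σ →₀ ℕ) (P : MvPolynomial σ K), Rel (gp ρ) (MvPolynomial.monomial u 1 * b) (P * c)

theorem lp_zero (K : Type) [NormedField K] [IsUltrametricDist K] : LpFor K (Fin 0) := by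
  intro ρ hρ b c hb hc _
  -- polynomials in no variables are constants
  have hconst : ∀ p : MvPolynomial (Fin 0) K, p = MvPolynomial.C (p.coeff 0) := by
    intro p
    ext u
    rw [MvPolynomial.coeff_C, Subsingleton.elim u 0, if_pos rfl]
  have hc0 : c.coeff 0 ≠ 0 := by
    intro h
    apply hc
    rw [hconst c, h, MvPolynomial.C_0]
  refine ⟨0, b * MvPolynomial.C (c.coeff 0)⁻¹, ?_⟩
  have h1 : b * MvPolynomial.C (c.coeff 0)⁻¹ * c = b := by
    conv_lhs => rw [hconst c]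
    rw [MvPolynomial.coeff_C, if_pos rfl, mul_assoc, ← MvPolynomial.C_mul, inv_mul_cancel₀ hc0,
      MvPolynomial.C_1, mul_one]
  have h2 : (MvPolynomial.monomial (0 : Fin 0 →₀ ℕ) (1 : K)) * b = b := by
    show MvPolynomial.C 1 * b = b
    rw [MvPolynomial.C_1, one_mul]
  rw [h1, h2]
  refine Rel.refl (lt_of_le_of_ne (Ber.nonneg _ _) fun h => hb ?_)
  exact (gp_eq_zero hρ).1 h.symm

theorem lp_succ (K : Type) [NormedField K] [IsUltrametricDist K] (m : ℕ)
    (ih : LpFor K (Fin m)) : LpFor K (Fin (m + 1)) := by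
  classical
  intro ρ hρ b c hb hc h
  obtain ⟨ρ', hρ'⟩ : ∃ ρ' : Fin m → ℝ≥0, ρ' = fun i => ρ i.succ := ⟨_, rfl⟩
  have hρ'0 : ∀ i, 0 < ρ' i := fun i => by rw [hρ']; exact hρ _
  obtain ⟨E, hE⟩ : ∃ E, E = MvPolynomial.finSuccEquiv K m := ⟨_, rfl⟩
  -- the point over the Gauss point in one variable less
  obtain ⟨y0, hy0⟩ : ∃ y0 : Ber K (MvPolynomial (Fin m) K), y0 = gp ρ' := ⟨_, rfl⟩
  obtain ⟨z, hz⟩ : ∃ z, z = gx y0 (ρ 0) := ⟨_, rfl⟩
  have hzres : Ber.res E.toAlgHom z = gp ρ := by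
    rw [hz, hE, hy0, hρ']; exact gp_succ ρ
  have hzv : ∀ P, z.v (E P) = (gp ρ).v P := by
    intro P; rw [← hzres]; rfl
  have hy0ker : ∀ a, y0.v a = 0 ↔ a = 0 := fun a => by rw [hy0]; exact gp_eq_zero hρ'0
  have hy0X : ∀ i, y0.v (MvPolynomial.X i) = ρ' i := fun i => by rw [hy0]; exact gp_X _ _
  -- residue field
  obtain ⟨κ, _, _, ι, hres⟩ := exists_resF y0
  have hιinj : ∀ a, ι a = 0 ↔ a = 0 := by
    intro a
    rw [← norm_eq_zero, hres.norm, hy0ker]
  have hιinj' : Function.Injective ι := (injective_iff_map_eq_zero ι).2 fun a ha => (hιinj a).1 ha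
  obtain ⟨η, hη⟩ : ∃ η : Ber κ κ[X], η = gx (nrm κ) (ρ 0) := ⟨_, rfl⟩
  have hval : ∀ (s : ℝ≥0) (f : (MvPolynomial (Fin m) K)[X]),
      (gx (nrm κ) s).v (f.map ι) = (gx y0 s).v f := by
    intro s f
    have hN : ∀ i, (nrm κ).v ((f.map ι).coeff i) = y0.v (f.coeff i) := by
      intro i
      rw [Polynomial.coeff_map]
      exact hres.norm _
    apply le_antisymm
    · refine gx_v_le _ _ _ (Ber.nonneg _ _) fun i => ?_
      rw [hN]; exact gx_le _ _ _ i
    · refine gx_v_le _ _ _ (Ber.nonneg _ _) fun i => ?_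
      rw [← hN]; exact gx_le _ _ _ i
  have hηz : ∀ f : (MvPolynomial (Fin m) K)[X], η.v (f.map ι) = z.v f := by
    intro f; rw [hη, hz]; exact hval _ f
  obtain ⟨b1, hb1⟩ : ∃ b1, b1 = E b := ⟨_, rfl⟩
  obtain ⟨c1, hc1⟩ : ∃ c1, c1 = E c := ⟨_, rfl⟩
  have hb1' : b1 ≠ 0 := by
    rw [hb1]; exact (map_ne_zero_iff E E.injective).2 hb
  have hc1' : c1 ≠ 0 := by
    rw [hc1]; exact (map_ne_zero_iff E E.injective).2 hc
  have hbκ : b1.map ι ≠ 0 := (Polynomial.map_ne_zero_iff hιinj').2 hb1'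
  have hcκ : c1.map ι ≠ 0 := (Polynomial.map_ne_zero_iff hιinj').2 hc1'
  -- the hypothesis of OV
  have hov : ∀ᶠ e in 𝓝 (gx (nrm κ) (ρ 0)), e.v Polynomial.X = (ρ 0 : ℝ) →
      e.v (b1.map ι) * (gx (nrm κ) (ρ 0)).v (c1.map ι) ≤
        (gx (nrm κ) (ρ 0)).v (b1.map ι) * e.v (c1.map ι) := by
    have hcont : Continuous fun e : Ber κ κ[X] => Ber.res E.toAlgHom (fibU hres e) :=
      (Ber.res_continuous _).comp (fibU_continuous hres)
    have hlim : Ber.res E.toAlgHom (fibU hres (gx (nrm κ) (ρ 0))) = gp ρ := by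
      rw [← hzres]
      congr 1
      apply Ber.ext_v
      intro f
      rw [fibU_v, hval, hz]
    have h1 := hcont.tendsto (gx (nrm κ) (ρ 0))
    rw [hlim] at h1
    filter_upwards [h1.eventually h] with e he hX
    have h2 : (∀ i, (Ber.res E.toAlgHom (fibU hres e)).v (MvPolynomial.X i) = (ρ i : ℝ)) := by
      intro i
      refine Fin.cases ?_ (fun j => ?_) i
      · show e.v ((E (MvPolynomial.X 0)).map ι) = _
        rw [hE, MvPolynomial.finSuccEquiv_X_zero, Polynomial.map_X, hX]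
      · show e.v ((E (MvPolynomial.X j.succ)).map ι) = _
        rw [hE, MvPolynomial.finSuccEquiv_X_succ, Polynomial.map_C]
        have h3 := e.ext (ι (MvPolynomial.X j))
        rw [show (algebraMap κ κ[X]) (ι (MvPolynomial.X j)) =
          Polynomial.C (ι (MvPolynomial.X j)) from rfl] at h3
        rw [h3, hres.norm, hy0X, hρ']
    have h3 := he h2
    rw [← hlim] at h3
    rw [hb1, hc1]
    exact h3
  obtain ⟨n, P', hP'⟩ := ov (hρ 0) hbκ hcκ hov
  rw [← hη] at hP'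
  have hηpos : ∀ f : κ[X], f ≠ 0 → 0 < η.v f := fun f hf => by
    rw [hη]; exact gx_pos _ (hρ 0) hf
  have hP'0 : P' ≠ 0 := by
    rintro rfl
    have := hP'.symm.pos
    rw [zero_mul, Ber.zero] at this
    exact lt_irrefl _ this
  obtain ⟨P'', hrel, hP''0, -, -, hmax, -⟩ := gx_strip (nrm κ) (hρ 0) hP'0
  rw [← hη] at hrel hmax
  -- common denominator
  obtain ⟨Q, d, hd, hQ⟩ := FibAux.exists_rep hres P''
  have hd0 : d ≠ 0 := fun h0 => hd (by rw [h0, map_zero])
  have hCd : (Polynomial.C (ι d) : κ[X]) ≠ 0 := Polynomial.C_ne_zero.2 hd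
  have hQκ : Q.map ι ≠ 0 := by rw [hQ]; exact mul_ne_zero hCd hP''0
  have hQ0 : Q ≠ 0 := by
    rintro rfl
    exact hQκ (Polynomial.map_zero ι)
  have hzpos : ∀ f : (MvPolynomial (Fin m) K)[X], f ≠ 0 → 0 < z.v f := fun f hf => by
    rw [← hηz]; exact hηpos _ ((Polynomial.map_ne_zero_iff hιinj').2 hf)
  -- relation over `R[X]`
  have hR1 : Rel z (Polynomial.X ^ n * b1 * Polynomial.C d) (Q * c1) := by
    have h1 : Rel η ((Polynomial.X ^ n * b1.map ι) * Polynomial.C (ι d))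
        (Q.map ι * c1.map ι) := by
      have h2 : Rel η ((Polynomial.X ^ n * b1.map ι)) (P'' * c1.map ι) :=
        hP'.trans (hrel.mul_right (hηpos _ hcκ))
      refine (h2.mul_right (hηpos _ hCd)).congr_right ?_
      rw [hQ]; ring
    unfold Rel at h1 ⊢
    rw [← hηz, ← hηz]
    simpa [Polynomial.map_sub, Polynomial.map_mul, Polynomial.map_pow] using h1
  -- the coefficients of `Q`
  have hQmax : ∀ i, Q.coeff i ≠ 0 → y0.v (Q.coeff i) * (ρ 0 : ℝ) ^ i = z.v Q := by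
    intro i hi
    have h1 : ι (Q.coeff i) = ι d * P''.coeff i := by
      rw [← Polynomial.coeff_map, hQ, Polynomial.coeff_C_mul]
    have h2 : P''.coeff i ≠ 0 := by
      intro h0
      rw [h0, mul_zero] at h1
      exact hi ((hιinj _).1 h1)
    have h3 := hmax i h2
    rw [← hηz, hQ, η.mul, ← h3, ← hres.norm, h1]
    have h4 : η.v (Polynomial.C (ι d)) = ‖ι d‖ := η.ext (ι d)
    rw [h4, norm_mul]
    show _ = ‖ι d‖ * (‖P''.coeff i‖ * _)
    ring
  have hρ0 : (0 : ℝ) < ρ 0 := hρ 0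
  have hcoef : ∀ i, Q.coeff i ≠ 0 → ∃ (u : Fin m →₀ ℕ) (P : MvPolynomial (Fin m) K),
      Rel y0 (MvPolynomial.monomial u 1 * Q.coeff i) (P * d) := by
    intro i hi
    rw [hy0]
    refine ih ρ' hρ'0 (Q.coeff i) d hi hd0 ?_
    rw [← hy0]
    have hcont : Continuous fun y : Ber K (MvPolynomial (Fin m) K) => gx y (ρ 0) :=
      continuous_gx.comp (continuous_id.prodMk continuous_const)
    have h1 := hcont.tendsto y0
    rw [← hz] at h1
    have h2 := ((Ber.res_continuous E.toAlgHom).tendsto z).comp h1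
    rw [hzres] at h2
    have hc1pos : ∀ᶠ y' in 𝓝 z, 0 < y'.v c1 :=
      (Ber.continuous_v c1).continuousAt.eventually (lt_mem_nhds (hzpos c1 hc1'))
    filter_upwards [h1.eventually hR1.eventually, h2.eventually h, h1.eventually hc1pos] with y
      hy1 hy2 hy3 hX
    obtain ⟨y', hy'⟩ : ∃ y', y' = gx y (ρ 0) := ⟨_, rfl⟩
    rw [← hy'] at hy1 hy3
    have hX' : ∀ i, (Ber.res E.toAlgHom (gx y (ρ 0))).v (MvPolynomial.X i) = (ρ i : ℝ) := by
      intro i
      refine Fin.cases ?_ (fun j => ?_) i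
      · show (gx y (ρ 0)).v (E (MvPolynomial.X 0)) = _
        rw [hE, MvPolynomial.finSuccEquiv_X_zero, gx_X]
      · show (gx y (ρ 0)).v (E (MvPolynomial.X j.succ)) = _
        rw [hE, MvPolynomial.finSuccEquiv_X_succ, gx_C, hX, hρ']
    have h3 := hy2 hX'
    have h4 : y'.v b1 * z.v c1 ≤ z.v b1 * y'.v c1 := by
      rw [← hzv, ← hzv] at h3
      rw [hy', hb1, hc1]
      exact h3
    have h5 := hy1.v_eq
    have h6 := hR1.v_eq
    rw [y'.mul, y'.mul, y'.mul, y'.pow, show y'.v Polynomial.X = ρ 0 by rw [hy', gx_X],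
      show y'.v (Polynomial.C d) = y.v d by rw [hy', gx_C]] at h5
    rw [z.mul, z.mul, z.mul, z.pow, show z.v Polynomial.X = ρ 0 by rw [hz, gx_X],
      show z.v (Polynomial.C d) = y0.v d by rw [hz, gx_C]] at h6
    have hzc := hzpos c1 hc1'
    have hd' : 0 ≤ y.v d := y.nonneg d
    have hd'' : 0 ≤ y0.v d := y0.nonneg d
    have hρn : (0 : ℝ) < (ρ 0 : ℝ) ^ n := pow_pos hρ0 n
    -- `|Q|_{y'} |d| ≤ |Q| |d|_y`
    have h7 : y'.v Q * y0.v d ≤ z.v Q * y.v d := by
      have h8 : (y'.v Q * y0.v d) * (y'.v c1 * z.v c1) ≤ (z.v Q * y.v d) * (y'.v c1 * z.v c1) := by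
        calc (y'.v Q * y0.v d) * (y'.v c1 * z.v c1)
            = (y'.v Q * y'.v c1) * (y0.v d * z.v c1) := by ring
          _ = (ρ 0 : ℝ) ^ n * y.v d * y0.v d * (y'.v b1 * z.v c1) := by rw [h5]; ring
          _ ≤ (ρ 0 : ℝ) ^ n * y.v d * y0.v d * (z.v b1 * y'.v c1) :=
              mul_le_mul_of_nonneg_left h4 (mul_nonneg (mul_nonneg hρn.le hd') hd'')
          _ = ((ρ 0 : ℝ) ^ n * z.v b1 * y0.v d) * (y.v d * y'.v c1) := by ring
          _ = (z.v Q * z.v c1) * (y.v d * y'.v c1) := by rw [h6]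
          _ = _ := by ring
      exact le_of_mul_le_mul_right h8 (mul_pos hy3 hzc)
    have h9 : y.v (Q.coeff i) * (ρ 0 : ℝ) ^ i ≤ y'.v Q := by rw [hy']; exact gx_le _ _ _ i
    have h10 : y.v (Q.coeff i) * y0.v d * (ρ 0 : ℝ) ^ i ≤
        y0.v (Q.coeff i) * y.v d * (ρ 0 : ℝ) ^ i := by
      calc y.v (Q.coeff i) * y0.v d * (ρ 0 : ℝ) ^ i
          = (y.v (Q.coeff i) * (ρ 0 : ℝ) ^ i) * y0.v d := by ring
        _ ≤ y'.v Q * y0.v d := mul_le_mul_of_nonneg_right h9 hd''
        _ ≤ z.v Q * y.v d := h7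
        _ = (y0.v (Q.coeff i) * (ρ 0 : ℝ) ^ i) * y.v d := by rw [hQmax i hi]
        _ = _ := by ring
    exact le_of_mul_le_mul_right h10 (pow_pos hρ0 i)
  -- collect
  have hex : ∀ i, ∃ (u : Fin m →₀ ℕ) (P : MvPolynomial (Fin m) K), Q.coeff i ≠ 0 →
      Rel y0 (MvPolynomial.monomial u 1 * Q.coeff i) (P * d) := by
    intro i
    by_cases hi : Q.coeff i = 0
    · exact ⟨0, 0, fun h' => absurd hi h'⟩
    · obtain ⟨u, P, h'⟩ := hcoef i hi
      exact ⟨u, P, fun _ => h'⟩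
  choose uf Pf hf using hex
  obtain ⟨u, hu⟩ : ∃ u : Fin m →₀ ℕ, u = ∑ i ∈ Q.support, uf i := ⟨_, rfl⟩
  obtain ⟨Pn, hPn⟩ : ∃ Pn : ℕ → MvPolynomial (Fin m) K,
      ∀ i, Pn i = MvPolynomial.monomial (u - uf i) 1 * Pf i := ⟨_, fun _ => rfl⟩
  have hmon : ∀ v : Fin m →₀ ℕ, 0 < y0.v (MvPolynomial.monomial v (1 : K)) := by
    intro v
    refine lt_of_le_of_ne (y0.nonneg _) fun h' => ?_
    have := (hy0ker _).1 h'.symm
    rw [MvPolynomial.monomial_eq_zero] at this
    exact one_ne_zero this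
  have hPrel : ∀ i ∈ Q.support, Rel y0 (MvPolynomial.monomial u 1 * Q.coeff i) (Pn i * d) := by
    intro i hi
    have hle : uf i ≤ u := by rw [hu]; exact Finset.single_le_sum (fun _ _ => zero_le) hi
    have h1 := (hf i (Polynomial.mem_support_iff.1 hi)).mul_left (hmon (u - uf i))
    have h2 : (MvPolynomial.monomial (u - uf i) (1 : K)) *
        ((MvPolynomial.monomial (uf i)) 1 * Q.coeff i) =
        MvPolynomial.monomial u 1 * Q.coeff i := by
      rw [← mul_assoc, MvPolynomial.monomial_mul, one_mul, tsub_add_cancel_of_le hle]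
    rw [h2, ← mul_assoc, ← hPn] at h1
    exact h1
  obtain ⟨P, hP⟩ : ∃ P : (MvPolynomial (Fin m) K)[X],
      P = ∑ i ∈ Q.support, Polynomial.monomial i (Pn i) := ⟨_, rfl⟩
  have hPc : ∀ i, P.coeff i = if i ∈ Q.support then Pn i else 0 := by
    intro i
    rw [hP, Polynomial.finsetSum_coeff]
    simp only [Polynomial.coeff_monomial]
    rw [Finset.sum_ite_eq' Q.support i fun j => Pn j]
  have hmonu0 : (MvPolynomial.monomial u (1 : K)) ≠ 0 := by
    rw [Ne, MvPolynomial.monomial_eq_zero]; exact one_ne_zero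
  have hCu : (Polynomial.C (MvPolynomial.monomial u (1 : K))) ≠ 0 := Polynomial.C_ne_zero.2 hmonu0
  have hR2 : Rel z (Polynomial.C (MvPolynomial.monomial u 1) * Q) (P * Polynomial.C d) := by
    unfold Rel
    have hpos : 0 < z.v (Polynomial.C (MvPolynomial.monomial u (1 : K)) * Q) :=
      hzpos _ (mul_ne_zero hCu hQ0)
    rw [hz] at hpos ⊢
    obtain ⟨i, hi⟩ := gx_ex y0 (ρ 0) (Polynomial.C (MvPolynomial.monomial u (1 : K)) * Q -
      P * Polynomial.C d)
    rw [hi, Polynomial.coeff_sub, Polynomial.coeff_C_mul, Polynomial.coeff_mul_C, hPc]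
    by_cases hiQ : i ∈ Q.support
    · rw [if_pos hiQ]
      have h1 := gx_le y0 (ρ 0) (Polynomial.C (MvPolynomial.monomial u (1 : K)) * Q) i
      rw [Polynomial.coeff_C_mul] at h1
      refine lt_of_lt_of_le ?_ h1
      exact mul_lt_mul_of_pos_right (hPrel i hiQ) (pow_pos hρ0 i)
    · rw [if_neg hiQ, Polynomial.notMem_support_iff.1 hiQ, mul_zero, zero_mul, sub_zero, y0.zero,
        zero_mul]
      exact hpos
  -- conclusion in `R[X]`
  have hR3 : Rel z (Polynomial.C (MvPolynomial.monomial u 1) * Polynomial.X ^ n * b1)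
      (P * c1) := by
    have hCd' : (Polynomial.C d : (MvPolynomial (Fin m) K)[X]) ≠ 0 := Polynomial.C_ne_zero.2 hd0
    have h1 := hR1.mul_left (hzpos _ hCu)
    have h2 := hR2.mul_right (hzpos c1 hc1')
    have h3 : Rel z (Polynomial.C d * (Polynomial.C (MvPolynomial.monomial u 1) *
        Polynomial.X ^ n * b1)) (Polynomial.C d * (P * c1)) := by
      refine ((h1.congr_left ?_).congr_right (y' := Polynomial.C (MvPolynomial.monomial u 1) * Q *
        c1) ?_).trans (h2.congr_right ?_)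
      · ring
      · ring
      · ring
    exact h3.cancel_left
  -- go back
  refine ⟨u.cons n, E.symm P, ?_⟩
  have hmonE : E (MvPolynomial.monomial (u.cons n) 1) =
      Polynomial.C (MvPolynomial.monomial u 1) * Polynomial.X ^ n := by
    rw [hE]
    ext i v
    rw [MvPolynomial.finSuccEquiv_coeff_coeff, MvPolynomial.coeff_monomial,
      Polynomial.coeff_C_mul, Polynomial.coeff_X_pow]
    by_cases hin : i = n
    · subst hin
      rw [if_pos rfl, mul_one, MvPolynomial.coeff_monomial]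
      have : (Finsupp.cons i u = Finsupp.cons i v) ↔ u = v :=
        ⟨fun h' => by rw [← Finsupp.tail_cons i u, h', Finsupp.tail_cons], fun h' => by rw [h']⟩
      simp only [this]
    · rw [if_neg hin, mul_zero, MvPolynomial.coeff_zero, if_neg]
      intro h'
      apply hin
      rw [← Finsupp.cons_zero i v, ← h', Finsupp.cons_zero]
  unfold Rel at hR3 ⊢
  rw [← hzv, ← hzv, map_sub, map_mul, map_mul, hmonE, AlgEquiv.apply_symm_apply, ← hb1, ← hc1]
  exact hR3

theorem lp_fin (K : Type) [NormedField K] [IsUltrametricDist K] : ∀ m : ℕ, LpFor K (Fin m)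
  | 0 => lp_zero K
  | m + 1 => lp_succ K m (lp_fin K m)

/-- Gauss points and renaming of the variables. -/
theorem gp_rename {K σ τ : Type} [NormedField K] [IsUltrametricDist K] [Finite σ] [Finite τ]
    (e : σ ≃ τ) (ρ : σ → ℝ≥0) :
    Ber.res (MvPolynomial.renameEquiv K e).toAlgHom (gp fun i => ρ (e.symm i)) = gp ρ := by
  apply le_antisymm
  · apply le_gp
    intro i
    show (gp _).v (MvPolynomial.renameEquiv K e (MvPolynomial.X i)) ≤ _
    rw [MvPolynomial.renameEquiv_apply, MvPolynomial.rename_X, gp_X, Equiv.symm_apply_apply]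
  · intro P
    refine gp_v_le _ _ (Ber.nonneg _ _) fun u => ?_
    have h1 := gp_le (fun i => ρ (e.symm i)) (MvPolynomial.rename e P) (u.mapDomain e)
    rw [MvPolynomial.coeff_rename_mapDomain e e.injective] at h1
    refine le_trans (le_of_eq ?_) h1
    congr 2
    rw [mw, mw, Finsupp.prod_mapDomain_index_inj e.injective]
    simp only [Equiv.symm_apply_apply]

/-- **(LP)** Bounded fractions are Laurent polynomials up to smaller terms. -/
theorem lp {K σ : Type} [NormedField K] [IsUltrametricDist K] [Finite σ] {ρ : σ → ℝ≥0}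
    (hρ : ∀ i, 0 < ρ i) {b c : MvPolynomial σ K} (hb : b ≠ 0) (hc : c ≠ 0)
    (h : ∀ᶠ y in 𝓝 (gp ρ : Ber K (MvPolynomial σ K)), (∀ i, y.v (MvPolynomial.X i) = (ρ i : ℝ)) →
      y.v b * (gp ρ).v c ≤ (gp ρ).v b * y.v c) :
    ∃ (u : σ →₀ ℕ) (P : MvPolynomial σ K),
      Rel (gp ρ) (MvPolynomial.monomial u 1 * b) (P * c) := by
  obtain ⟨n, ⟨e⟩⟩ := Finite.exists_equiv_fin σ
  obtain ⟨E, hE⟩ : ∃ E, E = MvPolynomial.renameEquiv K e := ⟨_, rfl⟩
  obtain ⟨ρ', hρ'⟩ : ∃ ρ' : Fin n → ℝ≥0, ρ' = fun i => ρ (e.symm i) := ⟨_, rfl⟩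
  have hres : Ber.res E.toAlgHom (gp ρ') = gp ρ := by rw [hE, hρ']; exact gp_rename e ρ
  have hv : ∀ P, (gp ρ').v (E P) = (gp ρ).v P := by
    intro P; rw [← hres]; rfl
  obtain ⟨u, P, hP⟩ := lp_fin K n ρ' (fun i => by rw [hρ']; exact hρ _) (E b) (E c)
    ((map_ne_zero_iff E E.injective).2 hb) ((map_ne_zero_iff E E.injective).2 hc) (by
      have h1 := (Ber.res_continuous E.toAlgHom).tendsto (gp ρ')
      rw [hres] at h1
      filter_upwards [h1.eventually h] with y hy hX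
      rw [hv, hv]
      refine hy fun i => ?_
      show y.v (E (MvPolynomial.X i)) = _
      rw [hE, MvPolynomial.renameEquiv_apply, MvPolynomial.rename_X, hX, hρ']
      show ((ρ (e.symm (e i)) : ℝ≥0) : ℝ) = _
      rw [Equiv.symm_apply_apply])
  refine ⟨u.mapDomain e.symm, E.symm P, ?_⟩
  have hmon : E (MvPolynomial.monomial (u.mapDomain e.symm) 1) = MvPolynomial.monomial u 1 := by
    rw [hE, MvPolynomial.renameEquiv_apply, MvPolynomial.rename_monomial,
      ← Finsupp.mapDomain_comp, Equiv.self_comp_symm, Finsupp.mapDomain_id]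
  unfold Rel at hP ⊢
  rw [← hv, ← hv, map_sub, map_mul, map_mul, hmon, AlgEquiv.apply_symm_apply]
  exact hP

end Pool.Agent.TD


end
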