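import Mathlib
import Pool.Agent.DolbM.C18
import Pool.Agent.DolbM.C33
import Pool.Agent.DolbM.C34

/-! Parts: TD.GP.Ifc -/

section

/-!
# Proofs of `StmtGp`, `StmtPath`, `StmtLP`, `StmtSep` (MP_90358a_ag, PAPER2.md)
-/

open scoped Topology NNReal
open MvPolynomial

namespace Pool.Agent.TD

theorem stmtGp : StmtGp := fun _ _ _ _ _ => ⟨gp, continuous_gp, isGp_gp⟩

theorem stmtLP : StmtLP := by
  intro K σ _ _ _ ρ hρ η hη b c hb hc h
  obtain rfl := hη.eq_gp
  obtain ⟨u, P, hP⟩ := lp hρ hb hc h
  exact ⟨P, u, hP⟩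

section path

variable {K σ : Type} [NormedField K]

/-- `X_i ↦ X_i + Y_i`. -/
noncomputable def shA (K σ : Type) [NormedField K] :
    MvPolynomial σ K →ₐ[K] MvPolynomial σ (MvPolynomial σ K) :=
  MvPolynomial.aeval fun i => C (X i) + X i

theorem shA_X (i : σ) : shA K σ (X i) = C (X i) + X i := by
  rw [shA, aeval_X]

theorem shA_coeff_zero (P : MvPolynomial σ K) : coeff 0 (shA K σ P) = P := by
  have h : ∀ F : MvPolynomial σ (MvPolynomial σ K), coeff 0 F = constantCoeff F := fun F => rfl
  rw [h]
  induction P using MvPolynomial.induction_on with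
  | C a =>
    rw [shA, aeval_C]
    show constantCoeff (C (C a)) = C a
    rw [constantCoeff_C]
  | add p q hp hq => rw [map_add, map_add, hp, hq]
  | mul_X p i hp => rw [map_mul, map_mul, hp, shA_X, map_add, constantCoeff_C, constantCoeff_X,
      add_zero]

theorem gm_zero {A : Type} [CommRing A] [Algebra K A] [Finite σ] (z : Ber K A)
    (P : MvPolynomial σ A) : (gmp z fun _ => 0).v P = z.v (coeff 0 P) := by
  classical
  apply le_antisymm
  · refine gm_v_le _ _ _ (z.nonneg _) fun u => ?_
    by_cases hu : u = 0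
    · rw [hu, mw_zero, NNReal.coe_one, mul_one]
    · have h1 : mw (fun _ : σ => (0 : ℝ≥0)) u = 0 := by
        obtain ⟨i, hi⟩ : ∃ i, u i ≠ 0 := by
          by_contra hc
          push Not at hc
          exact hu (Finsupp.ext hc)
        exact Finset.prod_eq_zero (Finsupp.mem_support_iff.2 hi) (zero_pow hi)
      rw [h1, NNReal.coe_zero, mul_zero]
      exact z.nonneg _
  · have h1 := gm_le z (fun _ : σ => (0 : ℝ≥0)) P 0
    rwa [mw_zero, NNReal.coe_one, mul_one] at h1

theorem shA_top [IsUltrametricDist K] [Finite σ] {ρ : σ → ℝ≥0} {w : Ber K (MvPolynomial σ K)}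
    (hw : ∀ i, w.v (X i) ≤ ρ i) : Ber.res (shA K σ) (gmp w ρ) = gp ρ := by
  apply le_antisymm
  · apply le_gp
    intro i
    show (gmp w ρ).v (shA K σ (X i)) ≤ _
    rw [shA_X]
    refine ((gmp w ρ).add _ _).trans (max_le ?_ ?_)
    · rw [gm_C]; exact hw i
    · rw [gm_X]
  · intro P
    -- the inverse translation
    obtain ⟨τ, hτC, hτX⟩ : ∃ τ : MvPolynomial σ (MvPolynomial σ K) →ₐ[K]
        MvPolynomial σ (MvPolynomial σ K), (∀ a, τ (C a) = C a) ∧
          ∀ i, τ (X i) = X i - C (X i) := by
      refine ⟨(MvPolynomial.aeval (fun i => X i - C (X i)) :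
        MvPolynomial σ (MvPolynomial σ K) →ₐ[MvPolynomial σ K]
        MvPolynomial σ (MvPolynomial σ K)).restrictScalars K, fun a => ?_, fun i => ?_⟩
      · show MvPolynomial.aeval _ (C a) = _
        rw [aeval_C]
        rfl
      · show MvPolynomial.aeval _ (X i) = _
        rw [aeval_X]
    have h1 : Ber.res τ (gmp w ρ) ≤ gmp w ρ := by
      refine le_gm (fun a => ?_) fun i => ?_
      · show (gmp w ρ).v (τ (C a)) ≤ _
        rw [hτC, gm_C]
      · show (gmp w ρ).v (τ (X i)) ≤ _
        rw [hτX]
        refine ((gmp w ρ).sub _ _).trans (max_le ?_ ?_)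
        · rw [gm_X]
        · rw [gm_C]; exact hw i
    have h3 : τ (shA K σ P) = MvPolynomial.map (C : K →+* MvPolynomial σ K) P := by
      induction P using MvPolynomial.induction_on with
      | C a =>
        rw [shA, aeval_C]
        show τ (C (C a)) = _
        rw [hτC, map_C]
      | add p q hp hq => rw [map_add, map_add, hp, hq, map_add]
      | mul_X p i hp =>
        rw [map_mul, map_mul, hp, shA_X, map_add, hτC, hτX, map_mul, map_X]
        ring
    have h4 : (gmp w ρ).v (MvPolynomial.map (C : K →+* MvPolynomial σ K) P) = (gp ρ).v P := by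
      apply le_antisymm
      · refine gm_v_le _ _ _ (Ber.nonneg _ _) fun u => ?_
        rw [coeff_map]
        have h5 : w.v (C (coeff u P)) = ‖coeff u P‖ := w.ext _
        rw [h5]; exact gp_le ρ P u
      · refine gp_v_le _ _ (Ber.nonneg _ _) fun u => ?_
        have h5 : w.v (C (coeff u P)) = ‖coeff u P‖ := w.ext _
        have h6 := gm_le w ρ (MvPolynomial.map (C : K →+* MvPolynomial σ K) P) u
        rwa [coeff_map, h5] at h6
    rw [← h4, ← h3]
    exact h1 (shA K σ P)

theorem stmtPath : StmtPath := by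
  intro K σ _ _ _ ρ η hη w hw
  obtain rfl := hη.eq_gp
  obtain ⟨r, hr⟩ : ∃ r : ℝ → σ → ℝ≥0, ∀ s i, r s i = s.toNNReal * ρ i := ⟨_, fun _ _ => rfl⟩
  have hmono : ∀ s s', s ≤ s' → ∀ i, r s i ≤ r s' i := by
    intro s s' hs i
    rw [hr, hr]
    exact mul_le_mul_left (Real.toNNReal_mono hs) _
  have h0 : r 0 = fun _ => 0 := by
    funext i; rw [hr, Real.toNNReal_zero, zero_mul]
  have h1 : r 1 = ρ := by
    funext i; rw [hr, Real.toNNReal_one, one_mul]
  have hcont : Continuous r := by
    refine continuous_pi fun i => ?_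
    simp only [hr]
    exact continuous_real_toNNReal.mul continuous_const
  have hγ0 : Ber.res (shA K σ) (gmp w (r 0)) = w := by
    rw [h0]
    apply Ber.ext_v
    intro P
    rw [Ber.res_v, gm_zero, shA_coeff_zero]
  have hγ1 : Ber.res (shA K σ) (gmp w (r 1)) = gp ρ := by
    rw [h1]; exact shA_top hw
  refine ⟨fun s => Ber.res (shA K σ) (gmp w (r s)), ?_, hγ0, hγ1, ?_⟩
  · exact ((Ber.res_continuous _).comp
      (continuous_gm.comp (continuous_const.prodMk hcont))).continuousOn
  · intro s hs
    constructor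
    · conv_lhs => rw [← hγ0]
      exact Ber.res_mono _ (gm_mono le_rfl (hmono 0 s hs.1))
    · rw [← hγ1]
      exact Ber.res_mono _ (gm_mono le_rfl (hmono s 1 hs.2))

end path

theorem stmtSep : StmtSep := by
  intro K σ A _ _ _ _ _ _ _ φ z ρ hρ hz hker hd a ⟨P, hP0, hP⟩
  classical
  have hz0 : ∀ x, z.v x = 0 → x = 0 := by
    intro x hx
    have : x ∈ z.ker := hx
    rwa [hker, Ideal.mem_bot] at this
  have hinj : Function.Injective φ := by
    rw [injective_iff_map_eq_zero]
    intro Q hQ
    rw [← gp_eq_zero hρ, gp_v, ← hz, hQ, z.zero]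
  let F := FractionRing (MvPolynomial σ K)
  let F' := FractionRing A
  have hinj' : Function.Injective ((algebraMap A F').comp φ.toRingHom) :=
    (IsFractionRing.injective A F').comp hinj
  letI algFF' : Algebra F F' := (IsFractionRing.lift hinj').toAlgebra
  have hcomp : ∀ Q : MvPolynomial σ K,
      algebraMap F F' (algebraMap (MvPolynomial σ K) F Q) = algebraMap A F' (φ Q) := fun Q =>
    IsFractionRing.lift_algebraMap hinj' Q
  -- evaluation
  have heval : ∀ Q : Polynomial (MvPolynomial σ K),
      Polynomial.aeval (algebraMap A F' a) (Q.map (algebraMap (MvPolynomial σ K) F)) =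
        algebraMap A F' (Q.eval₂ φ.toRingHom a) := by
    intro Q
    rw [Polynomial.aeval_def, Polynomial.eval₂_map, Polynomial.hom_eval₂]
    have e : (algebraMap F F').comp (algebraMap (MvPolynomial σ K) F) =
        (algebraMap A F').comp φ.toRingHom := RingHom.ext hcomp
    rw [e]
  have hint : IsIntegral F (algebraMap A F' a) := by
    rw [← isAlgebraic_iff_isIntegral]
    refine ⟨P.map (algebraMap (MvPolynomial σ K) F), ?_, ?_⟩
    · exact (Polynomial.map_ne_zero_iff (IsFractionRing.injective _ F)).2 hP0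
    · rw [heval, hP, map_zero]
  have hsep := sep_domain hρ z hz0 φ hz hd hcomp (algebraMap A F' a) hint
  obtain ⟨b, hbM, hb⟩ := IsLocalization.integerNormalization_spec
    (nonZeroDivisors (MvPolynomial σ K)) (minpoly F (algebraMap A F' a))
  refine ⟨IsLocalization.integerNormalization (nonZeroDivisors (MvPolynomial σ K))
    (minpoly F (algebraMap A F' a)), ?_, ?_⟩
  · rw [hb]
    have hb0 : (algebraMap (MvPolynomial σ K) F b) ≠ 0 := by
      intro h0
      have h1 := (map_eq_zero_iff _ (IsFractionRing.injective (MvPolynomial σ K) F)).1 h0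
      exact nonZeroDivisors.ne_zero hbM h1
    have h2 : b • minpoly F (algebraMap A F' a) =
        Polynomial.C (algebraMap (MvPolynomial σ K) F b) * minpoly F (algebraMap A F' a) := by
      rw [← Polynomial.smul_eq_C_mul, algebraMap_smul]
    rw [h2]
    exact Polynomial.Separable.unit_mul (Polynomial.isUnit_C.2 hb0.isUnit) hsep
  · apply IsFractionRing.injective A F'
    rw [← heval, hb, map_zero, ← algebraMap_smul F, map_smul, minpoly.aeval, smul_zero]

end Pool.Agent.TD


end
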