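import Mathlib
import Pool.Agent.DolbM.C18
import Pool.Agent.DolbM.C19
import Pool.Agent.DolbM.C20
import Pool.Agent.DolbM.C23
import Pool.Agent.DolbM.C26
import Pool.Agent.DolbM.C32
import Pool.Agent.DolbM.C35

/-! Parts: TD.N.All, TD.R.S5, TD.R.S6 -/

section

/-!
# Stage 3: section ND without hypotheses (PAPER2.md)

`NDat.str`: the fibre `F_w` is an arrangement fibre; `X2.exists_ne'`: nonzero functions do not
vanish on open sets.
-/

open scoped Topology NNReal

namespace Pool.Agent.TD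

theorem stmtQ6 : StmtQ6 := by
  intro K R A _ _ _ _ _ _ φ hφ z Ω V hΩ hV he hz
  have hzV : z ∈ V := by
    rw [he] at hz
    exact hz.1
  refine Q.q6 K R A φ hφ (Ber.res φ z) V hV ?_ z hzV rfl
  rw [← he]
  exact hΩ

theorem stmtQ7 : StmtQ7 := by
  intro K R A _ _ _ _ _ _ _ _ _ φ hφ z hz V hV
  exact Q.q7 K R A φ hφ z hz V hV

theorem stmtQ9 : StmtQ9 := by
  intro K R A _ _ _ _ _ _ _ _ _ φ hφ hft hsep Z F V V1 y0 Y1 hZ hZc hF hV hFV hzmp hy0 hcl hV1 hY1
  refine Q.q9 K R A φ hφ hft hsep Z F V1 Y1 y0 ?_ hZc ?_ hy0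
  · refine ⟨hZ, hF, fun z hz => ?_, fun z hz => ?_, hzmp⟩
    · rw [hFV] at hz
      exact hz.2
    · rw [hFV] at hz
      filter_upwards [hV.mem_nhds hz.1] with z' hz' h
      rw [hFV]
      exact ⟨hz', h⟩
  · refine ⟨hV1, hcl, fun y hy r hr => ?_, fun z hz z' hz' hzY e => ?_, fun z hz hzY => ?_⟩
    · have h := (hY1 y hy).1
      have hr' : r ∈ y.ker := hr
      rw [h] at hr'
      exact hr'
    · exact (hY1 _ hzY).2.1 z hz z' hz' rfl e.symm
    · exact (hY1 _ hzY).2.2 z hz rfl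

namespace NDat

variable {K A I E : Type} [NormedField K] [IsUltrametricDist K] [Finite I] [Finite E]
  [CommRing A] [IsDomain A] [Algebra K A] [Algebra.FiniteType K A]

/-- (ND8) the structure theorem, without hypotheses. -/
theorem str [CompleteSpace K] {D : NDat K A I E} (hD : D.Ok) : ∃ B c0 c, Str D B c0 c :=
  exists_str stmtQ6 stmtQ7 stmtQ9 stmtSep stmtGp stmtLP stmtPath hD

end NDat

namespace X2

variable {K A : Type} [NormedField K] [IsUltrametricDist K] [CommRing A] [IsDomain A]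
  [Algebra K A] [Algebra.FiniteType K A]

/-- The set where a nonzero function does not vanish is dense. -/
theorem exists_ne' {f : A} (hf : f ≠ 0) (z : Ber K A) {V : Set (Ber K A)} (hV : V ∈ 𝓝 z) :
    ∃ z' ∈ V, z'.v f ≠ 0 := exists_ne stmtQ7 hf z hV

end X2

end Pool.Agent.TD


end

section

/-! Block R: the saturated algebra of characters at a point (module TD_R_S5). -/

open scoped Topology NNReal

namespace Pool.Agent.TD.R

open X2

section basic

variable {K A A' N : Type} [NormedField K] [CommRing A] [Algebra K A] [CommRing A']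
  [Algebra K A'] [AddCommGroup N] {P : AddSubmonoid N} {r : A →ₐ[K] A'} {χ : P → A} {χ' : N → A'}

theorem isTr_range (hC : Chars K P r χ χ') : IsTr (Set.range (X2.tr (K := K) χ)) := by
  rintro _ ⟨z, rfl⟩
  exact ⟨hC.tr_zero z, hC.tr_add z, fun m => z.nonneg _⟩

/-- Characters of a domain are non-zero. -/
theorem chi_ne_zero [Nontrivial A'] (hC : Chars K P r χ χ') (m : P) : χ m ≠ 0 := by
  intro h0
  have h1 : χ' m = 0 := by rw [← hC.comp, h0, map_zero]
  have h2 : χ' ((m : N) + -m) = χ' m * χ' (-(m : N)) := hC.add' _ _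
  rw [add_neg_cancel, hC.zero', h1, zero_mul] at h2
  exact one_ne_zero h2

/-- The points of `M(A')` are dense in `M(A)`. -/
theorem dense_res [IsUltrametricDist K] [IsDomain A'] (hC : Chars K P r χ χ')
    (z : Ber K A) {V : Set (Ber K A)} (hV : V ∈ 𝓝 z) : ∃ z' : Ber K A', Ber.res r z' ∈ V := by
  classical
  have : IsDomain A := hC.inj.isDomain r
  have : Algebra.FiniteType K A := hC.finiteType
  obtain ⟨G, hG⟩ := hC.exists_gens
  have hf : (∏ g ∈ G, χ g) ≠ 0 := Finset.prod_ne_zero_iff.2 fun g _ => chi_ne_zero hC g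
  obtain ⟨z1, hz1, hne⟩ := X2.exists_ne' hf z hV
  have hg : ∀ g ∈ G, z1.v (χ g) ≠ 0 := by
    intro g hg h0
    apply hne
    rw [← Finset.mul_prod_erase G _ hg, z1.mul, h0, zero_mul]
  have hall : ∀ m : P, z1.v (χ m) ≠ 0 := by
    intro m
    have hm : m ∈ AddSubmonoid.closure (G : Set P) := by rw [hG]; trivial
    induction hm using AddSubmonoid.closure_induction with
    | mem x hx => exact hg x hx
    | zero => rw [hC.zero, z1.one]; exact one_ne_zero
    | add x y _ _ hx hy => rw [hC.add, z1.mul]; exact mul_ne_zero hx hy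
  obtain ⟨z', rfl⟩ := hC.exists_ext z1 hall
  exact ⟨z', hz1⟩

theorem dns_range [IsUltrametricDist K] [IsDomain A'] (hC : Chars K P r χ χ') :
    Dns (Set.range (X2.tr (K := K) χ)) := by
  rintro _ ⟨z, rfl⟩ V hV
  have h1 : X2.tr (K := K) χ ⁻¹' V ∈ 𝓝 z := (X2.continuous_tr χ).continuousAt.preimage_mem_nhds hV
  obtain ⟨z', hz'⟩ := dense_res hC z h1
  refine ⟨X2.tr χ (Ber.res r z'), ⟨⟨_, rfl⟩, hz'⟩, fun m => ?_⟩
  rw [hC.tr_res]
  exact hC.v_ne z' m

end basic

variable {K A A' N I E : Type} [NormedField K] [CommRing A] [Algebra K A]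
  [CommRing A'] [Algebra K A'] [AddCommGroup N] {P : AddSubmonoid N} {r : A →ₐ[K] A'} {χ : P → A}
  {χ' : N → A'} [Fintype I] [Fintype E] {w : P → ℝ} {t : I → (P → ℝ) → ℝ}
  {y : E → (P → ℝ) → ℝ} {M : Matroid E} {e0 : E} {U : Set (P → ℝ)} {δ : ℝ}
  {L : (I → ℝ) × (E → ℝ) → P → ℝ}

/-- The exponents `nn m i` of the coordinates `t i` in the character `m`, and characters `μ i` which
are multiples of `t i`. -/
structure IsNN (K : Type) {A A' N I E : Type} [NormedField K] [CommRing A] [Algebra K A]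
    [CommRing A'] [Algebra K A'] [AddCommGroup N] {P : AddSubmonoid N} [Fintype I] [Fintype E]
    (r : A →ₐ[K] A') (χ : P → A) (χ' : N → A') (t : I → (P → ℝ) → ℝ) (y : E → (P → ℝ) → ℝ)
    (U : Set (P → ℝ)) (nn : N →+ (I → ℤ)) (μ : I → N) (cμ : I → ℝ) : Prop where
  nonneg : ∀ (m : P) (i : I), 0 ≤ nn m i
  one : ∀ i, nn (μ i) i = 1
  zero : ∀ i j, i ≠ j → nn (μ i) j = 0
  tμ : ∀ (z : Ber K A'), X2.tr χ (Ber.res r z) ∈ U → ∀ i,
    t i (X2.tr χ (Ber.res r z)) = Real.exp (cμ i) * z.v (χ' (μ i))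
  mon : ∀ m : N, ∃ (l : E → ℤ) (c : ℝ), ∀ z : Ber K A', X2.tr χ (Ber.res r z) ∈ U →
    z.v (χ' m) = Real.exp c * (∏ i, t i (X2.tr χ (Ber.res r z)) ^ nn m i) *
      Real.exp (∑ e, (l e : ℝ) * y e (X2.tr χ (Ber.res r z)))

theorem s5_t_ne [IsUltrametricDist K] [IsDomain A'] (hC : Chars K P r χ χ')
    (h : LM (Set.range (X2.tr (K := K) χ)) w t y M e0 U δ L) (z : Ber K A')
    (hz : X2.tr χ (Ber.res r z) ∈ U) (i : I) : t i (X2.tr χ (Ber.res r z)) ≠ 0 := by
  obtain ⟨G, hG⟩ := hC.exists_gens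
  refine h.t_of_stratum (isTr_range hC) hG ⟨⟨_, rfl⟩, hz⟩ (fun m => ?_) i
  rw [hC.tr_res]
  exact hC.v_ne z m

theorem s5_pt [IsUltrametricDist K] [IsDomain A'] (hC : Chars K P r χ χ')
    (h : LM (Set.range (X2.tr (K := K) χ)) w t y M e0 U δ L) {b : P → ℝ}
    (hb : b ∈ Set.range (X2.tr (K := K) χ) ∩ U) (ht : ∀ i, t i b ≠ 0) :
    ∃ z : Ber K A', X2.tr χ (Ber.res r z) = b := by
  obtain ⟨G, hG⟩ := hC.exists_gens
  have hne := h.stratum_of_t (isTr_range hC) (dns_range hC) hG hb ht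
  obtain ⟨⟨z0, rfl⟩, hU⟩ := hb
  obtain ⟨z, rfl⟩ := hC.exists_ext z0 hne
  exact ⟨z, rfl⟩

/-- The character `m` is a monomial in the coordinates with exponents `n`. -/
def s5_Mon (K : Type) {A A' N I E : Type} [NormedField K] [CommRing A] [Algebra K A]
    [CommRing A'] [Algebra K A'] [AddCommGroup N] {P : AddSubmonoid N} [Fintype I] [Fintype E]
    (r : A →ₐ[K] A') (χ : P → A) (χ' : N → A') (t : I → (P → ℝ) → ℝ) (y : E → (P → ℝ) → ℝ)
    (U : Set (P → ℝ)) (m : N) (n : I → ℤ) : Prop :=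
  ∃ (l : E → ℤ) (c : ℝ), ∀ z : Ber K A', X2.tr χ (Ber.res r z) ∈ U →
    z.v (χ' m) = Real.exp c * (∏ i, t i (X2.tr χ (Ber.res r z)) ^ n i) *
      Real.exp (∑ e, (l e : ℝ) * y e (X2.tr χ (Ber.res r z)))

theorem s5_uniq [IsUltrametricDist K] [IsDomain A'] (hC : Chars K P r χ χ')
    (h : LM (Set.range (X2.tr (K := K) χ)) w t y M e0 U δ L) {m : N} {n n' : I → ℤ}
    (h1 : s5_Mon K r χ χ' t y U m n) (h2 : s5_Mon K r χ χ' t y U m n') : n = n' := by
  obtain ⟨l, c, h1⟩ := h1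
  obtain ⟨l', c', h2⟩ := h2
  refine (h.coord_uniq (c := c) (c' := c') (l := l) (l' := l') fun b hb ht => ?_).1
  obtain ⟨z, rfl⟩ := s5_pt hC h hb ht
  rw [← h1 z hb.2, ← h2 z hb.2]

theorem s5_add [IsUltrametricDist K] [IsDomain A'] (hC : Chars K P r χ χ')
    (h : LM (Set.range (X2.tr (K := K) χ)) w t y M e0 U δ L) {m m' : N} {n n' : I → ℤ}
    (h1 : s5_Mon K r χ χ' t y U m n) (h2 : s5_Mon K r χ χ' t y U m' n') :
    s5_Mon K r χ χ' t y U (m + m') (n + n') := by
  obtain ⟨l, c, h1⟩ := h1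
  obtain ⟨l', c', h2⟩ := h2
  refine ⟨l + l', c + c', fun z hz => ?_⟩
  rw [hC.add', z.mul, h1 z hz, h2 z hz, Real.exp_add]
  have e1 : (∏ i, t i (X2.tr χ (Ber.res r z)) ^ (n + n') i) =
      (∏ i, t i (X2.tr χ (Ber.res r z)) ^ n i) * ∏ i, t i (X2.tr χ (Ber.res r z)) ^ n' i := by
    rw [← Finset.prod_mul_distrib]
    refine Finset.prod_congr rfl fun i _ => ?_
    rw [Pi.add_apply, zpow_add₀ (s5_t_ne hC h z hz i)]
  have e2 : (∑ e, ((l + l') e : ℝ) * y e (X2.tr χ (Ber.res r z))) =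
      (∑ e, (l e : ℝ) * y e (X2.tr χ (Ber.res r z))) +
        ∑ e, (l' e : ℝ) * y e (X2.tr χ (Ber.res r z)) := by
    rw [← Finset.sum_add_distrib]
    refine Finset.sum_congr rfl fun e _ => ?_
    rw [Pi.add_apply]
    push_cast
    ring
  rw [e1, e2, Real.exp_add]
  ring

theorem s5_neg [IsUltrametricDist K] [IsDomain A'] (hC : Chars K P r χ χ')
    {m : N} {n : I → ℤ} (h1 : s5_Mon K r χ χ' t y U m n) :
    s5_Mon K r χ χ' t y U (-m) (-n) := by
  obtain ⟨l, c, h1⟩ := h1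
  refine ⟨-l, -c, fun z hz => ?_⟩
  have e0 : z.v (χ' (-m)) = (z.v (χ' m))⁻¹ := by
    have e : z.v (χ' (m + -m)) = z.v (χ' m) * z.v (χ' (-m)) := by rw [hC.add', z.mul]
    rw [add_neg_cancel, hC.zero', z.one] at e
    exact eq_inv_of_mul_eq_one_right e.symm
  rw [e0, h1 z hz, mul_inv, mul_inv, ← Real.exp_neg, ← Real.exp_neg, ← Finset.prod_inv_distrib,
    ← Finset.sum_neg_distrib]
  refine congrArg₂ _ (congrArg _ (Finset.prod_congr rfl fun i _ => ?_))
    (congrArg _ (Finset.sum_congr rfl fun e _ => ?_))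
  · rw [Pi.neg_apply, zpow_neg]
  · rw [Pi.neg_apply]
    push_cast
    ring

theorem s5_nat [IsUltrametricDist K] [IsDomain A'] (hC : Chars K P r χ χ')
    (h : LM (Set.range (X2.tr (K := K) χ)) w t y M e0 U δ L) (m : P) :
    ∃ n : I → ℕ, s5_Mon K r χ χ' t y U (m : N) fun i => (n i : ℤ) := by
  obtain ⟨G, hG⟩ := hC.exists_gens
  obtain ⟨n, l, c, hh⟩ := h.coord (isTr_range hC) (dns_range hC) hG m
  refine ⟨n, l, c, fun z hz => ?_⟩
  have h1 := hh _ ⟨⟨_, rfl⟩, hz⟩
  rw [hC.tr_res] at h1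
  rw [h1]
  simp only [zpow_natCast]

theorem exists_nn [IsUltrametricDist K] [IsDomain A'] (hC : Chars K P r χ χ')
    (h : LM (Set.range (X2.tr (K := K) χ)) w t y M e0 U δ L) : ∃ nn μ cμ,
    IsNN K r χ χ' t y U nn μ cμ := by
  classical
  obtain ⟨G, hG⟩ := hC.exists_gens
  have hex : ∀ m : N, ∃ n : I → ℤ, s5_Mon K r χ χ' t y U m n := by
    intro m
    obtain ⟨a, a', rfl⟩ := hC.gen m
    obtain ⟨n, hn⟩ := s5_nat hC h a
    obtain ⟨n', hn'⟩ := s5_nat hC h a'
    rw [sub_eq_add_neg]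
    exact ⟨_, s5_add hC h hn (s5_neg hC hn')⟩
  choose n hn using hex
  have hmu : ∀ i, ∃ (m : N) (c : ℝ), ∀ (z : Ber K A'), X2.tr χ (Ber.res r z) ∈ U →
      t i (X2.tr χ (Ber.res r z)) = Real.exp c * z.v (χ' m) := by
    intro i
    obtain ⟨m, m', c, hh⟩ := h.coord_t (isTr_range hC) (dns_range hC) hG i
    refine ⟨(m : N) - m', c, fun z hz => ?_⟩
    rw [hh _ ⟨⟨_, rfl⟩, hz⟩ (s5_t_ne hC h z hz), hC.tr_res, hC.tr_res]
    have e : z.v (χ' ((m : N) - m')) * z.v (χ' m') = z.v (χ' m) := by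
      rw [← z.mul, ← hC.add', sub_add_cancel]
    rw [← e, mul_div_cancel_right₀ _ (hC.v_ne z m')]
  choose μ cμ hμ using hmu
  have hμn : ∀ i, n (μ i) = Pi.single i 1 := by
    intro i
    refine s5_uniq hC h (hn _) ⟨0, -cμ i, fun z hz => ?_⟩
    have e1 : (∏ j, t j (X2.tr χ (Ber.res r z)) ^ (Pi.single i 1 : I → ℤ) j) =
        t i (X2.tr χ (Ber.res r z)) := by
      rw [Finset.prod_eq_single i]
      · rw [Pi.single_eq_same, zpow_one]
      · intro j _ hj
        rw [Pi.single_eq_of_ne hj, zpow_zero]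
      · intro hi
        exact absurd (Finset.mem_univ i) hi
    have e2 : (∑ e, ((0 : E → ℤ) e : ℝ) * y e (X2.tr χ (Ber.res r z))) = 0 :=
      Finset.sum_eq_zero fun e _ => by rw [Pi.zero_apply, Int.cast_zero, zero_mul]
    rw [e1, e2, Real.exp_zero, mul_one, hμ i z hz, ← mul_assoc, ← Real.exp_add, neg_add_cancel,
      Real.exp_zero, one_mul]
  refine ⟨AddMonoidHom.mk' n fun m m' => s5_uniq hC h (hn _) (s5_add hC h (hn m) (hn m')), μ, cμ,
    fun m i => ?_, fun i => ?_, fun i j hij => ?_, fun z hz i => hμ i z hz, hn⟩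
  · obtain ⟨n', hn'⟩ := s5_nat hC h m
    have e := s5_uniq hC h (hn m) hn'
    show 0 ≤ n m i
    rw [e]
    exact Int.natCast_nonneg _
  · show n (μ i) i = 1
    rw [hμn, Pi.single_eq_same]
  · show n (μ i) j = 0
    rw [hμn, Pi.single_eq_of_ne (Ne.symm hij)]

/-- The characters with non-negative exponents. -/
def P2 (nn : N →+ (I → ℤ)) : AddSubmonoid N where
  carrier := {m | ∀ i, 0 ≤ nn m i}
  zero_mem' := fun i => by rw [map_zero]; exact le_rfl
  add_mem' := fun {a b} ha hb i => by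
    rw [map_add, Pi.add_apply]
    exact add_nonneg (ha i) (hb i)

theorem P2_fg {nn : N →+ (I → ℤ)} {μ : I → N} (hN : AddGroup.FG N) (h1 : ∀ i, nn (μ i) i = 1)
    (h0 : ∀ i j, i ≠ j → nn (μ i) j = 0) : (P2 nn).FG := by
  classical
  have hfin : Module.Finite ℤ N := Module.Finite.iff_addGroup_fg.2 hN
  have hker : (AddSubgroup.toIntSubmodule nn.ker).FG := IsNoetherian.noetherian _
  obtain ⟨S, hS⟩ := hker
  have hS' : AddSubgroup.closure (S : Set N) = nn.ker := by
    rw [← Submodule.span_int_eq_addSubgroupClosure, hS]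
    rfl
  refine (AddSubmonoid.fg_iff _).2 ⟨((S : Set N) ∪ -(S : Set N)) ∪ Set.range μ, ?_, ?_⟩
  · have hk : ∀ m ∈ nn.ker, m ∈ P2 nn := by
      intro m hm i
      have e : nn m = 0 := hm
      rw [e]
      exact le_rfl
    have hSk : ∀ m ∈ S, m ∈ nn.ker := fun m hm => by
      rw [← hS']
      exact AddSubgroup.subset_closure hm
    refine le_antisymm ?_ ?_
    · rw [AddSubmonoid.closure_le]
      rintro m ((hm | hm) | ⟨i, rfl⟩)
      · exact hk m (hSk m hm)
      · have h3 : -m ∈ nn.ker := hSk (-m) hm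
        exact hk m (by simpa using neg_mem h3)
      · intro j
        by_cases hij : i = j
        · subst hij
          rw [h1]
          exact zero_le_one
        · rw [h0 i j hij]
    · intro m hm
      have e1 : m = (m - ∑ i, (nn m i).toNat • μ i) + ∑ i, (nn m i).toNat • μ i := by
        rw [sub_add_cancel]
      rw [e1]
      have hμc : ∀ i, μ i ∈ AddSubmonoid.closure (((S : Set N) ∪ -(S : Set N)) ∪ Set.range μ) :=
        fun i => AddSubmonoid.subset_closure (Or.inr ⟨i, rfl⟩)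
      refine add_mem ?_ (sum_mem fun i _ => nsmul_mem (hμc i) _)
      have h4 : (m - ∑ i, (nn m i).toNat • μ i) ∈ nn.ker := by
        rw [AddMonoidHom.mem_ker, map_sub, map_sum]
        funext j
        rw [Pi.sub_apply, Finset.sum_apply, Finset.sum_eq_single j]
        · rw [map_nsmul, Pi.smul_apply, h1, nsmul_eq_mul, mul_one, Int.toNat_of_nonneg (hm j),
            sub_self]
          rfl
        · intro i _ hij
          rw [map_nsmul, Pi.smul_apply, h0 i j hij, smul_zero]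
        · intro hj
          exact absurd (Finset.mem_univ j) hj
      rw [← hS', ← AddSubgroup.mem_toAddSubmonoid, AddSubgroup.closure_toAddSubmonoid] at h4
      exact AddSubmonoid.closure_mono Set.subset_union_left h4
  · exact (S.finite_toSet.union S.finite_toSet.neg).union (Set.finite_range μ)

/-- The algebra spanned by these characters. -/
def A2 (K : Type) {A' N I : Type} [NormedField K] [CommRing A'] [Algebra K A'] [AddCommGroup N]
    (χ' : N → A') (nn : N →+ (I → ℤ)) : Subalgebra K A' :=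
  Algebra.adjoin K (Set.range fun m : P2 nn => χ' m)

/-- Its characters. -/
def chi2 (K : Type) {A' N I : Type} [NormedField K] [CommRing A'] [Algebra K A']
    [AddCommGroup N] (χ' : N → A') (nn : N →+ (I → ℤ)) (m : P2 nn) : A2 K χ' nn :=
  ⟨χ' m, Algebra.subset_adjoin ⟨m, rfl⟩⟩

omit [Fintype I] in
theorem s5_mem {nn : N →+ (I → ℤ)} (hC : Chars K P r χ χ') {a : A'} (ha : a ∈ A2 K χ' nn) :
    ∃ F : P2 nn →₀ K, (F.sum fun m c => c • χ' (m : N)) = a := by
  rw [← Finsupp.mem_span_range_iff_exists_finsupp]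
  have h1 : a ∈ Subalgebra.toSubmodule (A2 K χ' nn) := ha
  unfold A2 at h1
  rw [Algebra.adjoin_eq_span] at h1
  refine Submodule.span_mono ?_ h1
  intro x hx
  induction hx using Submonoid.closure_induction with
  | mem x hx => exact hx
  | one => exact ⟨0, hC.zero'⟩
  | mul x y _ _ hx hy =>
    obtain ⟨m, rfl⟩ := hx
    obtain ⟨m', rfl⟩ := hy
    exact ⟨m + m', hC.add' _ _⟩

theorem chars2 {nn : N →+ (I → ℤ)} {μ : I → N} {cμ : I → ℝ} (hC : Chars K P r χ χ')
    (h : IsNN K r χ χ' t y U nn μ cμ) : Chars K (P2 nn) (A2 K χ' nn).val (chi2 K χ' nn) χ' where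
  zero := Subtype.ext hC.zero'
  add m m' := Subtype.ext (hC.add' m m')
  zero' := hC.zero'
  add' := hC.add'
  comp m := rfl
  span a := by
    obtain ⟨F, hF⟩ := s5_mem hC a.2
    refine ⟨F, Subtype.ext ?_⟩
    rw [← hF]
    unfold Finsupp.sum
    rw [AddSubmonoidClass.coe_finsetSum]
    refine Finset.sum_congr rfl fun m _ => ?_
    exact (Algebra.smul_def (F m) (χ' (m : N))).symm
  span' := hC.span'
  inj := Subtype.val_injective
  gen m := by
    obtain ⟨a, b, e⟩ := hC.gen m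
    exact ⟨⟨a, fun i => h.nonneg a i⟩, ⟨b, fun i => h.nonneg b i⟩, e⟩
  fgP := P2_fg hC.fgN h.one h.zero

theorem mem_A2 {nn : N →+ (I → ℤ)} {μ : I → N} {cμ : I → ℝ} (hC : Chars K P r χ χ')
    (h : IsNN K r χ χ' t y U nn μ cμ) (a : A) : r a ∈ A2 K χ' nn := by
  obtain ⟨F, rfl⟩ := hC.span a
  unfold Finsupp.sum
  rw [map_sum]
  refine sum_mem fun m _ => ?_
  rw [map_mul, r.commutes, hC.comp]
  exact mul_mem (Subalgebra.algebraMap_mem _ _)
    (Algebra.subset_adjoin ⟨⟨m, fun i => h.nonneg m i⟩, rfl⟩)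

/-- The inclusion `A → A2`. -/
def rho2 {nn : N →+ (I → ℤ)} {μ : I → N} {cμ : I → ℝ} (hC : Chars K P r χ χ')
    (h : IsNN K r χ χ' t y U nn μ cμ) : A →ₐ[K] A2 K χ' nn :=
  r.codRestrict _ (mem_A2 hC h)

theorem rho2_chi {nn : N →+ (I → ℤ)} {μ : I → N} {cμ : I → ℝ} (hC : Chars K P r χ χ')
    (h : IsNN K r χ χ' t y U nn μ cμ) (m : P) :
    rho2 hC h (χ m) = chi2 K χ' nn ⟨m, fun i => h.nonneg m i⟩ := by
  apply Subtype.ext
  exact hC.comp m

end Pool.Agent.TD.R


end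

section

/-! Block R: points of the saturated algebra (module TD_R_S6). -/

open scoped Topology NNReal

namespace Pool.Agent.TD.R

open X2

variable {K A A' N I E : Type} [NormedField K] [IsUltrametricDist K] [CommRing A] [Algebra K A]
  [CommRing A'] [IsDomain A'] [Algebra K A'] [AddCommGroup N] {P : AddSubmonoid N}
  {r : A →ₐ[K] A'} {χ : P → A} {χ' : N → A'} [Fintype I] [Fintype E] {w : P → ℝ}
  {t : I → (P → ℝ) → ℝ} {y : E → (P → ℝ) → ℝ} {M : Matroid E} {e0 : E} {U : Set (P → ℝ)} {δ : ℝ}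
  {L : (I → ℝ) × (E → ℝ) → P → ℝ} {nn : N →+ (I → ℤ)} {μ : I → N} {cμ : I → ℝ}

/-- The character `μ i` in `P2`. -/
def mu2 (hN : IsNN K r χ χ' t y U nn μ cμ) (i : I) : P2 nn :=
  ⟨μ i, fun j => by
    by_cases hij : i = j
    · subst hij
      rw [hN.one]
      exact zero_le_one
    · rw [hN.zero i j hij]⟩

omit [IsUltrametricDist K] [IsDomain A'] in
/-- Restriction of a point of `M(A')` in two steps. -/
theorem S6.res_res (hC : Chars K P r χ χ') (hN : IsNN K r χ χ' t y U nn μ cμ) (z : Ber K A') :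
    Ber.res (rho2 hC hN) (Ber.res (A2 K χ' nn).val z) = Ber.res r z := by
  apply Ber.ext_v
  intro a
  rfl

omit [IsUltrametricDist K] [IsDomain A'] in
theorem S6.cont_tr (hC : Chars K P r χ χ') (hN : IsNN K r χ χ' t y U nn μ cμ) :
    Continuous fun z : Ber K (A2 K χ' nn) => X2.tr χ (Ber.res (rho2 hC hN) z) :=
  (X2.continuous_tr χ).comp (Ber.res_continuous _)

/-- Continuous functions which agree at the points of `M(A')` agree. -/
theorem S6.agree (hC : Chars K P r χ χ') (hN : IsNN K r χ χ' t y U nn μ cμ)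
    {f g : Ber K (A2 K χ' nn) → ℝ} {S : Set (Ber K (A2 K χ' nn))} (hS : IsOpen S)
    (hf : ContinuousOn f S) (hg : ContinuousOn g S)
    (h : ∀ z : Ber K A', Ber.res (A2 K χ' nn).val z ∈ S →
      f (Ber.res (A2 K χ' nn).val z) = g (Ber.res (A2 K χ' nn).val z))
    {z : Ber K (A2 K χ' nn)} (hz : z ∈ S) : f z = g z := by
  by_contra hne
  have hSz : S ∈ 𝓝 z := hS.mem_nhds hz
  have h0 : Filter.Tendsto (fun x => f x - g x) (𝓝 z) (𝓝 (f z - g z)) :=
    (hf.continuousAt hSz).sub (hg.continuousAt hSz)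
  have h1 : ∀ᶠ x in 𝓝 z, f x - g x ≠ 0 := h0.eventually_ne (sub_ne_zero.2 hne)
  obtain ⟨z', hz1, hz2⟩ := dense_res (chars2 hC hN) z (Filter.inter_mem h1 hSz)
  exact hz1 (sub_eq_zero.2 (h z' hz2))

omit [IsUltrametricDist K] [IsDomain A'] in
theorem S6.t_cont (h : LM (Set.range (X2.tr (K := K) χ)) w t y M e0 U δ L) (i : I) :
    ContinuousOn (t i) (Set.range (X2.tr (K := K) χ) ∩ U) :=
  ((continuous_apply i).comp continuous_fst).comp_continuousOn h.cont

omit [IsUltrametricDist K] [IsDomain A'] in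
theorem S6.y_cont (h : LM (Set.range (X2.tr (K := K) χ)) w t y M e0 U δ L) (e : E) :
    ContinuousOn (y e) (Set.range (X2.tr (K := K) χ) ∩ U) :=
  ((continuous_apply e).comp continuous_snd).comp_continuousOn h.cont

omit [IsUltrametricDist K] [IsDomain A'] in
/-- The formulas are continuous. -/
theorem S6.F_cont (h : LM (Set.range (X2.tr (K := K) χ)) w t y M e0 U δ L) (n : I → ℕ)
    (l : E → ℤ) (c : ℝ) :
    ContinuousOn (fun b : P → ℝ => Real.exp c * (∏ i, t i b ^ n i) *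
      Real.exp (∑ e, (l e : ℝ) * y e b)) (Set.range (X2.tr (K := K) χ) ∩ U) := by
  refine ContinuousOn.mul (ContinuousOn.mul continuousOn_const ?_) ?_
  · exact continuousOn_finsetProd _ fun i _ => (S6.t_cont h i).pow _
  · exact Real.continuous_exp.comp_continuousOn
      (continuousOn_finsetSum _ fun e _ => continuousOn_const.mul (S6.y_cont h e))

/-- The formulas at all points of `M(A2)` over the chart. -/
theorem mon2 (hC : Chars K P r χ χ')
    (h : LM (Set.range (X2.tr (K := K) χ)) w t y M e0 U δ L) (hN : IsNN K r χ χ' t y U nn μ cμ) :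
    (∀ z : Ber K (A2 K χ' nn), X2.tr χ (Ber.res (rho2 hC hN) z) ∈ U → ∀ i,
      t i (X2.tr χ (Ber.res (rho2 hC hN) z)) = Real.exp (cμ i) * z.v (chi2 K χ' nn (mu2 hN i))) ∧
    ∀ m : P2 nn, ∃ (l : E → ℤ) (c : ℝ), ∀ z : Ber K (A2 K χ' nn),
      X2.tr χ (Ber.res (rho2 hC hN) z) ∈ U → z.v (chi2 K χ' nn m) = Real.exp c *
        (∏ i, t i (X2.tr χ (Ber.res (rho2 hC hN) z)) ^ (nn m i).toNat) *
          Real.exp (∑ e, (l e : ℝ) * y e (X2.tr χ (Ber.res (rho2 hC hN) z))) := by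
  have hcont := S6.cont_tr hC hN
  have hS : IsOpen {z : Ber K (A2 K χ' nn) | X2.tr χ (Ber.res (rho2 hC hN) z) ∈ U} :=
    h.isOpen.preimage hcont
  have hmaps : Set.MapsTo (fun z : Ber K (A2 K χ' nn) => X2.tr χ (Ber.res (rho2 hC hN) z))
      {z : Ber K (A2 K χ' nn) | X2.tr χ (Ber.res (rho2 hC hN) z) ∈ U}
      (Set.range (X2.tr (K := K) χ) ∩ U) := fun z hz => ⟨⟨_, rfl⟩, hz⟩
  constructor
  · intro z hz i
    refine S6.agree hC hN (f := fun z => t i (X2.tr χ (Ber.res (rho2 hC hN) z)))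
      (g := fun z => Real.exp (cμ i) * z.v (chi2 K χ' nn (mu2 hN i))) hS
      ((S6.t_cont h i).comp hcont.continuousOn hmaps)
      (continuous_const.mul (Ber.continuous_v _)).continuousOn ?_ hz
    intro z' hz'
    have hz'' : X2.tr χ (Ber.res r z') ∈ U := by
      rw [← S6.res_res hC hN z']
      exact hz'
    have h1 := hN.tμ z' hz'' i
    rw [← S6.res_res hC hN z'] at h1
    exact h1
  · intro m
    obtain ⟨l, c, hlc⟩ := hN.mon m
    refine ⟨l, c, fun z hz => ?_⟩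
    refine S6.agree hC hN (f := fun z => z.v (chi2 K χ' nn m))
      (g := fun z => Real.exp c *
        (∏ i, t i (X2.tr χ (Ber.res (rho2 hC hN) z)) ^ (nn m i).toNat) *
          Real.exp (∑ e, (l e : ℝ) * y e (X2.tr χ (Ber.res (rho2 hC hN) z)))) hS
      (Ber.continuous_v _).continuousOn
      ((S6.F_cont h (fun i => (nn m i).toNat) l c).comp hcont.continuousOn hmaps) ?_ hz
    intro z' hz'
    have hz'' : X2.tr χ (Ber.res r z') ∈ U := by
      rw [← S6.res_res hC hN z']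
      exact hz'
    have h1 := hlc z' hz''
    have h2 : ∀ i, t i (X2.tr χ (Ber.res r z')) ^ nn m i =
        t i (X2.tr χ (Ber.res r z')) ^ (nn m i).toNat := by
      intro i
      conv_lhs => rw [← Int.toNat_of_nonneg (m.2 i)]
      rw [zpow_natCast]
    simp only [h2] at h1
    rw [← S6.res_res hC hN z'] at h1
    exact h1

/-- Every point of `M(A)` over the chart comes from a point of `M(A2)`. -/
theorem surj2 (hC : Chars K P r χ χ')
    (h : LM (Set.range (X2.tr (K := K) χ)) w t y M e0 U δ L) (hN : IsNN K r χ χ' t y U nn μ cμ)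
    (z : Ber K A) (hz : X2.tr χ z ∈ U) : ∃ z2 : Ber K (A2 K χ' nn),
      Ber.res (rho2 hC hN) z2 = z := by
  obtain ⟨-, h2⟩ := mon2 hC h hN
  choose l c hlc using h2
  obtain ⟨G, hG⟩ := (chars2 hC hN).exists_gens
  have hcomp := (chars2 hC hN).isCompact hG (fun m => Real.exp (c m) *
    (∏ i, t i (X2.tr χ z) ^ (nn m i).toNat) *
      Real.exp (∑ e, (l m e : ℝ) * y e (X2.tr χ z))) 1
  have hne : (Filter.comap (Ber.res r) (𝓝 z)).NeBot := by
    rw [Filter.comap_neBot_iff]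
    intro V hV
    exact dense_res hC z hV
  let F : Ultrafilter (Ber K A') := Ultrafilter.of (Filter.comap (Ber.res r) (𝓝 z))
  have hF : (F : Filter (Ber K A')) ≤ Filter.comap (Ber.res r) (𝓝 z) := Ultrafilter.of_le _
  have hFt : Filter.Tendsto (Ber.res r) (F : Filter (Ber K A')) (𝓝 z) :=
    Filter.map_le_iff_le_comap.2 hF
  have hU : ∀ᶠ z' in (F : Filter (Ber K A')), X2.tr χ (Ber.res r z') ∈ U :=
    (((X2.continuous_tr χ).tendsto z).comp hFt).eventually (h.isOpen.mem_nhds hz)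
  have hFw : Filter.Tendsto (fun z' => X2.tr χ (Ber.res r z')) (F : Filter (Ber K A'))
      (𝓝[Set.range (X2.tr (K := K) χ) ∩ U] (X2.tr χ z)) := by
    rw [tendsto_nhdsWithin_iff]
    refine ⟨((X2.continuous_tr χ).tendsto z).comp hFt, ?_⟩
    filter_upwards [hU] with z' hz'
    exact ⟨⟨_, rfl⟩, hz'⟩
  have hbd : ∀ m : P2 nn, ∀ᶠ z' in (F : Filter (Ber K A')),
      |(Ber.res (A2 K χ' nn).val z').v (chi2 K χ' nn m) - Real.exp (c m) *
        (∏ i, t i (X2.tr χ z) ^ (nn m i).toNat) *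
          Real.exp (∑ e, (l m e : ℝ) * y e (X2.tr χ z))| ≤ 1 := by
    intro m
    have h3 := (S6.F_cont h (fun i => (nn m i).toNat) (l m) (c m)
      (X2.tr χ z) ⟨⟨z, rfl⟩, hz⟩).tendsto.comp hFw
    have h4 := h3.eventually (Metric.closedBall_mem_nhds _ one_pos)
    filter_upwards [h4, hU] with z' hz1 hz2
    rw [Real.dist_eq] at hz1
    have h5 := hlc m (Ber.res (A2 K χ' nn).val z') (by rw [S6.res_res hC hN z']; exact hz2)
    rw [h5, S6.res_res hC hN z']
    exact hz1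
  have hall : ∀ᶠ z' in (F : Filter (Ber K A')), Ber.res (A2 K χ' nn).val z' ∈
      {z2 : Ber K (A2 K χ' nn) | ∀ m ∈ G, |z2.v (chi2 K χ' nn m) - Real.exp (c m) *
        (∏ i, t i (X2.tr χ z) ^ (nn m i).toNat) *
          Real.exp (∑ e, (l m e : ℝ) * y e (X2.tr χ z))| ≤ 1} :=
    (Filter.eventually_all_finset G).2 fun m _ => hbd m
  obtain ⟨z2, -, hz2⟩ := hcomp.ultrafilter_le_nhds (F.map (Ber.res (A2 K χ' nn).val))
    (Filter.le_principal_iff.2 hall)
  refine ⟨z2, ?_⟩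
  have h6 : Filter.Tendsto (Ber.res (A2 K χ' nn).val) (F : Filter (Ber K A')) (𝓝 z2) := hz2
  have h7 := ((Ber.res_continuous (rho2 hC hN)).tendsto z2).comp h6
  have h8 : (Ber.res (rho2 hC hN)) ∘ (Ber.res (A2 K χ' nn).val) = Ber.res r :=
    funext fun z' => S6.res_res hC hN z'
  rw [h8] at h7
  exact tendsto_nhds_unique h7 hFt

end Pool.Agent.TD.R


end
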