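import Mathlib
import Pool.Agent.DolbM.C19
import Pool.Agent.DolbM.C23
import Pool.Agent.DolbM.C26
import Pool.Agent.DolbM.C36

/-! Parts: TD.R.S7, TD.R.S8 -/

section

/-! Block R: the chart and the weights of the saturated algebra (module TD_R_S7). -/

open scoped Topology NNReal

namespace Pool.Agent.TD.R

open X2

variable {K A A' N I E : Type} [NormedField K] [IsUltrametricDist K] [CommRing A] [Algebra K A]
  [CommRing A'] [IsDomain A'] [Algebra K A'] [AddCommGroup N] {P : AddSubmonoid N}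
  {r : A →ₐ[K] A'} {χ : P → A} {χ' : N → A'} [Fintype I] [Fintype E] {w : P → ℝ}
  {t : I → (P → ℝ) → ℝ} {y : E → (P → ℝ) → ℝ} {M : Matroid E} {e0 : E} {U : Set (P → ℝ)} {δ : ℝ}
  {L : (I → ℝ) × (E → ℝ) → P → ℝ} {nn : N →+ (I → ℤ)} {μ : I → N} {cμ : I → ℝ}

set_option maxHeartbeats 4000000 in
/-- The chart of the saturated algebra. -/
theorem exists_cchart2 (hC : Chars K P r χ χ')
    (h : LM (Set.range (X2.tr (K := K) χ)) w t y M e0 U δ L) (hN : IsNN K r χ χ' t y U nn μ cμ)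
    (ch : E → P) (hch0 : ch e0 = 0) (hch : ∀ e, w (ch e) ≠ 0)
    (hy : ∀ b ∈ Set.range (X2.tr (K := K) χ) ∩ U, ∀ e,
      y e b = Real.log (b (ch e)) - Real.log (w (ch e))) :
    ∃ (w2 : P2 nn → ℝ) (U2 : Set (P2 nn → ℝ)) (δ2 : ℝ),
      CChart K (chi2 K χ' nn) w2 (mu2 hN) (fun e => (⟨ch e, fun i => hN.nonneg (ch e) i⟩ : P2 nn))
        M e0 U2 δ2 ∧ (∀ e, w2 ⟨ch e, fun i => hN.nonneg (ch e) i⟩ = w (ch e)) ∧
      {z : Ber K (A2 K χ' nn) | X2.tr (chi2 K χ' nn) z = w2} =
        {z | X2.tr χ (Ber.res (rho2 hC hN) z) = w} := by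
  classical
  have hres : ∀ z2 : Ber K (A2 K χ' nn), ∀ m : P,
      X2.tr χ (Ber.res (rho2 hC hN) z2) m =
        X2.tr (chi2 K χ' nn) z2 ⟨m, fun i => hN.nonneg m i⟩ := by
    intro z2 m
    show z2.v (rho2 hC hN (χ m)) = _
    rw [rho2_chi]
    rfl
  have hresf : ∀ z2 : Ber K (A2 K χ' nn), X2.tr χ (Ber.res (rho2 hC hN) z2) =
      fun m : P => X2.tr (chi2 K χ' nn) z2 ⟨m, fun i => hN.nonneg m i⟩ := fun z2 =>
    funext (hres z2)
  obtain ⟨z0, hz0⟩ := h.hw
  obtain ⟨zw, hzw⟩ := surj2 hC h hN z0 (by rw [hz0]; exact h.w_mem)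
  have hzww : X2.tr χ (Ber.res (rho2 hC hN) zw) = w := by rw [hzw, hz0]
  -- shrink
  have hV : {b : P → ℝ | ∀ e, b (ch e) ≠ 0} ∈ 𝓝[Set.range (X2.tr (K := K) χ)] w := by
    refine mem_nhdsWithin_of_mem_nhds ?_
    have : ∀ᶠ b in 𝓝 w, ∀ e, b (ch e) ≠ 0 := by
      rw [Filter.eventually_all]
      intro e
      exact (continuous_apply (ch e)).continuousAt.eventually_ne (hch e)
    exact this
  obtain ⟨U', δ', hU'U, -, -, h', hTU'⟩ := h.shrink hV one_pos
  obtain ⟨hmt, hmm⟩ := mon2 hC h hN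
  have hw2 : ∀ m : P, X2.tr (chi2 K χ' nn) zw ⟨m, fun i => hN.nonneg m i⟩ = w m := by
    intro m
    rw [← hres, hzww]
  have hye : ∀ z : Ber K (A2 K χ' nn), X2.tr χ (Ber.res (rho2 hC hN) z) ∈ U → ∀ e,
      ye (chi2 K χ' nn) (X2.tr (chi2 K χ' nn) zw)
        (fun e => (⟨ch e, fun i => hN.nonneg (ch e) i⟩ : P2 nn)) z e =
      y e (X2.tr χ (Ber.res (rho2 hC hN) z)) := by
    intro z hz e
    rw [hy _ ⟨⟨_, rfl⟩, hz⟩ e]
    show Real.log (X2.tr (chi2 K χ' nn) z ⟨ch e, _⟩) - Real.log (X2.tr (chi2 K χ' nn) zw ⟨ch e, _⟩)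
      = _
    rw [hw2, hres]
  have hδ' := h'.δpos
  set S : ℝ := ∑ i, |cμ i| with hS
  have hSi : ∀ i, cμ i ≤ S := fun i => (le_abs_self _).trans
    (Finset.single_le_sum (f := fun i => |cμ i|) (fun _ _ => abs_nonneg _) (Finset.mem_univ i))
  have hS0 : 0 ≤ S := Finset.sum_nonneg fun _ _ => abs_nonneg _
  refine ⟨X2.tr (chi2 K χ' nn) zw,
    {b2 | (fun m : P => b2 ⟨m, fun i => hN.nonneg m i⟩) ∈ U'}, δ' * Real.exp (-S), ?_, ?_, ?_⟩
  · refine
      { ground := h.ground
        loopless := h.loopless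
        ch0 := Subtype.ext (by rw [hch0]; rfl)
        hw := ⟨zw, rfl⟩
        wt := ?_
        wch := fun e => by rw [hw2]; exact hch e
        isOpen := ?_
        w_mem := ?_
        δpos := mul_pos hδ' (Real.exp_pos _)
        ne := ?_
        berg := ?_
        ex := ?_
        aff := ?_ }
    · intro i
      have h1 := hmt zw (by rw [hzww]; exact h.w_mem) i
      rw [hzww, h.tw] at h1
      exact (mul_eq_zero.1 h1.symm).resolve_left (Real.exp_pos _).ne'
    · exact h'.isOpen.preimage (continuous_pi fun m => continuous_apply _)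
    · show (fun m : P => X2.tr (chi2 K χ' nn) zw ⟨m, _⟩) ∈ U'
      rw [← hresf, hzww]
      exact h'.w_mem
    · intro z hz e
      have hz' : X2.tr χ (Ber.res (rho2 hC hN) z) ∈ U' := by
        rw [hresf]
        exact hz
      have h1 := hTU' ⟨⟨_, rfl⟩, hz'⟩ e
      rw [hres] at h1
      exact h1
    · intro z hz
      have hz' : X2.tr χ (Ber.res (rho2 hC hN) z) ∈ U' := by
        rw [hresf]
        exact hz
      have h1 := (h'.maps _ ⟨⟨_, rfl⟩, hz'⟩).2.2.2
      have h2 : ye (chi2 K χ' nn) (X2.tr (chi2 K χ' nn) zw)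
        (fun e => (⟨ch e, fun i => hN.nonneg (ch e) i⟩ : P2 nn)) z =
          (cm t y (X2.tr χ (Ber.res (rho2 hC hN) z))).2 := funext (hye z (hU'U hz'))
      rw [h2]
      exact h1
    · intro r' yy hr' hyy hy0 hB
      have hp : ((fun i => Real.exp (cμ i) * (r' i : ℝ), yy) : (I → ℝ) × (E → ℝ)) ∈
          Bx I M e0 δ' := by
        refine ⟨fun i => ⟨mul_nonneg (Real.exp_pos _).le (r' i).2, ?_⟩, fun e => ?_, hy0, hB⟩
        · calc Real.exp (cμ i) * (r' i : ℝ) < Real.exp (cμ i) * (δ' * Real.exp (-S)) :=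
                mul_lt_mul_of_pos_left (hr' i) (Real.exp_pos _)
            _ = δ' * Real.exp (cμ i - S) := by
                rw [sub_eq_add_neg, Real.exp_add]
                ring
            _ ≤ δ' * 1 := by
                refine mul_le_mul_of_nonneg_left ?_ hδ'.le
                rw [Real.exp_le_one_iff]
                linarith [hSi i]
            _ = δ' := mul_one _
        · refine (hyy e).trans_le ?_
          calc δ' * Real.exp (-S) ≤ δ' * 1 := by
                refine mul_le_mul_of_nonneg_left ?_ hδ'.le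
                rw [Real.exp_le_one_iff]
                linarith
            _ = δ' := mul_one _
      obtain ⟨⟨z1, hz1⟩, hLU⟩ := h'.Lmaps _ hp
      obtain ⟨z2, hz2⟩ := surj2 hC h hN z1 (by rw [hz1]; exact hU'U hLU)
      have hz2' : X2.tr χ (Ber.res (rho2 hC hN) z2) =
          L (fun i => Real.exp (cμ i) * (r' i : ℝ), yy) := by rw [hz2, hz1]
      have hz2U : X2.tr χ (Ber.res (rho2 hC hN) z2) ∈ U' := by rw [hz2']; exact hLU
      have hrt := h'.right _ hp
      refine ⟨z2, ?_, fun i => ?_, fun e => ?_⟩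
      · show (fun m : P => X2.tr (chi2 K χ' nn) z2 ⟨m, _⟩) ∈ U'
        rw [← hresf]
        exact hz2U
      · have h1 := hmt z2 (hU'U hz2U) i
        have h2 : t i (L (fun i => Real.exp (cμ i) * (r' i : ℝ), yy)) =
            Real.exp (cμ i) * (r' i : ℝ) := congrFun (congrArg Prod.fst hrt) i
        rw [hz2', h2] at h1
        exact (mul_left_cancel₀ (Real.exp_pos _).ne' h1).symm
      · rw [hye z2 (hU'U hz2U), hz2']
        exact congrFun (congrArg Prod.snd hrt) e
    · intro m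
      obtain ⟨l, c, hc⟩ := hmm m
      refine ⟨fun i => (nn m i).toNat, l, c + ∑ i, cμ i * ((nn m i).toNat : ℝ), ?_⟩
      intro z hz
      have hz' : X2.tr χ (Ber.res (rho2 hC hN) z) ∈ U' := by
        rw [hresf]
        exact hz
      rw [hc z (hU'U hz')]
      have e1 : ∏ i, t i (X2.tr χ (Ber.res (rho2 hC hN) z)) ^ (nn m i).toNat =
          Real.exp (∑ i, cμ i * ((nn m i).toNat : ℝ)) *
            ∏ i, z.v (chi2 K χ' nn (mu2 hN i)) ^ (nn m i).toNat := by
        rw [Real.exp_sum, ← Finset.prod_mul_distrib]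
        refine Finset.prod_congr rfl fun i _ => ?_
        rw [hmt z (hU'U hz') i, mul_pow, ← Real.exp_nat_mul, mul_comm (cμ i)]
      have e2 : ∑ e, (l e : ℝ) * y e (X2.tr χ (Ber.res (rho2 hC hN) z)) =
          ∑ e, (l e : ℝ) * ye (chi2 K χ' nn) (X2.tr (chi2 K χ' nn) zw)
        (fun e => (⟨ch e, fun i => hN.nonneg (ch e) i⟩ : P2 nn)) z e :=
        Finset.sum_congr rfl fun e _ => by rw [hye z (hU'U hz')]
      rw [e1, e2, Real.exp_add]
      ring
  · intro e
    exact hw2 _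
  · ext z
    constructor
    · intro hz
      have hz1 : X2.tr (chi2 K χ' nn) z = X2.tr (chi2 K χ' nn) zw := hz
      show X2.tr χ (Ber.res (rho2 hC hN) z) = w
      rw [hresf, hz1, ← hresf, hzww]
    · intro hz
      have hz1 : X2.tr χ (Ber.res (rho2 hC hN) z) = w := hz
      show X2.tr (chi2 K χ' nn) z = X2.tr (chi2 K χ' nn) zw
      funext m
      obtain ⟨l, c, hc⟩ := hmm m
      show z.v (chi2 K χ' nn m) = zw.v (chi2 K χ' nn m)
      rw [hc z (by rw [hz1]; exact h.w_mem), hc zw (by rw [hzww]; exact h.w_mem), hz1, hzww]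

omit [IsUltrametricDist K] [IsDomain A'] in
/-- The weight condition only depends on the open stratum. -/
theorem wt2 (hC : Chars K P r χ χ') (hN : IsNN K r χ χ' t y U nn μ cμ) (hW : Wt K χ χ') :
    Wt K (chi2 K χ' nn) χ' := by
  classical
  intro b hb Λ hΛ m hm
  have hC2 := chars2 hC hN
  have hext : ∀ m2 : P2 nn, ∃ x y : P, (m2 : N) = (x : N) - y := fun m2 => hC.gen m2
  choose fx fy hxy using hext
  let ext : (P → ℝ) → (P2 nn → ℝ) := fun b' m2 => b' (fx m2) / b' (fy m2)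
  have hmul : ∀ (l : N →+ ℝ) (m2 : P2 nn),
      Real.exp (l (fx m2)) / Real.exp (l (fy m2)) = Real.exp (l m2) := by
    intro l m2
    rw [← Real.exp_sub, ← map_sub, ← hxy]
  have hextb : ext (fun m : P => Real.exp (b m)) = fun m2 : P2 nn => Real.exp (b m2) := by
    funext m2
    exact hmul b m2
  obtain ⟨O2, hO2, hbO2, hO2Λ⟩ := hΛ
  have hcont : ContinuousAt ext (fun m : P => Real.exp (b m)) := by
    refine continuousAt_pi.2 fun m2 => ?_
    exact (continuous_apply _).continuousAt.div (continuous_apply _).continuousAt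
      (Real.exp_pos _).ne'
  have h1 : ∀ᶠ b' in 𝓝 (fun m : P => Real.exp (b m)), ext b' ∈ O2 := by
    refine hcont.eventually (hO2.mem_nhds ?_)
    rw [hextb]
    exact hbO2
  obtain ⟨G, hG⟩ := hC.exists_gens
  have h2 : ∀ᶠ b' in 𝓝 (fun m : P => Real.exp (b m)), ∀ g ∈ G, b' g ≠ 0 := by
    rw [Filter.eventually_all_finset]
    intro g _
    exact (continuous_apply g).continuousAt.eventually_ne (Real.exp_pos _).ne'
  obtain ⟨O, hOs, hO, hbO⟩ := mem_nhds_iff.1 (h1.and h2)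
  have hres : ∀ z2 : Ber K (A2 K χ' nn), ∀ m : P,
      X2.tr χ (Ber.res (rho2 hC hN) z2) m =
        X2.tr (chi2 K χ' nn) z2 ⟨m, fun i => hN.nonneg m i⟩ := by
    intro z2 m
    show z2.v (rho2 hC hN (χ m)) = _
    rw [rho2_chi]
    rfl
  refine hW b ?_ Λ ⟨O, hO, hbO, ?_⟩ m hm
  · obtain ⟨z2, hz2⟩ := hb
    refine ⟨Ber.res (rho2 hC hN) z2, ?_⟩
    funext m
    rw [hres, hz2]
  · intro b' hb'
    obtain ⟨hb1, hb2⟩ := hOs hb'
    constructor
    · rintro ⟨z, rfl⟩
      have hall : ∀ m, z.v (χ m) ≠ 0 := by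
        intro m
        have hmem : m ∈ AddSubmonoid.closure (G : Set P) := by rw [hG]; trivial
        induction hmem using AddSubmonoid.closure_induction with
        | mem x hx => exact hb2 x hx
        | zero =>
          rw [hC.zero, z.one]
          exact one_ne_zero
        | add x y _ _ hx hy =>
          rw [hC.add, z.mul]
          exact mul_ne_zero hx hy
      obtain ⟨z', rfl⟩ := hC.exists_ext z hall
      have e1 : ext (X2.tr χ (Ber.res r z')) = X2.tr (chi2 K χ' nn)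
          (Ber.res (A2 K χ' nn).val z') := by
        funext m2
        show X2.tr χ (Ber.res r z') (fx m2) / X2.tr χ (Ber.res r z') (fy m2) = _
        rw [hC.tr_res, hC.tr_res, hC2.tr_res]
        rw [div_eq_iff (hC.v_ne z' _), ← z'.mul, ← hC.add', hxy]
        congr 2
        abel
      rw [e1] at hb1
      obtain ⟨l, hl, hl2⟩ := (hO2Λ _ hb1).1 ⟨_, rfl⟩
      refine ⟨l, hl, fun m => ?_⟩
      have h3 := hl2 ⟨m, fun i => hN.nonneg m i⟩
      rw [hC2.tr_res] at h3
      rw [hC.tr_res]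
      exact h3
    · rintro ⟨l, hl, hl2⟩
      have e1 : ∀ m2 : P2 nn, ext b' m2 = Real.exp (b m2) * Real.exp (l m2) := by
        intro m2
        show b' (fx m2) / b' (fy m2) = _
        rw [hl2, hl2, mul_div_mul_comm, hmul, hmul]
      obtain ⟨z2, hz2⟩ := (hO2Λ _ hb1).2 ⟨l, hl, e1⟩
      refine ⟨Ber.res (rho2 hC hN) z2, ?_⟩
      funext m
      rw [hres, hz2, e1, hl2]

end Pool.Agent.TD.R


end

section

/-! Block R: smooth points with weights one have arrangement fibres (module TD_R_S8). -/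

open scoped Topology NNReal

namespace Pool.Agent.TD.R

open X2

variable {K A A' N k E : Type} [NormedField K] [IsUltrametricDist K] [CompleteSpace K]
  [CommRing A] [Algebra K A] [CommRing A'] [IsDomain A'] [Algebra K A'] [AddCommGroup N]
  {P : AddSubmonoid N} {r : A →ₐ[K] A'} {χ : P → A} {χ' : N → A'} [Fintype k] [Fintype E]
  {w : P → ℝ} {x : k → (P → ℝ) → ℝ} {y : E → (P → ℝ) → ℝ} {M : Matroid E} {e0 : E}
  {U : Set (P → ℝ)}

namespace S8

/-- Rewriting the data of an arrangement fibre. -/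
theorem cast {K A I E : Type} [NormedField K] [CommRing A] [Algebra K A] {D : NDat K A I E}
    {e0 : E} {T : E → A} {F : Set (Ber K A)} (he0 : D.e0 = e0) (hT : D.T = T) (hF : D.Fw = F)
    (h : ∃ (B : Set E) (c0 : (Bᶜ : Set E) → K) (c : (Bᶜ : Set E) → (B \ {D.e0} : Set E) → K),
      ArrFib K D.T D.ρ D.e0 B c0 c D.Fw) :
    ∃ (B : Set E) (c0 : (Bᶜ : Set E) → K) (c : (Bᶜ : Set E) → (B \ {e0} : Set E) → K),
      ArrFib K T D.ρ e0 B c0 c F := by
  subst he0 hT hF
  exact h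

end S8

/-- The local structure at a smooth point: a centred chart of the tropicalization whose finite
coordinates are characters `ch e`, and the fibre of the tropicalization map is an arrangement
fibre with the functions `χ (ch e)`. -/
theorem exists_arrFib (hC : Chars K P r χ χ')
    (hG : GChart (Set.range (X2.tr (K := K) χ)) w x y M e0 U)
    (hu : ∀ m : P, w m ≠ 0 → ∃ m' : P, m + m' = 0) (hW : Wt K χ χ') :
    ∃ (I' E' : Type) (_ : Fintype I') (_ : Fintype E') (t' : I' → (P → ℝ) → ℝ)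
      (y' : E' → (P → ℝ) → ℝ) (M' : Matroid E') (e0' : E') (U' : Set (P → ℝ)) (δ' : ℝ)
      (L' : (I' → ℝ) × (E' → ℝ) → P → ℝ) (ch : E' → P) (ρ : E' → ℝ≥0) (B : Set E')
      (c0 : (Bᶜ : Set E') → K) (c : (Bᶜ : Set E') → (B \ {e0'} : Set E') → K),
      LM (Set.range (X2.tr (K := K) χ)) w t' y' M' e0' U' δ' L' ∧ ch e0' = 0 ∧
      (∀ e, w (ch e) ≠ 0) ∧
      (∀ b ∈ Set.range (X2.tr (K := K) χ) ∩ U', ∀ e,
        y' e b = Real.log (b (ch e)) - Real.log (w (ch e))) ∧
      ArrFib K (fun e => χ (ch e)) ρ e0' B c0 c {z | X2.tr χ z = w} := by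
  classical
  haveI : Fintype {i : k // x i w = 0} := Fintype.ofFinite _
  haveI : Fintype {i : k // x i w ≠ 0} := Fintype.ofFinite _
  obtain ⟨M', U1, δ, L, hLM⟩ := hG.exists_LM
  have hT : IsTr (Set.range (X2.tr (K := K) χ)) := isTr_range hC
  have hw0 : w 0 = 1 := (hT w hLM.hw).1
  choose ch1 hch1 hy1 using fun e => hLM.coord_y hT hu e
  set y' : E ⊕ {i : k // x i w ≠ 0} → (P → ℝ) → ℝ := Sum.elim (fun e b => y e b - y e w)
    fun (i : {i : k // x i w ≠ 0}) b => Real.log (x i.1 b) - Real.log (x i.1 w) with hy'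
  obtain ⟨ch, hch⟩ : ∃ ch : E ⊕ {i : k // x i w ≠ 0} → P, ch (Sum.inl e0) = 0 ∧
      ∀ e, e ≠ Sum.inl e0 → ch e = ch1 e :=
    ⟨Function.update ch1 (Sum.inl e0) 0, Function.update_self _ _ _,
      fun e he => Function.update_of_ne he _ _⟩
  have hchw : ∀ e, w (ch e) ≠ 0 := by
    intro e
    by_cases he : e = Sum.inl e0
    · rw [he, hch.1, hw0]
      exact one_ne_zero
    · rw [hch.2 e he]
      exact hch1 e
  have hev : ∀ e, ∀ᶠ b in 𝓝[Set.range (X2.tr (K := K) χ)] w,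
      y' e b = Real.log (b (ch e)) - Real.log (w (ch e)) := by
    intro e
    by_cases he : e = Sum.inl e0
    · have h1 : ∀ᶠ b in 𝓝[Set.range (X2.tr (K := K) χ)] w, b ∈ U1 :=
        mem_nhdsWithin_of_mem_nhds (hLM.isOpen.mem_nhds hLM.w_mem)
      filter_upwards [h1, self_mem_nhdsWithin] with b hb1 hb2
      rw [he, hch.1, hw0, (hT b hb2).1, sub_self]
      exact (hLM.maps b ⟨hb2, hb1⟩).2.2.1
    · rw [hch.2 e he]
      exact hy1 e
  obtain ⟨U', δ', -, -, -, hLM', hsub⟩ := hLM.shrink (Filter.eventually_all.2 hev) one_pos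
  have hyb : ∀ b ∈ Set.range (X2.tr (K := K) χ) ∩ U', ∀ e,
      y' e b = Real.log (b (ch e)) - Real.log (w (ch e)) := fun b hb => hsub hb
  obtain ⟨nn, μ, cμ, hN⟩ := exists_nn hC hLM'
  obtain ⟨w2, U2, δ2, hX, -, hF⟩ := exists_cchart2 hC hLM' hN ch hch.1 hchw hyb
  have hC2 := chars2 hC hN
  haveI : Algebra.FiniteType K (A2 K χ' nn) := hC2.finiteType
  obtain ⟨D, hD, -, hDT, hDe, -, -, hDF⟩ := X2.exists_ok hC2 hX (wt2 hC hN hW)
  obtain ⟨B', c0', c', S⟩ := NDat.str hD
  obtain ⟨B, c0, c, h2⟩ := S8.cast hDe hDT hDF ⟨B', c0', c', arrFib_of_str hD S⟩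
  have h3 : ArrFib K (fun e => rho2 hC hN (χ (ch e))) D.ρ (Sum.inl e0) B c0 c
      {z | X2.tr (chi2 K χ' nn) z = w2} := by
    have e1 : (fun e => rho2 hC hN (χ (ch e))) =
        fun e => chi2 K χ' nn (⟨ch e, fun i => hN.nonneg (ch e) i⟩ : P2 nn) :=
      funext fun e => rho2_chi hC hN (ch e)
    rw [e1]
    exact h2
  have h4 := h3.descend (rho2 hC hN)
  have h5 : Ber.res (rho2 hC hN) '' {z | X2.tr (chi2 K χ' nn) z = w2} =
      {z | X2.tr χ z = w} := by
    rw [hF]
    ext z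
    constructor
    · rintro ⟨z2, hz2, rfl⟩
      exact hz2
    · intro hz
      have hz' : X2.tr χ z = w := hz
      obtain ⟨z2, hz2⟩ := surj2 hC hLM' hN z (by rw [hz']; exact hLM'.w_mem)
      exact ⟨z2, by
        show X2.tr χ (Ber.res (rho2 hC hN) z2) = w
        rw [hz2]
        exact hz', hz2⟩
  rw [h5] at h4
  exact ⟨_, _, inferInstance, inferInstance, _, y', M', Sum.inl e0, U', δ', L, ch, D.ρ, B, c0, c,
    hLM', hch.1, hchw, hyb, h4⟩

end Pool.Agent.TD.R


end
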